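import Mathlib

set_option autoImplicit false

/-! Convex billiard tables, billiard paths and convex caustics in the plane (identified with `ℂ`). -/

namespace Pool.Agent.MP_b87ea9_an

/-- A table: a plane convex body (compact, convex, nonempty interior). -/
def IsTable (T : Set ℂ) : Prop := IsCompact T ∧ Convex ℝ T ∧ (interior T).Nonempty

/-- The line through `p` with direction `u` supports `C`: it meets `C`, and `C` lies in one of the
two closed half-planes bounded by it. -/
def SupportsLine (p u : ℂ) (C : Set ℂ) : Prop :=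
  (∃ z ∈ C, (starRingEnd ℂ u * (z - p)).im = 0) ∧
    ((∀ z ∈ C, 0 ≤ (starRingEnd ℂ u * (z - p)).im) ∨
      (∀ z ∈ C, (starRingEnd ℂ u * (z - p)).im ≤ 0))

/-- The boundary of `T` is a simple closed curve `Γ` parametrised by arc length, of class `C²`,
whose curvature `s ↦ ‖Γ'' s‖` is `m` times continuously differentiable and everywhere positive. -/
def HasCurvature (m : ℕ) (T : Set ℂ) : Prop :=
  ∃ (l : ℝ) (Γ : ℝ → ℂ), 0 < l ∧ (∀ s, Γ (s + l) = Γ s) ∧ Set.InjOn Γ (Set.Ico 0 l) ∧
    Set.range Γ = frontier T ∧ ContDiff ℝ 2 Γ ∧ (∀ s, ‖deriv Γ s‖ = 1) ∧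
    ContDiff ℝ m (fun s => ‖deriv (deriv Γ) s‖) ∧ ∀ s, 0 < ‖deriv (deriv Γ) s‖

/-- The segment from `a` to `p` is reflected at the boundary point `p` of `T` into the segment from
`p` to `b`: the direction of the second is the mirror image of the direction of the first in every
supporting line of `T` at `p` (for a differentiable boundary there is just one: the tangent). -/
def Reflects (T : Set ℂ) (a p b : ℂ) : Prop :=
  ∀ τ : ℂ, ‖τ‖ = 1 → SupportsLine p τ T →
    (b - p) / (‖b - p‖ : ℂ) = τ ^ 2 * starRingEnd ℂ ((p - a) / (‖p - a‖ : ℂ))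

/-- A billiard path in `T` with `n` segments, from `p 0` through `p 1, …, p (n-1)` to `p n`:
consecutive segments meet at boundary points and obey the reflection law there. -/
def IsBilliardPath (T : Set ℂ) (n : ℕ) (p : ℕ → ℂ) : Prop :=
  (∀ i, i ≤ n → p i ∈ T) ∧ (∀ i, i < n → p i ≠ p (i + 1)) ∧
    ∀ i, 0 < i → i < n → p i ∈ frontier T ∧ Reflects T (p (i - 1)) (p i) (p (i + 1))

/-- A convex caustic of `T`: a compact convex set with nonempty interior, contained in the interior
of `T`, such that whenever the first segment of a billiard path lies in a supporting line of it, so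
does every later segment. -/
def IsConvexCaustic (T C : Set ℂ) : Prop :=
  IsCompact C ∧ Convex ℝ C ∧ (interior C).Nonempty ∧ C ⊆ interior T ∧
    ∀ (n : ℕ) (p : ℕ → ℂ), IsBilliardPath T n p → 0 < n →
      SupportsLine (p 0) (p 1 - p 0) C → ∀ i, i < n → SupportsLine (p i) (p (i + 1) - p i) C

/-- The statement `P(m)`: every table whose curvature is `C^m` and positive has a convex caustic. -/
def EveryTableHasCaustic (m : ℕ) : Prop :=
  ∀ T : Set ℂ, IsTable T → HasCurvature m T → ∃ C : Set ℂ, IsConvexCaustic T C

end Pool.Agent.MP_b87ea9_an
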