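import Mathlib
import Pool.Agent.Lib.MP_b87ea9_an.Defs

set_option autoImplicit false

/-! The closed convex curve with radius of curvature `ρ` as a function of the tangent angle. -/

namespace Pool.Agent.MP_b87ea9_an

open Real MeasureTheory intervalIntegral

/-- positive continuous `π`-periodic radius of curvature -/
structure IsRho (ρ : ℝ → ℝ) : Prop where
  cont : Continuous ρ
  pos : ∀ t, 0 < ρ t
  per : ∀ t, ρ (t + π) = ρ t

/-- component of `z` orthogonal to the direction `μ` (on the left) -/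
noncomputable def S (μ : ℝ) (z : ℂ) : ℝ := z.im * cos μ - z.re * sin μ

/-- component of `z` along the direction `μ` -/
noncomputable def Rr (μ : ℝ) (z : ℂ) : ℝ := z.re * cos μ + z.im * sin μ

lemma S_sub (μ : ℝ) (z w : ℂ) : S μ (z - w) = S μ z - S μ w := by
  simp [S]; ring

lemma S_add (μ : ℝ) (z w : ℂ) : S μ (z + w) = S μ z + S μ w := by
  simp [S]; ring

lemma S_neg (μ : ℝ) (z : ℂ) : S μ (-z) = - S μ z := by
  simp [S]; ring

lemma S_pi (μ : ℝ) (z : ℂ) : S (μ + π) z = - S μ z := by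
  simp [S, cos_add, sin_add]; ring

lemma S_two_pi (μ : ℝ) (z : ℂ) : S (μ + 2 * π) z = S μ z := by
  simp [S]

lemma S_shift (μ α : ℝ) (z : ℂ) : S (μ + α) z = S μ z * cos α - Rr μ z * sin α := by
  simp [S, Rr, cos_add, sin_add]; ring

lemma decomp (μ : ℝ) (z : ℂ) :
    z = Complex.exp (μ * Complex.I) * ((Rr μ z : ℂ) + (S μ z : ℂ) * Complex.I) := by
  rw [Complex.exp_mul_I]
  apply Complex.ext
  · simp [S, Rr, ← Complex.ofReal_cos, ← Complex.ofReal_sin]
    have := Real.sin_sq_add_cos_sq μ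
    linear_combination (-z.re) * this
  · simp [S, Rr, ← Complex.ofReal_cos, ← Complex.ofReal_sin]
    have := Real.sin_sq_add_cos_sq μ
    linear_combination (-z.im) * this

lemma S_exp (μ α R : ℝ) : S μ ((R : ℂ) * Complex.exp (α * Complex.I)) = R * sin (α - μ) := by
  rw [Complex.exp_mul_I]
  simp [S, ← Complex.ofReal_cos, ← Complex.ofReal_sin, sin_sub]
  ring

lemma conj_exp_im (μ : ℝ) (z : ℂ) :
    (starRingEnd ℂ (Complex.exp (μ * Complex.I)) * z).im = S μ z := by
  rw [Complex.exp_mul_I]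
  simp [S, ← Complex.ofReal_cos, ← Complex.ofReal_sin]
  ring

/-- first coordinate integral -/
noncomputable def Xc (ρ : ℝ → ℝ) (t : ℝ) : ℝ := ∫ τ in (0 : ℝ)..t, ρ τ * cos τ
/-- second coordinate integral -/
noncomputable def Yc (ρ : ℝ → ℝ) (t : ℝ) : ℝ := ∫ τ in (0 : ℝ)..t, ρ τ * sin τ

/-- the boundary curve parametrised by the tangent angle -/
noncomputable def gam (ρ : ℝ → ℝ) (t : ℝ) : ℂ :=
  ⟨Xc ρ t - Xc ρ π / 2, Yc ρ t - Yc ρ π / 2⟩

section

variable {ρ : ℝ → ℝ} (h : IsRho ρ)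

include h

lemma IsRho.two_pi (t : ℝ) : ρ (t + 2 * π) = ρ t := by
  have : t + 2 * π = (t + π) + π := by ring
  rw [this, h.per, h.per]

lemma ii (f : ℝ → ℝ) (hf : Continuous f) (a b : ℝ) :
    IntervalIntegrable (fun τ => ρ τ * f τ) volume a b :=
  (h.cont.mul hf).intervalIntegrable a b

lemma S_gam (μ s t : ℝ) :
    S μ (gam ρ s - gam ρ t) = ∫ τ in t..s, ρ τ * sin (τ - μ) := by
  have h1 : Xc ρ s - Xc ρ t = ∫ τ in t..s, ρ τ * cos τ := by
    unfold Xc
    rw [integral_interval_sub_left (ii h _ continuous_cos _ _) (ii h _ continuous_cos _ _)]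
  have h2 : Yc ρ s - Yc ρ t = ∫ τ in t..s, ρ τ * sin τ := by
    unfold Yc
    rw [integral_interval_sub_left (ii h _ continuous_sin _ _) (ii h _ continuous_sin _ _)]
  have h3 : S μ (gam ρ s - gam ρ t) = (Yc ρ s - Yc ρ t) * cos μ - (Xc ρ s - Xc ρ t) * sin μ := by
    simp [S, gam]
  rw [h3, h1, h2, ← intervalIntegral.integral_mul_const, ← intervalIntegral.integral_mul_const,
    ← intervalIntegral.integral_sub]
  · refine integral_congr fun τ _ => ?_
    simp only [sin_sub]
    ring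
  · exact (ii h _ continuous_sin _ _).mul_const _
  · exact (ii h _ continuous_cos _ _).mul_const _

lemma gam_pi (t : ℝ) : gam ρ (t + π) = - gam ρ t := by
  have hX : Xc ρ (t + π) = Xc ρ π - Xc ρ t := by
    have h1 : Xc ρ (t + π) - Xc ρ π = ∫ τ in π..(t + π), ρ τ * cos τ := by
      unfold Xc
      rw [integral_interval_sub_left (ii h _ continuous_cos _ _) (ii h _ continuous_cos _ _)]
    have h2 : ∫ τ in π..(t + π), ρ τ * cos τ = ∫ τ in (0 : ℝ)..t, ρ (τ + π) * cos (τ + π) := by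
      rw [integral_comp_add_right (fun τ => ρ τ * cos τ)]
      simp
    have h3 : ∫ τ in (0 : ℝ)..t, ρ (τ + π) * cos (τ + π) = - Xc ρ t := by
      unfold Xc
      rw [← intervalIntegral.integral_neg]
      refine integral_congr fun τ _ => ?_
      simp [h.per]
    linarith
  have hY : Yc ρ (t + π) = Yc ρ π - Yc ρ t := by
    have h1 : Yc ρ (t + π) - Yc ρ π = ∫ τ in π..(t + π), ρ τ * sin τ := by
      unfold Yc
      rw [integral_interval_sub_left (ii h _ continuous_sin _ _) (ii h _ continuous_sin _ _)]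
    have h2 : ∫ τ in π..(t + π), ρ τ * sin τ = ∫ τ in (0 : ℝ)..t, ρ (τ + π) * sin (τ + π) := by
      rw [integral_comp_add_right (fun τ => ρ τ * sin τ)]
      simp
    have h3 : ∫ τ in (0 : ℝ)..t, ρ (τ + π) * sin (τ + π) = - Yc ρ t := by
      unfold Yc
      rw [← intervalIntegral.integral_neg]
      refine integral_congr fun τ _ => ?_
      simp [h.per]
    linarith
  apply Complex.ext
  · simp only [gam, Complex.neg_re, hX]; ring
  · simp only [gam, Complex.neg_im, hY]; ring

lemma gam_two_pi (t : ℝ) : gam ρ (t + 2 * π) = gam ρ t := by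
  have : t + 2 * π = (t + π) + π := by ring
  rw [this, gam_pi h, gam_pi h, neg_neg]

lemma gam_int (t : ℝ) (k : ℤ) : gam ρ (t + k * (2 * π)) = gam ρ t := by
  have : Function.Periodic (gam ρ) (2 * π) := gam_two_pi h
  exact this.int_mul k t

/-- integrals of `ρ sin` over intervals where `sin` is positive -/
lemma int_pos {a b μ : ℝ} (hab : a < b) (h1 : μ ≤ a) (h2 : b ≤ μ + π) :
    0 < ∫ τ in a..b, ρ τ * sin (τ - μ) := by
  refine intervalIntegral_pos_of_pos_on ?_ ?_ hab
  · exact ii h (fun τ => sin (τ - μ)) (by fun_prop) a b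
  · intro x hx
    exact mul_pos (h.pos x) (sin_pos_of_pos_of_lt_pi (by linarith [hx.1]) (by linarith [hx.2]))

lemma int_neg {a b μ : ℝ} (hab : a < b) (h1 : μ - π ≤ a) (h2 : b ≤ μ) :
    ∫ τ in a..b, ρ τ * sin (τ - μ) < 0 := by
  have h3 := int_pos h hab (μ := μ - π) h1 (by linarith)
  have h4 : ∫ τ in a..b, ρ τ * sin (τ - (μ - π)) = - ∫ τ in a..b, ρ τ * sin (τ - μ) := by
    rw [← intervalIntegral.integral_neg]
    refine integral_congr fun τ _ => ?_
    have : τ - (μ - π) = (τ - μ) + π := by ring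
    simp only [this, sin_add_pi]
    ring
  linarith

lemma S_pos {s t : ℝ} (h1 : t < s) (h2 : s < t + 2 * π) : 0 < S t (gam ρ s - gam ρ t) := by
  by_cases hs : s ≤ t + π
  · rw [S_gam h]
    exact int_pos h h1 le_rfl hs
  · push Not at hs
    rw [← gam_two_pi h t, S_gam h, integral_symm]
    have := int_neg h (a := s) (b := t + 2 * π) (μ := t + 2 * π) h2 (by linarith) le_rfl
    have h4 : ∫ τ in s..(t + 2 * π), ρ τ * sin (τ - (t + 2 * π)) =
        ∫ τ in s..(t + 2 * π), ρ τ * sin (τ - t) := by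
      refine integral_congr fun τ _ => ?_
      have : τ - t = (τ - (t + 2 * π)) + 2 * π := by ring
      simp only [this, sin_add_two_pi]
    linarith

omit h in
lemma exists_shift (s t : ℝ) : ∃ k : ℤ, t ≤ s + k * (2 * π) ∧ s + k * (2 * π) < t + 2 * π := by
  have hp : 0 < 2 * π := by positivity
  refine ⟨- toIcoDiv hp t s, ?_⟩
  have := sub_toIcoDiv_zsmul_mem_Ico hp t s
  rw [zsmul_eq_mul] at this
  push_cast
  constructor
  · linarith [this.1]
  · linarith [this.2]

lemma S_nonneg (s t : ℝ) : 0 ≤ S t (gam ρ s - gam ρ t) := by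
  obtain ⟨k, h1, h2⟩ := exists_shift s t
  rw [← gam_int h s k]
  rcases h1.eq_or_lt with h3 | h3
  · rw [← h3]; simp [S]
  · exact (S_pos h h3 h2).le

lemma hasDeriv_Xc (t : ℝ) : HasDerivAt (Xc ρ) (ρ t * cos t) t :=
  integral_hasDerivAt_right (ii h _ continuous_cos _ _)
    ((h.cont.mul continuous_cos).stronglyMeasurableAtFilter _ _)
    (h.cont.mul continuous_cos).continuousAt

lemma hasDeriv_Yc (t : ℝ) : HasDerivAt (Yc ρ) (ρ t * sin t) t :=
  integral_hasDerivAt_right (ii h _ continuous_sin _ _)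
    ((h.cont.mul continuous_sin).stronglyMeasurableAtFilter _ _)
    (h.cont.mul continuous_sin).continuousAt

lemma hasDeriv_gam (t : ℝ) :
    HasDerivAt (gam ρ) ((ρ t : ℂ) * Complex.exp (t * Complex.I)) t := by
  have h1 : HasDerivAt (fun t => ((Xc ρ t - Xc ρ π / 2 : ℝ) : ℂ)) ((ρ t * cos t : ℝ) : ℂ) t :=
    ((hasDeriv_Xc h t).sub_const _).ofReal_comp
  have h2 : HasDerivAt (fun t => ((Yc ρ t - Yc ρ π / 2 : ℝ) : ℂ)) ((ρ t * sin t : ℝ) : ℂ) t :=
    ((hasDeriv_Yc h t).sub_const _).ofReal_comp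
  have h3 := h1.add (h2.mul_const Complex.I)
  have h4 : gam ρ = fun t => ((Xc ρ t - Xc ρ π / 2 : ℝ) : ℂ) +
      ((Yc ρ t - Yc ρ π / 2 : ℝ) : ℂ) * Complex.I := by
    funext t
    apply Complex.ext <;> simp [gam]
  rw [h4]
  refine h3.congr_deriv ?_
  rw [Complex.exp_mul_I]
  push_cast
  ring

lemma gam_cont : Continuous (gam ρ) :=
  continuous_iff_continuousAt.mpr fun t => (hasDeriv_gam h t).continuousAt

omit h in
lemma S_cont (μ : ℝ) : Continuous (S μ) := by
  unfold S
  fun_prop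

/-- The chord through `gam t` in the direction `t + α`. -/
lemma exists_chord (t : ℝ) {α : ℝ} (h1 : 0 < α) (h2 : α < π) :
    ∃ s R : ℝ, t + α < s ∧ s < t + α + π ∧ 0 < R ∧
      gam ρ s - gam ρ t = (R : ℂ) * Complex.exp (((t + α : ℝ) : ℂ) * Complex.I) ∧
      ∫ τ in t..s, ρ τ * sin (τ - (t + α)) = 0 := by
  have hc : Continuous (fun s => S (t + α) (gam ρ s - gam ρ t)) :=
    (S_cont _).comp ((gam_cont h).sub continuous_const)
  have ha : S (t + α) (gam ρ (t + α) - gam ρ t) < 0 := by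
    rw [S_gam h]
    exact int_neg h (by linarith) (by linarith) le_rfl
  have hb : 0 < S (t + α) (gam ρ (t + α + π) - gam ρ t) := by
    rw [← gam_two_pi h t, S_gam h, integral_symm]
    have := int_neg h (a := t + α + π) (b := t + 2 * π) (μ := t + α + 2 * π) (by linarith)
      (by linarith) (by linarith)
    have h4 : ∫ τ in (t + α + π)..(t + 2 * π), ρ τ * sin (τ - (t + α + 2 * π)) =
        ∫ τ in (t + α + π)..(t + 2 * π), ρ τ * sin (τ - (t + α)) := by
      refine integral_congr fun τ _ => ?_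
      have : τ - (t + α) = (τ - (t + α + 2 * π)) + 2 * π := by ring
      simp only [this, sin_add_two_pi]
    linarith
  obtain ⟨s, hs, hs0⟩ := intermediate_value_Ioo (by linarith [pi_pos] : t + α ≤ t + α + π)
    hc.continuousOn ⟨ha, hb⟩
  simp only at hs0
  have hd := decomp (t + α) (gam ρ s - gam ρ t)
  rw [hs0] at hd
  have hpos : 0 < S t (gam ρ s - gam ρ t) := S_pos h (by linarith [hs.1]) (by linarith [hs.2])
  have hS : S t (gam ρ s - gam ρ t) = Rr (t + α) (gam ρ s - gam ρ t) * sin α := by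
    have h5 := S_shift (t + α) (-α) (gam ρ s - gam ρ t)
    rw [hs0] at h5
    simp only [add_neg_cancel_right, cos_neg, sin_neg, zero_mul] at h5
    linarith
  have hsin : 0 < sin α := sin_pos_of_pos_of_lt_pi h1 h2
  refine ⟨s, Rr (t + α) (gam ρ s - gam ρ t), hs.1, hs.2, ?_, ?_, ?_⟩
  · rw [hS] at hpos
    exact (pos_iff_pos_of_mul_pos hpos).mpr hsin
  · calc gam ρ s - gam ρ t = _ := hd
      _ = _ := by push_cast; ring
  · rw [← S_gam h]; exact hs0

end

end Pool.Agent.MP_b87ea9_an
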