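import Mathlib
import Pool.Agent.Lib.MP_b87ea9_an.Curve

set_option autoImplicit false

/-! The table bounded by the curve `gam ρ`. -/

namespace Pool.Agent.MP_b87ea9_an

open Real MeasureTheory intervalIntegral

/-- the table bounded by the curve -/
def tab (ρ : ℝ → ℝ) : Set ℂ := {z | ∀ t, 0 ≤ S t (z - gam ρ t)}

lemma abs_S_le (μ : ℝ) (z : ℂ) : |S μ z| ≤ ‖z‖ := by
  rw [← conj_exp_im]
  refine (Complex.abs_im_le_norm _).trans ?_
  rw [norm_mul, RCLike.norm_conj, Complex.norm_exp_ofReal_mul_I, one_mul]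

lemma S_smul (μ a : ℝ) (z : ℂ) : S μ ((a : ℂ) * z) = a * S μ z := by
  simp [S]; ring

section

variable {ρ : ℝ → ℝ} (h : IsRho ρ)

include h

lemma gam_mem_tab (s : ℝ) : gam ρ s ∈ tab ρ := fun t => S_nonneg h s t

lemma F_cont (z : ℂ) : Continuous (fun t => S t (z - gam ρ t)) := by
  have h1 := gam_cont h
  have h2 : Continuous (fun t => (gam ρ t).re) := Complex.continuous_re.comp h1
  have h3 : Continuous (fun t => (gam ρ t).im) := Complex.continuous_im.comp h1
  unfold S
  simp only [Complex.sub_re, Complex.sub_im]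
  exact ((continuous_const.sub h3).mul continuous_cos).sub
    ((continuous_const.sub h2).mul continuous_sin)

lemma F_per (z : ℂ) (t : ℝ) (k : ℤ) :
    S (t + k * (2 * π)) (z - gam ρ (t + k * (2 * π))) = S t (z - gam ρ t) := by
  rw [gam_int h]
  unfold S
  have h1 : cos (t + k * (2 * π)) = cos t := cos_add_int_mul_two_pi t k
  have h2 : sin (t + k * (2 * π)) = sin t := sin_add_int_mul_two_pi t k
  rw [h1, h2]

omit h in
lemma tab_convex : Convex ℝ (tab ρ) := by
  intro z hz w hw a b ha hb hab t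
  have h1 : ((a • z + b • w : ℂ)) - gam ρ t = (a : ℂ) * (z - gam ρ t) + (b : ℂ) * (w - gam ρ t) := by
    simp only [Complex.real_smul]
    have : (a : ℂ) + b = 1 := by exact_mod_cast hab
    linear_combination (gam ρ t) * this
  rw [h1, S_add, S_smul, S_smul]
  exact add_nonneg (mul_nonneg ha (hz t)) (mul_nonneg hb (hw t))

omit h in
lemma tab_closed : IsClosed (tab ρ) := by
  have : tab ρ = ⋂ t, {z | 0 ≤ S t (z - gam ρ t)} := by
    ext z; simp [tab]
  rw [this]
  refine isClosed_iInter fun t => isClosed_le continuous_const ?_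
  exact (S_cont t).comp (continuous_id.sub continuous_const)

omit h in
lemma tab_bounded : Bornology.IsBounded (tab ρ) := by
  rw [isBounded_iff_forall_norm_le]
  refine ⟨(|(gam ρ 0).im| + |(gam ρ π).im|) + (|(gam ρ (π/2)).re| + |(gam ρ (-(π/2))).re|), ?_⟩
  intro z hz
  have h0 := hz 0
  have h1 := hz π
  have h2 := hz (π / 2)
  have h3 := hz (-(π / 2))
  simp only [S, Complex.sub_im, Complex.sub_re, cos_zero, sin_zero, cos_pi, sin_pi, cos_pi_div_two,
    sin_pi_div_two, cos_neg, sin_neg] at h0 h1 h2 h3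
  refine (Complex.norm_le_abs_re_add_abs_im z).trans ?_
  have e1 : |z.im| ≤ |(gam ρ 0).im| + |(gam ρ π).im| := by
    rw [abs_le]
    constructor
    · have := neg_abs_le (gam ρ 0).im
      have := abs_nonneg (gam ρ π).im
      linarith
    · have := le_abs_self (gam ρ π).im
      have := abs_nonneg (gam ρ 0).im
      linarith
  have e2 : |z.re| ≤ |(gam ρ (π/2)).re| + |(gam ρ (-(π/2))).re| := by
    rw [abs_le]
    constructor
    · have := neg_abs_le (gam ρ (-(π/2))).re
      have := abs_nonneg (gam ρ (π/2)).re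
      linarith
    · have := le_abs_self (gam ρ (π/2)).re
      have := abs_nonneg (gam ρ (-(π/2))).re
      linarith
  linarith

lemma mem_interior_tab (z : ℂ) : z ∈ interior (tab ρ) ↔ ∀ t, 0 < S t (z - gam ρ t) := by
  constructor
  · intro hz t
    rw [mem_interior_iff_mem_nhds, Metric.mem_nhds_iff] at hz
    obtain ⟨ε, hε, hb⟩ := hz
    have hw : z - ((ε / 2 : ℝ) : ℂ) * Complex.exp (((t + π / 2 : ℝ) : ℂ) * Complex.I) ∈ tab ρ := by
      apply hb
      rw [Metric.mem_ball, dist_eq_norm]
      simp only [sub_sub_cancel_left, norm_neg, norm_mul, Complex.norm_real,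
        Complex.norm_exp_ofReal_mul_I, mul_one, Real.norm_eq_abs]
      rw [abs_of_pos (by linarith)]
      linarith
    have h1 := hw t
    have h2 : z - ((ε / 2 : ℝ) : ℂ) * Complex.exp (((t + π / 2 : ℝ) : ℂ) * Complex.I) - gam ρ t =
        (z - gam ρ t) - ((ε / 2 : ℝ) : ℂ) * Complex.exp (((t + π / 2 : ℝ) : ℂ) * Complex.I) := by
      ring
    rw [h2, S_sub, S_exp] at h1
    simp only [add_sub_cancel_left, sin_pi_div_two] at h1
    linarith
  · intro hz
    obtain ⟨t0, _, ht0⟩ := (isCompact_Icc (a := (0 : ℝ)) (b := 2 * π)).exists_isMinOn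
      ⟨0, by constructor <;> linarith [pi_pos]⟩ (F_cont h z).continuousOn
    have hmin : ∀ t, S t0 (z - gam ρ t0) ≤ S t (z - gam ρ t) := by
      intro t
      obtain ⟨k, h1, h2⟩ := exists_shift t 0
      rw [← F_per h z t k]
      exact ht0 ⟨h1, by linarith⟩
    rw [mem_interior_iff_mem_nhds, Metric.mem_nhds_iff]
    refine ⟨S t0 (z - gam ρ t0), hz t0, fun w hw t => ?_⟩
    have h1 : w - gam ρ t = (w - z) + (z - gam ρ t) := by ring
    rw [h1, S_add]
    have h2 := abs_S_le t (w - z)
    rw [Metric.mem_ball, dist_eq_norm] at hw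
    have h3 := neg_abs_le (S t (w - z))
    linarith [hmin t]

lemma zero_mem_interior : (0 : ℂ) ∈ interior (tab ρ) := by
  rw [mem_interior_tab h]
  intro t
  have h1 : (0 : ℂ) - gam ρ t = ((1 / 2 : ℝ) : ℂ) * (gam ρ (t + π) - gam ρ t) := by
    rw [gam_pi h]
    push_cast
    ring
  rw [h1, S_smul]
  have := S_pos h (s := t + π) (t := t) (by linarith [pi_pos]) (by linarith [pi_pos])
  linarith

omit h in
lemma eq_zero_of_S_Rr {μ : ℝ} {z : ℂ} (h1 : S μ z = 0) (h2 : Rr μ z = 0) : z = 0 := by
  rw [decomp μ z, h1, h2]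
  simp

lemma F_deriv (z : ℂ) (t : ℝ) :
    HasDerivAt (fun t => S t (z - gam ρ t)) (- Rr t (z - gam ρ t)) t := by
  have hX : HasDerivAt (fun t => (z - gam ρ t).re) (- (ρ t * cos t)) t := by
    have := ((hasDeriv_Xc h t).sub_const (Xc ρ π / 2)).const_sub z.re
    exact this
  have hY : HasDerivAt (fun t => (z - gam ρ t).im) (- (ρ t * sin t)) t := by
    have := ((hasDeriv_Yc h t).sub_const (Yc ρ π / 2)).const_sub z.im
    exact this
  have := (hY.mul (hasDerivAt_cos t)).sub (hX.mul (hasDerivAt_sin t))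
  refine this.congr_deriv ?_
  simp only [Rr]
  ring

lemma frontier_tab : frontier (tab ρ) = Set.range (gam ρ) := by
  ext z
  rw [frontier, tab_closed.closure_eq, Set.mem_sdiff, mem_interior_tab h]
  constructor
  · rintro ⟨hz, hn⟩
    push Not at hn
    obtain ⟨t, ht⟩ := hn
    have ht0 : S t (z - gam ρ t) = 0 := le_antisymm ht (hz t)
    have hmin : IsLocalMin (fun t => S t (z - gam ρ t)) t := by
      refine Filter.Eventually.of_forall fun s => ?_
      simp only [ht0]
      exact hz s
    have := hmin.hasDerivAt_eq_zero (F_deriv h z t)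
    refine ⟨t, ?_⟩
    have := eq_zero_of_S_Rr ht0 (neg_eq_zero.mp this)
    exact (sub_eq_zero.mp this).symm
  · rintro ⟨t, rfl⟩
    refine ⟨gam_mem_tab h t, fun hn => ?_⟩
    have := hn t
    simp [S] at this

lemma tab_isTable : IsTable (tab ρ) :=
  ⟨Metric.isCompact_of_isClosed_isBounded tab_closed tab_bounded, tab_convex,
    ⟨0, zero_mem_interior h⟩⟩

lemma supports_unique {t : ℝ} {τ : ℂ} (hτ : ‖τ‖ = 1) (hs : SupportsLine (gam ρ t) τ (tab ρ)) :
    τ ^ 2 = Complex.exp ((t : ℂ) * Complex.I) ^ 2 := by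
  -- the function `s ↦ im (conj τ * (gam s - gam t))` has an extremum at `t`
  have hX : HasDerivAt (fun s => (gam ρ s - gam ρ t).re) (ρ t * cos t) t := by
    have := ((hasDeriv_Xc h t).sub_const (Xc ρ π / 2)).sub_const (gam ρ t).re
    exact this
  have hY : HasDerivAt (fun s => (gam ρ s - gam ρ t).im) (ρ t * sin t) t := by
    have := ((hasDeriv_Yc h t).sub_const (Yc ρ π / 2)).sub_const (gam ρ t).im
    exact this
  have hd : HasDerivAt (fun s => (starRingEnd ℂ τ * (gam ρ s - gam ρ t)).im)
      (τ.re * (ρ t * sin t) - τ.im * (ρ t * cos t)) t := by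
    have h1 : (fun s => (starRingEnd ℂ τ * (gam ρ s - gam ρ t)).im) =
        fun s => τ.re * (gam ρ s - gam ρ t).im - τ.im * (gam ρ s - gam ρ t).re := by
      funext s
      simp [Complex.mul_im]
      ring
    rw [h1]
    exact (hY.const_mul _).sub (hX.const_mul _)
  have hext : IsLocalExtr (fun s => (starRingEnd ℂ τ * (gam ρ s - gam ρ t)).im) t := by
    rcases hs.2 with h1 | h1
    · left
      refine Filter.Eventually.of_forall fun s => ?_
      simp only [sub_self, mul_zero, Complex.zero_im]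
      exact h1 _ (gam_mem_tab h s)
    · right
      refine Filter.Eventually.of_forall fun s => ?_
      simp only [sub_self, mul_zero, Complex.zero_im]
      exact h1 _ (gam_mem_tab h s)
  have h0 := hext.hasDerivAt_eq_zero hd
  have hρ := h.pos t
  have h1 : τ.re * sin t = τ.im * cos t := by
    have : ρ t * (τ.re * sin t - τ.im * cos t) = 0 := by linarith
    rcases mul_eq_zero.mp this with h2 | h2
    · linarith
    · linarith
  have h2 : τ.re ^ 2 + τ.im ^ 2 = 1 := by
    have : ‖τ‖ ^ 2 = 1 := by rw [hτ]; norm_num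
    rw [Complex.sq_norm, Complex.normSq_apply] at this
    nlinarith
  have h3 := Real.sin_sq_add_cos_sq t
  have ha : τ.re ^ 2 = cos t ^ 2 := by
    linear_combination (τ.re * sin t + τ.im * cos t) * h1 - τ.re ^ 2 * h3 + cos t ^ 2 * h2
  have hb : τ.im ^ 2 = sin t ^ 2 := by
    linear_combination -(τ.re * sin t + τ.im * cos t) * h1 - τ.im ^ 2 * h3 + sin t ^ 2 * h2
  have hc : τ.re * τ.im = cos t * sin t := by
    linear_combination (τ.im * sin t - τ.re * cos t) * h1 - τ.re * τ.im * h3 +
      cos t * sin t * h2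
  rw [Complex.exp_mul_I]
  apply Complex.ext
  · simp only [pow_two, Complex.mul_re, Complex.add_re, Complex.mul_re, Complex.I_re, Complex.I_im,
      Complex.add_im, Complex.mul_im, ← Complex.ofReal_cos, ← Complex.ofReal_sin,
      Complex.ofReal_re, Complex.ofReal_im]
    linear_combination ha - hb
  · simp only [pow_two, Complex.mul_re, Complex.add_re, Complex.mul_re, Complex.I_re, Complex.I_im,
      Complex.add_im, Complex.mul_im, ← Complex.ofReal_cos, ← Complex.ofReal_sin,
      Complex.ofReal_re, Complex.ofReal_im]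
    linear_combination 2 * hc

end

end Pool.Agent.MP_b87ea9_an
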