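import Mathlib
import Pool.Agent.Lib.MP_b87ea9_an.Tab

set_option autoImplicit false

/-! Arc length parametrisation of the boundary of the table. -/

namespace Pool.Agent.MP_b87ea9_an

open Real MeasureTheory intervalIntegral Filter

/-- arc length -/
noncomputable def arc (ρ : ℝ → ℝ) (t : ℝ) : ℝ := ∫ τ in (0 : ℝ)..t, ρ τ

section

variable {ρ : ℝ → ℝ} (h : IsRho ρ)

include h

lemma arc_deriv (t : ℝ) : HasDerivAt (arc ρ) (ρ t) t :=
  integral_hasDerivAt_right (h.cont.intervalIntegrable _ _)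
    (h.cont.stronglyMeasurableAtFilter _ _) h.cont.continuousAt

lemma arc_cont : Continuous (arc ρ) :=
  continuous_iff_continuousAt.mpr fun t => (arc_deriv h t).continuousAt

lemma arc_mono : StrictMono (arc ρ) :=
  strictMono_of_deriv_pos fun t => by rw [(arc_deriv h t).deriv]; exact h.pos t

lemma arc_add (t : ℝ) : arc ρ (t + 2 * π) = arc ρ t + arc ρ (2 * π) := by
  have hii : ∀ a b, IntervalIntegrable ρ volume a b := fun a b => h.cont.intervalIntegrable _ _
  have h1 := integral_add_adjacent_intervals (hii 0 (2 * π)) (hii (2 * π) (t + 2 * π))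
  have h2 : ∫ τ in (2 * π)..(t + 2 * π), ρ τ = ∫ τ in (0 : ℝ)..t, ρ (τ + 2 * π) := by
    rw [integral_comp_add_right (fun τ => ρ τ), zero_add]
  have h3 : ∫ τ in (0 : ℝ)..t, ρ (τ + 2 * π) = ∫ τ in (0 : ℝ)..t, ρ τ :=
    integral_congr fun τ _ => h.two_pi τ
  unfold arc
  rw [← h1, h2, h3]
  ring

lemma arc_len_pos : 0 < arc ρ (2 * π) := by
  have := arc_mono h (show (0 : ℝ) < 2 * π by positivity)
  have h0 : arc ρ 0 = 0 := by simp [arc]
  rwa [h0] at this

lemma arc_nat (k : ℕ) : arc ρ (k * (2 * π)) = k * arc ρ (2 * π) := by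
  induction k with
  | zero => simp [arc]
  | succ k ih =>
    have : ((k + 1 : ℕ) : ℝ) * (2 * π) = k * (2 * π) + 2 * π := by push_cast; ring
    rw [this, arc_add h, ih]
    push_cast
    ring

lemma arc_neg_nat (k : ℕ) : arc ρ (-(k * (2 * π))) = -(k * arc ρ (2 * π)) := by
  induction k with
  | zero => simp [arc]
  | succ k ih =>
    have h1 := arc_add h (-(((k + 1 : ℕ) : ℝ) * (2 * π)))
    have h2 : -(((k + 1 : ℕ) : ℝ) * (2 * π)) + 2 * π = -(k * (2 * π)) := by push_cast; ring
    rw [h2, ih] at h1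
    push_cast at h1 ⊢
    linarith

lemma arc_surj : Function.Surjective (arc ρ) := by
  intro y
  have hl := arc_len_pos h
  obtain ⟨k, hk⟩ := exists_nat_gt (|y| / arc ρ (2 * π))
  rw [div_lt_iff₀ hl] at hk
  obtain ⟨h1, h2⟩ := abs_lt.mp hk
  have hk0 : (0 : ℝ) ≤ k * (2 * π) := by positivity
  obtain ⟨t, _, ht⟩ := intermediate_value_Icc (by linarith : -(k * (2 * π)) ≤ k * (2 * π))
    (arc_cont h).continuousOn
    (⟨by rw [arc_neg_nat h]; exact h1.le, by rw [arc_nat h]; exact h2.le⟩ :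
      y ∈ Set.Icc (arc ρ (-(k * (2 * π)))) (arc ρ (k * (2 * π))))
  exact ⟨t, ht⟩

/-- arc length as an order isomorphism -/
noncomputable def arcIso : ℝ ≃o ℝ := (arc_mono h).orderIsoOfSurjective _ (arc_surj h)

lemma arcIso_apply (t : ℝ) : arcIso h t = arc ρ t := rfl

/-- tangent angle as a function of arc length -/
noncomputable def ang (s : ℝ) : ℝ := (arcIso h).symm s

lemma arc_ang (s : ℝ) : arc ρ (ang h s) = s := (arcIso h).apply_symm_apply s

lemma ang_arc (t : ℝ) : ang h (arc ρ t) = t := (arcIso h).symm_apply_apply t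

lemma ang_cont : Continuous (ang h) := (arcIso h).symm.continuous

lemma ang_mono : StrictMono (ang h) := (arcIso h).symm.strictMono

lemma ang_deriv (s : ℝ) : HasDerivAt (ang h) (ρ (ang h s))⁻¹ s :=
  HasDerivAt.of_local_left_inverse (ang_cont h).continuousAt (arc_deriv h _) (h.pos _).ne'
    (Eventually.of_forall (arc_ang h))

lemma ang_add (s : ℝ) : ang h (s + arc ρ (2 * π)) = ang h s + 2 * π := by
  have h1 := arc_add h (ang h s)
  rw [arc_ang] at h1
  rw [← h1, ang_arc]

lemma ang_smooth : ContDiff ℝ 1 (ang h) := by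
  rw [contDiff_one_iff_deriv]
  refine ⟨fun s => (ang_deriv h s).differentiableAt, ?_⟩
  have : deriv (ang h) = fun s => (ρ (ang h s))⁻¹ := funext fun s => (ang_deriv h s).deriv
  rw [this]
  exact (h.cont.comp (ang_cont h)).inv₀ fun s => (h.pos _).ne'

/-- boundary parametrised by arc length -/
noncomputable def Gam (s : ℝ) : ℂ := gam ρ (ang h s)

lemma Gam_deriv (s : ℝ) : HasDerivAt (Gam h) (Complex.exp ((ang h s : ℂ) * Complex.I)) s := by
  have h1 := (hasDeriv_gam h (ang h s)).scomp s (ang_deriv h s)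
  refine HasDerivAt.congr_deriv (f := Gam h) h1 ?_
  rw [Complex.real_smul, ← mul_assoc, ← Complex.ofReal_mul, inv_mul_cancel₀ (h.pos _).ne']
  simp

lemma Gam_deriv_eq : deriv (Gam h) = fun s => Complex.exp ((ang h s : ℂ) * Complex.I) :=
  funext fun s => (Gam_deriv h s).deriv

lemma Gam_deriv2 (s : ℝ) : HasDerivAt (deriv (Gam h))
    (Complex.exp ((ang h s : ℂ) * Complex.I) * (((ρ (ang h s))⁻¹ : ℝ) * Complex.I)) s := by
  rw [Gam_deriv_eq]
  exact ((ang_deriv h s).ofReal_comp.mul_const Complex.I).cexp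

lemma Gam_curv (s : ℝ) : ‖deriv (deriv (Gam h)) s‖ = (ρ (ang h s))⁻¹ := by
  rw [(Gam_deriv2 h s).deriv, norm_mul, Complex.norm_exp_ofReal_mul_I, norm_mul, Complex.norm_I,
    mul_one, one_mul, Complex.norm_real, Real.norm_eq_abs, abs_of_pos (inv_pos.mpr (h.pos _))]

theorem tab_hasCurvature (hs : ContDiff ℝ 1 ρ) {m : ℕ} (hm : m ≤ 1) :
    HasCurvature m (tab ρ) := by
  refine ⟨arc ρ (2 * π), Gam h, arc_len_pos h, fun s => ?_, ?_, ?_, ?_, fun s => ?_, ?_,
    fun s => ?_⟩
  · unfold Gam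
    rw [ang_add, gam_two_pi h]
  · have key : ∀ s ∈ Set.Ico 0 (arc ρ (2 * π)), ∀ s' ∈ Set.Ico 0 (arc ρ (2 * π)), s < s' →
        Gam h s ≠ Gam h s' := by
      intro s hs s' hs' hlt heq
      have h0 : arc ρ 0 = 0 := by simp [arc]
      have a1 : 0 ≤ ang h s := by
        rw [← ang_arc h 0, h0]
        exact (ang_mono h).monotone hs.1
      have a2 : ang h s' < 2 * π := by
        rw [← ang_arc h (2 * π)]
        exact ang_mono h hs'.2
      have a3 : ang h s < ang h s' := ang_mono h hlt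
      have a4 := S_pos h a3 (by linarith)
      unfold Gam at heq
      rw [← heq, sub_self] at a4
      simp [S] at a4
    intro s hs s' hs' heq
    rcases lt_trichotomy s s' with h1 | h1 | h1
    · exact absurd heq (key s hs s' hs' h1)
    · exact h1
    · exact absurd heq.symm (key s' hs' s hs h1)
  · rw [frontier_tab h]
    ext z
    constructor
    · rintro ⟨s, rfl⟩
      exact ⟨ang h s, rfl⟩
    · rintro ⟨t, rfl⟩
      exact ⟨arc ρ t, by unfold Gam; rw [ang_arc]⟩
  · have h2 : (2 : WithTop ℕ∞) = 1 + 1 := by norm_num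
    rw [h2, contDiff_succ_iff_deriv]
    refine ⟨fun s => (Gam_deriv h s).differentiableAt, by simp, ?_⟩
    rw [Gam_deriv_eq]
    exact ((Complex.ofRealCLM.contDiff.comp (ang_smooth h)).mul contDiff_const).cexp
  · rw [Gam_deriv_eq, Complex.norm_exp_ofReal_mul_I]
  · have : (fun s => ‖deriv (deriv (Gam h)) s‖) = fun s => (ρ (ang h s))⁻¹ :=
      funext (Gam_curv h)
    rw [this]
    have h1 : ContDiff ℝ 1 (fun s => (ρ (ang h s))⁻¹) :=
      (hs.comp (ang_smooth h)).inv fun s => (h.pos _).ne'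
    exact h1.of_le (by exact_mod_cast hm)
  · rw [Gam_curv]
    exact inv_pos.mpr (h.pos _)

end

end Pool.Agent.MP_b87ea9_an
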