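import Mathlib
import Pool.Agent.Lib.MP_b87ea9_an.Tab

set_option autoImplicit false

/-! From a convex caustic to the tangent angle function. -/

namespace Pool.Agent.MP_b87ea9_an

open Real MeasureTheory intervalIntegral

/-- angle of `z` relative to the direction `t` -/
noncomputable def argt (t : ℝ) (z : ℂ) : ℝ :=
  Complex.arg (starRingEnd ℂ (Complex.exp (t * Complex.I)) * z)

lemma conj_exp_mul_exp (t : ℝ) :
    Complex.exp (t * Complex.I) * starRingEnd ℂ (Complex.exp (t * Complex.I)) = 1 := by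
  rw [Complex.mul_conj, Complex.normSq_eq_norm_sq, Complex.norm_exp_ofReal_mul_I]
  norm_num

lemma polar (t : ℝ) (z : ℂ) :
    z = (‖z‖ : ℂ) * Complex.exp (((t + argt t z : ℝ) : ℂ) * Complex.I) := by
  have h1 := Complex.norm_mul_exp_arg_mul_I (starRingEnd ℂ (Complex.exp (t * Complex.I)) * z)
  rw [norm_mul, RCLike.norm_conj, Complex.norm_exp_ofReal_mul_I, one_mul] at h1
  have h2 : z = Complex.exp (t * Complex.I) *
      (starRingEnd ℂ (Complex.exp (t * Complex.I)) * z) := by
    rw [← mul_assoc, conj_exp_mul_exp, one_mul]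
  conv_lhs => rw [h2, ← h1]
  have h3 : Complex.exp (((t + argt t z : ℝ) : ℂ) * Complex.I) =
      Complex.exp (t * Complex.I) * Complex.exp ((argt t z : ℂ) * Complex.I) := by
    rw [← Complex.exp_add]
    congr 1
    push_cast
    ring
  rw [h3]
  unfold argt
  ring

lemma S_argt (t α : ℝ) (z : ℂ) : S (t + α) z = ‖z‖ * sin (argt t z - α) := by
  conv_lhs => rw [polar t z]
  rw [S_exp]
  congr 2
  ring

lemma argt_pos {t : ℝ} {z : ℂ} (hz : 0 < S t z) : 0 < argt t z := by
  have h1 : 0 < (starRingEnd ℂ (Complex.exp (t * Complex.I)) * z).im := by rwa [conj_exp_im]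
  have h2 := Complex.arg_nonneg_iff.mpr h1.le
  rcases h2.eq_or_lt with h3 | h3
  · exfalso
    have := (Complex.arg_eq_zero_iff.mp h3.symm).2
    linarith
  · exact h3

lemma argt_lt_pi {t : ℝ} {z : ℂ} (hz : 0 < S t z) : argt t z < π := by
  have h1 : 0 < (starRingEnd ℂ (Complex.exp (t * Complex.I)) * z).im := by rwa [conj_exp_im]
  refine lt_of_le_of_ne (Complex.arg_le_pi _) fun h2 => ?_
  have := (Complex.arg_eq_pi_iff.mp h2).2
  linarith

lemma norm_pos_of_S {t : ℝ} {z : ℂ} (hz : 0 < S t z) : 0 < ‖z‖ := by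
  refine norm_pos_iff.mpr fun h => ?_
  rw [h] at hz
  simp [S] at hz

lemma S_pos_iff {t α : ℝ} {z : ℂ} (hz : 0 < S t z) (h0 : 0 ≤ α) (h1 : α ≤ π) :
    0 < S (t + α) z ↔ α < argt t z := by
  rw [S_argt]
  have hn := norm_pos_of_S hz
  have ha := argt_pos hz
  have hb := argt_lt_pi hz
  constructor
  · intro h2
    by_contra hcon
    push Not at hcon
    have h3 : sin (argt t z - α) ≤ 0 := sin_nonpos_of_nonpos_of_neg_pi_le (by linarith) (by linarith)
    nlinarith
  · intro h2
    exact mul_pos hn (sin_pos_of_pos_of_lt_pi (by linarith) (by linarith))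

lemma S_neg_iff {t α : ℝ} {z : ℂ} (hz : 0 < S t z) (h0 : 0 ≤ α) (h1 : α ≤ π) :
    S (t + α) z < 0 ↔ argt t z < α := by
  rw [S_argt]
  have hn := norm_pos_of_S hz
  have ha := argt_pos hz
  have hb := argt_lt_pi hz
  constructor
  · intro h2
    by_contra hcon
    push Not at hcon
    have h3 : 0 ≤ sin (argt t z - α) := sin_nonneg_of_nonneg_of_le_pi (by linarith) (by linarith)
    nlinarith
  · intro h2
    have := sin_neg_of_neg_of_neg_pi_lt (x := argt t z - α) (by linarith) (by linarith)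
    nlinarith

lemma S_nonneg_iff {t α : ℝ} {z : ℂ} (hz : 0 < S t z) (h0 : 0 ≤ α) (h1 : α ≤ π) :
    0 ≤ S (t + α) z ↔ α ≤ argt t z := by
  rw [← not_lt, S_neg_iff hz h0 h1, not_lt]

lemma S_nonpos_iff {t α : ℝ} {z : ℂ} (hz : 0 < S t z) (h0 : 0 ≤ α) (h1 : α ≤ π) :
    S (t + α) z ≤ 0 ↔ argt t z ≤ α := by
  rw [← not_lt, S_pos_iff hz h0 h1, not_lt]

lemma exists_angles {C : Set ℂ} (hC : IsCompact C) (hi : (interior C).Nonempty) {t : ℝ} {p : ℂ}
    (hp : ∀ c ∈ C, 0 < S t (c - p)) :
    ∃ a b : ℝ, 0 < a ∧ a < b ∧ b < π ∧ (∀ c ∈ C, a ≤ argt t (c - p) ∧ argt t (c - p) ≤ b) ∧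
      (∃ c ∈ C, argt t (c - p) = a) ∧ (∃ c ∈ C, argt t (c - p) = b) := by
  have hne : C.Nonempty := hi.mono interior_subset
  have hcont : ContinuousOn (fun c => argt t (c - p)) C := by
    intro c hc
    refine ContinuousAt.continuousWithinAt ?_
    unfold argt
    have h1 : ContinuousAt (fun c => starRingEnd ℂ (Complex.exp (t * Complex.I)) * (c - p)) c := by
      fun_prop
    refine ContinuousAt.comp (g := Complex.arg) ?_ h1
    apply Complex.continuousAt_arg
    right
    rw [conj_exp_im]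
    exact (hp c hc).ne'
  obtain ⟨c1, hc1, hmin⟩ := hC.exists_isMinOn hne hcont
  obtain ⟨c2, hc2, hmax⟩ := hC.exists_isMaxOn hne hcont
  refine ⟨argt t (c1 - p), argt t (c2 - p), argt_pos (hp _ hc1), ?_, argt_lt_pi (hp _ hc2),
    fun c hc => ⟨hmin hc, hmax hc⟩, ⟨c1, hc1, rfl⟩, ⟨c2, hc2, rfl⟩⟩
  by_contra hcon
  push Not at hcon
  obtain ⟨c0, hc0⟩ := hi
  have hall : ∀ c ∈ C, S (t + argt t (c1 - p)) (c - p) = 0 := by
    intro c hc
    have e1 : argt t (c - p) = argt t (c1 - p) :=
      le_antisymm ((hmax hc).trans hcon) (hmin hc)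
    rw [S_argt, e1]
    simp
  rw [mem_interior_iff_mem_nhds, Metric.mem_nhds_iff] at hc0
  obtain ⟨ε, hε, hb⟩ := hc0
  have h1 := hall c0 (hb (Metric.mem_ball_self hε))
  have h2 := hall (c0 + ((ε / 2 : ℝ) : ℂ) *
      Complex.exp (((t + argt t (c1 - p) + π / 2 : ℝ) : ℂ) * Complex.I)) (by
    apply hb
    rw [Metric.mem_ball, dist_eq_norm]
    simp only [add_sub_cancel_left, norm_mul, Complex.norm_real,
      Complex.norm_exp_ofReal_mul_I, mul_one, Real.norm_eq_abs]
    rw [abs_of_pos (by linarith)]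
    linarith)
  rw [add_sub_right_comm, S_add, h1, S_exp, add_sub_cancel_left, sin_pi_div_two] at h2
  linarith

lemma supports_scale {C : Set ℂ} {p : ℂ} {μ R : ℝ} (hR : 0 < R)
    (hs : SupportsLine p ((R : ℂ) * Complex.exp ((μ : ℂ) * Complex.I)) C) :
    (∃ z ∈ C, S μ (z - p) = 0) ∧ ((∀ z ∈ C, 0 ≤ S μ (z - p)) ∨ (∀ z ∈ C, S μ (z - p) ≤ 0)) := by
  have key : ∀ z, (starRingEnd ℂ ((R : ℂ) * Complex.exp ((μ : ℂ) * Complex.I)) * (z - p)).im =
      R * S μ (z - p) := by
    intro z
    rw [← conj_exp_im, map_mul, Complex.conj_ofReal, mul_assoc]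
    exact Complex.im_ofReal_mul _ _
  obtain ⟨⟨z, hz, h1⟩, h2⟩ := hs
  refine ⟨⟨z, hz, ?_⟩, ?_⟩
  · rw [key] at h1
    exact (mul_eq_zero.mp h1).resolve_left hR.ne'
  · rcases h2 with h2 | h2
    · left
      intro z hz
      have := h2 z hz
      rw [key] at this
      exact nonneg_of_mul_nonneg_right this hR
    · right
      intro z hz
      have := h2 z hz
      rw [key] at this
      exact nonpos_of_mul_nonpos_right this hR

/-- `g` is half the aperture complement: the set `C` is seen from `gam ρ t` exactly under the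
angles `[g, π - g]`. -/
def Ang (ρ : ℝ → ℝ) (C : Set ℂ) (t g : ℝ) : Prop :=
  0 < g ∧ g < π / 2 ∧ (∀ c ∈ C, g ≤ argt t (c - gam ρ t) ∧ argt t (c - gam ρ t) ≤ π - g) ∧
    (∃ c ∈ C, argt t (c - gam ρ t) = g) ∧ (∃ c ∈ C, argt t (c - gam ρ t) = π - g)

section

variable {ρ : ℝ → ℝ} (h : IsRho ρ) {C : Set ℂ}

include h

lemma S_pos_C (hC : C ⊆ interior (tab ρ)) (t : ℝ) : ∀ c ∈ C, 0 < S t (c - gam ρ t) :=
  fun c hc => (mem_interior_tab h c).mp (hC hc) t

lemma norm_real_exp {R μ : ℝ} (hR : 0 < R) :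
    (‖(R : ℂ) * Complex.exp ((μ : ℂ) * Complex.I)‖ : ℝ) = R := by
  rw [norm_mul, Complex.norm_exp_ofReal_mul_I, mul_one, Complex.norm_real, Real.norm_eq_abs,
    abs_of_pos hR]

/-- The reflection property of a caustic, for an incoming line through a point `c` of `C`. -/
lemma reflect_step (hC : IsConvexCaustic (tab ρ) C) (t : ℝ) {a b : ℝ} (ha : 0 < a) (hb : b < π)
    (hab : ∀ c ∈ C, a ≤ argt t (c - gam ρ t) ∧ argt t (c - gam ρ t) ≤ b)
    {c : ℂ} (hc : c ∈ C) (hce : argt t (c - gam ρ t) = a ∨ argt t (c - gam ρ t) = b) :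
    (∃ z ∈ C, S (t + (π - argt t (c - gam ρ t))) (z - gam ρ t) = 0) ∧
      ((∀ z ∈ C, 0 ≤ S (t + (π - argt t (c - gam ρ t))) (z - gam ρ t)) ∨
        (∀ z ∈ C, S (t + (π - argt t (c - gam ρ t))) (z - gam ρ t) ≤ 0)) := by
  obtain ⟨hcomp, hconv, hint, hsub, hcau⟩ := hC
  have hpos := S_pos_C h hsub t
  set e := argt t (c - gam ρ t) with he
  have he1 : a ≤ e := (hab c hc).1
  have he2 : e ≤ b := (hab c hc).2
  obtain ⟨s, R, hs1, hs2, hR, hchord, _⟩ := exists_chord h t (α := π - e) (by linarith) (by linarith)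
  have hcn : c ≠ gam ρ t := by
    intro hh
    have := hpos c hc
    rw [hh] at this
    simp [S] at this
  have hcpol : c - gam ρ t = ((‖c - gam ρ t‖ : ℝ) : ℂ) *
      Complex.exp (((t + e : ℝ) : ℂ) * Complex.I) := polar t (c - gam ρ t)
  have hn : 0 < ‖c - gam ρ t‖ := norm_pos_iff.mpr (sub_ne_zero.mpr hcn)
  let p : ℕ → ℂ := fun i => if i = 0 then c else if i = 1 then gam ρ t else gam ρ s
  have hpath : IsBilliardPath (tab ρ) 2 p := by
    refine ⟨?_, ?_, ?_⟩
    · intro i _
      by_cases h0 : i = 0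
      · simp only [p, h0, if_true]
        exact interior_subset (hsub hc)
      · by_cases h1 : i = 1
        · simp only [p, h1, one_ne_zero, if_false, if_true]
          exact gam_mem_tab h t
        · simp only [p, h0, h1, if_false]
          exact gam_mem_tab h s
    · intro i hi
      interval_cases i
      · simp only [p, if_true, zero_add, one_ne_zero, if_false]
        exact hcn
      · simp only [p, one_ne_zero, if_false, if_true, Nat.reduceAdd, OfNat.ofNat_ne_zero,
          OfNat.ofNat_ne_one]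
        intro hh
        rw [← hh, sub_self] at hchord
        have := congrArg norm hchord
        rw [norm_zero, norm_real_exp h hR] at this
        linarith
    · intro i hi0 hi2
      have hi : i = 1 := by omega
      subst hi
      simp only [p, one_ne_zero, if_false, if_true, Nat.reduceAdd, OfNat.ofNat_ne_zero,
          OfNat.ofNat_ne_one, Nat.sub_self]
      refine ⟨?_, ?_⟩
      · rw [frontier_tab h]; exact ⟨t, rfl⟩
      · intro τ hτ hτs
        rw [supports_unique h hτ hτs, hchord, norm_real_exp h hR]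
        have h1 : gam ρ t - c = - (((‖c - gam ρ t‖ : ℝ) : ℂ) *
            Complex.exp (((t + e : ℝ) : ℂ) * Complex.I)) := by
          rw [← hcpol]; ring
        have h2 : ‖gam ρ t - c‖ = ‖c - gam ρ t‖ := norm_sub_rev _ _
        rw [h2, h1]
        have hRc : (R : ℂ) ≠ 0 := by exact_mod_cast hR.ne'
        have hnc : ((‖c - gam ρ t‖ : ℝ) : ℂ) ≠ 0 := by exact_mod_cast hn.ne'
        have h3 : -(((‖c - gam ρ t‖ : ℝ) : ℂ) * Complex.exp (((t + e : ℝ) : ℂ) * Complex.I)) /
            ((‖c - gam ρ t‖ : ℝ) : ℂ) = - Complex.exp (((t + e : ℝ) : ℂ) * Complex.I) := by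
          field_simp
        have h4 : (R : ℂ) * Complex.exp (((t + (π - e) : ℝ) : ℂ) * Complex.I) / (R : ℂ) =
            Complex.exp (((t + (π - e) : ℝ) : ℂ) * Complex.I) := by
          field_simp
        rw [h3, h4, map_neg, ← Complex.exp_conj, map_mul, Complex.conj_ofReal, Complex.conj_I,
          ← Complex.exp_nat_mul]
        have h5 : Complex.exp (((t + (π - e) : ℝ) : ℂ) * Complex.I) =
            Complex.exp ((π : ℂ) * Complex.I) *
              (Complex.exp ((2 : ℕ) * ((t : ℂ) * Complex.I)) *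
                Complex.exp (((t + e : ℝ) : ℂ) * -Complex.I)) := by
          rw [← Complex.exp_add, ← Complex.exp_add]
          congr 1
          push_cast
          ring
        rw [h5, Complex.exp_pi_mul_I]
        ring
  have hfirst : SupportsLine (p 0) (p 1 - p 0) C := by
    have hp0 : p 0 = c := rfl
    have hp1 : p 1 = gam ρ t := rfl
    rw [hp0, hp1]
    have hdir : gam ρ t - c = - (((‖c - gam ρ t‖ : ℝ) : ℂ) *
        Complex.exp (((t + e : ℝ) : ℂ) * Complex.I)) := by
      rw [← hcpol]; ring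
    have hSc : S (t + e) (c - gam ρ t) = 0 := by
      rw [S_argt, ← he, sub_self, sin_zero, mul_zero]
    have key : ∀ z, (starRingEnd ℂ (gam ρ t - c) * (z - c)).im =
        - (‖c - gam ρ t‖ * S (t + e) (z - gam ρ t)) := by
      intro z
      have h1 : z - c = (z - gam ρ t) - (c - gam ρ t) := by ring
      have h2 : S (t + e) (z - c) = S (t + e) (z - gam ρ t) := by
        rw [h1, S_sub, hSc, sub_zero]
      rw [← h2, hdir, map_neg, map_mul, Complex.conj_ofReal, neg_mul, Complex.neg_im, mul_assoc,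
        Complex.im_ofReal_mul, conj_exp_im]
    refine ⟨⟨c, hc, by simp⟩, ?_⟩
    rcases hce with hce | hce
    · right
      intro z hz
      rw [key]
      have := (S_nonneg_iff (hpos z hz) (α := e) (by linarith) (by linarith)).mpr
        (by rw [hce]; exact (hab z hz).1)
      have := mul_nonneg hn.le this
      linarith
    · left
      intro z hz
      rw [key]
      have := (S_nonpos_iff (hpos z hz) (α := e) (by linarith) (by linarith)).mpr
        (by rw [hce]; exact (hab z hz).2)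
      have := mul_nonpos_of_nonneg_of_nonpos hn.le this
      linarith
  have hres := hcau 2 p hpath (by norm_num) hfirst 1 (by norm_num)
  have hp1 : p 1 = gam ρ t := rfl
  have hp2 : p (1 + 1) = gam ρ s := rfl
  rw [hp1, hp2, hchord] at hres
  exact supports_scale hR hres

lemma exists_ang (hC : IsConvexCaustic (tab ρ) C) (t : ℝ) : ∃ g, Ang ρ C t g := by
  have hpos := S_pos_C h hC.2.2.2.1 t
  obtain ⟨a, b, ha, hab, hb, hall, ⟨c1, hc1, e1⟩, ⟨c2, hc2, e2⟩⟩ :=
    exists_angles hC.1 hC.2.2.1 hpos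
  -- a supporting line through `gam t` has angle `a` or `b`
  have key : ∀ α, 0 ≤ α → α ≤ π → (∃ z ∈ C, S (t + α) (z - gam ρ t) = 0) ∧
      ((∀ z ∈ C, 0 ≤ S (t + α) (z - gam ρ t)) ∨ (∀ z ∈ C, S (t + α) (z - gam ρ t) ≤ 0)) →
      α = a ∨ α = b := by
    rintro α h0 h1 ⟨⟨z, hz, hz0⟩, h2⟩
    have h3 : argt t (z - gam ρ t) = α :=
      le_antisymm ((S_nonpos_iff (hpos z hz) h0 h1).mp hz0.le)
        ((S_nonneg_iff (hpos z hz) h0 h1).mp hz0.ge)
    rcases h2 with h2 | h2
    · left
      have h4 := (S_nonneg_iff (hpos c1 hc1) h0 h1).mp (h2 c1 hc1)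
      rw [e1] at h4
      have h5 := (hall z hz).1
      rw [h3] at h5
      exact le_antisymm h4 h5
    · right
      have h4 := (S_nonpos_iff (hpos c2 hc2) h0 h1).mp (h2 c2 hc2)
      rw [e2] at h4
      have h5 := (hall z hz).2
      rw [h3] at h5
      exact le_antisymm h5 h4
  have k1 := reflect_step h hC t ha hb hall hc1 (Or.inl e1)
  have k2 := reflect_step h hC t ha hb hall hc2 (Or.inr e2)
  rw [e1] at k1
  rw [e2] at k2
  have r1 := key (π - a) (by linarith) (by linarith) k1
  have r2 := key (π - b) (by linarith) (by linarith) k2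
  have hba : b = π - a := by
    rcases r1 with r1 | r1
    · rcases r2 with r2 | r2
      · linarith
      · linarith
    · exact r1.symm
  subst hba
  exact ⟨a, ha, by linarith, hall, ⟨c1, hc1, e1⟩, ⟨c2, hc2, e2⟩⟩

end

/-- The tangent angle function of a caustic. -/
structure Cau (ρ g : ℝ → ℝ) : Prop where
  pos : ∀ t, 0 < g t
  lt : ∀ t, g t < π / 2
  add_mono : StrictMono (fun t => t + g t)
  sub_mono : StrictMono (fun t => t - g t)
  chord : ∀ t, ∃ s, s - g s = t + g t ∧ ∫ τ in t..s, ρ τ * sin (τ - (t + g t)) = 0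

theorem cau_of_caustic {ρ : ℝ → ℝ} (h : IsRho ρ) {C : Set ℂ} (hC : IsConvexCaustic (tab ρ) C) :
    ∃ g : ℝ → ℝ, Cau ρ g ∧
      (∀ θ, 0 < θ → θ < π / 2 → S (-θ) (gam ρ 0) = 0 → g 0 < θ) := by
  have hsub := hC.2.2.2.1
  choose g hg using exists_ang h hC
  have hpos := fun t => S_pos_C h hsub t
  refine ⟨g, ⟨fun t => (hg t).1, fun t => (hg t).2.1, ?_, ?_, ?_⟩, ?_⟩
  · intro t t' htt
    simp only
    obtain ⟨g1, g2, g3, g4, g5⟩ := hg t
    obtain ⟨g1', g2', g3', ⟨c, hc, hce⟩, g5'⟩ := hg t'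
    by_cases hcase : t + g t ≤ t'
    · linarith
    push Not at hcase
    have hSc : 0 ≤ S (t + g t) (c - gam ρ t) :=
      (S_nonneg_iff (hpos t c hc) g1.le (by linarith)).mpr (g3 c hc).1
    have hSg : S (t + g t) (gam ρ t' - gam ρ t) < 0 := by
      rw [S_gam h]
      exact int_neg h htt (by linarith) (by linarith)
    have h1 : 0 < S (t + g t) (c - gam ρ t') := by
      have : c - gam ρ t' = (c - gam ρ t) - (gam ρ t' - gam ρ t) := by ring
      rw [this, S_sub]
      linarith
    have h2 : t + g t = t' + (t + g t - t') := by ring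
    rw [h2, S_pos_iff (hpos t' c hc) (by linarith) (by linarith), hce] at h1
    linarith
  · intro t t' htt
    simp only
    obtain ⟨g1, g2, g3, g4, ⟨c, hc, hce⟩⟩ := hg t
    obtain ⟨g1', g2', g3', g4', g5'⟩ := hg t'
    by_cases hcase : t ≤ t' - g t'
    · linarith
    push Not at hcase
    have hSc : S (t' + (π - g t')) (c - gam ρ t') ≤ 0 :=
      (S_nonpos_iff (hpos t' c hc) (by linarith) (by linarith)).mpr (g3' c hc).2
    have e1 : t' + (π - g t') = (t' - g t') + π := by ring
    rw [e1, S_pi] at hSc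
    have hSg : 0 < S (t' - g t') (gam ρ t' - gam ρ t) := by
      rw [S_gam h]
      exact int_pos h htt (by linarith) (by linarith)
    have h1 : S (t' - g t' + π) (c - gam ρ t) < 0 := by
      have : c - gam ρ t = (c - gam ρ t') + (gam ρ t' - gam ρ t) := by ring
      rw [S_pi, this, S_add]
      linarith
    have h2 : t' - g t' + π = t + (t' - g t' + π - t) := by ring
    rw [h2, S_neg_iff (hpos t c hc) (by linarith) (by linarith), hce] at h1
    linarith
  · intro t
    obtain ⟨g1, g2, g3, ⟨c, hc, hce⟩, g5⟩ := hg t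
    obtain ⟨s, R, hs1, hs2, hR, hchord, hint⟩ := exists_chord h t (α := g t) g1 (by linarith)
    refine ⟨s, ?_, hint⟩
    obtain ⟨g1', g2', g3', g4', ⟨c', hc', hce'⟩⟩ := hg s
    -- the angle of the chord seen from `gam s`
    have hSgam : S (t + g t) (gam ρ s - gam ρ t) = 0 := by rw [S_gam h]; exact hint
    have hcS : S (t + g t) (c - gam ρ t) = 0 := by
      rw [S_argt, hce, sub_self, sin_zero, mul_zero]
    have hcs : S (t + g t) (c - gam ρ s) = 0 := by
      have : c - gam ρ s = (c - gam ρ t) - (gam ρ s - gam ρ t) := by ring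
      rw [this, S_sub, hcS, hSgam, sub_zero]
    have e1 : t + g t + π = s + (t + g t + π - s) := by ring
    have hb0 : 0 ≤ t + g t + π - s := by linarith
    have hb1 : t + g t + π - s ≤ π := by linarith
    have hz : S (s + (t + g t + π - s)) (c - gam ρ s) = 0 := by
      rw [← e1, S_pi, hcs, neg_zero]
    have hca : argt s (c - gam ρ s) = t + g t + π - s :=
      le_antisymm ((S_nonpos_iff (hpos s c hc) hb0 hb1).mp hz.le)
        ((S_nonneg_iff (hpos s c hc) hb0 hb1).mp hz.ge)
    have h1 : t + g t + π - s ≤ π - g s := by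
      rw [← hca]; exact (g3' c hc).2
    have hc'S : 0 ≤ S (t + g t) (c' - gam ρ t) :=
      (S_nonneg_iff (hpos t c' hc') g1.le (by linarith)).mpr (g3 c' hc').1
    have hc's : S (s + (t + g t + π - s)) (c' - gam ρ s) ≤ 0 := by
      rw [← e1, S_pi]
      have : c' - gam ρ s = (c' - gam ρ t) - (gam ρ s - gam ρ t) := by ring
      rw [this, S_sub, hSgam, sub_zero]
      linarith
    have h2 := (S_nonpos_iff (hpos s c' hc') hb0 hb1).mp hc's
    rw [hce'] at h2
    linarith
  · intro θ hθ0 hθ1 hS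
    by_contra hcon
    push Not at hcon
    obtain ⟨g1, g2, g3, g4, g5⟩ := hg 0
    obtain ⟨g1', g2', g3', ⟨c, hc, hce⟩, g5'⟩ := hg π
    have h1 : S (0 + (π - θ)) (c - gam ρ 0) ≤ 0 :=
      (S_nonpos_iff (hpos 0 c hc) (by linarith) (by linarith)).mpr
        ((g3 c hc).2.trans (by linarith))
    have e1 : (0 : ℝ) + (π - θ) = -θ + π := by ring
    rw [e1, S_pi, S_sub, hS] at h1
    have h2 : gam ρ π = - gam ρ 0 := by
      have := gam_pi h 0
      rwa [zero_add] at this
    have h3 : 0 ≤ S (π + (π - θ)) (c - gam ρ π) := by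
      have e2 : π + (π - θ) = -θ + 2 * π := by ring
      rw [e2, S_two_pi, h2, sub_neg_eq_add, S_add, hS]
      linarith
    rw [S_nonneg_iff (hpos π c hc) (by linarith) (by linarith), hce] at h3
    linarith

end Pool.Agent.MP_b87ea9_an
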