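import Mathlib
import Pool.Agent.Lib.MP_b87ea9_an.Caustic

set_option autoImplicit false

/-! The circle map attached to a caustic and its behaviour on arcs of constant curvature. -/

namespace Pool.Agent.MP_b87ea9_an

open Real MeasureTheory intervalIntegral

section

variable {ρ g : ℝ → ℝ} (h : IsRho ρ) (hg : Cau ρ g)

include hg

lemma Cau.lip (s t : ℝ) : |g s - g t| ≤ |s - t| := by
  rcases lt_trichotomy s t with h1 | h1 | h1
  · have h2 := hg.add_mono h1
    have h3 := hg.sub_mono h1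
    simp only at h2 h3
    rw [abs_sub_comm s t, abs_of_pos (by linarith : 0 < t - s), abs_le]
    constructor <;> linarith
  · subst h1; simp
  · have h2 := hg.add_mono h1
    have h3 := hg.sub_mono h1
    simp only at h2 h3
    rw [abs_of_pos (by linarith : 0 < s - t), abs_le]
    constructor <;> linarith

lemma Cau.cont : Continuous g := by
  have : LipschitzWith 1 g := LipschitzWith.of_dist_le_mul fun s t => by
    rw [Real.dist_eq, Real.dist_eq, NNReal.coe_one, one_mul]
    exact hg.lip s t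
  exact this.continuous

lemma Cau.add_surj : Function.Surjective (fun t => t + g t) := by
  intro y
  have hc : ContinuousOn (fun t => t + g t) (Set.Icc (y - 2) y) :=
    (continuous_id.add hg.cont).continuousOn
  have h1 := hg.lt (y - 2)
  have h2 := hg.pos y
  have h3 := pi_lt_d2
  obtain ⟨t, _, ht⟩ := intermediate_value_Icc (by linarith : y - 2 ≤ y) hc
    (⟨by linarith, by linarith⟩ : y ∈ Set.Icc (y - 2 + g (y - 2)) (y + g y))
  exact ⟨t, ht⟩

lemma Cau.sub_surj : Function.Surjective (fun t => t - g t) := by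
  intro y
  have hc : ContinuousOn (fun t => t - g t) (Set.Icc y (y + 2)) :=
    (continuous_id.sub hg.cont).continuousOn
  have h1 := hg.lt (y + 2)
  have h2 := hg.pos y
  have h3 := pi_lt_d2
  obtain ⟨t, _, ht⟩ := intermediate_value_Icc (by linarith : y ≤ y + 2) hc
    (⟨by linarith, by linarith⟩ : y ∈ Set.Icc (y - g y) (y + 2 - g (y + 2)))
  exact ⟨t, ht⟩

/-- the circle map: `gam t` is joined to `gam (F t)` by a tangent of the caustic -/
noncomputable def Cau.F : ℝ ≃o ℝ :=
  (hg.add_mono.orderIsoOfSurjective _ hg.add_surj).trans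
    (hg.sub_mono.orderIsoOfSurjective _ hg.sub_surj).symm

lemma Cau.F_eq (t : ℝ) : hg.F t - g (hg.F t) = t + g t := by
  have := (hg.sub_mono.orderIsoOfSurjective _ hg.sub_surj).apply_symm_apply
    ((hg.add_mono.orderIsoOfSurjective _ hg.add_surj) t)
  exact this

lemma Cau.F_unique {s t : ℝ} (hst : s - g s = t + g t) : s = hg.F t := by
  apply hg.sub_mono.injective
  simp only
  rw [hst, hg.F_eq]

lemma Cau.F_val (t : ℝ) : hg.F t = t + g t + g (hg.F t) := by
  linarith [hg.F_eq t]

lemma Cau.lt_F (t : ℝ) : t < hg.F t := by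
  have := hg.F_val t
  linarith [hg.pos t, hg.pos (hg.F t)]

lemma Cau.F_int (t : ℝ) : ∫ τ in t..(hg.F t), ρ τ * sin (τ - (t + g t)) = 0 := by
  obtain ⟨s, hs, hi⟩ := hg.chord t
  rw [← hg.F_unique hs]
  exact hi

omit hg

include h in
lemma end_unique {t s s' m : ℝ} (h1 : m ≤ s) (h2 : s ≤ m + π) (h1' : m ≤ s') (h2' : s' ≤ m + π)
    (he : ∫ τ in t..s, ρ τ * sin (τ - m) = ∫ τ in t..s', ρ τ * sin (τ - m)) : s = s' := by
  have hii : ∀ a b, IntervalIntegrable (fun τ => ρ τ * sin (τ - m)) volume a b := fun a b =>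
    ii h (fun τ => sin (τ - m)) (by fun_prop) a b
  rcases lt_trichotomy s s' with h3 | h3 | h3
  · exfalso
    have h4 := int_pos h h3 h1 h2'
    have h5 := integral_add_adjacent_intervals (hii t s) (hii s s')
    linarith
  · exact h3
  · exfalso
    have h4 := int_pos h h3 h1' h2
    have h5 := integral_add_adjacent_intervals (hii t s') (hii s' s)
    linarith

include h in
lemma start_unique {t t' s m : ℝ} (h1 : m - π ≤ t) (h2 : t ≤ m) (h1' : m - π ≤ t') (h2' : t' ≤ m)
    (he : ∫ τ in t..s, ρ τ * sin (τ - m) = ∫ τ in t'..s, ρ τ * sin (τ - m)) : t = t' := by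
  have hii : ∀ a b, IntervalIntegrable (fun τ => ρ τ * sin (τ - m)) volume a b := fun a b =>
    ii h (fun τ => sin (τ - m)) (by fun_prop) a b
  rcases lt_trichotomy t t' with h3 | h3 | h3
  · exfalso
    have h4 := int_neg h h3 h1 h2'
    have h5 := integral_add_adjacent_intervals (hii t t') (hii t' s)
    linarith
  · exact h3
  · exfalso
    have h4 := int_neg h h3 h1' h2
    have h5 := integral_add_adjacent_intervals (hii t' t) (hii t s)
    linarith

lemma integral_sin_shift (a b m : ℝ) :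
    ∫ τ in a..b, sin (τ - m) = cos (a - m) - cos (b - m) := by
  rw [intervalIntegral.integral_comp_sub_right (fun x => sin x) m, integral_sin]

/-- integral over a free arc -/
lemma int_free {a b m : ℝ} (hab : a ≤ b) (hf : ∀ τ ∈ Set.Icc a b, ρ τ = 1) :
    ∫ τ in a..b, ρ τ * sin (τ - m) = cos (a - m) - cos (b - m) := by
  rw [← integral_sin_shift]
  refine integral_congr fun τ hτ => ?_
  rw [Set.uIcc_of_le hab] at hτ
  simp only [hf τ hτ, one_mul]

include hg

lemma Cau.cos_inj {s t : ℝ} (hc : cos (g s) = cos (g t)) : g s = g t := by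
  apply injOn_cos _ _ hc
  · exact ⟨(hg.pos s).le, by linarith [hg.lt s, pi_pos]⟩
  · exact ⟨(hg.pos t).le, by linarith [hg.lt t, pi_pos]⟩

lemma Cau.free_A {t : ℝ} (hf : ∀ τ ∈ Set.Icc t (hg.F t), ρ τ = 1) :
    g (hg.F t) = g t ∧ hg.F t = t + 2 * g t := by
  have h1 := hg.F_int t
  rw [int_free (hg.lt_F t).le hf] at h1
  have h2 : t - (t + g t) = - g t := by ring
  have h3 : hg.F t - (t + g t) = g (hg.F t) := by linarith [hg.F_eq t]
  rw [h2, h3, cos_neg] at h1
  have h4 : g (hg.F t) = g t := hg.cos_inj (by linarith)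
  refine ⟨h4, ?_⟩
  have := hg.F_val t
  rw [h4] at this
  linarith

include h

lemma Cau.free_B {t : ℝ} (hf : ∀ τ ∈ Set.Icc t (t + 2 * g t), ρ τ = 1) :
    g (hg.F t) = g t ∧ hg.F t = t + 2 * g t := by
  have hp := hg.pos t
  have h0 : hg.F t = t + 2 * g t := by
    refine end_unique h (t := t) (m := t + g t) ?_ ?_ ?_ ?_ ?_
    · linarith [hg.F_eq t, hg.pos (hg.F t)]
    · linarith [hg.F_eq t, hg.lt (hg.F t), pi_pos]
    · linarith
    · linarith [hg.lt t, pi_pos]
    · rw [hg.F_int, int_free (by linarith) hf]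
      have h2 : t - (t + g t) = - g t := by ring
      have h3 : t + 2 * g t - (t + g t) = g t := by ring
      rw [h2, h3, cos_neg, sub_self]
  refine ⟨?_, h0⟩
  have := hg.F_val t
  linarith

lemma Cau.free_C {s : ℝ} (hf : ∀ τ ∈ Set.Icc (s - 2 * g s) s, ρ τ = 1) :
    g (s - 2 * g s) = g s ∧ hg.F (s - 2 * g s) = s := by
  obtain ⟨t, rfl⟩ := hg.F.surjective s
  have hp := hg.pos (hg.F t)
  have h0 : t = hg.F t - 2 * g (hg.F t) := by
    refine start_unique h (s := hg.F t) (m := t + g t) ?_ ?_ ?_ ?_ ?_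
    · linarith [hg.lt t, pi_pos]
    · linarith [hg.pos t]
    · linarith [hg.F_eq t, hg.lt (hg.F t), pi_pos]
    · linarith [hg.F_eq t]
    · rw [hg.F_int, int_free (by linarith) hf]
      have h2 : hg.F t - 2 * g (hg.F t) - (t + g t) = - g (hg.F t) := by linarith [hg.F_eq t]
      have h3 : hg.F t - (t + g t) = g (hg.F t) := by linarith [hg.F_eq t]
      rw [h2, h3, cos_neg, sub_self]
  rw [← h0]
  refine ⟨?_, rfl⟩
  have := hg.F_val t
  linarith

lemma Cau.free_iter {y q : ℝ} {k : ℕ} (hf : ∀ τ ∈ Set.Icc y q, ρ τ = 1)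
    (hk : y + 2 * k * g y ≤ q) : ∀ j : ℕ, j ≤ k →
      hg.F^[j] y = y + 2 * j * g y ∧ g (hg.F^[j] y) = g y := by
  intro j
  induction j with
  | zero => intro _; simp
  | succ j ih =>
    intro hj
    obtain ⟨h1, h2⟩ := ih (by omega)
    have hp := hg.pos y
    have hjk : (j : ℝ) + 1 ≤ k := by exact_mod_cast hj
    have hj0 : (0 : ℝ) ≤ j := Nat.cast_nonneg j
    have h3 := hg.free_B h (t := hg.F^[j] y) (by
      intro τ hτ
      apply hf
      rw [h2, h1] at hτ
      constructor
      · have := mul_nonneg hj0 hp.le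
        linarith [hτ.1]
      · have := mul_le_mul_of_nonneg_right hjk hp.le
        linarith [hτ.2])
    rw [Function.iterate_succ_apply']
    refine ⟨?_, h3.1.trans h2⟩
    rw [h3.2, h2, h1]
    push_cast
    ring

lemma Cau.free_iter_back {y q : ℝ} {k : ℕ} (hf : ∀ τ ∈ Set.Icc q y, ρ τ = 1)
    (hk : q ≤ y - 2 * k * g y) : ∀ j : ℕ, j ≤ k →
      hg.F^[j] (y - 2 * j * g y) = y ∧ g (y - 2 * j * g y) = g y := by
  intro j
  induction j with
  | zero => intro _; simp
  | succ j ih =>
    intro hj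
    obtain ⟨h1, h2⟩ := ih (by omega)
    have hp := hg.pos y
    have hjk : (j : ℝ) + 1 ≤ k := by exact_mod_cast hj
    have hj0 : (0 : ℝ) ≤ j := Nat.cast_nonneg j
    have e1 : y - 2 * ((j + 1 : ℕ) : ℝ) * g y =
        (y - 2 * j * g y) - 2 * g (y - 2 * j * g y) := by
      rw [h2]; push_cast; ring
    have h3 := hg.free_C h (s := y - 2 * j * g y) (by
      intro τ hτ
      apply hf
      rw [h2] at hτ
      constructor
      · have := mul_le_mul_of_nonneg_right hjk hp.le
        linarith [hτ.1]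
      · have := mul_nonneg hj0 hp.le
        linarith [hτ.2])
    rw [e1]
    refine ⟨?_, h3.1.trans h2⟩
    rw [Function.iterate_succ_apply, h3.2, h1]

omit h in
lemma Cau.iter_mono (j : ℕ) {x y : ℝ} (hxy : x ≤ y) : hg.F^[j] x ≤ hg.F^[j] y :=
  hg.F.monotone.iterate j hxy

omit h in
lemma Cau.iter_mono_iff (j : ℕ) {x y : ℝ} : hg.F^[j] x ≤ hg.F^[j] y ↔ x ≤ y :=
  (hg.F.strictMono.iterate j).le_iff_le

omit h in
lemma Cau.le_iter (j : ℕ) (x : ℝ) : x ≤ hg.F^[j] x := by
  induction j with
  | zero => simp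
  | succ j ih =>
    rw [Function.iterate_succ_apply']
    exact ih.trans (hg.lt_F _).le

/-- near constancy of `g` at the left end of a free arc, forward form -/
lemma Cau.free_between {y z q : ℝ} {k : ℕ} (hf : ∀ τ ∈ Set.Icc y q, ρ τ = 1)
    (hk : y + 2 * ((k : ℝ) + 1) * g y ≤ q) (hz1 : y ≤ z) (hz2 : z ≤ hg.F y) :
    (∀ j : ℕ, j ≤ k → hg.F^[j] z = z + 2 * j * g z ∧ g (hg.F^[j] z) = g z) ∧
      k * |g z - g y| ≤ g y := by
  have hit := hg.free_iter h (k := k + 1) hf (by push_cast; linarith)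
  have hp := hg.pos y
  have hup : ∀ j : ℕ, j ≤ k → hg.F^[j] z ≤ q := by
    intro j hj
    have h1 : hg.F^[j] z ≤ hg.F^[j + 1] y := by
      rw [Function.iterate_succ_apply]
      exact hg.iter_mono j hz2
    rw [(hit (j + 1) (by omega)).1] at h1
    have hjk : ((j + 1 : ℕ) : ℝ) ≤ (k : ℝ) + 1 := by exact_mod_cast Nat.succ_le_succ hj
    have := mul_le_mul_of_nonneg_right hjk hp.le
    linarith
  have hmain : ∀ j : ℕ, j ≤ k → hg.F^[j] z = z + 2 * j * g z ∧ g (hg.F^[j] z) = g z := by
    intro j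
    induction j with
    | zero => intro _; simp
    | succ j ih =>
      intro hj
      obtain ⟨h1, h2⟩ := ih (by omega)
      have h4 := hup (j + 1) hj
      rw [Function.iterate_succ_apply'] at h4 ⊢
      have h3 := hg.free_A (t := hg.F^[j] z) (by
        intro τ hτ
        apply hf
        constructor
        · exact (hz1.trans (hg.le_iter j z)).trans hτ.1
        · exact hτ.2.trans h4)
      refine ⟨?_, h3.1.trans h2⟩
      rw [h3.2, h2, h1]
      push_cast
      ring
  refine ⟨hmain, ?_⟩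
  have hF : hg.F y = y + 2 * g y := by
    have := (hit 1 (by omega)).1
    simp at this
    linarith
  have e1 : hg.F^[k] z ≤ hg.F^[k + 1] y := by
    rw [Function.iterate_succ_apply]
    exact hg.iter_mono k hz2
  have e2 : hg.F^[k] y ≤ hg.F^[k] z := hg.iter_mono k hz1
  rw [(hmain k le_rfl).1, (hit (k + 1) le_rfl).1] at e1
  rw [(hmain k le_rfl).1, (hit k (by omega)).1] at e2
  push_cast at e1
  have hk0 : (0 : ℝ) ≤ k := Nat.cast_nonneg k
  rw [← abs_of_nonneg hk0, ← abs_mul, abs_le]
  constructor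
  · linarith
  · linarith

/-- near constancy of `g` at the right end of a free arc, backward form -/
lemma Cau.free_between_back {y z q : ℝ} {k : ℕ} (hf : ∀ τ ∈ Set.Icc q y, ρ τ = 1)
    (hk : q ≤ y - 2 * ((k : ℝ) + 1) * g y) (hz1 : y - 2 * g y ≤ z) (hz2 : z ≤ y) :
    k * |g z - g y| ≤ g y ∧ g (z - 2 * k * g z) = g z ∧ hg.F^[k] (z - 2 * k * g z) = z := by
  have hit := hg.free_iter_back h (k := k + 1) hf (by push_cast; linarith)
  obtain ⟨a1, a2⟩ := hit (k + 1) le_rfl
  set y' := y - 2 * ((k + 1 : ℕ) : ℝ) * g y with hy'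
  obtain ⟨z', hz'⟩ := (hg.F.surjective.iterate k) z
  have h1 := hg.free_between h (y := y') (z := z') (q := y) (k := k) (by
    intro τ hτ
    apply hf
    refine ⟨?_, hτ.2⟩
    refine le_trans ?_ hτ.1
    rw [hy']
    push_cast
    linarith) (by rw [a2, hy']; push_cast; linarith) (by
    rw [← hg.iter_mono_iff k, hz']
    have hFk : hg.F (hg.F^[k] y') = y := by
      rw [← Function.iterate_succ_apply' hg.F k y']
      exact a1
    have b1 := (hit 1 (by omega)).1
    have b2 := (hit 1 (by omega)).2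
    simp only [Nat.cast_one, mul_one, Function.iterate_one] at b1 b2
    have : hg.F^[k] y' = y - 2 * g y := hg.F.injective (hFk.trans b1.symm)
    rw [this]
    exact hz1) (by
    rw [← hg.iter_mono_iff k, hz', ← Function.iterate_succ_apply]
    rw [a1]
    exact hz2)
  obtain ⟨h2, h3⟩ := h1
  obtain ⟨h4, h5⟩ := h2 k le_rfl
  rw [hz'] at h4 h5
  rw [a2, ← h5] at h3
  have h6 : z' = z - 2 * k * g z := by
    rw [h5]; linarith
  refine ⟨h3, ?_, ?_⟩
  · rw [← h6, h5]
  · rw [← h6, hz']

end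

end Pool.Agent.MP_b87ea9_an
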