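import Mathlib
import Pool.Agent.Lib.MP_b87ea9_an.Orbit

set_option autoImplicit false

/-! One step of the circle map where the radius of curvature varies little. -/

namespace Pool.Agent.MP_b87ea9_an

open Real MeasureTheory intervalIntegral

lemma one_sub_cos_le {x : ℝ} : 1 - cos x ≤ x ^ 2 / 2 := by
  linarith [Real.one_sub_sq_div_two_le_cos (x := x)]

lemma abs_cos_sub_le (x y : ℝ) : |cos x - cos y| ≤ |x + y| * |x - y| / 2 := by
  rw [Real.cos_sub_cos, abs_mul, abs_mul]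
  have h1 : |sin ((x + y) / 2)| ≤ |x + y| / 2 := by
    refine Real.abs_sin_le_abs.trans ?_
    rw [abs_div, abs_of_pos (by norm_num : (0 : ℝ) < 2)]
  have h2 : |sin ((x - y) / 2)| ≤ |x - y| / 2 := by
    refine Real.abs_sin_le_abs.trans ?_
    rw [abs_div, abs_of_pos (by norm_num : (0 : ℝ) < 2)]
  have h3 : |(-2 : ℝ)| = 2 := by norm_num
  rw [h3]
  have := mul_le_mul h1 h2 (abs_nonneg _) (by positivity)
  linarith

lemma cos_sub_ge {x y : ℝ} (hx : 0 ≤ x) (hxy : x ≤ y) (hy : y ≤ π / 2) :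
    2 / π ^ 2 * (y + x) * (y - x) ≤ cos x - cos y := by
  have hpi := pi_pos
  rw [Real.cos_sub_cos]
  have h1 : 2 / π * ((x + y) / 2) ≤ sin ((x + y) / 2) := mul_le_sin (by linarith) (by linarith)
  have h2 : 2 / π * ((y - x) / 2) ≤ sin ((y - x) / 2) := mul_le_sin (by linarith) (by linarith)
  have h3 : sin ((x - y) / 2) = - sin ((y - x) / 2) := by
    rw [← sin_neg]; congr 1; ring
  rw [h3]
  have h4 := mul_le_mul h1 h2 (mul_nonneg (by positivity) (by linarith))
    (le_trans (mul_nonneg (by positivity) (by linarith)) h1)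
  have h5 : 2 / π ^ 2 * (y + x) * (y - x) =
      2 * (2 / π * ((x + y) / 2) * (2 / π * ((y - x) / 2))) := by
    field_simp
    ring
  rw [h5]
  linarith

/-- elementary comparison of angles -/
lemma angle_step {x y v : ℝ} (hx : 0 < x) (hx2 : x ≤ π / 2) (hy : 0 < y) (hy2 : y ≤ π / 2)
    (hv : 0 ≤ v) (hv2 : v ≤ 1 / 4) (hxy : (1 - v) * (1 - cos y) ≤ (1 + v) * (1 - cos x)) :
    y - x ≤ 4 * v * x := by
  rcases le_or_gt y x with h1 | h1
  · have : 0 ≤ 4 * v * x := by positivity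
    linarith
  have hpi := pi_pos
  have h2 := cos_sub_ge hx.le h1.le hy2
  have h3 : (1 - v) * (cos x - cos y) ≤ 2 * v * (1 - cos x) := by nlinarith
  have h4 : 1 - cos x ≤ x ^ 2 / 2 := one_sub_cos_le
  have h5 : 3 / 4 * (cos x - cos y) ≤ v * x ^ 2 := by
    have a1 : 0 ≤ cos x - cos y := le_trans (by
      have : 0 ≤ y - x := by linarith
      positivity) h2
    nlinarith
  have h6 : 2 / π ^ 2 * (2 * x) * (y - x) ≤ 2 / π ^ 2 * (y + x) * (y - x) := by
    have : 0 ≤ y - x := by linarith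
    have : 0 < 2 / π ^ 2 := by positivity
    apply mul_le_mul_of_nonneg_right _ (by linarith)
    apply mul_le_mul_of_nonneg_left _ (by positivity)
    linarith
  have h7 : 3 / 4 * (2 / π ^ 2 * (2 * x) * (y - x)) ≤ v * x ^ 2 := by linarith
  have h8 : 3 * x * (y - x) ≤ π ^ 2 * (v * x ^ 2) := by
    have h9 : 3 / 4 * (2 / π ^ 2 * (2 * x) * (y - x)) = (3 * x * (y - x)) / π ^ 2 := by
      field_simp
      ring
    rw [h9, div_le_iff₀ (by positivity)] at h7
    linarith
  have hpi2 : π ^ 2 ≤ 12 := by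
    have := pi_lt_d2
    nlinarith
  have h10 : 3 * x * (y - x) ≤ 12 * (v * x ^ 2) := by
    refine h8.trans (mul_le_mul_of_nonneg_right hpi2 (by positivity))
  have h11 : x * (3 * (y - x)) ≤ x * (12 * v * x) := by nlinarith
  have := le_of_mul_le_mul_left h11 hx
  linarith

section

variable {ρ g : ℝ → ℝ} (h : IsRho ρ) (hg : Cau ρ g)

include h

lemma int_right_bounds {m s lo hi : ℝ} (h1 : m ≤ s) (h2 : s ≤ m + π)
    (hlo : ∀ τ ∈ Set.Icc m s, lo ≤ ρ τ) (hhi : ∀ τ ∈ Set.Icc m s, ρ τ ≤ hi) :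
    lo * (1 - cos (s - m)) ≤ ∫ τ in m..s, ρ τ * sin (τ - m) ∧
      ∫ τ in m..s, ρ τ * sin (τ - m) ≤ hi * (1 - cos (s - m)) := by
  have hi1 := ii h (fun τ => sin (τ - m)) (by fun_prop) m s
  have hc : ∀ C : ℝ, IntervalIntegrable (fun τ => C * sin (τ - m)) volume m s := fun C =>
    (Continuous.intervalIntegrable (by fun_prop) _ _)
  have hs : ∀ C : ℝ, ∫ τ in m..s, C * sin (τ - m) = C * (1 - cos (s - m)) := by
    intro C
    rw [intervalIntegral.integral_const_mul, integral_sin_shift, sub_self, cos_zero]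
  constructor
  · rw [← hs]
    refine integral_mono_on h1 (hc lo) hi1 fun τ hτ => ?_
    exact mul_le_mul_of_nonneg_right (hlo τ hτ)
      (sin_nonneg_of_nonneg_of_le_pi (by linarith [hτ.1]) (by linarith [hτ.2]))
  · rw [← hs]
    refine integral_mono_on h1 hi1 (hc hi) fun τ hτ => ?_
    exact mul_le_mul_of_nonneg_right (hhi τ hτ)
      (sin_nonneg_of_nonneg_of_le_pi (by linarith [hτ.1]) (by linarith [hτ.2]))

lemma int_left_bounds {m t lo hi : ℝ} (h1 : t ≤ m) (h2 : m - π ≤ t)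
    (hlo : ∀ τ ∈ Set.Icc t m, lo ≤ ρ τ) (hhi : ∀ τ ∈ Set.Icc t m, ρ τ ≤ hi) :
    - (hi * (1 - cos (m - t))) ≤ ∫ τ in t..m, ρ τ * sin (τ - m) ∧
      ∫ τ in t..m, ρ τ * sin (τ - m) ≤ - (lo * (1 - cos (m - t))) := by
  have hi1 := ii h (fun τ => sin (τ - m)) (by fun_prop) t m
  have hc : ∀ C : ℝ, IntervalIntegrable (fun τ => C * sin (τ - m)) volume t m := fun C =>
    (Continuous.intervalIntegrable (by fun_prop) _ _)
  have hs : ∀ C : ℝ, ∫ τ in t..m, C * sin (τ - m) = - (C * (1 - cos (m - t))) := by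
    intro C
    rw [intervalIntegral.integral_const_mul, integral_sin_shift, sub_self, cos_zero,
      ← cos_neg (m - t), neg_sub]
    ring
  have hsin : ∀ τ ∈ Set.Icc t m, sin (τ - m) ≤ 0 := fun τ hτ =>
    sin_nonpos_of_nonpos_of_neg_pi_le (by linarith [hτ.2]) (by linarith [hτ.1])
  constructor
  · rw [← hs]
    refine integral_mono_on h1 (hc hi) hi1 fun τ hτ => ?_
    exact mul_le_mul_of_nonpos_right (hhi τ hτ) (hsin τ hτ)
  · rw [← hs]
    refine integral_mono_on h1 hi1 (hc lo) fun τ hτ => ?_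
    exact mul_le_mul_of_nonpos_right (hlo τ hτ) (hsin τ hτ)

include hg

lemma Cau.F_le {t r v : ℝ} (hr : 0 < r) (hv : 0 ≤ v) (hv2 : v ≤ 1 / 4)
    (hρ : ∀ τ ∈ Set.Icc t (t + 3 * g t), |ρ τ - r| ≤ v * r) : hg.F t ≤ t + 3 * g t := by
  have hp := hg.pos t
  have hlt := hg.lt t
  have hpi := pi_pos
  by_contra hcon
  push Not at hcon
  have hlo : ∀ τ ∈ Set.Icc t (t + 3 * g t), (1 - v) * r ≤ ρ τ := fun τ hτ => by
    have := (abs_le.mp (hρ τ hτ)).1
    linarith
  have hhi : ∀ τ ∈ Set.Icc t (t + 3 * g t), ρ τ ≤ (1 + v) * r := fun τ hτ => by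
    have := (abs_le.mp (hρ τ hτ)).2
    linarith
  have hii : ∀ a b, IntervalIntegrable (fun τ => ρ τ * sin (τ - (t + g t))) volume a b :=
    fun a b => ii h (fun τ => sin (τ - (t + g t))) (by fun_prop) a b
  have h1 := (int_left_bounds h (m := t + g t) (t := t) (by linarith) (by linarith)
    (fun τ hτ => hlo τ ⟨hτ.1, by linarith [hτ.2]⟩)
    (fun τ hτ => hhi τ ⟨hτ.1, by linarith [hτ.2]⟩)).1
  have h2 := (int_right_bounds h (m := t + g t) (s := t + 3 * g t) (by linarith) (by linarith)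
    (fun τ hτ => hlo τ ⟨by linarith [hτ.1], hτ.2⟩)
    (fun τ hτ => hhi τ ⟨by linarith [hτ.1], hτ.2⟩)).1
  have h3 := int_pos h hcon (μ := t + g t) (by linarith) (by
    linarith [hg.F_eq t, hg.lt (hg.F t)])
  have h4 := integral_add_adjacent_intervals (hii t (t + g t)) (hii (t + g t) (t + 3 * g t))
  have h5 := integral_add_adjacent_intervals (hii t (t + 3 * g t)) (hii (t + 3 * g t) (hg.F t))
  rw [hg.F_int] at h5
  have e1 : t + g t - t = g t := by ring
  have e2 : t + 3 * g t - (t + g t) = 2 * g t := by ring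
  rw [e1] at h1
  rw [e2, cos_two_mul] at h2
  -- the contradiction
  have hc1 : cos (g t) < 1 := by
    have := cos_lt_cos_of_nonneg_of_le_pi_div_two (x := 0) le_rfl hlt.le hp
    rwa [cos_zero] at this
  have hc0 : 0 < cos (g t) := cos_pos_of_mem_Ioo ⟨by linarith, hlt⟩
  have h6 : (1 + v) * r * (1 - cos (g t)) < (1 - v) * r * (1 - (2 * cos (g t) ^ 2 - 1)) := by
    have e3 : 1 - (2 * cos (g t) ^ 2 - 1) = 2 * (1 - cos (g t)) * (1 + cos (g t)) := by ring
    rw [e3]
    have a1 : 0 < 1 - cos (g t) := by linarith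
    have a2 : (1 + v) < (1 - v) * (2 * (1 + cos (g t))) := by nlinarith
    have a3 : 0 < r * (1 - cos (g t)) := by positivity
    have := mul_lt_mul_of_pos_right a2 a3
    nlinarith
  linarith

lemma Cau.step {t r v : ℝ} (hr : 0 < r) (hv : 0 ≤ v) (hv2 : v ≤ 1 / 4)
    (hρ : ∀ τ ∈ Set.Icc t (hg.F t), |ρ τ - r| ≤ v * r) :
    |g (hg.F t) - g t| ≤ 4 * v * g t := by
  have hp := hg.pos t
  have hlt := hg.lt t
  have hp' := hg.pos (hg.F t)
  have hlt' := hg.lt (hg.F t)
  have hpi := pi_pos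
  have hF := hg.F_eq t
  have hlo : ∀ τ ∈ Set.Icc t (hg.F t), (1 - v) * r ≤ ρ τ := fun τ hτ => by
    have := (abs_le.mp (hρ τ hτ)).1
    linarith
  have hhi : ∀ τ ∈ Set.Icc t (hg.F t), ρ τ ≤ (1 + v) * r := fun τ hτ => by
    have := (abs_le.mp (hρ τ hτ)).2
    linarith
  have hii : ∀ a b, IntervalIntegrable (fun τ => ρ τ * sin (τ - (t + g t))) volume a b :=
    fun a b => ii h (fun τ => sin (τ - (t + g t))) (by fun_prop) a b
  obtain ⟨h1, h2⟩ := int_left_bounds h (m := t + g t) (t := t) (by linarith) (by linarith)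
    (fun τ hτ => hlo τ ⟨hτ.1, by linarith [hτ.2]⟩)
    (fun τ hτ => hhi τ ⟨hτ.1, by linarith [hτ.2]⟩)
  obtain ⟨h3, h4⟩ := int_right_bounds h (m := t + g t) (s := hg.F t) (by linarith) (by linarith)
    (fun τ hτ => hlo τ ⟨by linarith [hτ.1], hτ.2⟩)
    (fun τ hτ => hhi τ ⟨by linarith [hτ.1], hτ.2⟩)
  have h5 := integral_add_adjacent_intervals (hii t (t + g t)) (hii (t + g t) (hg.F t))
  rw [hg.F_int] at h5
  have e1 : t + g t - t = g t := by ring
  have e2 : hg.F t - (t + g t) = g (hg.F t) := by linarith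
  rw [e1] at h1 h2
  rw [e2] at h3 h4
  have k1 : (1 - v) * (1 - cos (g (hg.F t))) ≤ (1 + v) * (1 - cos (g t)) := by
    have : r * ((1 - v) * (1 - cos (g (hg.F t)))) ≤ r * ((1 + v) * (1 - cos (g t))) := by
      linarith
    exact le_of_mul_le_mul_left this hr
  have k2 : (1 - v) * (1 - cos (g t)) ≤ (1 + v) * (1 - cos (g (hg.F t))) := by
    have : r * ((1 - v) * (1 - cos (g t))) ≤ r * ((1 + v) * (1 - cos (g (hg.F t)))) := by
      linarith
    exact le_of_mul_le_mul_left this hr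
  have a1 := angle_step hp hlt.le hp' hlt'.le hv hv2 k1
  have a2 := angle_step hp' hlt'.le hp hlt.le hv hv2 k2
  rw [abs_le]
  constructor
  · rcases le_or_gt (g (hg.F t)) (g t) with h6 | h6
    · have : v * g (hg.F t) ≤ v * g t := mul_le_mul_of_nonneg_left h6 hv
      linarith
    · have : 0 ≤ v * g t := by positivity
      linarith
  · exact a1

omit h in
/-- the energy relation -/
lemma Cau.energy {η : ℝ → ℝ} (hη : Continuous η) {t : ℝ}
    (hρ : ∀ τ ∈ Set.Icc t (hg.F t), ρ τ = 1 + η τ) :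
    cos (g (hg.F t)) - cos (g t) = ∫ τ in t..(hg.F t), η τ * sin (τ - (t + g t)) := by
  have h1 := hg.F_int t
  have h2 : ∫ τ in t..(hg.F t), ρ τ * sin (τ - (t + g t)) =
      ∫ τ in t..(hg.F t), (sin (τ - (t + g t)) + η τ * sin (τ - (t + g t))) := by
    refine integral_congr fun τ hτ => ?_
    rw [Set.uIcc_of_le (hg.lt_F t).le] at hτ
    simp only [hρ τ hτ]
    ring
  rw [h2, intervalIntegral.integral_add (Continuous.intervalIntegrable (by fun_prop) _ _)
    (Continuous.intervalIntegrable (by fun_prop) _ _), integral_sin_shift] at h1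
  have e1 : t - (t + g t) = - g t := by ring
  have e2 : hg.F t - (t + g t) = g (hg.F t) := by linarith [hg.F_eq t]
  rw [e1, e2, cos_neg] at h1
  linarith

end

end Pool.Agent.MP_b87ea9_an
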