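import Mathlib
import Pool.Agent.Lib.MP_b87ea9_an.Step

set_option autoImplicit false

/-! Crossing a perturbed arc between two long free arcs. -/

namespace Pool.Agent.MP_b87ea9_an

open Real MeasureTheory intervalIntegral

/-- the model kick -/
noncomputable def qk (η : ℝ → ℝ) (u m : ℝ) : ℝ := ∫ τ in (m - u)..(m + u), η τ * sin (τ - m)

lemma abs_sin_sub_le (x y : ℝ) : |sin x - sin y| ≤ |x - y| := by
  rw [Real.sin_sub_sin, abs_mul, abs_mul]
  have h1 : |sin ((x - y) / 2)| ≤ |x - y| / 2 := by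
    refine Real.abs_sin_le_abs.trans ?_
    rw [abs_div, abs_of_pos (by norm_num : (0 : ℝ) < 2)]
  have h2 : |cos ((x + y) / 2)| ≤ 1 := Real.abs_cos_le_one _
  have h3 : |(2 : ℝ)| = 2 := by norm_num
  rw [h3]
  have := mul_le_mul h1 h2 (abs_nonneg _) (by positivity)
  linarith only [this]

lemma kick_compare {η : ℝ → ℝ} (hη : Continuous η) {ε : ℝ} (hε : ∀ t, |η t| ≤ ε)
    {u m m' p p' D : ℝ} (hu : 0 < u) (hDu : D ≤ u / 2)
    (h1 : |p - (m - u)| ≤ D) (h2 : |p' - (m + u)| ≤ D) (h3 : |m' - m| ≤ D) :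
    |(∫ τ in p..p', η τ * sin (τ - m')) - qk η u m| ≤ 6 * ε * D * u := by
  have hε0 : 0 ≤ ε := (abs_nonneg _).trans (hε 0)
  have hD0 : 0 ≤ D := (abs_nonneg _).trans h3
  have hii : ∀ m a b, IntervalIntegrable (fun τ => η τ * sin (τ - m)) volume a b := fun m a b =>
    Continuous.intervalIntegrable (by fun_prop) _ _
  have e1 : (∫ τ in p..p', η τ * sin (τ - m')) - qk η u m =
      (∫ τ in p..p', η τ * (sin (τ - m') - sin (τ - m))) +
      ((∫ τ in p..(m - u), η τ * sin (τ - m)) + ∫ τ in (m + u)..p', η τ * sin (τ - m)) := by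
    have a1 : ∫ τ in p..p', η τ * (sin (τ - m') - sin (τ - m)) =
        (∫ τ in p..p', η τ * sin (τ - m')) - ∫ τ in p..p', η τ * sin (τ - m) := by
      rw [← intervalIntegral.integral_sub (hii _ _ _) (hii _ _ _)]
      refine integral_congr fun τ _ => ?_
      ring
    have a2 := integral_add_adjacent_intervals (hii m p (m - u)) (hii m (m - u) (m + u))
    have a3 := integral_add_adjacent_intervals (hii m p (m + u)) (hii m (m + u) p')
    unfold qk
    linarith only [a1, a2, a3]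
  have b1 : |∫ τ in p..p', η τ * (sin (τ - m') - sin (τ - m))| ≤ ε * D * (3 * u) := by
    have := intervalIntegral.norm_integral_le_of_norm_le_const (a := p) (b := p') (C := ε * D)
      (f := fun τ => η τ * (sin (τ - m') - sin (τ - m))) (fun τ _ => by
        rw [Real.norm_eq_abs, abs_mul]
        refine mul_le_mul (hε τ) ?_ (abs_nonneg _) hε0
        refine (abs_sin_sub_le _ _).trans ?_
        have : τ - m' - (τ - m) = -(m' - m) := by ring
        rw [this, abs_neg]
        exact h3)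
    rw [Real.norm_eq_abs] at this
    refine this.trans (mul_le_mul_of_nonneg_left ?_ (mul_nonneg hε0 hD0))
    obtain ⟨c1, c2⟩ := abs_le.mp h1
    obtain ⟨c3, c4⟩ := abs_le.mp h2
    rw [abs_le]
    constructor <;> linarith only [hu, hDu, c2, c3, c1, c4]
  have b2 : |∫ τ in p..(m - u), η τ * sin (τ - m)| ≤ ε * (3 / 2 * u) * D := by
    have := intervalIntegral.norm_integral_le_of_norm_le_const (a := p) (b := m - u)
      (C := ε * (3 / 2 * u))
      (f := fun τ => η τ * sin (τ - m)) (fun τ hτ => by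
        rw [Real.norm_eq_abs, abs_mul]
        refine mul_le_mul (hε τ) ?_ (abs_nonneg _) hε0
        refine Real.abs_sin_le_abs.trans ?_
        obtain ⟨c1, c2⟩ := abs_le.mp h1
        rw [Set.uIoc, Set.mem_Ioc] at hτ
        have c3 : m - 3 / 2 * u ≤ min p (m - u) := le_min (by linarith only [hDu, c1]) (by linarith only [hu])
        have c4 : max p (m - u) ≤ m := max_le (by linarith only [hu, hDu, c2]) (by linarith only [hu])
        rw [abs_le]
        constructor <;> linarith only [hτ.1, hτ.2, hτ, c3, hu, c4])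
    rw [Real.norm_eq_abs] at this
    refine this.trans (mul_le_mul_of_nonneg_left ?_ (by positivity))
    rw [abs_sub_comm]
    exact h1
  have b3 : |∫ τ in (m + u)..p', η τ * sin (τ - m)| ≤ ε * (3 / 2 * u) * D := by
    have := intervalIntegral.norm_integral_le_of_norm_le_const (a := m + u) (b := p')
      (C := ε * (3 / 2 * u))
      (f := fun τ => η τ * sin (τ - m)) (fun τ hτ => by
        rw [Real.norm_eq_abs, abs_mul]
        refine mul_le_mul (hε τ) ?_ (abs_nonneg _) hε0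
        refine Real.abs_sin_le_abs.trans ?_
        obtain ⟨c1, c2⟩ := abs_le.mp h2
        rw [Set.uIoc, Set.mem_Ioc] at hτ
        have c3 : m ≤ min (m + u) p' := le_min (by linarith only [hu]) (by linarith only [hu, hDu, c1])
        have c4 : max (m + u) p' ≤ m + 3 / 2 * u := max_le (by linarith only [hu]) (by linarith only [hDu, c2])
        rw [abs_le]
        constructor <;> linarith only [hτ.1, hτ.2, hu, hτ, c3, c4])
    rw [Real.norm_eq_abs] at this
    exact this.trans (mul_le_mul_of_nonneg_left h2 (by positivity))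
  rw [e1]
  refine (abs_add_le _ _).trans ?_
  have := abs_add_le (∫ τ in p..(m - u), η τ * sin (τ - m)) (∫ τ in (m + u)..p', η τ * sin (τ - m))
  linarith only [b1, b2, b3, this]

/-- a perturbed arc `[b, c]` between two free arcs of length `L` -/
structure Reg (ρ g η : ℝ → ℝ) (b c L ε u : ℝ) (N : ℕ) : Prop where
  cont : Continuous η
  zl : ∀ t, t ≤ b → η t = 0
  zr : ∀ t, c ≤ t → η t = 0
  bd : ∀ t, |η t| ≤ ε
  eq : ∀ t ∈ Set.Icc (b - L) (c + L), ρ t = 1 + η t
  gu : g b = u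
  bc : b ≤ c
  L1 : L ≤ 1
  uL : 100 * u ≤ L
  cL : 16 * (c - b) ≤ L
  N1 : c - b + 4 * u ≤ 2 * N * u
  N2 : 2 * N * u ≤ c - b + 6 * u
  Ne : 3000 * (N : ℝ) ^ 3 * ε ≤ 1
  eu : ε ≤ 3 * u

section

variable {ρ g η : ℝ → ℝ} {b c L ε u : ℝ} {N : ℕ}

lemma Reg.eps0 (R : Reg ρ g η b c L ε u N) : 0 ≤ ε := (abs_nonneg _).trans (R.bd 0)

lemma Reg.u0 (R : Reg ρ g η b c L ε u N) (hg : Cau ρ g) : 0 < u := by
  rw [← R.gu]; exact hg.pos b

lemma Reg.Npos (R : Reg ρ g η b c L ε u N) (hg : Cau ρ g) : (2 : ℝ) ≤ N := by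
  have h1 := R.u0 hg
  have h2 := R.N1
  have h3 := R.bc
  have : 2 * u ≤ N * u := by linarith
  exact le_of_mul_le_mul_right this h1

lemma Reg.small (R : Reg ρ g η b c L ε u N) (hg : Cau ρ g) :
    3000 * ((N : ℝ) ^ 2 * ε) ≤ 1 ∧ 3000 * (N * ε) ≤ 1 ∧ 3000 * ε ≤ 1 := by
  have h1 := R.Npos hg
  have h2 := R.eps0
  have h3 := R.Ne
  have a0 : (0 : ℝ) ≤ N := by linarith only [h1]
  have a1 : ε ≤ N * ε := by nlinarith only [h1, h2]
  have a2 : N * ε ≤ (N : ℝ) ^ 2 * ε := by nlinarith only [mul_nonneg a0 h2, a1]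
  have a3 : (N : ℝ) ^ 2 * ε ≤ (N : ℝ) ^ 3 * ε := by
    nlinarith only [mul_nonneg (mul_nonneg a0 a0) h2, a1]
  refine ⟨by linarith, by linarith, by linarith⟩

/-- the deviation bound -/
lemma Reg.D_le (R : Reg ρ g η b c L ε u N) (hg : Cau ρ g) :
    2 * N * (4 * u ^ 2 / L + 8 * ε * N * u) ≤ u / 2 ∧ 4 * u ^ 2 / L ≤ u / 25 ∧
      4 * u ^ 2 / L + 8 * ε * N * u ≤ u / 10 ∧ 0 < L := by
  have hu := R.u0 hg
  have hN := R.Npos hg
  obtain ⟨s2, s1, s0⟩ := R.small hg
  have hε := R.eps0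
  have hL : 0 < L := by linarith only [R.uL, R, hu]
  have hNu : N * u ≤ 7 / 114 * L := by
    have := R.N2
    have := R.cL
    have := R.uL
    linarith
  have a1 : 4 * u ^ 2 / L ≤ u / 25 := by
    rw [div_le_iff₀ hL]
    nlinarith only [R.uL, R, hu]
  have a2 : 2 * N * (4 * u ^ 2 / L) ≤ 56 / 114 * u := by
    have : 2 * N * (4 * u ^ 2 / L) = 8 * (N * u) * u / L := by ring
    rw [this, div_le_iff₀ hL]
    nlinarith only [hu, hNu]
  have a3 : 2 * N * (8 * ε * N * u) ≤ 16 / 3000 * u := by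
    have : 2 * N * (8 * ε * N * u) = 16 * ((N : ℝ) ^ 2 * ε) * u := by ring
    rw [this]
    nlinarith only [hu, s2]
  have a4 : 8 * ε * N * u ≤ 8 / 3000 * u := by
    have : 8 * ε * N * u = 8 * (N * ε) * u := by ring
    rw [this]
    nlinarith only [hu, hN, a3]
  refine ⟨by linarith only [hu, a2, a3], a1, by linarith only [hu, a1, a4], hL⟩

variable (h : IsRho ρ) (hg : Cau ρ g)

include h hg

lemma Reg.near_b (R : Reg ρ g η b c L ε u N) {x : ℝ} (hx1 : b - 2 * u ≤ x) (hx2 : x ≤ b) :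
    |g x - u| ≤ 4 * u ^ 2 / L := by
  have hu := R.u0 hg
  have hL : 0 < L := (R.D_le hg).2.2.2
  obtain ⟨k, hk1, hk2⟩ : ∃ k : ℕ, L / (4 * u) ≤ k ∧ (k : ℝ) < L / (4 * u) + 1 :=
    ⟨⌈L / (4 * u)⌉₊, Nat.le_ceil _, Nat.ceil_lt_add_one (by positivity)⟩
  have h1 := hg.free_between_back h (y := b) (z := x) (q := b - L) (k := k) (by
    intro τ hτ
    rw [R.eq τ ⟨hτ.1, by linarith [hτ.2, R.bc]⟩, R.zl τ hτ.2, add_zero]) (by
    rw [R.gu]
    have : ((k : ℝ) + 1) * u ≤ L / 4 + 2 * u := by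
      have h2 : (k : ℝ) * u ≤ (L / (4 * u) + 1) * u := mul_le_mul_of_nonneg_right hk2.le hu.le
      have h3 : (L / (4 * u) + 1) * u = L / 4 + u := by field_simp
      linarith only [h2, h3]
    have := R.uL
    linarith) (by rw [R.gu]; exact hx1) hx2
  have h2 := h1.1
  rw [R.gu] at h2
  have h3 : L / (4 * u) * |g x - u| ≤ u :=
    (mul_le_mul_of_nonneg_right hk1 (abs_nonneg _)).trans h2
  rw [le_div_iff₀ hL]
  rw [div_mul_eq_mul_div, div_le_iff₀ (by positivity)] at h3
  linarith only [h3]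

lemma Reg.orbit (R : Reg ρ g η b c L ε u N) {x : ℝ} (hx1 : b - 2 * u ≤ x) (hx2 : x ≤ b) :
    ∀ i : ℕ, i ≤ N → |g (hg.F^[i] x) - u| ≤ 4 * u ^ 2 / L + 8 * ε * i * u ∧
      |hg.F^[i] x - (x + 2 * i * u)| ≤ 2 * i * (4 * u ^ 2 / L + 8 * ε * N * u) := by
  have hu := R.u0 hg
  obtain ⟨d1, d2, d3, hL⟩ := R.D_le hg
  have hN := R.Npos hg
  obtain ⟨s2, s1, s0⟩ := R.small hg
  have hε := R.eps0
  have hδ0 : 0 ≤ 4 * u ^ 2 / L := by positivity
  intro i
  induction i with
  | zero =>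
    intro _
    constructor
    · simpa using R.near_b h hg hx1 hx2
    · simp
  | succ i ih =>
    intro hi
    obtain ⟨h1, h2⟩ := ih (by omega)
    have hiN : (i : ℝ) + 1 ≤ N := by exact_mod_cast hi
    have hi0 : (0 : ℝ) ≤ i := Nat.cast_nonneg i
    set y := hg.F^[i] x with hy
    have e1 : 8 * ε * i * u ≤ 8 * ε * N * u := by
      apply mul_le_mul_of_nonneg_right _ hu.le
      apply mul_le_mul_of_nonneg_left _ (by positivity)
      linarith only [hiN]
    have e2 : 2 * i * (4 * u ^ 2 / L + 8 * ε * N * u) ≤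
        2 * N * (4 * u ^ 2 / L + 8 * ε * N * u) := by
      apply mul_le_mul_of_nonneg_right _ (by (clear * - hu hL hN hε; positivity))
      linarith only [hiN]
    have e3 : 2 * i * u ≤ 2 * N * u := by
      apply mul_le_mul_of_nonneg_right _ hu.le
      linarith only [hiN]
    obtain ⟨g1, g2⟩ := abs_le.mp h1
    obtain ⟨p1, p2⟩ := abs_le.mp h2
    have hgy : g y ≤ 11 / 10 * u := by linarith only [d3, e1, g2]
    have hy0 : b - L ≤ y := by
      have : x ≤ y := hg.le_iter i x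
      linarith only [R.uL, R, hx1, hu, this]
    have hy1 : y + 3 * g y ≤ c + L := by
      have := R.N2
      have := R.uL
      linarith
    have hρ : ∀ τ ∈ Set.Icc y (y + 3 * g y), |ρ τ - 1| ≤ ε * 1 := by
      intro τ hτ
      rw [R.eq τ ⟨by linarith only [hτ.1, hy0, hτ], by linarith only [hτ.2, hy1, hτ]⟩, add_sub_cancel_left, mul_one]
      exact R.bd τ
    have hF := hg.F_le h (t := y) one_pos hε (by linarith only [s0]) hρ
    have hst := hg.step h (t := y) one_pos hε (by linarith only [s0]) (fun τ hτ => hρ τ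
      ⟨hτ.1, hτ.2.trans hF⟩)
    have e4 : 4 * ε * g y ≤ 8 * ε * u := by
      have : 4 * ε * g y ≤ 4 * ε * (11 / 10 * u) := mul_le_mul_of_nonneg_left hgy (by positivity)
      have : 0 ≤ ε * u := by positivity
      linarith
    have n1 : |g (hg.F y) - u| ≤ 4 * u ^ 2 / L + 8 * ε * ((i + 1 : ℕ) : ℝ) * u := by
      have : g (hg.F y) - u = (g (hg.F y) - g y) + (g y - u) := by ring
      rw [this]
      refine (abs_add_le _ _).trans ?_
      push_cast
      linarith only [hg, h1, hst, e4]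
    rw [Function.iterate_succ_apply']
    refine ⟨n1, ?_⟩
    have e5 : 8 * ε * ((i + 1 : ℕ) : ℝ) * u ≤ 8 * ε * N * u := by
      apply mul_le_mul_of_nonneg_right _ hu.le
      apply mul_le_mul_of_nonneg_left _ (by positivity)
      push_cast
      linarith only [hiN]
    have hFv := hg.F_val y
    obtain ⟨g3, g4⟩ := abs_le.mp n1
    rw [abs_le]
    push_cast
    constructor
    · rw [hFv]
      linarith only [hg, e1, g1, p1, e5, g3]
    · rw [hFv]
      linarith only [hg, e1, g2, p2, e5, g4]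

lemma Reg.orbit_end (R : Reg ρ g η b c L ε u N) {x : ℝ} (hx1 : b - 2 * u ≤ x) (hx2 : x ≤ b) :
    c + u ≤ hg.F^[N] x ∧ hg.F^[N] x ≤ c + 7 * u ∧ |g (hg.F^[N] x) - u| ≤ u / 10 := by
  have hu := R.u0 hg
  obtain ⟨d1, d2, d3, hL⟩ := R.D_le hg
  obtain ⟨h1, h2⟩ := R.orbit h hg hx1 hx2 N le_rfl
  obtain ⟨p1, p2⟩ := abs_le.mp h2
  have := R.N1
  have := R.N2
  refine ⟨by linarith, by linarith only [hg, hx2, hu, d1, p2, this], h1.trans d3⟩

lemma Reg.near_c (R : Reg ρ g η b c L ε u N) :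
    ∃ u' : ℝ, |u' - u| ≤ u / 10 ∧ ∀ x, b - 2 * u ≤ x → x ≤ b →
      |g (hg.F^[N] x) - u'| ≤ 5 * u ^ 2 / L := by
  have hu := R.u0 hg
  obtain ⟨d1, d2, d3, hL⟩ := R.D_le hg
  obtain ⟨a1, a2, a3⟩ := R.orbit_end h hg (x := b - 2 * u) le_rfl (by linarith only [hu])
  refine ⟨g (hg.F^[N] (b - 2 * u)), a3, fun x hx1 hx2 => ?_⟩
  obtain ⟨c1, c2, c3⟩ := R.orbit_end h hg hx1 hx2
  have hFb : hg.F (b - 2 * u) = b := by
    have := hg.free_C h (s := b) (by
      intro τ hτ
      rw [R.gu] at hτ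
      rw [R.eq τ ⟨by linarith only [hτ.1, R.uL, R, hu, hτ], by linarith only [hτ.2, R.bc, R, hL, hτ]⟩, R.zl τ hτ.2, add_zero])
    rw [R.gu] at this
    exact this.2
  obtain ⟨k, hk1, hk2⟩ : ∃ k : ℕ, L / (4 * u) ≤ k ∧ (k : ℝ) < L / (4 * u) + 1 :=
    ⟨⌈L / (4 * u)⌉₊, Nat.le_ceil _, Nat.ceil_lt_add_one (by positivity)⟩
  set y := hg.F^[N] (b - 2 * u) with hy
  obtain ⟨g1, g2⟩ := abs_le.mp a3
  have h1 := hg.free_between h (y := y) (z := hg.F^[N] x) (q := c + L) (k := k) (by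
    intro τ hτ
    rw [R.eq τ ⟨by linarith only [hτ.1, R.uL, R.bc, R, hu, a1, hτ], hτ.2⟩, R.zr τ (by linarith only [hτ.1, hu, a1, hτ]), add_zero]) (by
    have h2 : (k : ℝ) * u ≤ (L / (4 * u) + 1) * u := mul_le_mul_of_nonneg_right hk2.le hu.le
    have h3 : (L / (4 * u) + 1) * u = L / 4 + u := by field_simp
    have h4 : ((k : ℝ) + 1) * g y ≤ ((k : ℝ) + 1) * (11 / 10 * u) :=
      mul_le_mul_of_nonneg_left (by linarith only [g2]) (by (clear * -; positivity))
    have := R.uL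
    linarith only [hu, a2, h2, h3, h4, this]) (hg.iter_mono N hx1) (by
    rw [hy, ← Function.iterate_succ_apply' hg.F N, Function.iterate_succ_apply, hFb]
    exact hg.iter_mono N hx2)
  have h2 := h1.2
  have h3 : L / (4 * u) * |g (hg.F^[N] x) - g y| ≤ 11 / 10 * u :=
    (mul_le_mul_of_nonneg_right hk1 (abs_nonneg _)).trans (h2.trans (by linarith only [g2]))
  rw [le_div_iff₀ hL]
  rw [div_mul_eq_mul_div, div_le_iff₀ (by positivity)] at h3
  nlinarith only [hg, h3]

/-- the sum of the model kicks does not depend on the phase -/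
theorem Reg.main (R : Reg ρ g η b c L ε u N) :
    ∃ κ : ℝ, ∀ x, b - 2 * u ≤ x → x ≤ b →
      |(∑ i ∈ Finset.range N, qk η u (x + (2 * i + 1) * u)) - κ| ≤ 11 * u ^ 3 / L := by
  have hu := R.u0 hg
  obtain ⟨d1, d2, d3, hL⟩ := R.D_le hg
  have hN := R.Npos hg
  obtain ⟨s2, s1, s0⟩ := R.small hg
  have hε := R.eps0
  obtain ⟨u', hu', hc⟩ := R.near_c h hg
  refine ⟨cos u' - cos u, fun x hx1 hx2 => ?_⟩
  have horb := R.orbit h hg hx1 hx2
  set D := 2 * N * (4 * u ^ 2 / L + 8 * ε * N * u) with hD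
  have hδ0 : 0 ≤ 4 * u ^ 2 / L := by positivity
  have hD0 : 0 ≤ D := by (clear * - hu hL hN hε; positivity)
  -- individual kicks
  have hk : ∀ i ∈ Finset.range N,
      |(cos (g (hg.F^[i + 1] x)) - cos (g (hg.F^[i] x))) - qk η u (x + (2 * i + 1) * u)| ≤
        6 * ε * D * u := by
    intro i hi
    rw [Finset.mem_range] at hi
    obtain ⟨h1, h2⟩ := horb i (by omega)
    obtain ⟨h3, h4⟩ := horb (i + 1) (by omega)
    rw [Function.iterate_succ_apply'] at h3 h4 ⊢
    set y := hg.F^[i] x with hy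
    have hiN : (i : ℝ) + 1 ≤ N := by exact_mod_cast hi
    have hi0 : (0 : ℝ) ≤ i := Nat.cast_nonneg i
    have hy0 : b - L ≤ y := by
      have : x ≤ y := hg.le_iter i x
      linarith only [R.uL, R, hu, hx1, this]
    have hFy : hg.F y ≤ c + L := by
      have a1 : hg.F^[i + 1] x ≤ hg.F^[N] x := by
        obtain ⟨j, hj⟩ := Nat.exists_eq_add_of_le (show i + 1 ≤ N by omega)
        rw [hj, add_comm (i + 1) j, Function.iterate_add_apply hg.F j (i + 1) x]
        exact hg.le_iter j _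
      have a2 := (R.orbit_end h hg hx1 hx2).2.1
      rw [Function.iterate_succ_apply'] at a1
      linarith only [R.uL, hg, R, hu, a1, a2]
    rw [hg.energy R.cont (t := y) (fun τ hτ => R.eq τ ⟨by linarith only [hτ.1, hg, hy0, hτ], by linarith only [hτ.2, hg, hFy, hτ]⟩)]
    have b1 : 2 * i * (4 * u ^ 2 / L + 8 * ε * N * u) ≤ D := by
      rw [hD]
      apply mul_le_mul_of_nonneg_right _ (by (clear * - hu hL hN hε; positivity))
      linarith only [hiN]
    have b2 : 2 * ((i + 1 : ℕ) : ℝ) * (4 * u ^ 2 / L + 8 * ε * N * u) ≤ D := by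
      rw [hD]
      apply mul_le_mul_of_nonneg_right _ (by (clear * - hu hL hN hε; positivity))
      push_cast
      linarith only [hiN]
    have b3 : (2 * i + 1) * (4 * u ^ 2 / L + 8 * ε * N * u) ≤ D := by
      rw [hD]
      apply mul_le_mul_of_nonneg_right _ (by (clear * - hu hL hN hε; positivity))
      linarith only [hiN]
    have b4 : 8 * ε * i * u ≤ 8 * ε * N * u := by
      apply mul_le_mul_of_nonneg_right _ hu.le
      apply mul_le_mul_of_nonneg_left _ (by positivity)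
      linarith only [hiN]
    refine kick_compare R.cont R.bd hu d1 ?_ ?_ ?_
    · refine le_trans (le_of_eq ?_) (h2.trans b1)
      congr 1; ring
    · refine le_trans (le_of_eq ?_) (h4.trans b2)
      congr 1; push_cast; ring
    · have : y + g y - (x + (2 * i + 1) * u) = (y - (x + 2 * i * u)) + (g y - u) := by ring
      rw [this]
      refine (abs_add_le _ _).trans (le_trans ?_ b3)
      linarith only [h1, h2, b4]
  -- telescoping
  have htel : ∑ i ∈ Finset.range N, (cos (g (hg.F^[i + 1] x)) - cos (g (hg.F^[i] x))) =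
      cos (g (hg.F^[N] x)) - cos (g x) := by
    rw [Finset.sum_range_sub (fun i => cos (g (hg.F^[i] x)))]
    simp
  have hsum : |(cos (g (hg.F^[N] x)) - cos (g x)) -
      ∑ i ∈ Finset.range N, qk η u (x + (2 * i + 1) * u)| ≤ N * (6 * ε * D * u) := by
    rw [← htel, ← Finset.sum_sub_distrib]
    refine (Finset.abs_sum_le_sum_abs _ _).trans ?_
    refine (Finset.sum_le_sum hk).trans ?_
    simp
  -- error terms
  have herr : N * (6 * ε * D * u) ≤ u ^ 3 / L := by
    have f1 : N * (6 * ε * D * u) = 48 * ((N : ℝ) ^ 2 * ε) * (u ^ 3 / L) +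
        96 * ((N : ℝ) ^ 3 * ε) * ε * u ^ 2 := by
      rw [hD]
      field_simp
      ring
    rw [f1]
    have f2 : 0 ≤ u ^ 3 / L := by positivity
    have f3 : 48 * ((N : ℝ) ^ 2 * ε) * (u ^ 3 / L) ≤ 48 / 3000 * (u ^ 3 / L) := by
      apply mul_le_mul_of_nonneg_right _ f2
      linarith only [s2]
    have f4 : 96 * ((N : ℝ) ^ 3 * ε) * ε * u ^ 2 ≤ 96 / 3000 * (3 * u) * u ^ 2 := by
      apply mul_le_mul_of_nonneg_right _ (by positivity)
      have hNe := R.Ne
      have g1 : (N : ℝ) ^ 3 * ε ≤ 1 / 3000 := by linarith only [hNe]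
      have g2 : ((N : ℝ) ^ 3 * ε) * ε ≤ 1 / 3000 * (3 * u) :=
        mul_le_mul g1 R.eu hε (by norm_num)
      linarith only [g2]
    have f5 : u ^ 3 ≤ u ^ 3 / L := by
      rw [le_div_iff₀ hL]
      have := R.L1
      have : 0 < u ^ 3 := by positivity
      nlinarith
    linarith only [f2, f3, f4, f5]
  obtain ⟨gx1, gx2⟩ := abs_le.mp (R.near_b h hg hx1 hx2)
  obtain ⟨gu1, gu2⟩ := abs_le.mp hu'
  have hcx := hc x hx1 hx2
  obtain ⟨gy1, gy2⟩ := abs_le.mp hcx
  have hgx0 := hg.pos x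
  have hgy0 := hg.pos (hg.F^[N] x)
  have m1 : |cos (g (hg.F^[N] x)) - cos u'| ≤ 5.65 * u ^ 3 / L := by
    refine (abs_cos_sub_le _ _).trans ?_
    have k1 : |g (hg.F^[N] x) + u'| ≤ 2.26 * u := by
      rw [abs_le]
      have : 5 * u ^ 2 / L ≤ u / 20 := by
        rw [div_le_iff₀ hL]
        nlinarith only [R.uL, R, hu]
      constructor <;> linarith only [hg, hu, gu1, hgy0, gu2, gy2, this]
    have k2 := mul_le_mul k1 hcx (abs_nonneg _) (by positivity)
    have k3 : 2.26 * u * (5 * u ^ 2 / L) / 2 = 5.65 * u ^ 3 / L := by ring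
    rw [← k3]
    linarith only [hg, k2]
  have m2 : |cos (g x) - cos u| ≤ 4.2 * u ^ 3 / L := by
    refine (abs_cos_sub_le _ _).trans ?_
    have k1 : |g x + u| ≤ 2.1 * u := by
      rw [abs_le]
      constructor <;> linarith only [hu, hgx0, d2, gx2]
    have k2 := mul_le_mul k1 (R.near_b h hg hx1 hx2) (abs_nonneg _) (by positivity)
    have k3 : 2.1 * u * (4 * u ^ 2 / L) / 2 = 4.2 * u ^ 3 / L := by ring
    rw [← k3]
    linarith only [k2]
  have e0 : (∑ i ∈ Finset.range N, qk η u (x + (2 * i + 1) * u)) - (cos u' - cos u) =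
      -((cos (g (hg.F^[N] x)) - cos (g x)) -
        ∑ i ∈ Finset.range N, qk η u (x + (2 * i + 1) * u)) +
      ((cos (g (hg.F^[N] x)) - cos u') + -(cos (g x) - cos u)) := by ring
  rw [e0]
  refine (abs_add_le _ _).trans ?_
  have t1 := abs_add_le (cos (g (hg.F^[N] x)) - cos u') (-(cos (g x) - cos u))
  rw [abs_neg] at t1 ⊢
  have e9 : 11 * u ^ 3 / L = u ^ 3 / L + 5.65 * u ^ 3 / L + 4.35 * u ^ 3 / L := by ring
  have e10 : 4.2 * u ^ 3 / L ≤ 4.35 * u ^ 3 / L := by
    apply div_le_div_of_nonneg_right _ hL.le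
    have : 0 < u ^ 3 := by positivity
    linarith only [this]
  linarith only [hg, hsum, herr, m1, m2, t1, e9, e10]

end

end Pool.Agent.MP_b87ea9_an
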