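import Mathlib
import Pool.Agent.Lib.MP_b87ea9_an.Cross

set_option autoImplicit false

/-! The resonant Fourier coefficient of a perturbation crossed by a caustic is tiny. -/

namespace Pool.Agent.MP_b87ea9_an

open Real MeasureTheory intervalIntegral

/-- character -/
noncomputable def ek (ω x : ℝ) : ℂ := Complex.exp (((-(ω * x) : ℝ) : ℂ) * Complex.I)

lemma ek_add (ω x y : ℝ) : ek ω (x + y) = ek ω x * ek ω y := by
  unfold ek
  rw [← Complex.exp_add]
  congr 1
  push_cast
  ring

lemma norm_ek (ω x : ℝ) : ‖ek ω x‖ = 1 := Complex.norm_exp_ofReal_mul_I _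

@[fun_prop]
lemma ek_cont (ω : ℝ) : Continuous (ek ω) := by
  unfold ek
  fun_prop

lemma ek_half {u : ℝ} (hu : u ≠ 0) (x : ℝ) : ek (π / u) (x + u) = - ek (π / u) x := by
  rw [ek_add]
  have : ek (π / u) u = -1 := by
    unfold ek
    have h1 : π / u * u = π := by field_simp
    rw [h1]
    push_cast
    rw [neg_mul, Complex.exp_neg, Complex.exp_pi_mul_I]
    norm_num
  rw [this]
  ring

lemma ek_odd {u : ℝ} (hu : u ≠ 0) (x : ℝ) (i : ℕ) :
    ek (π / u) (x + (2 * i + 1) * u) = - ek (π / u) x := by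
  induction i with
  | zero => simpa using ek_half hu x
  | succ i ih =>
    have : x + (2 * ((i + 1 : ℕ) : ℝ) + 1) * u = (x + (2 * i + 1) * u) + u + u := by
      push_cast; ring
    rw [this, ek_half hu, ek_half hu, ih]
    ring

lemma ek_int {u : ℝ} (hu : u ≠ 0) (b : ℝ) : ∫ x in (b - 2 * u)..b, ek (π / u) x = 0 := by
  have hii : ∀ a b, IntervalIntegrable (ek (π / u)) volume a b := fun a b =>
    (ek_cont _).intervalIntegrable _ _
  rw [← integral_add_adjacent_intervals (hii (b - 2 * u) (b - u)) (hii (b - u) b)]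
  have h1 : ∫ x in (b - u)..b, ek (π / u) x = ∫ x in (b - 2 * u)..(b - u), ek (π / u) (x + u) := by
    rw [intervalIntegral.integral_comp_add_right (fun x => ek (π / u) x)]
    congr 1 <;> ring
  rw [h1]
  simp_rw [ek_half hu]
  rw [intervalIntegral.integral_neg]
  ring

lemma qk_eq {η : ℝ → ℝ} (u y : ℝ) : qk η u y = ∫ s in (-u)..u, η (y + s) * sin s := by
  unfold qk
  have := intervalIntegral.integral_comp_add_left (a := -u) (b := u)
    (fun τ => η τ * sin (τ - y)) y
  rw [sub_eq_add_neg, ← this]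
  refine integral_congr fun s _ => ?_
  simp only [add_sub_cancel_left]

lemma qk_cont {η : ℝ → ℝ} (hη : Continuous η) (u : ℝ) : Continuous (qk η u) := by
  have : qk η u = fun y => ∫ s in (-u)..u, η (y + s) * sin s := by
    funext y; exact qk_eq u y
  rw [this]
  apply intervalIntegral.continuous_parametric_intervalIntegral_of_continuous'
  fun_prop

lemma J_val {u : ℝ} (hu : 0 < u) (hu1 : u ≤ 1) :
    4 * u ^ 2 / π ^ 2 ≤ ‖∫ s in (-u)..u, (sin s : ℂ) * ek (π / u) (-s)‖ := by
  have hpi := pi_pos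
  set ω := π / u with hω
  have hωu : ω * u = π := by rw [hω]; field_simp
  have hω3 : 3 < ω := by
    rw [hω, lt_div_iff₀ hu]
    have := pi_gt_three
    linarith
  have hne : (1 - (ω : ℂ) ^ 2) ≠ 0 := by
    have : (1 - ω ^ 2) ≠ 0 := by nlinarith
    exact_mod_cast this
  let G : ℝ → ℂ := fun s => Complex.exp ((ω * s : ℝ) * Complex.I) *
    (Complex.I * ω * (sin s : ℝ) - (cos s : ℝ)) / (1 - (ω : ℂ) ^ 2)
  have hG : ∀ s : ℝ, HasDerivAt G ((sin s : ℂ) * ek ω (-s)) s := by
    intro s
    have h1 : HasDerivAt (fun s : ℝ => Complex.exp ((ω * s : ℝ) * Complex.I))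
        (Complex.exp ((ω * s : ℝ) * Complex.I) * ((ω : ℝ) * Complex.I)) s := by
      have h2 : HasDerivAt (fun s : ℝ => ((ω * s : ℝ) : ℂ) * Complex.I) ((ω : ℝ) * Complex.I) s := by
        have h3 : HasDerivAt (fun s : ℝ => ω * s) ω s := by
          simpa using (hasDerivAt_id s).const_mul ω
        exact h3.ofReal_comp.mul_const _
      exact h2.cexp
    have h4 : HasDerivAt (fun s : ℝ => (Complex.I * ω * (sin s : ℝ) - (cos s : ℝ) : ℂ))
        (Complex.I * ω * (cos s : ℝ) - ((-sin s : ℝ) : ℂ)) s := by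
      exact ((hasDerivAt_sin s).ofReal_comp.const_mul _).sub (hasDerivAt_cos s).ofReal_comp
    have h5 := (h1.mul h4).div_const (1 - (ω : ℂ) ^ 2)
    refine h5.congr_deriv ?_
    have e1 : ek ω (-s) = Complex.exp ((ω * s : ℝ) * Complex.I) := by
      unfold ek; congr 2; push_cast; ring
    rw [e1]
    field_simp
    push_cast
    linear_combination ((ω : ℂ) ^ 2 * Complex.sin s) * Complex.I_sq
  rw [intervalIntegral.integral_eq_sub_of_hasDerivAt (fun s _ => hG s)
    (Continuous.intervalIntegrable (by fun_prop) _ _)]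
  have e2 : G u - G (-u) = (2 * ω * sin u / (ω ^ 2 - 1) : ℝ) * Complex.I := by
    have hne2 : ((ω : ℂ) ^ 2 - 1) ≠ 0 := by
      intro h; apply hne; linear_combination -h
    simp only [G]
    have h1 : Complex.exp ((ω * u : ℝ) * Complex.I) = -1 := by
      rw [hωu, Complex.exp_pi_mul_I]
    have h2 : Complex.exp ((ω * (-u) : ℝ) * Complex.I) = -1 := by
      have : ω * (-u) = - π := by linarith
      rw [this]
      push_cast
      rw [neg_mul, Complex.exp_neg, Complex.exp_pi_mul_I]
      norm_num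
    rw [h1, h2, sin_neg, cos_neg]
    push_cast
    field_simp
    ring
  rw [e2, norm_mul, Complex.norm_I, mul_one, Complex.norm_real, Real.norm_eq_abs]
  have hs : 2 / π * u ≤ sin u := mul_le_sin hu.le (by linarith [pi_gt_three])
  have h9 : 0 < ω ^ 2 - 1 := by nlinarith
  have hs0 : 0 < sin u := lt_of_lt_of_le (by positivity) hs
  rw [abs_of_pos (by positivity)]
  rw [div_le_div_iff₀ (by positivity) h9]
  have h10 : 4 * u ^ 2 * (ω ^ 2 - 1) ≤ 4 * u ^ 2 * ω ^ 2 := by
    apply mul_le_mul_of_nonneg_left _ (by positivity)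
    linarith
  have h11 : 4 * u ^ 2 * ω ^ 2 = 4 * π ^ 2 := by
    have : 4 * u ^ 2 * ω ^ 2 = 4 * (ω * u) ^ 2 := by ring
    rw [this, hωu]
  have h12 : 2 * ω * (2 / π * u) * π ^ 2 ≤ 2 * ω * sin u * π ^ 2 := by
    apply mul_le_mul_of_nonneg_right _ (by positivity)
    apply mul_le_mul_of_nonneg_left hs (by linarith)
  have h13 : 2 * ω * (2 / π * u) * π ^ 2 = 4 * (ω * u) * π := by
    field_simp
    ring
  rw [h13, hωu] at h12
  nlinarith

theorem fourier_bound {η : ℝ → ℝ} (hη : Continuous η) {b c u M κ : ℝ} (hu : 0 < u) (hu1 : u ≤ 1)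
    {N : ℕ} (zl : ∀ t, t ≤ b → η t = 0) (zr : ∀ t, c ≤ t → η t = 0)
    (hN : c ≤ b + (2 * N - 2) * u)
    (hM : ∀ x, b - 2 * u ≤ x → x ≤ b →
      |(∑ i ∈ Finset.range N, qk η u (x + (2 * i + 1) * u)) - κ| ≤ M) :
    ‖∫ t in b..c, (η t : ℂ) * ek (π / u) t‖ ≤ M * π ^ 2 / (2 * u) := by
  have hpi := pi_pos
  set ω := π / u with hω
  have hq := qk_cont hη u
  have hqe : Continuous (fun y => (qk η u y : ℂ) * ek ω y) := by
    exact (Complex.continuous_ofReal.comp hq).mul (ek_cont _)
  -- step 1: the integral of the sum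
  have s1 : ∫ x in (b - 2 * u)..b,
      ((∑ i ∈ Finset.range N, qk η u (x + (2 * i + 1) * u) : ℝ) : ℂ) * ek ω x =
      - ∫ y in (b - u)..(b + (2 * N - 1) * u), (qk η u y : ℂ) * ek ω y := by
    have e1 : ∀ x : ℝ, ((∑ i ∈ Finset.range N, qk η u (x + (2 * i + 1) * u) : ℝ) : ℂ) * ek ω x =
        ∑ i ∈ Finset.range N, (qk η u (x + (2 * i + 1) * u) : ℂ) * ek ω x := by
      intro x
      push_cast
      rw [Finset.sum_mul]
    simp_rw [e1]
    rw [intervalIntegral.integral_finsetSum]
    · have e2 : ∀ i ∈ Finset.range N, ∫ x in (b - 2 * u)..b,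
          (qk η u (x + (2 * i + 1) * u) : ℂ) * ek ω x =
          - ∫ y in (b + (2 * (i : ℝ) - 1) * u)..(b + (2 * ((i + 1 : ℕ) : ℝ) - 1) * u),
            (qk η u y : ℂ) * ek ω y := by
        intro i _
        have e3 : ∀ x : ℝ, (qk η u (x + (2 * i + 1) * u) : ℂ) * ek ω x =
            - ((qk η u (x + (2 * i + 1) * u) : ℂ) * ek ω (x + (2 * i + 1) * u)) := by
          intro x
          rw [hω, ek_odd hu.ne']
          ring
        simp_rw [e3]
        rw [intervalIntegral.integral_neg, intervalIntegral.integral_comp_add_right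
          (fun y => (qk η u y : ℂ) * ek ω y)]
        congr 2
        · ring
        · push_cast; ring
      rw [Finset.sum_congr rfl e2, Finset.sum_neg_distrib]
      rw [intervalIntegral.sum_integral_adjacent_intervals
        (a := fun i : ℕ => b + (2 * (i : ℝ) - 1) * u)
        (fun k _ => hqe.intervalIntegrable _ _)]
      congr 2
      push_cast
      ring
    · intro i _
      apply Continuous.intervalIntegrable
      have : Continuous (fun x : ℝ => qk η u (x + (2 * i + 1) * u)) :=
        hq.comp (by fun_prop)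
      exact (Complex.continuous_ofReal.comp this).mul (ek_cont _)
  -- step 2: upper bound
  have s2 : ‖∫ x in (b - 2 * u)..b,
      ((∑ i ∈ Finset.range N, qk η u (x + (2 * i + 1) * u) : ℝ) : ℂ) * ek ω x‖ ≤ M * (2 * u) := by
    have hcs : Continuous (fun x : ℝ => ∑ i ∈ Finset.range N, qk η u (x + (2 * i + 1) * u)) :=
      continuous_finsetSum _ fun i _ => hq.comp (by fun_prop)
    have e4 : ∫ x in (b - 2 * u)..b,
        ((∑ i ∈ Finset.range N, qk η u (x + (2 * i + 1) * u) : ℝ) : ℂ) * ek ω x =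
        ∫ x in (b - 2 * u)..b,
        (((∑ i ∈ Finset.range N, qk η u (x + (2 * i + 1) * u)) - κ : ℝ) : ℂ) * ek ω x := by
      have e5 : ∀ x : ℝ, (((∑ i ∈ Finset.range N, qk η u (x + (2 * i + 1) * u)) - κ : ℝ) : ℂ) *
          ek ω x = ((∑ i ∈ Finset.range N, qk η u (x + (2 * i + 1) * u) : ℝ) : ℂ) * ek ω x -
          (κ : ℂ) * ek ω x := by
        intro x
        push_cast
        ring
      simp_rw [e5]
      rw [intervalIntegral.integral_sub, intervalIntegral.integral_const_mul, hω, ek_int hu.ne',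
        mul_zero, sub_zero]
      · exact ((Complex.continuous_ofReal.comp hcs).mul (ek_cont _)).intervalIntegrable _ _
      · exact (continuous_const.mul (ek_cont _)).intervalIntegrable _ _
    rw [e4]
    refine (intervalIntegral.norm_integral_le_of_norm_le_const (C := M) fun x hx => ?_).trans ?_
    · rw [Set.uIoc_of_le (by linarith)] at hx
      rw [norm_mul, norm_ek, mul_one, Complex.norm_real, Real.norm_eq_abs]
      exact hM x hx.1.le hx.2
    · have : b - (b - 2 * u) = 2 * u := by ring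
      rw [this, abs_of_pos (by positivity)]
  -- step 3: Fubini
  have s3 : ∫ y in (b - u)..(b + (2 * N - 1) * u), (qk η u y : ℂ) * ek ω y =
      (∫ s in (-u)..u, (sin s : ℂ) * ek ω (-s)) * ∫ t in b..c, (η t : ℂ) * ek ω t := by
    have e6 : ∀ y : ℝ, (qk η u y : ℂ) * ek ω y =
        ∫ s in (-u)..u, ((η (y + s) * sin s : ℝ) : ℂ) * ek ω y := by
      intro y
      rw [qk_eq, intervalIntegral.integral_mul_const, intervalIntegral.integral_ofReal]
    simp_rw [e6]
    rw [intervalIntegral_intervalIntegral_swap]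
    · rw [← intervalIntegral.integral_mul_const]
      refine integral_congr fun s hs => ?_
      rw [Set.uIcc_of_le (by linarith)] at hs
      have e7 : ∀ y : ℝ, ((η (y + s) * sin s : ℝ) : ℂ) * ek ω y =
          (sin s : ℂ) * ek ω (-s) * ((η (y + s) : ℂ) * ek ω (y + s)) := by
        intro y
        have : y = (y + s) + -s := by ring
        conv_lhs => rw [this, ek_add]
        simp only [add_neg_cancel_right]
        push_cast
        ring
      simp_rw [e7]
      rw [intervalIntegral.integral_const_mul, intervalIntegral.integral_comp_add_right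
        (fun y => (η y : ℂ) * ek ω y)]
      congr 1
      have hii : ∀ a b, IntervalIntegrable (fun y => (η y : ℂ) * ek ω y) volume a b := fun a b =>
        ((Complex.continuous_ofReal.comp hη).mul (ek_cont _)).intervalIntegrable _ _
      rw [← integral_add_adjacent_intervals (hii (b - u + s) b) (hii b _),
        ← integral_add_adjacent_intervals (hii b c) (hii c _)]
      have z1 : ∫ y in (b - u + s)..b, (η y : ℂ) * ek ω y = 0 := by
        rw [intervalIntegral.integral_zero_ae]
        refine Filter.Eventually.of_forall fun y hy => ?_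
        rw [Set.uIoc_of_le (by linarith [hs.2])] at hy
        rw [zl y hy.2]
        simp
      have z2 : ∫ y in c..(b + (2 * N - 1) * u + s), (η y : ℂ) * ek ω y = 0 := by
        rw [intervalIntegral.integral_zero_ae]
        refine Filter.Eventually.of_forall fun y hy => ?_
        rw [Set.uIoc_of_le (by linarith [hs.1])] at hy
        rw [zr y hy.1.le]
        simp
      rw [z1, z2]
      ring
    · have hc : Continuous (Function.uncurry
          (fun (x y : ℝ) => ((η (x + y) * sin y : ℝ) : ℂ) * ek ω x)) := by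
        simp only [Function.uncurry_def]
        fun_prop
      refine (hc.continuousOn.integrableOn_compact (isCompact_uIcc.prod isCompact_uIcc)).mono_set
        (Set.prod_mono Set.uIoc_subset_uIcc Set.uIoc_subset_uIcc)
  rw [s1, norm_neg, s3, norm_mul] at s2
  have h1 := J_val hu hu1
  have h2 := (mul_le_mul_of_nonneg_right h1
    (norm_nonneg (∫ t in b..c, (η t : ℂ) * ek ω t))).trans s2
  rw [le_div_iff₀ (by positivity)]
  rw [div_mul_eq_mul_div, div_le_iff₀ (by positivity)] at h2
  have h3 : 2 * u * (‖∫ t in b..c, (η t : ℂ) * ek ω t‖ * (2 * u)) ≤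
      2 * u * (M * π ^ 2) := by nlinarith
  exact le_of_mul_le_mul_left h3 (by positivity)

/-- The killing lemma. -/
theorem Reg.kill {ρ g η : ℝ → ℝ} {b c L ε u : ℝ} {N : ℕ} (h : IsRho ρ) (hg : Cau ρ g)
    (R : Reg ρ g η b c L ε u N) :
    ‖∫ t in b..c, (η t : ℂ) * ek (π / u) t‖ ≤ 55 * u ^ 2 / L := by
  have hu := R.u0 hg
  obtain ⟨κ, hκ⟩ := R.main h hg
  have hL : 0 < L := (R.D_le hg).2.2.2
  have h1 := fourier_bound R.cont (κ := κ) (M := 11 * u ^ 3 / L) (N := N) (c := c) hu
    (by linarith [R.uL, R.L1]) R.zl R.zr (by linarith [R.N1]) hκ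
  refine h1.trans ?_
  have hpi2 : π ^ 2 ≤ 10 := by
    have h3 := pi_lt_d4
    have h4 := pi_pos
    nlinarith
  have e1 : 11 * u ^ 3 / L * π ^ 2 / (2 * u) = 11 / 2 * π ^ 2 * (u ^ 2 / L) := by
    field_simp
  have e2 : 55 * u ^ 2 / L = 55 * (u ^ 2 / L) := by ring
  rw [e1, e2]
  apply mul_le_mul_of_nonneg_right _ (by positivity)
  linarith

end Pool.Agent.MP_b87ea9_an
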