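import Mathlib
import Pool.Agent.Lib.MP_b87ea9_an.Kill

set_option autoImplicit false

/-! A self-similar sign pattern of bumps all of whose Fourier coefficients are large. -/

namespace Pool.Agent.MP_b87ea9_an

open Real MeasureTheory intervalIntegral

/-- a bump with all the properties we need -/
structure IsBump (β : ℝ → ℝ) : Prop where
  smooth : ContDiff ℝ 1 β
  nonneg : ∀ x, 0 ≤ β x
  le_one : ∀ x, β x ≤ 1
  deriv_le : ∀ x, |deriv β x| ≤ 1
  zl : ∀ x, x ≤ 1 / 16 → β x = 0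
  zr : ∀ x, 3 / 16 ≤ x → β x = 0
  mid : 0 < β (1 / 8)

lemma exists_bump : ∃ β : ℝ → ℝ, IsBump β := by
  let f : ContDiffBump (1 / 8 : ℝ) := ⟨1 / 32, 1 / 16, by norm_num, by norm_num⟩
  have hf : ContDiff ℝ 1 f := f.contDiff
  have hd : Continuous (deriv f) := hf.continuous_deriv le_rfl
  have hs : HasCompactSupport (deriv f) := f.hasCompactSupport.deriv
  obtain ⟨C, hC⟩ := hs.exists_bound_of_continuous hd
  have hC0 : 0 ≤ C := (norm_nonneg _).trans (hC 0)
  refine ⟨fun x => (1 + C)⁻¹ * f x, ⟨contDiff_const.mul hf, fun x => ?_, fun x => ?_, fun x => ?_,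
    fun x hx => ?_, fun x hx => ?_, ?_⟩⟩
  · exact mul_nonneg (by positivity) f.nonneg
  · have h1 : f x ≤ 1 := f.le_one
    have h2 : 0 ≤ f x := f.nonneg
    rw [inv_mul_le_iff₀ (by positivity)]
    linarith
  · rw [deriv_const_mul _ (hf.differentiable one_ne_zero x), abs_mul, abs_of_pos (by positivity),
      inv_mul_le_iff₀ (by positivity)]
    have := hC x
    rw [Real.norm_eq_abs] at this
    linarith
  · rw [f.zero_of_le_dist, mul_zero]
    show (1 / 16 : ℝ) ≤ dist x (1 / 8)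
    rw [Real.dist_eq, abs_sub_comm]
    exact le_trans (by linarith) (le_abs_self _)
  · rw [f.zero_of_le_dist, mul_zero]
    show (1 / 16 : ℝ) ≤ dist x (1 / 8)
    rw [Real.dist_eq]
    exact le_trans (by linarith) (le_abs_self _)
  · refine mul_pos (by positivity) (f.pos_of_mem_ball (Metric.mem_ball_self ?_))
    exact f.rOut_pos

/-- combination of five shifted copies -/
def comb (w : ℝ) (F : ℝ → ℝ) (x : ℝ) : ℝ :=
  F x + F (x - w) + F (x - 2 * w) - F (x - 3 * w) + F (x - 4 * w)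

/-- the pattern -/
def Hp (β : ℝ → ℝ) : ℕ → ℝ → ℝ
  | 0 => β
  | (r + 1) => comb (5 ^ r) (Hp β r)

lemma comb_bound {w : ℝ} (hw : 0 < w) {F : ℝ → ℝ} (hl : ∀ x, x ≤ 0 → F x = 0)
    (hr : ∀ x, w ≤ x → F x = 0) (hb : ∀ x, |F x| ≤ 1) (x : ℝ) : |comb w F x| ≤ 1 := by
  unfold comb
  rcases lt_or_ge x w with h1 | h1
  · rw [hl (x - w) (by linarith), hl (x - 2 * w) (by linarith), hl (x - 3 * w) (by linarith),
      hl (x - 4 * w) (by linarith)]
    simpa using hb x
  rcases lt_or_ge x (2 * w) with h2 | h2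
  · rw [hr x (by linarith), hl (x - 2 * w) (by linarith), hl (x - 3 * w) (by linarith),
      hl (x - 4 * w) (by linarith)]
    simpa using hb (x - w)
  rcases lt_or_ge x (3 * w) with h3 | h3
  · rw [hr x (by linarith), hr (x - w) (by linarith), hl (x - 3 * w) (by linarith),
      hl (x - 4 * w) (by linarith)]
    simpa using hb (x - 2 * w)
  rcases lt_or_ge x (4 * w) with h4 | h4
  · rw [hr x (by linarith), hr (x - w) (by linarith), hr (x - 2 * w) (by linarith),
      hl (x - 4 * w) (by linarith)]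
    simpa using hb (x - 3 * w)
  · rw [hr x (by linarith), hr (x - w) (by linarith), hr (x - 2 * w) (by linarith),
      hr (x - 3 * w) (by linarith)]
    simpa using hb (x - 4 * w)

lemma deriv_comb {w : ℝ} {F : ℝ → ℝ} (hF : Differentiable ℝ F) (x : ℝ) :
    deriv (comb w F) x = comb w (deriv F) x := by
  have hs : ∀ a : ℝ, HasDerivAt (fun x => F (x - a)) (deriv F (x - a)) x := fun a => by
    have h1 := (hF (x - a)).hasDerivAt
    have h2 := HasDerivAt.comp_sub_const x a h1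
    exact h2
  have := ((((hF x).hasDerivAt.add (hs w)).add (hs (2 * w))).sub (hs (3 * w))).add (hs (4 * w))
  exact this.deriv

structure PatProp (β : ℝ → ℝ) (r : ℕ) : Prop where
  smooth : ContDiff ℝ 1 (Hp β r)
  zl : ∀ x, x ≤ 1 / 16 → Hp β r x = 0
  zr : ∀ x, (5 : ℝ) ^ r - 1 / 2 ≤ x → Hp β r x = 0
  bd : ∀ x, |Hp β r x| ≤ 1
  dbd : ∀ x, |deriv (Hp β r) x| ≤ 1

lemma deriv_zero_left {F : ℝ → ℝ} {a x : ℝ} (hl : ∀ x, x ≤ a → F x = 0) (hx : x < a) :
    deriv F x = 0 := by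
  have : F =ᶠ[nhds x] fun _ => 0 := by
    filter_upwards [Iio_mem_nhds hx] with y hy
    exact hl y (le_of_lt hy)
  rw [this.deriv_eq]
  simp

lemma deriv_zero_right {F : ℝ → ℝ} {a x : ℝ} (hr : ∀ x, a ≤ x → F x = 0) (hx : a < x) :
    deriv F x = 0 := by
  have : F =ᶠ[nhds x] fun _ => 0 := by
    filter_upwards [Ioi_mem_nhds hx] with y hy
    exact hr y (le_of_lt hy)
  rw [this.deriv_eq]
  simp

lemma patProp {β : ℝ → ℝ} (hβ : IsBump β) (r : ℕ) : PatProp β r := by
  induction r with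
  | zero =>
    refine ⟨hβ.smooth, hβ.zl, fun x hx => ?_, fun x => ?_, hβ.deriv_le⟩
    · exact hβ.zr x (by rw [pow_zero] at hx; linarith)
    · rw [Hp, abs_of_nonneg (hβ.nonneg x)]
      exact hβ.le_one x
  | succ r ih =>
    have hw : (1 : ℝ) ≤ 5 ^ r := one_le_pow₀ (by norm_num)
    have h5 : (5 : ℝ) ^ (r + 1) = 5 * 5 ^ r := by ring
    refine ⟨?_, fun x hx => ?_, fun x hx => ?_, fun x => ?_, fun x => ?_⟩
    · have hs : ∀ a : ℝ, ContDiff ℝ 1 (fun x => Hp β r (x - a)) := fun a =>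
        ih.smooth.comp (contDiff_id.sub contDiff_const)
      exact (((ih.smooth.add (hs _)).add (hs _)).sub (hs _)).add (hs _)
    · simp only [Hp, comb]
      rw [ih.zl x hx, ih.zl _ (by linarith), ih.zl _ (by linarith), ih.zl _ (by linarith),
        ih.zl _ (by linarith)]
      ring
    · simp only [Hp, comb]
      rw [ih.zr x (by linarith), ih.zr _ (by linarith), ih.zr _ (by linarith),
        ih.zr _ (by linarith), ih.zr _ (by linarith)]
      ring
    · exact comb_bound (by linarith) (fun x hx => ih.zl x (by linarith))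
        (fun x hx => ih.zr x (by linarith)) ih.bd x
    · have h1 : deriv (Hp β (r + 1)) x = comb (5 ^ r) (deriv (Hp β r)) x := by
        rw [Hp]
        exact deriv_comb (ih.smooth.differentiable one_ne_zero) x
      rw [h1]
      exact comb_bound (by linarith) (fun x hx => deriv_zero_left ih.zl (by linarith))
        (fun x hx => deriv_zero_right ih.zr (by linarith)) ih.dbd x

/-- integral over a larger interval -/
lemma int_extend {F : ℝ → ℝ} (hF : Continuous F) {w : ℝ}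
    (hl : ∀ x, x ≤ 0 → F x = 0) (hr : ∀ x, w ≤ x → F x = 0) (ω : ℝ) {A B : ℝ} (hA : A ≤ 0)
    (hB : w ≤ B) :
    ∫ t in A..B, (F t : ℂ) * ek ω t = ∫ t in (0 : ℝ)..w, (F t : ℂ) * ek ω t := by
  have hii : ∀ a b, IntervalIntegrable (fun y => (F y : ℂ) * ek ω y) volume a b := fun a b =>
    ((Complex.continuous_ofReal.comp hF).mul (ek_cont _)).intervalIntegrable _ _
  rw [← integral_add_adjacent_intervals (hii A 0) (hii 0 B),
    ← integral_add_adjacent_intervals (hii 0 w) (hii w B)]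
  have z1 : ∫ y in A..0, (F y : ℂ) * ek ω y = 0 := by
    rw [intervalIntegral.integral_zero_ae]
    refine Filter.Eventually.of_forall fun y hy => ?_
    rw [Set.uIoc_of_le hA] at hy
    rw [hl y hy.2]
    simp
  have z2 : ∫ y in w..B, (F y : ℂ) * ek ω y = 0 := by
    rw [intervalIntegral.integral_zero_ae]
    refine Filter.Eventually.of_forall fun y hy => ?_
    rw [Set.uIoc_of_le hB] at hy
    rw [hr y hy.1.le]
    simp
  rw [z1, z2]
  ring

lemma int_shift {F : ℝ → ℝ} (hF : Continuous F) {w : ℝ}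
    (hl : ∀ x, x ≤ 0 → F x = 0) (hr : ∀ x, w ≤ x → F x = 0) (ω : ℝ) {a B : ℝ} (ha : 0 ≤ a)
    (hB : w + a ≤ B) :
    ∫ t in (0 : ℝ)..B, (F (t - a) : ℂ) * ek ω t =
      ek ω a * ∫ t in (0 : ℝ)..w, (F t : ℂ) * ek ω t := by
  have e1 : ∀ t, (F (t - a) : ℂ) * ek ω t = ek ω a * ((F (t - a) : ℂ) * ek ω (t - a)) := by
    intro t
    have : t = (t - a) + a := by ring
    conv_lhs => rw [this, ek_add]
    simp only [sub_add_cancel]
    ring
  simp_rw [e1]
  rw [intervalIntegral.integral_const_mul, intervalIntegral.integral_comp_sub_right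
    (fun t => (F t : ℂ) * ek ω t), int_extend hF hl hr ω (by linarith) (by linarith)]

/-- Fourier integral of the pattern -/
noncomputable def Hhat (β : ℝ → ℝ) (r : ℕ) (ω : ℝ) : ℂ :=
  ∫ t in (0 : ℝ)..(5 ^ r), (Hp β r t : ℂ) * ek ω t

lemma Hhat_succ {β : ℝ → ℝ} (hβ : IsBump β) (r : ℕ) (ω : ℝ) :
    Hhat β (r + 1) ω = (1 + ek ω (5 ^ r) + ek ω (5 ^ r) ^ 2 - ek ω (5 ^ r) ^ 3 +
      ek ω (5 ^ r) ^ 4) * Hhat β r ω := by
  have P := patProp hβ r
  have hw : (1 : ℝ) ≤ 5 ^ r := one_le_pow₀ (by norm_num)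
  have h5 : (5 : ℝ) ^ (r + 1) = 5 * 5 ^ r := by ring
  have hl : ∀ x, x ≤ 0 → Hp β r x = 0 := fun x hx => P.zl x (by linarith)
  have hr : ∀ x, (5 : ℝ) ^ r ≤ x → Hp β r x = 0 := fun x hx => P.zr x (by linarith)
  have hc := P.smooth.continuous
  have s0 := int_extend hc (w := 5 ^ r) hl hr ω (A := 0) (B := 5 ^ (r + 1)) le_rfl
    (by linarith)
  have s1 := int_shift hc (w := 5 ^ r) hl hr ω (a := 5 ^ r) (B := 5 ^ (r + 1))
    (by linarith) (by linarith)
  have s2 := int_shift hc (w := 5 ^ r) hl hr ω (a := 2 * 5 ^ r) (B := 5 ^ (r + 1))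
    (by linarith) (by linarith)
  have s3 := int_shift hc (w := 5 ^ r) hl hr ω (a := 3 * 5 ^ r) (B := 5 ^ (r + 1))
    (by linarith) (by linarith)
  have s4 := int_shift hc (w := 5 ^ r) hl hr ω (a := 4 * 5 ^ r) (B := 5 ^ (r + 1))
    (by linarith) (by linarith)
  have p2 : ek ω (2 * 5 ^ r) = ek ω (5 ^ r) ^ 2 := by
    rw [two_mul, ek_add]; ring
  have p3 : ek ω (3 * 5 ^ r) = ek ω (5 ^ r) ^ 3 := by
    have : (3 : ℝ) * 5 ^ r = 2 * 5 ^ r + 5 ^ r := by ring
    rw [this, ek_add, p2]; ring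
  have p4 : ek ω (4 * 5 ^ r) = ek ω (5 ^ r) ^ 4 := by
    have : (4 : ℝ) * 5 ^ r = 3 * 5 ^ r + 5 ^ r := by ring
    rw [this, ek_add, p3]; ring
  rw [p2] at s2
  rw [p3] at s3
  rw [p4] at s4
  have hii : ∀ a : ℝ, IntervalIntegrable (fun t => (Hp β r (t - a) : ℂ) * ek ω t) volume 0
      (5 ^ (r + 1)) := fun a => by
    apply Continuous.intervalIntegrable
    exact (Complex.continuous_ofReal.comp (hc.comp (continuous_id.sub continuous_const))).mul
      (ek_cont _)
  have hii0 : IntervalIntegrable (fun t => (Hp β r t : ℂ) * ek ω t) volume 0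
      (5 ^ (r + 1)) := by
    simpa using hii 0
  have e1 : Hhat β (r + 1) ω = ∫ t in (0 : ℝ)..(5 ^ (r + 1)),
      ((Hp β r t : ℂ) * ek ω t + (Hp β r (t - 5 ^ r) : ℂ) * ek ω t +
        (Hp β r (t - 2 * 5 ^ r) : ℂ) * ek ω t - (Hp β r (t - 3 * 5 ^ r) : ℂ) * ek ω t +
        (Hp β r (t - 4 * 5 ^ r) : ℂ) * ek ω t) := by
    unfold Hhat
    refine integral_congr fun t _ => ?_
    simp only [Hp, comb]
    push_cast
    ring
  rw [e1, intervalIntegral.integral_add (((hii0.add (hii _)).add (hii _)).sub (hii _)) (hii _),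
    intervalIntegral.integral_sub ((hii0.add (hii _)).add (hii _)) (hii _),
    intervalIntegral.integral_add (hii0.add (hii _)) (hii _),
    intervalIntegral.integral_add hii0 (hii _), s0, s1, s2, s3, s4]
  unfold Hhat
  ring

/-- the Barker polynomial of length five is large on the unit circle -/
lemma barker {z : ℂ} (hz : ‖z‖ = 1) : 11 / 4 ≤ ‖1 + z + z ^ 2 - z ^ 3 + z ^ 4‖ ^ 2 := by
  have h1 : z.re ^ 2 + z.im ^ 2 = 1 := by
    have : ‖z‖ ^ 2 = 1 := by rw [hz]; norm_num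
    rw [Complex.sq_norm, Complex.normSq_apply] at this
    nlinarith
  have hzz : z * starRingEnd ℂ z = 1 := by
    rw [Complex.mul_conj, Complex.normSq_eq_norm_sq, hz]
    norm_num
  have h2 : 1 + z + z ^ 2 - z ^ 3 + z ^ 4 =
      z ^ 2 * (starRingEnd ℂ z ^ 2 + starRingEnd ℂ z + 1 - z + z ^ 2) := by
    linear_combination (-z * starRingEnd ℂ z - 1 - z) * hzz
  rw [h2, norm_mul, norm_pow, hz, one_pow, one_mul, Complex.sq_norm, Complex.normSq_apply]
  have e1 : (starRingEnd ℂ z ^ 2 + starRingEnd ℂ z + 1 - z + z ^ 2).re =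
      1 + 2 * (z.re ^ 2 - z.im ^ 2) := by
    simp [pow_two]
    ring
  have e2 : (starRingEnd ℂ z ^ 2 + starRingEnd ℂ z + 1 - z + z ^ 2).im = - 2 * z.im := by
    simp [pow_two]
    ring
  rw [e1, e2]
  have h3 : z.im ^ 2 = 1 - z.re ^ 2 := by linarith
  nlinarith [sq_nonneg (2 * (2 * z.re ^ 2 - 1) + 1 / 2)]

lemma Hhat_zero {β : ℝ → ℝ} (hβ : IsBump β) {ω : ℝ} (hω : |ω| ≤ 7) :
    1 / 2 * (∫ t in (0 : ℝ)..1, β t) ≤ ‖Hhat β 0 ω‖ := by
  have hc := hβ.smooth.continuous
  have e1 : ek ω (-(1 / 8)) * Hhat β 0 ω = ∫ t in (0 : ℝ)..1, (β t : ℂ) * ek ω (t - 1 / 8) := by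
    unfold Hhat
    rw [pow_zero, ← intervalIntegral.integral_const_mul]
    refine integral_congr fun t _ => ?_
    simp only [Hp]
    rw [sub_eq_add_neg, ek_add]
    ring
  have e2 : ‖Hhat β 0 ω‖ = ‖ek ω (-(1 / 8)) * Hhat β 0 ω‖ := by
    rw [norm_mul, norm_ek, one_mul]
  have hI : 0 ≤ ∫ t in (0 : ℝ)..1, β t :=
    intervalIntegral.integral_nonneg (by norm_num) fun t _ => hβ.nonneg t
  have e3 : ‖(∫ t in (0 : ℝ)..1, (β t : ℂ) * ek ω (t - 1 / 8)) - ((∫ t in (0 : ℝ)..1, β t : ℝ) : ℂ)‖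
      ≤ 7 / 16 * ∫ t in (0 : ℝ)..1, β t := by
    rw [← intervalIntegral.integral_ofReal, ← intervalIntegral.integral_sub]
    · rw [← intervalIntegral.integral_const_mul]
      refine intervalIntegral.norm_integral_le_of_norm_le (by norm_num) ?_ ?_
      · refine Filter.Eventually.of_forall fun t ht => ?_
        have e4 : (β t : ℂ) * ek ω (t - 1 / 8) - (β t : ℂ) = (β t : ℂ) * (ek ω (t - 1 / 8) - 1) := by
          ring
        rw [e4, norm_mul, Complex.norm_real, Real.norm_eq_abs, abs_of_nonneg (hβ.nonneg t)]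
        by_cases h1 : t ≤ 1 / 16
        · rw [hβ.zl t h1]; simp
        by_cases h2 : 3 / 16 ≤ t
        · rw [hβ.zr t h2]; simp
        push Not at h1 h2
        rw [mul_comm]
        apply mul_le_mul_of_nonneg_right _ (hβ.nonneg t)
        have e5 : ek ω (t - 1 / 8) = Complex.exp (Complex.I * ((-(ω * (t - 1 / 8)) : ℝ) : ℂ)) := by
          unfold ek; rw [mul_comm]
        rw [e5]
        refine Real.norm_exp_I_mul_ofReal_sub_one_le.trans ?_
        rw [Real.norm_eq_abs, abs_neg, abs_mul]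
        have h3 : |t - 1 / 8| ≤ 1 / 16 := by
          rw [abs_le]; constructor <;> linarith
        have := mul_le_mul hω h3 (abs_nonneg _) (by norm_num)
        linarith
      · exact (continuous_const.mul hc).intervalIntegrable _ _
    · exact ((Complex.continuous_ofReal.comp hc).mul
        ((ek_cont _).comp (continuous_id.sub continuous_const))).intervalIntegrable _ _
    · exact (Complex.continuous_ofReal.comp hc).intervalIntegrable _ _
  rw [e2, e1]
  have e6 := norm_sub_norm_le ((∫ t in (0 : ℝ)..1, β t : ℝ) : ℂ)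
    (∫ t in (0 : ℝ)..1, (β t : ℂ) * ek ω (t - 1 / 8))
  rw [norm_sub_rev] at e6
  rw [Complex.norm_real, Real.norm_eq_abs, abs_of_nonneg hI] at e6
  linarith

/-- lower bound for the Fourier integral of the pattern -/
theorem Hhat_lower {β : ℝ → ℝ} (hβ : IsBump β) (r : ℕ) {ω : ℝ} (hω : |ω| ≤ 7) :
    (11 / 4 : ℝ) ^ r * (1 / 2 * (∫ t in (0 : ℝ)..1, β t)) ^ 2 ≤ ‖Hhat β r ω‖ ^ 2 := by
  induction r with
  | zero =>
    rw [pow_zero, one_mul]
    have hI : 0 ≤ ∫ t in (0 : ℝ)..1, β t :=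
      intervalIntegral.integral_nonneg (by norm_num) fun t _ => hβ.nonneg t
    exact pow_le_pow_left₀ (by positivity) (Hhat_zero hβ hω) 2
  | succ r ih =>
    rw [Hhat_succ hβ, norm_mul]
    have h1 := barker (norm_ek ω (5 ^ r))
    have h2 := mul_le_mul h1 ih (by positivity) (by positivity)
    refine le_trans (le_of_eq ?_) (h2.trans (le_of_eq (mul_pow _ _ 2).symm))
    ring

lemma IsBump.int_pos {β : ℝ → ℝ} (hβ : IsBump β) : 0 < ∫ t in (0 : ℝ)..1, β t :=
  intervalIntegral.integral_pos (by norm_num) hβ.smooth.continuous.continuousOn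
    (fun x _ => hβ.nonneg x) ⟨1 / 8, by norm_num, hβ.mid⟩

end Pool.Agent.MP_b87ea9_an
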