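import Mathlib
import Pool.Agent.Lib.MP_b87ea9_an.Pattern

set_option autoImplicit false

/-! Propagation of the angle from `0` to the perturbed arc, and the local contradiction. -/

namespace Pool.Agent.MP_b87ea9_an

open Real MeasureTheory intervalIntegral

section

variable {ρ g : ℝ → ℝ} (h : IsRho ρ) (hg : Cau ρ g)

include hg

lemma Cau.iter_le_iter {i j : ℕ} (hij : i ≤ j) (x : ℝ) : hg.F^[i] x ≤ hg.F^[j] x := by
  obtain ⟨k, rfl⟩ := Nat.exists_eq_add_of_le hij
  rw [add_comm i k, Function.iterate_add_apply hg.F k i x]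
  exact hg.le_iter k _

include h

lemma Cau.free_to_end {y q : ℝ} {k : ℕ} (hf : ∀ τ ∈ Set.Icc y q, ρ τ = 1)
    (hk1 : y + 2 * k * g y ≤ q) (hk2 : q < y + 2 * ((k : ℝ) + 1) * g y) :
    ((k : ℝ) - 1) * |g q - g y| ≤ g y := by
  have hp := hg.pos y
  rcases Nat.eq_zero_or_pos k with rfl | hk0
  · have := abs_nonneg (g q - g y)
    push_cast
    linarith
  have hk0' : (1 : ℝ) ≤ k := by exact_mod_cast hk0
  have hit := hg.free_iter h (k := k) hf hk1
  obtain ⟨a1, a2⟩ := hit k le_rfl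
  have hFw : q < hg.F (hg.F^[k] y) := by
    by_contra hcon
    push Not at hcon
    have h1 := hg.free_A (t := hg.F^[k] y) (by
      intro τ hτ
      apply hf
      exact ⟨(hg.le_iter k y).trans hτ.1, hτ.2.trans hcon⟩)
    rw [h1.2, a2, a1] at hcon
    linarith
  obtain ⟨z, hz⟩ := (hg.F.surjective.iterate k) q
  have hyz : y ≤ z := by
    rw [← hg.iter_mono_iff k, hz, a1]
    exact hk1
  have hzF : z ≤ hg.F y := by
    rw [← hg.iter_mono_iff k, hz, ← Function.iterate_succ_apply, Function.iterate_succ_apply']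
    exact hFw.le
  have hmain : ∀ j : ℕ, j ≤ k → hg.F^[j] z = z + 2 * j * g z ∧ g (hg.F^[j] z) = g z := by
    intro j
    induction j with
    | zero => intro _; simp
    | succ j ih =>
      intro hj
      obtain ⟨h1, h2⟩ := ih (by omega)
      have h4 : hg.F^[j + 1] z ≤ q := by
        rw [← hz]
        exact hg.iter_le_iter hj z
      rw [Function.iterate_succ_apply'] at h4 ⊢
      have h3 := hg.free_A (t := hg.F^[j] z) (by
        intro τ hτ
        apply hf
        constructor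
        · exact (hyz.trans (hg.le_iter j z)).trans hτ.1
        · exact hτ.2.trans h4)
      refine ⟨?_, h3.1.trans h2⟩
      rw [h3.2, h2, h1]
      push_cast
      ring
  have hF : hg.F y = y + 2 * g y := by
    have := (hit 1 (by omega)).1
    simp at this
    linarith
  obtain ⟨b1, b2⟩ := hmain k le_rfl
  rw [hz] at b1 b2
  have c1 : hg.F^[k - 1] z ≤ hg.F^[k] y := by
    have : k = (k - 1) + 1 := by omega
    conv_rhs => rw [this]
    rw [Function.iterate_succ_apply]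
    exact hg.iter_mono (k - 1) hzF
  rw [(hmain (k - 1) (by omega)).1, a1] at c1
  have hk3 : ((k - 1 : ℕ) : ℝ) = (k : ℝ) - 1 := by
    rw [Nat.cast_sub hk0]; simp
  rw [hk3] at c1
  rw [b2]
  have hk4 : 0 ≤ (k : ℝ) - 1 := by linarith
  rw [← abs_of_nonneg hk4, ← abs_mul, abs_le]
  constructor
  · -- k (g y - g z) ≤ g y
    have d1 : 2 * (k : ℝ) * (g y - g z) ≤ 2 * g y := by linarith
    rcases le_or_gt (g y) (g z) with h5 | h5
    · have : 0 ≤ ((k : ℝ) - 1) * (g z - g y) := mul_nonneg hk4 (by linarith)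
      linarith
    · have : (g y - g z) * 1 ≥ 0 := by linarith
      linarith
  · linarith

lemma Cau.propagate {Λ : ℝ} (hΛ0 : 0 ≤ Λ) (hΛ : 1000 * Λ ≤ 1)
    (hlip : ∀ s ∈ Set.Icc (0 : ℝ) 1, ∀ t ∈ Set.Icc (0 : ℝ) 1, |ρ s - ρ t| ≤ Λ * |s - t|)
    (hlow : ∀ t ∈ Set.Icc (0 : ℝ) 1, 1 / 2 ≤ ρ t) (i : ℕ) :
    hg.F^[i] 0 ≤ 1 → |g (hg.F^[i] 0) - g 0| ≤ 16 * Λ * g 0 * hg.F^[i] 0 := by
  have hp := hg.pos 0
  induction i with
  | zero => intro _; simp
  | succ i ih =>
    intro hi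
    have hmono := hg.iter_le_iter (Nat.le_succ i) 0
    have ih' := ih (hmono.trans hi)
    rw [Function.iterate_succ_apply'] at hi ⊢
    set y := hg.F^[i] 0 with hy
    have hy0 : 0 ≤ y := hg.le_iter i 0
    have hlt := hg.lt_F y
    have hgy : g y ≤ 2 * g 0 := by
      have h1 := (abs_le.mp ih').2
      have h2 : 16 * Λ * g 0 * y ≤ 1 * g 0 := by
        have : 16 * Λ * y ≤ 1 := by nlinarith
        nlinarith
      linarith
    have hgy0 := hg.pos y
    have hst := hg.step h (t := y) (r := ρ y) (v := 2 * Λ * (hg.F y - y)) (h.pos y)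
      (mul_nonneg (by linarith) (by linarith)) (by nlinarith) (by
        intro τ hτ
        have h1 := hlip τ ⟨by linarith [hτ.1], by linarith [hτ.2]⟩ y ⟨hy0, by linarith⟩
        have h2 := hlow y ⟨hy0, by linarith⟩
        refine h1.trans ?_
        rw [abs_of_nonneg (by linarith [hτ.1])]
        have h3 : Λ * (τ - y) ≤ Λ * (hg.F y - y) :=
          mul_le_mul_of_nonneg_left (by linarith [hτ.2]) hΛ0
        have h4 : 0 ≤ Λ * (hg.F y - y) := mul_nonneg hΛ0 (by linarith)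
        nlinarith)
    have e1 : g (hg.F y) - g 0 = (g (hg.F y) - g y) + (g y - g 0) := by ring
    rw [e1]
    refine (abs_add_le _ _).trans ?_
    have h5 : 4 * (2 * Λ * (hg.F y - y)) * g y ≤ 4 * (2 * Λ * (hg.F y - y)) * (2 * g 0) := by
      apply mul_le_mul_of_nonneg_left hgy
      have : 0 ≤ Λ * (hg.F y - y) := mul_nonneg hΛ0 (by linarith)
      linarith
    nlinarith

/-- from `0` to the right end of a long free arc -/
lemma Cau.near_start {Λ p q : ℝ} (hΛ0 : 0 ≤ Λ) (hΛ : 1000 * Λ ≤ 1)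
    (hlip : ∀ s ∈ Set.Icc (0 : ℝ) 1, ∀ t ∈ Set.Icc (0 : ℝ) 1, |ρ s - ρ t| ≤ Λ * |s - t|)
    (hlow : ∀ t ∈ Set.Icc (0 : ℝ) 1, 1 / 2 ≤ ρ t) (hp0 : 0 < p) (hq1 : q ≤ 1)
    (hf : ∀ τ ∈ Set.Icc p q, ρ τ = 1) (hpq : 200 * g 0 ≤ q - p) :
    |g q - g 0| ≤ 3 / 100 * g 0 := by
  have hg0 := hg.pos 0
  have hprop := fun i => hg.propagate h hΛ0 hΛ hlip hlow i
  have hprop' : ∀ i, hg.F^[i] 0 ≤ 1 → |g (hg.F^[i] 0) - g 0| ≤ 1 / 50 * g 0 := by
    intro i hi
    refine (hprop i hi).trans ?_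
    have h1 : 0 ≤ hg.F^[i] 0 := hg.le_iter i 0
    have h2 : 16 * Λ * g 0 * hg.F^[i] 0 ≤ 16 * Λ * g 0 * 1 :=
      mul_le_mul_of_nonneg_left hi (by positivity)
    nlinarith
  -- the orbit leaves `[0, p)`
  have hex : ∃ j, p ≤ hg.F^[j] 0 := by
    by_contra hcon
    push Not at hcon
    have h1 : ∀ j : ℕ, j * g 0 ≤ hg.F^[j] 0 := by
      intro j
      induction j with
      | zero => simp
      | succ j ih =>
        have h2 := (abs_le.mp (hprop' j (by linarith [hcon j]))).1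
        have h3 := hg.F_val (hg.F^[j] 0)
        have h4 := (abs_le.mp (hprop' (j + 1) (by linarith [hcon (j + 1)]))).1
        rw [Function.iterate_succ_apply'] at h4 ⊢
        push_cast
        linarith
    obtain ⟨j, hj⟩ := exists_nat_gt (1 / g 0)
    rw [div_lt_iff₀ hg0] at hj
    have := h1 j
    have := hcon j
    linarith
  classical
  obtain ⟨j, hj1, hj2⟩ : ∃ j, p ≤ hg.F^[j] 0 ∧ ∀ i < j, ¬ p ≤ hg.F^[i] 0 :=
    ⟨Nat.find hex, Nat.find_spec hex, fun i hi => Nat.find_min hex hi⟩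
  have hj0 : j ≠ 0 := by
    rintro rfl
    simp at hj1
    linarith
  obtain ⟨i, rfl⟩ := Nat.exists_eq_succ_of_ne_zero hj0
  have hi := hj2 i (Nat.lt_succ_self i)
  push Not at hi
  rw [Nat.succ_eq_add_one, Function.iterate_succ_apply'] at hj1
  set x := hg.F^[i] 0 with hx
  have hx0 : 0 ≤ x := hg.le_iter i 0
  have hgx := abs_le.mp (hprop' i (by linarith))
  have hgxp := hg.pos x
  -- the next point
  have hF := hg.F_le h (t := x) (r := ρ x) (v := 1 / 4) (h.pos x) (by norm_num) le_rfl (by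
    intro τ hτ
    have h1 := hlip τ ⟨by linarith [hτ.1], by linarith [hτ.2]⟩ x ⟨hx0, by linarith⟩
    have h2 := hlow x ⟨hx0, by linarith⟩
    refine h1.trans ?_
    rw [abs_of_nonneg (by linarith [hτ.1])]
    have h3 : Λ * (τ - x) ≤ Λ * 1 := by
      apply mul_le_mul_of_nonneg_left _ hΛ0
      linarith [hτ.2]
    linarith)
  set y := hg.F x with hy
  have hyeq : y = hg.F^[i + 1] 0 := by rw [Function.iterate_succ_apply']
  have hgy : |g y - g 0| ≤ 1 / 50 * g 0 := by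
    have := hprop' (i + 1) (by rw [← hyeq]; linarith)
    rwa [← hyeq] at this
  have hgy' := abs_le.mp hgy
  have hgyp := hg.pos y
  -- number of further steps
  have hk0 : 0 ≤ (q - y) / (2 * g y) := by
    apply div_nonneg _ (by linarith)
    linarith
  obtain ⟨k, hk1, hk2⟩ : ∃ k : ℕ, (k : ℝ) ≤ (q - y) / (2 * g y) ∧ (q - y) / (2 * g y) < k + 1 :=
    ⟨⌊(q - y) / (2 * g y)⌋₊, Nat.floor_le hk0, Nat.lt_floor_add_one _⟩
  rw [le_div_iff₀ (by linarith)] at hk1
  rw [div_lt_iff₀ (by linarith)] at hk2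
  have hend := hg.free_to_end h (y := y) (q := q) (k := k) (fun τ hτ => hf τ ⟨by linarith [hτ.1],
    hτ.2⟩) (by linarith) (by linarith)
  have hkbig : (91 : ℝ) ≤ (k : ℝ) - 1 := by
    by_contra hcon
    push Not at hcon
    have h1 : ((k : ℝ) + 1) * (2 * g y) ≤ 93 * (2 * g y) :=
      mul_le_mul_of_nonneg_right (by linarith) (by linarith)
    linarith
  have h6 : 91 * |g q - g y| ≤ g y :=
    (mul_le_mul_of_nonneg_right hkbig (abs_nonneg _)).trans hend
  have e1 : g q - g 0 = (g q - g y) + (g y - g 0) := by ring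
  rw [e1]
  -- need `g y / 91 + g 0 / 50 ≤ 3/100 g 0`; use the sharper propagation bound
  have hgy2 : |g y - g 0| ≤ 16 / 1000 * g 0 := by
    have h7 := hprop (i + 1) (by rw [← hyeq]; linarith)
    rw [← hyeq] at h7
    refine h7.trans ?_
    have h8 : 0 ≤ y := by linarith
    have h9 : 16 * Λ * g 0 * y ≤ 16 * Λ * g 0 * 1 := by
      apply mul_le_mul_of_nonneg_left _ (by positivity)
      linarith
    nlinarith
  refine (abs_add_le _ _).trans ?_
  linarith

/-- The local contradiction. -/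
theorem local_contra {β : ℝ → ℝ} (hβ : IsBump β) {Λ b L σ A : ℝ} {r : ℕ}
    (hΛ0 : 0 ≤ Λ) (hΛ : 1000 * Λ ≤ 1)
    (hlip : ∀ s ∈ Set.Icc (0 : ℝ) 1, ∀ t ∈ Set.Icc (0 : ℝ) 1, |ρ s - ρ t| ≤ Λ * |s - t|)
    (hlow : ∀ t ∈ Set.Icc (0 : ℝ) 1, 1 / 2 ≤ ρ t)
    (hbL : 0 < b - L) (hb1 : b ≤ 1) (hσ : 0 < σ) (hA : 0 < A) (hA1 : A ≤ 1) (hL1 : L ≤ 1)
    (hσL : 206 * σ ≤ L) (hrL : 16 * (5 ^ r * σ) ≤ L) (hr3 : 375000 * ((5 ^ r) ^ 3 * σ) ≤ 1)
    (hbig : 3600 < A ^ 2 * L ^ 2 * ((11 / 4) ^ r * (1 / 2 * (∫ t in (0 : ℝ)..1, β t)) ^ 2))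
    (hρ : ∀ t ∈ Set.Icc (b - L) (b + 5 ^ r * σ + L), ρ t = 1 + A * σ * Hp β r ((t - b) / σ))
    (h1 : σ / 2 < g 0) (h2 : g 0 ≤ σ) : False := by
  have P := patProp hβ r
  have hL : 0 < L := by linarith
  have hK : (1 : ℝ) ≤ 5 ^ r := one_le_pow₀ (by norm_num)
  set K : ℝ := 5 ^ r with hKdef
  set η : ℝ → ℝ := fun t => A * σ * Hp β r ((t - b) / σ) with hη
  have zl : ∀ t, t ≤ b → η t = 0 := by
    intro t ht
    rw [hη]
    simp only
    rw [P.zl, mul_zero]
    have : (t - b) / σ ≤ 0 := div_nonpos_of_nonpos_of_nonneg (by linarith) hσ.le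
    linarith
  have zr : ∀ t, b + K * σ ≤ t → η t = 0 := by
    intro t ht
    rw [hη]
    simp only
    rw [P.zr, mul_zero]
    have : K ≤ (t - b) / σ := by
      rw [le_div_iff₀ hσ]; linarith
    linarith
  -- angle at `b`
  have hu := hg.near_start h (p := b - L) (q := b) hΛ0 hΛ hlip hlow hbL hb1 (by
    intro τ hτ
    have h3 := hρ τ ⟨hτ.1, by
      have : 0 ≤ K * σ := by positivity
      linarith [hτ.2]⟩
    have h4 := zl τ hτ.2
    simp only [hη] at h4
    rw [h3, h4, add_zero]) (by linarith)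
  obtain ⟨hu1, hu2⟩ := abs_le.mp hu
  set u := g b with hudef
  have hupos : 0 < u := hg.pos b
  have hulow : 0.485 * σ < u := by linarith
  have huup : u ≤ 1.03 * σ := by linarith
  -- number of steps
  obtain ⟨N, hN1, hN2⟩ : ∃ N : ℕ, K * σ / (2 * u) + 2 ≤ N ∧ (N : ℝ) < K * σ / (2 * u) + 2 + 1 :=
    ⟨⌈K * σ / (2 * u) + 2⌉₊, Nat.le_ceil _, Nat.ceil_lt_add_one (by positivity)⟩
  have hKu : K * σ / (2 * u) * (2 * u) = K * σ := by field_simp
  have hN5 : (N : ℝ) ≤ 5 * K := by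
    have : K * σ / (2 * u) ≤ 1.04 * K := by
      rw [div_le_iff₀ (by positivity)]
      nlinarith
    linarith
  have R : Reg ρ g η b (b + K * σ) L (A * σ) u N := by
    refine ⟨?_, zl, zr, ?_, fun t ht => hρ t ht, rfl, ?_, hL1, by linarith, ?_, ?_, ?_, ?_, ?_⟩
    · have := P.smooth.continuous
      rw [hη]
      fun_prop
    · intro t
      rw [hη]
      simp only
      rw [abs_mul, abs_of_pos (by positivity)]
      have := P.bd ((t - b) / σ)
      have h3 : 0 < A * σ := by positivity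
      nlinarith
    · have : 0 ≤ K * σ := by positivity
      linarith
    · linarith
    · have := mul_le_mul_of_nonneg_right hN1 (by positivity : (0 : ℝ) ≤ 2 * u)
      linarith
    · have := mul_le_mul_of_nonneg_right hN2.le (by positivity : (0 : ℝ) ≤ 2 * u)
      linarith
    · have e1 : (N : ℝ) ^ 3 ≤ (5 * K) ^ 3 := pow_le_pow_left₀ (by positivity) hN5 3
      have e2 : A * σ ≤ 1 * σ := mul_le_mul_of_nonneg_right hA1 hσ.le
      have e3 : (N : ℝ) ^ 3 * (A * σ) ≤ (5 * K) ^ 3 * (1 * σ) :=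
        mul_le_mul e1 e2 (by positivity) (by positivity)
      nlinarith
    · have e2 : A * σ ≤ 1 * σ := mul_le_mul_of_nonneg_right hA1 hσ.le
      linarith
  have hkill := R.kill h hg
  -- the Fourier coefficient
  have hfour : ∫ t in b..(b + K * σ), (η t : ℂ) * ek (π / u) t =
      ((A * σ * σ : ℝ) : ℂ) * (ek (π / u) b * Hhat β r (π / u * σ)) := by
    have e1 : ∫ t in b..(b + K * σ), (η t : ℂ) * ek (π / u) t =
        (σ : ℂ) * ∫ s in (0 : ℝ)..K, (η (σ * s + b) : ℂ) * ek (π / u) (σ * s + b) := by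
      have e2 := intervalIntegral.smul_integral_comp_mul_add (a := 0) (b := K)
        (fun t => (η t : ℂ) * ek (π / u) t) σ b
      rw [Complex.real_smul] at e2
      rw [e2]
      congr 1 <;> ring
    rw [e1]
    unfold Hhat
    rw [← intervalIntegral.integral_const_mul, ← intervalIntegral.integral_const_mul,
      ← intervalIntegral.integral_const_mul]
    refine integral_congr fun s _ => ?_
    have e3 : η (σ * s + b) = A * σ * Hp β r s := by
      rw [hη]
      simp only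
      congr 2
      field_simp
      ring
    have e4 : ek (π / u) (σ * s + b) = ek (π / u) b * ek (π / u * σ) s := by
      rw [add_comm, ek_add]
      congr 1
      unfold ek
      congr 3
      ring
    simp only [e3, e4]
    push_cast
    ring
  rw [hfour, norm_mul, norm_mul, norm_ek, one_mul, Complex.norm_real, Real.norm_eq_abs,
    abs_of_pos (by positivity)] at hkill
  have hfreq : |π / u * σ| ≤ 7 := by
    rw [abs_of_pos (by positivity), div_mul_eq_mul_div, div_le_iff₀ hupos]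
    have := pi_lt_d2
    nlinarith
  have hlow2 := Hhat_lower hβ r hfreq
  have hsq : (A * σ * σ * ‖Hhat β r (π / u * σ)‖) ^ 2 ≤ (55 * u ^ 2 / L) ^ 2 :=
    pow_le_pow_left₀ (by positivity) hkill 2
  have e5 : (A * σ * σ * ‖Hhat β r (π / u * σ)‖) ^ 2 =
      A ^ 2 * σ ^ 4 * ‖Hhat β r (π / u * σ)‖ ^ 2 := by ring
  have e6 : (55 * u ^ 2 / L) ^ 2 ≤ 3600 * σ ^ 4 / L ^ 2 := by
    rw [div_pow]
    apply div_le_div_of_nonneg_right _ (by positivity)
    have : u ^ 4 ≤ (1.03 * σ) ^ 4 := pow_le_pow_left₀ hupos.le huup 4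
    have h9 : 0 < σ ^ 4 := by positivity
    have e7 : (1.03 * σ) ^ 4 = 1.12550881 * σ ^ 4 := by ring
    rw [e7] at this
    have e8 : (55 * u ^ 2) ^ 2 = 3025 * u ^ 4 := by ring
    rw [e8]
    linarith
  rw [e5] at hsq
  have e9 := (mul_le_mul_of_nonneg_left hlow2 (by positivity : 0 ≤ A ^ 2 * σ ^ 4)).trans
    (hsq.trans e6)
  rw [le_div_iff₀ (by positivity)] at e9
  have h9 : 0 < σ ^ 4 := by positivity
  have e10 : σ ^ 4 * (A ^ 2 * L ^ 2 * ((11 / 4) ^ r * (1 / 2 * (∫ t in (0 : ℝ)..1, β t)) ^ 2)) ≤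
      σ ^ 4 * 3600 := by
    linarith
  have := le_of_mul_le_mul_left e10 h9
  linarith

end

end Pool.Agent.MP_b87ea9_an
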