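import Mathlib
import Pool.Agent.Lib.MP_b87ea9_an.Local

set_option autoImplicit false

/-! The sum of patterns accumulating at `0`. -/

namespace Pool.Agent.MP_b87ea9_an

open Real MeasureTheory intervalIntegral Filter

/-- free length around the `n`-th region -/
noncomputable def Ln (n : ℕ) : ℝ := 1 / (2 * (n : ℝ) * ((n : ℝ) + 1))

/-- the `n`-th pattern, of scale `2^{-n}`, located at `1/n` -/
noncomputable def eta (β : ℝ → ℝ) (n : ℕ) (t : ℝ) : ℝ :=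
  1 / (n : ℝ) ^ 2 * (1 / 2) ^ n * Hp β (n / 20) ((t - 1 / (n : ℝ)) / (1 / 2) ^ n)

/-- conditions on the starting index -/
structure Good (β : ℝ → ℝ) (n₀ : ℕ) : Prop where
  two : 2 ≤ n₀
  c1 : ∀ n, n₀ ≤ n → 206 * (1 / 2 : ℝ) ^ n ≤ Ln n
  c2 : ∀ n, n₀ ≤ n → 16 * ((5 : ℝ) ^ (n / 20) * (1 / 2) ^ n) ≤ Ln n
  c3 : ∀ n, n₀ ≤ n → 375000 * (((5 : ℝ) ^ (n / 20)) ^ 3 * (1 / 2) ^ n) ≤ 1
  c4 : ∀ n, n₀ ≤ n → 3600 < (1 / (n : ℝ) ^ 2) ^ 2 * Ln n ^ 2 *
    ((11 / 4) ^ (n / 20) * (1 / 2 * (∫ t in (0 : ℝ)..1, β t)) ^ 2)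
  c5 : 1000 * (∑' k : ℕ, 1 / ((k + n₀ : ℕ) : ℝ) ^ 2) ≤ 1

lemma floor_pow_le {q a : ℝ} (hq : 1 ≤ q) (ha : 0 ≤ a) (haq : a ≤ q ^ 20) (n : ℕ) :
    a ^ (n / 20) ≤ q ^ n := by
  calc a ^ (n / 20) ≤ (q ^ 20) ^ (n / 20) := pow_le_pow_left₀ ha haq _
    _ = q ^ (20 * (n / 20)) := by rw [pow_mul]
    _ ≤ q ^ n := pow_le_pow_right₀ hq (Nat.mul_div_le n 20)

lemma le_floor_pow {q a : ℝ} (hq : 1 ≤ q) (haq : q ^ 20 ≤ a) (n : ℕ) :
    q ^ n / a ≤ a ^ (n / 20) := by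
  have hq0 : 0 < q := by linarith only [hq]
  have ha : 0 < a := lt_of_lt_of_le (by positivity) haq
  rw [div_le_iff₀ ha]
  have h1 : n < 20 * (n / 20 + 1) := by omega
  calc q ^ n ≤ q ^ (20 * (n / 20 + 1)) := pow_le_pow_right₀ hq h1.le
    _ = (q ^ 20) ^ (n / 20 + 1) := by rw [pow_mul]
    _ ≤ a ^ (n / 20 + 1) := pow_le_pow_left₀ (by positivity) haq _
    _ = a ^ (n / 20) * a := pow_succ _ _

lemma Ln_ge {n : ℕ} (hn : 1 ≤ n) : 1 / (4 * (n : ℝ) ^ 2) ≤ Ln n := by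
  unfold Ln
  have h1 : (1 : ℝ) ≤ n := by exact_mod_cast hn
  apply one_div_le_one_div_of_le (by positivity)
  nlinarith only [h1]

lemma eventually_small {k : ℕ} {r : ℝ} (hr0 : 0 ≤ r) (hr : r < 1) {C : ℝ} (hC : 0 < C) :
    ∀ᶠ n : ℕ in atTop, (n : ℝ) ^ k * r ^ n ≤ C := by
  have h1 : Tendsto (fun n : ℕ => (n : ℝ) ^ k * r ^ n) atTop (nhds 0) :=
    tendsto_pow_const_mul_const_pow_of_abs_lt_one k (by rwa [abs_of_nonneg hr0])
  filter_upwards [h1.eventually (gt_mem_nhds hC)] with n hn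
  exact le_of_lt hn

lemma exists_good {β : ℝ → ℝ} (hβ : IsBump β) : ∃ n₀, Good β n₀ := by
  set I := 1 / 2 * (∫ t in (0 : ℝ)..1, β t) with hI
  have hI0 : 0 < I := by
    have := hβ.int_pos
    positivity
  have e1 := eventually_small (k := 2) (r := 1 / 2) (by norm_num) (by norm_num)
    (C := 1 / 824) (by norm_num)
  have e2 := eventually_small (k := 2) (r := 1.1 / 2) (by norm_num) (by norm_num)
    (C := 1 / 64) (by norm_num)
  have e3 := eventually_small (k := 0) (r := 1.3 / 2) (by norm_num) (by norm_num)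
    (C := 1 / 375000) (by norm_num)
  have e4 := eventually_small (k := 8) (r := 1 / 1.05) (by norm_num) (by norm_num)
    (C := I ^ 2 / (3601 * 16 * (11 / 4))) (by positivity)
  have e5 : ∀ᶠ n : ℕ in atTop, 1000 * (∑' k : ℕ, 1 / ((k + n : ℕ) : ℝ) ^ 2) ≤ 1 := by
    have h1 := tendsto_sum_nat_add (fun k : ℕ => 1 / (k : ℝ) ^ 2)
    filter_upwards [h1.eventually (gt_mem_nhds (show (0 : ℝ) < 1 / 1000 by norm_num))] with n hn
    linarith only [hn]
  obtain ⟨N, hN⟩ := eventually_atTop.mp (e1.and (e2.and (e3.and (e4.and e5))))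
  refine ⟨max N 2, le_max_right _ _, fun n hn => ?_, fun n hn => ?_, fun n hn => ?_,
    fun n hn => ?_, ?_⟩
  · obtain ⟨h1, -⟩ := hN n ((le_max_left _ _).trans hn)
    have hn1 : 1 ≤ n := le_trans (by norm_num) ((le_max_right _ _).trans hn)
    refine le_trans ?_ (Ln_ge hn1)
    have hn0 : (0 : ℝ) < n := by exact_mod_cast hn1
    rw [le_div_iff₀ (by positivity)]
    linarith only [h1]
  · obtain ⟨-, h2, -⟩ := hN n ((le_max_left _ _).trans hn)
    have hn1 : 1 ≤ n := le_trans (by norm_num) ((le_max_right _ _).trans hn)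
    refine le_trans ?_ (Ln_ge hn1)
    have hn0 : (0 : ℝ) < n := by exact_mod_cast hn1
    rw [le_div_iff₀ (by positivity)]
    have h3 := floor_pow_le (q := 1.1) (a := 5) (by norm_num) (by norm_num) (by norm_num) n
    have h4 : (5 : ℝ) ^ (n / 20) * (1 / 2) ^ n ≤ (1.1 / 2) ^ n := by
      have : (1.1 / 2 : ℝ) ^ n = 1.1 ^ n * (1 / 2) ^ n := by rw [← mul_pow]; norm_num
      rw [this]
      exact mul_le_mul_of_nonneg_right h3 (by positivity)
    have h5 := mul_le_mul_of_nonneg_left h4 (by positivity : (0 : ℝ) ≤ (n : ℝ) ^ 2)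
    nlinarith only [h2, h5]
  · obtain ⟨-, -, h3, -⟩ := hN n ((le_max_left _ _).trans hn)
    have h4 := floor_pow_le (q := 1.3) (a := 125) (by norm_num) (by norm_num) (by norm_num) n
    have h5 : ((5 : ℝ) ^ (n / 20)) ^ 3 = 125 ^ (n / 20) := by
      rw [← pow_mul, mul_comm, pow_mul]; norm_num
    rw [h5]
    have h6 : (125 : ℝ) ^ (n / 20) * (1 / 2) ^ n ≤ (1.3 / 2) ^ n := by
      have : (1.3 / 2 : ℝ) ^ n = 1.3 ^ n * (1 / 2) ^ n := by rw [← mul_pow]; norm_num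
      rw [this]
      exact mul_le_mul_of_nonneg_right h4 (by positivity)
    rw [pow_zero, one_mul] at h3
    linarith only [h3, h6]
  · obtain ⟨-, -, -, h4, -⟩ := hN n ((le_max_left _ _).trans hn)
    have hn1 : 1 ≤ n := le_trans (by norm_num) ((le_max_right _ _).trans hn)
    have hn0 : (0 : ℝ) < n := by exact_mod_cast hn1
    have hLn := Ln_ge hn1
    have h5 := le_floor_pow (q := 1.05) (a := 11 / 4) (by norm_num) (by norm_num) n
    have h6 : (1 / (4 * (n : ℝ) ^ 2)) ^ 2 ≤ Ln n ^ 2 := pow_le_pow_left₀ (by positivity) hLn 2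
    have h7 : (1 / (n : ℝ) ^ 2) ^ 2 * (1 / (4 * (n : ℝ) ^ 2)) ^ 2 * ((1.05 ^ n / (11 / 4)) * I ^ 2) ≤
        (1 / (n : ℝ) ^ 2) ^ 2 * Ln n ^ 2 * ((11 / 4) ^ (n / 20) * I ^ 2) := by
      apply mul_le_mul
      · exact mul_le_mul_of_nonneg_left h6 (by positivity)
      · exact mul_le_mul_of_nonneg_right h5 (by positivity)
      · positivity
      · (clear * - hn1; positivity)
    refine lt_of_lt_of_le ?_ h7
    have h8 : (1 / (n : ℝ) ^ 2) ^ 2 * (1 / (4 * (n : ℝ) ^ 2)) ^ 2 * ((1.05 ^ n / (11 / 4)) * I ^ 2) =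
        I ^ 2 / ((n : ℝ) ^ 8 * (1 / 1.05) ^ n * (16 * (11 / 4))) := by
      rw [one_div_pow]
      field_simp
      rw [← mul_pow]
      norm_num
    rw [h8, lt_div_iff₀ (by positivity)]
    rw [le_div_iff₀ (by positivity)] at h4
    have h9 : 0 < (n : ℝ) ^ 8 * (1 / 1.05) ^ n := by positivity
    nlinarith only [h4, h9]
  · exact (hN (max N 2) (le_max_left _ _)).2.2.2.2

section

variable {β : ℝ → ℝ} (hβ : IsBump β)

include hβ

lemma eta_smooth (n : ℕ) : ContDiff ℝ 1 (eta β n) := by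
  unfold eta
  have h1 : ContDiff ℝ 1 (fun t : ℝ => (t - 1 / (n : ℝ)) / (1 / 2) ^ n) :=
    (contDiff_id.sub contDiff_const).div_const _
  exact contDiff_const.mul ((patProp hβ (n / 20)).smooth.comp h1)

lemma eta_zl {n : ℕ} {t : ℝ} (ht : t ≤ 1 / (n : ℝ)) : eta β n t = 0 := by
  unfold eta
  rw [(patProp hβ (n / 20)).zl, mul_zero]
  have : (t - 1 / (n : ℝ)) / (1 / 2) ^ n ≤ 0 :=
    div_nonpos_of_nonpos_of_nonneg (by linarith only [ht]) (by positivity)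
  linarith only [this]

lemma eta_zr {n : ℕ} {t : ℝ} (ht : 1 / (n : ℝ) + 5 ^ (n / 20) * (1 / 2) ^ n ≤ t) :
    eta β n t = 0 := by
  unfold eta
  rw [(patProp hβ (n / 20)).zr, mul_zero]
  have : (5 : ℝ) ^ (n / 20) ≤ (t - 1 / (n : ℝ)) / (1 / 2) ^ n := by
    rw [le_div_iff₀ (by positivity)]
    linarith only [ht]
  linarith only [this]

lemma eta_bd (n : ℕ) (t : ℝ) : |eta β n t| ≤ 1 / (n : ℝ) ^ 2 := by
  unfold eta
  rw [abs_mul, abs_mul, abs_of_nonneg (by positivity : (0 : ℝ) ≤ 1 / (n : ℝ) ^ 2),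
    abs_of_nonneg (by positivity : (0 : ℝ) ≤ (1 / 2) ^ n)]
  have h1 := (patProp hβ (n / 20)).bd ((t - 1 / (n : ℝ)) / (1 / 2) ^ n)
  have h2 : (1 / 2 : ℝ) ^ n ≤ 1 := pow_le_one₀ (by norm_num) (by norm_num)
  have h3 : (0 : ℝ) ≤ 1 / (n : ℝ) ^ 2 := by positivity
  have h4 := mul_le_mul h2 h1 (abs_nonneg _) (by norm_num)
  have h5 := mul_le_mul_of_nonneg_left h4 h3
  linarith only [h5]

lemma eta_deriv (n : ℕ) (t : ℝ) : |deriv (eta β n) t| ≤ 1 / (n : ℝ) ^ 2 := by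
  have P := patProp hβ (n / 20)
  have h0 : (0 : ℝ) < (1 / 2) ^ n := by positivity
  have h1 : HasDerivAt (fun t : ℝ => (t - 1 / (n : ℝ)) / (1 / 2) ^ n) (1 / (1 / 2) ^ n) t := by
    simpa using ((hasDerivAt_id t).sub_const (1 / (n : ℝ))).div_const ((1 / 2) ^ n)
  have h2 : HasDerivAt (Hp β (n / 20)) (deriv (Hp β (n / 20)) ((t - 1 / (n : ℝ)) / (1 / 2) ^ n))
      ((t - 1 / (n : ℝ)) / (1 / 2) ^ n) :=
    (P.smooth.differentiable one_ne_zero _).hasDerivAt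
  have h3 := (h2.comp t h1).const_mul (1 / (n : ℝ) ^ 2 * (1 / 2) ^ n)
  have h4 : deriv (eta β n) t = 1 / (n : ℝ) ^ 2 *
      deriv (Hp β (n / 20)) ((t - 1 / (n : ℝ)) / (1 / 2) ^ n) := by
    have h5 : HasDerivAt (eta β n) _ t := h3
    rw [h5.deriv]
    field_simp
  rw [h4, abs_mul, abs_of_nonneg (by (clear * -; positivity) : (0 : ℝ) ≤ 1 / (n : ℝ) ^ 2)]
  have h6 := P.dbd ((t - 1 / (n : ℝ)) / (1 / 2) ^ n)
  have := mul_le_mul_of_nonneg_left h6 (by (clear * -; positivity) : (0 : ℝ) ≤ 1 / (n : ℝ) ^ 2)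
  linarith only [this]

lemma eta_lip (n : ℕ) (s t : ℝ) : |eta β n s - eta β n t| ≤ 1 / (n : ℝ) ^ 2 * |s - t| := by
  have := Convex.norm_image_sub_le_of_norm_deriv_le (f := eta β n) (s := Set.univ)
    (C := 1 / (n : ℝ) ^ 2) (x := t) (y := s)
    (fun x _ => (eta_smooth hβ n).differentiable one_ne_zero x)
    (fun x _ => by rw [Real.norm_eq_abs]; exact eta_deriv hβ n x) convex_univ
    (Set.mem_univ _) (Set.mem_univ _)
  simpa [Real.norm_eq_abs] using this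

end

/-- the sum of all patterns -/
noncomputable def phi0 (β : ℝ → ℝ) (n₀ : ℕ) (t : ℝ) : ℝ := ∑' k : ℕ, eta β (k + n₀) t

lemma summable_tail (n₀ : ℕ) : Summable (fun k : ℕ => 1 / ((k + n₀ : ℕ) : ℝ) ^ 2) := by
  have h1 : Summable (fun k : ℕ => 1 / (k : ℝ) ^ 2) :=
    Real.summable_one_div_nat_pow.mpr (by norm_num)
  exact (summable_nat_add_iff n₀).mpr h1

section

variable {β : ℝ → ℝ} (hβ : IsBump β) {n₀ : ℕ}

include hβ

lemma phi0_summable (t : ℝ) : Summable (fun k : ℕ => eta β (k + n₀) t) :=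
  Summable.of_norm_bounded (summable_tail n₀) fun k => by
    rw [Real.norm_eq_abs]; exact eta_bd hβ _ t

lemma phi0_smooth : ContDiff ℝ 1 (phi0 β n₀) := by
  have := contDiff_tsum (𝕜 := ℝ) (f := fun (k : ℕ) (t : ℝ) => eta β (k + n₀) t)
    (N := 1) (v := fun (_ : ℕ) (k : ℕ) => 1 / ((k + n₀ : ℕ) : ℝ) ^ 2)
    (fun k => by exact_mod_cast eta_smooth hβ (k + n₀)) (fun k _ => summable_tail n₀)
    (fun m k x hm => by
      have hm' : m ≤ 1 := by exact_mod_cast hm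
      interval_cases m
      · rw [norm_iteratedFDeriv_zero, Real.norm_eq_abs]
        exact eta_bd hβ _ x
      · rw [norm_iteratedFDeriv_one, ← norm_deriv_eq_norm_fderiv, Real.norm_eq_abs]
        exact eta_deriv hβ _ x)
  exact_mod_cast this

lemma phi0_bd (hG : Good β n₀) (t : ℝ) : |phi0 β n₀ t| ≤ 1 / 1000 := by
  have h1 : ‖∑' k : ℕ, eta β (k + n₀) t‖ ≤ ∑' k : ℕ, 1 / ((k + n₀ : ℕ) : ℝ) ^ 2 :=
    tsum_of_norm_bounded (summable_tail n₀).hasSum fun k => by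
      rw [Real.norm_eq_abs]; exact eta_bd hβ _ t
  rw [Real.norm_eq_abs] at h1
  have := hG.c5
  unfold phi0
  linarith only [h1, this]

lemma phi0_lip (s t : ℝ) : |phi0 β n₀ s - phi0 β n₀ t| ≤
    (∑' k : ℕ, 1 / ((k + n₀ : ℕ) : ℝ) ^ 2) * |s - t| := by
  unfold phi0
  rw [← (phi0_summable hβ s).tsum_sub (phi0_summable hβ t), ← tsum_mul_right, ← Real.norm_eq_abs]
  exact tsum_of_norm_bounded ((summable_tail n₀).mul_right _).hasSum fun k => by
    rw [Real.norm_eq_abs]; exact eta_lip hβ _ s t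

lemma phi0_zl {t : ℝ} (ht : t ≤ 0) : phi0 β n₀ t = 0 := by
  unfold phi0
  have : ∀ k : ℕ, eta β (k + n₀) t = 0 := fun k => eta_zl hβ (ht.trans (by positivity))
  simp [this]

omit hβ in
lemma Ln_le {n : ℕ} (hn : 1 ≤ n) : Ln n ≤ 1 / 4 := by
  unfold Ln
  have h1 : (1 : ℝ) ≤ n := by exact_mod_cast hn
  apply one_div_le_one_div_of_le (by norm_num)
  nlinarith only [h1]

omit hβ in
lemma Ln_eq {n : ℕ} (hn : 1 ≤ n) : 2 * Ln n = 1 / (n : ℝ) - 1 / ((n + 1 : ℕ) : ℝ) := by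
  unfold Ln
  have h1 : (0 : ℝ) < n := by exact_mod_cast hn
  push_cast
  field_simp
  ring

omit hβ in
lemma Ln_anti {m n : ℕ} (hm : 1 ≤ m) (hmn : m ≤ n) : Ln n ≤ Ln m := by
  unfold Ln
  have h1 : (0 : ℝ) < m := by exact_mod_cast hm
  have h2 : (m : ℝ) ≤ n := by exact_mod_cast hmn
  apply one_div_le_one_div_of_le (by positivity)
  apply mul_le_mul <;> linarith only [h2, h1]

lemma phi0_zr (hG : Good β n₀) {t : ℝ} (ht : 1 ≤ t) : phi0 β n₀ t = 0 := by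
  unfold phi0
  have : ∀ k : ℕ, eta β (k + n₀) t = 0 := fun k => by
    apply eta_zr hβ
    have h1 := hG.c2 (k + n₀) (by omega)
    have h2 := Ln_le (n := k + n₀) (by have := hG.two; omega)
    have h3 : 1 / ((k + n₀ : ℕ) : ℝ) ≤ 1 / 2 := by
      apply one_div_le_one_div_of_le (by norm_num)
      exact_mod_cast (show 2 ≤ k + n₀ by have := hG.two; omega)
    have h4 : (0 : ℝ) ≤ 5 ^ ((k + n₀) / 20) * (1 / 2) ^ (k + n₀) := by positivity
    linarith only [ht, h1, h2, h3]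
  simp [this]

/-- near the `n`-th region only the `n`-th pattern is present -/
lemma phi0_local (hG : Good β n₀) {n : ℕ} (hn : n₀ ≤ n) {t : ℝ}
    (ht1 : 1 / (n : ℝ) - Ln n ≤ t)
    (ht2 : t ≤ 1 / (n : ℝ) + 5 ^ (n / 20) * (1 / 2) ^ n + Ln n) :
    phi0 β n₀ t = eta β n t := by
  unfold phi0
  have htwo := hG.two
  have hn1 : 1 ≤ n := by omega
  rw [tsum_eq_single (n - n₀)]
  · congr 1
    omega
  · intro k hk
    rcases lt_trichotomy (k + n₀) n with h1 | h1 | h1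
    · -- left index smaller: the pattern is to the right
      apply eta_zl hβ
      have hm1 : 1 ≤ k + n₀ := by omega
      have h2 := hG.c2 n hn
      have h3 := Ln_anti hm1 h1.le
      have h4 := Ln_eq hm1
      have h5 : 1 / ((n : ℕ) : ℝ) ≤ 1 / ((k + n₀ + 1 : ℕ) : ℝ) := by
        apply one_div_le_one_div_of_le (by (clear * - htwo; positivity))
        exact_mod_cast h1
      have h6 : (0 : ℝ) ≤ 5 ^ (n / 20) * (1 / 2) ^ n := by positivity
      have h7 : 0 < Ln n := by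
        unfold Ln
        have : (0 : ℝ) < n := by exact_mod_cast hn1
        positivity
      -- `1/n + Kσ + L_n ≤ 1/(m+1) + 2 L_m = 1/m`
      linarith only [ht2, h2, h3, h4, h5, h7]
    · exfalso; apply hk; omega
    · apply eta_zr hβ
      have h2 := hG.c2 (k + n₀) (by omega)
      have h3 := Ln_anti hn1 h1.le
      have h4 := Ln_eq hn1
      have h5 : 1 / ((k + n₀ : ℕ) : ℝ) ≤ 1 / ((n + 1 : ℕ) : ℝ) := by
        apply one_div_le_one_div_of_le (by positivity)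
        exact_mod_cast h1
      have h6 : (0 : ℝ) ≤ 5 ^ ((k + n₀) / 20) * (1 / 2) ^ (k + n₀) := by positivity
      linarith only [ht1, h2, h3, h4, h5, h6]

end

end Pool.Agent.MP_b87ea9_an
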