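import Mathlib
import Pool.Agent.Lib.MP_b87ea9_an.Series

set_option autoImplicit false

/-! The radius of curvature of the counterexample. -/

namespace Pool.Agent.MP_b87ea9_an

open Real MeasureTheory intervalIntegral Filter

/-- the bump near `π` -/
noncomputable def psi (β : ℝ → ℝ) (θ t : ℝ) : ℝ := β ((t - (π - θ)) / (4 * θ))

section

variable {β : ℝ → ℝ} (hβ : IsBump β) {θ : ℝ} (hθ : 0 < θ)

include hβ

lemma psi_smooth : ContDiff ℝ 1 (psi β θ) := by
  unfold psi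
  have h1 : ContDiff ℝ 1 (fun t : ℝ => (t - (π - θ)) / (4 * θ)) :=
    (contDiff_id.sub contDiff_const).div_const _
  exact hβ.smooth.comp h1

lemma psi_nonneg (t : ℝ) : 0 ≤ psi β θ t := hβ.nonneg _

include hθ

lemma psi_zl {t : ℝ} (ht : t ≤ π - 3 / 4 * θ) : psi β θ t = 0 := by
  unfold psi
  apply hβ.zl
  rw [div_le_iff₀ (by positivity)]
  linarith

lemma psi_zr {t : ℝ} (ht : π - θ / 4 ≤ t) : psi β θ t = 0 := by
  unfold psi
  apply hβ.zr
  rw [le_div_iff₀ (by positivity)]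
  linarith

end

/-- the weight of the bump near `π` -/
noncomputable def Bc (β : ℝ → ℝ) (n₀ : ℕ) (θ : ℝ) : ℝ :=
  (∫ τ in (0 : ℝ)..π, (1 + phi0 β n₀ τ) * sin (τ + θ)) /
    (∫ τ in (0 : ℝ)..π, psi β θ τ * (- sin (τ + θ)))

/-- perturbation of the radius of curvature on `[0, π)` -/
noncomputable def phi (β : ℝ → ℝ) (n₀ : ℕ) (θ t : ℝ) : ℝ :=
  phi0 β n₀ t + Bc β n₀ θ * psi β θ t

/-- the radius of curvature -/
noncomputable def rho (β : ℝ → ℝ) (n₀ : ℕ) (θ t : ℝ) : ℝ :=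
  1 + phi β n₀ θ (toIcoMod pi_pos 0 t)

section

variable {β : ℝ → ℝ} (hβ : IsBump β) {n₀ : ℕ} (hG : Good β n₀) {θ : ℝ} (hθ : 0 < θ)
  (hθ1 : θ ≤ 1 / 10)

include hβ

lemma int_base_pos (hG : Good β n₀) (hθ : 0 < θ) (hθ1 : θ ≤ 1 / 10) :
    0 < ∫ τ in (0 : ℝ)..π, (1 + phi0 β n₀ τ) * sin (τ + θ) := by
  have hc := (phi0_smooth (n₀ := n₀) hβ).continuous
  have h1 : ∫ τ in (0 : ℝ)..π, (1 + phi0 β n₀ τ) * sin (τ + θ) =
      (∫ τ in (0 : ℝ)..π, sin (τ + θ)) + ∫ τ in (0 : ℝ)..π, phi0 β n₀ τ * sin (τ + θ) := by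
    rw [← intervalIntegral.integral_add (Continuous.intervalIntegrable (by fun_prop) _ _)
      (Continuous.intervalIntegrable (by fun_prop) _ _)]
    refine integral_congr fun τ _ => ?_
    ring
  have h2 : ∫ τ in (0 : ℝ)..π, sin (τ + θ) = 2 * cos θ := by
    rw [intervalIntegral.integral_comp_add_right (fun x => sin x) θ, integral_sin, zero_add,
      add_comm π θ, cos_add_pi]
    ring
  have h3 : |∫ τ in (0 : ℝ)..π, phi0 β n₀ τ * sin (τ + θ)| ≤ 1 / 1000 * π := by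
    have := intervalIntegral.norm_integral_le_of_norm_le_const (a := 0) (b := π) (C := 1 / 1000)
      (f := fun τ => phi0 β n₀ τ * sin (τ + θ)) (fun τ _ => by
        rw [Real.norm_eq_abs, abs_mul]
        have a1 := phi0_bd hβ hG τ
        have a2 := Real.abs_sin_le_one (τ + θ)
        have := mul_le_mul a1 a2 (abs_nonneg _) (by norm_num)
        linarith)
    rw [Real.norm_eq_abs, sub_zero, abs_of_pos pi_pos] at this
    exact this
  have h4 : 1 - θ ^ 2 / 2 ≤ cos θ := Real.one_sub_sq_div_two_le_cos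
  have h5 := (abs_le.mp h3).1
  have := pi_lt_d2
  rw [h1, h2]
  nlinarith

lemma int_psi_pos (hθ : 0 < θ) (hθ1 : θ ≤ 1 / 10) :
    0 < ∫ τ in (0 : ℝ)..π, psi β θ τ * (- sin (τ + θ)) := by
  have hpi := pi_gt_three
  have hc := (psi_smooth (θ := θ) hβ).continuous
  refine intervalIntegral.integral_pos pi_pos (by fun_prop) (fun τ hτ => ?_)
    ⟨π - θ / 2, ⟨by linarith, by linarith⟩, ?_⟩
  · by_cases h1 : τ ≤ π - 3 / 4 * θ
    · rw [psi_zl hβ hθ h1, zero_mul]
    push Not at h1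
    refine mul_nonneg (psi_nonneg hβ τ) ?_
    have h2 : sin (τ + θ) = - sin (τ + θ - π) := by rw [sin_sub_pi]; ring
    rw [h2, neg_neg]
    exact sin_nonneg_of_nonneg_of_le_pi (by linarith) (by linarith [hτ.2])
  · have h1 : psi β θ (π - θ / 2) = β (1 / 8) := by
      unfold psi
      congr 1
      field_simp
      ring
    rw [h1]
    refine mul_pos hβ.mid ?_
    have h2 : sin (π - θ / 2 + θ) = - sin (θ / 2) := by
      have : π - θ / 2 + θ = θ / 2 + π := by ring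
      rw [this, sin_add_pi]
    rw [h2, neg_neg]
    exact sin_pos_of_pos_of_lt_pi (by linarith) (by linarith)

lemma phi_smooth : ContDiff ℝ 1 (phi β n₀ θ) :=
  (phi0_smooth hβ).add (contDiff_const.mul (psi_smooth hβ))

include hG hθ hθ1

lemma Bc_pos : 0 < Bc β n₀ θ :=
  div_pos (int_base_pos hβ hG hθ hθ1) (int_psi_pos hβ hθ hθ1)

omit hG in
lemma phi_zl {t : ℝ} (ht : t ≤ 0) : phi β n₀ θ t = 0 := by
  unfold phi
  have := pi_gt_three
  rw [phi0_zl hβ ht, psi_zl hβ hθ (by linarith)]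
  ring

lemma phi_zr {t : ℝ} (ht : π - θ / 4 ≤ t) : phi β n₀ θ t = 0 := by
  unfold phi
  have := pi_gt_three
  rw [phi0_zr hβ hG (by linarith), psi_zr hβ hθ ht]
  ring

omit hG in
lemma phi_eq {t : ℝ} (ht : t ≤ 3) : phi β n₀ θ t = phi0 β n₀ t := by
  unfold phi
  have := pi_gt_d2
  rw [psi_zl hβ hθ (by linarith)]
  ring

lemma phi_ge (t : ℝ) : - (1 / 1000) ≤ phi β n₀ θ t := by
  unfold phi
  have h1 := (abs_le.mp (phi0_bd hβ hG t)).1
  have h2 := mul_nonneg (Bc_pos hβ hG hθ hθ1).le (psi_nonneg hβ (θ := θ) t)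
  linarith

lemma rho_eq {t : ℝ} (h1 : -(θ / 4) ≤ t) (h2 : t < π) : rho β n₀ θ t = 1 + phi β n₀ θ t := by
  unfold rho
  rcases lt_or_ge t 0 with h3 | h3
  · have h4 : toIcoMod pi_pos 0 t = t + π := by
      rw [toIcoMod_eq_iff]
      exact ⟨⟨by linarith [pi_gt_three], by linarith⟩, -1, by simp⟩
    rw [h4, phi_zl hβ hθ hθ1 h3.le, phi_zr hβ hG hθ hθ1 (by linarith)]
  · have h4 : toIcoMod pi_pos 0 t = t := by
      rw [toIcoMod_eq_self]
      exact ⟨h3, by linarith⟩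
    rw [h4]

omit hβ hG hθ hθ1 in
lemma rho_per (t : ℝ) : rho β n₀ θ (t + π) = rho β n₀ θ t := by
  unfold rho
  rw [toIcoMod_add_right]

lemma rho_smooth : ContDiff ℝ 1 (rho β n₀ θ) := by
  rw [contDiff_iff_contDiffAt]
  intro t
  have hper : Function.Periodic (rho β n₀ θ) π := rho_per
  set k := toIcoDiv pi_pos 0 t with hk
  have hmem := sub_toIcoDiv_zsmul_mem_Ico pi_pos 0 t
  rw [← hk, zsmul_eq_mul] at hmem
  set s := t - k * π with hs
  have hloc : rho β n₀ θ =ᶠ[nhds s] fun t => 1 + phi β n₀ θ t := by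
    filter_upwards [Ioo_mem_nhds (show -(θ / 4) < s by linarith [hmem.1])
      (show s < π by linarith [hmem.2])] with x hx
    exact rho_eq hβ hG hθ hθ1 hx.1.le hx.2
  have h1 : ContDiffAt ℝ 1 (rho β n₀ θ) s :=
    (contDiff_const.add (phi_smooth hβ)).contDiffAt.congr_of_eventuallyEq hloc
  have h2 : rho β n₀ θ = rho β n₀ θ ∘ fun x => x - k * π := by
    funext x
    simp only [Function.comp]
    exact (hper.sub_int_mul_eq k).symm
  rw [h2]
  exact ContDiffAt.comp t h1 (contDiff_id.sub contDiff_const).contDiffAt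

lemma rho_isRho : IsRho (rho β n₀ θ) where
  cont := (rho_smooth hβ hG hθ hθ1).continuous
  pos := fun t => by
    unfold rho
    have := phi_ge hβ hG hθ hθ1 (toIcoMod pi_pos 0 t)
    linarith
  per := rho_per

lemma rho_balance : S (-θ) (gam (rho β n₀ θ) 0) = 0 := by
  have h := rho_isRho hβ hG hθ hθ1
  have hpi := pi_gt_three
  have h1 := S_gam h (-θ) π 0
  have h2 : gam (rho β n₀ θ) π = - gam (rho β n₀ θ) 0 := by
    have := gam_pi h 0
    rwa [zero_add] at this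
  rw [h2, S_sub, S_neg] at h1
  have hc := (phi0_smooth (n₀ := n₀) hβ).continuous
  have hc2 := (psi_smooth (θ := θ) hβ).continuous
  have h3 : ∫ τ in (0 : ℝ)..π, rho β n₀ θ τ * sin (τ - -θ) = 0 := by
    have e1 : ∫ τ in (0 : ℝ)..π, rho β n₀ θ τ * sin (τ - -θ) =
        ∫ τ in (0 : ℝ)..π, ((1 + phi0 β n₀ τ) * sin (τ + θ) -
          Bc β n₀ θ * (psi β θ τ * (- sin (τ + θ)))) := by
      refine intervalIntegral.integral_congr_Ioo_of_le pi_pos.le ?_
      intro τ hτ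
      simp only
      rw [rho_eq hβ hG hθ hθ1 (by linarith [hτ.1]) hτ.2, sub_neg_eq_add]
      unfold phi
      ring
    rw [e1, intervalIntegral.integral_sub (Continuous.intervalIntegrable (by fun_prop) _ _)
      (Continuous.intervalIntegrable (by fun_prop) _ _), intervalIntegral.integral_const_mul]
    unfold Bc
    rw [div_mul_cancel₀ _ (int_psi_pos hβ hθ hθ1).ne', sub_self]
  linarith

end

end Pool.Agent.MP_b87ea9_an
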