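import Mathlib

set_option autoImplicit false

/-! # Definitions for the existence proof of convex caustics (`ρ ∈ H²`)

Everything happens on horizontal strips of the complex plane. The support function `h` of the table
is a trigonometric polynomial (a Fourier truncation of the true one), the family of lines is
`t ↦ (direction g t)`, the rotation number is `ω`. -/

namespace Pool.Agent.MP_b87ea9_an.Kam

open Real MeasureTheory

/-- open horizontal strip of half width `r` -/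
def Strip (r : ℝ) : Set ℂ := {z | |z.im| < r}

/-- holomorphic in the strip, `2π`-periodic, real-symmetric -/
structure HP (r : ℝ) (f : ℂ → ℂ) : Prop where
  hol : DifferentiableOn ℂ f (Strip r)
  per : ∀ z, f (z + 2 * π) = f z
  rs : ∀ z, f (starRingEnd ℂ z) = starRingEnd ℂ (f z)

/-- sup bound on the strip -/
def Bd (r : ℝ) (f : ℂ → ℂ) (M : ℝ) : Prop := ∀ z ∈ Strip r, ‖f z‖ ≤ M

/-- `L²` bound on all lines of the strip -/
def HN (r : ℝ) (f : ℂ → ℂ) (M : ℝ) : Prop :=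
  ∀ y : ℝ, |y| < r → ∫ t in (0 : ℝ)..2 * π, ‖f (t + y * Complex.I)‖ ^ 2 ≤ 2 * π * M ^ 2

/-- Fourier coefficients of the restriction to the real line -/
noncomputable def fc (f : ℂ → ℂ) (n : ℤ) : ℂ :=
  (1 / (2 * π)) * ∫ t in (0 : ℝ)..2 * π, f t * Complex.exp (-(n * t * Complex.I))

/-- the divisor `e^{inω} - 1` -/
noncomputable def dv (ω : ℝ) (n : ℤ) : ℂ := Complex.exp (n * ω * Complex.I) - 1

/-- mean zero solution `u` of `u (z + ω) - u z = f z - mean f` -/
noncomputable def invD (ω : ℝ) (f : ℂ → ℂ) (z : ℂ) : ℂ :=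
  ∑' n : ℤ, if n = 0 then 0 else fc f n / dv ω n * Complex.exp (n * z * Complex.I)

/-- Diophantine condition and range of a rotation number (`Nb` is about `2π/ω`) -/
structure Rot (γ Nb ω : ℝ) : Prop where
  lo : 1 ≤ ω * Nb
  hi : ω * Nb ≤ 7
  dio : ∀ n : ℤ, n ≠ 0 → γ / (|(n : ℝ)| + Nb) ≤ ‖dv ω n‖
  low : ∀ n : ℤ, |(n : ℝ)| ≤ Nb / 2 → |(n : ℝ)| / Nb ≤ ‖dv ω n‖

/-- resonance sum on the strip `r` -/
noncomputable def res (ω r : ℝ) (f : ℂ → ℂ) : ℝ :=
  ∑' n : ℤ, if n = 0 then 0 else ‖fc f n‖ * Real.exp (r * |(n : ℝ)|) / ‖dv ω n‖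

/-- Fourier truncation `∑_{|n| ≤ N} c_n e^{inz}` -/
noncomputable def trunc (c : ℤ → ℂ) (N : ℕ) (z : ℂ) : ℂ :=
  ∑ n ∈ Finset.Icc (-(N : ℤ)) N, c n * Complex.exp (n * z * Complex.I)

/-- Fourier coefficients of the support function of a table with radius of curvature in `H²`,
bounded below -/
structure Table (K : ℝ) (c : ℤ → ℂ) : Prop where
  K1 : 1 ≤ K
  rs : ∀ n, c (-n) = starRingEnd ℂ (c n)
  h4 : Summable fun n : ℤ => (n : ℝ) ^ 8 * ‖c n‖ ^ 2
  abs : ∀ s : Finset ℤ, ∑ n ∈ s, (1 + |(n : ℝ)|) ^ 3 * ‖c n‖ ≤ K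
  pos : ∀ x : ℝ, 2 / K ≤ (∑' n : ℤ, c n * (1 - (n : ℂ) ^ 2) * Complex.exp (n * x * Complex.I)).re

/-- `ℓ²` size of the block `A < |n| ≤ B` of the coefficients of `ρ''` -/
noncomputable def blk (c : ℤ → ℂ) (A B : ℕ) : ℝ :=
  Real.sqrt (∑ n ∈ Finset.Icc (-(B : ℤ)) B, if |n| ≤ (A : ℤ) then 0 else (n : ℝ) ^ 8 * ‖c n‖ ^ 2)

/-- truncated support function with bounds on the strip of width `1/N` -/
structure Tb (K N : ℝ) (h : ℂ → ℂ) : Prop where
  hol : Differentiable ℂ h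
  per : ∀ z, h (z + 2 * π) = h z
  rs : ∀ z, h (starRingEnd ℂ z) = starRingEnd ℂ (h z)
  b0 : Bd (1 / N) h K
  b1 : Bd (1 / N) (deriv h) K
  b2 : Bd (1 / N) (deriv (deriv h)) K
  b3 : Bd (1 / N) (deriv (deriv (deriv h))) K
  b4 : Bd (1 / N) (deriv (deriv (deriv (deriv h)))) (K * N)
  pos : ∀ x : ℝ, 1 / K ≤ (h x + deriv (deriv h) x).re

/-- the width constant: all functions at scale `N` live on strips of width `≤ 4 * cr K / N` -/
noncomputable def cr (K : ℝ) : ℝ := 1 / (10 ^ 4 * K ^ 4)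

/-- the family of lines at scale `N`; `N * J` bounds the second derivative -/
structure GS (K N J : ℝ) (g : ℂ → ℂ) : Prop where
  hp : HP (4 * cr K / N) (fun z => g z - z)
  lo : ∀ t : ℝ, 1 / K ≤ (deriv g t).re
  hi : ∀ t : ℝ, (deriv g t).re ≤ K
  g2 : Bd (4 * cr K / N) (deriv (deriv g)) (N * J)

/-- partial derivative in the first line of the generating function `2 h((x+y)/2) sin((y-x)/2)` -/
noncomputable def Sx (h : ℂ → ℂ) (x y : ℂ) : ℂ :=
  deriv h ((x + y) / 2) * Complex.sin ((y - x) / 2) - h ((x + y) / 2) * Complex.cos ((y - x) / 2)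

/-- partial derivative in the second line of the generating function -/
noncomputable def Sy (h : ℂ → ℂ) (x y : ℂ) : ℂ :=
  deriv h ((x + y) / 2) * Complex.sin ((y - x) / 2) + h ((x + y) / 2) * Complex.cos ((y - x) / 2)

/-- the Euler-Lagrange expression: `0` iff the lines `g (t-ω), g t, g (t+ω)` are consecutive -/
noncomputable def EL (h g : ℂ → ℂ) (ω : ℝ) (z : ℂ) : ℂ :=
  Sx h (g z) (g (z + ω)) + Sy h (g (z - ω)) (g z)

/-- derivative of the lifted generating function in the first point -/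
noncomputable def PP (h g : ℂ → ℂ) (x y : ℂ) : ℂ := deriv g x * Sx h (g x) (g y)

/-- derivative of the lifted generating function in the second point -/
noncomputable def RR (h g : ℂ → ℂ) (x y : ℂ) : ℂ := deriv g y * Sy h (g x) (g y)

/-- the error `g' * EL` -/
noncomputable def FF (h g : ℂ → ℂ) (ω : ℝ) (z : ℂ) : ℂ := PP h g z (z + ω) + RR h g (z - ω) z

/-- mixed second derivative of the lifted generating function -/
noncomputable def BB (h g : ℂ → ℂ) (x y : ℂ) : ℂ :=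
  (1 / 2) * (h ((g x + g y) / 2) + deriv (deriv h) ((g x + g y) / 2)) *
    Complex.sin ((g y - g x) / 2) * deriv g x * deriv g y

/-- `a(z)` -/
noncomputable def aa (h g : ℂ → ℂ) (ω : ℝ) (z : ℂ) : ℂ := BB h g z (z + ω)

/-- `FF z = uu z - uu (z - ω')` -/
noncomputable def uu (h g : ℂ → ℂ) (ω ω' : ℝ) : ℂ → ℂ := invD ω' (fun z => FF h g ω (z + ω'))

/-- `1/a` normalised, minus `1` -/
noncomputable def qq (h g : ℂ → ℂ) (ω : ℝ) (z : ℂ) : ℂ :=
  1 / aa h g ω z / fc (fun z => 1 / aa h g ω z) 0 - 1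

/-- response to a change of the rotation number -/
noncomputable def vv (h g : ℂ → ℂ) (ω ω' : ℝ) : ℂ → ℂ := invD ω' (qq h g ω)

/-- the constant `⟨u/a⟩ / ⟨1/a⟩` -/
noncomputable def c1 (h g : ℂ → ℂ) (ω ω' : ℝ) : ℂ :=
  fc (fun z => uu h g ω ω' z / aa h g ω z) 0 / fc (fun z => 1 / aa h g ω z) 0

/-- the Newton part of the correction -/
noncomputable def wN (h g : ℂ → ℂ) (ω ω' : ℝ) : ℂ → ℂ :=
  invD ω' (fun z => (c1 h g ω ω' - uu h g ω ω' z) / aa h g ω z)

/-- the correction -/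
noncomputable def ww (h g : ℂ → ℂ) (ω ω' : ℝ) (z : ℂ) : ℂ :=
  wN h g ω ω' z + ((ω' - ω : ℝ) : ℂ) * vv h g ω ω' z

/-- the new family of lines -/
noncomputable def gnew (h g : ℂ → ℂ) (ω ω' : ℝ) (z : ℂ) : ℂ := g (z + ww h g ω ω' z)

/-- the part `M` of the error of a fresh block: `FF = MM - (EX - EX (· - ω))` -/
noncomputable def MM (h g : ℂ → ℂ) (ω : ℝ) (z : ℂ) : ℂ :=
  deriv h ((g z + g (z + ω)) / 2) * (deriv g z + deriv g (z + ω)) *
      Complex.sin ((g (z + ω) - g z) / 2) +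
    h ((g z + g (z + ω)) / 2) * Complex.cos ((g (z + ω) - g z) / 2) *
      (deriv g (z + ω) - deriv g z) -
    h (g (z + ω)) * deriv g (z + ω) + h (g z) * deriv g z

/-- the part `e_ξ` of the error of a fresh block -/
noncomputable def EX (h g : ℂ → ℂ) (ω : ℝ) (z : ℂ) : ℂ :=
  -(h (g (z + ω)) - deriv h ((g z + g (z + ω)) / 2) * Complex.sin ((g (z + ω) - g z) / 2) -
      h ((g z + g (z + ω)) / 2) * Complex.cos ((g (z + ω) - g z) / 2)) * deriv g (z + ω)

end Pool.Agent.MP_b87ea9_an.Kam
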