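import Mathlib
import Pool.Agent.Lib.MP_b87ea9_an.KDefs
import Pool.Agent.Lib.MP_b87ea9_an.Defs

set_option autoImplicit false

/-! # More definitions: diffeomorphisms of the strip, the tree of rotation numbers, geometry -/

namespace Pool.Agent.MP_b87ea9_an.Kam

open Real MeasureTheory

/-- circle diffeomorphism holomorphic in the strip -/
structure Dif (K r : ℝ) (φ : ℂ → ℂ) : Prop where
  hol : DifferentiableOn ℂ φ (Strip r)
  per : ∀ z, φ (z + 2 * π) = φ z + 2 * π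
  re : ∀ t : ℝ, (φ t).im = 0
  lo : ∀ t : ℝ, 1 / K ≤ (deriv φ t).re
  bd : Bd r (deriv φ) (2 * K)

/-- average of `f` over the `m`-step extensions of a word -/
noncomputable def avg {Mc : ℕ} (m : ℕ) (f : List (Fin Mc) → ℝ) : List (Fin Mc) → ℝ :=
  match m with
  | 0 => f
  | m + 1 => fun ν => (∑ c : Fin Mc, avg m f (c :: ν)) / Mc

/-- real support function of class `C⁴` with positive radius of curvature, whose body is `T` -/
structure SuppFn (T : Set ℂ) (h : ℝ → ℝ) : Prop where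
  smooth : ContDiff ℝ 4 h
  per : ∀ x, h (x + 2 * π) = h x
  pos : ∀ x, 0 < h x + deriv (deriv h) x
  body : T = {z : ℂ | ∀ x : ℝ, z.re * sin x - z.im * cos x ≤ h x}

/-- Euler-Lagrange expression on the real line -/
noncomputable def ELr (h g : ℝ → ℝ) (ω t : ℝ) : ℝ :=
  deriv h ((g t + g (t + ω)) / 2) * sin ((g (t + ω) - g t) / 2) -
      h ((g t + g (t + ω)) / 2) * cos ((g (t + ω) - g t) / 2) +
    (deriv h ((g (t - ω) + g t) / 2) * sin ((g t - g (t - ω)) / 2) +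
      h ((g (t - ω) + g t) / 2) * cos ((g t - g (t - ω)) / 2))

/-- the value at `g t` of the support function of the caustic -/
noncomputable def pc (h g : ℝ → ℝ) (ω t : ℝ) : ℝ :=
  h ((g t + g (t + ω)) / 2) * cos ((g (t + ω) - g t) / 2) -
    deriv h ((g t + g (t + ω)) / 2) * sin ((g (t + ω) - g t) / 2)

/-- `p` is the restriction to the unit circle of a sublinear function -/
def SinConvex (p : ℝ → ℝ) : Prop :=
  (∀ x, p (x + 2 * π) = p x) ∧
    ∀ x₁ x₂ x₃ : ℝ, x₁ < x₂ → x₂ < x₃ → x₃ < x₁ + π →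
      p x₂ * sin (x₃ - x₁) ≤ p x₁ * sin (x₃ - x₂) + p x₃ * sin (x₂ - x₁)

/-- the body with support function `p` -/
def body (p : ℝ → ℝ) : Set ℂ := {z : ℂ | ∀ x : ℝ, z.re * sin x - z.im * cos x ≤ p x}

/-- the boundary point with tangent direction `x` -/
noncomputable def gamh (h : ℝ → ℝ) (x : ℝ) : ℂ :=
  (((deriv h x : ℝ) : ℂ) - Complex.I * ((h x : ℝ) : ℂ)) * Complex.exp (x * Complex.I)

/-- outcome of the analytic part: approximate invariant families of lines for Fourier truncations of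
arbitrarily high order, with rotation numbers in a fixed interval `[ω₁, ε]` -/
def KamOut (c : ℤ → ℂ) : Prop :=
  ∃ K' : ℝ, 1 ≤ K' ∧ ∀ ε : ℝ, 0 < ε →
    ∃ ω₁ : ℝ, 0 < ω₁ ∧ ∀ η : ℝ, 0 < η → ∃ (N : ℕ) (g : ℂ → ℂ) (ω r : ℝ), 1 / η < N ∧ ω₁ ≤ ω ∧ ω ≤ ε ∧
      0 < r ∧ HP r (fun z => g z - z) ∧ (∀ t : ℝ, 1 / K' ≤ (deriv g t).re ∧ (deriv g t).re ≤ K') ∧
      (∀ t : ℝ, ‖EL (trunc c N) g ω t‖ ≤ η) ∧
      (∀ t : ℝ, ‖deriv g (t + ω) - deriv g t‖ ≤ ε) ∧
      (∀ t : ℝ, ‖deriv (deriv g) (t + ω) / deriv g (t + ω) - deriv (deriv g) t / deriv g t‖ ≤ 1)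

end Pool.Agent.MP_b87ea9_an.Kam
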