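import Mathlib
import Pool.Agent.Lib.MP_b87ea9_an.KDefs
import Pool.Agent.Lib.MP_b87ea9_an.KDefs2

set_option autoImplicit false

/-! holomorphic periodic functions on strips -/

namespace Pool.Agent.MP_b87ea9_an.Kam

open Real MeasureTheory

variable {r δ M γ Nb ω : ℝ} {f f' w : ℂ → ℂ}

theorem isOpen_strip (r : ℝ) : IsOpen (Strip r) :=
  isOpen_lt (Complex.continuous_im.abs) continuous_const

theorem hp_mono {r' : ℝ} (h : HP r f) (hr : r' ≤ r) : HP r' f :=
  ⟨h.hol.mono fun _ hz => lt_of_lt_of_le hz hr, h.per, h.rs⟩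

theorem hp_deriv (h : HP r f) : HP r (deriv f) := by
  refine ⟨h.hol.deriv (isOpen_strip r), fun z => ?_, fun z => ?_⟩
  · have : (fun w => f (w + 2 * π)) = f := funext h.per
    calc deriv f (z + 2 * π) = deriv (fun w => f (w + 2 * π)) z := by
          rw [deriv_comp_add_const]
      _ = deriv f z := by rw [this]
  · have h1 : (starRingEnd ℂ) ∘ f ∘ (starRingEnd ℂ) = f := by
      funext w
      simp [h.rs w]
    have h2 := deriv_conj_conj (𝕜 := ℂ) (f := f)
    rw [h1] at h2
    have h3 := congrFun h2 (starRingEnd ℂ z)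
    simpa using h3

/-- Cauchy estimate -/
theorem bd_deriv (h : HP r f) (hδ : 0 < δ) (hM : Bd r f M) : Bd (r - δ) (deriv f) (M / δ) := by
  intro z hz
  have hz' : |z.im| < r - δ := hz
  have hsub : Metric.closedBall z δ ⊆ Strip r := by
    intro w hw
    have h1 : |w.im - z.im| ≤ δ := by
      have := Complex.abs_im_le_norm (w - z)
      rw [Complex.sub_im] at this
      exact this.trans (by simpa [dist_eq_norm] using hw)
    have h2 : |w.im| ≤ |w.im - z.im| + |z.im| := by
      simpa using abs_add_le (w.im - z.im) z.im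
    show |w.im| < r
    linarith
  refine Complex.norm_deriv_le_of_forall_mem_sphere_norm_le hδ ?_ ?_
  · refine DifferentiableOn.diffContOnCl ?_
    refine h.hol.mono ?_
    exact (Metric.closure_ball_subset_closedBall).trans hsub
  · intro w hw
    exact hM w (hsub (Metric.sphere_subset_closedBall hw))

theorem hp_add (h : HP r f) (h' : HP r f') : HP r (fun z => f z + f' z) :=
  ⟨h.hol.add h'.hol, fun z => by simp only [h.per z, h'.per z],
    fun z => by simp only [h.rs z, h'.rs z, map_add]⟩

theorem hp_sub (h : HP r f) (h' : HP r f') : HP r (fun z => f z - f' z) :=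
  ⟨h.hol.sub h'.hol, fun z => by simp only [h.per z, h'.per z],
    fun z => by simp only [h.rs z, h'.rs z, map_sub]⟩

theorem hp_mul (h : HP r f) (h' : HP r f') : HP r (fun z => f z * f' z) :=
  ⟨h.hol.mul h'.hol, fun z => by simp only [h.per z, h'.per z],
    fun z => by simp only [h.rs z, h'.rs z, map_mul]⟩

theorem hp_const (r : ℝ) (c : ℝ) : HP r (fun _ => (c : ℂ)) :=
  ⟨differentiableOn_const _, fun _ => rfl, fun _ => by simp⟩

theorem hp_shift (h : HP r f) (a : ℝ) : HP r (fun z => f (z + a)) := by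
  refine ⟨?_, fun z => ?_, fun z => ?_⟩
  · refine h.hol.comp ((differentiable_id.add_const _).differentiableOn) ?_
    intro z hz
    have : |z.im| < r := hz
    show |(id z + (a : ℂ)).im| < r
    simpa using this
  · show f (z + 2 * π + a) = f (z + a)
    rw [show z + 2 * π + a = (z + a) + 2 * π by ring]
    exact h.per _
  · show f (starRingEnd ℂ z + a) = starRingEnd ℂ (f (z + a))
    rw [← h.rs (z + a)]
    simp

theorem hp_inv (h : HP r f) (h0 : ∀ z ∈ Strip r, f z ≠ 0) : HP r (fun z => 1 / f z) := by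
  refine ⟨?_, fun z => by simp only [h.per z], fun z => by simp only [h.rs z, map_div₀, map_one]⟩
  exact (differentiableOn_const _).div h.hol h0

theorem hp_comp {R : ℝ} (h : HP R f) (hw : HP r w) (hs : ∀ z ∈ Strip r, z + w z ∈ Strip R) :
    HP r (fun z => f (z + w z)) := by
  refine ⟨?_, fun z => ?_, fun z => ?_⟩
  · exact h.hol.comp (differentiableOn_id.add hw.hol) hs
  · show f (z + 2 * π + w (z + 2 * π)) = f (z + w z)
    rw [hw.per z, show z + 2 * π + w z = (z + w z) + 2 * π by ring]
    exact h.per _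
  · show f (starRingEnd ℂ z + w (starRingEnd ℂ z)) = starRingEnd ℂ (f (z + w z))
    rw [hw.rs z, ← map_add, h.rs]

theorem hp_real (h : HP r f) (t : ℝ) : (f t).im = 0 := by
  have h1 := h.rs t
  rw [Complex.conj_ofReal] at h1
  exact Complex.conj_eq_iff_im.mp h1.symm

theorem convex_strip (r : ℝ) : Convex ℝ (Strip r) := by
  have : Strip r = Complex.imLm ⁻¹' (Set.Ioo (-r) r) := by
    ext z
    simp [Strip, abs_lt]
  rw [this]
  exact (convex_Ioo _ _).is_linear_preimage Complex.imLm.isLinear

/-- mean value inequality on strips -/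
theorem bd_lip (h : DifferentiableOn ℂ f (Strip r)) (hM : Bd r (deriv f) M) {z z' : ℂ}
    (hz : z ∈ Strip r) (hz' : z' ∈ Strip r) : ‖f z - f z'‖ ≤ M * ‖z - z'‖ := by
  refine Convex.norm_image_sub_le_of_norm_deriv_le (𝕜 := ℂ) (s := Strip r) ?_ ?_
    (convex_strip r) hz' hz
  · intro x hx
    exact (h x hx).differentiableAt ((isOpen_strip r).mem_nhds hx)
  · exact fun x hx => hM x hx

end Pool.Agent.MP_b87ea9_an.Kam
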