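import Mathlib
import Pool.Agent.Lib.MP_b87ea9_an.KDefs
import Pool.Agent.Lib.MP_b87ea9_an.KDefs2
import Pool.Agent.Lib.MP_b87ea9_an.KA1

set_option autoImplicit false

/-! Fourier coefficients -/

namespace Pool.Agent.MP_b87ea9_an.Kam

open Real MeasureTheory

variable {r δ M γ Nb ω : ℝ} {f f' w : ℂ → ℂ}

/-! ### auxiliary facts -/

theorem ka2_mem {y : ℝ} (hy : |y| < r) (t : ℝ) : (t : ℂ) + y * Complex.I ∈ Strip r := by
  simpa [Strip] using hy

theorem ka2_mem' (hr : 0 < r) (t : ℝ) : (t : ℂ) ∈ Strip r := by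
  simpa [Strip] using hr

theorem ka2_cont (h : HP r f) {y : ℝ} (hy : |y| < r) :
    Continuous fun t : ℝ => f (t + y * Complex.I) :=
  h.hol.continuousOn.comp_continuous (by fun_prop) fun t => ka2_mem hy t

theorem ka2_cont' (h : HP r f) (hr : 0 < r) : Continuous fun t : ℝ => f t :=
  h.hol.continuousOn.comp_continuous (by fun_prop) fun t => ka2_mem' hr t

theorem ka2_periodic (h : HP r f) : Function.Periodic f (2 * π) := h.per

theorem ka2_exp_per (n : ℤ) (z : ℂ) : Complex.exp (-(n * (z + 2 * π) * Complex.I)) =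
    Complex.exp (-(n * z * Complex.I)) := by
  rw [Complex.exp_eq_exp_iff_exists_int]
  exact ⟨-n, by push_cast; ring⟩

theorem fc_shift (h : HP r f) {y : ℝ} (hy : |y| < r) (n : ℤ) :
    fc f n = (1 / (2 * π)) * ∫ t in (0 : ℝ)..2 * π,
      f (t + y * Complex.I) * Complex.exp (-(n * (t + y * Complex.I) * Complex.I)) := by
  have hF : DifferentiableOn ℂ (fun z => f z * Complex.exp (-(n * z * Complex.I))) (Strip r) := by
    refine h.hol.mul ?_
    fun_prop
  have hper : ∀ z, f (z + 2 * π) * Complex.exp (-(n * (z + 2 * π) * Complex.I)) =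
      f z * Complex.exp (-(n * z * Complex.I)) := by
    intro z
    rw [h.per, ka2_exp_per]
  have hsub : Set.uIcc (0 : ℂ).re ((2 * π : ℝ) + y * Complex.I : ℂ).re ×ℂ
      Set.uIcc (0 : ℂ).im ((2 * π : ℝ) + y * Complex.I : ℂ).im ⊆ Strip r := by
    intro z hz
    have h2 := hz.2
    simp only [Set.mem_preimage, Complex.zero_im, Complex.add_im, Complex.ofReal_im, Complex.mul_im,
      Complex.ofReal_re, Complex.I_im, mul_one, Complex.I_re, mul_zero, add_zero, zero_add] at h2
    have h3 : |z.im| ≤ |y| := by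
      have := Set.abs_sub_left_of_mem_uIcc h2
      simpa using this
    exact lt_of_le_of_lt h3 hy
  have h1 := Complex.integral_boundary_rect_eq_zero_of_differentiableOn
    (fun z => f z * Complex.exp (-(n * z * Complex.I))) 0 ((2 * π : ℝ) + y * Complex.I)
    (hF.mono hsub)
  simp only [Complex.zero_re, Complex.zero_im, Complex.add_re, Complex.add_im, Complex.ofReal_re,
    Complex.ofReal_im, Complex.mul_re, Complex.mul_im, Complex.I_re, Complex.I_im, mul_zero,
    mul_one, sub_zero, add_zero, zero_add, zero_mul, Complex.ofReal_zero] at h1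
  have h2 : ∀ s : ℝ, f (((2 * π : ℝ) : ℂ) + s * Complex.I) *
      Complex.exp (-(n * (((2 * π : ℝ) : ℂ) + s * Complex.I) * Complex.I)) =
      f (s * Complex.I) * Complex.exp (-(n * (s * Complex.I) * Complex.I)) := by
    intro s
    have := hper (s * Complex.I)
    rw [← this]
    push_cast
    rw [add_comm (s * Complex.I : ℂ) (2 * π)]
  simp only [h2] at h1
  rw [add_sub_assoc, sub_self, add_zero, sub_eq_zero] at h1
  rw [fc, ← h1]

/-- coefficients on a line -/
theorem ka2_coeff (h : HP r f) {y : ℝ} (hy : |y| < r) (n : ℤ) :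
    (1 / (2 * π)) * ∫ t in (0 : ℝ)..2 * π,
      f (t + y * Complex.I) * Complex.exp (-(n * t * Complex.I)) =
      fc f n * Complex.exp (-(n * y)) := by
  rw [fc_shift h hy n, mul_assoc, ← intervalIntegral.integral_mul_const]
  congr 1
  refine intervalIntegral.integral_congr fun t _ => ?_
  beta_reduce
  rw [mul_assoc (f _), ← Complex.exp_add]
  congr 2
  linear_combination ((n : ℂ) * y) * Complex.I_mul_I

theorem ka2_norm_exp (n : ℤ) (t y : ℝ) :
    ‖Complex.exp (-(n * (t + y * Complex.I) * Complex.I))‖ = exp (n * y) := by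
  rw [Complex.norm_exp]
  congr 1
  simp

theorem ka2_norm_fc_line (h : HP r f) (hM : Bd r f M) {y : ℝ} (hy : |y| < r) (n : ℤ) :
    ‖fc f n‖ ≤ M * exp (n * y) := by
  rw [fc_shift h hy n, norm_mul]
  have h1 : ‖∫ t in (0 : ℝ)..2 * π, f (t + y * Complex.I) *
      Complex.exp (-(n * (t + y * Complex.I) * Complex.I))‖ ≤ (M * exp (n * y)) * |2 * π - 0| := by
    refine intervalIntegral.norm_integral_le_of_norm_le_const fun t _ => ?_
    rw [norm_mul, ka2_norm_exp]
    exact mul_le_mul_of_nonneg_right (hM _ (ka2_mem hy t)) (exp_pos _).le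
  have h2 : ‖(1 / (2 * π) : ℂ)‖ = 1 / (2 * π) := by
    rw [norm_div, norm_mul, norm_one, Complex.norm_ofNat, Complex.norm_real,
      Real.norm_of_nonneg pi_pos.le]
  rw [h2]
  rw [sub_zero, abs_of_pos two_pi_pos] at h1
  calc 1 / (2 * π) * _ ≤ 1 / (2 * π) * (M * exp (n * y) * (2 * π)) :=
        mul_le_mul_of_nonneg_left h1 (by positivity)
    _ = M * exp (n * y) := by field_simp

/-- the sign of a frequency -/
theorem ka2_sgn (n : ℤ) : ∃ σ : ℝ, |σ| = 1 ∧ (n : ℝ) * σ = -|(n : ℝ)| := by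
  rcases le_or_gt 0 (n : ℝ) with hn | hn
  · exact ⟨-1, by simp, by rw [abs_of_nonneg hn]; ring⟩
  · exact ⟨1, by simp, by rw [abs_of_neg hn]; ring⟩

theorem ka2_norm_fc_lt (h : HP r f) (hM : Bd r f M) {y : ℝ} (hy0 : 0 ≤ y) (hy : y < r) (n : ℤ) :
    ‖fc f n‖ ≤ M * exp (-(y * |(n : ℝ)|)) := by
  obtain ⟨σ, hσ, hn⟩ := ka2_sgn n
  have h1 := ka2_norm_fc_line h hM (y := σ * y) (by rw [abs_mul, hσ, one_mul, abs_of_nonneg hy0]; exact hy) n
  have h2 : (n : ℝ) * (σ * y) = -(y * |(n : ℝ)|) := by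
    rw [← mul_assoc, hn]; ring
  rwa [h2] at h1

theorem ka2_eventually (hr : 0 < r) : ∀ᶠ y in nhdsWithin r (Set.Iio r), 0 ≤ y ∧ y < r := by
  have h1 : ∀ᶠ y in nhdsWithin r (Set.Iio r), 0 < y :=
    nhdsWithin_le_nhds (Ioi_mem_nhds hr)
  filter_upwards [h1, self_mem_nhdsWithin] with y h1 h2
  exact ⟨h1.le, h2⟩

theorem norm_fc_le (h : HP r f) (hr : 0 < r) (hM : Bd r f M) (n : ℤ) :
    ‖fc f n‖ ≤ M * exp (-(r * |(n : ℝ)|)) := by
  have h1 : Filter.Tendsto (fun y : ℝ => M * exp (-(y * |(n : ℝ)|))) (nhdsWithin r (Set.Iio r))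
      (nhds (M * exp (-(r * |(n : ℝ)|)))) := by
    have : Continuous fun y : ℝ => M * exp (-(y * |(n : ℝ)|)) := by fun_prop
    exact this.continuousAt.tendsto.mono_left nhdsWithin_le_nhds
  refine ge_of_tendsto h1 ?_
  filter_upwards [ka2_eventually hr] with y hy
  exact ka2_norm_fc_lt h hM hy.1 hy.2 n

/-- Parseval on a line -/
theorem ka2_parseval (h : HP r f) {y : ℝ} (hy : |y| < r) :
    HasSum (fun n : ℤ => ‖fc f n‖ ^ 2 * exp (-(2 * n * y)))
      ((2 * π)⁻¹ * ∫ t in (0 : ℝ)..2 * π, ‖f (t + y * Complex.I)‖ ^ 2) := by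
  have hc := ka2_cont h hy
  have hL : MemLp (fun t : ℝ => f (t + y * Complex.I)) 2 (volume.restrict (Set.Ioc 0 (2 * π))) := by
    have h1 : MemLp (fun t : ℝ => f (t + y * Complex.I)) 2
        (volume.restrict (Set.Icc 0 (2 * π))) := by
      obtain ⟨B, hB⟩ := (isCompact_Icc (a := (0 : ℝ)) (b := 2 * π)).exists_bound_of_continuousOn
        hc.continuousOn
      refine MemLp.of_bound hc.aestronglyMeasurable B ?_
      exact (ae_restrict_iff' measurableSet_Icc).2 (Filter.Eventually.of_forall hB)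
    exact h1.mono_measure (Measure.restrict_mono Set.Ioc_subset_Icc_self le_rfl)
  have h1 := hasSum_sq_fourierCoeffOn two_pi_pos hL
  have h2 : ∀ n : ℤ, fourierCoeffOn two_pi_pos (fun t : ℝ => f (t + y * Complex.I)) n =
      fc f n * Complex.exp (-(n * y)) := by
    intro n
    rw [fourierCoeffOn_eq_integral, ← ka2_coeff h hy n]
    rw [Complex.real_smul]
    congr 1
    · push_cast
      simp
    · refine intervalIntegral.integral_congr fun t _ => ?_
      simp only [fourier_coe_apply, smul_eq_mul]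
      rw [mul_comm]
      congr 2
      have : (π : ℂ) ≠ 0 := by exact_mod_cast pi_ne_zero
      push_cast
      field_simp
      ring
  simp only [h2, sub_zero, smul_eq_mul] at h1
  convert h1 using 2 with n
  rw [norm_mul, mul_pow, Complex.norm_exp]
  congr 1
  rw [← Real.exp_nat_mul]
  congr 1
  simp
  ring

theorem sq_sum (h : HP r f) (hr : 0 < r) (hM : HN r f M) (s : Finset ℤ) :
    ∑ n ∈ s, ‖fc f n‖ ^ 2 * exp (2 * r * |(n : ℝ)|) ≤ 2 * M ^ 2 := by
  have h1 : Filter.Tendsto (fun y : ℝ => ∑ n ∈ s, ‖fc f n‖ ^ 2 * exp (2 * y * |(n : ℝ)|))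
      (nhdsWithin r (Set.Iio r)) (nhds (∑ n ∈ s, ‖fc f n‖ ^ 2 * exp (2 * r * |(n : ℝ)|))) := by
    have : Continuous fun y : ℝ => ∑ n ∈ s, ‖fc f n‖ ^ 2 * exp (2 * y * |(n : ℝ)|) := by fun_prop
    exact this.continuousAt.tendsto.mono_left nhdsWithin_le_nhds
  refine le_of_tendsto h1 ?_
  filter_upwards [ka2_eventually hr] with y hy
  have hb : ∀ y' : ℝ, |y'| < r → ∑ n ∈ s, ‖fc f n‖ ^ 2 * exp (-(2 * n * y')) ≤ M ^ 2 := by
    intro y' hy'
    have h2 := ka2_parseval h hy'
    have h3 := sum_le_hasSum s (fun n _ => by positivity) h2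
    refine h3.trans ?_
    have h4 := hM y' hy'
    calc (2 * π)⁻¹ * _ ≤ (2 * π)⁻¹ * (2 * π * M ^ 2) :=
          mul_le_mul_of_nonneg_left h4 (by positivity)
      _ = M ^ 2 := by field_simp
  have h2 := hb y (by rw [abs_of_nonneg hy.1]; exact hy.2)
  have h3 := hb (-y) (by rw [abs_neg, abs_of_nonneg hy.1]; exact hy.2)
  calc ∑ n ∈ s, ‖fc f n‖ ^ 2 * exp (2 * y * |(n : ℝ)|)
      ≤ ∑ n ∈ s, (‖fc f n‖ ^ 2 * exp (-(2 * n * y)) + ‖fc f n‖ ^ 2 * exp (-(2 * n * -y))) := by
        refine Finset.sum_le_sum fun n _ => ?_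
        rw [← mul_add]
        refine mul_le_mul_of_nonneg_left ?_ (by positivity)
        rcases abs_cases (n : ℝ) with ⟨hn, -⟩ | ⟨hn, -⟩
        · rw [hn]
          have : 2 * y * (n : ℝ) = -(2 * n * -y) := by ring
          rw [this]
          exact le_add_of_nonneg_left (exp_pos _).le
        · rw [hn]
          have : 2 * y * -(n : ℝ) = -(2 * n * y) := by ring
          rw [this]
          exact le_add_of_nonneg_right (exp_pos _).le
    _ = ∑ n ∈ s, ‖fc f n‖ ^ 2 * exp (-(2 * n * y)) +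
        ∑ n ∈ s, ‖fc f n‖ ^ 2 * exp (-(2 * n * -y)) := Finset.sum_add_distrib
    _ ≤ 2 * M ^ 2 := by linarith

/-- boundedness on smaller strips -/
theorem ka2_bdd (h : HP r f) {r' : ℝ} (hr' : r' < r) : ∃ B : ℝ, Bd r' f B := by
  have hK : IsCompact (Set.Icc (0 : ℝ) (2 * π) ×ℂ Set.Icc (-r') r') :=
    isCompact_Icc.reProdIm isCompact_Icc
  have hsub : Set.Icc (0 : ℝ) (2 * π) ×ℂ Set.Icc (-r') r' ⊆ Strip r := by
    intro z hz
    exact lt_of_le_of_lt (abs_le.2 hz.2) hr'
  obtain ⟨B, hB⟩ := hK.exists_bound_of_continuousOn (h.hol.continuousOn.mono hsub)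
  refine ⟨B, fun z hz => ?_⟩
  have h1 : f (z - ⌊z.re / (2 * π)⌋ * (2 * π)) = f z := by
    have := (ka2_periodic h).int_mul ⌊z.re / (2 * π)⌋
    rw [← this (z - ⌊z.re / (2 * π)⌋ * (2 * π))]
    congr 1
    ring
  rw [← h1]
  refine hB _ ⟨?_, ?_⟩
  · have h2 : (z - ⌊z.re / (2 * π)⌋ * (2 * π) : ℂ).re = z.re - ⌊z.re / (2 * π)⌋ * (2 * π) := by
      simp
    rw [Set.mem_preimage, h2]
    have h3 := Int.floor_le (z.re / (2 * π))
    have h4 := Int.lt_floor_add_one (z.re / (2 * π))
    rw [le_div_iff₀ two_pi_pos] at h3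
    rw [div_lt_iff₀ two_pi_pos] at h4
    constructor <;> nlinarith
  · have h2 : (z - ⌊z.re / (2 * π)⌋ * (2 * π) : ℂ).im = z.im := by simp
    rw [Set.mem_preimage, h2]
    exact abs_le.1 (le_of_lt hz)

theorem ka2_summable {a : ℝ} (ha : 0 < a) : Summable fun n : ℤ => exp (-(a * |(n : ℝ)|)) := by
  have h1 : Summable fun n : ℕ => exp (-(a * n)) := by
    have := (Real.summable_exp_nat_mul_iff (a := -a)).2 (by linarith)
    refine this.congr fun n => ?_
    congr 1
    ring
  refine summable_int_iff_summable_nat_and_neg.2 ⟨?_, ?_⟩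
  · refine h1.congr fun n => ?_
    simp
  · refine h1.congr fun n => ?_
    simp

theorem hasSum_fc (h : HP r f) {z : ℂ} (hz : z ∈ Strip r) :
    HasSum (fun n : ℤ => fc f n * Complex.exp (n * z * Complex.I)) (f z) := by
  have hy : |z.im| < r := hz
  have : Fact (0 < 2 * π) := ⟨two_pi_pos⟩
  have hp : Function.Periodic (fun t : ℝ => f (t + z.im * Complex.I)) (2 * π) := by
    intro t
    have := h.per (t + z.im * Complex.I)
    simp only
    rw [← this]
    congr 1
    push_cast
    ring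
  have hc : Continuous hp.lift := by
    refine continuous_coinduced_dom.2 ?_
    exact ka2_cont h hy
  let F : C(AddCircle (2 * π), ℂ) := ⟨hp.lift, hc⟩
  have hF : ∀ t : ℝ, F (t : AddCircle (2 * π)) = f (t + z.im * Complex.I) := fun t => hp.lift_coe t
  have hcoef : ∀ n : ℤ, fourierCoeff F n = fc f n * Complex.exp (-(n * z.im)) := by
    intro n
    rw [fourierCoeff_eq_intervalIntegral F n 0, ← ka2_coeff h hy n, zero_add, Complex.real_smul]
    congr 1
    · push_cast
      rfl
    · refine intervalIntegral.integral_congr fun t _ => ?_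
      simp only [fourier_coe_apply, smul_eq_mul, hF]
      rw [mul_comm]
      congr 2
      have : (π : ℂ) ≠ 0 := by exact_mod_cast pi_ne_zero
      push_cast
      field_simp
  have hsum : Summable (fourierCoeff F) := by
    obtain ⟨r', hr1, hr2⟩ := exists_between hy
    obtain ⟨r'', hr3, hr4⟩ := exists_between hr2
    obtain ⟨B, hB⟩ := ka2_bdd h hr4
    have h1 : Summable fun n : ℤ => B * exp (-((r' - |z.im|) * |(n : ℝ)|)) :=
      (ka2_summable (by linarith)).mul_left B
    refine Summable.of_norm_bounded h1 fun n => ?_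
    rw [hcoef, norm_mul, Complex.norm_exp]
    have h2 := ka2_norm_fc_lt (hp_mono h hr4.le) hB ((abs_nonneg _).trans hr1.le) hr3 n
    have h3 : (-((n : ℂ) * z.im)).re ≤ |z.im| * |(n : ℝ)| := by
      have : (-((n : ℂ) * z.im)).re = -((n : ℝ) * z.im) := by simp
      rw [this]
      calc -((n : ℝ) * z.im) ≤ |(n : ℝ) * z.im| := neg_le_abs _
        _ = |z.im| * |(n : ℝ)| := by rw [abs_mul, mul_comm]
    calc ‖fc f n‖ * exp (-((n : ℂ) * z.im)).re
        ≤ (B * exp (-(r' * |(n : ℝ)|))) * exp (|z.im| * |(n : ℝ)|) :=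
          mul_le_mul h2 (exp_le_exp.2 h3) (exp_pos _).le ((norm_nonneg _).trans h2)
      _ = B * exp (-((r' - |z.im|) * |(n : ℝ)|)) := by
          rw [mul_assoc, ← Real.exp_add]
          congr 2
          ring
  have h1 := has_pointwise_sum_fourier_series_of_summable hsum (z.re : AddCircle (2 * π))
  rw [hF, Complex.re_add_im] at h1
  convert h1 using 1
  funext n
  rw [hcoef, fourier_coe_apply, smul_eq_mul, mul_assoc (fc f n), ← Complex.exp_add]
  congr 2
  have : (π : ℂ) ≠ 0 := by exact_mod_cast pi_ne_zero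
  push_cast
  conv_lhs => rw [← Complex.re_add_im z]
  field_simp
  linear_combination ((n : ℂ) * z.im) * Complex.I_mul_I

theorem hn_of_bd (h : HP r f) (hM : Bd r f M) : HN r f M := by
  intro y hy
  have h1 : ‖∫ t in (0 : ℝ)..2 * π, ‖f (t + y * Complex.I)‖ ^ 2‖ ≤ M ^ 2 * |2 * π - 0| := by
    refine intervalIntegral.norm_integral_le_of_norm_le_const fun t _ => ?_
    rw [Real.norm_of_nonneg (by positivity)]
    exact pow_le_pow_left₀ (norm_nonneg _) (hM _ (ka2_mem hy t)) 2
  rw [sub_zero, abs_of_pos two_pi_pos] at h1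
  calc _ ≤ _ := le_abs_self _
    _ ≤ _ := h1
    _ = _ := by ring

theorem fc_neg (h : HP r f) (n : ℤ) : fc f (-n) = starRingEnd ℂ (fc f n) := by
  rw [fc, fc, map_mul, ← intervalIntegral.intervalIntegral_conj]
  congr 1
  · rw [map_div₀, map_mul, map_one, Complex.conj_ofReal]
    congr 2
    exact (Complex.conj_ofReal 2).symm
  · refine intervalIntegral.integral_congr fun t _ => ?_
    rw [map_mul, ← h.rs, ← Complex.exp_conj]
    simp

theorem fc_add (h : HP r f) (h' : HP r f') (hr : 0 < r) (n : ℤ) :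
    fc (fun z => f z + f' z) n = fc f n + fc f' n := by
  have hc := ka2_cont' h hr
  have hc' := ka2_cont' h' hr
  rw [fc, fc, fc, ← mul_add, ← intervalIntegral.integral_add]
  · congr 1
    refine intervalIntegral.integral_congr fun t _ => ?_
    beta_reduce
    ring
  · exact (hc.mul (by fun_prop)).intervalIntegrable _ _
  · exact (hc'.mul (by fun_prop)).intervalIntegrable _ _

theorem fc_smul (c : ℂ) (n : ℤ) : fc (fun z => c * f z) n = c * fc f n := by
  rw [fc, fc, mul_left_comm c, ← intervalIntegral.integral_const_mul c]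
  congr 1
  refine intervalIntegral.integral_congr fun t _ => ?_
  beta_reduce
  ring

theorem fc_translate (h : HP r f) (hr : 0 < r) (a : ℝ) (n : ℤ) :
    fc (fun z => f (z + a)) n = fc f n * Complex.exp (n * a * Complex.I) := by
  have hp : Function.Periodic (fun t : ℝ => f t * Complex.exp (-(n * t * Complex.I))) (2 * π) := by
    intro t
    have h1 := h.per t
    have h2 := ka2_exp_per n t
    simp only
    push_cast
    rw [h1, h2]
  have h1 : ∫ t in (0 : ℝ)..2 * π, f (t + a) * Complex.exp (-(n * (t + a) * Complex.I)) =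
      ∫ t in (0 : ℝ)..2 * π, f t * Complex.exp (-(n * t * Complex.I)) := by
    have h2 := hp.intervalIntegral_add_eq a 0
    rw [zero_add] at h2
    rw [← h2]
    have h3 := intervalIntegral.integral_comp_add_right (a := 0) (b := 2 * π)
      (fun t : ℝ => f t * Complex.exp (-(n * t * Complex.I))) a
    rw [zero_add, add_comm (2 * π) a] at h3
    rw [← h3]
    refine intervalIntegral.integral_congr fun t _ => ?_
    beta_reduce
    push_cast
    rfl
  rw [fc, fc, ← h1, mul_assoc, ← intervalIntegral.integral_mul_const]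
  congr 1
  refine intervalIntegral.integral_congr fun t _ => ?_
  beta_reduce
  rw [mul_assoc (f _), ← Complex.exp_add]
  congr 2
  ring

theorem fc_deriv (h : HP r f) (hr : 0 < r) (n : ℤ) :
    fc (deriv f) n = n * Complex.I * fc f n := by
  have hc := ka2_cont' h hr
  have hc' := ka2_cont' (hp_deriv h) hr
  have hd : ∀ t ∈ Set.uIcc (0 : ℝ) (2 * π),
      HasDerivAt (fun t : ℝ => f t * Complex.exp (-(n * t * Complex.I)))
      (deriv f t * Complex.exp (-(n * t * Complex.I)) +
        f t * (Complex.exp (-(n * t * Complex.I)) * -(n * Complex.I))) t := by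
    intro t _
    have h1 : HasDerivAt f (deriv f t) (t : ℂ) :=
      ((h.hol.differentiableAt ((isOpen_strip r).mem_nhds (ka2_mem' hr t)))).hasDerivAt
    have h2 : HasDerivAt (fun z : ℂ => Complex.exp (-(n * z * Complex.I)))
        (Complex.exp (-(n * t * Complex.I)) * -(n * Complex.I)) (t : ℂ) := by
      have h3 : HasDerivAt (fun z : ℂ => -(n * z * Complex.I)) (-(n * Complex.I)) (t : ℂ) := by
        have h4 := (((hasDerivAt_id (t : ℂ)).const_mul (n : ℂ)).mul_const Complex.I).neg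
        rw [mul_one] at h4
        exact h4
      exact h3.cexp
    exact (h1.mul h2).comp_ofReal
  have h1 := intervalIntegral.integral_eq_sub_of_hasDerivAt hd
    (((hc'.mul (by fun_prop)).add (hc.mul (by fun_prop))).intervalIntegrable _ _)
  have h2 : f (((2 * π : ℝ) : ℂ)) * Complex.exp (-(n * ((2 * π : ℝ) : ℂ) * Complex.I)) -
      f ((0 : ℝ) : ℂ) * Complex.exp (-(n * ((0 : ℝ) : ℂ) * Complex.I)) = 0 := by
    have h3 := h.per 0
    have h4 := ka2_exp_per n 0
    rw [zero_add] at h3 h4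
    push_cast
    rw [h3, h4, sub_self]
  rw [h2, intervalIntegral.integral_add] at h1
  · have h3 : ∫ t in (0 : ℝ)..2 * π, f t * (Complex.exp (-(n * t * Complex.I)) * -(n * Complex.I)) =
        -(n * Complex.I) * ∫ t in (0 : ℝ)..2 * π, f t * Complex.exp (-(n * t * Complex.I)) := by
      rw [← intervalIntegral.integral_const_mul]
      refine intervalIntegral.integral_congr fun t _ => ?_
      beta_reduce
      ring
    rw [h3] at h1
    rw [fc, fc]
    linear_combination (1 / (2 * π) : ℂ) * h1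
  · exact (hc'.mul (by fun_prop)).intervalIntegrable _ _
  · exact (hc.mul (by fun_prop)).intervalIntegrable _ _

theorem norm_fc_zero_le (h : HP r f) (hr : 0 < r) (hM : ∀ t : ℝ, ‖f t‖ ≤ M) : ‖fc f 0‖ ≤ M := by
  rw [fc, norm_mul]
  have h1 : ‖∫ t in (0 : ℝ)..2 * π, f t * Complex.exp (-(((0 : ℤ) : ℂ) * t * Complex.I))‖ ≤
      M * |2 * π - 0| := by
    refine intervalIntegral.norm_integral_le_of_norm_le_const fun t _ => ?_
    simpa using hM t
  have h2 : ‖(1 / (2 * π) : ℂ)‖ = 1 / (2 * π) := by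
    rw [norm_div, norm_mul, norm_one, Complex.norm_ofNat, Complex.norm_real,
      Real.norm_of_nonneg pi_pos.le]
  rw [h2]
  rw [sub_zero, abs_of_pos two_pi_pos] at h1
  calc 1 / (2 * π) * _ ≤ 1 / (2 * π) * (M * (2 * π)) :=
        mul_le_mul_of_nonneg_left h1 (by positivity)
    _ = M := by field_simp

end Pool.Agent.MP_b87ea9_an.Kam
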