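import Mathlib
import Pool.Agent.Lib.MP_b87ea9_an.KDefs
import Pool.Agent.Lib.MP_b87ea9_an.KDefs2
import Pool.Agent.Lib.MP_b87ea9_an.KA1
import Pool.Agent.Lib.MP_b87ea9_an.KA2

set_option autoImplicit false

/-! Fourier series with exponentially decaying coefficients on strips -/

namespace Pool.Agent.MP_b87ea9_an.Kam

open Real MeasureTheory

/-- exponential decay of coefficients at every rate `< r` -/
def Dec (r : ℝ) (a : ℤ → ℂ) : Prop :=
  ∀ r' < r, ∃ M : ℝ, 0 ≤ M ∧ ∀ n : ℤ, ‖a n‖ ≤ M * Real.exp (-(r' * |(n : ℝ)|))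

/-- the Fourier series with coefficients `a` -/
noncomputable def ser (a : ℤ → ℂ) (z : ℂ) : ℂ := ∑' n : ℤ, a n * Complex.exp (n * z * Complex.I)

theorem norm_cexp_le (n : ℤ) (z : ℂ) :
    ‖Complex.exp (n * z * Complex.I)‖ ≤ Real.exp (|z.im| * |(n : ℝ)|) := by
  rw [Complex.norm_exp]
  apply Real.exp_le_exp.2
  have h : ((n : ℂ) * z * Complex.I).re = -(z.im * (n : ℝ)) := by
    simp [Complex.mul_re, Complex.mul_im]
    ring
  rw [h]
  calc -(z.im * (n : ℝ)) ≤ |z.im * (n : ℝ)| := neg_le_abs _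
    _ = _ := abs_mul _ _

theorem summable_exp_abs {c : ℝ} (hc : 0 < c) :
    Summable (fun n : ℤ => Real.exp (-(c * |(n : ℝ)|))) := by
  have h0 : Summable (fun n : ℕ => Real.exp (-c) ^ n) :=
    summable_geometric_of_lt_one (Real.exp_pos _).le (Real.exp_lt_one_iff.2 (by linarith))
  have h1 : ∀ n : ℕ, Real.exp (-(c * (n : ℝ))) = Real.exp (-c) ^ n := by
    intro n
    rw [← Real.exp_nat_mul]
    ring_nf
  refine Summable.of_nat_of_neg ?_ ?_
  · refine h0.congr fun n => ?_
    rw [← h1]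
    simp
  · refine h0.congr fun n => ?_
    rw [← h1]
    simp

theorem Dec.summable {r r' : ℝ} {a : ℤ → ℂ} (ha : Dec r a) (hr : r' < r) :
    Summable (fun n : ℤ => ‖a n‖ * Real.exp (r' * |(n : ℝ)|)) := by
  obtain ⟨M, hM, hle⟩ := ha ((r' + r) / 2) (by linarith)
  refine Summable.of_nonneg_of_le (fun n => by positivity) (fun n => ?_)
    ((summable_exp_abs (c := (r - r') / 2) (by linarith)).mul_left M)
  calc ‖a n‖ * Real.exp (r' * |(n : ℝ)|)
      ≤ (M * Real.exp (-((r' + r) / 2 * |(n : ℝ)|))) * Real.exp (r' * |(n : ℝ)|) := by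
        gcongr
        exact hle n
    _ = M * Real.exp (-((r - r') / 2 * |(n : ℝ)|)) := by
        rw [mul_assoc, ← Real.exp_add]
        ring_nf

theorem Dec.summable_norm {r : ℝ} {a : ℤ → ℂ} (ha : Dec r a) {z : ℂ} (hz : z ∈ Strip r) :
    Summable (fun n : ℤ => ‖a n * Complex.exp (n * z * Complex.I)‖) := by
  refine Summable.of_nonneg_of_le (fun n => norm_nonneg _) (fun n => ?_) (ha.summable hz)
  rw [norm_mul]
  gcongr
  exact norm_cexp_le n z

theorem Dec.summable_ser {r : ℝ} {a : ℤ → ℂ} (ha : Dec r a) {z : ℂ} (hz : z ∈ Strip r) :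
    Summable (fun n : ℤ => a n * Complex.exp (n * z * Complex.I)) :=
  (ha.summable_norm hz).of_norm

theorem Dec.bd {r r' : ℝ} {a : ℤ → ℂ} (ha : Dec r a) (hr : r' < r) :
    Bd r' (ser a) (∑' n : ℤ, ‖a n‖ * Real.exp (r' * |(n : ℝ)|)) := by
  intro z hz
  have hz' : |z.im| < r' := hz
  have hzr : z ∈ Strip r := lt_trans hz' hr
  calc ‖ser a z‖ ≤ ∑' n : ℤ, ‖a n * Complex.exp (n * z * Complex.I)‖ :=
        norm_tsum_le_tsum_norm (ha.summable_norm hzr)
    _ ≤ _ := by
        refine (ha.summable_norm hzr).tsum_le_tsum (fun n => ?_) (ha.summable hr)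
        rw [norm_mul]
        gcongr
        refine (norm_cexp_le n z).trans ?_
        gcongr

theorem ser_per (a : ℤ → ℂ) (z : ℂ) : ser a (z + 2 * π) = ser a z := by
  unfold ser
  refine tsum_congr fun n => ?_
  congr 1
  rw [Complex.exp_eq_exp_iff_exists_int]
  exact ⟨n, by ring⟩

theorem ser_rs (a : ℤ → ℂ) (ha : ∀ n, a (-n) = starRingEnd ℂ (a n)) (z : ℂ) :
    ser a (starRingEnd ℂ z) = starRingEnd ℂ (ser a z) := by
  unfold ser
  rw [Complex.conj_tsum, ← (Equiv.neg ℤ).tsum_eq]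
  refine tsum_congr fun n => ?_
  rw [map_mul, Equiv.neg_apply, ha n, ← Complex.exp_conj]
  congr 2
  simp

theorem term_diff (a : ℤ → ℂ) (n : ℤ) :
    Differentiable ℂ (fun z => a n * Complex.exp (n * z * Complex.I)) := by
  fun_prop

theorem term_deriv (a : ℤ → ℂ) (n : ℤ) (z : ℂ) :
    deriv (fun z => a n * Complex.exp (n * z * Complex.I)) z
      = (n * Complex.I * a n) * Complex.exp (n * z * Complex.I) := by
  have h1 : HasDerivAt (fun z : ℂ => (n : ℂ) * z * Complex.I) ((n : ℂ) * Complex.I) z := by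
    have := ((hasDerivAt_id z).const_mul (n : ℂ)).mul_const Complex.I
    simpa using this
  have h2 := (h1.cexp).const_mul (a n)
  rw [h2.deriv]
  ring

theorem Dec.diff {r : ℝ} {a : ℤ → ℂ} (ha : Dec r a) {z : ℂ} (hz : z ∈ Strip r) :
    DifferentiableAt ℂ (ser a) z ∧
      deriv (ser a) z = ser (fun n => n * Complex.I * a n) z := by
  have hz' : |z.im| < r := hz
  obtain ⟨r', h1, h2⟩ := exists_between hz'
  have hle : ∀ (n : ℤ) (w : ℂ), w ∈ Strip r' →
      ‖a n * Complex.exp (n * w * Complex.I)‖ ≤ ‖a n‖ * Real.exp (r' * |(n : ℝ)|) := by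
    intro n w hw
    have hw' : |w.im| < r' := hw
    rw [norm_mul]
    gcongr
    refine (norm_cexp_le n w).trans ?_
    gcongr
  constructor
  · have := Complex.differentiableOn_tsum_of_summable_norm (ha.summable h2)
      (fun n => (term_diff a n).differentiableOn) (isOpen_strip r') hle
    exact (this z h1).differentiableAt ((isOpen_strip r').mem_nhds h1)
  · have := Complex.hasSum_deriv_of_summable_norm (z := z) (ha.summable h2)
      (fun n => (term_diff a n).differentiableOn) (isOpen_strip r') hle h1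
    have h3 := this.tsum_eq
    unfold ser
    rw [← h3]
    refine tsum_congr fun n => ?_
    rw [term_deriv]

theorem Dec.hp {r : ℝ} {a : ℤ → ℂ} (ha : Dec r a) (hs : ∀ n, a (-n) = starRingEnd ℂ (a n)) :
    HP r (ser a) where
  hol := fun _ hz => (ha.diff hz).1.differentiableWithinAt
  per := ser_per a
  rs := ser_rs a hs

/-- Fourier coefficients of a series -/
theorem Dec.fc_ser {r : ℝ} {a : ℤ → ℂ} (ha : Dec r a) (hr : 0 < r) (m : ℤ) :
    fc (ser a) m = a m := by
  have hsum : Summable (fun n : ℤ => ‖a n‖) := by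
    have := ha.summable hr
    simpa using this
  let F : ℤ → C(ℝ, ℂ) := fun n =>
    ⟨fun t => a n * Complex.exp (n * t * Complex.I) * Complex.exp (-(m * t * Complex.I)), by
      fun_prop⟩
  have hF : ∀ (n : ℤ) (t : ℝ), ‖F n t‖ = ‖a n‖ := by
    intro n t
    change ‖a n * Complex.exp (n * t * Complex.I) * Complex.exp (-(m * t * Complex.I))‖ = ‖a n‖
    have e1 : Complex.exp (n * t * Complex.I) = Complex.exp (((n * t : ℝ) : ℂ) * Complex.I) := by
      push_cast; ring_nf
    have e2 : Complex.exp (-(m * t * Complex.I))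
        = Complex.exp (((-(m * t) : ℝ) : ℂ) * Complex.I) := by
      push_cast; ring_nf
    rw [norm_mul, norm_mul, e1, e2, Complex.norm_exp_ofReal_mul_I, Complex.norm_exp_ofReal_mul_I]
    ring
  have hS : Summable fun n : ℤ =>
      ‖(F n).restrict (⟨Set.uIcc 0 (2 * π), isCompact_uIcc⟩ : TopologicalSpace.Compacts ℝ)‖ := by
    refine Summable.of_nonneg_of_le (fun n => norm_nonneg _) (fun n => ?_) hsum
    rw [ContinuousMap.norm_le _ (norm_nonneg _)]
    intro t
    exact (hF n t).le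
  have h1 := intervalIntegral.tsum_intervalIntegral_eq_of_summable_norm hS
  have h2 : ∀ n : ℤ, ∫ t in (0 : ℝ)..2 * π, F n t = if n = m then 2 * π * a m else 0 := by
    intro n
    change ∫ t in (0 : ℝ)..2 * π, a n * Complex.exp (n * t * Complex.I)
      * Complex.exp (-(m * t * Complex.I)) = _
    have h3 : ∀ t : ℝ, a n * Complex.exp (n * t * Complex.I) * Complex.exp (-(m * t * Complex.I))
        = a n * Complex.exp (((n - m : ℤ) * Complex.I) * t) := by
      intro t
      rw [mul_assoc, ← Complex.exp_add]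
      congr 2
      push_cast
      ring
    simp_rw [h3]
    rw [intervalIntegral.integral_const_mul]
    by_cases hnm : n = m
    · subst hnm
      simp
      ring
    · have hc : ((n - m : ℤ) : ℂ) * Complex.I ≠ 0 :=
        mul_ne_zero (by exact_mod_cast sub_ne_zero.2 hnm) Complex.I_ne_zero
      rw [integral_exp_mul_complex hc, if_neg hnm]
      have h4 : Complex.exp (((n - m : ℤ) : ℂ) * Complex.I * ((2 * π : ℝ) : ℂ)) = 1 := by
        rw [Complex.exp_eq_one_iff]
        exact ⟨n - m, by push_cast; ring⟩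
      rw [h4]
      simp
  simp_rw [h2] at h1
  rw [tsum_ite_eq] at h1
  unfold fc
  have h5 : ∀ t : ℝ, ser a t * Complex.exp (-(m * t * Complex.I)) = ∑' n : ℤ, F n t := by
    intro t
    unfold ser
    rw [← tsum_mul_right]
    rfl
  simp_rw [h5]
  rw [← h1]
  have hpi : (π : ℂ) ≠ 0 := by exact_mod_cast Real.pi_ne_zero
  field_simp

/-- boundedness on smaller strips -/
theorem exists_bd {r r' : ℝ} {f : ℂ → ℂ} (h : HP r f) (hr : r' < r) :
    ∃ M : ℝ, 0 ≤ M ∧ Bd r' f M := by
  have hK : IsCompact ((Set.Icc (0 : ℝ) (2 * π)) ×ℂ (Set.Icc (-r') r')) :=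
    isCompact_Icc.reProdIm isCompact_Icc
  have hsub : ((Set.Icc (0 : ℝ) (2 * π)) ×ℂ (Set.Icc (-r') r')) ⊆ Strip r := by
    intro z hz
    have h2 := hz.2
    exact lt_of_le_of_lt (abs_le.2 ⟨h2.1, h2.2⟩) hr
  obtain ⟨C, hC⟩ := hK.exists_bound_of_continuousOn (h.hol.continuousOn.mono hsub)
  refine ⟨max C 0, le_max_right _ _, fun z hz => ?_⟩
  have hz' : |z.im| < r' := hz
  have hper : Function.Periodic f (2 * (π : ℂ)) := h.per
  set k : ℤ := ⌊z.re / (2 * π)⌋ with hk
  have h1 : f (z - k * (2 * (π : ℂ))) = f z := hper.sub_int_mul_eq k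
  have h2 : z - k * (2 * (π : ℂ)) ∈ ((Set.Icc (0 : ℝ) (2 * π)) ×ℂ (Set.Icc (-r') r')) := by
    have hpi : 0 < 2 * π := by positivity
    have e1 : (z - k * (2 * (π : ℂ))).re = z.re - k * (2 * π) := by
      simp [Complex.mul_re]
    have e2 : (z - k * (2 * (π : ℂ))).im = z.im := by
      simp [Complex.mul_im]
    constructor
    · show (z - k * (2 * (π : ℂ))).re ∈ Set.Icc (0 : ℝ) (2 * π)
      rw [e1]
      have f1 := Int.floor_le (z.re / (2 * π))
      have f2 := Int.lt_floor_add_one (z.re / (2 * π))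
      rw [← hk] at f1 f2
      rw [le_div_iff₀ hpi] at f1
      rw [div_lt_iff₀ hpi] at f2
      constructor
      · linarith
      · linarith
    · show (z - k * (2 * (π : ℂ))).im ∈ Set.Icc (-r') r'
      rw [e2]
      exact abs_le.1 hz'.le
  rw [← h1]
  exact (hC _ h2).trans (le_max_left _ _)

theorem dec_fc {r : ℝ} {f : ℂ → ℂ} (h : HP r f) (hr : 0 < r) : Dec r (fc f) := by
  intro r' hr'
  set r'' := max r' (r / 2) with hr''
  have h1 : r'' < r := max_lt hr' (by linarith)
  have h2 : 0 < r'' := lt_of_lt_of_le (by linarith) (le_max_right _ _)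
  obtain ⟨M, hM, hB⟩ := exists_bd h h1
  refine ⟨M, hM, fun n => ?_⟩
  refine (norm_fc_le (hp_mono h h1.le) h2 hB n).trans ?_
  gcongr
  exact le_max_left _ _

theorem one_add_le_exp {c x : ℝ} (hc : 0 < c) (hx : 0 ≤ x) :
    1 + x ≤ (1 + 1 / c) * Real.exp (c * x) := by
  have h1 : c * x + 1 ≤ Real.exp (c * x) := Real.add_one_le_exp _
  have h2 : 0 ≤ c * x := by positivity
  have h3 : x ≤ 1 / c * Real.exp (c * x) := by
    rw [div_mul_eq_mul_div, le_div_iff₀ hc]
    linarith
  nlinarith [Real.exp_pos (c * x)]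

theorem Dec.of_poly {r A : ℝ} {a b : ℤ → ℂ} (ha : Dec r a) (hA : 0 ≤ A)
    (hb : ∀ n : ℤ, ‖b n‖ ≤ A * (1 + |(n : ℝ)|) * ‖a n‖) : Dec r b := by
  intro r' hr'
  obtain ⟨M, hM, hle⟩ := ha ((r' + r) / 2) (by linarith)
  have hc : 0 < (r - r') / 2 := by linarith
  refine ⟨A * (1 + 1 / ((r - r') / 2)) * M, by positivity, fun n => ?_⟩
  calc ‖b n‖ ≤ A * (1 + |(n : ℝ)|) * ‖a n‖ := hb n
    _ ≤ A * ((1 + 1 / ((r - r') / 2)) * Real.exp ((r - r') / 2 * |(n : ℝ)|)) *
        (M * Real.exp (-((r' + r) / 2 * |(n : ℝ)|))) := by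
        gcongr
        · exact one_add_le_exp hc (abs_nonneg _)
        · exact hle n
    _ = A * (1 + 1 / ((r - r') / 2)) * M *
        (Real.exp ((r - r') / 2 * |(n : ℝ)|) * Real.exp (-((r' + r) / 2 * |(n : ℝ)|))) := by ring
    _ = _ := by
        rw [← Real.exp_add]
        ring_nf

theorem ser_fc {r : ℝ} {f : ℂ → ℂ} (h : HP r f) {z : ℂ} (hz : z ∈ Strip r) :
    ser (fc f) z = f z := (hasSum_fc h hz).tsum_eq

end Pool.Agent.MP_b87ea9_an.Kam
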