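import Mathlib
import Pool.Agent.Lib.MP_b87ea9_an.KDefs
import Pool.Agent.Lib.MP_b87ea9_an.KDefs2

set_option autoImplicit false

/-! sums of small divisors -/

namespace Pool.Agent.MP_b87ea9_an.Kam

open Real MeasureTheory

variable {r δ M γ Nb ω : ℝ} {f f' w : ℂ → ℂ}

/-- the angle of `e^{inω}` -/
noncomputable def ka4_arg (ω : ℝ) (n : ℤ) : ℝ := Complex.arg (Complex.exp (n * ω * Complex.I))

theorem ka4_exp_arg (ω : ℝ) (n : ℤ) :
    Complex.exp (Complex.I * (ka4_arg ω n : ℝ)) = Complex.exp (n * ω * Complex.I) := by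
  have h1 : ‖Complex.exp (n * ω * Complex.I)‖ = 1 := by
    have := Complex.norm_exp_ofReal_mul_I ((n : ℝ) * ω)
    simpa using this
  have h2 := Complex.norm_mul_exp_arg_mul_I (Complex.exp (n * ω * Complex.I))
  rw [h1, Complex.ofReal_one, one_mul] at h2
  rw [mul_comm, ka4_arg]
  exact h2

theorem ka4_dv_le (ω : ℝ) (n : ℤ) : ‖dv ω n‖ ≤ |ka4_arg ω n| := by
  rw [dv, ← ka4_exp_arg, ← Real.norm_eq_abs]
  exact norm_exp_I_mul_ofReal_sub_one_le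

theorem ka4_le_dv (ω : ℝ) (n : ℤ) : 2 / π * |ka4_arg ω n| ≤ ‖dv ω n‖ := by
  rw [dv, ← ka4_exp_arg, Complex.norm_exp_I_mul_ofReal_sub_one, norm_mul, Real.norm_eq_abs,
    Real.norm_eq_abs, abs_two]
  have h1 : |ka4_arg ω n| ≤ π := Complex.abs_arg_le_pi _
  have h2 : |ka4_arg ω n / 2| ≤ π / 2 := by
    rw [abs_div, abs_two]
    linarith
  have h3 := mul_abs_le_abs_sin h2
  rw [abs_div, abs_two] at h3
  calc 2 / π * |ka4_arg ω n| = 2 * (2 / π * (|ka4_arg ω n| / 2)) := by ring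
    _ ≤ 2 * |sin (ka4_arg ω n / 2)| := by linarith

theorem ka4_dv_sub (ω : ℝ) (n m : ℤ) : ‖dv ω (n - m)‖ ≤ |ka4_arg ω n - ka4_arg ω m| := by
  have h1 : dv ω (n - m) = Complex.exp (Complex.I * ((ka4_arg ω n - ka4_arg ω m : ℝ) : ℂ)) - 1 := by
    rw [dv]
    push_cast
    rw [mul_sub, Complex.exp_sub, ka4_exp_arg, ka4_exp_arg, sub_mul, sub_mul, Complex.exp_sub]
  rw [h1, ← Real.norm_eq_abs]
  exact norm_exp_I_mul_ofReal_sub_one_le

/-- the block estimate -/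
theorem ka4_block (θ : ℝ) (hθ : 1 < θ) (γ Nb ω M : ℝ) (s : Finset ℤ) (hγ : 0 < γ)
    (hNb : 1 ≤ Nb) (hR : Rot γ Nb ω) (h0 : (0 : ℤ) ∉ s) (hM : ∀ n ∈ s, |(n : ℝ)| ≤ M)
    (hM0 : 0 ≤ M) :
    ∑ n ∈ s, ‖dv ω n‖ ^ (-θ) ≤
      (π ^ θ * ∑' k : ℤ, |(k : ℝ)| ^ (-θ)) * ((2 * M + Nb) / γ) ^ θ := by
  classical
  set Γ : ℝ := γ / (2 * M + Nb) with hΓ
  have hden : 0 < 2 * M + Nb := by linarith
  have hΓ0 : 0 < Γ := div_pos hγ hden
  set k : ℤ → ℤ := fun n => ⌊ka4_arg ω n / Γ⌋ with hk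
  have hdv : ∀ n ∈ s, Γ ≤ |ka4_arg ω n| := by
    intro n hn
    have hn0 : n ≠ 0 := fun h => h0 (h ▸ hn)
    refine le_trans ?_ ((hR.dio n hn0).trans (ka4_dv_le ω n))
    rw [hΓ]
    apply div_le_div_of_nonneg_left hγ.le (by linarith [abs_nonneg (n : ℝ)])
    have := hM n hn
    linarith
  have hinj : Set.InjOn k s := by
    intro n hn m hm hnm
    by_contra hne
    have hnm0 : n - m ≠ 0 := sub_ne_zero.2 hne
    have h1 := (hR.dio _ hnm0).trans (ka4_dv_sub ω n m)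
    have h2 : Γ ≤ |ka4_arg ω n - ka4_arg ω m| := by
      refine le_trans ?_ h1
      rw [hΓ]
      apply div_le_div_of_nonneg_left hγ.le (by linarith [abs_nonneg ((n - m : ℤ) : ℝ)])
      have h3 := hM n hn
      have h4 := hM m hm
      have h5 : |((n - m : ℤ) : ℝ)| ≤ |(n : ℝ)| + |(m : ℝ)| := by
        push_cast
        exact abs_sub _ _
      linarith
    have h3 : |ka4_arg ω n / Γ - ka4_arg ω m / Γ| < 1 := Int.abs_sub_lt_one_of_floor_eq_floor hnm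
    rw [← sub_div, abs_div, abs_of_pos hΓ0, div_lt_one hΓ0] at h3
    linarith
  have hkb : ∀ n ∈ s, |((k n : ℤ) : ℝ)| * Γ ≤ 2 * |ka4_arg ω n| ∧ k n ≠ 0 := by
    intro n hn
    have h1 := hdv n hn
    set x : ℝ := ka4_arg ω n with hx
    have h2 : ((k n : ℤ) : ℝ) ≤ x / Γ := Int.floor_le _
    have h3 : x / Γ < (k n : ℤ) + 1 := Int.lt_floor_add_one _
    rw [le_div_iff₀ hΓ0] at h2
    rw [div_lt_iff₀ hΓ0] at h3
    constructor
    · rcases le_total 0 x with hx0 | hx0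
      · have h5 : (0 : ℝ) ≤ (k n : ℤ) := by
          have : 0 ≤ k n := Int.floor_nonneg.2 (div_nonneg hx0 hΓ0.le)
          exact_mod_cast this
        rw [abs_of_nonneg h5, abs_of_nonneg hx0]
        linarith
      · rw [abs_of_nonpos hx0] at h1 ⊢
        have h5 : k n < 0 := by
          by_contra hc
          push Not at hc
          have : (0 : ℝ) ≤ (k n : ℤ) := by exact_mod_cast hc
          nlinarith
        have h6 : ((k n : ℤ) : ℝ) < 0 := by exact_mod_cast h5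
        rw [abs_of_neg h6]
        nlinarith
    · intro hk0
      rw [hk0] at h2 h3
      push_cast at h2 h3
      have : |x| < Γ := by
        rw [abs_lt]
        constructor <;> linarith
      linarith
  have hterm : ∀ n ∈ s, ‖dv ω n‖ ^ (-θ) ≤ (π / Γ) ^ θ * |((k n : ℤ) : ℝ)| ^ (-θ) := by
    intro n hn
    obtain ⟨h1, h2⟩ := hkb n hn
    have h3 : 0 < |((k n : ℤ) : ℝ)| := abs_pos.2 (by exact_mod_cast h2)
    have h4 : Γ / π * |((k n : ℤ) : ℝ)| ≤ ‖dv ω n‖ := by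
      refine le_trans ?_ (ka4_le_dv ω n)
      have e1 : Γ / π * |((k n : ℤ) : ℝ)| = (|((k n : ℤ) : ℝ)| * Γ) / π := by ring
      have e2 : 2 / π * |ka4_arg ω n| = (2 * |ka4_arg ω n|) / π := by ring
      rw [e1, e2]
      exact div_le_div_of_nonneg_right h1 pi_pos.le
    have h5 : 0 < Γ / π * |((k n : ℤ) : ℝ)| := by positivity
    calc ‖dv ω n‖ ^ (-θ) ≤ (Γ / π * |((k n : ℤ) : ℝ)|) ^ (-θ) :=
          rpow_le_rpow_of_nonpos h5 h4 (by linarith)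
      _ = (π / Γ) ^ θ * |((k n : ℤ) : ℝ)| ^ (-θ) := by
          rw [mul_rpow (by positivity) h3.le, rpow_neg (by positivity), ← inv_rpow (by positivity),
            inv_div]
  have hsum : Summable fun k : ℤ => |(k : ℝ)| ^ (-θ) := Real.summable_abs_int_rpow hθ
  calc ∑ n ∈ s, ‖dv ω n‖ ^ (-θ) ≤ ∑ n ∈ s, (π / Γ) ^ θ * |((k n : ℤ) : ℝ)| ^ (-θ) :=
        Finset.sum_le_sum hterm
    _ = (π / Γ) ^ θ * ∑ n ∈ s, |((k n : ℤ) : ℝ)| ^ (-θ) := by rw [Finset.mul_sum]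
    _ = (π / Γ) ^ θ * ∑ j ∈ s.image k, |(j : ℝ)| ^ (-θ) := by
        rw [Finset.sum_image hinj]
    _ ≤ (π / Γ) ^ θ * ∑' k : ℤ, |(k : ℝ)| ^ (-θ) := by
        apply mul_le_mul_of_nonneg_left _ (by positivity)
        exact hsum.sum_le_tsum _ (fun i _ => rpow_nonneg (abs_nonneg _) _)
    _ = (π ^ θ * ∑' k : ℤ, |(k : ℝ)| ^ (-θ)) * ((2 * M + Nb) / γ) ^ θ := by
        have : π / Γ = π * ((2 * M + Nb) / γ) := by
          rw [hΓ]
          field_simp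
        rw [this, mul_rpow pi_pos.le (by positivity)]
        ring

theorem ka4_summable (θ : ℝ) :
    Summable fun j : ℕ => exp (-(j : ℝ)) * (2 * ((j : ℝ) + 1)) ^ θ := by
  set m : ℕ := ⌈θ⌉₊ with hm
  have h1 : Summable fun n : ℕ => (n : ℝ) ^ m * exp (-1 * n) :=
    Real.summable_pow_mul_exp_neg_nat_mul m one_pos
  have h2 : Summable fun n : ℕ => ((n + 1 : ℕ) : ℝ) ^ m * exp (-1 * ((n + 1 : ℕ) : ℝ)) :=
    (summable_nat_add_iff 1).2 h1
  have h3 : Summable fun n : ℕ => (2 ^ m * exp 1) *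
      (((n + 1 : ℕ) : ℝ) ^ m * exp (-1 * ((n + 1 : ℕ) : ℝ))) := h2.mul_left _
  apply Summable.of_nonneg_of_le _ _ h3
  · intro j
    positivity
  · intro j
    have hb : (1 : ℝ) ≤ 2 * ((j : ℝ) + 1) := by
      have : (0 : ℝ) ≤ j := Nat.cast_nonneg j
      linarith
    have h4 : (2 * ((j : ℝ) + 1)) ^ θ ≤ (2 * ((j : ℝ) + 1)) ^ m := by
      rw [← rpow_natCast]
      exact rpow_le_rpow_of_exponent_le hb (Nat.le_ceil θ)
    have h5 : exp (-(j : ℝ)) = exp 1 * exp (-1 * ((j + 1 : ℕ) : ℝ)) := by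
      rw [← exp_add]
      congr 1
      push_cast
      ring
    calc exp (-(j : ℝ)) * (2 * ((j : ℝ) + 1)) ^ θ
        ≤ exp (-(j : ℝ)) * (2 * ((j : ℝ) + 1)) ^ m :=
          mul_le_mul_of_nonneg_left h4 (exp_pos _).le
      _ = _ := by
          rw [h5, mul_pow]
          push_cast
          ring

theorem sum_dv : ∀ θ : ℝ, 1 < θ → ∃ C : ℝ, 1 ≤ C ∧ ∀ (γ Nb ω δ : ℝ) (s : Finset ℤ), 0 < γ → γ ≤ 1 →
    1 ≤ Nb → 0 < δ → Rot γ Nb ω → (0 : ℤ) ∉ s →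
    ∑ n ∈ s, exp (-(δ * |(n : ℝ)|)) * ‖dv ω n‖ ^ (-θ) ≤ C * ((1 / δ + Nb) / γ) ^ θ := by
  classical
  intro θ hθ
  set Z : ℝ := π ^ θ * ∑' k : ℤ, |(k : ℝ)| ^ (-θ) with hZ
  set Y : ℝ := ∑' j : ℕ, exp (-(j : ℝ)) * (2 * ((j : ℝ) + 1)) ^ θ with hY
  have hZ0 : 0 ≤ Z := by
    rw [hZ]
    apply mul_nonneg (by positivity)
    exact tsum_nonneg (fun i => rpow_nonneg (abs_nonneg _) _)
  have hsY := ka4_summable θ
  refine ⟨max 1 (Z * Y), le_max_left _ _, ?_⟩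
  intro γ Nb ω δ s hγ hγ1 hNb hδ hR h0
  set j : ℤ → ℕ := fun n => ⌊δ * |(n : ℝ)|⌋₊ with hj
  set W : ℝ := ((1 / δ + Nb) / γ) ^ θ with hW
  have hW0 : 0 ≤ W := by positivity
  have hfib : ∀ i ∈ s.image j, ∑ n ∈ s with j n = i, exp (-(δ * |(n : ℝ)|)) * ‖dv ω n‖ ^ (-θ) ≤
      (exp (-(i : ℝ)) * (2 * ((i : ℝ) + 1)) ^ θ) * (Z * W) := by
    intro i _
    have h1 : ∀ n ∈ s.filter (fun n => j n = i), exp (-(δ * |(n : ℝ)|)) * ‖dv ω n‖ ^ (-θ) ≤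
        exp (-(i : ℝ)) * ‖dv ω n‖ ^ (-θ) := by
      intro n hn
      rw [Finset.mem_filter] at hn
      apply mul_le_mul_of_nonneg_right _ (rpow_nonneg (norm_nonneg _) _)
      apply exp_le_exp.2
      have h2 : ((j n : ℕ) : ℝ) ≤ δ * |(n : ℝ)| := Nat.floor_le (by positivity)
      rw [hn.2] at h2
      linarith
    have hMi : ∀ n ∈ s.filter (fun n => j n = i), |(n : ℝ)| ≤ ((i : ℝ) + 1) / δ := by
      intro n hn
      rw [Finset.mem_filter] at hn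
      have h2 : δ * |(n : ℝ)| < ((j n : ℕ) : ℝ) + 1 := Nat.lt_floor_add_one _
      rw [hn.2] at h2
      rw [le_div_iff₀ hδ]
      linarith
    have h3 := ka4_block θ hθ γ Nb ω (((i : ℝ) + 1) / δ) (s.filter (fun n => j n = i)) hγ hNb hR
      (fun h => h0 (Finset.mem_filter.1 h).1) hMi (by positivity)
    calc ∑ n ∈ s with j n = i, exp (-(δ * |(n : ℝ)|)) * ‖dv ω n‖ ^ (-θ)
        ≤ ∑ n ∈ s with j n = i, exp (-(i : ℝ)) * ‖dv ω n‖ ^ (-θ) := Finset.sum_le_sum h1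
      _ = exp (-(i : ℝ)) * ∑ n ∈ s with j n = i, ‖dv ω n‖ ^ (-θ) := by rw [Finset.mul_sum]
      _ ≤ exp (-(i : ℝ)) * (Z * ((2 * (((i : ℝ) + 1) / δ) + Nb) / γ) ^ θ) :=
          mul_le_mul_of_nonneg_left h3 (exp_pos _).le
      _ ≤ exp (-(i : ℝ)) * (Z * ((2 * ((i : ℝ) + 1)) ^ θ * W)) := by
          apply mul_le_mul_of_nonneg_left _ (exp_pos _).le
          apply mul_le_mul_of_nonneg_left _ hZ0
          rw [hW, ← mul_rpow (by positivity) (by positivity)]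
          apply rpow_le_rpow (by positivity) _ (by linarith)
          have e1 : 2 * ((i : ℝ) + 1) * ((1 / δ + Nb) / γ) =
            (2 * ((i : ℝ) + 1) * (1 / δ + Nb)) / γ := by ring
          rw [e1]
          apply div_le_div_of_nonneg_right _ hγ.le
          have hi : (0 : ℝ) ≤ i := Nat.cast_nonneg i
          have : 2 * ((i : ℝ) + 1) * (1 / δ + Nb) = 2 * (((i : ℝ) + 1) / δ) +
            2 * ((i : ℝ) + 1) * Nb := by ring
          rw [this]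
          nlinarith
      _ = _ := by ring
  have hmaps : ∀ n ∈ s, j n ∈ s.image j := fun n hn => Finset.mem_image_of_mem j hn
  calc ∑ n ∈ s, exp (-(δ * |(n : ℝ)|)) * ‖dv ω n‖ ^ (-θ)
      = ∑ i ∈ s.image j, ∑ n ∈ s with j n = i, exp (-(δ * |(n : ℝ)|)) * ‖dv ω n‖ ^ (-θ) :=
        (Finset.sum_fiberwise_of_maps_to hmaps _).symm
    _ ≤ ∑ i ∈ s.image j, (exp (-(i : ℝ)) * (2 * ((i : ℝ) + 1)) ^ θ) * (Z * W) :=
        Finset.sum_le_sum hfib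
    _ = (∑ i ∈ s.image j, exp (-(i : ℝ)) * (2 * ((i : ℝ) + 1)) ^ θ) * (Z * W) := by
        rw [Finset.sum_mul]
    _ ≤ Y * (Z * W) := by
        apply mul_le_mul_of_nonneg_right _ (mul_nonneg hZ0 hW0)
        exact hsY.sum_le_tsum _ (fun i _ => by positivity)
    _ = (Z * Y) * W := by ring
    _ ≤ max 1 (Z * Y) * W := mul_le_mul_of_nonneg_right (le_max_right _ _) hW0

theorem sum_dv_weight : ∀ κ : ℝ, 0 < κ → ∃ C : ℝ, 1 ≤ C ∧ ∀ (γ Nb ω N δ : ℝ) (s : Finset ℤ), 0 < γ →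
    γ ≤ 1 → 1 ≤ Nb → Nb ≤ N → κ / N ≤ δ → Rot γ Nb ω → (0 : ℤ) ∉ s →
    ∑ n ∈ s, exp (-(δ * |(n : ℝ)|)) * (N * ‖dv ω n‖) ^ (-(5 / 4) : ℝ) * (N / (|(n : ℝ)| + Nb)) ≤
      C * (1 / γ) ^ (5 / 4 : ℝ) := by
  intro κ hκ
  obtain ⟨C₁, hC₁, H⟩ := sum_dv (5 / 4) (by norm_num)
  refine ⟨C₁ * (2 ^ (5 / 4 : ℝ) * (4 * κ ^ (-(1 / 4) : ℝ) + 1)), ?_, ?_⟩
  · have h1 : (1 : ℝ) ≤ 2 ^ (5 / 4 : ℝ) := one_le_rpow (by norm_num) (by norm_num)
    have h2 : (0 : ℝ) ≤ κ ^ (-(1 / 4) : ℝ) := by positivity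
    have h3 : (1 : ℝ) ≤ 2 ^ (5 / 4 : ℝ) * (4 * κ ^ (-(1 / 4) : ℝ) + 1) := by nlinarith
    nlinarith
  intro γ Nb ω N δ s hγ hγ1 hNb hNbN hκδ hR h0
  have hN0 : 0 < N := by linarith
  have hδ : 0 < δ := lt_of_lt_of_le (div_pos hκ hN0) hκδ
  -- integral representation of the weight
  have hrep : ∀ n : ℤ, exp (-(δ * |(n : ℝ)|)) * (1 / (|(n : ℝ)| + Nb)) =
      ∫ t in Set.Ioi δ, exp (-(t * |(n : ℝ)|)) * exp (-((t - δ) * Nb)) := by
    intro n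
    have ha : -(|(n : ℝ)| + Nb) < 0 := by linarith [abs_nonneg (n : ℝ)]
    have h1 : ∀ t : ℝ, exp (-(t * |(n : ℝ)|)) * exp (-((t - δ) * Nb)) =
        exp (δ * Nb) * exp (-(|(n : ℝ)| + Nb) * t) := by
      intro t
      rw [← exp_add, ← exp_add]
      congr 1
      ring
    simp only [h1]
    rw [integral_const_mul, integral_exp_mul_Ioi ha, neg_div_neg_eq]
    have e1 : exp (-(δ * |(n : ℝ)|)) = exp (δ * Nb) * exp (-(|(n : ℝ)| + Nb) * δ) := by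
      rw [← exp_add]
      congr 1
      ring
    rw [e1]
    ring
  have hint : ∀ n : ℤ, IntegrableOn
      (fun t : ℝ => exp (-(t * |(n : ℝ)|)) * exp (-((t - δ) * Nb))) (Set.Ioi δ) := by
    intro n
    have ha : -(|(n : ℝ)| + Nb) < 0 := by linarith [abs_nonneg (n : ℝ)]
    have h1 : ∀ t : ℝ, exp (-(t * |(n : ℝ)|)) * exp (-((t - δ) * Nb)) =
        exp (δ * Nb) * exp (-(|(n : ℝ)| + Nb) * t) := by
      intro t
      rw [← exp_add, ← exp_add]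
      congr 1
      ring
    simp only [h1]
    exact (integrableOn_exp_mul_Ioi ha δ).const_mul _
  -- the sum as an integral
  have hsum : ∑ n ∈ s, exp (-(δ * |(n : ℝ)|)) * ‖dv ω n‖ ^ (-(5 / 4) : ℝ) *
      (1 / (|(n : ℝ)| + Nb)) = ∫ t in Set.Ioi δ, exp (-((t - δ) * Nb)) *
        ∑ n ∈ s, exp (-(t * |(n : ℝ)|)) * ‖dv ω n‖ ^ (-(5 / 4) : ℝ) := by
    have h1 : ∀ t : ℝ, exp (-((t - δ) * Nb)) *
        ∑ n ∈ s, exp (-(t * |(n : ℝ)|)) * ‖dv ω n‖ ^ (-(5 / 4) : ℝ) =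
        ∑ n ∈ s, ‖dv ω n‖ ^ (-(5 / 4) : ℝ) *
          (exp (-(t * |(n : ℝ)|)) * exp (-((t - δ) * Nb))) := by
      intro t
      rw [Finset.mul_sum]
      apply Finset.sum_congr rfl
      intro n _
      ring
    simp only [h1]
    rw [integral_finsetSum _ (fun n _ => (hint n).const_mul _)]
    apply Finset.sum_congr rfl
    intro n _
    rw [integral_const_mul, ← hrep]
    ring
  -- bound for the integrand
  set G : ℝ := C₁ * (1 / γ) ^ (5 / 4 : ℝ) * 2 ^ (5 / 4 : ℝ) with hG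
  have hG0 : 0 ≤ G := by positivity
  have hbd : ∀ t ∈ Set.Ioi δ, exp (-((t - δ) * Nb)) *
      ∑ n ∈ s, exp (-(t * |(n : ℝ)|)) * ‖dv ω n‖ ^ (-(5 / 4) : ℝ) ≤
      G * (t ^ (-(5 / 4) : ℝ) + Nb ^ (5 / 4 : ℝ) * exp (-((t - δ) * Nb))) := by
    intro t ht
    have ht' : δ < t := ht
    have ht0 : 0 < t := hδ.trans ht'
    have h1 := H γ Nb ω t s hγ hγ1 hNb ht0 hR h0
    have h2 : ((1 / t + Nb) / γ) ^ (5 / 4 : ℝ) ≤ (1 / γ) ^ (5 / 4 : ℝ) *
        (2 ^ (5 / 4 : ℝ) * (t ^ (-(5 / 4) : ℝ) + Nb ^ (5 / 4 : ℝ))) := by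
      have h3 : (1 / t + Nb) / γ = (1 / γ) * (1 / t + Nb) := by ring
      rw [h3, mul_rpow (by positivity) (by positivity)]
      apply mul_le_mul_of_nonneg_left _ (by positivity)
      have h4 : 1 / t + Nb ≤ 2 * max (1 / t) Nb := by
        have := le_max_left (1 / t) Nb
        have := le_max_right (1 / t) Nb
        linarith
      have h5 : t ^ (-(5 / 4) : ℝ) = (1 / t) ^ (5 / 4 : ℝ) := by
        rw [rpow_neg ht0.le, one_div, inv_rpow ht0.le]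
      calc (1 / t + Nb) ^ (5 / 4 : ℝ) ≤ (2 * max (1 / t) Nb) ^ (5 / 4 : ℝ) :=
            rpow_le_rpow (by positivity) h4 (by norm_num)
        _ = 2 ^ (5 / 4 : ℝ) * (max (1 / t) Nb) ^ (5 / 4 : ℝ) := by
            rw [mul_rpow (by norm_num) (by positivity)]
        _ ≤ 2 ^ (5 / 4 : ℝ) * (t ^ (-(5 / 4) : ℝ) + Nb ^ (5 / 4 : ℝ)) := by
            apply mul_le_mul_of_nonneg_left _ (by positivity)
            rw [h5]
            rcases le_total (1 / t) Nb with h | h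
            · rw [max_eq_right h]
              have : 0 ≤ (1 / t) ^ (5 / 4 : ℝ) := by positivity
              linarith
            · rw [max_eq_left h]
              have : 0 ≤ Nb ^ (5 / 4 : ℝ) := by positivity
              linarith
    have he1 : exp (-((t - δ) * Nb)) ≤ 1 := by
      rw [exp_le_one_iff]
      nlinarith
    have he0 : 0 < exp (-((t - δ) * Nb)) := exp_pos _
    calc exp (-((t - δ) * Nb)) * ∑ n ∈ s, exp (-(t * |(n : ℝ)|)) * ‖dv ω n‖ ^ (-(5 / 4) : ℝ)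
        ≤ exp (-((t - δ) * Nb)) * (C₁ * ((1 / γ) ^ (5 / 4 : ℝ) *
          (2 ^ (5 / 4 : ℝ) * (t ^ (-(5 / 4) : ℝ) + Nb ^ (5 / 4 : ℝ))))) := by
          apply mul_le_mul_of_nonneg_left _ he0.le
          exact h1.trans (mul_le_mul_of_nonneg_left h2 (by linarith))
      _ = G * (exp (-((t - δ) * Nb)) * t ^ (-(5 / 4) : ℝ) +
            Nb ^ (5 / 4 : ℝ) * exp (-((t - δ) * Nb))) := by
          rw [hG]
          ring
      _ ≤ G * (t ^ (-(5 / 4) : ℝ) + Nb ^ (5 / 4 : ℝ) * exp (-((t - δ) * Nb))) := by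
          apply mul_le_mul_of_nonneg_left _ hG0
          have : 0 ≤ t ^ (-(5 / 4) : ℝ) := by positivity
          nlinarith
  have hI1 : IntegrableOn (fun t : ℝ => t ^ (-(5 / 4) : ℝ)) (Set.Ioi δ) :=
    integrableOn_Ioi_rpow_of_lt (by norm_num) hδ
  have hexp : ∀ t : ℝ, exp (-((t - δ) * Nb)) = exp (δ * Nb) * exp (-Nb * t) := by
    intro t
    rw [← exp_add]
    congr 1
    ring
  have hI2 : IntegrableOn (fun t : ℝ => exp (-((t - δ) * Nb))) (Set.Ioi δ) := by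
    simp only [hexp]
    exact (integrableOn_exp_mul_Ioi (by linarith) δ).const_mul _
  have hI2' : ∫ t in Set.Ioi δ, exp (-((t - δ) * Nb)) = 1 / Nb := by
    simp only [hexp]
    rw [integral_const_mul, integral_exp_mul_Ioi (by linarith), neg_div_neg_eq, ← mul_div_assoc,
      ← exp_add]
    congr 1
    rw [exp_eq_one_iff]
    ring
  have hI1' : ∫ t in Set.Ioi δ, t ^ (-(5 / 4) : ℝ) = 4 * δ ^ (-(1 / 4) : ℝ) := by
    rw [integral_Ioi_rpow_of_lt (by norm_num) hδ]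
    norm_num
    ring
  have hfin : ∑ n ∈ s, exp (-(δ * |(n : ℝ)|)) * ‖dv ω n‖ ^ (-(5 / 4) : ℝ) *
      (1 / (|(n : ℝ)| + Nb)) ≤ G * (4 * δ ^ (-(1 / 4) : ℝ) + Nb ^ (5 / 4 : ℝ) * (1 / Nb)) := by
    rw [hsum]
    calc ∫ t in Set.Ioi δ, exp (-((t - δ) * Nb)) *
          ∑ n ∈ s, exp (-(t * |(n : ℝ)|)) * ‖dv ω n‖ ^ (-(5 / 4) : ℝ)
        ≤ ∫ t in Set.Ioi δ, G * (t ^ (-(5 / 4) : ℝ) + Nb ^ (5 / 4 : ℝ) *
            exp (-((t - δ) * Nb))) := by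
          apply setIntegral_mono_on _ _ measurableSet_Ioi hbd
          · have h1 : ∀ t : ℝ, exp (-((t - δ) * Nb)) *
                ∑ n ∈ s, exp (-(t * |(n : ℝ)|)) * ‖dv ω n‖ ^ (-(5 / 4) : ℝ) =
                ∑ n ∈ s, ‖dv ω n‖ ^ (-(5 / 4) : ℝ) *
                  (exp (-(t * |(n : ℝ)|)) * exp (-((t - δ) * Nb))) := by
              intro t
              rw [Finset.mul_sum]
              apply Finset.sum_congr rfl
              intro n _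
              ring
            simp only [h1]
            exact integrable_finsetSum _ (fun n _ => (hint n).const_mul _)
          · exact (hI1.add (hI2.const_mul _)).const_mul _
      _ = G * (4 * δ ^ (-(1 / 4) : ℝ) + Nb ^ (5 / 4 : ℝ) * (1 / Nb)) := by
          rw [integral_const_mul, integral_add hI1 (hI2.const_mul _), integral_const_mul, hI1',
            hI2']
  -- conclusion
  have hNq : N * N ^ (-(5 / 4) : ℝ) = N ^ (-(1 / 4) : ℝ) := by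
    rw [← rpow_one_add' hN0.le (by norm_num)]
    norm_num
  have hleft : ∑ n ∈ s, exp (-(δ * |(n : ℝ)|)) * (N * ‖dv ω n‖) ^ (-(5 / 4) : ℝ) *
      (N / (|(n : ℝ)| + Nb)) = N ^ (-(1 / 4) : ℝ) *
      ∑ n ∈ s, exp (-(δ * |(n : ℝ)|)) * ‖dv ω n‖ ^ (-(5 / 4) : ℝ) * (1 / (|(n : ℝ)| + Nb)) := by
    rw [Finset.mul_sum]
    apply Finset.sum_congr rfl
    intro n _
    rw [mul_rpow hN0.le (norm_nonneg _), ← hNq]
    ring
  rw [hleft]
  have h1 : δ ^ (-(1 / 4) : ℝ) ≤ κ ^ (-(1 / 4) : ℝ) * N ^ (1 / 4 : ℝ) := by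
    calc δ ^ (-(1 / 4) : ℝ) ≤ (κ / N) ^ (-(1 / 4) : ℝ) :=
          rpow_le_rpow_of_nonpos (div_pos hκ hN0) hκδ (by norm_num)
      _ = κ ^ (-(1 / 4) : ℝ) * N ^ (1 / 4 : ℝ) := by
          rw [div_rpow hκ.le hN0.le, rpow_neg hN0.le (1 / 4), div_inv_eq_mul]
  have h2 : Nb ^ (5 / 4 : ℝ) * (1 / Nb) ≤ N ^ (1 / 4 : ℝ) := by
    have hNb0 : 0 < Nb := by linarith
    have : Nb ^ (5 / 4 : ℝ) * (1 / Nb) = Nb ^ (1 / 4 : ℝ) := by
      rw [mul_one_div, ← rpow_sub_one hNb0.ne']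
      norm_num
    rw [this]
    exact rpow_le_rpow hNb0.le hNbN (by norm_num)
  have h3 : N ^ (-(1 / 4) : ℝ) * N ^ (1 / 4 : ℝ) = 1 := by
    rw [← rpow_add hN0]
    norm_num
  have h4 : (0 : ℝ) ≤ N ^ (-(1 / 4) : ℝ) := by positivity
  calc N ^ (-(1 / 4) : ℝ) *
      ∑ n ∈ s, exp (-(δ * |(n : ℝ)|)) * ‖dv ω n‖ ^ (-(5 / 4) : ℝ) * (1 / (|(n : ℝ)| + Nb))
      ≤ N ^ (-(1 / 4) : ℝ) * (G * (4 * (κ ^ (-(1 / 4) : ℝ) * N ^ (1 / 4 : ℝ)) +
        N ^ (1 / 4 : ℝ))) := by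
        apply mul_le_mul_of_nonneg_left _ h4
        refine hfin.trans (mul_le_mul_of_nonneg_left ?_ hG0)
        linarith
    _ = (N ^ (-(1 / 4) : ℝ) * N ^ (1 / 4 : ℝ)) * (G * (4 * κ ^ (-(1 / 4) : ℝ) + 1)) := by ring
    _ = C₁ * (2 ^ (5 / 4 : ℝ) * (4 * κ ^ (-(1 / 4) : ℝ) + 1)) * (1 / γ) ^ (5 / 4 : ℝ) := by
        rw [h3, hG]
        ring

end Pool.Agent.MP_b87ea9_an.Kam
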