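import Mathlib
import Pool.Agent.Lib.MP_b87ea9_an.KDefs
import Pool.Agent.Lib.MP_b87ea9_an.KDefs2
import Pool.Agent.Lib.MP_b87ea9_an.KA1
import Pool.Agent.Lib.MP_b87ea9_an.KA2
import Pool.Agent.Lib.MP_b87ea9_an.KA4
import Pool.Agent.Lib.MP_b87ea9_an.KA3a

set_option autoImplicit false

/-! inversion of the difference operator -/

namespace Pool.Agent.MP_b87ea9_an.Kam

open Real MeasureTheory

variable {r δ M γ Nb ω : ℝ} {f f' w : ℂ → ℂ}

/-- the coefficients of `invD` -/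
noncomputable def ic (ω : ℝ) (f : ℂ → ℂ) (n : ℤ) : ℂ := if n = 0 then 0 else fc f n / dv ω n

theorem invD_eq_ser (ω : ℝ) (f : ℂ → ℂ) : invD ω f = ser (ic ω f) := by
  funext z
  unfold invD ser ic
  refine tsum_congr fun n => ?_
  split_ifs <;> simp

theorem dv_pos (hγ : 0 < γ) (hNb : 1 ≤ Nb) (R : Rot γ Nb ω) {n : ℤ} (hn : n ≠ 0) :
    0 < ‖dv ω n‖ := by
  refine lt_of_lt_of_le ?_ (R.dio n hn)
  have : 0 ≤ |(n : ℝ)| := abs_nonneg _
  positivity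

theorem dv_ne (hγ : 0 < γ) (hNb : 1 ≤ Nb) (R : Rot γ Nb ω) {n : ℤ} (hn : n ≠ 0) :
    dv ω n ≠ 0 := norm_pos_iff.1 (dv_pos hγ hNb R hn)

theorem inv_dv_le (hγ : 0 < γ) (hNb : 1 ≤ Nb) (R : Rot γ Nb ω) {n : ℤ} (hn : n ≠ 0) :
    ‖dv ω n‖⁻¹ ≤ (|(n : ℝ)| + Nb) / γ := by
  have h0 : 0 ≤ |(n : ℝ)| := abs_nonneg _
  have h1 : 0 < γ / (|(n : ℝ)| + Nb) := by positivity
  have h2 := R.dio n hn
  calc ‖dv ω n‖⁻¹ ≤ (γ / (|(n : ℝ)| + Nb))⁻¹ := inv_anti₀ h1 h2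
    _ = _ := by rw [inv_div]

theorem norm_ic_le (hγ : 0 < γ) (hNb : 1 ≤ Nb) (R : Rot γ Nb ω) (f : ℂ → ℂ) (n : ℤ) :
    ‖ic ω f n‖ ≤ Nb / γ * (1 + |(n : ℝ)|) * ‖fc f n‖ := by
  have h0 : 0 ≤ |(n : ℝ)| := abs_nonneg _
  unfold ic
  split_ifs with h
  · rw [norm_zero]; positivity
  · rw [norm_div, div_eq_mul_inv, mul_comm]
    gcongr
    refine (inv_dv_le hγ hNb R h).trans ?_
    rw [div_mul_eq_mul_div]
    gcongr
    nlinarith

theorem dec_ic (h : HP r f) (hr : 0 < r) (hγ : 0 < γ) (hNb : 1 ≤ Nb) (R : Rot γ Nb ω) :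
    Dec r (ic ω f) :=
  (dec_fc h hr).of_poly (A := Nb / γ) (by positivity) (norm_ic_le hγ hNb R f)

theorem dv_neg (ω : ℝ) (n : ℤ) : dv ω (-n) = starRingEnd ℂ (dv ω n) := by
  unfold dv
  rw [map_sub, map_one, ← Complex.exp_conj]
  congr 2
  simp

theorem ic_neg (h : HP r f) (n : ℤ) : ic ω f (-n) = starRingEnd ℂ (ic ω f n) := by
  unfold ic
  by_cases hn : n = 0
  · simp [hn]
  · rw [if_neg hn, if_neg (by simpa using hn), map_div₀, fc_neg h, dv_neg]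

theorem invD_hp (h : HP r f) (hr : 0 < r) (hγ : 0 < γ) (hNb : 1 ≤ Nb) (R : Rot γ Nb ω) :
    HP r (invD ω f) := by
  rw [invD_eq_ser]
  exact (dec_ic h hr hγ hNb R).hp (ic_neg h)

theorem strip_add_real {z : ℂ} (a : ℝ) (hz : z ∈ Strip r) : z + a ∈ Strip r := by
  have hz' : |z.im| < r := hz
  show |(z + a).im| < r
  simpa using hz'

theorem cexp_shift (n : ℤ) (z : ℂ) (a : ℝ) : Complex.exp (n * (z + a) * Complex.I)
    = Complex.exp (n * z * Complex.I) * Complex.exp (n * a * Complex.I) := by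
  rw [← Complex.exp_add]
  ring_nf

theorem invD_eq (h : HP r f) (hr : 0 < r) (hγ : 0 < γ) (hNb : 1 ≤ Nb) (R : Rot γ Nb ω) {z : ℂ}
    (hz : z ∈ Strip r) : invD ω f (z + ω) - invD ω f z = f z - fc f 0 := by
  have hd := dec_ic h hr hγ hNb R
  rw [invD_eq_ser]
  unfold ser
  rw [← (hd.summable_ser (strip_add_real ω hz)).tsum_sub (hd.summable_ser hz)]
  have hs : Summable fun n : ℤ => fc f n * Complex.exp (n * z * Complex.I) :=
    (hasSum_fc h hz).summable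
  have hs2 : HasSum (fun n : ℤ => if n = 0 then fc f 0 else 0) (fc f 0) := hasSum_ite_eq 0 (fc f 0)
  have h1 := (hasSum_fc h hz).sub hs2
  rw [← h1.tsum_eq]
  refine tsum_congr fun n => ?_
  unfold ic
  by_cases hn : n = 0
  · subst hn
    simp
  · rw [if_neg hn, if_neg hn, cexp_shift, sub_zero]
    have hdn := dv_ne hγ hNb R hn
    have : dv ω n = Complex.exp (n * ω * Complex.I) - 1 := rfl
    rw [← mul_sub, ← mul_sub_one, ← this]
    field_simp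

theorem fc_invD (h : HP r f) (hr : 0 < r) (hγ : 0 < γ) (hNb : 1 ≤ Nb) (R : Rot γ Nb ω) (n : ℤ) :
    fc (invD ω f) n = if n = 0 then 0 else fc f n / dv ω n := by
  rw [invD_eq_ser]
  exact (dec_ic h hr hγ hNb R).fc_ser hr n

theorem fc_congr_strip {f g : ℂ → ℂ} (hr : 0 < r) (h : ∀ z ∈ Strip r, f z = g z) (n : ℤ) :
    fc f n = fc g n := by
  unfold fc
  congr 1
  refine intervalIntegral.integral_congr fun t _ => ?_
  have : (t : ℂ) ∈ Strip r := by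
    show |((t : ℂ)).im| < r
    simpa using hr
  rw [h _ this]

theorem fc_const_ne (c : ℂ) {n : ℤ} (hn : n ≠ 0) : fc (fun _ => c) n = 0 := by
  unfold fc
  have hc : -((n : ℂ) * Complex.I) ≠ 0 := by
    rw [neg_ne_zero]
    exact mul_ne_zero (by exact_mod_cast hn) Complex.I_ne_zero
  have h1 : ∀ t : ℝ, c * Complex.exp (-(n * t * Complex.I))
      = c * Complex.exp (-((n : ℂ) * Complex.I) * t) := by
    intro t
    ring_nf
  simp_rw [h1]
  rw [intervalIntegral.integral_const_mul, integral_exp_mul_complex hc]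
  have h4 : Complex.exp (-((n : ℂ) * Complex.I) * ((2 * π : ℝ) : ℂ)) = 1 := by
    rw [Complex.exp_eq_one_iff]
    exact ⟨-n, by push_cast; ring⟩
  rw [h4]
  simp

theorem invD_unique (h : HP r f) (hr : 0 < r) (hγ : 0 < γ) (hNb : 1 ≤ Nb) (R : Rot γ Nb ω)
    {u : ℂ → ℂ} (hu : HP r u) (h0 : fc u 0 = 0)
    (he : ∀ z ∈ Strip r, u (z + ω) - u z = f z - fc f 0) {z : ℂ} (hz : z ∈ Strip r) :
    invD ω f z = u z := by
  rw [invD_eq_ser, ← ser_fc hu hz]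
  have key : ic ω f = fc u := by
    funext n
    unfold ic
    by_cases hn : n = 0
    · rw [if_pos hn, hn, h0]
    · rw [if_neg hn]
      have hu' : HP r (fun z => u (z + ω)) := hp_shift hu ω
      -- coefficients of `u(z+ω) - u z`
      have e1 : fc (fun z => u (z + ω) - u z) n = fc u n * dv ω n := by
        have a1 : fc (fun z => u (z + ω) - u z) n
            = fc (fun z => u (z + ω) + (-1) * u z) n := by
          congr 1
          funext z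
          ring
        have hneg : HP r (fun z => (-1 : ℂ) * u z) := by
          have := hp_mul (hp_const r (-1)) hu
          simpa using this
        rw [a1, fc_add hu' hneg hr, fc_smul, fc_translate hu hr]
        unfold dv
        ring
      have e2 : fc (fun z => f z - fc f 0) n = fc f n := by
        have him : (fc f 0).im = 0 := by
          have := fc_neg h 0
          rw [neg_zero] at this
          exact Complex.conj_eq_iff_im.1 this.symm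
        have hre : ((-(fc f 0).re : ℝ) : ℂ) = -fc f 0 := by
          apply Complex.ext
          · simp
          · simp [him]
        have a1 : fc (fun z => f z - fc f 0) n
            = fc (fun z => f z + ((-(fc f 0).re : ℝ) : ℂ)) n := by
          congr 1
          funext z
          rw [hre]
          ring
        rw [a1, fc_add h (hp_const r _) hr, fc_const_ne _ hn, add_zero]
      have e3 : fc (fun z => u (z + ω) - u z) n = fc (fun z => f z - fc f 0) n :=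
        fc_congr_strip hr he n
      rw [e1, e2] at e3
      rw [← e3]
      have hdn := dv_ne hγ hNb R hn
      field_simp
  rw [key]

theorem invD_add (h : HP r f) (h' : HP r f') (hr : 0 < r) (hγ : 0 < γ) (hNb : 1 ≤ Nb)
    (R : Rot γ Nb ω) {z : ℂ} (hz : z ∈ Strip r) :
    invD ω (fun z => f z + f' z) z = invD ω f z + invD ω f' z := by
  have hd := dec_ic h hr hγ hNb R
  have hd' := dec_ic h' hr hγ hNb R
  rw [invD_eq_ser, invD_eq_ser, invD_eq_ser]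
  unfold ser
  rw [← (hd.summable_ser hz).tsum_add (hd'.summable_ser hz)]
  refine tsum_congr fun n => ?_
  unfold ic
  by_cases hn : n = 0
  · simp [hn]
  · simp only [if_neg hn]
    rw [fc_add h h' hr]
    ring

theorem invD_smul (c : ℂ) (z : ℂ) : invD ω (fun z => c * f z) z = c * invD ω f z := by
  unfold invD
  rw [← tsum_mul_left]
  refine tsum_congr fun n => ?_
  by_cases hn : n = 0
  · simp [hn]
  · rw [if_neg hn, if_neg hn, fc_smul]
    ring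

theorem invD_shift (h : HP r f) (hr : 0 < r) (a : ℝ) (z : ℂ) :
    invD ω (fun z => f (z + a)) z = invD ω f (z + a) := by
  unfold invD
  refine tsum_congr fun n => ?_
  by_cases hn : n = 0
  · simp [hn]
  · rw [if_neg hn, if_neg hn, fc_translate h hr, cexp_shift]
    ring

theorem deriv_invD (h : HP r f) (hr : 0 < r) (hγ : 0 < γ) (hNb : 1 ≤ Nb) (R : Rot γ Nb ω) {z : ℂ}
    (hz : z ∈ Strip r) : deriv (invD ω f) z = invD ω (deriv f) z := by
  have hd := dec_ic h hr hγ hNb R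
  rw [invD_eq_ser, invD_eq_ser, (hd.diff hz).2]
  congr 1
  funext n
  unfold ic
  by_cases hn : n = 0
  · simp [hn]
  · simp only [if_neg hn]
    rw [fc_deriv h hr]
    ring

theorem invD_res (h : HP r f) (hr : 0 < r) (hγ : 0 < γ) (hNb : 1 ≤ Nb) (R : Rot γ Nb ω) {r' : ℝ}
    (hr' : r' < r) : Bd r' (invD ω f) (res ω r' f) ∧
      Summable (fun n : ℤ => if n = 0 then 0 else ‖fc f n‖ * exp (r' * |(n : ℝ)|) / ‖dv ω n‖) := by
  have hd := dec_ic h hr hγ hNb R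
  have e : ∀ n : ℤ, ‖ic ω f n‖ * exp (r' * |(n : ℝ)|)
      = if n = 0 then 0 else ‖fc f n‖ * exp (r' * |(n : ℝ)|) / ‖dv ω n‖ := by
    intro n
    unfold ic
    by_cases hn : n = 0
    · simp [hn]
    · rw [if_neg hn, if_neg hn, norm_div]
      ring
  constructor
  · have := hd.bd hr'
    rw [invD_eq_ser]
    simp_rw [e] at this
    exact this
  · exact (hd.summable hr').congr e

/-- a series is bounded by the supremum of the finite partial sums of the norms -/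
theorem bd_of_sums {a : ℤ → ℂ} {r' B : ℝ}
    (hB : ∀ s : Finset ℤ, ∑ n ∈ s, ‖a n‖ * exp (r' * |(n : ℝ)|) ≤ B) : Bd r' (ser a) B := by
  intro z hz
  have hz' : |z.im| < r' := hz
  have hle : ∀ n : ℤ, ‖a n * Complex.exp (n * z * Complex.I)‖ ≤ ‖a n‖ * exp (r' * |(n : ℝ)|) := by
    intro n
    rw [norm_mul]
    gcongr
    refine (norm_cexp_le n z).trans ?_
    gcongr
  have hB' : ∀ s : Finset ℤ, ∑ n ∈ s, ‖a n * Complex.exp (n * z * Complex.I)‖ ≤ B :=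
    fun s => (Finset.sum_le_sum fun n _ => hle n).trans (hB s)
  have hs : Summable fun n : ℤ => ‖a n * Complex.exp (n * z * Complex.I)‖ :=
    summable_of_sum_le (fun n => norm_nonneg _) hB'
  exact (norm_tsum_le_tsum_norm hs).trans (hs.tsum_le_of_sum_le hB')

theorem rpow_neg_two {x : ℝ} (hx : 0 < x) : x ^ (-(2 : ℝ)) = (x⁻¹) ^ 2 := by
  rw [Real.rpow_neg hx.le, inv_pow]
  norm_num

theorem cs_sum (s : Finset ℤ) (a b : ℤ → ℝ) {A B : ℝ} (hA : 0 ≤ A) (hB : 0 ≤ B)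
    (h1 : ∑ n ∈ s, a n ^ 2 ≤ A ^ 2) (h2 : ∑ n ∈ s, b n ^ 2 ≤ B ^ 2) :
    ∑ n ∈ s, a n * b n ≤ A * B := by
  have h5 := Finset.sum_mul_sq_le_sq_mul_sq s a b
  have h6 : (∑ n ∈ s, a n * b n) ^ 2 ≤ (A * B) ^ 2 := by
    rw [mul_pow]
    exact h5.trans (mul_le_mul h1 h2 (Finset.sum_nonneg fun n _ => sq_nonneg _) (sq_nonneg _))
  exact le_of_sq_le_sq h6 (mul_nonneg hA hB)

theorem exp_split (r δ x : ℝ) : exp ((r - δ) * x) = exp (r * x) * exp (-(δ * x)) := by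
  rw [← Real.exp_add]; ring_nf

theorem sq_sum' {r M : ℝ} {f : ℂ → ℂ} (h : HP r f) (hr : 0 < r) (hM : HN r f M) (s : Finset ℤ) :
    ∑ n ∈ s, (‖fc f n‖ * exp (r * |(n : ℝ)|)) ^ 2 ≤ (2 * M) ^ 2 := by
  have h1 : ∑ n ∈ s, (‖fc f n‖ * exp (r * |(n : ℝ)|)) ^ 2 ≤ 2 * M ^ 2 := by
    refine le_trans (le_of_eq ?_) (sq_sum h hr hM s)
    refine Finset.sum_congr rfl fun n _ => ?_
    rw [mul_pow, ← Real.exp_nat_mul]
    push_cast
    ring_nf
  refine h1.trans ?_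
  nlinarith [sq_nonneg M]

/-- main bound: no loss besides `1/δ + Nb` -/
theorem invD_bd : ∃ C : ℝ, 1 ≤ C ∧ ∀ (r δ M γ Nb ω : ℝ) (f : ℂ → ℂ), 0 < δ → δ < r → 0 < γ →
    γ ≤ 1 → 1 ≤ Nb → 0 ≤ M → Rot γ Nb ω → HP r f → HN r f M →
    Bd (r - δ) (invD ω f) (C / γ * (1 / δ + Nb) * M) := by
  obtain ⟨C, hC, hsum⟩ := sum_dv 2 (by norm_num)
  refine ⟨2 * C, by linarith, ?_⟩
  intro r δ M γ Nb ω f hδ hδr hγ hγ1 hNb hM R h hN
  have hr : 0 < r := lt_trans hδ hδr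
  rw [invD_eq_ser]
  refine bd_of_sums fun s => ?_
  have e0 : ∑ n ∈ s, ‖ic ω f n‖ * exp ((r - δ) * |(n : ℝ)|)
      = ∑ n ∈ s.erase 0, ‖ic ω f n‖ * exp ((r - δ) * |(n : ℝ)|) := by
    symm
    refine Finset.sum_erase s ?_
    simp [ic]
  have e1 : ∀ n ∈ s.erase 0, ‖ic ω f n‖ * exp ((r - δ) * |(n : ℝ)|)
      = (‖fc f n‖ * exp (r * |(n : ℝ)|)) * (exp (-(δ * |(n : ℝ)|)) * ‖dv ω n‖⁻¹) := by
    intro n hn
    have hn0 : n ≠ 0 := (Finset.mem_erase.1 hn).1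
    unfold ic
    rw [if_neg hn0, norm_div, exp_split]
    ring
  rw [e0, Finset.sum_congr rfl e1]
  have hX : 0 ≤ (1 / δ + Nb) / γ := by positivity
  have h2 : ∑ n ∈ s.erase 0, (exp (-(δ * |(n : ℝ)|)) * ‖dv ω n‖⁻¹) ^ 2
      ≤ (C * ((1 / δ + Nb) / γ)) ^ 2 := by
    have h3 := hsum γ Nb ω δ (s.erase 0) hγ hγ1 hNb hδ R (Finset.notMem_erase 0 s)
    have h4 : ((1 / δ + Nb) / γ) ^ (2 : ℝ) = ((1 / δ + Nb) / γ) ^ 2 := by norm_num
    rw [h4] at h3
    refine le_trans (Finset.sum_le_sum fun n hn => ?_) (h3.trans ?_)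
    · have hn0 : n ≠ 0 := (Finset.mem_erase.1 hn).1
      rw [rpow_neg_two (dv_pos hγ hNb R hn0), mul_pow]
      gcongr
      rw [sq]
      refine mul_le_of_le_one_left (Real.exp_pos _).le ?_
      rw [Real.exp_le_one_iff]
      have : 0 ≤ |(n : ℝ)| := abs_nonneg _
      nlinarith
    · rw [mul_pow]
      gcongr
      nlinarith
  have h7 := cs_sum (s.erase 0) (fun n => ‖fc f n‖ * exp (r * |(n : ℝ)|))
    (fun n => exp (-(δ * |(n : ℝ)|)) * ‖dv ω n‖⁻¹) (A := 2 * M) (B := C * ((1 / δ + Nb) / γ))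
    (by positivity) (by positivity) (sq_sum' h hr hN _) h2
  refine h7.trans (le_of_eq ?_)
  ring

theorem sum_exp_le {δ : ℝ} (hδ : 0 < δ) (hδ1 : δ ≤ 1) (s : Finset ℤ) :
    ∑ n ∈ s, exp (-(2 * δ * |(n : ℝ)|)) ≤ 2 / δ := by
  set x := exp (-(2 * δ)) with hx
  have hx0 : 0 < x := Real.exp_pos _
  have hx1 : x < 1 := Real.exp_lt_one_iff.2 (by linarith)
  have hpow : ∀ n : ℕ, exp (-(2 * δ * (n : ℝ))) = x ^ n := by
    intro n
    rw [hx, ← Real.exp_nat_mul]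
    ring_nf
  have h1 : HasSum (fun n : ℕ => x ^ n) (1 - x)⁻¹ := hasSum_geometric_of_lt_one hx0.le hx1
  have h2 : HasSum (fun n : ℕ => x ^ n * x) ((1 - x)⁻¹ * x) := h1.mul_right x
  have h3 : HasSum (fun n : ℤ => exp (-(2 * δ * |(n : ℝ)|))) ((1 - x)⁻¹ + (1 - x)⁻¹ * x) := by
    refine HasSum.of_nat_of_neg_add_one ?_ ?_
    · convert h1 using 2 with n
      rw [← hpow]
      simp
    · convert h2 using 2 with n
      rw [← pow_succ, ← hpow]
      push_cast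
      rw [abs_neg, abs_of_nonneg (by positivity)]
  refine (sum_le_hasSum s (fun n _ => (Real.exp_pos _).le) h3).trans ?_
  have h4 : x * (1 + 2 * δ) ≤ 1 := by
    have h5 : 2 * δ + 1 ≤ exp (2 * δ) := Real.add_one_le_exp _
    have h6 : x * exp (2 * δ) = 1 := by
      rw [hx, ← Real.exp_add]
      simp
    nlinarith
  have h7 : (1 - x)⁻¹ + (1 - x)⁻¹ * x = (1 + x) / (1 - x) := by ring
  have h8 : 0 < 1 - x := by linarith
  rw [h7, div_le_div_iff₀ h8 hδ]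
  nlinarith

/-- low frequency bound for derivatives: the multiplier `n / dv n` is `≤ Nb` for `|n| ≤ Nb/2` -/
theorem invD_low : ∃ C : ℝ, 1 ≤ C ∧ ∀ (r δ M γ Nb ω N : ℝ) (e : ℂ → ℂ), 0 < δ → δ < r → 0 < γ →
    γ ≤ 1 → 1 ≤ N → N ≤ Nb → δ * N ≤ 1 → 0 ≤ M → Rot γ Nb ω → HP r e → HN r e M →
    Bd (r - δ) (invD ω (deriv e))
      (C / γ * (Nb * (1 / δ) ^ (1 / 2 : ℝ) + (1 / δ + Nb) / δ * exp (-(δ * Nb / 8))) * M) := by
  obtain ⟨C, hC, hsum⟩ := sum_dv 2 (by norm_num)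
  refine ⟨8 * C, by linarith, ?_⟩
  intro r δ M γ Nb ω N f hδ hδr hγ hγ1 hN hNNb hδN hM R h hHN
  have hr : 0 < r := lt_trans hδ hδr
  have hNb : 1 ≤ Nb := hN.trans hNNb
  have hδ1 : δ ≤ 1 := by nlinarith
  rw [invD_eq_ser]
  refine bd_of_sums fun s => ?_
  have e0 : ∑ n ∈ s, ‖ic ω (deriv f) n‖ * exp ((r - δ) * |(n : ℝ)|)
      = ∑ n ∈ s.erase 0, ‖ic ω (deriv f) n‖ * exp ((r - δ) * |(n : ℝ)|) := by
    symm
    refine Finset.sum_erase s ?_
    simp [ic]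
  have e1 : ∀ n ∈ s.erase 0, ‖ic ω (deriv f) n‖ * exp ((r - δ) * |(n : ℝ)|)
      = (‖fc f n‖ * exp (r * |(n : ℝ)|)) *
        (|(n : ℝ)| * exp (-(δ * |(n : ℝ)|)) * ‖dv ω n‖⁻¹) := by
    intro n hn
    have hn0 : n ≠ 0 := (Finset.mem_erase.1 hn).1
    unfold ic
    rw [if_neg hn0, norm_div, exp_split, fc_deriv h hr, norm_mul, norm_mul, Complex.norm_I,
      Complex.norm_intCast]
    ring
  rw [e0, Finset.sum_congr rfl e1,
    ← Finset.sum_filter_add_sum_filter_not (s.erase 0) (fun n : ℤ => |(n : ℝ)| ≤ Nb / 2)]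
  set sl := (s.erase 0).filter (fun n : ℤ => |(n : ℝ)| ≤ Nb / 2) with hsl
  set sh := (s.erase 0).filter (fun n : ℤ => ¬ |(n : ℝ)| ≤ Nb / 2) with hsh
  -- low part
  have hlow : ∑ n ∈ sl, (‖fc f n‖ * exp (r * |(n : ℝ)|)) *
      (|(n : ℝ)| * exp (-(δ * |(n : ℝ)|)) * ‖dv ω n‖⁻¹)
      ≤ (2 * M) * (2 * (Nb * (1 / δ) ^ (1 / 2 : ℝ))) := by
    refine cs_sum sl (fun n => ‖fc f n‖ * exp (r * |(n : ℝ)|))
      (fun n => |(n : ℝ)| * exp (-(δ * |(n : ℝ)|)) * ‖dv ω n‖⁻¹) (by positivity) (by positivity)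
      (sq_sum' h hr hHN _) ?_
    have hb : ∀ n ∈ sl, (|(n : ℝ)| * exp (-(δ * |(n : ℝ)|)) * ‖dv ω n‖⁻¹) ^ 2
        ≤ Nb ^ 2 * exp (-(2 * δ * |(n : ℝ)|)) := by
      intro n hn
      obtain ⟨hn1, hn2⟩ := Finset.mem_filter.1 hn
      have hn0 : n ≠ 0 := (Finset.mem_erase.1 hn1).1
      have hd := dv_pos hγ hNb R hn0
      have h1 : |(n : ℝ)| * ‖dv ω n‖⁻¹ ≤ Nb := by
        have := R.low n hn2
        rw [div_le_iff₀ (by linarith)] at this
        rw [← div_eq_mul_inv, div_le_iff₀ hd]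
        linarith
      have h2 : |(n : ℝ)| * exp (-(δ * |(n : ℝ)|)) * ‖dv ω n‖⁻¹
          = (|(n : ℝ)| * ‖dv ω n‖⁻¹) * exp (-(δ * |(n : ℝ)|)) := by ring
      rw [h2, mul_pow]
      have h3 : exp (-(δ * |(n : ℝ)|)) ^ 2 = exp (-(2 * δ * |(n : ℝ)|)) := by
        rw [← Real.exp_nat_mul]
        push_cast
        ring_nf
      rw [h3]
      gcongr
    refine (Finset.sum_le_sum hb).trans ?_
    rw [← Finset.mul_sum]
    have h4 : ((1 / δ) ^ (1 / 2 : ℝ)) ^ 2 = 1 / δ := by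
      rw [← Real.rpow_natCast, ← Real.rpow_mul (by positivity)]
      norm_num
    calc Nb ^ 2 * ∑ n ∈ sl, exp (-(2 * δ * |(n : ℝ)|)) ≤ Nb ^ 2 * (2 / δ) := by
          gcongr
          exact sum_exp_le hδ hδ1 sl
      _ ≤ Nb ^ 2 * (4 * (1 / δ)) := by
          gcongr
          rw [div_le_iff₀ hδ]
          field_simp
          norm_num
      _ = (2 * (Nb * (1 / δ) ^ (1 / 2 : ℝ))) ^ 2 := by
          rw [mul_pow, mul_pow, h4]
          ring
  -- high part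
  have hhigh : ∑ n ∈ sh, (‖fc f n‖ * exp (r * |(n : ℝ)|)) *
      (|(n : ℝ)| * exp (-(δ * |(n : ℝ)|)) * ‖dv ω n‖⁻¹)
      ≤ (2 * M) * (4 / δ * exp (-(δ * Nb / 8)) * (C * ((1 / δ + Nb) / γ))) := by
    refine cs_sum sh (fun n => ‖fc f n‖ * exp (r * |(n : ℝ)|))
      (fun n => |(n : ℝ)| * exp (-(δ * |(n : ℝ)|)) * ‖dv ω n‖⁻¹) (by positivity) (by positivity)
      (sq_sum' h hr hHN _) ?_
    have hb : ∀ n ∈ sh, (|(n : ℝ)| * exp (-(δ * |(n : ℝ)|)) * ‖dv ω n‖⁻¹) ^ 2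
        ≤ (4 / δ * exp (-(δ * Nb / 8))) ^ 2 *
          (exp (-(δ * |(n : ℝ)|)) * ‖dv ω n‖ ^ (-(2 : ℝ))) := by
      intro n hn
      obtain ⟨hn1, hn2⟩ := Finset.mem_filter.1 hn
      have hn0 : n ≠ 0 := (Finset.mem_erase.1 hn1).1
      have hd := dv_pos hγ hNb R hn0
      have hn3 : Nb / 2 < |(n : ℝ)| := not_le.1 hn2
      rw [rpow_neg_two hd]
      have h1 : |(n : ℝ)| * exp (-(δ / 4 * |(n : ℝ)|)) ≤ 4 / δ := by
        have h2 : δ / 4 * |(n : ℝ)| + 1 ≤ exp (δ / 4 * |(n : ℝ)|) := Real.add_one_le_exp _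
        rw [Real.exp_neg, ← div_eq_mul_inv, div_le_div_iff₀ (Real.exp_pos _) hδ]
        nlinarith
      have h3 : exp (-(δ / 4 * |(n : ℝ)|)) ≤ exp (-(δ * Nb / 8)) := by
        gcongr
        nlinarith
      have h4 : |(n : ℝ)| * exp (-(δ * |(n : ℝ)|)) * ‖dv ω n‖⁻¹
          = (|(n : ℝ)| * exp (-(δ / 4 * |(n : ℝ)|))) * exp (-(δ / 4 * |(n : ℝ)|)) *
            (exp (-(δ / 2 * |(n : ℝ)|)) * ‖dv ω n‖⁻¹) := by
        have : exp (-(δ * |(n : ℝ)|)) = exp (-(δ / 4 * |(n : ℝ)|)) * exp (-(δ / 4 * |(n : ℝ)|)) *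
            exp (-(δ / 2 * |(n : ℝ)|)) := by
          rw [← Real.exp_add, ← Real.exp_add]
          ring_nf
        rw [this]
        ring
      have h5 : exp (-(δ * |(n : ℝ)|)) = exp (-(δ / 2 * |(n : ℝ)|)) ^ 2 := by
        rw [← Real.exp_nat_mul]
        push_cast
        ring_nf
      rw [h4, mul_pow, h5, ← mul_pow (exp (-(δ / 2 * |(n : ℝ)|)))]
      gcongr
    refine (Finset.sum_le_sum hb).trans ?_
    rw [← Finset.mul_sum]
    have h3 := hsum γ Nb ω δ sh hγ hγ1 hNb hδ R (by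
      intro h0
      have := (Finset.mem_filter.1 h0).1
      exact Finset.notMem_erase 0 s this)
    have h4 : ((1 / δ + Nb) / γ) ^ (2 : ℝ) = ((1 / δ + Nb) / γ) ^ 2 := by norm_num
    rw [h4] at h3
    rw [mul_pow (4 / δ * exp (-(δ * Nb / 8)))]
    gcongr
    refine h3.trans ?_
    rw [mul_pow]
    gcongr
    nlinarith
  refine (add_le_add hlow hhigh).trans ?_
  have h1γ : 1 ≤ 1 / γ := by
    rw [le_div_iff₀ hγ]
    linarith
  have hA : 0 ≤ Nb * (1 / δ) ^ (1 / 2 : ℝ) := by positivity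
  have hA2 : (2 * M) * (2 * (Nb * (1 / δ) ^ (1 / 2 : ℝ)))
      ≤ 8 * C / γ * (Nb * (1 / δ) ^ (1 / 2 : ℝ)) * M := by
    have : 4 ≤ 8 * C / γ := by
      rw [le_div_iff₀ hγ]
      nlinarith
    calc (2 * M) * (2 * (Nb * (1 / δ) ^ (1 / 2 : ℝ)))
        = 4 * (Nb * (1 / δ) ^ (1 / 2 : ℝ)) * M := by ring
      _ ≤ _ := by gcongr
  have hA3 : (2 * M) * (4 / δ * exp (-(δ * Nb / 8)) * (C * ((1 / δ + Nb) / γ)))
      = 8 * C / γ * ((1 / δ + Nb) / δ * exp (-(δ * Nb / 8))) * M := by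
    ring
  rw [hA3]
  calc _ ≤ 8 * C / γ * (Nb * (1 / δ) ^ (1 / 2 : ℝ)) * M +
        8 * C / γ * ((1 / δ + Nb) / δ * exp (-(δ * Nb / 8))) * M := by gcongr
    _ = _ := by ring

end Pool.Agent.MP_b87ea9_an.Kam
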