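import Mathlib
import Pool.Agent.Lib.MP_b87ea9_an.KDefs
import Pool.Agent.Lib.MP_b87ea9_an.KDefs2
import Pool.Agent.Lib.MP_b87ea9_an.KA1

set_option autoImplicit false

/-! Auxiliary lemmas for KA5: composition of `L²` trigonometric polynomials with diffeomorphisms -/

namespace Pool.Agent.MP_b87ea9_an.Kam.A5

open Real MeasureTheory

theorem line_mem {r y : ℝ} (hy : |y| < r) (t : ℝ) : (t : ℂ) + y * Complex.I ∈ Strip r := by
  simp only [Strip, Set.mem_ofPred_eq]
  simpa using hy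

theorem real_mem {r : ℝ} (hr : 0 < r) (t : ℝ) : (t : ℂ) ∈ Strip r := by
  simp only [Strip, Set.mem_ofPred_eq, Complex.ofReal_im, abs_zero]
  exact hr

theorem cont_line {r y : ℝ} {f : ℂ → ℂ} (hf : DifferentiableOn ℂ f (Strip r)) (hy : |y| < r) :
    Continuous fun t : ℝ => f (t + y * Complex.I) :=
  hf.continuousOn.comp_continuous (by fun_prop) (fun t => line_mem hy t)

theorem cont_real {r : ℝ} {f : ℂ → ℂ} (hf : DifferentiableOn ℂ f (Strip r)) (hr : 0 < r) :
    Continuous fun t : ℝ => f t :=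
  hf.continuousOn.comp_continuous (by fun_prop) (fun t => real_mem hr t)

theorem int_exp (n : ℤ) :
    ∫ t in (0 : ℝ)..2 * π, Complex.exp (n * t * Complex.I) = if n = 0 then (2 * π : ℂ) else 0 := by
  split_ifs with h
  · subst h
    simp
  · have hc : (n : ℂ) * Complex.I ≠ 0 :=
      mul_ne_zero (by exact_mod_cast h) Complex.I_ne_zero
    have h1 := @integral_exp_mul_complex 0 (2 * π) ((n : ℂ) * Complex.I) hc
    have h2 : Complex.exp ((n : ℂ) * Complex.I * ((2 * π : ℝ) : ℂ)) = 1 := by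
      rw [← Complex.exp_int_mul_two_pi_mul_I n]
      congr 1
      push_cast
      ring
    rw [h2] at h1
    simp only [Complex.ofReal_zero, mul_zero, Complex.exp_zero, sub_self, zero_div] at h1
    rw [← h1]
    congr 1
    ext t
    congr 1
    ring

theorem trunc_cont (c : ℤ → ℂ) (N : ℕ) : Continuous (trunc c N) := by
  unfold trunc
  fun_prop

theorem pars (c : ℤ → ℂ) (N : ℕ) : ∫ t in (0 : ℝ)..2 * π, ‖trunc c N t‖ ^ 2 =
    2 * π * ∑ n ∈ Finset.Icc (-(N : ℤ)) N, ‖c n‖ ^ 2 := by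
  have h1 : ∀ t : ℝ, ((‖trunc c N t‖ ^ 2 : ℝ) : ℂ) =
      ∑ n ∈ Finset.Icc (-(N : ℤ)) N, ∑ m ∈ Finset.Icc (-(N : ℤ)) N,
        c n * (starRingEnd ℂ) (c m) * Complex.exp (((n - m : ℤ) : ℂ) * t * Complex.I) := by
    intro t
    have h2 : ((‖trunc c N t‖ ^ 2 : ℝ) : ℂ) = trunc c N t * (starRingEnd ℂ) (trunc c N t) := by
      rw [Complex.mul_conj, Complex.normSq_eq_norm_sq]
    rw [h2]
    simp only [trunc]
    rw [map_sum, Finset.sum_mul_sum]
    refine Finset.sum_congr rfl fun n _ => Finset.sum_congr rfl fun m _ => ?_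
    rw [map_mul, ← Complex.exp_conj]
    simp only [map_mul, Complex.conj_ofReal, Complex.conj_I, map_intCast]
    have h3 : Complex.exp (((n - m : ℤ) : ℂ) * t * Complex.I) =
        Complex.exp ((n : ℂ) * t * Complex.I) * Complex.exp ((m : ℂ) * t * -Complex.I) := by
      rw [← Complex.exp_add]
      congr 1
      push_cast
      ring
    rw [h3]
    ring
  have h4 : ((∫ t in (0 : ℝ)..2 * π, ‖trunc c N t‖ ^ 2 : ℝ) : ℂ) =
      ((2 * π * ∑ n ∈ Finset.Icc (-(N : ℤ)) N, ‖c n‖ ^ 2 : ℝ) : ℂ) := by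
    rw [← intervalIntegral.integral_ofReal]
    simp_rw [h1]
    rw [intervalIntegral.integral_finsetSum]
    · have h5 : ∀ n ∈ Finset.Icc (-(N : ℤ)) N,
          ∫ t in (0 : ℝ)..2 * π, ∑ m ∈ Finset.Icc (-(N : ℤ)) N,
            c n * (starRingEnd ℂ) (c m) * Complex.exp (((n - m : ℤ) : ℂ) * t * Complex.I) =
          2 * π * ((‖c n‖ ^ 2 : ℝ) : ℂ) := by
        intro n hn
        rw [intervalIntegral.integral_finsetSum]
        · have h6 : ∀ m ∈ Finset.Icc (-(N : ℤ)) N, ∫ t in (0 : ℝ)..2 * π,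
              c n * (starRingEnd ℂ) (c m) * Complex.exp (((n - m : ℤ) : ℂ) * t * Complex.I) =
              if n = m then 2 * π * (c n * (starRingEnd ℂ) (c m)) else 0 := by
            intro m _
            rw [intervalIntegral.integral_const_mul, int_exp]
            by_cases h : n = m
            · subst h
              simp
              ring
            · rw [if_neg h, if_neg (by omega)]
              simp
          rw [Finset.sum_congr rfl h6, Finset.sum_ite_eq, if_pos hn, Complex.mul_conj,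
            Complex.normSq_eq_norm_sq]
        · intro m _
          exact Continuous.intervalIntegrable (by fun_prop) _ _
      rw [Finset.sum_congr rfl h5, ← Finset.mul_sum]
      push_cast
      ring
    · intro n _
      exact Continuous.intervalIntegrable (by fun_prop) _ _
  exact_mod_cast h4

theorem dif_real {K r : ℝ} {φ : ℂ → ℂ} (D : Dif K r φ) (t : ℝ) : φ t = ((φ t).re : ℂ) := by
  apply Complex.ext
  · simp
  · simp [D.re t]

/-- change of variables -/
theorem cov {K r : ℝ} {φ : ℂ → ℂ} (hK : 1 ≤ K) (hr : 0 < r) (D : Dif K r φ) {g : ℝ → ℝ}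
    (hg : Continuous g) (hp : ∀ x, g (x + 2 * π) = g x) (h0 : ∀ x, 0 ≤ g x) :
    ∫ t in (0 : ℝ)..2 * π, g (φ t).re ≤ K * ∫ t in (0 : ℝ)..2 * π, g t := by
  have hK0 : 0 < K := by linarith
  have hder : ∀ t : ℝ, HasDerivAt (fun x : ℝ => (φ x).re) (deriv φ t).re t := by
    intro t
    have h1 : HasDerivAt φ (deriv φ t) (t : ℂ) :=
      (D.hol.differentiableAt ((isOpen_strip r).mem_nhds (real_mem hr t))).hasDerivAt
    exact h1.real_of_complex
  have hdc : Continuous fun t : ℝ => (deriv φ t).re :=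
    Complex.continuous_re.comp (cont_real (D.hol.deriv (isOpen_strip r)) hr)
  have hφc : Continuous fun t : ℝ => (φ t).re :=
    Complex.continuous_re.comp (cont_real D.hol hr)
  have h1 : ∫ t in (0 : ℝ)..2 * π, g (φ t).re ≤
      ∫ t in (0 : ℝ)..2 * π, K * (g (φ t).re * (deriv φ t).re) := by
    apply intervalIntegral.integral_mono_on (by positivity)
    · exact (hg.comp hφc).intervalIntegrable _ _
    · exact (continuous_const.mul ((hg.comp hφc).mul hdc)).intervalIntegrable _ _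
    · intro t _
      have h2 := D.lo t
      have h3 : 1 ≤ K * (deriv φ t).re := by
        rw [div_le_iff₀ hK0] at h2
        linarith
      have h4 := h0 (φ t).re
      nlinarith
  refine h1.trans (le_of_eq ?_)
  rw [intervalIntegral.integral_const_mul]
  congr 1
  have h2 := intervalIntegral.integral_comp_mul_deriv (a := 0) (b := 2 * π)
    (f := fun x : ℝ => (φ x).re) (f' := fun t : ℝ => (deriv φ t).re) (g := g)
    (fun x _ => hder x) hdc.continuousOn hg
  simp only [Function.comp] at h2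
  rw [h2]
  have h3 : (φ ((2 * π : ℝ) : ℂ)).re = (φ ((0 : ℝ) : ℂ)).re + 2 * π := by
    have h4 := D.per ((0 : ℝ) : ℂ)
    have h5 : ((2 * π : ℝ) : ℂ) = ((0 : ℝ) : ℂ) + 2 * π := by
      push_cast
      ring
    rw [h5, h4]
    simp
  rw [h3]
  have h6 : Function.Periodic g (2 * π) := hp
  rw [h6.intervalIntegral_add_eq (φ ((0 : ℝ) : ℂ)).re 0]
  simp


/-- partial Taylor sum -/
noncomputable def tay (c : ℤ → ℂ) (N J : ℕ) (z η : ℂ) : ℂ :=
  ∑ j ∈ Finset.range J, η ^ j / (j.factorial : ℂ) *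
    trunc (fun n => ((n : ℂ) * Complex.I) ^ j * c n) N z

theorem tay_eq (c : ℤ → ℂ) (N J : ℕ) (z η : ℂ) : tay c N J z η =
    ∑ n ∈ Finset.Icc (-(N : ℤ)) N, c n * Complex.exp (n * z * Complex.I) *
      ∑ j ∈ Finset.range J, ((n : ℂ) * Complex.I * η) ^ j / (j.factorial : ℂ) := by
  unfold tay trunc
  simp_rw [Finset.mul_sum]
  rw [Finset.sum_comm]
  refine Finset.sum_congr rfl fun n _ => Finset.sum_congr rfl fun j _ => ?_
  rw [mul_pow _ η]
  ring

theorem tay_tendsto (c : ℤ → ℂ) (N : ℕ) (z η : ℂ) :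
    Filter.Tendsto (fun J => tay c N J z η) Filter.atTop (nhds (trunc c N (z + η))) := by
  simp_rw [tay_eq]
  have h1 : trunc c N (z + η) = ∑ n ∈ Finset.Icc (-(N : ℤ)) N,
      c n * Complex.exp (n * z * Complex.I) * Complex.exp ((n : ℂ) * Complex.I * η) := by
    unfold trunc
    refine Finset.sum_congr rfl fun n _ => ?_
    conv_rhs => rw [mul_assoc, ← Complex.exp_add]
    congr 2
    ring
  rw [h1]
  refine tendsto_finsetSum _ fun n _ => ?_
  have h2 := NormedSpace.expSeries_div_hasSum_exp ((n : ℂ) * Complex.I * η)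
  rw [← Complex.exp_eq_exp_ℂ] at h2
  exact h2.tendsto_sum_nat.const_mul _

theorem tay_sq (c : ℤ → ℂ) (N J : ℕ) (hN : 1 ≤ N) (z η : ℂ) (hη : ‖η‖ ≤ 1 / (2 * N)) :
    ‖tay c N J z η‖ ^ 2 ≤ (∑ j ∈ Finset.range J, (1 / 2 : ℝ) ^ j / (j.factorial : ℝ)) *
      ∑ j ∈ Finset.range J, (1 / 2 : ℝ) ^ j / (j.factorial : ℝ) *
        (‖trunc (fun n => ((n : ℂ) * Complex.I) ^ j * c n) N z‖ / (N : ℝ) ^ j) ^ 2 := by
  have hN0 : (0 : ℝ) < N := by exact_mod_cast hN
  have h1 : ‖tay c N J z η‖ ≤ ∑ j ∈ Finset.range J, (1 / 2 : ℝ) ^ j / (j.factorial : ℝ) *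
        (‖trunc (fun n => ((n : ℂ) * Complex.I) ^ j * c n) N z‖ / (N : ℝ) ^ j) := by
    unfold tay
    refine (norm_sum_le _ _).trans (Finset.sum_le_sum fun j _ => ?_)
    rw [norm_mul, norm_div, norm_pow, Complex.norm_natCast]
    have h2 : ‖η‖ ^ j ≤ (1 / (2 * N)) ^ j := pow_le_pow_left₀ (norm_nonneg _) hη j
    have h3 : ((1 : ℝ) / (2 * N)) ^ j = (1 / 2 : ℝ) ^ j / (N : ℝ) ^ j := by
      rw [← div_pow]
      congr 1
      field_simp
    rw [h3] at h2
    have h4 : (0 : ℝ) < j.factorial := by exact_mod_cast j.factorial_pos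
    calc ‖η‖ ^ j / (j.factorial : ℝ) * ‖trunc (fun n => ((n : ℂ) * Complex.I) ^ j * c n) N z‖
        ≤ ((1 / 2 : ℝ) ^ j / (N : ℝ) ^ j) / (j.factorial : ℝ) *
          ‖trunc (fun n => ((n : ℂ) * Complex.I) ^ j * c n) N z‖ := by gcongr
      _ = _ := by
        ring
  have h5 : ‖tay c N J z η‖ ^ 2 ≤ (∑ j ∈ Finset.range J, (1 / 2 : ℝ) ^ j / (j.factorial : ℝ) *
        (‖trunc (fun n => ((n : ℂ) * Complex.I) ^ j * c n) N z‖ / (N : ℝ) ^ j)) ^ 2 :=
    pow_le_pow_left₀ (norm_nonneg _) h1 2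
  refine h5.trans ?_
  apply Finset.sum_sq_le_sum_mul_sum_of_sq_le_mul
  · intro j _
    positivity
  · intro j _
    positivity
  · intro j _
    exact le_of_eq (by ring)

theorem half_sum_le (J : ℕ) :
    ∑ j ∈ Finset.range J, (1 / 2 : ℝ) ^ j / (j.factorial : ℝ) ≤ Real.exp (1 / 2) :=
  Real.sum_le_exp_of_nonneg (by norm_num) J

theorem half_sum_nonneg (J : ℕ) :
    0 ≤ ∑ j ∈ Finset.range J, (1 / 2 : ℝ) ^ j / (j.factorial : ℝ) :=
  Finset.sum_nonneg fun j _ => by positivity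

theorem trunc_real_le (c : ℤ → ℂ) (N j : ℕ) (hN : 1 ≤ N) (x : ℝ) :
    ‖trunc (fun n => ((n : ℂ) * Complex.I) ^ j * c n) N x‖ / (N : ℝ) ^ j ≤
      ∑ n ∈ Finset.Icc (-(N : ℤ)) N, ‖c n‖ := by
  have hN0 : (0 : ℝ) < N := by exact_mod_cast hN
  rw [div_le_iff₀ (by positivity), Finset.sum_mul]
  unfold trunc
  refine (norm_sum_le _ _).trans (Finset.sum_le_sum fun n hn => ?_)
  have h1 : ‖Complex.exp ((n : ℂ) * x * Complex.I)‖ = 1 := by
    have := Complex.norm_exp_ofReal_mul_I ((n : ℝ) * x)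
    push_cast at this
    exact this
  rw [norm_mul, h1, mul_one, norm_mul, norm_pow, norm_mul, Complex.norm_I, mul_one,
    mul_comm]
  gcongr
  rw [Finset.mem_Icc] at hn
  rw [Complex.norm_intCast]
  rw [abs_le]
  exact ⟨by exact_mod_cast hn.1, by exact_mod_cast hn.2⟩

theorem trunc_per (c : ℤ → ℂ) (N : ℕ) (x : ℝ) : trunc c N ((x + 2 * π : ℝ) : ℂ) = trunc c N x := by
  unfold trunc
  refine Finset.sum_congr rfl fun n _ => ?_
  congr 1
  have h : (n : ℂ) * ((x + 2 * π : ℝ) : ℂ) * Complex.I =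
      n * x * Complex.I + n * (2 * π * Complex.I) := by
    push_cast
    ring
  rw [h, Complex.exp_add, Complex.exp_int_mul_two_pi_mul_I, mul_one]

/-- one Taylor term -/
theorem term_le {K r M : ℝ} {N : ℕ} {φ : ℂ → ℂ} {c : ℤ → ℂ} (hK : 1 ≤ K) (hN : 1 ≤ N)
    (hr : 0 < r) (D : Dif K r φ)
    (hc : ∑ n ∈ Finset.Icc (-(N : ℤ)) N, ‖c n‖ ^ 2 ≤ M ^ 2) (j : ℕ) :
    ∫ t in (0 : ℝ)..2 * π,
      (‖trunc (fun n => ((n : ℂ) * Complex.I) ^ j * c n) N (φ t)‖ / (N : ℝ) ^ j) ^ 2 ≤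
      K * (2 * π * M ^ 2) := by
  have hN0 : (0 : ℝ) < N := by exact_mod_cast hN
  have h1 := cov hK hr D (g := fun x : ℝ =>
    (‖trunc (fun n => ((n : ℂ) * Complex.I) ^ j * c n) N x‖ / (N : ℝ) ^ j) ^ 2)
    (by
      have := (trunc_cont (fun n => ((n : ℂ) * Complex.I) ^ j * c n) N).comp
        Complex.continuous_ofReal
      simp only [Function.comp_def] at this
      fun_prop)
    (by
      intro x
      rw [trunc_per])
    (fun x => by positivity)
  have h2 : ∀ t : ℝ, (fun x : ℝ =>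
      (‖trunc (fun n => ((n : ℂ) * Complex.I) ^ j * c n) N x‖ / (N : ℝ) ^ j) ^ 2) (φ t).re =
      (‖trunc (fun n => ((n : ℂ) * Complex.I) ^ j * c n) N (φ t)‖ / (N : ℝ) ^ j) ^ 2 := by
    intro t
    simp only
    rw [← dif_real D t]
  simp_rw [h2] at h1
  refine h1.trans ?_
  gcongr
  simp only [div_pow]
  rw [intervalIntegral.integral_div, pars, div_le_iff₀ (by positivity), mul_assoc, mul_assoc]
  have h3 : ∑ n ∈ Finset.Icc (-(N : ℤ)) N, ‖((n : ℂ) * Complex.I) ^ j * c n‖ ^ 2 ≤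
      M ^ 2 * ((N : ℝ) ^ j) ^ 2 := by
    calc ∑ n ∈ Finset.Icc (-(N : ℤ)) N, ‖((n : ℂ) * Complex.I) ^ j * c n‖ ^ 2
        ≤ ∑ n ∈ Finset.Icc (-(N : ℤ)) N, ‖c n‖ ^ 2 * ((N : ℝ) ^ j) ^ 2 := by
          refine Finset.sum_le_sum fun n hn => ?_
          rw [norm_mul, norm_pow, norm_mul, Complex.norm_I, mul_one, mul_pow, mul_comm]
          have h4 : ‖(n : ℂ)‖ ≤ N := by
            rw [Finset.mem_Icc] at hn
            rw [Complex.norm_intCast, abs_le]
            exact ⟨by exact_mod_cast hn.1, by exact_mod_cast hn.2⟩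
          gcongr
      _ = (∑ n ∈ Finset.Icc (-(N : ℤ)) N, ‖c n‖ ^ 2) * ((N : ℝ) ^ j) ^ 2 := by
          rw [Finset.sum_mul]
      _ ≤ _ := by gcongr
  have hπ := Real.pi_pos
  nlinarith

theorem dif_conv {K r θ : ℝ} {φ φ' : ℂ → ℂ} (hr : 0 < r) (D : Dif K r φ) (D' : Dif K r φ')
    (h0 : 0 ≤ θ) (h1 : θ ≤ 1) : Dif K r (fun z => φ' z + (θ : ℂ) * (φ z - φ' z)) := by
  have hder : ∀ z ∈ Strip r, HasDerivAt (fun z => φ' z + (θ : ℂ) * (φ z - φ' z))
      (deriv φ' z + (θ : ℂ) * (deriv φ z - deriv φ' z)) z := by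
    intro z hz
    have e1 : HasDerivAt φ (deriv φ z) z :=
      (D.hol.differentiableAt ((isOpen_strip r).mem_nhds hz)).hasDerivAt
    have e2 : HasDerivAt φ' (deriv φ' z) z :=
      (D'.hol.differentiableAt ((isOpen_strip r).mem_nhds hz)).hasDerivAt
    exact e2.add ((e1.sub e2).const_mul _)
  refine ⟨fun z hz => (hder z hz).differentiableAt.differentiableWithinAt, ?_, ?_, ?_, ?_⟩
  · intro z
    simp only [D.per z, D'.per z]
    ring
  · intro t
    simp [D.re t, D'.re t]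
  · intro t
    rw [(hder t (real_mem hr t)).deriv]
    have e1 := D.lo t
    have e2 := D'.lo t
    simp only [Complex.add_re, Complex.mul_re, Complex.ofReal_re, Complex.sub_re,
      Complex.ofReal_im, zero_mul, sub_zero]
    nlinarith
  · intro z hz
    rw [(hder z hz).deriv]
    have e1 := D.bd z hz
    have e2 := D'.bd z hz
    have e3 : deriv φ' z + (θ : ℂ) * (deriv φ z - deriv φ' z) =
        ((1 - θ : ℝ) : ℂ) * deriv φ' z + (θ : ℂ) * deriv φ z := by
      push_cast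
      ring
    rw [e3]
    refine (norm_add_le _ _).trans ?_
    rw [norm_mul, norm_mul, Complex.norm_real, Complex.norm_real, Real.norm_of_nonneg h0,
      Real.norm_of_nonneg (by linarith : (0 : ℝ) ≤ 1 - θ)]
    nlinarith

theorem trunc_hasDeriv (c : ℤ → ℂ) (N : ℕ) (z : ℂ) :
    HasDerivAt (trunc c N) (trunc (fun n => (n : ℂ) * Complex.I * c n) N z) z := by
  unfold trunc
  apply HasDerivAt.fun_sum
  intro n _
  have h1 : HasDerivAt (fun w : ℂ => (n : ℂ) * w * Complex.I) ((n : ℂ) * Complex.I) z := by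
    have := ((hasDerivAt_id z).const_mul (n : ℂ)).mul_const Complex.I
    simpa using this
  have h2 := (h1.cexp).const_mul (c n)
  exact h2.congr_deriv (by ring)

theorem sq_int_le {g : ℝ → ℝ} (hg : Continuous g) :
    (∫ θ in (0 : ℝ)..1, g θ) ^ 2 ≤ ∫ θ in (0 : ℝ)..1, g θ ^ 2 := by
  set m : ℝ := ∫ θ in (0 : ℝ)..1, g θ with hm
  have h1 : 0 ≤ ∫ θ in (0 : ℝ)..1, (g θ - m) ^ 2 :=
    intervalIntegral.integral_nonneg (by norm_num) fun θ _ => sq_nonneg _
  have h2 : ∫ θ in (0 : ℝ)..1, (g θ - m) ^ 2 =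
      (∫ θ in (0 : ℝ)..1, g θ ^ 2) - (2 * m * ∫ θ in (0 : ℝ)..1, g θ) + m ^ 2 := by
    have h3 : ∀ θ, (g θ - m) ^ 2 = g θ ^ 2 - 2 * m * g θ + m ^ 2 := fun θ => by ring
    simp_rw [h3]
    rw [intervalIntegral.integral_add, intervalIntegral.integral_sub,
      intervalIntegral.integral_const_mul]
    · simp
    · exact Continuous.intervalIntegrable (by fun_prop) _ _
    · exact Continuous.intervalIntegrable (by fun_prop) _ _
    · exact Continuous.intervalIntegrable (by fun_prop) _ _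
    · exact Continuous.intervalIntegrable (by fun_prop) _ _
  rw [← hm] at h2
  nlinarith

/-- pointwise: difference of a trigonometric polynomial at two points -/
theorem trunc_diff_le (c : ℤ → ℂ) (N : ℕ) (A B : ℂ) {d : ℝ} (hd : ‖A - B‖ ≤ d) :
    ‖trunc c N A - trunc c N B‖ ^ 2 ≤ d ^ 2 * ∫ θ in (0 : ℝ)..1,
      ‖trunc (fun n => (n : ℂ) * Complex.I * c n) N (B + (θ : ℂ) * (A - B))‖ ^ 2 := by
  have hd0 : 0 ≤ d := (norm_nonneg _).trans hd
  have hc : Continuous fun θ : ℝ =>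
      trunc (fun n => (n : ℂ) * Complex.I * c n) N (B + (θ : ℂ) * (A - B)) :=
    (trunc_cont _ N).comp (by fun_prop)
  have hder : ∀ θ ∈ Set.uIcc (0 : ℝ) 1,
      HasDerivAt (fun θ : ℝ => trunc c N (B + (θ : ℂ) * (A - B)))
        (trunc (fun n => (n : ℂ) * Complex.I * c n) N (B + (θ : ℂ) * (A - B)) * (A - B)) θ := by
    intro θ _
    have h1 : HasDerivAt (fun w : ℂ => B + w * (A - B)) (A - B) (θ : ℂ) := by
      simpa using ((hasDerivAt_id (θ : ℂ)).mul_const (A - B)).const_add B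
    have h2 := (trunc_hasDeriv c N (B + (θ : ℂ) * (A - B))).comp (θ : ℂ) h1
    exact h2.comp_ofReal
  have h1 := intervalIntegral.integral_eq_sub_of_hasDerivAt hder
    ((hc.mul continuous_const).intervalIntegrable _ _)
  have h2 : trunc c N A - trunc c N B = ∫ θ in (0 : ℝ)..1,
      trunc (fun n => (n : ℂ) * Complex.I * c n) N (B + (θ : ℂ) * (A - B)) * (A - B) := by
    rw [h1]
    simp
  rw [h2]
  have h3 : ‖∫ θ in (0 : ℝ)..1,
      trunc (fun n => (n : ℂ) * Complex.I * c n) N (B + (θ : ℂ) * (A - B)) * (A - B)‖ ≤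
      d * ∫ θ in (0 : ℝ)..1,
      ‖trunc (fun n => (n : ℂ) * Complex.I * c n) N (B + (θ : ℂ) * (A - B))‖ := by
    refine (intervalIntegral.norm_integral_le_integral_norm (by norm_num)).trans ?_
    rw [← intervalIntegral.integral_const_mul]
    apply intervalIntegral.integral_mono_on (by norm_num)
    · exact Continuous.intervalIntegrable (by fun_prop) _ _
    · exact Continuous.intervalIntegrable (by fun_prop) _ _
    · intro θ _
      rw [norm_mul, mul_comm]
      gcongr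
  have h4 := sq_int_le (g := fun θ : ℝ =>
    ‖trunc (fun n => (n : ℂ) * Complex.I * c n) N (B + (θ : ℂ) * (A - B))‖) hc.norm
  calc _ ≤ (d * ∫ θ in (0 : ℝ)..1,
        ‖trunc (fun n => (n : ℂ) * Complex.I * c n) N (B + (θ : ℂ) * (A - B))‖) ^ 2 :=
        pow_le_pow_left₀ (norm_nonneg _) h3 2
    _ = d ^ 2 * (∫ θ in (0 : ℝ)..1,
        ‖trunc (fun n => (n : ℂ) * Complex.I * c n) N (B + (θ : ℂ) * (A - B))‖) ^ 2 := by ring
    _ ≤ _ := by gcongr

end Pool.Agent.MP_b87ea9_an.Kam.A5
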