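import Mathlib
import Pool.Agent.Lib.MP_b87ea9_an.KDefs
import Pool.Agent.Lib.MP_b87ea9_an.KDefs2
import Pool.Agent.Lib.MP_b87ea9_an.KA1
import Pool.Agent.Lib.MP_b87ea9_an.KA5a

set_option autoImplicit false

/-! composition of `L²` trigonometric polynomials with diffeomorphisms -/

namespace Pool.Agent.MP_b87ea9_an.Kam

open Real MeasureTheory A5

theorem comp_HN {K r M : ℝ} {N : ℕ} {φ : ℂ → ℂ} {c : ℤ → ℂ} (hK : 1 ≤ K) (hN : 1 ≤ N)
    (hr : 0 < r) (hrN : r * (4 * K * N) ≤ 1) (D : Dif K r φ) (hM : 0 ≤ M)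
    (hc : ∑ n ∈ Finset.Icc (-(N : ℤ)) N, ‖c n‖ ^ 2 ≤ M ^ 2) :
    HN r (fun z => trunc c N (φ z)) (2 * K * M) := by
  intro y hy
  have hN0 : (0 : ℝ) < N := by exact_mod_cast hN
  have hK0 : 0 < K := by linarith
  have hπ := Real.pi_pos
  set η : ℝ → ℂ := fun t => φ (t + y * Complex.I) - φ t with hηdef
  have hη : ∀ t, ‖η t‖ ≤ 1 / (2 * N) := by
    intro t
    have h1 := bd_lip D.hol D.bd (line_mem hy t) (real_mem hr t)
    have h2 : ‖(t : ℂ) + y * Complex.I - t‖ = |y| := by
      rw [add_sub_cancel_left, norm_mul, Complex.norm_I, mul_one, Complex.norm_real,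
        Real.norm_eq_abs]
    rw [h2] at h1
    refine h1.trans ?_
    rw [le_div_iff₀ (by positivity)]
    have h3 : |y| * (4 * K * N) ≤ r * (4 * K * N) := by gcongr
    nlinarith
  have hφc : Continuous fun t : ℝ => φ t := cont_real D.hol hr
  have hφy : Continuous fun t : ℝ => φ (t + y * Complex.I) := cont_line D.hol hy
  have hηc : Continuous η := hφy.sub hφc
  have htc : ∀ J, Continuous fun t : ℝ => ‖tay c N J (φ t) (η t)‖ ^ 2 := by
    intro J
    unfold tay
    have h1 : ∀ j : ℕ, Continuous fun t : ℝ =>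
        trunc (fun n => ((n : ℂ) * Complex.I) ^ j * c n) N (φ t) :=
      fun j => (trunc_cont _ N).comp hφc
    fun_prop
  have hgc : ∀ j : ℕ, Continuous fun t : ℝ =>
      (‖trunc (fun n => ((n : ℂ) * Complex.I) ^ j * c n) N (φ t)‖ / (N : ℝ) ^ j) ^ 2 := by
    intro j
    have h1 : Continuous fun t : ℝ =>
        trunc (fun n => ((n : ℂ) * Complex.I) ^ j * c n) N (φ t) := (trunc_cont _ N).comp hφc
    fun_prop
  -- the bound for the partial sums
  have hJ : ∀ J : ℕ, ∫ t in (0 : ℝ)..2 * π, ‖tay c N J (φ t) (η t)‖ ^ 2 ≤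
      Real.exp (1 / 2) * (Real.exp (1 / 2) * (K * (2 * π * M ^ 2))) := by
    intro J
    calc ∫ t in (0 : ℝ)..2 * π, ‖tay c N J (φ t) (η t)‖ ^ 2
        ≤ ∫ t in (0 : ℝ)..2 * π,
          (∑ j ∈ Finset.range J, (1 / 2 : ℝ) ^ j / (j.factorial : ℝ)) *
          ∑ j ∈ Finset.range J, (1 / 2 : ℝ) ^ j / (j.factorial : ℝ) *
            (‖trunc (fun n => ((n : ℂ) * Complex.I) ^ j * c n) N (φ t)‖ / (N : ℝ) ^ j) ^ 2 := by
          apply intervalIntegral.integral_mono_on (by positivity)
          · exact (htc J).intervalIntegrable _ _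
          · exact Continuous.intervalIntegrable (by fun_prop) _ _
          · intro t _
            exact tay_sq c N J hN _ _ (hη t)
      _ = (∑ j ∈ Finset.range J, (1 / 2 : ℝ) ^ j / (j.factorial : ℝ)) *
          ∑ j ∈ Finset.range J, (1 / 2 : ℝ) ^ j / (j.factorial : ℝ) *
            ∫ t in (0 : ℝ)..2 * π,
            (‖trunc (fun n => ((n : ℂ) * Complex.I) ^ j * c n) N (φ t)‖ / (N : ℝ) ^ j) ^ 2 := by
          rw [intervalIntegral.integral_const_mul, intervalIntegral.integral_finsetSum]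
          · simp_rw [intervalIntegral.integral_const_mul]
          · intro j _
            exact Continuous.intervalIntegrable (by fun_prop) _ _
      _ ≤ (∑ j ∈ Finset.range J, (1 / 2 : ℝ) ^ j / (j.factorial : ℝ)) *
          ∑ j ∈ Finset.range J, (1 / 2 : ℝ) ^ j / (j.factorial : ℝ) *
            (K * (2 * π * M ^ 2)) := by
          apply mul_le_mul_of_nonneg_left _ (half_sum_nonneg J)
          refine Finset.sum_le_sum fun j _ => ?_
          apply mul_le_mul_of_nonneg_left (term_le hK hN hr D hc j) (by positivity)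
      _ = (∑ j ∈ Finset.range J, (1 / 2 : ℝ) ^ j / (j.factorial : ℝ)) *
          ((∑ j ∈ Finset.range J, (1 / 2 : ℝ) ^ j / (j.factorial : ℝ)) *
            (K * (2 * π * M ^ 2))) := by rw [← Finset.sum_mul]
      _ ≤ _ := by
          have h1 := half_sum_le J
          have h2 := half_sum_nonneg J
          gcongr
  -- dominated convergence
  have hlim : Filter.Tendsto (fun J : ℕ => ∫ t in (0 : ℝ)..2 * π, ‖tay c N J (φ t) (η t)‖ ^ 2)
      Filter.atTop (nhds (∫ t in (0 : ℝ)..2 * π, ‖trunc c N (φ (t + y * Complex.I))‖ ^ 2)) := by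
    apply intervalIntegral.tendsto_integral_filter_of_dominated_convergence
      (fun _ => Real.exp (1 / 2) * (Real.exp (1 / 2) *
        (∑ n ∈ Finset.Icc (-(N : ℤ)) N, ‖c n‖) ^ 2))
    · exact Filter.Eventually.of_forall fun J => (htc J).aestronglyMeasurable
    · refine Filter.Eventually.of_forall fun J => Filter.Eventually.of_forall fun t _ => ?_
      rw [Real.norm_of_nonneg (by positivity)]
      refine (tay_sq c N J hN _ _ (hη t)).trans ?_
      have h1 := half_sum_le J
      have h2 := half_sum_nonneg J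
      have h3 : ∑ j ∈ Finset.range J, (1 / 2 : ℝ) ^ j / (j.factorial : ℝ) *
            (‖trunc (fun n => ((n : ℂ) * Complex.I) ^ j * c n) N (φ t)‖ / (N : ℝ) ^ j) ^ 2 ≤
          Real.exp (1 / 2) * (∑ n ∈ Finset.Icc (-(N : ℤ)) N, ‖c n‖) ^ 2 := by
        calc _ ≤ ∑ j ∈ Finset.range J, (1 / 2 : ℝ) ^ j / (j.factorial : ℝ) *
              (∑ n ∈ Finset.Icc (-(N : ℤ)) N, ‖c n‖) ^ 2 := by
              refine Finset.sum_le_sum fun j _ => ?_
              have h4 := trunc_real_le c N j hN (φ t).re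
              rw [← dif_real D t] at h4
              gcongr
          _ = (∑ j ∈ Finset.range J, (1 / 2 : ℝ) ^ j / (j.factorial : ℝ)) *
              (∑ n ∈ Finset.Icc (-(N : ℤ)) N, ‖c n‖) ^ 2 := by rw [Finset.sum_mul]
          _ ≤ _ := by gcongr
      gcongr
    · exact intervalIntegrable_const
    · refine Filter.Eventually.of_forall fun t _ => ?_
      have h1 := tay_tendsto c N (φ t) (η t)
      have h2 : φ t + η t = φ (t + y * Complex.I) := by
        rw [hηdef]
        ring
      rw [h2] at h1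
      exact (h1.norm).pow 2
  have hfin := le_of_tendsto' hlim hJ
  refine hfin.trans ?_
  have he : Real.exp (1 / 2) * Real.exp (1 / 2) ≤ 4 := by
    rw [← Real.exp_add]
    have : Real.exp (1 / 2 + 1 / 2) = Real.exp 1 := by norm_num
    rw [this]
    linarith [Real.exp_one_lt_d9]
  have h1 : Real.exp (1 / 2) * (Real.exp (1 / 2) * (K * (2 * π * M ^ 2))) =
      (Real.exp (1 / 2) * Real.exp (1 / 2)) * (K * (2 * π * M ^ 2)) := by ring
  rw [h1]
  calc (Real.exp (1 / 2) * Real.exp (1 / 2)) * (K * (2 * π * M ^ 2))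
      ≤ 4 * (K * (2 * π * M ^ 2)) := by gcongr
    _ ≤ 4 * ((K * K) * (2 * π * M ^ 2)) := by
        gcongr
        nlinarith
    _ = 2 * π * (2 * K * M) ^ 2 := by ring


theorem comp_diff_HN {K r M d : ℝ} {N : ℕ} {φ φ' : ℂ → ℂ} {c : ℤ → ℂ} (hK : 1 ≤ K) (hN : 1 ≤ N)
    (hr : 0 < r) (hrN : r * (4 * K * N) ≤ 1) (D : Dif K r φ) (D' : Dif K r φ') (hM : 0 ≤ M)
    (hd : ∀ z ∈ Strip r, ‖φ z - φ' z‖ ≤ d)
    (hc : ∑ n ∈ Finset.Icc (-(N : ℤ)) N, ‖c n‖ ^ 2 ≤ M ^ 2) :
    HN r (fun z => trunc c N (φ z) - trunc c N (φ' z)) (2 * K * (N * M) * d) := by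
  intro y hy
  have hπ := Real.pi_pos
  have hφ : Continuous fun t : ℝ => φ (t + y * Complex.I) := cont_line D.hol hy
  have hφ' : Continuous fun t : ℝ => φ' (t + y * Complex.I) := cont_line D'.hol hy
  set c' : ℤ → ℂ := fun n => (n : ℂ) * Complex.I * c n with hc'
  have hc'M : ∑ n ∈ Finset.Icc (-(N : ℤ)) N, ‖c' n‖ ^ 2 ≤ ((N : ℝ) * M) ^ 2 := by
    calc ∑ n ∈ Finset.Icc (-(N : ℤ)) N, ‖c' n‖ ^ 2
        ≤ ∑ n ∈ Finset.Icc (-(N : ℤ)) N, (N : ℝ) ^ 2 * ‖c n‖ ^ 2 := by
          refine Finset.sum_le_sum fun n hn => ?_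
          rw [hc']
          simp only [norm_mul, Complex.norm_I, mul_one, mul_pow]
          have h4 : ‖(n : ℂ)‖ ≤ N := by
            rw [Finset.mem_Icc] at hn
            rw [Complex.norm_intCast, abs_le]
            exact ⟨by exact_mod_cast hn.1, by exact_mod_cast hn.2⟩
          gcongr
      _ = (N : ℝ) ^ 2 * ∑ n ∈ Finset.Icc (-(N : ℤ)) N, ‖c n‖ ^ 2 := by rw [Finset.mul_sum]
      _ ≤ (N : ℝ) ^ 2 * M ^ 2 := by gcongr
      _ = _ := by ring
  obtain ⟨G, hG⟩ : ∃ G : ℝ → ℝ → ℝ, ∀ t θ : ℝ, G t θ = ‖trunc c' N (φ' (t + y * Complex.I) +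
        (θ : ℂ) * (φ (t + y * Complex.I) - φ' (t + y * Complex.I)))‖ ^ 2 :=
    ⟨_, fun _ _ => rfl⟩
  have hcont : Continuous (Function.uncurry G) := by
    have h1 : Continuous fun p : ℝ × ℝ => φ (p.1 + y * Complex.I) := hφ.comp continuous_fst
    have h2 : Continuous fun p : ℝ × ℝ => φ' (p.1 + y * Complex.I) := hφ'.comp continuous_fst
    have h3 : Continuous fun p : ℝ × ℝ => trunc c' N (φ' (p.1 + y * Complex.I) +
        (p.2 : ℂ) * (φ (p.1 + y * Complex.I) - φ' (p.1 + y * Complex.I))) :=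
      (trunc_cont c' N).comp
        (h2.add ((Complex.continuous_ofReal.comp continuous_snd).mul (h1.sub h2)))
    have h4 : Function.uncurry G = fun p : ℝ × ℝ =>
        ‖trunc c' N (φ' (p.1 + y * Complex.I) +
        (p.2 : ℂ) * (φ (p.1 + y * Complex.I) - φ' (p.1 + y * Complex.I)))‖ ^ 2 := by
      funext p
      exact hG p.1 p.2
    rw [h4]
    exact h3.norm.pow 2
  calc ∫ t in (0 : ℝ)..2 * π, ‖trunc c N (φ (t + y * Complex.I)) -
        trunc c N (φ' (t + y * Complex.I))‖ ^ 2
      ≤ ∫ t in (0 : ℝ)..2 * π, d ^ 2 * ∫ θ in (0 : ℝ)..1, G t θ := by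
        apply intervalIntegral.integral_mono_on (by positivity)
        · have h1 : Continuous fun t : ℝ => trunc c N (φ (t + y * Complex.I)) :=
            (trunc_cont _ N).comp hφ
          have h2 : Continuous fun t : ℝ => trunc c N (φ' (t + y * Complex.I)) :=
            (trunc_cont _ N).comp hφ'
          exact ((h1.sub h2).norm.pow 2).intervalIntegrable _ _
        · exact (continuous_const.mul
            (intervalIntegral.continuous_parametric_intervalIntegral_of_continuous' hcont 0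
              1)).intervalIntegrable _ _
        · intro t _
          simp_rw [hG]
          exact trunc_diff_le c N _ _ (hd _ (line_mem hy t))
    _ = d ^ 2 * ∫ t in (0 : ℝ)..2 * π, ∫ θ in (0 : ℝ)..1, G t θ := by
        rw [intervalIntegral.integral_const_mul]
    _ = d ^ 2 * ∫ θ in (0 : ℝ)..1, ∫ t in (0 : ℝ)..2 * π, G t θ := by
        congr 1
        apply intervalIntegral_intervalIntegral_swap
        have h1 : IntegrableOn (Function.uncurry G)
            (Set.uIcc 0 (2 * π) ×ˢ Set.uIcc 0 1) :=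
          hcont.continuousOn.integrableOn_compact (isCompact_uIcc.prod isCompact_uIcc)
        exact h1.mono_set (Set.prod_mono Set.uIoc_subset_uIcc Set.uIoc_subset_uIcc)
    _ ≤ d ^ 2 * ∫ _θ in (0 : ℝ)..1, 2 * π * (2 * K * (N * M)) ^ 2 := by
        apply mul_le_mul_of_nonneg_left _ (sq_nonneg _)
        apply intervalIntegral.integral_mono_on (by norm_num)
        · have h1 : Continuous (Function.uncurry fun θ t : ℝ => G t θ) :=
            hcont.comp continuous_swap
          exact (intervalIntegral.continuous_parametric_intervalIntegral_of_continuous' h1 0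
            (2 * π)).intervalIntegrable _ _
        · exact intervalIntegrable_const
        · intro θ hθ
          simp_rw [hG]
          exact comp_HN hK hN hr hrN (dif_conv hr D D' hθ.1 hθ.2) (by positivity) hc'M y hy
    _ = _ := by
        simp only [intervalIntegral.integral_const, smul_eq_mul]
        ring

theorem HN_mul {r M B : ℝ} {f b : ℂ → ℂ} (hf : HN r f M) (hb : Bd r b B)
    (hfc : ∀ y : ℝ, |y| < r → Continuous fun t : ℝ => f (t + y * Complex.I))
    (hbc : ∀ y : ℝ, |y| < r → Continuous fun t : ℝ => b (t + y * Complex.I)) (hB : 0 ≤ B) :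
    HN r (fun z => b z * f z) (B * M) := by
  intro y hy
  have hπ := Real.pi_pos
  have h1 := hfc y hy
  have h2 := hbc y hy
  calc ∫ t in (0 : ℝ)..2 * π, ‖b (t + y * Complex.I) * f (t + y * Complex.I)‖ ^ 2
      ≤ ∫ t in (0 : ℝ)..2 * π, B ^ 2 * ‖f (t + y * Complex.I)‖ ^ 2 := by
        apply intervalIntegral.integral_mono_on (by positivity)
        · exact ((h2.mul h1).norm.pow 2).intervalIntegrable _ _
        · exact (continuous_const.mul (h1.norm.pow 2)).intervalIntegrable _ _
        · intro t _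
          rw [norm_mul, mul_pow]
          have := hb _ (line_mem hy t)
          gcongr
    _ = B ^ 2 * ∫ t in (0 : ℝ)..2 * π, ‖f (t + y * Complex.I)‖ ^ 2 := by
        rw [intervalIntegral.integral_const_mul]
    _ ≤ B ^ 2 * (2 * π * M ^ 2) := by
        apply mul_le_mul_of_nonneg_left (hf y hy) (sq_nonneg _)
    _ = _ := by ring

theorem HN_add {r M M' : ℝ} {f f' : ℂ → ℂ} (hf : HN r f M) (hf' : HN r f' M') (hM : 0 ≤ M)
    (hM' : 0 ≤ M')
    (hfc : ∀ y : ℝ, |y| < r → Continuous fun t : ℝ => f (t + y * Complex.I))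
    (hfc' : ∀ y : ℝ, |y| < r → Continuous fun t : ℝ => f' (t + y * Complex.I)) :
    HN r (fun z => f z + f' z) (M + M') := by
  intro y hy
  have hπ := Real.pi_pos
  have h1 := hfc y hy
  have h2 := hfc' y hy
  -- with strictly larger constants
  have key : ∀ ε : ℝ, 0 < ε → ∫ t in (0 : ℝ)..2 * π,
      ‖f (t + y * Complex.I) + f' (t + y * Complex.I)‖ ^ 2 ≤
        2 * π * ((M + ε) + (M' + ε)) ^ 2 := by
    intro ε hε
    have hA : 0 < M + ε := by linarith
    have hB : 0 < M' + ε := by linarith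
    calc ∫ t in (0 : ℝ)..2 * π, ‖f (t + y * Complex.I) + f' (t + y * Complex.I)‖ ^ 2
        ≤ ∫ t in (0 : ℝ)..2 * π,
          ((1 + (M' + ε) / (M + ε)) * ‖f (t + y * Complex.I)‖ ^ 2 +
          (1 + (M + ε) / (M' + ε)) * ‖f' (t + y * Complex.I)‖ ^ 2) := by
          apply intervalIntegral.integral_mono_on (by positivity)
          · exact ((h1.add h2).norm.pow 2).intervalIntegrable _ _
          · exact ((continuous_const.mul (h1.norm.pow 2)).add
              (continuous_const.mul (h2.norm.pow 2))).intervalIntegrable _ _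
          · intro t _
            set a := ‖f (t + y * Complex.I)‖
            set b := ‖f' (t + y * Complex.I)‖
            have h3 : ‖f (t + y * Complex.I) + f' (t + y * Complex.I)‖ ^ 2 ≤ (a + b) ^ 2 :=
              pow_le_pow_left₀ (norm_nonneg _) (norm_add_le _ _) 2
            refine h3.trans ?_
            have h4 : (1 + (M' + ε) / (M + ε)) * a ^ 2 + (1 + (M + ε) / (M' + ε)) * b ^ 2 -
                (a + b) ^ 2 = ((M' + ε) * a - (M + ε) * b) ^ 2 / ((M + ε) * (M' + ε)) := by
              field_simp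
              ring
            have h5 : 0 ≤ ((M' + ε) * a - (M + ε) * b) ^ 2 / ((M + ε) * (M' + ε)) := by
              positivity
            linarith
      _ = (1 + (M' + ε) / (M + ε)) * (∫ t in (0 : ℝ)..2 * π, ‖f (t + y * Complex.I)‖ ^ 2) +
          (1 + (M + ε) / (M' + ε)) * (∫ t in (0 : ℝ)..2 * π, ‖f' (t + y * Complex.I)‖ ^ 2) := by
          rw [intervalIntegral.integral_add, intervalIntegral.integral_const_mul,
            intervalIntegral.integral_const_mul]
          · exact (continuous_const.mul (h1.norm.pow 2)).intervalIntegrable _ _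
          · exact (continuous_const.mul (h2.norm.pow 2)).intervalIntegrable _ _
      _ ≤ (1 + (M' + ε) / (M + ε)) * (2 * π * (M + ε) ^ 2) +
          (1 + (M + ε) / (M' + ε)) * (2 * π * (M' + ε) ^ 2) := by
          have h6 := hf y hy
          have h7 := hf' y hy
          have h8 : 2 * π * M ^ 2 ≤ 2 * π * (M + ε) ^ 2 := by gcongr; linarith
          have h9 : 2 * π * M' ^ 2 ≤ 2 * π * (M' + ε) ^ 2 := by gcongr; linarith
          have h10 := h6.trans h8
          have h11 := h7.trans h9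
          gcongr
      _ = _ := by
          field_simp
          ring
  have hlim : Filter.Tendsto (fun ε : ℝ => 2 * π * ((M + ε) + (M' + ε)) ^ 2)
      (nhdsWithin 0 (Set.Ioi 0)) (nhds (2 * π * (M + M') ^ 2)) := by
    have h3 : Continuous fun ε : ℝ => 2 * π * ((M + ε) + (M' + ε)) ^ 2 := by fun_prop
    have h4 := h3.tendsto 0
    simp only [add_zero] at h4
    exact h4.mono_left nhdsWithin_le_nhds
  refine ge_of_tendsto hlim ?_
  filter_upwards [self_mem_nhdsWithin] with ε hε
  exact key ε hε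

end Pool.Agent.MP_b87ea9_an.Kam
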