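import Mathlib
import Pool.Agent.Lib.MP_b87ea9_an.KDefs
import Pool.Agent.Lib.MP_b87ea9_an.KDefs2

set_option autoImplicit false

/-! the tree of rotation numbers: construction -/

namespace Pool.Agent.MP_b87ea9_an.Kam

open Real MeasureTheory

theorem four_le_norm_dv (α : ℝ) (n : ℤ) :
    4 * |n * α - round (n * α)| ≤ ‖dv (2 * π * α) n‖ := by
  have e : dv (2 * π * α) n = Complex.exp (Complex.I * ((2 * π * (n * α) : ℝ) : ℂ)) - 1 := by
    unfold dv
    congr 2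
    push_cast
    ring
  rw [e, Complex.norm_exp_I_mul_ofReal_sub_one, norm_mul, Real.norm_eq_abs, Real.norm_eq_abs,
    abs_of_pos (by norm_num : (0 : ℝ) < 2)]
  set y : ℝ := n * α - round (n * α) with hy
  have hyb : |y| ≤ 1 / 2 := abs_sub_round _
  have h1 : |sin (2 * π * (n * α) / 2)| = |sin (π * y)| := by
    have : 2 * π * (n * α) / 2 = π * y + (round (n * α) : ℤ) * π := by
      rw [hy]; ring
    rw [this]
    rw [abs_sin_eq_sqrt_one_sub_cos_sq, abs_sin_eq_sqrt_one_sub_cos_sq, cos_add_int_mul_pi]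
    congr 2
    rw [mul_pow]
    rcases Int.even_or_odd (round (n * α)) with h | h
    · rw [h.neg_one_zpow]; ring
    · rw [h.neg_one_zpow]; ring
  rw [h1]
  have h2 : |sin (π * y)| = sin (π * |y|) := by
    rcases abs_cases y with ⟨h, h'⟩ | ⟨h, h'⟩
    · rw [h, abs_of_nonneg]
      apply sin_nonneg_of_nonneg_of_le_pi
      · positivity
      · rw [h] at hyb; nlinarith [pi_pos]
    · rw [h, mul_neg, sin_neg, abs_of_nonpos]
      have : 0 ≤ sin (π * -y) := by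
        apply sin_nonneg_of_nonneg_of_le_pi
        · have : 0 ≤ -y := by linarith
          positivity
        · rw [h] at hyb; nlinarith [pi_pos]
      rw [mul_neg, sin_neg] at this
      linarith
  rw [h2]
  have h3 : 2 / π * (π * |y|) ≤ sin (π * |y|) :=
    mul_le_sin (by positivity) (by nlinarith [pi_pos])
  have h4 : 2 / π * (π * |y|) = 2 * |y| := by
    field_simp
  linarith

theorem norm_dv_neg (ω : ℝ) (n : ℤ) : ‖dv ω (-n)‖ = ‖dv ω n‖ := by
  have : dv ω (-n) = starRingEnd ℂ (dv ω n) := by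
    unfold dv
    rw [map_sub, map_one, ← Complex.exp_conj]
    simp
  rw [this, RCLike.norm_conj]

/-- rationals with denominators `< N'` kill at most three consecutive children -/
theorem exists_shift {Q : ℕ} (hQ : 3 ≤ Q ^ 2) {N' ℓ : ℝ} (hℓ : 0 < ℓ) (hN : 0 < N')
    (h : ℓ * ((Q : ℝ) ^ 2 + 2) * N' ^ 2 ≤ 1) (a : ℝ) :
    ∃ s : ℕ, s + 3 ≤ Q ^ 2 ∧ ∀ i : ℕ, (i < s ∨ s + 3 ≤ i) → i < Q ^ 2 → ∀ p n : ℤ, 0 < n →
      (n : ℝ) < N' → ∀ x : ℝ, a + i * ℓ ≤ x → x ≤ a + (i + 1) * ℓ → ℓ ≤ |x - p / n| := by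
  by_cases hex : ∃ p₀ n₀ : ℤ, 0 < n₀ ∧ (n₀ : ℝ) < N' ∧ a - ℓ < (p₀ : ℝ) / n₀ ∧
      (p₀ : ℝ) / n₀ < a + ((Q : ℝ) ^ 2 + 1) * ℓ
  · obtain ⟨p₀, n₀, hn₀, hn₀N, hlo, hhi⟩ := hex
    set q : ℝ := (p₀ : ℝ) / n₀ with hq
    set t : ℝ := (q - a) / ℓ with ht
    have hqt : q = a + t * ℓ := by rw [ht]; field_simp; ring
    refine ⟨(min (max (⌊t⌋ - 1) 0) ((Q : ℤ) ^ 2 - 3)).toNat, ?_, ?_⟩
    · have : (3 : ℤ) ≤ (Q : ℤ) ^ 2 := by exact_mod_cast hQ
      have h2 : ((Q ^ 2 : ℕ) : ℤ) = (Q : ℤ) ^ 2 := by push_cast; ring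
      omega
    · intro i hi hiQ p n hn hnN x hx1 hx2
      by_contra hlt
      push Not at hlt
      have habs := abs_lt.mp hlt
      -- the rational is close, hence equal to `q`
      have hi2 : (i : ℝ) + 1 ≤ (Q : ℝ) ^ 2 := by exact_mod_cast hiQ
      have hi0 : (0 : ℝ) ≤ i := by positivity
      have hp1 : a - ℓ < (p : ℝ) / n := by nlinarith
      have hp2 : (p : ℝ) / n < a + ((Q : ℝ) ^ 2 + 1) * ℓ := by nlinarith
      have hn' : (0 : ℝ) < n := by exact_mod_cast hn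
      have hn₀' : (0 : ℝ) < n₀ := by exact_mod_cast hn₀
      have heq : (p : ℝ) / n = q := by
        by_contra hne
        have hd : (p : ℝ) / n - q = ((p * n₀ - p₀ * n : ℤ) : ℝ) / (n * n₀) := by
          rw [hq]; push_cast; field_simp
        have hz : (p * n₀ - p₀ * n : ℤ) ≠ 0 := by
          intro h0
          rw [h0] at hd
          apply hne
          simp at hd
          linarith
        have h1 : (1 : ℝ) ≤ |((p * n₀ - p₀ * n : ℤ) : ℝ)| := by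
          rw [← Int.cast_abs]
          exact_mod_cast Int.one_le_abs hz
        have h2 : |(p : ℝ) / n - q| < ((Q : ℝ) ^ 2 + 2) * ℓ := by
          rw [abs_lt]; constructor <;> nlinarith
        rw [hd, abs_div, abs_of_pos (by positivity : (0 : ℝ) < n * n₀)] at h2
        have h3 : (n : ℝ) * n₀ ≤ N' ^ 2 := by nlinarith
        have h4 : 1 ≤ |((p * n₀ - p₀ * n : ℤ) : ℝ)| / (n * n₀) * (n * n₀) := by
          rw [div_mul_cancel₀ _ (by positivity)]; exact h1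
        have h5 : |((p * n₀ - p₀ * n : ℤ) : ℝ)| / (n * n₀) * (n * n₀) <
            ((Q : ℝ) ^ 2 + 2) * ℓ * (n * n₀) :=
          mul_lt_mul_of_pos_right h2 (by positivity)
        have h6 : ((Q : ℝ) ^ 2 + 2) * ℓ * (n * n₀) ≤ ((Q : ℝ) ^ 2 + 2) * ℓ * N' ^ 2 :=
          mul_le_mul_of_nonneg_left h3 (by positivity)
        nlinarith
      rw [heq, hqt] at habs
      have ht1 : (i : ℝ) < t + 1 := by
        by_contra hc
        push Not at hc
        nlinarith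
      have ht2 : t - 2 < (i : ℝ) := by
        by_contra hc
        push Not at hc
        nlinarith
      have hf1 : (i : ℤ) < ⌊t⌋ + 2 := by
        have := Int.lt_floor_add_one t
        have h3 : ((i : ℤ) : ℝ) < ((⌊t⌋ + 2 : ℤ) : ℝ) := by push_cast; linarith
        exact_mod_cast h3
      have hf2 : ⌊t⌋ - 2 < (i : ℤ) := by
        have := Int.floor_le t
        have h3 : ((⌊t⌋ - 2 : ℤ) : ℝ) < ((i : ℤ) : ℝ) := by push_cast; linarith
        exact_mod_cast h3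
      have h9 : ((Q ^ 2 : ℕ) : ℤ) = (Q : ℤ) ^ 2 := by push_cast; ring
      omega
  · refine ⟨0, by omega, ?_⟩
    intro i hi hiQ p n hn hnN x hx1 hx2
    by_contra hlt
    push Not at hlt
    have habs := abs_lt.mp hlt
    have hi2 : (i : ℝ) + 1 ≤ (Q : ℝ) ^ 2 := by exact_mod_cast hiQ
    have hi0 : (0 : ℝ) ≤ i := by positivity
    exact hex ⟨p, n, hn, hnN, by nlinarith, by nlinarith⟩

/-- length of the intervals of depth `j` -/
noncomputable def ell (lam : ℝ) (Nb Q j : ℕ) : ℝ := lam / ((Nb : ℝ) * (Q : ℝ) ^ j) ^ 2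

/-- tree of intervals with left ends `L` -/
structure Tr (lam : ℝ) (Nb Q Mc : ℕ) (L : List (Fin Mc) → ℝ) (ix : List (Fin Mc) → Fin Mc → ℕ) :
    Prop where
  root : L [] = 1 / (Nb + 1)
  step : ∀ ν c, L (c :: ν) = L ν + ix ν c * ell lam Nb Q (ν.length + 1)
  ix_lt : ∀ ν c, ix ν c < Q ^ 2
  inj : ∀ ν, Function.Injective (ix ν)
  good : ∀ ν c (p n : ℤ), 0 < n → (n : ℝ) < Nb * (Q : ℝ) ^ (ν.length + 1) → ∀ x : ℝ,
    L (c :: ν) ≤ x → x ≤ L (c :: ν) + ell lam Nb Q (ν.length + 1) →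
      ell lam Nb Q (ν.length + 1) ≤ |x - p / n|

theorem ell_pos {lam : ℝ} {Nb Q : ℕ} (hlam : 0 < lam) (hNb : 0 < Nb) (hQ : 0 < Q) (j : ℕ) :
    0 < ell lam Nb Q j := by
  unfold ell; positivity

theorem ell_succ {lam : ℝ} {Nb Q : ℕ} (hNb : 0 < Nb) (hQ : 0 < Q) (j : ℕ) :
    ell lam Nb Q j = (Q : ℝ) ^ 2 * ell lam Nb Q (j + 1) := by
  unfold ell
  have : (0 : ℝ) < Nb := by exact_mod_cast hNb
  have : (0 : ℝ) < Q := by exact_mod_cast hQ
  field_simp
  ring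

theorem exists_tr {lam : ℝ} {Nb Q : ℕ} (hlam : 0 < lam) (hNb : 0 < Nb) (hQ : 3 ≤ Q ^ 2)
    (hl : lam * ((Q : ℝ) ^ 2 + 2) ≤ 1) : ∃ L ix, Tr lam Nb Q (Q ^ 2 - 3) L ix := by
  have hQ0 : 0 < Q := by
    rcases Nat.eq_zero_or_pos Q with h | h
    · subst h; norm_num at hQ
    · exact h
  have hex : ∀ (j : ℕ) (a : ℝ), ∃ s : ℕ, s + 3 ≤ Q ^ 2 ∧ ∀ i : ℕ, (i < s ∨ s + 3 ≤ i) →
      i < Q ^ 2 → ∀ p n : ℤ, 0 < n → (n : ℝ) < Nb * (Q : ℝ) ^ (j + 1) → ∀ x : ℝ,
        a + i * ell lam Nb Q (j + 1) ≤ x → x ≤ a + (i + 1) * ell lam Nb Q (j + 1) →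
          ell lam Nb Q (j + 1) ≤ |x - p / n| := by
    intro j a
    apply exists_shift hQ (ell_pos hlam hNb hQ0 _) (by positivity)
    unfold ell
    have h1 : (0 : ℝ) < (Nb : ℝ) * (Q : ℝ) ^ (j + 1) := by positivity
    calc lam / ((Nb : ℝ) * (Q : ℝ) ^ (j + 1)) ^ 2 * ((Q : ℝ) ^ 2 + 2) *
          ((Nb : ℝ) * (Q : ℝ) ^ (j + 1)) ^ 2 = lam * ((Q : ℝ) ^ 2 + 2) := by
          field_simp
      _ ≤ 1 := hl
  choose sh hs1 hs2 using hex
  let Lx : List (Fin (Q ^ 2 - 3)) → ℝ := fun ν => List.rec (motive := fun _ => ℝ)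
    (1 / ((Nb : ℝ) + 1)) (fun c ν r =>
      r + ((if c.1 < sh ν.length r then c.1 else c.1 + 3 : ℕ) : ℝ) *
        ell lam Nb Q (ν.length + 1)) ν
  refine ⟨Lx, fun ν c => if c.1 < sh ν.length (Lx ν) then c.1 else c.1 + 3, ?_, ?_, ?_, ?_, ?_⟩
  · rfl
  · intro ν c
    rfl
  · intro ν c
    have := c.2
    split_ifs <;> omega
  · intro ν c c' h
    dsimp only at h
    apply Fin.ext
    split_ifs at h <;> omega
  · intro ν c p n hn hnN x hx1 hx2
    have hstep : Lx (c :: ν) = Lx ν + ((if c.1 < sh ν.length (Lx ν) then c.1 else c.1 + 3 : ℕ) : ℝ) *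
        ell lam Nb Q (ν.length + 1) := rfl
    rw [hstep] at hx1 hx2
    have hc := c.2
    refine hs2 ν.length (Lx ν) (if c.1 < sh ν.length (Lx ν) then c.1 else c.1 + 3) ?_ ?_ p n hn hnN x
      hx1 (by linarith)
    · split_ifs <;> omega
    · split_ifs <;> omega

section
variable {lam : ℝ} {Nb Q Mc : ℕ} {L : List (Fin Mc) → ℝ} {ix : List (Fin Mc) → Fin Mc → ℕ}

/-- `x` lies in the interval of the word `ν` -/
def InI (lam : ℝ) (Nb Q : ℕ) {Mc : ℕ} (L : List (Fin Mc) → ℝ) (ν : List (Fin Mc)) (x : ℝ) : Prop :=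
  L ν ≤ x ∧ x ≤ L ν + ell lam Nb Q ν.length

theorem Tr.parent (T : Tr lam Nb Q Mc L ix) (hlam : 0 < lam) (hNb : 0 < Nb) (hQ : 0 < Q)
    (ν : List (Fin Mc)) (c : Fin Mc) (x : ℝ) (h : InI lam Nb Q L (c :: ν) x) :
    InI lam Nb Q L ν x := by
  obtain ⟨h1, h2⟩ := h
  rw [T.step] at h1 h2
  rw [List.length_cons] at h2
  have hp := ell_pos hlam hNb hQ (ν.length + 1)
  have hi : ((ix ν c : ℕ) : ℝ) + 1 ≤ (Q : ℝ) ^ 2 := by exact_mod_cast T.ix_lt ν c
  constructor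
  · have : (0 : ℝ) ≤ (ix ν c : ℕ) * ell lam Nb Q (ν.length + 1) := by positivity
    linarith
  · rw [ell_succ hNb hQ ν.length]
    nlinarith

theorem Tr.anc (T : Tr lam Nb Q Mc L ix) (hlam : 0 < lam) (hNb : 0 < Nb) (hQ : 0 < Q)
    (w ν : List (Fin Mc)) (x : ℝ) (h : InI lam Nb Q L (w ++ ν) x) :
    InI lam Nb Q L ν x := by
  induction w with
  | nil => exact h
  | cons c w ih => exact ih (T.parent hlam hNb hQ _ c x h)

theorem Tr.limit (T : Tr lam Nb Q Mc L ix) (hlam : 0 < lam) (hNb : 0 < Nb) (hQ : 0 < Q)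
    (c₀ : Fin Mc) (ν : List (Fin Mc)) :
    ∃ x : ℝ, ∀ k : ℕ, InI lam Nb Q L (List.replicate k c₀ ++ ν) x := by
  set f : ℕ → ℝ := fun k => L (List.replicate k c₀ ++ ν) with hf
  have hsub : ∀ k d : ℕ, InI lam Nb Q L (List.replicate k c₀ ++ ν) (f (d + k)) := by
    intro k d
    have h1 : InI lam Nb Q L (List.replicate (d + k) c₀ ++ ν) (f (d + k)) :=
      ⟨le_refl _, by
        have := ell_pos hlam hNb hQ (List.replicate (d + k) c₀ ++ ν).length
        simp only [hf]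
        linarith⟩
    rw [List.replicate_add, List.append_assoc] at h1
    exact T.anc hlam hNb hQ _ _ _ h1
  have hbd : BddAbove (Set.range f) := by
    refine ⟨L ν + ell lam Nb Q ν.length, ?_⟩
    rintro _ ⟨k, rfl⟩
    exact (hsub 0 k).2
  refine ⟨⨆ k, f k, fun k => ⟨le_ciSup hbd k, ciSup_le fun k' => ?_⟩⟩
  rcases le_total k k' with h | h
  · obtain ⟨d, rfl⟩ := Nat.exists_eq_add_of_le h
    rw [Nat.add_comm]
    exact (hsub k d).2
  · obtain ⟨d, rfl⟩ := Nat.exists_eq_add_of_le h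
    have h1 := (hsub k' d).1
    have h2 := ell_pos hlam hNb hQ (List.replicate (k' + d) c₀ ++ ν).length
    have h3 : f (d + k') = L (List.replicate (k' + d) c₀ ++ ν) := by
      rw [Nat.add_comm]
    have h4 : f k' = L (List.replicate k' c₀ ++ ν) := rfl
    linarith

end

end Pool.Agent.MP_b87ea9_an.Kam
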