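import Mathlib
import Pool.Agent.Lib.MP_b87ea9_an.KDefs
import Pool.Agent.Lib.MP_b87ea9_an.KDefs2
import Pool.Agent.Lib.MP_b87ea9_an.KB1a

set_option autoImplicit false

/-! the tree of rotation numbers -/

namespace Pool.Agent.MP_b87ea9_an.Kam

open Real MeasureTheory

/-! ### averages -/

theorem avg_le_avg {Mc : ℕ} (m : ℕ) (f g : List (Fin Mc) → ℝ) (ν : List (Fin Mc))
    (h : ∀ w : List (Fin Mc), w.length = m → f (w ++ ν) ≤ g (w ++ ν)) : avg m f ν ≤ avg m g ν := by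
  induction m generalizing ν with
  | zero => exact h [] rfl
  | succ m ih =>
    unfold avg
    apply div_le_div_of_nonneg_right _ (by positivity)
    apply Finset.sum_le_sum
    intro c _
    apply ih
    intro w hw
    have := h (w ++ [c]) (by simp [hw])
    simpa using this

theorem avg_const {Mc : ℕ} (hM : 0 < Mc) (m : ℕ) (B : ℝ) (ν : List (Fin Mc)) :
    avg m (fun _ => B) ν = B := by
  induction m generalizing ν with
  | zero => rfl
  | succ m ih =>
    unfold avg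
    have h0 : (Mc : ℝ) ≠ 0 := by exact_mod_cast hM.ne'
    simp only [ih, Finset.sum_const, Finset.card_univ, Fintype.card_fin, nsmul_eq_mul]
    field_simp

theorem avg_le {Mc : ℕ} (hM : 0 < Mc) (m : ℕ) (f : List (Fin Mc) → ℝ) (B : ℝ)
    (ν : List (Fin Mc)) (h : ∀ w : List (Fin Mc), w.length = m → f (w ++ ν) ≤ B) :
    avg m f ν ≤ B := by
  calc avg m f ν ≤ avg m (fun _ => B) ν := avg_le_avg m _ _ ν h
    _ = B := avg_const hM m B ν

theorem avg_sum {Mc : ℕ} {ι : Type} (P : Finset ι) (m : ℕ) (f : ι → List (Fin Mc) → ℝ) (k : ℝ)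
    (ν : List (Fin Mc)) :
    avg m (fun μ => k * ∑ p ∈ P, f p μ) ν = k * ∑ p ∈ P, avg m (f p) ν := by
  induction m generalizing ν with
  | zero => rfl
  | succ m ih =>
    unfold avg
    simp only [ih]
    rw [← Finset.mul_sum, Finset.sum_comm, mul_div_assoc, Finset.sum_div]

section
variable {lam : ℝ} {Nb Q Mc : ℕ} {L : List (Fin Mc) → ℝ} {ix : List (Fin Mc) → Fin Mc → ℕ}
  {al : List (Fin Mc) → ℝ}

/-- the recursive estimate for the averages of `|α - x|^{-3/4}` -/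
theorem avg_V (T : Tr lam Nb Q Mc L ix) (hlam : 0 < lam) (hNb : 0 < Nb) (hQ : 0 < Q)
    (hM : 0 < Mc) (hQM : 15 * (Q : ℝ) ^ (3 / 2 : ℝ) ≤ 4 * Mc)
    (hal : ∀ ν, InI lam Nb Q L ν (al ν)) (x W : ℝ) (hW0 : 0 ≤ W)
    (hW : ∀ μ, |al μ - x| ^ (-(3 / 4) : ℝ) ≤ W) (d : ℕ) (ν : List (Fin Mc)) :
    avg d (fun μ => |al μ - x| ^ (-(3 / 4) : ℝ)) ν ≤
      5 * ell lam Nb Q (ν.length + 1) ^ (-(3 / 4) : ℝ) + (3 / (Mc : ℝ)) ^ d * W := by
  induction d generalizing ν with
  | zero =>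
    have h1 : 0 ≤ ell lam Nb Q (ν.length + 1) ^ (-(3 / 4) : ℝ) :=
      rpow_nonneg (ell_pos hlam hNb hQ _).le _
    have h2 := hW ν
    show |al ν - x| ^ (-(3 / 4) : ℝ) ≤ _
    simp only [pow_zero, one_mul]
    linarith
  | succ d ih =>
    set e : ℝ := ell lam Nb Q (ν.length + 1) with he
    set e' : ℝ := ell lam Nb Q (ν.length + 2) with he'
    have hep : 0 < e := ell_pos hlam hNb hQ _
    have hep' : 0 < e' := ell_pos hlam hNb hQ _
    set Bc : ℝ := 5 * e' ^ (-(3 / 4) : ℝ) + (3 / (Mc : ℝ)) ^ d * W with hBc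
    have hBc0 : 0 ≤ Bc := by
      have : 0 ≤ e' ^ (-(3 / 4) : ℝ) := rpow_nonneg hep'.le _
      positivity
    have hMr : (0 : ℝ) < Mc := by exact_mod_cast hM
    -- children: far or close
    classical
    set cl : Finset (Fin Mc) := Finset.univ.filter fun c =>
      ∃ y : ℝ, InI lam Nb Q L (c :: ν) y ∧ |y - x| < e with hcl
    have hfar : ∀ c : Fin Mc, c ∉ cl →
        avg d (fun μ => |al μ - x| ^ (-(3 / 4) : ℝ)) (c :: ν) ≤ e ^ (-(3 / 4) : ℝ) := by
      intro c hc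
      apply avg_le hM
      intro w _
      apply rpow_le_rpow_of_nonpos hep _ (by norm_num)
      by_contra hlt
      push Not at hlt
      apply hc
      rw [hcl, Finset.mem_filter]
      exact ⟨Finset.mem_univ _, al (w ++ c :: ν), T.anc hlam hNb hQ w _ _ (hal _), hlt⟩
    have hcard : (cl.card : ℝ) ≤ 3 := by
      set t : ℝ := (x - L ν) / e with ht
      have hxt : x = L ν + t * e := by rw [ht]; field_simp; ring
      have hmap : ∀ c ∈ cl, ((ix ν c : ℕ) : ℤ) ∈ Finset.Icc (⌊t⌋ - 1) (⌊t⌋ + 1) := by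
        intro c hc
        rw [hcl, Finset.mem_filter] at hc
        obtain ⟨_, y, ⟨hy1, hy2⟩, hy3⟩ := hc
        rw [T.step] at hy1 hy2
        rw [List.length_cons, ← he] at hy2
        rw [← he] at hy1
        rw [hxt] at hy3
        have habs := abs_lt.mp hy3
        have ht1 : ((ix ν c : ℕ) : ℝ) < t + 1 := by
          by_contra hc
          push Not at hc
          nlinarith
        have ht2 : t - 2 < ((ix ν c : ℕ) : ℝ) := by
          by_contra hc
          push Not at hc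
          nlinarith
        have hf1 : ((ix ν c : ℕ) : ℤ) < ⌊t⌋ + 2 := by
          have := Int.lt_floor_add_one t
          have h3 : (((ix ν c : ℕ) : ℤ) : ℝ) < ((⌊t⌋ + 2 : ℤ) : ℝ) := by push_cast; linarith
          exact_mod_cast h3
        have hf2 : ⌊t⌋ - 2 < ((ix ν c : ℕ) : ℤ) := by
          have := Int.floor_le t
          have h3 : ((⌊t⌋ - 2 : ℤ) : ℝ) < (((ix ν c : ℕ) : ℤ) : ℝ) := by push_cast; linarith
          exact_mod_cast h3
        rw [Finset.mem_Icc]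
        omega
      have h1 : cl.card ≤ (Finset.Icc (⌊t⌋ - 1) (⌊t⌋ + 1)).card := by
        apply Finset.card_le_card_of_injOn (fun c => ((ix ν c : ℕ) : ℤ)) hmap
        intro c _ c' _ h
        have h' : ((ix ν c : ℕ) : ℤ) = ((ix ν c' : ℕ) : ℤ) := h
        exact T.inj ν (by exact_mod_cast h')
      have h2 : (Finset.Icc (⌊t⌋ - 1) (⌊t⌋ + 1)).card = 3 := by
        rw [Int.card_Icc]
        omega
      rw [h2] at h1
      exact_mod_cast h1
    have hsum : ∑ c : Fin Mc, avg d (fun μ => |al μ - x| ^ (-(3 / 4) : ℝ)) (c :: ν) ≤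
        Mc * e ^ (-(3 / 4) : ℝ) + 3 * Bc := by
      have hen : 0 ≤ e ^ (-(3 / 4) : ℝ) := rpow_nonneg hep.le _
      calc ∑ c : Fin Mc, avg d (fun μ => |al μ - x| ^ (-(3 / 4) : ℝ)) (c :: ν)
          ≤ ∑ c : Fin Mc, (e ^ (-(3 / 4) : ℝ) + if c ∈ cl then Bc else 0) := by
            apply Finset.sum_le_sum
            intro c _
            by_cases hc : c ∈ cl
            · rw [if_pos hc]
              have := ih (c :: ν)
              rw [List.length_cons] at this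
              linarith
            · rw [if_neg hc, add_zero]
              exact hfar c hc
        _ = Mc * e ^ (-(3 / 4) : ℝ) + cl.card * Bc := by
            rw [Finset.sum_add_distrib, Finset.sum_const, Finset.card_univ, Fintype.card_fin,
              ← Finset.sum_filter, Finset.sum_const, nsmul_eq_mul, nsmul_eq_mul]
            congr 3
            simp
        _ ≤ Mc * e ^ (-(3 / 4) : ℝ) + 3 * Bc := by
            have := mul_le_mul_of_nonneg_right hcard hBc0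
            linarith
    have hee : e' ^ (-(3 / 4) : ℝ) = (Q : ℝ) ^ (3 / 2 : ℝ) * e ^ (-(3 / 4) : ℝ) := by
      have hQr : (0 : ℝ) < Q := by exact_mod_cast hQ
      have h1 : e = (Q : ℝ) ^ 2 * e' := ell_succ hNb hQ _
      rw [h1, mul_rpow (by positivity) hep'.le, ← mul_assoc]
      have h2 : ((Q : ℝ) ^ 2) ^ (-(3 / 4) : ℝ) = (Q : ℝ) ^ (-(3 / 2) : ℝ) := by
        rw [← rpow_natCast, ← rpow_mul hQr.le]
        norm_num
      rw [h2, ← rpow_add hQr]
      norm_num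
    show (∑ c : Fin Mc, avg d (fun μ => |al μ - x| ^ (-(3 / 4) : ℝ)) (c :: ν)) / Mc ≤ _
    have hfin : (∑ c : Fin Mc, avg d (fun μ => |al μ - x| ^ (-(3 / 4) : ℝ)) (c :: ν)) / Mc ≤
        (Mc * e ^ (-(3 / 4) : ℝ) + 3 * Bc) / Mc := div_le_div_of_nonneg_right hsum hMr.le
    refine hfin.trans ?_
    rw [hBc, hee]
    have hen : 0 ≤ e ^ (-(3 / 4) : ℝ) := rpow_nonneg hep.le _
    set E : ℝ := e ^ (-(3 / 4) : ℝ) with hE
    set R : ℝ := (Q : ℝ) ^ (3 / 2 : ℝ) with hR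
    have e1 : (Mc * E + 3 * (5 * (R * E) + (3 / (Mc : ℝ)) ^ d * W)) / Mc =
        E + 15 * R / Mc * E + (3 / (Mc : ℝ)) ^ (d + 1) * W := by
      rw [pow_succ]
      field_simp
      ring
    rw [e1]
    have h4 : 15 * R / Mc ≤ 4 := by
      rw [div_le_iff₀ hMr]; exact hQM
    have h5 : 15 * R / Mc * E ≤ 4 * E := mul_le_mul_of_nonneg_right h4 hen
    linarith

/-- denominators below `Nb` -/
theorem dioph0 (T : Tr lam Nb Q Mc L ix) (hlam : 0 < lam) (hlam1 : 2 * lam ≤ 1) (hNb : 1 < Nb)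
    (hal : ∀ ν (K : ℕ), ∃ σ : List (Fin Mc), σ.length = K ∧ InI lam Nb Q L σ (al ν))
    (μ : List (Fin Mc)) :
    1 / ((Nb : ℝ) + 1) ≤ al μ ∧ al μ ≤ 1 / (Nb : ℝ) ∧
      ∀ n p : ℤ, 0 < n → (n : ℝ) < Nb → 1 / ((Nb : ℝ) + 1) ≤ |n * al μ - p| := by
  obtain ⟨σ, hσ, h1, h2⟩ := hal μ 0
  rw [List.length_eq_zero_iff] at hσ
  subst hσ
  rw [T.root] at h1 h2
  rw [List.length_nil] at h2
  have hNr : (1 : ℝ) < Nb := by exact_mod_cast hNb
  have hel : ell lam Nb Q 0 = lam / (Nb : ℝ) ^ 2 := by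
    unfold ell; simp
  rw [hel] at h2
  have h3 : al μ ≤ 1 / (Nb : ℝ) := by
    have : 1 / ((Nb : ℝ) + 1) + lam / (Nb : ℝ) ^ 2 ≤ 1 / (Nb : ℝ) := by
      rw [div_add_div _ _ (by positivity) (by positivity), div_le_div_iff₀ (by positivity)
        (by positivity)]
      nlinarith [sq_nonneg ((Nb : ℝ) - 1), mul_pos (by linarith : (0 : ℝ) < Nb) hlam]
    linarith
  refine ⟨h1, h3, ?_⟩
  intro n p hn hnK
  have hn1 : (1 : ℝ) ≤ n := by exact_mod_cast hn
  have hnK' : (n : ℝ) + 1 ≤ Nb := by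
    have : n < (Nb : ℤ) := by exact_mod_cast hnK
    have : n + 1 ≤ (Nb : ℤ) := this
    exact_mod_cast this
  have hnn : (0 : ℝ) < n := by linarith
  rcases le_or_gt p 0 with hp | hp
  · have hp' : (p : ℝ) ≤ 0 := by exact_mod_cast hp
    have h4 : 1 / ((Nb : ℝ) + 1) ≤ n * al μ := by
      have : (1 : ℝ) * (1 / ((Nb : ℝ) + 1)) ≤ n * al μ :=
        mul_le_mul hn1 h1 (by positivity) hnn.le
      linarith
    calc 1 / ((Nb : ℝ) + 1) ≤ n * al μ - p := by linarith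
      _ ≤ _ := le_abs_self _
  · have hp' : (1 : ℝ) ≤ p := by exact_mod_cast hp
    have h4 : n * al μ ≤ (Nb - 1) * (1 / (Nb : ℝ)) :=
      mul_le_mul (by linarith) h3 (by
        have : 0 < 1 / ((Nb : ℝ) + 1) := by positivity
        linarith) (by linarith)
    have h5 : ((Nb : ℝ) - 1) * (1 / (Nb : ℝ)) = 1 - 1 / (Nb : ℝ) := by
      field_simp
    have h6 : 1 / ((Nb : ℝ) + 1) ≤ 1 / (Nb : ℝ) :=
      one_div_le_one_div_of_le (by linarith) (by linarith)
    calc 1 / ((Nb : ℝ) + 1) ≤ -(n * al μ - p) := by linarith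
      _ ≤ _ := neg_le_abs _

theorem abs_mul_sub (a : ℝ) (n p : ℤ) (hn : 0 < n) : |n * a - p| = n * |a - p / n| := by
  have hnn : (0 : ℝ) < n := by exact_mod_cast hn
  rw [← abs_of_pos hnn, ← abs_mul, abs_of_pos hnn]
  congr 1
  field_simp

/-- every point of the tree is badly approximable -/
theorem dioph (T : Tr lam Nb Q Mc L ix) (hlam : 0 < lam) (hlam1 : 2 * lam ≤ 1) (hNb : 1 < Nb)
    (hal : ∀ ν (K : ℕ), ∃ σ : List (Fin Mc), σ.length = K ∧ InI lam Nb Q L σ (al ν))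
    (μ : List (Fin Mc)) (K : ℕ) (n p : ℤ) (hn : 0 < n) (hnK : (n : ℝ) < Nb * (Q : ℝ) ^ K) :
    ell lam Nb Q K ≤ |al μ - p / n| := by
  rcases Nat.eq_zero_or_pos K with h0 | hpos
  · subst h0
    rw [pow_zero, mul_one] at hnK
    have key := (dioph0 T hlam hlam1 hNb hal μ).2.2 n p hn hnK
    have hNr : (1 : ℝ) < Nb := by exact_mod_cast hNb
    have hn1 : (1 : ℝ) ≤ n := by exact_mod_cast hn
    have hnn : (0 : ℝ) < n := by linarith
    have hnK' : (n : ℝ) + 1 ≤ Nb := by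
      have : n < (Nb : ℤ) := by exact_mod_cast hnK
      have : n + 1 ≤ (Nb : ℤ) := this
      exact_mod_cast this
    have hel : ell lam Nb Q 0 = lam / (Nb : ℝ) ^ 2 := by
      unfold ell; simp
    rw [hel]
    rw [abs_mul_sub _ n p hn] at key
    have h8 : 1 / ((Nb : ℝ) + 1) / n ≤ |al μ - p / n| := by
      rw [div_le_iff₀ hnn]; linarith
    refine le_trans ?_ h8
    rw [div_div, div_le_div_iff₀ (by positivity) (by positivity)]
    have h9 : ((Nb : ℝ) + 1) * n ≤ (Nb : ℝ) ^ 2 := by nlinarith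
    nlinarith [sq_nonneg (Nb : ℝ)]
  · obtain ⟨σ, hσ, h1, h2⟩ := hal μ K
    match σ, hσ, h1, h2 with
    | [], hσ, _, _ => simp at hσ; omega
    | c :: σ', hσ, h1, h2 =>
      rw [List.length_cons] at hσ h2
      subst hσ
      exact T.good σ' c p n hn hnK (al μ) h1 h2

/-- the scale of an integer -/
theorem exists_scale (hNb : 1 < Nb) (hQ : 2 ≤ Q) (n : ℤ) (_hn : 0 < n) :
    ∃ K : ℕ, (n : ℝ) < Nb * (Q : ℝ) ^ K ∧ (K = 0 ∨ ∃ k, K = k + 1 ∧ Nb * (Q : ℝ) ^ k ≤ n) := by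
  have hex : ∃ K : ℕ, (n : ℝ) < Nb * (Q : ℝ) ^ K := by
    have hQ' : (1 : ℝ) < Q := by exact_mod_cast hQ
    have hNr : (1 : ℝ) < Nb := by exact_mod_cast hNb
    obtain ⟨K, hK⟩ := pow_unbounded_of_one_lt (n : ℝ) hQ'
    refine ⟨K, hK.trans_le ?_⟩
    have : (0 : ℝ) < (Q : ℝ) ^ K := by positivity
    nlinarith
  classical
  refine ⟨Nat.find hex, Nat.find_spec hex, ?_⟩
  rcases Nat.eq_zero_or_pos (Nat.find hex) with h | h
  · exact Or.inl h
  · right
    refine ⟨Nat.find hex - 1, by omega, ?_⟩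
    have := Nat.find_min hex (m := Nat.find hex - 1) (by omega)
    push Not at this
    exact this

/-- lower bound for `|nα - p|` at the scale of `n` -/
theorem dioph_scale (T : Tr lam Nb Q Mc L ix) (hlam : 0 < lam) (hlam1 : 2 * lam ≤ 1)
    (hNb : 1 < Nb) (hQ : 2 ≤ Q)
    (hal : ∀ ν (K : ℕ), ∃ σ : List (Fin Mc), σ.length = K ∧ InI lam Nb Q L σ (al ν))
    (μ : List (Fin Mc)) (K : ℕ) (n p : ℤ) (hn : 0 < n) (hnK : (n : ℝ) < Nb * (Q : ℝ) ^ K)
    (hK : K = 0 ∨ ∃ k, K = k + 1 ∧ Nb * (Q : ℝ) ^ k ≤ n) :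
    lam / (Q : ℝ) ^ 2 / (Nb * (Q : ℝ) ^ K) ≤ |n * al μ - p| := by
  have hNr : (1 : ℝ) < Nb := by exact_mod_cast hNb
  have hNr0 : (0 : ℝ) < Nb := by linarith
  have hQr : (2 : ℝ) ≤ Q := by exact_mod_cast hQ
  have hQr0 : (0 : ℝ) < Q := by linarith
  rcases hK with h0 | ⟨k, hk, hkn⟩
  · subst h0
    rw [pow_zero, mul_one] at hnK ⊢
    refine le_trans ?_ ((dioph0 T hlam hlam1 hNb hal μ).2.2 n p hn hnK)
    rw [div_div, div_le_div_iff₀ (by positivity) (by positivity)]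
    have h1 : 4 * (Nb : ℝ) ≤ (Q : ℝ) ^ 2 * Nb :=
      mul_le_mul_of_nonneg_right (by nlinarith) hNr0.le
    nlinarith
  · have h1 := dioph T hlam hlam1 hNb hal μ K n p hn hnK
    rw [abs_mul_sub _ n p hn]
    have hnn : (0 : ℝ) < n := by exact_mod_cast hn
    have h2 : (n : ℝ) * ell lam Nb Q K ≤ n * |al μ - p / n| :=
      mul_le_mul_of_nonneg_left h1 hnn.le
    refine le_trans ?_ h2
    have h3 : (Nb : ℝ) * (Q : ℝ) ^ k * ell lam Nb Q K ≤ n * ell lam Nb Q K :=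
      mul_le_mul_of_nonneg_right hkn (ell_pos hlam (by omega) (by omega) K).le
    refine le_trans ?_ h3
    subst hk
    unfold ell
    have h4 : (Nb : ℝ) * (Q : ℝ) ^ k * (lam / ((Nb : ℝ) * (Q : ℝ) ^ (k + 1)) ^ 2) =
        lam / Q / (Nb * (Q : ℝ) ^ (k + 1)) := by
      rw [pow_succ]
      field_simp
      ring
    rw [h4]
    apply div_le_div_of_nonneg_right _ (by positivity)
    apply div_le_div_of_nonneg_left hlam.le hQr0
    nlinarith

theorem exists_al (T : Tr lam Nb Q Mc L ix) (hlam : 0 < lam) (hNb : 0 < Nb) (hQ : 0 < Q)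
    (c₀ : Fin Mc) : ∃ al : List (Fin Mc) → ℝ, (∀ ν, InI lam Nb Q L ν (al ν)) ∧
      ∀ ν (K : ℕ), ∃ σ : List (Fin Mc), σ.length = K ∧ InI lam Nb Q L σ (al ν) := by
  choose al hal using T.limit hlam hNb hQ c₀
  refine ⟨al, fun ν => by simpa using hal ν 0, fun ν K => ?_⟩
  rcases le_total K ν.length with h | h
  · refine ⟨ν.drop (ν.length - K), by simp; omega, ?_⟩
    have h0 : InI lam Nb Q L ν (al ν) := by simpa using hal ν 0
    have h2 := T.anc hlam hNb hQ (ν.take (ν.length - K)) (ν.drop (ν.length - K)) (al ν)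
    rw [List.take_append_drop] at h2
    exact h2 h0
  · refine ⟨List.replicate (K - ν.length) c₀ ++ ν, by simp; omega, hal ν _⟩

end

end Pool.Agent.MP_b87ea9_an.Kam
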