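import Mathlib
import Pool.Agent.Lib.MP_b87ea9_an.KDefs
import Pool.Agent.Lib.MP_b87ea9_an.KDefs2
import Pool.Agent.Lib.MP_b87ea9_an.KB1a
import Pool.Agent.Lib.MP_b87ea9_an.KB1b

set_option autoImplicit false

/-! the tree of rotation numbers -/

namespace Pool.Agent.MP_b87ea9_an.Kam

open Real MeasureTheory

section
variable {lam : ℝ} {Nb Q Mc : ℕ} {L : List (Fin Mc) → ℝ} {ix : List (Fin Mc) → Fin Mc → ℕ}
  {al : List (Fin Mc) → ℝ}

/-- number of integers in an interval -/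
theorem card_Icc_le (a b : ℝ) (hab : a ≤ b) : ((Finset.Icc ⌈a⌉ ⌊b⌋).card : ℝ) ≤ b - a + 1 := by
  rw [Int.card_Icc]
  have h1 := Int.floor_le b
  have h2 := Int.le_ceil a
  have h3 : ((⌊b⌋ + 1 - ⌈a⌉).toNat : ℤ) = max (⌊b⌋ + 1 - ⌈a⌉) 0 := Int.toNat_eq_max _
  have h4 : (((⌊b⌋ + 1 - ⌈a⌉).toNat : ℤ) : ℝ) = ((max (⌊b⌋ + 1 - ⌈a⌉) 0 : ℤ) : ℝ) := by rw [h3]
  rw [Int.cast_natCast] at h4
  rw [h4, Int.cast_max]
  apply max_le
  · push_cast; linarith only [h1, h2]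
  · simp; linarith only [hab]

/-- first half of the final inequality: the powers -/
theorem final_ineq {lam Qr N R n Mr NK : ℝ} (m : ℕ) (hlam : 0 < lam) (hlam1 : lam ≤ 1)
    (hQ : 1 ≤ Qr) (hN : 0 < N) (hR : R = Qr ^ m) (hRN : R ≤ N) (hn : 0 < n)
    (hM : 0 < Mr) (h3M : 3 / Mr ≤ 2 * Qr ^ (-(3 / 2) : ℝ)) (hNK : 0 < NK) (hNKn : NK ≤ Qr * n)
    (P : ℝ) (hP : P ≤ n * (lam / N ^ 2) + 2) :
    (N * R * (4 * n)) ^ (-(3 / 4) : ℝ) * (2 * n / (N * R)) *
      (P * (5 * (lam / (N * Qr) ^ 2) ^ (-(3 / 4) : ℝ) +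
        (3 / Mr) ^ m * (lam / NK ^ 2) ^ (-(3 / 4) : ℝ))) ≤
      36 * (4 * lam / Qr ^ 2) ^ (-(3 / 4) : ℝ) * (1 + n / (N * R)) ^ 3 *
        (2 * Qr ^ (-(3 / 2) : ℝ)) ^ m := by
  have hQ0 : 0 < Qr := by linarith only [hQ]
  have hR1 : 1 ≤ R := by rw [hR]; exact one_le_pow₀ hQ
  have hR0 : 0 < R := by linarith only [hR1]
  set ζ : ℝ := n / (N * R) with hζ
  have hζ0 : 0 < ζ := by positivity
  set X : ℝ := 1 + ζ with hX
  have hX1 : 1 ≤ X := by linarith only [hζ0]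
  set cQ : ℝ := (4 * lam / Qr ^ 2) ^ (-(3 / 4) : ℝ) with hcQ
  have hcQ0 : 0 < cQ := rpow_pos_of_pos (by positivity) _
  set k : ℝ := (N * R * (4 * n)) ^ (-(3 / 4) : ℝ) * (2 * n / (N * R)) with hk
  have hn_eq : n = ζ * (N * R) := by rw [hζ]; field_simp
  have hPX : P ≤ 3 * X := by
    have h1 : n * (lam / N ^ 2) ≤ ζ := by
      have h2 : n * (lam / N ^ 2) = ζ * (lam * (R / N)) := by rw [hζ]; field_simp
      rw [h2]
      have h3 : R / N ≤ 1 := by rw [div_le_one hN]; exact hRN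
      have h4 : 0 < R / N := by positivity
      have h5 : lam * (R / N) ≤ 1 := by nlinarith only [hlam, hlam1, h3]
      nlinarith only [hζ0, h5]
    linarith only [hP, hζ0, h1]
  have hB : k * (lam / (N * Qr) ^ 2) ^ (-(3 / 4) : ℝ) =
      2 * cQ * (ζ * ζ ^ (-(3 / 4) : ℝ)) * R ^ (-(3 / 2) : ℝ) := by
    have h1 : (N * R * (4 * n)) ^ (-(3 / 4) : ℝ) * (lam / (N * Qr) ^ 2) ^ (-(3 / 4) : ℝ) =
        cQ * ζ ^ (-(3 / 4) : ℝ) * R ^ (-(3 / 2) : ℝ) := by
      rw [← mul_rpow (by positivity) (by positivity)]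
      have h2 : N * R * (4 * n) * (lam / (N * Qr) ^ 2) = 4 * lam / Qr ^ 2 * ζ * R ^ 2 := by
        rw [hζ]; field_simp
      rw [h2, mul_rpow (by positivity) (by positivity), mul_rpow (by positivity) (by positivity),
        ← hcQ]
      congr 1
      rw [← rpow_natCast, ← rpow_mul hR0.le]
      norm_num
    have h3 : 2 * n / (N * R) = 2 * ζ := by rw [hζ]; ring
    rw [hk, h3]
    calc (N * R * (4 * n)) ^ (-(3 / 4) : ℝ) * (2 * ζ) * (lam / (N * Qr) ^ 2) ^ (-(3 / 4) : ℝ)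
        = 2 * ζ * ((N * R * (4 * n)) ^ (-(3 / 4) : ℝ) *
          (lam / (N * Qr) ^ 2) ^ (-(3 / 4) : ℝ)) := by ring
      _ = _ := by rw [h1]; ring
  have hC : k * (lam / NK ^ 2) ^ (-(3 / 4) : ℝ) ≤ 2 * cQ * (ζ * ζ ^ ((3 / 4) : ℝ)) := by
    have h0 : (lam / NK ^ 2) ^ (-(3 / 4) : ℝ) ≤ (lam / (Qr * n) ^ 2) ^ (-(3 / 4) : ℝ) := by
      apply rpow_le_rpow_of_nonpos (by positivity) _ (by norm_num)
      apply div_le_div_of_nonneg_left hlam.le (by positivity)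
      exact pow_le_pow_left₀ hNK.le hNKn 2
    have hk0 : 0 ≤ k := by rw [hk]; (clear * - hN hn hR1; positivity)
    refine (mul_le_mul_of_nonneg_left h0 hk0).trans (le_of_eq ?_)
    have h1 : (N * R * (4 * n)) ^ (-(3 / 4) : ℝ) * (lam / (Qr * n) ^ 2) ^ (-(3 / 4) : ℝ) =
        cQ * ζ ^ ((3 / 4) : ℝ) := by
      rw [← mul_rpow (by positivity) (by positivity)]
      have h2 : N * R * (4 * n) * (lam / (Qr * n) ^ 2) = 4 * lam / Qr ^ 2 * ζ⁻¹ := by
        rw [hζ]; field_simp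
      rw [h2, mul_rpow (by positivity) (by positivity), ← hcQ]
      congr 1
      rw [rpow_neg (by positivity), inv_rpow hζ0.le, inv_inv]
    have h3 : 2 * n / (N * R) = 2 * ζ := by rw [hζ]; ring
    rw [hk, h3]
    calc (N * R * (4 * n)) ^ (-(3 / 4) : ℝ) * (2 * ζ) * (lam / (Qr * n) ^ 2) ^ (-(3 / 4) : ℝ)
        = 2 * ζ * ((N * R * (4 * n)) ^ (-(3 / 4) : ℝ) *
          (lam / (Qr * n) ^ 2) ^ (-(3 / 4) : ℝ)) := by ring
      _ = _ := by rw [h1]; ring
  have hz1 : ζ * ζ ^ (-(3 / 4) : ℝ) ≤ X ^ 2 := by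
    have h1 : ζ * ζ ^ (-(3 / 4) : ℝ) = ζ ^ ((1 / 4) : ℝ) := by
      nth_rewrite 1 [← rpow_one ζ]
      rw [← rpow_add hζ0]
      norm_num
    rw [h1]
    calc ζ ^ ((1 / 4) : ℝ) ≤ X ^ ((1 / 4) : ℝ) :=
          rpow_le_rpow hζ0.le (by linarith only []) (by norm_num)
      _ ≤ X ^ (2 : ℝ) := rpow_le_rpow_of_exponent_le hX1 (by norm_num)
      _ = X ^ 2 := by norm_cast
  have hz2 : ζ * ζ ^ ((3 / 4) : ℝ) ≤ X ^ 2 := by
    have h1 : ζ * ζ ^ ((3 / 4) : ℝ) = ζ ^ ((7 / 4) : ℝ) := by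
      nth_rewrite 1 [← rpow_one ζ]
      rw [← rpow_add hζ0]
      norm_num
    rw [h1]
    calc ζ ^ ((7 / 4) : ℝ) ≤ X ^ ((7 / 4) : ℝ) :=
          rpow_le_rpow hζ0.le (by linarith only []) (by norm_num)
      _ ≤ X ^ (2 : ℝ) := rpow_le_rpow_of_exponent_le hX1 (by norm_num)
      _ = X ^ 2 := by norm_cast
  have hq0 : 0 < Qr ^ (-(3 / 2) : ℝ) := rpow_pos_of_pos hQ0 _
  have hRq : R ^ (-(3 / 2) : ℝ) ≤ (2 * Qr ^ (-(3 / 2) : ℝ)) ^ m := by
    have h1 : R ^ (-(3 / 2) : ℝ) = (Qr ^ (-(3 / 2) : ℝ)) ^ m := by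
      rw [hR, ← rpow_natCast, ← rpow_mul hQ0.le, ← rpow_natCast, ← rpow_mul hQ0.le, mul_comm]
    rw [h1]
    exact pow_le_pow_left₀ hq0.le (by linarith only [hq0]) m
  have hMq : (3 / Mr) ^ m ≤ (2 * Qr ^ (-(3 / 2) : ℝ)) ^ m :=
    pow_le_pow_left₀ (by positivity) h3M m
  set G : ℝ := (2 * Qr ^ (-(3 / 2) : ℝ)) ^ m with hG
  have hG0 : 0 < G := by positivity
  have hsum : k * (5 * (lam / (N * Qr) ^ 2) ^ (-(3 / 4) : ℝ) +
        (3 / Mr) ^ m * (lam / NK ^ 2) ^ (-(3 / 4) : ℝ)) ≤ 12 * cQ * X ^ 2 * G := by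
    have e1 : k * (5 * (lam / (N * Qr) ^ 2) ^ (-(3 / 4) : ℝ) +
        (3 / Mr) ^ m * (lam / NK ^ 2) ^ (-(3 / 4) : ℝ)) =
        5 * (k * (lam / (N * Qr) ^ 2) ^ (-(3 / 4) : ℝ)) +
          (3 / Mr) ^ m * (k * (lam / NK ^ 2) ^ (-(3 / 4) : ℝ)) := by ring
    rw [e1, hB]
    have h1 : 2 * cQ * (ζ * ζ ^ (-(3 / 4) : ℝ)) * R ^ (-(3 / 2) : ℝ) ≤ 2 * cQ * X ^ 2 * G := by
      apply mul_le_mul _ hRq (by positivity) (by (clear * - hlam hQ hN hn hR1; positivity))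
      exact mul_le_mul_of_nonneg_left hz1 (by positivity)
    have h2 : (3 / Mr) ^ m * (k * (lam / NK ^ 2) ^ (-(3 / 4) : ℝ)) ≤ G * (2 * cQ * X ^ 2) := by
      apply mul_le_mul hMq _ (by positivity) hG0.le
      exact hC.trans (mul_le_mul_of_nonneg_left hz2 (by positivity))
    linarith only [h1, h2]
  calc k * (P * (5 * (lam / (N * Qr) ^ 2) ^ (-(3 / 4) : ℝ) +
        (3 / Mr) ^ m * (lam / NK ^ 2) ^ (-(3 / 4) : ℝ)))
      = P * (k * (5 * (lam / (N * Qr) ^ 2) ^ (-(3 / 4) : ℝ) +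
        (3 / Mr) ^ m * (lam / NK ^ 2) ^ (-(3 / 4) : ℝ))) := by ring
    _ ≤ (3 * X) * (12 * cQ * X ^ 2 * G) := by
        apply mul_le_mul hPX hsum (by (clear * - hlam hQ hN hn hM hNK hR1; positivity)) (by positivity)
    _ = 36 * cQ * X ^ 3 * G := by ring

/-- the average of the resonance weights -/
theorem kb1_avg_res (T : Tr lam Nb Q Mc L ix) (hlam : 0 < lam) (hlam1 : 2 * lam ≤ 1)
    (hNb : 1 < Nb) (hQ : 2 ≤ Q) (hM : 0 < Mc) (hQM : 15 * (Q : ℝ) ^ (3 / 2 : ℝ) ≤ 4 * Mc)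
    (halI : ∀ ν, InI lam Nb Q L ν (al ν))
    (hal : ∀ ν (K : ℕ), ∃ σ : List (Fin Mc), σ.length = K ∧ InI lam Nb Q L σ (al ν))
    (ν : List (Fin Mc)) (m : ℕ) (hm : m ≤ ν.length) (n : ℤ) (hn : 0 < n) :
    avg m (fun μ => ((Nb * (Q : ℝ) ^ μ.length) * ‖dv (2 * π * al μ) n‖) ^ (-(3 / 4) : ℝ) *
        (((n : ℝ) + Nb) / (Nb * (Q : ℝ) ^ μ.length))) ν ≤
      36 * (4 * lam / (Q : ℝ) ^ 2) ^ (-(3 / 4) : ℝ) *
        (1 + (n : ℝ) / (Nb * (Q : ℝ) ^ (ν.length + m))) ^ 3 * (2 * (Q : ℝ) ^ (-(3 / 2) : ℝ)) ^ m := by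
  have hNr : (1 : ℝ) < Nb := by exact_mod_cast hNb
  have hNr0 : (0 : ℝ) < Nb := by linarith only [hlam, hlam1, hNr]
  have hQr : (2 : ℝ) ≤ Q := by exact_mod_cast hQ
  have hQr0 : (0 : ℝ) < Q := by linarith only [hlam, hlam1, hQr]
  have hMr : (0 : ℝ) < Mc := by exact_mod_cast hM
  have hnr : (0 : ℝ) < n := by exact_mod_cast hn
  have hq0 : 0 < (Q : ℝ) ^ (-(3 / 2) : ℝ) := rpow_pos_of_pos hQr0 _
  obtain ⟨K, hK1, hK2⟩ := exists_scale hNb hQ n hn
  set N : ℝ := Nb * (Q : ℝ) ^ ν.length with hN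
  set R : ℝ := (Q : ℝ) ^ m with hR
  have hN0 : 0 < N := by positivity
  have hR0 : 0 < R := by positivity
  have hNl : Nb * (Q : ℝ) ^ (ν.length + m) = N * R := by rw [hN, hR, pow_add]; ring
  rw [hNl]
  have hlen : ∀ w : List (Fin Mc), w.length = m → Nb * (Q : ℝ) ^ (w ++ ν).length = N * R := by
    intro w hw
    rw [List.length_append, hw, Nat.add_comm, hNl]
  rcases le_or_gt K ν.length with hKj | hKj
  · -- small denominators
    have h1 : ∀ w : List (Fin Mc), w.length = m →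
        ((Nb * (Q : ℝ) ^ (w ++ ν).length) * ‖dv (2 * π * al (w ++ ν)) n‖) ^ (-(3 / 4) : ℝ) *
          (((n : ℝ) + Nb) / (Nb * (Q : ℝ) ^ (w ++ ν).length)) ≤
        2 * (4 * lam / (Q : ℝ) ^ 2) ^ (-(3 / 4) : ℝ) * (2 * (Q : ℝ) ^ (-(3 / 2) : ℝ)) ^ m := by
      intro w hw
      rw [hlen w hw]
      set NK : ℝ := Nb * (Q : ℝ) ^ K with hNK
      have hNK0 : 0 < NK := by positivity
      set S : ℝ := N * R / NK with hS
      have hSR : R ≤ S := by
        rw [hS, le_div_iff₀ hNK0]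
        have : NK ≤ N := by
          rw [hNK, hN]
          exact mul_le_mul_of_nonneg_left (pow_le_pow_right₀ (by linarith only [hlam, hlam1, hQr]) hKj) hNr0.le
        nlinarith only [hlam, hlam1, hR0, this]
      have hR1 : 1 ≤ R := by rw [hR]; exact one_le_pow₀ (by linarith only [hlam, hlam1, hQr])
      have hS0 : 0 < S := by positivity
      have hd := dioph_scale T hlam hlam1 hNb hQ hal (w ++ ν) K n
        (round (n * al (w ++ ν))) hn hK1 hK2
      have hdv := four_le_norm_dv (al (w ++ ν)) n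
      rw [← hNK] at hd
      have h2 : 4 * lam / (Q : ℝ) ^ 2 * S ≤ N * R * ‖dv (2 * π * al (w ++ ν)) n‖ := by
        have h3 : 4 * (lam / (Q : ℝ) ^ 2 / NK) ≤ ‖dv (2 * π * al (w ++ ν)) n‖ := by linarith only [hd, hdv]
        have h4 : 4 * lam / (Q : ℝ) ^ 2 * S = N * R * (4 * (lam / (Q : ℝ) ^ 2 / NK)) := by
          rw [hS]; ring
        rw [h4]
        exact mul_le_mul_of_nonneg_left h3 (by positivity)
      have h5 : (N * R * ‖dv (2 * π * al (w ++ ν)) n‖) ^ (-(3 / 4) : ℝ) ≤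
          (4 * lam / (Q : ℝ) ^ 2) ^ (-(3 / 4) : ℝ) * S ^ (-(3 / 4) : ℝ) := by
        rw [← mul_rpow (by positivity) hS0.le]
        exact rpow_le_rpow_of_nonpos (by (clear * - hlam hNb hQ; positivity)) h2 (by norm_num)
      have h6 : ((n : ℝ) + Nb) / (N * R) ≤ 2 * S ^ (-1 : ℝ) := by
        have h7 : (n : ℝ) + Nb ≤ 2 * NK := by
          have : (Nb : ℝ) ≤ NK := by
            rw [hNK]
            have : (1 : ℝ) ≤ (Q : ℝ) ^ K := one_le_pow₀ (by linarith only [hlam, hlam1, hQr])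
            nlinarith only [this]
          linarith only [hK1, this]
        have h8 : 2 * S ^ (-1 : ℝ) = 2 * NK / (N * R) := by
          rw [rpow_neg_one, hS, inv_div]; ring
        rw [h8]
        exact div_le_div_of_nonneg_right h7 (by (clear * - hNb hQ; positivity))
      have h9 : S ^ (-(3 / 4) : ℝ) * S ^ (-1 : ℝ) ≤ (2 * (Q : ℝ) ^ (-(3 / 2) : ℝ)) ^ m := by
        rw [← rpow_add hS0]
        calc S ^ (-(3 / 4) + -1 : ℝ) ≤ R ^ (-(3 / 4) + -1 : ℝ) :=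
              rpow_le_rpow_of_nonpos hR0 hSR (by norm_num)
          _ ≤ R ^ (-(3 / 2) : ℝ) := rpow_le_rpow_of_exponent_le hR1 (by norm_num)
          _ = ((Q : ℝ) ^ (-(3 / 2) : ℝ)) ^ m := by
              rw [hR, ← rpow_natCast, ← rpow_mul hQr0.le, ← rpow_natCast, ← rpow_mul hQr0.le,
                mul_comm]
          _ ≤ _ := pow_le_pow_left₀ hq0.le (by linarith only [hq0]) m
      calc (N * R * ‖dv (2 * π * al (w ++ ν)) n‖) ^ (-(3 / 4) : ℝ) * (((n : ℝ) + Nb) / (N * R))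
          ≤ ((4 * lam / (Q : ℝ) ^ 2) ^ (-(3 / 4) : ℝ) * S ^ (-(3 / 4) : ℝ)) *
            (2 * S ^ (-1 : ℝ)) := by
            apply mul_le_mul h5 h6 (by (clear * - hNb hQ hn; positivity)) (by (clear * - hlam hNb hQ; positivity))
        _ = 2 * (4 * lam / (Q : ℝ) ^ 2) ^ (-(3 / 4) : ℝ) *
            (S ^ (-(3 / 4) : ℝ) * S ^ (-1 : ℝ)) := by ring
        _ ≤ _ := mul_le_mul_of_nonneg_left h9 (by positivity)
    refine (avg_le hM m _ _ ν h1).trans ?_
    have hX : 1 ≤ (1 + (n : ℝ) / (N * R)) ^ 3 := one_le_pow₀ (by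
      have : 0 ≤ (n : ℝ) / (N * R) := by positivity
      linarith only [this])
    set c := (4 * lam / (Q : ℝ) ^ 2) ^ (-(3 / 4) : ℝ) with hc
    have hc0 : 0 ≤ c := by positivity
    have hG0 : 0 ≤ (2 * (Q : ℝ) ^ (-(3 / 2) : ℝ)) ^ m := by positivity
    apply mul_le_mul_of_nonneg_right _ hG0
    nlinarith only [hlam, hlam1, hX, hc0]
  · -- large denominators
    obtain ⟨k, hk, hkn⟩ : ∃ k, K = k + 1 ∧ Nb * (Q : ℝ) ^ k ≤ n := by
      rcases hK2 with h | h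
      · (clear * - hm hKj h; omega)
      · exact h
    have hNn : N ≤ n := by
      refine le_trans ?_ hkn
      rw [hN]
      exact mul_le_mul_of_nonneg_left (pow_le_pow_right₀ (by linarith only [hlam, hlam1, hQr]) (by omega)) hNr0.le
    set P : Finset ℤ := Finset.Icc ⌈n * L ν - 1 / 2⌉ ⌊n * (L ν + ell lam Nb Q ν.length) + 1 / 2⌋
      with hP
    have hel := ell_pos hlam (by omega : 0 < Nb) (by omega : 0 < Q) ν.length
    have hPcard : (P.card : ℝ) ≤ n * (lam / N ^ 2) + 2 := by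
      have h1 := card_Icc_le (n * L ν - 1 / 2) (n * (L ν + ell lam Nb Q ν.length) + 1 / 2)
        (by nlinarith only [hlam, hlam1, hnr, hel])
      have h2 : ell lam Nb Q ν.length = lam / N ^ 2 := by rw [hN]; rfl
      rw [h2] at h1
      rw [hP, h2]
      linarith only [h1]
    set W : ℝ := (lam / (Nb * (Q : ℝ) ^ K) ^ 2) ^ (-(3 / 4) : ℝ) with hW
    have hW0 : 0 ≤ W := by (clear * - hlam hNb hQ; positivity)
    have hVW : ∀ (p : ℤ) (μ : List (Fin Mc)), |al μ - p / n| ^ (-(3 / 4) : ℝ) ≤ W := by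
      intro p μ
      exact rpow_le_rpow_of_nonpos (by (clear * - hlam hNb hQ; positivity)) (dioph T hlam hlam1 hNb hal μ K n p hn hK1)
        (by norm_num)
    have hpt : ∀ w : List (Fin Mc), w.length = m →
        ((Nb * (Q : ℝ) ^ (w ++ ν).length) * ‖dv (2 * π * al (w ++ ν)) n‖) ^ (-(3 / 4) : ℝ) *
          (((n : ℝ) + Nb) / (Nb * (Q : ℝ) ^ (w ++ ν).length)) ≤
        ((N * R * (4 * n)) ^ (-(3 / 4) : ℝ) * (2 * n / (N * R))) *
          ∑ p ∈ P, |al (w ++ ν) - p / n| ^ (-(3 / 4) : ℝ) := by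
      intro w hw
      rw [hlen w hw]
      set α := al (w ++ ν) with hα
      obtain ⟨hα1, hα2⟩ := T.anc hlam (by omega) (by omega) w ν α (halI _)
      set p : ℤ := round (n * α) with hp
      have hpm : p ∈ P := by
        have hr := abs_le.mp (abs_sub_round (n * α))
        rw [hP, Finset.mem_Icc]
        constructor
        · rw [Int.ceil_le]
          have : (n : ℝ) * L ν ≤ n * α := mul_le_mul_of_nonneg_left hα1 hnr.le
          linarith only [hr, this]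
        · rw [Int.le_floor]
          have : (n : ℝ) * α ≤ n * (L ν + ell lam Nb Q ν.length) :=
            mul_le_mul_of_nonneg_left hα2 hnr.le
          linarith only [hr, this]
      have hpos : 0 < |α - p / n| :=
        lt_of_lt_of_le (ell_pos hlam (by omega) (by omega) K)
          (dioph T hlam hlam1 hNb hal (w ++ ν) K n p hn hK1)
      have h1 : N * R * (4 * n) * |α - p / n| ≤ N * R * ‖dv (2 * π * α) n‖ := by
        have h2 := four_le_norm_dv α n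
        rw [← hp, abs_mul_sub _ n p hn] at h2
        have h3 := mul_le_mul_of_nonneg_left h2 (by positivity : 0 ≤ N * R)
        linarith only [h3]
      have h4 : (N * R * ‖dv (2 * π * α) n‖) ^ (-(3 / 4) : ℝ) ≤
          (N * R * (4 * n)) ^ (-(3 / 4) : ℝ) * |α - p / n| ^ (-(3 / 4) : ℝ) := by
        rw [← mul_rpow (by positivity) (abs_nonneg _)]
        exact rpow_le_rpow_of_nonpos (by (clear * - hNb hQ hn hpos; positivity)) h1 (by norm_num)
      have h5 : |α - p / n| ^ (-(3 / 4) : ℝ) ≤ ∑ p ∈ P, |α - p / n| ^ (-(3 / 4) : ℝ) :=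
        Finset.single_le_sum (f := fun p : ℤ => |α - p / n| ^ (-(3 / 4) : ℝ))
          (fun _ _ => rpow_nonneg (abs_nonneg _) _) hpm
      have h6 : ((n : ℝ) + Nb) / (N * R) ≤ 2 * n / (N * R) := by
        apply div_le_div_of_nonneg_right _ (by positivity)
        have : (Nb : ℝ) ≤ N := by
          rw [hN]
          have : (1 : ℝ) ≤ (Q : ℝ) ^ ν.length := one_le_pow₀ (by linarith only [hlam, hlam1, hQr])
          nlinarith only [this]
        linarith only [hNn, this]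
      calc (N * R * ‖dv (2 * π * α) n‖) ^ (-(3 / 4) : ℝ) * (((n : ℝ) + Nb) / (N * R))
          ≤ ((N * R * (4 * n)) ^ (-(3 / 4) : ℝ) * |α - p / n| ^ (-(3 / 4) : ℝ)) *
            (2 * n / (N * R)) := by
            apply mul_le_mul h4 h6 (by (clear * - hNb hQ hn; positivity)) (by (clear * - hNb hQ hn hpos; positivity))
        _ = ((N * R * (4 * n)) ^ (-(3 / 4) : ℝ) * (2 * n / (N * R))) *
            |α - p / n| ^ (-(3 / 4) : ℝ) := by ring
        _ ≤ _ := mul_le_mul_of_nonneg_left h5 (by (clear * - hNb hQ hn; positivity))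
    refine (avg_le_avg m _ (fun μ => ((N * R * (4 * n)) ^ (-(3 / 4) : ℝ) * (2 * n / (N * R))) *
      ∑ p ∈ P, |al μ - p / n| ^ (-(3 / 4) : ℝ)) ν hpt).trans ?_
    rw [avg_sum P m (fun (p : ℤ) μ => |al μ - p / n| ^ (-(3 / 4) : ℝ))]
    have hav : ∑ p ∈ P, avg m (fun μ => |al μ - p / n| ^ (-(3 / 4) : ℝ)) ν ≤
        P.card * (5 * (lam / (N * Q) ^ 2) ^ (-(3 / 4) : ℝ) + (3 / (Mc : ℝ)) ^ m * W) := by
      rw [← nsmul_eq_mul]
      apply Finset.sum_le_card_nsmul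
      intro p _
      have h1 := avg_V T hlam (by omega) (by omega) hM hQM halI (p / n : ℝ) W hW0 (hVW p) m ν
      have h2 : ell lam Nb Q (ν.length + 1) = lam / (N * Q) ^ 2 := by
        rw [hN, ell, pow_succ (Q : ℝ) ν.length, mul_assoc]
      rw [h2] at h1
      exact h1
    have hk0 : 0 ≤ (N * R * (4 * n)) ^ (-(3 / 4) : ℝ) * (2 * n / (N * R)) := by (clear * - hNb hQ hn; positivity)
    refine (mul_le_mul_of_nonneg_left hav hk0).trans ?_
    have hRN : R ≤ N := by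
      rw [hR, hN]
      have h1 : (Q : ℝ) ^ m ≤ (Q : ℝ) ^ ν.length := pow_le_pow_right₀ (by linarith only [hlam, hlam1, hQr]) hm
      have h2 : (0 : ℝ) < (Q : ℝ) ^ ν.length := by positivity
      nlinarith only [hNr, hN0, h1]
    refine final_ineq m hlam (by linarith only [hlam, hlam1]) (by linarith only [hlam, hlam1, hQr]) hN0 rfl hRN hnr hMr ?_
      (by positivity) ?_ _ hPcard
    · rw [div_le_iff₀ hMr]
      have h1 : (Q : ℝ) ^ (3 / 2 : ℝ) * (Q : ℝ) ^ (-(3 / 2) : ℝ) = 1 := by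
        rw [← rpow_add hQr0]; norm_num
      nlinarith only [hlam, hlam1, hQM, hq0, h1]
    · rw [hk, pow_succ]
      nlinarith only [hkn]

end

theorem avg_append_mul {Mc : ℕ} (m : ℕ) (f : List (Fin Mc) → ℝ) (k : ℝ) (ν z : List (Fin Mc)) :
    avg m (fun μ => k * f (μ ++ z)) ν = k * avg m f (ν ++ z) := by
  induction m generalizing ν with
  | zero => rfl
  | succ m ih =>
    unfold avg
    simp only [ih, List.cons_append]
    rw [← Finset.mul_sum, mul_div_assoc]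

theorem scale_eq {q A d x : ℝ} (hq : 0 < q) (hA : 0 < A) (hd : 0 ≤ d) :
    (A * d) ^ (-(3 / 4) : ℝ) * (x / A) =
      (q ^ (3 / 4 : ℝ) * q) * ((A * q * d) ^ (-(3 / 4) : ℝ) * (x / (A * q))) := by
  have h1 : A * q * d = A * d * q := by ring
  rw [h1, mul_rpow (by positivity) hq.le]
  have h2 : q ^ (3 / 4 : ℝ) * q ^ (-(3 / 4) : ℝ) = 1 := by
    rw [← rpow_add hq]; norm_num
  have h3 : (q ^ (3 / 4 : ℝ) * q) * ((A * d) ^ (-(3 / 4) : ℝ) * q ^ (-(3 / 4) : ℝ) *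
      (x / (A * q))) = (q ^ (3 / 4 : ℝ) * q ^ (-(3 / 4) : ℝ)) * ((A * d) ^ (-(3 / 4) : ℝ)) *
        (q * (x / (A * q))) := by ring
  rw [h3, h2, one_mul]
  congr 1
  field_simp

theorem tree (Q : ℕ) (hQ : 16 ≤ Q) : ∃ γ : ℝ, 0 < γ ∧ γ ≤ 1 ∧ ∀ m₀ : ℕ, ∃ C : ℝ, 1 ≤ C ∧
    ∀ Nb : ℕ, 10 ≤ Nb → ∃ (Mc : ℕ) (om : List (Fin Mc) → ℝ), 0 < Mc ∧ Q ^ 2 ≤ 2 * Mc ∧ Mc ≤ Q ^ 2 ∧
      (∀ ν, Rot γ Nb (om ν)) ∧
      (∀ ν c, |om (c :: ν) - om ν| ≤ 7 / (Q : ℝ) ^ (2 * m₀) / (Nb * (Q : ℝ) ^ ν.length) ^ 2) ∧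
      ∀ (ν : List (Fin Mc)) (m : ℕ), m ≤ ν.length → ∀ n : ℤ, n ≠ 0 →
        avg m (fun μ => ((Nb * (Q : ℝ) ^ μ.length) * ‖dv (om μ) n‖) ^ (-(3 / 4) : ℝ) *
          ((|(n : ℝ)| + Nb) / (Nb * (Q : ℝ) ^ μ.length))) ν ≤
        C * (1 + |(n : ℝ)| / (Nb * (Q : ℝ) ^ (ν.length + m))) ^ 3 * (2 * (Q : ℝ) ^ (-(3 / 2) : ℝ)) ^ m := by
  have hQr : (16 : ℝ) ≤ Q := by exact_mod_cast hQ
  have hQr0 : (0 : ℝ) < Q := by linarith only [hQr]
  have hQ2 : (256 : ℝ) ≤ (Q : ℝ) ^ 2 := by nlinarith only [hQr]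
  set lam : ℝ := 1 / (2 * (Q : ℝ) ^ 2) with hlamdef
  have hlam : 0 < lam := by positivity
  have hlamQ : lam * (Q : ℝ) ^ 2 = 1 / 2 := by
    rw [hlamdef]; field_simp
  have hlam2 : 2 * lam ≤ 1 / 4 := by nlinarith only [hQ2, hlamQ]
  have hlam3 : lam * ((Q : ℝ) ^ 2 + 2) ≤ 1 := by nlinarith only [hlam, hlamQ, hlam2]
  clear_value lam
  have hQ2n : 256 ≤ Q ^ 2 := by nlinarith only [hQ]
  set cQ : ℝ := (4 * lam / (Q : ℝ) ^ 2) ^ (-(3 / 4) : ℝ) with hcQ
  have hcQ1 : 1 ≤ cQ := by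
    apply one_le_rpow_of_pos_of_le_one_of_nonpos (by positivity) _ (by norm_num)
    rw [div_le_one (by positivity)]
    nlinarith only [hQ2, hlam, hlam2]
  refine ⟨lam / (Q : ℝ) ^ 3, by positivity, ?_, fun m₀ => ?_⟩
  · rw [div_le_one (by positivity)]
    have : (1 : ℝ) ≤ (Q : ℝ) ^ 3 := one_le_pow₀ (by linarith only [hQr, hlam, hlam2])
    linarith only [hlam, hlam2, this]
  set q : ℝ := (Q : ℝ) ^ m₀ with hq
  have hq1 : 1 ≤ q := one_le_pow₀ (by linarith only [hQr, hlam, hlam2])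
  have hq0 : 0 < q := by linarith only [hlam, hlam2, hq1]
  set kq : ℝ := q ^ (3 / 4 : ℝ) * q with hkq
  have hkq1 : 1 ≤ kq := by
    have : 1 ≤ q ^ (3 / 4 : ℝ) := one_le_rpow hq1 (by norm_num)
    nlinarith only [hlam, hlam2, hq1, this]
  refine ⟨kq * (36 * cQ), by nlinarith only [hQ2, hlam, hlamQ, hlam2, hcQ1, hkq1], ?_⟩
  intro Nb hNb
  have hNr : (10 : ℝ) ≤ Nb := by exact_mod_cast hNb
  have hNr0 : (0 : ℝ) < Nb := by linarith only [hlam, hlam2, hNr]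
  obtain ⟨L, ix, T⟩ := exists_tr (Nb := Nb) (Q := Q) hlam (by omega) (by omega) hlam3
  have hM : 0 < Q ^ 2 - 3 := by omega
  obtain ⟨al, halI, hal⟩ := exists_al T hlam (by omega) (by omega) ⟨0, hM⟩
  set z : List (Fin (Q ^ 2 - 3)) := List.replicate m₀ ⟨0, hM⟩ with hz
  have hzl : z.length = m₀ := by rw [hz, List.length_replicate]
  have hMr : ((Q ^ 2 - 3 : ℕ) : ℝ) = (Q : ℝ) ^ 2 - 3 := by
    rw [Nat.cast_sub (by omega)]; push_cast; ring
  have hQM : 15 * (Q : ℝ) ^ (3 / 2 : ℝ) ≤ 4 * ((Q ^ 2 - 3 : ℕ) : ℝ) := by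
    rw [hMr]
    have h1 : (Q : ℝ) ^ (3 / 2 : ℝ) * (Q : ℝ) ^ (1 / 2 : ℝ) = (Q : ℝ) ^ 2 := by
      rw [← rpow_add hQr0, ← rpow_natCast]; norm_num
    have h2 : (4 : ℝ) ≤ (Q : ℝ) ^ (1 / 2 : ℝ) := by
      have h3 : (16 : ℝ) ^ (1 / 2 : ℝ) = 4 := by
        rw [← sqrt_eq_rpow]
        rw [show (16 : ℝ) = 4 ^ 2 by norm_num, sqrt_sq (by norm_num)]
      rw [← h3]
      exact rpow_le_rpow (by norm_num) hQr (by norm_num)
    have h4 : 0 ≤ (Q : ℝ) ^ (3 / 2 : ℝ) := by positivity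
    have h5 : 4 * (Q : ℝ) ^ (3 / 2 : ℝ) ≤ (Q : ℝ) ^ 2 := by nlinarith only [hlam, hlam2, h1, h2, h4]
    linarith only [hQ2, hlam, hlam2, h5]
  refine ⟨Q ^ 2 - 3, fun ν => 2 * π * al (ν ++ z), hM, by omega, by omega, ?_, ?_, ?_⟩
  · -- the rotation numbers
    intro ν'
    show Rot _ _ (2 * π * al (ν' ++ z))
    generalize ν' ++ z = ν
    obtain ⟨ha, hb, hc⟩ := dioph0 T hlam (by linarith only [hlam, hlam2]) (by omega) hal ν
    have hpi := pi_gt_three
    have hpi2 := pi_lt_d2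
    have ha' : 1 ≤ al ν * (Nb + 1) := by
      rw [div_le_iff₀ (by positivity)] at ha; exact ha
    have hb' : al ν * Nb ≤ 1 := by
      rw [le_div_iff₀ hNr0] at hb; exact hb
    have hal0 : 0 < al ν := lt_of_lt_of_le (by positivity) ha
    refine ⟨?_, ?_, ?_, ?_⟩
    · nlinarith only [hQ2, hlam, hlamQ, hlam2, hNr, hpi, hpi2, ha', hb']
    · nlinarith only [hQ2, hlam, hlamQ, hlam2, hpi, hpi2, hb']
    · have hdio : ∀ n : ℤ, 0 < n → lam / (Q : ℝ) ^ 3 / (|(n : ℝ)| + Nb) ≤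
          ‖dv (2 * π * al ν) n‖ := by
        intro n hn
        have hnr : (0 : ℝ) < n := by exact_mod_cast hn
        obtain ⟨K, hK1, hK2⟩ := exists_scale (by omega : 1 < Nb) (by omega : 2 ≤ Q) n hn
        have h1 := dioph_scale T hlam (by linarith only [hlam, hlam2]) (by omega) (by omega) hal ν K n
          (round (n * al ν)) hn hK1 hK2
        have h2 := four_le_norm_dv (al ν) n
        have h3 : lam / (Q : ℝ) ^ 3 / (|(n : ℝ)| + Nb) ≤
            lam / (Q : ℝ) ^ 2 / (Nb * (Q : ℝ) ^ K) := by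
          rw [abs_of_pos hnr, div_div lam, div_div lam]
          apply div_le_div_of_nonneg_left hlam.le (by positivity)
          have h4 : Nb * (Q : ℝ) ^ K ≤ Q * (n + Nb) := by
            rcases hK2 with h0 | ⟨k, hk, hkn⟩
            · rw [h0, pow_zero]; nlinarith only [hQr, hQ2, hlam, hlam2, hNr, hnr]
            · rw [hk, pow_succ]; nlinarith only [hNr, hkn]
          calc (Q : ℝ) ^ 2 * (Nb * (Q : ℝ) ^ K) ≤ (Q : ℝ) ^ 2 * (Q * (n + Nb)) :=
                mul_le_mul_of_nonneg_left h4 (by positivity)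
            _ = (Q : ℝ) ^ 3 * (n + Nb) := by ring
        have h5 := abs_nonneg ((n : ℝ) * al ν - (round (n * al ν) : ℤ))
        linarith only [h1, h2, h3, h5]
      intro n hn
      rcases lt_or_gt_of_ne hn with h | h
      · have := hdio (-n) (by omega)
        rw [norm_dv_neg] at this
        push_cast at this
        rw [abs_neg] at this
        exact this
      · exact hdio n h
    · have hlow : ∀ n : ℤ, 0 < n → |(n : ℝ)| ≤ (Nb : ℝ) / 2 →
          |(n : ℝ)| / Nb ≤ ‖dv (2 * π * al ν) n‖ := by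
        intro n hn hn2
        have hnr : (0 : ℝ) < n := by exact_mod_cast hn
        rw [abs_of_pos hnr] at hn2 ⊢
        have h2 := four_le_norm_dv (al ν) n
        set p : ℤ := round (n * al ν) with hp
        refine le_trans ?_ h2
        have h3 : (n : ℝ) * al ν ≤ 1 / 2 := by nlinarith only [hlam, hlam2, hNr, ha', hb', hn2]
        have h4 : 0 < (n : ℝ) * al ν := by (clear * - hal0 hn; positivity)
        have h5 : (n : ℝ) / Nb ≤ 4 * (n * al ν) := by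
          rw [div_le_iff₀ hNr0]
          nlinarith only [hlam, hlam2, hNr, ha', hnr, h4]
        have h6 : (n : ℝ) * al ν ≤ |n * al ν - p| := by
          rcases le_or_gt p 0 with h | h
          · have : (p : ℝ) ≤ 0 := by exact_mod_cast h
            calc (n : ℝ) * al ν ≤ n * al ν - p := by linarith only [this]
              _ ≤ _ := le_abs_self _
          · have : (1 : ℝ) ≤ p := by exact_mod_cast h
            calc (n : ℝ) * al ν ≤ -(n * al ν - p) := by linarith only [h3, this]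
              _ ≤ _ := neg_le_abs _
        linarith only [h5, h6]
      intro n hn
      rcases lt_trichotomy n 0 with h | h | h
      · have h1 := hlow (-n) (by omega)
        rw [norm_dv_neg] at h1
        push_cast at h1
        rw [abs_neg] at h1
        exact h1 hn
      · subst h; simp
      · exact hlow n h hn
  · -- the step
    intro ν c
    have h1 := halI (ν ++ z)
    have h2 := T.parent hlam (by omega) (by omega) (ν ++ z) c _ (halI (c :: (ν ++ z)))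
    have h3 : |al (c :: (ν ++ z)) - al (ν ++ z)| ≤ ell lam Nb Q (ν ++ z).length := by
      rw [abs_le]
      constructor <;> linarith only [h1.1, h1.2, h2.1, h2.2, h1, h2]
    have h4 : 2 * π * al (c :: (ν ++ z)) - 2 * π * al (ν ++ z) =
        2 * π * (al (c :: (ν ++ z)) - al (ν ++ z)) := by ring
    show |2 * π * al (c :: (ν ++ z)) - 2 * π * al (ν ++ z)| ≤ _
    rw [h4, abs_mul, abs_of_pos (by positivity : (0 : ℝ) < 2 * π)]
    have hpi2 := pi_lt_d2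
    calc 2 * π * |al (c :: (ν ++ z)) - al (ν ++ z)| ≤ 7 * ell lam Nb Q (ν ++ z).length :=
          mul_le_mul (by linarith only [hlam, hlam2, hpi2]) h3 (abs_nonneg _) (by norm_num)
      _ = (7 * lam) / (Q : ℝ) ^ (2 * m₀) / (Nb * (Q : ℝ) ^ ν.length) ^ 2 := by
          rw [ell, List.length_append, hzl, pow_add, div_div]
          rw [mul_div_assoc]
          congr 2
          ring
      _ ≤ _ := by
          apply div_le_div_of_nonneg_right _ (by positivity)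
          apply div_le_div_of_nonneg_right _ (by positivity)
          linarith only [hlam, hlam2]
  · -- the averages
    have key : ∀ (ν : List (Fin (Q ^ 2 - 3))) (m : ℕ), m ≤ ν.length → ∀ n : ℤ, 0 < n →
        avg m (fun μ => ((Nb * (Q : ℝ) ^ μ.length) * ‖dv (2 * π * al (μ ++ z)) n‖) ^
            (-(3 / 4) : ℝ) * (((n : ℝ) + Nb) / (Nb * (Q : ℝ) ^ μ.length))) ν ≤
          kq * (36 * cQ) * (1 + (n : ℝ) / (Nb * (Q : ℝ) ^ (ν.length + m))) ^ 3 *
            (2 * (Q : ℝ) ^ (-(3 / 2) : ℝ)) ^ m := by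
      intro ν m hm n hn
      have hnr : (0 : ℝ) < n := by exact_mod_cast hn
      have h1 := kb1_avg_res T hlam (by linarith only [hlam, hlam2]) (by omega) (by omega) hM hQM halI hal (ν ++ z) m
        (by rw [List.length_append]; omega) n hn
      have h2 := avg_append_mul m (fun μ => ((Nb * (Q : ℝ) ^ μ.length) *
        ‖dv (2 * π * al μ) n‖) ^ (-(3 / 4) : ℝ) * (((n : ℝ) + Nb) / (Nb * (Q : ℝ) ^ μ.length)))
        kq ν z
      have h3 : (fun μ : List (Fin (Q ^ 2 - 3)) => ((Nb * (Q : ℝ) ^ μ.length) *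
          ‖dv (2 * π * al (μ ++ z)) n‖) ^ (-(3 / 4) : ℝ) *
          (((n : ℝ) + Nb) / (Nb * (Q : ℝ) ^ μ.length))) =
          fun μ => kq * (((Nb * (Q : ℝ) ^ (μ ++ z).length) *
          ‖dv (2 * π * al (μ ++ z)) n‖) ^ (-(3 / 4) : ℝ) *
          (((n : ℝ) + Nb) / (Nb * (Q : ℝ) ^ (μ ++ z).length))) := by
        funext μ
        rw [List.length_append, hzl, pow_add, ← mul_assoc (Nb : ℝ), ← hq]
        exact scale_eq hq0 (by positivity) (norm_nonneg _)
      rw [h3, h2]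
      have h4 : kq * (36 * cQ) * (1 + (n : ℝ) / (Nb * (Q : ℝ) ^ (ν.length + m))) ^ 3 *
            (2 * (Q : ℝ) ^ (-(3 / 2) : ℝ)) ^ m =
          kq * (36 * cQ * (1 + (n : ℝ) / (Nb * (Q : ℝ) ^ (ν.length + m))) ^ 3 *
            (2 * (Q : ℝ) ^ (-(3 / 2) : ℝ)) ^ m) := by ring
      rw [h4]
      apply mul_le_mul_of_nonneg_left _ (by linarith only [hlam, hlam2, hkq1])
      refine h1.trans ?_
      apply mul_le_mul_of_nonneg_right _ (by positivity)
      apply mul_le_mul_of_nonneg_left _ (by positivity)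
      apply pow_le_pow_left₀ (by (clear * - hQ hNb hn; positivity))
      have h5 : (n : ℝ) / (Nb * (Q : ℝ) ^ ((ν ++ z).length + m)) ≤
          n / (Nb * (Q : ℝ) ^ (ν.length + m)) := by
        apply div_le_div_of_nonneg_left hnr.le (by positivity)
        apply mul_le_mul_of_nonneg_left _ hNr0.le
        apply pow_le_pow_right₀ (by linarith only [hQr, hlam, hlam2])
        rw [List.length_append]
        (clear * - hM hzl; omega)
      linarith only [h5]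
    intro ν m hm n hn
    rcases lt_or_gt_of_ne hn with h | h
    · have h1 := key ν m hm (-n) (by omega)
      have h2 : |(n : ℝ)| = ((-n : ℤ) : ℝ) := by
        rw [abs_of_neg (by exact_mod_cast h)]; push_cast; ring
      rw [h2]
      simp only [norm_dv_neg] at h1
      exact h1
    · have h1 := key ν m hm n h
      rw [abs_of_pos (by exact_mod_cast h : (0 : ℝ) < n)]
      exact h1

end Pool.Agent.MP_b87ea9_an.Kam
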