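import Mathlib
import Pool.Agent.Lib.MP_b87ea9_an.KDefs

set_option autoImplicit false

/-! # Standing assumptions of one Newton step -/

namespace Pool.Agent.MP_b87ea9_an.Kam

open Real

/-- standing assumptions at one level: table `h`, lines `g`, scale `N`, rotation number `ω` -/
structure Ctx (K γ N Nb J ω : ℝ) (h g : ℂ → ℂ) : Prop where
  K1 : 1 ≤ K
  γ0 : 0 < γ
  γ1 : γ ≤ 1
  N1 : 1 ≤ N
  Nb1 : 10 ^ 4 * K ^ 4 ≤ Nb
  J0 : 0 ≤ J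
  J1 : J ≤ 1
  lo : 1 ≤ ω * Nb
  hi : ω * Nb ≤ 7
  tb : Tb K N h
  gs : GS K N J g

/-- the next rotation number, and the bounds of the error `υ` and of the rotation response
`V₀, V₁` on the strip `2 ρ`, `ρ = cr K / N`; everything normalised with `Λ = max N Nb` -/
structure Pre (K γ N Nb J ω : ℝ) (h g : ℂ → ℂ) (ω' σ υ V₀ V₁ : ℝ) : Prop where
  ctx : Ctx K γ N Nb J ω h g
  rot : Rot γ Nb ω'
  σ0 : 0 ≤ σ
  υ0 : 0 ≤ υ
  V00 : 0 ≤ V₀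
  V10 : 0 ≤ V₁
  dom : |ω' - ω| ≤ σ / (N * max N Nb)
  bu : Bd (2 * cr K / N) (uu h g ω ω') (υ / (Nb * N * max N Nb))
  bv : Bd (2 * cr K / N) (vv h g ω ω') (max N Nb * V₀)
  bv1 : Bd (2 * cr K / N) (deriv (vv h g ω ω')) (N * max N Nb * V₁)

/-- `s z = (ω' - ω) + w (z + ω') - w z` -/
noncomputable def ss (h g : ℂ → ℂ) (ω ω' : ℝ) (z : ℂ) : ℂ :=
  ((ω' - ω : ℝ) : ℂ) + ww h g ω ω' (z + ω') - ww h g ω ω' z

/-- fresh Fourier block `A < |n| ≤ B` -/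
noncomputable def blockF (c : ℤ → ℂ) (A B : ℕ) : ℂ → ℂ :=
  trunc (fun n => if |n| ≤ (A : ℤ) then 0 else c n) B

end Pool.Agent.MP_b87ea9_an.Kam
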