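import Mathlib
import Pool.Agent.Lib.MP_b87ea9_an.KDefs
import Pool.Agent.Lib.MP_b87ea9_an.KDefs2
import Pool.Agent.Lib.MP_b87ea9_an.KDefs3
import Pool.Agent.Lib.MP_b87ea9_an.KA1
import Pool.Agent.Lib.MP_b87ea9_an.KA2

set_option autoImplicit false

/-! State basics, part 1: bounds of `g` and of the half difference -/

namespace Pool.Agent.MP_b87ea9_an.Kam

open Real MeasureTheory

variable {K γ N Nb J ω : ℝ} {h g : ℂ → ℂ}

/-! ### constants -/

theorem kc_cr_pos (hK : 1 ≤ K) : 0 < cr K := by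
  unfold cr
  positivity

theorem kc_cr4 (hK : 1 ≤ K) : K ^ 4 * cr K = 1 / 10 ^ 4 := by
  unfold cr
  have : K ≠ 0 := by positivity
  field_simp

theorem kc_cr_pow (hK : 1 ≤ K) {j : ℕ} (hj : j ≤ 4) : K ^ j * cr K ≤ 1 / 10 ^ 4 := by
  rw [← kc_cr4 hK]
  exact mul_le_mul_of_nonneg_right (pow_le_pow_right₀ hK hj) (kc_cr_pos hK).le

theorem kc_Nb0 (c : Ctx K γ N Nb J ω h g) : 0 < Nb := by
  have h1 := c.Nb1
  have h2 : 0 < 10 ^ 4 * K ^ 4 := by have := c.K1; positivity
  linarith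

theorem kc_N0 (c : Ctx K γ N Nb J ω h g) : 0 < N := lt_of_lt_of_le one_pos c.N1

theorem kc_K0 (c : Ctx K γ N Nb J ω h g) : 0 < K := lt_of_lt_of_le one_pos c.K1

theorem kc_ω0 (c : Ctx K γ N Nb J ω h g) : 0 < ω := by
  have h1 := c.lo
  have h2 := kc_Nb0 c
  by_contra hc
  push Not at hc
  nlinarith

theorem kc_ω_le (c : Ctx K γ N Nb J ω h g) : ω ≤ 7 / Nb := by
  rw [le_div_iff₀ (kc_Nb0 c)]
  exact c.hi

theorem kc_ω_ge (c : Ctx K γ N Nb J ω h g) : 1 / Nb ≤ ω := by
  rw [div_le_iff₀ (kc_Nb0 c)]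
  exact c.lo

theorem kc_ω_pow (c : Ctx K γ N Nb J ω h g) {j : ℕ} (hj : j ≤ 4) : K ^ j * ω ≤ 7 / 10 ^ 4 := by
  have h1 := c.Nb1
  have h2 := c.hi
  have h3 := kc_ω0 c
  have h4 : K ^ j ≤ K ^ 4 := pow_le_pow_right₀ c.K1 hj
  have h5 : K ^ j * ω ≤ K ^ 4 * ω := mul_le_mul_of_nonneg_right h4 h3.le
  have h6 : 10 ^ 4 * K ^ 4 * ω ≤ 7 := by
    calc 10 ^ 4 * K ^ 4 * ω ≤ Nb * ω := mul_le_mul_of_nonneg_right h1 h3.le
      _ = ω * Nb := mul_comm _ _
      _ ≤ 7 := h2
  linarith

theorem kc_r0 (c : Ctx K γ N Nb J ω h g) : 0 < 4 * cr K / N := by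
  have := kc_cr_pos c.K1
  have := kc_N0 c
  positivity

theorem kc_im (c : Ctx K γ N Nb J ω h g) {z : ℂ} (hz : z ∈ Strip (4 * cr K / N)) :
    N * |z.im| ≤ 4 * cr K := by
  have h1 : |z.im| < 4 * cr K / N := hz
  rw [lt_div_iff₀ (kc_N0 c)] at h1
  linarith

/-! ### strips -/

theorem kc_strip_add {r : ℝ} {z : ℂ} (hz : z ∈ Strip r) (a : ℝ) : z + a ∈ Strip r := by
  have h1 : |z.im| < r := hz
  change |(z + a).im| < r
  simpa using h1

theorem kc_strip_re {r : ℝ} {z : ℂ} (hz : z ∈ Strip r) : (z.re : ℂ) ∈ Strip r := by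
  have h1 : |z.im| < r := hz
  change |((z.re : ℂ)).im| < r
  rw [Complex.ofReal_im, abs_zero]
  exact lt_of_le_of_lt (abs_nonneg _) h1

theorem kc_sub_re (z : ℂ) : ‖z - z.re‖ = |z.im| := by
  have h1 : z - z.re = z.im * Complex.I := by
    linear_combination -(Complex.re_add_im z)
  rw [h1, norm_mul, Complex.norm_I, mul_one, Complex.norm_real, Real.norm_eq_abs]

/-! ### the lines -/

theorem kc_g_hol (c : Ctx K γ N Nb J ω h g) : DifferentiableOn ℂ g (Strip (4 * cr K / N)) := by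
  refine (c.gs.hp.hol.add differentiableOn_id).congr fun z _ => ?_
  simp

theorem kc_g_per (c : Ctx K γ N Nb J ω h g) (z : ℂ) : g (z + 2 * π) = g z + 2 * π := by
  have := c.gs.hp.per z
  linear_combination this

theorem kc_g_rs (c : Ctx K γ N Nb J ω h g) (z : ℂ) :
    g (starRingEnd ℂ z) = starRingEnd ℂ (g z) := by
  have := c.gs.hp.rs z
  simp only [map_sub] at this
  linear_combination this

theorem kc_g_real (c : Ctx K γ N Nb J ω h g) (t : ℝ) : (g t).im = 0 := by
  have h1 := kc_g_rs c t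
  rw [Complex.conj_ofReal] at h1
  exact Complex.conj_eq_iff_im.mp h1.symm

theorem kc_dg_hp (c : Ctx K γ N Nb J ω h g) : HP (4 * cr K / N) (deriv g) := by
  refine ⟨(kc_g_hol c).deriv (isOpen_strip _), fun z => ?_, fun z => ?_⟩
  · have h1 : (fun w => g (w + 2 * π)) = fun w => g w + 2 * π := funext (kc_g_per c)
    calc deriv g (z + 2 * π) = deriv (fun w => g (w + 2 * π)) z := by
          rw [deriv_comp_add_const]
      _ = deriv g z := by rw [h1, deriv_add_const]
  · have h1 : (starRingEnd ℂ) ∘ g ∘ (starRingEnd ℂ) = g := by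
      funext w
      simp [kc_g_rs c w]
    have h2 := deriv_conj_conj (𝕜 := ℂ) (f := g)
    rw [h1] at h2
    have h3 := congrFun h2 (starRingEnd ℂ z)
    simpa using h3

theorem kc_g_at (c : Ctx K γ N Nb J ω h g) {z : ℂ} (hz : z ∈ Strip (4 * cr K / N)) :
    HasDerivAt g (deriv g z) z :=
  ((kc_g_hol c).differentiableAt ((isOpen_strip _).mem_nhds hz)).hasDerivAt

theorem kc_dg_at (c : Ctx K γ N Nb J ω h g) {z : ℂ} (hz : z ∈ Strip (4 * cr K / N)) :
    HasDerivAt (deriv g) (deriv (deriv g) z) z :=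
  ((kc_dg_hp c).hol.differentiableAt ((isOpen_strip _).mem_nhds hz)).hasDerivAt

/-- finer form of `gs_near` -/
theorem kc_near (c : Ctx K γ N Nb J ω h g) {z : ℂ} (hz : z ∈ Strip (4 * cr K / N)) :
    ‖deriv g z - deriv g z.re‖ ≤ 4 * cr K * J := by
  have h1 := bd_lip (kc_dg_hp c).hol c.gs.g2 hz (kc_strip_re hz)
  rw [kc_sub_re] at h1
  refine h1.trans ?_
  have h2 := kc_im c hz
  calc N * J * |z.im| = (N * |z.im|) * J := by ring
    _ ≤ 4 * cr K * J := mul_le_mul_of_nonneg_right h2 c.J0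

theorem kc_dg_real (c : Ctx K γ N Nb J ω h g) (t : ℝ) :
    deriv g t = ((deriv g t).re : ℂ) := by
  apply Complex.ext
  · simp
  · rw [hp_real (kc_dg_hp c) t, Complex.ofReal_im]

theorem kc_small (c : Ctx K γ N Nb J ω h g) : 4 * cr K * J ≤ 4 / 10 ^ 4 / K := by
  rw [le_div_iff₀ (kc_K0 c)]
  have h1 := kc_cr_pow c.K1 (j := 1) (by norm_num)
  have h2 := kc_cr_pos c.K1
  calc 4 * cr K * J * K = 4 * (K ^ 1 * cr K) * J := by ring
    _ ≤ 4 * (1 / 10 ^ 4) * 1 := by
        refine mul_le_mul (by linarith) c.J1 c.J0 (by positivity)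
    _ = 4 / 10 ^ 4 := by ring

theorem kc_small' (c : Ctx K γ N Nb J ω h g) : 4 * cr K * J ≤ 4 / 10 ^ 4 := by
  refine (kc_small c).trans ?_
  exact div_le_self (by positivity) c.K1

/-- on the strip `g'` is close to its real values -/
theorem gs_near (c : Ctx K γ N Nb J ω h g) {z : ℂ} (hz : z ∈ Strip (4 * cr K / N)) :
    ‖deriv g z - deriv g z.re‖ ≤ 4 * cr K * J ∧ ‖deriv g z‖ ≤ 2 * K ∧
      1 / (2 * K) ≤ (deriv g z).re ∧ |(g z).im| ≤ 2 * K * |z.im| := by
  have hK := c.K1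
  have hK0 := kc_K0 c
  have hb : ∀ w ∈ Strip (4 * cr K / N), ‖deriv g w‖ ≤ 2 * K := by
    intro w hw
    have h1 := kc_near c hw
    have h2 := kc_small' c
    have h3 : ‖deriv g w.re‖ ≤ K := by
      rw [kc_dg_real c, Complex.norm_real, Real.norm_of_nonneg]
      · exact c.gs.hi _
      · exact le_trans (by positivity) (c.gs.lo w.re)
    calc ‖deriv g w‖ = ‖(deriv g w - deriv g w.re) + deriv g w.re‖ := by rw [sub_add_cancel]
      _ ≤ ‖deriv g w - deriv g w.re‖ + ‖deriv g w.re‖ := norm_add_le _ _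
      _ ≤ 2 * K := by linarith
  refine ⟨kc_near c hz, hb z hz, ?_, ?_⟩
  · have h1 := kc_near c hz
    have h2 := kc_small c
    have h3 := Complex.abs_re_le_norm (deriv g z - deriv g z.re)
    rw [Complex.sub_re] at h3
    have h4 := abs_le.1 (h3.trans (h1.trans h2))
    have h5 := c.gs.lo z.re
    have h6 : 1 / (2 * K) = (1 / 2) * (1 / K) := by field_simp
    have h7 : (4 : ℝ) / 10 ^ 4 / K = (4 / 10 ^ 4) * (1 / K) := by ring
    have h8 : 0 < 1 / K := by positivity
    rw [h7] at h4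
    rw [h6]
    nlinarith [h4.1]
  · have h1 := bd_lip (kc_g_hol c) (M := 2 * K) hb hz (kc_strip_re hz)
    rw [kc_sub_re] at h1
    have h2 := Complex.abs_im_le_norm (g z - g z.re)
    rw [Complex.sub_im, kc_g_real c, sub_zero] at h2
    exact h2.trans h1

theorem gs_dif (c : Ctx K γ N Nb J ω h g) : Dif K (4 * cr K / N) g :=
  ⟨kc_g_hol c, kc_g_per c, kc_g_real c, c.gs.lo, fun _ hz => (gs_near c hz).2.1⟩

/-! ### sine and cosine -/

theorem kc_exp_sub (z : ℂ) (hz : ‖z‖ ≤ 1) : ‖Complex.exp (z * Complex.I) - 1‖ ≤ 2 * ‖z‖ ∧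
    ‖Complex.exp (-z * Complex.I) - 1‖ ≤ 2 * ‖z‖ := by
  constructor
  · have h1 := Complex.norm_exp_sub_one_le (x := z * Complex.I) (by simpa using hz)
    simpa using h1
  · have h1 := Complex.norm_exp_sub_one_le (x := -z * Complex.I) (by simpa using hz)
    simpa using h1

theorem kc_sin_le {z : ℂ} (hz : ‖z‖ ≤ 1) : ‖Complex.sin z‖ ≤ 2 * ‖z‖ := by
  obtain ⟨h1, h2⟩ := kc_exp_sub z hz
  have h3 : Complex.sin z = ((Complex.exp (-z * Complex.I) - 1) -
      (Complex.exp (z * Complex.I) - 1)) * (Complex.I / 2) := by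
    rw [Complex.sin]
    ring
  rw [h3, norm_mul, norm_div, Complex.norm_I, Complex.norm_ofNat]
  have h4 := norm_sub_le (Complex.exp (-z * Complex.I) - 1) (Complex.exp (z * Complex.I) - 1)
  linarith

theorem kc_cos_le {z : ℂ} (hz : ‖z‖ ≤ 1 / 2) : ‖Complex.cos z‖ ≤ 2 := by
  obtain ⟨h1, h2⟩ := kc_exp_sub z (by linarith)
  have h3 : Complex.cos z = ((Complex.exp (-z * Complex.I) - 1) +
      (Complex.exp (z * Complex.I) - 1)) * (1 / 2) + 1 := by
    rw [Complex.cos]
    ring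
  have h4 := norm_add_le (Complex.exp (-z * Complex.I) - 1) (Complex.exp (z * Complex.I) - 1)
  have h5 := norm_add_le (((Complex.exp (-z * Complex.I) - 1) +
      (Complex.exp (z * Complex.I) - 1)) * (1 / 2)) 1
  rw [h3]
  refine h5.trans ?_
  rw [norm_mul, norm_div, norm_one, Complex.norm_ofNat]
  linarith

theorem kc_sin_ge {z : ℂ} (h0 : 0 ≤ z.re) (h1 : z.re ≤ 1) :
    2 / π * z.re ≤ ‖Complex.sin z‖ := by
  have h2 : z.re ≤ π / 2 := by linarith [Real.pi_gt_three]
  have h3 := Real.mul_le_sin h0 h2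
  have h4 : (Complex.sin z).re = Real.sin z.re * Real.cosh z.im := by
    rw [Complex.sin_eq]
    simp [← Complex.ofReal_sin, ← Complex.ofReal_cosh, ← Complex.ofReal_cos,
      ← Complex.ofReal_sinh]
  have h5 := Complex.abs_re_le_norm (Complex.sin z)
  rw [h4] at h5
  have h6 : 0 ≤ Real.sin z.re := le_trans (by positivity) h3
  have h7 : Real.sin z.re ≤ Real.sin z.re * Real.cosh z.im :=
    le_mul_of_one_le_right h6 (Real.one_le_cosh _)
  exact h3.trans (h7.trans ((le_abs_self _).trans h5))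

/-- the half difference `δ`, finer bounds -/
theorem kc_delta (c : Ctx K γ N Nb J ω h g) {x y : ℂ} (hx : x ∈ Strip (4 * cr K / N))
    (hy : y ∈ Strip (4 * cr K / N)) (hxy : ‖y - x - ω‖ ≤ ω / 100) :
    ‖(g y - g x) / 2‖ ≤ 101 / 100 * K * ω ∧ 45 / 100 * ω / K ≤ ((g y - g x) / 2).re := by
  have hω := kc_ω0 c
  have hK0 := kc_K0 c
  have hyx : ‖y - x‖ ≤ 101 / 100 * ω := by
    calc ‖y - x‖ = ‖(y - x - ω) + ω‖ := by rw [sub_add_cancel]
      _ ≤ ‖y - x - ω‖ + ‖(ω : ℂ)‖ := norm_add_le _ _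
      _ ≤ ω / 100 + ω := by
          rw [Complex.norm_real, Real.norm_of_nonneg hω.le]
          linarith
      _ = 101 / 100 * ω := by ring
  constructor
  · have h1 := bd_lip (kc_g_hol c) (M := 2 * K) (fun w hw => (gs_near c hw).2.1) hy hx
    rw [norm_div, Complex.norm_ofNat]
    rw [div_le_iff₀ (by norm_num)]
    calc ‖g y - g x‖ ≤ 2 * K * ‖y - x‖ := h1
      _ ≤ 2 * K * (101 / 100 * ω) := mul_le_mul_of_nonneg_left hyx (by positivity)
      _ = 101 / 100 * K * ω * 2 := by ring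
  · have hre := abs_le.1 ((Complex.abs_re_le_norm (y - x - ω)).trans hxy)
    have him := abs_le.1 ((Complex.abs_im_le_norm (y - x - ω)).trans hxy)
    rw [Complex.sub_re, Complex.ofReal_re] at hre
    rw [Complex.sub_im, Complex.ofReal_im, sub_zero] at him
    have hmem : ∀ θ : ℝ, θ ∈ Set.Icc (0 : ℝ) 1 → x + θ * (y - x) ∈ Strip (4 * cr K / N) := by
      intro θ hθ
      have h1 := convex_strip (4 * cr K / N) hx hy (a := 1 - θ) (b := θ) (by linarith [hθ.2])
        hθ.1 (by ring)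
      have h2 : (1 - θ) • x + θ • y = x + θ * (y - x) := by
        rw [Complex.real_smul, Complex.real_smul]
        push_cast
        ring
      rwa [h2] at h1
    have hder : ∀ θ : ℝ, θ ∈ Set.Icc (0 : ℝ) 1 →
        HasDerivAt (fun s : ℝ => (g (x + s * (y - x))).re)
          (deriv g (x + θ * (y - x)) * (y - x)).re θ := by
      intro θ hθ
      have h1 := kc_g_at c (hmem θ hθ)
      have h2 : HasDerivAt (fun ζ : ℂ => x + ζ * (y - x)) (y - x) (θ : ℂ) := by
        have := ((hasDerivAt_id (θ : ℂ)).mul_const (y - x)).const_add x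
        rw [one_mul] at this
        exact this
      have h3 : HasDerivAt (fun ζ : ℂ => g (x + ζ * (y - x)))
          (deriv g (x + θ * (y - x)) * (y - x)) (θ : ℂ) := h1.comp (θ : ℂ) h2
      exact h3.real_of_complex
    obtain ⟨θ, hθ, hs⟩ := exists_hasDerivAt_eq_slope
      (fun s : ℝ => (g (x + s * (y - x))).re)
      (fun θ : ℝ => (deriv g (x + θ * (y - x)) * (y - x)).re) (zero_lt_one)
      (fun s hs => (hder s hs).continuousAt.continuousWithinAt)
      (fun s hs => hder s (Set.Ioo_subset_Icc_self hs))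
    have hθ' := Set.Ioo_subset_Icc_self hθ
    have hw := hmem θ hθ'
    set w := x + θ * (y - x) with hwdef
    have h1 := (kc_near c hw).trans (kc_small c)
    have h2 := abs_le.1 ((Complex.abs_re_le_norm _).trans h1)
    have h3 := abs_le.1 ((Complex.abs_im_le_norm _).trans h1)
    rw [Complex.sub_re] at h2
    rw [Complex.sub_im, hp_real (kc_dg_hp c), sub_zero] at h3
    have h4 := c.gs.lo w.re
    have h5 : (0 : ℝ) < 1 / K := by positivity
    have h6 : (4 : ℝ) / 10 ^ 4 / K = (4 / 10 ^ 4) * (1 / K) := by ring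
    rw [h6] at h2 h3
    have h7 : (999 / 1000) * (1 / K) ≤ (deriv g w).re := by linarith [h2.1]
    have h8 : (90 / 100 * ω) * (1 / K) ≤ (deriv g w * (y - x)).re := by
      rw [Complex.mul_re, Complex.sub_re, Complex.sub_im]
      have h9 : (99 / 100 * ω) * ((999 / 1000) * (1 / K)) ≤ (deriv g w).re * (y.re - x.re) := by
        rw [mul_comm (deriv g w).re]
        refine mul_le_mul ?_ h7 (by positivity) ?_
        · rw [Complex.sub_re] at hre
          linarith [hre.1]
        · rw [Complex.sub_re] at hre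
          linarith [hre.1]
      have h10 : |(deriv g w).im * (y.im - x.im)| ≤ (4 / 10 ^ 4) * (1 / K) * (ω / 100) := by
        rw [abs_mul]
        refine mul_le_mul (abs_le.2 h3) ?_ (abs_nonneg _) (by positivity)
        rw [Complex.sub_im] at him
        exact abs_le.2 him
      have h11 := (abs_le.1 h10).2
      have h12 : 0 < ω * (1 / K) := by positivity
      nlinarith
    rw [hs] at h8
    simp only [Complex.ofReal_zero, Complex.ofReal_one, zero_mul, one_mul, add_zero, sub_zero,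
      div_one, add_sub_cancel] at h8
    have h13 : ((g y - g x) / 2).re = ((g y).re - (g x).re) / 2 := by
      rw [Complex.div_ofNat_re, Complex.sub_re]
    rw [h13]
    have h14 : 45 / 100 * ω / K = (90 / 100 * ω) * (1 / K) / 2 := by ring
    rw [h14]
    linarith

/-- the half difference `δ` for arguments at distance about `ω` -/
theorem delta_bounds (c : Ctx K γ N Nb J ω h g) {x y : ℂ} (hx : x ∈ Strip (4 * cr K / N))
    (hy : y ∈ Strip (4 * cr K / N)) (hxy : ‖y - x - ω‖ ≤ ω / 100) :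
    ‖(g y - g x) / 2‖ ≤ 2 * K * ω ∧ ω / (5 * K) ≤ ((g y - g x) / 2).re ∧
      ω / (6 * K) ≤ ‖Complex.sin ((g y - g x) / 2)‖ ∧
      ‖Complex.sin ((g y - g x) / 2)‖ ≤ 4 * K * ω ∧ ‖Complex.cos ((g y - g x) / 2)‖ ≤ 2 ∧
      ((g x + g y) / 2) ∈ Strip (1 / N) := by
  have hω := kc_ω0 c
  have hK0 := kc_K0 c
  have hN := kc_N0 c
  obtain ⟨h1, h2⟩ := kc_delta c hx hy hxy
  have hKω := kc_ω_pow c (j := 1) (by norm_num)
  rw [pow_one] at hKω
  have hKω0 : 0 < K * ω := by positivity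
  have hωK0 : 0 < ω / K := by positivity
  have h3 : ‖(g y - g x) / 2‖ ≤ 1 / 2 := by
    refine h1.trans ?_
    rw [mul_assoc]
    linarith
  have h4 : ((g y - g x) / 2).re ≤ 1 := by
    linarith [(Complex.re_le_norm ((g y - g x) / 2))]
  have h5 : 0 ≤ ((g y - g x) / 2).re := le_trans (by positivity) h2
  refine ⟨?_, ?_, ?_, ?_, kc_cos_le h3, ?_⟩
  · refine h1.trans ?_
    rw [mul_assoc, mul_assoc]
    linarith
  · refine le_trans ?_ h2
    have e1 : ω / (5 * K) = 1 / 5 * (ω / K) := by field_simp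
    have e2 : 45 / 100 * ω / K = 45 / 100 * (ω / K) := by ring
    rw [e1, e2]
    linarith
  · refine le_trans ?_ (kc_sin_ge h5 h4)
    have e1 : ω / (6 * K) = 1 / 6 * (ω / K) := by field_simp
    have e2 : 45 / 100 * ω / K = 45 / 100 * (ω / K) := by ring
    rw [e2] at h2
    have h6 : 2 / 4 ≤ 2 / π := by
      apply div_le_div_of_nonneg_left (by norm_num) Real.pi_pos Real.pi_le_four
    calc ω / (6 * K) = 1 / 6 * (ω / K) := e1
      _ ≤ 2 / 4 * (45 / 100 * (ω / K)) := by linarith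
      _ ≤ 2 / π * ((g y - g x) / 2).re := mul_le_mul h6 h2 (by positivity) (by positivity)
  · refine (kc_sin_le (h3.trans (by norm_num))).trans ?_
    calc 2 * ‖(g y - g x) / 2‖ ≤ 2 * (101 / 100 * K * ω) := by linarith
      _ = 202 / 100 * (K * ω) := by ring
      _ ≤ 4 * (K * ω) := by linarith
      _ = 4 * K * ω := by ring
  · change |((g x + g y) / 2).im| < 1 / N
    have h6 := (gs_near c hx).2.2.2
    have h7 := (gs_near c hy).2.2.2
    have h8 := kc_im c hx
    have h9 := kc_im c hy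
    have h10 : ((g x + g y) / 2).im = ((g x).im + (g y).im) / 2 := by
      rw [Complex.div_ofNat_im, Complex.add_im]
    rw [h10, abs_div, abs_two, lt_div_iff₀ hN]
    have h11 := abs_add_le (g x).im (g y).im
    have h12 := kc_cr_pow c.K1 (j := 1) (by norm_num)
    rw [pow_one] at h12
    calc |(g x).im + (g y).im| / 2 * N ≤ (2 * K * |x.im| + 2 * K * |y.im|) / 2 * N := by
          refine mul_le_mul_of_nonneg_right ?_ hN.le
          linarith
      _ = K * (N * |x.im| + N * |y.im|) := by ring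
      _ ≤ K * (4 * cr K + 4 * cr K) := mul_le_mul_of_nonneg_left (by linarith) hK0.le
      _ = 8 * (K * cr K) := by ring
      _ ≤ 8 * (1 / 10 ^ 4) := by linarith
      _ < 1 := by norm_num

end Pool.Agent.MP_b87ea9_an.Kam
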