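import Mathlib
import Pool.Agent.Lib.MP_b87ea9_an.KDefs
import Pool.Agent.Lib.MP_b87ea9_an.KDefs2
import Pool.Agent.Lib.MP_b87ea9_an.KDefs3
import Pool.Agent.Lib.MP_b87ea9_an.KA1
import Pool.Agent.Lib.MP_b87ea9_an.KA2
import Pool.Agent.Lib.MP_b87ea9_an.KC1a

set_option autoImplicit false

/-! State basics: bounds of `g`, `aa`, `qq` -/

namespace Pool.Agent.MP_b87ea9_an.Kam

open Real MeasureTheory

variable {K γ N Nb J ω : ℝ} {h g : ℂ → ℂ}

/-! ### building blocks -/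

theorem kc_h_hp (c : Ctx K γ N Nb J ω h g) (R : ℝ) : HP R h :=
  ⟨c.tb.hol.differentiableOn, c.tb.per, c.tb.rs⟩

theorem kc_h_at (c : Ctx K γ N Nb J ω h g) (z : ℂ) : HasDerivAt h (deriv h z) z :=
  (c.tb.hol z).hasDerivAt

theorem kc_hp_at {f : ℂ → ℂ} (hf : ∀ R, HP R f) (z : ℂ) : HasDerivAt f (deriv f z) z := by
  have h1 : z ∈ Strip (|z.im| + 1) := by
    change |z.im| < |z.im| + 1
    linarith
  exact ((hf (|z.im| + 1)).hol.differentiableAt ((isOpen_strip _).mem_nhds h1)).hasDerivAt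

theorem kc_h1_hp (c : Ctx K γ N Nb J ω h g) (R : ℝ) : HP R (deriv h) := hp_deriv (kc_h_hp c R)

theorem kc_h2_hp (c : Ctx K γ N Nb J ω h g) (R : ℝ) : HP R (deriv (deriv h)) :=
  hp_deriv (kc_h1_hp c R)

theorem kc_h1_at (c : Ctx K γ N Nb J ω h g) (z : ℂ) :
    HasDerivAt (deriv h) (deriv (deriv h) z) z := kc_hp_at (kc_h1_hp c) z

theorem kc_h2_at (c : Ctx K γ N Nb J ω h g) (z : ℂ) :
    HasDerivAt (deriv (deriv h)) (deriv (deriv (deriv h)) z) z := kc_hp_at (kc_h2_hp c) z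

/-- composition of an entire function with the midpoint -/
theorem kc_hp_mid (c : Ctx K γ N Nb J ω h g) {f : ℂ → ℂ} (hf : ∀ R, HP R f) :
    HP (4 * cr K / N) (fun z => f ((g z + g (z + ω)) / 2)) := by
  refine ⟨fun z hz => ?_, fun z => ?_, fun z => ?_⟩
  · have h1 := kc_g_at c hz
    have h2 := (kc_g_at c (kc_strip_add hz ω)).comp_add_const z ω
    have h3 := kc_hp_at hf ((g z + g (z + ω)) / 2)
    exact (HasDerivAt.comp z h3 ((h1.add h2).div_const 2)).differentiableAt.differentiableWithinAt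
  · have h1 : (g (z + 2 * π) + g (z + 2 * π + ω)) / 2 = (g z + g (z + ω)) / 2 + 2 * π := by
      rw [show z + 2 * π + ω = (z + ω) + 2 * π by ring, kc_g_per c, kc_g_per c]
      ring
    simp only [h1]
    exact (hf 1).per _
  · have h1 : (g (starRingEnd ℂ z) + g (starRingEnd ℂ z + ω)) / 2 =
        starRingEnd ℂ ((g z + g (z + ω)) / 2) := by
      have h2 : starRingEnd ℂ z + ω = starRingEnd ℂ (z + ω) := by simp
      rw [h2, kc_g_rs c, kc_g_rs c, map_div₀, map_add]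
      congr 1
      exact (Complex.conj_ofReal 2).symm
    simp only [h1]
    exact (hf 1).rs _

theorem kc_hp_delta (c : Ctx K γ N Nb J ω h g) :
    HP (4 * cr K / N) (fun z => (g (z + ω) - g z) / 2) := by
  refine ⟨fun z hz => ?_, fun z => ?_, fun z => ?_⟩
  · have h1 := kc_g_at c hz
    have h2 := (kc_g_at c (kc_strip_add hz ω)).comp_add_const z ω
    exact ((h2.sub h1).div_const 2).differentiableAt.differentiableWithinAt
  · rw [show z + 2 * π + ω = (z + ω) + 2 * π by ring, kc_g_per c, kc_g_per c]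
    ring
  · have h2 : starRingEnd ℂ z + ω = starRingEnd ℂ (z + ω) := by simp
    rw [h2, kc_g_rs c, kc_g_rs c, map_div₀, map_sub]
    congr 1
    exact (Complex.conj_ofReal 2).symm

theorem kc_hp_sin {r : ℝ} {f : ℂ → ℂ} (hf : HP r f) : HP r (fun z => Complex.sin (f z)) :=
  ⟨hf.hol.csin, fun z => by simp only [hf.per z], fun z => by
    simp only [hf.rs z, Complex.sin_conj]⟩

theorem kc_hp_cos {r : ℝ} {f : ℂ → ℂ} (hf : HP r f) : HP r (fun z => Complex.cos (f z)) :=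
  ⟨hf.hol.ccos, fun z => by simp only [hf.per z], fun z => by
    simp only [hf.rs z, Complex.cos_conj]⟩

theorem kc_hp_P (c : Ctx K γ N Nb J ω h g) :
    HP (4 * cr K / N) (fun z => PP h g z (z + ω)) :=
  hp_mul (kc_dg_hp c) (hp_sub (hp_mul (kc_hp_mid c (kc_h1_hp c)) (kc_hp_sin (kc_hp_delta c)))
    (hp_mul (kc_hp_mid c (kc_h_hp c)) (kc_hp_cos (kc_hp_delta c))))

theorem kc_hp_R (c : Ctx K γ N Nb J ω h g) :
    HP (4 * cr K / N) (fun z => RR h g z (z + ω)) :=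
  hp_mul (hp_shift (kc_dg_hp c) ω)
    (hp_add (hp_mul (kc_hp_mid c (kc_h1_hp c)) (kc_hp_sin (kc_hp_delta c)))
      (hp_mul (kc_hp_mid c (kc_h_hp c)) (kc_hp_cos (kc_hp_delta c))))

theorem kc_FF_eq (h g : ℂ → ℂ) (ω : ℝ) : FF h g ω =
    fun z => (fun z => PP h g z (z + ω)) z + (fun z => RR h g z (z + ω)) (z + ((-ω : ℝ) : ℂ)) := by
  funext z
  simp only [FF]
  have h1 : z + ((-ω : ℝ) : ℂ) = z - ω := by push_cast; ring
  rw [h1, sub_add_cancel]

theorem hp_FF (c : Ctx K γ N Nb J ω h g) : HP (4 * cr K / N) (FF h g ω) := by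
  rw [kc_FF_eq]
  exact hp_add (kc_hp_P c) (hp_shift (kc_hp_R c) (-ω))

theorem hp_aa (c : Ctx K γ N Nb J ω h g) : HP (4 * cr K / N) (aa h g ω) := by
  have h1 := hp_mul (hp_mul (hp_mul (hp_mul (hp_const (4 * cr K / N) (1 / 2))
    (hp_add (kc_hp_mid c (kc_h_hp c)) (kc_hp_mid c (kc_h2_hp c))))
    (kc_hp_sin (kc_hp_delta c))) (kc_dg_hp c)) (hp_shift (kc_dg_hp c) ω)
  have h2 : aa h g ω = fun z => (((1 / 2 : ℝ) : ℂ) * (h ((g z + g (z + ω)) / 2) +
      deriv (deriv h) ((g z + g (z + ω)) / 2)) * Complex.sin ((g (z + ω) - g z) / 2) *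
      deriv g z * deriv g (z + ω)) := by
    funext z
    simp only [aa, BB]
    push_cast
    ring
  rw [h2]
  exact h1

theorem kc_fc_congr {f f' : ℂ → ℂ} (hf : ∀ t : ℝ, f t = f' t) (n : ℤ) : fc f n = fc f' n := by
  rw [fc, fc]
  congr 1
  refine intervalIntegral.integral_congr fun t _ => ?_
  simp only [hf t]

/-- exactness: the mean of `g' EL` is zero -/
theorem fc_FF (c : Ctx K γ N Nb J ω h g) : fc (FF h g ω) 0 = 0 := by
  have hr := kc_r0 c
  rw [kc_FF_eq, fc_add (kc_hp_P c) (hp_shift (kc_hp_R c) (-ω)) hr, fc_translate (kc_hp_R c) hr]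
  have h1 : Complex.exp (((0 : ℤ) : ℂ) * ((-ω : ℝ) : ℂ) * Complex.I) = 1 := by simp
  rw [h1, mul_one, ← fc_add (kc_hp_P c) (kc_hp_R c) hr]
  have hT : HP (4 * cr K / N) (fun z => h ((g z + g (z + ω)) / 2) *
      Complex.sin ((g (z + ω) - g z) / 2)) :=
    hp_mul (kc_hp_mid c (kc_h_hp c)) (kc_hp_sin (kc_hp_delta c))
  have h2 := fc_deriv hT hr 0
  rw [Int.cast_zero, zero_mul, zero_mul] at h2
  have h3 : fc (fun z => (fun z => PP h g z (z + ω)) z + (fun z => RR h g z (z + ω)) z) 0 =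
      fc (fun z => 2 * deriv (fun z => h ((g z + g (z + ω)) / 2) *
      Complex.sin ((g (z + ω) - g z) / 2)) z) 0 := by
    refine kc_fc_congr (fun t => ?_) 0
    have hz := ka2_mem' hr t
    have e1 := kc_g_at c hz
    have e2 := (kc_g_at c (kc_strip_add hz ω)).comp_add_const (t : ℂ) ω
    have e3 := kc_h_at c ((g t + g (t + ω)) / 2)
    have e4 := (HasDerivAt.comp (t : ℂ) e3 ((e1.add e2).div_const 2)).mul
      ((e2.sub e1).div_const 2).csin
    have e5 := e4.deriv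
    have e6 : deriv (fun z => h ((g z + g (z + ω)) / 2) *
        Complex.sin ((g (z + ω) - g z) / 2)) (t : ℂ) = _ := e5
    simp only [e6, PP, RR, Sx, Sy, Function.comp_apply, Pi.add_apply, Pi.sub_apply]
    ring
  rw [h3, fc_smul, h2, mul_zero]

/-! ### bounds of `aa` -/

theorem kc_shift_diff (z : ℂ) (ω : ℝ) (hω : 0 < ω) : ‖z + ω - z - ω‖ ≤ ω / 100 := by
  have h1 : z + ω - z - ω = 0 := by ring
  rw [h1, norm_zero]
  positivity

theorem kc_rho_le (c : Ctx K γ N Nb J ω h g) {z : ℂ} (hz : z ∈ Strip (1 / N)) :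
    ‖h z + deriv (deriv h) z‖ ≤ 2 * K := by
  have h1 := c.tb.b0 z hz
  have h2 := c.tb.b2 z hz
  linarith [norm_add_le (h z) (deriv (deriv h) z)]

theorem kc_rho_real (c : Ctx K γ N Nb J ω h g) (t : ℝ) :
    h t + deriv (deriv h) t = (((h t + deriv (deriv h) t).re : ℝ) : ℂ) := by
  apply Complex.ext
  · simp
  · rw [Complex.add_im, hp_real (kc_h_hp c 1) t, hp_real (kc_h2_hp c 1) t, Complex.ofReal_im,
      add_zero]

theorem kc_rho_ge (c : Ctx K γ N Nb J ω h g) {z : ℂ} (hz : z ∈ Strip (1 / N))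
    (hz' : |z.im| ≤ 1 / (100 * K ^ 2)) : 1 / (2 * K) ≤ ‖h z + deriv (deriv h) z‖ := by
  have hK0 := kc_K0 c
  have hdiff : DifferentiableOn ℂ (fun z => h z + deriv (deriv h) z) (Strip (1 / N)) :=
    (kc_h_hp c _).hol.add (kc_h2_hp c _).hol
  have hbd : Bd (1 / N) (deriv (fun z => h z + deriv (deriv h) z)) (2 * K) := by
    intro w hw
    have e1 := (kc_h_at c w).add (kc_h2_at c w)
    have e2 : deriv (fun z => h z + deriv (deriv h) z) w = _ := e1.deriv
    rw [e2]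
    linarith [norm_add_le (deriv h w) (deriv (deriv (deriv h)) w), c.tb.b1 w hw, c.tb.b3 w hw]
  have h1 := bd_lip hdiff hbd hz (kc_strip_re hz)
  rw [kc_sub_re] at h1
  have h2 : 1 / K ≤ ‖h z.re + deriv (deriv h) z.re‖ :=
    (c.tb.pos z.re).trans (Complex.re_le_norm _)
  have h3 : ‖h z.re + deriv (deriv h) z.re‖ ≤ ‖h z + deriv (deriv h) z‖ +
      ‖(h z + deriv (deriv h) z) - (h z.re + deriv (deriv h) z.re)‖ := by
    have := norm_sub_le (h z + deriv (deriv h) z)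
      ((h z + deriv (deriv h) z) - (h z.re + deriv (deriv h) z.re))
    rwa [sub_sub_cancel] at this
  have h4 : 2 * K * |z.im| ≤ 2 / 100 * (1 / K) := by
    calc 2 * K * |z.im| ≤ 2 * K * (1 / (100 * K ^ 2)) :=
          mul_le_mul_of_nonneg_left hz' (by positivity)
      _ = 2 / 100 * (1 / K) := by field_simp
  have h5 : 1 / (2 * K) = 1 / 2 * (1 / K) := by field_simp
  have h6 : 0 < 1 / K := by positivity
  rw [h5]
  linarith

/-- the imaginary part of the midpoint -/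
theorem kc_mid_im (c : Ctx K γ N Nb J ω h g) {x y : ℂ} (hx : x ∈ Strip (4 * cr K / N))
    (hy : y ∈ Strip (4 * cr K / N)) : |((g x + g y) / 2).im| ≤ 1 / (100 * K ^ 2) := by
  have hK0 := kc_K0 c
  have hN1 := c.N1
  have h6 := (gs_near c hx).2.2.2
  have h7 := (gs_near c hy).2.2.2
  have h8 := kc_im c hx
  have h9 := kc_im c hy
  have h10 : ((g x + g y) / 2).im = ((g x).im + (g y).im) / 2 := by
    rw [Complex.div_ofNat_im, Complex.add_im]
  rw [h10, abs_div, abs_two]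
  have h11 := abs_add_le (g x).im (g y).im
  have h12 := kc_cr_pow c.K1 (j := 3) (by norm_num)
  have h13 : |x.im| ≤ 4 * cr K := le_trans (le_mul_of_one_le_left (abs_nonneg _) hN1) h8
  have h14 : |y.im| ≤ 4 * cr K := le_trans (le_mul_of_one_le_left (abs_nonneg _) hN1) h9
  have h15 : K * |x.im| ≤ K * (4 * cr K) := mul_le_mul_of_nonneg_left h13 hK0.le
  have h16 : K * |y.im| ≤ K * (4 * cr K) := mul_le_mul_of_nonneg_left h14 hK0.le
  have h17 : |(g x).im + (g y).im| / 2 ≤ 8 * (K * cr K) := by linarith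
  refine h17.trans ?_
  rw [le_div_iff₀ (by positivity)]
  calc 8 * (K * cr K) * (100 * K ^ 2) = 800 * (K ^ 3 * cr K) := by ring
    _ ≤ 800 * (1 / 10 ^ 4) := by linarith
    _ ≤ 1 := by norm_num

/-- bounds of `BB` along arguments at distance about `ω` -/
theorem kc_BB (c : Ctx K γ N Nb J ω h g) {x y : ℂ} (hx : x ∈ Strip (4 * cr K / N))
    (hy : y ∈ Strip (4 * cr K / N)) (hxy : ‖y - x - ω‖ ≤ ω / 100) :
    ‖BB h g x y‖ ≤ 16 * K ^ 4 * ω ∧ ω / (96 * K ^ 4) ≤ ‖BB h g x y‖ := by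
  have hK0 := kc_K0 c
  have hω := kc_ω0 c
  obtain ⟨-, -, h3, h4, -, h6⟩ := delta_bounds c hx hy hxy
  have h7 := kc_rho_le c h6
  have h8 := kc_rho_ge c h6 (kc_mid_im c hx hy)
  have h9 := (gs_near c hx).2.1
  have h10 := (gs_near c hy).2.1
  have h11 : 1 / (2 * K) ≤ ‖deriv g x‖ := (gs_near c hx).2.2.1.trans (Complex.re_le_norm _)
  have h12 : 1 / (2 * K) ≤ ‖deriv g y‖ := (gs_near c hy).2.2.1.trans (Complex.re_le_norm _)
  have h13 : ‖BB h g x y‖ = 1 / 2 * ‖h ((g x + g y) / 2) + deriv (deriv h) ((g x + g y) / 2)‖ *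
      ‖Complex.sin ((g y - g x) / 2)‖ * ‖deriv g x‖ * ‖deriv g y‖ := by
    rw [BB, norm_mul, norm_mul, norm_mul, norm_mul, norm_div, norm_one, Complex.norm_ofNat]
  rw [h13]
  constructor
  · calc _ ≤ 1 / 2 * (2 * K) * (4 * K * ω) * (2 * K) * (2 * K) := by gcongr
      _ = 16 * K ^ 4 * ω := by ring
  · calc ω / (96 * K ^ 4) = 1 / 2 * (1 / (2 * K)) * (ω / (6 * K)) * (1 / (2 * K)) *
        (1 / (2 * K)) := by
          field_simp
          norm_num
      _ ≤ _ := by gcongr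

theorem kc_ω_le' (c : Ctx K γ N Nb J ω h g) : K ^ 4 * ω ≤ 7 * K ^ 4 / Nb := by
  have := mul_le_mul_of_nonneg_left (kc_ω_le c) (by have := kc_K0 c; positivity : 0 ≤ K ^ 4)
  calc K ^ 4 * ω ≤ K ^ 4 * (7 / Nb) := this
    _ = 7 * K ^ 4 / Nb := by ring

theorem kc_aa (c : Ctx K γ N Nb J ω h g) {z : ℂ} (hz : z ∈ Strip (4 * cr K / N)) :
    ‖aa h g ω z‖ ≤ 112 * K ^ 4 / Nb ∧ 1 / (96 * K ^ 4 * Nb) ≤ ‖aa h g ω z‖ := by
  have hK0 := kc_K0 c
  have hω := kc_ω0 c
  have hNb := kc_Nb0 c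
  obtain ⟨h1, h2⟩ := kc_BB c hz (kc_strip_add hz ω) (kc_shift_diff z ω hω)
  constructor
  · refine h1.trans ?_
    have h3 := kc_ω_le' c
    calc 16 * K ^ 4 * ω = 16 * (K ^ 4 * ω) := by ring
      _ ≤ 16 * (7 * K ^ 4 / Nb) := by linarith
      _ = 112 * K ^ 4 / Nb := by ring
  · refine le_trans ?_ h2
    calc 1 / (96 * K ^ 4 * Nb) = (1 / Nb) / (96 * K ^ 4) := by field_simp
      _ ≤ ω / (96 * K ^ 4) := by
          have := kc_ω_ge c
          gcongr

/-- `aa` is real and positive on the real line -/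
theorem kc_aa_real (c : Ctx K γ N Nb J ω h g) (t : ℝ) :
    0 < (aa h g ω t).re ∧ (aa h g ω t) = (((aa h g ω t).re : ℝ) : ℂ) := by
  have hK0 := kc_K0 c
  have hω := kc_ω0 c
  have hr := kc_r0 c
  have hz := ka2_mem' hr t
  have hz' := kc_strip_add hz ω
  obtain ⟨h1, h2, -, -, -, h6⟩ := delta_bounds c hz hz' (kc_shift_diff _ ω hω)
  -- real representations
  obtain ⟨m, hm⟩ : ∃ m : ℝ, (g t + g (t + ω)) / 2 = (m : ℂ) := by
    refine ⟨((g t + g (t + ω)) / 2).re, ?_⟩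
    apply Complex.ext
    · simp
    · have e1 := kc_g_real c t
      have e2 := kc_g_real c (t + ω)
      push_cast at e2
      rw [Complex.div_ofNat_im, Complex.add_im, e1, e2, Complex.ofReal_im]
      norm_num
  obtain ⟨d, hd⟩ : ∃ d : ℝ, (g (t + ω) - g t) / 2 = (d : ℂ) := by
    refine ⟨((g (t + ω) - g t) / 2).re, ?_⟩
    apply Complex.ext
    · simp
    · have e1 := kc_g_real c t
      have e2 := kc_g_real c (t + ω)
      push_cast at e2
      rw [Complex.div_ofNat_im, Complex.sub_im, e1, e2, Complex.ofReal_im]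
      norm_num
  have hd0 : 0 < d := by
    rw [hd, Complex.ofReal_re] at h2
    exact lt_of_lt_of_le (by positivity) h2
  have hd1 : d < π := by
    rw [hd, Complex.norm_real, Real.norm_of_nonneg hd0.le] at h1
    have h3 := kc_ω_pow c (j := 1) (by norm_num)
    rw [pow_one] at h3
    have h4 := Real.pi_gt_three
    calc d ≤ 2 * K * ω := h1
      _ = 2 * (K * ω) := by ring
      _ < π := by linarith
  have hsin : 0 < Real.sin d := Real.sin_pos_of_pos_of_lt_pi hd0 hd1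
  have h1K : 0 < 1 / K := by positivity
  obtain ⟨X, hX, hX0⟩ : ∃ X : ℝ, h m + deriv (deriv h) m = (X : ℂ) ∧ 0 < X :=
    ⟨_, kc_rho_real c m, lt_of_lt_of_le h1K (c.tb.pos m)⟩
  obtain ⟨a, ha, ha0⟩ : ∃ a : ℝ, deriv g t = (a : ℂ) ∧ 0 < a :=
    ⟨_, kc_dg_real c t, lt_of_lt_of_le h1K (c.gs.lo t)⟩
  obtain ⟨b, hb, hb0⟩ : ∃ b : ℝ, deriv g ((t : ℂ) + ω) = (b : ℂ) ∧ 0 < b := by
    refine ⟨_, ?_, lt_of_lt_of_le h1K (c.gs.lo (t + ω))⟩
    rw [← kc_dg_real c (t + ω)]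
    push_cast
    rfl
  have e1 : aa h g ω t = (((1 / 2) * X * Real.sin d * a * b : ℝ) : ℂ) := by
    rw [aa, BB, hm, hd, hX, ha, hb]
    push_cast
    ring
  have hpos : 0 < (1 / 2) * X * Real.sin d * a * b := by positivity
  constructor
  · rw [e1, Complex.ofReal_re]
    exact hpos
  · rw [e1, Complex.ofReal_re]

theorem kc_aa_re (c : Ctx K γ N Nb J ω h g) (t : ℝ) : (aa h g ω t).re = ‖aa h g ω t‖ := by
  obtain ⟨h1, h2⟩ := kc_aa_real c t
  conv_rhs => rw [h2]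
  rw [Complex.norm_real, Real.norm_of_nonneg h1.le]

theorem kc_aa_ne (c : Ctx K γ N Nb J ω h g) {z : ℂ} (hz : z ∈ Strip (4 * cr K / N)) :
    aa h g ω z ≠ 0 := by
  have hK0 := kc_K0 c
  have hNb := kc_Nb0 c
  have h1 := (kc_aa c hz).2
  intro h0
  rw [h0, norm_zero] at h1
  have : 0 < 1 / (96 * K ^ 4 * Nb) := by positivity
  linarith

theorem kc_inv_hp (c : Ctx K γ N Nb J ω h g) : HP (4 * cr K / N) (fun z => 1 / aa h g ω z) :=
  hp_inv (hp_aa c) fun _ hz => kc_aa_ne c hz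

theorem kc_inv_bd (c : Ctx K γ N Nb J ω h g) {z : ℂ} (hz : z ∈ Strip (4 * cr K / N)) :
    ‖1 / aa h g ω z‖ ≤ 96 * K ^ 4 * Nb := by
  have hK0 := kc_K0 c
  have hNb := kc_Nb0 c
  have h1 := (kc_aa c hz).2
  rw [norm_div, norm_one]
  calc 1 / ‖aa h g ω z‖ ≤ 1 / (1 / (96 * K ^ 4 * Nb)) :=
        one_div_le_one_div_of_le (by positivity) h1
    _ = 96 * K ^ 4 * Nb := by field_simp

/-- the mean of `1/aa` -/
theorem kc_mean (c : Ctx K γ N Nb J ω h g) :
    Nb / (112 * K ^ 4) ≤ ‖fc (fun z => 1 / aa h g ω z) 0‖ ∧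
      ‖fc (fun z => 1 / aa h g ω z) 0‖ ≤ 96 * K ^ 4 * Nb ∧
      fc (fun z => 1 / aa h g ω z) 0 = (((fc (fun z => 1 / aa h g ω z) 0).re : ℝ) : ℂ) := by
  have hK0 := kc_K0 c
  have hNb := kc_Nb0 c
  have hr := kc_r0 c
  refine ⟨?_, ?_, ?_⟩
  · have hcont : Continuous fun t : ℝ => 1 / aa h g ω t := ka2_cont' (kc_inv_hp c) hr
    have h1 : fc (fun z => 1 / aa h g ω z) 0 =
        (1 / (2 * π)) * ∫ t in (0 : ℝ)..2 * π, 1 / aa h g ω t := by
      rw [fc]
      congr 1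
      refine intervalIntegral.integral_congr fun t _ => ?_
      simp
    have h2 : (∫ t in (0 : ℝ)..2 * π, 1 / aa h g ω t).re =
        ∫ t in (0 : ℝ)..2 * π, (1 / aa h g ω t).re := by
      have := Complex.reCLM.intervalIntegral_comp_comm
        (hcont.intervalIntegrable (μ := volume) 0 (2 * π))
      exact this.symm
    have h3 : ∫ t in (0 : ℝ)..2 * π, Nb / (112 * K ^ 4) ≤
        ∫ t in (0 : ℝ)..2 * π, (1 / aa h g ω t).re := by
      refine intervalIntegral.integral_mono_on two_pi_pos.le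
        intervalIntegrable_const ((Complex.continuous_re.comp hcont).intervalIntegrable _ _)
        fun t _ => ?_
      obtain ⟨i1, i2⟩ := kc_aa_real c t
      have i3 := (kc_aa c (ka2_mem' hr t)).1
      rw [← kc_aa_re c t] at i3
      have i4 : (1 / aa h g ω t).re = 1 / (aa h g ω t).re := by
        rw [i2, Complex.ofReal_re, ← Complex.ofReal_one, ← Complex.ofReal_div, Complex.ofReal_re]
      rw [i4]
      calc Nb / (112 * K ^ 4) = 1 / (112 * K ^ 4 / Nb) := by field_simp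
        _ ≤ 1 / (aa h g ω t).re := one_div_le_one_div_of_le i1 i3
    rw [intervalIntegral.integral_const, smul_eq_mul, sub_zero] at h3
    have h4 : (fc (fun z => 1 / aa h g ω z) 0).re =
        (1 / (2 * π)) * ∫ t in (0 : ℝ)..2 * π, (1 / aa h g ω t).re := by
      rw [h1, ← h2]
      have : (1 / (2 * π) : ℂ) = ((1 / (2 * π) : ℝ) : ℂ) := by push_cast; rfl
      rw [this, Complex.re_ofReal_mul]
    refine le_trans ?_ (Complex.re_le_norm _)
    rw [h4]
    calc Nb / (112 * K ^ 4) = (1 / (2 * π)) * (2 * π * (Nb / (112 * K ^ 4))) := by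
          have := pi_pos
          field_simp
      _ ≤ _ := mul_le_mul_of_nonneg_left h3 (by positivity)
  · exact norm_fc_zero_le (kc_inv_hp c) hr fun t => kc_inv_bd c (ka2_mem' hr t)
  · have h1 := fc_neg (kc_inv_hp c) 0
    rw [neg_zero] at h1
    exact (Complex.conj_eq_iff_real.1 h1.symm).elim fun x hx => by
      rw [hx, Complex.ofReal_re]

/-- derivative of `aa` -/
theorem kc_aa_deriv (c : Ctx K γ N Nb J ω h g) {z : ℂ} (hz : z ∈ Strip (4 * cr K / N)) :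
    ‖deriv (aa h g ω) z‖ ≤ 224 * K ^ 5 / Nb * (1 + N * J) := by
  have hK0 := kc_K0 c
  have hK1 := c.K1
  have hω := kc_ω0 c
  have hNb := kc_Nb0 c
  have hN := kc_N0 c
  have hJ := c.J0
  have hz' := kc_strip_add hz ω
  obtain ⟨-, -, -, h4, h5, h6⟩ := delta_bounds c hz hz' (kc_shift_diff z ω hω)
  have e1 := kc_g_at c hz
  have e2 := (kc_g_at c hz').comp_add_const z (ω : ℂ)
  have e3 := kc_dg_at c hz
  have e4 := (kc_dg_at c hz').comp_add_const z (ω : ℂ)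
  have e5 := (HasDerivAt.comp z (kc_h_at c ((g z + g (z + ω)) / 2)) ((e1.add e2).div_const 2)).add
    (HasDerivAt.comp z (kc_h2_at c ((g z + g (z + ω)) / 2)) ((e1.add e2).div_const 2))
  have e6 := ((e2.sub e1).div_const 2).csin
  have e7 := (((e5.const_mul (1 / 2 : ℂ)).mul e6).mul e3).mul e4
  have e8 : deriv (aa h g ω) z = _ := e7.deriv
  simp only [Pi.add_apply, Pi.mul_apply, Function.comp_apply, Pi.sub_apply] at e8
  rw [e8]
  set ψ := (g z + g (z + ω)) / 2 with hψ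
  set δ := (g (z + ω) - g z) / 2 with hδ
  have b1 := (gs_near c hz).2.1
  have b2 := (gs_near c hz').2.1
  have b3 := c.gs.g2 z hz
  have b4 := c.gs.g2 _ hz'
  have b5 := kc_rho_le c h6
  have b6 : ‖deriv h ψ + deriv (deriv (deriv h)) ψ‖ ≤ 2 * K := by
    linarith [norm_add_le (deriv h ψ) (deriv (deriv (deriv h)) ψ), c.tb.b1 ψ h6, c.tb.b3 ψ h6]
  have b7 : ‖(deriv g z + deriv g (z + ω)) / 2‖ ≤ 2 * K := by
    rw [norm_div, Complex.norm_ofNat]
    linarith [norm_add_le (deriv g z) (deriv g (z + ω))]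
  have b8 : ‖(deriv g (z + ω) - deriv g z) / 2‖ ≤ ω * (N * J) := by
    have i1 := bd_lip (kc_dg_hp c).hol c.gs.g2 hz' hz
    have i2 : z + ω - z = ω := by ring
    rw [i2, Complex.norm_real, Real.norm_of_nonneg hω.le] at i1
    rw [norm_div, Complex.norm_ofNat]
    have : 0 ≤ N * J * ω := by positivity
    linarith
  have hω7 := kc_ω_le c
  -- regroup
  have key : ∀ ρ ρ' ψ' s cs δ' a b a' b' : ℂ, ‖ρ‖ ≤ 2 * K → ‖ρ'‖ ≤ 2 * K → ‖ψ'‖ ≤ 2 * K →
      ‖s‖ ≤ 4 * K * ω → ‖cs‖ ≤ 2 → ‖δ'‖ ≤ ω * (N * J) → ‖a‖ ≤ 2 * K → ‖b‖ ≤ 2 * K →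
      ‖a'‖ ≤ N * J → ‖b'‖ ≤ N * J →
      ‖1 / 2 * (ρ' * ψ') * s * a * b + 1 / 2 * ρ * (cs * δ') * a * b +
        1 / 2 * ρ * s * a' * b + 1 / 2 * ρ * s * a * b'‖ ≤
        224 * K ^ 5 / Nb * (1 + N * J) := by
    intro ρ ρ' ψ' s cs δ' a b a' b' c1 c2 c3 c4 c5 c6 c7 c8 c9 c10
    have n1 : ‖1 / 2 * (ρ' * ψ') * s * a * b‖ ≤ 1 / 2 * ((2 * K) * (2 * K)) * (4 * K * ω) *
        (2 * K) * (2 * K) := by
      simp only [norm_mul, norm_div, norm_one, Complex.norm_ofNat]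
      gcongr
    have n2 : ‖1 / 2 * ρ * (cs * δ') * a * b‖ ≤ 1 / 2 * (2 * K) * (2 * (ω * (N * J))) *
        (2 * K) * (2 * K) := by
      simp only [norm_mul, norm_div, norm_one, Complex.norm_ofNat]
      gcongr
    have n3 : ‖1 / 2 * ρ * s * a' * b‖ ≤ 1 / 2 * (2 * K) * (4 * K * ω) * (N * J) * (2 * K) := by
      simp only [norm_mul, norm_div, norm_one, Complex.norm_ofNat]
      gcongr
    have n4 : ‖1 / 2 * ρ * s * a * b'‖ ≤ 1 / 2 * (2 * K) * (4 * K * ω) * (2 * K) * (N * J) := by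
      simp only [norm_mul, norm_div, norm_one, Complex.norm_ofNat]
      gcongr
    have n5 := norm_add_le (1 / 2 * (ρ' * ψ') * s * a * b + 1 / 2 * ρ * (cs * δ') * a * b +
        1 / 2 * ρ * s * a' * b) (1 / 2 * ρ * s * a * b')
    have n6 := norm_add_le (1 / 2 * (ρ' * ψ') * s * a * b + 1 / 2 * ρ * (cs * δ') * a * b)
        (1 / 2 * ρ * s * a' * b)
    have n7 := norm_add_le (1 / 2 * (ρ' * ψ') * s * a * b) (1 / 2 * ρ * (cs * δ') * a * b)
    have hK34 : K ^ 3 ≤ K ^ 5 := pow_le_pow_right₀ hK1 (by norm_num)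
    have hNJ : 0 ≤ N * J := by positivity
    have hωK : K ^ 5 * ω ≤ 7 * K ^ 5 / Nb := by
      calc K ^ 5 * ω ≤ K ^ 5 * (7 / Nb) := by gcongr
        _ = 7 * K ^ 5 / Nb := by ring
    have n8 : 8 * K ^ 3 * ω * (N * J) + 16 * K ^ 3 * ω * (N * J) ≤ 32 * K ^ 5 * ω * (N * J) := by
      have i1 : K ^ 3 * ω * (N * J) ≤ K ^ 5 * ω * (N * J) := by gcongr
      have i2 : 0 ≤ K ^ 5 * ω * (N * J) := by positivity
      linarith
    have r1 : 1 / 2 * ((2 * K) * (2 * K)) * (4 * K * ω) * (2 * K) * (2 * K) =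
        32 * K ^ 5 * ω := by ring
    have r2 : 1 / 2 * (2 * K) * (2 * (ω * (N * J))) * (2 * K) * (2 * K) =
        8 * K ^ 3 * ω * (N * J) := by ring
    have r3 : 1 / 2 * (2 * K) * (4 * K * ω) * (N * J) * (2 * K) =
        8 * K ^ 3 * ω * (N * J) := by ring
    have r4 : 1 / 2 * (2 * K) * (4 * K * ω) * (2 * K) * (N * J) =
        8 * K ^ 3 * ω * (N * J) := by ring
    rw [r1] at n1
    rw [r2] at n2
    rw [r3] at n3
    rw [r4] at n4
    calc _ ≤ 32 * K ^ 5 * ω + (8 * K ^ 3 * ω * (N * J) + 16 * K ^ 3 * ω * (N * J)) := by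
          linarith
      _ ≤ 32 * K ^ 5 * ω + 32 * K ^ 5 * ω * (N * J) := by linarith
      _ = 32 * (K ^ 5 * ω) * (1 + N * J) := by ring
      _ ≤ 32 * (7 * K ^ 5 / Nb) * (1 + N * J) := by gcongr
      _ = 224 * K ^ 5 / Nb * (1 + N * J) := by ring
  have := key (h ψ + deriv (deriv h) ψ) (deriv h ψ + deriv (deriv (deriv h)) ψ)
    ((deriv g z + deriv g (z + ω)) / 2) (Complex.sin δ) (Complex.cos δ)
    ((deriv g (z + ω) - deriv g z) / 2) (deriv g z) (deriv g (z + ω)) (deriv (deriv g) z)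
    (deriv (deriv g) (z + ω)) b5 b6 b7 h4 h5 b8 b1 b2 b3 b4
  refine le_trans (le_of_eq ?_) this
  congr 1
  ring

theorem aa_bounds (K : ℝ) : ∃ C : ℝ, 1 ≤ C ∧ ∀ {γ N Nb J ω : ℝ} {h g : ℂ → ℂ},
    Ctx K γ N Nb J ω h g → Bd (4 * cr K / N) (aa h g ω) (C / Nb) ∧
      (∀ z ∈ Strip (4 * cr K / N), 1 / (C * Nb) ≤ ‖aa h g ω z‖) ∧
      (∀ t : ℝ, 1 / (C * Nb) ≤ (aa h g ω t).re) ∧
      Nb / C ≤ ‖fc (fun z => 1 / aa h g ω z) 0‖ ∧ ‖fc (fun z => 1 / aa h g ω z) 0‖ ≤ C * Nb ∧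
      Bd (4 * cr K / N) (deriv (aa h g ω)) (C / Nb * (1 + N * J)) := by
  refine ⟨224 * (|K| + 1) ^ 5, ?_, ?_⟩
  · have h1 : (1 : ℝ) ≤ |K| + 1 := by linarith [abs_nonneg K]
    have h2 := one_le_pow₀ h1 (n := 5)
    linarith
  · intro γ N Nb J ω h g c
    have hK0 := kc_K0 c
    have hK1 := c.K1
    have hNb := kc_Nb0 c
    have hN := kc_N0 c
    have hJ := c.J0
    have h5 : K ^ 5 ≤ (|K| + 1) ^ 5 := by
      refine pow_le_pow_left₀ hK0.le ?_ 5
      linarith [le_abs_self K]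
    have h4 : K ^ 4 ≤ K ^ 5 := pow_le_pow_right₀ hK1 (by norm_num)
    have hp4 : 0 < K ^ 4 := by positivity
    have c1 : 112 * K ^ 4 ≤ 224 * (|K| + 1) ^ 5 := by linarith
    have c2 : 96 * K ^ 4 ≤ 224 * (|K| + 1) ^ 5 := by linarith
    have c3 : 0 < 224 * (|K| + 1) ^ 5 := by linarith
    have lo : ∀ z ∈ Strip (4 * cr K / N), 1 / (224 * (|K| + 1) ^ 5 * Nb) ≤ ‖aa h g ω z‖ := by
      intro z hz
      refine le_trans ?_ (kc_aa c hz).2
      exact one_div_le_one_div_of_le (by positivity) (mul_le_mul_of_nonneg_right c2 hNb.le)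
    refine ⟨fun z hz => (kc_aa c hz).1.trans (div_le_div_of_nonneg_right c1 hNb.le), lo,
      fun t => ?_, ?_, ?_, fun z hz => (kc_aa_deriv c hz).trans ?_⟩
    · rw [kc_aa_re c]
      exact lo t (ka2_mem' (kc_r0 c) t)
    · refine le_trans ?_ (kc_mean c).1
      exact div_le_div_of_nonneg_left hNb.le (by positivity) c1
    · exact (kc_mean c).2.1.trans (mul_le_mul_of_nonneg_right c2 hNb.le)
    · gcongr

theorem qq_bounds (K : ℝ) : ∃ C : ℝ, 1 ≤ C ∧ ∀ {γ N Nb J ω : ℝ} {h g : ℂ → ℂ},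
    Ctx K γ N Nb J ω h g → HP (4 * cr K / N) (qq h g ω) ∧ fc (qq h g ω) 0 = 0 ∧
      Bd (4 * cr K / N) (qq h g ω) C ∧
      Bd (4 * cr K / N) (deriv (qq h g ω)) (C * (1 + N * J)) := by
  obtain ⟨C, hC1, hC⟩ := aa_bounds K
  have hC0 : 0 < C := lt_of_lt_of_le one_pos hC1
  refine ⟨C ^ 4 + 1, by have := pow_pos hC0 4; linarith, ?_⟩
  intro γ N Nb J ω h g c
  obtain ⟨a1, a2, a3, a4, a5, a6⟩ := hC c
  have hNb := kc_Nb0 c
  have hN := kc_N0 c
  have hJ := c.J0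
  have hr := kc_r0 c
  obtain ⟨-, -, m3⟩ := kc_mean c
  set m := fc (fun z => 1 / aa h g ω z) 0 with hm
  have hm0 : m ≠ 0 := by
    intro h0
    rw [h0, norm_zero] at a4
    have : 0 < Nb / C := by positivity
    linarith
  have hqq : qq h g ω = fun z => (fun z => ((1 / m.re : ℝ) : ℂ) * (1 / aa h g ω z)) z -
      (fun _ => ((1 : ℝ) : ℂ)) z := by
    funext z
    simp only [qq]
    rw [← hm]
    conv_lhs => rw [m3]
    push_cast
    ring
  have hHP : HP (4 * cr K / N) (qq h g ω) := by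
    rw [hqq]
    exact hp_sub (hp_mul (hp_const _ _) (kc_inv_hp c)) (hp_const _ _)
  have hinv : ∀ z ∈ Strip (4 * cr K / N), ‖1 / aa h g ω z‖ ≤ C * Nb := by
    intro z hz
    rw [norm_div, norm_one]
    calc 1 / ‖aa h g ω z‖ ≤ 1 / (1 / (C * Nb)) :=
          one_div_le_one_div_of_le (by positivity) (a2 z hz)
      _ = C * Nb := by rw [one_div_one_div]
  have hminv : 1 / ‖m‖ ≤ C / Nb := by
    calc 1 / ‖m‖ ≤ 1 / (Nb / C) := one_div_le_one_div_of_le (by positivity) a4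
      _ = C / Nb := by rw [one_div_div]
  have hC24 : C ^ 2 ≤ C ^ 4 := pow_le_pow_right₀ hC1 (by norm_num)
  refine ⟨hHP, ?_, ?_, ?_⟩
  · have e1 : fc (qq h g ω) 0 = fc (fun z => (fun z => (1 / m) * (1 / aa h g ω z)) z +
        (fun _ => ((-1 : ℝ) : ℂ)) z) 0 := by
      refine kc_fc_congr (fun t => ?_) 0
      simp only [qq]
      rw [← hm]
      push_cast
      ring
    have e2 : HP (4 * cr K / N) (fun z => (1 / m) * (1 / aa h g ω z)) := by
      have := hp_mul (hp_const (4 * cr K / N) (1 / m.re)) (kc_inv_hp c)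
      have e3 : ((1 / m.re : ℝ) : ℂ) = 1 / m := by
        conv_rhs => rw [m3]
        push_cast
        rfl
      rwa [e3] at this
    rw [e1, fc_add e2 (hp_const _ _) hr, fc_smul, ← hm, one_div_mul_cancel hm0]
    have e4 : fc (fun _ => ((-1 : ℝ) : ℂ)) 0 = -1 := by
      rw [fc]
      have e5 : ∀ t : ℝ, ((-1 : ℝ) : ℂ) * Complex.exp (-(((0 : ℤ) : ℂ) * t * Complex.I)) = -1 := by
        intro t
        simp
      simp only [e5]
      rw [intervalIntegral.integral_const, sub_zero, Complex.real_smul]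
      have : (π : ℂ) ≠ 0 := by exact_mod_cast pi_ne_zero
      push_cast
      field_simp
    rw [e4]
    ring
  · intro z hz
    have e1 : qq h g ω z = (1 / aa h g ω z) * (1 / m) - 1 := by
      simp only [qq]
      rw [← hm]
      ring
    rw [e1]
    have e2 := norm_sub_le ((1 / aa h g ω z) * (1 / m)) 1
    rw [norm_one] at e2
    have e3 : ‖(1 / aa h g ω z) * (1 / m)‖ ≤ (C * Nb) * (C / Nb) := by
      rw [norm_mul]
      refine mul_le_mul (hinv z hz) ?_ (norm_nonneg _) (by positivity)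
      rw [norm_div, norm_one]
      exact hminv
    have e4 : (C * Nb) * (C / Nb) = C ^ 2 := by field_simp
    linarith
  · intro z hz
    have e1 : HasDerivAt (aa h g ω) (deriv (aa h g ω) z) z :=
      ((hp_aa c).hol.differentiableAt ((isOpen_strip _).mem_nhds hz)).hasDerivAt
    have e2 := ((e1.inv (kc_aa_ne c hz)).mul_const (1 / m)).sub_const 1
    have e3 : qq h g ω = fun z => (aa h g ω z)⁻¹ * (1 / m) - 1 := by
      funext z
      simp only [qq]
      rw [← hm]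
      ring
    have e4 : deriv (qq h g ω) z = -deriv (aa h g ω) z / aa h g ω z ^ 2 * (1 / m) := by
      rw [e3]
      exact e2.deriv
    have e5 : deriv (qq h g ω) z = -(deriv (aa h g ω) z) * (1 / aa h g ω z) * (1 / aa h g ω z) *
        (1 / m) := by
      rw [e4]
      field_simp
    rw [e5, norm_mul, norm_mul, norm_mul, norm_neg]
    have e6 : ‖1 / m‖ ≤ C / Nb := by
      rw [norm_div, norm_one]
      exact hminv
    have e7 := hinv z hz
    have e8 := a6 z hz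
    calc ‖deriv (aa h g ω) z‖ * ‖1 / aa h g ω z‖ * ‖1 / aa h g ω z‖ * ‖1 / m‖
        ≤ (C / Nb * (1 + N * J)) * (C * Nb) * (C * Nb) * (C / Nb) := by gcongr
      _ = C ^ 4 * (1 + N * J) := by field_simp
      _ ≤ (C ^ 4 + 1) * (1 + N * J) := by
          have : 0 ≤ N * J := by positivity
          nlinarith

end Pool.Agent.MP_b87ea9_an.Kam
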