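import Mathlib
import Pool.Agent.Lib.MP_b87ea9_an.KDefs
import Pool.Agent.Lib.MP_b87ea9_an.KDefs2
import Pool.Agent.Lib.MP_b87ea9_an.KDefs3
import Pool.Agent.Lib.MP_b87ea9_an.KC1

set_option autoImplicit false

/-! Lipschitz and Taylor estimates of the lifted generating function -/

namespace Pool.Agent.MP_b87ea9_an.Kam

open Real MeasureTheory

/-! ### partial derivatives of `BB` -/

/-- partial derivative of `BB` in the first line -/
noncomputable def kc2X (h g : ℂ → ℂ) (x y : ℂ) : ℂ :=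
  (1 / 2) * ((deriv h ((g x + g y) / 2) + deriv (deriv (deriv h)) ((g x + g y) / 2)) *
      (deriv g x / 2) * Complex.sin ((g y - g x) / 2) * deriv g x * deriv g y +
    (h ((g x + g y) / 2) + deriv (deriv h) ((g x + g y) / 2)) *
      Complex.cos ((g y - g x) / 2) * (-(deriv g x / 2)) * deriv g x * deriv g y +
    (h ((g x + g y) / 2) + deriv (deriv h) ((g x + g y) / 2)) *
      Complex.sin ((g y - g x) / 2) * deriv (deriv g) x * deriv g y)

/-- partial derivative of `BB` in the second line -/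
noncomputable def kc2Y (h g : ℂ → ℂ) (x y : ℂ) : ℂ :=
  (1 / 2) * ((deriv h ((g x + g y) / 2) + deriv (deriv (deriv h)) ((g x + g y) / 2)) *
      (deriv g y / 2) * Complex.sin ((g y - g x) / 2) * deriv g x * deriv g y +
    (h ((g x + g y) / 2) + deriv (deriv h) ((g x + g y) / 2)) *
      Complex.cos ((g y - g x) / 2) * (deriv g y / 2) * deriv g x * deriv g y +
    (h ((g x + g y) / 2) + deriv (deriv h) ((g x + g y) / 2)) *
      Complex.sin ((g y - g x) / 2) * deriv g x * deriv (deriv g) y)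

theorem kc2_dd {f : ℂ → ℂ} (hf : Differentiable ℂ f) : Differentiable ℂ (deriv f) := by
  intro z
  exact ((hf.differentiableOn (s := Set.univ)).deriv isOpen_univ).differentiableAt
    (by simp)

theorem kc2_convex (r : ℝ) : Convex ℝ (Strip r) := by
  have h1 : Strip r = Complex.imCLM ⁻¹' (Set.Ioo (-r) r) := by
    ext z
    simp [Strip, abs_lt]
  rw [h1]
  exact (convex_Ioo _ _).is_linear_preimage Complex.imCLM.isLinear

section

variable {K γ N Nb J ω : ℝ} {h g : ℂ → ℂ}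

theorem kc2_pos (c : Ctx K γ N Nb J ω h g) : 0 < K ∧ 0 < N ∧ 0 < Nb ∧ 0 < ω ∧ ω ≤ 7 / Nb ∧
    ω ≤ 1 ∧ 1 ≤ Nb := by
  have hK : 0 < K := lt_of_lt_of_le one_pos c.K1
  have hN : 0 < N := lt_of_lt_of_le one_pos c.N1
  have hK4 : 1 ≤ K ^ 4 := one_le_pow₀ c.K1
  have hNb' : (10 : ℝ) ^ 4 ≤ Nb := by
    have := c.Nb1
    nlinarith
  have hNb : 0 < Nb := by linarith [show (0 : ℝ) < 10 ^ 4 by norm_num]
  have hω : 0 < ω := by
    by_contra hcon
    have := c.lo
    nlinarith [mul_nonneg (sub_nonneg.2 (not_lt.1 hcon)) hNb.le]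
  have h7 : ω ≤ 7 / Nb := by rw [le_div_iff₀ hNb]; exact c.hi
  refine ⟨hK, hN, hNb, hω, h7, h7.trans ?_, ?_⟩
  · rw [div_le_one hNb]; norm_num at hNb' ⊢; linarith
  · norm_num at hNb' ⊢; linarith

theorem kc2_g (c : Ctx K γ N Nb J ω h g) {x : ℂ} (hx : x ∈ Strip (4 * cr K / N)) :
    HasDerivAt g (deriv g x) x :=
  ((gs_dif c).hol.differentiableAt ((isOpen_strip _).mem_nhds hx)).hasDerivAt

theorem kc2_g1 (c : Ctx K γ N Nb J ω h g) {x : ℂ} (hx : x ∈ Strip (4 * cr K / N)) :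
    HasDerivAt (deriv g) (deriv (deriv g) x) x :=
  (((gs_dif c).hol.deriv (isOpen_strip _)).differentiableAt
    ((isOpen_strip _).mem_nhds hx)).hasDerivAt

theorem kc2_g2 (c : Ctx K γ N Nb J ω h g) : DifferentiableOn ℂ (deriv (deriv g))
    (Strip (4 * cr K / N)) :=
  ((gs_dif c).hol.deriv (isOpen_strip _)).deriv (isOpen_strip _)

/-- derivative of `BB` along a curve -/
theorem kc2_BB (c : Ctx K γ N Nb J ω h g) {X Y : ℂ → ℂ} {X' Y' t : ℂ} (hX : HasDerivAt X X' t)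
    (hY : HasDerivAt Y Y' t) (hx : X t ∈ Strip (4 * cr K / N)) (hy : Y t ∈ Strip (4 * cr K / N)) :
    HasDerivAt (fun t => BB h g (X t) (Y t))
      (X' * kc2X h g (X t) (Y t) + Y' * kc2Y h g (X t) (Y t)) t := by
  have d0 : Differentiable ℂ h := c.tb.hol
  have d1 := kc2_dd d0
  have d2 := kc2_dd d1
  have gx : HasDerivAt (fun t => g (X t)) (deriv g (X t) * X') t := (kc2_g c hx).comp t hX
  have gy : HasDerivAt (fun t => g (Y t)) (deriv g (Y t) * Y') t := (kc2_g c hy).comp t hY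
  have g1x : HasDerivAt (fun t => deriv g (X t)) (deriv (deriv g) (X t) * X') t :=
    (kc2_g1 c hx).comp t hX
  have g1y : HasDerivAt (fun t => deriv g (Y t)) (deriv (deriv g) (Y t) * Y') t :=
    (kc2_g1 c hy).comp t hY
  have hψ := (gx.add gy).div_const 2
  have hδ := (gy.sub gx).div_const 2
  have hh : HasDerivAt (fun t => h ((g (X t) + g (Y t)) / 2)) _ t :=
    (d0 _).hasDerivAt.comp t hψ
  have hh2 : HasDerivAt (fun t => deriv (deriv h) ((g (X t) + g (Y t)) / 2)) _ t :=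
    (d2 _).hasDerivAt.comp t hψ
  have hs : HasDerivAt (fun t => Complex.sin ((g (Y t) - g (X t)) / 2)) _ t :=
    (Complex.hasDerivAt_sin _).comp t hδ
  have := ((((hh.add hh2).const_mul (1 / 2)).mul hs).mul g1x).mul g1y
  unfold BB
  refine this.congr_deriv ?_
  unfold kc2X kc2Y
  simp only [Pi.add_apply, Pi.mul_apply]
  ring

/-- bounds at a point -/
theorem kc2_pt (c : Ctx K γ N Nb J ω h g) {x y : ℂ} (hx : x ∈ Strip (4 * cr K / N))
    (hy : y ∈ Strip (4 * cr K / N)) (hxy : ‖y - x - ω‖ ≤ ω / 100) :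
    ‖deriv g x‖ ≤ 2 * K ∧ ‖deriv g y‖ ≤ 2 * K ∧ ‖deriv (deriv g) x‖ ≤ N * J ∧
      ‖deriv (deriv g) y‖ ≤ N * J ∧ ‖Complex.sin ((g y - g x) / 2)‖ ≤ 4 * K * ω ∧
      ‖Complex.cos ((g y - g x) / 2)‖ ≤ 2 ∧
      ‖h ((g x + g y) / 2) + deriv (deriv h) ((g x + g y) / 2)‖ ≤ 2 * K ∧
      ‖deriv h ((g x + g y) / 2) + deriv (deriv (deriv h)) ((g x + g y) / 2)‖ ≤ 2 * K := by
  obtain ⟨-, -, -, h4, h5, h6⟩ := delta_bounds c hx hy hxy
  refine ⟨(gs_near c hx).2.1, (gs_near c hy).2.1, c.gs.g2 x hx, c.gs.g2 y hy, h4, h5, ?_, ?_⟩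
  · have h1 := c.tb.b0 _ h6
    have h2 := c.tb.b2 _ h6
    exact (norm_add_le _ _).trans (by linarith)
  · have h1 := c.tb.b1 _ h6
    have h2 := c.tb.b3 _ h6
    exact (norm_add_le _ _).trans (by linarith)

theorem kc2_X_bd (c : Ctx K γ N Nb J ω h g) {x y : ℂ} (hx : x ∈ Strip (4 * cr K / N))
    (hy : y ∈ Strip (4 * cr K / N)) (hxy : ‖y - x - ω‖ ≤ ω / 100) :
    ‖kc2X h g x y‖ ≤ 80 * K ^ 5 * (1 + N / Nb * J) ∧
      ‖kc2Y h g x y‖ ≤ 80 * K ^ 5 * (1 + N / Nb * J) := by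
  obtain ⟨b1, b2, b3, b4, b5, b6, b7, b8⟩ := kc2_pt c hx hy hxy
  obtain ⟨hK, hN, hNb, hω, h7, hω1, hNb1⟩ := kc2_pos c
  have hJ := c.J0
  have hK1 := c.K1
  have key : (1 / 2) * (2 * K * (2 * K / 2) * (4 * K * ω) * (2 * K) * (2 * K) +
      2 * K * 2 * (2 * K / 2) * (2 * K) * (2 * K) + 2 * K * (4 * K * ω) * (N * J) * (2 * K)) ≤
      80 * K ^ 5 * (1 + N / Nb * J) := by
    have e1 : K ^ 5 * ω ≤ K ^ 5 * 1 := mul_le_mul_of_nonneg_left hω1 (by positivity)
    have e2 : K ^ 4 ≤ K ^ 5 := pow_le_pow_right₀ hK1 (by norm_num)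
    have e3 : K ^ 3 ≤ K ^ 5 := pow_le_pow_right₀ hK1 (by norm_num)
    have e4 : ω * (N * J) ≤ 7 / Nb * (N * J) := mul_le_mul_of_nonneg_right h7 (by positivity)
    have e5 : 7 / Nb * (N * J) = 7 * (N / Nb * J) := by ring
    have e6 : 0 ≤ N / Nb * J := by positivity
    have e7 : K ^ 3 * (ω * (N * J)) ≤ K ^ 5 * (7 * (N / Nb * J)) := by
      rw [← e5]
      exact mul_le_mul e3 e4 (by positivity) (by positivity)
    have e8 : 0 ≤ K ^ 5 * (N / Nb * J) := by positivity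
    nlinarith
  constructor
  · refine le_trans ?_ key
    unfold kc2X
    rw [norm_mul, show ‖(1 / 2 : ℂ)‖ = 1 / 2 by norm_num]
    refine mul_le_mul_of_nonneg_left ?_ (by norm_num)
    refine (norm_add₃_le).trans (add_le_add (add_le_add ?_ ?_) ?_)
    · simp only [norm_mul, norm_div, Complex.norm_ofNat]
      gcongr
    · simp only [norm_mul, norm_div, norm_neg, Complex.norm_ofNat]
      gcongr
    · simp only [norm_mul]
      gcongr
  · refine le_trans ?_ key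
    unfold kc2Y
    rw [norm_mul, show ‖(1 / 2 : ℂ)‖ = 1 / 2 by norm_num]
    refine mul_le_mul_of_nonneg_left ?_ (by norm_num)
    refine (norm_add₃_le).trans (add_le_add (add_le_add ?_ ?_) ?_)
    · simp only [norm_mul, norm_div, Complex.norm_ofNat]
      gcongr
    · simp only [norm_mul, norm_div, Complex.norm_ofNat]
      gcongr
    · simp only [norm_mul]
      rw [mul_assoc (2 * K * (4 * K * ω)), mul_comm (N * J), ← mul_assoc (2 * K * (4 * K * ω))]
      gcongr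

/-- the diagonal derivative is small -/
theorem kc2_sum_bd (c : Ctx K γ N Nb J ω h g) {x y : ℂ} (hx : x ∈ Strip (4 * cr K / N))
    (hy : y ∈ Strip (4 * cr K / N)) (hxy : ‖y - x - ω‖ ≤ ω / 100) :
    ‖kc2X h g x y + kc2Y h g x y‖ ≤ 224 * K ^ 5 / Nb * (1 + N * J) := by
  obtain ⟨b1, b2, b3, b4, b5, b6, b7, b8⟩ := kc2_pt c hx hy hxy
  obtain ⟨hK, hN, hNb, hω, h7, hω1, hNb1⟩ := kc2_pos c
  have hJ := c.J0
  have hK1 := c.K1
  have hNJ : 0 ≤ N * J := by positivity
  have hyx : ‖y - x‖ ≤ 2 * ω := by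
    have e1 : y - x = (y - x - ω) + ω := by ring
    rw [e1]
    refine (norm_add_le _ _).trans ?_
    rw [Complex.norm_real, Real.norm_eq_abs, abs_of_pos hω]
    linarith
  have hg' : ‖deriv g y - deriv g x‖ ≤ N * J * (2 * ω) := by
    refine (bd_lip ((gs_dif c).hol.deriv (isOpen_strip _)) c.gs.g2 hy hx).trans ?_
    exact mul_le_mul_of_nonneg_left hyx hNJ
  have key : (1 / 2) * (2 * K * ((2 * K + 2 * K) / 2) * (4 * K * ω) * (2 * K) * (2 * K) +
      2 * K * 2 * (N * J * (2 * ω) / 2) * (2 * K) * (2 * K) +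
      2 * K * (4 * K * ω) * (N * J * (2 * K) + 2 * K * (N * J))) ≤
      224 * K ^ 5 / Nb * (1 + N * J) := by
    have e3 : K ^ 3 ≤ K ^ 5 := pow_le_pow_right₀ hK1 (by norm_num)
    have e4 : (1 / 2) * (2 * K * ((2 * K + 2 * K) / 2) * (4 * K * ω) * (2 * K) * (2 * K) +
      2 * K * 2 * (N * J * (2 * ω) / 2) * (2 * K) * (2 * K) +
      2 * K * (4 * K * ω) * (N * J * (2 * K) + 2 * K * (N * J))) =
      (32 * K ^ 5 + 24 * K ^ 3 * (N * J)) * ω := by ring
    have e5 : 224 * K ^ 5 / Nb * (1 + N * J) = (32 * K ^ 5 * (1 + N * J)) * (7 / Nb) := by ring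
    rw [e4, e5]
    refine mul_le_mul ?_ h7 hω.le (by positivity)
    nlinarith [mul_le_mul_of_nonneg_right e3 hNJ, mul_nonneg (pow_nonneg hK.le 5) hNJ]
  refine le_trans ?_ key
  have e : kc2X h g x y + kc2Y h g x y = (1 / 2) *
    ((deriv h ((g x + g y) / 2) + deriv (deriv (deriv h)) ((g x + g y) / 2)) *
      ((deriv g x + deriv g y) / 2) * Complex.sin ((g y - g x) / 2) * deriv g x * deriv g y +
    (h ((g x + g y) / 2) + deriv (deriv h) ((g x + g y) / 2)) *
      Complex.cos ((g y - g x) / 2) * ((deriv g y - deriv g x) / 2) * deriv g x * deriv g y +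
    (h ((g x + g y) / 2) + deriv (deriv h) ((g x + g y) / 2)) *
      Complex.sin ((g y - g x) / 2) *
        (deriv (deriv g) x * deriv g y + deriv g x * deriv (deriv g) y)) := by
    unfold kc2X kc2Y
    ring
  rw [e, norm_mul, show ‖(1 / 2 : ℂ)‖ = 1 / 2 by norm_num]
  refine mul_le_mul_of_nonneg_left ?_ (by norm_num)
  refine (norm_add₃_le).trans (add_le_add (add_le_add ?_ ?_) ?_)
  · simp only [norm_mul, norm_div, Complex.norm_ofNat]
    gcongr
    exact (norm_add_le _ _).trans (add_le_add b1 b2)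
  · simp only [norm_mul, norm_div, Complex.norm_ofNat]
    gcongr
  · rw [norm_mul, norm_mul]
    gcongr
    refine (norm_add_le _ _).trans (add_le_add ?_ ?_)
    · rw [norm_mul]; gcongr
    · rw [norm_mul]; gcongr

/-- `kc2X` is holomorphic along the diagonal -/
theorem kc2_X_diff (c : Ctx K γ N Nb J ω h g) {x y : ℂ} (hx : x ∈ Strip (4 * cr K / N))
    (hy : y ∈ Strip (4 * cr K / N)) {a b t : ℂ} (ha : a + t = x) (hb : b + t = y) :
    DifferentiableAt ℂ (fun t => kc2X h g (a + t) (b + t)) t := by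
  have d0 : Differentiable ℂ h := c.tb.hol
  have d1 := kc2_dd d0
  have d2 := kc2_dd d1
  have d3 := kc2_dd d2
  have ea : DifferentiableAt ℂ (fun t : ℂ => a + t) t := by fun_prop
  have eb : DifferentiableAt ℂ (fun t : ℂ => b + t) t := by fun_prop
  have gx : DifferentiableAt ℂ (fun t => g (a + t)) t := by
    refine DifferentiableAt.comp (g := g) t ?_ ea
    rw [ha]; exact (kc2_g c hx).differentiableAt
  have gy : DifferentiableAt ℂ (fun t => g (b + t)) t := by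
    refine DifferentiableAt.comp (g := g) t ?_ eb
    rw [hb]; exact (kc2_g c hy).differentiableAt
  have g1x : DifferentiableAt ℂ (fun t => deriv g (a + t)) t := by
    refine DifferentiableAt.comp (g := deriv g) t ?_ ea
    rw [ha]; exact (kc2_g1 c hx).differentiableAt
  have g1y : DifferentiableAt ℂ (fun t => deriv g (b + t)) t := by
    refine DifferentiableAt.comp (g := deriv g) t ?_ eb
    rw [hb]; exact (kc2_g1 c hy).differentiableAt
  have g2x : DifferentiableAt ℂ (fun t => deriv (deriv g) (a + t)) t := by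
    refine DifferentiableAt.comp (g := deriv (deriv g)) t ?_ ea
    rw [ha]
    exact (kc2_g2 c).differentiableAt ((isOpen_strip _).mem_nhds hx)
  have hψ : DifferentiableAt ℂ (fun t => (g (a + t) + g (b + t)) / 2) t := (gx.add gy).div_const 2
  have hδ : DifferentiableAt ℂ (fun t => (g (b + t) - g (a + t)) / 2) t := (gy.sub gx).div_const 2
  have h0 : DifferentiableAt ℂ (fun t => h ((g (a + t) + g (b + t)) / 2)) t :=
    DifferentiableAt.comp (g := h) t (d0 _) hψ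
  have h1 : DifferentiableAt ℂ (fun t => deriv h ((g (a + t) + g (b + t)) / 2)) t :=
    DifferentiableAt.comp (g := deriv h) t (d1 _) hψ
  have h2 : DifferentiableAt ℂ (fun t => deriv (deriv h) ((g (a + t) + g (b + t)) / 2)) t :=
    DifferentiableAt.comp (g := deriv (deriv h)) t (d2 _) hψ
  have h3 : DifferentiableAt ℂ (fun t => deriv (deriv (deriv h)) ((g (a + t) + g (b + t)) / 2)) t :=
    DifferentiableAt.comp (g := deriv (deriv (deriv h))) t (d3 _) hψ
  have hs : DifferentiableAt ℂ (fun t => Complex.sin ((g (b + t) - g (a + t)) / 2)) t := hδ.csin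
  have hc : DifferentiableAt ℂ (fun t => Complex.cos ((g (b + t) - g (a + t)) / 2)) t := hδ.ccos
  unfold kc2X
  fun_prop

/-- `kc2X` is Lipschitz along the diagonal (Schwarz lemma) -/
theorem kc2_X_lip (c : Ctx K γ N Nb J ω h g) {x y s : ℂ} (hx : x ∈ Strip (13 * cr K / (4 * N)))
    (hy : y ∈ Strip (13 * cr K / (4 * N))) (hxy : ‖y - x - ω‖ ≤ ω / 100)
    (hs : ‖s‖ ≤ cr K / (4 * N)) :
    ‖kc2X h g (x + s) (y + s) - kc2X h g x y‖ ≤
      (320 * K ^ 5 / cr K) * (N * (1 + N / Nb * J)) * ‖s‖ := by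
  obtain ⟨hK, hN, hNb, hω, h7, hω1, hNb1⟩ := kc2_pos c
  have hcr : 0 < cr K := by unfold cr; positivity
  have hJ := c.J0
  set R₁ : ℝ := cr K / (2 * N) with hR₁
  have hR₁0 : 0 < R₁ := by positivity
  set M : ℝ := 80 * K ^ 5 * (1 + N / Nb * J) with hM
  have hM0 : 0 ≤ M := by positivity
  have hin : ∀ w : ℂ, w ∈ Strip (13 * cr K / (4 * N)) → ∀ t : ℂ, ‖t‖ < R₁ →
      w + t ∈ Strip (4 * cr K / N) := by
    intro w hw t ht
    have h1 : |w.im| < 13 * cr K / (4 * N) := hw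
    have h2 : |t.im| < R₁ := (Complex.abs_im_le_norm t).trans_lt ht
    show |(w + t).im| < 4 * cr K / N
    rw [Complex.add_im]
    have h3 : 13 * cr K / (4 * N) + R₁ ≤ 4 * cr K / N := by
      rw [hR₁, div_add_div _ _ (by positivity) (by positivity), div_le_div_iff₀ (by positivity) hN]
      nlinarith [mul_pos (mul_pos hcr hN) hN]
    linarith [abs_add_le w.im t.im]
  have hd : DifferentiableOn ℂ (fun t => kc2X h g (x + t) (y + t)) (Metric.ball 0 R₁) := by
    intro t ht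
    rw [Metric.mem_ball, dist_zero_right] at ht
    exact (kc2_X_diff c (hin x hx t ht) (hin y hy t ht) rfl rfl).differentiableWithinAt
  have hb : ∀ t : ℂ, ‖t‖ < R₁ → ‖kc2X h g (x + t) (y + t)‖ ≤ M := by
    intro t ht
    refine (kc2_X_bd c (hin x hx t ht) (hin y hy t ht) ?_).1
    rwa [show y + t - (x + t) - (ω : ℂ) = y - x - ω by ring]
  have hmaps : Set.MapsTo (fun t => kc2X h g (x + t) (y + t)) (Metric.ball 0 R₁)
      (Metric.closedBall ((fun t => kc2X h g (x + t) (y + t)) 0) (2 * M)) := by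
    intro t ht
    rw [Metric.mem_ball, dist_zero_right] at ht
    rw [Metric.mem_closedBall, dist_eq_norm]
    have h1 := hb t ht
    have h2 := hb 0 (by rw [norm_zero]; exact hR₁0)
    exact (norm_sub_le _ _).trans (by linarith)
  have hsR : ‖s‖ < R₁ := by
    refine hs.trans_lt ?_
    rw [hR₁]
    exact div_lt_div_of_pos_left hcr (by positivity) (by linarith)
  have := Complex.dist_le_div_mul_dist_of_mapsTo_ball hd hmaps (z := s)
    (by rwa [Metric.mem_ball, dist_zero_right])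
  rw [dist_eq_norm, dist_zero_right] at this
  simp only [add_zero] at this
  refine this.trans (le_of_eq ?_)
  rw [hM, hR₁]
  field_simp
  ring

end

/-! ### The statements -/

/-- Lipschitz bounds of `BB` -/
theorem BB_lip (K : ℝ) : ∃ C : ℝ, 1 ≤ C ∧ ∀ {γ N Nb J ω : ℝ} {h g : ℂ → ℂ},
    Ctx K γ N Nb J ω h g → ∀ x y x' y' : ℂ, x ∈ Strip (4 * cr K / N) → y ∈ Strip (4 * cr K / N) →
      x' ∈ Strip (4 * cr K / N) → y' ∈ Strip (4 * cr K / N) → ‖y - x - ω‖ ≤ ω / 100 →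
      ‖y' - x' - ω‖ ≤ ω / 100 →
      ‖BB h g x y - BB h g x' y'‖ ≤ C * (1 + N / Nb * J) * (‖x - x'‖ + ‖y - y'‖) := by
  refine ⟨80 * |K| ^ 5 + 1, by nlinarith [pow_nonneg (abs_nonneg K) 5], ?_⟩
  intro γ N Nb J ω h g c x y x' y' hx hy hx' hy' hxy hxy'
  obtain ⟨hK, hN, hNb, hω, h7, hω1, hNb1⟩ := kc2_pos c
  have hJ := c.J0
  rw [abs_of_pos hK]
  set M : ℝ := 80 * K ^ 5 * (1 + N / Nb * J) with hM
  have hM0 : 0 ≤ M := by positivity
  -- the path from `(x', y')` to `(x, y)`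
  have hs : Convex ℝ (segment ℝ (0 : ℂ) 1) := convex_segment _ _
  have hseg : ∀ t ∈ segment ℝ (0 : ℂ) 1, ∃ θ : ℝ, 0 ≤ θ ∧ θ ≤ 1 ∧ t = (θ : ℂ) := by
    rintro t ⟨a, b, ha, hb, hab, rfl⟩
    refine ⟨b, hb, by linarith, by simp⟩
  have hin : ∀ θ : ℝ, 0 ≤ θ → θ ≤ 1 → ∀ u v : ℂ, u ∈ Strip (4 * cr K / N) →
      v ∈ Strip (4 * cr K / N) → v + (θ : ℂ) * (u - v) ∈ Strip (4 * cr K / N) := by
    intro θ h0 h1 u v hu hv
    have := kc2_convex (4 * cr K / N) hv hu (sub_nonneg.2 h1) h0 (by ring)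
    convert this using 1
    simp only [Complex.real_smul]
    push_cast
    ring
  have hd : ∀ t ∈ segment ℝ (0 : ℂ) 1,
      HasDerivWithinAt (fun t : ℂ => BB h g (x' + t * (x - x')) (y' + t * (y - y')))
        ((x - x') * kc2X h g (x' + t * (x - x')) (y' + t * (y - y')) +
          (y - y') * kc2Y h g (x' + t * (x - x')) (y' + t * (y - y'))) (segment ℝ (0 : ℂ) 1) t := by
    intro t ht
    obtain ⟨θ, h0, h1, rfl⟩ := hseg t ht
    apply HasDerivAt.hasDerivWithinAt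
    refine kc2_BB c (X := fun t : ℂ => x' + t * (x - x')) (Y := fun t : ℂ => y' + t * (y - y'))
      ?_ ?_ (hin θ h0 h1 x x' hx hx') (hin θ h0 h1 y y' hy hy')
    · simpa using ((hasDerivAt_id (θ : ℂ)).mul_const (x - x')).const_add x'
    · simpa using ((hasDerivAt_id (θ : ℂ)).mul_const (y - y')).const_add y'
  have hbd : ∀ t ∈ segment ℝ (0 : ℂ) 1,
      ‖(x - x') * kc2X h g (x' + t * (x - x')) (y' + t * (y - y')) +
          (y - y') * kc2Y h g (x' + t * (x - x')) (y' + t * (y - y'))‖ ≤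
        M * (‖x - x'‖ + ‖y - y'‖) := by
    intro t ht
    obtain ⟨θ, h0, h1, rfl⟩ := hseg t ht
    have hc : ‖(y' + (θ : ℂ) * (y - y')) - (x' + (θ : ℂ) * (x - x')) - ω‖ ≤ ω / 100 := by
      have e : (y' + (θ : ℂ) * (y - y')) - (x' + (θ : ℂ) * (x - x')) - ω =
          ((1 - θ : ℝ) : ℂ) * (y' - x' - ω) + (θ : ℂ) * (y - x - ω) := by
        push_cast; ring
      rw [e]
      refine (norm_add_le _ _).trans ?_
      rw [norm_mul, norm_mul, Complex.norm_real, Complex.norm_real, Real.norm_eq_abs,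
        Real.norm_eq_abs, abs_of_nonneg h0, abs_of_nonneg (sub_nonneg.2 h1)]
      nlinarith [mul_le_mul_of_nonneg_left hxy h0,
        mul_le_mul_of_nonneg_left hxy' (sub_nonneg.2 h1)]
    have hb := kc2_X_bd c (hin θ h0 h1 x x' hx hx') (hin θ h0 h1 y y' hy hy') hc
    refine (norm_add_le _ _).trans ?_
    rw [norm_mul, norm_mul]
    nlinarith [mul_le_mul_of_nonneg_left hb.1 (norm_nonneg (x - x')),
      mul_le_mul_of_nonneg_left hb.2 (norm_nonneg (y - y'))]
  have := hs.norm_image_sub_le_of_norm_hasDerivWithin_le hd hbd (left_mem_segment ℝ 0 1)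
    (right_mem_segment ℝ 0 1)
  simp only [zero_mul, add_zero, one_mul, sub_zero, norm_one, mul_one] at this
  rw [show x' + (x - x') = x by ring, show y' + (y - y') = y by ring] at this
  refine this.trans ?_
  refine mul_le_mul_of_nonneg_right ?_ (by positivity)
  rw [hM]
  have : 0 ≤ 1 + N / Nb * J := by positivity
  nlinarith

/-- derivatives of `PP` in the second and of `RR` in the first argument -/
theorem hasDerivAt_PP {K γ N Nb J ω : ℝ} {h g : ℂ → ℂ} (c : Ctx K γ N Nb J ω h g) {x y : ℂ}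
    (hx : x ∈ Strip (4 * cr K / N)) (hy : y ∈ Strip (4 * cr K / N)) :
    HasDerivAt (fun y => PP h g x y) (BB h g x y) y := by
  have d0 : Differentiable ℂ h := c.tb.hol
  have d1 := kc2_dd d0
  have gy := kc2_g c hy
  have hψ : HasDerivAt (fun y => (g x + g y) / 2) (deriv g y / 2) y :=
    (gy.const_add (g x)).div_const 2
  have hδ : HasDerivAt (fun y => (g y - g x) / 2) (deriv g y / 2) y :=
    (gy.sub_const (g x)).div_const 2
  have hh : HasDerivAt (fun y => h ((g x + g y) / 2)) _ y := (d0 _).hasDerivAt.comp y hψ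
  have hh1 : HasDerivAt (fun y => deriv h ((g x + g y) / 2)) _ y := (d1 _).hasDerivAt.comp y hψ
  have hs : HasDerivAt (fun y => Complex.sin ((g y - g x) / 2)) _ y :=
    (Complex.hasDerivAt_sin _).comp y hδ
  have hc : HasDerivAt (fun y => Complex.cos ((g y - g x) / 2)) _ y :=
    (Complex.hasDerivAt_cos _).comp y hδ
  have := ((hh1.mul hs).sub (hh.mul hc)).const_mul (deriv g x)
  unfold PP Sx
  refine this.congr_deriv ?_
  unfold BB
  ring

theorem hasDerivAt_RR {K γ N Nb J ω : ℝ} {h g : ℂ → ℂ} (c : Ctx K γ N Nb J ω h g) {x y : ℂ}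
    (hx : x ∈ Strip (4 * cr K / N)) (hy : y ∈ Strip (4 * cr K / N)) :
    HasDerivAt (fun x => RR h g x y) (BB h g x y) x := by
  have d0 : Differentiable ℂ h := c.tb.hol
  have d1 := kc2_dd d0
  have gx := kc2_g c hx
  have hψ : HasDerivAt (fun x => (g x + g y) / 2) (deriv g x / 2) x :=
    (gx.add_const (g y)).div_const 2
  have hδ : HasDerivAt (fun x => (g y - g x) / 2) (-(deriv g x) / 2) x :=
    (gx.const_sub (g y)).div_const 2
  have hh : HasDerivAt (fun x => h ((g x + g y) / 2)) _ x := (d0 _).hasDerivAt.comp x hψ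
  have hh1 : HasDerivAt (fun x => deriv h ((g x + g y) / 2)) _ x := (d1 _).hasDerivAt.comp x hψ
  have hs : HasDerivAt (fun x => Complex.sin ((g y - g x) / 2)) _ x :=
    (Complex.hasDerivAt_sin _).comp x hδ
  have hc : HasDerivAt (fun x => Complex.cos ((g y - g x) / 2)) _ x :=
    (Complex.hasDerivAt_cos _).comp x hδ
  have := ((hh1.mul hs).add (hh.mul hc)).const_mul (deriv g y)
  unfold RR Sy
  refine this.congr_deriv ?_
  unfold BB
  ring

/-- second order Taylor remainder of `PP` in the second argument -/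
theorem PP_taylor (K : ℝ) : ∃ C : ℝ, 1 ≤ C ∧ ∀ {γ N Nb J ω : ℝ} {h g : ℂ → ℂ},
    Ctx K γ N Nb J ω h g → ∀ x s : ℂ, x ∈ Strip (4 * cr K / N) → x + ω + s ∈ Strip (4 * cr K / N) →
      ‖s‖ ≤ ω / 100 →
      ‖PP h g x (x + ω + s) - PP h g x (x + ω) - BB h g x (x + ω) * s‖ ≤
        C * (1 + N / Nb * J) * ‖s‖ ^ 2 := by
  obtain ⟨C, hC, hlip⟩ := BB_lip K
  refine ⟨C, hC, ?_⟩
  intro γ N Nb J ω h g c x s hx hxs hs
  obtain ⟨hK, hN, hNb, hω, h7, hω1, hNb1⟩ := kc2_pos c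
  have hJ := c.J0
  have hxω : x + ω ∈ Strip (4 * cr K / N) := by
    have : |x.im| < 4 * cr K / N := hx
    show |(x + ω).im| < _
    simpa using this
  have hseg : ∀ t ∈ segment ℝ (0 : ℂ) 1, ∃ θ : ℝ, 0 ≤ θ ∧ θ ≤ 1 ∧ t = (θ : ℂ) := by
    rintro t ⟨a, b, ha, hb, hab, rfl⟩
    refine ⟨b, hb, by linarith, by simp⟩
  have hin : ∀ θ : ℝ, 0 ≤ θ → θ ≤ 1 → x + ω + (θ : ℂ) * s ∈ Strip (4 * cr K / N) := by
    intro θ h0 h1
    have := kc2_convex (4 * cr K / N) hxω hxs (sub_nonneg.2 h1) h0 (by ring)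
    convert this using 1
    simp only [Complex.real_smul]
    push_cast
    ring
  have hd : ∀ t ∈ segment ℝ (0 : ℂ) 1,
      HasDerivWithinAt (fun t : ℂ => PP h g x (x + ω + t * s) - t * (BB h g x (x + ω) * s))
        (BB h g x (x + ω + t * s) * s - BB h g x (x + ω) * s) (segment ℝ (0 : ℂ) 1) t := by
    intro t ht
    obtain ⟨θ, h0, h1, rfl⟩ := hseg t ht
    apply HasDerivAt.hasDerivWithinAt
    have e1 : HasDerivAt (fun t : ℂ => x + ω + t * s) s (θ : ℂ) := by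
      simpa using ((hasDerivAt_id (θ : ℂ)).mul_const s).const_add (x + ω)
    have e2 : HasDerivAt (fun t : ℂ => PP h g x (x + ω + t * s)) _ (θ : ℂ) :=
      HasDerivAt.comp (h₂ := fun y => PP h g x y) (θ : ℂ)
        (hasDerivAt_PP c hx (hin θ h0 h1)) e1
    have e3 : HasDerivAt (fun t : ℂ => t * (BB h g x (x + ω) * s)) (BB h g x (x + ω) * s)
        (θ : ℂ) := by
      simpa using (hasDerivAt_id (θ : ℂ)).mul_const (BB h g x (x + ω) * s)
    exact e2.sub e3
  have hbd : ∀ t ∈ segment ℝ (0 : ℂ) 1,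
      ‖BB h g x (x + ω + t * s) * s - BB h g x (x + ω) * s‖ ≤ C * (1 + N / Nb * J) * ‖s‖ ^ 2 := by
    intro t ht
    obtain ⟨θ, h0, h1, rfl⟩ := hseg t ht
    rw [← sub_mul, norm_mul]
    have hθs : ‖(θ : ℂ) * s‖ ≤ ‖s‖ := by
      rw [norm_mul, Complex.norm_real, Real.norm_eq_abs, abs_of_nonneg h0]
      exact mul_le_of_le_one_left (norm_nonneg _) h1
    have h2 := hlip c x (x + ω + (θ : ℂ) * s) x (x + ω) hx (hin θ h0 h1) hx hxω
      (by rw [show x + ω + (θ : ℂ) * s - x - ω = (θ : ℂ) * s by ring]; exact hθs.trans hs)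
      (by rw [show x + (ω : ℂ) - x - ω = 0 by ring, norm_zero]; positivity)
    rw [sub_self, norm_zero, zero_add, show x + ω + (θ : ℂ) * s - (x + ω) = (θ : ℂ) * s by ring]
      at h2
    have h3 : 0 ≤ C * (1 + N / Nb * J) := by positivity
    calc _ ≤ (C * (1 + N / Nb * J) * ‖(θ : ℂ) * s‖) * ‖s‖ :=
          mul_le_mul_of_nonneg_right h2 (norm_nonneg _)
      _ ≤ (C * (1 + N / Nb * J) * ‖s‖) * ‖s‖ := by gcongr
      _ = _ := by ring
  have := (convex_segment (𝕜 := ℝ) (0 : ℂ) 1).norm_image_sub_le_of_norm_hasDerivWithin_le hd hbd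
    (left_mem_segment ℝ 0 1) (right_mem_segment ℝ 0 1)
  simp only [zero_mul, add_zero, one_mul, sub_zero, norm_one, mul_one] at this
  refine le_trans (le_of_eq ?_) this
  congr 1
  ring

/-- the two second order remainders combine to a derivative along the diagonal -/
theorem diag_taylor (K : ℝ) : ∃ C : ℝ, 1 ≤ C ∧ ∀ {γ N Nb J ω : ℝ} {h g : ℂ → ℂ},
    Ctx K γ N Nb J ω h g → ∀ x s : ℂ, x ∈ Strip (3 * cr K / N) → x + ω + s ∈ Strip (3 * cr K / N) →
      ‖s‖ ≤ ω / 100 → ‖s‖ ≤ cr K / (4 * N) →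
      ‖(PP h g x (x + ω + s) - PP h g x (x + ω) - BB h g x (x + ω) * s) +
        (RR h g x (x + ω + s) - RR h g (x + s) (x + ω + s) +
          BB h g (x + s) (x + ω + s) * s)‖ ≤
        C / Nb * (1 + N * J) * ‖s‖ ^ 2 + C * N * (1 + N / Nb) * ‖s‖ ^ 3 := by
  set C : ℝ := 224 * |K| ^ 5 + 320 * |K| ^ 5 / cr |K| + 1 with hCdef
  have hcr0 : 0 ≤ cr |K| := by unfold cr; positivity
  have hC1 : 1 ≤ C := by
    have : 0 ≤ 224 * |K| ^ 5 + 320 * |K| ^ 5 / cr |K| := by positivity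
    linarith
  refine ⟨C, hC1, ?_⟩
  intro γ N Nb J ω h g c x s hx hy hs hs2
  obtain ⟨hK, hN, hNb, hω, h7, hω1, hNb1⟩ := kc2_pos c
  have hJ := c.J0
  have hJ1 := c.J1
  have hcr : 0 < cr K := by unfold cr; positivity
  rw [abs_of_pos hK] at hCdef
  set y : ℂ := x + ω + s with hydef
  -- strips
  have hstr : ∀ w : ℂ, w ∈ Strip (3 * cr K / N) → ∀ t : ℂ, ‖t‖ ≤ ‖s‖ →
      w + t ∈ Strip (13 * cr K / (4 * N)) := by
    intro w hw t ht
    have h1 : |w.im| < 3 * cr K / N := hw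
    have h2 : |t.im| ≤ cr K / (4 * N) := (Complex.abs_im_le_norm t).trans (ht.trans hs2)
    show |(w + t).im| < 13 * cr K / (4 * N)
    rw [Complex.add_im]
    have h3 : 3 * cr K / N + cr K / (4 * N) = 13 * cr K / (4 * N) := by field_simp; ring
    linarith [abs_add_le w.im t.im]
  have hbig : ∀ w : ℂ, w ∈ Strip (13 * cr K / (4 * N)) → w ∈ Strip (4 * cr K / N) := by
    intro w hw
    have h1 : |w.im| < 13 * cr K / (4 * N) := hw
    show |w.im| < 4 * cr K / N
    refine h1.trans_le ?_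
    rw [div_le_div_iff₀ (by positivity) hN]
    nlinarith [mul_pos hcr hN]
  have hseg : ∀ t ∈ segment ℝ (0 : ℂ) 1, ∃ θ : ℝ, 0 ≤ θ ∧ θ ≤ 1 ∧ t = (θ : ℂ) := by
    rintro t ⟨a, b, ha, hb, hab, rfl⟩
    refine ⟨b, hb, by linarith, by simp⟩
  have hθs : ∀ θ : ℝ, 0 ≤ θ → θ ≤ 1 → ‖(θ : ℂ) * s‖ ≤ ‖s‖ := by
    intro θ h0 h1
    rw [norm_mul, Complex.norm_real, Real.norm_eq_abs, abs_of_nonneg h0]
    exact mul_le_of_le_one_left (norm_nonneg _) h1
  have hθs' : ∀ θ : ℝ, 0 ≤ θ → θ ≤ 1 → ‖(1 - (θ : ℂ)) * s‖ ≤ ‖s‖ := by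
    intro θ h0 h1
    have := hθs (1 - θ) (by linarith) (by linarith)
    push_cast at this
    exact this
  -- the points `(x, y - s + θ s)` and `(x + (1 - θ) s, y)`
  have hyθ : ∀ θ : ℝ, 0 ≤ θ → θ ≤ 1 → x + ω + (θ : ℂ) * s ∈ Strip (13 * cr K / (4 * N)) := by
    intro θ h0 h1
    have hxω : x + ω ∈ Strip (3 * cr K / N) := by
      have : |x.im| < 3 * cr K / N := hx
      show |(x + ω).im| < _
      simpa using this
    exact hstr _ hxω _ (hθs θ h0 h1)
  have hxθ : ∀ θ : ℝ, 0 ≤ θ → θ ≤ 1 → x + (1 - (θ : ℂ)) * s ∈ Strip (13 * cr K / (4 * N)) :=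
    fun θ h0 h1 => hstr _ hx _ (hθs' θ h0 h1)
  have hx13 : x ∈ Strip (13 * cr K / (4 * N)) := by
    simpa using hstr x hx 0 (by simp)
  have hy13 : y ∈ Strip (13 * cr K / (4 * N)) := by
    simpa using hstr y hy 0 (by simp)
  -- bound of the derivative of the integrand
  set D : ℝ := 224 * K ^ 5 / Nb * (1 + N * J) +
    (320 * K ^ 5 / cr K) * (N * (1 + N / Nb * J)) * ‖s‖ with hD
  have hD0 : 0 ≤ D := by positivity
  have hXY : ∀ θ : ℝ, 0 ≤ θ → θ ≤ 1 →
      ‖s * kc2Y h g x (x + ω + (θ : ℂ) * s) +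
        s * kc2X h g (x + (1 - (θ : ℂ)) * s) y‖ ≤ ‖s‖ * D := by
    intro θ h0 h1
    have e1 : s * kc2Y h g x (x + ω + (θ : ℂ) * s) + s * kc2X h g (x + (1 - (θ : ℂ)) * s) y =
        s * ((kc2X h g x (x + ω + (θ : ℂ) * s) + kc2Y h g x (x + ω + (θ : ℂ) * s)) +
          (kc2X h g (x + (1 - (θ : ℂ)) * s) (x + ω + (θ : ℂ) * s + (1 - (θ : ℂ)) * s) -
            kc2X h g x (x + ω + (θ : ℂ) * s))) := by
      rw [show x + ω + (θ : ℂ) * s + (1 - (θ : ℂ)) * s = y by rw [hydef]; ring]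
      ring
    have hc : ‖x + ω + (θ : ℂ) * s - x - ω‖ ≤ ω / 100 := by
      rw [show x + ω + (θ : ℂ) * s - x - ω = (θ : ℂ) * s by ring]
      exact (hθs θ h0 h1).trans hs
    rw [e1, norm_mul]
    refine mul_le_mul_of_nonneg_left ?_ (norm_nonneg _)
    refine (norm_add_le _ _).trans (add_le_add ?_ ?_)
    · exact kc2_sum_bd c (hbig _ hx13) (hbig _ (hyθ θ h0 h1)) hc
    · refine (kc2_X_lip c hx13 (hyθ θ h0 h1) hc ((hθs' θ h0 h1).trans hs2)).trans ?_
      exact mul_le_mul_of_nonneg_left (hθs' θ h0 h1) (by positivity)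
  -- first integration
  have hint : ∀ θ : ℝ, 0 ≤ θ → θ ≤ 1 →
      ‖(BB h g x (x + ω + (θ : ℂ) * s) - BB h g (x + (1 - (θ : ℂ)) * s) y) -
        (BB h g x (x + ω) - BB h g (x + s) y)‖ ≤ ‖s‖ * D := by
    intro θ h0 h1
    have hd : ∀ t ∈ segment ℝ (0 : ℂ) 1,
        HasDerivWithinAt (fun t : ℂ => BB h g x (x + ω + t * s) - BB h g (x + (1 - t) * s) y)
          (s * kc2Y h g x (x + ω + t * s) + s * kc2X h g (x + (1 - t) * s) y)
          (segment ℝ (0 : ℂ) 1) t := by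
      intro t ht
      obtain ⟨τ, t0, t1, rfl⟩ := hseg t ht
      apply HasDerivAt.hasDerivWithinAt
      have e1 : HasDerivAt (fun t : ℂ => x + ω + t * s) s (τ : ℂ) := by
        simpa using ((hasDerivAt_id (τ : ℂ)).mul_const s).const_add (x + ω)
      have e2 : HasDerivAt (fun t : ℂ => x + (1 - t) * s) (-s) (τ : ℂ) := by
        simpa using (((hasDerivAt_id (τ : ℂ)).const_sub 1).mul_const s).const_add x
      have e3 := kc2_BB c (hasDerivAt_const (τ : ℂ) x) e1 (hbig _ hx13) (hbig _ (hyθ τ t0 t1))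
      have e4 := kc2_BB c e2 (hasDerivAt_const (τ : ℂ) y) (hbig _ (hxθ τ t0 t1)) (hbig _ hy13)
      refine (e3.sub e4).congr_deriv ?_
      ring
    have hbd : ∀ t ∈ segment ℝ (0 : ℂ) 1,
        ‖s * kc2Y h g x (x + ω + t * s) + s * kc2X h g (x + (1 - t) * s) y‖ ≤ ‖s‖ * D := by
      intro t ht
      obtain ⟨τ, t0, t1, rfl⟩ := hseg t ht
      exact hXY τ t0 t1
    have hθmem : (θ : ℂ) ∈ segment ℝ (0 : ℂ) 1 :=
      ⟨1 - θ, θ, by linarith, h0, by ring, by simp⟩
    have := (convex_segment (𝕜 := ℝ) (0 : ℂ) 1).norm_image_sub_le_of_norm_hasDerivWithin_le hd hbd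
      (left_mem_segment ℝ 0 1) hθmem
    simp only [zero_mul, add_zero, one_mul, sub_zero] at this
    refine this.trans ?_
    rw [Complex.norm_real, Real.norm_eq_abs, abs_of_nonneg h0]
    exact mul_le_of_le_one_right (by positivity) h1
  -- second integration
  have hd : ∀ t ∈ segment ℝ (0 : ℂ) 1,
      HasDerivWithinAt (fun t : ℂ => PP h g x (x + ω + t * s) + RR h g (x + (1 - t) * s) y -
          t * (s * (BB h g x (x + ω) - BB h g (x + s) y)))
        (s * ((BB h g x (x + ω + t * s) - BB h g (x + (1 - t) * s) y) -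
          (BB h g x (x + ω) - BB h g (x + s) y))) (segment ℝ (0 : ℂ) 1) t := by
    intro t ht
    obtain ⟨τ, t0, t1, rfl⟩ := hseg t ht
    apply HasDerivAt.hasDerivWithinAt
    have e1 : HasDerivAt (fun t : ℂ => x + ω + t * s) s (τ : ℂ) := by
      simpa using ((hasDerivAt_id (τ : ℂ)).mul_const s).const_add (x + ω)
    have e2 : HasDerivAt (fun t : ℂ => x + (1 - t) * s) (-s) (τ : ℂ) := by
      simpa using (((hasDerivAt_id (τ : ℂ)).const_sub 1).mul_const s).const_add x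
    have e3 : HasDerivAt (fun t : ℂ => PP h g x (x + ω + t * s)) _ (τ : ℂ) :=
      HasDerivAt.comp (h₂ := fun y => PP h g x y) (τ : ℂ)
        (hasDerivAt_PP c (hbig _ hx13) (hbig _ (hyθ τ t0 t1))) e1
    have e4 : HasDerivAt (fun t : ℂ => RR h g (x + (1 - t) * s) y) _ (τ : ℂ) :=
      HasDerivAt.comp (h₂ := fun x => RR h g x y) (τ : ℂ)
        (hasDerivAt_RR c (hbig _ (hxθ τ t0 t1)) (hbig _ hy13)) e2
    have e5 : HasDerivAt (fun t : ℂ => t * (s * (BB h g x (x + ω) - BB h g (x + s) y)))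
        (s * (BB h g x (x + ω) - BB h g (x + s) y)) (τ : ℂ) := by
      simpa using (hasDerivAt_id (τ : ℂ)).mul_const (s * (BB h g x (x + ω) - BB h g (x + s) y))
    refine ((e3.add e4).sub e5).congr_deriv ?_
    ring
  have hbd : ∀ t ∈ segment ℝ (0 : ℂ) 1,
      ‖s * ((BB h g x (x + ω + t * s) - BB h g (x + (1 - t) * s) y) -
          (BB h g x (x + ω) - BB h g (x + s) y))‖ ≤ ‖s‖ * (‖s‖ * D) := by
    intro t ht
    obtain ⟨τ, t0, t1, rfl⟩ := hseg t ht
    rw [norm_mul]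
    exact mul_le_mul_of_nonneg_left (hint τ t0 t1) (norm_nonneg _)
  have := (convex_segment (𝕜 := ℝ) (0 : ℂ) 1).norm_image_sub_le_of_norm_hasDerivWithin_le hd hbd
    (left_mem_segment ℝ 0 1) (right_mem_segment ℝ 0 1)
  simp only [zero_mul, add_zero, one_mul, sub_zero, norm_one, mul_one, sub_self] at this
  refine le_trans (le_of_eq ?_) (this.trans ?_)
  · rw [← hydef]
    congr 1
    ring
  · rw [hD]
    have hN1 := c.N1
    have f1 : 224 * K ^ 5 ≤ C := by
      have : 0 ≤ 320 * K ^ 5 / cr K := by positivity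
      linarith
    have f2 : 320 * K ^ 5 / cr K ≤ C := by
      have : 0 ≤ 224 * K ^ 5 := by positivity
      linarith
    have f3 : N * (1 + N / Nb * J) ≤ N * (1 + N / Nb) := by
      have : N / Nb * J ≤ N / Nb := mul_le_of_le_one_right (by positivity) hJ1
      exact mul_le_mul_of_nonneg_left (by linarith) hN.le
    have f4 : ‖s‖ * (‖s‖ * (224 * K ^ 5 / Nb * (1 + N * J) +
        (320 * K ^ 5 / cr K) * (N * (1 + N / Nb * J)) * ‖s‖)) =
        224 * K ^ 5 / Nb * (1 + N * J) * ‖s‖ ^ 2 +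
        (320 * K ^ 5 / cr K) * (N * (1 + N / Nb * J)) * ‖s‖ ^ 3 := by ring
    rw [f4]
    refine add_le_add ?_ ?_
    · gcongr
    · calc (320 * K ^ 5 / cr K) * (N * (1 + N / Nb * J)) * ‖s‖ ^ 3
          ≤ C * (N * (1 + N / Nb)) * ‖s‖ ^ 3 := by gcongr
        _ = C * N * (1 + N / Nb) * ‖s‖ ^ 3 := by ring

end Pool.Agent.MP_b87ea9_an.Kam
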