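import Mathlib
import Pool.Agent.Lib.MP_b87ea9_an.KDefs
import Pool.Agent.Lib.MP_b87ea9_an.KDefs2
import Pool.Agent.Lib.MP_b87ea9_an.KDefs3
import Pool.Agent.Lib.MP_b87ea9_an.KC1
import Pool.Agent.Lib.MP_b87ea9_an.KA3

set_option autoImplicit false

/-! The Newton correction -/

namespace Pool.Agent.MP_b87ea9_an.Kam

open Real MeasureTheory

variable {K γ N Nb J ω : ℝ} {h g : ℂ → ℂ} {ω' σ υ V₀ V₁ : ℝ}

private theorem kc3_cr (hK : 1 ≤ K) : 0 < cr K := by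
  have : 0 < K := by linarith
  unfold cr
  positivity

private theorem kc3_r (c : Ctx K γ N Nb J ω h g) : 0 < 4 * cr K / N := by
  have h1 := kc3_cr c.K1
  have h2 := c.N1
  have : 0 < N := by linarith
  positivity

private theorem kc3_Nb (c : Ctx K γ N Nb J ω h g) : 1 ≤ Nb := by
  have h1 := c.Nb1
  have h2 : (1 : ℝ) ≤ K ^ 4 := one_le_pow₀ c.K1
  nlinarith

private theorem kc3_add {r : ℝ} {z : ℂ} (hz : z ∈ Strip r) (a : ℝ) : z + a ∈ Strip r := by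
  simpa [Strip] using hz

private theorem kc3_sub {r : ℝ} {z : ℂ} (hz : z ∈ Strip r) (a : ℝ) : z - a ∈ Strip r := by
  simpa [Strip] using hz

private theorem kc3_re {r : ℝ} {f : ℂ → ℂ} (hf : HP r f) : fc f 0 = ((fc f 0).re : ℂ) := by
  have h1 := fc_neg hf 0
  simp only [neg_zero] at h1
  exact (Complex.conj_eq_iff_re.mp h1.symm).symm

theorem uu_eq (p : Pre K γ N Nb J ω h g ω' σ υ V₀ V₁) :
    HP (4 * cr K / N) (uu h g ω ω') ∧
      ∀ z ∈ Strip (4 * cr K / N), FF h g ω z = uu h g ω ω' z - uu h g ω ω' (z - ω') := by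
  have hr := kc3_r p.ctx
  have hF := hp_FF p.ctx
  have hS : HP (4 * cr K / N) (fun z => FF h g ω (z + ω')) := hp_shift hF ω'
  refine ⟨invD_hp hS hr p.ctx.γ0 (kc3_Nb p.ctx) p.rot, fun z hz => ?_⟩
  have h1 := invD_eq hS hr p.ctx.γ0 (kc3_Nb p.ctx) p.rot (kc3_sub hz ω')
  have h2 := fc_translate hF hr ω' 0
  rw [fc_FF p.ctx, zero_mul] at h2
  rw [h2, sub_zero, sub_add_cancel] at h1
  exact h1.symm

theorem vv_eq (p : Pre K γ N Nb J ω h g ω' σ υ V₀ V₁) :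
    HP (4 * cr K / N) (vv h g ω ω') ∧
      ∀ z ∈ Strip (4 * cr K / N), vv h g ω ω' (z + ω') - vv h g ω ω' z = qq h g ω z := by
  have hr := kc3_r p.ctx
  obtain ⟨C, hC, hq⟩ := qq_bounds K
  obtain ⟨hq1, hq2, -, -⟩ := hq p.ctx
  refine ⟨invD_hp hq1 hr p.ctx.γ0 (kc3_Nb p.ctx) p.rot, fun z hz => ?_⟩
  have h1 := invD_eq hq1 hr p.ctx.γ0 (kc3_Nb p.ctx) p.rot hz
  rw [hq2, sub_zero] at h1
  exact h1

private theorem kc3_ne (c : Ctx K γ N Nb J ω h g) :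
    (∀ z ∈ Strip (4 * cr K / N), aa h g ω z ≠ 0) ∧ fc (fun z => 1 / aa h g ω z) 0 ≠ 0 := by
  obtain ⟨C, hC, ha⟩ := aa_bounds K
  obtain ⟨-, h2, -, h4, -, -⟩ := ha c
  have hNb : 0 < Nb := by linarith [kc3_Nb c]
  refine ⟨fun z hz h0 => ?_, fun h0 => ?_⟩
  · have := h2 z hz
    rw [h0, norm_zero] at this
    have h3 : 0 < 1 / (C * Nb) := by positivity
    linarith
  · rw [h0, norm_zero] at h4
    have h3 : 0 < Nb / C := by positivity
    linarith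

private theorem kc3_inv (c : Ctx K γ N Nb J ω h g) :
    HP (4 * cr K / N) (fun z => 1 / aa h g ω z) := hp_inv (hp_aa c) (kc3_ne c).1

private theorem kc3_ua (p : Pre K γ N Nb J ω h g ω' σ υ V₀ V₁) :
    HP (4 * cr K / N) (fun z => uu h g ω ω' z / aa h g ω z) := by
  have := hp_mul (uu_eq p).1 (kc3_inv p.ctx)
  simpa only [mul_one_div] using this

private theorem kc3_c1 (p : Pre K γ N Nb J ω h g ω' σ υ V₀ V₁) :
    ∃ c : ℝ, c1 h g ω ω' = (c : ℂ) := by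
  refine ⟨(fc (fun z => uu h g ω ω' z / aa h g ω z) 0).re /
    (fc (fun z => 1 / aa h g ω z) 0).re, ?_⟩
  unfold c1
  rw [Complex.ofReal_div, ← kc3_re (kc3_ua p), ← kc3_re (kc3_inv p.ctx)]

/-- the function inverted in the Newton part -/
private noncomputable def kc3_f (h g : ℂ → ℂ) (ω ω' : ℝ) (z : ℂ) : ℂ :=
  (c1 h g ω ω' - uu h g ω ω' z) / aa h g ω z

private theorem kc3_f_hp (p : Pre K γ N Nb J ω h g ω' σ υ V₀ V₁) :
    HP (4 * cr K / N) (kc3_f h g ω ω') := by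
  obtain ⟨c, hc⟩ := kc3_c1 p
  have := hp_mul (hp_sub (hp_const _ c) (uu_eq p).1) (kc3_inv p.ctx)
  simp only [mul_one_div, ← hc] at this
  exact this

private theorem kc3_f_fc (p : Pre K γ N Nb J ω h g ω' σ υ V₀ V₁) :
    fc (kc3_f h g ω ω') 0 = 0 := by
  obtain ⟨c, hc⟩ := kc3_c1 p
  have hr := kc3_r p.ctx
  have h1 : kc3_f h g ω ω' = fun z => (c1 h g ω ω' * (1 / aa h g ω z)) +
      ((-1 : ℂ) * (uu h g ω ω' z / aa h g ω z)) := by
    funext z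
    unfold kc3_f
    ring
  have h2 : HP (4 * cr K / N) (fun z => c1 h g ω ω' * (1 / aa h g ω z)) := by
    rw [hc]
    exact hp_mul (hp_const _ c) (kc3_inv p.ctx)
  have h3 : HP (4 * cr K / N) (fun z => (-1 : ℂ) * (uu h g ω ω' z / aa h g ω z)) := by
    have := hp_mul (hp_const (4 * cr K / N) (-1)) (kc3_ua p)
    simpa using this
  rw [h1, fc_add h2 h3 hr, fc_smul, fc_smul]
  have hm := (kc3_ne p.ctx).2
  unfold c1
  rw [div_mul_cancel₀ _ hm]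
  ring

private theorem kc3_wN_hp (p : Pre K γ N Nb J ω h g ω' σ υ V₀ V₁) :
    HP (4 * cr K / N) (wN h g ω ω') :=
  invD_hp (kc3_f_hp p) (kc3_r p.ctx) p.ctx.γ0 (kc3_Nb p.ctx) p.rot

theorem ww_hp (p : Pre K γ N Nb J ω h g ω' σ υ V₀ V₁) :
    HP (4 * cr K / N) (ww h g ω ω') ∧ HP (4 * cr K / N) (ss h g ω ω') := by
  have h1 : HP (4 * cr K / N) (ww h g ω ω') :=
    hp_add (kc3_wN_hp p) (hp_mul (hp_const _ (ω' - ω)) (vv_eq p).1)
  exact ⟨h1, hp_sub (hp_add (hp_const _ (ω' - ω)) (hp_shift h1 ω')) h1⟩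

/-- formula for `ss` -/
private theorem kc3_ss (p : Pre K γ N Nb J ω h g ω' σ υ V₀ V₁) {z : ℂ}
    (hz : z ∈ Strip (4 * cr K / N)) :
    ss h g ω ω' z = ((ω' - ω : ℝ) : ℂ) * (1 + qq h g ω z) + kc3_f h g ω ω' z := by
  have h1 := (vv_eq p).2 z hz
  have h2 := invD_eq (kc3_f_hp p) (kc3_r p.ctx) p.ctx.γ0 (kc3_Nb p.ctx) p.rot hz
  rw [kc3_f_fc p, sub_zero] at h2
  have h3 : wN h g ω ω' (z + ω') - wN h g ω ω' z = kc3_f h g ω ω' z := h2
  unfold ss ww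
  linear_combination h3 + ((ω' - ω : ℝ) : ℂ) * h1

private theorem kc3_as (p : Pre K γ N Nb J ω h g ω' σ υ V₀ V₁) {z : ℂ}
    (hz : z ∈ Strip (4 * cr K / N)) :
    aa h g ω z * ss h g ω ω' z = ((ω' - ω : ℝ) : ℂ) / fc (fun z => 1 / aa h g ω z) 0 +
      c1 h g ω ω' - uu h g ω ω' z := by
  rw [kc3_ss p hz]
  have h0 := (kc3_ne p.ctx).1 z hz
  have hm := (kc3_ne p.ctx).2
  unfold qq kc3_f
  field_simp
  ring

/-- the linearised equation -/
theorem ss_eq (p : Pre K γ N Nb J ω h g ω' σ υ V₀ V₁) : ∀ z ∈ Strip (4 * cr K / N),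
    aa h g ω z * ss h g ω ω' z - aa h g ω (z - ω') * ss h g ω ω' (z - ω') = -FF h g ω z := by
  intro z hz
  rw [kc3_as p hz, kc3_as p (kc3_sub hz ω'), (uu_eq p).2 z hz]
  ring


private theorem kc3_da {r : ℝ} {f : ℂ → ℂ} (hf : HP r f) {z : ℂ} (hz : z ∈ Strip r) :
    DifferentiableAt ℂ f z :=
  (hf.hol z hz).differentiableAt ((isOpen_strip r).mem_nhds hz)

private theorem kc3_mono {r r' : ℝ} (h : r' ≤ r) {z : ℂ} (hz : z ∈ Strip r') : z ∈ Strip r :=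
  lt_of_lt_of_le hz h

private theorem kc3_bdmono {r r' M M' : ℝ} {f : ℂ → ℂ} (h : Bd r f M) (hr : r' ≤ r) (hM : M ≤ M') :
    Bd r' f M' := fun z hz => (h z (kc3_mono hr hz)).trans hM

private theorem kc3_Λ (c : Ctx K γ N Nb J ω h g) :
    0 < N ∧ 0 < Nb ∧ 0 < max N Nb ∧ N ≤ max N Nb ∧ Nb ≤ max N Nb := by
  have h1 : 0 < N := by linarith [c.N1]
  have h2 : 0 < Nb := by linarith [kc3_Nb c]
  exact ⟨h1, h2, lt_max_of_lt_left h1, le_max_left _ _, le_max_right _ _⟩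

private theorem kc3_lin {a b D x y : ℝ} (ha : a ≤ D) (hb : b ≤ D) (hx : 0 ≤ x) (hy : 0 ≤ y) :
    a * x + b * y ≤ D * (x + y) := by
  rw [mul_add]
  exact add_le_add (mul_le_mul_of_nonneg_right ha hx) (mul_le_mul_of_nonneg_right hb hy)

private theorem kc3_C {D1 D2 q : ℝ} (h1 : 0 ≤ D1) (h2 : 0 ≤ D2) (hq : 0 ≤ q) :
    D1 ≤ (D1 + D2) * (1 + q) ∧ D2 ≤ (D1 + D2) * (1 + q) ∧ D1 * q ≤ (D1 + D2) * (1 + q) ∧
      D2 * q ≤ (D1 + D2) * (1 + q) := by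
  have h3 : 0 ≤ D1 * q := mul_nonneg h1 hq
  have h4 : 0 ≤ D2 * q := mul_nonneg h2 hq
  have h5 : (D1 + D2) * (1 + q) = D1 + D2 + D1 * q + D2 * q := by ring
  rw [h5]
  refine ⟨?_, ?_, ?_, ?_⟩ <;> linarith

/-- bound of `c1` and of the inverted function -/
private theorem kc3_fb {Ca : ℝ} (hCa : 1 ≤ Ca) (p : Pre K γ N Nb J ω h g ω' σ υ V₀ V₁)
    (h2 : ∀ z ∈ Strip (4 * cr K / N), 1 / (Ca * Nb) ≤ ‖aa h g ω z‖)
    (h4 : Nb / Ca ≤ ‖fc (fun z => 1 / aa h g ω z) 0‖) :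
    Bd (2 * cr K / N) (kc3_f h g ω ω') (Ca * (Ca ^ 2 + 1) * (υ / (N * max N Nb))) := by
  obtain ⟨hN, hNb, hΛ, -, -⟩ := kc3_Λ p.ctx
  have hcr := kc3_cr p.ctx.K1
  have hr := kc3_r p.ctx
  have hr2 : 2 * cr K / N ≤ 4 * cr K / N := by gcongr; norm_num
  have hυ := p.υ0
  have hCa0 : 0 < Ca := by linarith
  set Λ := max N Nb with hΛd
  have hinv : ∀ z ∈ Strip (4 * cr K / N), ‖aa h g ω z‖⁻¹ ≤ Ca * Nb := by
    intro z hz
    have h5 := h2 z hz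
    have h6 : 0 < 1 / (Ca * Nb) := by positivity
    calc ‖aa h g ω z‖⁻¹ ≤ (1 / (Ca * Nb))⁻¹ := inv_anti₀ h6 h5
      _ = Ca * Nb := by rw [one_div, inv_inv]
  have hu : ∀ z ∈ Strip (2 * cr K / N), ‖uu h g ω ω' z‖ ≤ υ / (Nb * N * Λ) := p.bu
  have hc : ‖c1 h g ω ω'‖ ≤ Ca ^ 2 * (υ / (Nb * N * Λ)) := by
    have h7 : ‖fc (fun z => uu h g ω ω' z / aa h g ω z) 0‖ ≤ υ / (Nb * N * Λ) * (Ca * Nb) := by
      refine norm_fc_zero_le (kc3_ua p) hr fun t => ?_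
      have ht : (t : ℂ) ∈ Strip (2 * cr K / N) := by
        simp only [Strip, Set.mem_ofPred_eq, Complex.ofReal_im, abs_zero]
        positivity
      rw [norm_div, div_eq_mul_inv]
      exact mul_le_mul (hu _ ht) (hinv _ (kc3_mono hr2 ht)) (by positivity) (by positivity)
    unfold c1
    rw [norm_div]
    have h8 : 0 < Nb / Ca := by positivity
    calc ‖fc (fun z => uu h g ω ω' z / aa h g ω z) 0‖ / ‖fc (fun z => 1 / aa h g ω z) 0‖
        ≤ (υ / (Nb * N * Λ) * (Ca * Nb)) / (Nb / Ca) :=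
          div_le_div₀ (by positivity) h7 h8 h4
      _ = Ca ^ 2 * (υ / (Nb * N * Λ)) := by
          field_simp
  intro z hz
  unfold kc3_f
  rw [norm_div, div_eq_mul_inv]
  calc ‖c1 h g ω ω' - uu h g ω ω' z‖ * ‖aa h g ω z‖⁻¹
      ≤ (Ca ^ 2 * (υ / (Nb * N * Λ)) + υ / (Nb * N * Λ)) * (Ca * Nb) :=
        mul_le_mul ((norm_sub_le _ _).trans (add_le_add hc (hu z hz)))
          (hinv z (kc3_mono hr2 hz)) (by positivity) (by positivity)
    _ = Ca * (Ca ^ 2 + 1) * (υ / (N * Λ)) := by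
        field_simp

/-- bound of the Newton part -/
private theorem kc3_wb {Ci Cf : ℝ} (hCi : 1 ≤ Ci) (hCf : 1 ≤ Cf)
    (p : Pre K γ N Nb J ω h g ω' σ υ V₀ V₁)
    (hinvD : ∀ (r δ M γ Nb ω : ℝ) (f : ℂ → ℂ), 0 < δ → δ < r → 0 < γ →
      γ ≤ 1 → 1 ≤ Nb → 0 ≤ M → Rot γ Nb ω → HP r f → HN r f M →
      Bd (r - δ) (invD ω f) (Ci / γ * (1 / δ + Nb) * M))
    (hf : Bd (2 * cr K / N) (kc3_f h g ω ω') (Cf * (υ / (N * max N Nb)))) :
    Bd (7 / 4 * cr K / N) (wN h g ω ω') (Ci / γ * (4 / cr K + 1) * Cf * (υ / N)) := by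
  obtain ⟨hN, hNb, hΛ, hΛ1, hΛ2⟩ := kc3_Λ p.ctx
  have hcr := kc3_cr p.ctx.K1
  have hr2 : 2 * cr K / N ≤ 4 * cr K / N := by gcongr; norm_num
  have hυ := p.υ0
  have hγ := p.ctx.γ0
  have hhp : HP (2 * cr K / N) (kc3_f h g ω ω') := hp_mono (kc3_f_hp p) hr2
  have h1 := hinvD (2 * cr K / N) (cr K / N / 4) (Cf * (υ / (N * max N Nb))) γ Nb ω'
    (kc3_f h g ω ω') (by positivity)
    (by
      have : 0 < cr K / N := by positivity
      have h2 : 2 * cr K / N = 2 * (cr K / N) := by ring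
      rw [h2]; linarith)
    hγ p.ctx.γ1 (kc3_Nb p.ctx) (by positivity) p.rot hhp (hn_of_bd hhp hf)
  refine kc3_bdmono h1 (le_of_eq (by ring)) ?_
  have h3 : 1 / (cr K / N / 4) + Nb ≤ (4 / cr K + 1) * max N Nb := by
    have h4 : 1 / (cr K / N / 4) = 4 / cr K * N := by field_simp
    rw [h4, add_mul, one_mul]
    gcongr
  calc Ci / γ * (1 / (cr K / N / 4) + Nb) * (Cf * (υ / (N * max N Nb)))
      ≤ Ci / γ * ((4 / cr K + 1) * max N Nb) * (Cf * (υ / (N * max N Nb))) := by gcongr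
    _ = Ci / γ * (4 / cr K + 1) * Cf * (υ / N) := by
        field_simp

/-- bounds of the correction -/
theorem ww_bounds (K γ : ℝ) : ∃ C : ℝ, 1 ≤ C ∧
    ∀ {N Nb J ω : ℝ} {h g : ℂ → ℂ} {ω' σ υ V₀ V₁ : ℝ}, Pre K γ N Nb J ω h g ω' σ υ V₀ V₁ →
      Bd (3 / 2 * cr K / N) (ww h g ω ω') (C * (υ + σ * V₀) / N) ∧
      Bd (3 / 2 * cr K / N) (deriv (ww h g ω ω')) (C * (υ + σ * V₁)) ∧
      Bd (5 / 4 * cr K / N) (deriv (deriv (ww h g ω ω'))) (C * N * (υ + σ * V₁)) ∧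
      Bd (2 * cr K / N) (ss h g ω ω') (C * (σ + υ) / (N * max N Nb)) ∧
      Bd (3 / 2 * cr K / N) (deriv (ss h g ω ω')) (C * (σ * (1 / N + J) + υ) / max N Nb) ∧
      Bd (5 / 4 * cr K / N) (deriv (deriv (ss h g ω ω')))
        (C * N * (σ * (1 / N + J) + υ) / max N Nb) := by
  obtain ⟨Ca, hCa, hab⟩ := aa_bounds K
  obtain ⟨Cq, hCq, hqb⟩ := qq_bounds K
  obtain ⟨Ci, hCi, hib⟩ := invD_bd
  by_cases hK : 1 ≤ K
  swap
  · exact ⟨1, le_rfl, fun p => absurd p.ctx.K1 hK⟩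
  by_cases hγ : 0 < γ
  swap
  · exact ⟨1, le_rfl, fun p => absurd p.ctx.γ0 hγ⟩
  have hcr := kc3_cr hK
  obtain ⟨Cf, hCfd⟩ : ∃ Cf, Cf = Ca * (Ca ^ 2 + 1) := ⟨_, rfl⟩
  have hCf : 1 ≤ Cf := by rw [hCfd]; nlinarith
  obtain ⟨Cw, hCwd⟩ : ∃ Cw, Cw = Ci / γ * (4 / cr K + 1) * Cf := ⟨_, rfl⟩
  have hCw : 0 ≤ Cw := by rw [hCwd]; positivity
  obtain ⟨D1, hD1⟩ : ∃ D1, D1 = 1 + Cw + 4 * Cw / cr K := ⟨_, rfl⟩
  have hD10 : 0 ≤ 4 * Cw / cr K := by positivity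
  obtain ⟨D2, hD2⟩ : ∃ D2, D2 = 1 + Cq + Cf + 2 * Cf / cr K := ⟨_, rfl⟩
  have hD20 : 0 ≤ 2 * Cf / cr K := by positivity
  have hD1p : 0 ≤ D1 := by rw [hD1]; positivity
  have hD2p : 0 ≤ D2 := by rw [hD2]; positivity
  obtain ⟨C, hC⟩ : ∃ C, C = (D1 + D2) * (1 + 4 / cr K) := ⟨_, rfl⟩
  have hcr4 : 0 ≤ 4 / cr K := by positivity
  obtain ⟨hC1, hC2, hC3, hC4⟩ := kc3_C hD1p hD2p hcr4
  rw [← hC] at hC1 hC2 hC3 hC4
  refine ⟨C, ?_, ?_⟩
  · have : 1 ≤ D1 := by rw [hD1]; linarith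
    linarith
  intro N Nb J ω h g ω' σ υ V₀ V₁ p
  obtain ⟨hN, hNb, hΛ, hΛ1, hΛ2⟩ := kc3_Λ p.ctx
  obtain ⟨ha1, ha2, ha3, ha4, ha5, ha6⟩ := hab p.ctx
  obtain ⟨hq1, hq2, hq3, hq4⟩ := hqb p.ctx
  have hυ := p.υ0
  have hσ := p.σ0
  have hV0 := p.V00
  have hV1 := p.V10
  have hJ := p.ctx.J0
  obtain ⟨hwhp, hshp⟩ := ww_hp p
  have hvhp := (vv_eq p).1
  have hf : Bd (2 * cr K / N) (kc3_f h g ω ω') (Cf * (υ / (N * max N Nb))) := by
    rw [hCfd]; exact kc3_fb hCa p ha2 ha4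
  have hw : Bd (7 / 4 * cr K / N) (wN h g ω ω') (Cw * (υ / N)) := by
    rw [hCwd]; exact kc3_wb hCi hCf p hib hf
  have hϱ : 0 < cr K / N := by positivity
  have e1 : 7 / 4 * cr K / N = 7 / 4 * (cr K / N) := by ring
  have e2 : 2 * cr K / N = 2 * (cr K / N) := by ring
  have e3 : 3 / 2 * cr K / N = 3 / 2 * (cr K / N) := by ring
  have e4 : 5 / 4 * cr K / N = 5 / 4 * (cr K / N) := by ring
  have e5 : 4 * cr K / N = 4 * (cr K / N) := by ring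
  have hdomn : ‖((ω' - ω : ℝ) : ℂ)‖ ≤ σ / (N * max N Nb) := by
    rw [Complex.norm_real]; exact p.dom
  -- derivative of the Newton part
  have hdw : Bd (3 / 2 * cr K / N) (deriv (wN h g ω ω')) (4 * Cw / cr K * υ) := by
    have hh : HP (7 / 4 * cr K / N) (wN h g ω ω') :=
      hp_mono (kc3_wN_hp p) (by rw [e1, e5]; linarith)
    refine kc3_bdmono (bd_deriv hh (δ := cr K / N / 4) (by positivity) hw)
      (by rw [e1, e3]; linarith) (le_of_eq ?_)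
    field_simp
  have b1 : Bd (3 / 2 * cr K / N) (ww h g ω ω') (D1 * (υ + σ * V₀) / N) := by
    intro z hz
    have hz1 : z ∈ Strip (7 / 4 * cr K / N) := kc3_mono (by rw [e1, e3]; linarith) hz
    have hz2 : z ∈ Strip (2 * cr K / N) := kc3_mono (by rw [e2, e3]; linarith) hz
    have h1 := hw z hz1
    have h2 := p.bv z hz2
    unfold ww
    calc ‖wN h g ω ω' z + ((ω' - ω : ℝ) : ℂ) * vv h g ω ω' z‖
        ≤ ‖wN h g ω ω' z‖ + ‖((ω' - ω : ℝ) : ℂ)‖ * ‖vv h g ω ω' z‖ := by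
          refine (norm_add_le _ _).trans ?_
          rw [norm_mul]
      _ ≤ Cw * (υ / N) + σ / (N * max N Nb) * (max N Nb * V₀) := by
          gcongr
      _ = (Cw * υ + 1 * (σ * V₀)) / N := by
          field_simp
      _ ≤ D1 * (υ + σ * V₀) / N :=
          div_le_div_of_nonneg_right (kc3_lin (by rw [hD1]; linarith) (by rw [hD1]; linarith) hυ
            (mul_nonneg hσ hV0)) hN.le
  have b2 : Bd (3 / 2 * cr K / N) (deriv (ww h g ω ω')) (D1 * (υ + σ * V₁)) := by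
    intro z hz
    have hz4 : z ∈ Strip (4 * cr K / N) := kc3_mono (by rw [e5, e3]; linarith) hz
    have hz2 : z ∈ Strip (2 * cr K / N) := kc3_mono (by rw [e2, e3]; linarith) hz
    have hd : deriv (ww h g ω ω') z = deriv (wN h g ω ω') z +
        ((ω' - ω : ℝ) : ℂ) * deriv (vv h g ω ω') z := by
      have h1 := (kc3_da (kc3_wN_hp p) hz4).hasDerivAt
      have h2 := (kc3_da hvhp hz4).hasDerivAt
      exact (h1.add (h2.const_mul ((ω' - ω : ℝ) : ℂ))).deriv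
    rw [hd]
    have h1 := hdw z hz
    have h2 := p.bv1 z hz2
    calc ‖deriv (wN h g ω ω') z + ((ω' - ω : ℝ) : ℂ) * deriv (vv h g ω ω') z‖
        ≤ ‖deriv (wN h g ω ω') z‖ + ‖((ω' - ω : ℝ) : ℂ)‖ * ‖deriv (vv h g ω ω') z‖ := by
          refine (norm_add_le _ _).trans ?_
          rw [norm_mul]
      _ ≤ 4 * Cw / cr K * υ + σ / (N * max N Nb) * (N * max N Nb * V₁) := by
          gcongr
      _ = 4 * Cw / cr K * υ + 1 * (σ * V₁) := by
          field_simp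
      _ ≤ D1 * (υ + σ * V₁) :=
          kc3_lin (by rw [hD1]; linarith) (by rw [hD1]; linarith) hυ (mul_nonneg hσ hV1)
  have b4 : Bd (2 * cr K / N) (ss h g ω ω') (D2 * (σ + υ) / (N * max N Nb)) := by
    intro z hz
    have hz4 : z ∈ Strip (4 * cr K / N) := kc3_mono (by rw [e5, e2]; linarith) hz
    rw [kc3_ss p hz4]
    have h1 := hq3 z hz4
    have h2 := hf z hz
    calc ‖((ω' - ω : ℝ) : ℂ) * (1 + qq h g ω z) + kc3_f h g ω ω' z‖
        ≤ ‖((ω' - ω : ℝ) : ℂ)‖ * (1 + ‖qq h g ω z‖) + ‖kc3_f h g ω ω' z‖ := by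
          refine (norm_add_le _ _).trans ?_
          rw [norm_mul]
          gcongr
          refine (norm_add_le _ _).trans ?_
          rw [norm_one]
      _ ≤ σ / (N * max N Nb) * (1 + Cq) + Cf * (υ / (N * max N Nb)) := by
          gcongr
      _ = ((1 + Cq) * σ + Cf * υ) / (N * max N Nb) := by
          field_simp
      _ ≤ D2 * (σ + υ) / (N * max N Nb) :=
          div_le_div_of_nonneg_right (kc3_lin (by rw [hD2]; linarith) (by rw [hD2]; linarith) hσ hυ)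
            (mul_nonneg hN.le hΛ.le)
  have hdf : Bd (3 / 2 * cr K / N) (deriv (kc3_f h g ω ω')) (2 * Cf / cr K * (υ / max N Nb)) := by
    have hh : HP (2 * cr K / N) (kc3_f h g ω ω') :=
      hp_mono (kc3_f_hp p) (by rw [e2, e5]; linarith)
    refine kc3_bdmono (bd_deriv hh (δ := cr K / N / 2) (by positivity) hf)
      (by rw [e2, e3]; linarith) (le_of_eq ?_)
    field_simp
  have b5 : Bd (3 / 2 * cr K / N) (deriv (ss h g ω ω'))
      (D2 * (σ * (1 / N + J) + υ) / max N Nb) := by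
    intro z hz
    have hz4 : z ∈ Strip (4 * cr K / N) := kc3_mono (by rw [e5, e3]; linarith) hz
    have hev : ss h g ω ω' =ᶠ[nhds z]
        fun z => ((ω' - ω : ℝ) : ℂ) * (1 + qq h g ω z) + kc3_f h g ω ω' z := by
      filter_upwards [(isOpen_strip _).mem_nhds hz4] with x hx using kc3_ss p hx
    have hd : deriv (ss h g ω ω') z = ((ω' - ω : ℝ) : ℂ) * deriv (qq h g ω) z +
        deriv (kc3_f h g ω ω') z := by
      rw [hev.deriv_eq]
      have h1 := (kc3_da hq1 hz4).hasDerivAt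
      have h2 := (kc3_da (kc3_f_hp p) hz4).hasDerivAt
      exact (((h1.const_add 1).const_mul ((ω' - ω : ℝ) : ℂ)).add h2).deriv
    rw [hd]
    have h1 := hq4 z hz4
    have h2 := hdf z hz
    calc ‖((ω' - ω : ℝ) : ℂ) * deriv (qq h g ω) z + deriv (kc3_f h g ω ω') z‖
        ≤ ‖((ω' - ω : ℝ) : ℂ)‖ * ‖deriv (qq h g ω) z‖ + ‖deriv (kc3_f h g ω ω') z‖ := by
          refine (norm_add_le _ _).trans ?_
          rw [norm_mul]
      _ ≤ σ / (N * max N Nb) * (Cq * (1 + N * J)) + 2 * Cf / cr K * (υ / max N Nb) := by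
          gcongr
      _ = (Cq * (σ * (1 / N + J)) + 2 * Cf / cr K * υ) / max N Nb := by
          field_simp
      _ ≤ D2 * (σ * (1 / N + J) + υ) / max N Nb :=
          div_le_div_of_nonneg_right (kc3_lin (by rw [hD2]; linarith) (by rw [hD2]; linarith)
            (by positivity) hυ) hΛ.le
  have b3 : Bd (5 / 4 * cr K / N) (deriv (deriv (ww h g ω ω'))) (C * N * (υ + σ * V₁)) := by
    have hh : HP (3 / 2 * cr K / N) (deriv (ww h g ω ω')) :=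
      hp_mono (hp_deriv hwhp) (by rw [e3, e5]; linarith)
    refine kc3_bdmono (bd_deriv hh (δ := cr K / N / 4) (by positivity) b2)
      (by rw [e4, e3]; linarith) ?_
    have h3 : 0 ≤ N * (υ + σ * V₁) := by positivity
    calc D1 * (υ + σ * V₁) / (cr K / N / 4) = (D1 * (4 / cr K)) * (N * (υ + σ * V₁)) := by
          field_simp
      _ ≤ C * (N * (υ + σ * V₁)) := mul_le_mul_of_nonneg_right hC3 h3
      _ = C * N * (υ + σ * V₁) := by ring
  have b6 : Bd (5 / 4 * cr K / N) (deriv (deriv (ss h g ω ω')))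
      (C * N * (σ * (1 / N + J) + υ) / max N Nb) := by
    have hh : HP (3 / 2 * cr K / N) (deriv (ss h g ω ω')) :=
      hp_mono (hp_deriv hshp) (by rw [e3, e5]; linarith)
    refine kc3_bdmono (bd_deriv hh (δ := cr K / N / 4) (by positivity) b5)
      (by rw [e4, e3]; linarith) ?_
    have h3 : 0 ≤ N * (σ * (1 / N + J) + υ) / max N Nb := by positivity
    calc D2 * (σ * (1 / N + J) + υ) / max N Nb / (cr K / N / 4)
        = (D2 * (4 / cr K)) * (N * (σ * (1 / N + J) + υ) / max N Nb) := by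
          field_simp
      _ ≤ C * (N * (σ * (1 / N + J) + υ) / max N Nb) := mul_le_mul_of_nonneg_right hC4 h3
      _ = C * N * (σ * (1 / N + J) + υ) / max N Nb := by ring
  refine ⟨kc3_bdmono b1 le_rfl ?_, kc3_bdmono b2 le_rfl ?_, b3, kc3_bdmono b4 le_rfl ?_,
    kc3_bdmono b5 le_rfl ?_, b6⟩
  · gcongr
  · gcongr
  · gcongr
  · gcongr

end Pool.Agent.MP_b87ea9_an.Kam
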