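import Mathlib
import Pool.Agent.Lib.MP_b87ea9_an.KDefs
import Pool.Agent.Lib.MP_b87ea9_an.KDefs2
import Pool.Agent.Lib.MP_b87ea9_an.KDefs3
import Pool.Agent.Lib.MP_b87ea9_an.KC2
import Pool.Agent.Lib.MP_b87ea9_an.KC3

set_option autoImplicit false

/-! The new error is quadratic -/

namespace Pool.Agent.MP_b87ea9_an.Kam

open Real MeasureTheory

/-! ### holomorphy, periodicity, reality of the composed expressions -/

theorem kc4_per {R : ℝ} {g : ℂ → ℂ} (hg : HP R (fun z => g z - z)) (z : ℂ) :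
    g (z + 2 * π) = g z + 2 * π := by
  have h1 : g (z + 2 * π) - (z + 2 * π) = g z - z := hg.per z
  linear_combination h1

theorem kc4_rs {R : ℝ} {g : ℂ → ℂ} (hg : HP R (fun z => g z - z)) (z : ℂ) :
    g (starRingEnd ℂ z) = starRingEnd ℂ (g z) := by
  have h1 : g (starRingEnd ℂ z) - starRingEnd ℂ z = starRingEnd ℂ (g z - z) := hg.rs z
  rw [map_sub] at h1
  linear_combination h1

theorem kc4_hol {R : ℝ} {g : ℂ → ℂ} (hg : HP R (fun z => g z - z)) :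
    DifferentiableOn ℂ g (Strip R) := by
  have h1 := hg.hol.add (differentiableOn_id (s := Strip R))
  refine h1.congr fun z _ => ?_
  show g z = g z - z + z
  ring

theorem kc4_dper {g : ℂ → ℂ} (hg : ∀ z, g (z + 2 * π) = g z + 2 * π) (z : ℂ) :
    deriv g (z + 2 * π) = deriv g z := by
  have h1 : (fun w => g (w + 2 * π)) = fun w => g w + 2 * π := funext hg
  calc deriv g (z + 2 * π) = deriv (fun w => g (w + 2 * π)) z := by rw [deriv_comp_add_const]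
    _ = deriv g z := by rw [h1, deriv_add_const]

theorem kc4_dper' {g : ℂ → ℂ} (hg : ∀ z, g (z + 2 * π) = g z) (z : ℂ) :
    deriv g (z + 2 * π) = deriv g z := by
  have h1 : (fun w => g (w + 2 * π)) = g := funext hg
  calc deriv g (z + 2 * π) = deriv (fun w => g (w + 2 * π)) z := by rw [deriv_comp_add_const]
    _ = deriv g z := by rw [h1]

theorem kc4_drs {g : ℂ → ℂ} (hg : ∀ z, g (starRingEnd ℂ z) = starRingEnd ℂ (g z)) (z : ℂ) :
    deriv g (starRingEnd ℂ z) = starRingEnd ℂ (deriv g z) := by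
  have h1 : (starRingEnd ℂ) ∘ g ∘ (starRingEnd ℂ) = g := by
    funext w
    simp [hg w]
  have h2 := deriv_conj_conj (𝕜 := ℂ) (f := g)
  rw [h1] at h2
  have h3 := congrFun h2 (starRingEnd ℂ z)
  simpa using h3

theorem kc4_dh {h : ℂ → ℂ} (hd : Differentiable ℂ h) : Differentiable ℂ (deriv h) := by
  rw [← differentiableOn_univ] at hd ⊢
  exact hd.deriv isOpen_univ

theorem kc4_conj_two : starRingEnd ℂ (2 : ℂ) = 2 := by
  rw [show (2 : ℂ) = ((2 : ℝ) : ℂ) by norm_num, Complex.conj_ofReal]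

section HPs

variable {R r : ℝ} {h G X Y : ℂ → ℂ}

theorem kc4_S_hol (hd : Differentiable ℂ h) {A B : ℂ → ℂ} {s : Set ℂ} (hA : DifferentiableOn ℂ A s)
    (hB : DifferentiableOn ℂ B s) : DifferentiableOn ℂ (fun z => Sx h (A z) (B z)) s ∧
      DifferentiableOn ℂ (fun z => Sy h (A z) (B z)) s := by
  have h1 : DifferentiableOn ℂ (fun z => (A z + B z) / 2) s := (hA.add hB).div_const 2
  have h2 : DifferentiableOn ℂ (fun z => (B z - A z) / 2) s := (hB.sub hA).div_const 2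
  have h3 : DifferentiableOn ℂ (fun z => h ((A z + B z) / 2)) s :=
    hd.differentiableOn.comp h1 fun _ _ => Set.mem_univ _
  have h4 : DifferentiableOn ℂ (fun z => deriv h ((A z + B z) / 2)) s :=
    (kc4_dh hd).differentiableOn.comp h1 fun _ _ => Set.mem_univ _
  have h5 : DifferentiableOn ℂ (fun z => Complex.sin ((B z - A z) / 2)) s := h2.csin
  have h6 : DifferentiableOn ℂ (fun z => Complex.cos ((B z - A z) / 2)) s := h2.ccos
  exact ⟨(h4.mul h5).sub (h3.mul h6), (h4.mul h5).add (h3.mul h6)⟩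

theorem kc4_S_per (hp : ∀ z, h (z + 2 * π) = h z) (x y : ℂ) :
    Sx h (x + 2 * π) (y + 2 * π) = Sx h x y ∧ Sy h (x + 2 * π) (y + 2 * π) = Sy h x y := by
  have e1 : (x + 2 * π + (y + 2 * π)) / 2 = (x + y) / 2 + 2 * π := by ring
  have e2 : (y + 2 * π - (x + 2 * π)) / 2 = (y - x) / 2 := by ring
  unfold Sx Sy
  rw [e1, e2, hp, kc4_dper' hp]
  exact ⟨rfl, rfl⟩

theorem kc4_S_rs (hr : ∀ z, h (starRingEnd ℂ z) = starRingEnd ℂ (h z)) (x y : ℂ) :
    Sx h (starRingEnd ℂ x) (starRingEnd ℂ y) = starRingEnd ℂ (Sx h x y) ∧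
      Sy h (starRingEnd ℂ x) (starRingEnd ℂ y) = starRingEnd ℂ (Sy h x y) := by
  have e1 : (starRingEnd ℂ x + starRingEnd ℂ y) / 2 = starRingEnd ℂ ((x + y) / 2) := by
    rw [map_div₀, map_add, kc4_conj_two]
  have e2 : (starRingEnd ℂ y - starRingEnd ℂ x) / 2 = starRingEnd ℂ ((y - x) / 2) := by
    rw [map_div₀, map_sub, kc4_conj_two]
  unfold Sx Sy
  rw [e1, e2, hr, kc4_drs hr, Complex.sin_conj, Complex.cos_conj]
  constructor <;> simp only [map_sub, map_add, map_mul]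

theorem hp_PPc (hd : Differentiable ℂ h) (hp : ∀ z, h (z + 2 * π) = h z)
    (hr : ∀ z, h (starRingEnd ℂ z) = starRingEnd ℂ (h z)) (hG : HP R (fun z => G z - z))
    (hX : HP r (fun z => X z - z)) (hY : HP r (fun z => Y z - z))
    (hXs : ∀ z ∈ Strip r, X z ∈ Strip R) (hYs : ∀ z ∈ Strip r, Y z ∈ Strip R) :
    HP r (fun z => PP h G (X z) (Y z)) ∧ HP r (fun z => RR h G (X z) (Y z)) := by
  have gX : DifferentiableOn ℂ (fun z => G (X z)) (Strip r) :=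
    (kc4_hol hG).comp (kc4_hol hX) hXs
  have gY : DifferentiableOn ℂ (fun z => G (Y z)) (Strip r) :=
    (kc4_hol hG).comp (kc4_hol hY) hYs
  have dX : DifferentiableOn ℂ (fun z => deriv G (X z)) (Strip r) :=
    ((kc4_hol hG).deriv (isOpen_strip R)).comp (kc4_hol hX) hXs
  have dY : DifferentiableOn ℂ (fun z => deriv G (Y z)) (Strip r) :=
    ((kc4_hol hG).deriv (isOpen_strip R)).comp (kc4_hol hY) hYs
  have hS := kc4_S_hol hd gX gY
  refine ⟨⟨dX.mul hS.1, fun z => ?_, fun z => ?_⟩, ⟨dY.mul hS.2, fun z => ?_, fun z => ?_⟩⟩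
  · show PP h G (X (z + 2 * π)) (Y (z + 2 * π)) = PP h G (X z) (Y z)
    unfold PP
    rw [kc4_per hX, kc4_per hY, kc4_dper (kc4_per hG), kc4_per hG, kc4_per hG,
      (kc4_S_per hp _ _).1]
  · show PP h G (X (starRingEnd ℂ z)) (Y (starRingEnd ℂ z)) = starRingEnd ℂ (PP h G (X z) (Y z))
    unfold PP
    rw [kc4_rs hX, kc4_rs hY, kc4_drs (kc4_rs hG), kc4_rs hG, kc4_rs hG,
      (kc4_S_rs hr _ _).1, map_mul]
  · show RR h G (X (z + 2 * π)) (Y (z + 2 * π)) = RR h G (X z) (Y z)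
    unfold RR
    rw [kc4_per hX, kc4_per hY, kc4_dper (kc4_per hG), kc4_per hG, kc4_per hG,
      (kc4_S_per hp _ _).2]
  · show RR h G (X (starRingEnd ℂ z)) (Y (starRingEnd ℂ z)) = starRingEnd ℂ (RR h G (X z) (Y z))
    unfold RR
    rw [kc4_rs hX, kc4_rs hY, kc4_drs (kc4_rs hG), kc4_rs hG, kc4_rs hG,
      (kc4_S_rs hr _ _).2, map_mul]

end HPs

theorem kc4_sub {r : ℝ} {z : ℂ} (a : ℝ) (hz : z ∈ Strip r) : z - a ∈ Strip r := by
  have h1 : |z.im| < r := hz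
  show |(z - (a : ℂ)).im| < r
  simpa using h1

theorem kc4_add {r : ℝ} {z : ℂ} (a : ℝ) (hz : z ∈ Strip r) : z + a ∈ Strip r := by
  have h1 : |z.im| < r := hz
  show |(z + (a : ℂ)).im| < r
  simpa using h1

theorem kc4_pert {r r' : ℝ} {z w : ℂ} (hz : z ∈ Strip r) (hw : ‖w‖ ≤ r') : z + w ∈ Strip (r + r') := by
  have h1 : |z.im| < r := hz
  have h2 : |w.im| ≤ r' := (Complex.abs_im_le_norm w).trans hw
  show |(z + w).im| < r + r'
  rw [Complex.add_im]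
  have h3 := abs_add_le z.im w.im
  linarith

theorem kc4_strip {r r' : ℝ} {z : ℂ} (hz : z ∈ Strip r) (h : r ≤ r') : z ∈ Strip r' :=
  lt_of_lt_of_le hz h

theorem kc4_fr {a b c n : ℝ} (h : a ≤ b) (hc : 0 < c) (hn : 0 < n) : a * c / n ≤ b * c / n :=
  div_le_div_of_nonneg_right (mul_le_mul_of_nonneg_right h hc.le) hn.le

/-! ### real inequalities -/

section reals

variable {υ σ V J i : ℝ}

theorem kc4_r0 (hυ : 0 ≤ υ) (hσ : 0 ≤ σ) (hV : 0 ≤ V) : υ + σ * V ≤ (1 + V) * (υ + σ) := by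
  nlinarith only [mul_nonneg hV hυ, hυ, hσ, hV]

theorem kc4_r1 (hυ : 0 ≤ υ) (hσ : 0 ≤ σ) (hV : 0 ≤ V) (hJ : 0 ≤ J) (hi : 0 ≤ i) :
    υ * (υ + σ * V) ≤ (1 + V) * (υ + σ) * (υ + J + i) := by
  rw [mul_comm υ]
  exact mul_le_mul (kc4_r0 hυ hσ hV) (by linarith) hυ (by positivity)

theorem kc4_r2 (hυ : 0 ≤ υ) (hσ : 0 ≤ σ) (hV : 0 ≤ V) (hJ : 0 ≤ J) (hi : 0 ≤ i)
    (h2 : σ + υ ≤ 2) :
    (i + J) * (υ + σ * V) * (σ + υ) ≤ 2 * ((1 + V) * (υ + σ) * (υ + J + i)) := by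
  have h1 : (i + J) * (υ + σ * V) ≤ (υ + J + i) * ((1 + V) * (υ + σ)) :=
    mul_le_mul (by linarith) (kc4_r0 hυ hσ hV) (by positivity) (by positivity)
  have h3 : (i + J) * (υ + σ * V) * (σ + υ) ≤ (υ + J + i) * ((1 + V) * (υ + σ)) * 2 :=
    mul_le_mul h1 h2 (by positivity) (by positivity)
  linarith

theorem kc4_r5 (hυ : 0 ≤ υ) (hσ : 0 ≤ σ) (hV : 0 ≤ V) (hJ : 0 ≤ J) (hi : 0 ≤ i) :
    υ * (σ + υ) ≤ (1 + V) * (υ + σ) * (υ + J + i) := by
  have h1 : υ * (σ + υ) ≤ (υ + J + i) * ((1 + V) * (υ + σ)) :=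
    mul_le_mul (by linarith) (by nlinarith only [mul_nonneg hV hυ, mul_nonneg hV hσ, hυ, hσ, hV]) (by positivity)
      (by positivity)
  linarith

theorem kc4_r3 (hυ : 0 ≤ υ) (hσ : 0 ≤ σ) (hV : 0 ≤ V) (hJ : 0 ≤ J) (hi : 0 ≤ i)
    (h2 : σ + υ ≤ 2) :
    (i + J) * (σ + υ) ^ 2 ≤ 2 * ((1 + V) * (υ + σ) * (υ + J + i)) := by
  have h1 : (i + J) * (σ + υ) ≤ (υ + J + i) * ((1 + V) * (υ + σ)) :=
    mul_le_mul (by linarith) (by nlinarith only [mul_nonneg hV hυ, mul_nonneg hV hσ, hυ, hσ, hV]) (by positivity)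
      (by positivity)
  have h3 : (i + J) * (σ + υ) * (σ + υ) ≤ (υ + J + i) * ((1 + V) * (υ + σ)) * 2 :=
    mul_le_mul h1 h2 (by positivity) (by positivity)
  nlinarith only [h3]

theorem kc4_r4 (hυ : 0 ≤ υ) (hσ : 0 ≤ σ) (hV : 0 ≤ V) (hJ : 0 ≤ J) (hi : 0 ≤ i)
    (h2 : σ + υ ≤ 2) :
    i * (σ + υ) ^ 3 ≤ 4 * ((1 + V) * (υ + σ) * (υ + J + i)) := by
  have h1 := kc4_r3 hυ hσ hV hJ hi h2
  have h3 : i * (σ + υ) ^ 2 ≤ (i + J) * (σ + υ) ^ 2 := by nlinarith only [mul_nonneg hJ (sq_nonneg (σ + υ)), hJ]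
  have h4 : i * (σ + υ) ^ 2 * (σ + υ) ≤ 2 * ((1 + V) * (υ + σ) * (υ + J + i)) * 2 :=
    mul_le_mul (h3.trans h1) h2 (by positivity) (by positivity)
  nlinarith only [h4]

end reals

/-! ### the pieces -/

/-- `Ξ` -/
noncomputable def kXi (h g : ℂ → ℂ) (ω ω' : ℝ) (z : ℂ) : ℂ :=
  PP h g (z + ww h g ω ω' z) (z + ww h g ω ω' z + ω + ss h g ω ω' z) -
    PP h g (z + ww h g ω ω' z) (z + ww h g ω ω' z + ω) -
    aa h g ω (z + ww h g ω ω' z) * ss h g ω ω' z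

/-- `Y₁` -/
noncomputable def kY1 (h g : ℂ → ℂ) (ω ω' : ℝ) (z : ℂ) : ℂ :=
  uu h g ω ω' (z + ww h g ω ω' z) - uu h g ω ω' z +
    (aa h g ω (z + ww h g ω ω' z) - aa h g ω z) * ss h g ω ω' z + kXi h g ω ω' z

/-- `Y` -/
noncomputable def kY (h g : ℂ → ℂ) (ω ω' : ℝ) (z : ℂ) : ℂ :=
  (1 + deriv (ww h g ω ω') z) * kY1 h g ω ω' z

/-- `Z` -/
noncomputable def kZ (h g : ℂ → ℂ) (ω ω' : ℝ) (z : ℂ) : ℂ :=
  FF h (gnew h g ω ω') ω' z - (kY h g ω ω' z - kY h g ω ω' (z - ω'))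

section pieces

variable {K γ N Nb J ω : ℝ} {h g : ℂ → ℂ} {ω' σ υ V₀ V₁ : ℝ}

/-- algebraic identity of the whole construction -/
theorem kZ_eq (p : Pre K γ N Nb J ω h g ω' σ υ V₀ V₁) {r₁ r₂ : ℝ} (h1 : r₁ ≤ 4 * cr K / N)
    (h2 : r₂ ≤ 4 * cr K / N) (hw : ∀ z ∈ Strip r₁, z + ww h g ω ω' z ∈ Strip r₂) {z : ℂ}
    (hz : z ∈ Strip r₁) :
    kZ h g ω ω' z = (1 + deriv (ww h g ω ω') z) *
        (-(uu h g ω ω' (z + ww h g ω ω' z - ω') -
            uu h g ω ω' (z - ω' + ww h g ω ω' (z - ω'))) -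
          (aa h g ω (z + ww h g ω ω' z - ω) -
            aa h g ω (z - ω' + ww h g ω ω' (z - ω'))) * ss h g ω ω' (z - ω') +
          (kXi h g ω ω' (z - ω') +
            (RR h g (z - ω' + ww h g ω ω' (z - ω')) (z + ww h g ω ω' z) -
              RR h g (z + ww h g ω ω' z - ω) (z + ww h g ω ω' z) +
              aa h g ω (z + ww h g ω ω' z - ω) * ss h g ω ω' (z - ω')))) -
        deriv (ss h g ω ω') (z - ω') * kY1 h g ω ω' (z - ω') := by
  have hN := p.ctx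
  obtain ⟨hwhp, hshp⟩ := ww_hp p
  have hz4 : z ∈ Strip (4 * cr K / N) := kc4_strip hz h1
  have hzm : z - ω' ∈ Strip r₁ := kc4_sub ω' hz
  have hzm4 : z - ω' ∈ Strip (4 * cr K / N) := kc4_sub ω' hz4
  have hzp : z + ω' ∈ Strip r₁ := kc4_add ω' hz
  have hzp4 : z + ω' ∈ Strip (4 * cr K / N) := kc4_add ω' hz4
  have hdw : ∀ x ∈ Strip (4 * cr K / N), DifferentiableAt ℂ (ww h g ω ω') x := fun x hx =>
    (hwhp.hol x hx).differentiableAt ((isOpen_strip _).mem_nhds hx)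
  have hdg : ∀ x ∈ Strip (4 * cr K / N), DifferentiableAt ℂ g x := fun x hx =>
    (kc4_hol p.ctx.gs.hp x hx).differentiableAt ((isOpen_strip _).mem_nhds hx)
  have hτ : z + ww h g ω ω' z ∈ Strip (4 * cr K / N) := kc4_strip (hw z hz) h2
  -- derivative of the new lines
  have hdn : deriv (gnew h g ω ω') z =
      deriv g (z + ww h g ω ω' z) * (1 + deriv (ww h g ω ω') z) := by
    have e1 : HasDerivAt (fun x => x + ww h g ω ω' x) (1 + deriv (ww h g ω ω') z) z :=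
      (hasDerivAt_id z).add (hdw z hz4).hasDerivAt
    have e2 := (hdg _ hτ).hasDerivAt
    exact (e2.comp z e1).deriv
  -- derivative of s
  have hds : deriv (ss h g ω ω') (z - ω') =
      deriv (ww h g ω ω') z - deriv (ww h g ω ω') (z - ω') := by
    have e1 : HasDerivAt (fun x => ww h g ω ω' (x + ω')) (deriv (ww h g ω ω') z) (z - ω') := by
      have e3 : HasDerivAt (ww h g ω ω') (deriv (ww h g ω ω') z) (z - ω' + ω') := by
        rw [sub_add_cancel]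
        exact (hdw z hz4).hasDerivAt
      simpa using e3.comp_add_const (z - ω') (ω' : ℂ)
    have e2 := (hdw _ hzm4).hasDerivAt
    have e4 := ((hasDerivAt_const (z - (ω' : ℂ)) ((ω' - ω : ℝ) : ℂ)).add e1).sub e2
    have e5 : deriv (ss h g ω ω') (z - ω') =
        0 + deriv (ww h g ω ω') z - deriv (ww h g ω ω') (z - ω') := e4.deriv
    rw [e5, zero_add]
  have hu := (uu_eq p).2 _ hτ
  have hu0 := (uu_eq p).2 _ hz4
  have hs := ss_eq p z hz4
  have hp1 : z + ω' + ww h g ω ω' (z + ω') =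
      z + ww h g ω ω' z + ω + ss h g ω ω' z := by
    unfold ss
    push_cast
    ring
  have hp2 : z + ww h g ω ω' z = z - ω' + ww h g ω ω' (z - ω') + ω + ss h g ω ω' (z - ω') := by
    unfold ss
    rw [sub_add_cancel]
    push_cast
    ring
  have hF : FF h (gnew h g ω ω') ω' z = (1 + deriv (ww h g ω ω') z) *
      (PP h g (z + ww h g ω ω' z) (z + ww h g ω ω' z + ω + ss h g ω ω' z) +
        RR h g (z - ω' + ww h g ω ω' (z - ω')) (z + ww h g ω ω' z)) := by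
    unfold FF PP RR
    rw [hdn]
    unfold gnew
    rw [hp1]
    ring
  have hF0 : FF h g ω (z + ww h g ω ω' z) =
      PP h g (z + ww h g ω ω' z) (z + ww h g ω ω' z + ω) +
        RR h g (z + ww h g ω ω' z - ω) (z + ww h g ω ω' z) := rfl
  rw [hF0] at hu
  rw [hu0] at hs
  unfold kZ
  rw [hF, hds]
  unfold kY
  rw [show kY1 h g ω ω' z = uu h g ω ω' (z + ww h g ω ω' z) - uu h g ω ω' z +
    (aa h g ω (z + ww h g ω ω' z) - aa h g ω z) * ss h g ω ω' z + kXi h g ω ω' z from rfl]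
  rw [show kY1 h g ω ω' (z - ω') = uu h g ω ω' (z - ω' + ww h g ω ω' (z - ω')) -
    uu h g ω ω' (z - ω') + (aa h g ω (z - ω' + ww h g ω ω' (z - ω')) - aa h g ω (z - ω')) *
      ss h g ω ω' (z - ω') + kXi h g ω ω' (z - ω') from rfl]
  rw [show kXi h g ω ω' z = PP h g (z + ww h g ω ω' z)
      (z + ww h g ω ω' z + ω + ss h g ω ω' z) -
    PP h g (z + ww h g ω ω' z) (z + ww h g ω ω' z + ω) -
    aa h g ω (z + ww h g ω ω' z) * ss h g ω ω' z from rfl]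
  linear_combination (1 + deriv (ww h g ω ω') z) * hu + (1 + deriv (ww h g ω ω') z) * hs

theorem kc4_hps (p : Pre K γ N Nb J ω h g ω' σ υ V₀ V₁) {r₁ r₂ : ℝ} (h1 : r₁ ≤ 4 * cr K / N)
    (h2 : r₂ ≤ 4 * cr K / N) (hw : ∀ z ∈ Strip r₁, z + ww h g ω ω' z ∈ Strip r₂) :
    HP r₁ (kY h g ω ω') ∧ HP r₁ (kZ h g ω ω') := by
  obtain ⟨hwhp, hshp⟩ := ww_hp p
  have hw1 := hp_mono hwhp h1
  have hs1 := hp_mono hshp h1
  have htb := p.ctx.tb
  have hw4 : ∀ z ∈ Strip r₁, z + ww h g ω ω' z ∈ Strip (4 * cr K / N) := fun z hz =>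
    kc4_strip (hw z hz) h2
  have hp1 : ∀ z, z + ω' + ww h g ω ω' (z + ω') =
      z + ww h g ω ω' z + ω + ss h g ω ω' z := by
    intro z
    unfold ss
    push_cast
    ring
  have X1 : HP r₁ (fun z => (z + ww h g ω ω' z) - z) := by
    have e : (fun z => (z + ww h g ω ω' z) - z) = ww h g ω ω' := by
      funext z
      ring
    rw [e]
    exact hw1
  have X2 : HP r₁ (fun z => (z + ww h g ω ω' z + ω) - z) := by
    have e : (fun z => (z + ww h g ω ω' z + (ω : ℂ)) - z) =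
        fun z => ww h g ω ω' z + (ω : ℂ) := by
      funext z
      ring
    rw [e]
    exact hp_add hw1 (hp_const _ ω)
  have X3 : HP r₁ (fun z => (z + ww h g ω ω' z + ω + ss h g ω ω' z) - z) := by
    have e : (fun z => (z + ww h g ω ω' z + (ω : ℂ) + ss h g ω ω' z) - z) =
        fun z => ww h g ω ω' z + (ω : ℂ) + ss h g ω ω' z := by
      funext z
      ring
    rw [e]
    exact hp_add (hp_add hw1 (hp_const _ ω)) hs1
  have A1 := hp_comp (hp_aa p.ctx) hw1 hw4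
  have U1 := hp_comp (uu_eq p).1 hw1 hw4
  have P1 := (hp_PPc htb.hol htb.per htb.rs p.ctx.gs.hp X1 X3 hw4 (by
    intro z hz
    have e := hw4 (z + ω') (kc4_add ω' hz)
    rw [hp1] at e
    exact e)).1
  have P2 := (hp_PPc htb.hol htb.per htb.rs p.ctx.gs.hp X1 X2 hw4 (by
    intro z hz
    exact kc4_add ω (hw4 z hz))).1
  have Xi : HP r₁ (kXi h g ω ω') := hp_sub (hp_sub P1 P2) (hp_mul A1 hs1)
  have Y1 : HP r₁ (kY1 h g ω ω') :=
    hp_add (hp_add (hp_sub U1 (hp_mono (uu_eq p).1 h1))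
      (hp_mul (hp_sub A1 (hp_mono (hp_aa p.ctx) h1)) hs1)) Xi
  have Yh : HP r₁ (kY h g ω ω') := by
    have e1 : HP r₁ (fun z => ((1 : ℝ) : ℂ) + deriv (ww h g ω ω') z) :=
      hp_add (hp_const _ 1) (hp_deriv hw1)
    have e2 := hp_mul e1 Y1
    have e3 : kY h g ω ω' = fun z => (((1 : ℝ) : ℂ) + deriv (ww h g ω ω') z) *
        kY1 h g ω ω' z := by
      funext z
      unfold kY
      push_cast
      ring
    rw [e3]
    exact e2
  refine ⟨Yh, ?_⟩
  have G1 : HP r₁ (fun z => gnew h g ω ω' z - z) := by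
    have e1 := hp_add (hp_comp p.ctx.gs.hp hw1 hw4) hw1
    have e2 : (fun z => gnew h g ω ω' z - z) =
        fun z => (g (z + ww h g ω ω' z) - (z + ww h g ω ω' z)) + ww h g ω ω' z := by
      funext z
      unfold gnew
      ring
    rw [e2]
    exact e1
  have I0 : HP r₁ (fun z : ℂ => z - z) := by
    have e : (fun z : ℂ => z - z) = fun _ => ((0 : ℝ) : ℂ) := by
      funext z
      simp
    rw [e]
    exact hp_const _ 0
  have I1 : HP r₁ (fun z : ℂ => (z + ω') - z) := by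
    have e : (fun z : ℂ => (z + (ω' : ℂ)) - z) = fun _ => (ω' : ℂ) := by
      funext z
      ring
    rw [e]
    exact hp_const _ ω'
  have I2 : HP r₁ (fun z : ℂ => (z - ω') - z) := by
    have e : (fun z : ℂ => (z - (ω' : ℂ)) - z) = fun _ => ((-ω' : ℝ) : ℂ) := by
      funext z
      push_cast
      ring
    rw [e]
    exact hp_const _ (-ω')
  have F1 := (hp_PPc htb.hol htb.per htb.rs G1 I0 I1 (fun z hz => hz)
    (fun z hz => kc4_add ω' hz)).1
  have F2 := (hp_PPc htb.hol htb.per htb.rs G1 I2 I0 (fun z hz => kc4_sub ω' hz)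
    (fun z hz => hz)).2
  have F3 : HP r₁ (FF h (gnew h g ω ω') ω') := hp_add F1 F2
  have Ym : HP r₁ (fun z => kY h g ω ω' (z - ω')) := by
    have e1 := hp_shift Yh (-ω')
    have e2 : (fun z => kY h g ω ω' (z - ω')) = fun z => kY h g ω ω' (z + ((-ω' : ℝ) : ℂ)) := by
      funext z
      push_cast
      rw [sub_eq_add_neg]
    rw [e2]
    exact e1
  exact hp_sub F3 (hp_sub Yh Ym)

/-- everything which is used from the context, in real numbers -/
theorem kc4_nums (p : Pre K γ N Nb J ω h g ω' σ υ V₀ V₁) :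
    0 < cr K ∧ cr K ≤ 1 / 10 ^ 4 ∧ 0 < N ∧ 1 ≤ Nb ∧ 0 < N * max N Nb ∧ Nb ≤ max N Nb ∧
      N ≤ max N Nb ∧ 1 / max N Nb ≤ ω := by
  have hK := p.ctx.K1
  have hN := p.ctx.N1
  have hNb := p.ctx.Nb1
  have hK4 : 1 ≤ K ^ 4 := one_le_pow₀ hK
  have hNb1 : 1 ≤ Nb := by nlinarith only [hNb, hK4]
  have hc : 0 < cr K := by
    unfold cr
    positivity
  have hΛ : 0 < max N Nb := lt_of_lt_of_le (by linarith) (le_max_left N Nb)
  refine ⟨hc, ?_, by linarith, hNb1, by positivity, le_max_right _ _, le_max_left _ _, ?_⟩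
  · unfold cr
    apply one_div_le_one_div_of_le (by norm_num)
    nlinarith only [hK4]
  · have h1 := p.ctx.lo
    rw [div_le_iff₀ hΛ]
    have hω : 0 < ω := by
      by_contra hneg
      push Not at hneg
      nlinarith only [hNb, hK4, h1, hneg]
    calc (1 : ℝ) ≤ ω * Nb := h1
      _ ≤ ω * max N Nb := by gcongr; exact le_max_right _ _

theorem kc4_main (p : Pre K γ N Nb J ω h g ω' σ υ V₀ V₁) {Cw Ca CP CD : ℝ} (hCw : 1 ≤ Cw)
    (hCa : 1 ≤ Ca) (hCP : 1 ≤ CP) (hCD : 1 ≤ CD)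
    (W0 : Bd (3 / 2 * cr K / N) (ww h g ω ω') (Cw * (υ + σ * V₀) / N))
    (W1 : Bd (3 / 2 * cr K / N) (deriv (ww h g ω ω')) (Cw * (υ + σ * V₁)))
    (S0 : Bd (2 * cr K / N) (ss h g ω ω') (Cw * (σ + υ) / (N * max N Nb)))
    (S1 : Bd (3 / 2 * cr K / N) (deriv (ss h g ω ω')) (Cw * (σ * (1 / N + J) + υ) / max N Nb))
    (A1 : Bd (4 * cr K / N) (deriv (aa h g ω)) (Ca / Nb * (1 + N * J)))
    (T : ∀ x s : ℂ, x ∈ Strip (4 * cr K / N) → x + ω + s ∈ Strip (4 * cr K / N) →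
      ‖s‖ ≤ ω / 100 →
      ‖PP h g x (x + ω + s) - PP h g x (x + ω) - BB h g x (x + ω) * s‖ ≤
        CP * (1 + N / Nb * J) * ‖s‖ ^ 2)
    (Dt : ∀ x s : ℂ, x ∈ Strip (3 * cr K / N) → x + ω + s ∈ Strip (3 * cr K / N) →
      ‖s‖ ≤ ω / 100 → ‖s‖ ≤ cr K / (4 * N) →
      ‖(PP h g x (x + ω + s) - PP h g x (x + ω) - BB h g x (x + ω) * s) +
        (RR h g x (x + ω + s) - RR h g (x + s) (x + ω + s) +
          BB h g (x + s) (x + ω + s) * s)‖ ≤
        CD / Nb * (1 + N * J) * ‖s‖ ^ 2 + CD * N * (1 + N / Nb) * ‖s‖ ^ 3)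
    {x₁ : ℝ} (hx : x₁ = cr K / (16 * Cw)) (hυ : υ ≤ x₁) (hσ : σ ≤ x₁) (hσ0 : σ * V₀ ≤ x₁)
    (hσ1 : σ * V₁ ≤ x₁) {C₁ C₂ Θ : ℝ} (hΘ : Θ = (1 + V₀) * (υ + σ) * (υ + J + 1 / N))
    (hC₁ : C₁ = 2 * Cw / cr K + 2 * Ca * Cw ^ 2 + 2 * CP * Cw ^ 2)
    (hC₂ : C₂ = 4 * Cw / cr K + 2 * Ca * Cw ^ 2 + 2 * CD * Cw ^ 2 + 8 * CD * Cw ^ 3) :
    (∀ z ∈ Strip (5 / 4 * cr K / N), z + ww h g ω ω' z ∈ Strip (11 / 8 * cr K / N)) ∧
    Bd (5 / 4 * cr K / N) (kY h g ω ω') (2 * C₁ * Θ / (Nb * N * max N Nb)) ∧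
    Bd (5 / 4 * cr K / N) (kZ h g ω ω') ((2 * C₂ + 4 * Cw * C₁) * Θ / (Nb * N * max N Nb ^ 2)) := by
  obtain ⟨hc, hc4, hN, hNb, hNΛ, hNbΛ, hNΛ', hω⟩ := kc4_nums p
  have hN1 := p.ctx.N1
  obtain ⟨hwhp, hshp⟩ := ww_hp p
  have hυ0 := p.υ0
  have hσp := p.σ0
  have hV := p.V00
  have hV1 := p.V10
  have hJ := p.ctx.J0
  have hJ1 := p.ctx.J1
  set Λ := max N Nb with hΛdef
  have hΛ : 0 < Λ := lt_of_lt_of_le hN hNΛ'
  have hΛ1 : 1 ≤ Λ := hN1.trans hNΛ'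
  have hNb0 : 0 < Nb := by linarith only [hc, hc4, hNb]
  have hCw0 : 0 < Cw := by linarith only [hCw, hc, hc4]
  have hCa0 : 0 < Ca := by linarith only [hCa, hc, hc4]
  have hCP0 : 0 < CP := by linarith only [hCP, hc, hc4]
  have hCD0 : 0 < CD := by linarith only [hCD, hc, hc4]
  have hi0 : 0 ≤ 1 / N := by positivity
  have hi1 : 1 / N ≤ 1 := by
    rw [div_le_one hN]
    exact hN1
  have hx16 : Cw * x₁ = cr K / 16 := by
    rw [hx]
    field_simp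
  have hx0 : 0 < x₁ := by
    rw [hx]
    positivity
  have hx1 : x₁ ≤ 1 := by nlinarith only [hCw, hυ, hc, hc4, hυ0, hx16]
  have h2 : σ + υ ≤ 2 := by linarith only [hυ, hσ, hx1]
  have hΘ0 : 0 ≤ Θ := by
    rw [hΘ]
    (clear * - hN hυ0 hσp hV hJ; positivity)
  -- size of `w`
  have hwsmall : Cw * (υ + σ * V₀) / N ≤ 1 / 8 * cr K / N := by
    apply div_le_div_of_nonneg_right _ hN.le
    nlinarith only [hCw, hυ, hσ0, hx16]
  have hw : ∀ z ∈ Strip (5 / 4 * cr K / N), z + ww h g ω ω' z ∈ Strip (11 / 8 * cr K / N) := by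
    intro z hz
    have e1 : z ∈ Strip (3 / 2 * cr K / N) := kc4_strip hz (kc4_fr (by norm_num) hc hN)
    have e2 := kc4_pert hz ((W0 z e1).trans hwsmall)
    have e3 : 5 / 4 * cr K / N + 1 / 8 * cr K / N = 11 / 8 * cr K / N := by ring
    rwa [e3] at e2
  have hssmall : Cw * (σ + υ) / (N * Λ) ≤ 1 / 8 * cr K / (N * Λ) := by
    apply div_le_div_of_nonneg_right _ hNΛ.le
    nlinarith only [hCw, hυ, hσ, hx16]
  have hsN : Cw * (σ + υ) / (N * Λ) ≤ cr K / (4 * N) := by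
    refine hssmall.trans ?_
    rw [div_le_div_iff₀ hNΛ (by positivity)]
    nlinarith only [mul_pos hc hN, mul_le_mul_of_nonneg_left hΛ1 (mul_pos hc hN).le, hc, hN, hΛ1]
  have hsω : Cw * (σ + υ) / (N * Λ) ≤ ω / 100 := by
    refine hssmall.trans ?_
    have e1 : 1 / 8 * cr K / (N * Λ) ≤ (1 / 100) * (1 / Λ) := by
      rw [div_mul_div_comm, div_le_div_iff₀ hNΛ (by positivity)]
      have e2 : Λ ≤ N * Λ := by nlinarith only [hN, hN1, hNΛ]
      have e3 : 1 / 8 * cr K * (100 * Λ) ≤ 1 * 1 * Λ := by nlinarith only [hCw, hυ, hc, hc4, hNb, hυ0, hNbΛ, hx16, hx0]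
      linarith only [e2, e3]
    linarith only [hω, e1]
  have sub32 : (11 / 8 * cr K / N) ≤ 3 / 2 * cr K / N := kc4_fr (by norm_num) hc hN
  have sub54 : (5 / 4 * cr K / N) ≤ 3 / 2 * cr K / N := kc4_fr (by norm_num) hc hN
  have sub2 : (3 / 2 * cr K / N) ≤ 2 * cr K / N := kc4_fr (by norm_num) hc hN
  have sub3 : (3 / 2 * cr K / N) ≤ 3 * cr K / N := kc4_fr (by norm_num) hc hN
  have sub4 : (3 / 2 * cr K / N) ≤ 4 * cr K / N := kc4_fr (by norm_num) hc hN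
  -- derivative of `u`
  have hU1 : Bd (3 / 2 * cr K / N) (deriv (uu h g ω ω'))
      (υ / (Nb * N * Λ) / (1 / 2 * cr K / N)) := by
    have e1 := bd_deriv (δ := 1 / 2 * cr K / N)
      (hp_mono (uu_eq p).1 (show 2 * cr K / N ≤ 4 * cr K / N from kc4_fr (by norm_num) hc hN))
      (by (clear * - hc hN; positivity)) p.bu
    have e2 : 2 * cr K / N - 1 / 2 * cr K / N = 3 / 2 * cr K / N := by ring
    rwa [e2] at e1
  have hUd : DifferentiableOn ℂ (uu h g ω ω') (Strip (3 / 2 * cr K / N)) :=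
    (hp_mono (uu_eq p).1 sub4).hol
  have hAd : DifferentiableOn ℂ (aa h g ω) (Strip (4 * cr K / N)) := (hp_aa p.ctx).hol
  -- `Y₁`
  have hY1 : ∀ z ∈ Strip (5 / 4 * cr K / N), ‖kY1 h g ω ω' z‖ ≤ C₁ * Θ / (Nb * N * Λ) := by
    intro z hz
    have hτ := hw z hz
    have hz32 := kc4_strip hz sub54
    have hτ32 := kc4_strip hτ sub32
    have hW := W0 z hz32
    have hS := S0 z (kc4_strip hz32 sub2)
    have hWn : ‖z + ww h g ω ω' z - z‖ ≤ Cw * (υ + σ * V₀) / N := by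
      rw [add_sub_cancel_left]
      exact hW
    have hS0 : ‖ss h g ω ω' z‖ ≤ ω / 100 := hS.trans hsω
    have b1 : ‖uu h g ω ω' (z + ww h g ω ω' z) - uu h g ω ω' z‖ ≤
        2 * Cw / cr K * Θ / (Nb * N * Λ) := by
      calc _ ≤ (υ / (Nb * N * Λ) / (1 / 2 * cr K / N)) * ‖z + ww h g ω ω' z - z‖ :=
            bd_lip hUd hU1 hτ32 hz32
        _ ≤ (υ / (Nb * N * Λ) / (1 / 2 * cr K / N)) * (Cw * (υ + σ * V₀) / N) := by gcongr
        _ = 2 * Cw / cr K * (υ * (υ + σ * V₀)) / (Nb * N * Λ) := by field_simp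
        _ ≤ _ := by
          rw [hΘ]
          have := kc4_r1 hυ0 hσp hV hJ hi0
          gcongr
    have b2 : ‖(aa h g ω (z + ww h g ω ω' z) - aa h g ω z) * ss h g ω ω' z‖ ≤
        2 * Ca * Cw ^ 2 * Θ / (Nb * N * Λ) := by
      rw [norm_mul]
      calc _ ≤ ((Ca / Nb * (1 + N * J)) * ‖z + ww h g ω ω' z - z‖) *
            (Cw * (σ + υ) / (N * Λ)) := by
            gcongr
            exact bd_lip hAd A1 (kc4_strip hτ32 sub4) (kc4_strip hz32 sub4)
        _ ≤ ((Ca / Nb * (1 + N * J)) * (Cw * (υ + σ * V₀) / N)) *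
            (Cw * (σ + υ) / (N * Λ)) := by gcongr
        _ = Ca * Cw ^ 2 * ((1 / N + J) * (υ + σ * V₀) * (σ + υ)) / (Nb * N * Λ) := by
            field_simp
        _ ≤ Ca * Cw ^ 2 * (2 * Θ) / (Nb * N * Λ) := by
            rw [hΘ]
            have := kc4_r2 hυ0 hσp hV hJ hi0 h2
            gcongr
        _ = _ := by ring
    have b3 : ‖kXi h g ω ω' z‖ ≤ 2 * CP * Cw ^ 2 * Θ / (Nb * N * Λ) := by
      have e1 := T (z + ww h g ω ω' z) (ss h g ω ω' z) (kc4_strip hτ32 sub4) (by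
        have e := hw (z + ω') (kc4_add ω' hz)
        have e' : z + ω' + ww h g ω ω' (z + ω') =
            z + ww h g ω ω' z + ω + ss h g ω ω' z := by
          unfold ss
          push_cast
          ring
        rw [e'] at e
        exact kc4_strip (kc4_strip e sub32) sub4) hS0
      calc _ ≤ CP * (1 + N / Nb * J) * ‖ss h g ω ω' z‖ ^ 2 := e1
        _ ≤ CP * (1 + N / Nb * J) * (Cw * (σ + υ) / (N * Λ)) ^ 2 := by gcongr
        _ = CP * Cw ^ 2 * ((Nb / Λ * (1 / N) + J / Λ) * (σ + υ) ^ 2) / (Nb * N * Λ) := by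
            field_simp
        _ ≤ CP * Cw ^ 2 * ((1 / N + J) * (σ + υ) ^ 2) / (Nb * N * Λ) := by
            have e2 : Nb / Λ ≤ 1 := by
              rw [div_le_one hΛ]
              exact hNbΛ
            have e3 : J / Λ ≤ J := div_le_self hJ hΛ1
            have e4 : Nb / Λ * (1 / N) ≤ 1 / N := by nlinarith only [hc, hc4, hi0, e2]
            gcongr
        _ ≤ CP * Cw ^ 2 * (2 * Θ) / (Nb * N * Λ) := by
            rw [hΘ]
            have := kc4_r3 hυ0 hσp hV hJ hi0 h2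
            gcongr
        _ = _ := by ring
    unfold kY1
    calc _ ≤ ‖uu h g ω ω' (z + ww h g ω ω' z) - uu h g ω ω' z +
          (aa h g ω (z + ww h g ω ω' z) - aa h g ω z) * ss h g ω ω' z‖ + ‖kXi h g ω ω' z‖ :=
          norm_add_le _ _
      _ ≤ (‖uu h g ω ω' (z + ww h g ω ω' z) - uu h g ω ω' z‖ +
          ‖(aa h g ω (z + ww h g ω ω' z) - aa h g ω z) * ss h g ω ω' z‖) +
            ‖kXi h g ω ω' z‖ := by
          gcongr
          exact norm_add_le _ _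
      _ ≤ (2 * Cw / cr K * Θ / (Nb * N * Λ) + 2 * Ca * Cw ^ 2 * Θ / (Nb * N * Λ)) +
          2 * CP * Cw ^ 2 * Θ / (Nb * N * Λ) := by gcongr
      _ = _ := by
          rw [hC₁]
          ring
  have hW1 : ∀ z ∈ Strip (5 / 4 * cr K / N), ‖1 + deriv (ww h g ω ω') z‖ ≤ 2 := by
    intro z hz
    have e1 := W1 z (kc4_strip hz sub54)
    have e2 : Cw * (υ + σ * V₁) ≤ 1 := by nlinarith only [hCw, hυ, hσ1, hc, hc4, hx16]
    calc _ ≤ ‖(1 : ℂ)‖ + ‖deriv (ww h g ω ω') z‖ := norm_add_le _ _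
      _ ≤ 1 + 1 := by
          rw [norm_one]
          gcongr
          exact e1.trans e2
      _ = 2 := by norm_num
  have hC₁0 : 0 ≤ C₁ := by
    rw [hC₁]
    (clear * - hCw hCa hCP hc; positivity)
  have hC₂0 : 0 ≤ C₂ := by
    rw [hC₂]
    (clear * - hCw hCa hCD hc; positivity)
  refine ⟨hw, ?_, ?_⟩
  · intro z hz
    unfold kY
    rw [norm_mul]
    calc _ ≤ 2 * (C₁ * Θ / (Nb * N * Λ)) := by
          gcongr
          · exact hW1 z hz
          · exact hY1 z hz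
      _ = _ := by ring
  · intro z hz
    rw [kZ_eq p (sub54.trans sub4) (sub32.trans sub4) hw hz]
    have hzm : z - ω' ∈ Strip (5 / 4 * cr K / N) := kc4_sub ω' hz
    have hτ := hw z hz
    have hτm := hw _ hzm
    have hz32 := kc4_strip hz sub54
    have hzm32 := kc4_strip hzm sub54
    have hτ32 := kc4_strip hτ sub32
    have hτm32 := kc4_strip hτm sub32
    have hS := S0 (z - ω') (kc4_strip hzm32 sub2)
    have hp2 : z - ω' + ww h g ω ω' (z - ω') + ω + ss h g ω ω' (z - ω') =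
        z + ww h g ω ω' z := by
      unfold ss
      rw [sub_add_cancel]
      push_cast
      ring
    have hp3 : z - ω' + ww h g ω ω' (z - ω') + ss h g ω ω' (z - ω') =
        z + ww h g ω ω' z - ω := by
      rw [← hp2]
      ring
    have b1 : ‖-(uu h g ω ω' (z + ww h g ω ω' z - ω') -
            uu h g ω ω' (z - ω' + ww h g ω ω' (z - ω')))‖ ≤
        4 * Cw / cr K * Θ / (Nb * N * Λ ^ 2) := by
      rw [norm_neg]
      have e1 : ‖z + ww h g ω ω' z - ω' - (z - ω' + ww h g ω ω' (z - ω'))‖ ≤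
          2 * Cw * (σ + υ) / (N * Λ) := by
        have e2 : z + ww h g ω ω' z - ω' - (z - ω' + ww h g ω ω' (z - ω')) =
            ss h g ω ω' (z - ω') - ((ω' - ω : ℝ) : ℂ) := by
          unfold ss
          rw [sub_add_cancel]
          ring
        rw [e2]
        have e3 : ‖((ω' - ω : ℝ) : ℂ)‖ ≤ Cw * (σ + υ) / (N * Λ) := by
          rw [Complex.norm_real]
          refine p.dom.trans ?_
          gcongr
          nlinarith only [hCw, hυ0, hσp]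
        calc _ ≤ ‖ss h g ω ω' (z - ω')‖ + ‖((ω' - ω : ℝ) : ℂ)‖ := norm_sub_le _ _
          _ ≤ Cw * (σ + υ) / (N * Λ) + Cw * (σ + υ) / (N * Λ) := by gcongr
          _ = _ := by ring
      calc _ ≤ (υ / (Nb * N * Λ) / (1 / 2 * cr K / N)) *
            ‖z + ww h g ω ω' z - ω' - (z - ω' + ww h g ω ω' (z - ω'))‖ :=
            bd_lip hUd hU1 (kc4_sub ω' hτ32) hτm32
        _ ≤ (υ / (Nb * N * Λ) / (1 / 2 * cr K / N)) * (2 * Cw * (σ + υ) / (N * Λ)) := by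
            gcongr
        _ = 4 * Cw / cr K * (υ * (σ + υ)) / (Nb * N * Λ ^ 2) := by
            field_simp
            ring
        _ ≤ _ := by
          rw [hΘ]
          have := kc4_r5 hυ0 hσp hV hJ hi0
          gcongr
    have b2 : ‖(aa h g ω (z + ww h g ω ω' z - ω) -
            aa h g ω (z - ω' + ww h g ω ω' (z - ω'))) * ss h g ω ω' (z - ω')‖ ≤
        2 * Ca * Cw ^ 2 * Θ / (Nb * N * Λ ^ 2) := by
      rw [norm_mul]
      have e1 : z + ww h g ω ω' z - ω - (z - ω' + ww h g ω ω' (z - ω')) =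
          ss h g ω ω' (z - ω') := by
        rw [← hp3]
        ring
      have e2 := bd_lip hAd A1 (kc4_strip (kc4_sub ω hτ32) sub4) (kc4_strip hτm32 sub4)
      rw [e1] at e2
      calc _ ≤ ((Ca / Nb * (1 + N * J)) * ‖ss h g ω ω' (z - ω')‖) *
            (Cw * (σ + υ) / (N * Λ)) := by gcongr
        _ ≤ ((Ca / Nb * (1 + N * J)) * (Cw * (σ + υ) / (N * Λ))) *
            (Cw * (σ + υ) / (N * Λ)) := by gcongr
        _ = Ca * Cw ^ 2 * ((1 / N + J) * (σ + υ) ^ 2) / (Nb * N * Λ ^ 2) := by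
            field_simp
        _ ≤ Ca * Cw ^ 2 * (2 * Θ) / (Nb * N * Λ ^ 2) := by
            rw [hΘ]
            have := kc4_r3 hυ0 hσp hV hJ hi0 h2
            gcongr
        _ = _ := by ring
    have b3 : ‖kXi h g ω ω' (z - ω') +
            (RR h g (z - ω' + ww h g ω ω' (z - ω')) (z + ww h g ω ω' z) -
              RR h g (z + ww h g ω ω' z - ω) (z + ww h g ω ω' z) +
              aa h g ω (z + ww h g ω ω' z - ω) * ss h g ω ω' (z - ω'))‖ ≤
        (2 * CD * Cw ^ 2 + 8 * CD * Cw ^ 3) * Θ / (Nb * N * Λ ^ 2) := by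
      have e1 := Dt (z - ω' + ww h g ω ω' (z - ω')) (ss h g ω ω' (z - ω'))
        (kc4_strip hτm32 sub3) (by
          rw [hp2]
          exact kc4_strip hτ32 sub3) (hS.trans hsω) (hS.trans hsN)
      have e2 : kXi h g ω ω' (z - ω') =
          PP h g (z - ω' + ww h g ω ω' (z - ω')) (z - ω' + ww h g ω ω' (z - ω') + ω +
            ss h g ω ω' (z - ω')) -
          PP h g (z - ω' + ww h g ω ω' (z - ω')) (z - ω' + ww h g ω ω' (z - ω') + ω) -
          BB h g (z - ω' + ww h g ω ω' (z - ω')) (z - ω' + ww h g ω ω' (z - ω') + ω) *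
            ss h g ω ω' (z - ω') := rfl
      have e3 : aa h g ω (z + ww h g ω ω' z - ω) =
          BB h g (z + ww h g ω ω' z - ω) (z + ww h g ω ω' z) := by
        unfold aa
        rw [sub_add_cancel]
      rw [← e2, hp2, hp3, ← e3] at e1
      calc _ ≤ CD / Nb * (1 + N * J) * ‖ss h g ω ω' (z - ω')‖ ^ 2 +
            CD * N * (1 + N / Nb) * ‖ss h g ω ω' (z - ω')‖ ^ 3 := e1
        _ ≤ CD / Nb * (1 + N * J) * (Cw * (σ + υ) / (N * Λ)) ^ 2 +
            CD * N * (1 + N / Nb) * (Cw * (σ + υ) / (N * Λ)) ^ 3 := by gcongr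
        _ = CD * Cw ^ 2 * ((1 / N + J) * (σ + υ) ^ 2) / (Nb * N * Λ ^ 2) +
            CD * Cw ^ 3 * ((Nb / Λ + N / Λ) * ((1 / N) * (σ + υ) ^ 3)) / (Nb * N * Λ ^ 2) := by
            field_simp
        _ ≤ CD * Cw ^ 2 * (2 * Θ) / (Nb * N * Λ ^ 2) +
            CD * Cw ^ 3 * ((1 + 1) * (4 * Θ)) / (Nb * N * Λ ^ 2) := by
            rw [hΘ]
            have f1 := kc4_r3 hυ0 hσp hV hJ hi0 h2
            have f2 := kc4_r4 hυ0 hσp hV hJ hi0 h2
            have f3 : Nb / Λ ≤ 1 := by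
              rw [div_le_one hΛ]
              exact hNbΛ
            have f4 : N / Λ ≤ 1 := by
              rw [div_le_one hΛ]
              exact hNΛ'
            gcongr
        _ = _ := by ring
    have b4 : ‖deriv (ss h g ω ω') (z - ω') * kY1 h g ω ω' (z - ω')‖ ≤
        4 * Cw * C₁ * Θ / (Nb * N * Λ ^ 2) := by
      rw [norm_mul]
      have e1 : ‖deriv (ss h g ω ω') (z - ω')‖ ≤ 4 * Cw / Λ := by
        refine (S1 _ hzm32).trans ?_
        apply div_le_div_of_nonneg_right _ hΛ.le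
        have e2 : σ * (1 / N + J) + υ ≤ 4 := by nlinarith only [hCw, hυ, hσ, hc, hc4, hυ0, hJ, hJ1, hi0, hi1, hx16, hx0]
        nlinarith only [hCw, e2]
      calc _ ≤ 4 * Cw / Λ * (C₁ * Θ / (Nb * N * Λ)) := by
            gcongr
            exact hY1 _ hzm
        _ = _ := by
            field_simp
    calc _ ≤ ‖(1 + deriv (ww h g ω ω') z) *
        (-(uu h g ω ω' (z + ww h g ω ω' z - ω') -
            uu h g ω ω' (z - ω' + ww h g ω ω' (z - ω'))) -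
          (aa h g ω (z + ww h g ω ω' z - ω) -
            aa h g ω (z - ω' + ww h g ω ω' (z - ω'))) * ss h g ω ω' (z - ω') +
          (kXi h g ω ω' (z - ω') +
            (RR h g (z - ω' + ww h g ω ω' (z - ω')) (z + ww h g ω ω' z) -
              RR h g (z + ww h g ω ω' z - ω) (z + ww h g ω ω' z) +
              aa h g ω (z + ww h g ω ω' z - ω) * ss h g ω ω' (z - ω'))))‖ +
        ‖deriv (ss h g ω ω') (z - ω') * kY1 h g ω ω' (z - ω')‖ := norm_sub_le _ _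
      _ ≤ 2 * (4 * Cw / cr K * Θ / (Nb * N * Λ ^ 2) + 2 * Ca * Cw ^ 2 * Θ / (Nb * N * Λ ^ 2) +
          (2 * CD * Cw ^ 2 + 8 * CD * Cw ^ 3) * Θ / (Nb * N * Λ ^ 2)) +
          4 * Cw * C₁ * Θ / (Nb * N * Λ ^ 2) := by
          refine add_le_add ?_ b4
          rw [norm_mul]
          refine mul_le_mul (hW1 z hz) ?_ (norm_nonneg _) (by norm_num)
          refine (norm_add_le _ _).trans (add_le_add ?_ b3)
          exact (norm_sub_le _ _).trans (add_le_add b1 b2)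
      _ = _ := by
          rw [hC₂]
          ring

end pieces

theorem new_error (K γ : ℝ) : ∃ C x₁ : ℝ, 1 ≤ C ∧ 0 < x₁ ∧ x₁ ≤ 1 ∧
    ∀ {N Nb J ω : ℝ} {h g : ℂ → ℂ} {ω' σ υ V₀ V₁ : ℝ}, Pre K γ N Nb J ω h g ω' σ υ V₀ V₁ →
      υ ≤ x₁ → σ ≤ x₁ → σ * V₀ ≤ x₁ → σ * V₁ ≤ x₁ →
      ∃ Y Z : ℂ → ℂ, HP (5 / 4 * cr K / N) Y ∧ HP (5 / 4 * cr K / N) Z ∧
        (∀ z ∈ Strip (5 / 4 * cr K / N),
          FF h (gnew h g ω ω') ω' z = Y z - Y (z - ω') + Z z) ∧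
        Bd (5 / 4 * cr K / N) Y
          (C * ((1 + V₀) * (υ + σ) * (υ + J + 1 / N)) / (Nb * N * max N Nb)) ∧
        Bd (5 / 4 * cr K / N) Z
          (C * ((1 + V₀) * (υ + σ) * (υ + J + 1 / N)) / (Nb * N * max N Nb ^ 2)) := by
  by_cases hK : 1 ≤ K
  swap
  · exact ⟨1, 1, le_rfl, one_pos, le_rfl, fun p => absurd p.ctx.K1 hK⟩
  obtain ⟨Cw, hCw, HW⟩ := ww_bounds K γ
  obtain ⟨Ca, hCa, HA⟩ := aa_bounds K
  obtain ⟨CP, hCP, HP'⟩ := PP_taylor K
  obtain ⟨CD, hCD, HD⟩ := diag_taylor K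
  have hc : 0 < cr K := by
    unfold cr
    have : 0 < K := by linarith
    positivity
  have hc4 : cr K ≤ 1 := by
    unfold cr
    have hK4 : 1 ≤ K ^ 4 := one_le_pow₀ hK
    rw [div_le_one (by positivity)]
    nlinarith only [hK4]
  set C₁ := 2 * Cw / cr K + 2 * Ca * Cw ^ 2 + 2 * CP * Cw ^ 2 with hC₁
  set C₂ := 4 * Cw / cr K + 2 * Ca * Cw ^ 2 + 2 * CD * Cw ^ 2 + 8 * CD * Cw ^ 3 with hC₂
  have hCw0 : 0 < Cw := by linarith only [hCw]
  have hCa0 : 0 < Ca := by linarith only [hCa]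
  have hCP0 : 0 < CP := by linarith only [hCP]
  have hCD0 : 0 < CD := by linarith only [hCD]
  have hC₁0 : 1 ≤ C₁ := by
    have e1 : 1 ≤ Cw ^ 2 := one_le_pow₀ hCw
    have e2 : 0 ≤ 2 * Cw / cr K := by positivity
    have e3 : 0 ≤ 2 * Ca * Cw ^ 2 := by positivity
    have e4 : 1 ≤ 2 * CP * Cw ^ 2 := by nlinarith only [hCP, e1]
    linarith only [e2, e3, e4]
  have hC₂0 : 0 ≤ C₂ := by positivity
  refine ⟨2 * C₁ + (2 * C₂ + 4 * Cw * C₁), cr K / (16 * Cw), ?_, by positivity, ?_, ?_⟩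
  · have : 0 ≤ 4 * Cw * C₁ := by positivity
    linarith only [hC₁0, hC₂0, this]
  · rw [div_le_one (by positivity)]
    linarith only [hCw, hc4]
  intro N Nb J ω h g ω' σ υ V₀ V₁ p hυ hσ hσ0 hσ1
  obtain ⟨W0, W1, _, S0, S1, _⟩ := HW p
  obtain ⟨m1, m2, m3⟩ := kc4_main p hCw hCa hCP hCD W0 W1 S0 S1 (HA p.ctx).2.2.2.2.2 (HP' p.ctx)
    (HD p.ctx) rfl hυ hσ hσ0 hσ1 rfl hC₁ hC₂
  obtain ⟨_, _, hN, hNb, hNΛ, hNbΛ, hNΛ', hω⟩ := kc4_nums p
  have hΛ : 0 < max N Nb := lt_of_lt_of_le hN hNΛ'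
  have hNb0 : 0 < Nb := by linarith
  have hυ0 := p.υ0
  have hσp := p.σ0
  have hV := p.V00
  have hJ := p.ctx.J0
  have hi0 : 0 ≤ 1 / N := by positivity
  obtain ⟨h1, h2⟩ := kc4_hps p (r₁ := 5 / 4 * cr K / N) (r₂ := 11 / 8 * cr K / N)
    (kc4_fr (by norm_num) hc hN) (kc4_fr (by norm_num) hc hN) m1
  refine ⟨kY h g ω ω', kZ h g ω ω', h1, h2, fun z _ => ?_, fun z hz => (m2 z hz).trans ?_,
    fun z hz => (m3 z hz).trans ?_⟩
  · unfold kZ
    ring
  · have e1 := mul_nonneg hCw0.le (by linarith : (0 : ℝ) ≤ C₁)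
    have e2 : 2 * C₁ ≤ 2 * C₁ + (2 * C₂ + 4 * Cw * C₁) := by nlinarith only [hC₂0, e1]
    gcongr
  · have e2 : 2 * C₂ + 4 * Cw * C₁ ≤ 2 * C₁ + (2 * C₂ + 4 * Cw * C₁) := by linarith
    gcongr

end Pool.Agent.MP_b87ea9_an.Kam
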