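import Mathlib
import Pool.Agent.Lib.MP_b87ea9_an.KDefs
import Pool.Agent.Lib.MP_b87ea9_an.KDefs2
import Pool.Agent.Lib.MP_b87ea9_an.KDefs3
import Pool.Agent.Lib.MP_b87ea9_an.KC3

set_option autoImplicit false

/-! The new family of lines -/

namespace Pool.Agent.MP_b87ea9_an.Kam

open Real MeasureTheory

namespace NL

lemma smono {r r' : ℝ} (h : r ≤ r') {z : ℂ} (hz : z ∈ Strip r) : z ∈ Strip r' :=
  lt_of_lt_of_le (show |z.im| < r from hz) h

lemma sreal {r : ℝ} {z : ℂ} (hz : z ∈ Strip r) (a : ℝ) : z + a ∈ Strip r := by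
  show |(z + a).im| < r
  rw [Complex.add_im, Complex.ofReal_im, add_zero]
  exact hz

lemma sadd {r e : ℝ} {z u : ℂ} (hz : z ∈ Strip r) (hu : ‖u‖ ≤ e) : z + u ∈ Strip (r + e) := by
  show |(z + u).im| < r + e
  rw [Complex.add_im]
  have h1 : |z.im| < r := hz
  have h2 := (Complex.abs_im_le_norm u).trans hu
  exact lt_of_le_of_lt (abs_add_le _ _) (add_lt_add_of_lt_of_le h1 h2)

lemma sofReal {r : ℝ} (hr : 0 < r) (t : ℝ) : (t : ℂ) ∈ Strip r := by
  show |((t : ℂ)).im| < r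
  rw [Complex.ofReal_im, abs_zero]
  exact hr

lemma dAt {r : ℝ} {f : ℂ → ℂ} (hf : DifferentiableOn ℂ f (Strip r)) {z : ℂ} (hz : z ∈ Strip r) :
    HasDerivAt f (deriv f z) z :=
  ((hf z hz).differentiableAt ((isOpen_strip r).mem_nhds hz)).hasDerivAt

lemma dderiv {r : ℝ} {f : ℂ → ℂ} (hf : DifferentiableOn ℂ f (Strip r)) :
    DifferentiableOn ℂ (deriv f) (Strip r) := hf.deriv (isOpen_strip r)

/-- Cauchy estimate without periodicity -/
lemma cauchy {r δ M : ℝ} {f : ℂ → ℂ} (hf : DifferentiableOn ℂ f (Strip r)) (hδ : 0 < δ)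
    (hM : Bd r f M) : Bd (r - δ) (deriv f) (M / δ) := by
  intro z hz
  have hz' : |z.im| < r - δ := hz
  have hsub : Metric.closedBall z δ ⊆ Strip r := by
    intro y hy
    rw [Metric.mem_closedBall, dist_eq_norm] at hy
    have h1 := sadd hz hy
    rw [sub_add_cancel, add_sub_cancel] at h1
    exact h1
  apply Complex.norm_deriv_le_of_forall_mem_sphere_norm_le hδ
  · exact (hf.mono hsub).diffContOnCl_ball subset_rfl
  · intro y hy
    exact hM y (hsub (Metric.sphere_subset_closedBall hy))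

/-- the data of one step, abstractly -/
structure St (r K G2 a0 a1 a2 b0 b1 b2 : ℝ) (ω ω' : ℝ) (g w s : ℂ → ℂ) : Prop where
  r0 : 0 < r
  K1 : 1 ≤ K
  gd : DifferentiableOn ℂ g (Strip (4 * r))
  g1 : Bd (4 * r) (deriv g) (2 * K)
  g2 : Bd (4 * r) (deriv (deriv g)) G2
  gl : ∀ z ∈ Strip (4 * r), 1 / (2 * K) ≤ (deriv g z).re
  wd : DifferentiableOn ℂ w (Strip (4 * r))
  w0 : Bd (3 / 2 * r) w a0
  w1 : Bd (3 / 2 * r) (deriv w) a1
  w2 : Bd (5 / 4 * r) (deriv (deriv w)) a2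
  seq : ∀ z, s z = ((ω' - ω : ℝ) : ℂ) + w (z + ω') - w z
  s0 : Bd (2 * r) s b0
  s1 : Bd (3 / 2 * r) (deriv s) b1
  s2 : Bd (5 / 4 * r) (deriv (deriv s)) b2
  ha0 : a0 ≤ r / 4
  ha1 : a1 ≤ 1 / 2
  hb0 : b0 ≤ r / 4

namespace St

variable {r K G2 a0 a1 a2 b0 b1 b2 ω ω' : ℝ} {g w s : ℂ → ℂ}

lemma zero_mem {r' : ℝ} (hr : 0 < r') : (0 : ℂ) ∈ Strip r' := by
  have := sofReal hr 0
  rwa [Complex.ofReal_zero] at this

lemma nn {r' M : ℝ} {f : ℂ → ℂ} (hr : 0 < r') (hf : Bd r' f M) : 0 ≤ M :=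
  (norm_nonneg _).trans (hf 0 (zero_mem hr))

lemma a00 (S : St r K G2 a0 a1 a2 b0 b1 b2 ω ω' g w s) : 0 ≤ a0 :=
  nn (by have := S.r0; linarith only [this]) S.w0
lemma a10 (S : St r K G2 a0 a1 a2 b0 b1 b2 ω ω' g w s) : 0 ≤ a1 :=
  nn (by have := S.r0; linarith only [this]) S.w1
lemma a20 (S : St r K G2 a0 a1 a2 b0 b1 b2 ω ω' g w s) : 0 ≤ a2 :=
  nn (by have := S.r0; linarith only [this]) S.w2
lemma b00 (S : St r K G2 a0 a1 a2 b0 b1 b2 ω ω' g w s) : 0 ≤ b0 :=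
  nn (by have := S.r0; linarith only [this]) S.s0
lemma b10 (S : St r K G2 a0 a1 a2 b0 b1 b2 ω ω' g w s) : 0 ≤ b1 :=
  nn (by have := S.r0; linarith only [this]) S.s1
lemma b20 (S : St r K G2 a0 a1 a2 b0 b1 b2 ω ω' g w s) : 0 ≤ b2 :=
  nn (by have := S.r0; linarith only [this]) S.s2
lemma G20 (S : St r K G2 a0 a1 a2 b0 b1 b2 ω ω' g w s) : 0 ≤ G2 :=
  nn (by have := S.r0; linarith only [this]) S.g2

lemma tau (S : St r K G2 a0 a1 a2 b0 b1 b2 ω ω' g w s) {z : ℂ} (hz : z ∈ Strip (3 / 2 * r)) :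
    z + w z ∈ Strip (2 * r) := by
  have h1 := sadd hz (S.w0 z hz)
  exact smono (by have := S.ha0; have := S.r0; linarith) h1

/-- derivative of the new family -/
lemma hd (S : St r K G2 a0 a1 a2 b0 b1 b2 ω ω' g w s) {z : ℂ} (hz : z ∈ Strip (3 / 2 * r)) :
    HasDerivAt (fun z => g (z + w z)) (deriv g (z + w z) * (1 + deriv w z)) z := by
  have r0 := S.r0
  have h1 : HasDerivAt (fun z => z + w z) (1 + deriv w z) z :=
    (hasDerivAt_id z).add (dAt S.wd (smono (by linarith only [r0]) hz))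
  exact (dAt S.gd (smono (by linarith only [r0]) (S.tau hz))).comp z h1

lemma d1 (S : St r K G2 a0 a1 a2 b0 b1 b2 ω ω' g w s) {z : ℂ} (hz : z ∈ Strip (3 / 2 * r)) :
    deriv (fun z => g (z + w z)) z = deriv g (z + w z) * (1 + deriv w z) := (S.hd hz).deriv

lemma d2 (S : St r K G2 a0 a1 a2 b0 b1 b2 ω ω' g w s) {z : ℂ} (hz : z ∈ Strip (3 / 2 * r)) :
    deriv (deriv (fun z => g (z + w z))) z =
      deriv (deriv g) (z + w z) * (1 + deriv w z) ^ 2 + deriv g (z + w z) * deriv (deriv w) z := by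
  have r0 := S.r0
  have h0 : deriv (fun z => g (z + w z)) =ᶠ[nhds z] fun z => deriv g (z + w z) * (1 + deriv w z) := by
    filter_upwards [(isOpen_strip (3 / 2 * r)).mem_nhds hz] with y hy
    exact S.d1 hy
  rw [h0.deriv_eq]
  have hz4 : z ∈ Strip (4 * r) := smono (by linarith only [r0]) hz
  have h1 : HasDerivAt (fun z => z + w z) (1 + deriv w z) z :=
    (hasDerivAt_id z).add (dAt S.wd hz4)
  have h2' : HasDerivAt (deriv g) (deriv (deriv g) (z + w z)) (z + w z) :=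
    dAt (dderiv S.gd) (smono (by linarith only [r0]) (S.tau hz))
  have h2 : HasDerivAt (fun z => deriv g (z + w z)) (deriv (deriv g) (z + w z) * (1 + deriv w z)) z :=
    HasDerivAt.comp (h₂ := deriv g) (h := fun z => z + w z) z h2' h1
  have h3 : HasDerivAt (fun z => 1 + deriv w z) (deriv (deriv w) z) z :=
    (dAt (dderiv S.wd) hz4).const_add 1
  have h4 : HasDerivAt (fun z => deriv g (z + w z) * (1 + deriv w z))
      (deriv (deriv g) (z + w z) * (1 + deriv w z) * (1 + deriv w z) +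
        deriv g (z + w z) * deriv (deriv w) z) z := h2.mul h3
  rw [h4.deriv]
  ring

lemma ds (S : St r K G2 a0 a1 a2 b0 b1 b2 ω ω' g w s) {z : ℂ} (hz : z ∈ Strip (4 * r)) :
    deriv s z = deriv w (z + ω') - deriv w z := by
  have h1 : HasDerivAt (fun z => w (z + ω')) (deriv w (z + ω')) z :=
    (dAt S.wd (sreal hz ω')).comp_add_const z _
  have h2 := (h1.const_add ((ω' - ω : ℝ) : ℂ)).sub (dAt S.wd hz)
  have h3 : s = fun z => ((ω' - ω : ℝ) : ℂ) + w (z + ω') - w z := funext S.seq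
  rw [h3]
  exact h2.deriv

lemma dds (S : St r K G2 a0 a1 a2 b0 b1 b2 ω ω' g w s) {z : ℂ} (hz : z ∈ Strip (4 * r)) :
    deriv (deriv s) z = deriv (deriv w) (z + ω') - deriv (deriv w) z := by
  have h0 : deriv s =ᶠ[nhds z] fun z => deriv w (z + ω') - deriv w z := by
    filter_upwards [(isOpen_strip (4 * r)).mem_nhds hz] with y hy
    exact S.ds hy
  rw [h0.deriv_eq]
  have h1 : HasDerivAt (fun z => deriv w (z + ω')) (deriv (deriv w) (z + ω')) z :=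
    (dAt (dderiv S.wd) (sreal hz ω')).comp_add_const z _
  exact (h1.sub (dAt (dderiv S.wd) hz)).deriv

/-- `z + ω' + w (z + ω') = τ + ω + s` -/
lemma tau_next (S : St r K G2 a0 a1 a2 b0 b1 b2 ω ω' g w s) (z : ℂ) :
    z + ω' + w (z + ω') = z + w z + ω + s z := by
  rw [S.seq]
  push_cast
  ring

lemma norm_one_add {u : ℂ} {a : ℝ} (hu : ‖u‖ ≤ a) : ‖1 + u‖ ≤ 1 + a :=
  (norm_add_le _ _).trans (by rw [norm_one]; exact add_le_add le_rfl hu)

lemma norm_one_add_ge {u : ℂ} {a : ℝ} (hu : ‖u‖ ≤ a) : 1 - a ≤ ‖1 + u‖ := by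
  have h1 : ‖(1 : ℂ)‖ - ‖-u‖ ≤ ‖1 - (-u)‖ := norm_sub_norm_le 1 (-u)
  rw [norm_one, norm_neg, sub_neg_eq_add] at h1
  linarith only [h1, hu]

lemma bdd2 (S : St r K G2 a0 a1 a2 b0 b1 b2 ω ω' g w s) :
    Bd (5 / 4 * r) (deriv (deriv (fun z => g (z + w z)))) (G2 * (1 + a1) ^ 2 + 2 * K * a2) := by
  intro z hz
  have r0 := S.r0
  have hz' : z ∈ Strip (3 / 2 * r) := smono (by linarith only [r0]) hz
  have hτ : z + w z ∈ Strip (4 * r) := smono (by linarith only [r0]) (S.tau hz')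
  rw [S.d2 hz']
  have G0 := S.G20
  have A0 := S.a20
  have hK := S.K1
  calc _ ≤ ‖deriv (deriv g) (z + w z) * (1 + deriv w z) ^ 2‖ +
        ‖deriv g (z + w z) * deriv (deriv w) z‖ := norm_add_le _ _
    _ = ‖deriv (deriv g) (z + w z)‖ * ‖1 + deriv w z‖ ^ 2 +
        ‖deriv g (z + w z)‖ * ‖deriv (deriv w) z‖ := by rw [norm_mul, norm_mul, norm_pow]
    _ ≤ G2 * (1 + a1) ^ 2 + 2 * K * a2 :=
        add_le_add (mul_le_mul (S.g2 _ hτ)
          (pow_le_pow_left₀ (norm_nonneg _) (norm_one_add (S.w1 z hz')) 2)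
          (pow_nonneg (norm_nonneg _) 2) G0)
          (mul_le_mul (S.g1 _ hτ) (S.w2 z hz) (norm_nonneg _)
            ((norm_nonneg _).trans (S.g1 _ hτ)))

/-- difference of the first derivative -/
lemma diff1 (S : St r K G2 a0 a1 a2 b0 b1 b2 ω ω' g w s) {z : ℂ} (hz : z ∈ Strip (3 / 2 * r)) {D : ℝ}
    (hD : ‖deriv g (z + w z + ω) - deriv g (z + w z)‖ ≤ D) :
    ‖deriv (fun z => g (z + w z)) (z + ω') - deriv (fun z => g (z + w z)) z‖ ≤
      G2 * b0 * (1 + a1) + D * (1 + a1) + 2 * K * b1 := by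
  have r0 := S.r0
  have hb0 := S.hb0
  have hτ : z + w z ∈ Strip (2 * r) := S.tau hz
  have hτω : z + w z + ω ∈ Strip (2 * r) := sreal hτ ω
  have hs : ‖s z‖ ≤ b0 := S.s0 z (smono (by linarith only [r0]) hz)
  have hτs : z + w z + ω + s z ∈ Strip (4 * r) := smono (by linarith only [r0, hb0]) (sadd hτω hs)
  have hz' : z + ω' ∈ Strip (3 / 2 * r) := sreal hz ω'
  rw [S.d1 hz', S.d1 hz, S.tau_next]
  have e : deriv g (z + w z + ω + s z) * (1 + deriv w (z + ω')) -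
      deriv g (z + w z) * (1 + deriv w z) =
      (deriv g (z + w z + ω + s z) - deriv g (z + w z + ω)) * (1 + deriv w (z + ω')) +
      (deriv g (z + w z + ω) - deriv g (z + w z)) * (1 + deriv w (z + ω')) +
      deriv g (z + w z) * deriv s z := by
    rw [S.ds (smono (by linarith only [r0]) hz)]
    ring
  rw [e]
  have hD0 : 0 ≤ D := (norm_nonneg _).trans hD
  have G0 := S.G20
  have A1 := S.a10
  have B0 := S.b00
  have hK := S.K1
  have h1 : ‖deriv g (z + w z + ω + s z) - deriv g (z + w z + ω)‖ ≤ G2 * b0 := by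
    have := bd_lip (dderiv S.gd) S.g2 hτs (smono (by linarith only [r0]) hτω)
    rw [add_sub_cancel_left] at this
    exact this.trans (mul_le_mul_of_nonneg_left hs G0)
  have h2 : ‖1 + deriv w (z + ω')‖ ≤ 1 + a1 := norm_one_add (S.w1 _ hz')
  calc _ ≤ ‖(deriv g (z + w z + ω + s z) - deriv g (z + w z + ω)) * (1 + deriv w (z + ω'))‖ +
      ‖(deriv g (z + w z + ω) - deriv g (z + w z)) * (1 + deriv w (z + ω'))‖ +
      ‖deriv g (z + w z) * deriv s z‖ := norm_add₃_le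
    _ = ‖deriv g (z + w z + ω + s z) - deriv g (z + w z + ω)‖ * ‖1 + deriv w (z + ω')‖ +
      ‖deriv g (z + w z + ω) - deriv g (z + w z)‖ * ‖1 + deriv w (z + ω')‖ +
      ‖deriv g (z + w z)‖ * ‖deriv s z‖ := by rw [norm_mul, norm_mul, norm_mul]
    _ ≤ _ :=
        add_le_add (add_le_add
          (mul_le_mul h1 h2 (norm_nonneg _) (mul_nonneg G0 B0))
          (mul_le_mul hD h2 (norm_nonneg _) hD0))
          (mul_le_mul (S.g1 _ (smono (by linarith only [r0]) hτ)) (S.s1 z hz) (norm_nonneg _)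
            (by linarith only [hK]))

/-- the quotient `g''/g'` -/
lemma Rbd (S : St r K G2 a0 a1 a2 b0 b1 b2 ω ω' g w s) {z : ℂ} (hz : z ∈ Strip (4 * r)) :
    ‖deriv (deriv g) z / deriv g z‖ ≤ 2 * K * G2 := by
  have hK := S.K1
  have G0 := S.G20
  have h1 : 1 / (2 * K) ≤ ‖deriv g z‖ := (S.gl z hz).trans (Complex.re_le_norm _)
  have h2 : 0 < 1 / (2 * K) := one_div_pos.mpr (by linarith only [hK])
  rw [norm_div]
  calc _ ≤ G2 / (1 / (2 * K)) := div_le_div₀ G0 (S.g2 z hz) h2 h1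
    _ = 2 * K * G2 := by rw [div_div_eq_mul_div, div_one, mul_comm]

lemma gne (S : St r K G2 a0 a1 a2 b0 b1 b2 ω ω' g w s) {z : ℂ} (hz : z ∈ Strip (4 * r)) :
    deriv g z ≠ 0 := by
  have hK := S.K1
  intro h0
  have h1 := S.gl z hz
  rw [h0, Complex.zero_re] at h1
  exact absurd h1 (not_le.mpr (one_div_pos.mpr (by linarith only [hK])))

lemma Rder (S : St r K G2 a0 a1 a2 b0 b1 b2 ω ω' g w s) :
    Bd (3 * r) (deriv (fun z => deriv (deriv g) z / deriv g z)) (2 * K * G2 / r + (2 * K * G2) ^ 2) := by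
  intro z hz
  have r0 := S.r0
  have hK := S.K1
  have G0 := S.G20
  have hz4 : z ∈ Strip (4 * r) := smono (by linarith only [r0]) hz
  have h3 : HasDerivAt (deriv (deriv g)) (deriv (deriv (deriv g)) z) z :=
    dAt (dderiv (dderiv S.gd)) hz4
  have h2 : HasDerivAt (deriv g) (deriv (deriv g) z) z := dAt (dderiv S.gd) hz4
  have hne := S.gne hz4
  have h4 : HasDerivAt (fun z => deriv (deriv g) z / deriv g z)
      ((deriv (deriv (deriv g)) z * deriv g z - deriv (deriv g) z * deriv (deriv g) z) /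
        deriv g z ^ 2) z := h3.div h2 hne
  rw [h4.deriv]
  have e : (deriv (deriv (deriv g)) z * deriv g z - deriv (deriv g) z * deriv (deriv g) z) /
        deriv g z ^ 2 = deriv (deriv (deriv g)) z / deriv g z -
          (deriv (deriv g) z / deriv g z) ^ 2 := by
    rw [sub_div, pow_two, mul_div_mul_right _ _ hne, div_pow, pow_two, pow_two]
  rw [e]
  have h5 : ‖deriv (deriv (deriv g)) z‖ ≤ G2 / r := by
    have := cauchy (dderiv (dderiv S.gd)) r0 S.g2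
    exact this z (smono (by linarith only [r0]) hz)
  have h6 : 1 / (2 * K) ≤ ‖deriv g z‖ := (S.gl z hz4).trans (Complex.re_le_norm _)
  calc _ ≤ ‖deriv (deriv (deriv g)) z / deriv g z‖ + ‖(deriv (deriv g) z / deriv g z) ^ 2‖ :=
        norm_sub_le _ _
    _ ≤ G2 / r / (1 / (2 * K)) + (2 * K * G2) ^ 2 := by
        rw [norm_div, norm_pow]
        exact add_le_add (div_le_div₀ (div_nonneg G0 r0.le) h5
          (one_div_pos.mpr (by linarith only [hK])) h6)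
          (pow_le_pow_left₀ (norm_nonneg _) (S.Rbd hz4) 2)
    _ = _ := by rw [div_div_eq_mul_div, div_one, mul_comm, mul_div_assoc]

/-- difference of the logarithmic second derivative -/
lemma diff2 (S : St r K G2 a0 a1 a2 b0 b1 b2 ω ω' g w s) {z : ℂ} (hz : z ∈ Strip (5 / 4 * r)) {D : ℝ}
    (hD : ‖deriv (deriv g) (z + w z + ω) / deriv g (z + w z + ω) -
      deriv (deriv g) (z + w z) / deriv g (z + w z)‖ ≤ D) :
    ‖deriv (deriv (fun z => g (z + w z))) (z + ω') / deriv (fun z => g (z + w z)) (z + ω') -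
      deriv (deriv (fun z => g (z + w z))) z / deriv (fun z => g (z + w z)) z‖ ≤
      (2 * K * G2 / r + (2 * K * G2) ^ 2) * b0 * (1 + a1) + D * (1 + a1) + 2 * K * G2 * b1 +
        (2 * b2 + 4 * a2 * b1) := by
  have r0 := S.r0
  have hb0 := S.hb0
  have hz3 : z ∈ Strip (3 / 2 * r) := smono (by linarith only [r0]) hz
  have hz4 : z ∈ Strip (4 * r) := smono (by linarith only [r0]) hz
  have hτ : z + w z ∈ Strip (2 * r) := S.tau hz3
  have hτω : z + w z + ω ∈ Strip (2 * r) := sreal hτ ω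
  have hs : ‖s z‖ ≤ b0 := S.s0 z (smono (by linarith only [r0]) hz)
  have hτs : z + w z + ω + s z ∈ Strip (3 * r) := smono (by linarith only [r0, hb0]) (sadd hτω hs)
  have hz' : z + ω' ∈ Strip (3 / 2 * r) := sreal hz3 ω'
  have hz5 : z + ω' ∈ Strip (5 / 4 * r) := sreal hz ω'
  have A1 := S.a10
  have ha1 := S.ha1
  have B0 := S.b00
  have B1 := S.b10
  have hK := S.K1
  have G0 := S.G20
  have n1 : ‖deriv w z‖ ≤ a1 := S.w1 z hz3
  have n2 : ‖deriv w (z + ω')‖ ≤ a1 := S.w1 _ hz'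
  have q1 : 1 / 2 ≤ ‖1 + deriv w z‖ := by
    have := norm_one_add_ge n1; linarith only [this, ha1]
  have q2 : 1 / 2 ≤ ‖1 + deriv w (z + ω')‖ := by
    have := norm_one_add_ge n2; linarith only [this, ha1]
  have p1 : 1 + deriv w z ≠ 0 := by
    intro h0; rw [h0, norm_zero] at q1; linarith only [q1]
  have p2 : 1 + deriv w (z + ω') ≠ 0 := by
    intro h0; rw [h0, norm_zero] at q2; linarith only [q2]
  have g1' : deriv g (z + w z) ≠ 0 := S.gne (smono (by linarith only [r0]) hτ)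
  have g2' : deriv g (z + w z + ω + s z) ≠ 0 := S.gne (smono (by linarith only [r0]) hτs)
  rw [S.d2 hz', S.d2 hz3, S.d1 hz', S.d1 hz3, S.tau_next]
  set R : ℂ → ℂ := fun z => deriv (deriv g) z / deriv g z with hR
  have e1 : ∀ A B u v : ℂ, B ≠ 0 → u ≠ 0 → (A * u ^ 2 + B * v) / (B * u) = A / B * u + v / u := by
    intro A B u v hB hu
    field_simp
  rw [e1 _ _ _ _ g2' p2, e1 _ _ _ _ g1' p1]
  have e2 : deriv (deriv g) (z + w z + ω + s z) / deriv g (z + w z + ω + s z) * (1 + deriv w (z + ω')) +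
      deriv (deriv w) (z + ω') / (1 + deriv w (z + ω')) -
      (deriv (deriv g) (z + w z) / deriv g (z + w z) * (1 + deriv w z) +
        deriv (deriv w) z / (1 + deriv w z)) =
      (R (z + w z + ω + s z) - R (z + w z + ω)) * (1 + deriv w (z + ω')) +
      (R (z + w z + ω) - R (z + w z)) * (1 + deriv w (z + ω')) +
      R (z + w z) * deriv s z +
      (deriv (deriv s) z / (1 + deriv w (z + ω')) -
        deriv (deriv w) z * deriv s z / ((1 + deriv w (z + ω')) * (1 + deriv w z))) := by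
    rw [S.ds hz4, S.dds hz4]
    simp only [hR]
    field_simp
    ring
  rw [e2]
  have hRd : DifferentiableOn ℂ R (Strip (3 * r)) := by
    intro y hy
    have hy4 : y ∈ Strip (4 * r) := smono (by linarith only [r0]) hy
    exact ((dAt (dderiv (dderiv S.gd)) hy4).differentiableAt.div
      (dAt (dderiv S.gd) hy4).differentiableAt (S.gne hy4)).differentiableWithinAt
  have t1 : ‖R (z + w z + ω + s z) - R (z + w z + ω)‖ ≤ (2 * K * G2 / r + (2 * K * G2) ^ 2) * b0 := by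
    have := bd_lip hRd S.Rder hτs (smono (by linarith only [r0]) hτω)
    rw [add_sub_cancel_left] at this
    exact this.trans (mul_le_mul_of_nonneg_left hs (add_nonneg
      (div_nonneg (mul_nonneg (mul_nonneg zero_le_two (zero_le_one.trans hK)) G0) r0.le)
      (sq_nonneg _)))
  have hD0 : 0 ≤ D := (norm_nonneg _).trans hD
  have t2 : ‖1 + deriv w (z + ω')‖ ≤ 1 + a1 := norm_one_add n2
  have t3 : ‖deriv (deriv s) z / (1 + deriv w (z + ω'))‖ ≤ 2 * b2 := by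
    rw [norm_div]
    refine (div_le_div₀ S.b20 (S.s2 z hz) one_half_pos q2).trans (le_of_eq ?_)
    rw [div_div_eq_mul_div, div_one, mul_comm]
  have t4 : ‖deriv (deriv w) z * deriv s z / ((1 + deriv w (z + ω')) * (1 + deriv w z))‖ ≤
      4 * a2 * b1 := by
    rw [norm_div, norm_mul, norm_mul]
    have A2 := S.a20
    refine (div_le_div₀ (mul_nonneg A2 B1)
      (mul_le_mul (S.w2 z hz) (S.s1 z hz3) (norm_nonneg _) A2)
      (mul_pos one_half_pos one_half_pos)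
      (mul_le_mul q2 q1 one_half_pos.le (norm_nonneg _))).trans (le_of_eq ?_)
    ring
  calc _ ≤ ‖(R (z + w z + ω + s z) - R (z + w z + ω)) * (1 + deriv w (z + ω')) +
      (R (z + w z + ω) - R (z + w z)) * (1 + deriv w (z + ω')) +
      R (z + w z) * deriv s z‖ + ‖deriv (deriv s) z / (1 + deriv w (z + ω')) -
        deriv (deriv w) z * deriv s z / ((1 + deriv w (z + ω')) * (1 + deriv w z))‖ :=
        norm_add_le _ _
    _ ≤ (‖(R (z + w z + ω + s z) - R (z + w z + ω)) * (1 + deriv w (z + ω'))‖ +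
      ‖(R (z + w z + ω) - R (z + w z)) * (1 + deriv w (z + ω'))‖ +
      ‖R (z + w z) * deriv s z‖) + (‖deriv (deriv s) z / (1 + deriv w (z + ω'))‖ +
        ‖deriv (deriv w) z * deriv s z / ((1 + deriv w (z + ω')) * (1 + deriv w z))‖) :=
        add_le_add norm_add₃_le (norm_sub_le _ _)
    _ ≤ _ := by
        rw [norm_mul, norm_mul, norm_mul]
        exact add_le_add (add_le_add (add_le_add
          (mul_le_mul t1 t2 (norm_nonneg _) ((norm_nonneg _).trans t1))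
          (mul_le_mul hD t2 (norm_nonneg _) hD0))
          (mul_le_mul (S.Rbd (smono (by linarith only [r0]) hτ)) (S.s1 z hz3) (norm_nonneg _)
            (mul_nonneg (mul_nonneg zero_le_two (zero_le_one.trans hK)) G0)))
          (add_le_add t3 t4)

/-- telescoping differences -/
lemma tel (S : St r K G2 a0 a1 a2 b0 b1 b2 ω ω' g w s) {z : ℂ} (hz : z ∈ Strip (5 / 4 * r)) :
    ‖g (z + w z) - g z‖ ≤ 2 * K * a0 ∧
    ‖g (z + ω' + w (z + ω')) - g (z + ω)‖ ≤ 2 * K * (|ω' - ω| + a0) ∧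
    ‖deriv (fun z => g (z + w z)) z - deriv g z‖ ≤ G2 * a0 + 2 * K * a1 ∧
    ‖deriv (fun z => g (z + w z)) (z + ω') - deriv g (z + ω)‖ ≤
      G2 * (|ω' - ω| + a0) + 2 * K * a1 ∧
    ‖(g (z + ω' + w (z + ω')) - g (z + w z)) - (g (z + ω) - g z)‖ ≤
      2 * K * b0 + G2 * |ω| * a0 := by
  have r0 := S.r0
  have hb0 := S.hb0
  have ha0 := S.ha0
  have A0 := S.a00
  have A1 := S.a10
  have hK := S.K1
  have G0 := S.G20
  have hz3 : z ∈ Strip (3 / 2 * r) := smono (by linarith only [r0]) hz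
  have hz4 : z ∈ Strip (4 * r) := smono (by linarith only [r0]) hz
  have hτ : z + w z ∈ Strip (2 * r) := S.tau hz3
  have hτ4 : z + w z ∈ Strip (4 * r) := smono (by linarith only [r0]) hτ
  have hτω : z + w z + ω ∈ Strip (2 * r) := sreal hτ ω
  have hs : ‖s z‖ ≤ b0 := S.s0 z (smono (by linarith only [r0]) hz)
  have hτs : z + w z + ω + s z ∈ Strip (4 * r) := smono (by linarith only [r0, hb0]) (sadd hτω hs)
  have hz' : z + ω' ∈ Strip (3 / 2 * r) := sreal hz3 ω'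
  have hzω : z + ω ∈ Strip (4 * r) := sreal hz4 ω
  have hτ' : z + ω' + w (z + ω') ∈ Strip (4 * r) := smono (by linarith only [r0]) (S.tau hz')
  have n0 : ‖w z‖ ≤ a0 := S.w0 z hz3
  have n0' : ‖w (z + ω')‖ ≤ a0 := S.w0 _ hz'
  have dist : ‖z + ω' + w (z + ω') - (z + ω)‖ ≤ |ω' - ω| + a0 := by
    have e : z + ω' + w (z + ω') - (z + ω) = ((ω' - ω : ℝ) : ℂ) + w (z + ω') := by push_cast; ring
    rw [e]
    refine (norm_add_le _ _).trans ?_
    rw [Complex.norm_real, Real.norm_eq_abs]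
    exact add_le_add le_rfl n0'
  have K2 : 0 ≤ 2 * K := mul_nonneg zero_le_two (zero_le_one.trans hK)
  refine ⟨?_, ?_, ?_, ?_, ?_⟩
  · have := bd_lip S.gd S.g1 hτ4 hz4
    rw [add_sub_cancel_left] at this
    exact this.trans (mul_le_mul_of_nonneg_left n0 K2)
  · exact (bd_lip S.gd S.g1 hτ' hzω).trans (mul_le_mul_of_nonneg_left dist K2)
  · rw [S.d1 hz3]
    have e : deriv g (z + w z) * (1 + deriv w z) - deriv g z =
        (deriv g (z + w z) - deriv g z) + deriv g (z + w z) * deriv w z := by ring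
    rw [e]
    have h1 := bd_lip (dderiv S.gd) S.g2 hτ4 hz4
    rw [add_sub_cancel_left] at h1
    refine (norm_add_le _ _).trans ?_
    rw [norm_mul]
    exact add_le_add (h1.trans (mul_le_mul_of_nonneg_left n0 G0))
      (mul_le_mul (S.g1 _ hτ4) (S.w1 z hz3) (norm_nonneg _) K2)
  · rw [S.d1 hz']
    have e : deriv g (z + ω' + w (z + ω')) * (1 + deriv w (z + ω')) - deriv g (z + ω) =
        (deriv g (z + ω' + w (z + ω')) - deriv g (z + ω)) +
          deriv g (z + ω' + w (z + ω')) * deriv w (z + ω') := by ring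
    rw [e]
    have h1 := bd_lip (dderiv S.gd) S.g2 hτ' hzω
    refine (norm_add_le _ _).trans ?_
    rw [norm_mul]
    exact add_le_add (h1.trans (mul_le_mul_of_nonneg_left dist G0))
      (mul_le_mul (S.g1 _ hτ') (S.w1 _ hz') (norm_nonneg _) K2)
  · rw [S.tau_next]
    have e : g (z + w z + ω + s z) - g (z + w z) - (g (z + ω) - g z) =
        (g (z + w z + ω + s z) - g (z + w z + ω)) +
        ((fun y => g (y + ω) - g y) (z + w z) - (fun y => g (y + ω) - g y) z) := by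
      simp only
      ring
    rw [e]
    have h1 := bd_lip S.gd S.g1 hτs (smono (by linarith only [r0]) hτω)
    rw [add_sub_cancel_left] at h1
    have hder : ∀ y ∈ Strip (4 * r), HasDerivAt (fun y => g (y + ω) - g y)
        (deriv g (y + ω) - deriv g y) y := by
      intro y hy
      exact ((dAt S.gd (sreal hy ω)).comp_add_const y _).sub (dAt S.gd hy)
    have h2 : Bd (4 * r) (deriv (fun y => g (y + ω) - g y)) (G2 * |ω|) := by
      intro y hy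
      rw [(hder y hy).deriv]
      have := bd_lip (dderiv S.gd) S.g2 (sreal hy ω) hy
      rw [add_sub_cancel_left, Complex.norm_real, Real.norm_eq_abs] at this
      exact this
    have h3 : DifferentiableOn ℂ (fun y => g (y + ω) - g y) (Strip (4 * r)) :=
      fun y hy => (hder y hy).differentiableAt.differentiableWithinAt
    have h4 := bd_lip h3 h2 hτ4 hz4
    rw [add_sub_cancel_left] at h4
    refine (norm_add_le _ _).trans ?_
    exact add_le_add (h1.trans (mul_le_mul_of_nonneg_left hs K2))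
      (h4.trans (mul_le_mul_of_nonneg_left n0 (mul_nonneg G0 (abs_nonneg _))))

end St

lemma rq1 {C0 c a b : ℝ} (hC0 : 0 < C0) (ha : a ≤ c / (8 * C0)) (hb : b ≤ c / (8 * C0)) :
    C0 * (a + b) ≤ c / 4 := by
  have h8 : 0 < 8 * C0 := mul_pos (by norm_num) hC0
  have h1 := (le_div_iff₀ h8).mp ha
  have h2 := (le_div_iff₀ h8).mp hb
  linarith only [h1, h2]

lemma rq2 {a c N : ℝ} (N0 : 0 < N) (h : a ≤ c / 4) : a / N ≤ c / N / 4 := by
  rw [div_right_comm c N 4]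
  exact div_le_div_of_nonneg_right h N0.le

lemma rq3 {a c N Λ : ℝ} (N0 : 0 < N) (hΛ : 1 ≤ Λ) (h : a ≤ c / 4) (ha : 0 ≤ a) :
    a / (N * Λ) ≤ c / N / 4 :=
  le_trans (div_le_div_of_nonneg_left ha N0 (le_mul_of_one_le_right N0.le hΛ)) (rq2 N0 h)

lemma rq4 {K N J C C0 x : ℝ} (N0 : 0 ≤ N) (J0 : 0 ≤ J) (C00 : 0 ≤ C0) (hx : 0 ≤ x)
    (x1 : C0 * x ≤ 1 / 2) (h3 : 3 * C0 ≤ C) (h4 : 2 * (C0 * K) ≤ C) :
    N * J * (1 + C0 * x) ^ 2 + 2 * K * (C0 * N * x) ≤ N * ((1 + C * x) * J + C * x) := by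
  have h20 : 0 ≤ C0 * x := mul_nonneg C00 hx
  have h21 : (C0 * x) * (C0 * x) ≤ 1 / 2 * (C0 * x) := mul_le_mul_of_nonneg_right x1 h20
  have h31 := mul_le_mul_of_nonneg_right h3 hx
  have h41 := mul_le_mul_of_nonneg_right h4 hx
  have h2 : (1 + C0 * x) ^ 2 ≤ 1 + C * x := by
    rw [add_sq]
    linarith only [h20, h21, h31]
  have h5 := mul_le_mul_of_nonneg_right h2 J0
  have h6 : (1 + C0 * x) ^ 2 * J + 2 * (C0 * K) * x ≤ (1 + C * x) * J + C * x := add_le_add h5 h41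
  have h7 := mul_le_mul_of_nonneg_left h6 N0
  refine le_trans (le_of_eq ?_) h7
  ring

/-- the basic bound on `σ (1/N + J) + υ` -/
lemma rq5 {N J σ υ : ℝ} (N1 : 1 ≤ N) (J1 : J ≤ 1) (σ0 : 0 ≤ σ) (υ0 : 0 ≤ υ) :
    σ * (1 / N + J) + υ ≤ 2 * (σ + υ) := by
  have N0 : 0 < N := lt_of_lt_of_le one_pos N1
  have hi1 : 1 / N ≤ 1 := (div_le_one N0).mpr N1
  have h1 := mul_le_mul_of_nonneg_left (add_le_add hi1 J1) σ0
  linarith only [h1, υ0]

lemma rq6 {K N J C C0 σ υ x D Λ : ℝ} (N1 : 1 ≤ N) (K0 : 0 ≤ K) (J0 : 0 ≤ J) (J1 : J ≤ 1)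
    (C00 : 0 ≤ C0) (σ0 : 0 ≤ σ) (υ0 : 0 ≤ υ) (x0 : 0 ≤ x) (x1 : C0 * x ≤ 1 / 2) (D0 : 0 ≤ D)
    (Λ0 : 0 < Λ) (hC : C0 ≤ C) (hC' : 2 * C0 + 4 * (C0 * K) ≤ C) :
    N * J * (C0 * (σ + υ) / (N * Λ)) * (1 + C0 * x) + D * (1 + C0 * x) +
      2 * K * (C0 * (σ * (1 / N + J) + υ) / Λ) ≤ (1 + C * x) * D + C * (σ + υ) / Λ := by
  have N0 : 0 < N := lt_of_lt_of_le one_pos N1
  have e1 : N * J * (C0 * (σ + υ) / (N * Λ)) = J * (C0 * (σ + υ)) / Λ := by
    rw [mul_assoc, ← mul_div_assoc, ← mul_div_assoc, mul_div_mul_left _ _ N0.ne']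
  have su : 0 ≤ σ + υ := add_nonneg σ0 υ0
  have csu : 0 ≤ C0 * (σ + υ) := mul_nonneg C00 su
  have hp : 0 ≤ 1 + C0 * x := add_nonneg zero_le_one (mul_nonneg C00 x0)
  have h1 : J * (C0 * (σ + υ)) * (1 + C0 * x) ≤ (C0 * (σ + υ)) * 2 :=
    mul_le_mul (mul_le_of_le_one_left csu J1) (by linarith only [x1]) hp csu
  have h2 : 2 * K * (C0 * (σ * (1 / N + J) + υ)) ≤ 2 * K * (C0 * (2 * (σ + υ))) :=
    mul_le_mul_of_nonneg_left (mul_le_mul_of_nonneg_left (rq5 N1 J1 σ0 υ0) C00)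
      (mul_nonneg zero_le_two K0)
  have h3 := mul_le_mul_of_nonneg_right hC' su
  have h4 : (J * (C0 * (σ + υ)) * (1 + C0 * x) + 2 * K * (C0 * (σ * (1 / N + J) + υ))) / Λ ≤
      C * (σ + υ) / Λ := div_le_div_of_nonneg_right (by linarith only [h1, h2, h3]) Λ0.le
  have h5 := mul_le_mul_of_nonneg_left (mul_le_mul_of_nonneg_right hC x0) D0
  rw [add_div, mul_div_assoc (2 * K), mul_div_right_comm, ← e1] at h4
  linarith only [h4, h5]

lemma rq7 {K N J C0 L σ υ x Λ c : ℝ} (N0 : 0 < N) (K0 : 0 ≤ K) (J0 : 0 ≤ J) (J1 : J ≤ 1)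
    (C00 : 0 ≤ C0) (σ0 : 0 ≤ σ) (υ0 : 0 ≤ υ) (σ1 : σ ≤ 1) (υ1 : υ ≤ 1) (x0 : 0 ≤ x)
    (x1 : C0 * x ≤ 1 / 2) (Λ0 : 0 < Λ) (hΛ : N ≤ Λ) (c0 : 0 < c) (hL : L = K / c + 4 * K ^ 2) :
    (2 * K * (N * J) / (c / N) + (2 * K * (N * J)) ^ 2) * (C0 * (σ + υ) / (N * Λ)) *
        (1 + C0 * x) ≤ 8 * C0 * L * J := by
  have e : (2 * K * (N * J) / (c / N) + (2 * K * (N * J)) ^ 2) * (C0 * (σ + υ) / (N * Λ)) *
      (1 + C0 * x) = (2 * (K / c) + 4 * K ^ 2 * J) * (N / Λ) * (C0 * (σ + υ)) * (1 + C0 * x) * J := by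
    field_simp
    ring
  rw [e]
  have k1 : 0 ≤ K / c := div_nonneg K0 c0.le
  have k2 : 0 ≤ 4 * K ^ 2 := mul_nonneg (by norm_num) (sq_nonneg K)
  have h4 : 2 * (K / c) + 4 * K ^ 2 * J ≤ 2 * L := by
    have h41 := mul_le_of_le_one_right k2 J1
    linarith only [hL, h41, k2]
  have L0 : 0 ≤ 2 * L := by linarith only [hL, k1, k2]
  have hNΛ : N / Λ ≤ 1 := (div_le_one Λ0).mpr hΛ
  have h5 : (2 * (K / c) + 4 * K ^ 2 * J) * (N / Λ) ≤ 2 * L * 1 :=
    mul_le_mul h4 hNΛ (div_nonneg N0.le Λ0.le) L0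
  have h6 : C0 * (σ + υ) ≤ C0 * 2 := mul_le_mul_of_nonneg_left (by linarith only [σ1, υ1]) C00
  have h7 : (2 * (K / c) + 4 * K ^ 2 * J) * (N / Λ) * (C0 * (σ + υ)) ≤ 2 * L * 1 * (C0 * 2) :=
    mul_le_mul h5 h6 (mul_nonneg C00 (add_nonneg σ0 υ0)) (by linarith only [L0])
  have L1 : 0 ≤ 2 * L * 1 * (C0 * 2) := mul_nonneg (by linarith only [L0]) (by linarith only [C00])
  have h8 := mul_le_mul h7 (by linarith only [x1] : 1 + C0 * x ≤ 2)
    (add_nonneg zero_le_one (mul_nonneg C00 x0)) L1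
  refine (mul_le_mul_of_nonneg_right h8 J0).trans (le_of_eq ?_)
  ring

lemma rq8 {K N J C C0 L σ υ x T Λ c : ℝ} (N1 : 1 ≤ N) (K0 : 0 ≤ K) (J0 : 0 ≤ J) (J1 : J ≤ 1)
    (C00 : 0 ≤ C0) (σ0 : 0 ≤ σ) (υ0 : 0 ≤ υ) (σ1 : σ ≤ 1) (υ1 : υ ≤ 1) (x0 : 0 ≤ x)
    (x1 : C0 * x ≤ 1 / 2) (Λ0 : 0 < Λ) (hΛ : N ≤ Λ) (c0 : 0 < c) (hL : L = K / c + 4 * K ^ 2)
    (T0 : 0 ≤ T) (hC : C0 ≤ C) (hC' : 8 * (C0 * L) + 6 * (C0 * K) + 4 * C0 ≤ C) :
    (2 * K * (N * J) / (c / N) + (2 * K * (N * J)) ^ 2) * (C0 * (σ + υ) / (N * Λ)) *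
        (1 + C0 * x) + T * (1 + C0 * x) + 2 * K * (N * J) * (C0 * (σ * (1 / N + J) + υ) / Λ) +
      (2 * (C0 * N * (σ * (1 / N + J) + υ) / Λ) +
        4 * (C0 * N * x) * (C0 * (σ * (1 / N + J) + υ) / Λ)) ≤
    (1 + C * x) * T + C * (υ + J + 1 / N) := by
  have N0 : 0 < N := lt_of_lt_of_le one_pos N1
  have h3 := rq7 N0 K0 J0 J1 C00 σ0 υ0 σ1 υ1 x0 x1 Λ0 hΛ c0 hL
  have hN1 : 1 / N ≤ 1 := (div_le_one N0).mpr N1
  have hN2 : 0 ≤ 1 / N := (one_div_pos.mpr N0).le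
  have hNΛ : N / Λ ≤ 1 := (div_le_one Λ0).mpr hΛ
  have hNΛ0 : 0 ≤ N / Λ := div_nonneg N0.le Λ0.le
  have hB : σ * (1 / N + J) + υ ≤ υ + J + 1 / N := by
    have hB1 := mul_le_of_le_one_left (add_nonneg hN2 J0) σ1
    linarith only [hB1]
  have hA0 : 0 ≤ σ * (1 / N + J) + υ := add_nonneg (mul_nonneg σ0 (add_nonneg hN2 J0)) υ0
  have hB0 : 0 ≤ υ + J + 1 / N := hA0.trans hB
  generalize hA : σ * (1 / N + J) + υ = A at *
  generalize hBB : υ + J + 1 / N = B at *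
  have hKC : 0 ≤ K * C0 := mul_nonneg K0 C00
  -- `N / Λ * A ≤ B`
  have m1 : N / Λ * A ≤ B := (mul_le_of_le_one_left hA0 hNΛ).trans hB
  have m0 : 0 ≤ N / Λ * A := mul_nonneg hNΛ0 hA0
  have m3 : N / Λ * A ≤ 3 := m1.trans (by linarith only [hBB, υ1, J1, hN1])
  have h5 : 2 * K * (N * J) * (C0 * A / Λ) ≤ 6 * (K * C0 * J) := by
    have e : 2 * K * (N * J) * (C0 * A / Λ) = 2 * (K * C0 * J) * (N / Λ * A) := by ring
    rw [e]
    have := mul_le_mul_of_nonneg_left m3 (mul_nonneg zero_le_two (mul_nonneg hKC J0))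
    linarith only [this]
  have h6 : 2 * (C0 * N * A / Λ) ≤ 2 * (C0 * B) := by
    have e : 2 * (C0 * N * A / Λ) = 2 * (C0 * (N / Λ * A)) := by ring
    rw [e]
    exact mul_le_mul_of_nonneg_left (mul_le_mul_of_nonneg_left m1 C00) zero_le_two
  have h7 : 4 * (C0 * N * x) * (C0 * A / Λ) ≤ 2 * (C0 * B) := by
    have e : 4 * (C0 * N * x) * (C0 * A / Λ) = 4 * ((C0 * x) * (C0 * (N / Λ * A))) := by ring
    rw [e]
    have := mul_le_mul x1 (mul_le_mul_of_nonneg_left m1 C00) (mul_nonneg C00 m0) (by norm_num)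
    linarith only [this]
  have L0 : 0 ≤ L := by
    rw [hL]
    exact add_nonneg (div_nonneg K0 c0.le) (mul_nonneg (by norm_num) (sq_nonneg K))
  have a1 : J ≤ B := by linarith only [hBB, υ0, hN2]
  have h8 : 8 * (C0 * L * J) ≤ 8 * (C0 * L * B) :=
    mul_le_mul_of_nonneg_left (mul_le_mul_of_nonneg_left a1 (mul_nonneg C00 L0)) (by norm_num)
  have h9 : 6 * (K * C0 * J) ≤ 6 * (K * C0 * B) :=
    mul_le_mul_of_nonneg_left (mul_le_mul_of_nonneg_left a1 hKC) (by norm_num)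
  have h10 := mul_le_mul_of_nonneg_right hC' hB0
  have h11 := mul_le_mul_of_nonneg_left (mul_le_mul_of_nonneg_right hC x0) T0
  linarith only [h3, h5, h6, h7, h8, h9, h10, h11]

/-- first of the telescoping bounds -/
lemma rt1 {K N C C0 y : ℝ} (N0 : 0 < N) (y0 : 0 ≤ y) (a1 : 2 * K * C0 ≤ C) :
    2 * K * (C0 * y / N) ≤ C * y / N := by
  rw [← mul_div_assoc, ← mul_assoc]
  exact div_le_div_of_nonneg_right (mul_le_mul_of_nonneg_right a1 y0) N0.le

lemma rt2 {K N C C0 y s d : ℝ} (N0 : 0 < N) (K0 : 0 ≤ K) (y0 : 0 ≤ y) (s0 : 0 ≤ s)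
    (a1 : 2 * K * C0 ≤ C) (a3 : 2 * K ≤ C) (hd : d ≤ s / N) :
    2 * K * (d + C0 * y / N) ≤ C * (y + s) / N := by
  have h1 : 2 * K * d ≤ 2 * K * (s / N) := mul_le_mul_of_nonneg_left hd (mul_nonneg zero_le_two K0)
  have h2 : 2 * K * (s / N) ≤ C * (s / N) := mul_le_mul_of_nonneg_right a3 (div_nonneg s0 N0.le)
  have h3 := rt1 N0 y0 a1
  rw [mul_add, mul_add, add_div, mul_div_assoc C s N]
  linarith only [h1, h2, h3]

lemma rt3 {K N J C C0 u v w : ℝ} (N0 : 0 < N) (K0 : 0 ≤ K) (J1 : J ≤ 1)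
    (C00 : 0 ≤ C0) (u0 : 0 ≤ u) (v0 : 0 ≤ v) (w0 : 0 ≤ w) (a2 : C0 + 2 * K * C0 ≤ C) :
    N * J * (C0 * (u + v) / N) + 2 * K * (C0 * (u + w)) ≤ C * (u + v + w) := by
  have e : N * J * (C0 * (u + v) / N) = J * (C0 * (u + v)) := by
    rw [mul_assoc, mul_left_comm, mul_div_cancel₀ _ N0.ne']
  rw [e]
  have uv : 0 ≤ C0 * (u + v) := mul_nonneg C00 (add_nonneg u0 v0)
  have h1 := mul_le_of_le_one_left uv J1
  have h2 : 0 ≤ C0 * w := mul_nonneg C00 w0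
  have h3 : 0 ≤ K * (C0 * v) := mul_nonneg K0 (mul_nonneg C00 v0)
  have h4 := mul_le_mul_of_nonneg_right a2 (add_nonneg (add_nonneg u0 v0) w0)
  linarith only [h1, h2, h3, h4]

lemma rt4 {K N J C C0 u v w s d : ℝ} (N0 : 0 < N) (K0 : 0 ≤ K) (J0 : 0 ≤ J) (J1 : J ≤ 1)
    (C00 : 0 ≤ C0) (u0 : 0 ≤ u) (v0 : 0 ≤ v) (w0 : 0 ≤ w) (s0 : 0 ≤ s)
    (a2 : C0 + 2 * K * C0 ≤ C) (a4 : 1 ≤ C) (hd : d ≤ s / N) :
    N * J * (d + C0 * (u + v) / N) + 2 * K * (C0 * (u + w)) ≤ C * (u + v + w + s) := by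
  have h1 := rt3 N0 K0 J1 C00 u0 v0 w0 a2
  have h2 : N * J * d ≤ N * J * (s / N) := mul_le_mul_of_nonneg_left hd (mul_nonneg N0.le J0)
  have h3 : N * J * (s / N) = J * s := by
    rw [mul_assoc, mul_left_comm, mul_div_cancel₀ _ N0.ne']
  have h4 : J * s ≤ s := mul_le_of_le_one_left s0 J1
  have h5 : s ≤ C * s := le_mul_of_one_le_left s0 a4
  rw [mul_add (N * J), mul_add C (u + v + w)]
  linarith only [h1, h2, h3, h4, h5]

lemma rt5 {K N Nb J C C0 σ υ v Λ ω : ℝ} (N1 : 1 ≤ N) (Nb0 : 0 < Nb) (ΛNb : Nb ≤ Λ) (K0 : 0 ≤ K)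
    (J0 : 0 ≤ J) (J1 : J ≤ 1) (C00 : 0 ≤ C0) (σ0 : 0 ≤ σ) (υ0 : 0 ≤ υ) (v0 : 0 ≤ v)
    (hω : |ω| ≤ 7 / Nb) (a5 : 2 * K * C0 + 7 * C0 ≤ C) :
    2 * K * (C0 * (σ + υ) / (N * Λ)) + N * J * |ω| * (C0 * (υ + v) / N) ≤
      C * (υ + v + σ / N) / Nb := by
  have N0 : 0 < N := lt_of_lt_of_le one_pos N1
  have Λ0 : 0 < Λ := lt_of_lt_of_le Nb0 ΛNb
  have sN : 0 ≤ σ / N := div_nonneg σ0 N0.le
  have h1 : (σ + υ) / (N * Λ) ≤ (σ / N + υ) / Nb := by
    rw [← div_div, add_div]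
    exact (div_le_div_of_nonneg_right (add_le_add le_rfl (div_le_self υ0 N1)) Λ0.le).trans
      (div_le_div_of_nonneg_left (add_nonneg sN υ0) Nb0 ΛNb)
  have k0 : 0 ≤ 2 * K * C0 := mul_nonneg (mul_nonneg zero_le_two K0) C00
  have h2 := mul_le_mul_of_nonneg_left h1 k0
  have h3 : N * J * |ω| * (C0 * (υ + v) / N) = J * |ω| * (C0 * (υ + v)) := by
    rw [mul_assoc N J, mul_assoc N, mul_div_assoc', mul_left_comm, ← mul_div_assoc,
      mul_div_cancel_left₀ _ N0.ne']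
  have cu : 0 ≤ C0 * (υ + v) := mul_nonneg C00 (add_nonneg υ0 v0)
  have h4 : J * |ω| * (C0 * (υ + v)) ≤ 1 * (7 / Nb) * (C0 * (υ + v)) :=
    mul_le_mul_of_nonneg_right (mul_le_mul J1 hω (abs_nonneg _) zero_le_one) cu
  have h5 : (2 * K * C0 * (σ / N + υ) + 7 * (C0 * (υ + v))) / Nb ≤ C * (υ + v + σ / N) / Nb := by
    refine div_le_div_of_nonneg_right ?_ Nb0.le
    have h6 := mul_le_mul_of_nonneg_right a5 (add_nonneg (add_nonneg υ0 v0) sN)
    have h7 : 0 ≤ 2 * K * C0 * v := mul_nonneg k0 v0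
    have h8 : 0 ≤ C0 * (σ / N) := mul_nonneg C00 sN
    linarith only [h6, h7, h8]
  rw [h3]
  have e1 : 2 * K * (C0 * (σ + υ) / (N * Λ)) = 2 * K * C0 * ((σ + υ) / (N * Λ)) := by
    rw [mul_div_assoc, ← mul_assoc]
  have e2 : (2 * K * C0 * (σ / N + υ) + 7 * (C0 * (υ + v))) / Nb =
      2 * K * C0 * ((σ / N + υ) / Nb) + 1 * (7 / Nb) * (C0 * (υ + v)) := by
    rw [add_div, mul_div_assoc, one_mul, div_mul_eq_mul_div]
  rw [e1]
  rw [e2] at h5
  linarith only [h2, h4, h5]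

end NL

theorem new_lines (K γ : ℝ) : ∃ C x₁ : ℝ, 1 ≤ C ∧ 0 < x₁ ∧ x₁ ≤ 1 ∧
    ∀ {N Nb J ω : ℝ} {h g : ℂ → ℂ} {ω' σ υ V₀ V₁ : ℝ}, Pre K γ N Nb J ω h g ω' σ υ V₀ V₁ →
      υ ≤ x₁ → σ ≤ x₁ → σ * V₀ ≤ x₁ → σ * V₁ ≤ x₁ →
      HP (5 / 4 * cr K / N) (fun z => gnew h g ω ω' z - z) ∧
      (∀ l : ℝ, 0 ≤ l → (∀ t : ℝ, l ≤ (deriv g t).re) →
        ∀ t : ℝ, (1 - C * (υ + σ * V₁)) * l ≤ (deriv (gnew h g ω ω') t).re) ∧
      (∀ l : ℝ, (∀ t : ℝ, (deriv g t).re ≤ l) →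
        ∀ t : ℝ, (deriv (gnew h g ω ω') t).re ≤ (1 + C * (υ + σ * V₁)) * l) ∧
      Bd (cr K / N) (deriv (deriv (gnew h g ω ω')))
        (N * ((1 + C * (υ + σ * V₁)) * J + C * (υ + σ * V₁))) ∧
      (∀ D : ℝ, (∀ t : ℝ, ‖deriv g (t + ω) - deriv g t‖ ≤ D) → ∀ t : ℝ,
        ‖deriv (gnew h g ω ω') (t + ω') - deriv (gnew h g ω ω') t‖ ≤
          (1 + C * (υ + σ * V₁)) * D + C * (σ + υ) / max N Nb) ∧
      (∀ T : ℝ, (∀ t : ℝ, ‖deriv (deriv g) (t + ω) / deriv g (t + ω) -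
          deriv (deriv g) t / deriv g t‖ ≤ T) → ∀ t : ℝ,
        ‖deriv (deriv (gnew h g ω ω')) (t + ω') / deriv (gnew h g ω ω') (t + ω') -
          deriv (deriv (gnew h g ω ω')) t / deriv (gnew h g ω ω') t‖ ≤
          (1 + C * (υ + σ * V₁)) * T + C * (υ + J + 1 / N)) ∧
      /- differences needed for the telescoping -/
      (∀ z ∈ Strip (cr K / N), ‖gnew h g ω ω' z - g z‖ ≤ C * (υ + σ * V₀) / N ∧
        ‖gnew h g ω ω' (z + ω') - g (z + ω)‖ ≤ C * (υ + σ * V₀ + σ / N) / N ∧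
        ‖deriv (gnew h g ω ω') z - deriv g z‖ ≤ C * (υ + σ * V₀ + σ * V₁) ∧
        ‖deriv (gnew h g ω ω') (z + ω') - deriv g (z + ω)‖ ≤ C * (υ + σ * V₀ + σ * V₁ + σ / N) ∧
        ‖(gnew h g ω ω' (z + ω') - gnew h g ω ω' z) - (g (z + ω) - g z)‖ ≤
          C * (υ + σ * V₀ + σ / N) / Nb) := by
  by_cases hK : 1 ≤ K
  swap
  · refine ⟨1, 1, le_rfl, one_pos, le_rfl, ?_⟩
    intro N Nb J ω h g ω' σ υ V₀ V₁ p
    exact absurd p.ctx.K1 hK
  obtain ⟨C0, hC0, hb⟩ := ww_bounds K γ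
  have K0 : 0 < K := lt_of_lt_of_le one_pos hK
  have K4 : 1 ≤ K ^ 4 := one_le_pow₀ hK
  have hcr : 0 < cr K := by unfold cr; positivity
  have hcr1 : cr K ≤ 1 / 10 ^ 4 := by
    unfold cr
    apply one_div_le_one_div_of_le (by norm_num)
    linarith only [K4]
  obtain ⟨L, hL⟩ : ∃ L : ℝ, L = K / cr K + 4 * K ^ 2 := ⟨_, rfl⟩
  have hL0 : 0 ≤ L := by
    rw [hL]
    exact add_nonneg (div_nonneg K0.le hcr.le) (mul_nonneg (by norm_num) (sq_nonneg K))
  have C00 : 0 < C0 := lt_of_lt_of_le one_pos hC0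
  have hC8 : 0 < 8 * C0 := mul_pos (by norm_num) C00
  have h1C : 1 ≤ C0 * (8 * L + 20 * K + 20) :=
    le_trans hC0 (le_mul_of_one_le_right C00.le (by linarith only [hL0, hK]))
  have hx1 : cr K / (8 * C0) ≤ 1 := by
    rw [div_le_one hC8]
    linarith only [hcr1, hC0]
  refine ⟨C0 * (8 * L + 20 * K + 20), cr K / (8 * C0), h1C, div_pos hcr hC8, hx1, ?_⟩
  intro N Nb J ω h g ω' σ υ V₀ V₁ p hυ hσ hσ0 hσ1
  obtain ⟨C, hC⟩ : ∃ C : ℝ, C = C0 * (8 * L + 20 * K + 20) := ⟨_, rfl⟩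
  rw [← hC]
  have hC' : C = 8 * (C0 * L) + 20 * (C0 * K) + 20 * C0 := by rw [hC]; ring
  have q1 : 0 ≤ C0 * L := mul_nonneg C00.le hL0
  have q2 : C0 * 1 ≤ C0 * K := mul_le_mul_of_nonneg_left hK C00.le
  have q3 : K * 1 ≤ K * C0 := mul_le_mul_of_nonneg_left hC0 K0.le
  have a1 : 2 * K * C0 ≤ C := by linarith only [hC', q1, q2, C00]
  have a2 : C0 + 2 * K * C0 ≤ C := by linarith only [hC', q1, q2, C00]
  have a3 : 2 * K ≤ C := by linarith only [hC', q1, q2, q3, C00]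
  have hCC0 : C0 ≤ C := by linarith only [hC', q1, q2, C00]
  have a4 : 1 ≤ C := by linarith only [hCC0, hC0]
  have a5 : 2 * K * C0 + 7 * C0 ≤ C := by linarith only [hC', q1, q2, C00]
  have a6 : 3 * C0 ≤ C := by linarith only [hC', q1, q2, C00]
  have a7 : 2 * (C0 * K) ≤ C := by linarith only [hC', q1, q2, C00]
  have a8 : 2 * C0 + 4 * (C0 * K) ≤ C := by linarith only [hC', q1, q2, C00]
  have a9 : 8 * (C0 * L) + 6 * (C0 * K) + 4 * C0 ≤ C := by linarith only [hC', q1, q2, C00]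
  obtain ⟨hw0, hw1, hw2, hs0, hs1, hs2⟩ := hb p
  have c := p.ctx
  have N1 := c.N1
  have N0 : 0 < N := lt_of_lt_of_le one_pos N1
  have υ0 := p.υ0
  have σ0 := p.σ0
  have V00 := p.V00
  have V10 := p.V10
  have J0 := c.J0
  have J1 := c.J1
  have hNb1 : 1 ≤ Nb := by
    have := c.Nb1
    linarith only [this, K4]
  have hNb0 : 0 < Nb := lt_of_lt_of_le one_pos hNb1
  have ΛN : N ≤ max N Nb := le_max_left _ _
  have ΛNb : Nb ≤ max N Nb := le_max_right _ _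
  have hdom : |ω' - ω| ≤ σ / (N * max N Nb) := p.dom
  generalize max N Nb = Λ at *
  have Λ0 : 0 < Λ := lt_of_lt_of_le N0 ΛN
  have hr0 : 0 < cr K / N := div_pos hcr N0
  -- small quantities
  have x1 : C0 * (υ + σ * V₁) ≤ 1 / 2 := by
    have := NL.rq1 C00 hυ hσ1
    linarith only [this, hcr1]
  have x0 : C0 * (υ + σ * V₀) ≤ cr K / 4 := NL.rq1 C00 hυ hσ0
  have xs : C0 * (σ + υ) ≤ cr K / 4 := NL.rq1 C00 hσ hυ
  have e4 : (4 : ℝ) * (cr K / N) = 4 * cr K / N := (mul_div_assoc _ _ _).symm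
  have e32 : (3 / 2 : ℝ) * (cr K / N) = 3 / 2 * cr K / N := (mul_div_assoc _ _ _).symm
  have e54 : (5 / 4 : ℝ) * (cr K / N) = 5 / 4 * cr K / N := (mul_div_assoc _ _ _).symm
  have e2 : (2 : ℝ) * (cr K / N) = 2 * cr K / N := (mul_div_assoc _ _ _).symm
  have hdif := gs_dif c
  have hwp := ww_hp p
  have S : NL.St (cr K / N) K (N * J) (C0 * (υ + σ * V₀) / N) (C0 * (υ + σ * V₁))
      (C0 * N * (υ + σ * V₁)) (C0 * (σ + υ) / (N * Λ)) (C0 * (σ * (1 / N + J) + υ) / Λ)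
      (C0 * N * (σ * (1 / N + J) + υ) / Λ) ω ω' g (ww h g ω ω') (ss h g ω ω') := by
    refine ⟨hr0, hK, ?_, ?_, ?_, ?_, ?_, ?_, ?_, ?_, ?_, ?_, ?_, ?_, ?_, ?_, ?_⟩
    · rw [e4]; exact hdif.hol
    · rw [e4]; exact hdif.bd
    · rw [e4]; exact c.gs.g2
    · rw [e4]; exact fun z hz => (gs_near c hz).2.2.1
    · rw [e4]; exact hwp.1.hol
    · rw [e32]; exact hw0
    · rw [e32]; exact hw1
    · rw [e54]; exact hw2
    · intro z; rfl
    · rw [e2]; exact hs0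
    · rw [e32]; exact hs1
    · rw [e54]; exact hs2
    · exact NL.rq2 N0 x0
    · exact x1
    · exact NL.rq3 N0 (N1.trans ΛN) xs (mul_nonneg C00.le (add_nonneg σ0 υ0))
  have hg : gnew h g ω ω' = fun z => g (z + ww h g ω ω' z) := rfl
  have sV1 : 0 ≤ σ * V₁ := mul_nonneg σ0 V10
  have sV0 : 0 ≤ σ * V₀ := mul_nonneg σ0 V00
  have hx : 0 ≤ υ + σ * V₁ := add_nonneg υ0 sV1
  have hx0 : 0 ≤ υ + σ * V₀ := add_nonneg υ0 sV0
  have hreal : ∀ t : ℝ, (ww h g ω ω' t).im = 0 := fun t => hp_real hwp.1 t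
  have hreal1 : ∀ t : ℝ, (deriv (ww h g ω ω') t).im = 0 := fun t => hp_real (hp_deriv hwp.1) t
  have hτr : ∀ t : ℝ, (t : ℂ) + ww h g ω ω' t = ((t + (ww h g ω ω' t).re : ℝ) : ℂ) := by
    intro t
    apply Complex.ext
    · rw [Complex.add_re, Complex.ofReal_re, Complex.ofReal_re]
    · rw [Complex.add_im, Complex.ofReal_im, Complex.ofReal_im, hreal t, add_zero]
  have r32 : 0 < 3 / 2 * (cr K / N) := mul_pos (by norm_num) hr0
  have r54 : 0 < 5 / 4 * (cr K / N) := mul_pos (by norm_num) hr0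
  have r4 : 0 < 4 * (cr K / N) := mul_pos (by norm_num) hr0
  have tS : ∀ t : ℝ, (t : ℂ) ∈ Strip (3 / 2 * (cr K / N)) := fun t => NL.sofReal r32 t
  have tS5 : ∀ t : ℝ, (t : ℂ) ∈ Strip (5 / 4 * (cr K / N)) := fun t => NL.sofReal r54 t
  have hre : ∀ t : ℝ, (deriv (gnew h g ω ω') t).re =
      (deriv g ((t + (ww h g ω ω' t).re : ℝ) : ℂ)).re * (1 + (deriv (ww h g ω ω') t).re) := by
    intro t
    rw [hg, S.d1 (tS t), hτr t, Complex.mul_re, Complex.add_im, Complex.one_im, hreal1 t,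
      Complex.add_re, Complex.one_re, add_zero, mul_zero, sub_zero]
  have hwre : ∀ t : ℝ, |(deriv (ww h g ω ω') t).re| ≤ C0 * (υ + σ * V₁) := fun t =>
    (Complex.abs_re_le_norm _).trans (S.w1 _ (tS t))
  have hCx : C0 * (υ + σ * V₁) ≤ C * (υ + σ * V₁) := mul_le_mul_of_nonneg_right hCC0 hx
  have l54 : 5 / 4 * (cr K / N) ≤ 4 * (cr K / N) := by linarith only [hr0]
  have l532 : 5 / 4 * (cr K / N) ≤ 3 / 2 * (cr K / N) := by linarith only [hr0]
  have l24 : 2 * (cr K / N) ≤ 4 * (cr K / N) := by linarith only [hr0]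
  have l15 : cr K / N ≤ 5 / 4 * (cr K / N) := by linarith only [hr0]
  refine ⟨?_, ?_, ?_, ?_, ?_, ?_, ?_⟩
  · -- periodicity
    have h1 : HP (5 / 4 * cr K / N) (ww h g ω ω') := by
      apply hp_mono hwp.1
      rw [← e54, ← e4]
      exact l54
    have h2 := hp_comp (r := 5 / 4 * cr K / N) c.gs.hp h1 (by
      intro z hz
      rw [← e4]
      rw [← e54] at hz
      exact NL.smono l24 (S.tau (NL.smono l532 hz)))
    have h3 := hp_add h2 h1
    have e : (fun z => gnew h g ω ω' z - z) = fun z => (fun z => g (z + ww h g ω ω' z) -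
        (z + ww h g ω ω' z)) z + ww h g ω ω' z := by
      funext z
      rw [hg]
      ring
    rw [e]
    exact h3
  · intro l hl0 hl t
    rw [hre]
    have h1 := hl (t + (ww h g ω ω' t).re)
    have h2 := abs_le.mp (hwre t)
    have h3 : 0 ≤ 1 + (deriv (ww h g ω ω') t).re := by linarith only [h2.1, x1]
    have h4 : 1 - C * (υ + σ * V₁) ≤ 1 + (deriv (ww h g ω ω') t).re := by
      linarith only [hCx, h2.1, h2.2]
    rw [mul_comm (deriv g ((t + (ww h g ω ω' t).re : ℝ) : ℂ)).re]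
    exact (mul_le_mul_of_nonneg_right h4 hl0).trans (mul_le_mul_of_nonneg_left h1 h3)
  · intro l hl t
    rw [hre]
    have h1 := hl (t + (ww h g ω ω' t).re)
    have h2 := abs_le.mp (hwre t)
    have h3 : 0 ≤ 1 + (deriv (ww h g ω ω') t).re := by linarith only [h2.1, x1]
    have h4 : 1 + (deriv (ww h g ω ω') t).re ≤ 1 + C * (υ + σ * V₁) := by
      linarith only [hCx, h2.1, h2.2]
    have h5 : 0 ≤ l := by
      have h6 : 1 / (2 * K) ≤ (deriv g ((t : ℝ) : ℂ)).re := (gs_near c (by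
        rw [← e4]; exact NL.sofReal r4 t)).2.2.1
      have h8 : 0 ≤ 1 / (2 * K) := one_div_nonneg.mpr (mul_nonneg zero_le_two K0.le)
      exact h8.trans (h6.trans (hl t))
    rw [mul_comm (1 + C * (υ + σ * V₁))]
    exact (mul_le_mul_of_nonneg_right h1 h3).trans (mul_le_mul_of_nonneg_left h4 h5)
  · intro z hz
    have h1 := S.bdd2 z (NL.smono l15 hz)
    rw [hg]
    exact h1.trans (NL.rq4 N0.le J0 C00.le hx x1 a6 a7)
  · intro D hD t
    have h1 := S.diff1 (tS t) (D := D) (by rw [hτr t]; exact hD _)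
    rw [hg]
    exact h1.trans (NL.rq6 N1 K0.le J0 J1 C00.le σ0 υ0 hx x1 ((norm_nonneg _).trans (hD 0))
      Λ0 hCC0 a8)
  · intro T hT t
    have h1 := S.diff2 (tS5 t) (D := T) (by rw [hτr t]; exact hT _)
    rw [hg]
    exact h1.trans (NL.rq8 N1 K0.le J0 J1 C00.le σ0 υ0 (hσ.trans hx1) (hυ.trans hx1) hx x1 Λ0 ΛN
      hcr hL ((norm_nonneg _).trans (hT 0)) hCC0 a9)
  · intro z hz
    obtain ⟨t1, t2, t3, t4, t5⟩ := S.tel (NL.smono l15 hz)
    have sN : 0 ≤ σ / N := div_nonneg σ0 N0.le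
    have hd : |ω' - ω| ≤ σ / N / N := by
      refine hdom.trans ?_
      rw [div_div]
      exact div_le_div_of_nonneg_left σ0 (mul_pos N0 N0) (mul_le_mul_of_nonneg_left ΛN N0.le)
    have hωb : |ω| ≤ 7 / Nb := by
      have h1 : 0 < ω := by
        have h12 := c.lo
        by_contra hcon
        have h11 : ω * Nb ≤ 0 := mul_nonpos_of_nonpos_of_nonneg (not_lt.mp hcon) hNb0.le
        linarith only [h11, h12]
      rw [abs_of_pos h1, le_div_iff₀ hNb0]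
      exact c.hi
    rw [hg]
    refine ⟨?_, ?_, ?_, ?_, ?_⟩
    · exact t1.trans (NL.rt1 N0 hx0 a1)
    · exact t2.trans (NL.rt2 N0 K0.le hx0 sN a1 a3 hd)
    · exact t3.trans (NL.rt3 N0 K0.le J1 C00.le υ0 sV0 sV1 a2)
    · exact t4.trans (NL.rt4 N0 K0.le J0 J1 C00.le υ0 sV0 sV1 sN a2 a4 hd)
    · exact t5.trans (NL.rt5 N1 hNb0 ΛNb K0.le J0 J1 C00.le σ0 υ0 sV0 hωb a5)

end Pool.Agent.MP_b87ea9_an.Kam
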