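import Mathlib
import Pool.Agent.Lib.MP_b87ea9_an.KDefs
import Pool.Agent.Lib.MP_b87ea9_an.KDefs2
import Pool.Agent.Lib.MP_b87ea9_an.KDefs3
import Pool.Agent.Lib.MP_b87ea9_an.KC2
import Pool.Agent.Lib.MP_b87ea9_an.KC3
import Pool.Agent.Lib.MP_b87ea9_an.KC5

set_option autoImplicit false

/-! The rotation response of the new level: comparison of the coefficients -/

namespace Pool.Agent.MP_b87ea9_an.Kam

open Real MeasureTheory

/-- the change of variable -/
noncomputable def tau6 (h g : ℂ → ℂ) (ω ω' : ℝ) (z : ℂ) : ℂ := z + ww h g ω ω' z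

variable {K γ N Nb J ω : ℝ} {h g : ℂ → ℂ} {ω' σ υ V₀ V₁ : ℝ}

theorem tau6_shift (h g : ℂ → ℂ) (ω ω' : ℝ) (z : ℂ) :
    tau6 h g ω ω' (z + ω') = tau6 h g ω ω' z + ω + ss h g ω ω' z := by
  unfold tau6 ss; push_cast; ring

theorem strip6_add {r : ℝ} {z : ℂ} (hz : z ∈ Strip r) (a : ℝ) : z + a ∈ Strip r := by
  simpa [Strip] using hz

theorem strip6_mono {r r' : ℝ} {z : ℂ} (hz : z ∈ Strip r) (h : r ≤ r') : z ∈ Strip r' :=
  lt_of_lt_of_le hz h

theorem strip6_move {r δ : ℝ} {z w : ℂ} (hz : z ∈ Strip r) (hw : ‖w‖ ≤ δ) :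
    z + w ∈ Strip (r + δ) := by
  have h1 : |w.im| ≤ δ := (Complex.abs_im_le_norm w).trans hw
  have h2 : |(z + w).im| ≤ |z.im| + |w.im| := by rw [Complex.add_im]; exact abs_add_le _ _
  have h3 : |z.im| < r := hz
  show |(z + w).im| < r + δ
  linarith

theorem gnew_deriv6 (p : Pre K γ N Nb J ω h g ω' σ υ V₀ V₁) {z : ℂ}
    (hz : z ∈ Strip (4 * cr K / N)) (hT : tau6 h g ω ω' z ∈ Strip (4 * cr K / N)) :
    deriv (gnew h g ω ω') z =
      deriv g (tau6 h g ω ω' z) * (1 + deriv (ww h g ω ω') z) := by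
  have h1 : DifferentiableAt ℂ g (tau6 h g ω ω' z) :=
    ((gs_dif p.ctx).hol).differentiableAt ((isOpen_strip _).mem_nhds hT)
  have h2 : DifferentiableAt ℂ (ww h g ω ω') z :=
    ((ww_hp p).1.hol).differentiableAt ((isOpen_strip _).mem_nhds hz)
  have h3 : HasDerivAt (fun z => z + ww h g ω ω' z) (1 + deriv (ww h g ω ω') z) z :=
    (hasDerivAt_id z).add h2.hasDerivAt
  have h4 : HasDerivAt (gnew h g ω ω')
      (deriv g (tau6 h g ω ω' z) * (1 + deriv (ww h g ω ω') z)) z :=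
    HasDerivAt.comp z (h1.hasDerivAt) h3
  exact h4.deriv

theorem deriv2_add6 {h hf : ℂ → ℂ} (hh : Differentiable ℂ h) (hhf : Differentiable ℂ hf) (z : ℂ) :
    deriv (deriv (fun z => h z + hf z)) z = deriv (deriv h) z + deriv (deriv hf) z := by
  have h1 : deriv (fun z => h z + hf z) = fun z => deriv h z + deriv hf z := by
    funext w
    exact deriv_fun_add (hh w) (hhf w)
  have h2 : Differentiable ℂ (deriv h) := by
    have := DifferentiableOn.deriv hh.differentiableOn isOpen_univ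
    exact differentiableOn_univ.1 this
  have h3 : Differentiable ℂ (deriv hf) := by
    have := DifferentiableOn.deriv hhf.differentiableOn isOpen_univ
    exact differentiableOn_univ.1 this
  rw [h1]
  exact deriv_fun_add (h2 z) (h3 z)

theorem aa_new6 (p : Pre K γ N Nb J ω h g ω' σ υ V₀ V₁) {hf : ℂ → ℂ} (hdf : Differentiable ℂ hf)
    {z : ℂ} (hz : z ∈ Strip (4 * cr K / N)) (hT : tau6 h g ω ω' z ∈ Strip (4 * cr K / N))
    (hT' : tau6 h g ω ω' (z + ω') ∈ Strip (4 * cr K / N)) :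
    aa (fun z => h z + hf z) (gnew h g ω ω') ω' z =
      BB h g (tau6 h g ω ω' z) (tau6 h g ω ω' (z + ω')) *
        ((1 + deriv (ww h g ω ω') z) * (1 + deriv (ww h g ω ω') (z + ω'))) +
      (1 / 2) * (hf ((gnew h g ω ω' z + gnew h g ω ω' (z + ω')) / 2) +
          deriv (deriv hf) ((gnew h g ω ω' z + gnew h g ω ω' (z + ω')) / 2)) *
        Complex.sin ((gnew h g ω ω' (z + ω') - gnew h g ω ω' z) / 2) *
        deriv (gnew h g ω ω') z * deriv (gnew h g ω ω') (z + ω') := by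
  have e1 := gnew_deriv6 p hz hT
  have e2 := gnew_deriv6 p (strip6_add hz ω') hT'
  have e3 := deriv2_add6 p.ctx.tb.hol hdf ((gnew h g ω ω' z + gnew h g ω ω' (z + ω')) / 2)
  have e4 : ∀ z, gnew h g ω ω' z = g (tau6 h g ω ω' z) := fun z => rfl
  unfold aa BB
  rw [e3, e1, e2]
  simp only [e4]
  ring

theorem aa_diff6 {Q ε : ℝ} {hf : ℂ → ℂ} {J' Ca Cb Cw : ℝ} (hQ : 4 ≤ Q)
    (p : Pre K γ N Nb J ω h g ω' σ υ V₀ V₁)
    (c' : Ctx K γ (Q * N) Nb J' ω' (fun z => h z + hf z) (gnew h g ω ω'))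
    (hdf : Differentiable ℂ hf) (hε0 : 0 ≤ ε)
    (hε : Bd (1 / (Q * N)) (fun z => hf z + deriv (deriv hf) z) ε)
    (hCa : 1 ≤ Ca) (hCb : 1 ≤ Cb) (hCw : 1 ≤ Cw)
    (Hb : ∀ x y x' y' : ℂ, x ∈ Strip (4 * cr K / N) → y ∈ Strip (4 * cr K / N) →
      x' ∈ Strip (4 * cr K / N) → y' ∈ Strip (4 * cr K / N) → ‖y - x - ω‖ ≤ ω / 100 →
      ‖y' - x' - ω‖ ≤ ω / 100 →
      ‖BB h g x y - BB h g x' y'‖ ≤ Cb * (1 + N / Nb * J) * (‖x - x'‖ + ‖y - y'‖))
    (Ha : Bd (4 * cr K / N) (aa h g ω) (Ca / Nb))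
    (Hw0 : Bd (3 / 2 * cr K / N) (ww h g ω ω') (Cw * (υ + σ * V₀) / N))
    (Hw1 : Bd (3 / 2 * cr K / N) (deriv (ww h g ω ω')) (Cw * (υ + σ * V₁)))
    (Hs : Bd (2 * cr K / N) (ss h g ω ω') (Cw * (σ + υ) / (N * max N Nb)))
    (hY : Cw * (υ + σ * V₀) ≤ cr K / 4) (hX : Cw * (υ + σ * V₁) ≤ 1)
    (hZ : Cw * (σ + υ) ≤ 1 / 100) {z : ℂ} (hz : z ∈ Strip (4 * cr K / (Q * N))) :
    Nb * ‖aa h g ω (tau6 h g ω ω' z) - aa (fun z => h z + hf z) (gnew h g ω ω') ω' z‖ ≤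
      2 * Cb * Cw * (σ + υ) / N + (Ca + 2 * Cb * Cw) * (3 * (Cw * (υ + σ * V₁))) +
        56 * K ^ 3 * ε := by
  have hK := p.ctx.K1
  have hN := p.ctx.N1
  have hσ := p.σ0
  have hυ := p.υ0
  have hN0 : 0 < N := by linarith
  have hcr : 0 < cr K := by unfold cr; positivity
  have hK4 : (1 : ℝ) ≤ K ^ 4 := one_le_pow₀ hK
  have hNb1 := p.ctx.Nb1
  have hNb : 1 ≤ Nb := by nlinarith
  have hNb0 : 0 < Nb := by linarith
  have hΛ : 0 < max N Nb := lt_max_of_lt_left hN0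
  have hω1 : 1 / Nb ≤ ω := by
    rw [div_le_iff₀ hNb0]; exact p.ctx.lo
  have hω0 : 0 < ω := lt_of_lt_of_le (by positivity) hω1
  -- strips
  have hz1 : z ∈ Strip (cr K / N) := by
    refine strip6_mono hz ?_
    rw [div_le_div_iff₀ (by positivity) hN0]
    nlinarith [mul_pos hcr hN0]
  have hrr : ∀ a : ℝ, a * cr K / N = a * (cr K / N) := fun a => by ring
  have hrN : 0 < cr K / N := by positivity
  have hz32 : z ∈ Strip (3 / 2 * cr K / N) := strip6_mono hz1 (by rw [hrr]; linarith)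
  have hz2 : z ∈ Strip (2 * cr K / N) := strip6_mono hz1 (by rw [hrr]; linarith)
  have hz4 : z ∈ Strip (4 * cr K / N) := strip6_mono hz1 (by rw [hrr]; linarith)
  have hwN : ∀ z ∈ Strip (3 / 2 * cr K / N), ‖ww h g ω ω' z‖ ≤ cr K / N := by
    intro z hz
    refine (Hw0 z hz).trans ?_
    refine div_le_div_of_nonneg_right ?_ hN0.le
    linarith
  have hTT : ∀ z ∈ Strip (cr K / N), tau6 h g ω ω' z ∈ Strip (4 * cr K / N) := by
    intro z hz
    have h1 := strip6_move hz (hwN z (strip6_mono hz (by rw [hrr]; linarith)))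
    exact strip6_mono h1 (by rw [hrr]; linarith)
  have hT := hTT z hz1
  have hT' := hTT _ (strip6_add hz1 ω')
  set x := tau6 h g ω ω' z with hx
  have hy : tau6 h g ω ω' (z + ω') = x + ω + ss h g ω ω' z := tau6_shift h g ω ω' z
  have hsb := Hs z hz2
  set s := ss h g ω ω' z with hs
  have hs1 : ‖s‖ ≤ ω / 100 := by
    refine hsb.trans ?_
    have h1 : Cw * (σ + υ) / (N * max N Nb) ≤ (1 / 100) / Nb := by
      apply div_le_div₀ (by norm_num) hZ hNb0
      calc Nb ≤ max N Nb := le_max_right _ _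
        _ = 1 * max N Nb := (one_mul _).symm
        _ ≤ N * max N Nb := mul_le_mul_of_nonneg_right hN hΛ.le
    calc Cw * (σ + υ) / (N * max N Nb) ≤ (1 / 100) / Nb := h1
      _ = (1 / Nb) / 100 := by ring
      _ ≤ ω / 100 := by linarith
  -- BB comparison
  have hBB : ‖BB h g x (x + ω) - BB h g x (x + ω + s)‖ ≤ Cb * (1 + N / Nb * J) * ‖s‖ := by
    have h1 := Hb x (x + ω) x (x + ω + s) hT (strip6_add hT ω) hT (by rw [← hy]; exact hT')
      (by simp; positivity) (by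
        have : x + ω + s - x - ω = s := by ring
        rw [this]; exact hs1)
    have h2 : x - x = 0 := sub_self _
    have h3 : x + ω - (x + ω + s) = -s := by ring
    rwa [h2, h3, norm_zero, zero_add, norm_neg] at h1
  have hBB2 : Nb * ‖BB h g x (x + ω) - BB h g x (x + ω + s)‖ ≤ 2 * Cb * Cw * (σ + υ) / N := by
    have hJ : N / Nb * J ≤ N / Nb := by
      have : 0 ≤ N / Nb := by positivity
      nlinarith [p.ctx.J1]
    have h1 : Nb * (1 + N / Nb * J) ≤ 2 * max N Nb := by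
      calc Nb * (1 + N / Nb * J) ≤ Nb * (1 + N / Nb) := by
            apply mul_le_mul_of_nonneg_left _ hNb0.le; linarith
        _ = Nb + N := by field_simp
        _ ≤ 2 * max N Nb := by linarith [le_max_left N Nb, le_max_right N Nb]
    have h1' : 0 ≤ Nb * (1 + N / Nb * J) := by
      have := p.ctx.J0
      positivity
    calc Nb * ‖BB h g x (x + ω) - BB h g x (x + ω + s)‖
        ≤ Nb * (Cb * (1 + N / Nb * J) * ‖s‖) := mul_le_mul_of_nonneg_left hBB hNb0.le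
      _ = Cb * (Nb * (1 + N / Nb * J)) * ‖s‖ := by ring
      _ ≤ Cb * (2 * max N Nb) * (Cw * (σ + υ) / (N * max N Nb)) := by
          apply mul_le_mul _ hsb (norm_nonneg _) (by positivity)
          exact mul_le_mul_of_nonneg_left h1 (by linarith)
      _ = 2 * Cb * Cw * (σ + υ) / N := by field_simp
  have hBB3 : 2 * Cb * Cw * (σ + υ) / N ≤ 2 * Cb * Cw := by
    rw [div_le_iff₀ hN0]
    have h0 : 0 < 2 * Cb * Cw := by positivity
    have h1 : σ + υ ≤ 1 := by nlinarith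
    nlinarith
  have hBB4 : Nb * ‖BB h g x (x + ω + s)‖ ≤ Ca + 2 * Cb * Cw := by
    have h1 : ‖BB h g x (x + ω + s)‖ ≤ ‖BB h g x (x + ω)‖ +
        ‖BB h g x (x + ω) - BB h g x (x + ω + s)‖ := by
      have := norm_sub_norm_le (BB h g x (x + ω + s)) (BB h g x (x + ω))
      rw [norm_sub_rev] at this
      linarith
    have h2 : ‖BB h g x (x + ω)‖ ≤ Ca / Nb := Ha x hT
    have h3 : Nb * (Ca / Nb) = Ca := by field_simp
    calc Nb * ‖BB h g x (x + ω + s)‖ ≤ Nb * (Ca / Nb + ‖BB h g x (x + ω) - BB h g x (x + ω + s)‖) := by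
          apply mul_le_mul_of_nonneg_left _ hNb0.le; linarith
      _ = Ca + Nb * ‖BB h g x (x + ω) - BB h g x (x + ω + s)‖ := by rw [mul_add, h3]
      _ ≤ Ca + 2 * Cb * Cw := by linarith
  -- the Jacobian factor
  set d₁ := deriv (ww h g ω ω') z with hd₁
  set d₂ := deriv (ww h g ω ω') (z + ω') with hd₂
  have hd1 : ‖d₁‖ ≤ Cw * (υ + σ * V₁) := Hw1 z hz32
  have hd2 : ‖d₂‖ ≤ Cw * (υ + σ * V₁) := Hw1 _ (strip6_add hz32 ω')
  have hX0 : 0 ≤ Cw * (υ + σ * V₁) := by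
    have := p.V10
    positivity
  have hjac : ‖1 - (1 + d₁) * (1 + d₂)‖ ≤ 3 * (Cw * (υ + σ * V₁)) := by
    have h1 : 1 - (1 + d₁) * (1 + d₂) = -(d₁ + d₂ + d₁ * d₂) := by ring
    rw [h1, norm_neg]
    calc ‖d₁ + d₂ + d₁ * d₂‖ ≤ ‖d₁‖ + ‖d₂‖ + ‖d₁‖ * ‖d₂‖ := by
          refine (norm_add_le _ _).trans ?_
          rw [norm_mul]
          linarith [norm_add_le d₁ d₂]
      _ ≤ Cw * (υ + σ * V₁) + Cw * (υ + σ * V₁) + 1 * (Cw * (υ + σ * V₁)) := by
          have := mul_le_mul (hd1.trans hX) hd2 (norm_nonneg _) zero_le_one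
          linarith
      _ = 3 * (Cw * (υ + σ * V₁)) := by ring
  -- the fresh part
  have hfr : Nb * ‖(1 / 2) * (hf ((gnew h g ω ω' z + gnew h g ω ω' (z + ω')) / 2) +
          deriv (deriv hf) ((gnew h g ω ω' z + gnew h g ω ω' (z + ω')) / 2)) *
        Complex.sin ((gnew h g ω ω' (z + ω') - gnew h g ω ω' z) / 2) *
        deriv (gnew h g ω ω') z * deriv (gnew h g ω ω') (z + ω')‖ ≤ 56 * K ^ 3 * ε := by
    have hz' := strip6_add hz ω'
    have hω'0 : 0 < ω' := by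
      have := c'.lo
      by_contra hc
      push Not at hc
      nlinarith
    obtain ⟨-, -, -, h4, -, h6⟩ := delta_bounds c' hz hz' (by simp; positivity)
    have h7 := (gs_near c' hz).2.1
    have h8 := (gs_near c' hz').2.1
    have h9 := hε _ h6
    have h10 : Nb * (4 * K * ω') ≤ 28 * K := by nlinarith [c'.hi]
    have e : ‖(1 / 2 : ℂ)‖ = 1 / 2 := by simp
    rw [norm_mul, norm_mul, norm_mul, norm_mul, e]
    set a1 := ‖hf ((gnew h g ω ω' z + gnew h g ω ω' (z + ω')) / 2) +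
          deriv (deriv hf) ((gnew h g ω ω' z + gnew h g ω ω' (z + ω')) / 2)‖
    set a2 := ‖Complex.sin ((gnew h g ω ω' (z + ω') - gnew h g ω ω' z) / 2)‖
    set a3 := ‖deriv (gnew h g ω ω') z‖
    set a4 := ‖deriv (gnew h g ω ω') (z + ω')‖
    have hK0 : 0 < K := by linarith
    calc Nb * (1 / 2 * a1 * a2 * a3 * a4) = 1 / 2 * a1 * (Nb * a2) * a3 * a4 := by ring
      _ ≤ 1 / 2 * ε * (28 * K) * (2 * K) * (2 * K) := by
          have h11 : Nb * a2 ≤ 28 * K :=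
            (mul_le_mul_of_nonneg_left h4 hNb0.le).trans h10
          gcongr
      _ = 56 * K ^ 3 * ε := by ring
  -- conclusion
  have hid := aa_new6 p hdf hz4 hT hT'
  rw [← hx, hy, ← hd₁, ← hd₂] at hid
  set Fr := (1 / 2) * (hf ((gnew h g ω ω' z + gnew h g ω ω' (z + ω')) / 2) +
          deriv (deriv hf) ((gnew h g ω ω' z + gnew h g ω ω' (z + ω')) / 2)) *
        Complex.sin ((gnew h g ω ω' (z + ω') - gnew h g ω ω' z) / 2) *
        deriv (gnew h g ω ω') z * deriv (gnew h g ω ω') (z + ω')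
  have hsplit : aa h g ω x - aa (fun z => h z + hf z) (gnew h g ω ω') ω' z =
      (BB h g x (x + ω) - BB h g x (x + ω + s)) +
        BB h g x (x + ω + s) * (1 - (1 + d₁) * (1 + d₂)) - Fr := by
    rw [hid]; unfold aa; ring
  rw [hsplit]
  calc Nb * ‖(BB h g x (x + ω) - BB h g x (x + ω + s)) +
        BB h g x (x + ω + s) * (1 - (1 + d₁) * (1 + d₂)) - Fr‖
      ≤ Nb * (‖BB h g x (x + ω) - BB h g x (x + ω + s)‖ +
        ‖BB h g x (x + ω + s)‖ * ‖1 - (1 + d₁) * (1 + d₂)‖ + ‖Fr‖) := by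
        apply mul_le_mul_of_nonneg_left _ hNb0.le
        refine (norm_sub_le _ _).trans ?_
        have := norm_add_le (BB h g x (x + ω) - BB h g x (x + ω + s))
          (BB h g x (x + ω + s) * (1 - (1 + d₁) * (1 + d₂)))
        rw [norm_mul] at this
        linarith
    _ = Nb * ‖BB h g x (x + ω) - BB h g x (x + ω + s)‖ +
        (Nb * ‖BB h g x (x + ω + s)‖) * ‖1 - (1 + d₁) * (1 + d₂)‖ + Nb * ‖Fr‖ := by ring
    _ ≤ 2 * Cb * Cw * (σ + υ) / N + (Ca + 2 * Cb * Cw) * (3 * (Cw * (υ + σ * V₁))) +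
        56 * K ^ 3 * ε := by
        have := mul_le_mul hBB4 hjac (norm_nonneg _) (by positivity)
        linarith

end Pool.Agent.MP_b87ea9_an.Kam
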