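import Mathlib
import Pool.Agent.Lib.MP_b87ea9_an.KDefs
import Pool.Agent.Lib.MP_b87ea9_an.KDefs2
import Pool.Agent.Lib.MP_b87ea9_an.KDefs3
import Pool.Agent.Lib.MP_b87ea9_an.KA1
import Pool.Agent.Lib.MP_b87ea9_an.KA2
import Pool.Agent.Lib.MP_b87ea9_an.KA3
import Pool.Agent.Lib.MP_b87ea9_an.KC6a

set_option autoImplicit false

/-! The rotation response of the new level: the response of a perturbed coefficient -/

namespace Pool.Agent.MP_b87ea9_an.Kam

open Real MeasureTheory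

theorem fc_real6 {r : ℝ} {f : ℂ → ℂ} (h : HP r f) : ∃ c : ℝ, fc f 0 = (c : ℂ) := by
  have h1 := fc_neg h 0
  rw [neg_zero] at h1
  exact Complex.conj_eq_iff_real.1 h1.symm

theorem fc_const6 (c : ℂ) : fc (fun _ => c) 0 = c := by
  have hπ : (π : ℂ) ≠ 0 := by exact_mod_cast Real.pi_ne_zero
  unfold fc
  simp
  field_simp

theorem abs_resp6 {r γ Nb ω'' M : ℝ} {F G : ℂ → ℂ} {m : ℝ} (hr : 0 < r) (hγ : 0 < γ)
    (hNb : 1 ≤ Nb) (R : Rot γ Nb ω'') (hF : HP r F) (hG : HP r G) (hm : m ≠ 0)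
    (hE : Bd r (fun z => F z / m - 1 - (G (z + ω'') - G z)) M) (hM : M ≤ 1 / 2) :
    HP r (fun z => F z / m - 1 - (G (z + ω'') - G z)) ∧
    ∃ μ : ℂ, ‖μ‖ ≤ M ∧ ∀ z ∈ Strip r, invD ω'' (fun z => F z / fc F 0 - 1) z =
      (1 + μ)⁻¹ * (G z - fc G 0 +
        invD ω'' (fun z => F z / m - 1 - (G (z + ω'') - G z)) z) := by
  set E : ℂ → ℂ := fun z => F z / m - 1 - (G (z + ω'') - G z) with hEdef
  have hmc : (m : ℂ) ≠ 0 := by exact_mod_cast hm
  have hGs : HP r (fun z => G (z + ω'')) := hp_shift hG ω''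
  have hEHP : HP r E := by
    have h1 := hp_sub (hp_sub (hp_mul (hp_const r m⁻¹) hF) (hp_const r 1)) (hp_sub hGs hG)
    have h2 : E = fun z => (((m⁻¹ : ℝ) : ℂ) * F z - ((1 : ℝ) : ℂ)) - (G (z + ω'') - G z) := by
      funext z
      simp only [hEdef]
      push_cast
      ring
    rw [h2]; exact h1
  refine ⟨hEHP, fc E 0, norm_fc_zero_le hEHP hr (fun t => hE t (by show |((t : ℝ) : ℂ).im| < r; simpa using hr)), ?_⟩
  have hμM : ‖fc E 0‖ ≤ M :=
    norm_fc_zero_le hEHP hr (fun t => hE t (by show |((t : ℝ) : ℂ).im| < r; simpa using hr))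
  obtain ⟨μr, hμr⟩ := fc_real6 hEHP
  obtain ⟨gr, hgr⟩ := fc_real6 hG
  have h1μ : (1 : ℂ) + fc E 0 ≠ 0 := by
    intro h0
    have h1 : fc E 0 = -1 := by linear_combination h0
    rw [h1, norm_neg, norm_one] at hμM
    linarith
  -- the mean of F
  have hGmean : fc (fun z => G (z + ω'') + (-1) * G z) 0 = 0 := by
    have h0 : HP r (fun z => (-1) * G z) := by
      have := hp_mul (hp_const r (-1)) hG
      simpa using this
    rw [fc_add hGs h0 hr, fc_smul, fc_translate hG hr]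
    simp
  have hfcF : fc F 0 = m * (1 + fc E 0) := by
    have h0 : HP r (fun z => (-1) * G z) := by
      have := hp_mul (hp_const r (-1)) hG
      simpa using this
    have h1 : HP r (fun z => G (z + ω'') + (-1) * G z) := hp_add hGs h0
    have hc1 : HP r (fun _ => (1 : ℂ)) := by simpa using hp_const r 1
    have h2 : HP r (fun z => (1 : ℂ) + (G (z + ω'') + (-1) * G z)) := hp_add hc1 h1
    have h3 : F = fun z => (m : ℂ) * (E z + (1 + (G (z + ω'') + (-1) * G z))) := by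
      funext z
      simp only [hEdef]
      field_simp
      ring
    have h4 : fc F 0 = fc (fun z => (m : ℂ) * (E z + (1 + (G (z + ω'') + (-1) * G z)))) 0 := by
      rw [← h3]
    rw [h4, fc_smul, fc_add hEHP h2 hr, fc_add hc1 h1 hr, hGmean, fc_const6]
    ring
  have hfcF0 : fc F 0 ≠ 0 := by rw [hfcF]; exact mul_ne_zero hmc h1μ
  obtain ⟨fr, hfr⟩ := fc_real6 hF
  -- the function q
  have hq : HP r (fun z => F z / fc F 0 - 1) := by
    have h1 := hp_sub (hp_mul (hp_const r fr⁻¹) hF) (hp_const r 1)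
    have h2 : (fun z => F z / fc F 0 - 1) =
        fun z => (((fr⁻¹ : ℝ) : ℂ) * F z - ((1 : ℝ) : ℂ)) := by
      funext z
      rw [hfr]
      push_cast
      ring
    rw [h2]; exact h1
  have hq0 : fc (fun z => F z / fc F 0 - 1) 0 = 0 := by
    have hc1 : HP r (fun _ => (-1 : ℂ)) := by simpa using hp_const r (-1)
    have h0 : HP r (fun z => (fc F 0)⁻¹ * F z) := by
      have := hp_mul (hp_const r fr⁻¹) hF
      rw [hfr]
      simpa using this
    have h2 : (fun z => F z / fc F 0 - 1) = fun z => (fc F 0)⁻¹ * F z + (-1) := by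
      funext z
      ring
    rw [h2, fc_add h0 hc1 hr, fc_smul, fc_const6, inv_mul_cancel₀ hfcF0]
    ring
  -- the candidate
  have hIE := invD_hp hEHP hr hγ hNb R
  set u : ℂ → ℂ := fun z => (1 + fc E 0)⁻¹ * (G z - fc G 0 + invD ω'' E z) with hudef
  have hin : HP r (fun z => G z - fc G 0 + invD ω'' E z) := by
    have h1 := hp_add (hp_sub hG (hp_const r gr)) hIE
    rw [hgr]; exact h1
  have hu : HP r u := by
    have h1 := hp_mul (hp_const r (1 + μr)⁻¹) hin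
    have h2 : u = fun z => (((1 + μr)⁻¹ : ℝ) : ℂ) * (G z - fc G 0 + invD ω'' E z) := by
      funext z
      simp only [hudef, hμr]
      push_cast
      ring
    rw [h2]; exact h1
  have hu0 : fc u 0 = 0 := by
    have hc1 : HP r (fun _ => -fc G 0) := by
      rw [hgr]
      simpa using hp_const r (-gr)
    have h3 : HP r (fun z => G z + -fc G 0) := hp_add hG hc1
    have h2 : u = fun z => (1 + fc E 0)⁻¹ * ((G z + -fc G 0) + invD ω'' E z) := by
      funext z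
      simp only [hudef]
      ring
    rw [h2, fc_smul, fc_add h3 hIE hr, fc_add hG hc1 hr, fc_const6,
      fc_invD hEHP hr hγ hNb R]
    simp
  intro z hz
  refine invD_unique hq hr hγ hNb R hu hu0 ?_ hz
  intro z hz
  have h1 := invD_eq hEHP hr hγ hNb R hz
  have h2 : F z = (m : ℂ) * (E z + (1 + (G (z + ω'') - G z))) := by
    simp only [hEdef]
    field_simp
    ring
  rw [hq0]
  have h3 : u (z + ω'') - u z = (1 + fc E 0)⁻¹ * ((G (z + ω'') - G z) +
      (invD ω'' E (z + ω'') - invD ω'' E z)) := by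
    simp only [hudef]; ring
  rw [h3, h1, h2, hfcF]
  field_simp
  ring

variable {K γ N Nb J ω : ℝ} {h g : ℂ → ℂ} {ω' σ υ V₀ V₁ : ℝ}

theorem EE_bound6 {Q ε ω'' : ℝ} {hf : ℂ → ℂ} {J' Ca Cb Cw : ℝ} (hQ : 4 ≤ Q)
    (p : Pre K γ N Nb J ω h g ω' σ υ V₀ V₁)
    (c' : Ctx K γ (Q * N) Nb J' ω' (fun z => h z + hf z) (gnew h g ω ω'))
    (hdf : Differentiable ℂ hf) (hε0 : 0 ≤ ε)
    (hε : Bd (1 / (Q * N)) (fun z => hf z + deriv (deriv hf) z) ε)
    (hω'' : |ω'' - ω'| ≤ σ / (N * max N Nb))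
    (hCa : 1 ≤ Ca) (hCb : 1 ≤ Cb) (hCw : 1 ≤ Cw)
    (Hb : ∀ x y x' y' : ℂ, x ∈ Strip (4 * cr K / N) → y ∈ Strip (4 * cr K / N) →
      x' ∈ Strip (4 * cr K / N) → y' ∈ Strip (4 * cr K / N) → ‖y - x - ω‖ ≤ ω / 100 →
      ‖y' - x' - ω‖ ≤ ω / 100 →
      ‖BB h g x y - BB h g x' y'‖ ≤ Cb * (1 + N / Nb * J) * (‖x - x'‖ + ‖y - y'‖))
    (Ha : Bd (4 * cr K / N) (aa h g ω) (Ca / Nb))
    (Ha2 : ∀ z ∈ Strip (4 * cr K / N), 1 / (Ca * Nb) ≤ ‖aa h g ω z‖)
    (Ha3 : Nb / Ca ≤ ‖fc (fun z => 1 / aa h g ω z) 0‖)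
    (Ha2' : ∀ z ∈ Strip (4 * cr K / (Q * N)), 1 / (Ca * Nb) ≤
      ‖aa (fun z => h z + hf z) (gnew h g ω ω') ω' z‖)
    (Hw0 : Bd (3 / 2 * cr K / N) (ww h g ω ω') (Cw * (υ + σ * V₀) / N))
    (Hw1 : Bd (3 / 2 * cr K / N) (deriv (ww h g ω ω')) (Cw * (υ + σ * V₁)))
    (Hs : Bd (2 * cr K / N) (ss h g ω ω') (Cw * (σ + υ) / (N * max N Nb)))
    (hY : Cw * (υ + σ * V₀) ≤ cr K / 4) (hX : Cw * (υ + σ * V₁) ≤ 1)
    (hZ : Cw * (σ + υ) ≤ 1 / 100) {z : ℂ} (hz : z ∈ Strip (4 * cr K / (Q * N))) :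
    ‖(1 / aa (fun z => h z + hf z) (gnew h g ω ω') ω' z) / fc (fun z => 1 / aa h g ω z) 0 - 1 -
      (vv h g ω ω' (tau6 h g ω ω' (z + ω'')) - vv h g ω ω' (tau6 h g ω ω' z))‖ ≤
      (Ca ^ 3 * (2 * Cb * Cw + 3 * Cw * (Ca + 2 * Cb * Cw) + 56 * K ^ 3) + 3 + Cw) *
        (υ + σ * V₁ + υ * V₁ + 1 / N + ε) := by
  have hdiff := aa_diff6 hQ p c' hdf hε0 hε hCa hCb hCw Hb Ha Hw0 Hw1 Hs hY hX hZ hz
  have hK := p.ctx.K1
  have hN := p.ctx.N1
  have hσ := p.σ0
  have hυ := p.υ0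
  have hV1 := p.V10
  have hN0 : 0 < N := by linarith
  have hcr : 0 < cr K := by unfold cr; positivity
  have hK4 : (1 : ℝ) ≤ K ^ 4 := one_le_pow₀ hK
  have hNb1 := p.ctx.Nb1
  have hNb : 1 ≤ Nb := by nlinarith
  have hNb0 : 0 < Nb := by linarith
  have hΛ : 0 < max N Nb := lt_max_of_lt_left hN0
  have hCa0 : 0 < Ca := by linarith
  have hCw0 : 0 < Cw := by linarith
  have hz1 : z ∈ Strip (cr K / N) := by
    refine strip6_mono hz ?_
    rw [div_le_div_iff₀ (by positivity) hN0]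
    nlinarith [mul_pos hcr hN0]
  have hrr : ∀ a : ℝ, a * cr K / N = a * (cr K / N) := fun a => by ring
  have hrN : 0 < cr K / N := by positivity
  have hz32 : z ∈ Strip (3 / 2 * cr K / N) := strip6_mono hz1 (by rw [hrr]; linarith)
  have hz2 : z ∈ Strip (2 * cr K / N) := strip6_mono hz1 (by rw [hrr]; linarith)
  have hwN : ∀ z ∈ Strip (3 / 2 * cr K / N), ‖ww h g ω ω' z‖ ≤ cr K / N := by
    intro z hz
    refine (Hw0 z hz).trans ?_
    refine div_le_div_of_nonneg_right ?_ hN0.le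
    linarith
  have hwN4 : ∀ z ∈ Strip (cr K / N), tau6 h g ω ω' z ∈ Strip (2 * cr K / N) := by
    intro z hz
    have h1 := strip6_move hz (hwN z (strip6_mono hz (by rw [hrr]; linarith)))
    exact strip6_mono h1 (by rw [hrr]; linarith)
  have hT := hwN4 z hz1
  have hT' := hwN4 _ (strip6_add hz1 ω'')
  have hT4 : tau6 h g ω ω' z ∈ Strip (4 * cr K / N) := strip6_mono hT (by rw [hrr, hrr]; linarith)
  set x := tau6 h g ω ω' z with hx
  set a := aa h g ω x with ha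
  set b := aa (fun z => h z + hf z) (gnew h g ω ω') ω' z with hb
  set m := fc (fun z => 1 / aa h g ω z) 0 with hm
  have ha1 : 1 / (Ca * Nb) ≤ ‖a‖ := Ha2 x hT4
  have hb1 : 1 / (Ca * Nb) ≤ ‖b‖ := Ha2' z hz
  have hpos : 0 < 1 / (Ca * Nb) := by positivity
  have hm1 : 0 < Nb / Ca := by positivity
  have ha0 : a ≠ 0 := by rw [← norm_pos_iff]; linarith
  have hb0 : b ≠ 0 := by rw [← norm_pos_iff]; linarith
  have hm0 : m ≠ 0 := by rw [← norm_pos_iff]; linarith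
  have hv := (vv_eq p).2 x hT4
  have hqd : qq h g ω x = 1 / a / m - 1 := rfl
  rw [hqd] at hv
  have hsplit : (1 / b) / m - 1 - (vv h g ω ω' (tau6 h g ω ω' (z + ω'')) - vv h g ω ω' x) =
      (a - b) / (m * b * a) + (vv h g ω ω' (x + ω') - vv h g ω ω' (tau6 h g ω ω' (z + ω''))) := by
    have h1 : (a - b) / (m * b * a) = 1 / b / m - 1 / a / m := by
      field_simp
    rw [h1]
    linear_combination (-1 : ℂ) * hv
  rw [hsplit]
  -- first part
  have hfirst : ‖(a - b) / (m * b * a)‖ ≤ Ca ^ 3 * (Nb * ‖a - b‖) := by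
    rw [norm_div, norm_mul, norm_mul]
    have h1 : Nb / Ca * (1 / (Ca * Nb)) * (1 / (Ca * Nb)) ≤ ‖m‖ * ‖b‖ * ‖a‖ := by
      gcongr
    have h2 : Nb / Ca * (1 / (Ca * Nb)) * (1 / (Ca * Nb)) = 1 / (Ca ^ 3 * Nb) := by
      field_simp
    rw [h2] at h1
    have h3 : 0 < 1 / (Ca ^ 3 * Nb) := by positivity
    rw [div_le_iff₀ (by linarith)]
    calc ‖a - b‖ = Ca ^ 3 * (Nb * ‖a - b‖) * (1 / (Ca ^ 3 * Nb)) := by field_simp
      _ ≤ Ca ^ 3 * (Nb * ‖a - b‖) * (‖m‖ * ‖b‖ * ‖a‖) := by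
          apply mul_le_mul_of_nonneg_left h1; positivity
  -- second part
  have hvdiff : DifferentiableOn ℂ (vv h g ω ω') (Strip (2 * cr K / N)) :=
    ((hp_mono (vv_eq p).1 (by rw [hrr, hrr]; linarith)) : HP (2 * cr K / N) _).hol
  have hlip := bd_lip hvdiff p.bv1 (strip6_add hT ω') hT'
  have hwlip : ‖ww h g ω ω' (z + ω'') - ww h g ω ω' (z + ω')‖ ≤
      Cw * (υ + σ * V₁) * ‖(z + ω'') - (z + ω')‖ := by
    have hwdiff : DifferentiableOn ℂ (ww h g ω ω') (Strip (3 / 2 * cr K / N)) :=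
      ((hp_mono (ww_hp p).1 (by rw [hrr, hrr]; linarith)) : HP (3 / 2 * cr K / N) _).hol
    exact bd_lip hwdiff Hw1 (strip6_add hz32 ω'') (strip6_add hz32 ω')
  have hΛN : 0 < N * max N Nb := by positivity
  have hdist : ‖x + ω' - tau6 h g ω ω' (z + ω'')‖ ≤ (3 + Cw) * (σ + υ) / (N * max N Nb) := by
    have e1 : x + ω' - tau6 h g ω ω' (z + ω'') =
        -(((ω'' - ω' : ℝ) : ℂ) + (ww h g ω ω' (z + ω'') - ww h g ω ω' (z + ω')) +
          (ss h g ω ω' z - ((ω' - ω : ℝ) : ℂ))) := by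
      rw [hx]; unfold tau6 ss; push_cast; ring
    have e2 : (z + ω'') - (z + ω') = ((ω'' - ω' : ℝ) : ℂ) := by push_cast; ring
    rw [e2, Complex.norm_real, norm_eq_abs] at hwlip
    have e3 : ‖((ω'' - ω' : ℝ) : ℂ)‖ ≤ σ / (N * max N Nb) := by
      rw [Complex.norm_real]; exact hω''
    have e4 : ‖((ω' - ω : ℝ) : ℂ)‖ ≤ σ / (N * max N Nb) := by
      rw [Complex.norm_real]; exact p.dom
    have e5 := Hs z hz2
    have e6 : Cw * (υ + σ * V₁) * |ω'' - ω'| ≤ σ / (N * max N Nb) := by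
      calc Cw * (υ + σ * V₁) * |ω'' - ω'| ≤ 1 * |ω'' - ω'| :=
            mul_le_mul_of_nonneg_right hX (abs_nonneg _)
        _ = |ω'' - ω'| := one_mul _
        _ ≤ _ := hω''
    rw [e1, norm_neg]
    calc ‖((ω'' - ω' : ℝ) : ℂ) + (ww h g ω ω' (z + ω'') - ww h g ω ω' (z + ω')) +
          (ss h g ω ω' z - ((ω' - ω : ℝ) : ℂ))‖
        ≤ ‖((ω'' - ω' : ℝ) : ℂ)‖ + ‖ww h g ω ω' (z + ω'') - ww h g ω ω' (z + ω')‖ +
          (‖ss h g ω ω' z‖ + ‖((ω' - ω : ℝ) : ℂ)‖) := by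
          refine (norm_add_le _ _).trans ?_
          have := norm_sub_le (ss h g ω ω' z) ((ω' - ω : ℝ) : ℂ)
          have := norm_add_le (((ω'' - ω' : ℝ) : ℂ))
            (ww h g ω ω' (z + ω'') - ww h g ω ω' (z + ω'))
          linarith
      _ ≤ σ / (N * max N Nb) + σ / (N * max N Nb) +
          (Cw * (σ + υ) / (N * max N Nb) + σ / (N * max N Nb)) := by linarith
      _ = (3 * σ + Cw * (σ + υ)) / (N * max N Nb) := by ring
      _ ≤ (3 + Cw) * (σ + υ) / (N * max N Nb) := by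
          apply div_le_div_of_nonneg_right _ hΛN.le
          linarith
  have hsecond : ‖vv h g ω ω' (x + ω') - vv h g ω ω' (tau6 h g ω ω' (z + ω''))‖ ≤
      (3 + Cw) * (σ * V₁ + υ * V₁) := by
    refine hlip.trans ?_
    calc N * max N Nb * V₁ * ‖x + ω' - tau6 h g ω ω' (z + ω'')‖
        ≤ N * max N Nb * V₁ * ((3 + Cw) * (σ + υ) / (N * max N Nb)) := by
          apply mul_le_mul_of_nonneg_left hdist; positivity
      _ = (3 + Cw) * (σ * V₁ + υ * V₁) := by field_simp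
  have hZ1 : σ + υ ≤ 1 := by nlinarith
  have hN1 : 0 ≤ 1 / N := by positivity
  calc ‖(a - b) / (m * b * a) +
        (vv h g ω ω' (x + ω') - vv h g ω ω' (tau6 h g ω ω' (z + ω'')))‖
      ≤ ‖(a - b) / (m * b * a)‖ +
        ‖vv h g ω ω' (x + ω') - vv h g ω ω' (tau6 h g ω ω' (z + ω''))‖ := norm_add_le _ _
    _ ≤ Ca ^ 3 * (2 * Cb * Cw * (σ + υ) / N + (Ca + 2 * Cb * Cw) * (3 * (Cw * (υ + σ * V₁))) +
        56 * K ^ 3 * ε) + (3 + Cw) * (σ * V₁ + υ * V₁) := by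
        have h1 : Ca ^ 3 * (Nb * ‖a - b‖) ≤ _ :=
          mul_le_mul_of_nonneg_left hdiff (by positivity)
        linarith
    _ ≤ Ca ^ 3 * (2 * Cb * Cw * (1 / N) + (Ca + 2 * Cb * Cw) * (3 * (Cw * (υ + σ * V₁))) +
        56 * K ^ 3 * ε) + (3 + Cw) * (σ * V₁ + υ * V₁) := by
        have h2 : 2 * Cb * Cw * (σ + υ) / N ≤ 2 * Cb * Cw * (1 / N) := by
          rw [mul_one_div]
          apply div_le_div_of_nonneg_right _ hN0.le
          have : 0 < 2 * Cb * Cw := by positivity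
          nlinarith
        have h3 : (0 : ℝ) < Ca ^ 3 := by positivity
        have := mul_le_mul_of_nonneg_left h2 h3.le
        linarith
    _ ≤ _ := by
        have hp1 : 0 ≤ σ * V₁ := by positivity
        have hp2 : 0 ≤ υ * V₁ := by positivity
        set S := υ + σ * V₁ + υ * V₁ + 1 / N + ε with hS
        have q1 : 1 / N ≤ S := by linarith
        have q2 : υ + σ * V₁ ≤ S := by linarith
        have q3 : ε ≤ S := by linarith
        have q4 : σ * V₁ + υ * V₁ ≤ S := by linarith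
        have hS0 : 0 ≤ S := by linarith
        have hK3 : (0 : ℝ) < K ^ 3 := by positivity
        calc Ca ^ 3 * (2 * Cb * Cw * (1 / N) + (Ca + 2 * Cb * Cw) * (3 * (Cw * (υ + σ * V₁))) +
            56 * K ^ 3 * ε) + (3 + Cw) * (σ * V₁ + υ * V₁)
            ≤ Ca ^ 3 * (2 * Cb * Cw * S + (Ca + 2 * Cb * Cw) * (3 * (Cw * S)) +
            56 * K ^ 3 * S) + (3 + Cw) * S := by gcongr
          _ = _ := by ring

end Pool.Agent.MP_b87ea9_an.Kam
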