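import Mathlib

set_option autoImplicit false

/-! The rotation response of the new level: arithmetic -/

namespace Pool.Agent.MP_b87ea9_an.Kam

theorem arith6a {Λ V₀ V₁ υ σ ε n CE Cw Ci : ℝ} (hΛ : 0 ≤ Λ) (hV0 : 0 ≤ V₀) (hV1 : 0 ≤ V₁)
    (hυ : 0 ≤ υ) (hσ : 0 ≤ σ) (hε : 0 ≤ ε) (hn : 0 ≤ n) (hσ1 : σ ≤ 1) (hυ1 : υ ≤ 1)
    (hCE : 0 ≤ CE) (hCw : 0 ≤ Cw) (hCi : 0 ≤ Ci)
    (hM : CE * (υ + σ * V₁ + υ * V₁ + n + ε) ≤ 1 / 2) :
    (1 + 2 * (CE * (υ + σ * V₁ + υ * V₁ + n + ε))) *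
        (Λ * V₀ + Λ * V₁ * (Cw * (υ + σ * V₀)) + Λ * (Ci * (υ + σ * V₁ + υ * V₁ + n + ε))) ≤
      Λ * ((1 + (4 * CE + 2 * Cw + 2 * Ci) * (υ + V₁ + n + ε)) * V₀ +
        (4 * CE + 2 * Cw + 2 * Ci) * (υ + σ * V₁ + υ * V₁ + n + ε)) := by
  set D := υ + σ * V₁ + υ * V₁ + n + ε with hD
  set D₁ := υ + V₁ + n + ε with hD1
  have hσV : 0 ≤ σ * V₁ := by positivity
  have hυV : 0 ≤ υ * V₁ := by positivity
  have h1 : D ≤ 2 * D₁ := by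
    have : σ * V₁ ≤ V₁ := by nlinarith
    have : υ * V₁ ≤ V₁ := by nlinarith
    linarith
  have hD0 : 0 ≤ D := by linarith
  have hD10 : 0 ≤ D₁ := by linarith
  have h2 : 2 * (CE * D) ≤ 1 := by linarith
  have h3 : σ * V₁ ≤ D₁ := by
    have : σ * V₁ ≤ V₁ := by nlinarith
    linarith
  have h4 : υ * V₁ ≤ D := by linarith
  have h5 : (1 + 2 * (CE * D)) * (V₀ + V₁ * (Cw * (υ + σ * V₀)) + Ci * D) ≤
      (1 + (4 * CE + 2 * Cw + 2 * Ci) * D₁) * V₀ + (4 * CE + 2 * Cw + 2 * Ci) * D := by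
    have e1 : (1 + 2 * (CE * D)) * (V₀ + V₁ * (Cw * (υ + σ * V₀)) + Ci * D) =
        V₀ + 2 * (CE * D) * V₀ + (1 + 2 * (CE * D)) * (Cw * (σ * V₁)) * V₀ +
          (1 + 2 * (CE * D)) * (Cw * (υ * V₁)) + (1 + 2 * (CE * D)) * (Ci * D) := by ring
    rw [e1]
    have a1 : 2 * (CE * D) * V₀ ≤ 4 * CE * D₁ * V₀ := by
      apply mul_le_mul_of_nonneg_right _ hV0
      have := mul_le_mul_of_nonneg_left h1 hCE
      linarith
    have a2 : (1 + 2 * (CE * D)) * (Cw * (σ * V₁)) * V₀ ≤ 2 * Cw * D₁ * V₀ := by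
      apply mul_le_mul_of_nonneg_right _ hV0
      calc (1 + 2 * (CE * D)) * (Cw * (σ * V₁)) ≤ 2 * (Cw * D₁) := by
            apply mul_le_mul (by linarith) (mul_le_mul_of_nonneg_left h3 hCw) (by positivity)
              (by norm_num)
        _ = 2 * Cw * D₁ := by ring
    have a3 : (1 + 2 * (CE * D)) * (Cw * (υ * V₁)) ≤ 2 * Cw * D := by
      calc (1 + 2 * (CE * D)) * (Cw * (υ * V₁)) ≤ 2 * (Cw * D) := by
            apply mul_le_mul (by linarith) (mul_le_mul_of_nonneg_left h4 hCw) (by positivity)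
              (by norm_num)
        _ = 2 * Cw * D := by ring
    have a4 : (1 + 2 * (CE * D)) * (Ci * D) ≤ 2 * Ci * D := by
      calc (1 + 2 * (CE * D)) * (Ci * D) ≤ 2 * (Ci * D) := by
            apply mul_le_mul_of_nonneg_right (by linarith) (by positivity)
        _ = 2 * Ci * D := by ring
    have a5 : 0 ≤ 2 * Ci * D₁ * V₀ := by positivity
    have a6 : 0 ≤ 4 * CE * D := by positivity
    nlinarith
  calc (1 + 2 * (CE * D)) * (Λ * V₀ + Λ * V₁ * (Cw * (υ + σ * V₀)) + Λ * (Ci * D))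
      = Λ * ((1 + 2 * (CE * D)) * (V₀ + V₁ * (Cw * (υ + σ * V₀)) + Ci * D)) := by ring
    _ ≤ _ := mul_le_mul_of_nonneg_left h5 hΛ

theorem arith6b {Λ V₁ υ σ ε n CE Cw Ci : ℝ} (hΛ : 0 ≤ Λ) (hV1 : 0 ≤ V₁)
    (hυ : 0 ≤ υ) (hσ : 0 ≤ σ) (hε : 0 ≤ ε) (hn : 0 ≤ n) (hσ1 : σ ≤ 1) (hυ1 : υ ≤ 1)
    (hV11 : V₁ ≤ 1) (hCE : 0 ≤ CE) (hCw : 0 ≤ Cw) (hCi : 0 ≤ Ci)
    (hM : CE * (υ + σ * V₁ + υ * V₁ + n + ε) ≤ 1 / 2) :
    (1 + 2 * (CE * (υ + σ * V₁ + υ * V₁ + n + ε))) *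
        (Λ * V₁ * (1 + Cw * (υ + σ * V₁)) + Λ * (Ci * (υ + σ * V₁ + υ * V₁ + n + ε))) ≤
      Λ * ((1 + (4 * CE + 2 * Cw + 2 * Ci) * (υ + σ + V₁ + n + ε)) * V₁ +
        (4 * CE + 2 * Cw + 2 * Ci) * (υ + σ * V₁ + υ * V₁ + n + ε)) := by
  set D := υ + σ * V₁ + υ * V₁ + n + ε with hD
  set D₁ := υ + σ + V₁ + n + ε with hD1
  have hσV : 0 ≤ σ * V₁ := by positivity
  have hυV : 0 ≤ υ * V₁ := by positivity
  have b1 : σ * V₁ ≤ V₁ := by nlinarith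
  have b2 : υ * V₁ ≤ V₁ := by nlinarith
  have b3 : σ * V₁ ≤ σ := by nlinarith
  have h1 : D ≤ 2 * D₁ := by linarith
  have hD0 : 0 ≤ D := by linarith
  have hD10 : 0 ≤ D₁ := by linarith
  have h2 : 2 * (CE * D) ≤ 1 := by linarith
  have h3 : υ + σ * V₁ ≤ D₁ := by linarith
  have h5 : (1 + 2 * (CE * D)) * (V₁ * (1 + Cw * (υ + σ * V₁)) + Ci * D) ≤
      (1 + (4 * CE + 2 * Cw + 2 * Ci) * D₁) * V₁ + (4 * CE + 2 * Cw + 2 * Ci) * D := by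
    have e1 : (1 + 2 * (CE * D)) * (V₁ * (1 + Cw * (υ + σ * V₁)) + Ci * D) =
        V₁ + 2 * (CE * D) * V₁ + (1 + 2 * (CE * D)) * (Cw * (υ + σ * V₁)) * V₁ +
          (1 + 2 * (CE * D)) * (Ci * D) := by ring
    rw [e1]
    have a1 : 2 * (CE * D) * V₁ ≤ 4 * CE * D₁ * V₁ := by
      apply mul_le_mul_of_nonneg_right _ hV1
      have := mul_le_mul_of_nonneg_left h1 hCE
      linarith
    have a2 : (1 + 2 * (CE * D)) * (Cw * (υ + σ * V₁)) * V₁ ≤ 2 * Cw * D₁ * V₁ := by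
      apply mul_le_mul_of_nonneg_right _ hV1
      calc (1 + 2 * (CE * D)) * (Cw * (υ + σ * V₁)) ≤ 2 * (Cw * D₁) := by
            apply mul_le_mul (by linarith) (mul_le_mul_of_nonneg_left h3 hCw) (by positivity)
              (by norm_num)
        _ = 2 * Cw * D₁ := by ring
    have a4 : (1 + 2 * (CE * D)) * (Ci * D) ≤ 2 * Ci * D := by
      calc (1 + 2 * (CE * D)) * (Ci * D) ≤ 2 * (Ci * D) := by
            apply mul_le_mul_of_nonneg_right (by linarith) (by positivity)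
        _ = 2 * Ci * D := by ring
    have a5 : 0 ≤ 2 * Ci * D₁ * V₁ := by positivity
    have a6 : 0 ≤ 4 * CE * D := by positivity
    have a7 : 0 ≤ 2 * Cw * D := by positivity
    nlinarith
  calc (1 + 2 * (CE * D)) * (Λ * V₁ * (1 + Cw * (υ + σ * V₁)) + Λ * (Ci * D))
      = Λ * ((1 + 2 * (CE * D)) * (V₁ * (1 + Cw * (υ + σ * V₁)) + Ci * D)) := by ring
    _ ≤ _ := mul_le_mul_of_nonneg_left h5 hΛ

end Pool.Agent.MP_b87ea9_an.Kam
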