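import Mathlib
import Pool.Agent.Lib.MP_b87ea9_an.KDefs
import Pool.Agent.Lib.MP_b87ea9_an.KDefs2
import Pool.Agent.Lib.MP_b87ea9_an.KDefs3
import Pool.Agent.Lib.MP_b87ea9_an.KC2
import Pool.Agent.Lib.MP_b87ea9_an.KC3
import Pool.Agent.Lib.MP_b87ea9_an.KC5
import Pool.Agent.Lib.MP_b87ea9_an.KC6b
import Pool.Agent.Lib.MP_b87ea9_an.KC6c

set_option autoImplicit false

/-! The rotation response of the new level -/

namespace Pool.Agent.MP_b87ea9_an.Kam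

open Real MeasureTheory

theorem new_response_core {Q ε ω'' : ℝ} {hf : ℂ → ℂ} {J' Ca Cb Cw Ci CE : ℝ}
    {K γ N Nb J ω : ℝ} {h g : ℂ → ℂ} {ω' σ υ V₀ V₁ : ℝ} (hQ : 4 ≤ Q)
    (p : Pre K γ N Nb J ω h g ω' σ υ V₀ V₁)
    (c' : Ctx K γ (Q * N) Nb J' ω' (fun z => h z + hf z) (gnew h g ω ω'))
    (hdf : Differentiable ℂ hf) (R : Rot γ Nb ω'') (hε0 : 0 ≤ ε)
    (hε : Bd (1 / (Q * N)) (fun z => hf z + deriv (deriv hf) z) ε)
    (hω'' : |ω'' - ω'| ≤ σ / (N * max N Nb))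
    (hCa : 1 ≤ Ca) (hCb : 1 ≤ Cb) (hCw : 1 ≤ Cw) (hCi : 1 ≤ Ci)
    (Hb : ∀ x y x' y' : ℂ, x ∈ Strip (4 * cr K / N) → y ∈ Strip (4 * cr K / N) →
      x' ∈ Strip (4 * cr K / N) → y' ∈ Strip (4 * cr K / N) → ‖y - x - ω‖ ≤ ω / 100 →
      ‖y' - x' - ω‖ ≤ ω / 100 →
      ‖BB h g x y - BB h g x' y'‖ ≤ Cb * (1 + N / Nb * J) * (‖x - x'‖ + ‖y - y'‖))
    (Ha : Bd (4 * cr K / N) (aa h g ω) (Ca / Nb))
    (Ha2 : ∀ z ∈ Strip (4 * cr K / N), 1 / (Ca * Nb) ≤ ‖aa h g ω z‖)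
    (Ha3 : Nb / Ca ≤ ‖fc (fun z => 1 / aa h g ω z) 0‖)
    (Ha2' : ∀ z ∈ Strip (4 * cr K / (Q * N)), 1 / (Ca * Nb) ≤
      ‖aa (fun z => h z + hf z) (gnew h g ω ω') ω' z‖)
    (Hw0 : Bd (3 / 2 * cr K / N) (ww h g ω ω') (Cw * (υ + σ * V₀) / N))
    (Hw1 : Bd (3 / 2 * cr K / N) (deriv (ww h g ω ω')) (Cw * (υ + σ * V₁)))
    (Hs : Bd (2 * cr K / N) (ss h g ω ω') (Cw * (σ + υ) / (N * max N Nb)))
    (Hi : ∀ (r δ M γ Nb ω : ℝ) (f : ℂ → ℂ), 0 < δ → δ < r → 0 < γ →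
      γ ≤ 1 → 1 ≤ Nb → 0 ≤ M → Rot γ Nb ω → HP r f → HN r f M →
      Bd (r - δ) (invD ω f) (Ci / γ * (1 / δ + Nb) * M))
    (hY : Cw * (υ + σ * V₀) ≤ cr K / 4) (hX : Cw * (υ + σ * V₁) ≤ 1)
    (hZ : Cw * (σ + υ) ≤ 1 / 100)
    (hCE : CE = Ca ^ 3 * (2 * Cb * Cw + 3 * Cw * (Ca + 2 * Cb * Cw) + 56 * K ^ 3) + 3 + Cw)
    (hM : CE * (υ + σ * V₁ + υ * V₁ + 1 / N + ε) ≤ 1 / 2) :
    Bd (2 * cr K / (Q * N)) (vv (fun z => h z + hf z) (gnew h g ω ω') ω' ω'')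
      ((1 + 2 * (CE * (υ + σ * V₁ + υ * V₁ + 1 / N + ε))) *
        (max N Nb * V₀ + max N Nb * V₁ * (Cw * (υ + σ * V₀)) +
          max N Nb * (Ci / γ * (Q / cr K + 1) * CE * (υ + σ * V₁ + υ * V₁ + 1 / N + ε)))) ∧
    Bd (2 * cr K / (Q * N)) (deriv (vv (fun z => h z + hf z) (gnew h g ω ω') ω' ω''))
      ((1 + 2 * (CE * (υ + σ * V₁ + υ * V₁ + 1 / N + ε))) *
        (N * max N Nb * V₁ * (1 + Cw * (υ + σ * V₁)) +
          N * max N Nb * (Ci / γ * (Q / cr K + 1) * CE * (Q / cr K) *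
            (υ + σ * V₁ + υ * V₁ + 1 / N + ε)))) := by
  have hEb := fun (z : ℂ) (hz : z ∈ Strip (4 * cr K / (Q * N))) =>
    EE_bound6 hQ p c' hdf hε0 hε hω'' hCa hCb hCw Hb Ha Ha2 Ha3 Ha2' Hw0 Hw1 Hs hY hX hZ hz
  rw [← hCE] at hEb
  have hK := p.ctx.K1
  have hN := p.ctx.N1
  have hσ := p.σ0
  have hυ := p.υ0
  have hV1 := p.V10
  have hV0 := p.V00
  have hN0 : 0 < N := by linarith
  have hcr : 0 < cr K := by unfold cr; positivity
  have hK4 : (1 : ℝ) ≤ K ^ 4 := one_le_pow₀ hK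
  have hNb1 := p.ctx.Nb1
  have hNb : 1 ≤ Nb := by linarith
  have hNb0 : 0 < Nb := by linarith
  have hΛ : 0 < max N Nb := lt_max_of_lt_left hN0
  have hQ0 : 0 < Q := by linarith
  have hrr : ∀ a : ℝ, a * cr K / N = a * (cr K / N) := fun a => by ring
  have hrq : ∀ a : ℝ, a * cr K / (Q * N) = a * (cr K / (Q * N)) := fun a => by ring
  have hrN : 0 < cr K / N := by positivity
  have hδ0 : 0 < cr K / (Q * N) := by positivity
  have hsub : 4 * cr K / (Q * N) ≤ cr K / N := by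
    rw [div_le_div_iff₀ (by positivity) hN0]
    linarith [mul_le_mul_of_nonneg_right hQ (mul_pos hcr hN0).le]
  have hCE0 : 0 < CE := by rw [hCE]; positivity
  set D := υ + σ * V₁ + υ * V₁ + 1 / N + ε with hD
  have hD0 : 0 ≤ D := by positivity
  set r := 4 * cr K / (Q * N) with hr
  set δ := cr K / (Q * N) with hδ
  have hrδ : r = 4 * δ := by rw [hr, hδ]; ring
  have hr0 : 0 < r := by rw [hrδ]; positivity
  set tau := tau6 h g ω ω' with htau
  have hwN : ∀ z ∈ Strip r, ‖ww h g ω ω' z‖ ≤ cr K / N := by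
    intro z hz
    have hz32 : z ∈ Strip (3 / 2 * cr K / N) :=
      strip6_mono hz (by rw [hrr]; linarith)
    refine (Hw0 z hz32).trans ?_
    refine div_le_div_of_nonneg_right ?_ hN0.le
    linarith
  have hT2 : ∀ z ∈ Strip r, tau z ∈ Strip (2 * cr K / N) := by
    intro z hz
    have h1 := strip6_move hz (hwN z hz)
    exact strip6_mono h1 (by rw [hrr]; linarith)
  have hT4 : ∀ z ∈ Strip r, tau z ∈ Strip (4 * cr K / N) := fun z hz =>
    strip6_mono (hT2 z hz) (by rw [hrr, hrr]; linarith)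
  -- the abstract response
  have hpos : 0 < 1 / (Ca * Nb) := by positivity
  have hvHP := (vv_eq p).1
  have hwHP := (ww_hp p).1
  have hrle : r ≤ 4 * cr K / N := by rw [hrr]; linarith
  have hF : HP r (fun z => 1 / aa (fun z => h z + hf z) (gnew h g ω ω') ω' z) := by
    refine hp_inv (hp_aa c') (fun z hz => ?_)
    rw [← norm_pos_iff]
    exact lt_of_lt_of_le hpos (Ha2' z hz)
  have hG : HP r (fun z => vv h g ω ω' (tau z)) :=
    hp_comp hvHP (hp_mono hwHP hrle) (fun z hz => hT4 z hz)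
  have hinv : HP (4 * cr K / N) (fun z => 1 / aa h g ω z) := by
    refine hp_inv (hp_aa p.ctx) (fun z hz => ?_)
    rw [← norm_pos_iff]
    exact lt_of_lt_of_le hpos (Ha2 z hz)
  obtain ⟨m, hm⟩ := fc_real6 hinv
  have hm0 : m ≠ 0 := by
    rintro rfl
    rw [hm] at Ha3
    simp at Ha3
    have : 0 < Nb / Ca := by positivity
    linarith
  have hEb' : Bd r (fun z => (1 / aa (fun z => h z + hf z) (gnew h g ω ω') ω' z) / (m : ℂ) - 1 -
      (vv h g ω ω' (tau (z + ω'')) - vv h g ω ω' (tau z))) (CE * D) := by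
    intro z hz
    have h1 := hEb z hz
    rw [hm] at h1
    exact h1
  obtain ⟨hEHP, μ, hμ, hform⟩ := abs_resp6 hr0 p.ctx.γ0 hNb R hF hG hm0 hEb' hM
  set E : ℂ → ℂ := fun z => (1 / aa (fun z => h z + hf z) (gnew h g ω ω') ω' z) / (m : ℂ) - 1 -
      (vv h g ω ω' (tau (z + ω'')) - vv h g ω ω' (tau z)) with hE
  have hvv : ∀ z ∈ Strip r, vv (fun z => h z + hf z) (gnew h g ω ω') ω' ω'' z =
      (1 + μ)⁻¹ * (vv h g ω ω' (tau z) - fc (fun z => vv h g ω ω' (tau z)) 0 + invD ω'' E z) := by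
    intro z hz
    rw [← hform z hz]
    rfl
  have hM0 : 0 ≤ CE * D := by positivity
  have hinvμ : ‖(1 + μ)⁻¹‖ ≤ 1 + 2 * (CE * D) := by
    have h1 : 1 - CE * D ≤ ‖1 + μ‖ := by
      have := norm_sub_norm_le (1 : ℂ) (-μ)
      rw [norm_neg, norm_one, sub_neg_eq_add] at this
      linarith
    rw [norm_inv]
    have h2 : 0 < 1 - CE * D := by linarith
    calc ‖1 + μ‖⁻¹ ≤ (1 - CE * D)⁻¹ := inv_anti₀ h2 h1
      _ ≤ 1 + 2 * (CE * D) := by
          rw [inv_le_iff_one_le_mul₀ h2]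
          linarith [mul_nonneg hM0 (by linarith : 0 ≤ 1 - 2 * (CE * D))]
  -- bounds of the three terms
  have hGb : ∀ z ∈ Strip r, ‖vv h g ω ω' (tau z)‖ ≤ max N Nb * V₀ := fun z hz =>
    p.bv _ (hT2 z hz)
  have hvdiff : DifferentiableOn ℂ (vv h g ω ω') (Strip (2 * cr K / N)) :=
    ((hp_mono hvHP (by rw [hrr, hrr]; linarith)) : HP (2 * cr K / N) _).hol
  have hmean : ‖fc (fun z => vv h g ω ω' (tau z)) 0‖ ≤ max N Nb * V₁ * (Cw * (υ + σ * V₀)) := by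
    have hq := (qq_bounds K)
    obtain ⟨Cq, -, Hq⟩ := hq
    have hqHP := (Hq p.ctx).1
    have h4 : 0 < 4 * cr K / N := by positivity
    have h0 : fc (vv h g ω ω') 0 = 0 := by
      have := fc_invD hqHP h4 p.ctx.γ0 hNb p.rot 0
      rw [if_pos rfl] at this
      exact this
    have hvr : HP r (vv h g ω ω') := hp_mono hvHP hrle
    have hneg : HP r (fun z => (-1) * vv h g ω ω' z) := by
      have := hp_mul (hp_const r (-1)) hvr
      simpa using this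
    have h1 : fc (fun z => vv h g ω ω' (tau z)) 0 =
        fc (fun z => vv h g ω ω' (tau z) + (-1) * vv h g ω ω' z) 0 := by
      rw [fc_add hG hneg hr0, fc_smul, h0]; ring
    rw [h1]
    refine norm_fc_zero_le (hp_add hG hneg) hr0 (fun t => ?_)
    have ht : (t : ℂ) ∈ Strip r := by show |((t : ℝ) : ℂ).im| < r; simpa using hr0
    have ht2 : (t : ℂ) ∈ Strip (2 * cr K / N) :=
      strip6_mono ht (by rw [hrr]; linarith)
    have ht32 : (t : ℂ) ∈ Strip (3 / 2 * cr K / N) :=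
      strip6_mono ht (by rw [hrr]; linarith)
    have h2 := bd_lip hvdiff p.bv1 (hT2 _ ht) ht2
    have h3 : tau (t : ℂ) - t = ww h g ω ω' t := by
      rw [htau]; unfold tau6; ring
    rw [h3] at h2
    have h5 : vv h g ω ω' (tau t) + (-1) * vv h g ω ω' t =
        vv h g ω ω' (tau t) - vv h g ω ω' t := by ring
    show ‖vv h g ω ω' (tau t) + (-1) * vv h g ω ω' t‖ ≤ _
    rw [h5]
    refine h2.trans ?_
    calc N * max N Nb * V₁ * ‖ww h g ω ω' t‖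
        ≤ N * max N Nb * V₁ * (Cw * (υ + σ * V₀) / N) := by
          apply mul_le_mul_of_nonneg_left (Hw0 _ ht32); positivity
      _ = max N Nb * V₁ * (Cw * (υ + σ * V₀)) := by field_simp
  have hHN : HN r E (CE * D) := hn_of_bd hEHP hEb'
  have hI := Hi r δ (CE * D) γ Nb ω'' E hδ0 (by rw [hrδ]; linarith) p.ctx.γ0 p.ctx.γ1 hNb hM0 R
    hEHP hHN
  have hγ0 := p.ctx.γ0
  have hIb : Ci / γ * (1 / δ + Nb) * (CE * D) ≤
      max N Nb * (Ci / γ * (Q / cr K + 1) * CE * D) := by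
    have h1 : 1 / δ + Nb ≤ (Q / cr K + 1) * max N Nb := by
      have h2 : 1 / δ = Q / cr K * N := by rw [hδ]; field_simp
      rw [h2, add_mul, one_mul]
      have := mul_le_mul_of_nonneg_left (le_max_left N Nb) (by positivity : 0 ≤ Q / cr K)
      linarith [le_max_right N Nb]
    calc Ci / γ * (1 / δ + Nb) * (CE * D) ≤ Ci / γ * ((Q / cr K + 1) * max N Nb) * (CE * D) := by
          apply mul_le_mul_of_nonneg_right _ hM0
          exact mul_le_mul_of_nonneg_left h1 (by positivity)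
      _ = _ := by ring
  have hIHP : HP (r - δ) (invD ω'' E) :=
    hp_mono (invD_hp hEHP hr0 p.ctx.γ0 hNb R) (by linarith)
  have hId := bd_deriv hIHP hδ0 hI
  have hs2 : 2 * cr K / (Q * N) = 2 * δ := by rw [hδ]; ring
  refine ⟨?_, ?_⟩
  · intro z hz
    rw [hs2] at hz
    have hzr : z ∈ Strip r := strip6_mono hz (by rw [hrδ]; linarith)
    have hz3 : z ∈ Strip (r - δ) := strip6_mono hz (by rw [hrδ]; linarith)
    rw [hvv z hzr, norm_mul]
    have h1 := hGb z hzr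
    have h2 := (hI z hz3).trans hIb
    have h3 : ‖vv h g ω ω' (tau z) - fc (fun z => vv h g ω ω' (tau z)) 0 + invD ω'' E z‖ ≤
        max N Nb * V₀ + max N Nb * V₁ * (Cw * (υ + σ * V₀)) +
          max N Nb * (Ci / γ * (Q / cr K + 1) * CE * D) := by
      refine (norm_add_le _ _).trans ?_
      have := norm_sub_le (vv h g ω ω' (tau z)) (fc (fun z => vv h g ω ω' (tau z)) 0)
      linarith
    exact mul_le_mul hinvμ h3 (norm_nonneg _) (by positivity)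
  · intro z hz
    rw [hs2] at hz
    have hzr : z ∈ Strip r := strip6_mono hz (by rw [hrδ]; linarith)
    have hz2 : z ∈ Strip (r - δ - δ) := strip6_mono hz (by rw [hrδ]; linarith)
    have hzw : z ∈ Strip (4 * cr K / N) := strip6_mono hzr hrle
    have hz32 : z ∈ Strip (3 / 2 * cr K / N) := strip6_mono hzr (by rw [hrr]; linarith)
    -- derivatives
    have hdw : DifferentiableAt ℂ (ww h g ω ω') z :=
      (hwHP.hol).differentiableAt ((isOpen_strip _).mem_nhds hzw)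
    have hdv : DifferentiableAt ℂ (vv h g ω ω') (tau z) :=
      (hvHP.hol).differentiableAt ((isOpen_strip _).mem_nhds (hT4 z hzr))
    have hdtau : HasDerivAt tau (1 + deriv (ww h g ω ω') z) z :=
      (hasDerivAt_id z).add hdw.hasDerivAt
    have hdG : HasDerivAt (fun z => vv h g ω ω' (tau z))
        (deriv (vv h g ω ω') (tau z) * (1 + deriv (ww h g ω ω') z)) z :=
      HasDerivAt.comp z hdv.hasDerivAt hdtau
    have hdI : DifferentiableAt ℂ (invD ω'' E) z :=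
      ((invD_hp hEHP hr0 p.ctx.γ0 hNb R).hol).differentiableAt ((isOpen_strip _).mem_nhds hzr)
    have hdu : HasDerivAt (fun z => (1 + μ)⁻¹ * (vv h g ω ω' (tau z) -
        fc (fun z => vv h g ω ω' (tau z)) 0 + invD ω'' E z))
        ((1 + μ)⁻¹ * (deriv (vv h g ω ω') (tau z) * (1 + deriv (ww h g ω ω') z) +
          deriv (invD ω'' E) z)) z := by
      have := ((hdG.sub_const (fc (fun z => vv h g ω ω' (tau z)) 0)).add
        hdI.hasDerivAt).const_mul ((1 + μ)⁻¹)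
      exact this
    have heq : (vv (fun z => h z + hf z) (gnew h g ω ω') ω' ω'') =ᶠ[nhds z]
        (fun z => (1 + μ)⁻¹ * (vv h g ω ω' (tau z) -
        fc (fun z => vv h g ω ω' (tau z)) 0 + invD ω'' E z)) := by
      filter_upwards [(isOpen_strip r).mem_nhds hzr] with w hw
      exact hvv w hw
    rw [heq.deriv_eq, hdu.deriv, norm_mul]
    have h1 : ‖deriv (vv h g ω ω') (tau z)‖ ≤ N * max N Nb * V₁ := p.bv1 _ (hT2 z hzr)
    have h2 : ‖1 + deriv (ww h g ω ω') z‖ ≤ 1 + Cw * (υ + σ * V₁) := by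
      refine (norm_add_le _ _).trans ?_
      rw [norm_one]
      linarith [Hw1 z hz32]
    have h3 := hId z hz2
    have h4 : Ci / γ * (1 / δ + Nb) * (CE * D) / δ ≤
        N * max N Nb * (Ci / γ * (Q / cr K + 1) * CE * (Q / cr K) * D) := by
      have h5 := div_le_div_of_nonneg_right hIb hδ0.le
      refine h5.trans (le_of_eq ?_)
      rw [hδ]
      field_simp
    have h6 : ‖deriv (vv h g ω ω') (tau z) * (1 + deriv (ww h g ω ω') z) +
          deriv (invD ω'' E) z‖ ≤ N * max N Nb * V₁ * (1 + Cw * (υ + σ * V₁)) +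
          N * max N Nb * (Ci / γ * (Q / cr K + 1) * CE * (Q / cr K) * D) := by
      refine (norm_add_le _ _).trans ?_
      rw [norm_mul]
      have h7 := mul_le_mul h1 h2 (norm_nonneg _) (by positivity)
      linarith
    exact mul_le_mul hinvμ h6 (norm_nonneg _) (by positivity)

theorem new_response (K γ Q : ℝ) (hQ : 4 ≤ Q) : ∃ C x₁ : ℝ, 1 ≤ C ∧ 0 < x₁ ∧ x₁ ≤ 1 ∧
    ∀ {N Nb J ω : ℝ} {h g : ℂ → ℂ} {ω' σ υ V₀ V₁ : ℝ}, Pre K γ N Nb J ω h g ω' σ υ V₀ V₁ →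
      υ ≤ x₁ → σ ≤ x₁ → V₁ ≤ x₁ → σ * V₀ ≤ x₁ → 1 / N ≤ x₁ →
      ∀ (hf : ℂ → ℂ) (ω'' J' ε : ℝ), Ctx K γ (Q * N) Nb J' ω' (fun z => h z + hf z) (gnew h g ω ω') →
        Differentiable ℂ hf → Rot γ Nb ω'' → |ω'' - ω'| ≤ σ / (N * max N Nb) → 0 ≤ ε → ε ≤ x₁ →
        Bd (1 / (Q * N)) (fun z => hf z + deriv (deriv hf) z) ε →
        Bd (2 * cr K / (Q * N)) (vv (fun z => h z + hf z) (gnew h g ω ω') ω' ω'')
          (max N Nb * ((1 + C * (υ + V₁ + 1 / N + ε)) * V₀ +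
            C * (υ + σ * V₁ + υ * V₁ + 1 / N + ε))) ∧
        Bd (2 * cr K / (Q * N)) (deriv (vv (fun z => h z + hf z) (gnew h g ω ω') ω' ω''))
          (N * max N Nb * ((1 + C * (υ + σ + V₁ + 1 / N + ε)) * V₁ +
            C * (υ + σ * V₁ + υ * V₁ + 1 / N + ε))) := by
  obtain ⟨Ca, hCa, Ha⟩ := aa_bounds K
  obtain ⟨Cb, hCb, Hb⟩ := BB_lip K
  obtain ⟨Cw, hCw, Hw⟩ := ww_bounds K γ
  obtain ⟨Ci, hCi, Hi⟩ := invD_bd
  by_cases hKγ : 1 ≤ K ∧ 0 < γ
  swap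
  · refine ⟨1, 1, le_rfl, one_pos, le_rfl, ?_⟩
    intro N Nb J ω h g ω' σ υ V₀ V₁ p
    exact absurd ⟨p.ctx.K1, p.ctx.γ0⟩ hKγ
  obtain ⟨hK, hγ⟩ := hKγ
  have hcr : 0 < cr K := by unfold cr; positivity
  have hcr1 : cr K ≤ 1 := by
    unfold cr
    have : (1 : ℝ) ≤ K ^ 4 := one_le_pow₀ hK
    rw [div_le_one (by positivity)]
    linarith
  have hQ0 : 0 < Q := by linarith
  set CE := Ca ^ 3 * (2 * Cb * Cw + 3 * Cw * (Ca + 2 * Cb * Cw) + 56 * K ^ 3) + 3 + Cw with hCE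
  have hCE1 : 1 ≤ CE := by
    have : 0 ≤ Ca ^ 3 * (2 * Cb * Cw + 3 * Cw * (Ca + 2 * Cb * Cw) + 56 * K ^ 3) := by positivity
    linarith
  have hCE0 : 0 < CE := by linarith
  set C1 := Ci / γ * (Q / cr K + 1) * CE with hC1
  have hC10 : 0 < C1 := by positivity
  set C2 := C1 * (Q / cr K) with hC2
  have hC20 : 0 < C2 := by positivity
  have hCw0 : 0 < Cw := by linarith
  refine ⟨4 * CE + 2 * Cw + 2 * (C1 + C2), cr K / (200 * Cw * CE), by linarith, by positivity,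
    ?_, ?_⟩
  · rw [div_le_one (by positivity)]
    linarith [mul_le_mul hCw hCE1 zero_le_one (by linarith)]
  intro N Nb J ω h g ω' σ υ V₀ V₁ p hυx hσx hV1x hσV hNx hf ω'' J' ε c' hdf R hω'' hε0 hεx hε
  have hN := p.ctx.N1
  have hσ := p.σ0
  have hυ := p.υ0
  have hV1 := p.V10
  have hV0 := p.V00
  have hN0 : 0 < N := by linarith
  set x₁ := cr K / (200 * Cw * CE) with hx₁
  have hx0 : 0 < x₁ := by positivity
  have hCwx : Cw * x₁ ≤ cr K / 200 := by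
    rw [hx₁]
    have h1 : Cw * (cr K / (200 * Cw * CE)) = cr K / 200 / CE := by field_simp
    rw [h1]
    exact div_le_self (by positivity) hCE1
  have hCEx : CE * x₁ ≤ 1 / 200 := by
    rw [hx₁]
    have h1 : CE * (cr K / (200 * Cw * CE)) = cr K / (200 * Cw) := by field_simp
    rw [h1]
    rw [div_le_div_iff₀ (by positivity) (by norm_num)]
    linarith
  have hx1 : x₁ ≤ 1 / 200 := by
    linarith [mul_le_mul_of_nonneg_right hCE1 hx0.le]
  have hσ1 : σ ≤ 1 := by linarith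
  have hυ1 : υ ≤ 1 := by linarith
  have hV11 : V₁ ≤ 1 := by linarith
  have hσV1 : σ * V₁ ≤ x₁ := by
    linarith [mul_le_mul_of_nonneg_right hσ1 hV1]
  have hυV1 : υ * V₁ ≤ x₁ := by
    linarith [mul_le_mul_of_nonneg_right hυ1 hV1]
  have hY : Cw * (υ + σ * V₀) ≤ cr K / 4 := by
    have : Cw * (υ + σ * V₀) ≤ Cw * (x₁ + x₁) := mul_le_mul_of_nonneg_left (by linarith) hCw0.le
    linarith
  have hX : Cw * (υ + σ * V₁) ≤ 1 := by
    have : Cw * (υ + σ * V₁) ≤ Cw * (x₁ + x₁) := mul_le_mul_of_nonneg_left (by linarith) hCw0.le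
    linarith
  have hZ : Cw * (σ + υ) ≤ 1 / 100 := by
    have : Cw * (σ + υ) ≤ Cw * (x₁ + x₁) := mul_le_mul_of_nonneg_left (by linarith) hCw0.le
    linarith
  have hM : CE * (υ + σ * V₁ + υ * V₁ + 1 / N + ε) ≤ 1 / 2 := by
    have : CE * (υ + σ * V₁ + υ * V₁ + 1 / N + ε) ≤ CE * (x₁ + x₁ + x₁ + x₁ + x₁) :=
      mul_le_mul_of_nonneg_left (by linarith) hCE0.le
    linarith
  obtain ⟨Ha1, Ha2, -, Ha3, -, -⟩ := Ha p.ctx
  obtain ⟨-, Ha2', -, -, -, -⟩ := Ha c'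
  obtain ⟨Hw0, Hw1, -, Hs, -, -⟩ := Hw p
  obtain ⟨hA, hB⟩ := new_response_core hQ p c' hdf R hε0 hε hω'' hCa hCb hCw hCi
    (fun x y x' y' h1 h2 h3 h4 h5 h6 => Hb p.ctx x y x' y' h1 h2 h3 h4 h5 h6)
    Ha1 Ha2 Ha3 Ha2' Hw0 Hw1 Hs Hi hY hX hZ hCE hM
  have hΛ : 0 < max N Nb := lt_max_of_lt_left hN0
  have hn : 0 ≤ 1 / N := by positivity
  have hD0 : 0 ≤ υ + σ * V₁ + υ * V₁ + 1 / N + ε := by positivity
  refine ⟨fun z hz => (hA z hz).trans ?_, fun z hz => (hB z hz).trans ?_⟩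
  · refine le_trans ?_ (arith6a hΛ.le hV0 hV1 hυ hσ hε0 hn hσ1 hυ1 hCE0.le hCw0.le
      (by positivity : 0 ≤ C1 + C2) hM)
    apply mul_le_mul_of_nonneg_left _ (by positivity)
    have h1 : max N Nb * (C1 * (υ + σ * V₁ + υ * V₁ + 1 / N + ε)) ≤
        max N Nb * ((C1 + C2) * (υ + σ * V₁ + υ * V₁ + 1 / N + ε)) := by
      apply mul_le_mul_of_nonneg_left _ hΛ.le
      apply mul_le_mul_of_nonneg_right _ hD0
      linarith
    linarith
  · refine le_trans ?_ (arith6b (by positivity : 0 ≤ N * max N Nb) hV1 hυ hσ hε0 hn hσ1 hυ1 hV11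
      hCE0.le hCw0.le (by positivity : 0 ≤ C1 + C2) hM)
    apply mul_le_mul_of_nonneg_left _ (by positivity)
    have h1 : N * max N Nb * (C2 * (υ + σ * V₁ + υ * V₁ + 1 / N + ε)) ≤
        N * max N Nb * ((C1 + C2) * (υ + σ * V₁ + υ * V₁ + 1 / N + ε)) := by
      apply mul_le_mul_of_nonneg_left _ (by positivity)
      apply mul_le_mul_of_nonneg_right _ hD0
      linarith
    linarith

end Pool.Agent.MP_b87ea9_an.Kam
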