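import Mathlib
import Pool.Agent.Lib.MP_b87ea9_an.KDefs
import Pool.Agent.Lib.MP_b87ea9_an.KDefs2
import Pool.Agent.Lib.MP_b87ea9_an.KDefs3
import Pool.Agent.Lib.MP_b87ea9_an.KC4
import Pool.Agent.Lib.MP_b87ea9_an.KC5

set_option autoImplicit false

/-! The error at the next level -/

namespace Pool.Agent.MP_b87ea9_an.Kam

open Real MeasureTheory

/-- the error is linear in the support function -/
private theorem kc7_FF_add {h hf g : ℂ → ℂ} {ω : ℝ} (hh : Differentiable ℂ h)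
    (hhf : Differentiable ℂ hf) (z : ℂ) :
    FF (fun z => h z + hf z) g ω z = FF h g ω z + FF hf g ω z := by
  have hd : ∀ x, deriv (fun z => h z + hf z) x = deriv h x + deriv hf x := fun x =>
    deriv_fun_add (hh x) (hhf x)
  simp only [FF, PP, RR, Sx, Sy, hd]
  ring

private theorem kc7_invD_congr {ω : ℝ} {f f' : ℂ → ℂ} (h : ∀ t : ℝ, f t = f' t) :
    invD ω f = invD ω f' := by
  have hfc : ∀ n, fc f n = fc f' n := by
    intro n
    rw [fc, fc]
    congr 1
    refine intervalIntegral.integral_congr fun t _ => ?_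
    simp only [h t]
  funext z
  rw [invD, invD]
  refine tsum_congr fun n => ?_
  rw [hfc]

private theorem kc7_fc_real {r : ℝ} {f : ℂ → ℂ} (h : HP r f) : fc f 0 = (((fc f 0).re : ℝ) : ℂ) := by
  have h1 := fc_neg h 0
  rw [neg_zero] at h1
  exact (Complex.conj_eq_iff_re.mp h1.symm).symm

private theorem kc7_strip_shift {r : ℝ} {z : ℂ} (a : ℝ) : z + a ∈ Strip r ↔ z ∈ Strip r := by
  simp [Strip]

/-- the telescoping part -/
private theorem kc7_tel {r γ Nb ω : ℝ} {Y : ℂ → ℂ} (h : HP r Y) (hr : 0 < r) (hγ : 0 < γ)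
    (hNb : 1 ≤ Nb) (R : Rot γ Nb ω) {z : ℂ} (hz : z ∈ Strip r) :
    invD ω (fun z => Y (z + ω) - Y z) z = Y z - fc Y 0 := by
  have h1 : HP r (fun z => Y (z + ω) - Y z) := hp_sub (hp_shift h ω) h
  have hre := kc7_fc_real h
  have hc : HP r (fun _ => fc Y 0) := by
    rw [hre]
    exact hp_const r _
  have h2 : HP r (fun z => Y z - fc Y 0) := hp_sub h hc
  have hneg : ∀ (f f' : ℂ → ℂ), HP r f → HP r f' → fc (fun z => f z - f' z) 0 = fc f 0 - fc f' 0 := by
    intro f f' hf hf'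
    have e1 : HP r (fun z => (-1 : ℂ) * f' z) := by
      have := hp_mul (hp_const r (-1)) hf'
      simp only [Complex.ofReal_neg, Complex.ofReal_one] at this
      exact this
    have e2 := fc_add hf e1 hr 0
    rw [fc_smul] at e2
    have e3 : (fun z => f z - f' z) = fun z => f z + (-1 : ℂ) * f' z := by
      funext z; ring
    rw [e3, e2]; ring
  have h3 : fc (fun z => Y (z + ω) - Y z) 0 = 0 := by
    rw [hneg _ _ (hp_shift h ω) h, fc_translate h hr]
    simp
  have h4 : fc (fun _ : ℂ => fc Y 0) 0 = fc Y 0 := by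
    rw [fc]
    simp only [Int.cast_zero, zero_mul, neg_zero, Complex.exp_zero, mul_one]
    rw [intervalIntegral.integral_const]
    have : ((2 * π - 0 : ℝ) • fc Y 0 : ℂ) = (2 * π) * fc Y 0 := by
      rw [Complex.real_smul]
      push_cast
      ring
    rw [this]
    have hpi : (2 * (π : ℂ)) ≠ 0 := by
      have : (π : ℂ) ≠ 0 := by exact_mod_cast Real.pi_ne_zero
      simpa using this
    field_simp
  have h5 : fc (fun z => Y z - fc Y 0) 0 = 0 := by
    rw [hneg _ _ h hc, h4, sub_self]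
  refine invD_unique h1 hr hγ hNb R h2 h5 ?_ hz
  intro z _
  rw [h3]
  ring

theorem new_uu (K γ Q : ℝ) (hQ : 4 ≤ Q) : ∃ C x₁ : ℝ, 1 ≤ C ∧ 0 < x₁ ∧ x₁ ≤ 1 ∧
    ∀ {N Nb J ω : ℝ} {h g : ℂ → ℂ} {ω' σ υ V₀ V₁ : ℝ}, Pre K γ N Nb J ω h g ω' σ υ V₀ V₁ →
      υ ≤ x₁ → σ ≤ x₁ → σ * V₀ ≤ x₁ → σ * V₁ ≤ x₁ →
      ∀ (hf : ℂ → ℂ) (ω'' J' φ : ℝ), Ctx K γ (Q * N) Nb J' ω' (fun z => h z + hf z) (gnew h g ω ω') →
        Differentiable ℂ hf → Rot γ Nb ω'' → |ω'' - ω'| ≤ σ / (N * max N Nb) →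
        HP (4 * cr K / (Q * N)) (FF hf (gnew h g ω ω') ω') →
        Bd (2 * cr K / (Q * N)) (invD ω'' (fun z => FF hf (gnew h g ω ω') ω' (z + ω''))) φ →
        Bd (2 * cr K / (Q * N)) (uu (fun z => h z + hf z) (gnew h g ω ω') ω' ω'')
          (C * ((1 + V₀) * (υ + σ) * (υ + J + 1 / N)) / (Nb * N * max N Nb) + φ) := by
  obtain ⟨C₁, x₁, hC₁, hx₁, hx₁', hne⟩ := new_error K γ
  obtain ⟨C₂, hC₂, hinv⟩ := invD_bd
  set c := cr K with hc
  set D : ℝ := 2 + C₂ / γ * (2 / c + 1) * (4 / c) + C₂ / γ * (2 / c + 1) with hD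
  refine ⟨max 1 (C₁ * D), x₁, le_max_left _ _, hx₁, hx₁', ?_⟩
  intro N Nb J ω h g ω' σ υ V₀ V₁ p hυ hσ hσ0 hσ1 hf ω'' J' φ _ hfd R hdom hFhp hFbd
  obtain ⟨Y, Z, hY, hZ, hYZ, hYb, hZb⟩ := hne p hυ hσ hσ0 hσ1
  -- positivity
  have hK : 1 ≤ K := p.ctx.K1
  have hγ : 0 < γ := p.ctx.γ0
  have hγ1 : γ ≤ 1 := p.ctx.γ1
  have hN : 1 ≤ N := p.ctx.N1
  have hN0 : 0 < N := by linarith
  have hc0 : 0 < c := by rw [hc, cr]; positivity
  have hNb : 1 ≤ Nb := by
    have h1 := p.ctx.Nb1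
    have h2 : 1 ≤ K ^ 4 := one_le_pow₀ hK
    linarith
  have hNb0 : 0 < Nb := by linarith
  have hΛN : N ≤ max N Nb := le_max_left _ _
  have hΛNb : Nb ≤ max N Nb := le_max_right _ _
  set Λ := max N Nb with hΛ
  have hΛ0 : 0 < Λ := by linarith
  have hQ0 : 0 < Q := by linarith
  have hQN : 0 < Q * N := by positivity
  -- the size
  set E := (1 + V₀) * (υ + σ) * (υ + J + 1 / N) with hE
  have hE0 : 0 ≤ E := by
    have h1 := p.V00
    have h2 := p.υ0
    have h3 := p.σ0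
    have h4 := p.ctx.J0
    rw [hE]; positivity
  set B := C₁ * E / (Nb * N * Λ) with hB
  have hB0 : 0 ≤ B := by rw [hB]; positivity
  have hBZ : C₁ * E / (Nb * N * Λ ^ 2) = B / Λ := by
    rw [hB]; field_simp
  rw [hBZ] at hZb
  -- radii
  have hr1 : 0 < c / N := by positivity
  have hrle : c / N ≤ 5 / 4 * c / N := by
    rw [div_le_div_iff_of_pos_right hN0]; linarith
  have hr5 : (0 : ℝ) < 5 / 4 * c / N := by positivity
  have hr4 : 4 * c / (Q * N) ≤ c / N := by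
    rw [div_le_div_iff₀ hQN hN0]
    nlinarith [mul_pos hc0 hN0]
  have hr2 : 2 * c / (Q * N) ≤ c / N - c / (2 * N) := by
    have e1 : c / N - c / (2 * N) = c / (2 * N) := by field_simp; ring
    rw [e1, div_le_div_iff₀ hQN (by positivity)]
    nlinarith [mul_pos hc0 hN0]
  have hr0 : 0 < 4 * c / (Q * N) := by positivity
  -- the pieces
  have hY1 : HP (c / N) Y := hp_mono hY hrle
  have hZ1 : HP (c / N) Z := hp_mono hZ hrle
  set T : ℂ → ℂ := fun z => Y (z + ω'') - Y z with hT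
  set a : ℝ := ω'' - ω' with ha
  set S : ℂ → ℂ := fun z => Y z - Y (z + a) with hS
  set W : ℂ → ℂ := fun z => Z (z + ω'') with hW
  have hThp : HP (c / N) T := hp_sub (hp_shift hY1 ω'') hY1
  have hShp : HP (c / N) S := hp_sub hY1 (hp_shift hY1 a)
  have hWhp : HP (c / N) W := hp_shift hZ1 ω''
  have hSWhp : HP (c / N) (fun z => S z + W z) := hp_add hShp hWhp
  have hGhp : HP (c / N) (fun z => T z + (S z + W z)) := hp_add hThp hSWhp
  have hFhp' : HP (4 * c / (Q * N)) (fun z => FF hf (gnew h g ω ω') ω' (z + ω'')) :=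
    hp_shift hFhp ω''
  -- the error of the next level
  have huu : uu (fun z => h z + hf z) (gnew h g ω ω') ω' ω'' =
      invD ω'' (fun z => (T z + (S z + W z)) + FF hf (gnew h g ω ω') ω' (z + ω'')) := by
    rw [uu]
    refine kc7_invD_congr fun t => ?_
    have ht : ((t : ℂ) + ω'') ∈ Strip (5 / 4 * c / N) := by
      simp only [Strip, Set.mem_ofPred_eq, Complex.add_im, Complex.ofReal_im, add_zero, abs_zero]
      exact hr5
    rw [kc7_FF_add p.ctx.tb.hol hfd, hYZ _ ht]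
    simp only [hT, hS, hW, ha]
    have e1 : (t : ℂ) + ω'' - ω' = t + ((ω'' - ω' : ℝ) : ℂ) := by push_cast; ring
    rw [e1]
    ring
  intro z hz
  have hz4 : z ∈ Strip (4 * c / (Q * N)) := by
    have h1 : 2 * c / (Q * N) ≤ 4 * c / (Q * N) := by
      rw [div_le_div_iff_of_pos_right hQN]; linarith
    exact lt_of_lt_of_le hz h1
  have hz1 : z ∈ Strip (c / N) := lt_of_lt_of_le hz4 hr4
  have hz2 : z ∈ Strip (c / N - c / (2 * N)) := lt_of_lt_of_le hz hr2
  rw [huu, invD_add (hp_mono hGhp hr4) hFhp' hr0 hγ hNb R hz4,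
    invD_add hThp hSWhp hr1 hγ hNb R hz1, invD_add hShp hWhp hr1 hγ hNb R hz1,
    kc7_tel hY1 hr1 hγ hNb R hz1]
  -- bound of the telescoping part
  have hYz : ‖Y z‖ ≤ B := hYb z (lt_of_lt_of_le hz1 hrle)
  have hY0 : ‖fc Y 0‖ ≤ B := by
    refine norm_fc_zero_le hY1 hr1 fun t => hYb _ ?_
    simp only [Strip, Set.mem_ofPred_eq, Complex.ofReal_im, abs_zero]
    exact hr5
  have hδ : 0 < c / (2 * N) := by positivity
  have hδr : c / (2 * N) < c / N := by
    rw [div_lt_div_iff₀ (by positivity) hN0]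
    nlinarith [mul_pos hc0 hN0]
  have hΛle : 1 / (c / (2 * N)) + Nb ≤ (2 / c + 1) * Λ := by
    have e1 : 1 / (c / (2 * N)) = 2 / c * N := by field_simp
    rw [e1]
    have : 2 / c * N ≤ 2 / c * Λ := mul_le_mul_of_nonneg_left hΛN (by positivity)
    linarith
  have hpos1 : 0 ≤ 1 / (c / (2 * N)) + Nb := by positivity
  -- bound of `S`
  have hYd : Bd (c / N) (deriv Y) (4 * N * B / c) := by
    have h1 := bd_deriv hY (δ := c / (4 * N)) (by positivity) hYb
    have e1 : 5 / 4 * c / N - c / (4 * N) = c / N := by field_simp; ring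
    have e2 : B / (c / (4 * N)) = 4 * N * B / c := by field_simp
    rw [e1, e2] at h1
    exact h1
  have hSb : Bd (c / N) S (4 * B / (c * Λ)) := by
    intro x hx
    have hx' : x + a ∈ Strip (c / N) := (kc7_strip_shift a).mpr hx
    have h1 := bd_lip hY1.hol hYd hx hx'
    refine h1.trans ?_
    have e1 : ‖x - (x + a)‖ = |a| := by
      rw [sub_add_cancel_left, norm_neg, Complex.norm_real, Real.norm_eq_abs]
    rw [e1]
    have h2 : |a| ≤ 1 / (N * Λ) := by
      refine hdom.trans ?_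
      rw [div_le_div_iff_of_pos_right (by positivity)]
      linarith
    calc 4 * N * B / c * |a| ≤ 4 * N * B / c * (1 / (N * Λ)) :=
          mul_le_mul_of_nonneg_left h2 (by positivity)
      _ = 4 * B / (c * Λ) := by field_simp
  have hSi := hinv (c / N) (c / (2 * N)) (4 * B / (c * Λ)) γ Nb ω'' S hδ hδr hγ hγ1 hNb
    (by positivity) R hShp (hn_of_bd hShp hSb) z hz2
  have hWb : Bd (c / N) W (B / Λ) := by
    intro x hx
    exact hZb _ (lt_of_lt_of_le ((kc7_strip_shift ω'').mpr hx) hrle)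
  have hWi := hinv (c / N) (c / (2 * N)) (B / Λ) γ Nb ω'' W hδ hδr hγ hγ1 hNb
    (by positivity) R hWhp (hn_of_bd hWhp hWb) z hz2
  have hFz := hFbd z hz
  have hCγ : 0 ≤ C₂ / γ := by positivity
  have hSi2 : ‖invD ω'' S z‖ ≤ C₂ / γ * (2 / c + 1) * (4 / c) * B := by
    refine hSi.trans ?_
    have e1 : C₂ / γ * ((2 / c + 1) * Λ) * (4 * B / (c * Λ)) =
        C₂ / γ * (2 / c + 1) * (4 / c) * B := by field_simp
    rw [← e1]
    exact mul_le_mul_of_nonneg_right (mul_le_mul_of_nonneg_left hΛle hCγ) (by positivity)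
  have hWi2 : ‖invD ω'' W z‖ ≤ C₂ / γ * (2 / c + 1) * B := by
    refine hWi.trans ?_
    have e1 : C₂ / γ * ((2 / c + 1) * Λ) * (B / Λ) = C₂ / γ * (2 / c + 1) * B := by field_simp
    rw [← e1]
    exact mul_le_mul_of_nonneg_right (mul_le_mul_of_nonneg_left hΛle hCγ) (by positivity)
  have hfin : D * B ≤ max 1 (C₁ * D) * E / (Nb * N * Λ) := by
    have e1 : D * B = (C₁ * D) * E / (Nb * N * Λ) := by rw [hB]; ring
    rw [e1]
    exact div_le_div_of_nonneg_right (mul_le_mul_of_nonneg_right (le_max_right _ _) hE0)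
      (by positivity)
  have n1 : ‖Y z - fc Y 0‖ ≤ B + B := (norm_sub_le _ _).trans (add_le_add hYz hY0)
  have n2 := norm_add_le (invD ω'' S z) (invD ω'' W z)
  have n3 := norm_add_le (Y z - fc Y 0) (invD ω'' S z + invD ω'' W z)
  have n4 := norm_add_le (Y z - fc Y 0 + (invD ω'' S z + invD ω'' W z))
    (invD ω'' (fun z => FF hf (gnew h g ω ω') ω' (z + ω'')) z)
  have hDB : D * B = (B + B) + (C₂ / γ * (2 / c + 1) * (4 / c) * B + C₂ / γ * (2 / c + 1) * B) := by
    rw [hD]; ring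
  linarith

end Pool.Agent.MP_b87ea9_an.Kam
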