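import Mathlib
import Pool.Agent.Lib.MP_b87ea9_an.KDefs
import Pool.Agent.Lib.MP_b87ea9_an.KDefs2
import Pool.Agent.Lib.MP_b87ea9_an.KDefs3
import Pool.Agent.Lib.MP_b87ea9_an.KA1

set_option autoImplicit false

/-! Truncations and blocks of the support function -/

namespace Pool.Agent.MP_b87ea9_an.Kam

open Real MeasureTheory

theorem kd0_mem {N : ℕ} {n : ℤ} : n ∈ Finset.Icc (-(N : ℤ)) N ↔ |n| ≤ (N : ℤ) := by
  rw [Finset.mem_Icc, abs_le]

theorem kd0_sum_sub {E : Type*} [AddCommMonoid E] {A B : ℕ} (h : A ≤ B) (f : ℤ → E) :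
    ∑ n ∈ Finset.Icc (-(A : ℤ)) A, f n =
      ∑ n ∈ Finset.Icc (-(B : ℤ)) B, if |n| ≤ (A : ℤ) then f n else 0 := by
  rw [← Finset.sum_filter]
  refine Finset.sum_congr ?_ (fun _ _ => rfl)
  ext n
  rw [Finset.mem_filter, kd0_mem, kd0_mem]
  constructor
  · intro h1
    exact ⟨h1.trans (by exact_mod_cast h), h1⟩
  · exact fun h1 => h1.2

theorem trunc_block {c : ℤ → ℂ} {A B : ℕ} (h : A ≤ B) (z : ℂ) :
    trunc c B z = trunc c A z + blockF c A B z := by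
  unfold blockF trunc
  rw [kd0_sum_sub h, ← Finset.sum_add_distrib]
  refine Finset.sum_congr rfl (fun n _ => ?_)
  by_cases hn : |n| ≤ (A : ℤ)
  · simp only [if_pos hn, zero_mul, add_zero]
  · simp only [if_neg hn, zero_add]

theorem kd0_hasDerivAt (c : ℤ → ℂ) (N : ℕ) (z : ℂ) :
    HasDerivAt (trunc c N) (trunc (fun n => ((n : ℂ) * Complex.I) * c n) N z) z := by
  unfold trunc
  apply HasDerivAt.fun_sum
  intro n _
  have h1 : HasDerivAt (fun z : ℂ => (n : ℂ) * z * Complex.I) ((n : ℂ) * Complex.I) z := by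
    simpa using ((hasDerivAt_id z).const_mul (n : ℂ)).mul_const Complex.I
  have h2 := (h1.cexp).const_mul (c n)
  refine h2.congr_deriv ?_
  ring

theorem kd0_deriv (c : ℤ → ℂ) (N : ℕ) :
    deriv (trunc c N) = trunc (fun n => ((n : ℂ) * Complex.I) * c n) N := by
  funext z
  exact (kd0_hasDerivAt c N z).deriv

theorem kd0_differentiable (c : ℤ → ℂ) (N : ℕ) : Differentiable ℂ (trunc c N) :=
  fun z => (kd0_hasDerivAt c N z).differentiableAt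

theorem kd0_iteratedDeriv (c : ℤ → ℂ) (N : ℕ) (j : ℕ) :
    iteratedDeriv j (trunc c N) = trunc (fun n => ((n : ℂ) * Complex.I) ^ j * c n) N := by
  induction j with
  | zero => simp
  | succ j ih =>
    rw [iteratedDeriv_succ, ih, kd0_deriv]
    congr 1
    funext n
    rw [pow_succ]
    ring

theorem kd0_norm_exp {N : ℕ} {n : ℤ} (hn : |n| ≤ (N : ℤ)) {z : ℂ} (hz : z ∈ Strip (1 / (N : ℝ))) :
    ‖Complex.exp (n * z * Complex.I)‖ ≤ 3 := by
  rw [Complex.norm_exp]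
  have h1 : ((n : ℂ) * z * Complex.I).re = -((n : ℝ) * z.im) := by
    simp [Complex.mul_re, Complex.mul_im]
  rw [h1]
  have hz' : |z.im| < 1 / (N : ℝ) := hz
  have hN : 0 < (N : ℝ) := by
    by_contra hcon
    push Not at hcon
    have : (N : ℝ) = 0 := le_antisymm hcon (Nat.cast_nonneg _)
    rw [this] at hz'
    simp at hz'
    exact absurd hz' (not_lt.2 (abs_nonneg _))
  have h2 : -((n : ℝ) * z.im) ≤ 1 := by
    have h3 : |(n : ℝ)| ≤ N := by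
      have : ((|n| : ℤ) : ℝ) ≤ ((N : ℤ) : ℝ) := by exact_mod_cast hn
      simpa using this
    calc -((n : ℝ) * z.im) ≤ |(n : ℝ) * z.im| := neg_le_abs _
      _ = |(n : ℝ)| * |z.im| := abs_mul _ _
      _ ≤ N * (1 / N) := by
          apply mul_le_mul h3 hz'.le (abs_nonneg _) hN.le
      _ = 1 := by field_simp
  calc Real.exp (-((n : ℝ) * z.im)) ≤ Real.exp 1 := Real.exp_le_exp.2 h2
    _ ≤ 3 := by have := Real.exp_one_lt_d9; linarith

theorem kd0_norm_le (c : ℤ → ℂ) (N : ℕ) {z : ℂ} (hz : z ∈ Strip (1 / (N : ℝ))) :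
    ‖trunc c N z‖ ≤ 3 * ∑ n ∈ Finset.Icc (-(N : ℤ)) N, ‖c n‖ := by
  unfold trunc
  refine (norm_sum_le _ _).trans ?_
  rw [Finset.mul_sum]
  refine Finset.sum_le_sum (fun n hn => ?_)
  rw [norm_mul, mul_comm]
  exact mul_le_mul_of_nonneg_right (kd0_norm_exp (kd0_mem.1 hn) hz) (norm_nonneg _)

theorem kd0_per (c : ℤ → ℂ) (N : ℕ) (z : ℂ) : trunc c N (z + 2 * π) = trunc c N z := by
  unfold trunc
  refine Finset.sum_congr rfl (fun n _ => ?_)
  congr 1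
  have : (n : ℂ) * (z + 2 * π) * Complex.I = n * z * Complex.I + n * (2 * π * Complex.I) := by ring
  rw [this, Complex.exp_add, Complex.exp_int_mul_two_pi_mul_I, mul_one]

theorem kd0_rs {c : ℤ → ℂ} (hc : ∀ n, c (-n) = starRingEnd ℂ (c n)) (N : ℕ) (z : ℂ) :
    trunc c N (starRingEnd ℂ z) = starRingEnd ℂ (trunc c N z) := by
  unfold trunc
  rw [map_sum]
  refine Finset.sum_equiv (Equiv.neg ℤ) ?_ ?_
  · intro n
    simp only [Equiv.neg_apply, kd0_mem, abs_neg]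
  · intro n _
    simp only [Equiv.neg_apply]
    rw [map_mul, hc, Complex.conj_conj, ← Complex.exp_conj]
    congr 2
    simp [map_mul]

theorem kd0_sum_pow {K : ℝ} {c : ℤ → ℂ} (hc : Table K c) (N j : ℕ) (hj : j ≤ 3) :
    ∑ n ∈ Finset.Icc (-(N : ℤ)) N, ‖((n : ℂ) * Complex.I) ^ j * c n‖ ≤ K := by
  refine le_trans (Finset.sum_le_sum (fun n _ => ?_)) (hc.abs (Finset.Icc (-(N : ℤ)) N))
  rw [norm_mul, norm_pow, norm_mul, Complex.norm_I, mul_one, Complex.norm_intCast]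
  apply mul_le_mul_of_nonneg_right _ (norm_nonneg _)
  have h0 : 0 ≤ |(n : ℝ)| := abs_nonneg _
  calc |(n : ℝ)| ^ j ≤ (1 + |(n : ℝ)|) ^ j := pow_le_pow_left₀ h0 (by linarith) _
    _ ≤ (1 + |(n : ℝ)|) ^ 3 := pow_le_pow_right₀ (by linarith) hj

theorem tb_trunc {K : ℝ} {c : ℤ → ℂ} (hc : Table K c) : ∃ N₀ : ℕ, ∀ K' : ℝ, 10 * K ≤ K' →
    ∀ N : ℕ, N₀ ≤ N → Tb K' N (trunc c N) := by
  obtain ⟨N₀, hN₀⟩ := exists_nat_ge (K ^ 2)
  refine ⟨N₀, fun K' hK' N hN => ?_⟩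
  have hK1 := hc.K1
  have hNK : K ^ 2 ≤ N := hN₀.trans (by exact_mod_cast hN)
  have hbd : ∀ j : ℕ, j ≤ 3 → ∀ z ∈ Strip (1 / (N : ℝ)),
      ‖iteratedDeriv j (trunc c N) z‖ ≤ K' := by
    intro j hj z hz
    rw [kd0_iteratedDeriv]
    refine (kd0_norm_le _ N hz).trans ?_
    have := kd0_sum_pow hc N j hj
    linarith
  refine
    { hol := kd0_differentiable c N
      per := kd0_per c N
      rs := kd0_rs hc.rs N
      b0 := ?_
      b1 := ?_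
      b2 := ?_
      b3 := ?_
      b4 := ?_
      pos := ?_ }
  · intro z hz
    have := hbd 0 (by norm_num) z hz
    simpa using this
  · intro z hz
    have := hbd 1 (by norm_num) z hz
    simpa [iteratedDeriv_succ] using this
  · intro z hz
    have := hbd 2 (by norm_num) z hz
    simpa [iteratedDeriv_succ] using this
  · intro z hz
    have := hbd 3 (by norm_num) z hz
    simpa [iteratedDeriv_succ] using this
  · intro z hz
    have h4 : deriv (deriv (deriv (deriv (trunc c N)))) = iteratedDeriv 4 (trunc c N) := by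
      simp [iteratedDeriv_succ]
    rw [h4, kd0_iteratedDeriv]
    refine (kd0_norm_le _ N hz).trans ?_
    have h5 : ∑ n ∈ Finset.Icc (-(N : ℤ)) N, ‖((n : ℂ) * Complex.I) ^ 4 * c n‖ ≤
        ∑ n ∈ Finset.Icc (-(N : ℤ)) N, N * ‖((n : ℂ) * Complex.I) ^ 3 * c n‖ := by
      refine Finset.sum_le_sum (fun n hn => ?_)
      have hn' : |(n : ℝ)| ≤ N := by
        have : ((|n| : ℤ) : ℝ) ≤ ((N : ℤ) : ℝ) := by exact_mod_cast (kd0_mem.1 hn)
        simpa using this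
      rw [norm_mul, norm_mul, norm_pow, norm_pow, norm_mul, Complex.norm_I, mul_one,
        Complex.norm_intCast, ← mul_assoc]
      apply mul_le_mul_of_nonneg_right _ (norm_nonneg _)
      rw [pow_succ, mul_comm]
      exact mul_le_mul_of_nonneg_right hn' (by positivity)
    rw [← Finset.mul_sum] at h5
    have h6 := kd0_sum_pow hc N 3 le_rfl
    have hN0 : (0 : ℝ) ≤ N := Nat.cast_nonneg _
    have h7 : (N : ℝ) * ∑ n ∈ Finset.Icc (-(N : ℤ)) N, ‖((n : ℂ) * Complex.I) ^ 3 * c n‖ ≤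
        N * K := mul_le_mul_of_nonneg_left h6 hN0
    nlinarith
  · intro x
    have hsum_abs : Summable fun n : ℤ => (1 + |(n : ℝ)|) ^ 3 * ‖c n‖ := by
      apply summable_of_sum_le
      · intro n; positivity
      · exact hc.abs
    set F : ℤ → ℂ := fun n => c n * (1 - (n : ℂ) ^ 2) * Complex.exp (n * x * Complex.I) with hF
    have hexp : ∀ n : ℤ, ‖Complex.exp ((n : ℂ) * x * Complex.I)‖ = 1 := by
      intro n
      have : (n : ℂ) * x * Complex.I = ((n * x : ℝ) : ℂ) * Complex.I := by push_cast; ring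
      rw [this, Complex.norm_exp_ofReal_mul_I]
    have hFn : ∀ n, ‖F n‖ * (1 + |(n : ℝ)|) ≤ (1 + |(n : ℝ)|) ^ 3 * ‖c n‖ := by
      intro n
      have h1 : ‖F n‖ = ‖c n‖ * ‖(1 - (n : ℂ) ^ 2)‖ := by
        rw [hF]; simp only [norm_mul, hexp, mul_one]
      have h2 : ‖(1 - (n : ℂ) ^ 2)‖ ≤ (1 + |(n : ℝ)|) ^ 2 := by
        have h3 : ‖(1 - (n : ℂ) ^ 2)‖ ≤ 1 + |(n : ℝ)| ^ 2 := by
          refine (norm_sub_le _ _).trans ?_
          rw [norm_one, norm_pow, Complex.norm_intCast]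
        nlinarith [abs_nonneg (n : ℝ)]
      rw [h1]
      have h4 : 0 ≤ 1 + |(n : ℝ)| := by positivity
      calc ‖c n‖ * ‖(1 - (n : ℂ) ^ 2)‖ * (1 + |(n : ℝ)|)
          ≤ ‖c n‖ * (1 + |(n : ℝ)|) ^ 2 * (1 + |(n : ℝ)|) := by gcongr
        _ = (1 + |(n : ℝ)|) ^ 3 * ‖c n‖ := by ring
    have hFle : ∀ n, ‖F n‖ ≤ (1 + |(n : ℝ)|) ^ 3 * ‖c n‖ := by
      intro n
      refine le_trans ?_ (hFn n)
      have : 1 ≤ 1 + |(n : ℝ)| := by linarith [abs_nonneg (n : ℝ)]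
      nlinarith [norm_nonneg (F n)]
    have hFs : Summable F := Summable.of_norm_bounded hsum_abs hFle
    set F1 : ℤ → ℂ := fun n => if |n| ≤ (N : ℤ) then F n else 0 with hF1
    set F2 : ℤ → ℂ := fun n => if |n| ≤ (N : ℤ) then 0 else F n with hF2
    have hF12 : ∀ n, F n = F1 n + F2 n := by
      intro n; simp only [hF1, hF2]; split_ifs <;> simp
    have hF1s : HasSum F1 (∑ n ∈ Finset.Icc (-(N : ℤ)) N, F n) := by
      have h1 : ∑ n ∈ Finset.Icc (-(N : ℤ)) N, F n = ∑ n ∈ Finset.Icc (-(N : ℤ)) N, F1 n := by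
        refine Finset.sum_congr rfl (fun n hn => ?_)
        simp only [hF1]
        rw [if_pos (kd0_mem.1 hn)]
      rw [h1]
      apply hasSum_sum_of_ne_finset_zero
      intro n hn
      simp only [hF1]
      rw [if_neg (fun h => hn (kd0_mem.2 h))]
    have hF2n : ∀ n, ‖F2 n‖ ≤ (1 + |(n : ℝ)|) ^ 3 * ‖c n‖ / (N + 1) := by
      intro n
      simp only [hF2]
      split_ifs with h
      · rw [norm_zero]; positivity
      · rw [le_div_iff₀ (by positivity)]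
        refine le_trans ?_ (hFn n)
        apply mul_le_mul_of_nonneg_left _ (norm_nonneg _)
        have h' : (N : ℤ) ≤ |n| := by omega
        have h'' : ((N : ℤ) : ℝ) ≤ ((|n| : ℤ) : ℝ) := by exact_mod_cast h'
        have h3 : (N : ℝ) ≤ |(n : ℝ)| := by simpa using h''
        linarith
    have hF2s : Summable F2 :=
      Summable.of_norm_bounded (hsum_abs.div_const _) hF2n
    have htsum : ∑' n, F n = (∑ n ∈ Finset.Icc (-(N : ℤ)) N, F n) + ∑' n, F2 n := by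
      have h1 : HasSum F ((∑ n ∈ Finset.Icc (-(N : ℤ)) N, F n) + ∑' n, F2 n) := by
        have := hF1s.add hF2s.hasSum
        have h2 : (fun n => F1 n + F2 n) = F := by funext n; rw [← hF12]
        rwa [h2] at this
      exact h1.tsum_eq
    have hK2 : ∑' n : ℤ, (1 + |(n : ℝ)|) ^ 3 * ‖c n‖ / ((N : ℝ) + 1) ≤ K / (N + 1) := by
      rw [tsum_div_const]
      apply div_le_div_of_nonneg_right _ (by positivity)
      exact hsum_abs.tsum_le_of_sum_le hc.abs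
    have hF2b : ‖∑' n, F2 n‖ ≤ K / (N + 1) :=
      (tsum_of_norm_bounded (hsum_abs.div_const _).hasSum hF2n).trans hK2
    have hval : trunc c N x + deriv (deriv (trunc c N)) x =
        ∑ n ∈ Finset.Icc (-(N : ℤ)) N, F n := by
      rw [kd0_deriv, kd0_deriv]
      unfold trunc
      rw [← Finset.sum_add_distrib]
      refine Finset.sum_congr rfl (fun n _ => ?_)
      simp only [hF]
      have : (n : ℂ) * Complex.I * ((n : ℂ) * Complex.I * c n) = -(n : ℂ) ^ 2 * c n := by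
        have := Complex.I_mul_I
        linear_combination (n : ℂ) ^ 2 * c n * this
      rw [this]
      ring
    have hpos := hc.pos x
    change 2 / K ≤ (∑' n : ℤ, F n).re at hpos
    rw [htsum, Complex.add_re] at hpos
    rw [hval]
    have h1 : (∑' n, F2 n).re ≤ K / (N + 1) := (Complex.re_le_norm _).trans hF2b
    have hKpos : 0 < K := by linarith
    have h2 : K / ((N : ℝ) + 1) ≤ 1 / K := by
      rw [div_le_div_iff₀ (by positivity) hKpos]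
      nlinarith
    have h3 : 1 / K' ≤ 1 / K := by
      apply one_div_le_one_div_of_le hKpos
      linarith
    have h4 : 2 / K = 1 / K + 1 / K := by ring
    linarith

theorem kd0_blk_sq (c : ℤ → ℂ) (A B : ℕ) : blk c A B ^ 2 =
    ∑ n ∈ Finset.Icc (-(B : ℤ)) B, if |n| ≤ (A : ℤ) then 0 else (n : ℝ) ^ 8 * ‖c n‖ ^ 2 := by
  unfold blk
  rw [Real.sq_sqrt]
  apply Finset.sum_nonneg
  intro n _
  split_ifs <;> positivity

theorem kd0_blk_nonneg (c : ℤ → ℂ) (A B : ℕ) : 0 ≤ blk c A B := Real.sqrt_nonneg _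

/-- the basic weight inequality: `|n|^(2j) ≤ (Q/B)^(8-2j) n^8` for `A < |n|` -/
theorem kd0_weight {Q : ℝ} {A B : ℕ} (hA : 1 ≤ A) (hB : (B : ℝ) ≤ Q * A) (hB1 : 1 ≤ B) {n : ℤ}
    (hn : ¬ |n| ≤ (A : ℤ)) {j : ℕ} (hj : j ≤ 4) :
    |(n : ℝ)| ^ j ≤ (Q / B) ^ (4 - j) * (n : ℝ) ^ 4 := by
  have hAn : (A : ℝ) ≤ |(n : ℝ)| := by
    have h' : (A : ℤ) ≤ |n| := by omega
    have h'' : ((A : ℤ) : ℝ) ≤ ((|n| : ℤ) : ℝ) := by exact_mod_cast h'
    simpa using h''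
  have hA0 : (1 : ℝ) ≤ A := by exact_mod_cast hA
  have hB0 : (1 : ℝ) ≤ B := by exact_mod_cast hB1
  have hQ0 : 0 < Q := by
    by_contra hcon
    push Not at hcon
    nlinarith
  have h1 : 1 ≤ (Q / B) * |(n : ℝ)| := by
    rw [div_mul_eq_mul_div, le_div_iff₀ (by linarith)]
    nlinarith
  have h2 : (n : ℝ) ^ 4 = |(n : ℝ)| ^ (4 - j) * |(n : ℝ)| ^ j := by
    rw [← pow_add, Nat.sub_add_cancel hj]
    have : (n : ℝ) ^ 4 = |(n : ℝ) ^ 4| := by
      rw [abs_of_nonneg (by positivity)]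
    rw [this, abs_pow]
  rw [h2, ← mul_assoc, ← mul_pow]
  have h3 : 1 ≤ (Q / B * |(n : ℝ)|) ^ (4 - j) := one_le_pow₀ h1
  have h4 : 0 ≤ |(n : ℝ)| ^ j := by positivity
  nlinarith

theorem kd0_rpow_sub {B : ℝ} (hB : 0 < B) {j : ℕ} (hj : j ≤ 4) (Q : ℝ) :
    (Q / B) ^ (4 - j) = Q ^ (4 - j) * B ^ ((j : ℝ) - 4) := by
  rw [div_pow, div_eq_mul_inv]
  congr 1
  rw [← Real.rpow_natCast B, ← Real.rpow_neg hB.le]
  congr 1
  rw [Nat.cast_sub hj]
  push_cast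
  ring

theorem block_l2 (Q : ℝ) (hQ : 1 ≤ Q) : ∃ C : ℝ, 1 ≤ C ∧ ∀ (c : ℤ → ℂ) (A B : ℕ), 1 ≤ A → A ≤ B →
    (B : ℝ) ≤ Q * A → ∀ j : ℕ, j ≤ 4 →
      ∑ n ∈ Finset.Icc (-(B : ℤ)) B, (|(n : ℝ)| ^ j * ‖(if |n| ≤ (A : ℤ) then 0 else c n : ℂ)‖) ^ 2 ≤
        (C * (B : ℝ) ^ ((j : ℝ) - 4) * blk c A B) ^ 2 := by
  refine ⟨Q ^ 4, one_le_pow₀ hQ, ?_⟩
  intro c A B hA hAB hB j hj
  have hB1 : 1 ≤ B := hA.trans hAB
  have hB0 : (0 : ℝ) < B := by exact_mod_cast hB1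
  rw [mul_pow, kd0_blk_sq, Finset.mul_sum]
  refine Finset.sum_le_sum (fun n _ => ?_)
  split_ifs with h
  · simp
  · have h1 := kd0_weight hA hB hB1 h hj
    rw [kd0_rpow_sub hB0 hj] at h1
    have h2 : |(n : ℝ)| ^ j ≤ Q ^ 4 * (B : ℝ) ^ ((j : ℝ) - 4) * (n : ℝ) ^ 4 := by
      refine h1.trans ?_
      have h3 : Q ^ (4 - j) ≤ Q ^ 4 := pow_le_pow_right₀ hQ (Nat.sub_le _ _)
      have h4 : 0 ≤ (B : ℝ) ^ ((j : ℝ) - 4) := Real.rpow_nonneg hB0.le _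
      gcongr
    have h5 : |(n : ℝ)| ^ j * ‖c n‖ ≤ Q ^ 4 * (B : ℝ) ^ ((j : ℝ) - 4) * (n : ℝ) ^ 4 * ‖c n‖ :=
      mul_le_mul_of_nonneg_right h2 (norm_nonneg _)
    calc (|(n : ℝ)| ^ j * ‖c n‖) ^ 2
        ≤ (Q ^ 4 * (B : ℝ) ^ ((j : ℝ) - 4) * (n : ℝ) ^ 4 * ‖c n‖) ^ 2 :=
          pow_le_pow_left₀ (by positivity) h5 2
      _ = (Q ^ 4 * (B : ℝ) ^ ((j : ℝ) - 4)) ^ 2 * ((n : ℝ) ^ 8 * ‖c n‖ ^ 2) := by ring

/-- sup bounds of a block on the strip `1/B` -/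
theorem block_bounds (Q : ℝ) (hQ : 1 ≤ Q) : ∃ C : ℝ, 1 ≤ C ∧ ∀ (c : ℤ → ℂ) (A B : ℕ), 1 ≤ A → A ≤ B →
    (B : ℝ) ≤ Q * A → Differentiable ℂ (blockF c A B) ∧
      ∀ j : ℕ, j ≤ 4 → Bd (1 / B) (iteratedDeriv j (blockF c A B))
        (C * (B : ℝ) ^ ((j : ℝ) - 7 / 2) * blk c A B) := by
  obtain ⟨C, hC, hl2⟩ := block_l2 Q hQ
  refine ⟨6 * C, by linarith, ?_⟩
  intro c A B hA hAB hB
  refine ⟨kd0_differentiable _ _, ?_⟩
  intro j hj z hz
  have hB1 : 1 ≤ B := hA.trans hAB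
  have hB0 : (0 : ℝ) < B := by exact_mod_cast hB1
  unfold blockF
  rw [kd0_iteratedDeriv]
  refine (kd0_norm_le _ B hz).trans ?_
  have h1 : ∀ n : ℤ, ‖((n : ℂ) * Complex.I) ^ j * (if |n| ≤ (A : ℤ) then 0 else c n : ℂ)‖ =
      |(n : ℝ)| ^ j * ‖(if |n| ≤ (A : ℤ) then 0 else c n : ℂ)‖ := by
    intro n
    rw [norm_mul, norm_pow, norm_mul, Complex.norm_I, mul_one, Complex.norm_intCast]
  simp only [h1]
  have h2 := hl2 c A B hA hAB hB j hj
  have hblk := kd0_blk_nonneg c A B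
  have h3 := Finset.sum_mul_sq_le_sq_mul_sq (Finset.Icc (-(B : ℤ)) B) (fun _ => (1 : ℝ))
    (fun n => |(n : ℝ)| ^ j * ‖(if |n| ≤ (A : ℤ) then 0 else c n : ℂ)‖)
  simp only [one_mul, one_pow, Finset.sum_const, Int.card_Icc, nsmul_eq_mul, mul_one] at h3
  have h4 : (((B : ℤ) + 1 - -(B : ℤ)).toNat : ℝ) ≤ 3 * B := by
    have : ((B : ℤ) + 1 - -(B : ℤ)).toNat ≤ 3 * B := by omega
    exact_mod_cast this
  have hp4 : 0 ≤ (B : ℝ) ^ ((j : ℝ) - 4) := Real.rpow_nonneg hB0.le _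
  have h5 : (∑ n ∈ Finset.Icc (-(B : ℤ)) B,
      (|(n : ℝ)| ^ j * ‖(if |n| ≤ (A : ℤ) then 0 else c n : ℂ)‖)) ^ 2 ≤
      (2 * C * (B : ℝ) ^ ((j : ℝ) - 7 / 2) * blk c A B) ^ 2 := by
    refine h3.trans ?_
    calc _ ≤ (3 * B) * (C * (B : ℝ) ^ ((j : ℝ) - 4) * blk c A B) ^ 2 := by
          apply mul_le_mul h4 h2 (by positivity) (by positivity)
      _ ≤ (2 * C * (B : ℝ) ^ ((j : ℝ) - 7 / 2) * blk c A B) ^ 2 := by
          have h6 : (B : ℝ) ^ ((j : ℝ) - 7 / 2) = (B : ℝ) ^ ((j : ℝ) - 4) * (B : ℝ) ^ (1 / 2 : ℝ) := by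
            rw [← Real.rpow_add hB0]
            congr 1
            ring
          have h7 : ((B : ℝ) ^ (1 / 2 : ℝ)) ^ 2 = B := by
            rw [← Real.rpow_natCast, ← Real.rpow_mul hB0.le]
            norm_num
          rw [h6]
          have h8 : (2 * C * ((B : ℝ) ^ ((j : ℝ) - 4) * (B : ℝ) ^ (1 / 2 : ℝ)) * blk c A B) ^ 2 =
              4 * ((B : ℝ) ^ (1 / 2 : ℝ)) ^ 2 * (C * (B : ℝ) ^ ((j : ℝ) - 4) * blk c A B) ^ 2 := by
            ring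
          rw [h8, h7]
          have h9 : 0 ≤ (C * (B : ℝ) ^ ((j : ℝ) - 4) * blk c A B) ^ 2 := by positivity
          nlinarith
  have hp7 : 0 ≤ (B : ℝ) ^ ((j : ℝ) - 7 / 2) := Real.rpow_nonneg hB0.le _
  have h6 := abs_le_of_sq_le_sq h5 (by positivity)
  have h7 := (le_abs_self _).trans h6
  linarith

/-- the block sizes along a geometric sequence are square summable, with small tails -/
theorem blk_tail {K : ℝ} {c : ℤ → ℂ} (hc : Table K c) (Q : ℕ) (hQ : 2 ≤ Q) : ∀ ε : ℝ, 0 < ε →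
    ∃ N₀ : ℕ, ∀ N : ℕ, N₀ ≤ N → ∀ m : ℕ,
      ∑ k ∈ Finset.range m, blk c (Q ^ k * N) (Q ^ (k + 1) * N) ^ 2 ≤ ε := by
  intro ε hε
  set g : ℤ → ℝ := fun n => (n : ℝ) ^ 8 * ‖c n‖ ^ 2 with hg
  have hg0 : ∀ n, 0 ≤ g n := fun n => by positivity
  have hgs : Summable g := hc.h4
  have hblk : ∀ A B : ℕ, A ≤ B → blk c A B ^ 2 =
      (∑ n ∈ Finset.Icc (-(B : ℤ)) B, g n) - ∑ n ∈ Finset.Icc (-(A : ℤ)) A, g n := by
    intro A B h
    rw [kd0_blk_sq, kd0_sum_sub h, ← Finset.sum_sub_distrib]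
    refine Finset.sum_congr rfl (fun n _ => ?_)
    split_ifs <;> simp [hg]
  have hev := hgs.hasSum.eventually (Metric.ball_mem_nhds (∑' n, g n) hε)
  rw [SummationFilter.unconditional_filter, Filter.eventually_atTop] at hev
  obtain ⟨s, hs⟩ := hev
  refine ⟨s.sup Int.natAbs, fun N hN m => ?_⟩
  have hsN : s ⊆ Finset.Icc (-(N : ℤ)) N := by
    intro n hn
    rw [kd0_mem]
    have h1 : n.natAbs ≤ s.sup Int.natAbs := Finset.le_sup (f := Int.natAbs) hn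
    have h2 : n.natAbs ≤ N := h1.trans hN
    rw [Int.abs_eq_natAbs]
    exact_mod_cast h2
  have h1 := hs _ hsN
  rw [Real.dist_eq] at h1
  have h2 : (∑' n, g n) - ε ≤ ∑ n ∈ Finset.Icc (-(N : ℤ)) N, g n := by
    have := (abs_lt.1 h1).1
    linarith
  have h3 : ∑ k ∈ Finset.range m, blk c (Q ^ k * N) (Q ^ (k + 1) * N) ^ 2 =
      (∑ n ∈ Finset.Icc (-((Q ^ m * N : ℕ) : ℤ)) (Q ^ m * N : ℕ), g n) -
        ∑ n ∈ Finset.Icc (-(N : ℤ)) N, g n := by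
    have h4 : ∀ k, blk c (Q ^ k * N) (Q ^ (k + 1) * N) ^ 2 =
        (∑ n ∈ Finset.Icc (-((Q ^ (k + 1) * N : ℕ) : ℤ)) (Q ^ (k + 1) * N : ℕ), g n) -
        ∑ n ∈ Finset.Icc (-((Q ^ k * N : ℕ) : ℤ)) (Q ^ k * N : ℕ), g n := by
      intro k
      apply hblk
      apply Nat.mul_le_mul_right
      exact Nat.pow_le_pow_right (by omega) (Nat.le_succ k)
    simp only [h4]
    rw [Finset.sum_range_sub (fun k => ∑ n ∈ Finset.Icc (-((Q ^ k * N : ℕ) : ℤ)) (Q ^ k * N : ℕ), g n)]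
    simp
  rw [h3]
  have h5 : ∑ n ∈ Finset.Icc (-((Q ^ m * N : ℕ) : ℤ)) (Q ^ m * N : ℕ), g n ≤ ∑' n, g n :=
    hgs.sum_le_tsum _ (fun n _ => hg0 n)
  linarith

end Pool.Agent.MP_b87ea9_an.Kam
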