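import Mathlib
import Pool.Agent.Lib.MP_b87ea9_an.KDefs
import Pool.Agent.Lib.MP_b87ea9_an.KDefs2
import Pool.Agent.Lib.MP_b87ea9_an.KDefs3
import Pool.Agent.Lib.MP_b87ea9_an.KD0
import Pool.Agent.Lib.MP_b87ea9_an.KA3
import Pool.Agent.Lib.MP_b87ea9_an.KA5

set_option autoImplicit false

/-! The fresh error: identity and `EX` -/

namespace Pool.Agent.MP_b87ea9_an.Kam

open Real MeasureTheory

theorem FF_eq (h g : ℂ → ℂ) (ω : ℝ) (z : ℂ) :
    FF h g ω z = MM h g ω z - (EX h g ω z - EX h g ω (z - ω)) := by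
  unfold FF MM EX PP RR Sx Sy
  simp only [sub_add_cancel]
  ring

namespace KD1

/-! ### basic facts -/

theorem cr_pos {K : ℝ} (hK : 1 ≤ K) : 0 < cr K := by
  unfold cr
  positivity

theorem cr_mul {K : ℝ} (hK : 1 ≤ K) : cr K * K ≤ 1 / 10 ^ 4 := by
  unfold cr
  rw [div_mul_eq_mul_div, div_le_div_iff₀ (by positivity) (by positivity)]
  have h1 : 1 ≤ K ^ 3 := one_le_pow₀ hK
  have h2 : K ≤ K ^ 4 := by nlinarith
  nlinarith

theorem cr_le {K : ℝ} (hK : 1 ≤ K) : cr K ≤ 1 / 10 ^ 4 := by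
  have := cr_mul hK
  have h0 := cr_pos hK
  nlinarith

theorem mem_add_real {r : ℝ} {z : ℂ} (a : ℝ) (hz : z ∈ Strip r) : z + a ∈ Strip r := by
  have : |z.im| < r := hz
  show |(z + (a : ℂ)).im| < r
  simpa using this

theorem mem_re {r : ℝ} {z : ℂ} (hz : z ∈ Strip r) : (z.re : ℂ) ∈ Strip r := by
  have : |z.im| < r := hz
  show |((z.re : ℂ)).im| < r
  simpa using lt_of_le_of_lt (abs_nonneg _) this

/-- a diffeomorphism of the strip moves the imaginary part by a factor at most `2 K` -/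
theorem dif_im {K r : ℝ} {φ : ℂ → ℂ} (D : Dif K r φ) {z : ℂ} (hz : z ∈ Strip r) :
    |(φ z).im| ≤ 2 * K * |z.im| := by
  have h1 := bd_lip D.hol D.bd hz (mem_re hz)
  have h2 : (φ z - φ z.re).im = (φ z).im := by
    rw [Complex.sub_im, D.re, sub_zero]
  have h3 : ‖z - z.re‖ = |z.im| := by
    have : z - z.re = z.im * Complex.I := by
      apply Complex.ext <;> simp
    rw [this, norm_mul, Complex.norm_I, mul_one, Complex.norm_real, Real.norm_eq_abs]
  rw [h3] at h1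
  rw [← h2]
  exact (Complex.abs_im_le_norm _).trans h1

theorem dif_strip {K : ℝ} {B : ℕ} {φ : ℂ → ℂ} (hK : 1 ≤ K) (hB : 1 ≤ B)
    (D : Dif K (4 * cr K / B) φ) {z : ℂ} (hz : z ∈ Strip (4 * cr K / B)) :
    φ z ∈ Strip (1 / B) := by
  have hz' : |z.im| < 4 * cr K / B := hz
  have hB' : (0 : ℝ) < B := by exact_mod_cast hB
  have h1 := dif_im D hz
  have h2 := cr_mul hK
  show |(φ z).im| < 1 / B
  calc |(φ z).im| ≤ 2 * K * |z.im| := h1
    _ ≤ 2 * K * (4 * cr K / B) := by gcongr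
    _ = (8 * (cr K * K)) / B := by ring
    _ ≤ (8 * (1 / 10 ^ 4)) / B := by gcongr
    _ < 1 / B := by
      rw [div_lt_div_iff_of_pos_right hB']
      norm_num

theorem hp_comp' {R r : ℝ} {F φ : ℂ → ℂ} (hF : HP R F) (hφ : HP r (fun z => φ z - z))
    (hs : ∀ z ∈ Strip r, φ z ∈ Strip R) : HP r (fun z => F (φ z)) := by
  have := hp_comp hF hφ (fun z hz => by
    rw [add_sub_cancel]
    exact hs z hz)
  simpa only [add_sub_cancel] using this

theorem hp_sin {r : ℝ} {f : ℂ → ℂ} (h : HP r f) : HP r (fun z => Complex.sin (f z)) :=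
  ⟨h.hol.csin, fun z => by simp only [h.per z], fun z => by simp only [h.rs z, Complex.sin_conj]⟩

theorem hp_cos {r : ℝ} {f : ℂ → ℂ} (h : HP r f) : HP r (fun z => Complex.cos (f z)) :=
  ⟨h.hol.ccos, fun z => by simp only [h.per z], fun z => by simp only [h.rs z, Complex.cos_conj]⟩

theorem hp_neg {r : ℝ} {f : ℂ → ℂ} (h : HP r f) : HP r (fun z => -f z) :=
  ⟨h.hol.neg, fun z => by simp only [h.per z], fun z => by simp only [h.rs z, map_neg]⟩

theorem per_of {r : ℝ} {g : ℂ → ℂ} (h : HP r (fun z => g z - z)) (z : ℂ) :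
    g (z + 2 * π) = g z + 2 * π := by
  have := h.per z
  linear_combination this

theorem rs_of {r : ℝ} {g : ℂ → ℂ} (h : HP r (fun z => g z - z)) (z : ℂ) :
    g (starRingEnd ℂ z) = starRingEnd ℂ (g z) := by
  have := h.rs z
  rw [map_sub] at this
  linear_combination this

theorem hol_of {r : ℝ} {g : ℂ → ℂ} (h : HP r (fun z => g z - z)) :
    DifferentiableOn ℂ g (Strip r) := by
  have := h.hol.add (differentiableOn_id (s := Strip r))
  refine this.congr fun z _ => ?_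
  simp

/-- the derivative of a circle map is periodic -/
theorem hp_dg {r : ℝ} {g : ℂ → ℂ} (h : HP r (fun z => g z - z)) : HP r (deriv g) := by
  refine ⟨(hol_of h).deriv (isOpen_strip r), fun z => ?_, fun z => ?_⟩
  · have : (fun w => g (w + 2 * π)) = fun w => g w + 2 * π := funext (per_of h)
    calc deriv g (z + 2 * π) = deriv (fun w => g (w + 2 * π)) z := by
          rw [deriv_comp_add_const]
      _ = deriv g z := by rw [this, deriv_add_const]
  · have h1 : (starRingEnd ℂ) ∘ g ∘ (starRingEnd ℂ) = g := by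
      funext w
      simp [rs_of h w]
    have h2 := deriv_conj_conj (𝕜 := ℂ) (f := g)
    rw [h1] at h2
    have h3 := congrFun h2 (starRingEnd ℂ z)
    simpa using h3

/-- interpolation between `g z` and `g (z + ω)`; `s = -1, 0, 1` give `g z`, `ψ`, `g (z + ω)` -/
noncomputable def ph (g : ℂ → ℂ) (ω s : ℝ) (z : ℂ) : ℂ :=
  (g z + g (z + ω)) / 2 + s * ((g (z + ω) - g z) / 2)

theorem ph_zero (g : ℂ → ℂ) (ω : ℝ) (z : ℂ) : ph g ω 0 z = (g z + g (z + ω)) / 2 := by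
  simp [ph]

theorem hp_ph {r : ℝ} {g : ℂ → ℂ} (h : HP r (fun z => g z - z)) (ω s : ℝ) :
    HP r (fun z => ph g ω s z - z) := by
  have h1 := hp_shift h ω
  have h2 := hp_mul (hp_const r ((1 - s) / 2)) h
  have h3 := hp_mul (hp_const r ((1 + s) / 2)) h1
  have h4 := hp_add (hp_add h2 h3) (hp_const r ((1 + s) / 2 * ω))
  convert h4 using 2 with z
  unfold ph
  push_cast
  ring

theorem hasDeriv_of {r : ℝ} {g : ℂ → ℂ} (h : DifferentiableOn ℂ g (Strip r)) {z : ℂ}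
    (hz : z ∈ Strip r) : HasDerivAt g (deriv g z) z :=
  ((h z hz).differentiableAt ((isOpen_strip r).mem_nhds hz)).hasDerivAt

theorem hasDeriv_shift {r : ℝ} {g : ℂ → ℂ} (h : DifferentiableOn ℂ g (Strip r)) (ω : ℝ) {z : ℂ}
    (hz : z ∈ Strip r) : HasDerivAt (fun z => g (z + ω)) (deriv g (z + ω)) z :=
  (hasDeriv_of h (mem_add_real ω hz)).comp_add_const z _

theorem hasDeriv_ph {r : ℝ} {g : ℂ → ℂ} (h : DifferentiableOn ℂ g (Strip r)) (ω s : ℝ) {z : ℂ}
    (hz : z ∈ Strip r) : HasDerivAt (ph g ω s)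
      ((deriv g z + deriv g (z + ω)) / 2 + s * ((deriv g (z + ω) - deriv g z) / 2)) z := by
  have h1 := hasDeriv_of h hz
  have h2 := hasDeriv_shift h ω hz
  exact ((h1.add h2).div_const 2).add (((h2.sub h1).div_const 2).const_mul (s : ℂ))

theorem dif_ph {K r : ℝ} {g : ℂ → ℂ} (hr : 0 < r) (D : Dif K r g) (ω : ℝ) {s : ℝ} (hs : |s| ≤ 1) :
    Dif K r (ph g ω s) := by
  obtain ⟨hs1, hs2⟩ := abs_le.mp hs
  have hp : ∀ z ∈ Strip r, deriv (ph g ω s) z =
      (((1 - s) / 2 : ℝ) : ℂ) * deriv g z + (((1 + s) / 2 : ℝ) : ℂ) * deriv g (z + ω) := by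
    intro z hz
    rw [(hasDeriv_ph D.hol ω s hz).deriv]
    push_cast
    ring
  have hreal : ∀ t : ℝ, (t : ℂ) ∈ Strip r := fun t => by
    show |((t : ℂ)).im| < r
    simpa using hr
  refine ⟨fun z hz => (hasDeriv_ph D.hol ω s hz).differentiableAt.differentiableWithinAt,
    fun z => ?_, fun t => ?_, fun t => ?_, fun z hz => ?_⟩
  · unfold ph
    rw [show z + 2 * π + ω = (z + ω) + 2 * π by ring, D.per, D.per]
    ring
  · have e : ph g ω s t = (((1 - s) / 2 : ℝ) : ℂ) * g t +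
        (((1 + s) / 2 : ℝ) : ℂ) * g ((t + ω : ℝ) : ℂ) := by
      unfold ph
      push_cast
      ring
    rw [e, Complex.add_im, Complex.im_ofReal_mul, Complex.im_ofReal_mul, D.re, D.re]
    simp
  · rw [hp t (hreal t), Complex.add_re, Complex.re_ofReal_mul, Complex.re_ofReal_mul]
    have h1 := D.lo t
    have h2 := D.lo (t + ω)
    push_cast at h2
    have h3 : 0 ≤ (1 - s) / 2 := by linarith
    have h4 : 0 ≤ (1 + s) / 2 := by linarith
    nlinarith [mul_le_mul_of_nonneg_left h1 h3, mul_le_mul_of_nonneg_left h2 h4]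
  · rw [hp z hz]
    have h1 := D.bd z hz
    have h2 := D.bd _ (mem_add_real ω hz)
    have h3 : 0 ≤ (1 - s) / 2 := by linarith
    have h4 : 0 ≤ (1 + s) / 2 := by linarith
    calc _ ≤ ‖(((1 - s) / 2 : ℝ) : ℂ) * deriv g z‖ + ‖(((1 + s) / 2 : ℝ) : ℂ) * deriv g (z + ω)‖ :=
          norm_add_le _ _
      _ = (1 - s) / 2 * ‖deriv g z‖ + (1 + s) / 2 * ‖deriv g (z + ω)‖ := by
          rw [norm_mul, norm_mul, Complex.norm_real, Complex.norm_real, Real.norm_of_nonneg h3,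
            Real.norm_of_nonneg h4]
      _ ≤ (1 - s) / 2 * (2 * K) + (1 + s) / 2 * (2 * K) := by gcongr
      _ = 2 * K := by ring

/-- the half difference -/
noncomputable def dl (g : ℂ → ℂ) (ω : ℝ) (z : ℂ) : ℂ := (g (z + ω) - g z) / 2

theorem hp_dl {r : ℝ} {g : ℂ → ℂ} (h : HP r (fun z => g z - z)) (ω : ℝ) : HP r (dl g ω) := by
  have h1 := hp_mul (hp_const r (1 / 2)) (hp_sub (hp_shift h ω) h)
  have h2 := hp_add h1 (hp_const r (ω / 2))
  convert h2 using 2 with z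
  unfold dl
  push_cast
  ring

theorem dl_bd {K r ω : ℝ} {g : ℂ → ℂ} (D : Dif K r g) (hω : 0 ≤ ω) {z : ℂ} (hz : z ∈ Strip r) :
    ‖dl g ω z‖ ≤ K * ω := by
  have h1 := bd_lip D.hol D.bd (mem_add_real ω hz) hz
  have h2 : ‖z + ω - z‖ = ω := by
    rw [add_sub_cancel_left, Complex.norm_real, Real.norm_of_nonneg hω]
  rw [h2] at h1
  unfold dl
  rw [norm_div]
  have : ‖(2 : ℂ)‖ = 2 := by simp
  rw [this]
  linarith

/-! ### the block -/

theorem trunc_rs {c : ℤ → ℂ} (N : ℕ) (hc : ∀ n, c (-n) = starRingEnd ℂ (c n)) (z : ℂ) :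
    trunc c N (starRingEnd ℂ z) = starRingEnd ℂ (trunc c N z) := by
  unfold trunc
  rw [map_sum]
  refine Finset.sum_nbij' (fun n => -n) (fun n => -n) ?_ ?_ ?_ ?_ ?_
  · intro n hn
    rw [Finset.mem_Icc] at hn ⊢
    omega
  · intro n hn
    rw [Finset.mem_Icc] at hn ⊢
    omega
  · intro n _
    exact neg_neg n
  · intro n _
    exact neg_neg n
  · intro n _
    rw [map_mul, hc, Complex.conj_conj, ← Complex.exp_conj]
    congr 2
    simp only [map_mul, Complex.conj_I, map_intCast]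
    push_cast
    ring

theorem trunc_per (c : ℤ → ℂ) (N : ℕ) (z : ℂ) : trunc c N (z + 2 * π) = trunc c N z := by
  unfold trunc
  refine Finset.sum_congr rfl fun n _ => ?_
  congr 1
  rw [show (n : ℂ) * (z + 2 * π) * Complex.I = n * z * Complex.I + n * (2 * π * Complex.I) by ring,
    Complex.exp_add, Complex.exp_int_mul_two_pi_mul_I, mul_one]

theorem hasDerivAt_trunc (c : ℤ → ℂ) (N : ℕ) (z : ℂ) :
    HasDerivAt (trunc c N) (trunc (fun n => c n * (n * Complex.I)) N z) z := by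
  unfold trunc
  refine HasDerivAt.fun_sum fun n _ => ?_
  have h1 : HasDerivAt (fun z : ℂ => (n : ℂ) * z * Complex.I) (n * Complex.I) z := by
    have h0 := ((hasDerivAt_id z).const_mul (n : ℂ)).mul_const Complex.I
    simpa using h0
  have h2 := h1.cexp.const_mul (c n)
  rw [show c n * (n * Complex.I) * Complex.exp (n * z * Complex.I) =
    c n * (Complex.exp (n * z * Complex.I) * (n * Complex.I)) by ring]
  exact h2

theorem deriv_trunc (c : ℤ → ℂ) (N : ℕ) :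
    deriv (trunc c N) = trunc (fun n => c n * (n * Complex.I)) N :=
  funext fun z => (hasDerivAt_trunc c N z).deriv

theorem hp_trunc {c : ℤ → ℂ} (N : ℕ) (hc : ∀ n, c (-n) = starRingEnd ℂ (c n)) (R : ℝ) :
    HP R (trunc c N) :=
  ⟨fun z _ => (hasDerivAt_trunc c N z).differentiableAt.differentiableWithinAt,
    trunc_per c N, trunc_rs N hc⟩

/-- coefficients of the block -/
noncomputable def bc (c : ℤ → ℂ) (A : ℕ) (n : ℤ) : ℂ := if |n| ≤ (A : ℤ) then 0 else c n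

theorem bc_neg {c : ℤ → ℂ} (A : ℕ) (hc : ∀ n, c (-n) = starRingEnd ℂ (c n)) (n : ℤ) :
    bc c A (-n) = starRingEnd ℂ (bc c A n) := by
  unfold bc
  rw [abs_neg]
  split_ifs
  · simp
  · exact hc n

theorem blockF_eq (c : ℤ → ℂ) (A B : ℕ) : blockF c A B = trunc (bc c A) B := rfl

theorem norm_sin_le {w : ℂ} (hw : ‖w‖ ≤ 1 / 2) : ‖Complex.sin w‖ ≤ 2 := by
  have h1 : ‖Complex.exp (-w * Complex.I)‖ ≤ exp (1 / 2) := by
    refine (Complex.norm_exp_le_exp_norm _).trans (exp_le_exp.mpr ?_)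
    rw [norm_mul, Complex.norm_I, mul_one, norm_neg]
    exact hw
  have h2 : ‖Complex.exp (w * Complex.I)‖ ≤ exp (1 / 2) := by
    refine (Complex.norm_exp_le_exp_norm _).trans (exp_le_exp.mpr ?_)
    rw [norm_mul, Complex.norm_I, mul_one]
    exact hw
  have h3 : exp (1 / 2 : ℝ) ≤ 2 := by
    have h4 : exp (1 / 2 : ℝ) ^ 2 = exp 1 := by
      rw [← exp_nat_mul]
      norm_num
    have h5 := exp_one_lt_d9
    have h6 := exp_pos (1 / 2 : ℝ)
    nlinarith
  have : Complex.sin w = (Complex.exp (-w * Complex.I) - Complex.exp (w * Complex.I)) *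
      Complex.I / 2 := rfl
  rw [this, norm_div, norm_mul, Complex.norm_I, mul_one]
  have h7 : ‖(2 : ℂ)‖ = 2 := by simp
  rw [h7]
  have h8 := norm_sub_le (Complex.exp (-w * Complex.I)) (Complex.exp (w * Complex.I))
  linarith

theorem norm_cos_le {w : ℂ} (hw : ‖w‖ ≤ 1 / 2) : ‖Complex.cos w‖ ≤ 2 := by
  have h1 : ‖Complex.exp (-w * Complex.I)‖ ≤ exp (1 / 2) := by
    refine (Complex.norm_exp_le_exp_norm _).trans (exp_le_exp.mpr ?_)
    rw [norm_mul, Complex.norm_I, mul_one, norm_neg]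
    exact hw
  have h2 : ‖Complex.exp (w * Complex.I)‖ ≤ exp (1 / 2) := by
    refine (Complex.norm_exp_le_exp_norm _).trans (exp_le_exp.mpr ?_)
    rw [norm_mul, Complex.norm_I, mul_one]
    exact hw
  have h3 : exp (1 / 2 : ℝ) ≤ 2 := by
    have h4 : exp (1 / 2 : ℝ) ^ 2 = exp 1 := by
      rw [← exp_nat_mul]
      norm_num
    have h5 := exp_one_lt_d9
    have h6 := exp_pos (1 / 2 : ℝ)
    nlinarith
  have : Complex.cos w = (Complex.exp (w * Complex.I) + Complex.exp (-w * Complex.I)) / 2 := rfl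
  rw [this, norm_div]
  have h7 : ‖(2 : ℂ)‖ = 2 := by simp
  rw [h7]
  have h8 := norm_add_le (Complex.exp (w * Complex.I)) (Complex.exp (-w * Complex.I))
  linarith

/-- second order Taylor bounds for `h(ψ+w) - h'(ψ) sin w - h(ψ) cos w` -/
theorem taylor2 {h : ℂ → ℂ} (hd : Differentiable ℂ h) (hd' : Differentiable ℂ (deriv h))
    {ψ δ : ℂ} {R M₀ M₁ M₂ : ℝ} (hψ : ψ ∈ Strip R) (hψδ : ψ + δ ∈ Strip R) (hδ : ‖δ‖ ≤ 1 / 2)
    (h0 : Bd R h M₀) (h1 : Bd R (deriv h) M₁) (h2 : Bd R (deriv (deriv h)) M₂) :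
    ‖h (ψ + δ) - deriv h ψ * Complex.sin δ - h ψ * Complex.cos δ‖ ≤ (3 * M₁ + 2 * M₀) * ‖δ‖ ∧
    ‖h (ψ + δ) - deriv h ψ * Complex.sin δ - h ψ * Complex.cos δ‖ ≤
      (M₂ + 2 * M₁ + 2 * M₀) * ‖δ‖ ^ 2 := by
  set G : ℂ → ℂ := fun w => h (ψ + w) - deriv h ψ * Complex.sin w - h ψ * Complex.cos w with hG
  set G₁ : ℂ → ℂ := fun w => deriv h (ψ + w) - deriv h ψ * Complex.cos w + h ψ * Complex.sin w
    with hG₁
  set G₂ : ℂ → ℂ := fun w => deriv (deriv h) (ψ + w) + deriv h ψ * Complex.sin w +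
    h ψ * Complex.cos w with hG₂
  have d1 : ∀ w, HasDerivAt G (G₁ w) w := by
    intro w
    have a1 : HasDerivAt (fun w => h (ψ + w)) (deriv h (ψ + w)) w :=
      (hd (ψ + w)).hasDerivAt.comp_const_add ψ w
    have a2 := (Complex.hasDerivAt_sin w).const_mul (deriv h ψ)
    have a3 := (Complex.hasDerivAt_cos w).const_mul (h ψ)
    refine ((a1.sub a2).sub a3).congr_deriv ?_
    show _ = deriv h (ψ + w) - deriv h ψ * Complex.cos w + h ψ * Complex.sin w
    ring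
  have d2 : ∀ w, HasDerivAt G₁ (G₂ w) w := by
    intro w
    have a1 : HasDerivAt (fun w => deriv h (ψ + w)) (deriv (deriv h) (ψ + w)) w :=
      (hd' (ψ + w)).hasDerivAt.comp_const_add ψ w
    have a2 := (Complex.hasDerivAt_cos w).const_mul (deriv h ψ)
    have a3 := (Complex.hasDerivAt_sin w).const_mul (h ψ)
    refine ((a1.sub a2).add a3).congr_deriv ?_
    show _ = deriv (deriv h) (ψ + w) + deriv h ψ * Complex.sin w + h ψ * Complex.cos w
    ring
  have hM0 : 0 ≤ M₀ := (norm_nonneg _).trans (h0 ψ hψ)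
  have hM1 : 0 ≤ M₁ := (norm_nonneg _).trans (h1 ψ hψ)
  have hM2 : 0 ≤ M₂ := (norm_nonneg _).trans (h2 ψ hψ)
  have hseg : ∀ w ∈ segment ℝ (0 : ℂ) δ, ψ + w ∈ Strip R ∧ ‖w‖ ≤ ‖δ‖ := by
    rintro w ⟨a, b, ha, hb, hab, rfl⟩
    rw [smul_zero, zero_add]
    constructor
    · have := (convex_strip R) hψ hψδ ha hb hab
      rwa [show a • ψ + b • (ψ + δ) = ψ + b • δ by
        rw [smul_add, ← add_assoc, ← add_smul, hab, one_smul]] at this
    · rw [norm_smul, Real.norm_of_nonneg hb]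
      have : b ≤ 1 := by linarith
      nlinarith [norm_nonneg δ]
  have hz0 : (0 : ℂ) ∈ segment ℝ (0 : ℂ) δ := left_mem_segment ℝ 0 δ
  have hzd : δ ∈ segment ℝ (0 : ℂ) δ := right_mem_segment ℝ 0 δ
  have hG0 : G 0 = 0 := by simp [hG]
  have hG10 : G₁ 0 = 0 := by simp [hG₁]
  -- bound of `G₁`
  have b1 : ∀ w ∈ segment ℝ (0 : ℂ) δ, ‖G₁ w‖ ≤ 3 * M₁ + 2 * M₀ := by
    intro w hw
    obtain ⟨e1, e2⟩ := hseg w hw
    have e3 : ‖w‖ ≤ 1 / 2 := e2.trans hδ
    have e4 := h1 _ e1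
    have e5 := h1 _ hψ
    have e6 := h0 _ hψ
    have e7 := norm_sin_le e3
    have e8 := norm_cos_le e3
    calc ‖G₁ w‖ ≤ ‖deriv h (ψ + w)‖ + ‖deriv h ψ * Complex.cos w‖ + ‖h ψ * Complex.sin w‖ := by
          refine (norm_add_le _ _).trans ?_
          gcongr
          exact norm_sub_le _ _
      _ ≤ M₁ + M₁ * 2 + M₀ * 2 := by
          rw [norm_mul, norm_mul]
          gcongr
      _ = _ := by ring
  have b2 : ∀ w ∈ segment ℝ (0 : ℂ) δ, ‖G₂ w‖ ≤ M₂ + 2 * M₁ + 2 * M₀ := by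
    intro w hw
    obtain ⟨e1, e2⟩ := hseg w hw
    have e3 : ‖w‖ ≤ 1 / 2 := e2.trans hδ
    have e4 := h2 _ e1
    have e5 := h1 _ hψ
    have e6 := h0 _ hψ
    have e7 := norm_sin_le e3
    have e8 := norm_cos_le e3
    calc ‖G₂ w‖ ≤ ‖deriv (deriv h) (ψ + w)‖ + ‖deriv h ψ * Complex.sin w‖ +
          ‖h ψ * Complex.cos w‖ := by
          refine (norm_add_le _ _).trans ?_
          gcongr
          exact norm_add_le _ _
      _ ≤ M₂ + M₁ * 2 + M₀ * 2 := by
          rw [norm_mul, norm_mul]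
          gcongr
      _ = _ := by ring
  have hcv : Convex ℝ (segment ℝ (0 : ℂ) δ) := convex_segment 0 δ
  have c2 : ∀ w ∈ segment ℝ (0 : ℂ) δ, ‖G₁ w‖ ≤ (M₂ + 2 * M₁ + 2 * M₀) * ‖δ‖ := by
    intro w hw
    have := hcv.norm_image_sub_le_of_norm_hasDerivWithin_le
      (fun x _ => (d2 x).hasDerivWithinAt) b2 hz0 hw
    rw [hG10, sub_zero, sub_zero] at this
    refine this.trans ?_
    have := (hseg w hw).2
    gcongr
  constructor
  · have := hcv.norm_image_sub_le_of_norm_hasDerivWithin_le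
      (fun x _ => (d1 x).hasDerivWithinAt) b1 hz0 hzd
    rwa [hG0, sub_zero, sub_zero] at this
  · have := hcv.norm_image_sub_le_of_norm_hasDerivWithin_le
      (fun x _ => (d1 x).hasDerivWithinAt) c2 hz0 hzd
    rw [hG0, sub_zero, sub_zero] at this
    refine this.trans (le_of_eq ?_)
    ring

/-! ### periodicity of the error terms -/

theorem hp_EX {K R ω : ℝ} {B : ℕ} {h g : ℂ → ℂ} (hK : 1 ≤ K) (hB : 1 ≤ B)
    (hh : ∀ R, HP R h) (D : Dif K (4 * cr K / B) g) (hg : HP (4 * cr K / B) (fun z => g z - z))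
    (hR : R = 4 * cr K / B) : HP R (EX h g ω) := by
  subst hR
  have hr : 0 < 4 * cr K / (B : ℝ) := by
    have := cr_pos hK
    have hB' : (0 : ℝ) < B := by exact_mod_cast hB
    positivity
  have p1 : HP (4 * cr K / B) (fun z => h (ph g ω 1 z)) :=
    hp_comp' (hh (1 / B)) (hp_ph hg ω 1) fun z hz => dif_strip hK hB (dif_ph hr D ω (by simp)) hz
  have p0 : HP (4 * cr K / B) (fun z => h (ph g ω 0 z)) :=
    hp_comp' (hh (1 / B)) (hp_ph hg ω 0) fun z hz => dif_strip hK hB (dif_ph hr D ω (by simp)) hz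
  have q0 : HP (4 * cr K / B) (fun z => deriv h (ph g ω 0 z)) :=
    hp_comp' (hp_deriv (hh (1 / B))) (hp_ph hg ω 0)
      fun z hz => dif_strip hK hB (dif_ph hr D ω (by simp)) hz
  have s := hp_sin (hp_dl hg ω)
  have c := hp_cos (hp_dl hg ω)
  have d := hp_shift (hp_dg hg) ω
  have := hp_mul (hp_neg (hp_sub (hp_sub p1 (hp_mul q0 s)) (hp_mul p0 c))) d
  convert this using 2 with z
  unfold EX ph dl
  simp only [Complex.ofReal_zero, zero_mul, add_zero, Complex.ofReal_one, one_mul]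
  rw [show (g z + g (z + ω)) / 2 + (g (z + ω) - g z) / 2 = g (z + ω) by ring]

theorem hp_MM {K R ω : ℝ} {B : ℕ} {h g : ℂ → ℂ} (hK : 1 ≤ K) (hB : 1 ≤ B)
    (hh : ∀ R, HP R h) (D : Dif K (4 * cr K / B) g) (hg : HP (4 * cr K / B) (fun z => g z - z))
    (hR : R = 4 * cr K / B) : HP R (MM h g ω) := by
  subst hR
  have hr : 0 < 4 * cr K / (B : ℝ) := by
    have := cr_pos hK
    have hB' : (0 : ℝ) < B := by exact_mod_cast hB
    positivity
  have p1 : HP (4 * cr K / B) (fun z => h (g z)) :=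
    hp_comp' (hh (1 / B)) hg fun z hz => dif_strip hK hB D hz
  have p2 := hp_shift p1 ω
  have p0 : HP (4 * cr K / B) (fun z => h (ph g ω 0 z)) :=
    hp_comp' (hh (1 / B)) (hp_ph hg ω 0) fun z hz => dif_strip hK hB (dif_ph hr D ω (by simp)) hz
  have q0 : HP (4 * cr K / B) (fun z => deriv h (ph g ω 0 z)) :=
    hp_comp' (hp_deriv (hh (1 / B))) (hp_ph hg ω 0)
      fun z hz => dif_strip hK hB (dif_ph hr D ω (by simp)) hz
  have s := hp_sin (hp_dl hg ω)
  have c := hp_cos (hp_dl hg ω)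
  have d := hp_dg hg
  have d2 := hp_shift d ω
  have := hp_add (hp_sub (hp_add (hp_mul (hp_mul q0 (hp_add d d2)) s)
    (hp_mul (hp_mul p0 c) (hp_sub d2 d))) (hp_mul p2 d2)) (hp_mul p1 d)
  convert this using 2 with z
  unfold MM ph dl
  simp only [Complex.ofReal_zero, zero_mul, add_zero]

theorem hp_FF' {K R ω : ℝ} {B : ℕ} {h g : ℂ → ℂ} (hK : 1 ≤ K) (hB : 1 ≤ B)
    (hh : ∀ R, HP R h) (D : Dif K (4 * cr K / B) g) (hg : HP (4 * cr K / B) (fun z => g z - z))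
    (hR : R = 4 * cr K / B) : HP R (FF h g ω) := by
  have h1 := hp_MM (ω := ω) hK hB hh D hg hR
  have h2 := hp_EX (ω := ω) hK hB hh D hg hR
  have h3 := hp_sub h1 (hp_sub h2 (hp_shift h2 (-ω)))
  convert h3 using 2 with z
  rw [FF_eq, Complex.ofReal_neg, ← sub_eq_add_neg]

end KD1

theorem EX_bound (K Q : ℝ) (hQ : 1 ≤ Q) : ∃ C : ℝ, 1 ≤ C ∧ ∀ (c : ℤ → ℂ) (A B : ℕ) (Nb ω : ℝ)
    (g : ℂ → ℂ), 1 ≤ K → 1 ≤ A → A ≤ B → (B : ℝ) ≤ Q * A → 10 ^ 4 * K ^ 4 ≤ Nb → 1 ≤ ω * Nb →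
    ω * Nb ≤ 7 → (∀ n, c (-n) = starRingEnd ℂ (c n)) → Dif K (4 * cr K / B) g →
    HP (4 * cr K / B) (fun z => g z - z) →
    HP (4 * cr K / B) (EX (blockF c A B) g ω) ∧ HP (4 * cr K / B) (MM (blockF c A B) g ω) ∧
    HP (4 * cr K / B) (FF (blockF c A B) g ω) ∧
      Bd (3 * cr K / B) (EX (blockF c A B) g ω)
        (C * (B : ℝ) ^ (-(1 / 2) : ℝ) * blk c A B / (Nb * B * max (B : ℝ) Nb)) := by
  obtain ⟨C₀, hC₀, hblk⟩ := block_bounds Q hQ
  by_cases hK : 1 ≤ K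
  swap
  · exact ⟨1, le_rfl, fun c A B Nb ω g h => absurd h hK⟩
  refine ⟨500 * K ^ 3 * C₀, ?_, ?_⟩
  · have : 1 ≤ K ^ 3 := one_le_pow₀ hK
    nlinarith
  intro c A B Nb ω g _ hA hAB hBQ hNb hlo hhi hc D hg
  have hB : 1 ≤ B := hA.trans hAB
  have hB' : (0 : ℝ) < B := by exact_mod_cast hB
  have hB1 : (1 : ℝ) ≤ B := by exact_mod_cast hB
  have hh : ∀ R, HP R (blockF c A B) := fun R => by
    rw [KD1.blockF_eq]
    exact KD1.hp_trunc B (KD1.bc_neg A hc) R
  refine ⟨KD1.hp_EX hK hB hh D hg rfl, KD1.hp_MM hK hB hh D hg rfl, KD1.hp_FF' hK hB hh D hg rfl, ?_⟩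
  intro z hz
  obtain ⟨hdiff, hbd⟩ := hblk c A B hA hAB hBQ
  have hr : 0 < 4 * cr K / (B : ℝ) := by
    have := KD1.cr_pos hK
    positivity
  have hz4 : z ∈ Strip (4 * cr K / B) := by
    have hz' : |z.im| < 3 * cr K / B := hz
    show |z.im| < 4 * cr K / B
    refine hz'.trans_le ?_
    have := KD1.cr_pos hK
    gcongr
    norm_num
  have hNb0 : 0 < Nb := lt_of_lt_of_le (by positivity) hNb
  have hω0 : 0 < ω := by
    by_contra hcon
    push Not at hcon
    nlinarith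
  have hωle : ω ≤ 7 / Nb := by
    rw [le_div_iff₀ hNb0]
    exact hhi
  have hK4 : K ≤ K ^ 4 := by
    have h1 : 1 ≤ K ^ 3 := one_le_pow₀ hK
    nlinarith
  have hδ : ‖KD1.dl g ω z‖ ≤ K * ω := KD1.dl_bd D hω0.le hz4
  have hKω : K * ω ≤ 7 * K / Nb := by
    calc K * ω ≤ K * (7 / Nb) := by gcongr
      _ = 7 * K / Nb := by ring
  have hδ2 : ‖KD1.dl g ω z‖ ≤ 1 / 2 := by
    refine hδ.trans (hKω.trans ?_)
    rw [div_le_div_iff₀ hNb0 (by norm_num)]
    nlinarith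
  set b := blk c A B with hb
  have hb0 : 0 ≤ b := Real.sqrt_nonneg _
  have hdiff' : Differentiable ℂ (deriv (blockF c A B)) := by
    rw [KD1.blockF_eq, KD1.deriv_trunc]
    exact fun z => (KD1.hasDerivAt_trunc _ B z).differentiableAt
  have m0 := hbd 0 (by norm_num)
  have m1 := hbd 1 (by norm_num)
  have m2 := hbd 2 (by norm_num)
  rw [iteratedDeriv_zero] at m0
  rw [iteratedDeriv_one] at m1
  rw [iteratedDeriv_succ, iteratedDeriv_one] at m2
  have hψ : (g z + g (z + ω)) / 2 ∈ Strip (1 / (B : ℝ)) := by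
    rw [← KD1.ph_zero]
    exact KD1.dif_strip hK hB (KD1.dif_ph hr D ω (by simp)) hz4
  have hsum : (g z + g (z + ω)) / 2 + KD1.dl g ω z = g (z + ω) := by
    unfold KD1.dl
    ring
  have hψδ : (g z + g (z + ω)) / 2 + KD1.dl g ω z ∈ Strip (1 / (B : ℝ)) := by
    rw [hsum]
    exact KD1.dif_strip hK hB D (KD1.mem_add_real ω hz4)
  obtain ⟨t1, t2⟩ := KD1.taylor2 hdiff hdiff' hψ hψδ hδ2 m0 m1 m2
  rw [hsum] at t1 t2
  have hdg : ‖deriv g (z + ω)‖ ≤ 2 * K := D.bd _ (KD1.mem_add_real ω hz4)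
  have hEX : ‖EX (blockF c A B) g ω z‖ ≤ ‖blockF c A B (g (z + ω)) -
      deriv (blockF c A B) ((g z + g (z + ω)) / 2) * Complex.sin (KD1.dl g ω z) -
      blockF c A B ((g z + g (z + ω)) / 2) * Complex.cos (KD1.dl g ω z)‖ * (2 * K) := by
    unfold EX
    rw [norm_mul, norm_neg]
    unfold KD1.dl
    gcongr
  refine hEX.trans ?_
  -- comparison of powers
  set x := (B : ℝ) ^ (-(1 / 2) : ℝ) with hx
  have hx0 : 0 < x := rpow_pos_of_pos hB' _
  have e0 : (B : ℝ) ^ (((0 : ℕ) : ℝ) - 7 / 2) = x / B ^ 3 := by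
    rw [hx, ← rpow_natCast, ← rpow_sub hB']
    congr 1
    norm_num
  have e1 : (B : ℝ) ^ (((1 : ℕ) : ℝ) - 7 / 2) = x / B ^ 2 := by
    rw [hx, ← rpow_natCast, ← rpow_sub hB']
    congr 1
    norm_num
  have e2 : (B : ℝ) ^ (((2 : ℕ) : ℝ) - 7 / 2) = x / B := by
    rw [hx]
    nth_rw 3 [← rpow_one (B : ℝ)]
    rw [← rpow_sub hB']
    congr 1
    norm_num
  rw [e0, e1] at t1
  rw [e0, e1, e2] at t2
  have f01 : x / (B : ℝ) ^ 3 ≤ x / B ^ 2 := by
    gcongr
    norm_num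
  have f12 : x / (B : ℝ) ^ 2 ≤ x / B := by
    gcongr
    nlinarith
  have hC0 : 0 ≤ C₀ := by linarith
  rcases le_total Nb (B : ℝ) with hcase | hcase
  · rw [max_eq_left hcase]
    refine (mul_le_mul_of_nonneg_right t1 (by positivity)).trans ?_
    calc (3 * (C₀ * (x / B ^ 2) * b) + 2 * (C₀ * (x / B ^ 3) * b)) * ‖KD1.dl g ω z‖ * (2 * K)
        ≤ (3 * (C₀ * (x / B ^ 2) * b) + 2 * (C₀ * (x / B ^ 2) * b)) * (7 * K / Nb) * (2 * K) := by
          gcongr
          exact hδ.trans hKω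
      _ = 70 * K ^ 2 * (C₀ * x * b / (Nb * B * B)) := by
          field_simp
          ring
      _ ≤ (500 * K ^ 3) * (C₀ * x * b / (Nb * B * B)) := by
          gcongr
          · norm_num
          · norm_num
      _ = _ := by ring
  · rw [max_eq_right hcase]
    refine (mul_le_mul_of_nonneg_right t2 (by positivity)).trans ?_
    have k1 : C₀ * (x / B ^ 2) * b ≤ C₀ * (x / B) * b :=
      mul_le_mul_of_nonneg_right (mul_le_mul_of_nonneg_left f12 hC0) hb0
    have k2 : C₀ * (x / B ^ 3) * b ≤ C₀ * (x / B) * b :=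
      mul_le_mul_of_nonneg_right (mul_le_mul_of_nonneg_left (f01.trans f12) hC0) hb0
    calc (C₀ * (x / B) * b + 2 * (C₀ * (x / B ^ 2) * b) + 2 * (C₀ * (x / B ^ 3) * b)) *
          ‖KD1.dl g ω z‖ ^ 2 * (2 * K)
        ≤ (5 * (C₀ * (x / B) * b)) * (7 * K / Nb) ^ 2 * (2 * K) := by
          refine mul_le_mul_of_nonneg_right (mul_le_mul ?_ ?_ (by positivity) (by positivity))
            (by positivity)
          · linarith
          · exact pow_le_pow_left₀ (norm_nonneg _) (hδ.trans hKω) 2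
      _ = 490 * K ^ 3 * (C₀ * x * b / (Nb * B * Nb)) := by
          field_simp
          ring
      _ ≤ (500 * K ^ 3) * (C₀ * x * b / (Nb * B * Nb)) := by
          gcongr
          norm_num
      _ = _ := by ring

end Pool.Agent.MP_b87ea9_an.Kam
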