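import Mathlib
import Pool.Agent.Lib.MP_b87ea9_an.KDefs
import Pool.Agent.Lib.MP_b87ea9_an.KDefs2
import Pool.Agent.Lib.MP_b87ea9_an.KDefs3
import Pool.Agent.Lib.MP_b87ea9_an.KD1a

set_option autoImplicit false

/-! The fresh error: low frequency levels -/

namespace Pool.Agent.MP_b87ea9_an.Kam

open Real MeasureTheory

namespace KD1

/-! ### general facts about `HN` -/

theorem hn_mono {r r' M M' : ℝ} {f : ℂ → ℂ} (h : HN r f M) (hr : r' ≤ r) (hM : 0 ≤ M)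
    (hM' : M ≤ M') : HN r' f M' := by
  intro y hy
  refine (h y (hy.trans_le hr)).trans ?_
  have := two_pi_pos
  gcongr

theorem hn_congr {r M : ℝ} {f f' : ℂ → ℂ} (h : HN r f M) (e : ∀ z ∈ Strip r, f' z = f z) :
    HN r f' M := by
  intro y hy
  refine le_trans (le_of_eq ?_) (h y hy)
  refine intervalIntegral.integral_congr fun t _ => ?_
  show ‖f' _‖ ^ 2 = ‖f _‖ ^ 2
  rw [e _ (ka2_mem hy t)]

theorem jensen {u : ℝ → ℂ} (hu : Continuous u) :
    ‖∫ s in (0 : ℝ)..1, u s‖ ^ 2 ≤ ∫ s in (0 : ℝ)..1, ‖u s‖ ^ 2 := by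
  set m := ∫ s in (0 : ℝ)..1, ‖u s‖ with hm
  have h2 : ‖∫ s in (0 : ℝ)..1, u s‖ ≤ m :=
    intervalIntegral.norm_integral_le_integral_norm zero_le_one
  have h3 : 0 ≤ ∫ s in (0 : ℝ)..1, (‖u s‖ - m) ^ 2 :=
    intervalIntegral.integral_nonneg zero_le_one fun _ _ => sq_nonneg _
  have h4 : ∫ s in (0 : ℝ)..1, (‖u s‖ - m) ^ 2 = (∫ s in (0 : ℝ)..1, ‖u s‖ ^ 2) - m ^ 2 := by
    have e : ∀ s, (‖u s‖ - m) ^ 2 = ‖u s‖ ^ 2 - (2 * m) * ‖u s‖ + m ^ 2 := fun s => by ring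
    simp_rw [e]
    rw [intervalIntegral.integral_add, intervalIntegral.integral_sub,
      intervalIntegral.integral_const_mul, intervalIntegral.integral_const, ← hm]
    · simp
      ring
    all_goals exact (by fun_prop : Continuous _).intervalIntegrable _ _
  have h5 := norm_nonneg (∫ s in (0 : ℝ)..1, u s)
  nlinarith

theorem hn_int {r M : ℝ} {F : ℝ → ℂ → ℂ}
    (hc : ∀ y : ℝ, |y| < r → Continuous fun p : ℝ × ℝ => F p.1 (p.2 + y * Complex.I))
    (hF : ∀ s : ℝ, 0 ≤ s → s ≤ 1 → HN r (F s) M) :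
    HN r (fun z => ∫ s in (0 : ℝ)..1, F s z) M := by
  intro y hy
  have hcy := hc y hy
  have hcy2 : Continuous fun p : ℝ × ℝ => ‖F p.1 (p.2 + y * Complex.I)‖ ^ 2 := hcy.norm.pow 2
  have h1 : ∀ t : ℝ, ‖∫ s in (0 : ℝ)..1, F s (t + y * Complex.I)‖ ^ 2 ≤
      ∫ s in (0 : ℝ)..1, ‖F s (t + y * Complex.I)‖ ^ 2 := fun t =>
    jensen (hcy.comp (by fun_prop : Continuous fun s : ℝ => (s, t)))
  have c1 : Continuous fun t : ℝ => ∫ s in (0 : ℝ)..1, F s (t + y * Complex.I) :=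
    intervalIntegral.continuous_parametric_intervalIntegral_of_continuous'
      (f := fun (t : ℝ) (s : ℝ) => F s (t + y * Complex.I))
      (hcy.comp (by fun_prop : Continuous fun p : ℝ × ℝ => (p.2, p.1))) 0 1
  have c2 : Continuous fun t : ℝ => ∫ s in (0 : ℝ)..1, ‖F s (t + y * Complex.I)‖ ^ 2 :=
    intervalIntegral.continuous_parametric_intervalIntegral_of_continuous'
      (f := fun (t : ℝ) (s : ℝ) => ‖F s (t + y * Complex.I)‖ ^ 2)
      (hcy2.comp (by fun_prop : Continuous fun p : ℝ × ℝ => (p.2, p.1))) 0 1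
  have c3 : Continuous fun s : ℝ => ∫ t in (0 : ℝ)..2 * π, ‖F s (t + y * Complex.I)‖ ^ 2 :=
    intervalIntegral.continuous_parametric_intervalIntegral_of_continuous'
      (f := fun (s : ℝ) (t : ℝ) => ‖F s (t + y * Complex.I)‖ ^ 2) hcy2 0 (2 * π)
  calc ∫ t in (0 : ℝ)..2 * π, ‖∫ s in (0 : ℝ)..1, F s (t + y * Complex.I)‖ ^ 2
      ≤ ∫ t in (0 : ℝ)..2 * π, ∫ s in (0 : ℝ)..1, ‖F s (t + y * Complex.I)‖ ^ 2 :=
        intervalIntegral.integral_mono_on two_pi_pos.le ((c1.norm.pow 2).intervalIntegrable _ _)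
          (c2.intervalIntegrable _ _) fun t _ => h1 t
    _ = ∫ s in (0 : ℝ)..1, ∫ t in (0 : ℝ)..2 * π, ‖F s (t + y * Complex.I)‖ ^ 2 := by
        refine intervalIntegral_intervalIntegral_swap
          (F := fun (t : ℝ) (s : ℝ) => ‖F s (t + y * Complex.I)‖ ^ 2) ?_
        have c4 : Continuous (Function.uncurry fun (t : ℝ) (s : ℝ) =>
            ‖F s (t + y * Complex.I)‖ ^ 2) :=
          hcy2.comp (by fun_prop : Continuous fun p : ℝ × ℝ => (p.2, p.1))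
        refine (c4.continuousOn.integrableOn_compact
          ((isCompact_uIcc (a := (0 : ℝ)) (b := 2 * π)).prod
            (isCompact_uIcc (a := (0 : ℝ)) (b := 1)))).mono_set ?_
        exact Set.prod_mono Set.uIoc_subset_uIcc Set.uIoc_subset_uIcc
    _ ≤ ∫ s in (0 : ℝ)..1, 2 * π * M ^ 2 :=
        intervalIntegral.integral_mono_on zero_le_one (c3.intervalIntegrable _ _)
          (continuous_const.intervalIntegrable _ _) fun s hs => hF s hs.1 hs.2 y hy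
    _ = 2 * π * M ^ 2 := by
        rw [intervalIntegral.integral_const]
        simp

/-! ### third order Taylor formula -/

theorem taylor3 {H h h₁ h₂ : ℂ → ℂ} (dH : ∀ w, HasDerivAt H (h w) w)
    (dh : ∀ w, HasDerivAt h (h₁ w) w) (dh₁ : ∀ w, HasDerivAt h₁ (h₂ w) w) (hc : Continuous h₂)
    (ψ δ : ℂ) : 2 * h ψ * Complex.sin δ - (H (ψ + δ) - H (ψ - δ)) =
      ∫ s in (0 : ℝ)..1, (((1 - s) ^ 2 / 2 : ℝ) : ℂ) * -(δ ^ 3) *
        (2 * Complex.cos (s * δ) * h ψ + h₂ (ψ + s * δ) + h₂ (ψ + (-s : ℝ) * δ)) := by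
  have ds : ∀ s : ℝ, HasDerivAt (fun s : ℝ => (s : ℂ)) 1 s := fun s =>
    Complex.ofRealCLM.hasDerivAt (x := s)
  have da : ∀ s : ℝ, HasDerivAt (fun s : ℝ => ψ + s * δ) δ s := fun s => by
    have := ((ds s).mul_const δ).const_add ψ
    simpa using this
  have db : ∀ s : ℝ, HasDerivAt (fun s : ℝ => ψ + (-s : ℝ) * δ) (-δ) s := fun s => by
    have := ((ds s).neg.mul_const δ).const_add ψ
    have e : (fun s : ℝ => ψ + (-s : ℝ) * δ) = fun s : ℝ => ψ + (-fun s : ℝ => (s : ℂ)) s * δ := by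
      funext s
      simp
    rw [e]
    simpa using this
  have dc : ∀ s : ℝ, HasDerivAt (fun s : ℝ => (s : ℂ) * δ) δ s := fun s => by
    have := (ds s).mul_const δ
    simpa using this
  have key : ∀ s : ℝ, HasDerivAt (fun s : ℝ =>
      (2 * h ψ * Complex.sin (s * δ) - (H (ψ + s * δ) - H (ψ + (-s : ℝ) * δ))) +
      (1 - s) * (2 * h ψ * (Complex.cos (s * δ) * δ) -
        (h (ψ + s * δ) * δ + h (ψ + (-s : ℝ) * δ) * δ)) +
      (1 - s) ^ 2 / 2 * (2 * h ψ * (-Complex.sin (s * δ) * δ * δ) -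
        (h₁ (ψ + s * δ) * δ * δ - h₁ (ψ + (-s : ℝ) * δ) * δ * δ)))
      ((((1 - s) ^ 2 / 2 : ℝ) : ℂ) * -(δ ^ 3) *
        (2 * Complex.cos (s * δ) * h ψ + h₂ (ψ + s * δ) + h₂ (ψ + (-s : ℝ) * δ))) s := by
    intro s
    have k1 := (((Complex.hasDerivAt_sin _).comp s (dc s)).const_mul (2 * h ψ)).sub
      (((dH _).comp s (da s)).sub ((dH _).comp s (db s)))
    have k2 := ((((Complex.hasDerivAt_cos _).comp s (dc s)).mul_const δ).const_mul (2 * h ψ)).sub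
      ((((dh _).comp s (da s)).mul_const δ).add (((dh _).comp s (db s)).mul_const δ))
    have k3 := (((((Complex.hasDerivAt_sin _).comp s (dc s)).neg.mul_const δ).mul_const δ).const_mul
      (2 * h ψ)).sub (((((dh₁ _).comp s (da s)).mul_const δ).mul_const δ).sub
        ((((dh₁ _).comp s (db s)).mul_const δ).mul_const δ))
    have l1 : HasDerivAt (fun s : ℝ => (1 : ℂ) - s) (-1) s := by
      have := (ds s).const_sub 1
      simpa using this
    have l2 : HasDerivAt (fun s : ℝ => (((1 : ℂ) - s) ^ 2 / 2 : ℂ)) (-(1 - (s : ℂ))) s := by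
      have := (l1.fun_pow 2).div_const 2
      refine this.congr_deriv ?_
      push_cast
      ring
    have k := (k1.add (l1.mul k2)).add (l2.mul k3)
    refine k.congr_deriv ?_
    simp only [Function.comp, Pi.neg_apply, Pi.sub_apply, Pi.add_apply]
    push_cast
    ring
  have hcont : Continuous fun s : ℝ => (((1 - s) ^ 2 / 2 : ℝ) : ℂ) * -(δ ^ 3) *
      (2 * Complex.cos (s * δ) * h ψ + h₂ (ψ + s * δ) + h₂ (ψ + (-s : ℝ) * δ)) := by
    have := Complex.continuous_cos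
    fun_prop
  rw [intervalIntegral.integral_eq_sub_of_hasDerivAt (fun s _ => key s)
    (hcont.intervalIntegrable _ _)]
  simp only [Complex.ofReal_one, Complex.ofReal_zero, one_mul, zero_mul, add_zero, neg_zero,
    Complex.sin_zero, Complex.cos_zero, sub_self, mul_zero, Complex.ofReal_neg, neg_mul, sub_zero]
  ring_nf

/-! ### the primitive of the block -/

noncomputable def Hc (c : ℤ → ℂ) (A : ℕ) (n : ℤ) : ℂ := bc c A n / (n * Complex.I)

theorem Hc_mul (c : ℤ → ℂ) (A : ℕ) : (fun n : ℤ => Hc c A n * (n * Complex.I)) = bc c A := by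
  funext n
  unfold Hc
  by_cases hn : n = 0
  · subst hn
    simp [bc]
  · have h1 : (n : ℂ) * Complex.I ≠ 0 :=
      mul_ne_zero (Int.cast_ne_zero.mpr hn) Complex.I_ne_zero
    exact div_mul_cancel₀ _ h1

theorem Hc_neg {c : ℤ → ℂ} (A : ℕ) (hc : ∀ n, c (-n) = starRingEnd ℂ (c n)) (n : ℤ) :
    Hc c A (-n) = starRingEnd ℂ (Hc c A n) := by
  unfold Hc
  rw [bc_neg A hc, map_div₀, map_mul, Complex.conj_I, map_intCast]
  push_cast
  congr 1
  ring

/-- the small function whose derivative is `MM` -/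
noncomputable def ee (c : ℤ → ℂ) (A B : ℕ) (g : ℂ → ℂ) (ω : ℝ) (z : ℂ) : ℂ :=
  2 * trunc (bc c A) B (ph g ω 0 z) * Complex.sin (dl g ω z) -
    (trunc (Hc c A) B (g (z + ω)) - trunc (Hc c A) B (g z))

theorem hp_ee {K ω : ℝ} {A B : ℕ} {c : ℤ → ℂ} {g : ℂ → ℂ} (hK : 1 ≤ K) (hB : 1 ≤ B)
    (hc : ∀ n, c (-n) = starRingEnd ℂ (c n)) (D : Dif K (4 * cr K / B) g)
    (hg : HP (4 * cr K / B) (fun z => g z - z)) : HP (4 * cr K / B) (ee c A B g ω) := by
  have hr : 0 < 4 * cr K / (B : ℝ) := by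
    have := cr_pos hK
    have hB' : (0 : ℝ) < B := by exact_mod_cast hB
    positivity
  have p0 : HP (4 * cr K / B) (fun z => trunc (bc c A) B (ph g ω 0 z)) :=
    hp_comp' (hp_trunc B (bc_neg A hc) (1 / B)) (hp_ph hg ω 0)
      fun z hz => dif_strip hK hB (dif_ph hr D ω (by simp)) hz
  have p1 : HP (4 * cr K / B) (fun z => trunc (Hc c A) B (g z)) :=
    hp_comp' (hp_trunc B (Hc_neg A hc) (1 / B)) hg fun z hz => dif_strip hK hB D hz
  have p2 := hp_shift p1 ω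
  have s := hp_sin (hp_dl hg ω)
  have := hp_sub (hp_mul (hp_mul (hp_const _ 2) p0) s) (hp_sub p2 p1)
  convert this using 2 with z
  unfold ee
  push_cast
  rfl

theorem ee_deriv {K r ω : ℝ} {A B : ℕ} {c : ℤ → ℂ} {g : ℂ → ℂ} (D : Dif K r g) {z : ℂ}
    (hz : z ∈ Strip r) : MM (blockF c A B) g ω z = deriv (ee c A B g ω) z := by
  have hψ' := hasDeriv_ph D.hol ω 0 hz
  have hg0 := hasDeriv_of D.hol hz
  have hg1 := hasDeriv_shift D.hol ω hz
  have hdl : HasDerivAt (dl g ω) ((deriv g (z + ω) - deriv g z) / 2) z :=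
    (hg1.sub hg0).div_const 2
  have k1 := (hasDerivAt_trunc (bc c A) B (ph g ω 0 z)).comp z hψ'
  have k2 := (Complex.hasDerivAt_sin _).comp z hdl
  have k3 := (hasDerivAt_trunc (Hc c A) B (g (z + ω))).comp z hg1
  have k4 := (hasDerivAt_trunc (Hc c A) B (g z)).comp z hg0
  rw [Hc_mul] at k3 k4
  have k := ((k1.const_mul 2).mul k2).sub (k3.sub k4)
  have k' : HasDerivAt (ee c A B g ω) _ z := k
  rw [k'.deriv]
  unfold MM
  rw [blockF_eq, deriv_trunc]
  simp only [Function.comp, ph_zero, dl, Complex.ofReal_zero, zero_mul, add_zero]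
  ring

/-- the integrand of the Taylor formula for `ee` -/
noncomputable def Fi (c : ℤ → ℂ) (A B : ℕ) (g : ℂ → ℂ) (ω s : ℝ) (z : ℂ) : ℂ :=
  (((1 - s) ^ 2 / 2 : ℝ) : ℂ) * -(dl g ω z ^ 3) *
    (2 * Complex.cos (s * dl g ω z) * trunc (bc c A) B (ph g ω 0 z) +
      trunc (fun n => bc c A n * (n * Complex.I) * (n * Complex.I)) B (ph g ω s z) +
      trunc (fun n => bc c A n * (n * Complex.I) * (n * Complex.I)) B (ph g ω (-s) z))

theorem ee_eq (c : ℤ → ℂ) (A B : ℕ) (g : ℂ → ℂ) (ω : ℝ) (z : ℂ) :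
    ee c A B g ω z = ∫ s in (0 : ℝ)..1, Fi c A B g ω s z := by
  have dH : ∀ w, HasDerivAt (trunc (Hc c A) B) (trunc (bc c A) B w) w := fun w => by
    have := hasDerivAt_trunc (Hc c A) B w
    rwa [Hc_mul] at this
  have hcont : Continuous
      (trunc (fun n => bc c A n * (n * Complex.I) * (n * Complex.I)) B) :=
    continuous_iff_continuousAt.mpr fun w => (hasDerivAt_trunc _ B w).continuousAt
  have := taylor3 dH (hasDerivAt_trunc (bc c A) B) (hasDerivAt_trunc _ B) hcont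
    ((g z + g (z + ω)) / 2) ((g (z + ω) - g z) / 2)
  unfold ee Fi
  rw [ph_zero]
  unfold dl ph
  rw [show (g z + g (z + ω)) / 2 + (g (z + ω) - g z) / 2 = g (z + ω) by ring,
    show (g z + g (z + ω)) / 2 - (g (z + ω) - g z) / 2 = g z by ring] at this
  exact this

theorem line_g {r : ℝ} {g : ℂ → ℂ} (hg : HP r (fun z => g z - z)) {y : ℝ} (hy : |y| < r) :
    Continuous fun t : ℝ => g (t + y * Complex.I) := by
  have h1 := ka2_cont hg hy
  have h2 : Continuous fun t : ℝ => (t : ℂ) + y * Complex.I := by fun_prop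
  refine (h1.add h2).congr fun t => ?_
  show g (t + y * Complex.I) - (t + y * Complex.I) + (t + y * Complex.I) = _
  ring

theorem line_g' {r : ℝ} {g : ℂ → ℂ} (hg : HP r (fun z => g z - z)) (ω : ℝ) {y : ℝ} (hy : |y| < r) :
    Continuous fun t : ℝ => g (t + y * Complex.I + ω) := by
  have h1 := (line_g hg hy).comp (by fun_prop : Continuous fun t : ℝ => t + ω)
  refine h1.congr fun t => ?_
  simp only [Function.comp]
  congr 1
  push_cast
  ring

theorem hn_Fi {K ω M₀ M₂ : ℝ} {A B : ℕ} {c : ℤ → ℂ} {g : ℂ → ℂ} (hK : 1 ≤ K) (hB : 1 ≤ B)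
    (hω : 0 ≤ ω) (hKω : K * ω ≤ 1 / 2)
    (hc : ∀ n, c (-n) = starRingEnd ℂ (c n)) (D : Dif K (4 * cr K / B) g)
    (hg : HP (4 * cr K / B) (fun z => g z - z)) (hM0 : 0 ≤ M₀) (hM2 : 0 ≤ M₂)
    (h0 : ∑ n ∈ Finset.Icc (-(B : ℤ)) B, ‖bc c A n‖ ^ 2 ≤ M₀ ^ 2)
    (h2 : ∑ n ∈ Finset.Icc (-(B : ℤ)) B, ‖bc c A n * (n * Complex.I) * (n * Complex.I)‖ ^ 2 ≤
      M₂ ^ 2) {s : ℝ} (hs0 : 0 ≤ s) (hs1 : s ≤ 1) :
    HN (4 * cr K / B) (Fi c A B g ω s) ((K * ω) ^ 3 / 2 * (8 * K * M₀ + 4 * K * M₂)) := by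
  have hB' : (0 : ℝ) < B := by exact_mod_cast hB
  have hcr := cr_pos hK
  have hr : 0 < 4 * cr K / (B : ℝ) := by positivity
  have hrN : 4 * cr K / B * (4 * K * B) ≤ 1 := by
    have := cr_mul hK
    calc 4 * cr K / B * (4 * K * B) = 16 * (cr K * K) := by
          field_simp
          ring
      _ ≤ 1 := by linarith
  have hsa : |s| ≤ 1 := abs_le.mpr ⟨by linarith, hs1⟩
  have hsa' : |(-s)| ≤ 1 := by rwa [abs_neg]
  have hc2 : ∀ n : ℤ, bc c A (-n) * (((-n : ℤ) : ℂ) * Complex.I) * (((-n : ℤ) : ℂ) * Complex.I) =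
      starRingEnd ℂ (bc c A n * (n * Complex.I) * (n * Complex.I)) := by
    intro n
    rw [bc_neg A hc]
    simp only [map_mul, Complex.conj_I, map_intCast]
    push_cast
    ring
  have f0 := comp_HN hK hB hr hrN (dif_ph hr D ω (by simp : |(0 : ℝ)| ≤ 1)) hM0 h0
  have f1 := comp_HN hK hB hr hrN (dif_ph hr D ω hsa) hM2 h2
  have f2 := comp_HN hK hB hr hrN (dif_ph hr D ω hsa') hM2 h2
  have strip : ∀ {a : ℝ}, |a| ≤ 1 → ∀ z ∈ Strip (4 * cr K / B), ph g ω a z ∈ Strip (1 / (B : ℝ)) :=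
    fun ha z hz => dif_strip hK hB (dif_ph hr D ω ha) hz
  have p0 : HP (4 * cr K / B) (fun z => trunc (bc c A) B (ph g ω 0 z)) :=
    hp_comp' (hp_trunc B (bc_neg A hc) (1 / B)) (hp_ph hg ω 0) (strip (by simp))
  have p1 : HP (4 * cr K / B) (fun z => trunc (fun n => bc c A n * (n * Complex.I) *
      (n * Complex.I)) B (ph g ω s z)) :=
    hp_comp' (hp_trunc B hc2 (1 / B)) (hp_ph hg ω s) (strip hsa)
  have p2 : HP (4 * cr K / B) (fun z => trunc (fun n => bc c A n * (n * Complex.I) *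
      (n * Complex.I)) B (ph g ω (-s) z)) :=
    hp_comp' (hp_trunc B hc2 (1 / B)) (hp_ph hg ω (-s)) (strip hsa')
  have pd := hp_dl hg ω
  have pcos : HP (4 * cr K / B) (fun z => 2 * Complex.cos (s * dl g ω z)) := by
    have := hp_mul (hp_const (4 * cr K / B) 2) (hp_cos (hp_mul (hp_const _ s) pd))
    convert this using 2 with z
    push_cast
    rfl
  have bcos : Bd (4 * cr K / B) (fun z => 2 * Complex.cos (s * dl g ω z)) 4 := by
    intro z hz
    have h1 := dl_bd D hω hz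
    have h3 : ‖(s : ℂ) * dl g ω z‖ ≤ 1 / 2 := by
      rw [norm_mul, Complex.norm_real, Real.norm_of_nonneg hs0]
      nlinarith [norm_nonneg (dl g ω z)]
    have h4 := norm_cos_le h3
    rw [norm_mul]
    have : ‖(2 : ℂ)‖ = 2 := by simp
    rw [this]
    linarith
  have q1 : HN (4 * cr K / B) (fun z => 2 * Complex.cos (s * dl g ω z) *
      trunc (bc c A) B (ph g ω 0 z)) (4 * (2 * K * M₀)) :=
    HN_mul f0 bcos (fun y hy => ka2_cont p0 hy) (fun y hy => ka2_cont pcos hy) (by norm_num)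
  have q2 := HN_add q1 f1 (by positivity) (by positivity)
    (fun y hy => (ka2_cont pcos hy).mul (ka2_cont p0 hy)) (fun y hy => ka2_cont p1 hy)
  have q3 := HN_add q2 f2 (by positivity) (by positivity)
    (fun y hy => ((ka2_cont pcos hy).mul (ka2_cont p0 hy)).add (ka2_cont p1 hy))
    (fun y hy => ka2_cont p2 hy)
  have pb : HP (4 * cr K / B) (fun z => (((1 - s) ^ 2 / 2 : ℝ) : ℂ) * -(dl g ω z ^ 3)) := by
    have := hp_mul (hp_const (4 * cr K / B) ((1 - s) ^ 2 / 2)) (hp_neg (hp_mul (hp_mul pd pd) pd))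
    convert this using 2 with z
    ring
  have bb : Bd (4 * cr K / B) (fun z => (((1 - s) ^ 2 / 2 : ℝ) : ℂ) * -(dl g ω z ^ 3))
      ((K * ω) ^ 3 / 2) := by
    intro z hz
    have h1 := dl_bd D hω hz
    rw [norm_mul, norm_neg, norm_pow, Complex.norm_real, Real.norm_of_nonneg (by positivity)]
    have h2 : (1 - s) ^ 2 ≤ 1 := by nlinarith
    calc (1 - s) ^ 2 / 2 * ‖dl g ω z‖ ^ 3 ≤ 1 / 2 * (K * ω) ^ 3 := by gcongr
      _ = _ := by ring
  have q4 := HN_mul q3 bb (fun y hy => (((ka2_cont pcos hy).mul (ka2_cont p0 hy)).add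
    (ka2_cont p1 hy)).add (ka2_cont p2 hy)) (fun y hy => ka2_cont pb hy) (by positivity)
  refine hn_mono q4 le_rfl (by positivity) (le_of_eq ?_)
  ring

theorem cont_gen {U V : ℝ × ℝ → ℂ} {T₁ T₂ : ℂ → ℂ} (cU : Continuous U) (cV : Continuous V)
    (t₁ : Continuous T₁) (t₂ : Continuous T₂) : Continuous fun p : ℝ × ℝ =>
      (((1 - p.1) ^ 2 / 2 : ℝ) : ℂ) * -(((V p - U p) / 2) ^ 3) *
      (2 * Complex.cos (p.1 * ((V p - U p) / 2)) *
        T₁ ((U p + V p) / 2 + ((0 : ℝ) : ℂ) * ((V p - U p) / 2)) +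
        T₂ ((U p + V p) / 2 + (p.1 : ℂ) * ((V p - U p) / 2)) +
        T₂ ((U p + V p) / 2 + ((-p.1 : ℝ) : ℂ) * ((V p - U p) / 2))) := by
  have t₃ := Complex.continuous_cos
  fun_prop

theorem cont_Fi {r ω : ℝ} {A B : ℕ} {c : ℤ → ℂ} {g : ℂ → ℂ} (hg : HP r (fun z => g z - z))
    {y : ℝ} (hy : |y| < r) :
    Continuous fun p : ℝ × ℝ => Fi c A B g ω p.1 (p.2 + y * Complex.I) := by
  have c1 : Continuous fun p : ℝ × ℝ => g (p.2 + y * Complex.I) :=
    (line_g hg hy).comp continuous_snd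
  have c2 : Continuous fun p : ℝ × ℝ => g (p.2 + y * Complex.I + ω) :=
    (line_g' hg ω hy).comp continuous_snd
  have ht : ∀ a : ℤ → ℂ, Continuous (trunc a B) := fun a =>
    continuous_iff_continuousAt.mpr fun w => (hasDerivAt_trunc _ B w).continuousAt
  exact cont_gen c1 c2 (ht (bc c A)) (ht (fun n => bc c A n * (n * Complex.I) * (n * Complex.I)))

end KD1

/-- low levels: `MM` is the derivative of a small function -/
theorem MM_low (K Q : ℝ) (hQ : 1 ≤ Q) : ∃ C : ℝ, 1 ≤ C ∧ ∀ (c : ℤ → ℂ) (A B : ℕ) (Nb ω : ℝ)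
    (g : ℂ → ℂ), 1 ≤ K → 1 ≤ A → A ≤ B → (B : ℝ) ≤ Q * A → 10 ^ 4 * K ^ 4 ≤ Nb → 1 ≤ ω * Nb →
    ω * Nb ≤ 7 → (∀ n, c (-n) = starRingEnd ℂ (c n)) → Dif K (4 * cr K / B) g →
    HP (4 * cr K / B) (fun z => g z - z) →
    ∃ e : ℂ → ℂ, HP (4 * cr K / B) e ∧
      (∀ z ∈ Strip (4 * cr K / B), MM (blockF c A B) g ω z = deriv e z) ∧
      HN (3 * cr K / B) e (C * blk c A B / (Nb ^ 3 * (B : ℝ) ^ 2)) := by
  obtain ⟨C₁, hC₁, hl2⟩ := block_l2 Q hQ
  by_cases hK : 1 ≤ K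
  swap
  · exact ⟨1, le_rfl, fun c A B Nb ω g h => absurd h hK⟩
  refine ⟨2100 * K ^ 4 * C₁, ?_, ?_⟩
  · have : 1 ≤ K ^ 4 := one_le_pow₀ hK
    nlinarith
  intro c A B Nb ω g _ hA hAB hBQ hNb hlo hhi hc D hg
  have hB : 1 ≤ B := hA.trans hAB
  have hB' : (0 : ℝ) < B := by exact_mod_cast hB
  have hB1 : (1 : ℝ) ≤ B := by exact_mod_cast hB
  have hNb0 : 0 < Nb := lt_of_lt_of_le (by positivity) hNb
  have hω0 : 0 < ω := by
    by_contra hcon
    push Not at hcon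
    nlinarith
  have hωle : ω ≤ 7 / Nb := by
    rw [le_div_iff₀ hNb0]
    exact hhi
  have hK4 : K ≤ K ^ 4 := by
    have h1 : 1 ≤ K ^ 3 := one_le_pow₀ hK
    nlinarith
  have hKω : K * ω ≤ 7 * K / Nb := by
    calc K * ω ≤ K * (7 / Nb) := by gcongr
      _ = 7 * K / Nb := by ring
  have hKω2 : K * ω ≤ 1 / 2 := by
    refine hKω.trans ?_
    rw [div_le_div_iff₀ hNb0 (by norm_num)]
    nlinarith
  set b := blk c A B with hb
  have hb0 : 0 ≤ b := Real.sqrt_nonneg _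
  have hC1 : 0 ≤ C₁ := by linarith
  have l0 := hl2 c A B hA hAB hBQ 0 (by norm_num)
  have l2 := hl2 c A B hA hAB hBQ 2 (by norm_num)
  have e0 : (B : ℝ) ^ (((0 : ℕ) : ℝ) - 4) = 1 / B ^ 4 := by
    rw [one_div, ← rpow_natCast, ← rpow_neg hB'.le]
    congr 1
    norm_num
  have e2 : (B : ℝ) ^ (((2 : ℕ) : ℝ) - 4) = 1 / B ^ 2 := by
    rw [one_div, ← rpow_natCast, ← rpow_neg hB'.le]
    congr 1
    norm_num
  rw [e0] at l0
  rw [e2] at l2
  have h0 : ∑ n ∈ Finset.Icc (-(B : ℤ)) B, ‖KD1.bc c A n‖ ^ 2 ≤ (C₁ * (1 / B ^ 4) * b) ^ 2 := by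
    refine le_trans (le_of_eq ?_) l0
    refine Finset.sum_congr rfl fun n _ => ?_
    simp [KD1.bc]
  have h2 : ∑ n ∈ Finset.Icc (-(B : ℤ)) B, ‖KD1.bc c A n * (n * Complex.I) * (n * Complex.I)‖ ^ 2 ≤
      (C₁ * (1 / B ^ 2) * b) ^ 2 := by
    refine le_trans (le_of_eq ?_) l2
    refine Finset.sum_congr rfl fun n _ => ?_
    rw [norm_mul, norm_mul, norm_mul, Complex.norm_I, mul_one, Complex.norm_intCast]
    unfold KD1.bc
    ring
  have hF := KD1.hn_int (M := (K * ω) ^ 3 / 2 * (8 * K * (C₁ * (1 / B ^ 4) * b) +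
      4 * K * (C₁ * (1 / B ^ 2) * b))) (F := fun s z => KD1.Fi c A B g ω s z)
    (fun y hy => KD1.cont_Fi hg hy)
    (fun s hs0 hs1 => KD1.hn_Fi hK hB hω0.le hKω2 hc D hg (by positivity) (by positivity)
      h0 h2 hs0 hs1)
  refine ⟨KD1.ee c A B g ω, KD1.hp_ee hK hB hc D hg, fun z hz => KD1.ee_deriv D hz, ?_⟩
  refine KD1.hn_mono (KD1.hn_congr hF fun z _ => KD1.ee_eq c A B g ω z) ?_ (by positivity) ?_
  · have := KD1.cr_pos hK
    gcongr
    norm_num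
  · have f02 : 1 / (B : ℝ) ^ 4 ≤ 1 / B ^ 2 := by
      gcongr
      norm_num
    have k2 : C₁ * (1 / (B : ℝ) ^ 4) * b ≤ C₁ * (1 / B ^ 2) * b :=
      mul_le_mul_of_nonneg_right (mul_le_mul_of_nonneg_left f02 hC1) hb0
    calc (K * ω) ^ 3 / 2 * (8 * K * (C₁ * (1 / B ^ 4) * b) + 4 * K * (C₁ * (1 / B ^ 2) * b))
        ≤ (7 * K / Nb) ^ 3 / 2 * (12 * K * (C₁ * (1 / B ^ 2) * b)) := by
          refine mul_le_mul ?_ ?_ (by positivity) (by positivity)
          · have := pow_le_pow_left₀ (by positivity) hKω 3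
            linarith
          · nlinarith [mul_le_mul_of_nonneg_left k2 (by positivity : 0 ≤ 8 * K)]
      _ = 2058 * K ^ 4 * (C₁ * b / (Nb ^ 3 * B ^ 2)) := by
          field_simp
          ring
      _ ≤ 2100 * K ^ 4 * (C₁ * b / (Nb ^ 3 * B ^ 2)) := by
          gcongr
          norm_num
      _ = _ := by ring

end Pool.Agent.MP_b87ea9_an.Kam
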