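import Mathlib
import Pool.Agent.Lib.MP_b87ea9_an.KDefs
import Pool.Agent.Lib.MP_b87ea9_an.KDefs2
import Pool.Agent.Lib.MP_b87ea9_an.KDefs3
import Pool.Agent.Lib.MP_b87ea9_an.KD0
import Pool.Agent.Lib.MP_b87ea9_an.KA3
import Pool.Agent.Lib.MP_b87ea9_an.KA5
import Pool.Agent.Lib.MP_b87ea9_an.KD1a
import Pool.Agent.Lib.MP_b87ea9_an.KD1b

set_option autoImplicit false

/-! The fresh error: identity, `EX`, low frequency levels -/

namespace Pool.Agent.MP_b87ea9_an.Kam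

open Real MeasureTheory

namespace KD1

theorem fc_const_zero (c : ℂ) : fc (fun _ => c) 0 = c := by
  unfold fc
  simp only [Int.cast_zero, zero_mul, neg_zero, Complex.exp_zero, mul_one]
  rw [intervalIntegral.integral_const, sub_zero, Complex.real_smul]
  have : (π : ℂ) ≠ 0 := by exact_mod_cast pi_ne_zero
  push_cast
  field_simp

theorem invD_congr {r ω : ℝ} {f f' : ℂ → ℂ} (hr : 0 < r) (h : ∀ z ∈ Strip r, f z = f' z) :
    invD ω f = invD ω f' := by
  funext z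
  unfold invD
  refine tsum_congr fun n => ?_
  rw [fc_congr_strip hr h n]

/-- `invD` of a coboundary -/
theorem invD_cob {r γ Nb ω E : ℝ} {f : ℂ → ℂ} (h : HP r f) (hr : 0 < r) (hγ : 0 < γ)
    (hNb : 1 ≤ Nb) (R : Rot γ Nb ω) (hE : Bd r f E) :
    Bd r (invD ω (fun z => f (z + ω) - f z)) (2 * E) := by
  have hsub : (fun z => f (z + ω) - f z) = fun z => f (z + ω) + (-1 : ℂ) * f z := by
    funext z
    ring
  have hm1 : HP r (fun z => (-1 : ℂ) * f z) := by
    have := hp_mul (hp_const r (-1)) h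
    convert this using 2 with z
    push_cast
    rfl
  have h0 : fc (fun z => f (z + ω) - f z) 0 = 0 := by
    rw [hsub, fc_add (hp_shift h ω) hm1 hr, fc_translate h hr, fc_smul]
    simp
  set m : ℝ := (fc f 0).re with hm
  have hmr : fc f 0 = (m : ℂ) := by
    have h1 := fc_neg h 0
    rw [neg_zero] at h1
    exact (Complex.conj_eq_iff_re.mp h1.symm).symm
  have hu : HP r (fun z => f z + ((-m : ℝ) : ℂ)) := hp_add h (hp_const r (-m))
  have hfc : fc (fun z => f z + ((-m : ℝ) : ℂ)) 0 = 0 := by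
    rw [fc_add h (hp_const r (-m)) hr, fc_const_zero, hmr]
    push_cast
    ring
  intro z hz
  rw [invD_unique (hp_sub (hp_shift h ω) h) hr hγ hNb R hu hfc (fun z _ => by rw [h0]; ring) hz]
  have h1 : ‖fc f 0‖ ≤ E := norm_fc_zero_le h hr fun t => hE _ (ka2_mem' hr t)
  rw [hmr] at h1
  have h2 := hE z hz
  calc ‖f z + ((-m : ℝ) : ℂ)‖ ≤ ‖f z‖ + ‖((-m : ℝ) : ℂ)‖ := norm_add_le _ _
    _ = ‖f z‖ + ‖(m : ℂ)‖ := by
        congr 1
        push_cast
        rw [norm_neg]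
    _ ≤ E + E := add_le_add h2 h1
    _ = 2 * E := by ring

end KD1

theorem fresh_low (K γ Q : ℝ) (hQ : 1 ≤ Q) : ∃ C κ : ℝ, 1 ≤ C ∧ 0 < κ ∧ ∀ (c : ℤ → ℂ) (A B : ℕ)
    (Nb ω ω' : ℝ) (g : ℂ → ℂ), 1 ≤ K → 0 < γ → γ ≤ 1 → 1 ≤ A → A ≤ B → (B : ℝ) ≤ Q * A →
    (B : ℝ) ≤ Nb → 10 ^ 4 * K ^ 4 ≤ Nb → Rot γ Nb ω → Rot γ Nb ω' → |ω' - ω| ≤ 1 / (B * max (B : ℝ) Nb) →
    (∀ n, c (-n) = starRingEnd ℂ (c n)) → Dif K (4 * cr K / B) g →
    HP (4 * cr K / B) (fun z => g z - z) →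
    Bd (2 * cr K / B) (invD ω' (fun z => FF (blockF c A B) g ω (z + ω')))
      (C * ((B : ℝ) ^ (-(1 / 2) : ℝ) + exp (-(κ * Nb / B))) * blk c A B /
        (Nb * B * max (B : ℝ) Nb)) := by
  by_cases hK : 1 ≤ K
  swap
  · exact ⟨1, 1, le_rfl, one_pos, fun c A B Nb ω ω' g h => absurd h hK⟩
  by_cases hγ : 0 < γ
  swap
  · exact ⟨1, 1, le_rfl, one_pos, fun c A B Nb ω ω' g _ h => absurd h hγ⟩
  obtain ⟨CE, hCE, hEX⟩ := EX_bound K Q hQ
  obtain ⟨CM, hCM, hMM⟩ := MM_low K Q hQ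
  obtain ⟨Cb, hCb, hbd⟩ := invD_bd
  obtain ⟨Cl, hCl, hlow⟩ := invD_low
  have hcr := KD1.cr_pos hK
  have hcr1 : cr K ≤ 1 := (KD1.cr_le hK).trans (by norm_num)
  refine ⟨Cl / γ * (2 * CM / cr K ^ 2) + 2 * CE + 6 * Cb * CE / (γ * cr K ^ 2), cr K / 8, ?_,
    by positivity, ?_⟩
  · have h1 : 0 ≤ Cl / γ * (2 * CM / cr K ^ 2) := by positivity
    have h2 : 0 ≤ 6 * Cb * CE / (γ * cr K ^ 2) := by positivity
    linarith
  intro c A B Nb ω ω' g _ _ hγ1 hA hAB hBQ hBNb hNb R R' hdom hc D hg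
  have hB : 1 ≤ B := hA.trans hAB
  have hB' : (0 : ℝ) < B := by exact_mod_cast hB
  have hB1 : (1 : ℝ) ≤ B := by exact_mod_cast hB
  have hNb1 : 1 ≤ Nb := hB1.trans hBNb
  have hNb0 : 0 < Nb := by linarith
  rw [max_eq_right hBNb] at hdom ⊢
  obtain ⟨pEX, pMM, pFF, bEX⟩ := hEX c A B Nb ω g hK hA hAB hBQ hNb R.lo R.hi hc D hg
  obtain ⟨e, pe, hde, hne⟩ := hMM c A B Nb ω g hK hA hAB hBQ hNb R.lo R.hi hc D hg
  rw [max_eq_right hBNb] at bEX
  set b := blk c A B with hb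
  have hb0 : 0 ≤ b := Real.sqrt_nonneg _
  set x := (B : ℝ) ^ (-(1 / 2) : ℝ) with hx
  have hx0 : 0 < x := rpow_pos_of_pos hB' _
  set E₀ := CE * x * b / (Nb * B * Nb) with hE₀
  have hE0 : 0 ≤ E₀ := by positivity
  set EXb := EX (blockF c A B) g ω with hEXb
  set MMb := MM (blockF c A B) g ω with hMMb
  have hr3 : 0 < 3 * cr K / (B : ℝ) := by positivity
  have h34 : 3 * cr K / (B : ℝ) ≤ 4 * cr K / B := by
    gcongr
    norm_num
  have hr4 : 0 < 4 * cr K / (B : ℝ) := by positivity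
  -- the three parts
  have p1 : HP (3 * cr K / B) (fun z => MMb (z + ω')) := hp_mono (hp_shift pMM ω') h34
  have pE3 : HP (3 * cr K / B) EXb := hp_mono pEX h34
  have p2 : HP (3 * cr K / B) (fun z => EXb (z + ω') - EXb z) := hp_sub (hp_shift pE3 ω') pE3
  have p3 : HP (3 * cr K / B) (fun z => EXb z - EXb (z + ((ω' - ω : ℝ) : ℂ))) :=
    hp_sub pE3 (hp_shift pE3 _)
  have hmul : ∀ {f : ℂ → ℂ}, HP (3 * cr K / B) f → HP (3 * cr K / B) (fun z => (-1 : ℂ) * f z) := by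
    intro f hf
    have := hp_mul (hp_const (3 * cr K / B) (-1)) hf
    convert this using 2 with z
    push_cast
    rfl
  have hsplit : (fun z => FF (blockF c A B) g ω (z + ω')) = fun z => MMb (z + ω') +
      ((-1 : ℂ) * (EXb (z + ω') - EXb z) + (-1 : ℂ) * (EXb z - EXb (z + ((ω' - ω : ℝ) : ℂ)))) := by
    funext z
    rw [FF_eq]
    have : z + ω' - ω = z + ((ω' - ω : ℝ) : ℂ) := by
      push_cast
      ring
    rw [this]
    ring
  intro z hz
  have hz3 : z ∈ Strip (3 * cr K / B) := by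
    have hz' : |z.im| < 2 * cr K / B := hz
    show |z.im| < 3 * cr K / B
    refine hz'.trans_le ?_
    gcongr
    norm_num
  rw [hsplit, invD_add p1 (hp_add (hmul p2) (hmul p3)) hr3 hγ hNb1 R' hz3,
    invD_add (hmul p2) (hmul p3) hr3 hγ hNb1 R' hz3, invD_smul, invD_smul]
  -- part 1
  have b1 : ‖invD ω' (fun z => MMb (z + ω')) z‖ ≤
      Cl / γ * (2 * CM / cr K ^ 2) * (x + exp (-(cr K / 8 * Nb / B))) * b / (Nb * B * Nb) := by
    rw [invD_shift pMM hr4, KD1.invD_congr (f' := deriv e) hr4 hde]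
    have hδ : 0 < cr K / (B : ℝ) := by positivity
    have hδ3 : cr K / (B : ℝ) < 3 * cr K / B := by
      gcongr
      linarith
    have hδB : cr K / B * (B : ℝ) ≤ 1 := by
      rw [div_mul_cancel₀ _ hB'.ne']
      exact hcr1
    have := hlow (3 * cr K / B) (cr K / B) (CM * b / (Nb ^ 3 * (B : ℝ) ^ 2)) γ Nb ω' B e hδ hδ3 hγ
      hγ1 hB1 hBNb hδB (by positivity) R' (hp_mono pe h34) hne
    have hr2 : 3 * cr K / (B : ℝ) - cr K / B = 2 * cr K / B := by ring
    rw [hr2] at this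
    refine (this (z + ω') (KD1.mem_add_real ω' hz)).trans ?_
    have e1 : (1 / (cr K / (B : ℝ))) ^ (1 / 2 : ℝ) ≤ x * B / cr K := by
      have h1 : 1 / (cr K / (B : ℝ)) = B * (1 / cr K) := by
        field_simp
      rw [h1, mul_rpow hB'.le (by positivity)]
      have h2 : (1 / cr K) ^ (1 / 2 : ℝ) ≤ 1 / cr K := by
        have h3 : 1 ≤ 1 / cr K := by
          rw [le_div_iff₀ hcr, one_mul]
          exact hcr1
        have := rpow_le_rpow_of_exponent_le h3 (by norm_num : (1 / 2 : ℝ) ≤ 1)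
        rwa [rpow_one] at this
      have h3 : (B : ℝ) ^ (1 / 2 : ℝ) = x * B := by
        rw [hx]
        nth_rw 3 [← rpow_one (B : ℝ)]
        rw [← rpow_add hB']
        norm_num
      rw [h3]
      calc x * B * (1 / cr K) ^ (1 / 2 : ℝ) ≤ x * B * (1 / cr K) := by gcongr
        _ = _ := by ring
    have e2 : (1 / (cr K / (B : ℝ)) + Nb) / (cr K / B) ≤ 2 * Nb * B / cr K ^ 2 := by
      have h1 : (1 / (cr K / (B : ℝ)) + Nb) / (cr K / B) = (B + cr K * Nb) * B / cr K ^ 2 := by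
        field_simp
      rw [h1]
      gcongr
      nlinarith
    have e3 : cr K / (B : ℝ) * Nb / 8 = cr K / 8 * Nb / B := by ring
    rw [e3]
    calc Cl / γ * (Nb * (1 / (cr K / (B : ℝ))) ^ (1 / 2 : ℝ) + (1 / (cr K / B) + Nb) / (cr K / B) *
          exp (-(cr K / 8 * Nb / B))) * (CM * b / (Nb ^ 3 * B ^ 2))
        ≤ Cl / γ * (Nb * (x * B / cr K) + 2 * Nb * B / cr K ^ 2 *
          exp (-(cr K / 8 * Nb / B))) * (CM * b / (Nb ^ 3 * B ^ 2)) := by gcongr
      _ ≤ Cl / γ * (2 * Nb * B / cr K ^ 2 * x + 2 * Nb * B / cr K ^ 2 *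
          exp (-(cr K / 8 * Nb / B))) * (CM * b / (Nb ^ 3 * B ^ 2)) := by
          have h1 : Nb * (x * B / cr K) ≤ 2 * Nb * B / cr K ^ 2 * x := by
            have h2 : 1 / cr K ≤ 2 / cr K ^ 2 := by
              rw [div_le_div_iff₀ hcr (by positivity)]
              nlinarith
            calc Nb * (x * B / cr K) = Nb * B * x * (1 / cr K) := by ring
              _ ≤ Nb * B * x * (2 / cr K ^ 2) := by gcongr
              _ = _ := by ring
          gcongr
      _ = _ := by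
          field_simp
  -- part 2
  have b2 : ‖invD ω' (fun z => EXb (z + ω') - EXb z) z‖ ≤ 2 * E₀ :=
    KD1.invD_cob pE3 hr3 hγ hNb1 R' bEX z hz3
  -- part 3
  have b3 : ‖invD ω' (fun z => EXb z - EXb (z + ((ω' - ω : ℝ) : ℂ))) z‖ ≤
      6 * Cb * E₀ / (γ * cr K ^ 2) := by
    have hδ : 0 < cr K / (2 * (B : ℝ)) := by positivity
    have h1 := bd_deriv pE3 hδ bEX
    have hr' : 0 < 3 * cr K / (B : ℝ) - cr K / (2 * B) := by
      have : 3 * cr K / (B : ℝ) - cr K / (2 * B) = 5 * (cr K / (2 * B)) := by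
        field_simp
        norm_num
      rw [this]
      positivity
    have hr'3 : 3 * cr K / (B : ℝ) - cr K / (2 * B) ≤ 3 * cr K / B := by linarith
    have h2 : Bd (3 * cr K / B - cr K / (2 * B))
        (fun z => EXb z - EXb (z + ((ω' - ω : ℝ) : ℂ))) (2 * E₀ / (cr K * Nb)) := by
      intro w hw
      have h3 := bd_lip (hp_mono pE3 hr'3).hol h1 hw (KD1.mem_add_real (ω' - ω) hw)
      refine h3.trans ?_
      have h4 : ‖w - (w + ((ω' - ω : ℝ) : ℂ))‖ = |ω' - ω| := by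
        rw [sub_add_cancel_left, norm_neg, Complex.norm_real, Real.norm_eq_abs]
      rw [h4]
      calc E₀ / (cr K / (2 * B)) * |ω' - ω| ≤ E₀ / (cr K / (2 * B)) * (1 / (B * Nb)) := by gcongr
        _ = 2 * E₀ / (cr K * Nb) := by
            field_simp
    have hp3' := hp_mono p3 hr'3
    have hδr : cr K / (2 * (B : ℝ)) < 3 * cr K / B - cr K / (2 * B) := by
      have : 3 * cr K / (B : ℝ) - cr K / (2 * B) = 5 * (cr K / (2 * B)) := by
        field_simp
        norm_num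
      rw [this]
      linarith
    have h5 := hbd (3 * cr K / B - cr K / (2 * B)) (cr K / (2 * B)) (2 * E₀ / (cr K * Nb)) γ Nb ω'
      (fun z => EXb z - EXb (z + ((ω' - ω : ℝ) : ℂ))) hδ hδr hγ hγ1 hNb1 (by positivity) R' hp3'
      (hn_of_bd hp3' h2)
    have hr2 : 3 * cr K / (B : ℝ) - cr K / (2 * B) - cr K / (2 * B) = 2 * cr K / B := by
      field_simp
      norm_num
    rw [hr2] at h5
    refine (h5 z hz).trans ?_
    have h6 : 1 / (cr K / (2 * (B : ℝ))) + Nb ≤ 3 * Nb / cr K := by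
      have h7 : 1 / (cr K / (2 * (B : ℝ))) = 2 * B / cr K := by
        field_simp
      rw [h7]
      have h8 : Nb ≤ Nb / cr K := by
        rw [le_div_iff₀ hcr]
        nlinarith
      have h9 : 2 * (B : ℝ) / cr K ≤ 2 * Nb / cr K := by gcongr
      have h10 : 3 * Nb / cr K = 2 * Nb / cr K + Nb / cr K := by ring
      linarith
    calc Cb / γ * (1 / (cr K / (2 * (B : ℝ))) + Nb) * (2 * E₀ / (cr K * Nb))
        ≤ Cb / γ * (3 * Nb / cr K) * (2 * E₀ / (cr K * Nb)) := by gcongr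
      _ = _ := by
          field_simp
          ring
  have hfin : E₀ ≤ CE * (x + exp (-(cr K / 8 * Nb / B))) * b / (Nb * B * Nb) := by
    rw [hE₀]
    have := exp_pos (-(cr K / 8 * Nb / B))
    gcongr
    linarith
  calc ‖invD ω' (fun z => MMb (z + ω')) z + (-1 * invD ω' (fun z => EXb (z + ω') - EXb z) z +
        -1 * invD ω' (fun z => EXb z - EXb (z + ((ω' - ω : ℝ) : ℂ))) z)‖
      ≤ ‖invD ω' (fun z => MMb (z + ω')) z‖ + (‖invD ω' (fun z => EXb (z + ω') - EXb z) z‖ +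
        ‖invD ω' (fun z => EXb z - EXb (z + ((ω' - ω : ℝ) : ℂ))) z‖) := by
        refine (norm_add_le _ _).trans (add_le_add le_rfl ((norm_add_le _ _).trans ?_))
        rw [norm_mul, norm_mul, norm_neg, norm_one, one_mul, one_mul]
    _ ≤ Cl / γ * (2 * CM / cr K ^ 2) * (x + exp (-(cr K / 8 * Nb / B))) * b / (Nb * B * Nb) +
        (2 * E₀ + 6 * Cb * E₀ / (γ * cr K ^ 2)) := add_le_add b1 (add_le_add b2 b3)
    _ ≤ Cl / γ * (2 * CM / cr K ^ 2) * (x + exp (-(cr K / 8 * Nb / B))) * b / (Nb * B * Nb) +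
        (2 * (CE * (x + exp (-(cr K / 8 * Nb / B))) * b / (Nb * B * Nb)) +
          6 * Cb * (CE * (x + exp (-(cr K / 8 * Nb / B))) * b / (Nb * B * Nb)) /
            (γ * cr K ^ 2)) := by gcongr
    _ = _ := by ring

end Pool.Agent.MP_b87ea9_an.Kam
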