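import Mathlib
import Pool.Agent.Lib.MP_b87ea9_an.KDefs
import Pool.Agent.Lib.MP_b87ea9_an.KDefs2
import Pool.Agent.Lib.MP_b87ea9_an.KDefs3
import Pool.Agent.Lib.MP_b87ea9_an.KD1

set_option autoImplicit false

/-! The fresh error: high frequency levels -/

namespace Pool.Agent.MP_b87ea9_an.Kam

open Real MeasureTheory

/-! ### elementary bounds -/

theorem kd2_norm_cos {z : ℂ} (hz : ‖z‖ ≤ 1) : ‖Complex.cos z‖ ≤ 3 := by
  have h1 : ‖Complex.exp (z * Complex.I)‖ ≤ 3 := by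
    calc ‖Complex.exp (z * Complex.I)‖ ≤ Real.exp ‖z * Complex.I‖ := Complex.norm_exp_le_exp_norm _
      _ ≤ Real.exp 1 := Real.exp_le_exp.2 (by simpa using hz)
      _ ≤ 3 := by have := Real.exp_one_lt_d9; linarith
  have h2 : ‖Complex.exp (-z * Complex.I)‖ ≤ 3 := by
    calc ‖Complex.exp (-z * Complex.I)‖ ≤ Real.exp ‖-z * Complex.I‖ :=
          Complex.norm_exp_le_exp_norm _
      _ ≤ Real.exp 1 := Real.exp_le_exp.2 (by simpa using hz)
      _ ≤ 3 := by have := Real.exp_one_lt_d9; linarith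
  rw [Complex.cos, norm_div]
  have h3 := norm_add_le (Complex.exp (z * Complex.I)) (Complex.exp (-z * Complex.I))
  rw [div_le_iff₀ (by simp)]
  simp only [Complex.norm_ofNat]
  linarith

theorem kd2_norm_sin' {z : ℂ} (hz : ‖z‖ ≤ 1) : ‖Complex.sin z‖ ≤ 3 := by
  have h1 : ‖Complex.exp (z * Complex.I)‖ ≤ 3 := by
    calc ‖Complex.exp (z * Complex.I)‖ ≤ Real.exp ‖z * Complex.I‖ := Complex.norm_exp_le_exp_norm _
      _ ≤ Real.exp 1 := Real.exp_le_exp.2 (by simpa using hz)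
      _ ≤ 3 := by have := Real.exp_one_lt_d9; linarith
  have h2 : ‖Complex.exp (-z * Complex.I)‖ ≤ 3 := by
    calc ‖Complex.exp (-z * Complex.I)‖ ≤ Real.exp ‖-z * Complex.I‖ :=
          Complex.norm_exp_le_exp_norm _
      _ ≤ Real.exp 1 := Real.exp_le_exp.2 (by simpa using hz)
      _ ≤ 3 := by have := Real.exp_one_lt_d9; linarith
  rw [Complex.sin, norm_div, norm_mul, Complex.norm_I, mul_one]
  have h3 := norm_sub_le (Complex.exp (-z * Complex.I)) (Complex.exp (z * Complex.I))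
  rw [div_le_iff₀ (by simp)]
  simp only [Complex.norm_ofNat]
  linarith

theorem kd2_sin_lip {a b : ℂ} (ha : ‖a‖ ≤ 1) (hb : ‖b‖ ≤ 1) :
    ‖Complex.sin a - Complex.sin b‖ ≤ 3 * ‖a - b‖ := by
  have hcv : Convex ℝ (Metric.closedBall (0 : ℂ) 1) := convex_closedBall _ _
  refine hcv.norm_image_sub_le_of_norm_deriv_le (𝕜 := ℂ) (f := Complex.sin)
    (fun x _ => Complex.differentiable_sin x) (fun x hx => ?_) (by simpa using hb) (by simpa using ha)
  rw [Complex.deriv_sin]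
  exact kd2_norm_cos (by simpa using hx)

theorem kd2_cos_lip {a b : ℂ} (ha : ‖a‖ ≤ 1) (hb : ‖b‖ ≤ 1) :
    ‖Complex.cos a - Complex.cos b‖ ≤ 3 * ‖a - b‖ := by
  have hcv : Convex ℝ (Metric.closedBall (0 : ℂ) 1) := convex_closedBall _ _
  refine hcv.norm_image_sub_le_of_norm_deriv_le (𝕜 := ℂ) (f := Complex.cos)
    (fun x _ => Complex.differentiable_cos x) (fun x hx => ?_) (by simpa using hb) (by simpa using ha)
  rw [Complex.deriv_cos, norm_neg]
  exact kd2_norm_sin' (by simpa using hx)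

theorem kd2_norm_sin {a : ℂ} (ha : ‖a‖ ≤ 1) : ‖Complex.sin a‖ ≤ 3 * ‖a‖ := by
  have := kd2_sin_lip ha (b := 0) (by simp)
  simpa using this

/-! ### trigonometric polynomials -/

theorem kd2_hasDerivAt_trunc (c : ℤ → ℂ) (B : ℕ) (z : ℂ) :
    HasDerivAt (trunc c B) (trunc (fun n => n * Complex.I * c n) B z) z := by
  unfold trunc
  apply HasDerivAt.fun_sum
  intro n _
  have h1 : HasDerivAt (fun z : ℂ => (n : ℂ) * z * Complex.I) ((n : ℂ) * Complex.I) z := by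
    have := ((hasDerivAt_id z).const_mul (n : ℂ)).mul_const Complex.I
    simpa using this
  have h2 := (h1.cexp).const_mul (c n)
  have h3 : c n * (Complex.exp ((n : ℂ) * z * Complex.I) * ((n : ℂ) * Complex.I)) =
      (n : ℂ) * Complex.I * c n * Complex.exp ((n : ℂ) * z * Complex.I) := by ring
  rw [h3] at h2
  exact h2

theorem kd2_diff_trunc (c : ℤ → ℂ) (B : ℕ) : Differentiable ℂ (trunc c B) :=
  fun z => (kd2_hasDerivAt_trunc c B z).differentiableAt

theorem kd2_deriv_trunc (c : ℤ → ℂ) (B : ℕ) :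
    deriv (trunc c B) = trunc (fun n => n * Complex.I * c n) B :=
  funext fun z => (kd2_hasDerivAt_trunc c B z).deriv

/-! ### scales -/

theorem kd2_cr_pos {K : ℝ} (hK : 1 ≤ K) : 0 < cr K := by
  unfold cr; positivity

theorem kd2_scale {K : ℝ} {B : ℕ} (hK : 1 ≤ K) (hB : 1 ≤ B) :
    0 < 4 * cr K / B ∧ 4 * cr K / B * (4 * K * B) ≤ 1 := by
  have hB' : (0 : ℝ) < B := by exact_mod_cast hB
  have hK0 : (0 : ℝ) < K := by linarith
  constructor
  · have := kd2_cr_pos hK; positivity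
  · unfold cr
    have h1 : 4 * (1 / (10 ^ 4 * K ^ 4)) / (B : ℝ) * (4 * K * B) = 16 / (10 ^ 4 * K ^ 3) := by
      field_simp
      norm_num
    rw [h1, div_le_one (by positivity)]
    have : (1 : ℝ) ≤ K ^ 3 := one_le_pow₀ hK
    nlinarith

/-! ### circle diffeomorphisms -/

theorem kd2_strip_add {r : ℝ} {z : ℂ} (hz : z ∈ Strip r) (a : ℝ) : z + a ∈ Strip r := by
  simpa [Strip] using hz

theorem kd2_strip_mono {r r' : ℝ} {z : ℂ} (hz : z ∈ Strip r) (h : r ≤ r') : z ∈ Strip r' := by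
  have h1 : |z.im| < r := hz
  exact lt_of_lt_of_le h1 h

theorem kd2_hol_shift {r : ℝ} {f : ℂ → ℂ} (h : DifferentiableOn ℂ f (Strip r)) (a : ℝ) :
    DifferentiableOn ℂ (fun z => f (z + a)) (Strip r) := by
  intro z hz
  have h1 : DifferentiableAt ℂ f (z + a) :=
    h.differentiableAt ((isOpen_strip r).mem_nhds (kd2_strip_add hz a))
  exact (h1.comp z (by fun_prop : DifferentiableAt ℂ (fun z : ℂ => z + a) z)).differentiableWithinAt

theorem kd2_hol_deriv {r : ℝ} {f : ℂ → ℂ} (h : DifferentiableOn ℂ f (Strip r)) :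
    DifferentiableOn ℂ (deriv f) (Strip r) := h.deriv (isOpen_strip r)

theorem kd2_dif_shift {K r : ℝ} {g : ℂ → ℂ} (D : Dif K r g) (a : ℝ) :
    Dif K r (fun z => g (z + a)) where
  hol := kd2_hol_shift D.hol a
  per z := by
    have := D.per (z + a)
    rw [← this]; congr 1; ring
  re t := by
    have := D.re (t + a)
    simpa using this
  lo t := by
    rw [deriv_comp_add_const]
    have := D.lo (t + a)
    simpa using this
  bd z hz := by
    rw [deriv_comp_add_const]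
    exact D.bd _ (kd2_strip_add hz a)

theorem kd2_dif_mid {K r : ℝ} {g : ℂ → ℂ} (D : Dif K r g) (hr : 0 < r) (a : ℝ) :
    Dif K r (fun z => (g z + g (z + a)) / 2) := by
  have D' := kd2_dif_shift D a
  have hd : ∀ z ∈ Strip r, deriv (fun z => (g z + g (z + a)) / 2) z =
      (deriv g z + deriv g (z + a)) / 2 := by
    intro z hz
    have h1 := (D.hol.differentiableAt ((isOpen_strip r).mem_nhds hz)).hasDerivAt
    have h2 := (D'.hol.differentiableAt ((isOpen_strip r).mem_nhds hz)).hasDerivAt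
    rw [deriv_comp_add_const] at h2
    exact ((h1.add h2).div_const 2).deriv
  have hreal : ∀ t : ℝ, (t : ℂ) ∈ Strip r := by
    intro t; simpa [Strip] using hr
  refine ⟨(D.hol.add D'.hol).div_const 2, ?_, ?_, ?_, ?_⟩
  · intro z
    have h1 := D.per z
    have h2 : g (z + 2 * π + a) = g (z + a) + 2 * π := D'.per z
    rw [h1, h2]; ring
  · intro t
    have h1 := D.re t
    have h2 : (g (t + a)).im = 0 := D'.re t
    have : ((g t + g (t + a)) / 2).im = ((g t).im + (g (t + a)).im) / 2 := by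
      rw [← Complex.add_im]
      exact_mod_cast Complex.div_ofNat_im _ 2
    rw [this, h1, h2]; simp
  · intro t
    rw [hd t (hreal t)]
    have h1 := D.lo t
    have h2 := D.lo (t + a)
    have : ((deriv g t + deriv g (t + a)) / 2).re = ((deriv g t).re + (deriv g (t + a)).re) / 2 := by
      rw [← Complex.add_re]
      exact_mod_cast Complex.div_ofNat_re _ 2
    rw [this]
    push_cast at h2
    linarith
  · intro z hz
    rw [hd z hz, norm_div]
    have h1 := D.bd z hz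
    have h2 := D.bd (z + a) (kd2_strip_add hz a)
    have h3 := norm_add_le (deriv g z) (deriv g (z + a))
    rw [div_le_iff₀ (by simp)]
    simp only [Complex.norm_ofNat]
    linarith

/-! ### seminorm calculus -/

/-- `L²` bound of a holomorphic function -/
def kd2S (r : ℝ) (f : ℂ → ℂ) (M : ℝ) : Prop :=
  0 ≤ M ∧ HN r f M ∧ DifferentiableOn ℂ f (Strip r)

theorem kd2_line {r : ℝ} {f : ℂ → ℂ} (h : DifferentiableOn ℂ f (Strip r)) {y : ℝ} (hy : |y| < r) :
    Continuous fun t : ℝ => f (t + y * Complex.I) := by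
  refine h.continuousOn.comp_continuous (by fun_prop) (fun t => ?_)
  simpa [Strip] using hy

theorem kd2S.mono {r : ℝ} {f : ℂ → ℂ} {M M' : ℝ} (h : kd2S r f M) (hM : M ≤ M') : kd2S r f M' := by
  obtain ⟨h0, h1, h2⟩ := h
  refine ⟨h0.trans hM, fun y hy => (h1 y hy).trans ?_, h2⟩
  have : M ^ 2 ≤ M' ^ 2 := by gcongr
  have hpi := Real.pi_pos
  nlinarith

theorem kd2S.add {r : ℝ} {f f' : ℂ → ℂ} {M M' : ℝ} (h : kd2S r f M) (h' : kd2S r f' M') :
    kd2S r (fun z => f z + f' z) (M + M') :=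
  ⟨add_nonneg h.1 h'.1, HN_add h.2.1 h'.2.1 h.1 h'.1 (fun _ hy => kd2_line h.2.2 hy)
    (fun _ hy => kd2_line h'.2.2 hy), h.2.2.add h'.2.2⟩

theorem kd2S.mul {r : ℝ} {f b : ℂ → ℂ} {M β : ℝ} (h : kd2S r f M) (hb : Bd r b β)
    (hd : DifferentiableOn ℂ b (Strip r)) (hβ : 0 ≤ β) : kd2S r (fun z => b z * f z) (β * M) :=
  ⟨mul_nonneg hβ h.1, HN_mul h.2.1 hb (fun _ hy => kd2_line h.2.2 hy) (fun _ hy => kd2_line hd hy) hβ,
    hd.mul h.2.2⟩

theorem kd2_HN_mono {r r' M : ℝ} {f : ℂ → ℂ} (h : HN r f M) (hr : r' ≤ r) : HN r' f M :=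
  fun y hy => h y (lt_of_lt_of_le hy hr)

/-! ### blocks -/

/-- the coefficients of a block -/
noncomputable def kd2c (c : ℤ → ℂ) (A : ℕ) : ℤ → ℂ := fun n => if |n| ≤ (A : ℤ) then 0 else c n

theorem kd2_block (c : ℤ → ℂ) (A B : ℕ) : blockF c A B = trunc (kd2c c A) B := rfl

theorem kd2_rpow {B : ℕ} (hB : 1 ≤ B) (j : ℕ) (hj : j ≤ 4) :
    (B : ℝ) ^ ((j : ℝ) - 4) = 1 / (B : ℝ) ^ (4 - j) := by
  have hB' : (0 : ℝ) < B := by exact_mod_cast hB
  have : (j : ℝ) - 4 = -((4 - j : ℕ) : ℝ) := by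
    rw [Nat.cast_sub hj]; push_cast; ring
  rw [this, Real.rpow_neg hB'.le, Real.rpow_natCast, one_div]

theorem kd2_l2 (Q : ℝ) (hQ : 1 ≤ Q) : ∃ C : ℝ, 1 ≤ C ∧ ∀ (c : ℤ → ℂ) (A B : ℕ), 1 ≤ A → A ≤ B →
    (B : ℝ) ≤ Q * A →
      ∑ n ∈ Finset.Icc (-(B : ℤ)) B, ‖kd2c c A n‖ ^ 2 ≤ (C * blk c A B / (B : ℝ) ^ 4) ^ 2 ∧
      ∑ n ∈ Finset.Icc (-(B : ℤ)) B, ‖(n : ℂ) * Complex.I * kd2c c A n‖ ^ 2 ≤
        (C * blk c A B / (B : ℝ) ^ 3) ^ 2 := by
  obtain ⟨C, hC, h⟩ := block_l2 Q hQ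
  refine ⟨C, hC, fun c A B hA hAB hBQ => ⟨?_, ?_⟩⟩
  · have h0 := h c A B hA hAB hBQ 0 (by norm_num)
    rw [kd2_rpow (hA.trans hAB) 0 (by norm_num)] at h0
    convert h0 using 1
    · refine Finset.sum_congr rfl fun n _ => ?_
      simp [kd2c]
    · congr 1; simp; ring
  · have h1 := h c A B hA hAB hBQ 1 (by norm_num)
    rw [kd2_rpow (hA.trans hAB) 1 (by norm_num)] at h1
    convert h1 using 1
    · refine Finset.sum_congr rfl fun n _ => ?_
      rw [norm_mul, norm_mul, Complex.norm_I, mul_one]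
      simp [kd2c]
    · congr 1; simp; ring

theorem kd2_blk_nonneg (c : ℤ → ℂ) (A B : ℕ) : 0 ≤ blk c A B := Real.sqrt_nonneg _

section block

variable {K C : ℝ} {c : ℤ → ℂ} {A B : ℕ} {φ φ' : ℂ → ℂ}

theorem kd2_comp {N : ℕ} {d : ℤ → ℂ} {M : ℝ} (hK : 1 ≤ K) (hN : 1 ≤ N) (D : Dif K (4 * cr K / N) φ)
    (hM : 0 ≤ M) (hd : ∑ n ∈ Finset.Icc (-(N : ℤ)) N, ‖d n‖ ^ 2 ≤ M ^ 2) :
    kd2S (4 * cr K / N) (fun z => trunc d N (φ z)) (2 * K * M) := by
  obtain ⟨h1, h2⟩ := kd2_scale hK hN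
  refine ⟨by positivity, comp_HN hK hN h1 h2 D hM hd, ?_⟩
  exact (kd2_diff_trunc d N).comp_differentiableOn D.hol

theorem kd2_comp_diff {N : ℕ} {d : ℤ → ℂ} {M δ : ℝ} (hK : 1 ≤ K) (hN : 1 ≤ N)
    (D : Dif K (4 * cr K / N) φ) (D' : Dif K (4 * cr K / N) φ') (hM : 0 ≤ M) (hδ : 0 ≤ δ)
    (hφ : ∀ z ∈ Strip (4 * cr K / N), ‖φ z - φ' z‖ ≤ δ)
    (hd : ∑ n ∈ Finset.Icc (-(N : ℤ)) N, ‖d n‖ ^ 2 ≤ M ^ 2) :
    kd2S (4 * cr K / N) (fun z => trunc d N (φ z) - trunc d N (φ' z)) (2 * K * (N * M) * δ) := by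
  obtain ⟨h1, h2⟩ := kd2_scale hK hN
  refine ⟨by positivity, comp_diff_HN hK hN h1 h2 D D' hM hφ hd, ?_⟩
  exact ((kd2_diff_trunc d N).comp_differentiableOn D.hol).sub
    ((kd2_diff_trunc d N).comp_differentiableOn D'.hol)

end block

/-! ### the half difference -/

theorem kd2_delta {K r ω Nb : ℝ} {g : ℂ → ℂ} (hK : 1 ≤ K) (D : Dif K r g)
    (hNb : 10 ^ 4 * K ^ 4 ≤ Nb) (h1 : 1 ≤ ω * Nb) (h7 : ω * Nb ≤ 7) {z : ℂ} (hz : z ∈ Strip r) :
    ‖(g (z + ω) - g z) / 2‖ ≤ 7 * K / Nb ∧ ‖(g (z + ω) - g z) / 2‖ ≤ 1 := by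
  have hK4 : (1 : ℝ) ≤ K ^ 4 := one_le_pow₀ hK
  have hNb0 : 0 < Nb := by nlinarith
  have hω : 0 < ω := by
    by_contra hcon
    have : ω * Nb ≤ 0 := mul_nonpos_of_nonpos_of_nonneg (not_lt.1 hcon) hNb0.le
    linarith
  have hl := bd_lip D.hol D.bd (kd2_strip_add hz ω) hz
  have e1 : ‖z + (ω : ℂ) - z‖ = ω := by
    rw [add_sub_cancel_left, Complex.norm_real, Real.norm_eq_abs, abs_of_pos hω]
  rw [e1] at hl
  have h2 : ‖(g (z + ω) - g z) / 2‖ ≤ K * ω := by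
    rw [norm_div, div_le_iff₀ (by simp)]
    simp only [Complex.norm_ofNat]
    linarith
  have h3 : K * ω ≤ 7 * K / Nb := by
    rw [le_div_iff₀ hNb0]; nlinarith
  refine ⟨h2.trans h3, h2.trans (h3.trans ?_)⟩
  rw [div_le_one hNb0]
  have : K ≤ K ^ 4 := by
    calc K = K ^ 1 := (pow_one K).symm
      _ ≤ K ^ 4 := pow_le_pow_right₀ hK (by norm_num)
  nlinarith

theorem MM_high (K Q : ℝ) (hQ : 1 ≤ Q) : ∃ C : ℝ, 1 ≤ C ∧ ∀ (c : ℤ → ℂ) (A B : ℕ) (Nb ω : ℝ)
    (g : ℂ → ℂ), 1 ≤ K → 1 ≤ A → A ≤ B → (B : ℝ) ≤ Q * A → 10 ^ 4 * K ^ 4 ≤ Nb → Nb ≤ B → 1 ≤ ω * Nb →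
    ω * Nb ≤ 7 → (∀ n, c (-n) = starRingEnd ℂ (c n)) → Dif K (4 * cr K / B) g →
    HP (4 * cr K / B) (fun z => g z - z) →
    HN (3 * cr K / B) (MM (blockF c A B) g ω) (C * blk c A B / (Nb * (B : ℝ) ^ 3)) := by
  obtain ⟨C, hC, hl2⟩ := kd2_l2 Q hQ
  refine ⟨max 1 (200 * K ^ 3 * C), le_max_left _ _, ?_⟩
  intro c A B Nb ω g hK hA hAB hBQ hNb hNbB h1 h7 _ D _
  have hB : 1 ≤ B := hA.trans hAB
  have hB' : (0 : ℝ) < B := by exact_mod_cast hB
  have hK4 : (1 : ℝ) ≤ K ^ 4 := one_le_pow₀ hK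
  have hNb0 : 0 < Nb := by nlinarith
  obtain ⟨hr, _⟩ := kd2_scale hK hB
  have hb := kd2_blk_nonneg c A B
  obtain ⟨l0, l1⟩ := hl2 c A B hA hAB hBQ
  have hM0 : 0 ≤ C * blk c A B / (B : ℝ) ^ 4 := by positivity
  have hM1 : 0 ≤ C * blk c A B / (B : ℝ) ^ 3 := by positivity
  have Dm := kd2_dif_mid D hr ω
  have Ds := kd2_dif_shift D ω
  have f1 := kd2_comp hK hB Dm hM1 l1
  have f2 := kd2_comp hK hB Dm hM0 l0
  have f3 := kd2_comp hK hB Ds hM0 l0
  have f4 := kd2_comp hK hB D hM0 l0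
  have hG := kd2_hol_deriv D.hol
  have hG2 := kd2_hol_shift hG ω
  have hδ : DifferentiableOn ℂ (fun z => (g (z + ω) - g z) / 2) (Strip (4 * cr K / B)) :=
    (Ds.hol.sub D.hol).div_const 2
  have hsin : DifferentiableOn ℂ (fun z => Complex.sin ((g (z + ω) - g z) / 2))
      (Strip (4 * cr K / B)) := Complex.differentiable_sin.comp_differentiableOn hδ
  have hcos : DifferentiableOn ℂ (fun z => Complex.cos ((g (z + ω) - g z) / 2))
      (Strip (4 * cr K / B)) := Complex.differentiable_cos.comp_differentiableOn hδ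
  have t1 := f1.mul (b := fun z => (deriv g z + deriv g (z + ω)) *
      Complex.sin ((g (z + ω) - g z) / 2)) (β := 84 * K ^ 2 / Nb) (by
        intro z hz
        obtain ⟨d1, d2⟩ := kd2_delta hK D hNb h1 h7 hz
        have e1 := kd2_norm_sin d2
        have e2 := D.bd z hz
        have e3 := D.bd (z + ω) (kd2_strip_add hz ω)
        have e4 := norm_add_le (deriv g z) (deriv g (z + ω))
        rw [norm_mul]
        calc ‖deriv g z + deriv g (z + ω)‖ * ‖Complex.sin ((g (z + ω) - g z) / 2)‖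
            ≤ (4 * K) * (3 * (7 * K / Nb)) := by
              apply mul_le_mul (by linarith) (by linarith) (norm_nonneg _) (by linarith)
          _ = 84 * K ^ 2 / Nb := by ring) ((hG.add hG2).mul hsin) (by positivity)
  have t2 := f2.mul (b := fun z => Complex.cos ((g (z + ω) - g z) / 2) *
      (deriv g (z + ω) - deriv g z)) (β := 12 * K) (by
        intro z hz
        obtain ⟨d1, d2⟩ := kd2_delta hK D hNb h1 h7 hz
        have e1 := kd2_norm_cos d2
        have e2 := D.bd z hz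
        have e3 := D.bd (z + ω) (kd2_strip_add hz ω)
        have e4 := norm_sub_le (deriv g (z + ω)) (deriv g z)
        rw [norm_mul]
        calc ‖Complex.cos ((g (z + ω) - g z) / 2)‖ * ‖deriv g (z + ω) - deriv g z‖
            ≤ 3 * (4 * K) := by
              apply mul_le_mul e1 (by linarith) (norm_nonneg _) (by norm_num)
          _ = 12 * K := by ring) (hcos.mul (hG2.sub hG)) (by linarith)
  have t3 := f3.mul (b := fun z => -deriv g (z + ω)) (β := 2 * K) (by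
        intro z hz
        rw [norm_neg]
        exact D.bd (z + ω) (kd2_strip_add hz ω)) hG2.neg (by linarith)
  have t4 := f4.mul (b := fun z => deriv g z) (β := 2 * K) (by
        intro z hz
        exact D.bd z hz) hG (by linarith)
  have tot := ((t1.add t2).add t3).add t4
  have hfun : MM (blockF c A B) g ω = fun z =>
      (((deriv g z + deriv g (z + ω)) * Complex.sin ((g (z + ω) - g z) / 2)) *
        trunc (fun n => n * Complex.I * kd2c c A n) B ((g z + g (z + ω)) / 2) +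
      (Complex.cos ((g (z + ω) - g z) / 2) * (deriv g (z + ω) - deriv g z)) *
        trunc (kd2c c A) B ((g z + g (z + ω)) / 2) +
      (-deriv g (z + ω)) * trunc (kd2c c A) B (g (z + ω))) +
      deriv g z * trunc (kd2c c A) B (g z) := by
    funext z
    unfold MM
    rw [kd2_block, kd2_deriv_trunc]
    ring
  rw [hfun]
  refine kd2_HN_mono (tot.mono ?_).2.1 ?_
  · have hB4 : C * blk c A B / (B : ℝ) ^ 4 ≤ C * blk c A B / (Nb * (B : ℝ) ^ 3) := by
      apply div_le_div_of_nonneg_left (by positivity) (by positivity)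
      calc Nb * (B : ℝ) ^ 3 ≤ B * (B : ℝ) ^ 3 := by gcongr
        _ = (B : ℝ) ^ 4 := by ring
    have hu : 0 ≤ C * blk c A B / (Nb * (B : ℝ) ^ 3) := by positivity
    have hK2 : K ^ 2 ≤ K ^ 3 := pow_le_pow_right₀ hK (by norm_num)
    calc 84 * K ^ 2 / Nb * (2 * K * (C * blk c A B / (B : ℝ) ^ 3)) +
          12 * K * (2 * K * (C * blk c A B / (B : ℝ) ^ 4)) +
          2 * K * (2 * K * (C * blk c A B / (B : ℝ) ^ 4)) +
          2 * K * (2 * K * (C * blk c A B / (B : ℝ) ^ 4))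
        = 168 * K ^ 3 * (C * blk c A B / (Nb * (B : ℝ) ^ 3)) +
          32 * K ^ 2 * (C * blk c A B / (B : ℝ) ^ 4) := by
          field_simp; ring
      _ ≤ 168 * K ^ 3 * (C * blk c A B / (Nb * (B : ℝ) ^ 3)) +
          32 * K ^ 3 * (C * blk c A B / (Nb * (B : ℝ) ^ 3)) := by gcongr
      _ = 200 * K ^ 3 * C * blk c A B / (Nb * (B : ℝ) ^ 3) := by ring
      _ ≤ max 1 (200 * K ^ 3 * C) * blk c A B / (Nb * (B : ℝ) ^ 3) := by
          gcongr; exact le_max_right _ _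
  · have := kd2_cr_pos hK
    gcongr; norm_num

end Pool.Agent.MP_b87ea9_an.Kam
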