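import Mathlib
import Pool.Agent.Lib.MP_b87ea9_an.KDefs
import Pool.Agent.Lib.MP_b87ea9_an.KDefs2
import Pool.Agent.Lib.MP_b87ea9_an.KDefs3
import Pool.Agent.Lib.MP_b87ea9_an.KD1
import Pool.Agent.Lib.MP_b87ea9_an.KD2a

set_option autoImplicit false

/-! The fresh error: high frequency levels, differences -/

namespace Pool.Agent.MP_b87ea9_an.Kam

open Real MeasureTheory

/-- difference of two states at scale `N ≤ B` -/
theorem MM_diff (K Q : ℝ) (hQ : 1 ≤ Q) : ∃ C : ℝ, 1 ≤ C ∧ ∀ (c : ℤ → ℂ) (A B : ℕ)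
    (N Nb ω ω' x : ℝ) (g g' : ℂ → ℂ), 1 ≤ K → 1 ≤ A → A ≤ B → (B : ℝ) ≤ Q * A → 10 ^ 4 * K ^ 4 ≤ Nb →
    Nb ≤ B → 1 ≤ N → N ≤ B → 1 ≤ ω * Nb → ω * Nb ≤ 7 → 1 ≤ ω' * Nb → ω' * Nb ≤ 7 →
    (∀ n, c (-n) = starRingEnd ℂ (c n)) → Dif K (4 * cr K / B) g → Dif K (4 * cr K / B) g' →
    HP (4 * cr K / B) (fun z => g z - z) → HP (4 * cr K / B) (fun z => g' z - z) → 0 ≤ x →
    (∀ z ∈ Strip (4 * cr K / B), ‖g' z - g z‖ ≤ x / N ∧ ‖g' (z + ω') - g (z + ω)‖ ≤ x / N ∧
      ‖deriv g' z - deriv g z‖ ≤ x ∧ ‖deriv g' (z + ω') - deriv g (z + ω)‖ ≤ x ∧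
      ‖(g' (z + ω') - g' z) - (g (z + ω) - g z)‖ ≤ x / Nb) →
    HN (3 * cr K / B) (fun z => MM (blockF c A B) g' ω' z - MM (blockF c A B) g ω z)
      (C * blk c A B / (Nb * (B : ℝ) ^ 3) * (B / N) * x) := by
  obtain ⟨C, hC, hl2⟩ := kd2_l2 Q hQ
  refine ⟨max 1 (324 * K ^ 3 * C), le_max_left _ _, ?_⟩
  intro c A B N Nb ω ω' x g g' hK hA hAB hBQ hNb hNbB hN hNB h1 h7 h1' h7' _ D D' _ _ hx hdiff
  have hB : 1 ≤ B := hA.trans hAB
  have hB' : (0 : ℝ) < B := by exact_mod_cast hB
  have hK4 : (1 : ℝ) ≤ K ^ 4 := one_le_pow₀ hK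
  have hNb0 : 0 < Nb := by nlinarith
  have hNb1 : 1 ≤ Nb := by nlinarith
  have hN0 : 0 < N := by linarith
  obtain ⟨hr, _⟩ := kd2_scale hK hB
  have hb := kd2_blk_nonneg c A B
  obtain ⟨l0, l1⟩ := hl2 c A B hA hAB hBQ
  have hM0 : 0 ≤ C * blk c A B / (B : ℝ) ^ 4 := by positivity
  have hM1 : 0 ≤ C * blk c A B / (B : ℝ) ^ 3 := by positivity
  have Dm := kd2_dif_mid D hr ω
  have Ds := kd2_dif_shift D ω
  have Dm' := kd2_dif_mid D' hr ω'
  have Ds' := kd2_dif_shift D' ω'
  have hxN : 0 ≤ x / N := by positivity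
  have hmid : ∀ z ∈ Strip (4 * cr K / B),
      ‖(g' z + g' (z + ω')) / 2 - (g z + g (z + ω)) / 2‖ ≤ x / N := by
    intro z hz
    obtain ⟨d1, d2, _⟩ := hdiff z hz
    have : (g' z + g' (z + ω')) / 2 - (g z + g (z + ω)) / 2 =
        ((g' z - g z) + (g' (z + ω') - g (z + ω))) / 2 := by ring
    rw [this, norm_div, div_le_iff₀ (by simp)]
    simp only [Complex.norm_ofNat]
    have := norm_add_le (g' z - g z) (g' (z + ω') - g (z + ω))
    linarith
  have f1 := kd2_comp_diff hK hB Dm' Dm hM1 hxN hmid l1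
  have f2 := kd2_comp hK hB Dm hM1 l1
  have f3 := kd2_comp_diff hK hB Dm' Dm hM0 hxN hmid l0
  have f4 := kd2_comp hK hB Dm hM0 l0
  have f5 := kd2_comp_diff hK hB Ds' Ds hM0 hxN (fun z hz => (hdiff z hz).2.1) l0
  have f6 := kd2_comp hK hB Ds hM0 l0
  have f7 := kd2_comp_diff hK hB D' D hM0 hxN (fun z hz => (hdiff z hz).1) l0
  have f8 := kd2_comp hK hB D hM0 l0
  have hG := kd2_hol_deriv D.hol
  have hG2 := kd2_hol_shift hG ω
  have hG' := kd2_hol_deriv D'.hol
  have hG2' := kd2_hol_shift hG' ω'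
  have hδ : DifferentiableOn ℂ (fun z => (g (z + ω) - g z) / 2) (Strip (4 * cr K / B)) :=
    (Ds.hol.sub D.hol).div_const 2
  have hδ' : DifferentiableOn ℂ (fun z => (g' (z + ω') - g' z) / 2) (Strip (4 * cr K / B)) :=
    (Ds'.hol.sub D'.hol).div_const 2
  have hsin : DifferentiableOn ℂ (fun z => Complex.sin ((g (z + ω) - g z) / 2))
      (Strip (4 * cr K / B)) := Complex.differentiable_sin.comp_differentiableOn hδ
  have hcos : DifferentiableOn ℂ (fun z => Complex.cos ((g (z + ω) - g z) / 2))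
      (Strip (4 * cr K / B)) := Complex.differentiable_cos.comp_differentiableOn hδ
  have hsin' : DifferentiableOn ℂ (fun z => Complex.sin ((g' (z + ω') - g' z) / 2))
      (Strip (4 * cr K / B)) := Complex.differentiable_sin.comp_differentiableOn hδ'
  have hcos' : DifferentiableOn ℂ (fun z => Complex.cos ((g' (z + ω') - g' z) / 2))
      (Strip (4 * cr K / B)) := Complex.differentiable_cos.comp_differentiableOn hδ'
  have hdd : ∀ z ∈ Strip (4 * cr K / B),
      ‖(g' (z + ω') - g' z) / 2 - (g (z + ω) - g z) / 2‖ ≤ x / Nb / 2 := by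
    intro z hz
    obtain ⟨_, _, _, _, d5⟩ := hdiff z hz
    have : (g' (z + ω') - g' z) / 2 - (g (z + ω) - g z) / 2 =
        ((g' (z + ω') - g' z) - (g (z + ω) - g z)) / 2 := by ring
    rw [this, norm_div]
    simp only [Complex.norm_ofNat]
    linarith
  have t1 := f1.mul (b := fun z => (deriv g' z + deriv g' (z + ω')) *
      Complex.sin ((g' (z + ω') - g' z) / 2)) (β := 84 * K ^ 2 / Nb) (by
        intro z hz
        obtain ⟨d1, d2⟩ := kd2_delta hK D' hNb h1' h7' hz
        have e1 := kd2_norm_sin d2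
        have e2 := D'.bd z hz
        have e3 := D'.bd (z + ω') (kd2_strip_add hz ω')
        have e4 := norm_add_le (deriv g' z) (deriv g' (z + ω'))
        rw [norm_mul]
        calc ‖deriv g' z + deriv g' (z + ω')‖ * ‖Complex.sin ((g' (z + ω') - g' z) / 2)‖
            ≤ (4 * K) * (3 * (7 * K / Nb)) := by
              apply mul_le_mul (by linarith) (by linarith) (norm_nonneg _) (by linarith)
          _ = 84 * K ^ 2 / Nb := by ring) ((hG'.add hG2').mul hsin') (by positivity)
  have t2 := f2.mul (b := fun z => (deriv g' z + deriv g' (z + ω')) *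
      Complex.sin ((g' (z + ω') - g' z) / 2) - (deriv g z + deriv g (z + ω)) *
      Complex.sin ((g (z + ω) - g z) / 2)) (β := 48 * K * x / Nb) (by
        intro z hz
        obtain ⟨d1, d2⟩ := kd2_delta hK D' hNb h1' h7' hz
        obtain ⟨_, d2b⟩ := kd2_delta hK D hNb h1 h7 hz
        obtain ⟨_, _, d3, d4, _⟩ := hdiff z hz
        have e1 := kd2_norm_sin d2
        have e2 := D.bd z hz
        have e3 := D.bd (z + ω) (kd2_strip_add hz ω)
        have e4 := norm_add_le (deriv g z) (deriv g (z + ω))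
        have e5 := kd2_sin_lip d2 d2b
        have e6 := hdd z hz
        have e7 := norm_add_le (deriv g' z - deriv g z) (deriv g' (z + ω') - deriv g (z + ω))
        have e8 : (deriv g' z + deriv g' (z + ω')) * Complex.sin ((g' (z + ω') - g' z) / 2) -
            (deriv g z + deriv g (z + ω)) * Complex.sin ((g (z + ω) - g z) / 2) =
            ((deriv g' z - deriv g z) + (deriv g' (z + ω') - deriv g (z + ω))) *
              Complex.sin ((g' (z + ω') - g' z) / 2) +
            (deriv g z + deriv g (z + ω)) * (Complex.sin ((g' (z + ω') - g' z) / 2) -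
              Complex.sin ((g (z + ω) - g z) / 2)) := by ring
        have hxNb : 0 ≤ x / Nb := by positivity
        show ‖(deriv g' z + deriv g' (z + ω')) * Complex.sin ((g' (z + ω') - g' z) / 2) -
            (deriv g z + deriv g (z + ω)) * Complex.sin ((g (z + ω) - g z) / 2)‖ ≤ _
        rw [e8]
        calc _ ≤ ‖(deriv g' z - deriv g z) + (deriv g' (z + ω') - deriv g (z + ω))‖ *
              ‖Complex.sin ((g' (z + ω') - g' z) / 2)‖ +
            ‖deriv g z + deriv g (z + ω)‖ * ‖Complex.sin ((g' (z + ω') - g' z) / 2) -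
              Complex.sin ((g (z + ω) - g z) / 2)‖ := by
              refine (norm_add_le _ _).trans ?_
              rw [norm_mul, norm_mul]
          _ ≤ (2 * x) * (3 * (7 * K / Nb)) + (4 * K) * (3 * (x / Nb / 2)) := by
              apply add_le_add
              · exact mul_le_mul (by linarith) (by linarith) (norm_nonneg _) (by linarith)
              · exact mul_le_mul (by linarith) (by linarith) (norm_nonneg _) (by linarith)
          _ = 48 * K * x / Nb := by ring)
      (((hG'.add hG2').mul hsin').sub ((hG.add hG2).mul hsin)) (by positivity)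
  have t3 := f3.mul (b := fun z => Complex.cos ((g' (z + ω') - g' z) / 2) *
      (deriv g' (z + ω') - deriv g' z)) (β := 12 * K) (by
        intro z hz
        obtain ⟨d1, d2⟩ := kd2_delta hK D' hNb h1' h7' hz
        have e1 := kd2_norm_cos d2
        have e2 := D'.bd z hz
        have e3 := D'.bd (z + ω') (kd2_strip_add hz ω')
        have e4 := norm_sub_le (deriv g' (z + ω')) (deriv g' z)
        rw [norm_mul]
        calc ‖Complex.cos ((g' (z + ω') - g' z) / 2)‖ * ‖deriv g' (z + ω') - deriv g' z‖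
            ≤ 3 * (4 * K) := by
              apply mul_le_mul e1 (by linarith) (norm_nonneg _) (by norm_num)
          _ = 12 * K := by ring) (hcos'.mul (hG2'.sub hG')) (by linarith)
  have t4 := f4.mul (b := fun z => Complex.cos ((g' (z + ω') - g' z) / 2) *
      (deriv g' (z + ω') - deriv g' z) - Complex.cos ((g (z + ω) - g z) / 2) *
      (deriv g (z + ω) - deriv g z)) (β := 12 * K * x) (by
        intro z hz
        obtain ⟨d1, d2⟩ := kd2_delta hK D' hNb h1' h7' hz
        obtain ⟨_, d2b⟩ := kd2_delta hK D hNb h1 h7 hz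
        obtain ⟨_, _, d3, d4, _⟩ := hdiff z hz
        have e1 := kd2_norm_cos d2
        have e2 := D.bd z hz
        have e3 := D.bd (z + ω) (kd2_strip_add hz ω)
        have e4 := norm_sub_le (deriv g (z + ω)) (deriv g z)
        have e5 := kd2_cos_lip d2 d2b
        have e6 := hdd z hz
        have e7 := norm_sub_le (deriv g' (z + ω') - deriv g (z + ω)) (deriv g' z - deriv g z)
        have e8 : Complex.cos ((g' (z + ω') - g' z) / 2) * (deriv g' (z + ω') - deriv g' z) -
            Complex.cos ((g (z + ω) - g z) / 2) * (deriv g (z + ω) - deriv g z) =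
            Complex.cos ((g' (z + ω') - g' z) / 2) *
              ((deriv g' (z + ω') - deriv g (z + ω)) - (deriv g' z - deriv g z)) +
            (deriv g (z + ω) - deriv g z) * (Complex.cos ((g' (z + ω') - g' z) / 2) -
              Complex.cos ((g (z + ω) - g z) / 2)) := by ring
        have hxNb : 0 ≤ x / Nb := by positivity
        have hxNb' : x / Nb ≤ x := div_le_self hx hNb1
        show ‖Complex.cos ((g' (z + ω') - g' z) / 2) * (deriv g' (z + ω') - deriv g' z) -
            Complex.cos ((g (z + ω) - g z) / 2) * (deriv g (z + ω) - deriv g z)‖ ≤ _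
        rw [e8]
        calc _ ≤ ‖Complex.cos ((g' (z + ω') - g' z) / 2)‖ *
              ‖(deriv g' (z + ω') - deriv g (z + ω)) - (deriv g' z - deriv g z)‖ +
            ‖deriv g (z + ω) - deriv g z‖ * ‖Complex.cos ((g' (z + ω') - g' z) / 2) -
              Complex.cos ((g (z + ω) - g z) / 2)‖ := by
              refine (norm_add_le _ _).trans ?_
              rw [norm_mul, norm_mul]
          _ ≤ 3 * (2 * x) + (4 * K) * (3 * (x / 2)) := by
              apply add_le_add
              · exact mul_le_mul e1 (by linarith) (norm_nonneg _) (by linarith)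
              · exact mul_le_mul (by linarith) (by linarith) (norm_nonneg _) (by linarith)
          _ ≤ 12 * K * x := by nlinarith)
      ((hcos'.mul (hG2'.sub hG')).sub (hcos.mul (hG2.sub hG))) (by positivity)
  have t5 := f5.mul (b := fun z => -deriv g' (z + ω')) (β := 2 * K) (by
        intro z hz
        rw [norm_neg]
        exact D'.bd (z + ω') (kd2_strip_add hz ω')) hG2'.neg (by linarith)
  have t6 := f6.mul (b := fun z => -(deriv g' (z + ω') - deriv g (z + ω))) (β := x) (by
        intro z hz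
        rw [norm_neg]
        exact (hdiff z hz).2.2.2.1) (hG2'.sub hG2).neg hx
  have t7 := f7.mul (b := fun z => deriv g' z) (β := 2 * K) (by
        intro z hz
        exact D'.bd z hz) hG' (by linarith)
  have t8 := f8.mul (b := fun z => deriv g' z - deriv g z) (β := x) (by
        intro z hz
        exact (hdiff z hz).2.2.1) (hG'.sub hG) hx
  have tot := ((((((t1.add t2).add t3).add t4).add t5).add t6).add t7).add t8
  have hB4 : C * blk c A B / (B : ℝ) ^ 4 ≤ C * blk c A B / (Nb * (B : ℝ) ^ 3) := by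
    apply div_le_div_of_nonneg_left (by positivity) (by positivity)
    calc Nb * (B : ℝ) ^ 3 ≤ B * (B : ℝ) ^ 3 := by gcongr
      _ = (B : ℝ) ^ 4 := by ring
  have hBN : 1 ≤ B / N := by rw [le_div_iff₀ hN0]; linarith
  have htot : 84 * K ^ 2 / Nb * (2 * K * (B * (C * blk c A B / (B : ℝ) ^ 3)) * (x / N)) +
      48 * K * x / Nb * (2 * K * (C * blk c A B / (B : ℝ) ^ 3)) +
      12 * K * (2 * K * (B * (C * blk c A B / (B : ℝ) ^ 4)) * (x / N)) +
      12 * K * x * (2 * K * (C * blk c A B / (B : ℝ) ^ 4)) +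
      2 * K * (2 * K * (B * (C * blk c A B / (B : ℝ) ^ 4)) * (x / N)) +
      x * (2 * K * (C * blk c A B / (B : ℝ) ^ 4)) +
      2 * K * (2 * K * (B * (C * blk c A B / (B : ℝ) ^ 4)) * (x / N)) +
      x * (2 * K * (C * blk c A B / (B : ℝ) ^ 4)) ≤
      max 1 (324 * K ^ 3 * C) * blk c A B / (Nb * (B : ℝ) ^ 3) * (B / N) * x := by
    set U : ℝ := C * blk c A B / (Nb * (B : ℝ) ^ 3) with hU
    set W : ℝ := C * blk c A B / (B : ℝ) ^ 4 with hW
    have hU0 : 0 ≤ U := by positivity
    have hW0 : 0 ≤ W := by positivity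
    have hU3 : C * blk c A B / (B : ℝ) ^ 3 = Nb * U := by
      rw [hU]; field_simp
    rw [hU3]
    have hBNx : x ≤ (B / N) * x := by nlinarith
    have hy : 0 ≤ (B / N) * x := by positivity
    set y : ℝ := (B / N) * x with hyd
    have e1 : 84 * K ^ 2 / Nb * (2 * K * (B * (Nb * U)) * (x / N)) = 168 * K ^ 3 * (U * y) := by
      rw [hyd]; field_simp; ring
    have e2 : 48 * K * x / Nb * (2 * K * (Nb * U)) = 96 * K ^ 2 * (U * x) := by
      field_simp; ring
    have e3 : 12 * K * (2 * K * (B * W) * (x / N)) = 24 * K ^ 2 * (W * y) := by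
      rw [hyd]; field_simp; ring
    have e4 : 12 * K * x * (2 * K * W) = 24 * K ^ 2 * (W * x) := by ring
    have e5 : 2 * K * (2 * K * (B * W) * (x / N)) = 4 * K ^ 2 * (W * y) := by
      rw [hyd]; field_simp; ring
    have e6 : x * (2 * K * W) = 2 * K * (W * x) := by ring
    rw [e1, e2, e3, e4, e5, e6]
    have hUx : U * x ≤ U * y := mul_le_mul_of_nonneg_left hBNx hU0
    have hWy : W * y ≤ U * y := mul_le_mul_of_nonneg_right hB4 hy
    have hWx : W * x ≤ U * y := (mul_le_mul_of_nonneg_right hB4 hx).trans hUx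
    have hUy : 0 ≤ U * y := mul_nonneg hU0 hy
    have hK2 : K ^ 2 ≤ K ^ 3 := pow_le_pow_right₀ hK (by norm_num)
    have hK1 : K ≤ K ^ 3 := by
      calc K = K ^ 1 := (pow_one K).symm
        _ ≤ K ^ 3 := pow_le_pow_right₀ hK (by norm_num)
    have hK20 : 0 ≤ K ^ 2 := by positivity
    have hK0 : 0 ≤ K := by linarith
    calc 168 * K ^ 3 * (U * y) + 96 * K ^ 2 * (U * x) + 24 * K ^ 2 * (W * y) +
          24 * K ^ 2 * (W * x) + 4 * K ^ 2 * (W * y) + 2 * K * (W * x) + 4 * K ^ 2 * (W * y) +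
          2 * K * (W * x)
        ≤ 168 * K ^ 3 * (U * y) + 96 * K ^ 2 * (U * y) + 24 * K ^ 2 * (U * y) +
          24 * K ^ 2 * (U * y) + 4 * K ^ 2 * (U * y) + 2 * K * (U * y) + 4 * K ^ 2 * (U * y) +
          2 * K * (U * y) := by gcongr
      _ ≤ 168 * K ^ 3 * (U * y) + 96 * K ^ 3 * (U * y) + 24 * K ^ 3 * (U * y) +
          24 * K ^ 3 * (U * y) + 4 * K ^ 3 * (U * y) + 2 * K ^ 3 * (U * y) + 4 * K ^ 3 * (U * y) +
          2 * K ^ 3 * (U * y) := by gcongr
      _ = 324 * K ^ 3 * C * blk c A B / (Nb * (B : ℝ) ^ 3) * (B / N) * x := by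
          rw [hU, hyd]; ring
      _ ≤ max 1 (324 * K ^ 3 * C) * blk c A B / (Nb * (B : ℝ) ^ 3) * (B / N) * x := by
          gcongr; exact le_max_right _ _
  have hres := (tot.mono htot).2.1
  have hcr := kd2_cr_pos hK
  refine kd2_HN_mono (r := 4 * cr K / B) ?_ (by gcongr; norm_num)
  convert hres using 1
  funext z
  unfold MM
  rw [kd2_block, kd2_deriv_trunc]
  ring

end Pool.Agent.MP_b87ea9_an.Kam
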