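import Mathlib
import Pool.Agent.Lib.MP_b87ea9_an.KDefs
import Pool.Agent.Lib.MP_b87ea9_an.KDefs2
import Pool.Agent.Lib.MP_b87ea9_an.KDefs3
import Pool.Agent.Lib.MP_b87ea9_an.KD1
import Pool.Agent.Lib.MP_b87ea9_an.KD2a
import Pool.Agent.Lib.MP_b87ea9_an.KD2b

set_option autoImplicit false

/-! The fresh error: high frequency levels, conclusion -/

namespace Pool.Agent.MP_b87ea9_an.Kam

open Real MeasureTheory

/-! ### the part `EX` -/

theorem kd2_fc_const (a : ℂ) : fc (fun _ => a) 0 = a := by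
  unfold fc
  have : ∀ t : ℝ, a * Complex.exp (-(((0 : ℤ) : ℂ) * (t : ℂ) * Complex.I)) = a := by
    intro t; simp
  simp only [this]
  rw [intervalIntegral.integral_const]
  have hpi : (π : ℂ) ≠ 0 := by exact_mod_cast Real.pi_ne_zero
  rw [sub_zero, Complex.real_smul]
  push_cast
  field_simp

/-- the coboundary part of the error -/
theorem kd2_ex (K γ : ℝ) (hK : 1 ≤ K) (hγ : 0 < γ) (hγ1 : γ ≤ 1) : ∃ C : ℝ, 0 ≤ C ∧
    ∀ (B : ℕ) (Nb ω ω' M : ℝ) (E : ℂ → ℂ), 1 ≤ B → 1 ≤ Nb → Rot γ Nb ω' →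
    |ω' - ω| ≤ 1 / (B * max (B : ℝ) Nb) → HP (4 * cr K / B) E → Bd (3 * cr K / B) E M → 0 ≤ M →
    (∀ z ∈ Strip (2 * cr K / B), ‖invD ω' (fun z => E z - E (z + ω')) z‖ ≤ 2 * M) ∧
    (∀ z ∈ Strip (2 * cr K / B),
      ‖invD ω' (fun z => E (z + ((ω' - ω : ℝ) : ℂ)) - E z) z‖ ≤ C * M) := by
  obtain ⟨C3, hC3, hbd⟩ := invD_bd
  have hcr := kd2_cr_pos hK
  refine ⟨C3 / γ * (2 / cr K + 1) * (2 / cr K), by positivity, ?_⟩
  intro B Nb ω ω' M E hB hNb R hω hE hEM hM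
  have hB' : (0 : ℝ) < B := by exact_mod_cast hB
  have hr4 : 0 < 4 * cr K / B := by positivity
  have hr3 : 0 < 3 * cr K / B := by positivity
  have hm : 0 < max (B : ℝ) Nb := lt_max_of_lt_left hB'
  have hmean : ‖fc E 0‖ ≤ M := by
    refine norm_fc_zero_le hE hr4 (fun t => hEM _ ?_)
    simpa [Strip] using hr3
  have hreal : ((fc E 0).re : ℂ) = fc E 0 := by
    have h0 := fc_neg hE 0
    rw [neg_zero] at h0
    exact Complex.conj_eq_iff_re.1 h0.symm
  have hs := hp_shift hE ω'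
  have hshift0 : fc (fun z => E (z + ω')) 0 = fc E 0 := by
    rw [fc_translate hE hr4 ω' 0]; simp
  have hneg : HP (4 * cr K / B) (fun z => (-1 : ℂ) * E (z + ω')) := by
    have := hp_mul (hp_const (4 * cr K / B) (-1)) hs
    simpa using this
  have hnegE : HP (4 * cr K / B) (fun z => (-1 : ℂ) * E z) := by
    have := hp_mul (hp_const (4 * cr K / B) (-1)) hE
    simpa using this
  constructor
  · intro z hz
    have hu : HP (4 * cr K / B) (fun z => ((fc E 0).re : ℂ) - E z) := hp_sub (hp_const _ _) hE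
    have hu0 : fc (fun z => ((fc E 0).re : ℂ) - E z) 0 = 0 := by
      have h1 := fc_add (hp_const (4 * cr K / B) (fc E 0).re) hnegE hr4 0
      rw [fc_smul, kd2_fc_const, hreal] at h1
      have h2 : (fun z => ((fc E 0).re : ℂ) - E z) = fun z => ((fc E 0).re : ℂ) + (-1 : ℂ) * E z := by
        funext z; ring
      rw [h2]
      refine Eq.trans ?_ (h1.trans (by ring))
      rw [hreal]
    have hf : HP (4 * cr K / B) (fun z => E z - E (z + ω')) := hp_sub hE hs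
    have hf0 : fc (fun z => E z - E (z + ω')) 0 = 0 := by
      have h1 := fc_add hE hneg hr4 0
      rw [fc_smul, hshift0] at h1
      have h2 : (fun z => E z - E (z + ω')) = fun z => E z + (-1 : ℂ) * E (z + ω') := by
        funext z; ring
      rw [h2, h1]; ring
    have hz4 : z ∈ Strip (4 * cr K / B) := by
      refine kd2_strip_mono hz ?_
      gcongr; norm_num
    have hz3 : z ∈ Strip (3 * cr K / B) := by
      refine kd2_strip_mono hz ?_
      gcongr; norm_num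
    rw [invD_unique hf hr4 hγ hNb R hu hu0 (fun z _ => by rw [hf0]; ring) hz4]
    have h5 := hEM z hz3
    have h6 := norm_sub_le ((fc E 0).re : ℂ) (E z)
    rw [hreal] at h6 ⊢
    linarith
  · intro z hz
    have hsd := hp_shift hE (ω' - ω)
    have hf : HP (4 * cr K / B) (fun z => E (z + ((ω' - ω : ℝ) : ℂ)) - E z) := hp_sub hsd hE
    have hE3 : HP (3 * cr K / B) E := hp_mono hE (by gcongr; norm_num)
    have hδ : 0 < cr K / (2 * B) := by positivity
    have hd := bd_deriv hE3 hδ hEM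
    have e1 : 3 * cr K / B - cr K / (2 * B) = 5 / 2 * cr K / B := by field_simp; ring
    rw [e1] at hd
    have hEd : DifferentiableOn ℂ E (Strip (5 / 2 * cr K / B)) := by
      refine hE.hol.mono (fun w hw => kd2_strip_mono hw ?_)
      gcongr; norm_num
    have hf3 : Bd (5 / 2 * cr K / B) (fun z => E (z + ((ω' - ω : ℝ) : ℂ)) - E z)
        (2 / cr K * M / max (B : ℝ) Nb) := by
      intro w hw
      have h1 := bd_lip hEd hd (kd2_strip_add hw (ω' - ω)) hw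
      have e2 : ‖w + ((ω' - ω : ℝ) : ℂ) - w‖ = |ω' - ω| := by
        rw [add_sub_cancel_left, Complex.norm_real, Real.norm_eq_abs]
      rw [e2] at h1
      calc _ ≤ M / (cr K / (2 * B)) * |ω' - ω| := h1
        _ ≤ M / (cr K / (2 * B)) * (1 / (B * max (B : ℝ) Nb)) := by gcongr
        _ = 2 / cr K * M / max (B : ℝ) Nb := by field_simp
    have hf5 : HP (5 / 2 * cr K / B) (fun z => E (z + ((ω' - ω : ℝ) : ℂ)) - E z) :=
      hp_mono hf (by gcongr; norm_num)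
    have hδr : cr K / (2 * B) < 5 / 2 * cr K / B := by
      rw [div_lt_div_iff₀ (by positivity) hB']
      nlinarith
    have h9 := hbd (5 / 2 * cr K / B) (cr K / (2 * B)) (2 / cr K * M / max (B : ℝ) Nb) γ Nb ω' _
      hδ hδr hγ hγ1 hNb (by positivity) R hf5 (hn_of_bd hf5 hf3)
    have e3 : 5 / 2 * cr K / B - cr K / (2 * B) = 2 * cr K / B := by field_simp; ring
    rw [e3] at h9
    refine (h9 z hz).trans ?_
    have e4 : 1 / (cr K / (2 * (B : ℝ))) = 2 / cr K * B := by field_simp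
    rw [e4]
    have e5 : 2 / cr K * (B : ℝ) + Nb ≤ (2 / cr K + 1) * max (B : ℝ) Nb := by
      have h1 : (B : ℝ) ≤ max (B : ℝ) Nb := le_max_left _ _
      have h2 : Nb ≤ max (B : ℝ) Nb := le_max_right _ _
      have h3 : 0 ≤ 2 / cr K := by positivity
      nlinarith
    calc C3 / γ * (2 / cr K * (B : ℝ) + Nb) * (2 / cr K * M / max (B : ℝ) Nb)
        ≤ C3 / γ * ((2 / cr K + 1) * max (B : ℝ) Nb) * (2 / cr K * M / max (B : ℝ) Nb) := by
          gcongr
      _ = C3 / γ * (2 / cr K + 1) * (2 / cr K) * M := by field_simp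

theorem fresh_high (K γ Q : ℝ) (hQ : 1 ≤ Q) : ∃ C : ℝ, 1 ≤ C ∧ ∀ (c : ℤ → ℂ) (A B : ℕ)
    (Nb ω ω' : ℝ) (g : ℂ → ℂ), 1 ≤ K → 0 < γ → γ ≤ 1 → 1 ≤ A → A ≤ B → (B : ℝ) ≤ Q * A →
    Nb ≤ B → 10 ^ 4 * K ^ 4 ≤ Nb → Rot γ Nb ω → Rot γ Nb ω' → |ω' - ω| ≤ 1 / (B * max (B : ℝ) Nb) →
    (∀ n, c (-n) = starRingEnd ℂ (c n)) → Dif K (4 * cr K / B) g →
    HP (4 * cr K / B) (fun z => g z - z) →
    Bd (2 * cr K / B) (invD ω' (fun z => FF (blockF c A B) g ω (z + ω')))
      (C * (B : ℝ) ^ (-(1 / 2) : ℝ) * blk c A B / (Nb * B * max (B : ℝ) Nb) +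
        res ω' (2 * cr K / B) (MM (blockF c A B) g ω)) := by
  by_cases hK : 1 ≤ K
  swap
  · exact ⟨1, le_rfl, fun c A B Nb ω ω' g h => absurd h hK⟩
  by_cases hγ : 0 < γ
  swap
  · exact ⟨1, le_rfl, fun c A B Nb ω ω' g _ h => absurd h hγ⟩
  by_cases hγ1 : γ ≤ 1
  swap
  · exact ⟨1, le_rfl, fun c A B Nb ω ω' g _ _ h => absurd h hγ1⟩
  obtain ⟨CE, hCE, hEX⟩ := EX_bound K Q hQ
  obtain ⟨C2, hC2, hex⟩ := kd2_ex K γ hK hγ hγ1
  refine ⟨(2 + C2) * CE, by nlinarith, ?_⟩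
  intro c A B Nb ω ω' g _ _ _ hA hAB hBQ _ hNb R R' hω hrs D hg
  have hB : 1 ≤ B := hA.trans hAB
  have hB' : (0 : ℝ) < B := by exact_mod_cast hB
  have hK4 : (1 : ℝ) ≤ K ^ 4 := one_le_pow₀ hK
  have hNb0 : 0 < Nb := by nlinarith
  have hNb1 : 1 ≤ Nb := by nlinarith
  have hcr := kd2_cr_pos hK
  have hr4 : 0 < 4 * cr K / B := by positivity
  have hm : 0 < max (B : ℝ) Nb := lt_max_of_lt_left hB'
  have hb := kd2_blk_nonneg c A B
  obtain ⟨hE, hMM, _, hEb⟩ := hEX c A B Nb ω g hK hA hAB hBQ hNb R.lo R.hi hrs D hg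
  set M : ℝ := CE * (B : ℝ) ^ (-(1 / 2) : ℝ) * blk c A B / (Nb * B * max (B : ℝ) Nb) with hMdef
  have hM0 : 0 ≤ M := by positivity
  obtain ⟨b2, b3⟩ := hex B Nb ω ω' M _ hB hNb1 R' hω hE hEb hM0
  intro z hz
  have hfun : (fun z => FF (blockF c A B) g ω (z + ω')) = fun z =>
      MM (blockF c A B) g ω (z + ω') + ((EX (blockF c A B) g ω z - EX (blockF c A B) g ω (z + ω')) +
        (EX (blockF c A B) g ω (z + ((ω' - ω : ℝ) : ℂ)) - EX (blockF c A B) g ω z)) := by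
    funext z
    rw [FF_eq]
    have : z + (ω' : ℂ) - ω = z + ((ω' - ω : ℝ) : ℂ) := by push_cast; ring
    rw [this]; ring
  have hz4 : z ∈ Strip (4 * cr K / B) := by
    refine kd2_strip_mono hz ?_
    gcongr; norm_num
  have p1 := hp_shift hMM ω'
  have p2 : HP (4 * cr K / B) (fun z => EX (blockF c A B) g ω z -
      EX (blockF c A B) g ω (z + ω')) := hp_sub hE (hp_shift hE ω')
  have p3 : HP (4 * cr K / B) (fun z => EX (blockF c A B) g ω (z + ((ω' - ω : ℝ) : ℂ)) -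
      EX (blockF c A B) g ω z) := hp_sub (hp_shift hE (ω' - ω)) hE
  rw [hfun, invD_add p1 (hp_add p2 p3) hr4 hγ hNb1 R' hz4, invD_add p2 p3 hr4 hγ hNb1 R' hz4,
    invD_shift hMM hr4 ω' z]
  have hlt : 2 * cr K / B < 4 * cr K / B := by
    rw [div_lt_div_iff_of_pos_right hB']; linarith
  have q1 := (invD_res hMM hr4 hγ hNb1 R' hlt).1 (z + ω') (kd2_strip_add hz ω')
  have q2 := b2 z hz
  have q3 := b3 z hz
  have q4 := norm_add_le (invD ω' (MM (blockF c A B) g ω) (z + ω'))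
    (invD ω' (fun z => EX (blockF c A B) g ω z - EX (blockF c A B) g ω (z + ω')) z +
      invD ω' (fun z => EX (blockF c A B) g ω (z + ((ω' - ω : ℝ) : ℂ)) -
        EX (blockF c A B) g ω z) z)
  have q5 := norm_add_le
    (invD ω' (fun z => EX (blockF c A B) g ω z - EX (blockF c A B) g ω (z + ω')) z)
    (invD ω' (fun z => EX (blockF c A B) g ω (z + ((ω' - ω : ℝ) : ℂ)) -
        EX (blockF c A B) g ω z) z)
  have q6 : (2 + C2) * CE * (B : ℝ) ^ (-(1 / 2) : ℝ) * blk c A B / (Nb * B * max (B : ℝ) Nb) =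
      2 * M + C2 * M := by rw [hMdef]; ring
  rw [q6]
  linarith

end Pool.Agent.MP_b87ea9_an.Kam
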