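import Mathlib
import Pool.Agent.Lib.MP_b87ea9_an.KDefs
import Pool.Agent.Lib.MP_b87ea9_an.KDefs2
import Pool.Agent.Lib.MP_b87ea9_an.KDefs3

set_option autoImplicit false

/-! # States of the iteration, the iteration along the tree -/

namespace Pool.Agent.MP_b87ea9_an.Kam

open Real

/-- state of the iteration at scale `N`: lines `g` with rotation number `ω`, next rotation number
`ω'`; `X` bounds the error, `A X` the second derivative and the response `V₁`, `V` the response `V₀`,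
`S` the accumulated distortion, `D`, `T` the quantities needed for convexity -/
structure Lev (K γ A σ : ℝ) (c : ℤ → ℂ) (Nb : ℝ) (N : ℕ) (g : ℂ → ℂ) (ω ω' X V S D T : ℝ) :
    Prop where
  pre : Pre K γ N Nb (A * X) ω (trunc c N) g ω' σ X V (A * X)
  rot : Rot γ Nb ω
  xN : 1 / (N : ℝ) ≤ X
  lo : ∀ t : ℝ, 2 / K * exp (-S) ≤ (deriv g t).re
  hi : ∀ t : ℝ, (deriv g t).re ≤ K / 2 * exp S
  dD : ∀ t : ℝ, ‖deriv g (t + ω) - deriv g t‖ ≤ D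
  dT : ∀ t : ℝ, ‖deriv (deriv g) (t + ω) / deriv g (t + ω) - deriv (deriv g) t / deriv g t‖ ≤ T

/-- the tree of rotation numbers -/
structure TreeOK (Q : ℕ) (γ Ct σ : ℝ) (Nb Mc : ℕ) (om : List (Fin Mc) → ℝ) : Prop where
  Mc0 : 0 < Mc
  rot : ∀ ν, Rot γ Nb (om ν)
  dist : ∀ ν c, |om (c :: ν) - om ν| ≤ σ / ((Nb : ℝ) * (Q : ℝ) ^ ν.length) ^ 2
  wt : ∀ (ν : List (Fin Mc)) (m : ℕ), m ≤ ν.length → ∀ n : ℤ, n ≠ 0 →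
    avg m (fun μ => (((Nb : ℝ) * (Q : ℝ) ^ μ.length) * ‖dv (om μ) n‖) ^ (-(3 / 4) : ℝ) *
      ((|(n : ℝ)| + Nb) / ((Nb : ℝ) * (Q : ℝ) ^ μ.length))) ν ≤
    Ct * (1 + |(n : ℝ)| / ((Nb : ℝ) * (Q : ℝ) ^ (ν.length + m))) ^ 3 *
      (2 * (Q : ℝ) ^ (-(3 / 2) : ℝ)) ^ m

/-- the family of lines at the node `ν` of the tree -/
noncomputable def gsq (c : ℤ → ℂ) (Q Nb : ℕ) {Mc : ℕ} (g₀ : ℂ → ℂ) (om : List (Fin Mc) → ℝ) :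
    List (Fin Mc) → (ℂ → ℂ)
  | [] => g₀
  | d :: ν => gnew (trunc c (Nb * Q ^ ν.length)) (gsq c Q Nb g₀ om ν) (om ν) (om (d :: ν))

/-- bound of the fresh error at the node `d :: μ` (fresh block `Nb Q^{|μ|-1} < |n| ≤ Nb Q^{|μ|}`) -/
noncomputable def phi (K Cf : ℝ) (c : ℤ → ℂ) (Q Nb : ℕ) {Mc : ℕ} (g₀ : ℂ → ℂ)
    (om : List (Fin Mc) → ℝ) : List (Fin Mc) → ℝ
  | [] => 0
  | d :: μ => Cf * ((Nb : ℝ) * (Q : ℝ) ^ μ.length) ^ (-(1 / 2) : ℝ) *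
        blk c (Nb * Q ^ (μ.length - 1)) (Nb * Q ^ μ.length) +
      Nb * ((Nb : ℝ) * (Q : ℝ) ^ μ.length) ^ 2 *
        res (om (d :: μ)) (2 * cr K / ((Nb : ℝ) * (Q : ℝ) ^ μ.length))
          (MM (blockF c (Nb * Q ^ (μ.length - 1)) (Nb * Q ^ μ.length)) (gsq c Q Nb g₀ om μ) (om μ))

/-- the bound `X` along the tree -/
noncomputable def Xs (C X₀ : ℝ) (Q Nb : ℕ) {Mc : ℕ} (ph : List (Fin Mc) → ℝ) :
    List (Fin Mc) → ℝ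
  | [] => 0
  | [_] => X₀
  | d :: c :: ν => Xs C X₀ Q Nb ph (c :: ν) / 2 +
      C * (ph (d :: c :: ν) + 1 / ((Nb : ℝ) * (Q : ℝ) ^ ν.length))

/-- the bound `V₀` along the tree -/
noncomputable def Vs (C V₀ : ℝ) (Q : ℕ) {Mc : ℕ} (X : List (Fin Mc) → ℝ) : List (Fin Mc) → ℝ
  | [] => 0
  | [_] => V₀
  | _ :: c :: ν => 1 / (Q : ℝ) * ((1 + C * X (c :: ν)) * Vs C V₀ Q X (c :: ν) + C * X (c :: ν))

/-- sum of `X` over all nonempty suffixes -/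
noncomputable def Tots {Mc : ℕ} (X : List (Fin Mc) → ℝ) : List (Fin Mc) → ℝ
  | [] => 0
  | c :: ν => X (c :: ν) + Tots X ν

/-- the conclusion of `advance` for fixed constants and a fixed table, for all scales `N ≥ N₁` -/
def Adv (K γ Vb A σ x₁ C : ℝ) (Q N₁ : ℕ) (c : ℤ → ℂ) : Prop :=
  ∀ N : ℕ, N₁ ≤ N → ∀ (Nb ω ω' ω'' X V S D T φ : ℝ) (g : ℂ → ℂ),
    Lev K γ A σ c Nb N g ω ω' X V S D T → X ≤ x₁ → V ≤ Vb → 0 ≤ S → S + C * X ≤ 1 / 2 →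
    Rot γ Nb ω'' →
    |ω'' - ω'| ≤ σ / (((Q * N : ℕ) : ℝ) * max ((Q * N : ℕ) : ℝ) Nb) → 0 ≤ φ →
    A * (X / 2 + C * (φ + 1 / N)) ≤ 1 →
    Bd (2 * cr K / (Q * N : ℕ)) (invD ω'' (fun z =>
      FF (blockF c N (Q * N)) (gnew (trunc c N) g ω ω') ω' (z + ω'')))
        (φ / (Nb * (Q * N : ℕ) * max ((Q * N : ℕ) : ℝ) Nb)) →
    Lev K γ A σ c Nb (Q * N) (gnew (trunc c N) g ω ω') ω' ω'' (X / 2 + C * (φ + 1 / N))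
      (max (N : ℝ) Nb / max ((Q * N : ℕ) : ℝ) Nb * ((1 + C * X) * V + C * X)) (S + C * X)
      ((1 + C * X) * D + C * (σ + X) / max (N : ℝ) Nb) ((1 + C * X) * T + C * X)

/-- the conclusion of `advance_dif` for fixed constants -/
def AdvDif (K γ Vb A σ x₁ C : ℝ) (Q : ℕ) (c : ℤ → ℂ) : Prop :=
  ∀ (N : ℕ) (Nb ω ω' X V S D T : ℝ) (g : ℂ → ℂ),
    Lev K γ A σ c Nb N g ω ω' X V S D T → X ≤ x₁ → V ≤ Vb → 0 ≤ S → S + C * X ≤ 1 / 2 →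
    Dif K (4 * cr K / (Q * N : ℕ)) g ∧ HP (4 * cr K / (Q * N : ℕ)) (fun z => g z - z) ∧
    Dif K (4 * cr K / (Q * N : ℕ)) (gnew (trunc c N) g ω ω') ∧
    HP (4 * cr K / (Q * N : ℕ)) (fun z => gnew (trunc c N) g ω ω' z - z) ∧
    (∀ z ∈ Strip (4 * cr K / (Q * N : ℕ)),
      ‖gnew (trunc c N) g ω ω' z - g z‖ ≤ C * (X + σ * V) / N ∧
      ‖gnew (trunc c N) g ω ω' (z + ω') - g (z + ω)‖ ≤ C * (X + σ * V) / N ∧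
      ‖deriv (gnew (trunc c N) g ω ω') z - deriv g z‖ ≤ C * (X + σ * V) ∧
      ‖deriv (gnew (trunc c N) g ω ω') (z + ω') - deriv g (z + ω)‖ ≤ C * (X + σ * V) ∧
      ‖(gnew (trunc c N) g ω ω' (z + ω') - gnew (trunc c N) g ω ω' z) -
        (g (z + ω) - g z)‖ ≤ C * (X + σ * V) / Nb)

/-- standing assumptions for the iteration along the tree -/
structure Run (K γ Vb A σ x₁ C Cf Ct X₀ V₀ S₀ D₀ T₀ : ℝ) (Q Nb Mc : ℕ) (c : ℤ → ℂ) (g₀ : ℂ → ℂ)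
    (om : List (Fin Mc) → ℝ) : Prop where
  K1 : 1 ≤ K
  γ0 : 0 < γ
  γ1 : γ ≤ 1
  A1 : 1 ≤ A
  σ0 : 0 ≤ σ
  σ1 : σ ≤ 1
  C1 : 1 ≤ C
  Cf1 : 1 ≤ Cf
  Ct1 : 1 ≤ Ct
  Vb1 : 1 ≤ Vb
  x0 : 0 < x₁
  x1 : 10 * C * A * x₁ ≤ 1
  Q16 : 16 ≤ Q
  Nb1 : 10 ^ 4 * K ^ 4 ≤ Nb
  NbQ : Q ≤ Nb
  X0 : 0 ≤ X₀
  V0 : 0 ≤ V₀
  V0b : V₀ ≤ Vb
  S0 : 0 ≤ S₀
  S0' : S₀ ≤ 1 / 4
  D0 : 0 ≤ D₀
  T0 : 0 ≤ T₀
  crs : ∀ n, c (-n) = starRingEnd ℂ (c n)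
  tree : TreeOK Q γ Ct σ Nb Mc om
  adv : Adv K γ Vb A σ x₁ C Q Nb c
  dif : AdvDif K γ Vb A σ x₁ C Q c
  fresh : ∀ (A' B : ℕ) (ω ω' : ℝ) (g : ℂ → ℂ), 1 ≤ A' → A' ≤ B → B ≤ Q * A' → Nb ≤ B →
    Rot γ Nb ω → Rot γ Nb ω' → |ω' - ω| ≤ 1 / ((B : ℝ) * B) → Dif K (4 * cr K / B) g →
    HP (4 * cr K / B) (fun z => g z - z) →
    Bd (2 * cr K / B) (invD ω' (fun z => FF (blockF c A' B) g ω (z + ω')))
      (Cf * (B : ℝ) ^ (-(1 / 2) : ℝ) * blk c A' B / (Nb * B * B) +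
        res ω' (2 * cr K / B) (MM (blockF c A' B) g ω))
  base : ∀ d : Fin Mc, Lev K γ A σ c Nb Nb g₀ (om []) (om [d]) X₀ V₀ S₀ D₀ T₀

/-- root mean square over the words of length `j` with alive tail -/
noncomputable def rms {Mc : ℕ} (x₂ : ℝ) (X f : List (Fin Mc) → ℝ) (j : ℕ) : ℝ :=
  Real.sqrt (avg j (fun μ => if Tots X μ.tail ≤ x₂ then f μ ^ 2 else 0) [])

end Pool.Agent.MP_b87ea9_an.Kam
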