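import Mathlib
import Pool.Agent.Lib.MP_b87ea9_an.KDefs
import Pool.Agent.Lib.MP_b87ea9_an.KDefs2
import Pool.Agent.Lib.MP_b87ea9_an.KDefs3
import Pool.Agent.Lib.MP_b87ea9_an.KA3
import Pool.Agent.Lib.MP_b87ea9_an.KA2

set_option autoImplicit false

/-! Averages of resonance sums -/

namespace Pool.Agent.MP_b87ea9_an.Kam

open Real MeasureTheory

/-! ### Averages over the tree -/

theorem ke_avg_hasSum {Mc : ℕ} (F : List (Fin Mc) → ℤ → ℝ) (S : List (Fin Mc) → ℝ) :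
    ∀ (m : ℕ) (ν : List (Fin Mc)), (∀ μ : List (Fin Mc), μ.length = ν.length + m → HasSum (F μ) (S μ)) →
      HasSum (fun n => avg m (fun μ => F μ n) ν) (avg m S ν) := by
  intro m
  induction m with
  | zero => intro ν h; simpa [avg] using h ν rfl
  | succ m ih =>
    intro ν h
    simp only [avg]
    refine HasSum.div_const (hasSum_sum fun c _ => ih (c :: ν) fun μ hμ => h μ ?_) _
    rw [hμ, List.length_cons]; omega

theorem ke_avg_le {Mc : ℕ} (f g : List (Fin Mc) → ℝ) :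
    ∀ (m : ℕ) (ν : List (Fin Mc)), (∀ μ : List (Fin Mc), μ.length = ν.length + m → f μ ≤ g μ) →
      avg m f ν ≤ avg m g ν := by
  intro m
  induction m with
  | zero => intro ν h; simpa [avg] using h ν rfl
  | succ m ih =>
    intro ν h
    simp only [avg]
    refine div_le_div_of_nonneg_right (Finset.sum_le_sum fun c _ => ih (c :: ν) fun μ hμ => h μ ?_)
      (Nat.cast_nonneg _)
    rw [hμ, List.length_cons]; omega

theorem ke_avg_mul {Mc : ℕ} (a : ℝ) (f : List (Fin Mc) → ℝ) :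
    ∀ (m : ℕ) (ν : List (Fin Mc)), avg m (fun μ => a * f μ) ν = a * avg m f ν := by
  intro m
  induction m with
  | zero => intro ν; simp [avg]
  | succ m ih =>
    intro ν
    simp only [avg, ih, ← Finset.mul_sum, mul_div_assoc]

theorem ke_avg_pos {Mc : ℕ} (hMc : 0 < Mc) (f : List (Fin Mc) → ℝ) (hf : ∀ μ, 0 < f μ) :
    ∀ (m : ℕ) (ν : List (Fin Mc)), 0 < avg m f ν := by
  intro m
  induction m with
  | zero => intro ν; simpa [avg] using hf ν
  | succ m ih =>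
    intro ν
    simp only [avg]
    have : Nonempty (Fin Mc) := ⟨⟨0, hMc⟩⟩
    exact div_pos (Finset.sum_pos (fun c _ => ih _) Finset.univ_nonempty) (by exact_mod_cast hMc)

/-! ### Elementary bounds -/

theorem ke_sq_le_exp {ε y : ℝ} (hε : 0 < ε) (hy : 0 ≤ y) : y ^ 2 ≤ 2 / ε ^ 2 * exp (ε * y) := by
  have h := Real.pow_div_factorial_le_exp (ε * y) (by positivity) 2
  have h2 : (ε * y) ^ 2 ≤ 2 * exp (ε * y) := by
    have : ((Nat.factorial 2 : ℕ) : ℝ) = 2 := by norm_num [Nat.factorial]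
    rw [this, div_le_iff₀ (by norm_num)] at h
    linarith
  rw [div_mul_eq_mul_div, le_div_iff₀ (by positivity)]
  nlinarith

theorem ke_cube_le_exp {ε y : ℝ} (hε : 0 < ε) (hy : 0 ≤ y) : y ^ 3 ≤ 6 / ε ^ 3 * exp (ε * y) := by
  have h := Real.pow_div_factorial_le_exp (ε * y) (by positivity) 3
  have h2 : (ε * y) ^ 3 ≤ 6 * exp (ε * y) := by
    have : ((Nat.factorial 3 : ℕ) : ℝ) = 6 := by norm_num [Nat.factorial]
    rw [this, div_le_iff₀ (by norm_num)] at h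
    linarith
  rw [div_mul_eq_mul_div, le_div_iff₀ (by positivity)]
  calc y ^ 3 * ε ^ 3 = (ε * y) ^ 3 := by ring
    _ ≤ _ := h2

/-- the weights of the tree are at most quadratic -/
theorem ke_weight_le {γ Nb N ω : ℝ} (hγ : 0 < γ) (hγ1 : γ ≤ 1) (hNb : 1 ≤ Nb) (hN : Nb ≤ N)
    (R : Rot γ Nb ω) {n : ℤ} (hn : n ≠ 0) :
    0 < (N * ‖dv ω n‖) ^ (-(3 / 4) : ℝ) * ((|(n : ℝ)| + Nb) / N) ∧
    (N * ‖dv ω n‖) ^ (-(3 / 4) : ℝ) * ((|(n : ℝ)| + Nb) / N) ≤ 1 / γ * (|(n : ℝ)| / N + 2) ^ 2 := by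
  have hN0 : 0 < N := by linarith
  have hd := R.dio n hn
  have hx0 : 0 < |(n : ℝ)| + Nb := by positivity
  have hdp : 0 < ‖dv ω n‖ := lt_of_lt_of_le (by positivity) hd
  have hb : 0 < N * ‖dv ω n‖ := by positivity
  refine ⟨by positivity, ?_⟩
  set y : ℝ := (|(n : ℝ)| + Nb) / N with hy
  have hy0 : 0 < y := by positivity
  have hyx : y ≤ |(n : ℝ)| / N + 1 := by
    rw [hy, add_div]
    have : Nb / N ≤ 1 := by rw [div_le_one hN0]; exact hN
    linarith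
  have h1 : γ / y ≤ N * ‖dv ω n‖ := by
    have : γ / y = N * (γ / (|(n : ℝ)| + Nb)) := by
      rw [hy]; field_simp
    rw [this]
    exact mul_le_mul_of_nonneg_left hd hN0.le
  have h2 : (N * ‖dv ω n‖) ^ (-(3 / 4) : ℝ) ≤ (γ / y) ^ (-(3 / 4) : ℝ) :=
    Real.rpow_le_rpow_of_nonpos (by positivity) h1 (by norm_num)
  have h3 : (γ / y) ^ (-(3 / 4) : ℝ) = (y / γ) ^ (3 / 4 : ℝ) := by
    rw [Real.rpow_neg (by positivity), ← Real.inv_rpow (by positivity), inv_div]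
  have h4 : (y / γ) ^ (3 / 4 : ℝ) ≤ 1 + y / γ := by
    have hyg : 0 ≤ y / γ := by positivity
    calc (y / γ) ^ (3 / 4 : ℝ) ≤ (1 + y / γ) ^ (3 / 4 : ℝ) :=
          Real.rpow_le_rpow hyg (by linarith) (by norm_num)
      _ ≤ (1 + y / γ) ^ (1 : ℝ) :=
          Real.rpow_le_rpow_of_exponent_le (by linarith) (by norm_num)
      _ = 1 + y / γ := Real.rpow_one _
  have h5 : 1 + y / γ ≤ 1 / γ * (1 + y) := by
    have : 1 ≤ 1 / γ := by rw [le_div_iff₀ hγ]; linarith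
    have h6 : 1 / γ * (1 + y) = 1 / γ + y / γ := by ring
    rw [h6]; linarith
  have h6 : (N * ‖dv ω n‖) ^ (-(3 / 4) : ℝ) ≤ 1 / γ * (1 + y) := by linarith [h3 ▸ h2]
  have hxx : 0 ≤ |(n : ℝ)| / N := by positivity
  calc (N * ‖dv ω n‖) ^ (-(3 / 4) : ℝ) * y ≤ 1 / γ * (1 + y) * y :=
        mul_le_mul_of_nonneg_right h6 hy0.le
    _ = 1 / γ * ((1 + y) * y) := by ring
    _ ≤ 1 / γ * (|(n : ℝ)| / N + 2) ^ 2 := by
        refine mul_le_mul_of_nonneg_left ?_ (by positivity)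
        nlinarith

/-- absolute summability of the Fourier coefficients with exponential weights -/
theorem ke_summable {r : ℝ} {G : ℂ → ℂ} (hG : HP r G) {y : ℝ} (hy0 : 0 ≤ y) (hy : y < r) :
    Summable fun n : ℤ => ‖fc G n‖ * exp (y * |(n : ℝ)|) := by
  have key : ∀ s : ℝ, |s| < r → Summable fun n : ℤ => ‖fc G n‖ * exp (s * (n : ℝ)) := by
    intro s hs
    have hz : (-(s * Complex.I) : ℂ) ∈ Strip r := by
      simp only [Strip, Set.mem_ofPred_eq, Complex.neg_im, Complex.mul_im, Complex.ofReal_re,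
        Complex.I_im, mul_one, Complex.ofReal_im, Complex.I_re, mul_zero, add_zero, abs_neg]
      exact hs
    have h := (hasSum_fc hG hz).summable.norm
    refine h.congr fun n => ?_
    rw [norm_mul, Complex.norm_exp]
    congr 2
    simp [Complex.mul_re, Complex.mul_im]
    ring
  have h1 := key y (by rwa [abs_of_nonneg hy0])
  have h2 := key (-y) (by rwa [abs_neg, abs_of_nonneg hy0])
  refine Summable.of_nonneg_of_le (fun n => by positivity) (fun n => ?_) (h1.add h2)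
  rw [← mul_add]
  refine mul_le_mul_of_nonneg_left ?_ (norm_nonneg _)
  rcases abs_cases (n : ℝ) with ⟨h, _⟩ | ⟨h, _⟩
  · rw [h]; linarith [exp_pos (-y * (n : ℝ))]
  · rw [h]
    have : y * -(n : ℝ) = -y * n := by ring
    rw [this]; linarith [exp_pos (y * (n : ℝ))]

/-- resonance sum: Cauchy-Schwarz with the weights of the tree -/
theorem res_sq (κ γ : ℝ) (hκ : 0 < κ) (hγ : 0 < γ) (hγ1 : γ ≤ 1) : ∃ C : ℝ, 1 ≤ C ∧
    ∀ (Nb N ω r : ℝ) (G : ℂ → ℂ), 1 ≤ Nb → Nb ≤ N → 0 < r → Rot γ Nb ω → HP (r + κ / N) G →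
      Summable (fun n : ℤ => if n = 0 then 0 else ‖fc G n‖ ^ 2 * exp (2 * (r + κ / (2 * N)) * |(n : ℝ)|) *
        ((N * ‖dv ω n‖) ^ (-(3 / 4) : ℝ) * ((|(n : ℝ)| + Nb) / N))) ∧
      res ω r G ^ 2 ≤ C * N ^ 2 * ∑' n : ℤ, (if n = 0 then 0 else
        ‖fc G n‖ ^ 2 * exp (2 * (r + κ / (2 * N)) * |(n : ℝ)|) *
          ((N * ‖dv ω n‖) ^ (-(3 / 4) : ℝ) * ((|(n : ℝ)| + Nb) / N))) := by
  obtain ⟨C0, hC0, hsum⟩ := sum_dv_weight κ hκ
  refine ⟨C0 * (1 / γ) ^ (5 / 4 : ℝ), ?_, ?_⟩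
  · have : 1 ≤ (1 / γ) ^ (5 / 4 : ℝ) :=
      Real.one_le_rpow (by rw [le_div_iff₀ hγ]; linarith) (by norm_num)
    nlinarith
  intro Nb N ω r G hNb hN hr R hG
  have hN0 : 0 < N := by linarith
  set F : ℤ → ℝ := fun n : ℤ => if n = 0 then 0 else
    ‖fc G n‖ ^ 2 * exp (2 * (r + κ / (2 * N)) * |(n : ℝ)|) *
      ((N * ‖dv ω n‖) ^ (-(3 / 4) : ℝ) * ((|(n : ℝ)| + Nb) / N)) with hF
  have hF0 : ∀ n, 0 ≤ F n := by
    intro n
    simp only [hF]
    split_ifs with h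
    · exact le_rfl
    · have := (ke_weight_le hγ hγ1 hNb hN R h).1
      positivity
  have hFs : Summable F := by
    have hs := ke_summable hG (y := r + 3 * κ / (4 * N)) (by positivity) (by
      have : 3 * κ / (4 * N) < κ / N := by
        rw [div_lt_div_iff₀ (by positivity) hN0]; nlinarith [mul_pos hκ hN0]
      linarith)
    have hs2 : Summable fun n : ℤ => (‖fc G n‖ * exp ((r + 3 * κ / (4 * N)) * |(n : ℝ)|)) ^ 2 := by
      have hb := hs.tendsto_cofinite_zero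
      refine Summable.of_norm_bounded_eventually (g := fun n : ℤ =>
        ‖fc G n‖ * exp ((r + 3 * κ / (4 * N)) * |(n : ℝ)|)) hs ?_
      filter_upwards [hb.eventually (gt_mem_nhds (show (0 : ℝ) < 1 by norm_num))] with n hn
      rw [Real.norm_of_nonneg (by positivity), sq]
      exact mul_le_of_le_one_left (by positivity) hn.le
    refine Summable.of_nonneg_of_le hF0 (fun n => ?_)
      (hs2.mul_left (1 / γ * (2 / (κ / 2) ^ 2 * exp (κ / 2 * 2))))
    simp only [hF]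
    split_ifs with h
    · positivity
    · have hw := (ke_weight_le hγ hγ1 hNb hN R h).2
      have hx : 0 ≤ |(n : ℝ)| / N := by positivity
      have hq := ke_sq_le_exp (ε := κ / 2) (y := |(n : ℝ)| / N + 2) (by positivity) (by positivity)
      have he : exp (κ / 2 * (|(n : ℝ)| / N + 2)) = exp (κ / 2 * 2) * exp (κ / 2 * (|(n : ℝ)| / N)) := by
        rw [← exp_add]; ring_nf
      have he2 : exp ((r + 3 * κ / (4 * N)) * |(n : ℝ)|) ^ 2 =
          exp (2 * (r + κ / (2 * N)) * |(n : ℝ)|) * exp (κ / 2 * (|(n : ℝ)| / N)) := by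
        rw [← exp_nat_mul, ← exp_add]
        congr 1
        field_simp
        ring
      calc ‖fc G n‖ ^ 2 * exp (2 * (r + κ / (2 * N)) * |(n : ℝ)|) *
            ((N * ‖dv ω n‖) ^ (-(3 / 4) : ℝ) * ((|(n : ℝ)| + Nb) / N))
          ≤ ‖fc G n‖ ^ 2 * exp (2 * (r + κ / (2 * N)) * |(n : ℝ)|) *
            (1 / γ * (2 / (κ / 2) ^ 2 * exp (κ / 2 * (|(n : ℝ)| / N + 2)))) := by
            refine mul_le_mul_of_nonneg_left (hw.trans ?_) (by positivity)
            exact mul_le_mul_of_nonneg_left hq (by positivity)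
        _ = 1 / γ * (2 / (κ / 2) ^ 2 * exp (κ / 2 * 2)) *
            (‖fc G n‖ * exp ((r + 3 * κ / (4 * N)) * |(n : ℝ)|)) ^ 2 := by
            rw [he, mul_pow, he2]; ring
  refine ⟨hFs, ?_⟩
  set T : ℝ := ∑' n, F n with hT
  have hT0 : 0 ≤ T := tsum_nonneg hF0
  have hCγ : 0 ≤ C0 * (1 / γ) ^ (5 / 4 : ℝ) := by positivity
  have hres : res ω r G ≤ Real.sqrt (C0 * (1 / γ) ^ (5 / 4 : ℝ) * N ^ 2 * T) := by
    unfold res
    refine tsum_le_of_sum_le' (Real.sqrt_nonneg _) fun s => ?_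
    -- remove zero
    have hrem : ∑ n ∈ s, (if n = 0 then 0 else ‖fc G n‖ * Real.exp (r * |(n : ℝ)|) / ‖dv ω n‖) =
        ∑ n ∈ s.erase 0, ‖fc G n‖ * Real.exp (r * |(n : ℝ)|) / ‖dv ω n‖ := by
      rw [← Finset.sum_filter_add_sum_filter_not s (fun n => n = 0)]
      have h1 : ∑ n ∈ s.filter (fun n => n = 0),
          (if n = 0 then 0 else ‖fc G n‖ * Real.exp (r * |(n : ℝ)|) / ‖dv ω n‖) = 0 :=
        Finset.sum_eq_zero fun n hn => by rw [if_pos (Finset.mem_filter.1 hn).2]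
      rw [h1, zero_add]
      have h2 : s.filter (fun n => ¬ n = 0) = s.erase 0 := by
        ext n; simp only [Finset.mem_filter, Finset.mem_erase]; tauto
      rw [h2]
      exact Finset.sum_congr rfl fun n hn => by rw [if_neg (Finset.ne_of_mem_erase hn)]
    rw [hrem]
    set A : ℤ → ℝ := fun n => Real.sqrt (F n) with hA
    set B : ℤ → ℝ := fun n => Real.sqrt (N ^ 2 * (exp (-(κ / N * |(n : ℝ)|)) *
      (N * ‖dv ω n‖) ^ (-(5 / 4) : ℝ) * (N / (|(n : ℝ)| + Nb)))) with hB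
    have hterm : ∀ n ∈ s.erase 0, ‖fc G n‖ * Real.exp (r * |(n : ℝ)|) / ‖dv ω n‖ = A n * B n := by
      intro n hn
      have hn0 : n ≠ 0 := Finset.ne_of_mem_erase hn
      have hd := R.dio n hn0
      have hx0 : 0 < |(n : ℝ)| + Nb := by positivity
      have hdp : 0 < ‖dv ω n‖ := lt_of_lt_of_le (by positivity) hd
      have hb : 0 < N * ‖dv ω n‖ := by positivity
      simp only [hA, hB]
      rw [← Real.sqrt_mul (hF0 n)]
      symm
      rw [Real.sqrt_eq_iff_mul_self_eq (mul_nonneg (hF0 n) (by positivity)) (by positivity)]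
      simp only [hF, if_neg hn0]
      have hexp : exp (2 * (r + κ / (2 * N)) * |(n : ℝ)|) * exp (-(κ / N * |(n : ℝ)|)) =
          exp (r * |(n : ℝ)|) * exp (r * |(n : ℝ)|) := by
        rw [← exp_add, ← exp_add]
        congr 1
        field_simp
        ring
      have hpow : (N * ‖dv ω n‖) ^ (-(3 / 4) : ℝ) * (N * ‖dv ω n‖) ^ (-(5 / 4) : ℝ) =
          ((N * ‖dv ω n‖) ^ 2)⁻¹ := by
        rw [← Real.rpow_add hb, show (-(3 / 4) : ℝ) + -(5 / 4) = -(2 : ℝ) by norm_num,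
          Real.rpow_neg hb.le]
        norm_cast
      have hcan : ((|(n : ℝ)| + Nb) / N) * (N / (|(n : ℝ)| + Nb)) = 1 := by
        field_simp
      have hre : ∀ c E1 w1 x N2 E2 w2 y : ℝ, c * E1 * (w1 * x) * (N2 * (E2 * w2 * y)) =
          c * (E1 * E2) * (N2 * (w1 * w2)) * (x * y) := by intros; ring
      rw [hre, hexp, hpow, hcan]
      field_simp
    rw [Finset.sum_congr rfl hterm]
    refine (Real.sum_mul_le_sqrt_mul_sqrt _ _ _).trans ?_
    rw [← Real.sqrt_mul (Finset.sum_nonneg fun n _ => sq_nonneg _)]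
    refine Real.sqrt_le_sqrt ?_
    have hA2 : ∑ n ∈ s.erase 0, A n ^ 2 ≤ T := by
      have : ∑ n ∈ s.erase 0, A n ^ 2 = ∑ n ∈ s.erase 0, F n :=
        Finset.sum_congr rfl fun n _ => Real.sq_sqrt (hF0 n)
      rw [this]
      exact hFs.sum_le_tsum _ fun n _ => hF0 n
    have hB2 : ∑ n ∈ s.erase 0, B n ^ 2 ≤ N ^ 2 * (C0 * (1 / γ) ^ (5 / 4 : ℝ)) := by
      have : ∑ n ∈ s.erase 0, B n ^ 2 = N ^ 2 * ∑ n ∈ s.erase 0, (exp (-(κ / N * |(n : ℝ)|)) *
          (N * ‖dv ω n‖) ^ (-(5 / 4) : ℝ) * (N / (|(n : ℝ)| + Nb))) := by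
        rw [Finset.mul_sum]
        exact Finset.sum_congr rfl fun n _ => Real.sq_sqrt (by positivity)
      rw [this]
      refine mul_le_mul_of_nonneg_left ?_ (by positivity)
      exact hsum γ Nb ω N (κ / N) (s.erase 0) hγ hγ1 hNb hN le_rfl R (Finset.notMem_erase 0 s)
    calc (∑ n ∈ s.erase 0, A n ^ 2) * ∑ n ∈ s.erase 0, B n ^ 2
        ≤ T * (N ^ 2 * (C0 * (1 / γ) ^ (5 / 4 : ℝ))) :=
          mul_le_mul hA2 hB2 (Finset.sum_nonneg fun n _ => sq_nonneg _) hT0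
      _ = C0 * (1 / γ) ^ (5 / 4 : ℝ) * N ^ 2 * T := by ring
  have hres0 : 0 ≤ res ω r G := by
    unfold res
    refine tsum_nonneg fun n => ?_
    split_ifs <;> positivity
  calc res ω r G ^ 2 ≤ Real.sqrt (C0 * (1 / γ) ^ (5 / 4 : ℝ) * N ^ 2 * T) ^ 2 :=
        pow_le_pow_left₀ hres0 hres 2
    _ = C0 * (1 / γ) ^ (5 / 4 : ℝ) * N ^ 2 * T := Real.sq_sqrt (by positivity)

/-- average over the extensions of `ν` of the squared resonance sum of a fixed function -/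
theorem avg_res (κ γ Ct Q : ℝ) (hκ : 0 < κ) (hγ : 0 < γ) (hγ1 : γ ≤ 1) (hQ : 1 ≤ Q) (hCt : 0 ≤ Ct) :
    ∃ C : ℝ, 1 ≤ C ∧
    ∀ (Nb : ℝ) (Mc : ℕ) (om : List (Fin Mc) → ℝ) (ν : List (Fin Mc)) (m : ℕ) (r M θ : ℝ) (G : ℂ → ℂ),
      1 ≤ Nb → 0 < Mc → 0 < r → 0 ≤ M → (∀ ν, Rot γ Nb (om ν)) → HP (r + κ / (Nb * Q ^ (ν.length + m))) G →
      HN (r + κ / (Nb * Q ^ (ν.length + m))) G M →
      (∀ n : ℤ, n ≠ 0 → avg m (fun μ => ((Nb * Q ^ μ.length) * ‖dv (om μ) n‖) ^ (-(3 / 4) : ℝ) *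
          ((|(n : ℝ)| + Nb) / (Nb * Q ^ μ.length))) ν ≤
        Ct * (1 + |(n : ℝ)| / (Nb * Q ^ (ν.length + m))) ^ 3 * θ) →
      avg m (fun μ => res (om μ) r G ^ 2) ν ≤ C * (Nb * Q ^ (ν.length + m)) ^ 2 * M ^ 2 * θ := by
  obtain ⟨C0, hC0, hres⟩ := res_sq κ γ hκ hγ hγ1
  set D : ℝ := 6 / κ ^ 3 * exp κ with hD
  have hD0 : 0 < D := by positivity
  refine ⟨max 1 (C0 * (D * Ct * 2)), le_max_left _ _, ?_⟩
  intro Nb Mc om ν m r M θ G hNb hMc hr hM hom hG hHN hw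
  set N : ℝ := Nb * Q ^ (ν.length + m) with hNdef
  have hQ1 : 1 ≤ Q ^ (ν.length + m) := one_le_pow₀ hQ
  have hN : Nb ≤ N := by rw [hNdef]; nlinarith
  have hN0 : 0 < N := by linarith
  -- sign of θ
  have hpos : 0 < avg m (fun μ => ((Nb * Q ^ μ.length) * ‖dv (om μ) 1‖) ^ (-(3 / 4) : ℝ) *
          ((|((1 : ℤ) : ℝ)| + Nb) / (Nb * Q ^ μ.length))) ν := by
    refine ke_avg_pos hMc _ (fun μ => ?_) m ν
    have hQm : 1 ≤ Q ^ μ.length := one_le_pow₀ hQ
    exact (ke_weight_le hγ hγ1 hNb (N := Nb * Q ^ μ.length) (by nlinarith) (hom μ)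
      (n := 1) one_ne_zero).1
  have hθ1 : 0 < Ct * (1 + |((1 : ℤ) : ℝ)| / N) ^ 3 * θ := lt_of_lt_of_le hpos (hw 1 one_ne_zero)
  have hθ : 0 < θ := by
    by_contra hcon
    push Not at hcon
    have : Ct * (1 + |((1 : ℤ) : ℝ)| / N) ^ 3 * θ ≤ 0 :=
      mul_nonpos_of_nonneg_of_nonpos (by positivity) hcon
    linarith
  set F : List (Fin Mc) → ℤ → ℝ := fun μ n => if n = 0 then 0 else
    ‖fc G n‖ ^ 2 * exp (2 * (r + κ / (2 * N)) * |(n : ℝ)|) *
      ((N * ‖dv (om μ) n‖) ^ (-(3 / 4) : ℝ) * ((|(n : ℝ)| + Nb) / N)) with hF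
  have hS : ∀ μ, Summable (F μ) ∧ res (om μ) r G ^ 2 ≤ C0 * N ^ 2 * ∑' n, F μ n :=
    fun μ => hres Nb N (om μ) r G hNb hN hr (hom μ) hG
  have h1 : avg m (fun μ => res (om μ) r G ^ 2) ν ≤ C0 * N ^ 2 * avg m (fun μ => ∑' n, F μ n) ν := by
    rw [← ke_avg_mul]
    exact ke_avg_le _ _ m ν fun μ _ => (hS μ).2
  have h2 := ke_avg_hasSum F (fun μ => ∑' n, F μ n) m ν fun μ _ => (hS μ).1.hasSum
  have h3 : ∀ n : ℤ, avg m (fun μ => F μ n) ν ≤ if n = 0 then 0 else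
      D * Ct * θ * (‖fc G n‖ ^ 2 * exp (2 * (r + κ / N) * |(n : ℝ)|)) := by
    intro n
    split_ifs with hn
    · have : avg m (fun μ => F μ n) ν ≤ avg m (fun _ => (0 : ℝ) * 1) ν :=
        ke_avg_le _ _ m ν fun μ _ => by simp [hF, hn]
      rw [ke_avg_mul] at this
      simpa using this
    · have e1 : avg m (fun μ => F μ n) ν ≤ ‖fc G n‖ ^ 2 * exp (2 * (r + κ / (2 * N)) * |(n : ℝ)|) *
          avg m (fun μ => ((Nb * Q ^ μ.length) * ‖dv (om μ) n‖) ^ (-(3 / 4) : ℝ) *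
          ((|(n : ℝ)| + Nb) / (Nb * Q ^ μ.length))) ν := by
        rw [← ke_avg_mul]
        refine ke_avg_le _ _ m ν fun μ hμ => ?_
        simp only [hF, if_neg hn, hμ, ← hNdef, le_refl]
      have hx : 0 ≤ |(n : ℝ)| / N := by positivity
      have hq := ke_cube_le_exp (ε := κ) (y := 1 + |(n : ℝ)| / N) hκ (by positivity)
      have he : exp (κ * (1 + |(n : ℝ)| / N)) = exp κ * exp (κ * (|(n : ℝ)| / N)) := by
        rw [← exp_add]; ring_nf
      have he2 : exp (2 * (r + κ / N) * |(n : ℝ)|) =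
          exp (2 * (r + κ / (2 * N)) * |(n : ℝ)|) * exp (κ * (|(n : ℝ)| / N)) := by
        rw [← exp_add]
        congr 1
        field_simp
        ring
      calc avg m (fun μ => F μ n) ν ≤ _ := e1
        _ ≤ ‖fc G n‖ ^ 2 * exp (2 * (r + κ / (2 * N)) * |(n : ℝ)|) *
            (Ct * (1 + |(n : ℝ)| / N) ^ 3 * θ) :=
            mul_le_mul_of_nonneg_left (hw n hn) (by positivity)
        _ ≤ ‖fc G n‖ ^ 2 * exp (2 * (r + κ / (2 * N)) * |(n : ℝ)|) *
            (Ct * (6 / κ ^ 3 * exp (κ * (1 + |(n : ℝ)| / N))) * θ) := by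
            refine mul_le_mul_of_nonneg_left ?_ (by positivity)
            refine mul_le_mul_of_nonneg_right ?_ hθ.le
            exact mul_le_mul_of_nonneg_left hq hCt
        _ = D * Ct * θ * (‖fc G n‖ ^ 2 * exp (2 * (r + κ / N) * |(n : ℝ)|)) := by
            rw [he, he2, hD]; ring
  have h4 : avg m (fun μ => ∑' n, F μ n) ν ≤ D * Ct * θ * (2 * M ^ 2) := by
    rw [← h2.tsum_eq]
    refine tsum_le_of_sum_le' (by positivity) fun s => ?_
    calc ∑ n ∈ s, avg m (fun μ => F μ n) ν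
        ≤ ∑ n ∈ s, D * Ct * θ * (‖fc G n‖ ^ 2 * exp (2 * (r + κ / N) * |(n : ℝ)|)) := by
          refine Finset.sum_le_sum fun n _ => (h3 n).trans ?_
          split_ifs
          · positivity
          · exact le_rfl
      _ = D * Ct * θ * ∑ n ∈ s, ‖fc G n‖ ^ 2 * exp (2 * (r + κ / N) * |(n : ℝ)|) := by
          rw [Finset.mul_sum]
      _ ≤ D * Ct * θ * (2 * M ^ 2) := by
          refine mul_le_mul_of_nonneg_left ?_ (by positivity)
          exact sq_sum hG (by positivity) hHN s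
  calc avg m (fun μ => res (om μ) r G ^ 2) ν ≤ C0 * N ^ 2 * avg m (fun μ => ∑' n, F μ n) ν := h1
    _ ≤ C0 * N ^ 2 * (D * Ct * θ * (2 * M ^ 2)) := mul_le_mul_of_nonneg_left h4 (by positivity)
    _ = C0 * (D * Ct * 2) * N ^ 2 * M ^ 2 * θ := by ring
    _ ≤ max 1 (C0 * (D * Ct * 2)) * N ^ 2 * M ^ 2 * θ := by
        refine mul_le_mul_of_nonneg_right ?_ hθ.le
        refine mul_le_mul_of_nonneg_right ?_ (sq_nonneg _)
        exact mul_le_mul_of_nonneg_right (le_max_right _ _) (sq_nonneg _)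

end Pool.Agent.MP_b87ea9_an.Kam
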