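import Mathlib
import Pool.Agent.Lib.MP_b87ea9_an.KDefs
import Pool.Agent.Lib.MP_b87ea9_an.KDefs2
import Pool.Agent.Lib.MP_b87ea9_an.KDefs3
import Pool.Agent.Lib.MP_b87ea9_an.KDefs4
import Pool.Agent.Lib.MP_b87ea9_an.KC5
import Pool.Agent.Lib.MP_b87ea9_an.KC6
import Pool.Agent.Lib.MP_b87ea9_an.KC7
import Pool.Agent.Lib.MP_b87ea9_an.KD0

set_option autoImplicit false

/-! One step of the iteration in terms of the scalar bounds: auxiliary results -/

namespace Pool.Agent.MP_b87ea9_an.Kam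

open Real MeasureTheory

theorem e2_bd_mono {r r' M M' : ℝ} {f : ℂ → ℂ} (h : Bd r f M) (hr : r' ≤ r) (hM : M ≤ M') :
    Bd r' f M' := fun z hz => (h z (lt_of_lt_of_le hz hr)).trans hM

theorem e2_tb_mono {K N N' : ℝ} {h : ℂ → ℂ} (hK : 0 ≤ K) (hN : 0 < N) (hNN : N ≤ N')
    (t : Tb K N h) : Tb K N' h where
  hol := t.hol
  per := t.per
  rs := t.rs
  b0 := e2_bd_mono t.b0 (one_div_le_one_div_of_le hN hNN) le_rfl
  b1 := e2_bd_mono t.b1 (one_div_le_one_div_of_le hN hNN) le_rfl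
  b2 := e2_bd_mono t.b2 (one_div_le_one_div_of_le hN hNN) le_rfl
  b3 := e2_bd_mono t.b3 (one_div_le_one_div_of_le hN hNN) le_rfl
  b4 := e2_bd_mono t.b4 (one_div_le_one_div_of_le hN hNN) (mul_le_mul_of_nonneg_left hNN hK)
  pos := t.pos

theorem e2_FF_add {h hf g : ℂ → ℂ} (hh : Differentiable ℂ h) (hhf : Differentiable ℂ hf) (ω : ℝ)
    (z : ℂ) : FF (fun z => h z + hf z) g ω z = FF h g ω z + FF hf g ω z := by
  have hd : ∀ w, deriv (fun z => h z + hf z) w = deriv h w + deriv hf w := fun w =>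
    deriv_fun_add (hh w) (hhf w)
  unfold FF PP RR Sx Sy
  simp only [hd]
  ring

theorem e2_cr_pos {K : ℝ} (hK : 1 ≤ K) : 0 < cr K := by
  unfold cr; positivity

theorem e2_exp_half : exp (1 / 2 : ℝ) ≤ 2 := by
  have h1 : exp (1 / 2 : ℝ) * exp (1 / 2 : ℝ) = exp 1 := by
    rw [← exp_add]; norm_num
  have h2 := exp_one_lt_d9
  have h3 : 0 < exp (1 / 2 : ℝ) := exp_pos _
  nlinarith only [h1, h2, h3]

theorem e2_exp_neg {κ : ℝ} (h0 : 0 ≤ κ) (h1 : κ ≤ 1 / 2) : exp (-(2 * κ)) ≤ 1 - κ := by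
  have h2 : 1 + 2 * κ ≤ exp (2 * κ) := by
    have := add_one_le_exp (2 * κ); linarith only [this]
  rw [exp_neg]
  have h3 : 0 < 1 + 2 * κ := by linarith only [h0]
  calc (exp (2 * κ))⁻¹ ≤ (1 + 2 * κ)⁻¹ := inv_anti₀ h3 h2
    _ ≤ 1 - κ := by
      rw [inv_le_iff_one_le_mul₀ h3]
      nlinarith only [h0, h1]

/-- the output of `new_lines` in terms of the bounds of `Lev` -/
theorem e2_lines (K γ : ℝ) : ∃ C x₁ : ℝ, 1 ≤ C ∧ 0 < x₁ ∧ x₁ ≤ 1 ∧
    ∀ {A σ : ℝ} {c : ℤ → ℂ} {Nb : ℝ} {N : ℕ} {g : ℂ → ℂ} {ω ω' X V S D T : ℝ},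
      Lev K γ A σ c Nb N g ω ω' X V S D T → 1 ≤ A → A * σ ≤ 1 → X ≤ x₁ → σ ≤ x₁ → σ * V ≤ x₁ →
      C * X ≤ 1 / 4 →
      HP (5 / 4 * cr K / N) (fun z => gnew (trunc c N) g ω ω' z - z) ∧
      (∀ t : ℝ, 2 / K * exp (-(S + 4 * C * X)) ≤ (deriv (gnew (trunc c N) g ω ω') t).re) ∧
      (∀ t : ℝ, (deriv (gnew (trunc c N) g ω ω') t).re ≤ K / 2 * exp (S + 4 * C * X)) ∧
      Bd (cr K / N) (deriv (deriv (gnew (trunc c N) g ω ω')))
        (N * ((1 + 2 * C * X) * (A * X) + 2 * C * X)) ∧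
      (∀ t : ℝ, ‖deriv (gnew (trunc c N) g ω ω') (t + ω') -
          deriv (gnew (trunc c N) g ω ω') t‖ ≤
          (1 + 2 * C * X) * D + C * (σ + X) / max (N : ℝ) Nb) ∧
      (∀ t : ℝ, ‖deriv (deriv (gnew (trunc c N) g ω ω')) (t + ω') /
          deriv (gnew (trunc c N) g ω ω') (t + ω') -
          deriv (deriv (gnew (trunc c N) g ω ω')) t / deriv (gnew (trunc c N) g ω ω') t‖ ≤
          (1 + 2 * C * X) * T + C * (3 * A * X)) ∧
      (∀ z ∈ Strip (cr K / N), ‖gnew (trunc c N) g ω ω' z - g z‖ ≤ 3 * C * (X + σ * V) / N ∧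
        ‖gnew (trunc c N) g ω ω' (z + ω') - g (z + ω)‖ ≤ 3 * C * (X + σ * V) / N ∧
        ‖deriv (gnew (trunc c N) g ω ω') z - deriv g z‖ ≤ 3 * C * (X + σ * V) ∧
        ‖deriv (gnew (trunc c N) g ω ω') (z + ω') - deriv g (z + ω)‖ ≤ 3 * C * (X + σ * V) ∧
        ‖(gnew (trunc c N) g ω ω' (z + ω') - gnew (trunc c N) g ω ω' z) - (g (z + ω) - g z)‖ ≤
          3 * C * (X + σ * V) / Nb) := by
  obtain ⟨C, x₅, hC, hx, hx1, hnl⟩ := new_lines K γ
  refine ⟨C, x₅, hC, hx, hx1, ?_⟩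
  intro A σ c Nb N g ω ω' X V S D T L hA hAσ hX hσ hσV hCX
  have p := L.pre
  have ctx := p.ctx
  have hK := ctx.K1
  have hX0 : 0 ≤ X := p.υ0
  have hσ0 : 0 ≤ σ := p.σ0
  have hV0 : 0 ≤ V := p.V00
  have hN1 : (1 : ℝ) ≤ N := ctx.N1
  have hN0 : (0 : ℝ) < N := by linarith only [hN1]
  have hNb : 0 < Nb := by
    have h1 := ctx.Nb1
    have h2 : 0 < 10 ^ 4 * K ^ 4 := by positivity
    linarith only [h1, h2]
  have hmax : 0 < max (N : ℝ) Nb := lt_max_of_lt_left hN0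
  have hxN := L.xN
  have hσX : σ * (A * X) ≤ X := by
    calc σ * (A * X) = (A * σ) * X := by ring
      _ ≤ 1 * X := mul_le_mul_of_nonneg_right hAσ hX0
      _ = X := one_mul X
  have hσX0 : 0 ≤ σ * (A * X) := by positivity
  have hσ1 : σ ≤ 1 := hσ.trans hx1
  have hσN : σ / N ≤ X := by
    calc σ / N ≤ 1 / N := by gcongr
      _ ≤ X := hxN
  have hσN0 : 0 ≤ σ / N := by positivity
  obtain ⟨h1, h2, h3, h4, h5, h6, h7⟩ := hnl p hX hσ hσV (hσX.trans hX)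
  have hκ0 : 0 ≤ C * (X + σ * (A * X)) := by positivity
  have hκ : C * (X + σ * (A * X)) ≤ 2 * C * X := by
    have a1 : C * (σ * (A * X)) ≤ C * X := mul_le_mul_of_nonneg_left hσX (by linarith only [hC])
    linarith only [a1]
  have hκ1 : C * (X + σ * (A * X)) ≤ 1 / 2 := by linarith only [hCX, hκ]
  have hsV : 0 ≤ σ * V := by positivity
  refine ⟨h1, ?_, ?_, ?_, ?_, ?_, ?_⟩
  · intro t
    have h8 := h2 (2 / K * exp (-S)) (by positivity) L.lo t
    refine le_trans ?_ h8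
    have h9 : exp (-(2 * (C * (X + σ * (A * X))))) ≤ 1 - C * (X + σ * (A * X)) :=
      e2_exp_neg hκ0 hκ1
    have h10 : exp (-(4 * C * X)) ≤ exp (-(2 * (C * (X + σ * (A * X))))) := by
      apply exp_le_exp.2; linarith only [hκ]
    calc 2 / K * exp (-(S + 4 * C * X)) = exp (-(4 * C * X)) * (2 / K * exp (-S)) := by
          rw [neg_add, exp_add]; ring
      _ ≤ (1 - C * (X + σ * (A * X))) * (2 / K * exp (-S)) :=
          mul_le_mul_of_nonneg_right (h10.trans h9) (by positivity)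
  · intro t
    have h8 := h3 (K / 2 * exp S) L.hi t
    refine h8.trans ?_
    have h9 : 1 + C * (X + σ * (A * X)) ≤ exp (4 * C * X) := by
      have := add_one_le_exp (4 * C * X)
      have : 0 ≤ C * X := by positivity
      linarith
    calc (1 + C * (X + σ * (A * X))) * (K / 2 * exp S) ≤ exp (4 * C * X) * (K / 2 * exp S) :=
          mul_le_mul_of_nonneg_right h9 (by positivity)
      _ = K / 2 * exp (S + 4 * C * X) := by rw [exp_add]; ring
  · refine e2_bd_mono h4 le_rfl ?_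
    have h8 : 0 ≤ A * X := by positivity
    gcongr
  · intro t
    refine (h5 D L.dD t).trans ?_
    have hD : 0 ≤ D := (norm_nonneg _).trans (L.dD 0)
    gcongr
  · intro t
    refine (h6 T L.dT t).trans ?_
    have hT : 0 ≤ T := (norm_nonneg _).trans (L.dT 0)
    have h8 : X + A * X + 1 / N ≤ 3 * A * X := by
      have a1 : 1 * X ≤ A * X := mul_le_mul_of_nonneg_right hA hX0
      linarith only [hxN, a1]
    gcongr
  · intro z hz
    obtain ⟨k1, k2, k3, k4, k5⟩ := h7 z hz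
    have hCC : 0 ≤ C * X := by positivity
    have e1 : C * (X + σ * V) ≤ 3 * C * (X + σ * V) := by
      have : 0 ≤ C * (X + σ * V) := by positivity
      linarith only [this]
    have e2 : C * (X + σ * V + σ / N) ≤ 3 * C * (X + σ * V) := by
      have a1 : C * (σ / N) ≤ C * X := mul_le_mul_of_nonneg_left hσN (by linarith only [hC])
      have a2 : 0 ≤ C * (σ * V) := by positivity
      linarith only [a1, a2, hCC]
    have e3 : C * (X + σ * V + σ * (A * X)) ≤ 3 * C * (X + σ * V) := by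
      have a1 : C * (σ * (A * X)) ≤ C * X := mul_le_mul_of_nonneg_left hσX (by linarith only [hC])
      have a2 : 0 ≤ C * (σ * V) := by positivity
      linarith only [a1, a2, hCC]
    have e4 : C * (X + σ * V + σ * (A * X) + σ / N) ≤ 3 * C * (X + σ * V) := by
      have a1 : C * (σ * (A * X)) ≤ C * X := mul_le_mul_of_nonneg_left hσX (by linarith only [hC])
      have a3 : C * (σ / N) ≤ C * X := mul_le_mul_of_nonneg_left hσN (by linarith only [hC])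
      have a2 : 0 ≤ C * (σ * V) := by positivity
      linarith only [a1, a2, a3, hCC]
    refine ⟨k1.trans ?_, k2.trans ?_, k3.trans e3, k4.trans e4, k5.trans ?_⟩
    · gcongr
    · gcongr
    · gcongr

/-- the new lines are a state -/
theorem e2_gs {K N Q A X X' S c₅ : ℝ} {g : ℂ → ℂ} (hK : 1 ≤ K) (hN : 1 ≤ N) (hQ : 16 ≤ Q)
    (hA : 1 ≤ A) (hX : 0 ≤ X) (hX' : X / 2 ≤ X') (hcA : c₅ ≤ A)
    (hcX : c₅ * X ≤ 1 / 4) (hS : S + 4 * c₅ * X ≤ 1 / 2)
    (h1 : HP (5 / 4 * cr K / N) (fun z => g z - z))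
    (h2 : ∀ t : ℝ, 2 / K * exp (-(S + 4 * c₅ * X)) ≤ (deriv g t).re)
    (h3 : ∀ t : ℝ, (deriv g t).re ≤ K / 2 * exp (S + 4 * c₅ * X))
    (h4 : Bd (cr K / N) (deriv (deriv g)) (N * ((1 + 2 * c₅ * X) * (A * X) + 2 * c₅ * X))) :
    GS K (Q * N) (A * X') g := by
  have hcr := e2_cr_pos hK
  have hN0 : 0 < N := by linarith only [hN]
  have hQ0 : 0 < Q := by linarith only [hQ]
  have hr : 4 * cr K / (Q * N) ≤ cr K / N := by
    rw [div_le_div_iff₀ (by positivity) hN0]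
    have : 0 < cr K * N := by positivity
    nlinarith only [this, hQ]
  have hr' : 4 * cr K / (Q * N) ≤ 5 / 4 * cr K / N := by
    refine hr.trans ?_
    rw [div_le_div_iff₀ hN0 hN0]
    have : 0 < cr K * N := by positivity
    nlinarith only [this]
  have hE1 : (1 : ℝ) / 2 ≤ exp (-(S + 4 * c₅ * X)) := by
    have h5 : exp (S + 4 * c₅ * X) ≤ 2 := (exp_le_exp.2 hS).trans e2_exp_half
    rw [exp_neg, one_div]
    exact inv_anti₀ (exp_pos _) h5
  have hE2 : exp (S + 4 * c₅ * X) ≤ 2 := (exp_le_exp.2 hS).trans e2_exp_half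
  refine ⟨hp_mono h1 hr', fun t => ?_, fun t => ?_, ?_⟩
  · refine le_trans ?_ (h2 t)
    calc 1 / K = 2 / K * (1 / 2) := by ring
      _ ≤ _ := mul_le_mul_of_nonneg_left hE1 (by positivity)
  · refine (h3 t).trans ?_
    calc K / 2 * exp (S + 4 * c₅ * X) ≤ K / 2 * 2 :=
          mul_le_mul_of_nonneg_left hE2 (by positivity)
      _ = K := by ring
  · refine e2_bd_mono h4 hr ?_
    have h5 : (1 + 2 * c₅ * X) * (A * X) + 2 * c₅ * X ≤ 4 * (A * X) := by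
      have h6 : 2 * c₅ * X ≤ 1 := by linarith only [hcX]
      have h7 : 0 ≤ A * X := by positivity
      have h8 : c₅ * X ≤ A * X := mul_le_mul_of_nonneg_right hcA hX
      have h9 : (1 + 2 * c₅ * X) * (A * X) ≤ (1 + 1 / 2) * (A * X) :=
        mul_le_mul_of_nonneg_right (by linarith only [hcX]) h7
      linarith only [h7, h8, h9]
    have h6 : 4 * (A * X) ≤ Q * (A * X') := by
      have h7 : A * (X / 2) ≤ A * X' := mul_le_mul_of_nonneg_left hX' (by linarith only [hA])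
      have h8 : 0 ≤ A * X := by positivity
      have h9 : 16 * (A * X') ≤ Q * (A * X') :=
        mul_le_mul_of_nonneg_right hQ (le_trans (by linarith only [h8]) h7)
      linarith only [h7, h8, h9]
    calc N * ((1 + 2 * c₅ * X) * (A * X) + 2 * c₅ * X) ≤ N * (Q * (A * X')) :=
          mul_le_mul_of_nonneg_left (h5.trans h6) hN0.le
      _ = Q * N * (A * X') := by ring

/-- the fresh block is small -/
theorem e2_block (Q : ℕ) (hQ : 16 ≤ Q) {K : ℝ} {c : ℤ → ℂ} (hc : Table K c) :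
    ∃ N₀ : ℕ, ∀ N : ℕ, N₀ ≤ N → Differentiable ℂ (blockF c N (Q * N)) ∧
      Bd (1 / (Q * N : ℝ)) (fun z => blockF c N (Q * N) z +
        deriv (deriv (blockF c N (Q * N))) z) (1 / N) := by
  have hQ1 : (1 : ℝ) ≤ Q := by
    have : (16 : ℝ) ≤ Q := by exact_mod_cast hQ
    linarith only [this]
  obtain ⟨C₀, hC₀, hb⟩ := block_bounds (Q : ℝ) hQ1
  obtain ⟨N₁, hN₁⟩ := blk_tail hc Q (by omega) 1 one_pos
  obtain ⟨N₂, hN₂⟩ := exists_nat_ge (4 * C₀ ^ 2)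
  refine ⟨max N₁ (max N₂ 1), fun N hN => ?_⟩
  have hNN₁ : N₁ ≤ N := (le_max_left _ _).trans hN
  have hNN₂ : N₂ ≤ N := ((le_max_left _ _).trans (le_max_right _ _)).trans hN
  have hN1 : 1 ≤ N := ((le_max_right _ _).trans (le_max_right _ _)).trans hN
  have hN1r : (1 : ℝ) ≤ N := by exact_mod_cast hN1
  have hN0 : (0 : ℝ) < N := by linarith only [hN1r]
  have hNQ : N ≤ Q * N := Nat.le_mul_of_pos_left N (by omega)
  obtain ⟨hd, hbd⟩ := hb c N (Q * N) hN1 hNQ (by push_cast; exact le_rfl)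
  refine ⟨hd, ?_⟩
  have hblk : blk c N (Q * N) ≤ 1 := by
    have h1 := hN₁ N hNN₁ 1
    rw [Finset.sum_range_one, pow_zero, one_mul, zero_add, pow_one] at h1
    have h2 : 0 ≤ blk c N (Q * N) := Real.sqrt_nonneg _
    nlinarith only [h1, h2]
  have hblk0 : 0 ≤ blk c N (Q * N) := Real.sqrt_nonneg _
  have hB : ((Q * N : ℕ) : ℝ) = Q * N := by push_cast; rfl
  have hB1 : (1 : ℝ) ≤ ((Q * N : ℕ) : ℝ) := by
    rw [hB]; nlinarith only [hQ1, hN1r]
  have h0 := hbd 0 (by norm_num)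
  have h2 := hbd 2 (by norm_num)
  intro z hz
  rw [← hB] at hz
  have h0z := h0 z hz
  have h2z := h2 z hz
  rw [iteratedDeriv_zero] at h0z
  rw [iteratedDeriv_succ, iteratedDeriv_one] at h2z
  set B : ℝ := ((Q * N : ℕ) : ℝ) with hBdef
  have hpow0 : B ^ (((0 : ℕ) : ℝ) - 7 / 2) ≤ (N : ℝ) ^ (-(3 / 2) : ℝ) := by
    calc B ^ (((0 : ℕ) : ℝ) - 7 / 2) ≤ B ^ (-(3 / 2) : ℝ) :=
          Real.rpow_le_rpow_of_exponent_le hB1 (by norm_num)
      _ ≤ (N : ℝ) ^ (-(3 / 2) : ℝ) := by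
          apply Real.rpow_le_rpow_of_nonpos hN0
          · rw [hB]; nlinarith only [hQ1]
          · norm_num
  have hpow2 : B ^ (((2 : ℕ) : ℝ) - 7 / 2) ≤ (N : ℝ) ^ (-(3 / 2) : ℝ) := by
    calc B ^ (((2 : ℕ) : ℝ) - 7 / 2) = B ^ (-(3 / 2) : ℝ) := by norm_num
      _ ≤ (N : ℝ) ^ (-(3 / 2) : ℝ) := by
          apply Real.rpow_le_rpow_of_nonpos hN0
          · rw [hB]; nlinarith only [hQ1]
          · norm_num
  have hkey : 2 * C₀ * (N : ℝ) ^ (-(3 / 2) : ℝ) ≤ 1 / N := by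
    have h3 : (N : ℝ) ^ (-(3 / 2) : ℝ) = 1 / N * (N : ℝ) ^ (-(1 / 2) : ℝ) := by
      rw [one_div, ← Real.rpow_neg_one, ← Real.rpow_add hN0]
      norm_num
    have h4 : 2 * C₀ * (N : ℝ) ^ (-(1 / 2) : ℝ) ≤ 1 := by
      rw [Real.rpow_neg hN0.le, ← Real.sqrt_eq_rpow, ← div_eq_mul_inv,
        div_le_one (Real.sqrt_pos.2 hN0)]
      apply Real.le_sqrt_of_sq_le
      have h5 : (N₂ : ℝ) ≤ N := by exact_mod_cast hNN₂
      nlinarith only [hN₂, h5]
    rw [h3]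
    calc 2 * C₀ * (1 / N * (N : ℝ) ^ (-(1 / 2) : ℝ)) =
          1 / N * (2 * C₀ * (N : ℝ) ^ (-(1 / 2) : ℝ)) := by ring
      _ ≤ 1 / N * 1 := mul_le_mul_of_nonneg_left h4 (by positivity)
      _ = 1 / N := mul_one _
  have hp0 : 0 ≤ (N : ℝ) ^ (-(3 / 2) : ℝ) := Real.rpow_nonneg hN0.le _
  have hm0 : C₀ * B ^ (((0 : ℕ) : ℝ) - 7 / 2) * blk c N (Q * N) ≤
      C₀ * (N : ℝ) ^ (-(3 / 2) : ℝ) * 1 := by
    gcongr
  have hm2 : C₀ * B ^ (((2 : ℕ) : ℝ) - 7 / 2) * blk c N (Q * N) ≤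
      C₀ * (N : ℝ) ^ (-(3 / 2) : ℝ) * 1 := by
    gcongr
  calc ‖blockF c N (Q * N) z + deriv (deriv (blockF c N (Q * N))) z‖
      ≤ ‖blockF c N (Q * N) z‖ + ‖deriv (deriv (blockF c N (Q * N))) z‖ := norm_add_le _ _
    _ ≤ 2 * C₀ * (N : ℝ) ^ (-(3 / 2) : ℝ) := by linarith only [h0z, h2z, hm0, hm2]
    _ ≤ 1 / N := hkey

/-- a small number -/
theorem e2_pick {m : ℝ} (hm : 0 < m) (l : List ℝ) (hl : ∀ t ∈ l, 0 ≤ t) :
    ∃ x : ℝ, 0 < x ∧ x ≤ m ∧ ∀ t ∈ l, 100 * (t * x) ≤ m := by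
  induction l with
  | nil => exact ⟨m, hm, le_rfl, by simp⟩
  | cons a l ih =>
    obtain ⟨x, hx, hxm, hxl⟩ := ih (fun t ht => hl t (List.mem_cons_of_mem _ ht))
    have ha : 0 ≤ a := hl a List.mem_cons_self
    have hpos : 0 < 100 * a + 1 := by positivity
    refine ⟨min x (m / (100 * a + 1)), lt_min hx (div_pos hm hpos), (min_le_left _ _).trans hxm, ?_⟩
    intro t ht
    rcases List.mem_cons.1 ht with rfl | ht
    · have h1 : min x (m / (100 * t + 1)) ≤ m / (100 * t + 1) := min_le_right _ _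
      have h2 : m / (100 * t + 1) * (100 * t + 1) = m := by field_simp
      have h3 : 0 ≤ m / (100 * t + 1) := (div_pos hm hpos).le
      calc 100 * (t * min x (m / (100 * t + 1))) ≤ 100 * (t * (m / (100 * t + 1))) := by gcongr
        _ = m / (100 * t + 1) * (100 * t + 1) - m / (100 * t + 1) := by ring
        _ ≤ m := by rw [h2]; linarith only [h3]
    · refine le_trans ?_ (hxl t ht)
      have h0 := hl t (List.mem_cons_of_mem _ ht)
      have h1 : min x (m / (100 * a + 1)) ≤ x := min_le_left _ _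
      gcongr

theorem e2_bu {c₇ V X σ A N Nb Q φ X' Vb x₁ : ℝ} (hc₇ : 1 ≤ c₇) (hV0 : 0 ≤ V) (hV : V ≤ Vb)
    (hVb : 1 ≤ Vb) (hX0 : 0 ≤ X) (hX : X ≤ x₁) (hσ0 : 0 ≤ σ) (hσ : σ ≤ x₁) (hA : 1 ≤ A)
    (hN : 0 < N) (hNb : 0 < Nb) (hQ : 1 ≤ Q) (hφX : X / 2 + φ ≤ X')
    (hNX : 1 / N ≤ X) (hsm : 100 * (c₇ * Q ^ 2 * Vb * A * x₁) ≤ 1) :
    c₇ * ((1 + V) * (X + σ) * (X + A * X + 1 / N)) / (Nb * N * max N Nb) +
      φ / (Nb * (Q * N) * max (Q * N) Nb) ≤ X' / (Nb * (Q * N) * max (Q * N) Nb) := by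
  have hmax : 0 < max N Nb := lt_max_of_lt_left hN
  have hQ0 : 0 < Q := by linarith only [hQ]
  have hQN0 : 0 < Q * N := by positivity
  have hmaxQ : 0 < max (Q * N) Nb := lt_max_of_lt_left hQN0
  have hmaxle' : max (Q * N) Nb ≤ Q * max N Nb := by
    refine max_le (mul_le_mul_of_nonneg_left (le_max_left _ _) hQ0.le) ?_
    have h1 : Nb ≤ max N Nb := le_max_right _ _
    have h2 : max N Nb ≤ Q * max N Nb := le_mul_of_one_le_left hmax.le hQ
    exact h1.trans h2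
  have hP : 0 < Nb * (Q * N) * max (Q * N) Nb := by positivity
  have hp : 0 < Nb * N * max N Nb := by positivity
  have hPp : Nb * (Q * N) * max (Q * N) Nb ≤ Q ^ 2 * (Nb * N * max N Nb) := by
    calc Nb * (Q * N) * max (Q * N) Nb ≤ Nb * (Q * N) * (Q * max N Nb) :=
          mul_le_mul_of_nonneg_left hmaxle' (by positivity)
      _ = _ := by ring
  have h1N : 0 < 1 / N := by positivity
  have hAX0 : 0 ≤ A * X := by positivity
  set W : ℝ := (1 + V) * (X + σ) * (X + A * X + 1 / N) with hW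
  have hW0 : 0 ≤ W := by positivity
  have hW1 : W ≤ 2 * Vb * (2 * x₁) * (3 * (A * X)) := by
    rw [hW]
    have hXA : X ≤ A * X := le_mul_of_one_le_left hX0 hA
    have h2 : X + A * X + 1 / N ≤ 3 * (A * X) := by linarith only [hXA, hNX]
    have h3 : X + σ ≤ 2 * x₁ := by linarith only [hX, hσ]
    have h4 : 1 + V ≤ 2 * Vb := by linarith only [hV, hVb]
    have hx₁ : 0 ≤ x₁ := hX0.trans hX
    have hVb0 : 0 ≤ Vb := by linarith only [hVb]
    have h5 : 0 ≤ 2 * Vb * (2 * x₁) := by positivity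
    gcongr
  have hW2 : c₇ * W * Q ^ 2 ≤ X / 2 := by
    calc c₇ * W * Q ^ 2 ≤ c₇ * (2 * Vb * (2 * x₁) * (3 * (A * X))) * Q ^ 2 := by
          gcongr
      _ = (100 * (c₇ * Q ^ 2 * Vb * A * x₁)) * (12 / 100 * X) := by ring
      _ ≤ 1 * (12 / 100 * X) := mul_le_mul_of_nonneg_right hsm (by positivity)
      _ ≤ X / 2 := by linarith only [hX0]
  have h5 : c₇ * W / (Nb * N * max N Nb) ≤ (X / 2) / (Nb * (Q * N) * max (Q * N) Nb) := by
    rw [div_le_div_iff₀ hp hP]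
    calc c₇ * W * (Nb * (Q * N) * max (Q * N) Nb)
        ≤ c₇ * W * (Q ^ 2 * (Nb * N * max N Nb)) :=
          mul_le_mul_of_nonneg_left hPp (by positivity)
      _ = (c₇ * W * Q ^ 2) * (Nb * N * max N Nb) := by ring
      _ ≤ X / 2 * (Nb * N * max N Nb) := mul_le_mul_of_nonneg_right hW2 hp.le
  calc c₇ * W / (Nb * N * max N Nb) + φ / (Nb * (Q * N) * max (Q * N) Nb)
      ≤ (X / 2) / (Nb * (Q * N) * max (Q * N) Nb) +
        φ / (Nb * (Q * N) * max (Q * N) Nb) := add_le_add_left h5 _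
    _ = (X / 2 + φ) / (Nb * (Q * N) * max (Q * N) Nb) := by rw [add_div]
    _ ≤ X' / (Nb * (Q * N) * max (Q * N) Nb) := by gcongr

theorem e2_r1 {c₆ X A N : ℝ} (hc₆ : 1 ≤ c₆) (hX0 : 0 ≤ X) (hA : 1 ≤ A) (hNX : 1 / N ≤ X) {C : ℝ}
    (hC : 10 * A * c₆ ≤ C) : c₆ * (X + A * X + 1 / N + 1 / N) ≤ C * X := by
  have hXA : X ≤ A * X := le_mul_of_one_le_left hX0 hA
  have h1 : X + A * X + 1 / N + 1 / N ≤ 4 * (A * X) := by linarith only [hXA, hNX]
  have h2 : 0 ≤ A * c₆ := by positivity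
  calc c₆ * (X + A * X + 1 / N + 1 / N) ≤ c₆ * (4 * (A * X)) :=
        mul_le_mul_of_nonneg_left h1 (by linarith only [hc₆])
    _ = 4 * A * c₆ * X := by ring
    _ ≤ C * X := mul_le_mul_of_nonneg_right (by linarith only [hC, h2]) hX0

theorem e2_r2 {c₆ X A N σ : ℝ} (hc₆ : 1 ≤ c₆) (hX0 : 0 ≤ X) (hNX : 1 / N ≤ X)
    (hs : σ * (A * X) ≤ X) (hXX : A * X ≤ 1) {C : ℝ} (hC : 5 * c₆ ≤ C) :
    c₆ * (X + σ * (A * X) + X * (A * X) + 1 / N + 1 / N) ≤ C * X := by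
  have h0 : X * (A * X) ≤ X := mul_le_of_le_one_right hX0 hXX
  have h1 : X + σ * (A * X) + X * (A * X) + 1 / N + 1 / N ≤ 5 * X := by
    linarith only [h0, hs, hNX]
  calc c₆ * (X + σ * (A * X) + X * (A * X) + 1 / N + 1 / N) ≤ c₆ * (5 * X) :=
        mul_le_mul_of_nonneg_left h1 (by linarith only [hc₆])
    _ = 5 * c₆ * X := by ring
    _ ≤ C * X := mul_le_mul_of_nonneg_right hC hX0

theorem e2_bv1 {c₆ X A N σ Nb Q X' x₁ : ℝ} (hc₆ : 1 ≤ c₆) (hX0 : 0 ≤ X) (hX : X ≤ x₁)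
    (hσ : σ ≤ x₁) (hA : 1 ≤ A) (hN : 0 < N) (hQ : 16 ≤ Q) (hNX : 1 / N ≤ X)
    (hs : σ * (A * X) ≤ X) (hXX : A * X ≤ 1) (hcA : 5 * c₆ ≤ A)
    (hsm : 100 * (A * c₆ * x₁) ≤ 1) (hX' : X / 2 ≤ X') :
    N * max N Nb * ((1 + c₆ * (X + σ + A * X + 1 / N + 1 / N)) * (A * X) +
      c₆ * (X + σ * (A * X) + X * (A * X) + 1 / N + 1 / N)) ≤
    Q * N * max (Q * N) Nb * (A * X') := by
  have hx₁ : 0 ≤ x₁ := hX0.trans hX
  have hAX0 : 0 ≤ A * X := by positivity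
  have hmax : 0 < max N Nb := lt_max_of_lt_left hN
  have hQ0 : 0 < Q := by linarith only [hQ]
  have hQN : N ≤ Q * N := le_mul_of_one_le_left hN.le (by linarith only [hQ])
  have hmaxle : max N Nb ≤ max (Q * N) Nb := max_le_max hQN le_rfl
  have h2 : c₆ * (X + σ + A * X + 1 / N + 1 / N) ≤ 1 := by
    have h3 : X + σ + A * X + 1 / N + 1 / N ≤ 5 * (A * x₁) := by
      have h4 : A * X ≤ A * x₁ := mul_le_mul_of_nonneg_left hX (by linarith only [hA])
      have h5 : x₁ ≤ A * x₁ := le_mul_of_one_le_left hx₁ hA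
      linarith only [h4, h5, hX, hσ, hNX]
    have h6 : 0 ≤ A * c₆ * x₁ := by positivity
    calc c₆ * (X + σ + A * X + 1 / N + 1 / N) ≤ c₆ * (5 * (A * x₁)) :=
          mul_le_mul_of_nonneg_left h3 (by linarith only [hc₆])
      _ = A * c₆ * x₁ * 5 := by ring
      _ ≤ 1 := by linarith only [h6, hsm]
  have h3 := e2_r2 hc₆ hX0 hNX hs hXX hcA
  have h4 : (1 + c₆ * (X + σ + A * X + 1 / N + 1 / N)) * (A * X) +
      c₆ * (X + σ * (A * X) + X * (A * X) + 1 / N + 1 / N) ≤ 3 * (A * X) := by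
    have h5 : (1 + c₆ * (X + σ + A * X + 1 / N + 1 / N)) * (A * X) ≤ 2 * (A * X) :=
      mul_le_mul_of_nonneg_right (by linarith only [h2]) hAX0
    linarith only [h5, h3]
  have h5 : 3 * (A * X) ≤ Q * (A * X') := by
    have h6 : A * (X / 2) ≤ A * X' := mul_le_mul_of_nonneg_left hX' (by linarith only [hA])
    have h7 : 16 * (A * X') ≤ Q * (A * X') := by
      apply mul_le_mul_of_nonneg_right hQ
      linarith only [h6, hAX0]
    linarith only [h6, h7, hAX0]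
  have h0 : 0 ≤ Q * (A * X') := by linarith only [h5, hAX0]
  calc N * max N Nb * ((1 + c₆ * (X + σ + A * X + 1 / N + 1 / N)) * (A * X) +
        c₆ * (X + σ * (A * X) + X * (A * X) + 1 / N + 1 / N))
      ≤ N * max N Nb * (Q * (A * X')) :=
        mul_le_mul_of_nonneg_left (h4.trans h5) (by positivity)
    _ ≤ N * max (Q * N) Nb * (Q * (A * X')) := by
        apply mul_le_mul_of_nonneg_right _ h0
        exact mul_le_mul_of_nonneg_left hmaxle hN.le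
    _ = Q * N * max (Q * N) Nb * (A * X') := by ring

end Pool.Agent.MP_b87ea9_an.Kam
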