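import Mathlib
import Pool.Agent.Lib.MP_b87ea9_an.KE2a

set_option autoImplicit false

/-! One step of the iteration in terms of the scalar bounds -/

namespace Pool.Agent.MP_b87ea9_an.Kam

open Real MeasureTheory

theorem advance (K γ Vb : ℝ) (Q : ℕ) (hK : 1 ≤ K) (hγ : 0 < γ) (hγ1 : γ ≤ 1) (hVb : 1 ≤ Vb)
    (hQ : 16 ≤ Q) : ∃ A σ₁ x₁ C : ℝ, 1 ≤ A ∧ 0 < σ₁ ∧ σ₁ ≤ 1 ∧ 0 < x₁ ∧ x₁ ≤ 1 ∧ 1 ≤ C ∧
      ∀ (K₀ : ℝ) (c : ℤ → ℂ), Table K₀ c → 10 * K₀ ≤ K → ∃ N₁ : ℕ, ∀ N : ℕ, N₁ ≤ N →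
        ∀ (Nb ω ω' ω'' σ X V S D T φ : ℝ) (g : ℂ → ℂ), 0 ≤ σ → σ ≤ σ₁ →
          Lev K γ A σ c Nb N g ω ω' X V S D T → X ≤ x₁ → V ≤ Vb → 0 ≤ S → S + C * X ≤ 1 / 2 →
          Rot γ Nb ω'' →
          |ω'' - ω'| ≤ σ / (((Q * N : ℕ) : ℝ) * max ((Q * N : ℕ) : ℝ) Nb) → 0 ≤ φ →
          A * (X / 2 + C * (φ + 1 / N)) ≤ 1 →
          Bd (2 * cr K / (Q * N : ℕ)) (invD ω'' (fun z =>
            FF (blockF c N (Q * N)) (gnew (trunc c N) g ω ω') ω' (z + ω'')))
              (φ / (Nb * (Q * N : ℕ) * max ((Q * N : ℕ) : ℝ) Nb)) →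
          Lev K γ A σ c Nb (Q * N) (gnew (trunc c N) g ω ω') ω' ω'' (X / 2 + C * (φ + 1 / N))
            (max (N : ℝ) Nb / max ((Q * N : ℕ) : ℝ) Nb * ((1 + C * X) * V + C * X)) (S + C * X)
            ((1 + C * X) * D + C * (σ + X) / max (N : ℝ) Nb) ((1 + C * X) * T + C * X) := by
  have hQr : (16 : ℝ) ≤ Q := by exact_mod_cast hQ
  obtain ⟨c₅, x₅, hc₅, hx₅, hx₅1, hlines⟩ := e2_lines K γ
  obtain ⟨c₆, x₆, hc₆, hx₆, hx₆1, hresp⟩ := new_response K γ Q (by linarith only [hQr])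
  obtain ⟨c₇, x₇, hc₇, hx₇, hx₇1, huu⟩ := new_uu K γ Q (by linarith only [hQr])
  obtain ⟨A, hA⟩ : ∃ A : ℝ, A = c₅ + 5 * c₆ := ⟨_, rfl⟩
  have hA1 : 1 ≤ A := by rw [hA]; linarith only [hc₅, hc₆]
  have hA0 : 0 < A := by linarith only [hA1]
  have hcA5 : c₅ ≤ A := by rw [hA]; linarith only [hc₆]
  have hcA6 : 5 * c₆ ≤ A := by rw [hA]; linarith only [hc₅]
  obtain ⟨m, hm0, hm5, hm6, hm7⟩ : ∃ m : ℝ, 0 < m ∧ m ≤ x₅ ∧ m ≤ x₆ ∧ m ≤ x₇ :=
    ⟨min x₅ (min x₆ x₇), lt_min hx₅ (lt_min hx₆ hx₇), min_le_left _ _,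
      (min_le_right _ _).trans (min_le_left _ _), (min_le_right _ _).trans (min_le_right _ _)⟩
  have hm1 : m ≤ 1 := hm5.trans hx₅1
  obtain ⟨x₁, hx₁0, hx₁m, hpick⟩ := e2_pick hm0 [A, Vb, c₅, A * c₆, c₇ * (Q : ℝ) ^ 2 * Vb * A] (by
    intro t ht
    simp only [List.mem_cons, List.mem_nil_iff, or_false] at ht
    rcases ht with rfl | rfl | rfl | rfl | rfl <;> positivity)
  have q1 : 100 * (A * x₁) ≤ m := hpick _ (by simp)
  have q2 : 100 * (Vb * x₁) ≤ m := hpick _ (by simp)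
  have q3 : 100 * (c₅ * x₁) ≤ m := hpick _ (by simp)
  have q4 : 100 * (A * c₆ * x₁) ≤ m := hpick _ (by simp)
  have q5 : 100 * (c₇ * (Q : ℝ) ^ 2 * Vb * A * x₁) ≤ m := hpick _ (by simp)
  clear hpick
  have q0 : 100 * x₁ ≤ m := by
    have : x₁ ≤ A * x₁ := le_mul_of_one_le_left hx₁0.le hA1
    linarith only [this, q1]
  obtain ⟨C, hC⟩ : ∃ C : ℝ, C = 10 * A * c₅ + 10 * A * c₆ := ⟨_, rfl⟩
  have hAc5 : c₅ ≤ A * c₅ := le_mul_of_one_le_left (by linarith only [hc₅]) hA1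
  have hAc6 : c₆ ≤ A * c₆ := le_mul_of_one_le_left (by linarith only [hc₆]) hA1
  have hCa : 10 * A * c₅ ≤ C := by rw [hC]; linarith only [hAc6, hc₆]
  have hCb : 10 * A * c₆ ≤ C := by rw [hC]; linarith only [hAc5, hc₅]
  have hCa' : 10 * c₅ ≤ C := by linarith only [hAc5, hCa]
  have hCb' : 10 * c₆ ≤ C := by linarith only [hAc6, hCb]
  have hC1 : 1 ≤ C := by linarith only [hCa', hc₅]
  refine ⟨A, x₁, x₁, C, hA1, hx₁0, by linarith only [hx₁m, hm1], hx₁0,
    by linarith only [hx₁m, hm1], hC1, ?_⟩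
  clear hA hC
  intro K₀ c hc hKK
  obtain ⟨N₀, hN₀⟩ := tb_trunc hc
  obtain ⟨N₂, hN₂⟩ := e2_block Q hQ hc
  refine ⟨max N₀ N₂, fun N hN => ?_⟩
  intro Nb ω ω' ω'' σ X V S D T φ g hσ0 hσ L hX hV hS hSC hrot hdom hφ hAX' hfresh
  have hNN₀ : N₀ ≤ N := (le_max_left _ _).trans hN
  have hNN₂ : N₂ ≤ N := (le_max_right _ _).trans hN
  obtain ⟨hdblk, hblk⟩ := hN₂ N hNN₂
  have p := L.pre
  have ctx := p.ctx
  have hX0 : 0 ≤ X := p.υ0
  have hV0 : 0 ≤ V := p.V00
  have hN1 : (1 : ℝ) ≤ N := ctx.N1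
  have hN0 : (0 : ℝ) < N := by linarith only [hN1]
  have hNb1 := ctx.Nb1
  have hNb : 0 < Nb := by
    have h2 : 0 < 10 ^ 4 * K ^ 4 := by positivity
    linarith only [h2, hNb1]
  have hQ0 : (0 : ℝ) < Q := by linarith only [hQr]
  have hQNr : ((Q * N : ℕ) : ℝ) = Q * N := Nat.cast_mul Q N
  have hQN : (N : ℝ) ≤ Q * N := le_mul_of_one_le_left hN0.le (by linarith only [hQr])
  have hQN0 : (0 : ℝ) < Q * N := by positivity
  have hNQ : N ≤ Q * N := Nat.le_mul_of_pos_left N (by omega)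
  have hmax : 0 < max (N : ℝ) Nb := lt_max_of_lt_left hN0
  have hmaxQ : 0 < max ((Q : ℝ) * N) Nb := lt_max_of_lt_left hQN0
  have hmaxle : max (N : ℝ) Nb ≤ max ((Q : ℝ) * N) Nb := max_le_max hQN le_rfl
  have hxN := L.xN
  rw [hQNr] at hdom hfresh ⊢
  obtain ⟨g', hg'⟩ : ∃ g' : ℂ → ℂ, g' = gnew (trunc c N) g ω ω' := ⟨_, rfl⟩
  obtain ⟨X', hX'⟩ : ∃ X' : ℝ, X' = X / 2 + C * (φ + 1 / N) := ⟨_, rfl⟩
  have h1N : (0 : ℝ) < 1 / N := by positivity
  have hCφ : φ + 1 / N ≤ C * (φ + 1 / N) := le_mul_of_one_le_left (by positivity) hC1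
  have hX'0 : X / 2 ≤ X' := by rw [hX']; linarith only [hCφ, hφ, h1N]
  have hX'φ : X / 2 + φ ≤ X' := by rw [hX']; linarith only [hCφ, h1N]
  have hX'N : 1 / (N : ℝ) ≤ X' := by rw [hX']; linarith only [hCφ, hφ, hX0]
  have hX'nn : 0 ≤ X' := h1N.le.trans hX'N
  -- smallness facts
  have s1 : A * X ≤ m / 100 := by
    have := mul_le_mul_of_nonneg_left hX hA0.le
    linarith only [this, q1]
  have s2 : X ≤ m / 100 := by linarith only [hX, q0]
  have s3 : σ ≤ m / 100 := by linarith only [hσ, q0]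
  have s4 : σ * V ≤ m / 100 := by
    have : σ * V ≤ x₁ * Vb := mul_le_mul hσ hV hV0 hx₁0.le
    linarith only [this, q2]
  have s5 : A * σ ≤ 1 := by
    have := mul_le_mul_of_nonneg_left hσ hA0.le
    linarith only [this, q1, hm1, hm0]
  have hAX0 : 0 ≤ A * X := by positivity
  have s6 : σ * (A * X) ≤ X := by
    calc σ * (A * X) = (A * σ) * X := by ring
      _ ≤ 1 * X := mul_le_mul_of_nonneg_right s5 hX0
      _ = X := one_mul X
  have s7 : c₅ * X ≤ 1 / 4 := by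
    have := mul_le_mul_of_nonneg_left hX (show 0 ≤ c₅ by linarith only [hc₅])
    linarith only [this, q3, hm1]
  have s8 : A * X ≤ 1 := by linarith only [s1, hm1]
  have hCX : 4 * c₅ * X ≤ C * X := mul_le_mul_of_nonneg_right (by linarith only [hCa', hc₅]) hX0
  have hCX2 : 2 * c₅ * X ≤ C * X := mul_le_mul_of_nonneg_right (by linarith only [hCa', hc₅]) hX0
  have hCX0 : 0 ≤ C * X := by positivity
  have t5 : m / 100 ≤ x₅ := by linarith only [hm5, hm0]
  have t6 : m / 100 ≤ x₆ := by linarith only [hm6, hm0]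
  have t7 : m / 100 ≤ x₇ := by linarith only [hm7, hm0]
  obtain ⟨k1, k2, k3, k4, k5, k6, _⟩ := hlines L hA1 s5 (s2.trans t5) (s3.trans t5)
    (s4.trans t5) s7
  rw [← hg'] at k1 k2 k3 k4 k5 k6
  rw [← hg'] at hfresh ⊢
  rw [← hX'] at hAX' ⊢
  have hgs : GS K (Q * N) (A * X') g' :=
    e2_gs hK hN1 hQr hA1 hX0 hX'0 hcA5 s7 (by linarith only [hSC, hCX]) k1 k2 k3 k4
  -- tables
  have htb : Tb K (Q * N) (trunc c (Q * N)) := by
    have := hN₀ K hKK (Q * N) (hNN₀.trans hNQ)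
    rwa [hQNr] at this
  have htb' : Tb K (Q * N) (trunc c N) := e2_tb_mono (by linarith only [hK]) hN0 hQN ctx.tb
  have hctxs : ∀ h', Tb K (Q * N) h' → Ctx K γ (Q * N) Nb (A * X') ω' h' g' := fun h' ht =>
    { K1 := hK, γ0 := hγ, γ1 := hγ1, N1 := hN1.trans hQN, Nb1 := hNb1, J0 := by positivity,
      J1 := hAX', lo := p.rot.lo, hi := p.rot.hi, tb := ht, gs := hgs }
  have hsum : (fun z => trunc c N z + blockF c N (Q * N) z) = trunc c (Q * N) :=
    funext fun z => (trunc_block hNQ z).symm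
  have hctx : Ctx K γ (Q * N) Nb (A * X') ω' (trunc c (Q * N)) g' := hctxs _ htb
  have hctx' : Ctx K γ (Q * N) Nb (A * X') ω' (fun z => trunc c N z + blockF c N (Q * N) z) g' := by
    rw [hsum]; exact hctx
  have hHPF : HP (4 * cr K / (Q * N)) (FF (blockF c N (Q * N)) g' ω') := by
    have h1 := hp_sub (hp_FF hctx) (hp_FF (hctxs _ htb'))
    have h2 : (fun z => FF (trunc c (Q * N)) g' ω' z - FF (trunc c N) g' ω' z) =
        FF (blockF c N (Q * N)) g' ω' := by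
      funext z
      rw [← hsum, e2_FF_add ctx.tb.hol hdblk, add_sub_cancel_left]
    rwa [h2] at h1
  have hdom' : |ω'' - ω'| ≤ σ / (N * max (N : ℝ) Nb) := by
    refine hdom.trans ?_
    apply div_le_div_of_nonneg_left hσ0 (by positivity)
    exact mul_le_mul hQN hmaxle hmax.le hQN0.le
  rw [hg'] at hctx' hHPF
  rw [hg'] at hfresh
  -- the error
  have hbu : Bd (2 * cr K / (Q * N)) (uu (trunc c (Q * N)) g' ω' ω'')
      (X' / (Nb * (Q * N) * max ((Q : ℝ) * N) Nb)) := by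
    have h1 := huu p (s2.trans t7) (s3.trans t7) (s4.trans t7) (s6.trans (s2.trans t7))
      (blockF c N (Q * N)) ω'' (A * X') _ hctx' hdblk hrot hdom' hHPF hfresh
    rw [hsum, ← hg'] at h1
    exact e2_bd_mono h1 le_rfl (e2_bu hc₇ hV0 hV hVb hX0 hX hσ0 hσ hA1 hN0 hNb
      (by linarith only [hQr]) hX'φ hxN (q5.trans hm1))
  -- the response
  obtain ⟨hbv, hbv1⟩ := hresp p (s2.trans t6) (s3.trans t6) (s1.trans t6) (s4.trans t6)
    (hxN.trans (s2.trans t6)) (blockF c N (Q * N)) ω'' (A * X') (1 / N) hctx' hdblk hrot hdom'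
    h1N.le (hxN.trans (s2.trans t6)) hblk
  rw [hsum, ← hg'] at hbv hbv1
  have hV' : 0 ≤ max (N : ℝ) Nb / max ((Q : ℝ) * N) Nb * ((1 + C * X) * V + C * X) := by
    positivity
  refine
    { pre :=
        { ctx := ?_, rot := hrot, σ0 := hσ0, υ0 := hX'nn, V00 := hV', V10 := by positivity,
          dom := ?_, bu := ?_, bv := ?_, bv1 := ?_ }
      rot := p.rot
      xN := ?_
      lo := ?_
      hi := ?_
      dD := ?_
      dT := ?_ }
  · rw [hQNr]; exact hctx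
  · rw [hQNr]; exact hdom
  · rw [hQNr]; exact hbu
  · rw [hQNr]
    refine e2_bd_mono hbv le_rfl ?_
    have h1 : max ((Q : ℝ) * N) Nb *
        (max (N : ℝ) Nb / max ((Q : ℝ) * N) Nb * ((1 + C * X) * V + C * X)) =
        max (N : ℝ) Nb * ((1 + C * X) * V + C * X) := by
      field_simp
    rw [h1]
    apply mul_le_mul_of_nonneg_left _ hmax.le
    have h2 := e2_r1 hc₆ hX0 hA1 hxN hCb
    have h3 : c₆ * (X + σ * (A * X) + X * (A * X) + 1 / N + 1 / N) ≤ C * X :=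
      e2_r2 hc₆ hX0 hxN s6 s8 (by linarith only [hCb', hc₆])
    have h4 : (1 + c₆ * (X + A * X + 1 / N + 1 / N)) * V ≤ (1 + C * X) * V :=
      mul_le_mul_of_nonneg_right (by linarith only [h2]) hV0
    exact add_le_add h4 h3
  · rw [hQNr]
    exact e2_bd_mono hbv1 le_rfl (e2_bv1 hc₆ hX0 hX hσ hA1 hN0 hQr hxN s6 s8 hcA6
      (q4.trans hm1) hX'0)
  · rw [hQNr]
    exact (one_div_le_one_div_of_le hN0 hQN).trans hX'N
  · intro t
    refine le_trans ?_ (k2 t)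
    apply mul_le_mul_of_nonneg_left _ (by positivity)
    apply exp_le_exp.2
    linarith only [hCX]
  · intro t
    refine (k3 t).trans ?_
    apply mul_le_mul_of_nonneg_left _ (by positivity)
    apply exp_le_exp.2
    linarith only [hCX]
  · intro t
    refine (k5 t).trans ?_
    have hD : 0 ≤ D := (norm_nonneg _).trans (L.dD 0)
    have h2 : c₅ * (σ + X) ≤ C * (σ + X) :=
      mul_le_mul_of_nonneg_right (by linarith only [hCa', hc₅]) (by positivity)
    have h3 : (1 + 2 * c₅ * X) * D ≤ (1 + C * X) * D :=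
      mul_le_mul_of_nonneg_right (by linarith only [hCX2]) hD
    exact add_le_add h3 (div_le_div_of_nonneg_right h2 hmax.le)
  · intro t
    refine (k6 t).trans ?_
    have hT : 0 ≤ T := (norm_nonneg _).trans (L.dT 0)
    have h2 : c₅ * (3 * A * X) ≤ C * X := by
      have h3 : c₅ * (3 * A * X) = 3 * A * c₅ * X := by ring
      rw [h3]
      have h4 : 0 ≤ A * c₅ := by positivity
      exact mul_le_mul_of_nonneg_right (by linarith only [hCa, h4]) hX0
    have h3 : (1 + 2 * c₅ * X) * T ≤ (1 + C * X) * T :=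
      mul_le_mul_of_nonneg_right (by linarith only [hCX2]) hT
    exact add_le_add h3 h2

/-- the new lines form a `Dif K`; distances needed for the telescoping -/
theorem advance_dif (K γ Vb : ℝ) (Q : ℕ) (hK : 1 ≤ K) (hγ : 0 < γ) (hγ1 : γ ≤ 1) (hVb : 1 ≤ Vb)
    (hQ : 16 ≤ Q) (A : ℝ) (hA : 1 ≤ A) : ∃ σ₁ x₁ C : ℝ, 0 < σ₁ ∧ σ₁ ≤ 1 ∧ 0 < x₁ ∧ x₁ ≤ 1 ∧ 1 ≤ C ∧
      ∀ (c : ℤ → ℂ) (N : ℕ) (Nb ω ω' σ X V S D T : ℝ) (g : ℂ → ℂ), 0 ≤ σ → σ ≤ σ₁ →
          Lev K γ A σ c Nb N g ω ω' X V S D T → X ≤ x₁ → V ≤ Vb → 0 ≤ S → S + C * X ≤ 1 / 2 →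
          Dif K (4 * cr K / (Q * N : ℕ)) g ∧ HP (4 * cr K / (Q * N : ℕ)) (fun z => g z - z) ∧
          Dif K (4 * cr K / (Q * N : ℕ)) (gnew (trunc c N) g ω ω') ∧
          HP (4 * cr K / (Q * N : ℕ)) (fun z => gnew (trunc c N) g ω ω' z - z) ∧
          (∀ z ∈ Strip (4 * cr K / (Q * N : ℕ)),
            ‖gnew (trunc c N) g ω ω' z - g z‖ ≤ C * (X + σ * V) / N ∧
            ‖gnew (trunc c N) g ω ω' (z + ω') - g (z + ω)‖ ≤ C * (X + σ * V) / N ∧
            ‖deriv (gnew (trunc c N) g ω ω') z - deriv g z‖ ≤ C * (X + σ * V) ∧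
            ‖deriv (gnew (trunc c N) g ω ω') (z + ω') - deriv g (z + ω)‖ ≤ C * (X + σ * V) ∧
            ‖(gnew (trunc c N) g ω ω' (z + ω') - gnew (trunc c N) g ω ω' z) -
              (g (z + ω) - g z)‖ ≤ C * (X + σ * V) / Nb) := by
  have hQr : (16 : ℝ) ≤ Q := by exact_mod_cast hQ
  obtain ⟨c₅, x₅, hc₅, hx₅, hx₅1, hlines⟩ := e2_lines K γ
  have hA0 : 0 < A := by linarith
  set E : ℝ := 100 * (A * (Vb * c₅)) with hE
  have hE1 : 1 ≤ Vb * c₅ := one_le_mul_of_one_le_of_one_le hVb hc₅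
  have hE2 : 1 ≤ A * (Vb * c₅) := one_le_mul_of_one_le_of_one_le hA hE1
  have hE0 : 0 < E := by rw [hE]; linarith
  set x₁ : ℝ := x₅ / E with hx₁
  have hx₁0 : 0 < x₁ := div_pos hx₅ hE0
  have hxE : x₁ * E = x₅ := by rw [hx₁]; field_simp
  have q0 : 100 * (Vb * c₅ * x₁) ≤ x₅ := by
    have h1 : 100 * (Vb * c₅) ≤ E := by
      rw [hE]
      have : Vb * c₅ ≤ A * (Vb * c₅) := le_mul_of_one_le_left (by positivity) hA
      linarith
    have := mul_le_mul_of_nonneg_left h1 hx₁0.le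
    linarith only [this, hxE]
  have q1 : 100 * (A * x₁) ≤ x₅ := by
    have h1 : 100 * A ≤ E := by
      rw [hE]
      have : A ≤ A * (Vb * c₅) := le_mul_of_one_le_right hA0.le hE1
      linarith
    have := mul_le_mul_of_nonneg_left h1 hx₁0.le
    linarith only [this, hxE]
  have q2 : 100 * (c₅ * x₁) ≤ x₅ := by
    have : c₅ * x₁ ≤ Vb * c₅ * x₁ :=
      mul_le_mul_of_nonneg_right (le_mul_of_one_le_left (by linarith only [hc₅]) hVb) hx₁0.le
    linarith only [this, q0]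
  have q3 : 100 * (Vb * x₁) ≤ x₅ := by
    have : Vb * x₁ ≤ Vb * c₅ * x₁ :=
      mul_le_mul_of_nonneg_right (le_mul_of_one_le_right (by linarith only [hVb]) hc₅) hx₁0.le
    linarith only [this, q0]
  have q4 : 100 * x₁ ≤ x₅ := by
    have : x₁ ≤ c₅ * x₁ := le_mul_of_one_le_left hx₁0.le hc₅
    linarith only [this, q2]
  refine ⟨x₁, x₁, 4 * c₅, hx₁0, by linarith only [q4, hx₅1, hx₁0], hx₁0,
    by linarith only [q4, hx₅1, hx₁0], by linarith only [hc₅], ?_⟩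
  intro c N Nb ω ω' σ X V S D T g hσ0 hσ L hX hV hS hSC
  have p := L.pre
  have ctx := p.ctx
  have hX0 : 0 ≤ X := p.υ0
  have hV0 : 0 ≤ V := p.V00
  have hN1 : (1 : ℝ) ≤ N := ctx.N1
  have hN0 : (0 : ℝ) < N := by linarith only [hN1]
  have hcr := e2_cr_pos hK
  have hQNr : ((Q * N : ℕ) : ℝ) = Q * N := Nat.cast_mul Q N
  have hNb : 0 < Nb := by
    have h1 := ctx.Nb1
    have h2 : 0 < 10 ^ 4 * K ^ 4 := by positivity
    linarith only [h1, h2]
  have s2 : X ≤ x₅ / 100 := by linarith only [hX, q4]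
  have s4 : σ * V ≤ x₅ / 100 := by
    calc σ * V ≤ x₁ * Vb := mul_le_mul hσ hV hV0 hx₁0.le
      _ ≤ x₅ / 100 := by linarith only [q3]
  have s5 : A * σ ≤ 1 := by
    have := mul_le_mul_of_nonneg_left hσ hA0.le
    linarith only [this, q1, hx₅1, hx₅]
  have s7 : c₅ * X ≤ 1 / 100 := by
    have := mul_le_mul_of_nonneg_left hX (show 0 ≤ c₅ by linarith only [hc₅])
    linarith only [this, q2, hx₅1]
  have hAX0 : 0 ≤ A * X := by positivity
  obtain ⟨k1, k2, k3, k4, k5, k6, k7⟩ := hlines L hA s5 (by linarith only [s2, hx₅])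
    (by linarith only [hσ, q4, hx₅]) (by linarith only [s4, hx₅]) (by linarith only [s7])
  set g' : ℂ → ℂ := gnew (trunc c N) g ω ω' with hg'
  have hr : 4 * cr K / ((Q * N : ℕ) : ℝ) ≤ cr K / N := by
    rw [hQNr, div_le_div_iff₀ (by positivity) hN0]
    have : 0 < cr K * N := by positivity
    calc 4 * cr K * N = 4 * (cr K * N) := by ring
      _ ≤ Q * (cr K * N) := mul_le_mul_of_nonneg_right (by linarith only [hQr]) this.le
      _ = cr K * (Q * N) := by ring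
  have hr4 : 4 * cr K / ((Q * N : ℕ) : ℝ) ≤ 4 * cr K / N := by
    refine hr.trans ?_
    rw [div_le_div_iff₀ hN0 hN0]
    have : 0 < cr K * N := by positivity
    linarith only [this]
  have hr5 : 4 * cr K / ((Q * N : ℕ) : ℝ) ≤ 5 / 4 * cr K / N := by
    refine hr.trans ?_
    rw [div_le_div_iff₀ hN0 hN0]
    have : 0 < cr K * N := by positivity
    linarith only [this]
  have hdg : Dif K (4 * cr K / N) g := gs_dif ctx
  have hexp : exp (S + 4 * c₅ * X) ≤ 2 := (exp_le_exp.2 hSC).trans e2_exp_half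
  have hpos : ∀ t : ℝ, 1 / K ≤ (deriv g' t).re := by
    intro t
    refine le_trans ?_ (k2 t)
    have hE1 : (1 : ℝ) / 2 ≤ exp (-(S + 4 * c₅ * X)) := by
      rw [exp_neg, one_div]
      exact inv_anti₀ (exp_pos _) hexp
    calc 1 / K = 2 / K * (1 / 2) := by ring
      _ ≤ _ := mul_le_mul_of_nonneg_left hE1 (by positivity)
  have hHP' : HP (4 * cr K / ((Q * N : ℕ) : ℝ)) (fun z => g' z - z) := hp_mono k1 hr5
  have hper' : ∀ z, g' (z + 2 * π) = g' z + 2 * π := by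
    intro z
    have h1 : g' (z + 2 * π) - (z + 2 * π) = g' z - z := hHP'.per z
    linear_combination h1
  have hreal : ∀ t : ℝ, (g' t).im = 0 := by
    intro t
    have := hp_real hHP' t
    simpa using this
  refine ⟨?_, hp_mono ctx.gs.hp hr4, ?_, hHP', ?_⟩
  · exact ⟨fun z hz => (hdg.hol z (lt_of_lt_of_le hz hr4)).mono
      (fun w hw => lt_of_lt_of_le hw hr4), hdg.per, hdg.re, hdg.lo, e2_bd_mono hdg.bd hr4 le_rfl⟩
  · refine ⟨?_, hper', hreal, hpos, ?_⟩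
    · have h1 : DifferentiableOn ℂ (fun z => (g' z - z) + z) (Strip (4 * cr K / ((Q * N : ℕ) : ℝ))) :=
        hHP'.hol.add differentiableOn_id
      have h2 : (fun z => (g' z - z) + z) = g' := by funext z; ring
      rwa [h2] at h1
    · intro z hz
      have hz' : z ∈ Strip (cr K / N) := lt_of_lt_of_le hz hr
      have hz4 : z ∈ Strip (4 * cr K / N) := lt_of_lt_of_le hz hr4
      obtain ⟨_, _, m3, _, _⟩ := k7 z hz'
      obtain ⟨n1, _, _, _⟩ := gs_near ctx hz4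
      have h1 : ‖deriv g z.re‖ ≤ K := by
        have h2 : (deriv g (z.re : ℂ)).im = 0 := by
          have h3 := hp_real (hp_deriv ctx.gs.hp) z.re
          have h4 : deriv (fun z => g z - z) (z.re : ℂ) = deriv g z.re - 1 := by
            have hd : DifferentiableAt ℂ g (z.re : ℂ) := by
              refine (hdg.hol (z.re : ℂ) ?_).differentiableAt ((isOpen_strip _).mem_nhds ?_)
              · show |(z.re : ℂ).im| < _
                rw [Complex.ofReal_im, abs_zero]; positivity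
              · show |(z.re : ℂ).im| < _
                rw [Complex.ofReal_im, abs_zero]; positivity
            rw [deriv_fun_sub hd differentiableAt_fun_id, deriv_id'']
          rw [h4] at h3
          simpa using h3
        have h3 : 0 ≤ (deriv g (z.re : ℂ)).re := by
          have := ctx.gs.lo z.re
          have : 0 < 1 / K := by positivity
          linarith
        have h4 := ctx.gs.hi z.re
        rw [← Complex.re_add_im (deriv g (z.re : ℂ)), h2, Complex.ofReal_zero, zero_mul, add_zero,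
          Complex.norm_real, Real.norm_of_nonneg h3]
        exact h4
      have hcr4 : 4 * cr K * (A * X) ≤ 1 / 4 := by
        have h5 : cr K ≤ 1 / 10 ^ 4 := by
          unfold cr
          apply one_div_le_one_div_of_le (by norm_num)
          have : 1 ≤ K ^ 4 := one_le_pow₀ hK
          linarith only [this]
        have h6 := ctx.J1
        have h7 : 4 * cr K * (A * X) ≤ 4 * cr K * 1 :=
          mul_le_mul_of_nonneg_left h6 (by linarith only [hcr])
        linarith only [h5, h7]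
      have h7 : 3 * c₅ * (X + σ * V) ≤ 1 / 2 := by
        have h8 : c₅ * (σ * V) ≤ 1 / 100 := by
          calc c₅ * (σ * V) ≤ c₅ * (x₁ * Vb) := by gcongr
            _ = Vb * c₅ * x₁ := by ring
            _ ≤ 1 / 100 := by linarith only [q0, hx₅1]
        linarith only [h8, s7]
      calc ‖deriv g' z‖ = ‖(deriv g' z - deriv g z) + (deriv g z - deriv g z.re) +
            deriv g z.re‖ := by congr 1; ring
        _ ≤ ‖deriv g' z - deriv g z‖ + ‖deriv g z - deriv g z.re‖ + ‖deriv g z.re‖ :=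
            norm_add₃_le
        _ ≤ 1 / 2 + 1 / 4 + K := by linarith
        _ ≤ 2 * K := by linarith
  · intro z hz
    have hz' : z ∈ Strip (cr K / N) := lt_of_lt_of_le hz hr
    obtain ⟨m1, m2, m3, m4, m5⟩ := k7 z hz'
    have h0 : 0 ≤ X + σ * V := by positivity
    have h1 : 3 * c₅ * (X + σ * V) ≤ 4 * c₅ * (X + σ * V) := by
      apply mul_le_mul_of_nonneg_right _ h0
      linarith
    refine ⟨m1.trans ?_, m2.trans ?_, m3.trans h1, m4.trans h1, m5.trans ?_⟩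
    · gcongr
    · gcongr
    · gcongr

end Pool.Agent.MP_b87ea9_an.Kam
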