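import Mathlib
import Pool.Agent.Lib.MP_b87ea9_an.KDefs
import Pool.Agent.Lib.MP_b87ea9_an.KDefs2
import Pool.Agent.Lib.MP_b87ea9_an.KDefs3
import Pool.Agent.Lib.MP_b87ea9_an.KDefs4

set_option autoImplicit false

/-! The state at the alive nodes of the tree -/

namespace Pool.Agent.MP_b87ea9_an.Kam

open Real MeasureTheory

lemma blk_nonneg' (c : ℤ → ℂ) (A B : ℕ) : 0 ≤ blk c A B := Real.sqrt_nonneg _

lemma res_nonneg' (ω r : ℝ) (f : ℂ → ℂ) : 0 ≤ res ω r f := by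
  unfold res
  refine tsum_nonneg fun n => ?_
  split_ifs
  · exact le_rfl
  · positivity

lemma phi_nonneg' {K Cf : ℝ} (hCf : 0 ≤ Cf) (c : ℤ → ℂ) (Q Nb : ℕ) {Mc : ℕ} (g₀ : ℂ → ℂ)
    (om : List (Fin Mc) → ℝ) (μ : List (Fin Mc)) : 0 ≤ phi K Cf c Q Nb g₀ om μ := by
  cases μ with
  | nil => simp [phi]
  | cons d μ =>
    simp only [phi]
    have h1 := blk_nonneg' c (Nb * Q ^ (μ.length - 1)) (Nb * Q ^ μ.length)
    have h2 := res_nonneg' (om (d :: μ)) (2 * cr K / ((Nb : ℝ) * (Q : ℝ) ^ μ.length))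
          (MM (blockF c (Nb * Q ^ (μ.length - 1)) (Nb * Q ^ μ.length)) (gsq c Q Nb g₀ om μ) (om μ))
    positivity

lemma Xs_nonneg' {C X₀ : ℝ} (hC : 0 ≤ C) (hX : 0 ≤ X₀) (Q Nb : ℕ) {Mc : ℕ}
    {ph : List (Fin Mc) → ℝ} (hph : ∀ μ, 0 ≤ ph μ) :
    ∀ (d : Fin Mc) (ν : List (Fin Mc)), 0 ≤ Xs C X₀ Q Nb ph (d :: ν)
  | _, [] => by simpa [Xs] using hX
  | d, c :: ν => by
    have h1 := Xs_nonneg' hC hX Q Nb hph c ν
    have h2 := hph (d :: c :: ν)
    simp only [Xs]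
    positivity

lemma Tots_nonneg' {Mc : ℕ} {X : List (Fin Mc) → ℝ} (hX : ∀ d ν, 0 ≤ X (d :: ν)) :
    ∀ ν : List (Fin Mc), 0 ≤ Tots X ν
  | [] => by simp [Tots]
  | c :: ν => by
    simp only [Tots]
    have := hX c ν
    have := Tots_nonneg' hX ν
    linarith

lemma Vs_bounds' {C V₀ Vb x₁ : ℝ} (hC : 0 ≤ C) (hV : 0 ≤ V₀) (hVb : V₀ ≤ Vb) (hVb1 : 1 ≤ Vb) {Q : ℕ}
    (hQ : 16 ≤ Q) (hx : 10 * C * x₁ ≤ 1) {Mc : ℕ} {X : List (Fin Mc) → ℝ}
    (hX : ∀ d ν, 0 ≤ X (d :: ν)) :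
    ∀ (d : Fin Mc) (ν : List (Fin Mc)), Tots X ν ≤ x₁ →
      0 ≤ Vs C V₀ Q X (d :: ν) ∧ Vs C V₀ Q X (d :: ν) ≤ Vb
  | _, [], _ => by simpa [Vs] using ⟨hV, hVb⟩
  | d, c :: ν, h => by
    simp only [Tots] at h
    have h0 := hX c ν
    have h0' := Tots_nonneg' hX ν
    obtain ⟨h1, h2⟩ := Vs_bounds' hC hV hVb hVb1 hQ hx hX c ν (by linarith)
    simp only [Vs]
    have hQ' : (16 : ℝ) ≤ Q := by exact_mod_cast hQ
    have hQ0 : (0 : ℝ) < Q := by linarith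
    have h3 : C * X (c :: ν) ≤ 1 / 10 := by
      have : C * X (c :: ν) ≤ C * x₁ := mul_le_mul_of_nonneg_left (by linarith) hC
      linarith
    have h4 : 0 ≤ C * X (c :: ν) := mul_nonneg hC h0
    refine ⟨by positivity, ?_⟩
    rw [div_mul_eq_mul_div, one_mul, div_le_iff₀ hQ0]
    have h5 : (1 + C * X (c :: ν)) * Vs C V₀ Q X (c :: ν) ≤ (1 + 1 / 10) * Vb :=
      mul_le_mul (by linarith) h2 h1 (by norm_num)
    have h6 : Vb * 16 ≤ Vb * Q := mul_le_mul_of_nonneg_left hQ' (by linarith)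
    linarith

lemma Lev.mono_DT {K γ A σ : ℝ} {c : ℤ → ℂ} {Nb : ℝ} {N : ℕ} {g : ℂ → ℂ}
    {ω ω' X V S D T D' T' : ℝ} (h : Lev K γ A σ c Nb N g ω ω' X V S D T) (hD : D ≤ D')
    (hT : T ≤ T') : Lev K γ A σ c Nb N g ω ω' X V S D' T' :=
  { pre := h.pre
    rot := h.rot
    xN := h.xN
    lo := h.lo
    hi := h.hi
    dD := fun t => (h.dD t).trans hD
    dT := fun t => (h.dT t).trans hT }

lemma geom_le_two' {Q : ℕ} (hQ : 16 ≤ Q) (k : ℕ) :
    ∑ i ∈ Finset.range k, (1 / (Q : ℝ)) ^ i ≤ 2 - 2 * (1 / (Q : ℝ)) ^ k := by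
  have hQ' : (16 : ℝ) ≤ Q := by exact_mod_cast hQ
  have hQ0 : (0 : ℝ) < Q := by linarith
  induction k with
  | zero => norm_num
  | succ k ih =>
    rw [Finset.sum_range_succ]
    have h3 : 0 ≤ (1 / (Q : ℝ)) ^ k := by positivity
    have h1 : 2 * (1 / (Q : ℝ)) ^ (k + 1) ≤ (1 / (Q : ℝ)) ^ k := by
      rw [pow_succ]
      have h2 : 1 / (Q : ℝ) ≤ 1 / 2 := by
        rw [div_le_div_iff₀ hQ0 two_pos]; linarith
      have := mul_le_mul_of_nonneg_left h2 h3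
      linarith
    linarith

theorem lev_tree_aux {K γ Vb A σ x₁ C Cf Ct X₀ V₀ S₀ D₀ T₀ : ℝ} {Q Nb Mc : ℕ} {c : ℤ → ℂ}
    {g₀ : ℂ → ℂ} {om : List (Fin Mc) → ℝ}
    (R : Run K γ Vb A σ x₁ C Cf Ct X₀ V₀ S₀ D₀ T₀ Q Nb Mc c g₀ om) (ν : List (Fin Mc)) :
    ∀ d : Fin Mc, Tots (Xs C X₀ Q Nb (phi K Cf c Q Nb g₀ om)) ν ≤ x₁ →
    A * Xs C X₀ Q Nb (phi K Cf c Q Nb g₀ om) (d :: ν) ≤ 1 →
    Lev K γ A σ c Nb (Nb * Q ^ ν.length) (gsq c Q Nb g₀ om ν) (om ν) (om (d :: ν))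
      (Xs C X₀ Q Nb (phi K Cf c Q Nb g₀ om) (d :: ν))
      (Vs C V₀ Q (Xs C X₀ Q Nb (phi K Cf c Q Nb g₀ om)) (d :: ν))
      (S₀ + C * Tots (Xs C X₀ Q Nb (phi K Cf c Q Nb g₀ om)) ν)
      (exp (C * Tots (Xs C X₀ Q Nb (phi K Cf c Q Nb g₀ om)) ν) *
        (D₀ + 2 * C / Nb * ∑ i ∈ Finset.range ν.length, (1 / (Q : ℝ)) ^ i))
      (exp (C * Tots (Xs C X₀ Q Nb (phi K Cf c Q Nb g₀ om)) ν) *
        (T₀ + C * Tots (Xs C X₀ Q Nb (phi K Cf c Q Nb g₀ om)) ν)) := by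
  have hC0 : 0 ≤ C := zero_le_one.trans R.C1
  have hph : ∀ μ, 0 ≤ phi K Cf c Q Nb g₀ om μ :=
    phi_nonneg' (zero_le_one.trans R.Cf1) c Q Nb g₀ om
  have hXs : ∀ (d : Fin Mc) (ν : List (Fin Mc)),
      0 ≤ Xs C X₀ Q Nb (phi K Cf c Q Nb g₀ om) (d :: ν) :=
    Xs_nonneg' hC0 R.X0 Q Nb hph
  have hQ' : (16 : ℝ) ≤ Q := by exact_mod_cast R.Q16
  have hQ0 : (0 : ℝ) < Q := by linarith
  have hNbN : 16 ≤ Nb := R.Q16.trans R.NbQ
  have hNb : (16 : ℝ) ≤ Nb := by exact_mod_cast hNbN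
  have hNb0 : (0 : ℝ) < Nb := by linarith
  have hx10 : 10 * C * x₁ ≤ 1 := by
    have h1 := R.x1
    have h2 : 10 * C * x₁ * 1 ≤ 10 * C * x₁ * A :=
      mul_le_mul_of_nonneg_left R.A1 (by have := R.x0; positivity)
    nlinarith
  induction ν with
  | nil =>
    intro d _ _
    have h := R.base d
    simp only [List.length_nil, pow_zero, mul_one, Tots, mul_zero, add_zero, Real.exp_zero,
      one_mul, Finset.range_zero, Finset.sum_empty, gsq, Xs, Vs]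
    exact h
  | cons b ν ih =>
    intro d ha h1
    set X := Xs C X₀ Q Nb (phi K Cf c Q Nb g₀ om) with hX
    have htot : Tots X (b :: ν) = X (b :: ν) + Tots X ν := rfl
    have hXb : 0 ≤ X (b :: ν) := hXs b ν
    have hTν : 0 ≤ Tots X ν := Tots_nonneg' hXs ν
    rw [htot] at ha
    have hXx : X (b :: ν) ≤ x₁ := by linarith
    have hTx : Tots X ν ≤ x₁ := by linarith
    have hA0 : 0 ≤ A := zero_le_one.trans R.A1
    have hAX : A * X (b :: ν) ≤ 1 := by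
      have h2 : A * X (b :: ν) ≤ A * x₁ := mul_le_mul_of_nonneg_left hXx hA0
      have h3 : A * x₁ ≤ 10 * C * (A * x₁) := by
        have h4 : 0 ≤ A * x₁ := mul_nonneg hA0 R.x0.le
        have := R.C1
        nlinarith
      have := R.x1
      nlinarith
    have L := ih b hTx hAX
    obtain ⟨hV0, hVb⟩ := Vs_bounds' hC0 R.V0 R.V0b R.Vb1 R.Q16 hx10 hXs b ν hTx
    have hCX : C * X (b :: ν) ≤ 1 / 10 := by
      have : C * X (b :: ν) ≤ C * x₁ := mul_le_mul_of_nonneg_left hXx hC0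
      linarith
    have hCX0 : 0 ≤ C * X (b :: ν) := mul_nonneg hC0 hXb
    have hCT : C * (X (b :: ν) + Tots X ν) ≤ 1 / 10 := by
      have : C * (X (b :: ν) + Tots X ν) ≤ C * x₁ := mul_le_mul_of_nonneg_left ha hC0
      linarith
    have hS0 : 0 ≤ S₀ + C * Tots X ν := by
      have := R.S0
      positivity
    have hS : S₀ + C * Tots X ν + C * X (b :: ν) ≤ 1 / 2 := by
      have := R.S0'
      nlinarith
    -- the scales
    set N : ℕ := Nb * Q ^ ν.length with hN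
    have hQN : Q * N = Nb * Q ^ (b :: ν).length := by
      rw [hN, List.length_cons, pow_succ]; ring
    have hNbN' : Nb ≤ N := Nat.le_mul_of_pos_right _ (Nat.pow_pos (by have := R.Q16; omega))
    have hNQN : N ≤ Q * N := Nat.le_mul_of_pos_left _ (by have := R.Q16; omega)
    have hNbNr : (Nb : ℝ) ≤ N := by exact_mod_cast hNbN'
    have hNQNr : (N : ℝ) ≤ (Q * N : ℕ) := by exact_mod_cast hNQN
    have hmaxN : max (N : ℝ) Nb = N := max_eq_left hNbNr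
    have hmaxQN : max ((Q * N : ℕ) : ℝ) Nb = (Q * N : ℕ) := max_eq_left (hNbNr.trans hNQNr)
    have hN0 : (0 : ℝ) < N := by linarith
    have hQN0 : (0 : ℝ) < (Q * N : ℕ) := by linarith
    have hB : ((Q * N : ℕ) : ℝ) = (Nb : ℝ) * (Q : ℝ) ^ (b :: ν).length := by
      rw [hQN]; push_cast; ring
    have hNr : (N : ℝ) = (Nb : ℝ) * (Q : ℝ) ^ ν.length := by
      rw [hN]; push_cast; ring
    have hdist := R.tree.dist (b :: ν) d
    rw [← hB] at hdist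
    have hdist1 : |om (d :: b :: ν) - om (b :: ν)| ≤ 1 / (((Q * N : ℕ) : ℝ) * (Q * N : ℕ)) := by
      refine hdist.trans ?_
      rw [sq]
      exact div_le_div_of_nonneg_right R.σ1 (by positivity)
    -- the new lines
    obtain ⟨-, -, hdif, hhp, -⟩ := R.dif N Nb _ _ _ _ _ _ _ _ L hXx hVb hS0 hS
    have hg : gnew (trunc c N) (gsq c Q Nb g₀ om ν) (om ν) (om (b :: ν)) =
        gsq c Q Nb g₀ om (b :: ν) := rfl
    have hfresh := R.fresh N (Q * N) (om (b :: ν)) (om (d :: b :: ν)) (gsq c Q Nb g₀ om (b :: ν))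
      (by omega) hNQN le_rfl (by exact_mod_cast hNbN'.trans hNQN) (R.tree.rot _) (R.tree.rot _)
      hdist1 hdif hhp
    have hBd : Bd (2 * cr K / (Q * N : ℕ)) (invD (om (d :: b :: ν)) (fun z =>
        FF (blockF c N (Q * N)) (gnew (trunc c N) (gsq c Q Nb g₀ om ν) (om ν) (om (b :: ν)))
          (om (b :: ν)) (z + (om (d :: b :: ν) : ℝ))))
        (phi K Cf c Q Nb g₀ om (d :: b :: ν) / ((Nb : ℝ) * (Q * N : ℕ) *
          max ((Q * N : ℕ) : ℝ) Nb)) := by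
      rw [hg]
      intro z hz
      refine (hfresh z hz).trans (le_of_eq ?_)
      rw [hmaxQN]
      have e1 : Nb * Q ^ ((b :: ν).length - 1) = N := by
        rw [hN, List.length_cons, Nat.add_sub_cancel]
      simp only [phi]
      rw [e1, ← hQN, ← hB]
      field_simp
    have hphi := hph (d :: b :: ν)
    have hXdb : X (d :: b :: ν) = X (b :: ν) / 2 +
        C * (phi K Cf c Q Nb g₀ om (d :: b :: ν) + 1 / (N : ℝ)) := by
      rw [hNr, hX]
      rfl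
    have hadv := R.adv N hNbN' Nb (om ν) (om (b :: ν)) (om (d :: b :: ν)) _ _ _ _ _
      (phi K Cf c Q Nb g₀ om (d :: b :: ν)) _ L hXx hVb hS0 hS (R.tree.rot _)
      (by rw [hmaxQN, ← sq]; exact hdist) hphi (by rw [← hXdb]; exact h1) hBd
    rw [← hXdb, hg, hmaxN, hmaxQN] at hadv
    have hVe : (N : ℝ) / (Q * N : ℕ) * ((1 + C * X (b :: ν)) * Vs C V₀ Q X (b :: ν) +
        C * X (b :: ν)) = Vs C V₀ Q X (d :: b :: ν) := by
      have : (N : ℝ) / (Q * N : ℕ) = 1 / (Q : ℝ) := by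
        push_cast
        field_simp
      rw [this]
      rfl
    have hSe : S₀ + C * Tots X ν + C * X (b :: ν) = S₀ + C * Tots X (b :: ν) := by
      rw [htot]; ring
    rw [hVe, hSe] at hadv
    have hexp : (1 + C * X (b :: ν)) * exp (C * Tots X ν) ≤ exp (C * Tots X (b :: ν)) := by
      rw [htot, mul_add, Real.exp_add]
      refine mul_le_mul_of_nonneg_right ?_ (Real.exp_pos _).le
      have := Real.add_one_le_exp (C * X (b :: ν))
      linarith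
    have hexp1 : 1 ≤ exp (C * Tots X (b :: ν)) := by
      apply Real.one_le_exp
      rw [htot]
      positivity
    have hx1 : x₁ ≤ 1 := by
      have h2 : 10 * 1 * x₁ ≤ 10 * C * x₁ := by
        have := R.C1
        have := R.x0
        nlinarith
      have := R.x0
      linarith
    have hgoal := hadv.mono_DT
      (D' := exp (C * Tots X (b :: ν)) *
        (D₀ + 2 * C / Nb * ∑ i ∈ Finset.range (b :: ν).length, (1 / (Q : ℝ)) ^ i))
      (T' := exp (C * Tots X (b :: ν)) * (T₀ + C * Tots X (b :: ν))) ?_ ?_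
    · rw [← hQN]
      exact hgoal
    · rw [List.length_cons, Finset.sum_range_succ]
      set G := ∑ i ∈ Finset.range ν.length, (1 / (Q : ℝ)) ^ i with hG
      have hG0 : 0 ≤ G := Finset.sum_nonneg fun i _ => by positivity
      have hD0 := R.D0
      have hDG : 0 ≤ D₀ + 2 * C / Nb * G := by positivity
      have h5 : (1 + C * X (b :: ν)) * (exp (C * Tots X ν) * (D₀ + 2 * C / Nb * G)) ≤
          exp (C * Tots X (b :: ν)) * (D₀ + 2 * C / Nb * G) := by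
        rw [← mul_assoc]
        exact mul_le_mul_of_nonneg_right hexp hDG
      have h6 : C * (σ + X (b :: ν)) / N ≤ 2 * C / Nb * (1 / (Q : ℝ)) ^ ν.length := by
        rw [hNr]
        have e2 : 2 * C / (Nb : ℝ) * (1 / (Q : ℝ)) ^ ν.length =
            C * 2 / ((Nb : ℝ) * (Q : ℝ) ^ ν.length) := by
          rw [one_div, inv_pow]
          field_simp
        rw [e2]
        refine div_le_div_of_nonneg_right ?_ (by positivity)
        refine mul_le_mul_of_nonneg_left ?_ hC0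
        have := R.σ1
        linarith
      have h7 : 2 * C / Nb * (1 / (Q : ℝ)) ^ ν.length ≤
          exp (C * Tots X (b :: ν)) * (2 * C / Nb * (1 / (Q : ℝ)) ^ ν.length) :=
        le_mul_of_one_le_left (by positivity) hexp1
      calc (1 + C * X (b :: ν)) * (exp (C * Tots X ν) * (D₀ + 2 * C / Nb * G)) +
            C * (σ + X (b :: ν)) / N
          ≤ exp (C * Tots X (b :: ν)) * (D₀ + 2 * C / Nb * G) +
            exp (C * Tots X (b :: ν)) * (2 * C / Nb * (1 / (Q : ℝ)) ^ ν.length) :=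
            add_le_add h5 (h6.trans h7)
        _ = _ := by ring
    · have hT0 := R.T0
      have h5 : (1 + C * X (b :: ν)) * (exp (C * Tots X ν) * (T₀ + C * Tots X ν)) ≤
          exp (C * Tots X (b :: ν)) * (T₀ + C * Tots X ν) := by
        rw [← mul_assoc]
        exact mul_le_mul_of_nonneg_right hexp (by positivity)
      have h6 : C * X (b :: ν) ≤ exp (C * Tots X (b :: ν)) * (C * X (b :: ν)) :=
        le_mul_of_one_le_left hCX0 hexp1
      calc (1 + C * X (b :: ν)) * (exp (C * Tots X ν) * (T₀ + C * Tots X ν)) + C * X (b :: ν)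
          ≤ exp (C * Tots X (b :: ν)) * (T₀ + C * Tots X ν) +
            exp (C * Tots X (b :: ν)) * (C * X (b :: ν)) := add_le_add h5 h6
        _ = exp (C * Tots X (b :: ν)) * (T₀ + C * (X (b :: ν) + Tots X ν)) := by ring
        _ = _ := by rw [htot]

theorem lev_tree {K γ Vb A σ x₁ C Cf Ct X₀ V₀ S₀ D₀ T₀ : ℝ} {Q Nb Mc : ℕ} {c : ℤ → ℂ} {g₀ : ℂ → ℂ}
    {om : List (Fin Mc) → ℝ}
    (R : Run K γ Vb A σ x₁ C Cf Ct X₀ V₀ S₀ D₀ T₀ Q Nb Mc c g₀ om) (d : Fin Mc) (ν : List (Fin Mc))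
    (ha : Tots (Xs C X₀ Q Nb (phi K Cf c Q Nb g₀ om)) ν ≤ x₁)
    (h1 : A * Xs C X₀ Q Nb (phi K Cf c Q Nb g₀ om) (d :: ν) ≤ 1) :
    Lev K γ A σ c Nb (Nb * Q ^ ν.length) (gsq c Q Nb g₀ om ν) (om ν) (om (d :: ν))
      (Xs C X₀ Q Nb (phi K Cf c Q Nb g₀ om) (d :: ν))
      (Vs C V₀ Q (Xs C X₀ Q Nb (phi K Cf c Q Nb g₀ om)) (d :: ν))
      (S₀ + C * Tots (Xs C X₀ Q Nb (phi K Cf c Q Nb g₀ om)) ν)
      (exp (C * Tots (Xs C X₀ Q Nb (phi K Cf c Q Nb g₀ om)) ν) * (D₀ + 4 * C / Nb))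
      (exp (C * Tots (Xs C X₀ Q Nb (phi K Cf c Q Nb g₀ om)) ν) *
        (T₀ + C * Tots (Xs C X₀ Q Nb (phi K Cf c Q Nb g₀ om)) ν)) := by
  refine (lev_tree_aux R ν d ha h1).mono_DT ?_ le_rfl
  refine mul_le_mul_of_nonneg_left ?_ (Real.exp_pos _).le
  have h2 := geom_le_two' R.Q16 ν.length
  have h3 : 0 ≤ (1 / (Q : ℝ)) ^ ν.length := by positivity
  have hC0 : 0 ≤ C := zero_le_one.trans R.C1
  have h4 : 2 * C / (Nb : ℝ) * ∑ i ∈ Finset.range ν.length, (1 / (Q : ℝ)) ^ i ≤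
      2 * C / (Nb : ℝ) * 2 := mul_le_mul_of_nonneg_left (by linarith) (by positivity)
  have h5 : 2 * C / (Nb : ℝ) * 2 = 4 * C / Nb := by ring
  linarith

end Pool.Agent.MP_b87ea9_an.Kam
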