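import Mathlib
import Pool.Agent.Lib.MP_b87ea9_an.KDefs
import Pool.Agent.Lib.MP_b87ea9_an.KDefs2
import Pool.Agent.Lib.MP_b87ea9_an.KDefs3
import Pool.Agent.Lib.MP_b87ea9_an.KDefs4

set_option autoImplicit false

/-! Calculus of averages over the tree -/

namespace Pool.Agent.MP_b87ea9_an.Kam

open Real

section avg

variable {Mc : ℕ}

theorem ke4_avg_succ (m : ℕ) (f : List (Fin Mc) → ℝ) (ν : List (Fin Mc)) :
    avg (m + 1) f ν = (∑ c : Fin Mc, avg m f (c :: ν)) / Mc := rfl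

theorem ke4_avg_zero (f : List (Fin Mc) → ℝ) (ν : List (Fin Mc)) : avg 0 f ν = f ν := rfl

theorem ke4_avg_le {m : ℕ} {f g : List (Fin Mc) → ℝ} {ν : List (Fin Mc)}
    (h : ∀ ρ : List (Fin Mc), ρ.length = m + ν.length → ρ.drop m = ν → f ρ ≤ g ρ) :
    avg m f ν ≤ avg m g ν := by
  induction m generalizing ν with
  | zero => exact h ν (by simp) (by simp)
  | succ m ih =>
    rw [ke4_avg_succ, ke4_avg_succ]
    refine div_le_div_of_nonneg_right (Finset.sum_le_sum fun c _ => ih fun ρ h1 h2 => ?_)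
      (Nat.cast_nonneg _)
    refine h ρ ?_ ?_
    · rw [List.length_cons] at h1; omega
    · have : ρ.drop (m + 1) = (ρ.drop m).tail := by rw [List.tail_drop]
      rw [this, h2, List.tail_cons]

theorem ke4_avg_add (m : ℕ) (f g : List (Fin Mc) → ℝ) (ν : List (Fin Mc)) :
    avg m (fun ρ => f ρ + g ρ) ν = avg m f ν + avg m g ν := by
  induction m generalizing ν with
  | zero => rfl
  | succ m ih =>
    simp only [ke4_avg_succ, ih]
    rw [Finset.sum_add_distrib, add_div]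

theorem ke4_avg_smul (m : ℕ) (a : ℝ) (f : List (Fin Mc) → ℝ) (ν : List (Fin Mc)) :
    avg m (fun ρ => a * f ρ) ν = a * avg m f ν := by
  induction m generalizing ν with
  | zero => rfl
  | succ m ih =>
    simp only [ke4_avg_succ, ih]
    rw [← Finset.mul_sum, mul_div_assoc]

theorem ke4_avg_const (hM : 0 < Mc) (m : ℕ) (a : ℝ) (ν : List (Fin Mc)) :
    avg m (fun _ => a) ν = a := by
  induction m generalizing ν with
  | zero => rfl
  | succ m ih =>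
    simp only [ke4_avg_succ, ih]
    have : (Mc : ℝ) ≠ 0 := by exact_mod_cast hM.ne'
    simp only [Finset.sum_const, Finset.card_univ, Fintype.card_fin, nsmul_eq_mul]
    field_simp

theorem ke4_avg_nonneg {m : ℕ} {f : List (Fin Mc) → ℝ} {ν : List (Fin Mc)} (h : ∀ ρ, 0 ≤ f ρ) :
    0 ≤ avg m f ν := by
  induction m generalizing ν with
  | zero => exact h ν
  | succ m ih =>
    rw [ke4_avg_succ]
    exact div_nonneg (Finset.sum_nonneg fun c _ => ih) (Nat.cast_nonneg _)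

theorem ke4_avg_avg (a b : ℕ) (f : List (Fin Mc) → ℝ) (ν : List (Fin Mc)) :
    avg (a + b) f ν = avg b (avg a f) ν := by
  induction b generalizing ν with
  | zero => rfl
  | succ b ih =>
    rw [← add_assoc, ke4_avg_succ, ke4_avg_succ]
    simp only [ih]

theorem ke4_avg_tower {m i : ℕ} {F h : List (Fin Mc) → ℝ}
    (H : ∀ ν : List (Fin Mc), ν.length = i → avg m F ν ≤ h ν) : avg (m + i) F [] ≤ avg i h [] := by
  rw [ke4_avg_avg]
  exact ke4_avg_le fun ρ h1 _ => H ρ (by simpa using h1)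

/-- `L²` norm over the extensions of a word -/
noncomputable def ke4N (m : ℕ) (f : List (Fin Mc) → ℝ) (ν : List (Fin Mc)) : ℝ :=
  Real.sqrt (avg m (fun ρ => f ρ ^ 2) ν)

theorem ke4N_nonneg (m : ℕ) (f : List (Fin Mc) → ℝ) (ν : List (Fin Mc)) : 0 ≤ ke4N m f ν :=
  Real.sqrt_nonneg _

theorem ke4N_sq (m : ℕ) (f : List (Fin Mc) → ℝ) (ν : List (Fin Mc)) :
    ke4N m f ν ^ 2 = avg m (fun ρ => f ρ ^ 2) ν :=
  Real.sq_sqrt (ke4_avg_nonneg fun _ => sq_nonneg _)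

theorem ke4N_le {m : ℕ} {f g : List (Fin Mc) → ℝ} {ν : List (Fin Mc)}
    (h : ∀ ρ : List (Fin Mc), ρ.length = m + ν.length → ρ.drop m = ν → 0 ≤ f ρ ∧ f ρ ≤ g ρ) :
    ke4N m f ν ≤ ke4N m g ν := by
  refine Real.sqrt_le_sqrt (ke4_avg_le fun ρ h1 h2 => ?_)
  obtain ⟨h3, h4⟩ := h ρ h1 h2
  gcongr

theorem ke4N_add (m : ℕ) (f g : List (Fin Mc) → ℝ) (ν : List (Fin Mc)) :
    ke4N m (fun ρ => f ρ + g ρ) ν ≤ ke4N m f ν + ke4N m g ν := by
  refine le_of_forall_pos_le_add fun ε hε => ?_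
  set F := ke4N m f ν with hF
  set G := ke4N m g ν with hG
  have hF0 : 0 ≤ F := ke4N_nonneg _ _ _
  have hG0 : 0 ≤ G := ke4N_nonneg _ _ _
  set a := F + ε / 2 with ha
  set b := G + ε / 2 with hb
  have ha0 : 0 < a := by positivity
  have hb0 : 0 < b := by positivity
  have h1 : ∀ ρ : List (Fin Mc), (f ρ + g ρ) ^ 2 ≤ (1 + b / a) * f ρ ^ 2 + (1 + a / b) * g ρ ^ 2 := by
    intro ρ
    have e1 : (1 + b / a) * f ρ ^ 2 + (1 + a / b) * g ρ ^ 2 - (f ρ + g ρ) ^ 2 =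
        (b * f ρ - a * g ρ) ^ 2 / (a * b) := by
      field_simp
      ring
    have e2 : 0 ≤ (b * f ρ - a * g ρ) ^ 2 / (a * b) := by positivity
    linarith
  have h2 : avg m (fun ρ => (f ρ + g ρ) ^ 2) ν ≤ (a + b) ^ 2 := by
    calc avg m (fun ρ => (f ρ + g ρ) ^ 2) ν
        ≤ avg m (fun ρ => (1 + b / a) * f ρ ^ 2 + (1 + a / b) * g ρ ^ 2) ν :=
          ke4_avg_le fun ρ _ _ => h1 ρ
      _ = (1 + b / a) * F ^ 2 + (1 + a / b) * G ^ 2 := by
          rw [ke4_avg_add, ke4_avg_smul, ke4_avg_smul, hF, hG, ke4N_sq, ke4N_sq]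
      _ ≤ (1 + b / a) * a ^ 2 + (1 + a / b) * b ^ 2 := by
          have : F ≤ a := by linarith
          have : G ≤ b := by linarith
          gcongr
      _ = (a + b) ^ 2 := by field_simp; ring
  calc ke4N m (fun ρ => f ρ + g ρ) ν ≤ Real.sqrt ((a + b) ^ 2) := Real.sqrt_le_sqrt h2
    _ = a + b := Real.sqrt_sq (by positivity)
    _ = F + G + ε := by rw [ha, hb]; ring

theorem ke4N_const (hM : 0 < Mc) (m : ℕ) {a : ℝ} (ha : 0 ≤ a) (ν : List (Fin Mc)) :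
    ke4N m (fun _ => a) ν = a := by
  unfold ke4N
  rw [ke4_avg_const hM, Real.sqrt_sq ha]

theorem ke4N_smul (m : ℕ) {a : ℝ} (ha : 0 ≤ a) (f : List (Fin Mc) → ℝ) (ν : List (Fin Mc)) :
    ke4N m (fun ρ => a * f ρ) ν = a * ke4N m f ν := by
  unfold ke4N
  have : (fun ρ : List (Fin Mc) => (a * f ρ) ^ 2) = fun ρ => a ^ 2 * f ρ ^ 2 := by
    funext ρ; ring
  rw [this, ke4_avg_smul, Real.sqrt_mul (sq_nonneg _), Real.sqrt_sq ha]

theorem ke4N_sum (hM : 0 < Mc) (m n : ℕ) (f : ℕ → List (Fin Mc) → ℝ) (ν : List (Fin Mc)) :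
    ke4N m (fun ρ => ∑ k ∈ Finset.range n, f k ρ) ν ≤ ∑ k ∈ Finset.range n, ke4N m (f k) ν := by
  induction n with
  | zero =>
    simp only [Finset.range_zero, Finset.sum_empty]
    rw [ke4N_const hM m le_rfl]
  | succ n ih =>
    simp only [Finset.sum_range_succ]
    exact (ke4N_add m _ _ ν).trans (add_le_add_left ih _)

theorem ke4N_tower {m i : ℕ} {F h : List (Fin Mc) → ℝ}
    (H : ∀ ν : List (Fin Mc), ν.length = i → avg m (fun ρ => F ρ ^ 2) ν ≤ h ν ^ 2) :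
    ke4N (m + i) F [] ≤ ke4N i h [] :=
  Real.sqrt_le_sqrt (ke4_avg_tower H)

theorem ke4_rms (x₂ : ℝ) (X f : List (Fin Mc) → ℝ) (j : ℕ) :
    rms x₂ X f j = ke4N j (fun μ => if Tots X μ.tail ≤ x₂ then f μ else 0) [] := by
  unfold rms ke4N
  congr 2
  funext μ
  by_cases h : Tots X μ.tail ≤ x₂
  · simp only [if_pos h]
  · simp only [if_neg h]; norm_num

theorem ke4_rms_nonneg (x₂ : ℝ) (X f : List (Fin Mc) → ℝ) (j : ℕ) : 0 ≤ rms x₂ X f j :=
  Real.sqrt_nonneg _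

/-! ### sums over suffixes -/

theorem ke4_tots_nonneg {X : List (Fin Mc) → ℝ} (hX : ∀ μ, 0 ≤ X μ) (μ : List (Fin Mc)) :
    0 ≤ Tots X μ := by
  induction μ with
  | nil => exact le_rfl
  | cons c ν ih => exact add_nonneg (hX _) ih

theorem ke4_tots_tail {X : List (Fin Mc) → ℝ} (hX : ∀ μ, 0 ≤ X μ) (μ : List (Fin Mc)) :
    Tots X μ.tail ≤ Tots X μ := by
  cases μ with
  | nil => exact le_rfl
  | cons c ν =>
    show Tots X ν ≤ X (c :: ν) + Tots X ν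
    have := hX (c :: ν)
    linarith

theorem ke4_tots_drop {X : List (Fin Mc) → ℝ} (hX : ∀ μ, 0 ≤ X μ) (μ : List (Fin Mc)) (k : ℕ) :
    Tots X (μ.drop k) ≤ Tots X μ := by
  induction k with
  | zero => simp
  | succ k ih =>
    have : μ.drop (k + 1) = (μ.drop k).tail := by rw [List.tail_drop]
    rw [this]
    exact (ke4_tots_tail hX _).trans ih

theorem ke4_le_tots {X : List (Fin Mc) → ℝ} (hX : ∀ μ, 0 ≤ X μ) (c : Fin Mc) (ν : List (Fin Mc)) :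
    X (c :: ν) ≤ Tots X (c :: ν) := by
  show X (c :: ν) ≤ X (c :: ν) + Tots X ν
  have := ke4_tots_nonneg hX ν
  linarith

theorem ke4_res_nonneg (ω r : ℝ) (f : ℂ → ℂ) : 0 ≤ res ω r f := by
  unfold res
  refine tsum_nonneg fun n => ?_
  split_ifs <;> positivity

theorem ke4_phi_nonneg {K Cf : ℝ} (hCf : 0 ≤ Cf) (c : ℤ → ℂ) (Q Nb : ℕ) (g₀ : ℂ → ℂ)
    (om : List (Fin Mc) → ℝ) (ν : List (Fin Mc)) : 0 ≤ phi K Cf c Q Nb g₀ om ν := by
  cases ν with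
  | nil => exact le_rfl
  | cons d μ =>
    unfold phi
    have h1 := ke4_res_nonneg (om (d :: μ)) (2 * cr K / ((Nb : ℝ) * (Q : ℝ) ^ μ.length))
      (MM (blockF c (Nb * Q ^ (μ.length - 1)) (Nb * Q ^ μ.length)) (gsq c Q Nb g₀ om μ) (om μ))
    have h2 : 0 ≤ blk c (Nb * Q ^ (μ.length - 1)) (Nb * Q ^ μ.length) := Real.sqrt_nonneg _
    positivity

theorem ke4_Xs_nonneg {C X₀ : ℝ} (hC : 0 ≤ C) (hX : 0 ≤ X₀) (Q Nb : ℕ) {ph : List (Fin Mc) → ℝ}
    (hph : ∀ ν, 0 ≤ ph ν) (ν : List (Fin Mc)) : 0 ≤ Xs C X₀ Q Nb ph ν := by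
  induction ν with
  | nil => exact le_rfl
  | cons d ν ih =>
    cases ν with
    | nil => exact hX
    | cons e ν =>
      show 0 ≤ Xs C X₀ Q Nb ph (e :: ν) / 2 +
        C * (ph (d :: e :: ν) + 1 / ((Nb : ℝ) * (Q : ℝ) ^ ν.length))
      have := hph (d :: e :: ν)
      positivity

theorem ke4_Vs_nonneg {C V₀ : ℝ} (hC : 0 ≤ C) (hV : 0 ≤ V₀) (Q : ℕ) {X : List (Fin Mc) → ℝ}
    (hX : ∀ ν, 0 ≤ X ν) (ν : List (Fin Mc)) : 0 ≤ Vs C V₀ Q X ν := by
  induction ν with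
  | nil => exact le_rfl
  | cons d ν ih =>
    cases ν with
    | nil => exact hV
    | cons e ν =>
      show 0 ≤ 1 / (Q : ℝ) * ((1 + C * X (e :: ν)) * Vs C V₀ Q X (e :: ν) + C * X (e :: ν))
      have := hX (e :: ν)
      positivity

theorem ke4_Vs_le {C V₀ Vb x₁ : ℝ} (hC : 0 ≤ C) (hV0 : 0 ≤ V₀) (hVb : 1 ≤ Vb) (hV : V₀ ≤ Vb)
    (hx : C * x₁ ≤ 1 / 10) {Q : ℕ} (hQ : 16 ≤ Q) {X : List (Fin Mc) → ℝ} (hX : ∀ ν, 0 ≤ X ν)
    (d : Fin Mc) (ν : List (Fin Mc)) (ha : Tots X ν ≤ x₁) : Vs C V₀ Q X (d :: ν) ≤ Vb := by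
  induction ν generalizing d with
  | nil => exact hV
  | cons e ν ih =>
    have h1 := ih e ((ke4_tots_tail hX (e :: ν)).trans ha)
    have h2 := (ke4_le_tots hX e ν).trans ha
    have h3 : C * X (e :: ν) ≤ 1 / 10 := (mul_le_mul_of_nonneg_left h2 hC).trans hx
    have h4 : 0 ≤ C * X (e :: ν) := mul_nonneg hC (hX _)
    have h5 := ke4_Vs_nonneg hC hV0 Q hX (e :: ν)
    show 1 / (Q : ℝ) * ((1 + C * X (e :: ν)) * Vs C V₀ Q X (e :: ν) + C * X (e :: ν)) ≤ Vb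
    have hQ' : (16 : ℝ) ≤ Q := by exact_mod_cast hQ
    have h6 : 1 / (Q : ℝ) ≤ 1 / 16 := by
      apply one_div_le_one_div_of_le (by norm_num) hQ'
    have h7 : (1 + C * X (e :: ν)) * Vs C V₀ Q X (e :: ν) + C * X (e :: ν) ≤
        (1 + 1 / 10) * Vb + 1 / 10 := by gcongr
    calc 1 / (Q : ℝ) * ((1 + C * X (e :: ν)) * Vs C V₀ Q X (e :: ν) + C * X (e :: ν))
        ≤ 1 / 16 * ((1 + 1 / 10) * Vb + 1 / 10) := by
          apply mul_le_mul h6 h7 (by positivity) (by norm_num)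
      _ ≤ Vb := by linarith

end avg

end Pool.Agent.MP_b87ea9_an.Kam
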