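import Mathlib
import Pool.Agent.Lib.MP_b87ea9_an.KDefs
import Pool.Agent.Lib.MP_b87ea9_an.KDefs2
import Pool.Agent.Lib.MP_b87ea9_an.KDefs3
import Pool.Agent.Lib.MP_b87ea9_an.KDefs4
import Pool.Agent.Lib.MP_b87ea9_an.KE1
import Pool.Agent.Lib.MP_b87ea9_an.KE3
import Pool.Agent.Lib.MP_b87ea9_an.KE4a
import Pool.Agent.Lib.MP_b87ea9_an.KD2
import Pool.Agent.Lib.MP_b87ea9_an.KD0

set_option autoImplicit false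

/-! Analytic input of the recursion of the averages -/

namespace Pool.Agent.MP_b87ea9_an.Kam

open Real MeasureTheory

theorem ke4_res_add {ω r r₀ γ Nb : ℝ} {f f' : ℂ → ℂ} (h : HP r₀ f) (h' : HP r₀ f') (hr₀ : 0 < r₀)
    (hr : r < r₀) (hγ : 0 < γ) (hNb : 1 ≤ Nb) (R : Rot γ Nb ω) :
    res ω r (fun z => f z + f' z) ≤ res ω r f + res ω r f' := by
  have s1 := (invD_res h hr₀ hγ hNb R hr).2
  have s2 := (invD_res h' hr₀ hγ hNb R hr).2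
  have s3 := (invD_res (hp_add h h') hr₀ hγ hNb R hr).2
  unfold res
  rw [← s1.tsum_add s2]
  refine s3.tsum_le_tsum (fun n => ?_) (s1.add s2)
  by_cases hn : n = 0
  · simp [hn]
  · simp only [if_neg hn]
    rw [fc_add h h' hr₀ n, ← add_div, ← add_mul]
    gcongr
    exact norm_add_le _ _

theorem ke4_dif_mono {K r r' : ℝ} {φ : ℂ → ℂ} (D : Dif K r φ) (hr : r' ≤ r) : Dif K r' φ where
  hol := D.hol.mono fun _ hz => kd2_strip_mono hz hr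
  per := D.per
  re := D.re
  lo := D.lo
  bd z hz := D.bd z (kd2_strip_mono hz hr)

section run

variable {K γ Vb A σ x₁ C Cf Ct X₀ V₀ S₀ D₀ T₀ : ℝ} {Q Nb Mc : ℕ} {c : ℤ → ℂ} {g₀ : ℂ → ℂ}
    {om : List (Fin Mc) → ℝ}

/-- the bound `X` of a run -/
noncomputable abbrev ke4X (K C Cf X₀ : ℝ) (Q Nb : ℕ) {Mc : ℕ} (c : ℤ → ℂ) (g₀ : ℂ → ℂ)
    (om : List (Fin Mc) → ℝ) : List (Fin Mc) → ℝ := Xs C X₀ Q Nb (phi K Cf c Q Nb g₀ om)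

/-- the bound `V` of a run -/
noncomputable abbrev ke4V (K C Cf X₀ V₀ : ℝ) (Q Nb : ℕ) {Mc : ℕ} (c : ℤ → ℂ) (g₀ : ℂ → ℂ)
    (om : List (Fin Mc) → ℝ) : List (Fin Mc) → ℝ :=
  Vs C V₀ Q (Xs C X₀ Q Nb (phi K Cf c Q Nb g₀ om))

/-- the block function `MM` of level `j` at the node `ν` -/
noncomputable def ke4G (c : ℤ → ℂ) (Q Nb : ℕ) {Mc : ℕ} (g₀ : ℂ → ℂ) (om : List (Fin Mc) → ℝ)
    (j : ℕ) (ν : List (Fin Mc)) : ℂ → ℂ :=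
  MM (blockF c (Nb * Q ^ (j - 1)) (Nb * Q ^ j)) (gsq c Q Nb g₀ om ν) (om ν)

theorem ke4_X_nonneg (R : Run K γ Vb A σ x₁ C Cf Ct X₀ V₀ S₀ D₀ T₀ Q Nb Mc c g₀ om)
    (ν : List (Fin Mc)) : 0 ≤ ke4X K C Cf X₀ Q Nb c g₀ om ν :=
  ke4_Xs_nonneg (by linarith [R.C1]) R.X0 Q Nb
    (fun ν => ke4_phi_nonneg (by linarith [R.Cf1]) c Q Nb g₀ om ν) ν

theorem ke4_V_nonneg (R : Run K γ Vb A σ x₁ C Cf Ct X₀ V₀ S₀ D₀ T₀ Q Nb Mc c g₀ om)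
    (ν : List (Fin Mc)) : 0 ≤ ke4V K C Cf X₀ V₀ Q Nb c g₀ om ν :=
  ke4_Vs_nonneg (by linarith [R.C1]) R.V0 Q (ke4_X_nonneg R) ν

theorem ke4_Cx (R : Run K γ Vb A σ x₁ C Cf Ct X₀ V₀ S₀ D₀ T₀ Q Nb Mc c g₀ om) :
    C * x₁ ≤ 1 / 10 ∧ A * x₁ ≤ 1 := by
  have h1 := R.x1
  have h2 := R.C1
  have h3 := R.A1
  have h4 := R.x0
  constructor
  · have : C * x₁ ≤ C * x₁ * A := by
      have : 0 ≤ C * x₁ := by positivity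
      nlinarith
    nlinarith
  · have : A * x₁ ≤ A * x₁ * (10 * C) := by
      have : 0 ≤ A * x₁ := by positivity
      nlinarith
    nlinarith

theorem ke4_scales (R : Run K γ Vb A σ x₁ C Cf Ct X₀ V₀ S₀ D₀ T₀ Q Nb Mc c g₀ om) (j : ℕ) :
    1 ≤ Nb * Q ^ j ∧ (Nb : ℝ) ≤ ((Nb * Q ^ j : ℕ) : ℝ) ∧ (1 : ℝ) ≤ Nb ∧ (16 : ℝ) ≤ Q ∧
      (1 : ℝ) ≤ ((Nb * Q ^ j : ℕ) : ℝ) := by
  have h1 : 16 ≤ Q := R.Q16
  have h2 : Q ≤ Nb := R.NbQ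
  have h3 : 1 ≤ Q ^ j := Nat.one_le_pow _ _ (by omega)
  have h4 : 1 ≤ Nb * Q ^ j := Nat.mul_pos (by omega) (by omega)
  refine ⟨h4, ?_, ?_, ?_, ?_⟩
  · have : Nb ≤ Nb * Q ^ j := Nat.le_mul_of_pos_right _ (by omega)
    exact_mod_cast this
  · have : 1 ≤ Nb := by omega
    exact_mod_cast this
  · exact_mod_cast h1
  · exact_mod_cast h4

/-- the state at an alive node -/
theorem ke4_node (R : Run K γ Vb A σ x₁ C Cf Ct X₀ V₀ S₀ D₀ T₀ Q Nb Mc c g₀ om) (e : Fin Mc)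
    (ν : List (Fin Mc)) (ha : Tots (ke4X K C Cf X₀ Q Nb c g₀ om) (e :: ν) ≤ x₁) {j : ℕ}
    (hj : ν.length + 1 ≤ j) :
    Dif K (4 * cr K / (Nb * Q ^ j : ℕ)) (gsq c Q Nb g₀ om ν) ∧
    HP (4 * cr K / (Nb * Q ^ j : ℕ)) (fun z => gsq c Q Nb g₀ om ν z - z) ∧
    Dif K (4 * cr K / (Nb * Q ^ j : ℕ)) (gsq c Q Nb g₀ om (e :: ν)) ∧
    HP (4 * cr K / (Nb * Q ^ j : ℕ)) (fun z => gsq c Q Nb g₀ om (e :: ν) z - z) ∧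
    ∀ z ∈ Strip (4 * cr K / (Nb * Q ^ j : ℕ)),
      ‖gsq c Q Nb g₀ om (e :: ν) z - gsq c Q Nb g₀ om ν z‖ ≤
        C * (ke4X K C Cf X₀ Q Nb c g₀ om (e :: ν) + ke4V K C Cf X₀ V₀ Q Nb c g₀ om (e :: ν)) /
          (Nb * Q ^ ν.length : ℕ) ∧
      ‖gsq c Q Nb g₀ om (e :: ν) (z + om (e :: ν)) - gsq c Q Nb g₀ om ν (z + om ν)‖ ≤
        C * (ke4X K C Cf X₀ Q Nb c g₀ om (e :: ν) + ke4V K C Cf X₀ V₀ Q Nb c g₀ om (e :: ν)) /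
          (Nb * Q ^ ν.length : ℕ) ∧
      ‖deriv (gsq c Q Nb g₀ om (e :: ν)) z - deriv (gsq c Q Nb g₀ om ν) z‖ ≤
        C * (ke4X K C Cf X₀ Q Nb c g₀ om (e :: ν) + ke4V K C Cf X₀ V₀ Q Nb c g₀ om (e :: ν)) ∧
      ‖deriv (gsq c Q Nb g₀ om (e :: ν)) (z + om (e :: ν)) -
          deriv (gsq c Q Nb g₀ om ν) (z + om ν)‖ ≤
        C * (ke4X K C Cf X₀ Q Nb c g₀ om (e :: ν) + ke4V K C Cf X₀ V₀ Q Nb c g₀ om (e :: ν)) ∧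
      ‖(gsq c Q Nb g₀ om (e :: ν) (z + om (e :: ν)) - gsq c Q Nb g₀ om (e :: ν) z) -
          (gsq c Q Nb g₀ om ν (z + om ν) - gsq c Q Nb g₀ om ν z)‖ ≤
        C * (ke4X K C Cf X₀ Q Nb c g₀ om (e :: ν) + ke4V K C Cf X₀ V₀ Q Nb c g₀ om (e :: ν)) /
          Nb := by
  have hX := ke4_X_nonneg R
  have hV := ke4_V_nonneg R
  obtain ⟨hCx, hAx⟩ := ke4_Cx R
  have hC0 : 0 ≤ C := by linarith [R.C1]
  have hA0 : 0 ≤ A := by linarith [R.A1]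
  have haν : Tots (ke4X K C Cf X₀ Q Nb c g₀ om) ν ≤ x₁ := (ke4_tots_tail hX (e :: ν)).trans ha
  have hXe : ke4X K C Cf X₀ Q Nb c g₀ om (e :: ν) ≤ x₁ := (ke4_le_tots hX e ν).trans ha
  have hL := lev_tree R e ν haν ((mul_le_mul_of_nonneg_left hXe hA0).trans hAx)
  have hVe : ke4V K C Cf X₀ V₀ Q Nb c g₀ om (e :: ν) ≤ Vb :=
    ke4_Vs_le hC0 R.V0 R.Vb1 R.V0b hCx R.Q16 hX e ν haν
  have hT0 := ke4_tots_nonneg hX ν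
  have hS0 : 0 ≤ S₀ + C * Tots (ke4X K C Cf X₀ Q Nb c g₀ om) ν := by
    have := R.S0; positivity
  have hS1 : S₀ + C * Tots (ke4X K C Cf X₀ Q Nb c g₀ om) ν +
      C * ke4X K C Cf X₀ Q Nb c g₀ om (e :: ν) ≤ 1 / 2 := by
    have h1 : C * (ke4X K C Cf X₀ Q Nb c g₀ om (e :: ν) +
        Tots (ke4X K C Cf X₀ Q Nb c g₀ om) ν) ≤ C * x₁ := mul_le_mul_of_nonneg_left ha hC0
    have h2 := R.S0'
    linarith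
  obtain ⟨d1, d2, d3, d4, d5⟩ := R.dif _ _ _ _ _ _ _ _ _ _ hL hXe hVe hS0 hS1
  obtain ⟨hB1, _, hNb1, hQ16, hB1'⟩ := ke4_scales R j
  obtain ⟨hN1, _, _, _, hN1'⟩ := ke4_scales R ν.length
  have hQN : Q * (Nb * Q ^ ν.length) ≤ Nb * Q ^ j := by
    have h1 : Q ^ (ν.length + 1) ≤ Q ^ j := Nat.pow_le_pow_right (by have := R.Q16; omega) hj
    calc Q * (Nb * Q ^ ν.length) = Nb * Q ^ (ν.length + 1) := by ring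
      _ ≤ Nb * Q ^ j := Nat.mul_le_mul_left _ h1
  have hcr := kd2_cr_pos R.K1
  have hr : 4 * cr K / ((Nb * Q ^ j : ℕ) : ℝ) ≤ 4 * cr K / ((Q * (Nb * Q ^ ν.length) : ℕ) : ℝ) := by
    apply div_le_div_of_nonneg_left (by positivity)
    · have : 0 < Q * (Nb * Q ^ ν.length) := Nat.mul_pos (by have := R.Q16; omega) (by omega)
      exact_mod_cast this
    · exact_mod_cast hQN
  refine ⟨ke4_dif_mono d1 hr, hp_mono d2 hr, ke4_dif_mono d3 hr, hp_mono d4 hr, ?_⟩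
  intro z hz
  obtain ⟨e1, e2, e3, e4, e5⟩ := d5 z (kd2_strip_mono hz hr)
  have hle : C * (ke4X K C Cf X₀ Q Nb c g₀ om (e :: ν) +
      σ * ke4V K C Cf X₀ V₀ Q Nb c g₀ om (e :: ν)) ≤
      C * (ke4X K C Cf X₀ Q Nb c g₀ om (e :: ν) + ke4V K C Cf X₀ V₀ Q Nb c g₀ om (e :: ν)) := by
    have h1 : σ * ke4V K C Cf X₀ V₀ Q Nb c g₀ om (e :: ν) ≤
        ke4V K C Cf X₀ V₀ Q Nb c g₀ om (e :: ν) := by
      have := hV (e :: ν)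
      have h2 := R.σ1
      nlinarith
    gcongr
  have hN0 : (0 : ℝ) < ((Nb * Q ^ ν.length : ℕ) : ℝ) := by linarith
  have hNb0 : (0 : ℝ) < Nb := by linarith
  exact ⟨e1.trans (div_le_div_of_nonneg_right hle hN0.le),
    e2.trans (div_le_div_of_nonneg_right hle hN0.le), e3.trans hle, e4.trans hle,
    e5.trans (div_le_div_of_nonneg_right hle hNb0.le)⟩

theorem ke4_G_hp (R : Run K γ Vb A σ x₁ C Cf Ct X₀ V₀ S₀ D₀ T₀ Q Nb Mc c g₀ om) {j : ℕ}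
    (hj : 1 ≤ j) {ν : List (Fin Mc)} (D : Dif K (4 * cr K / (Nb * Q ^ j : ℕ)) (gsq c Q Nb g₀ om ν))
    (hp : HP (4 * cr K / (Nb * Q ^ j : ℕ)) (fun z => gsq c Q Nb g₀ om ν z - z)) :
    HP (4 * cr K / (Nb * Q ^ j : ℕ)) (ke4G c Q Nb g₀ om j ν) := by
  obtain ⟨hB1, hNbB, hNb1, hQ16, hB1'⟩ := ke4_scales R j
  obtain ⟨hA1, _, _, _, hA1'⟩ := ke4_scales R (j - 1)
  obtain ⟨C1, _, h⟩ := EX_bound K Q (by linarith)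
  have hj' : j - 1 + 1 = j := by omega
  have hQ1 : 1 ≤ Q := by have := R.Q16; omega
  refine (h c (Nb * Q ^ (j - 1)) (Nb * Q ^ j) Nb (om ν) _ R.K1 hA1 ?_ ?_ R.Nb1 (R.tree.rot ν).lo
    (R.tree.rot ν).hi R.crs D hp).2.1
  · exact Nat.mul_le_mul_left _ (Nat.pow_le_pow_right hQ1 (by omega))
  · conv_lhs => rw [← hj', pow_succ]
    push_cast
    apply le_of_eq; ring

theorem ke4_G_base (K Q' : ℝ) (hQ' : 1 ≤ Q') : ∃ C1 : ℝ, 1 ≤ C1 ∧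
    ∀ {γ Vb A σ x₁ C Cf Ct X₀ V₀ S₀ D₀ T₀ : ℝ} {Q Nb Mc : ℕ} {c : ℤ → ℂ} {g₀ : ℂ → ℂ}
      {om : List (Fin Mc) → ℝ}, (Q : ℝ) = Q' →
      Run K γ Vb A σ x₁ C Cf Ct X₀ V₀ S₀ D₀ T₀ Q Nb Mc c g₀ om → ∀ {j : ℕ}, 1 ≤ j →
      ∀ {ν : List (Fin Mc)}, Dif K (4 * cr K / (Nb * Q ^ j : ℕ)) (gsq c Q Nb g₀ om ν) →
      HP (4 * cr K / (Nb * Q ^ j : ℕ)) (fun z => gsq c Q Nb g₀ om ν z - z) →
      HN (3 * cr K / (Nb * Q ^ j : ℕ)) (ke4G c Q Nb g₀ om j ν)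
        (C1 * blk c (Nb * Q ^ (j - 1)) (Nb * Q ^ j) / (Nb * ((Nb * Q ^ j : ℕ) : ℝ) ^ 3)) := by
  obtain ⟨C1, hC1, h⟩ := MM_high K Q' hQ'
  refine ⟨C1, hC1, ?_⟩
  intro γ Vb A σ x₁ C Cf Ct X₀ V₀ S₀ D₀ T₀ Q Nb Mc c g₀ om hQQ R j hj ν D hp
  obtain ⟨hB1, hNbB, hNb1, hQ16, hB1'⟩ := ke4_scales R j
  obtain ⟨hA1, _, _, _, hA1'⟩ := ke4_scales R (j - 1)
  have hj' : j - 1 + 1 = j := by omega
  have hQ1 : 1 ≤ Q := by have := R.Q16; omega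
  refine h c (Nb * Q ^ (j - 1)) (Nb * Q ^ j) Nb (om ν) _ R.K1 hA1 ?_ ?_ R.Nb1 hNbB (R.tree.rot ν).lo
    (R.tree.rot ν).hi R.crs D hp
  · exact Nat.mul_le_mul_left _ (Nat.pow_le_pow_right hQ1 (by omega))
  · rw [← hQQ]
    conv_lhs => rw [← hj', pow_succ]
    push_cast
    apply le_of_eq; ring

theorem ke4_G_diff (K Q' : ℝ) (hQ' : 1 ≤ Q') : ∃ C2 : ℝ, 1 ≤ C2 ∧
    ∀ {γ Vb A σ x₁ C Cf Ct X₀ V₀ S₀ D₀ T₀ : ℝ} {Q Nb Mc : ℕ} {c : ℤ → ℂ} {g₀ : ℂ → ℂ}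
      {om : List (Fin Mc) → ℝ}, (Q : ℝ) = Q' →
      Run K γ Vb A σ x₁ C Cf Ct X₀ V₀ S₀ D₀ T₀ Q Nb Mc c g₀ om → ∀ {j : ℕ} (e : Fin Mc)
      (ν : List (Fin Mc)), Tots (ke4X K C Cf X₀ Q Nb c g₀ om) (e :: ν) ≤ x₁ → ν.length + 1 ≤ j →
      HN (3 * cr K / (Nb * Q ^ j : ℕ))
        (fun z => ke4G c Q Nb g₀ om j (e :: ν) z - ke4G c Q Nb g₀ om j ν z)
        (C2 * blk c (Nb * Q ^ (j - 1)) (Nb * Q ^ j) / (Nb * ((Nb * Q ^ j : ℕ) : ℝ) ^ 3) *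
          (Q : ℝ) ^ (j - ν.length) * (C * (ke4X K C Cf X₀ Q Nb c g₀ om (e :: ν) +
            ke4V K C Cf X₀ V₀ Q Nb c g₀ om (e :: ν)))) := by
  obtain ⟨C2, hC2, h⟩ := MM_diff K Q' hQ'
  refine ⟨C2, hC2, ?_⟩
  intro γ Vb A σ x₁ C Cf Ct X₀ V₀ S₀ D₀ T₀ Q Nb Mc c g₀ om hQQ R j e ν ha hj
  obtain ⟨hB1, hNbB, hNb1, hQ16, hB1'⟩ := ke4_scales R j
  obtain ⟨hA1, _, _, _, hA1'⟩ := ke4_scales R (j - 1)
  obtain ⟨hN1, _, _, _, hN1'⟩ := ke4_scales R ν.length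
  obtain ⟨D1, p1, D2, p2, hd⟩ := ke4_node R e ν ha hj
  have hj' : j - 1 + 1 = j := by omega
  have hQ1 : 1 ≤ Q := by have := R.Q16; omega
  have hXe := ke4_X_nonneg R (e :: ν)
  have hVe := ke4_V_nonneg R (e :: ν)
  have hC0 : 0 ≤ C := by linarith [R.C1]
  have hNB : Nb * Q ^ ν.length ≤ Nb * Q ^ j :=
    Nat.mul_le_mul_left _ (Nat.pow_le_pow_right hQ1 (by omega))
  have key := h c (Nb * Q ^ (j - 1)) (Nb * Q ^ j) ((Nb * Q ^ ν.length : ℕ) : ℝ) Nb (om ν)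
    (om (e :: ν)) (C * (ke4X K C Cf X₀ Q Nb c g₀ om (e :: ν) +
      ke4V K C Cf X₀ V₀ Q Nb c g₀ om (e :: ν))) _ _ R.K1 hA1
    (Nat.mul_le_mul_left _ (Nat.pow_le_pow_right hQ1 (by omega))) (by
      rw [← hQQ]
      conv_lhs => rw [← hj', pow_succ]
      push_cast
      apply le_of_eq; ring) R.Nb1 hNbB hN1' (by exact_mod_cast hNB) (R.tree.rot ν).lo
    (R.tree.rot ν).hi (R.tree.rot (e :: ν)).lo (R.tree.rot (e :: ν)).hi R.crs D1 D2 p1 p2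
    (by positivity) hd
  have hBN : ((Nb * Q ^ j : ℕ) : ℝ) / ((Nb * Q ^ ν.length : ℕ) : ℝ) = (Q : ℝ) ^ (j - ν.length) := by
    have h1 : Q ^ j = Q ^ (j - ν.length) * Q ^ ν.length := by
      rw [← pow_add]; congr 1; omega
    rw [h1]
    push_cast
    have hQ0 : (Q : ℝ) ≠ 0 := by positivity
    have hNb0 : (Nb : ℝ) ≠ 0 := by positivity
    field_simp
  rw [hBN] at key
  exact key

theorem ke4_avg_res (K γ Ct Q' : ℝ) (hK : 1 ≤ K) (hγ : 0 < γ) (hγ1 : γ ≤ 1) (hQ' : 1 ≤ Q')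
    (hCt : 0 ≤ Ct) :
    ∃ C3 : ℝ, 1 ≤ C3 ∧
    ∀ {Vb A σ x₁ C Cf X₀ V₀ S₀ D₀ T₀ : ℝ} {Q Nb Mc : ℕ} {c : ℤ → ℂ} {g₀ : ℂ → ℂ}
      {om : List (Fin Mc) → ℝ}, (Q : ℝ) = Q' →
      Run K γ Vb A σ x₁ C Cf Ct X₀ V₀ S₀ D₀ T₀ Q Nb Mc c g₀ om → ∀ (j m : ℕ)
      (ν : List (Fin Mc)), ν.length + m = j + 1 → m ≤ ν.length → ∀ (G : ℂ → ℂ) (M : ℝ), 0 ≤ M →
      HP (4 * cr K / (Nb * Q ^ j : ℕ)) G → HN (3 * cr K / (Nb * Q ^ j : ℕ)) G M →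
      avg m (fun ρ => res (om ρ) (2 * cr K / (Nb * Q ^ j : ℕ)) G ^ 2) ν ≤
        C3 * (Q * ((Nb * Q ^ j : ℕ) : ℝ)) ^ 2 * M ^ 2 * (2 * (Q : ℝ) ^ (-(3 / 2) : ℝ)) ^ m := by
  have hcr := kd2_cr_pos hK
  obtain ⟨C3, hC3, h⟩ := avg_res (cr K * Q') γ Ct Q' (by positivity) hγ hγ1 hQ' hCt
  refine ⟨C3, hC3, ?_⟩
  intro Vb A σ x₁ C Cf X₀ V₀ S₀ D₀ T₀ Q Nb Mc c g₀ om hQQ R j m ν hjm hm G M hM hG hN
  obtain ⟨hB1, hNbB, hNb1, hQ16, hB1'⟩ := ke4_scales R j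
  have hB0 : (0 : ℝ) < ((Nb * Q ^ j : ℕ) : ℝ) := by linarith
  have hQ0 : (0 : ℝ) < Q := by linarith
  have hNb0 : (0 : ℝ) < Nb := by linarith
  have e1 : (Nb : ℝ) * (Q : ℝ) ^ (ν.length + m) = Q * ((Nb * Q ^ j : ℕ) : ℝ) := by
    rw [hjm, pow_succ]; push_cast; ring
  have e2 : 2 * cr K / ((Nb * Q ^ j : ℕ) : ℝ) + cr K * (Q : ℝ) / ((Nb : ℝ) * (Q : ℝ) ^ (ν.length + m)) =
      3 * cr K / ((Nb * Q ^ j : ℕ) : ℝ) := by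
    rw [e1]
    field_simp
    ring
  have hG3 : HP (3 * cr K / (Nb * Q ^ j : ℕ)) G := by
    refine hp_mono hG ?_
    gcongr; norm_num
  have key := h (Nb : ℝ) Mc om ν m (2 * cr K / ((Nb * Q ^ j : ℕ) : ℝ)) M
    ((2 * (Q : ℝ) ^ (-(3 / 2) : ℝ)) ^ m) G hNb1 R.tree.Mc0 (by positivity) hM R.tree.rot
    (by rw [← hQQ, e2]; exact hG3) (by rw [← hQQ, e2]; exact hN) (by
      intro n hn
      rw [← hQQ]
      exact R.tree.wt ν m hm n hn)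
  rw [← hQQ, e1] at key
  exact key

end run

end Pool.Agent.MP_b87ea9_an.Kam
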