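import Mathlib
import Pool.Agent.Lib.MP_b87ea9_an.KDefs
import Pool.Agent.Lib.MP_b87ea9_an.KDefs2
import Pool.Agent.Lib.MP_b87ea9_an.KDefs3
import Pool.Agent.Lib.MP_b87ea9_an.KDefs4
import Pool.Agent.Lib.MP_b87ea9_an.KE1
import Pool.Agent.Lib.MP_b87ea9_an.KE3
import Pool.Agent.Lib.MP_b87ea9_an.KE4a
import Pool.Agent.Lib.MP_b87ea9_an.KE4b
import Pool.Agent.Lib.MP_b87ea9_an.KD2
import Pool.Agent.Lib.MP_b87ea9_an.KD0

set_option autoImplicit false

/-! The recursion of the averages -/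

namespace Pool.Agent.MP_b87ea9_an.Kam

open Real MeasureTheory

section run

variable {K γ Vb A σ x₁ C Cf Ct X₀ V₀ S₀ D₀ T₀ : ℝ} {Q Nb Mc : ℕ} {c : ℤ → ℂ} {g₀ : ℂ → ℂ}
    {om : List (Fin Mc) → ℝ}

/-- telescoping along the suffixes of a word -/
theorem ke4_tel (R : Run K γ Vb A σ x₁ C Cf Ct X₀ V₀ S₀ D₀ T₀ Q Nb Mc c g₀ om) {j : ℕ}
    {μ : List (Fin Mc)} (hμ : μ.length = j) (ha : Tots (ke4X K C Cf X₀ Q Nb c g₀ om) μ ≤ x₁)
    {ω : ℝ} (hω : Rot γ Nb ω) (n : ℕ) (hn : n + 1 ≤ j) :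
    res ω (2 * cr K / (Nb * Q ^ j : ℕ)) (ke4G c Q Nb g₀ om j μ) ≤
      res ω (2 * cr K / (Nb * Q ^ j : ℕ)) (ke4G c Q Nb g₀ om j (μ.drop n)) +
      ∑ k ∈ Finset.range n, res ω (2 * cr K / (Nb * Q ^ j : ℕ))
        (fun z => ke4G c Q Nb g₀ om j (μ.drop k) z - ke4G c Q Nb g₀ om j (μ.drop k).tail z) := by
  induction n with
  | zero => simp
  | succ n ih =>
    refine (ih (by omega)).trans ?_
    rw [Finset.sum_range_succ]
    have hX := ke4_X_nonneg R
    obtain ⟨e, ν, hν⟩ : ∃ e ν, μ.drop n = e :: ν := by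
      cases h : μ.drop n with
      | nil =>
        have := congrArg List.length h
        rw [List.length_drop] at this
        simp at this
        omega
      | cons e ν => exact ⟨e, ν, rfl⟩
    have hν' : μ.drop (n + 1) = ν := by
      have : μ.drop (n + 1) = (μ.drop n).tail := by rw [List.tail_drop]
      rw [this, hν, List.tail_cons]
    have hlen : ν.length + 1 + n = j := by
      have := congrArg List.length hν
      rw [List.length_drop, List.length_cons] at this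
      omega
    have hal : Tots (ke4X K C Cf X₀ Q Nb c g₀ om) (e :: ν) ≤ x₁ := by
      rw [← hν]; exact (ke4_tots_drop hX μ n).trans ha
    obtain ⟨D1, p1, D2, p2, _⟩ := ke4_node R e ν hal (j := j) (by omega)
    have q1 := ke4_G_hp R (by omega) D1 p1
    have q2 := ke4_G_hp R (by omega) D2 p2
    obtain ⟨_, _, hNb1, _, hB1⟩ := ke4_scales R j
    have hcr := kd2_cr_pos R.K1
    have hB0 : (0 : ℝ) < ((Nb * Q ^ j : ℕ) : ℝ) := by linarith
    have hadd := ke4_res_add (ω := ω) q1 (hp_sub q2 q1) (by positivity)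
      (show 2 * cr K / ((Nb * Q ^ j : ℕ) : ℝ) < 4 * cr K / ((Nb * Q ^ j : ℕ) : ℝ) by
        rw [div_lt_div_iff_of_pos_right hB0]; linarith only [hcr]) R.γ0 hNb1 hω
    have hfun : (fun z => ke4G c Q Nb g₀ om j ν z +
        (ke4G c Q Nb g₀ om j (e :: ν) z - ke4G c Q Nb g₀ om j ν z)) =
        ke4G c Q Nb g₀ om j (e :: ν) := by
      funext z; ring
    rw [hfun] at hadd
    rw [hν', hν, List.tail_cons]
    linarith only [hadd]

end run

theorem ke4_theta {Q : ℝ} (hQ : 0 < Q) (m : ℕ) :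
    (2 * Q ^ (-(3 / 2) : ℝ)) ^ m = (((2 * Q ^ (-(3 / 2) : ℝ)) ^ (1 / 2 : ℝ)) ^ m) ^ 2 := by
  have h0 : 0 ≤ 2 * Q ^ (-(3 / 2) : ℝ) := by positivity
  rw [← Real.sqrt_eq_rpow, ← pow_mul, mul_comm m 2, pow_mul, Real.sq_sqrt h0]

theorem ke4_sqrt_scale {B : ℝ} (hB : 1 ≤ B) : 1 / B ≤ B ^ (-(1 / 2) : ℝ) := by
  rw [one_div, ← Real.rpow_neg_one]
  exact Real.rpow_le_rpow_of_exponent_le hB (by norm_num)

/-- recursion of the root mean squares; `θ = (2 Q^{-3/2})^{1/2}`, `β = Q θ` -/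
theorem expect_x (K γ Q' : ℝ) (Vb A C Cf Ct : ℝ) : ∃ C' : ℝ, 1 ≤ C' ∧
    ∀ {σ x₁ X₀ V₀ S₀ D₀ T₀ : ℝ} {Q Nb Mc : ℕ} {c : ℤ → ℂ} {g₀ : ℂ → ℂ} {om : List (Fin Mc) → ℝ},
      (Q : ℝ) = Q' → Run K γ Vb A σ x₁ C Cf Ct X₀ V₀ S₀ D₀ T₀ Q Nb Mc c g₀ om →
      (∀ j : ℕ, blk c (Nb * Q ^ j) (Nb * Q ^ (j + 1)) ≤ 1) →
      ∀ j n : ℕ, 1 ≤ j → 2 * n + 1 ≤ j →
        rms x₁ (Xs C X₀ Q Nb (phi K Cf c Q Nb g₀ om)) (Xs C X₀ Q Nb (phi K Cf c Q Nb g₀ om)) (j + 1) ≤
          rms x₁ (Xs C X₀ Q Nb (phi K Cf c Q Nb g₀ om)) (Xs C X₀ Q Nb (phi K Cf c Q Nb g₀ om)) j / 2 +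
          C' * (blk c (Nb * Q ^ (j - 1)) (Nb * Q ^ j) *
            (((2 * (Q : ℝ) ^ (-(3 / 2) : ℝ)) ^ (1 / 2 : ℝ)) ^ (n + 1) +
              ∑ i ∈ Finset.Ioc (j - n) j, (Q * (2 * (Q : ℝ) ^ (-(3 / 2) : ℝ)) ^ (1 / 2 : ℝ)) ^ (j - i + 1) *
                (rms x₁ (Xs C X₀ Q Nb (phi K Cf c Q Nb g₀ om))
                    (Xs C X₀ Q Nb (phi K Cf c Q Nb g₀ om)) i +
                  rms x₁ (Xs C X₀ Q Nb (phi K Cf c Q Nb g₀ om))
                    (Vs C V₀ Q (Xs C X₀ Q Nb (phi K Cf c Q Nb g₀ om))) i)) +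
            ((Nb : ℝ) * (Q : ℝ) ^ j) ^ (-(1 / 2) : ℝ)) := by
  by_cases hK : 1 ≤ K
  swap
  · exact ⟨1, le_rfl, fun _ R => absurd R.K1 hK⟩
  by_cases hγ : 0 < γ
  swap
  · exact ⟨1, le_rfl, fun _ R => absurd R.γ0 hγ⟩
  by_cases hγ1 : γ ≤ 1
  swap
  · exact ⟨1, le_rfl, fun _ R => absurd R.γ1 hγ1⟩
  by_cases hCt : 1 ≤ Ct
  swap
  · exact ⟨1, le_rfl, fun _ R => absurd R.Ct1 hCt⟩
  by_cases hQ' : 1 ≤ Q'
  swap
  · refine ⟨1, le_rfl, fun hQQ R => absurd ?_ hQ'⟩
    have := R.Q16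
    rw [← hQQ]
    exact_mod_cast (by omega : 1 ≤ _)
  obtain ⟨C1, hC1, hbase⟩ := ke4_G_base K Q' hQ'
  obtain ⟨C2, hC2, hdiff⟩ := ke4_G_diff K Q' hQ'
  obtain ⟨C3, hC3, havg⟩ := ke4_avg_res K γ Ct Q' hK hγ hγ1 hQ' (by linarith)
  refine ⟨max 1 (C * (Cf + Q') + C * C3 * C1 * Q' + C ^ 2 * C3 * C2 * Q'), le_max_left _ _, ?_⟩
  intro σ x₁ X₀ V₀ S₀ D₀ T₀ Q Nb Mc c g₀ om hQQ R hb1 j n hj hn
  set X : List (Fin Mc) → ℝ := Xs C X₀ Q Nb (phi K Cf c Q Nb g₀ om) with hXdef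
  set V : List (Fin Mc) → ℝ := Vs C V₀ Q X with hVdef
  set θ : ℝ := (2 * (Q : ℝ) ^ (-(3 / 2) : ℝ)) ^ (1 / 2 : ℝ) with hθ
  set b : ℝ := blk c (Nb * Q ^ (j - 1)) (Nb * Q ^ j) with hbdef
  have hX : ∀ μ, 0 ≤ X μ := ke4_X_nonneg R
  have hV : ∀ μ, 0 ≤ V μ := ke4_V_nonneg R
  obtain ⟨hB1, hNbB, hNb1, hQ16, hB1'⟩ := ke4_scales R j
  have hC0 : 0 ≤ C := by linarith only [R.C1, R]
  have hCf0 : 0 ≤ Cf := by linarith only [R.Cf1, R]
  have hMc := R.tree.Mc0
  have hQ0 : (0 : ℝ) < Q := by linarith only [hQ16]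
  have hNb0 : (0 : ℝ) < Nb := by linarith only [hNb1]
  have hb0 : 0 ≤ b := Real.sqrt_nonneg _
  have hble : b ≤ 1 := by
    have := hb1 (j - 1)
    have hj' : j - 1 + 1 = j := by omega
    rw [hj'] at this
    exact this
  have hθ0 : 0 ≤ θ := by (clear * - hQ16; positivity)
  set B : ℝ := ((Nb * Q ^ j : ℕ) : ℝ) with hB
  have hBcast : (Nb : ℝ) * (Q : ℝ) ^ j = B := by rw [hB]; push_cast; ring
  have hB0 : 0 < B := by linarith only [hNb1, hNbB]
  set r : ℝ := 2 * cr K / B with hr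
  set G : List (Fin Mc) → ℂ → ℂ := ke4G c Q Nb g₀ om j with hG
  set W : ℝ := C * (Nb * B ^ 2) with hW
  have hW0 : 0 ≤ W := by (clear * - hB1 hNb1 hC0; positivity)
  -- the pieces
  set F : List (Fin Mc) → ℝ := fun ρ => if Tots X ρ.tail ≤ x₁ then X ρ else 0 with hF
  set a0 : List (Fin Mc) → ℝ := fun ρ => if Tots X ρ.tail ≤ x₁ then X ρ.tail / 2 else 0 with ha0
  set c1 : ℝ := C * (Cf * B ^ (-(1 / 2) : ℝ) * b + 1 / (Nb * (Q : ℝ) ^ (j - 1))) with hc1
  set a2 : List (Fin Mc) → ℝ := fun ρ => if Tots X ρ.tail ≤ x₁ then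
    W * res (om ρ) r (G (ρ.drop (n + 1))) else 0 with ha2
  set a3 : ℕ → List (Fin Mc) → ℝ := fun k ρ => if Tots X ρ.tail ≤ x₁ then
    W * res (om ρ) r (fun z => G (ρ.drop (k + 1)) z - G (ρ.drop (k + 1)).tail z) else 0 with ha3
  have hc10 : 0 ≤ c1 := by (clear * - hB1 hNb1 hQ16 hC0 hCf0 hb0; positivity)
  -- pointwise bound
  have hpt : ∀ ρ : List (Fin Mc), ρ.length = (j + 1) + ([] : List (Fin Mc)).length →
      ρ.drop (j + 1) = [] →
      0 ≤ F ρ ∧ F ρ ≤ a0 ρ + (c1 + (a2 ρ + ∑ k ∈ Finset.range n, a3 k ρ)) := by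
    intro ρ hρ _
    have hρ' : ρ.length = j + 1 := by simpa using hρ
    have hF0 : 0 ≤ F ρ := by
      simp only [hF]; split_ifs
      · exact hX ρ
      · exact le_rfl
    refine ⟨hF0, ?_⟩
    by_cases hal : Tots X ρ.tail ≤ x₁
    · obtain ⟨d, e, ν, rfl⟩ : ∃ d e ν, ρ = d :: e :: ν := by
        match ρ, hρ' with
        | [], h => simp at h
        | [d], h => simp at h; omega
        | d :: e :: ν, _ => exact ⟨d, e, ν, rfl⟩
      have hlen : (e :: ν).length = j := by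
        rw [List.length_cons] at hρ' ⊢; simp at hρ'; omega
      have hlen' : ν.length = j - 1 := by
        rw [List.length_cons] at hlen; (clear * - hj hρ hρ' hlen; omega)
      have hal0 := hal
      simp only [List.tail_cons] at hal
      have e1 : X (d :: e :: ν) = X (e :: ν) / 2 +
          C * (phi K Cf c Q Nb g₀ om (d :: e :: ν) + 1 / ((Nb : ℝ) * (Q : ℝ) ^ ν.length)) := rfl
      have e2 : phi K Cf c Q Nb g₀ om (d :: e :: ν) = Cf * B ^ (-(1 / 2) : ℝ) * b +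
          Nb * B ^ 2 * res (om (d :: e :: ν)) r (G (e :: ν)) := by
        rw [show phi K Cf c Q Nb g₀ om (d :: e :: ν) =
          Cf * ((Nb : ℝ) * (Q : ℝ) ^ (e :: ν).length) ^ (-(1 / 2) : ℝ) *
            blk c (Nb * Q ^ ((e :: ν).length - 1)) (Nb * Q ^ (e :: ν).length) +
          Nb * ((Nb : ℝ) * (Q : ℝ) ^ (e :: ν).length) ^ 2 *
            res (om (d :: e :: ν)) (2 * cr K / ((Nb : ℝ) * (Q : ℝ) ^ (e :: ν).length))
              (MM (blockF c (Nb * Q ^ ((e :: ν).length - 1)) (Nb * Q ^ (e :: ν).length))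
                (gsq c Q Nb g₀ om (e :: ν)) (om (e :: ν))) from rfl, hlen, hBcast]
        rfl
      have e3 := ke4_tel R hlen hal (R.tree.rot (d :: e :: ν)) n (by omega)
      simp only [hF, ha0, ha2, ha3, if_pos hal0]
      simp only [List.tail_cons]
      rw [e1, e2, hlen', ← Finset.mul_sum]
      have e4 : ∀ k, (d :: e :: ν).drop (k + 1) = (e :: ν).drop k := fun k => rfl
      simp only [e4]
      have e5 : W * res (om (d :: e :: ν)) r (G (e :: ν)) ≤
          W * (res (om (d :: e :: ν)) r (G ((e :: ν).drop n)) +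
            ∑ k ∈ Finset.range n, res (om (d :: e :: ν)) r
              (fun z => G ((e :: ν).drop k) z - G ((e :: ν).drop k).tail z)) :=
        mul_le_mul_of_nonneg_left e3 hW0
      rw [mul_add] at e5
      have e6 : C * (Cf * B ^ (-(1 / 2) : ℝ) * b + Nb * B ^ 2 *
          res (om (d :: e :: ν)) r (G (e :: ν)) + 1 / ((Nb : ℝ) * (Q : ℝ) ^ (j - 1))) =
          c1 + W * res (om (d :: e :: ν)) r (G (e :: ν)) := by
        rw [hc1, hW]; ring
      rw [e6]
      linarith only [e5]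
    · simp only [hF, ha0, ha2, ha3, if_neg hal]
      simp only [Finset.sum_const_zero]
      linarith only [hc10]
  have hmain : rms x₁ X X (j + 1) ≤ ke4N (j + 1) a0 [] + (c1 + (ke4N (j + 1) a2 [] +
      ∑ k ∈ Finset.range n, ke4N (j + 1) (a3 k) [])) := by
    rw [ke4_rms]
    calc ke4N (j + 1) F [] ≤ ke4N (j + 1) (fun ρ => a0 ρ +
          (c1 + (a2 ρ + ∑ k ∈ Finset.range n, a3 k ρ))) [] := ke4N_le hpt
      _ ≤ ke4N (j + 1) a0 [] + ke4N (j + 1) (fun ρ =>
          (c1 + (a2 ρ + ∑ k ∈ Finset.range n, a3 k ρ))) [] := ke4N_add _ _ _ _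
      _ ≤ ke4N (j + 1) a0 [] + (ke4N (j + 1) (fun _ => c1) [] + ke4N (j + 1) (fun ρ =>
          (a2 ρ + ∑ k ∈ Finset.range n, a3 k ρ)) []) := by
          gcongr; exact ke4N_add _ _ _ _
      _ ≤ ke4N (j + 1) a0 [] + (c1 + (ke4N (j + 1) a2 [] +
          ke4N (j + 1) (fun ρ => ∑ k ∈ Finset.range n, a3 k ρ) [])) := by
          rw [ke4N_const hMc _ hc10]
          gcongr; exact ke4N_add _ _ _ _
      _ ≤ _ := by
          gcongr; exact ke4N_sum hMc _ _ _ _
  -- first piece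
  have h0 : ke4N (j + 1) a0 [] ≤ rms x₁ X X j / 2 := by
    have h1 : ke4N (1 + j) a0 [] ≤
        ke4N j (fun ν => 1 / 2 * (if Tots X ν.tail ≤ x₁ then X ν else 0)) [] := by
      refine ke4N_tower fun ν _ => ?_
      have h2 : avg 1 (fun ρ => a0 ρ ^ 2) ν ≤
          avg 1 (fun _ => (1 / 2 * (if Tots X ν.tail ≤ x₁ then X ν else 0)) ^ 2) ν := by
        refine ke4_avg_le fun ρ _ hρ => ?_
        have hρ' : ρ.tail = ν := by rw [← hρ, List.drop_one]
        have h3 : 0 ≤ a0 ρ ∧ a0 ρ ≤ 1 / 2 * (if Tots X ν.tail ≤ x₁ then X ν else 0) := by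
          simp only [ha0, hρ']
          by_cases hal : Tots X ν ≤ x₁
          · have hal' := (ke4_tots_tail hX ν).trans hal
            rw [if_pos hal, if_pos hal']
            have := hX ν
            constructor <;> linarith only [this]
          · rw [if_neg hal]
            refine ⟨le_rfl, ?_⟩
            split_ifs
            · have := hX ν; linarith only [this]
            · norm_num
        obtain ⟨h4, h5⟩ := h3
        gcongr
      exact h2.trans (le_of_eq (ke4_avg_const hMc _ _ _))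
    rw [add_comm 1 j, ke4N_smul _ (by norm_num)] at h1
    rw [ke4_rms]
    linarith only [h1]
  -- base piece
  have hdrop : ∀ (ρ ν : List (Fin Mc)) (k : ℕ), ρ.drop (k + 1) = ν → ¬ Tots X ν ≤ x₁ →
      ¬ Tots X ρ.tail ≤ x₁ := by
    intro ρ ν k h1 h2 h3
    apply h2
    rw [← h1, ← List.drop_tail]
    exact (ke4_tots_drop hX _ _).trans h3
  have hcr := kd2_cr_pos hK
  have h2 : ke4N (j + 1) a2 [] ≤ C * C3 * C1 * Q * (b * θ ^ (n + 1)) := by
    set cb : ℝ := W * (C3 * (Q * B) * (C1 * b / (Nb * B ^ 3)) * θ ^ (n + 1)) with hcb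
    have hcb0 : 0 ≤ cb := by (clear * - hC1 hC3 hB1 hNb1 hQ16 hC0 hb0; positivity)
    have hnj : n + 1 + (j - n) = j + 1 := by (clear * - hn; omega)
    have h1 : ke4N (n + 1 + (j - n)) a2 [] ≤ ke4N (j - n) (fun _ : List (Fin Mc) => cb) [] := by
      refine ke4N_tower fun ν hν => ?_
      by_cases hal : Tots X ν ≤ x₁
      · obtain ⟨e, ν', rfl⟩ : ∃ e ν', ν = e :: ν' := by
          cases ν with
          | nil => simp at hν; omega
          | cons e ν' => exact ⟨e, ν', rfl⟩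
        have hlen : ν'.length + 1 = j - n := by simpa using hν
        obtain ⟨_, _, D2, p2, _⟩ := ke4_node R e ν' hal (j := j) (by omega)
        have g1 := ke4_G_hp R hj D2 p2
        have g2 := hbase hQQ R hj D2 p2
        have g3 := havg hQQ R j (n + 1) (e :: ν') (by rw [List.length_cons]; omega)
          (by rw [List.length_cons]; omega) _ _ (by (clear * - hC1 hB1 hNb1 hb0; positivity)) g1 g2
        calc avg (n + 1) (fun ρ => a2 ρ ^ 2) (e :: ν')
            ≤ avg (n + 1) (fun ρ => W ^ 2 * res (om ρ) r (G (e :: ν')) ^ 2) (e :: ν') := by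
              refine ke4_avg_le fun ρ _ hρ => ?_
              simp only [ha2, hρ]
              split_ifs
              · rw [mul_pow]
              · rw [zero_pow two_ne_zero]; (clear * -; positivity)
          _ = W ^ 2 * avg (n + 1) (fun ρ => res (om ρ) r (G (e :: ν')) ^ 2) (e :: ν') :=
              ke4_avg_smul _ _ _ _
          _ ≤ W ^ 2 * (C3 * (Q * B) ^ 2 * (C1 * b / (Nb * B ^ 3)) ^ 2 *
                (2 * (Q : ℝ) ^ (-(3 / 2) : ℝ)) ^ (n + 1)) := by
              gcongr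
          _ ≤ W ^ 2 * (C3 ^ 2 * (Q * B) ^ 2 * (C1 * b / (Nb * B ^ 3)) ^ 2 *
                (θ ^ (n + 1)) ^ 2) := by
              rw [ke4_theta hQ0]
              gcongr
              nlinarith only [hC3]
          _ = cb ^ 2 := by rw [hcb]; ring
      · calc avg (n + 1) (fun ρ => a2 ρ ^ 2) ν ≤ avg (n + 1) (fun _ => 0) ν := by
              refine ke4_avg_le fun ρ _ hρ => ?_
              simp only [ha2, if_neg (hdrop ρ ν n hρ hal)]
              norm_num
          _ = 0 := ke4_avg_const hMc _ _ _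
          _ ≤ cb ^ 2 := sq_nonneg _
    rw [hnj, ke4N_const hMc _ hcb0] at h1
    refine h1.trans (le_of_eq ?_)
    rw [hcb, hW]
    field_simp
  have h3 : ∀ k ∈ Finset.range n, ke4N (j + 1) (a3 k) [] ≤
      C ^ 2 * C3 * C2 * Q * (b * ((Q * θ) ^ (k + 1) * (rms x₁ X X (j - k) + rms x₁ X V (j - k)))) := by
    intro k hk
    have hkn : k < n := Finset.mem_range.1 hk
    set ck : ℝ := W * (C3 * (Q * B) * (C2 * b / (Nb * B ^ 3) * (Q : ℝ) ^ (k + 1) * C) *
      θ ^ (k + 1)) with hck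
    have hck0 : 0 ≤ ck := by (clear * - hC2 hC3 hB1 hNb1 hQ16 hC0 hb0; positivity)
    have hkj : k + 1 + (j - k) = j + 1 := by omega
    have h1 : ke4N (k + 1 + (j - k)) (a3 k) [] ≤
        ke4N (j - k) (fun ν => ck * (if Tots X ν.tail ≤ x₁ then X ν + V ν else 0)) [] := by
      refine ke4N_tower fun ν hν => ?_
      by_cases hal : Tots X ν ≤ x₁
      · obtain ⟨e, ν', rfl⟩ : ∃ e ν', ν = e :: ν' := by
          cases ν with
          | nil => simp at hν; omega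
          | cons e ν' => exact ⟨e, ν', rfl⟩
        have hlen : ν'.length + 1 = j - k := by simpa using hν
        have hal' : Tots X (e :: ν').tail ≤ x₁ := (ke4_tots_tail hX _).trans hal
        obtain ⟨D1, p1, D2, p2, _⟩ := ke4_node R e ν' hal (j := j) (by omega)
        have g1 := hp_sub (ke4_G_hp R hj D2 p2) (ke4_G_hp R hj D1 p1)
        have g2 := hdiff hQQ R (j := j) e ν' hal (by omega)
        have hexp : j - ν'.length = k + 1 := by omega
        rw [hexp] at g2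
        have hXV : 0 ≤ X (e :: ν') + V (e :: ν') := add_nonneg (hX _) (hV _)
        have g3 := havg hQQ R j (k + 1) (e :: ν') (by rw [List.length_cons]; omega)
          (by rw [List.length_cons]; omega) _ _ (by
            have : 0 ≤ C * (X (e :: ν') + V (e :: ν')) := mul_nonneg hC0 hXV
            (clear * - hC2 hB1 hNb1 hQ16 hC0 hb0 hXV; positivity)) g1 g2
        rw [if_pos hal']
        calc avg (k + 1) (fun ρ => a3 k ρ ^ 2) (e :: ν')
            ≤ avg (k + 1) (fun ρ => W ^ 2 * res (om ρ) r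
                (fun z => G (e :: ν') z - G ν' z) ^ 2) (e :: ν') := by
              refine ke4_avg_le fun ρ _ hρ => ?_
              simp only [ha3, hρ, List.tail_cons]
              split_ifs
              · rw [mul_pow]
              · rw [zero_pow two_ne_zero]; (clear * -; positivity)
          _ = W ^ 2 * avg (k + 1) (fun ρ => res (om ρ) r
                (fun z => G (e :: ν') z - G ν' z) ^ 2) (e :: ν') := ke4_avg_smul _ _ _ _
          _ ≤ W ^ 2 * (C3 * (Q * B) ^ 2 * (C2 * b / (Nb * B ^ 3) * (Q : ℝ) ^ (k + 1) *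
                (C * (X (e :: ν') + V (e :: ν')))) ^ 2 *
                (2 * (Q : ℝ) ^ (-(3 / 2) : ℝ)) ^ (k + 1)) := by
              gcongr
          _ ≤ W ^ 2 * (C3 ^ 2 * (Q * B) ^ 2 * (C2 * b / (Nb * B ^ 3) * (Q : ℝ) ^ (k + 1) *
                (C * (X (e :: ν') + V (e :: ν')))) ^ 2 * (θ ^ (k + 1)) ^ 2) := by
              rw [ke4_theta hQ0]
              gcongr
              nlinarith only [hC3]
          _ = (ck * (X (e :: ν') + V (e :: ν'))) ^ 2 := by rw [hck]; ring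
      · calc avg (k + 1) (fun ρ => a3 k ρ ^ 2) ν ≤ avg (k + 1) (fun _ => 0) ν := by
              refine ke4_avg_le fun ρ _ hρ => ?_
              simp only [ha3, if_neg (hdrop ρ ν k hρ hal)]
              norm_num
          _ = 0 := ke4_avg_const hMc _ _ _
          _ ≤ _ := sq_nonneg _
    rw [hkj, ke4N_smul _ hck0] at h1
    have h4 : ke4N (j - k) (fun ν => if Tots X ν.tail ≤ x₁ then X ν + V ν else 0) [] ≤
        rms x₁ X X (j - k) + rms x₁ X V (j - k) := by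
      rw [ke4_rms, ke4_rms]
      refine le_trans ?_ (ke4N_add _ _ _ _)
      refine ke4N_le fun ρ _ _ => ?_
      have hx := hX ρ
      have hv := hV ρ
      by_cases hal : Tots X ρ.tail ≤ x₁
      · simp only [if_pos hal]
        exact ⟨by linarith only [hx, hv], le_rfl⟩
      · simp only [if_neg hal]
        norm_num
    calc ke4N (j + 1) (a3 k) []
        ≤ ck * ke4N (j - k) (fun ν => if Tots X ν.tail ≤ x₁ then X ν + V ν else 0) [] := h1
      _ ≤ ck * (rms x₁ X X (j - k) + rms x₁ X V (j - k)) := by gcongr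
      _ = _ := by
          rw [hck, hW, mul_pow]
          field_simp
  -- constant piece
  have h1 : c1 ≤ C * (Cf + Q) * B ^ (-(1 / 2) : ℝ) := by
    have e1 : (1 : ℝ) / (Nb * (Q : ℝ) ^ (j - 1)) = Q * (1 / B) := by
      have hj' : j = j - 1 + 1 := by (clear * - hj; omega)
      rw [← hBcast]
      conv_rhs => rw [hj', pow_succ]
      field_simp
    have e2 := ke4_sqrt_scale hB1'
    have e3 : 0 ≤ B ^ (-(1 / 2) : ℝ) := by (clear * - hB1; positivity)
    rw [hc1, e1]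
    calc C * (Cf * B ^ (-(1 / 2) : ℝ) * b + Q * (1 / B))
        ≤ C * (Cf * B ^ (-(1 / 2) : ℝ) * 1 + Q * B ^ (-(1 / 2) : ℝ)) := by gcongr
      _ = C * (Cf + Q) * B ^ (-(1 / 2) : ℝ) := by ring
  -- the sum
  have hsum : ∑ k ∈ Finset.range n, ke4N (j + 1) (a3 k) [] ≤ C ^ 2 * C3 * C2 * Q *
      (b * ∑ i ∈ Finset.Ioc (j - n) j, (Q * θ) ^ (j - i + 1) *
        (rms x₁ X X i + rms x₁ X V i)) := by
    refine (Finset.sum_le_sum h3).trans (le_of_eq ?_)
    rw [← Finset.mul_sum, ← Finset.mul_sum]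
    congr 2
    refine Finset.sum_nbij' (fun k => j - k) (fun i => j - i) ?_ ?_ ?_ ?_ ?_
    · intro k hk
      rw [Finset.mem_range] at hk
      rw [Finset.mem_Ioc]; (clear * - hj hn hk; omega)
    · intro i hi
      rw [Finset.mem_Ioc] at hi
      rw [Finset.mem_range]; omega
    · intro k hk
      rw [Finset.mem_range] at hk
      show j - (j - k) = k
      (clear * - hj hn hk; omega)
    · intro i hi
      rw [Finset.mem_Ioc] at hi
      show j - (j - i) = i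
      omega
    · intro k hk
      rw [Finset.mem_range] at hk
      have : j - (j - k) = k := by omega
      rw [this]
  rw [hBcast]
  set SS : ℝ := ∑ i ∈ Finset.Ioc (j - n) j, (Q * θ) ^ (j - i + 1) *
        (rms x₁ X X i + rms x₁ X V i) with hSS
  have hSS0 : 0 ≤ SS := by
    refine Finset.sum_nonneg fun i _ => ?_
    have u1 := ke4_rms_nonneg x₁ X X i
    have u2 := ke4_rms_nonneg x₁ X V i
    (clear * - hQ16 u1 u2; positivity)
  have hP : 0 ≤ B ^ (-(1 / 2) : ℝ) := by (clear * - hB1; positivity)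
  have hC3' : 0 ≤ C3 := by linarith only [hC3]
  have hC1' : 0 ≤ C1 := by linarith only [hC1]
  have hC2' : 0 ≤ C2 := by linarith only [hC2]
  have k1 : 0 ≤ C * (Cf + Q) := by (clear * - hQ16 hC0 hCf0; positivity)
  have k2 : 0 ≤ C * C3 * C1 * Q := by (clear * - hC1 hC3 hQ16 hC0; positivity)
  have k3 : 0 ≤ C ^ 2 * C3 * C2 * Q := by (clear * - hC2 hC3 hQ16; positivity)
  rw [← hQQ]
  calc rms x₁ X X (j + 1) ≤ rms x₁ X X j / 2 + (C * (Cf + Q) * B ^ (-(1 / 2) : ℝ) +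
        (C * C3 * C1 * Q * (b * θ ^ (n + 1)) + C ^ 2 * C3 * C2 * Q * (b * SS))) := by
        refine hmain.trans ?_
        gcongr
    _ ≤ rms x₁ X X j / 2 + (C * (Cf + Q) + C * C3 * C1 * Q + C ^ 2 * C3 * C2 * Q) *
        (b * (θ ^ (n + 1) + SS) + B ^ (-(1 / 2) : ℝ)) := by
        have m1 : 0 ≤ b * θ ^ (n + 1) := by (clear * - hQ16 hb0; positivity)
        have m2 : 0 ≤ b * SS := by (clear * - hb0 hSS0; positivity)
        have m3 : b * (θ ^ (n + 1) + SS) = b * θ ^ (n + 1) + b * SS := by ring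
        rw [m3]
        nlinarith only [mul_nonneg k1 m1, mul_nonneg k1 m2, mul_nonneg k2 hP, mul_nonneg k2 m2,
          mul_nonneg k3 hP, mul_nonneg k3 m1, hP, k1, k2, k3, m1, m2]
    _ ≤ _ := by
        have m1 : 0 ≤ b * (θ ^ (n + 1) + SS) + B ^ (-(1 / 2) : ℝ) := by (clear * - hB1 hQ16 hb0 hSS0; positivity)
        have := mul_le_mul_of_nonneg_right (le_max_right 1
          (C * (Cf + Q) + C * C3 * C1 * Q + C ^ 2 * C3 * C2 * Q)) m1
        linarith only [this]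

theorem expect_v (K γ Q' : ℝ) (Vb A C Cf Ct : ℝ) : ∃ C' : ℝ, 1 ≤ C' ∧
    ∀ {σ x₁ X₀ V₀ S₀ D₀ T₀ : ℝ} {Q Nb Mc : ℕ} {c : ℤ → ℂ} {g₀ : ℂ → ℂ} {om : List (Fin Mc) → ℝ},
      (Q : ℝ) = Q' → Run K γ Vb A σ x₁ C Cf Ct X₀ V₀ S₀ D₀ T₀ Q Nb Mc c g₀ om →
      ∀ j : ℕ, 1 ≤ j →
        rms x₁ (Xs C X₀ Q Nb (phi K Cf c Q Nb g₀ om))
            (Vs C V₀ Q (Xs C X₀ Q Nb (phi K Cf c Q Nb g₀ om))) (j + 1) ≤
          rms x₁ (Xs C X₀ Q Nb (phi K Cf c Q Nb g₀ om))
            (Vs C V₀ Q (Xs C X₀ Q Nb (phi K Cf c Q Nb g₀ om))) j / 4 +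
          C' * rms x₁ (Xs C X₀ Q Nb (phi K Cf c Q Nb g₀ om))
            (Xs C X₀ Q Nb (phi K Cf c Q Nb g₀ om)) j := by
  refine ⟨max 1 C, le_max_left _ _, ?_⟩
  intro σ x₁ X₀ V₀ S₀ D₀ T₀ Q Nb Mc c g₀ om _ R j hj
  set X : List (Fin Mc) → ℝ := Xs C X₀ Q Nb (phi K Cf c Q Nb g₀ om) with hXdef
  set V : List (Fin Mc) → ℝ := Vs C V₀ Q X with hVdef
  have hX : ∀ μ, 0 ≤ X μ := ke4_X_nonneg R
  have hV : ∀ μ, 0 ≤ V μ := ke4_V_nonneg R
  obtain ⟨hCx, _⟩ := ke4_Cx R
  obtain ⟨_, _, _, hQ16, _⟩ := ke4_scales R j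
  have hC0 : 0 ≤ C := by linarith only [R.C1, R]
  have hMc := R.tree.Mc0
  have h1 : ke4N (1 + j) (fun ρ => if Tots X ρ.tail ≤ x₁ then V ρ else 0) [] ≤
      ke4N j (fun ν => 1 / 4 * (if Tots X ν.tail ≤ x₁ then V ν else 0) +
        C * (if Tots X ν.tail ≤ x₁ then X ν else 0)) [] := by
    refine ke4N_tower fun ν hν => ?_
    have h2 : avg 1 (fun ρ => (if Tots X ρ.tail ≤ x₁ then V ρ else 0) ^ 2) ν ≤
        avg 1 (fun _ => (1 / 4 * (if Tots X ν.tail ≤ x₁ then V ν else 0) +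
          C * (if Tots X ν.tail ≤ x₁ then X ν else 0)) ^ 2) ν := by
      refine ke4_avg_le fun ρ hρ0 hρ => ?_
      have hρ' : ρ.tail = ν := by rw [← hρ, List.drop_one]
      have h3 : 0 ≤ (if Tots X ρ.tail ≤ x₁ then V ρ else 0) ∧
          (if Tots X ρ.tail ≤ x₁ then V ρ else 0) ≤
          1 / 4 * (if Tots X ν.tail ≤ x₁ then V ν else 0) +
            C * (if Tots X ν.tail ≤ x₁ then X ν else 0) := by
        obtain ⟨e, ν', rfl⟩ : ∃ e ν', ν = e :: ν' := by
          cases ν with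
          | nil => simp at hν; omega
          | cons e ν' => exact ⟨e, ν', rfl⟩
        obtain ⟨d, rfl⟩ : ∃ d, ρ = d :: e :: ν' := by
          cases ρ with
          | nil => simp at hρ0
          | cons d ρ' => exact ⟨d, by rw [List.tail_cons] at hρ'; rw [hρ']⟩
        by_cases hal : Tots X (e :: ν') ≤ x₁
        · have hal' : Tots X ν' ≤ x₁ := (ke4_tots_tail hX (e :: ν')).trans hal
          rw [if_pos (show Tots X (d :: e :: ν').tail ≤ x₁ from hal),
            if_pos (show Tots X (e :: ν').tail ≤ x₁ from hal'),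
            if_pos (show Tots X (e :: ν').tail ≤ x₁ from hal')]
          refine ⟨hV _, ?_⟩
          have e1 : V (d :: e :: ν') =
              1 / (Q : ℝ) * ((1 + C * X (e :: ν')) * V (e :: ν') + C * X (e :: ν')) := rfl
          have e2 : X (e :: ν') ≤ x₁ := (ke4_le_tots hX e ν').trans hal
          have e3 : C * X (e :: ν') ≤ 1 / 10 := (mul_le_mul_of_nonneg_left e2 hC0).trans hCx
          have e4 : 0 ≤ C * X (e :: ν') := mul_nonneg hC0 (hX _)
          have e5 := hV (e :: ν')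
          have e6 : 1 / (Q : ℝ) ≤ 1 / 16 := one_div_le_one_div_of_le (by norm_num) hQ16
          rw [e1]
          calc 1 / (Q : ℝ) * ((1 + C * X (e :: ν')) * V (e :: ν') + C * X (e :: ν'))
              ≤ 1 / 16 * ((1 + 1 / 10) * V (e :: ν') + C * X (e :: ν')) := by
                apply mul_le_mul e6 _ (by (clear * - e4 e5; positivity)) (by norm_num)
                gcongr
            _ ≤ 1 / 4 * V (e :: ν') + C * X (e :: ν') := by nlinarith only [e4, e5]
        · rw [if_neg (show ¬ Tots X (d :: e :: ν').tail ≤ x₁ from hal)]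
          refine ⟨le_rfl, ?_⟩
          have u1 := hV (e :: ν')
          have u2 := mul_nonneg hC0 (hX (e :: ν'))
          split_ifs
          · (clear * - u1 u2; positivity)
          · norm_num
      obtain ⟨h4, h5⟩ := h3
      gcongr
    exact h2.trans (le_of_eq (ke4_avg_const hMc _ _ _))
  have h6 := (ke4N_add j (fun ν => 1 / 4 * (if Tots X ν.tail ≤ x₁ then V ν else 0))
    (fun ν => C * (if Tots X ν.tail ≤ x₁ then X ν else 0)) [])
  rw [ke4N_smul _ (by norm_num), ke4N_smul _ hC0] at h6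
  rw [ke4_rms, ke4_rms, ke4_rms]
  have h7 := ke4N_nonneg j (fun ν => if Tots X ν.tail ≤ x₁ then X ν else 0) []
  have h8 := mul_le_mul_of_nonneg_right (le_max_right 1 C) h7
  rw [add_comm 1 j] at h1
  linarith only [h1, h6, h8]

end Pool.Agent.MP_b87ea9_an.Kam
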