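import Mathlib

set_option autoImplicit false

/-! Numeric closing lemma -/

namespace Pool.Agent.MP_b87ea9_an.Kam

open Real MeasureTheory

namespace KE5

/-- The weighted sum of the past. -/
noncomputable def zz (y : ℕ → ℝ) : ℕ → ℝ
  | 0 => 0
  | j + 1 => zz y j / 2 + y (j + 1)

theorem zz_nonneg {y : ℕ → ℝ} (hy : ∀ j, 0 ≤ y j) (j : ℕ) : 0 ≤ zz y j := by
  induction j with
  | zero => exact le_rfl
  | succ j ih => exact add_nonneg (by linarith) (hy _)

theorem sum_zz (y : ℕ → ℝ) (J : ℕ) :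
    ∑ i ∈ Finset.range J, zz y (i + 1) + zz y J = 2 * ∑ i ∈ Finset.range J, y (i + 1) := by
  induction J with
  | zero => simp [zz]
  | succ J ih =>
    rw [Finset.sum_range_succ, Finset.sum_range_succ, mul_add, ← ih]
    change _ + (zz y J / 2 + y (J + 1)) + (zz y J / 2 + y (J + 1)) = _
    ring

theorem window {y : ℕ → ℝ} (hy : ∀ j, 0 ≤ y j) {β : ℝ} (hβ : 1 ≤ β) (n : ℕ) :
    ∀ j, n ≤ j → ∑ i ∈ Finset.Ioc (j - n) j, β ^ (j - i + 1) * y i ≤
      (2 * β) ^ n * zz y j / 2 := by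
  induction n with
  | zero =>
    intro j _
    simp only [Nat.sub_zero, Finset.Ioc_self, Finset.sum_empty, pow_zero, one_mul]
    have := zz_nonneg hy j
    linarith
  | succ n ih =>
    intro j hj
    obtain ⟨k, rfl⟩ : ∃ k, j = k + 1 := ⟨j - 1, by omega⟩
    have h1 : k + 1 - (n + 1) = k - n := by omega
    have h2 : Finset.Ioc (k - n) (k + 1) = insert (k + 1) (Finset.Ioc (k - n) k) := by
      ext i
      simp only [Finset.mem_Ioc, Finset.mem_insert]
      omega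
    have h3 : k + 1 ∉ Finset.Ioc (k - n) k := by simp
    rw [h1, h2, Finset.sum_insert h3]
    have h4 : ∑ i ∈ Finset.Ioc (k - n) k, β ^ (k + 1 - i + 1) * y i =
        β * ∑ i ∈ Finset.Ioc (k - n) k, β ^ (k - i + 1) * y i := by
      rw [Finset.mul_sum]
      refine Finset.sum_congr rfl fun i hi => ?_
      rw [Finset.mem_Ioc] at hi
      have : k + 1 - i + 1 = (k - i + 1) + 1 := by omega
      rw [this, pow_succ]
      ring
    rw [h4]
    have h5 := ih k (by omega)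
    have h6 : β * ∑ i ∈ Finset.Ioc (k - n) k, β ^ (k - i + 1) * y i ≤
        β * ((2 * β) ^ n * zz y k / 2) := mul_le_mul_of_nonneg_left h5 (by linarith)
    have h7 : (1 : ℝ) ≤ (2 * β) ^ n := one_le_pow₀ (by linarith)
    have h8 : β * y (k + 1) ≤ β * (2 * β) ^ n * y (k + 1) := by
      have h10 : 0 ≤ β * y (k + 1) := mul_nonneg (by linarith) (hy _)
      have h11 := mul_le_mul_of_nonneg_left h7 h10
      have h12 : β * y (k + 1) * (2 * β) ^ n = β * (2 * β) ^ n * y (k + 1) := by ring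
      linarith
    have h9 : k + 1 - (k + 1) + 1 = 1 := by omega
    rw [h9, pow_one]
    change _ ≤ (2 * β) ^ (n + 1) * (zz y k / 2 + y (k + 1)) / 2
    have h10 : (2 * β) ^ (n + 1) * (zz y k / 2 + y (k + 1)) / 2 =
        β * ((2 * β) ^ n * zz y k / 2) + β * (2 * β) ^ n * y (k + 1) := by
      rw [pow_succ]
      ring
    rw [h10]
    linarith

/-- Choice of the length of the window. -/
theorem choice {θ β : ℝ} (hθ : 0 < θ) (hθ1 : θ ≤ 1 / 2) (hβ : 1 ≤ β) (h : 2 * β * θ ≤ 1)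
    {y : ℕ → ℝ} (hy : ∀ j, 0 ≤ y j) (j : ℕ) (hj : 1 ≤ j) :
    ∃ n, 2 * n + 1 ≤ j ∧ θ ^ (n + 1) + ∑ i ∈ Finset.Ioc (j - n) j, β ^ (j - i + 1) * y i ≤
      3 / 2 * √(zz y j) + √θ ^ j := by
  set s := √(zz y j) with hs
  have hz : zz y j = s * s := (Real.mul_self_sqrt (zz_nonneg hy j)).symm
  have hs0 : 0 ≤ s := Real.sqrt_nonneg _
  have ht0 : 0 ≤ √θ ^ j := pow_nonneg (Real.sqrt_nonneg _) _
  by_cases hs1 : s ≤ 1
  · have key : ∀ m : ℕ, ∃ n ≤ m, s ≤ θ ^ n ∧ (θ ^ (n + 1) ≤ s ∨ n = m) := by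
      intro m
      induction m with
      | zero => exact ⟨0, le_rfl, by simpa using hs1, Or.inr rfl⟩
      | succ m ih =>
        obtain ⟨n, hn, h1, h2⟩ := ih
        by_cases h3 : θ ^ (n + 1) ≤ s
        · exact ⟨n, by omega, h1, Or.inl h3⟩
        · have h4 : n = m := h2.resolve_left h3
          subst h4
          exact ⟨n + 1, le_rfl, (not_le.1 h3).le, Or.inr rfl⟩
    obtain ⟨n, hn, h1, h2⟩ := key ((j - 1) / 2)
    refine ⟨n, by omega, ?_⟩
    have h3 := window hy hβ n j (by omega)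
    have h4 : (2 * β) ^ n * zz y j ≤ s := by
      rw [hz]
      have h5 : (2 * β) ^ n * s ≤ 1 := by
        calc (2 * β) ^ n * s ≤ (2 * β) ^ n * θ ^ n :=
              mul_le_mul_of_nonneg_left h1 (pow_nonneg (by linarith) _)
          _ = (2 * β * θ) ^ n := (mul_pow _ _ _).symm
          _ ≤ 1 := pow_le_one₀ (by positivity) h
      calc (2 * β) ^ n * (s * s) = (2 * β) ^ n * s * s := by ring
        _ ≤ 1 * s := mul_le_mul_of_nonneg_right h5 hs0
        _ = s := one_mul s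
    have h5 : θ ^ (n + 1) ≤ s + √θ ^ j := by
      rcases h2 with h2 | h2
      · linarith
      · have h6 : θ ^ (n + 1) = √θ ^ (2 * (n + 1)) := by
          rw [pow_mul, Real.sq_sqrt hθ.le]
        have h7 : √θ ^ (2 * (n + 1)) ≤ √θ ^ j :=
          pow_le_pow_of_le_one (Real.sqrt_nonneg _) (Real.sqrt_le_one.2 (by linarith)) (by omega)
        linarith
    linarith
  · refine ⟨0, by omega, ?_⟩
    simp only [Nat.sub_zero, Finset.Ioc_self, Finset.sum_empty, add_zero, zero_add, pow_one]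
    push Not at hs1
    linarith

end KE5

theorem closing (C θ β : ℝ) (hC : 1 ≤ C) (hθ : 0 < θ) (hθ1 : θ ≤ 1 / 2) (hβ : 1 ≤ β)
    (h : 2 * β * θ ≤ 1) (η : ℝ) (hη : 0 < η) : ∃ δ : ℝ, 0 < δ ∧ ∀ (x v b e : ℕ → ℝ) (J : ℕ),
      (∀ j, 0 ≤ x j) → (∀ j, 0 ≤ v j) → (∀ j, 0 ≤ b j) → (∀ j, 0 ≤ e j) → x 1 ≤ δ → v 1 ≤ C →
      (∀ j n : ℕ, 1 ≤ j → j < J → 2 * n + 1 ≤ j →
        x (j + 1) ≤ x j / 2 + C * (b j * (θ ^ (n + 1) +
          ∑ i ∈ Finset.Ioc (j - n) j, β ^ (j - i + 1) * (x i + v i + e i)) + e (j + 1))) →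
      (∀ j : ℕ, 1 ≤ j → j < J → v (j + 1) ≤ v j / 4 + C * x j) →
      ∑ j ∈ Finset.range (J + 1), b j ^ 2 ≤ δ → ∑ j ∈ Finset.range (J + 1), e j ≤ δ →
      ∑ j ∈ Finset.Icc 1 J, x j ≤ η := by
  have hC0 : 0 < C := by linarith
  obtain ⟨μ, hμ, hμ1, hμ2⟩ : ∃ μ : ℝ, 0 < μ ∧ μ * C ≤ 1 / 64 ∧ μ * C ≤ η / 64 := by
    refine ⟨min 1 η / (64 * C), by positivity, ?_, ?_⟩
    · have : min 1 η / (64 * C) * C = min 1 η / 64 := by field_simp
      rw [this]
      have := min_le_left (1 : ℝ) η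
      linarith
    · have : min 1 η / (64 * C) * C = min 1 η / 64 := by field_simp
      rw [this]
      have := min_le_right (1 : ℝ) η
      linarith
  set D := 1 + 2 * μ + C ^ 2 / μ + C / (4 * μ) + C with hD
  have hD0 : 0 < D := by positivity
  refine ⟨η / (16 * D), by positivity, ?_⟩
  set δ := η / (16 * D) with hδ
  have hδ0 : 0 < δ := by positivity
  have hδD : δ * D = η / 16 := by rw [hδ]; field_simp
  intro x v b e J hx hv hb he hx1 hv1 hrec hrecv hB hE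
  rcases Nat.eq_zero_or_pos J with hJ0 | hJ
  · subst hJ0
    simp only [Finset.Icc_eq_empty_of_lt (by norm_num : (0 : ℕ) < 1), Finset.sum_empty]
    exact hη.le
  obtain ⟨L, rfl⟩ : ∃ L, J = L + 1 := ⟨J - 1, by omega⟩
  set y : ℕ → ℝ := fun i => x i + v i + e i with hy
  have hy0 : ∀ j, 0 ≤ y j := fun j => add_nonneg (add_nonneg (hx j) (hv j)) (he j)
  -- the improved recursion
  have hstep : ∀ m, m < L → x (m + 2) ≤ x (m + 1) / 2 + μ * KE5.zz y (m + 1) +
      (C ^ 2 / μ + C / (4 * μ)) * b (m + 1) ^ 2 + C * μ * θ ^ (m + 1) + C * e (m + 2) := by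
    intro m hm
    obtain ⟨n, hn, h1⟩ := KE5.choice hθ hθ1 hβ h hy0 (m + 1) (by omega)
    have h2 := hrec (m + 1) n (by omega) (by omega) hn
    have hbm := hb (m + 1)
    have h3 : b (m + 1) * (θ ^ (n + 1) + ∑ i ∈ Finset.Ioc (m + 1 - n) (m + 1),
        β ^ (m + 1 - i + 1) * (x i + v i + e i)) ≤
        b (m + 1) * (3 / 2 * √(KE5.zz y (m + 1)) + √θ ^ (m + 1)) :=
      mul_le_mul_of_nonneg_left h1 hbm
    set s := √(KE5.zz y (m + 1)) with hs
    have hz : KE5.zz y (m + 1) = s ^ 2 := (Real.sq_sqrt (KE5.zz_nonneg hy0 _)).symm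
    have ht : θ ^ (m + 1) = (√θ ^ (m + 1)) ^ 2 := by
      rw [← pow_mul, mul_comm, pow_mul, Real.sq_sqrt hθ.le]
    set t := √θ ^ (m + 1) with htdef
    rw [hz, ht]
    have h4 : C * (b (m + 1) * (3 / 2 * s)) ≤ μ * s ^ 2 + C ^ 2 / μ * b (m + 1) ^ 2 := by
      have h5 : 0 ≤ (μ * s - 3 / 4 * (C * b (m + 1))) ^ 2 / μ := by positivity
      have h6 : (μ * s - 3 / 4 * (C * b (m + 1))) ^ 2 / μ = μ * s ^ 2 -
          C * (b (m + 1) * (3 / 2 * s)) + 9 / 16 * (C ^ 2 / μ * b (m + 1) ^ 2) := by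
        field_simp
        ring
      have h7 : 0 ≤ C ^ 2 / μ * b (m + 1) ^ 2 := by positivity
      linarith
    have h5 : C * (b (m + 1) * t) ≤ C * μ * t ^ 2 + C / (4 * μ) * b (m + 1) ^ 2 := by
      have h6 : 0 ≤ C * (μ * t - 1 / 2 * b (m + 1)) ^ 2 / μ := by positivity
      have h7 : C * (μ * t - 1 / 2 * b (m + 1)) ^ 2 / μ = C * μ * t ^ 2 -
          C * (b (m + 1) * t) + C / (4 * μ) * b (m + 1) ^ 2 := by
        field_simp
        ring
      linarith
    have h8 : C * (b (m + 1) * (θ ^ (n + 1) + ∑ i ∈ Finset.Ioc (m + 1 - n) (m + 1),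
        β ^ (m + 1 - i + 1) * (x i + v i + e i))) ≤
        C * (b (m + 1) * (3 / 2 * s + t)) := mul_le_mul_of_nonneg_left h3 hC0.le
    have h9 : x (m + 1 + 1) = x (m + 2) := rfl
    have h10 : e (m + 1 + 1) = e (m + 2) := rfl
    rw [h9, h10, mul_add] at h2
    have h11 : C * (b (m + 1) * (3 / 2 * s + t)) = C * (b (m + 1) * (3 / 2 * s)) +
        C * (b (m + 1) * t) := by ring
    have h12 : (C ^ 2 / μ + C / (4 * μ)) * b (m + 1) ^ 2 = C ^ 2 / μ * b (m + 1) ^ 2 +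
        C / (4 * μ) * b (m + 1) ^ 2 := by ring
    rw [h11] at h8
    rw [h12]
    linarith
  -- sums
  have hsum : ∑ m ∈ Finset.range L, x (m + 2) ≤ (∑ m ∈ Finset.range L, x (m + 1)) / 2 +
      μ * ∑ m ∈ Finset.range L, KE5.zz y (m + 1) + (C ^ 2 / μ + C / (4 * μ)) *
        ∑ m ∈ Finset.range L, b (m + 1) ^ 2 + C * μ * ∑ m ∈ Finset.range L, θ ^ (m + 1) +
      C * ∑ m ∈ Finset.range L, e (m + 2) := by
    refine (Finset.sum_le_sum fun m hm => hstep m (Finset.mem_range.1 hm)).trans_eq ?_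
    rw [Finset.sum_add_distrib, Finset.sum_add_distrib, Finset.sum_add_distrib,
      Finset.sum_add_distrib, Finset.sum_div, Finset.mul_sum, Finset.mul_sum, Finset.mul_sum,
      Finset.mul_sum]
  have hX : ∑ j ∈ Finset.Icc 1 (L + 1), x j = x 1 + ∑ m ∈ Finset.range L, x (m + 2) := by
    have h1 : ∑ j ∈ Finset.Icc 1 (L + 1), x j = ∑ m ∈ Finset.range (L + 1), x (m + 1) := by
      rw [Finset.range_eq_Ico, Finset.sum_Ico_add' x 0 (L + 1) 1]
      rfl
    rw [h1, Finset.sum_range_succ', add_comm]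
  have hX' : ∑ j ∈ Finset.Icc 1 (L + 1), x j = ∑ m ∈ Finset.range L, x (m + 1) + x (L + 1) := by
    have h1 : ∑ j ∈ Finset.Icc 1 (L + 1), x j = ∑ m ∈ Finset.range (L + 1), x (m + 1) := by
      rw [Finset.range_eq_Ico, Finset.sum_Ico_add' x 0 (L + 1) 1]
      rfl
    rw [h1, Finset.sum_range_succ]
  set X := ∑ j ∈ Finset.Icc 1 (L + 1), x j with hXdef
  set X0 := ∑ m ∈ Finset.range L, x (m + 1) with hX0
  have hX0X : X0 ≤ X := by have := hx (L + 1); linarith
  have hX00 : 0 ≤ X0 := Finset.sum_nonneg fun _ _ => hx _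
  -- sum of v
  have hV : ∀ l, l ≤ L → ∑ m ∈ Finset.range l, v (m + 1) + 4 / 3 * v (l + 1) ≤
      4 / 3 * (C + C * ∑ m ∈ Finset.range l, x (m + 1)) := by
    intro l
    induction l with
    | zero =>
      intro _
      simp only [Finset.range_zero, Finset.sum_empty, zero_add, mul_zero, add_zero]
      linarith
    | succ l ih =>
      intro hl
      have h1 := ih (by omega)
      have h2 := hrecv (l + 1) (by omega) (by omega)
      rw [Finset.sum_range_succ, Finset.sum_range_succ]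
      have h3 : v (l + 1 + 1) ≤ v (l + 1) / 4 + C * x (l + 1) := h2
      rw [mul_add C]
      linarith
  have hV' : ∑ m ∈ Finset.range L, v (m + 1) ≤ 4 / 3 * (C + C * X0) := by
    have := hV L le_rfl
    have := hv (L + 1)
    linarith
  have hE' : ∑ m ∈ Finset.range L, e (m + 1) ≤ δ := by
    refine le_trans ?_ hE
    have h1 : ∑ m ∈ Finset.range L, e (m + 1) ≤ ∑ m ∈ Finset.range (L + 1), e m := by
      rw [Finset.sum_range_succ' e L]
      have := he 0
      linarith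
    refine h1.trans (Finset.sum_le_sum_of_subset_of_nonneg ?_ fun _ _ _ => he _)
    intro i hi
    simp only [Finset.mem_range] at hi ⊢
    omega
  have hE'' : ∑ m ∈ Finset.range L, e (m + 2) ≤ δ := by
    refine le_trans ?_ hE
    rw [Finset.sum_range_succ' e (L + 1), Finset.sum_range_succ' (fun i => e (i + 1)) L]
    have h1 := he 0
    have h2 := he (0 + 1)
    linarith
  have hB' : ∑ m ∈ Finset.range L, b (m + 1) ^ 2 ≤ δ := by
    refine le_trans ?_ hB
    have h1 : ∑ m ∈ Finset.range L, b (m + 1) ^ 2 ≤ ∑ m ∈ Finset.range (L + 1), b m ^ 2 := by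
      rw [Finset.sum_range_succ' (fun i => b i ^ 2) L]
      have := sq_nonneg (b 0)
      linarith
    refine h1.trans (Finset.sum_le_sum_of_subset_of_nonneg ?_ fun _ _ _ => sq_nonneg _)
    intro i hi
    simp only [Finset.mem_range] at hi ⊢
    omega
  have hZ : ∑ m ∈ Finset.range L, KE5.zz y (m + 1) ≤ 2 * (X0 + 4 / 3 * (C + C * X0) + δ) := by
    have h1 := KE5.sum_zz y L
    have h2 := KE5.zz_nonneg hy0 L
    have h3 : ∑ i ∈ Finset.range L, y (i + 1) = X0 + ∑ m ∈ Finset.range L, v (m + 1) +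
        ∑ m ∈ Finset.range L, e (m + 1) := by
      rw [hX0, ← Finset.sum_add_distrib, ← Finset.sum_add_distrib]
    linarith
  have hT : ∑ m ∈ Finset.range L, θ ^ (m + 1) ≤ 1 := by
    have h1 : ∀ l : ℕ, ∑ m ∈ Finset.range l, θ ^ (m + 1) ≤ 1 - θ ^ l := by
      intro l
      induction l with
      | zero => simp
      | succ l ih =>
        rw [Finset.sum_range_succ]
        have h2 : 0 < θ ^ l := pow_pos hθ l
        have h3 : θ ^ (l + 1) = θ ^ l * θ := pow_succ θ l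
        have h4 : θ ^ l * θ ≤ θ ^ l * (1 / 2) := mul_le_mul_of_nonneg_left hθ1 h2.le
        linarith
    have := h1 L
    have := pow_pos hθ L
    linarith
  have h1 : μ * ∑ m ∈ Finset.range L, KE5.zz y (m + 1) ≤
      μ * (2 * (X0 + 4 / 3 * (C + C * X0) + δ)) := mul_le_mul_of_nonneg_left hZ hμ.le
  have h2 : (C ^ 2 / μ + C / (4 * μ)) * ∑ m ∈ Finset.range L, b (m + 1) ^ 2 ≤
      (C ^ 2 / μ + C / (4 * μ)) * δ := mul_le_mul_of_nonneg_left hB' (by positivity)
  have h3 : C * μ * ∑ m ∈ Finset.range L, θ ^ (m + 1) ≤ C * μ * 1 :=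
    mul_le_mul_of_nonneg_left hT (by positivity)
  have h4 : C * ∑ m ∈ Finset.range L, e (m + 2) ≤ C * δ :=
    mul_le_mul_of_nonneg_left hE'' hC0.le
  have h5 : X ≤ δ + X0 / 2 + μ * (2 * (X0 + 4 / 3 * (C + C * X0) + δ)) +
      (C ^ 2 / μ + C / (4 * μ)) * δ + C * μ + C * δ := by
    rw [hX]; linarith
  have h6 : X ≤ δ * D + X0 / 2 + 2 * μ * X0 + 8 / 3 * (μ * C) * X0 + 8 / 3 * (μ * C) +
      μ * C := by
    have : δ * D = δ + 2 * μ * δ + (C ^ 2 / μ + C / (4 * μ)) * δ + C * δ := by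
      rw [hD]; ring
    rw [this]
    refine h5.trans_eq ?_
    ring
  have h7 : μ ≤ 1 / 64 := by
    have : μ * 1 ≤ μ * C := mul_le_mul_of_nonneg_left hC hμ.le
    linarith
  have h8 : 2 * μ * X0 ≤ 2 * (1 / 64) * X0 :=
    mul_le_mul_of_nonneg_right (by linarith) hX00
  have h9 : 8 / 3 * (μ * C) * X0 ≤ 8 / 3 * (1 / 64) * X0 :=
    mul_le_mul_of_nonneg_right (by linarith) hX00
  linarith

end Pool.Agent.MP_b87ea9_an.Kam
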