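import Mathlib
import Pool.Agent.Lib.MP_b87ea9_an.KDefs
import Pool.Agent.Lib.MP_b87ea9_an.KDefs2
import Pool.Agent.Lib.MP_b87ea9_an.KDefs3
import Pool.Agent.Lib.MP_b87ea9_an.KDefs4

set_option autoImplicit false

/-! Existence of an alive word -/

namespace Pool.Agent.MP_b87ea9_an.Kam

open Real MeasureTheory

section KE6

variable {Mc : ℕ}

/-- tower property -/
theorem KE6_tower (f : List (Fin Mc) → ℝ) : ∀ (m : ℕ) (ν : List (Fin Mc)),
    avg (m + 1) f ν = avg m (avg 1 f) ν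
  | 0, ν => rfl
  | m + 1, ν => by
    show (∑ c : Fin Mc, avg (m + 1) f (c :: ν)) / Mc = (∑ c : Fin Mc, avg m (avg 1 f) (c :: ν)) / Mc
    congr 1
    exact Finset.sum_congr rfl fun c _ => KE6_tower f m (c :: ν)

theorem KE6_add (f g : List (Fin Mc) → ℝ) : ∀ (m : ℕ) (ν : List (Fin Mc)),
    avg m (fun μ => f μ + g μ) ν = avg m f ν + avg m g ν
  | 0, ν => rfl
  | m + 1, ν => by
    show (∑ c : Fin Mc, avg m (fun μ => f μ + g μ) (c :: ν)) / Mc =
      (∑ c : Fin Mc, avg m f (c :: ν)) / Mc + (∑ c : Fin Mc, avg m g (c :: ν)) / Mc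
    rw [← add_div, ← Finset.sum_add_distrib]
    congr 1
    exact Finset.sum_congr rfl fun c _ => KE6_add f g m (c :: ν)

theorem KE6_lt (hM : 0 < Mc) (f : List (Fin Mc) → ℝ) (a : ℝ) : ∀ (m : ℕ) (ν : List (Fin Mc)),
    (∀ μ : List (Fin Mc), μ.length = m + ν.length → a < f μ) → a < avg m f ν
  | 0, ν, h => h ν (by simp)
  | m + 1, ν, h => by
    have hM' : (0 : ℝ) < Mc := by exact_mod_cast hM
    show a < (∑ c : Fin Mc, avg m f (c :: ν)) / Mc
    rw [lt_div_iff₀ hM']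
    have h1 : ∑ c : Fin Mc, a < ∑ c : Fin Mc, avg m f (c :: ν) := by
      have : Nonempty (Fin Mc) := ⟨⟨0, hM⟩⟩
      refine Finset.sum_lt_sum_of_nonempty Finset.univ_nonempty fun c _ => ?_
      refine KE6_lt hM f a m (c :: ν) fun μ hμ => h μ ?_
      rw [hμ, List.length_cons]; ring
    rw [Finset.sum_const, Finset.card_univ, Fintype.card_fin, nsmul_eq_mul] at h1
    linarith

theorem KE6_sq (f : List (Fin Mc) → ℝ) : ∀ (m : ℕ) (ν : List (Fin Mc)),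
    (avg m f ν) ^ 2 ≤ avg m (fun μ => f μ ^ 2) ν
  | 0, ν => le_rfl
  | m + 1, ν => by
    show ((∑ c : Fin Mc, avg m f (c :: ν)) / Mc) ^ 2 ≤
      (∑ c : Fin Mc, avg m (fun μ => f μ ^ 2) (c :: ν)) / Mc
    rcases Nat.eq_zero_or_pos Mc with h0 | h0
    · have : ((Mc : ℕ) : ℝ) = 0 := by exact_mod_cast h0
      rw [this]; simp
    have hM' : (0 : ℝ) < Mc := by exact_mod_cast h0
    have h1 : (∑ c : Fin Mc, avg m f (c :: ν)) ^ 2 ≤ (Mc : ℝ) * ∑ c : Fin Mc, avg m f (c :: ν) ^ 2 := by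
      have := sq_sum_le_card_mul_sum_sq (s := (Finset.univ : Finset (Fin Mc)))
        (f := fun c => avg m f (c :: ν))
      simpa using this
    have h2 : ∑ c : Fin Mc, avg m f (c :: ν) ^ 2 ≤
        ∑ c : Fin Mc, avg m (fun μ => f μ ^ 2) (c :: ν) :=
      Finset.sum_le_sum fun c _ => KE6_sq f m (c :: ν)
    rw [div_pow, div_le_div_iff₀ (by positivity) hM']
    nlinarith [mul_le_mul_of_nonneg_left h2 hM'.le]

theorem KE6_tots_nonneg (Y : List (Fin Mc) → ℝ) (hY : ∀ μ, 0 ≤ Y μ) :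
    ∀ ν : List (Fin Mc), 0 ≤ Tots Y ν
  | [] => le_rfl
  | c :: ν => add_nonneg (hY _) (KE6_tots_nonneg Y hY ν)

theorem KE6_avg_tots (Y : List (Fin Mc) → ℝ) (hM : 0 < Mc) : ∀ J : ℕ,
    avg J (Tots Y) [] = ∑ j ∈ Finset.Icc 1 J, avg j Y []
  | 0 => by simp [avg, Tots]
  | J + 1 => by
    have hM' : (Mc : ℝ) ≠ 0 := by exact_mod_cast hM.ne'
    rw [Finset.sum_Icc_succ_top (by omega), ← KE6_avg_tots Y hM J, KE6_tower (Tots Y) J [],
      KE6_tower Y J [], add_comm, ← KE6_add]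
    congr 1
    funext μ
    show (∑ c : Fin Mc, (Y (c :: μ) + Tots Y μ)) / Mc = (∑ c : Fin Mc, Y (c :: μ)) / Mc + Tots Y μ
    rw [Finset.sum_add_distrib, Finset.sum_const, Finset.card_univ, Fintype.card_fin, nsmul_eq_mul]
    field_simp

theorem KE6_main (X : List (Fin Mc) → ℝ) (hX : ∀ μ, 0 ≤ X μ) (x₁ : ℝ) (hx : 0 < x₁) :
    ∀ ν : List (Fin Mc),
      (Tots X ν ≤ x₁ → Tots (fun μ => if Tots X μ.tail ≤ x₁ then X μ else 0) ν = Tots X ν) ∧
      (x₁ < Tots X ν → x₁ < Tots (fun μ => if Tots X μ.tail ≤ x₁ then X μ else 0) ν)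
  | [] => ⟨fun _ => rfl, fun h => absurd h (by show ¬ x₁ < 0; linarith)⟩
  | c :: ν => by
    obtain ⟨h1, h2⟩ := KE6_main X hX x₁ hx ν
    have e1 : Tots (fun μ => if Tots X μ.tail ≤ x₁ then X μ else 0) (c :: ν) =
        (if Tots X ν ≤ x₁ then X (c :: ν) else 0) +
          Tots (fun μ => if Tots X μ.tail ≤ x₁ then X μ else 0) ν := rfl
    have e2 : Tots X (c :: ν) = X (c :: ν) + Tots X ν := rfl
    rw [e1, e2]
    constructor
    · intro h
      have h3 : Tots X ν ≤ x₁ := by linarith [hX (c :: ν)]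
      rw [if_pos h3, h1 h3]
    · intro h
      by_cases h3 : Tots X ν ≤ x₁
      · rw [if_pos h3, h1 h3]; exact h
      · rw [if_neg h3, zero_add]; exact h2 (not_le.1 h3)

end KE6

theorem exists_alive {Mc : ℕ} (hM : 0 < Mc) (X : List (Fin Mc) → ℝ) (hX : ∀ μ, 0 ≤ X μ) (x₁ : ℝ)
    (hx : 0 < x₁) (J : ℕ) (h : ∑ j ∈ Finset.Icc 1 J, rms x₁ X X j < x₁) :
    ∃ μ : List (Fin Mc), μ.length = J ∧ Tots X μ ≤ x₁ := by
  by_contra hcon
  push Not at hcon
  set Y : List (Fin Mc) → ℝ := fun μ => if Tots X μ.tail ≤ x₁ then X μ else 0 with hY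
  have h1 : x₁ < avg J (Tots Y) [] := by
    refine KE6_lt hM (Tots Y) x₁ J [] fun μ hμ => ?_
    exact (KE6_main X hX x₁ hx μ).2 (hcon μ (by simpa using hμ))
  rw [KE6_avg_tots Y hM J] at h1
  have h2 : ∑ j ∈ Finset.Icc 1 J, avg j Y [] ≤ ∑ j ∈ Finset.Icc 1 J, rms x₁ X X j := by
    refine Finset.sum_le_sum fun j _ => ?_
    unfold rms
    refine Real.le_sqrt_of_sq_le ((KE6_sq Y j []).trans (le_of_eq ?_))
    congr 1
    funext μ
    rw [hY]
    dsimp only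
    split_ifs <;> simp
  linarith

end Pool.Agent.MP_b87ea9_an.Kam
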