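import Mathlib
import Pool.Agent.Lib.MP_b87ea9_an.KDefs
import Pool.Agent.Lib.MP_b87ea9_an.KDefs2
import Pool.Agent.Lib.MP_b87ea9_an.KDefs3
import Pool.Agent.Lib.MP_b87ea9_an.KDefs4

set_option autoImplicit false

/-! The low frequency levels -/

namespace Pool.Agent.MP_b87ea9_an.Kam

open Real MeasureTheory

namespace KE7

/-- monotonicity of `Lev` in its bounds -/
theorem lev_mono {K γ A σ : ℝ} {c : ℤ → ℂ} {Nb : ℝ} {N : ℕ} {g : ℂ → ℂ}
    {ω ω' X V S D T X' V' S' D' T' : ℝ} (h : Lev K γ A σ c Nb N g ω ω' X V S D T)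
    (hA : 1 ≤ A) (hX : X ≤ X') (hAX : A * X' ≤ 1) (hV : V ≤ V') (hS : S ≤ S') (hD : D ≤ D')
    (hT : T ≤ T') : Lev K γ A σ c Nb N g ω ω' X' V' S' D' T' := by
  have hK1 : 1 ≤ K := h.pre.ctx.K1
  have hK0 : 0 < K := by linarith
  have hN1 : (1 : ℝ) ≤ (N : ℝ) := h.pre.ctx.N1
  have hNb1 : (0 : ℝ) < Nb := by
    have := h.pre.ctx.Nb1
    have h4 : 0 < (10 : ℝ) ^ 4 * K ^ 4 := by positivity
    linarith
  have hX0 : 0 ≤ X := h.pre.υ0
  have hA0 : 0 ≤ A := by linarith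
  have hAXX : A * X ≤ A * X' := mul_le_mul_of_nonneg_left hX hA0
  have hmax : 0 < max (N : ℝ) Nb := lt_max_of_lt_right hNb1
  refine
    { pre :=
        { ctx :=
            { h.pre.ctx with
              J0 := h.pre.ctx.J0.trans hAXX
              J1 := hAX
              gs :=
                { h.pre.ctx.gs with
                  g2 := fun z hz => (h.pre.ctx.gs.g2 z hz).trans
                    (mul_le_mul_of_nonneg_left hAXX (by linarith)) } }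
          rot := h.pre.rot
          σ0 := h.pre.σ0
          υ0 := hX0.trans hX
          V00 := h.pre.V00.trans hV
          V10 := h.pre.V10.trans hAXX
          dom := h.pre.dom
          bu := fun z hz => (h.pre.bu z hz).trans ?_
          bv := fun z hz => (h.pre.bv z hz).trans (mul_le_mul_of_nonneg_left hV hmax.le)
          bv1 := fun z hz => (h.pre.bv1 z hz).trans
            (mul_le_mul_of_nonneg_left hAXX (by positivity)) }
      rot := h.rot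
      xN := h.xN.trans hX
      lo := fun t => (mul_le_mul_of_nonneg_left (Real.exp_le_exp.2 (by linarith))
        (by positivity)).trans (h.lo t)
      hi := fun t => (h.hi t).trans (mul_le_mul_of_nonneg_left (Real.exp_le_exp.2 hS)
        (by positivity))
      dD := fun t => (h.dD t).trans hD
      dT := fun t => (h.dT t).trans hT }
  exact div_le_div_of_nonneg_right hX (by positivity)

/-- fresh part of the error at step `i` -/
noncomputable def ph (Cf κ β Nb : ℝ) (Q Ns : ℕ) (i : ℕ) : ℝ :=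
  Cf * (((Q ^ (i + 1) * Ns : ℕ) : ℝ) ^ (-(1 / 2) : ℝ) +
    exp (-(κ * Nb / ((Q ^ (i + 1) * Ns : ℕ) : ℝ)))) * β

/-- fresh contribution at step `i` -/
noncomputable def rr (C Cf κ β Nb : ℝ) (Q Ns : ℕ) (i : ℕ) : ℝ :=
  C * (ph Cf κ β Nb Q Ns i + 1 / ((Q ^ i * Ns : ℕ) : ℝ))

/-- the bounds carried along -/
structure Bds (C V₀ D₀ T₀ Nb Z R : ℝ) (k : ℕ) (X V S D T : ℝ) : Prop where
  X0 : 0 ≤ X
  S0 : 0 ≤ S
  pot : S + 2 * C * (X + R) = Z
  V : V ≤ exp S * (V₀ + S)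
  D0 : 0 ≤ D
  D : D ≤ exp S * (D₀ + (C * k + S) / Nb)
  T0 : 0 ≤ T
  T : T ≤ exp S * (T₀ + S)

theorem grow {s x W₀ W : ℝ} (hs : 0 ≤ s) (hx : 0 ≤ x) (hW₀ : 0 ≤ W₀) (hW : W ≤ exp s * W₀) (e : ℝ)
    (he : 0 ≤ e) : (1 + x) * W + e ≤ exp (s + x) * (W₀ + e) := by
  have h1 : 1 + x ≤ exp x := by
    have := Real.add_one_le_exp x
    linarith
  have h2 : (1 + x) * W ≤ exp (s + x) * W₀ := by
    calc (1 + x) * W ≤ (1 + x) * (exp s * W₀) := mul_le_mul_of_nonneg_left hW (by linarith)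
      _ ≤ exp x * (exp s * W₀) := mul_le_mul_of_nonneg_right h1 (by positivity)
      _ = exp (s + x) * W₀ := by rw [Real.exp_add]; ring
  have h3 : e ≤ exp (s + x) * e := by
    have : 1 ≤ exp (s + x) := Real.one_le_exp (by linarith)
    exact le_mul_of_one_le_left he this
  calc (1 + x) * W + e ≤ exp (s + x) * W₀ + exp (s + x) * e := add_le_add h2 h3
    _ = exp (s + x) * (W₀ + e) := by ring

theorem Bds.next {C V₀ D₀ T₀ Nb Z R r σ : ℝ} {k : ℕ} {X V S D T : ℝ}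
    (h : Bds C V₀ D₀ T₀ Nb Z (r + R) k X V S D T) (hC : 1 ≤ C) (hr : 0 ≤ r) (hV₀ : 0 ≤ V₀)
    (hD₀ : 0 ≤ D₀) (hT₀ : 0 ≤ T₀) (hNb : 0 < Nb) (hσ : σ ≤ 1) (hσ0 : 0 ≤ σ) :
    Bds C V₀ D₀ T₀ Nb Z R (k + 1) (X / 2 + r) ((1 + C * X) * V + C * X) (S + C * X)
      ((1 + C * X) * D + C * (σ + X) / Nb) ((1 + C * X) * T + C * X) := by
  have hX := h.X0
  have hS := h.S0
  have hCX : 0 ≤ C * X := by positivity
  refine ⟨by positivity, by positivity, ?_, ?_, ?_, ?_, ?_, ?_⟩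
  · have := h.pot
    linarith
  · refine (grow hS hCX (add_nonneg hV₀ hS) h.V _ hCX).trans (le_of_eq ?_)
    ring
  · have := h.D0
    positivity
  · have h1 : (1 + C * X) * D + C * (σ + X) / Nb
        ≤ exp (S + C * X) * (D₀ + (C * k + S) / Nb + C * (σ + X) / Nb) :=
      grow hS hCX (by positivity) h.D _ (by positivity)
    refine h1.trans (mul_le_mul_of_nonneg_left ?_ (Real.exp_pos _).le)
    rw [add_assoc, ← add_div]
    refine add_le_add le_rfl (div_le_div_of_nonneg_right ?_ hNb.le)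
    push_cast
    have hCσ : C * σ ≤ C * 1 := mul_le_mul_of_nonneg_left hσ (by linarith)
    linarith
  · have := h.T0
    positivity
  · refine (grow hS hCX (add_nonneg hT₀ hS) h.T _ hCX).trans (le_of_eq ?_)
    ring

theorem sum_half (n : ℕ) : ∑ i ∈ Finset.range n, (1 / 2 : ℝ) ^ i ≤ 2 := by
  rw [geom_sum_eq (by norm_num)]
  have : (0 : ℝ) ≤ (1 / 2 : ℝ) ^ n := by positivity
  have h2 : ((1 / 2 : ℝ) ^ n - 1) / (1 / 2 - 1) = 2 * (1 - (1 / 2 : ℝ) ^ n) := by ring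
  rw [h2]
  linarith

theorem sum_rr_le {C Cf κ β Nb : ℝ} {Q Ns k₀ : ℕ} (hQ : 16 ≤ Q) (hC : 1 ≤ C) (hCf : 1 ≤ Cf)
    (hκ : 0 < κ) (hβ : 0 ≤ β) (hNs : 1 ≤ Ns) (hNb : Nb = ((Q ^ k₀ * Ns : ℕ) : ℝ)) :
    ∑ i ∈ Finset.range k₀, rr C Cf κ β Nb Q Ns i
      ≤ C * (Cf * (2 + 2 / κ) * β + 2 * (Ns : ℝ) ^ (-(1 / 2) : ℝ)) := by
  have hNs' : (1 : ℝ) ≤ (Ns : ℝ) := by exact_mod_cast hNs
  have hQ' : (16 : ℝ) ≤ (Q : ℝ) := by exact_mod_cast hQ
  have hQ0 : (0 : ℝ) < (Q : ℝ) := by linarith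
  have hNs0 : (0 : ℝ) < (Ns : ℝ) := by linarith
  -- the three pieces
  have h1 : ∀ i, ((Q ^ (i + 1) * Ns : ℕ) : ℝ) ^ (-(1 / 2) : ℝ) ≤ (1 / 2 : ℝ) ^ i := by
    intro i
    have hb : (4 : ℝ) ^ i ≤ ((Q ^ (i + 1) * Ns : ℕ) : ℝ) := by
      push_cast
      calc (4 : ℝ) ^ i ≤ (Q : ℝ) ^ i := pow_le_pow_left₀ (by norm_num) (by linarith) i
        _ ≤ (Q : ℝ) ^ (i + 1) := pow_le_pow_right₀ (by linarith) (Nat.le_succ i)
        _ = (Q : ℝ) ^ (i + 1) * 1 := (mul_one _).symm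
        _ ≤ (Q : ℝ) ^ (i + 1) * (Ns : ℝ) := mul_le_mul_of_nonneg_left hNs' (by positivity)
    calc ((Q ^ (i + 1) * Ns : ℕ) : ℝ) ^ (-(1 / 2) : ℝ) ≤ ((4 : ℝ) ^ i) ^ (-(1 / 2) : ℝ) :=
          Real.rpow_le_rpow_of_nonpos (by positivity) hb (by norm_num)
      _ = (1 / 2 : ℝ) ^ i := by
          rw [← Real.rpow_natCast, ← Real.rpow_natCast, ← Real.rpow_mul (by norm_num),
            show (4 : ℝ) = (1 / 2 : ℝ) ^ (-2 : ℝ) by
              rw [Real.rpow_neg (by norm_num)]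
              norm_num,
            ← Real.rpow_mul (by norm_num)]
          congr 1
          ring
  have h2 : ∀ i ∈ Finset.range k₀, exp (-(κ * Nb / ((Q ^ (i + 1) * Ns : ℕ) : ℝ)))
      ≤ (1 / κ) * (1 / 2 : ℝ) ^ (k₀ - 1 - i) := by
    intro i hi
    rw [Finset.mem_range] at hi
    obtain ⟨j, hj⟩ : ∃ j, k₀ = i + 1 + j := ⟨k₀ - (i + 1), by omega⟩
    have hj' : k₀ - 1 - i = j := by omega
    have hdiv : κ * Nb / ((Q ^ (i + 1) * Ns : ℕ) : ℝ) = κ * (Q : ℝ) ^ j := by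
      rw [hNb, hj]
      push_cast
      rw [pow_add (Q : ℝ) (i + 1) j]
      field_simp
    rw [hdiv, hj', Real.exp_neg]
    have hpos : 0 < κ * (Q : ℝ) ^ j := by positivity
    have hle : κ * (Q : ℝ) ^ j ≤ exp (κ * (Q : ℝ) ^ j) := by
      have := Real.add_one_le_exp (κ * (Q : ℝ) ^ j)
      linarith
    calc (exp (κ * (Q : ℝ) ^ j))⁻¹ ≤ (κ * (Q : ℝ) ^ j)⁻¹ := inv_anti₀ hpos hle
      _ = (1 / κ) * (1 / (Q : ℝ)) ^ j := by
          rw [mul_inv, one_div, one_div, inv_pow]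
      _ ≤ (1 / κ) * (1 / 2 : ℝ) ^ j := by
          refine mul_le_mul_of_nonneg_left (pow_le_pow_left₀ (by positivity) ?_ j) (by positivity)
          exact one_div_le_one_div_of_le (by norm_num) (by linarith)
  have h3 : ∀ i, 1 / ((Q ^ i * Ns : ℕ) : ℝ) ≤ (Ns : ℝ) ^ (-(1 / 2) : ℝ) * (1 / 2 : ℝ) ^ i := by
    intro i
    push_cast
    have e1 : 1 / ((Q : ℝ) ^ i * (Ns : ℝ)) = (Ns : ℝ)⁻¹ * (1 / (Q : ℝ)) ^ i := by
      rw [one_div_pow]
      field_simp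
    rw [e1]
    refine mul_le_mul ?_ (pow_le_pow_left₀ (by positivity) ?_ i) (by positivity) (by positivity)
    · rw [← Real.rpow_neg_one]
      exact Real.rpow_le_rpow_of_exponent_le hNs' (by norm_num)
    · exact one_div_le_one_div_of_le (by norm_num) (by linarith)
  have hsum2 : ∑ i ∈ Finset.range k₀, (1 / 2 : ℝ) ^ (k₀ - 1 - i) ≤ 2 := by
    rw [Finset.sum_range_reflect (fun i => (1 / 2 : ℝ) ^ i) k₀]
    exact sum_half k₀
  calc ∑ i ∈ Finset.range k₀, rr C Cf κ β Nb Q Ns i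
      ≤ ∑ i ∈ Finset.range k₀, C * (Cf * ((1 / 2 : ℝ) ^ i + (1 / κ) * (1 / 2 : ℝ) ^ (k₀ - 1 - i)) * β
          + (Ns : ℝ) ^ (-(1 / 2) : ℝ) * (1 / 2 : ℝ) ^ i) := by
        refine Finset.sum_le_sum fun i hi => ?_
        unfold rr ph
        refine mul_le_mul_of_nonneg_left (add_le_add ?_ (h3 i)) (by linarith)
        refine mul_le_mul_of_nonneg_right ?_ hβ
        exact mul_le_mul_of_nonneg_left (add_le_add (h1 i) (h2 i hi)) (by linarith)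
    _ = C * (Cf * (∑ i ∈ Finset.range k₀, (1 / 2 : ℝ) ^ i
          + (1 / κ) * ∑ i ∈ Finset.range k₀, (1 / 2 : ℝ) ^ (k₀ - 1 - i)) * β
          + (Ns : ℝ) ^ (-(1 / 2) : ℝ) * ∑ i ∈ Finset.range k₀, (1 / 2 : ℝ) ^ i) := by
        rw [← Finset.mul_sum, Finset.sum_add_distrib, ← Finset.sum_mul, ← Finset.mul_sum,
          Finset.sum_add_distrib, ← Finset.mul_sum, ← Finset.mul_sum]
    _ ≤ C * (Cf * (2 + (1 / κ) * 2) * β + (Ns : ℝ) ^ (-(1 / 2) : ℝ) * 2) := by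
        refine mul_le_mul_of_nonneg_left (add_le_add ?_ ?_) (by linarith)
        · refine mul_le_mul_of_nonneg_right (mul_le_mul_of_nonneg_left (add_le_add (sum_half k₀) ?_)
            (by linarith)) hβ
          exact mul_le_mul_of_nonneg_left hsum2 (by positivity)
        · exact mul_le_mul_of_nonneg_left (sum_half k₀) (by positivity)
    _ = C * (Cf * (2 + 2 / κ) * β + 2 * (Ns : ℝ) ^ (-(1 / 2) : ℝ)) := by ring

end KE7

open KE7 in
theorem low_chain (K γ Vb A C Cf κ : ℝ) (Q : ℕ) (hQ : 16 ≤ Q) (hC : 1 ≤ C) (hA : 1 ≤ A)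
    (hCf : 1 ≤ Cf) (hκ : 0 < κ) (hVb : 1 ≤ Vb) : ∃ CL : ℝ, 1 ≤ CL ∧
    ∀ (σ x₁ : ℝ) (c : ℤ → ℂ) (Ns k₀ : ℕ) (Nb ω X V D T β : ℝ) (g : ℂ → ℂ), 0 ≤ σ → σ ≤ 1 → 0 < x₁ →
      10 * C * A * x₁ ≤ 1 →
      1 ≤ Ns → 1 ≤ k₀ → Nb = ((Q ^ k₀ * Ns : ℕ) : ℝ) → (∀ n, c (-n) = starRingEnd ℂ (c n)) →
      10 ^ 4 * K ^ 4 ≤ Nb → Adv K γ Vb A σ x₁ C Q Ns c → AdvDif K γ Vb A σ x₁ C Q c →
      (∀ (A' B : ℕ) (ω ω' : ℝ) (g : ℂ → ℂ), 1 ≤ A' → A' ≤ B → B ≤ Q * A' → (B : ℝ) ≤ Nb →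
        Rot γ Nb ω → Rot γ Nb ω' → |ω' - ω| ≤ 1 / ((B : ℝ) * max (B : ℝ) Nb) →
        Dif K (4 * cr K / B) g → HP (4 * cr K / B) (fun z => g z - z) →
        Bd (2 * cr K / B) (invD ω' (fun z => FF (blockF c A' B) g ω (z + ω')))
          (Cf * ((B : ℝ) ^ (-(1 / 2) : ℝ) + exp (-(κ * Nb / B))) * blk c A' B /
            (Nb * B * max (B : ℝ) Nb))) →
      (∀ k : ℕ, blk c (Q ^ k * Ns) (Q ^ (k + 1) * Ns) ≤ β) → 0 ≤ β → β ≤ 1 →
      Lev K γ A σ c Nb Ns g ω ω X V 0 D T → 0 ≤ V → 0 ≤ D → 0 ≤ T → 2 * V + 1 ≤ Vb →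
      CL * (X + (Ns : ℝ) ^ (-(1 / 2) : ℝ) + β) ≤ x₁ → CL * (X + (Ns : ℝ) ^ (-(1 / 2) : ℝ) + β) ≤ 1 →
      ∃ g₀ : ℂ → ℂ, ∀ ω'' : ℝ, Rot γ Nb ω'' → |ω'' - ω| ≤ σ / Nb ^ 2 →
        Lev K γ A σ c Nb (Q ^ k₀ * Ns) g₀ ω ω'' (CL * (X + (Ns : ℝ) ^ (-(1 / 2) : ℝ) + β))
          (2 * V + 1) (CL * (X + (Ns : ℝ) ^ (-(1 / 2) : ℝ) + β)) (2 * (D + CL * (k₀ + 1) / Nb))
          (2 * (T + CL * (X + (Ns : ℝ) ^ (-(1 / 2) : ℝ) + β))) := by
  have hC0 : 0 < C := by linarith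
  have hCf0 : 0 < Cf := by linarith
  refine ⟨4 * C * (1 + C * Cf * (2 + 2 / κ) + 2 * C), ?_, ?_⟩
  · have h1 : 0 ≤ C * Cf * (2 + 2 / κ) := by positivity
    have h2 : (1 : ℝ) ≤ 1 + C * Cf * (2 + 2 / κ) + 2 * C := by linarith
    calc (1 : ℝ) ≤ 4 * C * 1 := by linarith
      _ ≤ 4 * C * (1 + C * Cf * (2 + 2 / κ) + 2 * C) :=
        mul_le_mul_of_nonneg_left h2 (by linarith)
  intro σ x₁ c Ns k₀ Nb ω X V D T β g hσ hσ1 hx₁ hx₁' hNs hk₀ hNb hrs hNbK hadv hdif hfresh hblk hβ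
    hβ1 hlev hV hD hT hVVb hYx hY1
  set CL : ℝ := 4 * C * (1 + C * Cf * (2 + 2 / κ) + 2 * C) with hCL
  set Y : ℝ := CL * (X + (Ns : ℝ) ^ (-(1 / 2) : ℝ) + β) with hY
  have hK1 : 1 ≤ K := hlev.pre.ctx.K1
  have hNs' : (1 : ℝ) ≤ (Ns : ℝ) := by exact_mod_cast hNs
  have hQ' : (16 : ℝ) ≤ (Q : ℝ) := by exact_mod_cast hQ
  have hNb0 : 0 < Nb := by
    have h4 : 0 < (10 : ℝ) ^ 4 * K ^ 4 := by positivity
    linarith
  have hX0 : 0 ≤ X := hlev.pre.υ0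
  have hNsr : 0 ≤ (Ns : ℝ) ^ (-(1 / 2) : ℝ) := by positivity
  have hrr0 : ∀ i, 0 ≤ rr C Cf κ β Nb Q Ns i := by
    intro i
    unfold rr ph
    positivity
  set RR' : ℕ → ℝ := fun k => ∑ i ∈ Finset.Ico k k₀, rr C Cf κ β Nb Q Ns i with hRR
  have hRR0 : ∀ k, 0 ≤ RR' k := fun k => Finset.sum_nonneg fun i _ => hrr0 i
  set Z : ℝ := 2 * C * (X + RR' 0) with hZ
  have hR0 : RR' 0 ≤ C * (Cf * (2 + 2 / κ) * β + 2 * (Ns : ℝ) ^ (-(1 / 2) : ℝ)) := by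
    rw [hRR]
    simp only [← Finset.range_eq_Ico]
    exact sum_rr_le hQ hC hCf hκ hβ hNs hNb
  have hZY : Z ≤ Y / 2 := by
    have hP : 0 ≤ C * Cf * (2 + 2 / κ) := by positivity
    have h1 : Z ≤ 2 * C * (X + C * (Cf * (2 + 2 / κ) * β + 2 * (Ns : ℝ) ^ (-(1 / 2) : ℝ))) := by
      rw [hZ]
      exact mul_le_mul_of_nonneg_left (by linarith) (by linarith)
    refine h1.trans ?_
    have h2 : Y / 2 = 2 * C * ((1 + C * Cf * (2 + 2 / κ) + 2 * C) *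
        (X + (Ns : ℝ) ^ (-(1 / 2) : ℝ) + β)) := by
      rw [hY, hCL]
      ring
    rw [h2]
    refine mul_le_mul_of_nonneg_left ?_ (by linarith)
    have e3 : 0 ≤ C * Cf * (2 + 2 / κ) * X := mul_nonneg hP hX0
    have e4 : 0 ≤ C * Cf * (2 + 2 / κ) * (Ns : ℝ) ^ (-(1 / 2) : ℝ) := mul_nonneg hP hNsr
    have e5 : 0 ≤ C * X := mul_nonneg hC0.le hX0
    have e6 : 0 ≤ C * β := mul_nonneg hC0.le hβ
    linarith
  have hY0 : 0 ≤ Y := by
    have hZ0 : 0 ≤ Z := by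
      have := hRR0 0
      rw [hZ]
      positivity
    linarith
  have hZhalf : Z ≤ 1 / 2 := by linarith
  have hexp : ∀ s : ℝ, s ≤ Z → exp s ≤ 2 := by
    intro s hs
    calc exp s ≤ exp (1 / 2) := Real.exp_le_exp.2 (hs.trans hZhalf)
      _ ≤ 2 := by
          have h1 : exp (1 / 2 : ℝ) * exp (1 / 2 : ℝ) = exp 1 := by
            rw [← Real.exp_add]; norm_num
          have h2 : exp 1 ≤ 2.7182818286 := Real.exp_one_lt_d9.le
          by_contra hlt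
          have hlt' : (2 : ℝ) < exp (1 / 2 : ℝ) := not_le.mp hlt
          have h3 := mul_lt_mul'' hlt' hlt' (by norm_num) (by norm_num)
          linarith
  have hSle : ∀ {k : ℕ} {X' V' S' D' T' : ℝ}, Bds C V D T Nb Z (RR' k) k X' V' S' D' T' →
      S' ≤ Z ∧ X' ≤ Z ∧ S' + C * X' ≤ Z ∧ V' ≤ 2 * V + 1 := by
    intro k X' V' S' D' T' hb
    have h1 := hb.pot
    have h2 := hb.X0
    have h3 := hRR0 k
    have h4 := hb.S0
    have h5 : 0 ≤ C * X' := mul_nonneg hC0.le h2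
    have h6 : 0 ≤ C * RR' k := mul_nonneg hC0.le h3
    have h7 : X' ≤ C * X' := le_mul_of_one_le_left h2 hC
    have hS : S' ≤ Z := by linarith
    refine ⟨hS, by linarith, by linarith, ?_⟩
    calc V' ≤ exp S' * (V + S') := hb.V
      _ ≤ 2 * (V + 1 / 2) := mul_le_mul (hexp S' hS) (by linarith) (by linarith) (by norm_num)
      _ = 2 * V + 1 := by ring
  -- one step
  have hstep : ∀ k, k < k₀ → ∀ (gk : ℂ → ℂ) (X' V' S' D' T' : ℝ),
      Lev K γ A σ c Nb (Q ^ k * Ns) gk ω ω X' V' S' D' T' →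
      Bds C V D T Nb Z (RR' k) k X' V' S' D' T' →
      ∃ (gk' : ℂ → ℂ) (X₁ V₁ S₁ D₁ T₁ : ℝ),
        (∀ ω'', Rot γ Nb ω'' → |ω'' - ω| ≤ σ / (((Q ^ (k + 1) * Ns : ℕ) : ℝ) * Nb) →
          Lev K γ A σ c Nb (Q ^ (k + 1) * Ns) gk' ω ω'' X₁ V₁ S₁ D₁ T₁) ∧
        Bds C V D T Nb Z (RR' (k + 1)) (k + 1) X₁ V₁ S₁ D₁ T₁ := by
    intro k hk gk X' V' S' D' T' hL hB
    obtain ⟨hS, hX', hSX, hV'⟩ := hSle hB
    set N : ℕ := Q ^ k * Ns with hN
    have hQN : Q * N = Q ^ (k + 1) * Ns := by rw [hN]; ring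
    have hNsN : Ns ≤ N := by
      rw [hN]
      exact Nat.le_mul_of_pos_left _ (by positivity)
    have hN1 : 1 ≤ N := hNs.trans hNsN
    have hBle : ((Q ^ (k + 1) * Ns : ℕ) : ℝ) ≤ Nb := by
      rw [hNb]
      have : Q ^ (k + 1) * Ns ≤ Q ^ k₀ * Ns :=
        Nat.mul_le_mul_right _ (Nat.pow_le_pow_right (by omega) hk)
      exact_mod_cast this
    have hNle : (N : ℝ) ≤ Nb := by
      refine le_trans ?_ hBle
      have : N ≤ Q ^ (k + 1) * Ns := by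
        rw [← hQN]
        exact Nat.le_mul_of_pos_left _ (by omega)
      exact_mod_cast this
    have hmaxN : max (N : ℝ) Nb = Nb := max_eq_right hNle
    have hmaxB : max ((Q ^ (k + 1) * Ns : ℕ) : ℝ) Nb = Nb := max_eq_right hBle
    have hB1 : 1 ≤ Q ^ (k + 1) * Ns := Nat.mul_pos (by positivity) hNs
    have hB1' : (1 : ℝ) ≤ ((Q ^ (k + 1) * Ns : ℕ) : ℝ) := by exact_mod_cast hB1
    have hRk : RR' k = rr C Cf κ β Nb Q Ns k + RR' (k + 1) := by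
      rw [hRR]
      exact Finset.sum_eq_sum_Ico_succ_bot hk _
    rw [hRk] at hB
    have hB' := hB.next (σ := σ) hC (hrr0 k) hV hD hT hNb0 hσ1 hσ
    obtain ⟨hS1, hX1, hSX1, hV1⟩ := hSle hB'
    have hX'x : X' ≤ x₁ := by linarith
    have hV'b : V' ≤ Vb := by linarith
    have hSX' : S' + C * X' ≤ 1 / 2 := by linarith
    obtain ⟨-, -, hd1, hd2, -⟩ := hdif N Nb ω ω X' V' S' D' T' gk hL hX'x hV'b hB.S0 hSX'
    refine ⟨gnew (trunc c N) gk ω ω, _, _, _, _, _, ?_, hB'⟩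
    intro ω'' hrot hω''
    have hph0 : 0 ≤ ph Cf κ β Nb Q Ns k := by
      unfold ph
      positivity
    have hf := hfresh N (Q * N) ω ω'' (gnew (trunc c N) gk ω ω) hN1
      (Nat.le_mul_of_pos_left _ (by omega)) le_rfl (by rw [hQN]; exact hBle) hL.rot hrot
      (by
        rw [hQN, hmaxB]
        refine hω''.trans (div_le_div_of_nonneg_right hσ1 ?_)
        positivity) hd1 hd2
    have hbd : Bd (2 * cr K / (Q * N : ℕ)) (invD ω'' (fun z =>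
        FF (blockF c N (Q * N)) (gnew (trunc c N) gk ω ω) ω (z + ω'')))
        (ph Cf κ β Nb Q Ns k / (Nb * (Q * N : ℕ) * max ((Q * N : ℕ) : ℝ) Nb)) := by
      intro z hz
      refine (hf z hz).trans (div_le_div_of_nonneg_right ?_ ?_)
      · rw [hQN]
        unfold ph
        refine mul_le_mul_of_nonneg_left (hblk k) ?_
        positivity
      · rw [hQN, hmaxB]
        positivity
    have hkey := hadv N hNsN Nb ω ω ω'' X' V' S' D' T' (ph Cf κ β Nb Q Ns k) gk hL hX'x hV'b hB.S0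
      hSX' hrot (by rw [hQN, hmaxB]; exact hω'') hph0 (by
        have e : X' / 2 + C * (ph Cf κ β Nb Q Ns k + 1 / (N : ℝ)) = X' / 2 + rr C Cf κ β Nb Q Ns k :=
          rfl
        rw [e]
        have h1 : X' / 2 + rr C Cf κ β Nb Q Ns k ≤ x₁ := by linarith
        have hAx : A * x₁ ≤ 1 := by
          have : 0 < A * x₁ := by positivity
          have h' : A * x₁ ≤ C * (A * x₁) := le_mul_of_one_le_left this.le hC
          linarith
        exact (mul_le_mul_of_nonneg_left h1 (by linarith)).trans hAx) hbd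
    rw [hQN, hmaxN, hmaxB, div_self hNb0.ne', one_mul] at hkey
    exact hkey
  -- induction
  have hind : ∀ k, k < k₀ → ∃ (gk : ℂ → ℂ) (X' V' S' D' T' : ℝ),
      Lev K γ A σ c Nb (Q ^ k * Ns) gk ω ω X' V' S' D' T' ∧
      Bds C V D T Nb Z (RR' k) k X' V' S' D' T' := by
    intro k
    induction k with
    | zero =>
      intro _
      refine ⟨g, X, V, 0, D, T, ?_, ?_⟩
      · rw [pow_zero, one_mul]
        exact hlev
      · exact ⟨hX0, le_rfl, by rw [hZ]; ring, by rw [Real.exp_zero]; linarith, hD, by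
          rw [Real.exp_zero]; simp, hT, by rw [Real.exp_zero]; linarith⟩
    | succ k ih =>
      intro hk
      obtain ⟨gk, X', V', S', D', T', hL, hB⟩ := ih (by omega)
      obtain ⟨gk', X₁, V₁, S₁, D₁, T₁, hL', hB'⟩ := hstep k (by omega) gk X' V' S' D' T' hL hB
      refine ⟨gk', X₁, V₁, S₁, D₁, T₁, hL' ω hlev.rot ?_, hB'⟩
      rw [sub_self, abs_zero]
      positivity
  obtain ⟨k₁, rfl⟩ : ∃ k₁, k₀ = k₁ + 1 := ⟨k₀ - 1, by omega⟩
  obtain ⟨gk, X', V', S', D', T', hL, hB⟩ := hind k₁ (by omega)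
  obtain ⟨gk', X₁, V₁, S₁, D₁, T₁, hL', hB'⟩ := hstep k₁ (by omega) gk X' V' S' D' T' hL hB
  obtain ⟨hS1, hX1, hSX1, hV1⟩ := hSle hB'
  refine ⟨gk', fun ω'' hrot hω'' => ?_⟩
  have hCLC : C ≤ CL := by
    rw [hCL]
    have : 0 ≤ C * Cf * (2 + 2 / κ) := by positivity
    have h' : 0 ≤ C * (C * Cf * (2 + 2 / κ)) := mul_nonneg hC0.le this
    have h'' : 0 ≤ C * C := mul_nonneg hC0.le hC0.le
    linarith
  refine lev_mono (hL' ω'' hrot ?_) hA (by linarith) ?_ hV1 (by linarith) ?_ ?_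
  · rw [← hNb, ← sq]
    exact hω''
  · have hAx : A * x₁ ≤ 1 := by
      have : 0 < A * x₁ := by positivity
      have h' : A * x₁ ≤ C * (A * x₁) := le_mul_of_one_le_left this.le hC
      linarith
    exact (mul_le_mul_of_nonneg_left hYx (by linarith)).trans hAx
  · calc D₁ ≤ exp S₁ * (D + (C * (k₁ + 1 : ℕ) + S₁) / Nb) := hB'.D
      _ ≤ 2 * (D + CL * (((k₁ + 1 : ℕ) : ℝ) + 1) / Nb) := by
          refine mul_le_mul (hexp S₁ hS1) ?_ ?_ (by norm_num)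
          · refine add_le_add le_rfl (div_le_div_of_nonneg_right ?_ hNb0.le)
            have h1 : C * ((k₁ + 1 : ℕ) : ℝ) ≤ CL * ((k₁ + 1 : ℕ) : ℝ) :=
              mul_le_mul_of_nonneg_right hCLC (by positivity)
            have h2 : S₁ ≤ CL := by linarith
            linarith
          · have := hB'.S0
            positivity
  · calc T₁ ≤ exp S₁ * (T + S₁) := hB'.T
      _ ≤ 2 * (T + Y) := mul_le_mul (hexp S₁ hS1) (by linarith) (by have := hB'.S0; linarith)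
          (by norm_num)

end Pool.Agent.MP_b87ea9_an.Kam
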