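import Mathlib
import Pool.Agent.Lib.MP_b87ea9_an.KDefs
import Pool.Agent.Lib.MP_b87ea9_an.KDefs2
import Pool.Agent.Lib.MP_b87ea9_an.KDefs3

set_option autoImplicit false

/-! Lazutkin parametrisation of a fixed table -/

namespace Pool.Agent.MP_b87ea9_an.Kam

open Real MeasureTheory

theorem lazutkin {ρ : ℝ → ℝ} (hs : ContDiff ℝ 2 ρ) (hper : ∀ x, ρ (x + 2 * π) = ρ x)
    (hpos : ∀ x, 0 < ρ x) : ∃ (G : ℝ → ℝ) (κ : ℝ), 0 < κ ∧ ContDiff ℝ 3 G ∧
      (∀ t, G (t + 2 * π) = G t + 2 * π) ∧ (∀ t, 0 < deriv G t) ∧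
      ∀ t, ρ (G t) * deriv G t ^ 3 = κ := by
  have h2π : 0 < 2 * π := by positivity
  set f : ℝ → ℝ := fun x => (ρ x) ^ (1 / 3 : ℝ) with hf
  have hfs : ContDiff ℝ 2 f := hs.rpow_const_of_ne (fun x => (hpos x).ne')
  have hfc : Continuous f := hfs.continuous
  have hfpos : ∀ x, 0 < f x := fun x => Real.rpow_pos_of_pos (hpos x) _
  have hfper : Function.Periodic f (2 * π) := fun x => by simp only [hf, hper]
  have hf3 : ∀ x, f x ^ 3 = ρ x := by
    intro x
    simp only [hf]
    rw [← Real.rpow_natCast, ← Real.rpow_mul (hpos x).le]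
    norm_num
  set I : ℝ := ∫ t in (0 : ℝ)..2 * π, f t with hI
  have hIpos : 0 < I :=
    intervalIntegral.intervalIntegral_pos_of_pos (hfc.intervalIntegrable _ _) hfpos h2π
  set c : ℝ := I / (2 * π) with hc
  have hcpos : 0 < c := by positivity
  set Θ : ℝ → ℝ := fun x => (∫ t in (0 : ℝ)..x, f t) / c with hΘ
  have hder : ∀ x, HasDerivAt Θ (f x / c) x := by
    intro x
    have := intervalIntegral.integral_hasDerivAt_right (hfc.intervalIntegrable 0 x)
      (hfc.stronglyMeasurableAtFilter _ _) hfc.continuousAt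
    exact this.div_const c
  have hdiff : Differentiable ℝ Θ := fun x => (hder x).differentiableAt
  have hderiv : deriv Θ = fun x => f x / c := by
    funext x; exact (hder x).deriv
  have hΘs : ContDiff ℝ 3 Θ := by
    have h32 : (3 : WithTop ℕ∞) = 2 + 1 := by norm_num
    rw [h32, contDiff_succ_iff_deriv]
    refine ⟨hdiff, ?_, ?_⟩
    · intro h
      exact absurd h (by decide)
    · rw [hderiv]
      exact hfs.div_const c
  have hmono : StrictMono Θ := by
    apply strictMono_of_deriv_pos
    intro x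
    rw [hderiv]
    have := hfpos x
    positivity
  have hshift : ∀ x, Θ (x + 2 * π) = Θ x + 2 * π := by
    intro x
    simp only [hΘ]
    have h1 : (∫ t in (0 : ℝ)..(x + 2 * π), f t) =
        (∫ t in (0 : ℝ)..x, f t) + ∫ t in x..(x + 2 * π), f t :=
      (intervalIntegral.integral_add_adjacent_intervals (hfc.intervalIntegrable _ _)
        (hfc.intervalIntegrable _ _)).symm
    have h2 : (∫ t in x..(x + 2 * π), f t) = I := by
      have := hfper.intervalIntegral_add_eq x 0
      rw [this, zero_add]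
    rw [h1, h2, add_div]
    congr 1
    rw [hc]
    field_simp
  have hΘ0 : Θ 0 = 0 := by simp [hΘ]
  have hper' : Function.Periodic (fun x => Θ x - x) (2 * π) := by
    intro x
    show Θ (x + 2 * π) - (x + 2 * π) = Θ x - x
    rw [hshift]; ring
  have hΘn : ∀ n : ℤ, Θ (n * (2 * π)) = n * (2 * π) := by
    intro n
    have := hper'.int_mul n 0
    simp only [zero_add, hΘ0, sub_zero] at this
    linarith
  have hsurj : Function.Surjective Θ := by
    intro y
    set n : ℤ := ⌊y / (2 * π)⌋ with hn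
    have h1 : (n : ℝ) * (2 * π) ≤ y := by
      have := Int.floor_le (y / (2 * π))
      rwa [le_div_iff₀ h2π] at this
    have h2 : y ≤ ((n + 1 : ℤ) : ℝ) * (2 * π) := by
      have := (Int.lt_floor_add_one (y / (2 * π))).le
      rw [div_le_iff₀ h2π] at this
      push_cast
      exact this
    have h3 : ((n : ℤ) : ℝ) * (2 * π) ≤ ((n + 1 : ℤ) : ℝ) * (2 * π) := h1.trans h2
    have := intermediate_value_Icc h3 hdiff.continuous.continuousOn
    rw [hΘn, hΘn] at this
    obtain ⟨x, _, hx⟩ := this ⟨h1, h2⟩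
    exact ⟨x, hx⟩
  let E : ℝ ≃ₜ ℝ := (hmono.orderIsoOfSurjective Θ hsurj).toHomeomorph
  have hE : ∀ x, E x = Θ x := fun x => rfl
  have hEs : ContDiff ℝ 3 (E.symm : ℝ → ℝ) := by
    refine E.contDiff_symm_deriv (f' := fun x => f x / c) ?_ ?_ ?_
    · intro x
      have := hfpos x
      positivity
    · intro x
      exact hder x
    · exact hΘs
  have hright : ∀ t, Θ (E.symm t) = t := fun t => by
    rw [← hE]; exact E.apply_symm_apply t
  have hGd : ∀ t, HasDerivAt (E.symm : ℝ → ℝ) (deriv (E.symm : ℝ → ℝ) t) t := fun t =>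
    ((hEs.differentiable (by norm_num)) t).hasDerivAt
  have hkey : ∀ t, f (E.symm t) / c * deriv (E.symm : ℝ → ℝ) t = 1 := by
    intro t
    have h1 : HasDerivAt (fun t => Θ (E.symm t)) (f (E.symm t) / c * deriv (E.symm : ℝ → ℝ) t) t :=
      (hder (E.symm t)).comp t (hGd t)
    have h2 : HasDerivAt (fun t => Θ (E.symm t)) 1 t := by
      have : (fun t => Θ (E.symm t)) = fun t => t := funext hright
      rw [this]; exact hasDerivAt_id t
    exact h1.unique h2
  refine ⟨E.symm, c ^ 3, by positivity, hEs, ?_, ?_, ?_⟩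
  · intro t
    apply hmono.injective
    rw [hright, hshift, hright]
  · intro t
    have h1 := hkey t
    have h2 := hfpos (E.symm t)
    have h3 : 0 < f (E.symm t) / c := by positivity
    by_contra hcon
    push Not at hcon
    nlinarith
  · intro t
    have h1 := hkey t
    have h4 : f (E.symm t) * deriv (E.symm : ℝ → ℝ) t = c := by
      have : f (E.symm t) / c * deriv (E.symm : ℝ → ℝ) t =
        (f (E.symm t) * deriv (E.symm : ℝ → ℝ) t) / c := by ring
      rw [this, div_eq_one_iff_eq hcpos.ne'] at h1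
      exact h1
    rw [← hf3, ← mul_pow, h4]

end Pool.Agent.MP_b87ea9_an.Kam
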