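import Mathlib
import Pool.Agent.Lib.MP_b87ea9_an.KDefs
import Pool.Agent.Lib.MP_b87ea9_an.KDefs2

set_option autoImplicit false

/-! Fourier coefficients of the support function -/

namespace Pool.Agent.MP_b87ea9_an.Kam

open Real MeasureTheory

namespace KG0

/-- Fourier coefficients of a function of a real variable -/
noncomputable def cf (f : ℝ → ℂ) (n : ℤ) : ℂ :=
  (1 / (2 * π)) * ∫ t in (0 : ℝ)..2 * π, f t * Complex.exp (-(n * t * Complex.I))

instance fact2pi : Fact (0 < 2 * π) := ⟨two_pi_pos⟩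

theorem cf_eq {f : ℝ → ℂ} (hper : Function.Periodic f (2 * π)) (n : ℤ) :
    fourierCoeff hper.lift n = cf f n := by
  rw [fourierCoeff_eq_intervalIntegral _ n 0, cf, zero_add]
  rw [Complex.real_smul]
  push_cast
  congr 1
  refine intervalIntegral.integral_congr fun t _ => ?_
  simp only [Function.Periodic.lift_coe, smul_eq_mul, fourier_coe_apply]
  rw [mul_comm]
  congr 2
  have : (π : ℂ) ≠ 0 := by exact_mod_cast pi_ne_zero
  push_cast
  field_simp

theorem continuous_lift {f : ℝ → ℂ} (hf : Continuous f) (hper : Function.Periodic f (2 * π)) :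
    Continuous hper.lift := by
  exact continuous_coinduced_dom.mpr hf

theorem summable_sq {f : ℝ → ℂ} (hf : Continuous f) (hper : Function.Periodic f (2 * π)) :
    Summable fun n => ‖cf f n‖ ^ 2 := by
  let F : C(AddCircle (2 * π), ℂ) := ⟨hper.lift, continuous_lift hf hper⟩
  have h := hasSum_sq_fourierCoeff (ContinuousMap.toLp (E := ℂ) 2 AddCircle.haarAddCircle ℂ F)
  have h2 := h.summable
  refine h2.congr fun n => ?_
  rw [fourierCoeff_toLp]
  rw [← cf_eq hper]
  rfl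

theorem cf_deriv {f f' : ℝ → ℂ} (hf : ∀ x, HasDerivAt f (f' x) x) (hf' : Continuous f')
    (hper : Function.Periodic f (2 * π)) (n : ℤ) : cf f' n = n * Complex.I * cf f n := by
  have hcf : Continuous f := continuous_iff_continuousAt.mpr fun x => (hf x).continuousAt
  have hE : ∀ t : ℝ, HasDerivAt (fun t : ℝ => Complex.exp (-(n * t * Complex.I)))
      (Complex.exp (-(n * t * Complex.I)) * (-(n * Complex.I))) t := by
    intro t
    have h1 : HasDerivAt (fun t : ℝ => -((n : ℂ) * (t : ℂ) * Complex.I)) (-(n * Complex.I)) t := by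
      have h0 := ((Complex.ofRealCLM.hasDerivAt (x := t)).const_mul (n : ℂ)).mul_const Complex.I
      have h1 : HasDerivAt (fun t : ℝ => (n : ℂ) * (t : ℂ) * Complex.I) (n * Complex.I) t := by
        simpa using h0
      exact h1.neg
    exact h1.cexp
  have hcE : Continuous fun t : ℝ => Complex.exp (-(n * t * Complex.I)) := by fun_prop
  have h := intervalIntegral.integral_eq_sub_of_hasDerivAt (a := 0) (b := 2 * π)
    (f := fun t => f t * Complex.exp (-(n * t * Complex.I)))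
    (f' := fun t => f' t * Complex.exp (-(n * t * Complex.I)) +
      f t * (Complex.exp (-(n * t * Complex.I)) * (-(n * Complex.I))))
    (fun t _ => (hf t).mul (hE t))
    ((by fun_prop : Continuous _).intervalIntegrable _ _)
  have hp : f (2 * π) = f 0 := by have := hper 0; rwa [zero_add] at this
  have he : Complex.exp (-(n * (((2 * π : ℝ)) : ℂ) * Complex.I)) = 1 := by
    rw [Complex.exp_eq_one_iff]
    exact ⟨-n, by push_cast; ring⟩
  rw [hp, he] at h
  simp only [Complex.ofReal_zero, mul_zero, zero_mul, neg_zero, Complex.exp_zero, mul_one,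
    sub_self] at h
  rw [intervalIntegral.integral_add ((by fun_prop : Continuous _).intervalIntegrable _ _)
    ((by fun_prop : Continuous _).intervalIntegrable _ _)] at h
  have h2 : ∫ t in (0 : ℝ)..2 * π, f t * (Complex.exp (-(n * t * Complex.I)) *
      (-(n * Complex.I))) = (∫ t in (0 : ℝ)..2 * π, f t * Complex.exp (-(n * t * Complex.I))) *
        (-(n * Complex.I)) := by
    rw [← intervalIntegral.integral_mul_const]
    refine intervalIntegral.integral_congr fun t _ => ?_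
    ring
  rw [h2] at h
  unfold cf
  have h3 : ∫ t in (0 : ℝ)..2 * π, f' t * Complex.exp (-(n * t * Complex.I)) =
      (∫ t in (0 : ℝ)..2 * π, f t * Complex.exp (-(n * t * Complex.I))) * (n * Complex.I) := by
    linear_combination h
  rw [h3]
  ring

theorem hasSum_of_summable {f : ℝ → ℂ} (hf : Continuous f) (hper : Function.Periodic f (2 * π))
    (hs : Summable (cf f)) (x : ℝ) :
    HasSum (fun n : ℤ => cf f n * Complex.exp (n * x * Complex.I)) (f x) := by
  let F : C(AddCircle (2 * π), ℂ) := ⟨hper.lift, continuous_lift hf hper⟩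
  have hFc : fourierCoeff F = cf f := by
    funext n
    exact cf_eq hper n
  have h := has_pointwise_sum_fourier_series_of_summable (f := F) (by rw [hFc]; exact hs) x
  have e : F (x : AddCircle (2 * π)) = f x := Function.Periodic.lift_coe hper x
  rw [e, hFc] at h
  convert h using 2 with n
  rw [smul_eq_mul, fourier_coe_apply]
  congr 2
  have : (π : ℂ) ≠ 0 := by exact_mod_cast pi_ne_zero
  push_cast
  field_simp

theorem deriv_per {f : ℝ → ℝ} (hper : ∀ x, f (x + 2 * π) = f x) (x : ℝ) :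
    deriv f (x + 2 * π) = deriv f x := by
  have h : (fun x => f (x + 2 * π)) = f := funext hper
  rw [← deriv_comp_add_const, h]

theorem cont_deriv {f : ℝ → ℝ} {n : ℕ} (hf : ContDiff ℝ (n + 1) f) : ContDiff ℝ n (deriv f) :=
  (contDiff_succ_iff_deriv.mp hf).2.2

/-- the chain of derivatives -/
theorem chain {f : ℝ → ℝ} {n : ℕ} (hf : ContDiff ℝ (n + 1) f) (x : ℝ) :
    HasDerivAt (fun x => (f x : ℂ)) ((deriv f x : ℝ) : ℂ) x := by
  have h1 : Differentiable ℝ f := (contDiff_succ_iff_deriv.mp hf).1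
  exact (h1 x).hasDerivAt.ofReal_comp

theorem cont_ofReal {f : ℝ → ℝ} {n : ℕ} (hf : ContDiff ℝ n f) :
    Continuous fun x => (f x : ℂ) := Complex.continuous_ofReal.comp hf.continuous

theorem per_ofReal {f : ℝ → ℝ} (hper : ∀ x, f (x + 2 * π) = f x) :
    Function.Periodic (fun x => (f x : ℂ)) (2 * π) := fun x => by
  show ((f (x + 2 * π) : ℝ) : ℂ) = f x
  rw [hper]

theorem cf_step {f : ℝ → ℝ} {n : ℕ} (hf : ContDiff ℝ (n + 1) f) (hper : ∀ x, f (x + 2 * π) = f x)
    (k : ℤ) : cf (fun x => ((deriv f x : ℝ) : ℂ)) k = k * Complex.I * cf (fun x => (f x : ℂ)) k :=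
  cf_deriv (chain hf) (cont_ofReal (cont_deriv hf)) (per_ofReal hper) k

theorem cf_neg (f : ℝ → ℝ) (n : ℤ) :
    cf (fun x => (f x : ℂ)) (-n) = starRingEnd ℂ (cf (fun x => (f x : ℂ)) n) := by
  unfold cf
  rw [map_mul, ← intervalIntegral.intervalIntegral_conj]
  congr 1
  · have : (1 / (2 * π) : ℂ) = ((1 / (2 * π) : ℝ) : ℂ) := by push_cast; rfl
    rw [this, Complex.conj_ofReal]
  · refine intervalIntegral.integral_congr fun t _ => ?_
    simp only [map_mul, Complex.conj_ofReal, ← Complex.exp_conj, map_neg, Complex.conj_I,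
      map_intCast]
    push_cast
    ring_nf

end KG0

open KG0

theorem table_of_supp {h : ℝ → ℝ} (hs : ContDiff ℝ 4 h) (hper : ∀ x, h (x + 2 * π) = h x)
    (hpos : ∀ x, 0 < h x + deriv (deriv h) x) : ∃ (K : ℝ) (c : ℤ → ℂ), Table K c ∧
      ∀ x : ℝ, HasSum (fun n : ℤ => c n * Complex.exp (n * x * Complex.I)) (h x : ℂ) := by
  have s0 : ContDiff ℝ ((3 : ℕ) + 1) h := by exact_mod_cast hs
  have s1 : ContDiff ℝ ((2 : ℕ) + 1) (deriv h) := by exact_mod_cast cont_deriv s0
  have s2 : ContDiff ℝ ((1 : ℕ) + 1) (deriv (deriv h)) := by exact_mod_cast cont_deriv s1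
  have s3 : ContDiff ℝ ((0 : ℕ) + 1) (deriv (deriv (deriv h))) := by exact_mod_cast cont_deriv s2
  have s4 : ContDiff ℝ (0 : ℕ) (deriv (deriv (deriv (deriv h)))) := cont_deriv s3
  have p1 := deriv_per hper
  have p2 := deriv_per p1
  have p3 := deriv_per p2
  have p4 := deriv_per p3
  set c : ℤ → ℂ := cf (fun x => (h x : ℂ)) with hc
  have c1 : ∀ n, cf (fun x => ((deriv h x : ℝ) : ℂ)) n = n * Complex.I * c n := cf_step s0 hper
  have c2 : ∀ n, cf (fun x => ((deriv (deriv h) x : ℝ) : ℂ)) n = -(n : ℂ) ^ 2 * c n := by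
    intro n
    rw [cf_step s1 p1, c1]
    have := Complex.I_sq
    linear_combination (n : ℂ) ^ 2 * c n * this
  have c4 : ∀ n, cf (fun x => ((deriv (deriv (deriv (deriv h))) x : ℝ) : ℂ)) n =
      (n : ℂ) ^ 4 * c n := by
    intro n
    rw [cf_step s3 p3, cf_step s2 p2, c2]
    have := Complex.I_sq
    linear_combination -(n : ℂ) ^ 4 * c n * this
  have hsq : Summable fun n : ℤ => (n : ℝ) ^ 8 * ‖c n‖ ^ 2 := by
    refine (summable_sq (cont_ofReal s4) (per_ofReal p4)).congr fun n => ?_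
    rw [c4, norm_mul, norm_pow, Complex.norm_intCast, mul_pow, ← pow_mul]
    congr 1
    rw [show (4 * 2 : ℕ) = 8 by norm_num]
    rw [show |(n : ℝ)| ^ 8 = (|(n : ℝ)| ^ 2) ^ 4 by ring, sq_abs]
    ring
  have hinv : Summable fun n : ℤ => 1 / (n : ℝ) ^ 2 :=
    Real.summable_one_div_int_pow.mpr one_lt_two
  have habs : Summable fun n : ℤ => (1 + |(n : ℝ)|) ^ 3 * ‖c n‖ := by
    have hb : Summable fun n : ℤ => (if n = 0 then ‖c 0‖ else 0) +
        4 * (1 / (n : ℝ) ^ 2 + (n : ℝ) ^ 8 * ‖c n‖ ^ 2) := by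
      refine Summable.add ?_ ((hinv.add hsq).mul_left 4)
      exact summable_of_ne_finset_zero (s := {0}) fun n hn => by
        rw [Finset.mem_singleton] at hn
        rw [if_neg hn]
    refine Summable.of_nonneg_of_le (fun n => by positivity) (fun n => ?_) hb
    by_cases hn : n = 0
    · subst hn
      simp
    · rw [if_neg hn, zero_add]
      have h1 : 1 ≤ |(n : ℝ)| := by
        have := Int.one_le_abs hn
        have h2 : ((1 : ℤ) : ℝ) ≤ ((|n| : ℤ) : ℝ) := by exact_mod_cast this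
        simpa using h2
      have h2 : (1 + |(n : ℝ)|) ^ 3 ≤ (2 * |(n : ℝ)|) ^ 3 :=
        pow_le_pow_left₀ (by positivity) (by linarith) 3
      have e2 : (n : ℝ) ^ 2 = |(n : ℝ)| ^ 2 := (sq_abs _).symm
      have e8 : (n : ℝ) ^ 8 = |(n : ℝ)| ^ 8 := by
        rw [show (n : ℝ) ^ 8 = ((n : ℝ) ^ 2) ^ 4 by ring, e2]
        ring
      rw [e2, e8]
      set a := |(n : ℝ)|
      have ha : 0 < a := by linarith
      calc (1 + a) ^ 3 * ‖c n‖ ≤ (2 * a) ^ 3 * ‖c n‖ := by gcongr
        _ = 4 * (2 * (1 / a) * (a ^ 4 * ‖c n‖)) := by field_simp; ring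
        _ ≤ 4 * ((1 / a) ^ 2 + (a ^ 4 * ‖c n‖) ^ 2) := by
          gcongr
          exact two_mul_le_add_sq _ _
        _ = 4 * (1 / a ^ 2 + a ^ 8 * ‖c n‖ ^ 2) := by ring
  have hsc : Summable c := by
    refine Summable.of_norm_bounded habs fun n => ?_
    have : 1 ≤ (1 + |(n : ℝ)|) ^ 3 := one_le_pow₀ (by linarith [abs_nonneg (n : ℝ)])
    nlinarith [norm_nonneg (c n)]
  have hh : ∀ x : ℝ, HasSum (fun n : ℤ => c n * Complex.exp (n * x * Complex.I)) (h x : ℂ) :=
    hasSum_of_summable (cont_ofReal s0) (per_ofReal hper) hsc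
  have hsc2 : Summable (cf (fun x => ((deriv (deriv h) x : ℝ) : ℂ))) := by
    refine Summable.of_norm_bounded habs fun n => ?_
    rw [c2, norm_mul, norm_neg, norm_pow, Complex.norm_intCast]
    gcongr
    have h0 := abs_nonneg (n : ℝ)
    nlinarith [mul_nonneg h0 h0, mul_nonneg (mul_nonneg h0 h0) h0]
  have hh2 : ∀ x : ℝ, HasSum (fun n : ℤ => -(n : ℂ) ^ 2 * c n * Complex.exp (n * x * Complex.I))
      ((deriv (deriv h) x : ℝ) : ℂ) := by
    intro x
    have := hasSum_of_summable (cont_ofReal s2) (per_ofReal p2) hsc2 x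
    simpa only [c2] using this
  have hsum : ∀ x : ℝ, ∑' n : ℤ, c n * (1 - (n : ℂ) ^ 2) * Complex.exp (n * x * Complex.I) =
      ((h x + deriv (deriv h) x : ℝ) : ℂ) := by
    intro x
    have := (hh x).add (hh2 x)
    push_cast
    rw [← this.tsum_eq]
    refine tsum_congr fun n => ?_
    ring
  -- the lower bound
  obtain ⟨x₀, _, hx₀⟩ := (isCompact_Icc (a := (0 : ℝ)) (b := 2 * π)).exists_isMinOn
    (Set.nonempty_Icc.mpr two_pi_pos.le) (f := fun x => h x + deriv (deriv h) x)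
    (s0.continuous.add s2.continuous).continuousOn
  set μ := h x₀ + deriv (deriv h) x₀ with hμ
  have hμ0 : 0 < μ := hpos x₀
  have hμle : ∀ x, μ ≤ h x + deriv (deriv h) x := by
    intro x
    have hp : Function.Periodic (fun x => h x + deriv (deriv h) x) (2 * π) := fun x => by
      show h (x + 2 * π) + deriv (deriv h) (x + 2 * π) = _
      rw [hper, p2]
    obtain ⟨y, hy, hxy⟩ := hp.exists_mem_Ico₀ two_pi_pos x
    rw [hxy]
    exact hx₀ (Set.Ico_subset_Icc_self hy)
  set S := ∑' n : ℤ, (1 + |(n : ℝ)|) ^ 3 * ‖c n‖ with hS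
  refine ⟨max 1 (max S (2 / μ)), c, ⟨le_max_left _ _, cf_neg h, hsq, fun s => ?_, fun x => ?_⟩, hh⟩
  · exact (habs.sum_le_tsum s (fun n _ => by positivity)).trans
      ((le_max_left _ _).trans (le_max_right _ _))
  · rw [hsum, Complex.ofReal_re]
    refine le_trans ?_ (hμle x)
    have h1 : 2 / μ ≤ max 1 (max S (2 / μ)) := (le_max_right _ _).trans (le_max_right _ _)
    rw [div_le_iff₀ (lt_of_lt_of_le one_pos (le_max_left _ _))]
    rw [div_le_iff₀ hμ0] at h1
    linarith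

namespace KG0

theorem hasDerivAt_term (n : ℤ) (a : ℂ) (z : ℂ) :
    HasDerivAt (fun z : ℂ => a * Complex.exp (n * z * Complex.I))
      (a * (n * Complex.I) * Complex.exp (n * z * Complex.I)) z := by
  have h1 : HasDerivAt (fun z : ℂ => (n : ℂ) * z * Complex.I) (n * Complex.I) z := by
    have h0 := ((hasDerivAt_id z).const_mul (n : ℂ)).mul_const Complex.I
    simpa using h0
  have h2 := h1.cexp.const_mul a
  rw [show a * (n * Complex.I) * Complex.exp (n * z * Complex.I) =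
    a * (Complex.exp (n * z * Complex.I) * (n * Complex.I)) by ring]
  exact h2

theorem deriv_trunc (c : ℤ → ℂ) (N : ℕ) :
    deriv (trunc c N) = trunc (fun n => c n * (n * Complex.I)) N := by
  funext z
  have : HasDerivAt (trunc c N) (trunc (fun n => c n * (n * Complex.I)) N z) z := by
    unfold trunc
    exact HasDerivAt.fun_sum fun n _ => hasDerivAt_term n (c n) z
  exact this.deriv

theorem norm_exp_int (n : ℤ) (x : ℝ) : ‖Complex.exp (n * x * Complex.I)‖ = 1 := by
  have := Complex.norm_exp_ofReal_mul_I ((n : ℝ) * x)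
  push_cast at this
  exact this

/-- derivative of a Fourier series -/
theorem series_deriv {c : ℤ → ℂ} {f : ℝ → ℝ} (hf : Differentiable ℝ f)
    (hh : ∀ x : ℝ, HasSum (fun n : ℤ => c n * Complex.exp (n * x * Complex.I)) (f x : ℂ))
    (hs : Summable fun n : ℤ => ‖c n * (n * Complex.I)‖) (x : ℝ) :
    HasSum (fun n : ℤ => c n * (n * Complex.I) * Complex.exp (n * x * Complex.I))
      ((deriv f x : ℝ) : ℂ) := by
  have h1 : ∀ (n : ℤ) (y : ℝ), HasDerivAt (fun y : ℝ => c n * Complex.exp (n * y * Complex.I))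
      (c n * (n * Complex.I) * Complex.exp (n * y * Complex.I)) y := fun n y =>
    (hasDerivAt_term n (c n) y).comp_ofReal
  have hb : ∀ (n : ℤ) (y : ℝ), ‖c n * (n * Complex.I) * Complex.exp (n * y * Complex.I)‖ ≤
      ‖c n * (n * Complex.I)‖ := fun n y => by
    rw [norm_mul, norm_exp_int, mul_one]
  have h2 := hasDerivAt_tsum hs h1 hb (hh 0).summable x
  have e : (fun z : ℝ => ∑' n : ℤ, c n * Complex.exp (n * z * Complex.I)) =
      fun z => (f z : ℂ) := funext fun z => (hh z).tsum_eq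
  rw [e] at h2
  have h3 := (hf x).hasDerivAt.ofReal_comp
  rw [h3.unique h2]
  exact (Summable.of_norm_bounded hs (fun n => hb n x)).hasSum

theorem tail {f : ℤ → ℂ} {G : ℤ → ℝ} {F : ℂ} {S : ℝ} (hf : HasSum f F) (hG : HasSum G S)
    (hle : ∀ n, ‖f n‖ ≤ G n) (s : Finset ℤ) : ‖∑ n ∈ s, f n - F‖ ≤ S - ∑ n ∈ s, G n := by
  have h1 : Filter.Tendsto (fun t : Finset ℤ => ‖∑ n ∈ s, f n - ∑ n ∈ t, f n‖) Filter.atTop
      (nhds ‖∑ n ∈ s, f n - F‖) := (tendsto_const_nhds.sub hf).norm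
  have h2 : Filter.Tendsto (fun t : Finset ℤ => ∑ n ∈ t, G n - ∑ n ∈ s, G n) Filter.atTop
      (nhds (S - ∑ n ∈ s, G n)) := Filter.Tendsto.sub hG tendsto_const_nhds
  refine le_of_tendsto_of_tendsto h1 h2 ?_
  filter_upwards [Filter.eventually_ge_atTop s] with t ht
  rw [norm_sub_rev, ← Finset.sum_sdiff ht, ← Finset.sum_sdiff (f := G) ht, add_sub_cancel_right,
    add_sub_cancel_right]
  exact (norm_sum_le _ _).trans (Finset.sum_le_sum fun n _ => hle n)

end KG0

/-- uniform convergence of the truncations -/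
theorem trunc_tendsto {K : ℝ} {c : ℤ → ℂ} {h : ℝ → ℝ} (hc : Table K c) (hs : ContDiff ℝ 4 h)
    (hh : ∀ x : ℝ, HasSum (fun n : ℤ => c n * Complex.exp (n * x * Complex.I)) (h x : ℂ)) :
    ∀ ε : ℝ, 0 < ε → ∃ N₀ : ℕ, ∀ N : ℕ, N₀ ≤ N → ∀ x : ℝ,
      ‖trunc c N x - h x‖ ≤ ε ∧ ‖deriv (trunc c N) x - deriv h x‖ ≤ ε ∧
      ‖deriv (deriv (trunc c N)) x - deriv (deriv h) x‖ ≤ ε ∧
      ‖deriv (deriv (deriv (trunc c N))) x‖ ≤ K := by
  intro ε hε
  have s0 : ContDiff ℝ ((3 : ℕ) + 1) h := by exact_mod_cast hs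
  have s1 : ContDiff ℝ ((2 : ℕ) + 1) (deriv h) := by exact_mod_cast cont_deriv s0
  have d0 : Differentiable ℝ h := (contDiff_succ_iff_deriv.mp s0).1
  have d1 : Differentiable ℝ (deriv h) := (contDiff_succ_iff_deriv.mp s1).1
  set G : ℤ → ℝ := fun n => (1 + |(n : ℝ)|) ^ 3 * ‖c n‖ with hG
  have hG0 : ∀ n, 0 ≤ G n := fun n => by positivity
  have hGs : Summable G := summable_of_sum_le hG0 hc.abs
  -- the four coefficient sequences are bounded by `G`
  have b0 : ∀ n, ‖c n‖ ≤ G n := fun n => by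
    have : 1 ≤ (1 + |(n : ℝ)|) ^ 3 := one_le_pow₀ (by linarith [abs_nonneg (n : ℝ)])
    show ‖c n‖ ≤ (1 + |(n : ℝ)|) ^ 3 * ‖c n‖
    nlinarith [norm_nonneg (c n)]
  have b1 : ∀ n : ℤ, ‖c n * (n * Complex.I)‖ ≤ G n := fun n => by
    rw [norm_mul, norm_mul, Complex.norm_I, mul_one, Complex.norm_intCast, mul_comm]
    show _ ≤ (1 + |(n : ℝ)|) ^ 3 * ‖c n‖
    gcongr
    have h0 := abs_nonneg (n : ℝ)
    nlinarith [mul_nonneg h0 h0, mul_nonneg (mul_nonneg h0 h0) h0]
  have b2 : ∀ n : ℤ, ‖c n * (n * Complex.I) * (n * Complex.I)‖ ≤ G n := fun n => by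
    rw [norm_mul, norm_mul, norm_mul, Complex.norm_I, mul_one, Complex.norm_intCast,
      show ‖c n‖ * |(n : ℝ)| * |(n : ℝ)| = |(n : ℝ)| ^ 2 * ‖c n‖ by ring]
    show _ ≤ (1 + |(n : ℝ)|) ^ 3 * ‖c n‖
    gcongr
    have h0 := abs_nonneg (n : ℝ)
    nlinarith [mul_nonneg h0 h0, mul_nonneg (mul_nonneg h0 h0) h0]
  have b3 : ∀ n : ℤ, ‖c n * (n * Complex.I) * (n * Complex.I) * (n * Complex.I)‖ ≤ G n := fun n => by
    rw [norm_mul, norm_mul, norm_mul, norm_mul, Complex.norm_I, mul_one, Complex.norm_intCast,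
      show ‖c n‖ * |(n : ℝ)| * |(n : ℝ)| * |(n : ℝ)| = |(n : ℝ)| ^ 3 * ‖c n‖ by ring]
    show _ ≤ (1 + |(n : ℝ)|) ^ 3 * ‖c n‖
    gcongr
    linarith
  have hh1 := series_deriv d0 hh (Summable.of_nonneg_of_le (fun n => norm_nonneg _) b1 hGs)
  have hh2 := series_deriv d1 hh1 (Summable.of_nonneg_of_le (fun n => norm_nonneg _) b2 hGs)
  obtain ⟨S, hS⟩ := hGs
  -- choice of `N₀`
  obtain ⟨s₀, hs₀⟩ : ∃ s₀ : Finset ℤ, ∀ s, s₀ ⊆ s → S - ∑ n ∈ s, G n ≤ ε := by
    have h1 : ∀ᶠ s in Filter.atTop, ∑ n ∈ s, G n ∈ Set.Ioi (S - ε) :=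
      hS.eventually (Ioi_mem_nhds (by linarith))
    obtain ⟨s₀, h2⟩ := Filter.eventually_atTop.mp h1
    refine ⟨s₀, fun s hs => ?_⟩
    have : S - ε < ∑ n ∈ s, G n := h2 s hs
    linarith
  refine ⟨s₀.sup Int.natAbs, fun N hN x => ?_⟩
  have hsub : s₀ ⊆ Finset.Icc (-(N : ℤ)) N := by
    intro n hn
    have h1 : n.natAbs ≤ N := (Finset.le_sup (f := Int.natAbs) hn).trans hN
    rw [Finset.mem_Icc]
    omega
  have hε' := hs₀ _ hsub
  refine ⟨?_, ?_, ?_, ?_⟩
  · refine (tail (hh x) hS (fun n => ?_) _).trans hε'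
    rw [norm_mul, norm_exp_int, mul_one]
    exact b0 n
  · rw [deriv_trunc]
    refine (tail (hh1 x) hS (fun n => ?_) _).trans hε'
    rw [norm_mul, norm_exp_int, mul_one]
    exact b1 n
  · rw [deriv_trunc, deriv_trunc]
    refine (tail (hh2 x) hS (fun n => ?_) _).trans hε'
    rw [norm_mul, norm_exp_int, mul_one]
    exact b2 n
  · rw [deriv_trunc, deriv_trunc, deriv_trunc]
    unfold trunc
    refine (norm_sum_le _ _).trans ((Finset.sum_le_sum fun n _ => ?_).trans
      (hc.abs (Finset.Icc (-(N : ℤ)) N)))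
    rw [norm_mul, norm_exp_int, mul_one]
    exact b3 n

end Pool.Agent.MP_b87ea9_an.Kam
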