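import Mathlib
import Pool.Agent.Lib.MP_b87ea9_an.KDefs
import Pool.Agent.Lib.MP_b87ea9_an.KDefs2
import Pool.Agent.Lib.MP_b87ea9_an.KA1
import Pool.Agent.Lib.MP_b87ea9_an.KG0

set_option autoImplicit false

/-! Truncations of Fourier series with weighted square summable coefficients -/

namespace Pool.Agent.MP_b87ea9_an.Kam

open Real MeasureTheory

namespace KF2

/-- weighted `ℓ²` bound on the coefficients -/
def WS (k : ℕ) (S : ℝ) (a : ℤ → ℂ) : Prop :=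
  0 ≤ S ∧ ∀ s : Finset ℤ, ∑ n ∈ s, (|(n : ℝ)| ^ k * ‖a n‖) ^ 2 ≤ S ^ 2

/-- coefficients of the derivative -/
def D (a : ℤ → ℂ) (n : ℤ) : ℂ := a n * (n * Complex.I)

theorem norm_D (a : ℤ → ℂ) (n : ℤ) : ‖D a n‖ = |(n : ℝ)| * ‖a n‖ := by
  unfold D
  rw [norm_mul, norm_mul, Complex.norm_I, mul_one, Complex.norm_intCast, mul_comm]

theorem WS.D {k : ℕ} {S : ℝ} {a : ℤ → ℂ} (h : WS (k + 1) S a) : WS k S (D a) := by
  refine ⟨h.1, fun s => ?_⟩
  refine le_trans (le_of_eq ?_) (h.2 s)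
  refine Finset.sum_congr rfl fun n _ => ?_
  rw [norm_D]
  ring

theorem pow_le_pow_int {k : ℕ} (hk : 1 ≤ k) (n : ℤ) : |(n : ℝ)| ^ k ≤ |(n : ℝ)| ^ (k + 1) := by
  by_cases hn : n = 0
  · subst hn
    have : k ≠ 0 := by omega
    simp [this]
  · have h1 : 1 ≤ |(n : ℝ)| := by exact_mod_cast Int.one_le_abs hn
    exact pow_le_pow_right₀ h1 (Nat.le_succ k)

theorem WS.mono {k : ℕ} {S : ℝ} {a : ℤ → ℂ} (hk : 1 ≤ k) (h : WS (k + 1) S a) : WS k S a := by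
  refine ⟨h.1, fun s => ?_⟩
  refine (Finset.sum_le_sum fun n _ => ?_).trans (h.2 s)
  have := pow_le_pow_int hk n
  gcongr

theorem nat_sum (N : ℕ) (t : Finset ℕ) (ht : ∀ m ∈ t, N < m) :
    ∑ m ∈ t, ((m : ℝ) ^ 2)⁻¹ ≤ 2 / (N + 1) := by
  have hsub : t ⊆ Finset.Ioo N (t.sup id + 1) := by
    intro m hm
    rw [Finset.mem_Ioo]
    exact ⟨ht m hm, Nat.lt_succ_of_le (Finset.le_sup (f := id) hm)⟩
  refine (Finset.sum_le_sum_of_subset_of_nonneg hsub fun m _ _ => by positivity).trans ?_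
  exact sum_Ioo_inv_sq_le N _

theorem inv_sq_sum (N : ℕ) (s : Finset ℤ) (hs : ∀ n ∈ s, (N : ℤ) < |n|) :
    ∑ n ∈ s, (|(n : ℝ)|⁻¹) ^ 2 ≤ 4 / (N + 1) := by
  have key : ∀ t : Finset ℤ, (∀ n ∈ t, (N : ℤ) < |n|) →
      Set.InjOn Int.natAbs (t : Set ℤ) → ∑ n ∈ t, (|(n : ℝ)|⁻¹) ^ 2 ≤ 2 / (N + 1) := by
    intro t ht hinj
    have h1 : ∑ n ∈ t, (|(n : ℝ)|⁻¹) ^ 2 = ∑ m ∈ t.image Int.natAbs, ((m : ℝ) ^ 2)⁻¹ := by
      rw [Finset.sum_image hinj]
      refine Finset.sum_congr rfl fun n _ => ?_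
      rw [inv_pow, ← Int.cast_abs, Int.abs_eq_natAbs]
      simp
    rw [h1]
    refine nat_sum N _ fun m hm => ?_
    obtain ⟨n, hn, rfl⟩ := Finset.mem_image.1 hm
    have := ht n hn
    rw [Int.abs_eq_natAbs] at this
    omega
  rw [← Finset.sum_filter_add_sum_filter_not s (fun n : ℤ => 0 ≤ n)]
  have h1 := key (s.filter (fun n : ℤ => 0 ≤ n)) (fun n hn => hs n (Finset.mem_filter.1 hn).1) (by
    intro a ha b hb hab
    have ha' := (Finset.mem_filter.1 ha).2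
    have hb' := (Finset.mem_filter.1 hb).2
    omega)
  have h2 := key (s.filter (fun n : ℤ => ¬ 0 ≤ n)) (fun n hn => hs n (Finset.mem_filter.1 hn).1)
    (by
    intro a ha b hb hab
    have ha' := (Finset.mem_filter.1 ha).2
    have hb' := (Finset.mem_filter.1 hb).2
    omega)
  calc _ ≤ (2 : ℝ) / (N + 1) + 2 / (N + 1) := add_le_add h1 h2
    _ = 4 / (N + 1) := by ring

theorem cs (s : Finset ℤ) (a b : ℤ → ℝ) {A B : ℝ} (hA : 0 ≤ A) (hB : 0 ≤ B)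
    (h1 : ∑ n ∈ s, a n ^ 2 ≤ A ^ 2) (h2 : ∑ n ∈ s, b n ^ 2 ≤ B ^ 2) :
    ∑ n ∈ s, a n * b n ≤ A * B := by
  have h5 := Finset.sum_mul_sq_le_sq_mul_sq s a b
  have h6 : (∑ n ∈ s, a n * b n) ^ 2 ≤ (A * B) ^ 2 := by
    rw [mul_pow]
    exact h5.trans (mul_le_mul h1 h2 (Finset.sum_nonneg fun n _ => sq_nonneg _) (sq_nonneg _))
  exact le_of_sq_le_sq h6 (mul_nonneg hA hB)

/-- tails -/
theorem WS.tail {S : ℝ} {a : ℤ → ℂ} (h : WS 1 S a) (N : ℕ) (s : Finset ℤ)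
    (hs : ∀ n ∈ s, (N : ℤ) < |n|) : ∑ n ∈ s, ‖a n‖ ≤ S * (2 / √(N + 1)) := by
  have e : ∀ n ∈ s, ‖a n‖ = (|(n : ℝ)| ^ 1 * ‖a n‖) * |(n : ℝ)|⁻¹ := by
    intro n hn
    have h1 := hs n hn
    have h2 : 0 < |(n : ℝ)| := by
      rw [abs_pos]
      intro h0
      have : n = 0 := by exact_mod_cast h0
      subst this
      simp at h1
      omega
    field_simp
  rw [Finset.sum_congr rfl e]
  refine cs s _ _ h.1 (by positivity) (h.2 s) ?_
  refine (inv_sq_sum N s hs).trans (le_of_eq ?_)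
  rw [div_pow, Real.sq_sqrt (by positivity)]
  norm_num

theorem WS.tail2 {S : ℝ} {a : ℤ → ℂ} (h : WS 2 S a) (N : ℕ) (hN : 1 ≤ N) (s : Finset ℤ)
    (hs : ∀ n ∈ s, (N : ℤ) < |n|) : ∑ n ∈ s, ‖a n‖ ≤ S * (2 / √(N + 1)) / N := by
  have hN' : (0 : ℝ) < N := by exact_mod_cast hN
  rw [le_div_iff₀ hN', Finset.sum_mul]
  refine le_trans (Finset.sum_le_sum fun n hn => ?_) (h.D.tail N s hs)
  rw [norm_D, mul_comm]
  have h1 := (hs n hn).le
  have h2 : (N : ℝ) ≤ |(n : ℝ)| := by exact_mod_cast h1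
  gcongr

theorem WS.sum {S : ℝ} {a : ℤ → ℂ} (h : WS 1 S a) (s : Finset ℤ) :
    ∑ n ∈ s, ‖a n‖ ≤ ‖a 0‖ + 2 * S := by
  rw [← Finset.sum_filter_add_sum_filter_not s (fun n : ℤ => n = 0)]
  refine add_le_add ?_ ?_
  · calc ∑ n ∈ s.filter (fun n : ℤ => n = 0), ‖a n‖ ≤ ∑ n ∈ ({0} : Finset ℤ), ‖a n‖ := by
          refine Finset.sum_le_sum_of_subset_of_nonneg (fun n hn => ?_) fun n _ _ => norm_nonneg _
          rw [Finset.mem_singleton]
          exact (Finset.mem_filter.1 hn).2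
      _ = ‖a 0‖ := by simp
  · have := h.tail 0 (s.filter (fun n : ℤ => ¬ n = 0)) (fun n hn => by
      have := (Finset.mem_filter.1 hn).2
      simpa using this)
    refine this.trans (le_of_eq ?_)
    simp
    ring

theorem WS.summable {S : ℝ} {a : ℤ → ℂ} (h : WS 1 S a) : Summable fun n => ‖a n‖ :=
  summable_of_sum_le (fun _ => norm_nonneg _) h.sum

/-- finite sums -/
theorem WS.fin {S : ℝ} {a : ℤ → ℂ} (h : WS 0 S a) (N : ℕ) (hN : 1 ≤ N) :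
    ∑ n ∈ Finset.Icc (-(N : ℤ)) N, ‖a n‖ ≤ 2 * S * √N := by
  have h1 : ∑ n ∈ Finset.Icc (-(N : ℤ)) N, (‖a n‖ : ℝ) * 1 ≤ S * (2 * √N) := by
    refine cs _ (fun n => ‖a n‖) (fun _ => 1) h.1 (by positivity) ?_ ?_
    · have := h.2 (Finset.Icc (-(N : ℤ)) N)
      simpa using this
    · have hN' : (1 : ℝ) ≤ N := by exact_mod_cast hN
      have h3 : (0 : ℝ) ≤ N := by positivity
      rw [mul_pow, Real.sq_sqrt h3]
      simp only [one_pow, Finset.sum_const, Int.card_Icc, nsmul_eq_mul, mul_one]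
      have h2 : (((N : ℤ) + 1 - -(N : ℤ)).toNat : ℝ) = 2 * N + 1 := by
        have : ((N : ℤ) + 1 - -(N : ℤ)).toNat = 2 * N + 1 := by omega
        rw [this]
        push_cast
        ring
      rw [h2]
      linarith
  simp only [mul_one] at h1
  linarith

theorem trunc_bd (b : ℤ → ℂ) {N : ℕ} {z : ℂ} (hN : 1 ≤ N) (hz : |z.im| ≤ 1 / N) :
    ‖trunc b N z‖ ≤ 3 * ∑ n ∈ Finset.Icc (-(N : ℤ)) N, ‖b n‖ := by
  unfold trunc
  rw [Finset.mul_sum]
  refine (norm_sum_le _ _).trans (Finset.sum_le_sum fun n hn => ?_)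
  have hN' : (0 : ℝ) < N := by exact_mod_cast hN
  rw [norm_mul, mul_comm]
  gcongr
  rw [Complex.norm_exp]
  have h : ((n : ℂ) * z * Complex.I).re = -(z.im * (n : ℝ)) := by
    simp [Complex.mul_re, Complex.mul_im]
    ring
  rw [h]
  have h1 : -(z.im * (n : ℝ)) ≤ 1 := by
    have h2 : |(n : ℝ)| ≤ N := by
      rw [Finset.mem_Icc] at hn
      rw [abs_le]
      constructor
      · exact_mod_cast hn.1
      · exact_mod_cast hn.2
    calc -(z.im * (n : ℝ)) ≤ |z.im * (n : ℝ)| := neg_le_abs _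
      _ = |z.im| * |(n : ℝ)| := abs_mul _ _
      _ ≤ 1 / N * N := by gcongr
      _ = 1 := by field_simp
  calc Real.exp (-(z.im * (n : ℝ))) ≤ Real.exp 1 := Real.exp_le_exp.2 h1
    _ ≤ 3 := Real.exp_one_lt_three.le

theorem WS.bd1 {S : ℝ} {b : ℤ → ℂ} (h : WS 1 S b) {N : ℕ} {z : ℂ} (hN : 1 ≤ N)
    (hz : |z.im| ≤ 1 / N) : ‖trunc b N z‖ ≤ 3 * (‖b 0‖ + 2 * S) :=
  (trunc_bd b hN hz).trans (by gcongr; exact h.sum _)

theorem WS.bd0 {S : ℝ} {b : ℤ → ℂ} (h : WS 0 S b) {N : ℕ} {z : ℂ} (hN : 1 ≤ N)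
    (hz : |z.im| ≤ 1 / N) : ‖trunc b N z‖ ≤ 6 * S * √N :=
  (trunc_bd b hN hz).trans (by have := h.fin N hN; linarith)

theorem tail' {f : ℤ → ℂ} {F : ℂ} (hf : HasSum f F) (s : Finset ℤ) {B : ℝ}
    (hB : ∀ t : Finset ℤ, Disjoint t s → ∑ n ∈ t, ‖f n‖ ≤ B) : ‖∑ n ∈ s, f n - F‖ ≤ B := by
  have h1 : Filter.Tendsto (fun t : Finset ℤ => ‖∑ n ∈ s, f n - ∑ n ∈ t, f n‖) Filter.atTop
      (nhds ‖∑ n ∈ s, f n - F‖) := (tendsto_const_nhds.sub hf).norm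
  refine le_of_tendsto h1 ?_
  filter_upwards [Filter.eventually_ge_atTop s] with t ht
  rw [norm_sub_rev, ← Finset.sum_sdiff ht, add_sub_cancel_right]
  exact (norm_sum_le _ _).trans (hB _ Finset.sdiff_disjoint)

theorem tail_mem {N : ℕ} {t : Finset ℤ} (h : Disjoint t (Finset.Icc (-(N : ℤ)) N)) :
    ∀ n ∈ t, (N : ℤ) < |n| := by
  intro n hn
  have h1 := Finset.disjoint_left.1 h hn
  rw [Finset.mem_Icc] at h1
  by_contra h2
  push Not at h2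
  exact h1 (abs_le.1 h2)

theorem sqrt_le (N : ℕ) (hN : 1 ≤ N) : 2 / √((N : ℝ) + 1) ≤ 2 / √N := by
  have hN' : (0 : ℝ) < N := by exact_mod_cast hN
  gcongr
  linarith

/-- convergence on the real line -/
theorem WS.conv1 {S : ℝ} {b : ℤ → ℂ} (h : WS 1 S b) {N : ℕ} (hN : 1 ≤ N) {x : ℝ} {F : ℂ}
    (hF : HasSum (fun n : ℤ => b n * Complex.exp (n * x * Complex.I)) F) :
    ‖trunc b N x - F‖ ≤ 2 * S / √N := by
  refine (tail' hF _ fun t ht => ?_).trans (le_of_eq rfl)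
  calc ∑ n ∈ t, ‖b n * Complex.exp (n * x * Complex.I)‖ = ∑ n ∈ t, ‖b n‖ := by
        refine Finset.sum_congr rfl fun n _ => ?_
        rw [norm_mul, KG0.norm_exp_int, mul_one]
    _ ≤ S * (2 / √(N + 1)) := h.tail N t (tail_mem ht)
    _ ≤ S * (2 / √N) := by
        have := sqrt_le N hN
        have := h.1
        gcongr
    _ = 2 * S / √N := by ring

theorem WS.conv2 {S : ℝ} {b : ℤ → ℂ} (h : WS 2 S b) {N : ℕ} (hN : 1 ≤ N) {x : ℝ} {F : ℂ}
    (hF : HasSum (fun n : ℤ => b n * Complex.exp (n * x * Complex.I)) F) :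
    ‖trunc b N x - F‖ ≤ 2 * S / (N * √N) := by
  have hN' : (0 : ℝ) < N := by exact_mod_cast hN
  refine (tail' hF _ fun t ht => ?_).trans (le_of_eq rfl)
  calc ∑ n ∈ t, ‖b n * Complex.exp (n * x * Complex.I)‖ = ∑ n ∈ t, ‖b n‖ := by
        refine Finset.sum_congr rfl fun n _ => ?_
        rw [norm_mul, KG0.norm_exp_int, mul_one]
    _ ≤ S * (2 / √(N + 1)) / N := h.tail2 N hN t (tail_mem ht)
    _ ≤ S * (2 / √N) / N := by
        have := sqrt_le N hN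
        have := h.1
        gcongr
    _ = 2 * S / (N * √N) := by
        have : 0 < √(N : ℝ) := Real.sqrt_pos.2 hN'
        field_simp

theorem hasDerivAt_trunc (b : ℤ → ℂ) (N : ℕ) (z : ℂ) :
    HasDerivAt (trunc b N) (trunc (D b) N z) z := by
  unfold trunc
  exact HasDerivAt.fun_sum fun n _ => KG0.hasDerivAt_term n (b n) z

theorem deriv_trunc' (b : ℤ → ℂ) (N : ℕ) : deriv (trunc b N) = trunc (D b) N :=
  funext fun z => (hasDerivAt_trunc b N z).deriv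

theorem trunc_per (b : ℤ → ℂ) (N : ℕ) (z : ℂ) : trunc b N (z + 2 * π) = trunc b N z := by
  unfold trunc
  refine Finset.sum_congr rfl fun n _ => ?_
  congr 1
  rw [Complex.exp_eq_exp_iff_exists_int]
  exact ⟨n, by ring⟩

theorem trunc_rs (b : ℤ → ℂ) (hb : ∀ n, b (-n) = starRingEnd ℂ (b n)) (N : ℕ) (z : ℂ) :
    trunc b N (starRingEnd ℂ z) = starRingEnd ℂ (trunc b N z) := by
  unfold trunc
  rw [map_sum]
  refine Finset.sum_nbij' (fun n => -n) (fun n => -n) ?_ ?_ ?_ ?_ ?_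
  · intro n hn
    rw [Finset.mem_Icc] at hn ⊢
    omega
  · intro n hn
    rw [Finset.mem_Icc] at hn ⊢
    omega
  · intro n _
    simp
  · intro n _
    simp
  · intro n _
    rw [map_mul, hb n, ← Complex.exp_conj, Complex.conj_conj]
    congr 2
    simp

theorem trunc_hp (b : ℤ → ℂ) (hb : ∀ n, b (-n) = starRingEnd ℂ (b n)) (N : ℕ) (R : ℝ) :
    HP R (trunc b N) where
  hol := fun z _ => (hasDerivAt_trunc b N z).differentiableAt.differentiableWithinAt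
  per := trunc_per b N
  rs := trunc_rs b hb N

theorem D_rs (b : ℤ → ℂ) (hb : ∀ n, b (-n) = starRingEnd ℂ (b n)) (n : ℤ) :
    D b (-n) = starRingEnd ℂ (D b n) := by
  unfold D
  rw [hb n, map_mul, map_mul, Complex.conj_I]
  simp

theorem trunc_add (b b' : ℤ → ℂ) (N : ℕ) (z : ℂ) :
    trunc b N z + trunc b' N z = trunc (fun n => b n + b' n) N z := by
  unfold trunc
  rw [← Finset.sum_add_distrib]
  refine Finset.sum_congr rfl fun n _ => ?_
  ring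

end KF2

end Pool.Agent.MP_b87ea9_an.Kam
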