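import Mathlib
import Pool.Agent.Lib.MP_b87ea9_an.KDefs
import Pool.Agent.Lib.MP_b87ea9_an.KDefs2
import Pool.Agent.Lib.MP_b87ea9_an.KA1
import Pool.Agent.Lib.MP_b87ea9_an.KF2a

set_option autoImplicit false

/-! The estimate of `ρ(g) g'^3 - κ` on the strip -/

namespace Pool.Agent.MP_b87ea9_an.Kam

open Real MeasureTheory

namespace KF2

theorem mul_close {x x0 y y0 : ℂ} {a b X Y e : ℝ} (hx : ‖x - x0‖ ≤ a * e) (hy : ‖y - y0‖ ≤ b * e)
    (hX : ‖x‖ ≤ X) (hY : ‖y0‖ ≤ Y) : ‖x * y - x0 * y0‖ ≤ (X * b + a * Y) * e := by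
  have h0 : 0 ≤ X := (norm_nonneg _).trans hX
  have h1 : 0 ≤ Y := (norm_nonneg _).trans hY
  have h2 : 0 ≤ a * e := (norm_nonneg _).trans hx
  have e1 : x * y - x0 * y0 = x * (y - y0) + (x - x0) * y0 := by ring
  rw [e1]
  calc ‖x * (y - y0) + (x - x0) * y0‖ ≤ ‖x * (y - y0)‖ + ‖(x - x0) * y0‖ := norm_add_le _ _
    _ = ‖x‖ * ‖y - y0‖ + ‖x - x0‖ * ‖y0‖ := by rw [norm_mul, norm_mul]
    _ ≤ X * (b * e) + (a * e) * Y := by gcongr
    _ = _ := by ring

theorem core {A B η κ : ℝ} {N : ℕ} (hN : 1 ≤ N) (hA : 1 ≤ A) (hB : 1 ≤ B) (hη : 0 < η)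
    (hηB : B * η ≤ 1) {a d : ℤ → ℂ} (hrs : ∀ n, a (-n) = starRingEnd ℂ (a n))
    (g1 : ∀ z : ℂ, |z.im| ≤ 1 / N → ‖1 + trunc (D a) N z‖ ≤ B)
    (g2 : ∀ z : ℂ, |z.im| ≤ 1 / N → ‖trunc (D (D a)) N z‖ ≤ B)
    (g3 : ∀ z : ℂ, |z.im| ≤ 1 / N → ‖trunc (D (D (D a))) N z‖ ≤ A * √N)
    (r0 : ∀ z : ℂ, |z.im| ≤ 1 / N → ‖trunc d N z‖ ≤ B)
    (r1 : ∀ z : ℂ, |z.im| ≤ 1 / N → ‖trunc (D d) N z‖ ≤ B)
    (r2 : ∀ z : ℂ, |z.im| ≤ 1 / N → ‖trunc (D (D d)) N z‖ ≤ A * √N)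
    {X0 Y0 W0 Z0 : ℝ → ℂ} (e1 : ∀ t, X0 t * (Y0 t * Y0 t) + 3 * (W0 t * Z0 t) = 0)
    (e2 : ∀ t, W0 t * (Y0 t * (Y0 t * Y0 t)) = κ)
    (bY : ∀ t, ‖Y0 t‖ ≤ B) (bZ : ∀ t, ‖Z0 t‖ ≤ B)
    (cX : ∀ t : ℝ, ‖trunc (D d) N (t + trunc a N t) - X0 t‖ ≤ A * (1 / √N))
    (cY : ∀ t : ℝ, ‖1 + trunc (D a) N t - Y0 t‖ ≤ A * (1 / (N * √N)))
    (cW : ∀ t : ℝ, ‖trunc d N (t + trunc a N t) - W0 t‖ ≤ A * (1 / (N * √N)))
    (cZ : ∀ t : ℝ, ‖trunc (D (D a)) N t - Z0 t‖ ≤ A * (1 / √N)) :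
    ∀ z ∈ Strip (η / N), ‖trunc d N (z + trunc a N z) * (1 + trunc (D a) N z) ^ 3 - κ‖ ≤
      (4 * A * B ^ 3 + 18 * A * B ^ 5) * (1 / (N * √N)) := by
  have hN' : (1 : ℝ) ≤ N := by exact_mod_cast hN
  have hN0 : (0 : ℝ) < N := by linarith
  have hs1 : 1 ≤ √(N : ℝ) := by
    rw [← Real.sqrt_one]
    exact Real.sqrt_le_sqrt hN'
  have hs0 : 0 < √(N : ℝ) := by linarith
  have hss : √(N : ℝ) * √(N : ℝ) = N := Real.mul_self_sqrt hN0.le
  have hA0 : 0 < A := by linarith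
  have hB0 : 0 < B := by linarith
  have hη1 : η ≤ 1 := by nlinarith
  have he : 1 / (N * √(N : ℝ)) ≤ 1 / √(N : ℝ) := by
    gcongr
    nlinarith
  set g : ℂ → ℂ := fun z => z + trunc a N z with hg
  have dg : ∀ z, HasDerivAt g (1 + trunc (D a) N z) z := fun z =>
    (hasDerivAt_id z).add (hasDerivAt_trunc a N z)
  have dg1 : ∀ z, HasDerivAt (fun z => 1 + trunc (D a) N z) (trunc (D (D a)) N z) z := fun z =>
    (hasDerivAt_trunc (D a) N z).const_add 1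
  -- real points
  have hgreal : ∀ t : ℝ, (g t).im = 0 := by
    intro t
    have h1 := hp_real (trunc_hp a hrs N 1) t
    simp [hg, h1]
  have hstrip : ∀ z ∈ Strip (η / N), |z.im| ≤ 1 / N := by
    intro z hz
    have hz' : |z.im| < η / N := hz
    refine hz'.le.trans ?_
    gcongr
  have hre : ∀ z : ℂ, (((z.re : ℝ) : ℂ)) ∈ Strip (η / N) := by
    intro z
    show |(((z.re : ℝ) : ℂ)).im| < η / N
    rw [Complex.ofReal_im, abs_zero]
    positivity
  have hzre : ∀ z ∈ Strip (η / N), ‖z - ((z.re : ℝ) : ℂ)‖ ≤ η / N := by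
    intro z hz
    have hz' : |z.im| < η / N := hz
    have : z - ((z.re : ℝ) : ℂ) = ((z.im : ℝ) : ℂ) * Complex.I := by
      apply Complex.ext <;> simp
    rw [this, norm_mul, Complex.norm_I, mul_one, Complex.norm_real, Real.norm_eq_abs]
    exact hz'.le
  have lip : ∀ (F F' : ℂ → ℂ) (M : ℝ), (∀ z, HasDerivAt F (F' z) z) →
      (∀ z ∈ Strip (η / N), ‖F' z‖ ≤ M) → 0 ≤ M → ∀ z ∈ Strip (η / N),
      ‖F z - F ((z.re : ℝ) : ℂ)‖ ≤ M * (η / N) := by
    intro F F' M hF hM hM0 z hz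
    have h1 := bd_lip (r := η / N) (f := F) (M := M)
      (fun z _ => (hF z).differentiableAt.differentiableWithinAt)
      (fun z hz => by rw [(hF z).deriv]; exact hM z hz) hz (hre z)
    refine h1.trans ?_
    gcongr
    exact hzre z hz
  have hgstrip : ∀ z ∈ Strip (η / N), |(g z).im| ≤ 1 / N := by
    intro z hz
    have h1 := lip g _ B dg (fun z hz => g1 z (hstrip z hz)) hB0.le z hz
    have h2 : (g z).im = (g z - g ((z.re : ℝ) : ℂ)).im := by
      rw [Complex.sub_im, hgreal, sub_zero]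
    rw [h2]
    calc |(g z - g ((z.re : ℝ) : ℂ)).im| ≤ ‖g z - g ((z.re : ℝ) : ℂ)‖ := Complex.abs_im_le_norm _
      _ ≤ B * (η / N) := h1
      _ = (B * η) / N := by ring
      _ ≤ 1 / N := by gcongr
  have hreal : ∀ t : ℝ, |((t : ℂ)).im| ≤ 1 / N := by
    intro t
    rw [Complex.ofReal_im, abs_zero]
    positivity
  have hgr : ∀ t : ℝ, |(g t).im| ≤ 1 / N := by
    intro t
    rw [hgreal, abs_zero]
    positivity
  -- `Φ`
  set Φ : ℂ → ℂ := fun z => trunc (D d) N (g z) * ((1 + trunc (D a) N z) * (1 + trunc (D a) N z)) +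
    3 * (trunc d N (g z) * trunc (D (D a)) N z) with hΦ
  set Φ' : ℂ → ℂ := fun z => (trunc (D (D d)) N (g z) * (1 + trunc (D a) N z)) *
      ((1 + trunc (D a) N z) * (1 + trunc (D a) N z)) +
    trunc (D d) N (g z) * (trunc (D (D a)) N z * (1 + trunc (D a) N z) +
      (1 + trunc (D a) N z) * trunc (D (D a)) N z) +
    3 * ((trunc (D d) N (g z) * (1 + trunc (D a) N z)) * trunc (D (D a)) N z +
      trunc d N (g z) * trunc (D (D (D a))) N z) with hΦ'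
  have dR : ∀ z, HasDerivAt (fun z => trunc d N (g z))
      (trunc (D d) N (g z) * (1 + trunc (D a) N z)) z := fun z =>
    (hasDerivAt_trunc d N (g z)).comp z (dg z)
  have dR1 : ∀ z, HasDerivAt (fun z => trunc (D d) N (g z))
      (trunc (D (D d)) N (g z) * (1 + trunc (D a) N z)) z := fun z =>
    (hasDerivAt_trunc (D d) N (g z)).comp z (dg z)
  have dΦ : ∀ z, HasDerivAt Φ (Φ' z) z := fun z =>
    ((dR1 z).mul ((dg1 z).mul (dg1 z))).add
      (((dR z).mul (hasDerivAt_trunc (D (D a)) N z)).const_mul 3)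
  have bΦ' : ∀ z ∈ Strip (η / N), ‖Φ' z‖ ≤ 9 * A * B ^ 3 * √N := by
    intro z hz
    have h1 := g1 z (hstrip z hz)
    have h2 := g2 z (hstrip z hz)
    have h3 := g3 z (hstrip z hz)
    have h4 := r0 _ (hgstrip z hz)
    have h5 := r1 _ (hgstrip z hz)
    have h6 := r2 _ (hgstrip z hz)
    have t1 : ‖(trunc (D (D d)) N (g z) * (1 + trunc (D a) N z)) *
      ((1 + trunc (D a) N z) * (1 + trunc (D a) N z))‖ ≤ (A * √N * B) * (B * B) := by
      rw [norm_mul, norm_mul, norm_mul]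
      gcongr
    have t2 : ‖trunc (D d) N (g z) * (trunc (D (D a)) N z * (1 + trunc (D a) N z) +
      (1 + trunc (D a) N z) * trunc (D (D a)) N z)‖ ≤ B * (B * B + B * B) := by
      rw [norm_mul]
      refine mul_le_mul h5 ((norm_add_le _ _).trans ?_) (norm_nonneg _) hB0.le
      rw [norm_mul, norm_mul]
      gcongr
    have t3 : ‖(3 : ℂ) * ((trunc (D d) N (g z) * (1 + trunc (D a) N z)) * trunc (D (D a)) N z +
      trunc d N (g z) * trunc (D (D (D a))) N z)‖ ≤ 3 * ((B * B) * B + B * (A * √N)) := by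
      rw [norm_mul]
      refine mul_le_mul (by norm_num) ((norm_add_le _ _).trans ?_) (norm_nonneg _) (by norm_num)
      rw [norm_mul, norm_mul, norm_mul]
      gcongr
    calc ‖Φ' z‖ ≤ (A * √N * B) * (B * B) + B * (B * B + B * B) +
          3 * ((B * B) * B + B * (A * √N)) := by
          refine (norm_add_le _ _).trans (add_le_add ((norm_add_le _ _).trans (add_le_add t1 t2)) t3)
      _ ≤ 9 * A * B ^ 3 * √N := by
          have u1 : B ^ 3 ≤ A * B ^ 3 * √N := by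
            have : 1 ≤ A * √(N : ℝ) := by nlinarith
            calc B ^ 3 = B ^ 3 * 1 := by ring
              _ ≤ B ^ 3 * (A * √(N : ℝ)) := by gcongr
              _ = _ := by ring
          have u2 : B * (A * √N) ≤ A * B ^ 3 * √N := by
            have : B ≤ B ^ 3 := by
              calc B = B * 1 := by ring
                _ ≤ B * B ^ 2 := by gcongr; exact one_le_pow₀ hB
                _ = B ^ 3 := by ring
            calc B * (A * √N) ≤ B ^ 3 * (A * √N) := by gcongr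
              _ = _ := by ring
          nlinarith
  have bΦr : ∀ t : ℝ, ‖Φ t‖ ≤ 9 * A * B ^ 2 * (1 / √N) := by
    intro t
    have cY' : ‖1 + trunc (D a) N t - Y0 t‖ ≤ A * (1 / √N) :=
      (cY t).trans (by gcongr)
    have cW' : ‖trunc d N (g t) - W0 t‖ ≤ A * (1 / √N) :=
      (cW t).trans (by gcongr)
    have h1 := mul_close cY' cY' (g1 t (hreal t)) (bY t)
    have hYY : ‖Y0 t * Y0 t‖ ≤ B * B := by
      rw [norm_mul]
      have := bY t
      gcongr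
    have h2 := mul_close (cX t) h1 (r1 _ (hgr t)) hYY
    have h3 := mul_close cW' (cZ t) (r0 _ (hgr t)) (bZ t)
    have h4 : Φ t = (trunc (D d) N (g t) * ((1 + trunc (D a) N t) * (1 + trunc (D a) N t)) -
        X0 t * (Y0 t * Y0 t)) + 3 * (trunc d N (g t) * trunc (D (D a)) N t - W0 t * Z0 t) := by
      have := e1 t
      simp only [hΦ]
      linear_combination this
    rw [h4]
    refine (norm_add_le _ _).trans ?_
    rw [norm_mul]
    have h5 : ‖(3 : ℂ)‖ = 3 := by norm_num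
    rw [h5]
    calc _ ≤ (B * (B * A + A * B) + A * (B * B)) * (1 / √N) + 3 * ((B * A + A * B) * (1 / √N)) := by
          gcongr
      _ = (3 * A * B ^ 2 + 6 * (A * B)) * (1 / √N) := by ring
      _ ≤ 9 * A * B ^ 2 * (1 / √N) := by
          gcongr
          have : A * B ≤ A * B ^ 2 := by
            gcongr
            nlinarith
          linarith
  have bΦ : ∀ z ∈ Strip (η / N), ‖Φ z‖ ≤ 18 * A * B ^ 3 * (1 / √N) := by
    intro z hz
    have h1 := lip Φ Φ' _ dΦ bΦ' (by positivity) z hz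
    have h2 := bΦr z.re
    have h3 : ‖Φ z‖ ≤ ‖Φ z - Φ ((z.re : ℝ) : ℂ)‖ + ‖Φ ((z.re : ℝ) : ℂ)‖ := by
      have := norm_add_le (Φ z - Φ ((z.re : ℝ) : ℂ)) (Φ ((z.re : ℝ) : ℂ))
      rwa [sub_add_cancel] at this
    refine h3.trans ((add_le_add h1 h2).trans ?_)
    have h4 : 9 * A * B ^ 3 * √N * (η / N) ≤ 9 * A * B ^ 3 * (1 / √N) := by
      have : √(N : ℝ) * (η / N) ≤ 1 / √N := by
        rw [le_div_iff₀ hs0]
        calc √(N : ℝ) * (η / N) * √N = (√(N : ℝ) * √N) * (η / N) := by ring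
          _ = η := by rw [hss]; field_simp
          _ ≤ 1 := hη1
      calc 9 * A * B ^ 3 * √N * (η / N) = 9 * A * B ^ 3 * (√N * (η / N)) := by ring
        _ ≤ _ := by gcongr
    have h5 : 9 * A * B ^ 2 * (1 / √N) ≤ 9 * A * B ^ 3 * (1 / √N) := by
      gcongr
      norm_num
    calc _ ≤ 9 * A * B ^ 3 * (1 / √N) + 9 * A * B ^ 3 * (1 / √N) := add_le_add h4 h5
      _ = _ := by ring
  -- `Θ`
  set Θ : ℂ → ℂ := fun z => trunc d N (g z) * (1 + trunc (D a) N z) ^ 3 with hΘ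
  have dΘ : ∀ z, HasDerivAt Θ ((1 + trunc (D a) N z) ^ 2 * Φ z) z := by
    intro z
    have h1 := (dR z).mul ((dg1 z).pow 3)
    have h2 : (1 + trunc (D a) N z) ^ 2 * Φ z = trunc (D d) N (g z) * (1 + trunc (D a) N z) *
        (1 + trunc (D a) N z) ^ 3 + trunc d N (g z) *
        (((3 : ℕ) : ℂ) * (1 + trunc (D a) N z) ^ (3 - 1) * trunc (D (D a)) N z) := by
      simp only [hΦ]
      push_cast
      ring
    rw [h2]
    exact h1
  have bΘ' : ∀ z ∈ Strip (η / N), ‖(1 + trunc (D a) N z) ^ 2 * Φ z‖ ≤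
      18 * A * B ^ 5 * (1 / √N) := by
    intro z hz
    rw [norm_mul, norm_pow]
    calc ‖1 + trunc (D a) N z‖ ^ 2 * ‖Φ z‖ ≤ B ^ 2 * (18 * A * B ^ 3 * (1 / √N)) := by
          have := g1 z (hstrip z hz)
          have := bΦ z hz
          gcongr
      _ = _ := by ring
  intro z hz
  have h1 := lip Θ _ _ dΘ bΘ' (by positivity) z hz
  have h2 : ‖Θ ((z.re : ℝ) : ℂ) - κ‖ ≤ 4 * A * B ^ 3 * (1 / (N * √N)) := by
    set t := z.re
    have a1 := mul_close (cY t) (cY t) (g1 t (hreal t)) (bY t)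
    have hYY : ‖Y0 t * Y0 t‖ ≤ B * B := by
      rw [norm_mul]
      have := bY t
      gcongr
    have a2 := mul_close (cY t) a1 (g1 t (hreal t)) hYY
    have hYYY : ‖Y0 t * (Y0 t * Y0 t)‖ ≤ B * (B * B) := by
      rw [norm_mul]
      have := bY t
      gcongr
    have a3 := mul_close (cW t) a2 (r0 _ (hgr t)) hYYY
    have a4 : Θ t - κ = trunc d N (g t) * ((1 + trunc (D a) N t) *
        ((1 + trunc (D a) N t) * (1 + trunc (D a) N t))) - W0 t * (Y0 t * (Y0 t * Y0 t)) := by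
      rw [e2 t]
      simp only [hΘ]
      ring
    rw [a4]
    refine a3.trans (le_of_eq ?_)
    ring
  have h3 : ‖Θ z - κ‖ ≤ ‖Θ z - Θ ((z.re : ℝ) : ℂ)‖ + ‖Θ ((z.re : ℝ) : ℂ) - κ‖ := by
    have := norm_add_le (Θ z - Θ ((z.re : ℝ) : ℂ)) (Θ ((z.re : ℝ) : ℂ) - κ)
    rwa [sub_add_sub_cancel] at this
  show ‖Θ z - κ‖ ≤ _
  refine h3.trans ((add_le_add h1 h2).trans ?_)
  have h4 : 18 * A * B ^ 5 * (1 / √N) * (η / N) ≤ 18 * A * B ^ 5 * (1 / (N * √N)) := by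
    calc 18 * A * B ^ 5 * (1 / √N) * (η / N) = 18 * A * B ^ 5 * (1 / (N * √N)) * η := by
          field_simp
      _ ≤ 18 * A * B ^ 5 * (1 / (N * √N)) * 1 := by gcongr
      _ = _ := by ring
  linarith

end KF2

end Pool.Agent.MP_b87ea9_an.Kam
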