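import Mathlib
import Pool.Agent.Lib.MP_b87ea9_an.KDefs
import Pool.Agent.Lib.MP_b87ea9_an.KDefs2
import Pool.Agent.Lib.MP_b87ea9_an.KDefs3
import Pool.Agent.Lib.MP_b87ea9_an.KA1
import Pool.Agent.Lib.MP_b87ea9_an.KD0
import Pool.Agent.Lib.MP_b87ea9_an.KF1
import Pool.Agent.Lib.MP_b87ea9_an.KG0
import Pool.Agent.Lib.MP_b87ea9_an.KF2a
import Pool.Agent.Lib.MP_b87ea9_an.KF2b

set_option autoImplicit false

/-! The initial family of lines: truncated Lazutkin parametrisation -/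

namespace Pool.Agent.MP_b87ea9_an.Kam

open Real MeasureTheory

namespace KF2

theorem norm_d_le (c : ℤ → ℂ) (n : ℤ) :
    |(n : ℝ)| ^ 2 * ‖c n + D (D c) n‖ ≤ |(n : ℝ)| ^ 4 * ‖c n‖ := by
  by_cases hn : n = 0
  · subst hn
    simp
  · have h1 : 1 ≤ |(n : ℝ)| := by exact_mod_cast Int.one_le_abs hn
    have h2 : c n + D (D c) n = c n * ((1 - (n : ℝ) ^ 2 : ℝ) : ℂ) := by
      unfold D
      push_cast
      have := Complex.I_sq
      linear_combination (n : ℂ) ^ 2 * c n * this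
    have h3 : |1 - (n : ℝ) ^ 2| ≤ |(n : ℝ)| ^ 2 := by
      rw [← sq_abs (n : ℝ), abs_le]
      constructor
      · nlinarith
      · nlinarith
    rw [h2, norm_mul, Complex.norm_real, Real.norm_eq_abs]
    calc |(n : ℝ)| ^ 2 * (‖c n‖ * |1 - (n : ℝ) ^ 2|)
        ≤ |(n : ℝ)| ^ 2 * (‖c n‖ * |(n : ℝ)| ^ 2) := by gcongr
      _ = _ := by ring

theorem ws_of_summable {k : ℕ} {a : ℤ → ℂ}
    (h : Summable fun n : ℤ => (|(n : ℝ)| ^ k * ‖a n‖) ^ 2) : ∃ S : ℝ, WS k S a := by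
  refine ⟨√(∑' n : ℤ, (|(n : ℝ)| ^ k * ‖a n‖) ^ 2), Real.sqrt_nonneg _, fun s => ?_⟩
  rw [Real.sq_sqrt (tsum_nonneg fun n => sq_nonneg _)]
  exact h.sum_le_tsum s fun n _ => sq_nonneg _

theorem table_part {K₀ : ℝ} {c : ℤ → ℂ} {h : ℝ → ℝ} (hc : Table K₀ c) (hs : ContDiff ℝ 4 h)
    (hh : ∀ x : ℝ, HasSum (fun n : ℤ => c n * Complex.exp (n * x * Complex.I)) (h x : ℂ)) :
    ∃ (S : ℝ) (d : ℤ → ℂ) (ρ : ℝ → ℝ), ContDiff ℝ 2 ρ ∧ (∀ x, ρ (x + 2 * π) = ρ x) ∧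
      (∀ x, 0 < ρ x) ∧ WS 2 S d ∧
      (∀ x : ℝ, HasSum (fun n : ℤ => d n * Complex.exp (n * x * Complex.I)) (ρ x : ℂ)) ∧
      (∀ x : ℝ, HasSum (fun n : ℤ => D d n * Complex.exp (n * x * Complex.I))
        ((deriv ρ x : ℝ) : ℂ)) ∧
      ∀ (N : ℕ) (z : ℂ), trunc c N z + deriv (deriv (trunc c N)) z = trunc d N z := by
  have s0 : ContDiff ℝ ((3 : ℕ) + 1) h := by exact_mod_cast hs
  have s1 : ContDiff ℝ ((2 : ℕ) + 1) (deriv h) := by exact_mod_cast KG0.cont_deriv s0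
  have s2 : ContDiff ℝ ((1 : ℕ) + 1) (deriv (deriv h)) := by exact_mod_cast KG0.cont_deriv s1
  have d0 : Differentiable ℝ h := (contDiff_succ_iff_deriv.mp s0).1
  have d1 : Differentiable ℝ (deriv h) := (contDiff_succ_iff_deriv.mp s1).1
  have hsq : Summable fun n : ℤ => (|(n : ℝ)| ^ 4 * ‖c n‖) ^ 2 := by
    refine hc.h4.congr fun n => ?_
    rw [mul_pow, ← pow_mul]
    congr 1
    rw [show (n : ℝ) ^ 8 = ((n : ℝ) ^ 2) ^ 4 by ring, ← sq_abs]
    ring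
  obtain ⟨S, hS⟩ := ws_of_summable hsq
  have hS3 : WS 3 S (D c) := hS.D
  have hS1 : WS 1 S (D c) := (hS3.mono (by norm_num)).mono (by norm_num)
  have hS1' : WS 1 S (D (D c)) := hS3.D.mono (by norm_num)
  have hh1 : ∀ x : ℝ, HasSum (fun n : ℤ => D c n * Complex.exp (n * x * Complex.I))
      ((deriv h x : ℝ) : ℂ) := KG0.series_deriv d0 hh hS1.summable
  have hh2 : ∀ x : ℝ, HasSum (fun n : ℤ => D (D c) n * Complex.exp (n * x * Complex.I))
      ((deriv (deriv h) x : ℝ) : ℂ) := KG0.series_deriv d1 hh1 hS1'.summable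
  set d : ℤ → ℂ := fun n => c n + D (D c) n with hd
  set ρ : ℝ → ℝ := fun x => h x + deriv (deriv h) x with hρ
  have hρs : ContDiff ℝ 2 ρ := by
    have a1 : ContDiff ℝ 2 h := hs.of_le (by norm_num)
    have a2 : ContDiff ℝ 2 (deriv (deriv h)) := by
      have : ((1 : ℕ) : WithTop ℕ∞) + 1 = 2 := by norm_num
      rw [← this]
      exact s2
    exact a1.add a2
  have hρd : Differentiable ℝ ρ := hρs.differentiable (by norm_num)
  have hsum : ∀ x : ℝ, HasSum (fun n : ℤ => d n * Complex.exp (n * x * Complex.I)) (ρ x : ℂ) := by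
    intro x
    have := (hh x).add (hh2 x)
    rw [← Complex.ofReal_add] at this
    refine this.congr_fun ?_
    intro n
    simp only [hd]
    ring
  have hWd : WS 2 S d := by
    refine ⟨hS.1, fun s => ?_⟩
    refine (Finset.sum_le_sum fun n _ => ?_).trans (hS.2 s)
    have := norm_d_le c n
    gcongr
  refine ⟨S, d, ρ, hρs, ?_, ?_, hWd, hsum, ?_, ?_⟩
  · intro x
    have h1 := hsum (x + 2 * π)
    have h2 := hsum x
    have h3 : (fun n : ℤ => d n * Complex.exp (n * ((x + 2 * π : ℝ) : ℂ) * Complex.I))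
        = fun n : ℤ => d n * Complex.exp (n * x * Complex.I) := by
      funext n
      congr 1
      rw [Complex.exp_eq_exp_iff_exists_int]
      exact ⟨n, by push_cast; ring⟩
    rw [h3] at h1
    exact_mod_cast h1.unique h2
  · intro x
    have h1 := hc.pos x
    have h2 : ∑' n : ℤ, c n * (1 - (n : ℂ) ^ 2) * Complex.exp (n * x * Complex.I) = (ρ x : ℂ) := by
      rw [← (hsum x).tsum_eq]
      refine tsum_congr fun n => ?_
      simp only [hd]
      unfold D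
      have := Complex.I_sq
      linear_combination -(n : ℂ) ^ 2 * c n * Complex.exp (n * x * Complex.I) * this
    rw [h2, Complex.ofReal_re] at h1
    have : 0 < 2 / K₀ := div_pos (by norm_num) (lt_of_lt_of_le one_pos hc.K1)
    linarith
  · exact KG0.series_deriv hρd hsum hWd.D.summable
  · intro N z
    rw [deriv_trunc', deriv_trunc', trunc_add]

theorem lines_part {G : ℝ → ℝ} (hG : ContDiff ℝ 3 G) (hper : ∀ t, G (t + 2 * π) = G t + 2 * π) :
    ∃ (S : ℝ) (a : ℤ → ℂ), WS 3 S a ∧ (∀ n, a (-n) = starRingEnd ℂ (a n)) ∧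
      (∀ x : ℝ, HasSum (fun n : ℤ => a n * Complex.exp (n * x * Complex.I)) ((G x - x : ℝ) : ℂ)) ∧
      (∀ x : ℝ, HasSum (fun n : ℤ => D a n * Complex.exp (n * x * Complex.I))
        ((deriv G x - 1 : ℝ) : ℂ)) ∧
      (∀ x : ℝ, HasSum (fun n : ℤ => D (D a) n * Complex.exp (n * x * Complex.I))
        ((deriv (deriv G) x : ℝ) : ℂ)) := by
  set u : ℝ → ℝ := fun t => G t - t with hu
  have su : ContDiff ℝ 3 u := hG.sub contDiff_id
  have s0 : ContDiff ℝ ((2 : ℕ) + 1) u := by exact_mod_cast su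
  have s1 : ContDiff ℝ ((1 : ℕ) + 1) (deriv u) := by exact_mod_cast KG0.cont_deriv s0
  have s2 : ContDiff ℝ ((0 : ℕ) + 1) (deriv (deriv u)) := by exact_mod_cast KG0.cont_deriv s1
  have s3 : ContDiff ℝ (0 : ℕ) (deriv (deriv (deriv u))) := KG0.cont_deriv s2
  have p0 : ∀ x, u (x + 2 * π) = u x := by
    intro x
    simp only [hu]
    rw [hper]
    ring
  have p1 := KG0.deriv_per p0
  have p2 := KG0.deriv_per p1
  have p3 := KG0.deriv_per p2
  have d0 : Differentiable ℝ u := (contDiff_succ_iff_deriv.mp s0).1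
  have d1 : Differentiable ℝ (deriv u) := (contDiff_succ_iff_deriv.mp s1).1
  set a : ℤ → ℂ := KG0.cf (fun x => (u x : ℂ)) with ha
  have c3 : ∀ n, KG0.cf (fun x => ((deriv (deriv (deriv u)) x : ℝ) : ℂ)) n
      = n * Complex.I * (n * Complex.I * (n * Complex.I * a n)) := by
    intro n
    rw [KG0.cf_step s2 p2, KG0.cf_step s1 p1, KG0.cf_step s0 p0]
  have hsq : Summable fun n : ℤ => (|(n : ℝ)| ^ 3 * ‖a n‖) ^ 2 := by
    refine (KG0.summable_sq (KG0.cont_ofReal s3) (KG0.per_ofReal p3)).congr fun n => ?_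
    rw [c3]
    simp only [norm_mul, Complex.norm_I, Complex.norm_intCast, mul_one]
    ring
  obtain ⟨S, hS⟩ := ws_of_summable hsq
  have hS1 : WS 1 S a := (hS.mono (by norm_num)).mono (by norm_num)
  have hS2 : WS 1 S (D a) := hS.D.mono (by norm_num)
  have hS3 : WS 1 S (D (D a)) := hS.D.D
  have hh : ∀ x : ℝ, HasSum (fun n : ℤ => a n * Complex.exp (n * x * Complex.I)) (u x : ℂ) :=
    KG0.hasSum_of_summable (KG0.cont_ofReal s0) (KG0.per_ofReal p0) hS1.summable.of_norm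
  have hh1 := KG0.series_deriv d0 hh hS2.summable
  have hh2 := KG0.series_deriv d1 hh1 hS3.summable
  have dG : Differentiable ℝ G := hG.differentiable (by norm_num)
  have e1 : deriv u = fun x => deriv G x - 1 := by
    funext x
    have := ((dG x).hasDerivAt.sub (hasDerivAt_id x)).deriv
    exact this
  have e2 : deriv (deriv u) = deriv (deriv G) := by
    rw [e1]
    funext x
    rw [deriv_sub_const]
  refine ⟨S, a, hS, KG0.cf_neg u, hh, ?_, ?_⟩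
  · intro x
    have := hh1 x
    rw [e1] at this
    exact this
  · intro x
    have := hh2 x
    rw [e2] at this
    exact this

theorem per_bdd {f : ℝ → ℝ} (hf : Continuous f) (hp : ∀ x, f (x + 2 * π) = f x) :
    ∃ M : ℝ, 0 ≤ M ∧ ∀ x, |f x| ≤ M := by
  obtain ⟨C, hC⟩ := (isCompact_Icc (a := (0 : ℝ)) (b := 2 * π)).exists_bound_of_continuousOn
    hf.continuousOn
  refine ⟨max C 0, le_max_right _ _, fun x => ?_⟩
  have hp' : Function.Periodic f (2 * π) := hp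
  obtain ⟨y, hy, hxy⟩ := hp'.exists_mem_Ico₀ two_pi_pos x
  rw [hxy]
  exact (hC y (Set.Ico_subset_Icc_self hy)).trans (le_max_left _ _)

theorem lip_real {f : ℝ → ℝ} (hf : Differentiable ℝ f) {M : ℝ} (hM : ∀ x, |deriv f x| ≤ M)
    (x y : ℝ) : |f x - f y| ≤ M * |x - y| := by
  have := Convex.norm_image_sub_le_of_norm_deriv_le (𝕜 := ℝ) (f := f) (C := M) (s := Set.univ)
    (fun x _ => hf x) (fun x _ => hM x) convex_univ (Set.mem_univ y) (Set.mem_univ x)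
  simpa [Real.norm_eq_abs] using this

theorem rpow_eq {N : ℕ} (hN : 1 ≤ N) : (N : ℝ) ^ (-(3 / 2) : ℝ) = 1 / (N * √N) := by
  have h0 : (0 : ℝ) < N := by exact_mod_cast hN
  rw [Real.rpow_neg h0.le, Real.sqrt_eq_rpow]
  have : (N : ℝ) * (N : ℝ) ^ (1 / 2 : ℝ) = (N : ℝ) ^ (3 / 2 : ℝ) := by
    nth_rewrite 1 [← Real.rpow_one (N : ℝ)]
    rw [← Real.rpow_add h0]
    norm_num
  rw [this, one_div]

theorem cr_small {B K : ℝ} (hB : 1 ≤ B) (hKB : B ≤ K) : B * (4 * cr K) ≤ 1 := by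
  have hK1 : 1 ≤ K := hB.trans hKB
  unfold cr
  have hK4 : K ≤ K ^ 4 := by
    calc K = K * 1 := by ring
      _ ≤ K * K ^ 3 := by gcongr; exact one_le_pow₀ hK1
      _ = K ^ 4 := by ring
  rw [← mul_assoc, mul_one_div, div_le_one (by positivity)]
  nlinarith

/-- everything at one scale -/
theorem per_N {A B K q κ L Sa Sc : ℝ} {N : ℕ} {a d : ℤ → ℂ} {ρ G : ℝ → ℝ} (hN : 1 ≤ N)
    (hA1 : 1 ≤ A) (hB1 : 1 ≤ B) (hKB : 4 * B ≤ K) (hKq : 4 * q ≤ K) (hL : 0 ≤ L)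
    (hNq : 2 * A * q ≤ N) (hq : 0 < q)
    (hrs : ∀ n, a (-n) = starRingEnd ℂ (a n)) (wa : WS 3 Sa a) (wd : WS 2 Sc d)
    (A1 : 6 * Sc ≤ A) (A2 : 6 * Sa ≤ A) (A3 : 2 * Sc + L * (2 * Sa) ≤ A)
    (B1 : 1 + 3 * (‖D a 0‖ + 2 * Sa) ≤ B) (B2 : 3 * (‖D (D a) 0‖ + 2 * Sa) ≤ B)
    (B3 : 3 * (‖d 0‖ + 2 * Sc) ≤ B) (B4 : 3 * (‖D d 0‖ + 2 * Sc) ≤ B)
    (bG1 : ∀ t, |deriv G t| ≤ B) (bG2 : ∀ t, |deriv (deriv G) t| ≤ B)
    (bq : ∀ t, 1 / q ≤ deriv G t)
    (lip0 : ∀ x y, |ρ x - ρ y| ≤ L * |x - y|) (lip1 : ∀ x y, |deriv ρ x - deriv ρ y| ≤ L * |x - y|)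
    (ha0 : ∀ x : ℝ, HasSum (fun n : ℤ => a n * Complex.exp (n * x * Complex.I))
      ((G x - x : ℝ) : ℂ))
    (ha1 : ∀ x : ℝ, HasSum (fun n : ℤ => D a n * Complex.exp (n * x * Complex.I))
      ((deriv G x - 1 : ℝ) : ℂ))
    (ha2 : ∀ x : ℝ, HasSum (fun n : ℤ => D (D a) n * Complex.exp (n * x * Complex.I))
      ((deriv (deriv G) x : ℝ) : ℂ))
    (hd0 : ∀ x : ℝ, HasSum (fun n : ℤ => d n * Complex.exp (n * x * Complex.I)) (ρ x : ℂ))
    (hd1 : ∀ x : ℝ, HasSum (fun n : ℤ => D d n * Complex.exp (n * x * Complex.I))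
      ((deriv ρ x : ℝ) : ℂ))
    (E1 : ∀ t, deriv ρ (G t) * (deriv G t * deriv G t) + 3 * (ρ (G t) * deriv (deriv G) t) = 0)
    (E2 : ∀ t, ρ (G t) * deriv G t ^ 3 = κ) :
    (∀ t : ℝ, 2 / K ≤ (1 + trunc (D a) N t).re ∧ (1 + trunc (D a) N t).re ≤ K / 2) ∧
    (∀ z : ℂ, |z.im| ≤ 1 / N → ‖trunc (D (D a)) N z‖ ≤ B) ∧
    ∀ z ∈ Strip (4 * cr K / N), ‖trunc d N (z + trunc a N z) * (1 + trunc (D a) N z) ^ 3 - κ‖ ≤
      (4 * A * B ^ 3 + 18 * A * B ^ 5) * (1 / (N * √N)) := by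
  have hSa := wa.1
  have hSc := wd.1
  have hN' : (1 : ℝ) ≤ N := by exact_mod_cast hN
  have hN0 : (0 : ℝ) < N := by linarith
  have hs1 : 1 ≤ √(N : ℝ) := by
    rw [← Real.sqrt_one]
    exact Real.sqrt_le_sqrt hN'
  have hs0 : 0 < √(N : ℝ) := by linarith
  have he : 1 / (N * √(N : ℝ)) ≤ 1 / √(N : ℝ) := by
    gcongr
    nlinarith
  have hK1 : 1 ≤ K := by linarith
  have hη0 : 0 < 4 * cr K := by unfold cr; positivity
  have hηB : B * (4 * cr K) ≤ 1 := cr_small hB1 (by linarith)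
  -- weights
  have wa2 : WS 2 Sa a := wa.mono (by norm_num)
  have wDa2 : WS 2 Sa (D a) := wa.D
  have wDa1 : WS 1 Sa (D a) := wDa2.mono (by norm_num)
  have wDDa1 : WS 1 Sa (D (D a)) := wDa2.D
  have wDDDa0 : WS 0 Sa (D (D (D a))) := wDDa1.D
  have wd1 : WS 1 Sc d := wd.mono (by norm_num)
  have wDd1 : WS 1 Sc (D d) := wd.D
  have wDDd0 : WS 0 Sc (D (D d)) := wDd1.D
  -- strip bounds
  have sg1 : ∀ z : ℂ, |z.im| ≤ 1 / N → ‖1 + trunc (D a) N z‖ ≤ B := by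
    intro z hz
    have h1 := wDa1.bd1 hN hz
    have h2 : ‖1 + trunc (D a) N z‖ ≤ 1 + ‖trunc (D a) N z‖ := by
      refine (norm_add_le _ _).trans ?_
      rw [norm_one]
    linarith
  have sg2 : ∀ z : ℂ, |z.im| ≤ 1 / N → ‖trunc (D (D a)) N z‖ ≤ B := fun z hz =>
    (wDDa1.bd1 hN hz).trans B2
  have sg3 : ∀ z : ℂ, |z.im| ≤ 1 / N → ‖trunc (D (D (D a))) N z‖ ≤ A * √N := fun z hz =>
    (wDDDa0.bd0 hN hz).trans (by gcongr)
  have sr0 : ∀ z : ℂ, |z.im| ≤ 1 / N → ‖trunc d N z‖ ≤ B := fun z hz =>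
    (wd1.bd1 hN hz).trans B3
  have sr1 : ∀ z : ℂ, |z.im| ≤ 1 / N → ‖trunc (D d) N z‖ ≤ B := fun z hz =>
    (wDd1.bd1 hN hz).trans B4
  have sr2 : ∀ z : ℂ, |z.im| ≤ 1 / N → ‖trunc (D (D d)) N z‖ ≤ A * √N := fun z hz =>
    (wDDd0.bd0 hN hz).trans (by gcongr)
  -- real points
  have hreal : ∀ t : ℝ, ∃ x : ℝ, ((t : ℂ) + trunc a N t) = (x : ℂ) ∧
      |x - G t| ≤ 2 * Sa * (1 / (N * √N)) := by
    intro t
    have h1 := hp_real (trunc_hp a hrs N 1) t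
    refine ⟨t + (trunc a N t).re, ?_, ?_⟩
    · apply Complex.ext
      · simp
      · simp [h1]
    · have h2 := wa2.conv2 hN (ha0 t)
      have h3 : (t + (trunc a N t).re) - G t = (trunc a N t - ((G t - t : ℝ) : ℂ)).re := by
        simp
        ring
      rw [h3]
      refine (Complex.abs_re_le_norm _).trans (h2.trans (le_of_eq ?_))
      ring
  have cY : ∀ t : ℝ, ‖1 + trunc (D a) N t - ((deriv G t : ℝ) : ℂ)‖ ≤ A * (1 / (N * √N)) := by
    intro t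
    have h2 := wDa2.conv2 hN (ha1 t)
    have h3 : 1 + trunc (D a) N t - ((deriv G t : ℝ) : ℂ) =
        trunc (D a) N t - ((deriv G t - 1 : ℝ) : ℂ) := by
      push_cast
      ring
    rw [h3]
    refine h2.trans ?_
    rw [div_eq_mul_one_div]
    gcongr
    linarith
  refine ⟨fun t => ⟨?_, ?_⟩, sg2, ?_⟩
  · have h1 := cY t
    have h2 : (1 + trunc (D a) N t).re = deriv G t +
        (1 + trunc (D a) N t - ((deriv G t : ℝ) : ℂ)).re := by
      simp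
    have h3 := (abs_le.1 ((Complex.abs_re_le_norm _).trans h1)).1
    have h4 : A * (1 / (N * √(N : ℝ))) ≤ 1 / (2 * q) := by
      rw [mul_one_div, div_le_div_iff₀ (by positivity) (by positivity)]
      have : (N : ℝ) ≤ N * √(N : ℝ) := by nlinarith
      linarith
    have h5 := bq t
    have h6 : 1 / q = 1 / (2 * q) + 1 / (2 * q) := by
      field_simp
      norm_num
    have h7 : 2 / K ≤ 1 / (2 * q) := by
      rw [div_le_div_iff₀ (by linarith) (by positivity)]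
      linarith
    rw [h2]
    linarith
  · have h1 : |((t : ℂ)).im| ≤ 1 / N := by
      rw [Complex.ofReal_im, abs_zero]
      positivity
    have h2 := (Complex.re_le_norm _).trans (sg1 t h1)
    linarith
  · refine core hN hA1 hB1 hη0 hηB hrs sg1 sg2 sg3 sr0 sr1 sr2
      (X0 := fun t => ((deriv ρ (G t) : ℝ) : ℂ)) (Y0 := fun t => ((deriv G t : ℝ) : ℂ))
      (W0 := fun t => ((ρ (G t) : ℝ) : ℂ)) (Z0 := fun t => ((deriv (deriv G) t : ℝ) : ℂ)) ?_ ?_ ?_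
      ?_ ?_ cY ?_ ?_
    · intro t
      exact_mod_cast E1 t
    · intro t
      have h1 : ρ (G t) * (deriv G t * (deriv G t * deriv G t)) = κ := by
        rw [← E2 t]
        ring
      exact_mod_cast h1
    · intro t
      rw [Complex.norm_real]
      exact bG1 t
    · intro t
      rw [Complex.norm_real]
      exact bG2 t
    · intro t
      obtain ⟨x, hx, hxG⟩ := hreal t
      rw [hx]
      have h1 := wDd1.conv1 hN (hd1 x)
      have h2 : ‖((deriv ρ x : ℝ) : ℂ) - ((deriv ρ (G t) : ℝ) : ℂ)‖ ≤ L * |x - G t| := by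
        rw [← Complex.ofReal_sub, Complex.norm_real]
        exact lip1 x (G t)
      have h3 : trunc (D d) N x - ((deriv ρ (G t) : ℝ) : ℂ) = (trunc (D d) N x -
          ((deriv ρ x : ℝ) : ℂ)) + (((deriv ρ x : ℝ) : ℂ) - ((deriv ρ (G t) : ℝ) : ℂ)) := by ring
      rw [h3]
      calc _ ≤ 2 * Sc / √N + L * |x - G t| := (norm_add_le _ _).trans (add_le_add h1 h2)
        _ ≤ 2 * Sc / √N + L * (2 * Sa * (1 / √N)) := by
            gcongr
            exact hxG.trans (by gcongr)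
        _ = (2 * Sc + L * (2 * Sa)) * (1 / √N) := by ring
        _ ≤ A * (1 / √N) := by gcongr
    · intro t
      obtain ⟨x, hx, hxG⟩ := hreal t
      rw [hx]
      have h1 := wd.conv2 hN (hd0 x)
      have h2 : ‖((ρ x : ℝ) : ℂ) - ((ρ (G t) : ℝ) : ℂ)‖ ≤ L * |x - G t| := by
        rw [← Complex.ofReal_sub, Complex.norm_real]
        exact lip0 x (G t)
      have h3 : trunc d N x - ((ρ (G t) : ℝ) : ℂ) = (trunc d N x -
          ((ρ x : ℝ) : ℂ)) + (((ρ x : ℝ) : ℂ) - ((ρ (G t) : ℝ) : ℂ)) := by ring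
      rw [h3]
      calc _ ≤ 2 * Sc / (N * √N) + L * |x - G t| := (norm_add_le _ _).trans (add_le_add h1 h2)
        _ ≤ 2 * Sc / (N * √N) + L * (2 * Sa * (1 / (N * √N))) := by gcongr
        _ = (2 * Sc + L * (2 * Sa)) * (1 / (N * √N)) := by ring
        _ ≤ A * (1 / (N * √N)) := by gcongr
    · intro t
      have h2 := wDDa1.conv1 hN (ha2 t)
      refine h2.trans ?_
      rw [div_eq_mul_one_div]
      gcongr
      linarith

end KF2

open KF2

theorem start_lines {K₀ : ℝ} {c : ℤ → ℂ} {h : ℝ → ℝ} (hc : Table K₀ c) (hs : ContDiff ℝ 4 h)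
    (hh : ∀ x : ℝ, HasSum (fun n : ℤ => c n * Complex.exp (n * x * Complex.I)) (h x : ℂ)) :
    ∃ K : ℝ, 10 * K₀ ≤ K ∧ ∃ (C : ℝ) (N₁ : ℕ), 1 ≤ C ∧ ∀ Ns : ℕ, N₁ ≤ Ns → ∃ g₀ : ℂ → ℂ,
      (∀ R : ℝ, HP R (fun z => g₀ z - z)) ∧ GS K Ns (C / Ns) g₀ ∧
      (∀ t : ℝ, 2 / K ≤ (deriv g₀ t).re ∧ (deriv g₀ t).re ≤ K / 2) ∧
      ∃ κ₀ : ℝ, Bd (4 * cr K / Ns) (fun z => (trunc c Ns (g₀ z) + deriv (deriv (trunc c Ns)) (g₀ z)) *
        deriv g₀ z ^ 3 - κ₀) (C * (Ns : ℝ) ^ (-(3 / 2) : ℝ)) := by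
  obtain ⟨Sc, d, ρ, hρs, hρp, hρ0, hWd, hd0, hd1, hdt⟩ := table_part hc hs hh
  obtain ⟨G, κ, hκ, hG, hGp, hG0, hGκ⟩ := lazutkin hρs hρp hρ0
  obtain ⟨Sa, a, hWa, hrs, ha0, ha1, ha2⟩ := lines_part hG hGp
  have hSc := hWd.1
  have hSa := hWa.1
  -- derivatives
  have g0 : ContDiff ℝ ((2 : ℕ) + 1) G := by exact_mod_cast hG
  have g1 : ContDiff ℝ ((1 : ℕ) + 1) (deriv G) := by exact_mod_cast KG0.cont_deriv g0
  have g2 : ContDiff ℝ ((0 : ℕ) + 1) (deriv (deriv G)) := by exact_mod_cast KG0.cont_deriv g1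
  have dG0 : Differentiable ℝ G := (contDiff_succ_iff_deriv.mp g0).1
  have dG1 : Differentiable ℝ (deriv G) := (contDiff_succ_iff_deriv.mp g1).1
  have pG1 : ∀ x, deriv G (x + 2 * π) = deriv G x := by
    intro x
    have e : (fun x => G (x + 2 * π)) = fun x => G x + 2 * π := funext hGp
    rw [← deriv_comp_add_const, e, deriv_add_const]
  have pG2 := KG0.deriv_per pG1
  have r0 : ContDiff ℝ ((1 : ℕ) + 1) ρ := by exact_mod_cast hρs
  have r1 : ContDiff ℝ ((0 : ℕ) + 1) (deriv ρ) := by exact_mod_cast KG0.cont_deriv r0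
  have r2 : ContDiff ℝ (0 : ℕ) (deriv (deriv ρ)) := KG0.cont_deriv r1
  have dρ0 : Differentiable ℝ ρ := (contDiff_succ_iff_deriv.mp r0).1
  have dρ1 : Differentiable ℝ (deriv ρ) := (contDiff_succ_iff_deriv.mp r1).1
  have pρ1 := KG0.deriv_per hρp
  have pρ2 := KG0.deriv_per pρ1
  obtain ⟨M1, hM1, bG1⟩ := per_bdd g1.continuous pG1
  obtain ⟨M2, hM2, bG2⟩ := per_bdd g2.continuous pG2
  obtain ⟨L1, hL1, bρ1⟩ := per_bdd r1.continuous pρ1
  obtain ⟨L2, hL2, bρ2⟩ := per_bdd r2.continuous pρ2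
  obtain ⟨q, hq, bq⟩ := per_bdd (f := fun x => (deriv G x)⁻¹)
    (g1.continuous.inv₀ fun x => (hG0 x).ne') (fun x => by rw [pG1])
  have hq0 : 0 < q := by
    have h1 := bq 0
    have h2 : 0 < (deriv G 0)⁻¹ := inv_pos.2 (hG0 0)
    rw [abs_of_pos h2] at h1
    linarith
  have bq' : ∀ t, 1 / q ≤ deriv G t := by
    intro t
    have h1 := bq t
    have h2 : 0 < (deriv G t)⁻¹ := inv_pos.2 (hG0 t)
    rw [abs_of_pos h2] at h1
    rw [one_div]
    exact inv_le_of_inv_le₀ (hG0 t) h1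
  have E1 : ∀ t, deriv ρ (G t) * (deriv G t * deriv G t) + 3 * (ρ (G t) * deriv (deriv G) t) = 0 := by
    intro t
    have h1 : HasDerivAt (fun t => ρ (G t) * deriv G t ^ 3) ((deriv ρ (G t) * deriv G t) *
        deriv G t ^ 3 + ρ (G t) * (((3 : ℕ) : ℝ) * deriv G t ^ (3 - 1) * deriv (deriv G) t)) t :=
      ((dρ0 (G t)).hasDerivAt.comp t (dG0 t).hasDerivAt).mul ((dG1 t).hasDerivAt.pow 3)
    have h2 : (fun t => ρ (G t) * deriv G t ^ 3) = fun _ => κ := funext hGκ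
    rw [h2] at h1
    have h3 := h1.unique (hasDerivAt_const t κ)
    have h4 : deriv G t ^ 2 * (deriv ρ (G t) * (deriv G t * deriv G t) +
        3 * (ρ (G t) * deriv (deriv G) t)) = 0 := by
      rw [← h3]
      push_cast
      ring
    rcases mul_eq_zero.1 h4 with h5 | h5
    · exact absurd h5 (pow_pos (hG0 t) 2).ne'
    · exact h5
  -- constants
  obtain ⟨A, hA1, A1, A2, A3⟩ : ∃ A : ℝ, 1 ≤ A ∧ 6 * Sc ≤ A ∧ 6 * Sa ≤ A ∧
      2 * Sc + (L1 + L2) * (2 * Sa) ≤ A := by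
    have hLS : 0 ≤ (L1 + L2) * (2 * Sa) := by positivity
    exact ⟨1 + 6 * Sc + 6 * Sa + 2 * Sc + (L1 + L2) * (2 * Sa), by linarith, by linarith,
      by linarith, by linarith⟩
  obtain ⟨B, hB1, B1, B2, B3, B4, B5, B6⟩ : ∃ B : ℝ, 1 ≤ B ∧ 1 + 3 * (‖D a 0‖ + 2 * Sa) ≤ B ∧
      3 * (‖D (D a) 0‖ + 2 * Sa) ≤ B ∧ 3 * (‖d 0‖ + 2 * Sc) ≤ B ∧ 3 * (‖D d 0‖ + 2 * Sc) ≤ B ∧
      M1 ≤ B ∧ M2 ≤ B := by
    have n1 := norm_nonneg (D a 0)
    have n2 := norm_nonneg (D (D a) 0)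
    have n3 := norm_nonneg (d 0)
    have n4 := norm_nonneg (D d 0)
    exact ⟨(1 + 3 * (‖D a 0‖ + 2 * Sa)) + 3 * (‖D (D a) 0‖ + 2 * Sa) +
      3 * (‖d 0‖ + 2 * Sc) + 3 * (‖D d 0‖ + 2 * Sc) + M1 + M2, by linarith, by linarith,
      by linarith, by linarith, by linarith, by linarith, by linarith⟩
  have hK0 := hc.K1
  obtain ⟨K, K1, K2, K3⟩ : ∃ K : ℝ, 10 * K₀ ≤ K ∧ 4 * q ≤ K ∧ 4 * B ≤ K :=
    ⟨10 * K₀ + 4 * q + 4 * B, by linarith, by linarith, by linarith⟩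
  have hC0 : 0 ≤ 4 * A * B ^ 3 + 18 * A * B ^ 5 := by positivity
  refine ⟨K, K1, B + (4 * A * B ^ 3 + 18 * A * B ^ 5), ⌈2 * A * q⌉₊ + 1, by linarith, ?_⟩
  intro N hNN
  have hN : 1 ≤ N := le_trans (Nat.le_add_left 1 _) hNN
  have hN' : (1 : ℝ) ≤ N := by exact_mod_cast hN
  have hN0 : (0 : ℝ) < N := by linarith
  have hNq : 2 * A * q ≤ N := by
    have h1 : (⌈2 * A * q⌉₊ : ℝ) + 1 ≤ N := by exact_mod_cast hNN
    have h2 := Nat.le_ceil (2 * A * q)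
    linarith
  have hLip : ∀ x, |deriv ρ x| ≤ L1 + L2 := fun x => (bρ1 x).trans (by linarith)
  have hLip2 : ∀ x, |deriv (deriv ρ) x| ≤ L1 + L2 := fun x => (bρ2 x).trans (by linarith)
  obtain ⟨P1, P2, P3⟩ := per_N (κ := κ) hN hA1 hB1 K3 K2 (add_nonneg hL1 hL2) hNq hq0 hrs hWa hWd
    A1 A2 A3 B1 B2 B3 B4 (fun t => (bG1 t).trans B5) (fun t => (bG2 t).trans B6) bq'
    (lip_real dρ0 hLip) (lip_real dρ1 hLip2) ha0 ha1 ha2 hd0 hd1 E1 hGκ
  have dg : ∀ z, HasDerivAt (fun z : ℂ => z + trunc a N z) (1 + trunc (D a) N z) z := fun z =>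
    (hasDerivAt_id z).add (hasDerivAt_trunc a N z)
  have dg1 : ∀ z, HasDerivAt (fun z => 1 + trunc (D a) N z) (trunc (D (D a)) N z) z := fun z =>
    (hasDerivAt_trunc (D a) N z).const_add 1
  have e1 : deriv (fun z : ℂ => z + trunc a N z) = fun z => 1 + trunc (D a) N z :=
    funext fun z => (dg z).deriv
  have e2 : deriv (deriv (fun z : ℂ => z + trunc a N z)) = trunc (D (D a)) N := by
    rw [e1]
    exact funext fun z => (dg1 z).deriv
  have eHP : ∀ R : ℝ, HP R (fun z : ℂ => z + trunc a N z - z) := by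
    intro R
    have : (fun z : ℂ => z + trunc a N z - z) = trunc a N := by
      funext z
      ring
    rw [this]
    exact trunc_hp a hrs N R
  have hKpos : 0 < K := by linarith
  refine ⟨fun z => z + trunc a N z, eHP, ⟨eHP _, ?_, ?_, ?_⟩, ?_, κ, ?_⟩
  · intro t
    rw [e1]
    refine le_trans ?_ (P1 t).1
    gcongr
    norm_num
  · intro t
    rw [e1]
    refine (P1 t).2.trans ?_
    linarith
  · rw [e2]
    intro z hz
    have hz' : |z.im| < 4 * cr K / N := hz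
    have h1 : 4 * cr K ≤ 1 := by
      have := cr_small hB1 (show B ≤ K by linarith)
      have h2 : 0 < 4 * cr K := by unfold cr; positivity
      nlinarith
    have h3 : |z.im| ≤ 1 / N := hz'.le.trans (by gcongr)
    refine (P2 z h3).trans ?_
    rw [mul_div_cancel₀ _ hN0.ne']
    linarith
  · intro t
    rw [e1]
    exact P1 t
  · intro z hz
    have h1 := P3 z hz
    show ‖(trunc c N (z + trunc a N z) + deriv (deriv (trunc c N)) (z + trunc a N z)) *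
      deriv (fun z => z + trunc a N z) z ^ 3 - κ‖ ≤ _
    rw [hdt, e1, rpow_eq hN]
    exact h1.trans (mul_le_mul_of_nonneg_right (by linarith) (by positivity))

end Pool.Agent.MP_b87ea9_an.Kam
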