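import Mathlib
import Pool.Agent.Lib.MP_b87ea9_an.KDefs

set_option autoImplicit false

/-! The error of a fixed analytic family as `ω → 0` -/

namespace Pool.Agent.MP_b87ea9_an.Kam

open Real MeasureTheory

open Asymptotics Filter Topology in
/-- `f` has the 3-jet `a0 + a1 s + a2 s^2 + a3 s^3` at `0` -/
def kf3J (f : ℂ → ℂ) (a0 a1 a2 a3 : ℂ) : Prop :=
  (fun s => f s - (a0 + a1 * s + a2 * s ^ 2 + a3 * s ^ 3)) =O[𝓝 0] (fun s => s ^ 4)

section jets

open Asymptotics Filter Topology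

variable {f g u : ℂ → ℂ} {a0 a1 a2 a3 b0 b1 b2 b3 : ℂ}

theorem kf3_congr (h : kf3J f a0 a1 a2 a3) (h0 : a0 = b0) (h1 : a1 = b1) (h2 : a2 = b2)
    (h3 : a3 = b3) : kf3J f b0 b1 b2 b3 := by
  subst h0 h1 h2 h3; exact h

theorem kf3_add (h : kf3J f a0 a1 a2 a3) (h' : kf3J g b0 b1 b2 b3) :
    kf3J (fun s => f s + g s) (a0 + b0) (a1 + b1) (a2 + b2) (a3 + b3) := by
  unfold kf3J at *
  refine (h.add h').congr_left (fun s => ?_)
  ring

theorem kf3_sub (h : kf3J f a0 a1 a2 a3) (h' : kf3J g b0 b1 b2 b3) :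
    kf3J (fun s => f s - g s) (a0 - b0) (a1 - b1) (a2 - b2) (a3 - b3) := by
  unfold kf3J at *
  refine (h.sub h').congr_left (fun s => ?_)
  ring

theorem kf3_pow (n : ℕ) : (fun s : ℂ => s ^ n) =O[𝓝 0] (fun _ => (1 : ℂ)) :=
  Tendsto.isBigO_one ℂ ((continuous_pow n).tendsto 0)

theorem kf3_poly (p : ℂ → ℂ) (hp : Continuous p) : p =O[𝓝 0] (fun _ => (1 : ℂ)) :=
  Tendsto.isBigO_one ℂ (hp.tendsto 0)

theorem kf3_one (h : kf3J f a0 a1 a2 a3) : f =O[𝓝 0] (fun _ => (1 : ℂ)) := by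
  unfold kf3J at h
  have h1 := (h.trans (kf3_pow 4)).add (kf3_poly
    (fun s => a0 + a1 * s + a2 * s ^ 2 + a3 * s ^ 3) (by fun_prop))
  refine h1.congr_left (fun s => ?_)
  ring

theorem kf3_mul (h : kf3J f a0 a1 a2 a3) (h' : kf3J g b0 b1 b2 b3) :
    kf3J (fun s => f s * g s) (a0 * b0) (a0 * b1 + a1 * b0) (a0 * b2 + a1 * b1 + a2 * b0)
      (a0 * b3 + a1 * b2 + a2 * b1 + a3 * b0) := by
  have hg := kf3_one h'
  unfold kf3J at *
  have h1 := h.mul hg
  have h2 := (kf3_poly (fun s => a0 + a1 * s + a2 * s ^ 2 + a3 * s ^ 3) (by fun_prop)).mul h'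
  have h3 : (fun s : ℂ => s ^ 4 * (a1 * b3 + a2 * b2 + a3 * b1 + (a2 * b3 + a3 * b2) * s +
      a3 * b3 * s ^ 2)) =O[𝓝 0] (fun s => s ^ 4 * 1) :=
    (isBigO_refl _ _).mul (kf3_poly _ (by fun_prop))
  have h1' : (fun s => (f s - (a0 + a1 * s + a2 * s ^ 2 + a3 * s ^ 3)) * g s) =O[𝓝 0]
      (fun s : ℂ => s ^ 4) := h1.congr_right (fun s => by ring)
  have h2' : (fun s => (a0 + a1 * s + a2 * s ^ 2 + a3 * s ^ 3) *
      (g s - (b0 + b1 * s + b2 * s ^ 2 + b3 * s ^ 3))) =O[𝓝 0]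
      (fun s : ℂ => s ^ 4) := h2.congr_right (fun s => by ring)
  have h3' := h3.congr_right (fun s => mul_one (s ^ 4))
  refine ((h1'.add h2').add h3').congr_left (fun s => ?_)
  ring

theorem kf3_const (c : ℂ) : kf3J (fun _ => c) c 0 0 0 := by
  unfold kf3J
  refine (isBigO_zero _ _).congr_left (fun s => ?_)
  ring

theorem kf3_id : kf3J (fun s => s) 0 1 0 0 := by
  unfold kf3J
  refine (isBigO_zero _ _).congr_left (fun s => ?_)
  ring

theorem kf3_comp (h : kf3J f a0 a1 a2 a3) (hu : kf3J u 0 b1 b2 b3) :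
    kf3J (fun s => f (u s)) a0 (a1 * b1) (a1 * b2 + a2 * b1 ^ 2)
      (a1 * b3 + 2 * a2 * b1 * b2 + a3 * b1 ^ 3) := by
  have hu1 : u =O[𝓝 0] (fun s : ℂ => s) := by
    have h1 : (fun s : ℂ => s * (s ^ 3)) =O[𝓝 0] (fun s : ℂ => s * 1) :=
      (isBigO_refl _ _).mul (kf3_pow 3)
    have h1' : (fun s : ℂ => s ^ 4) =O[𝓝 0] (fun s : ℂ => s) := by
      refine (h1.congr_left (fun s => ?_)).congr_right (fun s => mul_one s)
      ring
    have h2 : (fun s : ℂ => s * (b1 + b2 * s + b3 * s ^ 2)) =O[𝓝 0] (fun s : ℂ => s * 1) :=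
      (isBigO_refl _ _).mul (kf3_poly _ (by fun_prop))
    have h2' := h2.congr_right (fun s => mul_one s)
    unfold kf3J at hu
    refine ((hu.trans h1').add h2').congr_left (fun s => ?_)
    ring
  have hut : Tendsto u (𝓝 0) (𝓝 0) := hu1.trans_tendsto tendsto_id
  have hF := (show (fun s => f s - (a0 + a1 * s + a2 * s ^ 2 + a3 * s ^ 3)) =O[𝓝 0]
    (fun s => s ^ 4) from h).comp_tendsto hut
  have hF' := hF.trans (hu1.pow 4)
  have hP : kf3J (fun s => a0 + a1 * u s + a2 * (u s * u s) + a3 * (u s * u s * u s)) a0 (a1 * b1)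
      (a1 * b2 + a2 * b1 ^ 2) (a1 * b3 + 2 * a2 * b1 * b2 + a3 * b1 ^ 3) := by
    have h2 := kf3_mul hu hu
    have h3 := kf3_mul h2 hu
    have := kf3_add (kf3_add (kf3_add (kf3_const a0) (kf3_mul (kf3_const a1) hu))
      (kf3_mul (kf3_const a2) h2)) (kf3_mul (kf3_const a3) h3)
    exact kf3_congr this (by ring) (by ring) (by ring) (by ring)
  unfold kf3J at hP
  unfold kf3J
  refine (hF'.add hP).congr_left (fun s => ?_)
  simp only [Function.comp]
  ring

theorem kf3_taylor {z : ℂ} (h : AnalyticAt ℂ f z) :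
    kf3J (fun s => f (z + s)) (f z) (deriv f z) (deriv (deriv f) z / 2)
      (deriv (deriv (deriv f)) z / 6) := by
  have h1 := h.hasFPowerSeriesAt.isBigO_sub_partialSum_pow 4
  have h2 : (fun y : ℂ => ‖y‖ ^ 4) =O[𝓝 0] (fun y : ℂ => y ^ 4) := by
    refine IsBigO.of_bound 1 (Filter.Eventually.of_forall (fun y => ?_))
    simp
  unfold kf3J
  refine (h1.trans h2).congr_left (fun s => ?_)
  unfold FormalMultilinearSeries.partialSum
  simp only [Finset.sum_range_succ, Finset.sum_range_zero,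
    FormalMultilinearSeries.ofScalars_apply_eq, iteratedDeriv_succ, iteratedDeriv_zero]
  simp [Nat.factorial]

theorem kf3_neg : kf3J (fun s => -s) 0 (-1) 0 0 := by
  unfold kf3J
  refine (isBigO_zero _ _).congr_left (fun s => ?_)
  ring

theorem kf3_sin : kf3J (fun s => Complex.sin s) 0 1 0 (-1 / 6) := by
  have h : AnalyticAt ℂ Complex.sin 0 := Complex.analyticAt_sin
  have h1 := kf3_taylor h
  have d1 : deriv Complex.sin = Complex.cos := Complex.deriv_sin
  have d2 : deriv Complex.cos = fun z => -Complex.sin z := funext fun z => Complex.deriv_cos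
  have d3 : deriv (fun z => -Complex.sin z) = fun z => -Complex.cos z := by
    funext z; rw [deriv.fun_neg, Complex.deriv_sin]
  simp only [zero_add, d1, d2, d3, Complex.sin_zero, Complex.cos_zero] at h1
  exact kf3_congr h1 rfl rfl (by simp) (by simp)

theorem kf3_cos : kf3J (fun s => Complex.cos s) 1 0 (-1 / 2) 0 := by
  have h : AnalyticAt ℂ Complex.cos 0 := Complex.analyticAt_cos
  have h1 := kf3_taylor h
  have d1 : deriv Complex.cos = fun z => -Complex.sin z := funext fun z => Complex.deriv_cos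
  have d2 : deriv (fun z => -Complex.sin z) = fun z => -Complex.cos z := by
    funext z; rw [deriv.fun_neg, Complex.deriv_sin]
  have d3 : deriv (fun z => -Complex.cos z) = fun z => Complex.sin z := by
    funext z; rw [deriv.fun_neg, Complex.deriv_cos, neg_neg]
  simp only [zero_add, d1, d2, d3, Complex.sin_zero, Complex.cos_zero] at h1
  exact kf3_congr h1 rfl (by simp) rfl (by simp)

end jets

/-- the error with a complex rotation number, minus its leading term -/
noncomputable def kf3F (h g : ℂ → ℂ) (x ω : ℂ) : ℂ :=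
  deriv g x * Sx h (g x) (g (x + ω)) + deriv g x * Sy h (g (x - ω)) (g x) -
    ω ^ 2 / 12 * ((h (g x) + deriv (deriv h) (g x)) * deriv g x ^ 3 -
      (h (g (x - ω)) + deriv (deriv h) (g (x - ω))) * deriv g (x - ω) ^ 3)

theorem kf3_jet {h g : ℂ → ℂ} (hd : Differentiable ℂ h) {x : ℂ} (hg : AnalyticAt ℂ g x) :
    kf3J (fun ω => kf3F h g x ω) 0 0 0 0 := by
  have hd1 : Differentiable ℂ (deriv h) := hd.deriv
  have hd2 : Differentiable ℂ (deriv (deriv h)) := hd1.deriv
  have hha : AnalyticAt ℂ h (g x) := hd.analyticAt _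
  have hha1 : AnalyticAt ℂ (deriv h) (g x) := hd1.analyticAt _
  have hha2 : AnalyticAt ℂ (deriv (deriv h)) (g x) := hd2.analyticAt _
  have hgp := kf3_taylor hg
  have hgm := kf3_comp hgp kf3_neg
  have hgdp := kf3_taylor hg.deriv
  have hgdm := kf3_comp hgdp kf3_neg
  -- increments
  have hup := kf3_mul (kf3_const (1 / 2)) (kf3_sub hgp (kf3_const (g x)))
  have hup' := kf3_congr hup (b0 := 0) (b1 := deriv g x / 2) (b2 := deriv (deriv g) x / 4)
    (b3 := deriv (deriv (deriv g)) x / 12) (by ring) (by ring) (by ring) (by ring)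
  have hum := kf3_mul (kf3_const (1 / 2)) (kf3_sub hgm (kf3_const (g x)))
  have hum' := kf3_congr hum (b0 := 0) (b1 := -deriv g x / 2) (b2 := deriv (deriv g) x / 4)
    (b3 := -deriv (deriv (deriv g)) x / 12) (by ring) (by ring) (by ring) (by ring)
  have hum2 := kf3_mul (kf3_const (1 / 2)) (kf3_sub (kf3_const (g x)) hgm)
  have hum2' := kf3_congr hum2 (b0 := 0) (b1 := deriv g x / 2) (b2 := -deriv (deriv g) x / 4)
    (b3 := deriv (deriv (deriv g)) x / 12) (by ring) (by ring) (by ring) (by ring)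
  have hhp := kf3_comp (kf3_taylor hha) hup'
  have hhm := kf3_comp (kf3_taylor hha) hum'
  have hhp1 := kf3_comp (kf3_taylor hha1) hup'
  have hhm1 := kf3_comp (kf3_taylor hha1) hum'
  have hsp := kf3_comp kf3_sin hup'
  have hcp := kf3_comp kf3_cos hup'
  have hsm := kf3_comp kf3_sin hum2'
  have hcm := kf3_comp kf3_cos hum2'
  have hSx := kf3_sub (kf3_mul hhp1 hsp) (kf3_mul hhp hcp)
  have hSy := kf3_add (kf3_mul hhm1 hsm) (kf3_mul hhm hcm)
  have hFF := kf3_add (kf3_mul (kf3_const (deriv g x)) hSx) (kf3_mul (kf3_const (deriv g x)) hSy)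
  -- the leading term
  have hgm0 := kf3_sub hgm (kf3_const (g x))
  have hgm0' := kf3_congr hgm0 (b0 := 0) (b1 := -deriv g x) (b2 := deriv (deriv g) x / 2)
    (b3 := -deriv (deriv (deriv g)) x / 6) (by ring) (by ring) (by ring) (by ring)
  have hr := kf3_add (kf3_comp (kf3_taylor hha) hgm0') (kf3_comp (kf3_taylor hha2) hgm0')
  have hT := kf3_mul hr (kf3_mul hgdm (kf3_mul hgdm hgdm))
  have hL := kf3_mul (kf3_mul (kf3_const (1 / 12)) (kf3_mul kf3_id kf3_id))
    (kf3_sub (kf3_const ((h (g x) + deriv (deriv h) (g x)) * deriv g x ^ 3)) hT)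
  have hfin := kf3_sub hFF hL
  have hfin' := kf3_congr hfin (b0 := 0) (b1 := 0) (b2 := 0) (b3 := 0) (by ring) (by ring)
    (by ring) (by ring)
  clear hfin hL hT hr hFF hSx hSy
  unfold kf3J at hfin' ⊢
  refine hfin'.congr_left (fun s => ?_)
  unfold kf3F Sx Sy
  have e0 : x - s = x + -s := by ring
  have e1 : (g x + g (x + s)) / 2 = g x + 1 / 2 * (g (x + s) - g x) := by ring
  have e2 : (g (x + s) - g x) / 2 = 1 / 2 * (g (x + s) - g x) := by ring
  have e3 : (g (x + -s) + g x) / 2 = g x + 1 / 2 * (g (x + -s) - g x) := by ring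
  have e4 : (g x - g (x + -s)) / 2 = 1 / 2 * (g x - g (x + -s)) := by ring
  have e5 : g x + (g (x + -s) - g x) = g (x + -s) := by ring
  beta_reduce
  rw [e0, e1, e2, e3, e4, e5]
  ring

end Pool.Agent.MP_b87ea9_an.Kam
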