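import Mathlib
import Pool.Agent.Lib.MP_b87ea9_an.KDefs
import Pool.Agent.Lib.MP_b87ea9_an.KDefs2
import Pool.Agent.Lib.MP_b87ea9_an.KDefs3
import Pool.Agent.Lib.MP_b87ea9_an.KA3
import Pool.Agent.Lib.MP_b87ea9_an.KF3a

set_option autoImplicit false

/-! The error of a fixed analytic family as `ω → 0` -/

namespace Pool.Agent.MP_b87ea9_an.Kam

open Real MeasureTheory

/-- `kf3F` as a function of independent variables -/
noncomputable def kf3P (h : ℂ → ℂ) (a c A B C w : ℂ) : ℂ :=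
  a * (deriv h ((c + A) / 2) * Complex.sin ((A - c) / 2) -
      h ((c + A) / 2) * Complex.cos ((A - c) / 2)) +
    a * (deriv h ((B + c) / 2) * Complex.sin ((c - B) / 2) +
      h ((B + c) / 2) * Complex.cos ((c - B) / 2)) -
    w ^ 2 / 12 * ((h c + deriv (deriv h) c) * a ^ 3 - (h B + deriv (deriv h) B) * C ^ 3)

theorem kf3F_eq (h g : ℂ → ℂ) (x w : ℂ) : kf3F h g x w =
    kf3P h (deriv g x) (g x) (g (x + w)) (g (x - w)) (deriv g (x - w)) w := rfl

theorem kf3P_cont {X : Type*} [TopologicalSpace X] {s : Set X} {a c A B C w : X → ℂ} {h : ℂ → ℂ}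
    (h0 : Continuous h) (h1 : Continuous (deriv h)) (h2 : Continuous (deriv (deriv h)))
    (ha : ContinuousOn a s) (hc : ContinuousOn c s) (hA : ContinuousOn A s)
    (hB : ContinuousOn B s) (hC : ContinuousOn C s) (hw : ContinuousOn w s) :
    ContinuousOn (fun p => kf3P h (a p) (c p) (A p) (B p) (C p) (w p)) s := by
  unfold kf3P
  fun_prop

theorem kf3P_diff {s : Set ℂ} {A B C : ℂ → ℂ} {h : ℂ → ℂ} (a c : ℂ)
    (h0 : Differentiable ℂ h) (h1 : Differentiable ℂ (deriv h))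
    (hA : DifferentiableOn ℂ A s)
    (hB : DifferentiableOn ℂ B s) (hC : DifferentiableOn ℂ C s)
    (hD : DifferentiableOn ℂ (fun w => h (B w) + deriv (deriv h) (B w)) s) :
    DifferentiableOn ℂ (fun w => kf3P h a c (A w) (B w) (C w) w) s := by
  have e1 : DifferentiableOn ℂ (fun w => deriv h ((c + A w) / 2)) s :=
    h1.comp_differentiableOn (by fun_prop)
  have e2 : DifferentiableOn ℂ (fun w => h ((c + A w) / 2)) s :=
    h0.comp_differentiableOn (by fun_prop)
  have e3 : DifferentiableOn ℂ (fun w => deriv h ((B w + c) / 2)) s :=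
    h1.comp_differentiableOn (by fun_prop)
  have e4 : DifferentiableOn ℂ (fun w => h ((B w + c) / 2)) s :=
    h0.comp_differentiableOn (by fun_prop)
  have e5 : DifferentiableOn ℂ (fun w => Complex.sin ((A w - c) / 2)) s := by fun_prop
  have e6 : DifferentiableOn ℂ (fun w => Complex.cos ((A w - c) / 2)) s := by fun_prop
  have e7 : DifferentiableOn ℂ (fun w => Complex.sin ((c - B w) / 2)) s := by fun_prop
  have e8 : DifferentiableOn ℂ (fun w => Complex.cos ((c - B w) / 2)) s := by fun_prop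
  unfold kf3P
  exact (((e1.mul e5).sub (e2.mul e6)).const_mul a |>.add
    (((e3.mul e7).add (e4.mul e8)).const_mul a)).sub
    ((by fun_prop : DifferentiableOn ℂ (fun w : ℂ => w ^ 2 / 12) s).mul
      ((differentiableOn_const _).sub (hD.mul (hC.pow 3))))

theorem kf3_deriv_per {g : ℂ → ℂ} (c : ℂ) (hgp : ∀ z, g (z + 2 * π) = g z + c) (z : ℂ) :
    deriv g (z + 2 * π) = deriv g z := by
  rw [← deriv_comp_add_const g (2 * π : ℂ) z]
  have : (fun x => g (x + 2 * π)) = fun x => g x + c := funext hgp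
  rw [this, deriv_add_const]

theorem kf3F_per {h g : ℂ → ℂ} (hp : ∀ z, h (z + 2 * π) = h z)
    (hgp : ∀ z, g (z + 2 * π) = g z + 2 * π) (x w : ℂ) :
    kf3F h g (x + 2 * π) w = kf3F h g x w := by
  have hp1 : ∀ z, deriv h (z + 2 * π) = deriv h z :=
    kf3_deriv_per 0 (fun z => by rw [hp, add_zero])
  have hp2 : ∀ z, deriv (deriv h) (z + 2 * π) = deriv (deriv h) z :=
    kf3_deriv_per 0 (fun z => by rw [hp1, add_zero])
  have hg1 : ∀ z, deriv g (z + 2 * π) = deriv g z := kf3_deriv_per _ hgp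
  rw [kf3F_eq, kf3F_eq]
  have e1 : x + 2 * π + w = x + w + 2 * π := by ring
  have e2 : x + 2 * π - w = x - w + 2 * π := by ring
  rw [e1, e2, hg1, hg1, hgp, hgp, hgp]
  unfold kf3P
  have e3 : ∀ a b : ℂ, (a + 2 * π + (b + 2 * π)) / 2 = (a + b) / 2 + 2 * π := by
    intro a b; ring
  have e4 : ∀ a b : ℂ, (a + 2 * π - (b + 2 * π)) / 2 = (a - b) / 2 := by
    intro a b; ring
  rw [e3, e3, e4, e4]
  simp only [hp, hp1, hp2]

theorem kf3_reduce {f : ℂ → ℂ} (hf : ∀ z, f (z + 2 * π) = f z) (x : ℂ) :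
    ∃ x' : ℂ, x'.im = x.im ∧ x'.re ∈ Set.Icc 0 (2 * π) ∧ f x' = f x := by
  have hpi := Real.pi_pos
  refine ⟨x - (⌊x.re / (2 * π)⌋ : ℤ) * (2 * π : ℂ), ?_, ?_, ?_⟩
  · have : ((⌊x.re / (2 * π)⌋ : ℤ) * (2 * π : ℂ)) =
        (((⌊x.re / (2 * π)⌋ : ℤ) : ℝ) * (2 * π) : ℝ) := by push_cast; ring
    rw [this, Complex.sub_im, Complex.ofReal_im, sub_zero]
  · have : ((⌊x.re / (2 * π)⌋ : ℤ) * (2 * π : ℂ)) =
        (((⌊x.re / (2 * π)⌋ : ℤ) : ℝ) * (2 * π) : ℝ) := by push_cast; ring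
    rw [this, Complex.sub_re, Complex.ofReal_re]
    have h1 := Int.floor_le (x.re / (2 * π))
    have h2 := Int.lt_floor_add_one (x.re / (2 * π))
    rw [le_div_iff₀ (by positivity)] at h1
    rw [div_lt_iff₀ (by positivity)] at h2
    constructor
    · linarith
    · linarith
  · have hP : Function.Periodic f (2 * π : ℂ) := hf
    exact hP.sub_int_mul_eq _

open Asymptotics Filter Topology in
theorem kf3_bound {h g : ℂ → ℂ} {R r : ℝ} (hrR : r < R)
    (hd : Differentiable ℂ h) (hp : ∀ z, h (z + 2 * π) = h z)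
    (hgd : DifferentiableOn ℂ g (Strip R)) (hgp : ∀ z, g (z + 2 * π) = g z + 2 * π) :
    ∃ M : ℝ, 0 ≤ M ∧ ∀ x ∈ Strip r, ∀ ω : ℝ, 0 ≤ ω → ω ≤ 7 → ‖kf3F h g x ω‖ ≤ M * ω ^ 4 := by
  have hd1 : Differentiable ℂ (deriv h) := hd.deriv
  have hd2 : Differentiable ℂ (deriv (deriv h)) := hd1.deriv
  have hgd1 : DifferentiableOn ℂ (deriv g) (Strip R) := hgd.deriv (isOpen_strip R)
  set δ := (R - r) / 2 with hδ
  have hδ0 : 0 < δ := by rw [hδ]; linarith
  set Kc : Set (ℂ × ℂ) := (Set.Icc 0 (2 * π) ×ℂ Set.Icc (-r) r) ×ˢ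
    (Set.Icc (-(7 + δ)) (7 + δ) ×ℂ Set.Icc (-δ) δ) with hKc
  have hcomp : IsCompact Kc :=
    (isCompact_Icc.reProdIm isCompact_Icc).prod (isCompact_Icc.reProdIm isCompact_Icc)
  have hm1 : Set.MapsTo (fun p : ℂ × ℂ => p.1) Kc (Strip R) := by
    intro p hp
    have h1 := hp.1.2
    simp only [Set.mem_preimage, Set.mem_Icc] at h1
    show |p.1.im| < R
    rw [abs_lt]; constructor <;> linarith
  have hm2 : Set.MapsTo (fun p : ℂ × ℂ => p.1 + p.2) Kc (Strip R) := by
    intro p hp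
    have h1 := hp.1.2
    have h2 := hp.2.2
    simp only [Set.mem_preimage, Set.mem_Icc] at h1 h2
    show |(p.1 + p.2).im| < R
    rw [Complex.add_im, abs_lt]; constructor <;> linarith
  have hm3 : Set.MapsTo (fun p : ℂ × ℂ => p.1 - p.2) Kc (Strip R) := by
    intro p hp
    have h1 := hp.1.2
    have h2 := hp.2.2
    simp only [Set.mem_preimage, Set.mem_Icc] at h1 h2
    show |(p.1 - p.2).im| < R
    rw [Complex.sub_im, abs_lt]; constructor <;> linarith
  have hcont : ContinuousOn (fun p : ℂ × ℂ => kf3F h g p.1 p.2) Kc := by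
    have e1 : ContinuousOn (fun p : ℂ × ℂ => deriv g p.1) Kc :=
      hgd1.continuousOn.comp (by fun_prop) hm1
    have e2 : ContinuousOn (fun p : ℂ × ℂ => g p.1) Kc :=
      hgd.continuousOn.comp (by fun_prop) hm1
    have e3 : ContinuousOn (fun p : ℂ × ℂ => g (p.1 + p.2)) Kc :=
      hgd.continuousOn.comp (by fun_prop) hm2
    have e4 : ContinuousOn (fun p : ℂ × ℂ => g (p.1 - p.2)) Kc :=
      hgd.continuousOn.comp (by fun_prop) hm3
    have e5 : ContinuousOn (fun p : ℂ × ℂ => deriv g (p.1 - p.2)) Kc :=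
      hgd1.continuousOn.comp (by fun_prop) hm3
    have e6 : ContinuousOn (fun p : ℂ × ℂ => p.2) Kc := by fun_prop
    exact kf3P_cont hd.continuous hd1.continuous hd2.continuous e1 e2 e3 e4 e5 e6
  obtain ⟨M, hM⟩ := hcomp.exists_bound_of_continuousOn hcont
  have hMx : ∀ x ∈ Strip r, ∀ w : ℂ, |w.re| ≤ 7 + δ → |w.im| ≤ δ → ‖kf3F h g x w‖ ≤ M := by
    intro x hx w hw1 hw2
    obtain ⟨x', h1, h2, h3⟩ := kf3_reduce (f := fun x => kf3F h g x w)
      (fun z => kf3F_per hp hgp z w) x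
    have h3' : kf3F h g x' w = kf3F h g x w := h3
    rw [← h3']
    refine hM (x', w) ⟨⟨h2, ?_⟩, ⟨?_, ?_⟩⟩
    · show x'.im ∈ Set.Icc (-r) r
      rw [h1]
      have : |x.im| < r := hx
      rw [abs_lt] at this
      exact ⟨this.1.le, this.2.le⟩
    · show w.re ∈ Set.Icc (-(7 + δ)) (7 + δ)
      exact abs_le.1 hw1
    · show w.im ∈ Set.Icc (-δ) δ
      exact abs_le.1 hw2
  refine ⟨max M 0 / δ ^ 4, by positivity, ?_⟩
  intro x hx ω hω0 hω7
  have hxim : |x.im| < r := hx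
  rw [abs_lt] at hxim
  by_cases hωδ : ω < δ
  · -- Schwarz lemma
    have hball : ∀ w ∈ Metric.ball (0 : ℂ) δ, |w.re| < δ ∧ |w.im| < δ := by
      intro w hw
      rw [mem_ball_zero_iff] at hw
      exact ⟨(Complex.abs_re_le_norm w).trans_lt hw, (Complex.abs_im_le_norm w).trans_lt hw⟩
    have hmp : Set.MapsTo (fun w : ℂ => x + w) (Metric.ball 0 δ) (Strip R) := by
      intro w hw
      have h1 := (hball w hw).2
      rw [abs_lt] at h1
      show |(x + w).im| < R
      rw [Complex.add_im, abs_lt]; constructor <;> linarith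
    have hmm : Set.MapsTo (fun w : ℂ => x - w) (Metric.ball 0 δ) (Strip R) := by
      intro w hw
      have h1 := (hball w hw).2
      rw [abs_lt] at h1
      show |(x - w).im| < R
      rw [Complex.sub_im, abs_lt]; constructor <;> linarith
    have hdf : DifferentiableOn ℂ (fun w => kf3F h g x w) (Metric.ball 0 δ) := by
      have e3 : DifferentiableOn ℂ (fun w : ℂ => g (x + w)) (Metric.ball 0 δ) :=
        hgd.comp (by fun_prop) hmp
      have e4 : DifferentiableOn ℂ (fun w : ℂ => g (x - w)) (Metric.ball 0 δ) :=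
        hgd.comp (by fun_prop) hmm
      have e5 : DifferentiableOn ℂ (fun w : ℂ => deriv g (x - w)) (Metric.ball 0 δ) :=
        hgd1.comp (by fun_prop) hmm
      exact kf3P_diff (deriv g x) (g x) hd hd1 e3 e4 e5
        ((hd.comp_differentiableOn e4).add (hd2.comp_differentiableOn e4))
    have hf0 : kf3F h g x 0 = 0 := by
      rw [kf3F_eq]
      unfold kf3P
      simp
    have hxR : x ∈ Strip R := by
      show |x.im| < R
      rw [abs_lt]; constructor <;> linarith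
    have hgan : AnalyticAt ℂ g x := hgd.analyticAt ((isOpen_strip R).mem_nhds hxR)
    have hJ := kf3_jet hd hgan
    have hlo : (fun w => kf3F h g x w - kf3F h g x 0) =o[𝓝 0] (fun w : ℂ => ‖w - 0‖ ^ 3) := by
      unfold kf3J at hJ
      have h1 : (fun w => kf3F h g x w - kf3F h g x 0) =O[𝓝 0] (fun w : ℂ => w ^ 4) := by
        refine hJ.congr_left (fun s => ?_)
        rw [hf0]; ring
      have h2 : (fun w : ℂ => w ^ 4) =o[𝓝 0] (fun w : ℂ => w ^ 3) :=
        isLittleO_pow_pow (by norm_num)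
      have h3 := (h1.trans_isLittleO h2).norm_right
      refine h3.congr_right (fun w => ?_)
      rw [norm_pow, sub_zero]
    have hmaps : Set.MapsTo (fun w => kf3F h g x w) (Metric.ball 0 δ)
        (Metric.closedBall (kf3F h g x 0) (max M 0)) := by
      intro w hw
      rw [hf0, mem_closedBall_zero_iff]
      refine (hMx x hx w ?_ (hball w hw).2.le).trans (le_max_left _ _)
      have := (hball w hw).1
      linarith
    have hωm : (ω : ℂ) ∈ Metric.ball (0 : ℂ) δ := by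
      rw [mem_ball_zero_iff, Complex.norm_real, Real.norm_of_nonneg hω0]
      exact hωδ
    have := Complex.dist_le_mul_div_pow_of_mapsTo_ball_of_isLittleO (n := 3) hdf hmaps hlo hωm
    rw [hf0, dist_zero_right, dist_zero_right, Complex.norm_real, Real.norm_of_nonneg hω0] at this
    refine this.trans (le_of_eq ?_)
    rw [div_pow]
    ring
  · push Not at hωδ
    have h1 := hMx x hx ω (by
      rw [Complex.ofReal_re, abs_of_nonneg hω0]; linarith) (by
      rw [Complex.ofReal_im, abs_zero]; exact hδ0.le)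
    refine h1.trans ((le_max_left M 0).trans ?_)
    rw [div_mul_eq_mul_div, le_div_iff₀ (by positivity)]
    exact mul_le_mul_of_nonneg_left (pow_le_pow_left₀ hδ0.le hωδ 4) (le_max_right _ _)

theorem kf3_deriv_rs {f : ℂ → ℂ} (hf : ∀ z, f (starRingEnd ℂ z) = starRingEnd ℂ (f z)) (z : ℂ) :
    deriv f (starRingEnd ℂ z) = starRingEnd ℂ (deriv f z) := by
  have h1 : (starRingEnd ℂ) ∘ f ∘ (starRingEnd ℂ) = f := by
    funext w
    simp only [Function.comp]
    rw [hf, Complex.conj_conj]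
  have h2 := deriv_conj_conj (f := f)
  rw [h1] at h2
  have h3 := congrFun h2 (starRingEnd ℂ z)
  simp only [Function.comp] at h3
  rw [h3, Complex.conj_conj]

theorem kf3_hp_comp {h ψ : ℂ → ℂ} {R : ℝ} (hd : Differentiable ℂ h)
    (hp : ∀ z, h (z + 2 * π) = h z)
    (hrs : ∀ z, h (starRingEnd ℂ z) = starRingEnd ℂ (h z))
    (hψ : DifferentiableOn ℂ ψ (Strip R)) (hψp : ∀ z, ψ (z + 2 * π) = ψ z + 2 * π)
    (hψr : ∀ z, ψ (starRingEnd ℂ z) = starRingEnd ℂ (ψ z)) : HP R (fun z => h (ψ z)) where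
  hol := hd.comp_differentiableOn hψ
  per z := by rw [hψp, hp]
  rs z := by rw [hψr, hrs]

theorem kf3_hp_ent {φ w : ℂ → ℂ} {R : ℝ} (hd : Differentiable ℂ φ)
    (hφr : ∀ z, φ (starRingEnd ℂ z) = starRingEnd ℂ (φ z))
    (hw : HP R w) : HP R (fun z => φ (w z)) where
  hol := hd.comp_differentiableOn hw.hol
  per z := by rw [hw.per]
  rs z := by rw [hw.rs, hφr]

theorem kf3_strip_shift {R : ℝ} {z : ℂ} (hz : z ∈ Strip R) (a : ℝ) : z + a ∈ Strip R := by
  show |(z + a).im| < R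
  rw [Complex.add_im, Complex.ofReal_im, add_zero]
  exact hz

theorem kf3_strip_shift' {R : ℝ} {z : ℂ} (hz : z ∈ Strip R) (a : ℝ) : z - a ∈ Strip R := by
  show |(z - a).im| < R
  rw [Complex.sub_im, Complex.ofReal_im, sub_zero]
  exact hz

theorem kf3_diff_shift {R : ℝ} {g : ℂ → ℂ} (hg : DifferentiableOn ℂ g (Strip R)) (a : ℝ) :
    DifferentiableOn ℂ (fun z => g (z + a)) (Strip R) :=
  hg.comp (by fun_prop) (fun _ hz => kf3_strip_shift hz a)

theorem kf3_diff_shift' {R : ℝ} {g : ℂ → ℂ} (hg : DifferentiableOn ℂ g (Strip R)) (a : ℝ) :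
    DifferentiableOn ℂ (fun z => g (z - a)) (Strip R) :=
  hg.comp (by fun_prop) (fun _ hz => kf3_strip_shift' hz a)

theorem kf3_conj_add (z : ℂ) (a : ℝ) : starRingEnd ℂ z + a = starRingEnd ℂ (z + a) := by
  rw [map_add, Complex.conj_ofReal]

theorem kf3_conj_sub (z : ℂ) (a : ℝ) : starRingEnd ℂ z - a = starRingEnd ℂ (z - a) := by
  rw [map_sub, Complex.conj_ofReal]

theorem kf3_hp_FF {h g : ℂ → ℂ} {R : ℝ} (hd : Differentiable ℂ h)
    (hp : ∀ z, h (z + 2 * π) = h z)
    (hrs : ∀ z, h (starRingEnd ℂ z) = starRingEnd ℂ (h z))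
    (hgd : DifferentiableOn ℂ g (Strip R)) (hgp : ∀ z, g (z + 2 * π) = g z + 2 * π)
    (hgr : ∀ z, g (starRingEnd ℂ z) = starRingEnd ℂ (g z)) (ω : ℝ) :
    HP R (fun z => FF h g ω z) ∧
      HP R (fun z => (h (g z) + deriv (deriv h) (g z)) * deriv g z ^ 3) := by
  have hd1 : Differentiable ℂ (deriv h) := hd.deriv
  have hd2 : Differentiable ℂ (deriv (deriv h)) := hd1.deriv
  have hp1 : ∀ z, deriv h (z + 2 * π) = deriv h z :=
    kf3_deriv_per 0 (fun z => by rw [hp, add_zero])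
  have hp2 : ∀ z, deriv (deriv h) (z + 2 * π) = deriv (deriv h) z :=
    kf3_deriv_per 0 (fun z => by rw [hp1, add_zero])
  have hr1 := kf3_deriv_rs hrs
  have hr2 := kf3_deriv_rs hr1
  have hg1 : HP R (deriv g) := ⟨hgd.deriv (isOpen_strip R), kf3_deriv_per _ hgp,
    kf3_deriv_rs hgr⟩
  have s1 : ∀ z : ℂ, z + 2 * π + ω = z + ω + 2 * π := fun z => by ring
  have s2 : ∀ z : ℂ, z + 2 * π - ω = z - ω + 2 * π := fun z => by ring
  have hψd : DifferentiableOn ℂ (fun z => (g z + g (z + ω)) / 2) (Strip R) :=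
    (hgd.add (kf3_diff_shift hgd ω)).div_const 2
  have hψp : ∀ z, (fun z => (g z + g (z + ω)) / 2) (z + 2 * π) =
      (fun z => (g z + g (z + ω)) / 2) z + 2 * π := by
    intro z
    simp only
    rw [s1, hgp, hgp]; ring
  have hψr : ∀ z, (fun z => (g z + g (z + ω)) / 2) (starRingEnd ℂ z) =
      starRingEnd ℂ ((fun z => (g z + g (z + ω)) / 2) z) := by
    intro z
    simp only
    rw [kf3_conj_add, hgr, hgr, map_div₀, map_add]
    congr 1
    exact (Complex.conj_ofNat 2).symm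
  have hψd' : DifferentiableOn ℂ (fun z => (g (z - ω) + g z) / 2) (Strip R) :=
    ((kf3_diff_shift' hgd ω).add hgd).div_const 2
  have hψp' : ∀ z, (fun z => (g (z - ω) + g z) / 2) (z + 2 * π) =
      (fun z => (g (z - ω) + g z) / 2) z + 2 * π := by
    intro z
    simp only
    rw [s2, hgp, hgp]; ring
  have hψr' : ∀ z, (fun z => (g (z - ω) + g z) / 2) (starRingEnd ℂ z) =
      starRingEnd ℂ ((fun z => (g (z - ω) + g z) / 2) z) := by
    intro z
    simp only
    rw [kf3_conj_sub, hgr, hgr, map_div₀, map_add]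
    congr 1
    exact (Complex.conj_ofNat 2).symm
  have hδ : HP R (fun z => (g (z + ω) - g z) / 2) := by
    refine ⟨((kf3_diff_shift hgd ω).sub hgd).div_const 2, ?_, ?_⟩
    · intro z
      rw [s1, hgp, hgp]; ring
    · intro z
      rw [kf3_conj_add, hgr, hgr, map_div₀, map_sub]
      congr 1
      exact (Complex.conj_ofNat 2).symm
  have hδ' : HP R (fun z => (g z - g (z - ω)) / 2) := by
    refine ⟨(hgd.sub (kf3_diff_shift' hgd ω)).div_const 2, ?_, ?_⟩
    · intro z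
      rw [s2, hgp, hgp]; ring
    · intro z
      rw [kf3_conj_sub, hgr, hgr, map_div₀, map_sub]
      congr 1
      exact (Complex.conj_ofNat 2).symm
  have hsin := fun w (hw : HP R w) => kf3_hp_ent (φ := Complex.sin) Complex.differentiable_sin
    (fun z => Complex.sin_conj z) hw
  have hcos := fun w (hw : HP R w) => kf3_hp_ent (φ := Complex.cos) Complex.differentiable_cos
    (fun z => Complex.cos_conj z) hw
  constructor
  · unfold FF PP RR Sx Sy
    exact hp_add (hp_mul hg1 (hp_sub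
      (hp_mul (kf3_hp_comp hd1 hp1 hr1 hψd hψp hψr) (hsin _ hδ))
      (hp_mul (kf3_hp_comp hd hp hrs hψd hψp hψr) (hcos _ hδ))))
      (hp_mul hg1 (hp_add
      (hp_mul (kf3_hp_comp hd1 hp1 hr1 hψd' hψp' hψr') (hsin _ hδ'))
      (hp_mul (kf3_hp_comp hd hp hrs hψd' hψp' hψr') (hcos _ hδ'))))
  · have h3 := hp_mul (hp_add (kf3_hp_comp hd hp hrs hgd hgp hgr)
      (kf3_hp_comp hd2 hp2 hr2 hgd hgp hgr)) (hp_mul hg1 (hp_mul hg1 hg1))
    have : (fun z => (h (g z) + deriv (deriv h) (g z)) * deriv g z ^ 3) =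
        fun z => (h (g z) + deriv (deriv h) (g z)) * (deriv g z * (deriv g z * deriv g z)) := by
      funext z; ring
    rw [this]
    exact h3

theorem kf3_fc_const (c : ℂ) : fc (fun _ => c) 0 = c := by
  unfold fc
  have : (fun t : ℝ => c * Complex.exp (-(((0 : ℤ) : ℂ) * t * Complex.I))) = fun _ => c := by
    funext t
    simp
  rw [this, intervalIntegral.integral_const]
  have hpi : (π : ℂ) ≠ 0 := Complex.ofReal_ne_zero.2 Real.pi_ne_zero
  rw [sub_zero, Complex.real_smul]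
  push_cast
  field_simp

theorem uu_expand {h g₀ : ℂ → ℂ} {R r γ : ℝ} (hr : 0 < r) (hrR : r < R) (hγ : 0 < γ) (hγ1 : γ ≤ 1)
    (hd : Differentiable ℂ h) (hp : ∀ z, h (z + 2 * π) = h z)
    (hrs : ∀ z, h (starRingEnd ℂ z) = starRingEnd ℂ (h z)) (hg : HP R (fun z => g₀ z - z)) :
    ∃ C' : ℝ, ∀ Nb ω : ℝ, 1 ≤ Nb → Rot γ Nb ω →
      Bd r (fun z => uu h g₀ ω ω z - ω ^ 2 / 12 *
        ((h (g₀ z) + deriv (deriv h) (g₀ z)) * deriv g₀ z ^ 3 -
          fc (fun z => (h (g₀ z) + deriv (deriv h) (g₀ z)) * deriv g₀ z ^ 3) 0)) (C' / Nb ^ 3) := by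
  have hgd : DifferentiableOn ℂ g₀ (Strip R) := by
    have := hg.hol.add differentiableOn_id
    refine this.congr (fun z _ => ?_)
    show g₀ z = g₀ z - z + z
    ring
  have hgp : ∀ z, g₀ (z + 2 * π) = g₀ z + 2 * π := by
    intro z
    have := hg.per z
    linear_combination this
  have hgr : ∀ z, g₀ (starRingEnd ℂ z) = starRingEnd ℂ (g₀ z) := by
    intro z
    have := hg.rs z
    rw [map_sub] at this
    linear_combination this
  set Θ : ℂ → ℂ := fun z => (h (g₀ z) + deriv (deriv h) (g₀ z)) * deriv g₀ z ^ 3 with hΘdef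
  have hR : 0 < R := hr.trans hrR
  set r₁ := (r + R) / 2 with hr₁
  have hr₁R : r₁ < R := by rw [hr₁]; linarith
  have hr₁0 : 0 < r₁ := by rw [hr₁]; linarith
  set δ := (R - r) / 2 with hδ
  have hδ0 : 0 < δ := by rw [hδ]; linarith
  have hδr : δ < r₁ := by rw [hδ, hr₁]; linarith
  obtain ⟨M, hM0, hM⟩ := kf3_bound hr₁R hd hp hgd hgp
  obtain ⟨C, hC1, hC⟩ := invD_bd
  refine ⟨C / γ * (1 / δ + 1) * (M * 7 ^ 4), ?_⟩
  intro Nb ω hNb hRot
  have hNb0 : 0 < Nb := by linarith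
  have hω0 : 0 < ω := by
    by_contra hcon
    push Not at hcon
    have := mul_nonpos_of_nonpos_of_nonneg hcon hNb0.le
    linarith [hRot.lo]
  have hω7 : ω ≤ 7 := by
    have h1 := hRot.hi
    nlinarith
  have hω4 : ω ^ 4 ≤ 7 ^ 4 / Nb ^ 4 := by
    rw [le_div_iff₀ (by positivity), ← mul_pow]
    exact pow_le_pow_left₀ (by positivity) hRot.hi 4
  obtain ⟨hFF, hΘ⟩ := kf3_hp_FF hd hp hrs hgd hgp hgr ω
  have hΘ' : HP R Θ := hΘ
  -- the two parts
  set D : ℂ → ℂ := fun z => Θ (z + ω) - Θ z with hD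
  have hDhp : HP R D := hp_sub (hp_shift hΘ' ω) hΘ'
  set E : ℂ → ℂ := fun z => kf3F h g₀ (z + ω) ω with hE
  have hEeq : ∀ z, E z = FF h g₀ ω (z + ω) - ((ω : ℂ) ^ 2 / 12) * D z := by
    intro z
    rw [hE, hD, hΘdef]
    simp only
    unfold kf3F FF PP RR
    rw [add_sub_cancel_right]
  set κ : ℝ := ω ^ 2 / 12 with hκ
  have hκc : ((ω : ℂ) ^ 2 / 12) = (κ : ℂ) := by
    rw [hκ]; push_cast; ring
  have hκD : HP R (fun z => (κ : ℂ) * D z) := hp_mul (hp_const R κ) hDhp
  have hEhp : HP R E := by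
    have h1 := hp_sub (hp_shift hFF ω) hκD
    have h2 : E = fun z => FF h g₀ ω (z + ω) - (κ : ℂ) * D z := by
      funext z; rw [hEeq, hκc]
    rw [h2]
    exact h1
  have hfcD : fc D 0 = 0 := by
    have h1 : D = fun z => Θ (z + ω) + (-1 : ℂ) * Θ z := by
      funext z; rw [hD]; ring
    have h2 : HP R (fun z => (-1 : ℂ) * Θ z) := by
      have := hp_mul (hp_const R (-1)) hΘ'
      simpa using this
    rw [h1, fc_add (hp_shift hΘ' ω) h2 hR, fc_translate hΘ' hR, fc_smul]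
    simp
  have hcre : fc Θ 0 = ((fc Θ 0).re : ℂ) := by
    have h1 := fc_neg hΘ' 0
    rw [neg_zero] at h1
    exact (Complex.conj_eq_iff_re.1 h1.symm).symm
  have huhp : HP R (fun z => Θ z - fc Θ 0) := by
    rw [hcre]
    exact hp_sub hΘ' (hp_const R _)
  have hu0 : fc (fun z => Θ z - fc Θ 0) 0 = 0 := by
    have h1 : (fun z => Θ z - fc Θ 0) = fun z => Θ z + (((-(fc Θ 0).re : ℝ)) : ℂ) := by
      funext z
      rw [sub_eq_add_neg, Complex.ofReal_neg, ← hcre]
    rw [h1, fc_add hΘ' (hp_const R _) hR, kf3_fc_const, Complex.ofReal_neg, ← hcre]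
    ring
  have hinvD : ∀ z ∈ Strip R, invD ω D z = Θ z - fc Θ 0 := by
    intro z hz
    refine invD_unique hDhp hR hγ hNb hRot huhp hu0 ?_ hz
    intro z _
    rw [hfcD, hD]
    ring
  have huu : ∀ z ∈ Strip R, uu h g₀ ω ω z = (ω : ℂ) ^ 2 / 12 * (Θ z - fc Θ 0) + invD ω E z := by
    intro z hz
    have h1 : uu h g₀ ω ω = invD ω (fun z => (κ : ℂ) * D z + E z) := by
      unfold uu
      congr 1
      funext z
      rw [hEeq, hκc]
      ring
    rw [h1, invD_add hκD hEhp hR hγ hNb hRot hz, invD_smul, hinvD z hz, hκc]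
  have hEbd : Bd r₁ E (M * ω ^ 4) := by
    intro z hz
    exact hM (z + ω) (kf3_strip_shift hz ω) ω hω0.le hω7
  have hEhp₁ : HP r₁ E := hp_mono hEhp hr₁R.le
  have hbd := hC r₁ δ (M * ω ^ 4) γ Nb ω E hδ0 hδr hγ hγ1 hNb (by positivity) hRot hEhp₁
    (hn_of_bd hEhp₁ hEbd)
  intro z hz
  have hzR : z ∈ Strip R := lt_trans (show |z.im| < r from hz) hrR
  have hzr : z ∈ Strip (r₁ - δ) := by
    show |z.im| < r₁ - δ
    have : r₁ - δ = r := by rw [hr₁, hδ]; ring
    rw [this]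
    exact hz
  have h1 := hbd z hzr
  show ‖uu h g₀ ω ω z - (ω : ℂ) ^ 2 / 12 * (Θ z - fc Θ 0)‖ ≤ _
  rw [huu z hzR, add_sub_cancel_left]
  refine h1.trans ?_
  have hCγ : 0 < C / γ := by positivity
  have h2 : 1 / δ + Nb ≤ (1 / δ + 1) * Nb := by
    have : 0 < 1 / δ := by positivity
    nlinarith
  calc C / γ * (1 / δ + Nb) * (M * ω ^ 4)
      ≤ C / γ * ((1 / δ + 1) * Nb) * (M * (7 ^ 4 / Nb ^ 4)) := by
        gcongr
    _ = C / γ * (1 / δ + 1) * (M * 7 ^ 4) / Nb ^ 3 := by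
        field_simp

end Pool.Agent.MP_b87ea9_an.Kam
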