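import Mathlib
import Pool.Agent.Lib.MP_b87ea9_an.KDefs
import Pool.Agent.Lib.MP_b87ea9_an.KDefs2
import Pool.Agent.Lib.MP_b87ea9_an.KDefs3
import Pool.Agent.Lib.MP_b87ea9_an.KC1
import Pool.Agent.Lib.MP_b87ea9_an.KA3
import Pool.Agent.Lib.MP_b87ea9_an.KF2
import Pool.Agent.Lib.MP_b87ea9_an.KF3

set_option autoImplicit false

/-! The initial state -/

namespace Pool.Agent.MP_b87ea9_an.Kam

open Real MeasureTheory

theorem start_entire {g : ℂ → ℂ} (hg : ∀ R : ℝ, HP R (fun z => g z - z)) :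
    Differentiable ℂ g := by
  have h1 : Differentiable ℂ (fun z => g z - z) := by
    intro z
    have hz : z ∈ Strip (|z.im| + 1) := by
      simp only [Strip, Set.mem_ofPred_eq]; linarith
    exact ((hg (|z.im| + 1)).hol z hz).differentiableAt ((isOpen_strip _).mem_nhds hz)
  have h2 : g = fun z => (g z - z) + z := by funext z; ring
  rw [h2]
  exact h1.add differentiable_id

theorem start_deriv_entire {f : ℂ → ℂ} (hf : Differentiable ℂ f) : Differentiable ℂ (deriv f) := by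
  rw [← differentiableOn_univ]
  exact hf.differentiableOn.deriv isOpen_univ

theorem start_per {g : ℂ → ℂ} (hg : ∀ R : ℝ, HP R (fun z => g z - z)) (z : ℂ) :
    g (z + 2 * π) = g z + 2 * π := by
  have := (hg 1).per z
  linear_combination this

theorem start_dper {g : ℂ → ℂ} (hg : ∀ R : ℝ, HP R (fun z => g z - z)) (z : ℂ) :
    deriv g (z + 2 * π) = deriv g z := by
  have h1 : (fun w => g (w + 2 * π)) = fun w => g w + 2 * π := funext (start_per hg)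
  have h2 := deriv_comp_add_const g (2 * π : ℂ) z
  rw [← h2, h1, deriv_add_const]

theorem start_ddper {g : ℂ → ℂ} (hg : ∀ R : ℝ, HP R (fun z => g z - z)) (z : ℂ) :
    deriv (deriv g) (z + 2 * π) = deriv (deriv g) z := by
  have h1 : (fun w => deriv g (w + 2 * π)) = fun w => deriv g w := funext (start_dper hg)
  have h2 := deriv_comp_add_const (deriv g) (2 * π : ℂ) z
  rw [← h2, h1]

theorem start_theta_hp {h g : ℂ → ℂ} (hd : Differentiable ℂ h) (hp : ∀ z, h (z + 2 * π) = h z)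
    (hrs : ∀ z, h (starRingEnd ℂ z) = starRingEnd ℂ (h z))
    (hg : ∀ R : ℝ, HP R (fun z => g z - z)) (r : ℝ) :
    HP r (fun z => (h (g z) + deriv (deriv h) (g z)) * deriv g z ^ 3) := by
  have gd := start_entire hg
  have hgper := start_per hg
  have hgrs : ∀ z, g (starRingEnd ℂ z) = starRingEnd ℂ (g z) := fun z => by
    have := (hg 1).rs z
    simp only [map_sub] at this
    linear_combination this
  have hdg : ∀ z, deriv (fun z => g z - z) z = deriv g z - 1 := fun z => by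
    rw [deriv_fun_sub (gd z) differentiableAt_fun_id, deriv_id'']
  have h1 := hp_deriv (hg 1)
  have dgrs : ∀ z, deriv g (starRingEnd ℂ z) = starRingEnd ℂ (deriv g z) := fun z => by
    have := h1.rs z
    rw [hdg, hdg] at this
    simp only [map_sub, map_one] at this
    linear_combination this
  have hh : HP 1 h := ⟨hd.differentiableOn, hp, hrs⟩
  have h2 := hp_deriv (hp_deriv hh)
  have d2 : Differentiable ℂ (deriv (deriv h)) := start_deriv_entire (start_deriv_entire hd)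
  refine ⟨?_, ?_, ?_⟩
  · exact (((hd.comp gd).add (d2.comp gd)).mul ((start_deriv_entire gd).pow 3)).differentiableOn
  · intro z
    simp only [hgper, hp, h2.per, start_dper hg]
  · intro z
    simp only [hgrs, hrs, h2.rs, dgrs, map_mul, map_add, map_pow]

theorem start_fc_const (c : ℂ) : fc (fun _ => c) 0 = c := by
  have h2 : (π : ℂ) ≠ 0 := by exact_mod_cast Real.pi_ne_zero
  simp [fc]
  field_simp

theorem start_fc_near {f : ℂ → ℂ} {r M κ : ℝ} (hf : HP r f) (hr : 0 < r)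
    (hM : ∀ t : ℝ, ‖f t - κ‖ ≤ M) : ‖fc f 0 - κ‖ ≤ M := by
  have h1 : HP r (fun _ => ((-κ : ℝ) : ℂ)) := hp_const r (-κ)
  have h2 : HP r (fun z => f z + ((-κ : ℝ) : ℂ)) := hp_add hf h1
  have h3 := fc_add hf h1 hr 0
  rw [start_fc_const] at h3
  have h4 := norm_fc_zero_le h2 hr (M := M) (fun t => by
    have := hM t
    simpa [sub_eq_add_neg] using this)
  rw [h3] at h4
  simpa [sub_eq_add_neg] using h4

theorem start_unif {φ : ℝ → ℂ} (hc : Continuous φ) (hp : ∀ t, φ (t + 2 * π) = φ t) {ε : ℝ}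
    (hε : 0 < ε) : ∃ δ : ℝ, 0 < δ ∧ ∀ t ω : ℝ, |ω| < δ → ‖φ (t + ω) - φ t‖ ≤ ε := by
  have hu : UniformContinuousOn φ (Set.Icc (-1) (2 * π + 1)) :=
    isCompact_Icc.uniformContinuousOn_of_continuous hc.continuousOn
  rw [Metric.uniformContinuousOn_iff] at hu
  obtain ⟨δ, hδ, hu⟩ := hu ε hε
  refine ⟨min δ 1, lt_min hδ one_pos, fun t ω hω => ?_⟩
  have hω1 : |ω| < δ := lt_of_lt_of_le hω (min_le_left _ _)
  have hω2 := abs_lt.mp (lt_of_lt_of_le hω (min_le_right _ _))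
  have hψ : Function.Periodic (fun t => φ (t + ω) - φ t) (2 * π) := by
    intro s
    have h1 : s + 2 * π + ω = (s + ω) + 2 * π := by ring
    simp only [h1, hp]
  obtain ⟨y, hy, hty⟩ := hψ.exists_mem_Ico₀ (by positivity : 0 < 2 * π) t
  have h2 : φ (t + ω) - φ t = φ (y + ω) - φ y := hty
  rw [h2]
  have := hu (y + ω) ⟨by linarith [hy.1], by linarith [hy.2]⟩ y ⟨by linarith [hy.1], by linarith [hy.2]⟩
    (by rw [dist_eq_norm]; simpa using hω1)
  rw [dist_eq_norm] at this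
  exact this.le

theorem start {K₀ γ : ℝ} {c : ℤ → ℂ} {h : ℝ → ℝ} (hγ : 0 < γ) (hγ1 : γ ≤ 1) (hc : Table K₀ c)
    (hs : ContDiff ℝ 4 h)
    (hh : ∀ x : ℝ, HasSum (fun n : ℤ => c n * Complex.exp (n * x * Complex.I)) (h x : ℂ)) :
    ∃ K : ℝ, 10 * K₀ ≤ K ∧ ∃ (C : ℝ) (N₁ : ℕ), 1 ≤ C ∧ ∀ Ns : ℕ, N₁ ≤ Ns → ∃ g₀ : ℂ → ℂ,
      (∀ t : ℝ, 2 / K ≤ (deriv g₀ t).re ∧ (deriv g₀ t).re ≤ K / 2) ∧
      ∀ ε : ℝ, 0 < ε → ∃ Nb₁ : ℝ, ∀ Nb ω σ : ℝ, Nb₁ ≤ Nb → Rot γ Nb ω → 0 ≤ σ →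
        Pre K γ Ns Nb (C / Ns) ω (trunc c Ns) g₀ ω σ (C * (Ns : ℝ) ^ (-(1 / 2) : ℝ) + ε) C (C / Ns) ∧
        (∀ t : ℝ, ‖deriv g₀ (t + ω) - deriv g₀ t‖ ≤ ε) ∧
        (∀ t : ℝ, ‖deriv (deriv g₀) (t + ω) / deriv g₀ (t + ω) -
          deriv (deriv g₀) t / deriv g₀ t‖ ≤ ε) := by
  obtain ⟨K, hKK, C₀, N₁, hC₀, hst⟩ := start_lines hc hs hh
  obtain ⟨N₀, htb⟩ := tb_trunc hc
  obtain ⟨C₁, hC₁, hqq⟩ := qq_bounds K
  obtain ⟨C₂, hC₂, hinv⟩ := invD_bd
  have hK1 : 1 ≤ K := by have := hc.K1; linarith only [hKK, this]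
  have hcr : 0 < cr K := by unfold cr; positivity
  have hD : 0 ≤ C₂ / γ * C₁ := by positivity
  obtain ⟨C, hCdef⟩ : ∃ C : ℝ, C = 9 * C₀ + 2 * (C₂ / γ * C₁) * (1 + C₀) := ⟨_, rfl⟩
  have hCC0 : 9 * C₀ ≤ C := by rw [hCdef]; nlinarith only [hC₀, hD]
  have hCV : 2 * (C₂ / γ * C₁) ≤ C := by rw [hCdef]; nlinarith only [hC₀, hCdef, hCC0]
  have hCV1 : 2 * (C₂ / γ * C₁) * (1 + C₀) ≤ C := by rw [hCdef]; linarith only [hC₀]
  have hC1 : 1 ≤ C := by linarith only [hC₀, hCC0]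
  refine ⟨K, hKK, C, max N₁ (max N₀ (max 1 ⌈C⌉₊)), hC1, fun Ns hNs => ?_⟩
  have hN1 : N₁ ≤ Ns := le_trans (le_max_left _ _) hNs
  have hN2 := le_trans (le_max_right _ _) hNs
  have hN3 : N₀ ≤ Ns := le_trans (le_max_left _ _) hN2
  have hN4 := le_trans (le_max_right _ _) hN2
  have hN5 : 1 ≤ Ns := le_trans (le_max_left _ _) hN4
  have hN6 : ⌈C⌉₊ ≤ Ns := le_trans (le_max_right _ _) hN4
  have hNR : (1 : ℝ) ≤ (Ns : ℝ) := by exact_mod_cast hN5
  have hNC : C ≤ (Ns : ℝ) := le_trans (Nat.le_ceil C) (by exact_mod_cast hN6)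
  have hN0 : (0 : ℝ) < (Ns : ℝ) := by linarith only [hNR]
  have tb : Tb K Ns (trunc c Ns) := htb K hKK Ns hN3
  obtain ⟨g₀, hHP, hGS, hre, κ₀, hΘ⟩ := hst Ns hN1
  refine ⟨g₀, hre, fun ε hε => ?_⟩
  have gd := start_entire hHP
  have dgd := start_deriv_entire gd
  have ddgd := start_deriv_entire dgd
  -- uniform continuity of `g₀'` and `g₀''/g₀'` on the real line
  obtain ⟨δ₁, hδ₁, hu1⟩ := start_unif (φ := fun t : ℝ => deriv g₀ t)
    (dgd.continuous.comp Complex.continuous_ofReal)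
    (fun t => by
      have := start_dper hHP (t : ℂ)
      push_cast
      exact this) hε
  have hne : ∀ t : ℝ, deriv g₀ t ≠ 0 := by
    intro t h0
    have := (hre t).1
    rw [h0] at this
    have h2 : 0 < 2 / K := by positivity
    simp at this
    linarith only [this, h2]
  obtain ⟨δ₂, hδ₂, hu2⟩ := start_unif (φ := fun t : ℝ => deriv (deriv g₀) t / deriv g₀ t)
    ((ddgd.continuous.comp Complex.continuous_ofReal).div
      (dgd.continuous.comp Complex.continuous_ofReal) hne)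
    (fun t => by
      have h1 := start_dper hHP (t : ℂ)
      have h2 := start_ddper hHP (t : ℂ)
      push_cast
      rw [h1, h2]) hε
  have hr : 0 < 2 * cr K / Ns := by positivity
  have hr4 : 0 < 4 * cr K / Ns := by positivity
  obtain ⟨C', hC'⟩ := uu_expand (h := trunc c Ns) (g₀ := g₀) (R := 2 * cr K / Ns + 1)
    (r := 2 * cr K / Ns) (γ := γ) hr (by linarith only [hr4]) hγ hγ1 tb.hol tb.per tb.rs (hHP _)
  refine ⟨10 ^ 4 * K ^ 4 + Ns + Ns / (2 * cr K) + |C'| * Ns / ε + 8 / δ₁ + 8 / δ₂,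
    fun Nb ω σ hNb hR hσ => ?_⟩
  have e1 : 0 ≤ 10 ^ 4 * K ^ 4 := by positivity
  have e3 : 0 ≤ Ns / (2 * cr K) := by positivity
  have e4 : 0 ≤ |C'| * Ns / ε := by positivity
  have e5 : 0 ≤ 8 / δ₁ := by positivity
  have e6 : 0 ≤ 8 / δ₂ := by positivity
  have f1 : 10 ^ 4 * K ^ 4 ≤ Nb := by linarith only [hNb, e3, e4, e5, e6]
  have f2 : (Ns : ℝ) ≤ Nb := by linarith only [hNb, e1, e3, e4, e5, e6]
  have f3 : Ns / (2 * cr K) ≤ Nb := by linarith only [hNb, e1, e4, e5, e6]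
  have f4 : |C'| * Ns / ε ≤ Nb := by linarith only [hNb, e1, e3, e5, e6]
  have f5 : 8 / δ₁ ≤ Nb := by linarith only [hNb, e1, e3, e4, e6]
  have f6 : 8 / δ₂ ≤ Nb := by linarith only [hNb, e1, e3, e4, e5]
  have hNb1 : 1 ≤ Nb := by linarith only [hNR, f2]
  have hNb0 : 0 < Nb := by linarith only [hNb1]
  have hmax : max (Ns : ℝ) Nb = Nb := max_eq_right f2
  have hω0 : 0 < ω := by
    by_contra hneg
    exact absurd (hR.lo.trans (mul_nonpos_of_nonpos_of_nonneg (not_lt.mp hneg) hNb0.le)) (by norm_num)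
  have hω7 : ω ≤ 7 / Nb := by
    rw [le_div_iff₀ hNb0]; exact hR.hi
  have hgs : GS K Ns (C / Ns) g₀ := by
    refine ⟨hGS.hp, hGS.lo, hGS.hi, fun z hz => le_trans (hGS.g2 z hz) ?_⟩
    rw [mul_div_cancel₀ _ hN0.ne', mul_div_cancel₀ _ hN0.ne']
    linarith only [hD, hCC0, hCV]
  have ctx0 : Ctx K γ Ns Nb (C₀ / Ns) ω (trunc c Ns) g₀ :=
    ⟨hK1, hγ, hγ1, hNR, f1, by positivity, by rw [div_le_one hN0]; linarith only [hCC0, hNC], hR.lo, hR.hi, tb, hGS⟩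
  have ctx : Ctx K γ Ns Nb (C / Ns) ω (trunc c Ns) g₀ :=
    ⟨hK1, hγ, hγ1, hNR, f1, by positivity, by rw [div_le_one hN0]; linarith only [hNC], hR.lo, hR.hi, tb, hgs⟩
  obtain ⟨q1, q2, q3, q4⟩ := hqq ctx0
  have hwid : 4 * cr K / Ns - 2 * cr K / Ns = 2 * cr K / Ns := by ring
  have hlt : 2 * cr K / Ns < 4 * cr K / Ns := by
    rw [div_lt_div_iff_of_pos_right hN0]; linarith only [hcr]
  have hinvw : 1 / (2 * cr K / Ns) ≤ Nb := by
    rw [one_div_div]; exact f3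
  have hC20 : 0 ≤ C₂ / γ := by positivity
  -- bound of `vv`
  have bv : Bd (2 * cr K / Ns) (vv (trunc c Ns) g₀ ω ω) (max (Ns : ℝ) Nb * C) := by
    have h1 := hinv (4 * cr K / Ns) (2 * cr K / Ns) C₁ γ Nb ω (qq (trunc c Ns) g₀ ω) hr hlt hγ hγ1
      hNb1 (by linarith only [hC₁]) hR q1 (hn_of_bd q1 q3)
    rw [hwid] at h1
    intro z hz
    refine le_trans (h1 z hz) ?_
    rw [hmax]
    calc C₂ / γ * (1 / (2 * cr K / Ns) + Nb) * C₁ ≤ C₂ / γ * (Nb + Nb) * C₁ := by gcongr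
      _ = Nb * (2 * (C₂ / γ * C₁)) := by ring
      _ ≤ Nb * C := by gcongr
  have q4' : Bd (4 * cr K / Ns) (deriv (qq (trunc c Ns) g₀ ω)) (C₁ * (1 + C₀)) := by
    intro z hz
    have := q4 z hz
    rwa [mul_div_cancel₀ _ hN0.ne'] at this
  have bv1 : Bd (2 * cr K / Ns) (deriv (vv (trunc c Ns) g₀ ω ω))
      (Ns * max (Ns : ℝ) Nb * (C / Ns)) := by
    have hq := hp_deriv q1
    have h1 := hinv (4 * cr K / Ns) (2 * cr K / Ns) (C₁ * (1 + C₀)) γ Nb ω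
      (deriv (qq (trunc c Ns) g₀ ω)) hr hlt hγ hγ1 hNb1 (by positivity) hR hq (hn_of_bd hq q4')
    rw [hwid] at h1
    intro z hz
    have hz4 : z ∈ Strip (4 * cr K / Ns) := by
      simp only [Strip, Set.mem_ofPred_eq] at hz ⊢; linarith only [hlt, hz]
    have h2 : deriv (vv (trunc c Ns) g₀ ω ω) z = invD ω (deriv (qq (trunc c Ns) g₀ ω)) z :=
      deriv_invD q1 hr4 hγ hNb1 hR hz4
    rw [h2]
    refine le_trans (h1 z hz) ?_
    rw [hmax]
    have h3 : (Ns : ℝ) * Nb * (C / Ns) = Nb * C := by field_simp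
    rw [h3]
    calc C₂ / γ * (1 / (2 * cr K / Ns) + Nb) * (C₁ * (1 + C₀))
        ≤ C₂ / γ * (Nb + Nb) * (C₁ * (1 + C₀)) := by gcongr
      _ = Nb * (2 * (C₂ / γ * C₁) * (1 + C₀)) := by ring
      _ ≤ Nb * C := by gcongr
  -- bound of `uu`
  have hpow : (Ns : ℝ) ^ (-(3 / 2) : ℝ) = (Ns : ℝ) ^ (-(1 / 2) : ℝ) / Ns := by
    rw [show (-(3 / 2) : ℝ) = -(1 / 2) - 1 by norm_num, Real.rpow_sub_one hN0.ne']
  have hS : 0 ≤ (Ns : ℝ) ^ (-(1 / 2) : ℝ) := by positivity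
  have bu : Bd (2 * cr K / Ns) (uu (trunc c Ns) g₀ ω ω)
      ((C * (Ns : ℝ) ^ (-(1 / 2) : ℝ) + ε) / (Nb * Ns * max (Ns : ℝ) Nb)) := by
    intro z hz
    have hz4 : z ∈ Strip (4 * cr K / Ns) := by
      simp only [Strip, Set.mem_ofPred_eq] at hz ⊢; linarith only [hlt, hz]
    have h1 := hC' Nb ω hNb1 hR z hz
    have h2 := hΘ z hz4
    have h3 : ‖fc (fun z => (trunc c Ns (g₀ z) + deriv (deriv (trunc c Ns)) (g₀ z)) *
        deriv g₀ z ^ 3) 0 - κ₀‖ ≤ C₀ * (Ns : ℝ) ^ (-(3 / 2) : ℝ) := by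
      refine start_fc_near (start_theta_hp tb.hol tb.per tb.rs hHP 1) one_pos (fun t => ?_)
      refine hΘ (t : ℂ) ?_
      simp only [Strip, Set.mem_ofPred_eq, Complex.ofReal_im, abs_zero]
      exact hr4
    simp only at h1 h2
    set Θ : ℂ := (trunc c Ns (g₀ z) + deriv (deriv (trunc c Ns)) (g₀ z)) * deriv g₀ z ^ 3 with hΘdef
    set m : ℂ := fc (fun z => (trunc c Ns (g₀ z) + deriv (deriv (trunc c Ns)) (g₀ z)) *
        deriv g₀ z ^ 3) 0 with hm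
    set S : ℝ := (Ns : ℝ) ^ (-(1 / 2) : ℝ) with hSdef
    rw [hpow] at h2 h3
    have h4 : ‖Θ - m‖ ≤ 2 * (C₀ * (S / Ns)) := by
      have : Θ - m = (Θ - κ₀) - (m - κ₀) := by ring
      rw [this]
      refine le_trans (norm_sub_le _ _) ?_
      linarith only [h3, h2]
    have h5 : ‖((ω : ℂ) ^ 2 / 12 * (Θ - m))‖ ≤ 49 / 12 * (2 * (C₀ * (S / Ns))) / Nb ^ 2 := by
      rw [norm_mul]
      have h6 : ‖((ω : ℂ) ^ 2 / 12)‖ = ω ^ 2 / 12 := by
        rw [norm_div, norm_pow, Complex.norm_real, Real.norm_of_nonneg hω0.le]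
        norm_num
      rw [h6]
      have h7 : ω ^ 2 ≤ (7 / Nb) ^ 2 := by gcongr
      calc ω ^ 2 / 12 * ‖Θ - m‖ ≤ (7 / Nb) ^ 2 / 12 * (2 * (C₀ * (S / Ns))) := by gcongr
        _ = 49 / 12 * (2 * (C₀ * (S / Ns))) / Nb ^ 2 := by ring
    have h8 : ‖uu (trunc c Ns) g₀ ω ω z‖ ≤ C' / Nb ^ 3 + 49 / 12 * (2 * (C₀ * (S / Ns))) / Nb ^ 2 := by
      have : uu (trunc c Ns) g₀ ω ω z = (uu (trunc c Ns) g₀ ω ω z - (ω : ℂ) ^ 2 / 12 * (Θ - m)) +
        (ω : ℂ) ^ 2 / 12 * (Θ - m) := by ring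
      rw [this]
      exact le_trans (norm_add_le _ _) (add_le_add h1 h5)
    refine le_trans h8 ?_
    rw [hmax]
    have h9 : C' / Nb ^ 3 ≤ ε / (Nb * Ns * Nb) := by
      rw [div_le_div_iff₀ (by positivity) (by positivity)]
      have h10 : |C'| * Ns ≤ Nb * ε := by rwa [div_le_iff₀ hε] at f4
      have h11 : C' * Ns ≤ Nb * ε := le_trans (by gcongr; exact le_abs_self C') h10
      calc C' * (Nb * Ns * Nb) = (C' * Ns) * Nb ^ 2 := by ring
        _ ≤ (Nb * ε) * Nb ^ 2 := by gcongr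
        _ = ε * Nb ^ 3 := by ring
    have h12 : 49 / 12 * (2 * (C₀ * (S / Ns))) / Nb ^ 2 ≤ (C * S) / (Nb * Ns * Nb) := by
      have : 49 / 12 * (2 * (C₀ * (S / Ns))) / Nb ^ 2 = (49 / 6 * C₀ * S) / (Nb * Ns * Nb) := by
        field_simp
        ring
      rw [this]
      gcongr
      linarith only [hCC0, hC1]
    rw [add_div]
    linarith only [h9, h12]
  refine ⟨⟨ctx, hR, hσ, by positivity, by linarith only [hC1], by positivity, ?_, bu, bv, bv1⟩, ?_, ?_⟩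
  · rw [sub_self, abs_zero]; positivity
  · intro t
    have h1 : |ω| < δ₁ := by
      rw [abs_of_pos hω0]
      rw [div_le_iff₀ hδ₁] at f5
      have hhi := hR.hi
      by_contra hcon
      have h9 : Nb * δ₁ ≤ Nb * ω := mul_le_mul_of_nonneg_left (not_lt.mp hcon) hNb0.le
      rw [mul_comm Nb ω] at h9
      exact absurd (f5.trans (h9.trans hhi)) (by norm_num)
    have := hu1 t ω h1
    push_cast at this
    exact this
  · intro t
    have h1 : |ω| < δ₂ := by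
      rw [abs_of_pos hω0]
      rw [div_le_iff₀ hδ₂] at f6
      have hhi := hR.hi
      by_contra hcon
      have h9 : Nb * δ₂ ≤ Nb * ω := mul_le_mul_of_nonneg_left (not_lt.mp hcon) hNb0.le
      rw [mul_comm Nb ω] at h9
      exact absurd (f6.trans (h9.trans hhi)) (by norm_num)
    have := hu2 t ω h1
    push_cast at this
    exact this

end Pool.Agent.MP_b87ea9_an.Kam
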