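import Mathlib
import Pool.Agent.Lib.MP_b87ea9_an.KDefs
import Pool.Agent.Lib.MP_b87ea9_an.KDefs2
import Pool.Agent.Lib.MP_b87ea9_an.KDefs3
import Pool.Agent.Lib.MP_b87ea9_an.KDefs4
import Pool.Agent.Lib.MP_b87ea9_an.KB1
import Pool.Agent.Lib.MP_b87ea9_an.KD1
import Pool.Agent.Lib.MP_b87ea9_an.KD2
import Pool.Agent.Lib.MP_b87ea9_an.KE2
import Pool.Agent.Lib.MP_b87ea9_an.KE3
import Pool.Agent.Lib.MP_b87ea9_an.KE4
import Pool.Agent.Lib.MP_b87ea9_an.KE5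
import Pool.Agent.Lib.MP_b87ea9_an.KE6
import Pool.Agent.Lib.MP_b87ea9_an.KE7
import Pool.Agent.Lib.MP_b87ea9_an.KF4
import Pool.Agent.Lib.MP_b87ea9_an.KC3

set_option autoImplicit false

/-! The KAM theorem -/

namespace Pool.Agent.MP_b87ea9_an.Kam

open Real MeasureTheory

lemma ke8_lev_mono {K γ A σ : ℝ} {c : ℤ → ℂ} {Nb : ℝ} {N : ℕ} {g : ℂ → ℂ}
    {ω ω' X V S D T X' V' S' D' T' : ℝ} (h : Lev K γ A σ c Nb N g ω ω' X V S D T)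
    (hA : 0 ≤ A) (hX : X ≤ X') (hX1 : A * X' ≤ 1) (hV : V ≤ V') (hS : S ≤ S') (hD : D ≤ D')
    (hT : T ≤ T') : Lev K γ A σ c Nb N g ω ω' X' V' S' D' T' := by
  obtain ⟨⟨ctx, rot', σ0, υ0, V00, V10, dom, bu, bv, bv1⟩, rot, xN, lo, hi, dD, dT⟩ := h
  obtain ⟨K1, γ0, γ1, N1, Nb1, J0, J1, lo', hi', tb, gs⟩ := ctx
  have hAX : A * X ≤ A * X' := mul_le_mul_of_nonneg_left hX hA
  have hK0 : 0 < K := by linarith
  have hN0 : (0 : ℝ) < N := by linarith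
  have hNb0 : (0 : ℝ) < Nb := by
    have : (0 : ℝ) < 10 ^ 4 * K ^ 4 := by positivity
    linarith
  have hm : 0 < max (N : ℝ) Nb := lt_max_of_lt_left hN0
  refine ⟨⟨⟨K1, γ0, γ1, N1, Nb1, le_trans J0 hAX, hX1, lo', hi', tb, ⟨gs.hp, gs.lo, gs.hi, ?_⟩⟩,
    rot', σ0, le_trans υ0 hX, le_trans V00 hV, le_trans V10 hAX, dom, ?_, ?_, ?_⟩, rot,
    le_trans xN hX, ?_, ?_, fun t => le_trans (dD t) hD, fun t => le_trans (dT t) hT⟩
  · intro z hz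
    exact le_trans (gs.g2 z hz) (mul_le_mul_of_nonneg_left hAX hN0.le)
  · intro z hz
    refine le_trans (bu z hz) ?_
    gcongr
  · intro z hz
    exact le_trans (bv z hz) (mul_le_mul_of_nonneg_left hV hm.le)
  · intro z hz
    exact le_trans (bv1 z hz) (mul_le_mul_of_nonneg_left hAX (by positivity))
  · intro t
    refine le_trans ?_ (lo t)
    gcongr
  · intro t
    refine le_trans (hi t) ?_
    gcongr

lemma ke8_X_nonneg {K γ A σ : ℝ} {c : ℤ → ℂ} {Nb : ℝ} {N : ℕ} {g : ℂ → ℂ}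
    {ω ω' X V S D T : ℝ} (h : Lev K γ A σ c Nb N g ω ω' X V S D T) : 0 ≤ X ∧ 0 ≤ V ∧ 0 ≤ D ∧ 0 ≤ T :=
  ⟨h.pre.υ0, h.pre.V00, le_trans (norm_nonneg _) (h.dD 0), le_trans (norm_nonneg _) (h.dT 0)⟩


lemma ke8_adv_mono {K γ Vb A σ x x' C C' : ℝ} {Q N₁ N₁' : ℕ} {c : ℤ → ℂ}
    (h : Adv K γ Vb A σ x C Q N₁ c) (hA : 1 ≤ A) (hx : x' ≤ x) (hC0 : 0 ≤ C) (hC : C ≤ C')
    (hN : N₁ ≤ N₁') : Adv K γ Vb A σ x' C' Q N₁' c := by
  intro N hN' Nb ω ω' ω'' X V S D T φ g hL hX hV hS hSX hr hd hφ hAφ hb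
  obtain ⟨hX0, hV0, hD0, hT0⟩ := ke8_X_nonneg hL
  have hσ := hL.pre.σ0
  have hN1 : (1 : ℝ) ≤ N := hL.pre.ctx.N1
  have hN0 : (0 : ℝ) < N := by linarith
  have hm : (0 : ℝ) < max (N : ℝ) Nb := lt_max_of_lt_left hN0
  have hm2 : (0 : ℝ) ≤ max ((Q * N : ℕ) : ℝ) Nb := le_max_of_le_left (by positivity)
  have hφ1 : 0 ≤ φ + 1 / (N : ℝ) := by positivity
  have h1 : X / 2 + C * (φ + 1 / (N : ℝ)) ≤ X / 2 + C' * (φ + 1 / (N : ℝ)) := by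
    have := mul_le_mul_of_nonneg_right hC hφ1
    linarith
  have h2 : C * X ≤ C' * X := mul_le_mul_of_nonneg_right hC hX0
  have h3 : A * (X / 2 + C * (φ + 1 / (N : ℝ))) ≤ 1 :=
    le_trans (mul_le_mul_of_nonneg_left h1 (by linarith)) hAφ
  refine ke8_lev_mono (h N (le_trans hN hN') Nb ω ω' ω'' X V S D T φ g hL (le_trans hX hx) hV hS
    (by linarith) hr hd hφ h3 hb) (by linarith) h1 hAφ ?_ (by linarith) ?_ ?_
  · refine mul_le_mul_of_nonneg_left ?_ (by positivity)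
    have := mul_le_mul_of_nonneg_right h2 hV0
    linarith only [this, h2]
  · have h4 := mul_le_mul_of_nonneg_right h2 hD0
    have h5 : C * (σ + X) / max (N : ℝ) Nb ≤ C' * (σ + X) / max (N : ℝ) Nb :=
      div_le_div_of_nonneg_right (mul_le_mul_of_nonneg_right hC (by linarith)) hm.le
    linarith only [h4, h5]
  · have := mul_le_mul_of_nonneg_right h2 hT0
    linarith only [this, h2]

lemma ke8_advdif_mono {K γ Vb A σ x x' C C' : ℝ} {Q : ℕ} {c : ℤ → ℂ}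
    (h : AdvDif K γ Vb A σ x C Q c) (hx : x' ≤ x) (hC : C ≤ C') :
    AdvDif K γ Vb A σ x' C' Q c := by
  intro N Nb ω ω' X V S D T g hL hX hV hS hSX
  obtain ⟨hX0, hV0, hD0, hT0⟩ := ke8_X_nonneg hL
  have hσ := hL.pre.σ0
  have hN1 : (1 : ℝ) ≤ N := hL.pre.ctx.N1
  have hN0 : (0 : ℝ) < N := by linarith
  have hNb0 : (0 : ℝ) ≤ Nb := by
    have h1 := hL.pre.ctx.Nb1
    have h2 := hL.pre.ctx.K1
    have : (0 : ℝ) ≤ 10 ^ 4 * K ^ 4 := by positivity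
    linarith
  have h2 : C * X ≤ C' * X := mul_le_mul_of_nonneg_right hC hX0
  have hXV : 0 ≤ X + σ * V := by positivity
  have h3 : C * (X + σ * V) ≤ C' * (X + σ * V) := mul_le_mul_of_nonneg_right hC hXV
  have h4 : C * (X + σ * V) / N ≤ C' * (X + σ * V) / N := div_le_div_of_nonneg_right h3 hN0.le
  have h5 : C * (X + σ * V) / Nb ≤ C' * (X + σ * V) / Nb := div_le_div_of_nonneg_right h3 hNb0
  obtain ⟨a, b, c', d, e⟩ := h N Nb ω ω' X V S D T g hL (le_trans hX hx) hV hS (by linarith)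
  refine ⟨a, b, c', d, fun z hz => ?_⟩
  obtain ⟨e1, e2, e3, e4, e5⟩ := e z hz
  exact ⟨le_trans e1 h4, le_trans e2 h4, le_trans e3 h3, le_trans e4 h3, le_trans e5 h5⟩

lemma ke8_pre_mono {K γ N Nb J ω : ℝ} {h g : ℂ → ℂ} {ω' σ υ V₀ V₁ J' υ' V₀' V₁' : ℝ}
    (p : Pre K γ N Nb J ω h g ω' σ υ V₀ V₁) (hJ : J ≤ J') (hJ1 : J' ≤ 1) (hυ : υ ≤ υ')
    (hV : V₀ ≤ V₀') (hV1 : V₁ ≤ V₁') : Pre K γ N Nb J' ω h g ω' σ υ' V₀' V₁' := by
  obtain ⟨ctx, rot', σ0, υ0, V00, V10, dom, bu, bv, bv1⟩ := p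
  obtain ⟨K1, γ0, γ1, N1, Nb1, J0, J1, lo', hi', tb, gs⟩ := ctx
  have hK0 : 0 < K := by linarith
  have hN0 : (0 : ℝ) < N := by linarith
  have hNb0 : (0 : ℝ) < Nb := by
    have : (0 : ℝ) < 10 ^ 4 * K ^ 4 := by positivity
    linarith
  have hm : 0 < max N Nb := lt_max_of_lt_left hN0
  refine ⟨⟨K1, γ0, γ1, N1, Nb1, le_trans J0 hJ, hJ1, lo', hi', tb, ⟨gs.hp, gs.lo, gs.hi, ?_⟩⟩,
    rot', σ0, le_trans υ0 hυ, le_trans V00 hV, le_trans V10 hV1, dom, ?_, ?_, ?_⟩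
  · intro z hz
    exact le_trans (gs.g2 z hz) (mul_le_mul_of_nonneg_left hJ hN0.le)
  · intro z hz
    refine le_trans (bu z hz) ?_
    gcongr
  · intro z hz
    exact le_trans (bv z hz) (mul_le_mul_of_nonneg_left hV hm.le)
  · intro z hz
    exact le_trans (bv1 z hz) (mul_le_mul_of_nonneg_left hV1 (by positivity))

/-- root mean square over the words of length one -/
lemma ke8_rms_one {Mc : ℕ} (hM : 0 < Mc) {x₂ v : ℝ} (hx : 0 ≤ x₂) (hv : 0 ≤ v)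
    (X f : List (Fin Mc) → ℝ) (hf : ∀ d, f [d] = v) : rms x₂ X f 1 = v := by
  have hM' : (Mc : ℝ) ≠ 0 := by exact_mod_cast hM.ne'
  have h : avg 1 (fun μ => if Tots X μ.tail ≤ x₂ then f μ ^ 2 else 0) ([] : List (Fin Mc)) =
      v ^ 2 := by
    simp only [avg, List.tail_cons, Tots, hx, if_true, hf, Finset.sum_const, Finset.card_univ,
      Fintype.card_fin, nsmul_eq_mul]
    field_simp
  unfold rms
  rw [h, Real.sqrt_sq hv]

/-- the Euler-Lagrange expression at a level -/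
lemma ke8_EL {K γ N Nb J ω : ℝ} {h g : ℂ → ℂ} {ω' σ υ V₀ V₁ : ℝ}
    (p : Pre K γ N Nb J ω h g ω' σ υ V₀ V₁) (hυ : υ ≤ 1) (t : ℝ) : ‖EL h g ω t‖ ≤ 1 / N := by
  have hK := p.ctx.K1
  have hK0 : 0 < K := by linarith
  have hN0 : (0 : ℝ) < N := by linarith [p.ctx.N1]
  have hNb : 10 ^ 4 * K ^ 4 ≤ Nb := p.ctx.Nb1
  have hK4 : K ≤ K ^ 4 := by
    exact le_self_pow₀ hK (by norm_num)
  have hNbK : 2 * K ≤ Nb := by linarith only [hNb, hK4, hK]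
  have hNb1 : 1 ≤ Nb := by linarith
  have hcr : 0 < cr K := by unfold cr; positivity
  have hst : ∀ (z : ℂ) (r : ℝ), 0 < r → z.im = 0 → z ∈ Strip r := fun z r hr hz => by
    simp only [Strip, Set.mem_ofPred_eq, hz, abs_zero]; exact hr
  have h1 := (uu_eq p).2 (t : ℂ) (hst _ _ (by positivity) (by simp))
  have h2 := p.bu (t : ℂ) (hst _ _ (by positivity) (by simp))
  have h3 := p.bu ((t : ℂ) - ω') (hst _ _ (by positivity) (by simp))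
  have hm : N ≤ max N Nb := le_max_left _ _
  have hm1 : 1 ≤ max N Nb := le_trans p.ctx.N1 hm
  have h4 : ‖FF h g ω t‖ ≤ 2 / (Nb * N * max N Nb) := by
    rw [h1]
    refine le_trans (norm_sub_le _ _) (le_trans (add_le_add h2 h3) ?_)
    rw [← two_mul, ← mul_div_assoc]
    exact div_le_div_of_nonneg_right (by linarith) (by positivity)
  have h5 : FF h g ω t = deriv g t * EL h g ω t := by
    simp only [FF, PP, RR, EL]; ring
  have h6 : 1 / K ≤ ‖deriv g t‖ := le_trans (p.ctx.gs.lo t) (Complex.re_le_norm _)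
  rw [h5, norm_mul] at h4
  have h7 : 1 / K * ‖EL h g ω t‖ ≤ 2 / (Nb * N * max N Nb) :=
    le_trans (mul_le_mul_of_nonneg_right h6 (norm_nonneg _)) h4
  have h8 : 2 / (Nb * N * max N Nb) ≤ 1 / K * (1 / N) := by
    rw [div_mul_div_comm, div_le_div_iff₀ (by positivity) (by positivity)]
    have : 2 * K * N ≤ Nb * N * max N Nb := by
      calc 2 * K * N ≤ Nb * N := mul_le_mul_of_nonneg_right hNbK hN0.le
        _ ≤ Nb * N * max N Nb := le_mul_of_one_le_right (by positivity) hm1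
    linarith
  have h9 : 1 / K * ‖EL h g ω t‖ ≤ 1 / K * (1 / N) := le_trans h7 h8
  exact le_of_mul_le_mul_left h9 (by positivity)

lemma ke8_theta : (2 * ((16 : ℕ) : ℝ) ^ (-(3 / 2) : ℝ)) = 1 / 32 := by
  have h1 : (((16 : ℕ) : ℝ)) = (4 : ℝ) ^ (2 : ℝ) := by norm_num
  rw [h1, ← Real.rpow_mul (by norm_num)]
  norm_num

lemma ke8_neg_half {x e : ℝ} (he : 0 < e) (hx : (1 / e) ^ 2 ≤ x) : x ^ (-(1 / 2) : ℝ) ≤ e := by
  have h0 : 0 < x := lt_of_lt_of_le (by positivity) hx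
  rw [Real.rpow_neg h0.le, ← Real.sqrt_eq_rpow]
  have h1 : 1 / e ≤ Real.sqrt x := Real.le_sqrt_of_sq_le hx
  rw [inv_le_comm₀ (Real.sqrt_pos.mpr h0) he, ← one_div]
  exact h1

lemma ke8_pow4 (k : ℕ) (R : ℝ) (h : R ≤ 4 ^ k) (hR : 0 ≤ R) :
    ((k : ℝ) + 1) * R ≤ 16 ^ k := by
  have h1 : ((k : ℝ) + 1) ≤ 4 ^ k := by
    have : k + 1 ≤ 4 ^ k := by
      have := Nat.lt_pow_self (n := k) (by norm_num : 1 < 4)
      omega
    exact_mod_cast this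
  have h2 : (16 : ℝ) ^ k = 4 ^ k * 4 ^ k := by rw [← mul_pow]; norm_num
  rw [h2]
  exact mul_le_mul h1 h hR (by positivity)

lemma ke8_exp {x : ℝ} (hx : x ≤ 1 / 10) : exp x ≤ 10 / 9 := by
  have h1 := Real.add_one_le_exp (-x)
  rw [Real.exp_neg] at h1
  have h2 : (9 / 10 : ℝ) ≤ (exp x)⁻¹ := by linarith
  calc exp x = ((exp x)⁻¹)⁻¹ := (inv_inv _).symm
    _ ≤ (9 / 10)⁻¹ := inv_anti₀ (by norm_num) h2
    _ = 10 / 9 := by norm_num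

lemma ke8_Xs_nonneg {C Cf K X₀ : ℝ} (hC : 0 ≤ C) (hCf : 0 ≤ Cf) (hX : 0 ≤ X₀) (c : ℤ → ℂ)
    (Q Nb : ℕ) {Mc : ℕ} (g₀ : ℂ → ℂ) (om : List (Fin Mc) → ℝ) (μ : List (Fin Mc)) :
    0 ≤ Xs C X₀ Q Nb (phi K Cf c Q Nb g₀ om) μ := by
  cases μ with
  | nil => simp [Xs]
  | cons d μ => exact Xs_nonneg' hC hX Q Nb (phi_nonneg' hCf c Q Nb g₀ om) d μ

/-- from a run whose averages are summable to the outcome -/
theorem ke8_out {K γ Vb A σ x₁ C Cf Ct X₀ V₀ S₀ D₀ T₀ : ℝ} {Q Nb Mc : ℕ} {c : ℤ → ℂ} {g₀ : ℂ → ℂ}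
    {om : List (Fin Mc) → ℝ} (R : Run K γ Vb A σ x₁ C Cf Ct X₀ V₀ S₀ D₀ T₀ Q Nb Mc c g₀ om) {ε : ℝ}
    (hε : 7 / (Nb : ℝ) ≤ ε) (hD : 10 / 9 * (D₀ + 4 * C / Nb) ≤ ε) (hT : T₀ ≤ 1 / 2)
    (hsum : ∀ J : ℕ, ∑ j ∈ Finset.Icc 1 J, rms x₁ (Xs C X₀ Q Nb (phi K Cf c Q Nb g₀ om))
      (Xs C X₀ Q Nb (phi K Cf c Q Nb g₀ om)) j < x₁) :
    ∀ η : ℝ, 0 < η → ∃ (N : ℕ) (g : ℂ → ℂ) (ω r : ℝ), 1 / η < N ∧ 1 / (Nb : ℝ) ≤ ω ∧ ω ≤ ε ∧
      0 < r ∧ HP r (fun z => g z - z) ∧ (∀ t : ℝ, 1 / K ≤ (deriv g t).re ∧ (deriv g t).re ≤ K) ∧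
      (∀ t : ℝ, ‖EL (trunc c N) g ω t‖ ≤ η) ∧
      (∀ t : ℝ, ‖deriv g (t + ω) - deriv g t‖ ≤ ε) ∧
      (∀ t : ℝ, ‖deriv (deriv g) (t + ω) / deriv g (t + ω) - deriv (deriv g) t / deriv g t‖ ≤ 1) := by
  intro η hη
  have hC0 : 0 ≤ C := zero_le_one.trans R.C1
  have hCf0 : 0 ≤ Cf := zero_le_one.trans R.Cf1
  have hQN : 16 ≤ Nb := R.Q16.trans R.NbQ
  have hNb : (16 : ℝ) ≤ Nb := by exact_mod_cast hQN
  have hNb0 : (0 : ℝ) < Nb := by linarith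
  have hQ' : (16 : ℝ) ≤ Q := by exact_mod_cast R.Q16
  obtain ⟨J, hJ⟩ := pow_unbounded_of_one_lt (1 / η) (by linarith : (1 : ℝ) < Q)
  have hX := ke8_Xs_nonneg (K := K) hC0 hCf0 R.X0 c Q Nb g₀ om
  obtain ⟨μ, hμl, hμ⟩ := exists_alive R.tree.Mc0 _ hX x₁ R.x0 (J + 1) (hsum (J + 1))
  cases μ with
  | nil => simp at hμl
  | cons d ν =>
    have hlen : ν.length = J := by simpa using hμl
    have hT0 := Tots_nonneg' (fun d ν => hX (d :: ν)) ν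
    have hXd := hX (d :: ν)
    simp only [Tots] at hμ
    have hx1 := R.x1
    have hA := R.A1
    have hCx : C * x₁ ≤ 1 / 10 := by
      have h1 : C * x₁ * 1 ≤ C * x₁ * A := mul_le_mul_of_nonneg_left hA (mul_nonneg hC0 R.x0.le)
      linarith
    have hAx : A * x₁ ≤ 1 := by
      have h1 : A * x₁ * 1 ≤ A * x₁ * C :=
        mul_le_mul_of_nonneg_left R.C1 (mul_nonneg (by linarith) R.x0.le)
      have h2 : 0 ≤ A * x₁ := mul_nonneg (by linarith) R.x0.le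
      linarith only [h1, h2, hx1]
    have h1 : A * Xs C X₀ Q Nb (phi K Cf c Q Nb g₀ om) (d :: ν) ≤ 1 :=
      le_trans (mul_le_mul_of_nonneg_left (by linarith) (by linarith)) hAx
    have hX1 : Xs C X₀ Q Nb (phi K Cf c Q Nb g₀ om) (d :: ν) ≤ 1 := by
      have := mul_le_mul_of_nonneg_right hA hXd
      linarith
    have L := lev_tree R d ν (by linarith) h1
    have hCT : C * Tots (Xs C X₀ Q Nb (phi K Cf c Q Nb g₀ om)) ν ≤ 1 / 10 :=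
      le_trans (mul_le_mul_of_nonneg_left (by linarith) hC0) hCx
    have hCT0 : 0 ≤ C * Tots (Xs C X₀ Q Nb (phi K Cf c Q Nb g₀ om)) ν := mul_nonneg hC0 hT0
    have hexp := ke8_exp hCT
    have hN1 : (1 : ℝ) ≤ ((Nb * Q ^ ν.length : ℕ) : ℝ) := L.pre.ctx.N1
    have hNη : 1 / η < ((Nb * Q ^ ν.length : ℕ) : ℝ) := by
      rw [hlen]
      push_cast
      have : (Q : ℝ) ^ J ≤ Nb * (Q : ℝ) ^ J :=
        le_mul_of_one_le_left (by positivity) (by linarith)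
      linarith
    have hK := R.K1
    have hcr : 0 < cr K := by unfold cr; positivity
    have hr1 := (R.tree.rot ν).lo
    have hr2 := (R.tree.rot ν).hi
    refine ⟨Nb * Q ^ ν.length, gsq c Q Nb g₀ om ν, om ν, 4 * cr K / ((Nb * Q ^ ν.length : ℕ) : ℝ),
      hNη, ?_, ?_, by positivity, L.pre.ctx.gs.hp, fun t => ⟨L.pre.ctx.gs.lo t, L.pre.ctx.gs.hi t⟩,
      ?_, ?_, ?_⟩
    · rw [div_le_iff₀ hNb0]; exact hr1
    · refine le_trans ?_ hε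
      rw [le_div_iff₀ hNb0]; exact hr2
    · intro t
      refine le_trans (ke8_EL L.pre hX1 t) ?_
      rw [div_le_iff₀ (by linarith)]
      rw [div_lt_iff₀ hη] at hNη
      linarith
    · intro t
      refine le_trans (L.dD t) (le_trans ?_ hD)
      refine mul_le_mul_of_nonneg_right hexp ?_
      have := R.D0
      positivity
    · intro t
      refine le_trans (L.dT t) ?_
      have hT0' := R.T0
      calc _ ≤ 10 / 9 * (T₀ + C * Tots (Xs C X₀ Q Nb (phi K Cf c Q Nb g₀ om)) ν) :=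
            mul_le_mul_of_nonneg_right hexp (by positivity)
        _ ≤ 10 / 9 * (1 / 2 + 1 / 10) := by
            refine mul_le_mul_of_nonneg_left ?_ (by norm_num)
            linarith
        _ ≤ 1 := by norm_num

/-- the averages are summable -/
theorem ke8_sum (K γ Vb A C Cf Ct x₁ : ℝ) (hx : 0 < x₁) (hVb : 1 ≤ Vb) : ∃ δ : ℝ, 0 < δ ∧
    ∀ {σ X₀ V₀ S₀ D₀ T₀ : ℝ} {Nb Mc : ℕ} {c : ℤ → ℂ} {g₀ : ℂ → ℂ} {om : List (Fin Mc) → ℝ},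
      Run K γ Vb A σ x₁ C Cf Ct X₀ V₀ S₀ D₀ T₀ 16 Nb Mc c g₀ om → X₀ ≤ δ →
      (∀ m : ℕ, ∑ k ∈ Finset.range m, blk c (Nb * 16 ^ k) (Nb * 16 ^ (k + 1)) ^ 2 ≤ δ) →
      2 * (Nb : ℝ) ^ (-(1 / 2) : ℝ) ≤ δ →
      (∀ j : ℕ, blk c (Nb * 16 ^ j) (Nb * 16 ^ (j + 1)) ≤ 1) →
      ∀ J : ℕ, ∑ j ∈ Finset.Icc 1 J, rms x₁ (Xs C X₀ 16 Nb (phi K Cf c 16 Nb g₀ om))
        (Xs C X₀ 16 Nb (phi K Cf c 16 Nb g₀ om)) j < x₁ := by
  obtain ⟨Cx, hCx, HX⟩ := expect_x K γ ((16 : ℕ) : ℝ) Vb A C Cf Ct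
  obtain ⟨Cv, hCv, HV⟩ := expect_v K γ ((16 : ℕ) : ℝ) Vb A C Cf Ct
  obtain ⟨Cc, hCc⟩ : ∃ Cc : ℝ, Cc = max (max Cx Cv) Vb := ⟨_, rfl⟩
  have hc1 : Cx ≤ Cc := by rw [hCc]; exact le_trans (le_max_left _ _) (le_max_left _ _)
  have hc2 : Cv ≤ Cc := by rw [hCc]; exact le_trans (le_max_right _ _) (le_max_left _ _)
  have hc3 : Vb ≤ Cc := by rw [hCc]; exact le_max_right _ _
  obtain ⟨θ, hθ⟩ : ∃ θ : ℝ, θ = (2 * ((16 : ℕ) : ℝ) ^ (-(3 / 2) : ℝ)) ^ (1 / 2 : ℝ) := ⟨_, rfl⟩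
  have hθ2 : θ ^ 2 = 1 / 32 := by
    rw [hθ, ← Real.sqrt_eq_rpow, Real.sq_sqrt (by positivity), ke8_theta]
  have hθ0 : 0 < θ := by rw [hθ]; positivity
  have hθ1 : θ ≤ 1 / 2 := by nlinarith only [hθ2, hθ0]
  have hθ3 : 1 / 16 ≤ θ := by nlinarith only [hθ2, hθ0]
  obtain ⟨δ, hδ, H⟩ := closing Cc θ (((16 : ℕ) : ℝ) * θ) (by linarith) hθ0 hθ1
    (by push_cast; linarith only [hθ3]) (by push_cast; nlinarith only [hθ2, hθ0]) (x₁ / 2) (half_pos hx)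
  refine ⟨δ, hδ, ?_⟩
  intro σ X₀ V₀ S₀ D₀ T₀ Nb Mc c g₀ om R hX₀ hb he hb1 J
  have hNbN : 16 ≤ Nb := R.Q16.trans R.NbQ
  have hNb : (16 : ℝ) ≤ Nb := by exact_mod_cast hNbN
  have hNb0 : (0 : ℝ) < Nb := by linarith
  obtain ⟨X, hX⟩ : ∃ X, X = Xs C X₀ 16 Nb (phi K Cf c 16 Nb g₀ om) := ⟨_, rfl⟩
  have HX' := HX rfl R hb1
  have HV' := HV rfl R
  rw [← hX] at HX' HV' ⊢
  rw [← hθ] at HX'
  have hrn : ∀ (f : List (Fin Mc) → ℝ) j, 0 ≤ rms x₁ X f j := fun f j => Real.sqrt_nonneg _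
  have key := H (fun j => rms x₁ X X j) (fun j => rms x₁ X (Vs C V₀ 16 X) j)
    (fun j => if j = 0 then 0 else blk c (Nb * 16 ^ (j - 1)) (Nb * 16 ^ j))
    (fun j => if j = 0 then 0 else ((Nb : ℝ) * ((16 : ℕ) : ℝ) ^ (j - 1)) ^ (-(1 / 2) : ℝ)) J
    (fun j => hrn _ j) (fun j => hrn _ j)
    (fun j => by
      split_ifs
      · exact le_rfl
      · exact blk_nonneg' _ _ _)
    (fun j => by
      split_ifs
      · exact le_rfl
      · positivity)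
    (by
      rw [ke8_rms_one R.tree.Mc0 hx.le R.X0 X X (fun d => by rw [hX]; simp [Xs])]
      exact hX₀)
    (by
      rw [ke8_rms_one R.tree.Mc0 hx.le R.V0 X (Vs C V₀ 16 X) (fun d => by simp [Vs])]
      exact le_trans R.V0b hc3)
    (by
      intro j n hj _ hn
      have h1 := HX' j n hj hn
      have hj0 : j ≠ 0 := by omega
      simp only [hj0, if_false, Nat.add_eq_zero_iff, one_ne_zero, and_false, Nat.add_sub_cancel]
      refine le_trans h1 ?_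
      have h2 : ∑ i ∈ Finset.Ioc (j - n) j, (((16 : ℕ) : ℝ) * θ) ^ (j - i + 1) *
            (rms x₁ X X i + rms x₁ X (Vs C V₀ 16 X) i) ≤
          ∑ i ∈ Finset.Ioc (j - n) j, (((16 : ℕ) : ℝ) * θ) ^ (j - i + 1) *
            (rms x₁ X X i + rms x₁ X (Vs C V₀ 16 X) i +
              (if i = 0 then 0 else ((Nb : ℝ) * ((16 : ℕ) : ℝ) ^ (i - 1)) ^ (-(1 / 2) : ℝ))) := by
        refine Finset.sum_le_sum fun i _ => ?_
        refine mul_le_mul_of_nonneg_left ?_ (by positivity)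
        have : (0 : ℝ) ≤ (if i = 0 then 0 else
            ((Nb : ℝ) * ((16 : ℕ) : ℝ) ^ (i - 1)) ^ (-(1 / 2) : ℝ)) := by
          split_ifs
          · exact le_rfl
          · positivity
        linarith
      have h3 : 0 ≤ ∑ i ∈ Finset.Ioc (j - n) j, (((16 : ℕ) : ℝ) * θ) ^ (j - i + 1) *
            (rms x₁ X X i + rms x₁ X (Vs C V₀ 16 X) i) := by
        refine Finset.sum_nonneg fun i _ => ?_
        have := hrn X i
        have := hrn (Vs C V₀ 16 X) i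
        positivity
      have h4 := blk_nonneg' c (Nb * 16 ^ (j - 1)) (Nb * 16 ^ j)
      have h5 : 0 ≤ θ ^ (n + 1) := by positivity
      have h6 : (0 : ℝ) ≤ ((Nb : ℝ) * ((16 : ℕ) : ℝ) ^ j) ^ (-(1 / 2) : ℝ) := by positivity
      have h7 := mul_le_mul_of_nonneg_left (add_le_add_right h2 (θ ^ (n + 1))) h4
      refine add_le_add le_rfl ?_
      refine mul_le_mul hc1 ?_ ?_ (by linarith)
      · linarith
      · exact add_nonneg (mul_nonneg h4 (add_nonneg h5 h3)) h6)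
    (by
      intro j hj _
      have h1 := HV' j hj
      refine le_trans h1 ?_
      have := mul_le_mul_of_nonneg_right hc2 (hrn X j)
      linarith)
    (by
      rw [Finset.sum_range_succ']
      simp only [if_true, Nat.add_eq_zero_iff, one_ne_zero, and_false, if_false,
        Nat.add_sub_cancel]
      have := hb J
      linarith)
    (by
      rw [Finset.sum_range_succ']
      simp only [if_true, Nat.add_eq_zero_iff, one_ne_zero, and_false, if_false,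
        Nat.add_sub_cancel, add_zero]
      refine le_trans ?_ he
      have h1 : ∀ k : ℕ, ((Nb : ℝ) * ((16 : ℕ) : ℝ) ^ k) ^ (-(1 / 2) : ℝ) =
          (Nb : ℝ) ^ (-(1 / 2) : ℝ) * (1 / 4) ^ k := by
        intro k
        rw [Real.mul_rpow hNb0.le (by positivity)]
        congr 1
        have h2 : (((16 : ℕ) : ℝ)) ^ k = ((4 : ℝ) ^ k) ^ (2 : ℝ) := by
          rw [Real.rpow_two, ← pow_mul, mul_comm k 2, pow_mul]
          norm_num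
        rw [h2, ← Real.rpow_mul (by positivity)]
        norm_num
        rw [Real.rpow_neg_one, ← inv_pow, one_div]
      simp only [h1]
      rw [← Finset.mul_sum, mul_comm 2]
      refine mul_le_mul_of_nonneg_left ?_ (by positivity)
      have h3 := geom_sum_eq (by norm_num : (1 / 4 : ℝ) ≠ 1) J
      rw [h3]
      have h4 : (0 : ℝ) < (1 / 4) ^ J := by positivity
      rw [div_le_iff_of_neg (by norm_num)]
      linarith)
  have : x₁ / 2 < x₁ := by linarith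
  exact lt_of_le_of_lt key this

/-- choice of the constants, base of the run -/
theorem ke8_base {K₀ : ℝ} {c : ℤ → ℂ} {h : ℝ → ℝ} (hc : Table K₀ c) (hs : ContDiff ℝ 4 h)
    (hh : ∀ x : ℝ, HasSum (fun n : ℤ => c n * Complex.exp (n * x * Complex.I)) (h x : ℂ)) :
    ∃ K γ Vb A σ x₁ C Cf Ct : ℝ, 1 ≤ K ∧ 0 < x₁ ∧ 1 ≤ Vb ∧ ∀ δ : ℝ, 0 < δ → ∀ ε : ℝ, 0 < ε →
      ∃ (Nb Mc : ℕ) (g₀ : ℂ → ℂ) (om : List (Fin Mc) → ℝ) (X₀ V₀ S₀ D₀ T₀ : ℝ),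
        Run K γ Vb A σ x₁ C Cf Ct X₀ V₀ S₀ D₀ T₀ 16 Nb Mc c g₀ om ∧ X₀ ≤ δ ∧
        (∀ m : ℕ, ∑ k ∈ Finset.range m, blk c (Nb * 16 ^ k) (Nb * 16 ^ (k + 1)) ^ 2 ≤ δ) ∧
        2 * (Nb : ℝ) ^ (-(1 / 2) : ℝ) ≤ δ ∧
        (∀ j : ℕ, blk c (Nb * 16 ^ j) (Nb * 16 ^ (j + 1)) ≤ 1) ∧
        7 / (Nb : ℝ) ≤ ε ∧ 10 / 9 * (D₀ + 4 * C / Nb) ≤ ε ∧ T₀ ≤ 1 / 2 := by
  obtain ⟨γ, hγ0, hγ1, htree⟩ := tree 16 le_rfl
  obtain ⟨K, hKK, Cs, N1s, hCs, hstart⟩ := start hγ0 hγ1 hc hs hh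
  have hK : 1 ≤ K := by have := hc.K1; linarith
  obtain ⟨Vb, hVbdef⟩ : ∃ Vb : ℝ, Vb = 2 * Cs + 1 := ⟨_, rfl⟩
  have hVb : 1 ≤ Vb := by linarith
  obtain ⟨A, σa, xa, Ca, hA, hσa, hσa1, hxa, hxa1, hCa, hadv⟩ :=
    advance K γ Vb 16 hK hγ0 hγ1 hVb le_rfl
  obtain ⟨N1a, hadv⟩ := hadv K₀ c hc hKK
  obtain ⟨σb, xb, Cb, hσb, hσb1, hxb, hxb1, hCb, hdif⟩ :=
    advance_dif K γ Vb 16 hK hγ0 hγ1 hVb le_rfl A hA
  obtain ⟨Cf1, κ, hCf1, hκ, hlowf⟩ := fresh_low K γ ((16 : ℕ) : ℝ) (by norm_num)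
  obtain ⟨Cf2, hCf2, hhighf⟩ := fresh_high K γ ((16 : ℕ) : ℝ) (by norm_num)
  obtain ⟨C, hC⟩ : ∃ C : ℝ, C = max Ca Cb := ⟨_, rfl⟩
  obtain ⟨Cf, hCf⟩ : ∃ Cf : ℝ, Cf = max Cf1 Cf2 := ⟨_, rfl⟩
  have hCaC : Ca ≤ C := by rw [hC]; exact le_max_left _ _
  have hCbC : Cb ≤ C := by rw [hC]; exact le_max_right _ _
  have hCf1C : Cf1 ≤ Cf := by rw [hCf]; exact le_max_left _ _
  have hCf2C : Cf2 ≤ Cf := by rw [hCf]; exact le_max_right _ _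
  have hC1 : 1 ≤ C := le_trans hCa hCaC
  have hCf0 : 1 ≤ Cf := le_trans hCf1 hCf1C
  obtain ⟨m₀, hm₀⟩ : ∃ m₀ : ℕ, 7 / ((16 : ℕ) : ℝ) ^ (2 * m₀) ≤ min σa σb := by
    obtain ⟨m, hm⟩ := pow_unbounded_of_one_lt (7 / min σa σb) (by norm_num : (1 : ℝ) < 16 ^ 2)
    refine ⟨m, ?_⟩
    have hmin : 0 < min σa σb := lt_min hσa hσb
    rw [div_lt_iff₀ hmin] at hm
    rw [div_le_iff₀ (by positivity), pow_mul]
    push_cast
    linarith
  obtain ⟨Ct, hCt, htr⟩ := htree m₀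
  obtain ⟨σ, hσ⟩ : ∃ σ : ℝ, σ = 7 / ((16 : ℕ) : ℝ) ^ (2 * m₀) := ⟨_, rfl⟩
  rw [← hσ] at hm₀ htr
  have hσ0 : 0 ≤ σ := by rw [hσ]; positivity
  have hσ1 : σ ≤ σa := le_trans hm₀ (min_le_left _ _)
  have hσ2 : σ ≤ σb := le_trans hm₀ (min_le_right _ _)
  obtain ⟨x₁, hx₁⟩ : ∃ x₁ : ℝ, x₁ = min (min xa xb) (1 / (10 * C * A)) := ⟨_, rfl⟩
  have hx0 : 0 < x₁ := by rw [hx₁]; exact lt_min (lt_min hxa hxb) (by positivity)
  have hx1 : x₁ ≤ xa := by rw [hx₁]; exact le_trans (min_le_left _ _) (min_le_left _ _)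
  have hx2 : x₁ ≤ xb := by rw [hx₁]; exact le_trans (min_le_left _ _) (min_le_right _ _)
  have hx3 : 10 * C * A * x₁ ≤ 1 := by
    have h1 : x₁ ≤ 1 / (10 * C * A) := by rw [hx₁]; exact min_le_right _ _
    have h2 : (0 : ℝ) < 10 * C * A := by positivity
    rw [le_div_iff₀ h2] at h1
    linarith only [h1]
  have hAdv : ∀ M : ℕ, N1a ≤ M → Adv K γ Vb A σ x₁ C 16 M c := by
    intro M hM
    refine ke8_adv_mono (x := xa) (C := Ca) (N₁ := N1a) ?_ hA hx1 (by linarith only [hCa]) hCaC hM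
    intro N hN Nb ω ω' ω'' X V S D T φ g
    exact hadv N hN Nb ω ω' ω'' σ X V S D T φ g hσ0 hσ1
  have hDif : AdvDif K γ Vb A σ x₁ C 16 c := by
    refine ke8_advdif_mono (x := xb) (C := Cb) ?_ hx2 hCbC
    intro N Nb ω ω' X V S D T g
    exact hdif c N Nb ω ω' σ X V S D T g hσ0 hσ2
  obtain ⟨CL, hCL, hlow⟩ := low_chain K γ Vb A C Cf κ 16 le_rfl hC1 hA hCf0 hκ hVb
  refine ⟨K, γ, Vb, A, σ, x₁, C, Cf, Ct, hK, hx0, hVb, fun δ hδ ε hε => ?_⟩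
  obtain ⟨τ, hτ⟩ : ∃ τ : ℝ, τ = min (min δ x₁) (1 / 8) := ⟨_, rfl⟩
  have hτ0 : 0 < τ := by rw [hτ]; exact lt_min (lt_min hδ hx0) (by norm_num)
  have hτ1 : τ ≤ δ := by rw [hτ]; exact le_trans (min_le_left _ _) (min_le_left _ _)
  have hτ2 : τ ≤ x₁ := by rw [hτ]; exact le_trans (min_le_left _ _) (min_le_right _ _)
  have hτ3 : τ ≤ 1 / 8 := by rw [hτ]; exact min_le_right _ _
  have hCL0 : 0 < CL := by linarith only [hCL]
  obtain ⟨e₀, he₀⟩ : ∃ e₀ : ℝ, e₀ = τ / (4 * CL) := ⟨_, rfl⟩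
  have he0 : 0 < e₀ := by rw [he₀]; positivity
  have he1 : CL * (4 * e₀) = τ := by rw [he₀]; field_simp
  have he2 : e₀ ≤ 1 := by
    rw [he₀, div_le_one (by positivity)]
    linarith only [hτ3, hCL]
  obtain ⟨N₀, hN₀⟩ := blk_tail hc 16 (by norm_num) (min δ (min (e₀ ^ 2) 1))
    (lt_min hδ (lt_min (by positivity) one_pos))
  obtain ⟨Ns, hNs⟩ : ∃ Ns : ℕ, Ns = N1s + N1a + N₀ + 1 + ⌈(1 / (e₀ / (Cs + 1))) ^ 2⌉₊ := ⟨_, rfl⟩
  have hNs1 : N1s ≤ Ns := by omega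
  have hNs2 : N1a ≤ Ns := by omega
  have hNs3 : N₀ ≤ Ns := by omega
  have hNs4 : 1 ≤ Ns := by omega
  have hNs5 : (1 / (e₀ / (Cs + 1))) ^ 2 ≤ (Ns : ℝ) := by
    refine le_trans (Nat.le_ceil _) ?_
    have : ⌈(1 / (e₀ / (Cs + 1))) ^ 2⌉₊ ≤ Ns := by omega
    exact_mod_cast this
  have hNsR : (1 : ℝ) ≤ (Ns : ℝ) := by exact_mod_cast hNs4
  have hNs0 : (0 : ℝ) < (Ns : ℝ) := by linarith only [hNsR]
  have hNs6 : (Ns : ℝ) ^ (-(1 / 2) : ℝ) ≤ e₀ / (Cs + 1) :=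
    ke8_neg_half (by positivity) hNs5
  have hNs7 : (Cs + 1) * (Ns : ℝ) ^ (-(1 / 2) : ℝ) ≤ e₀ := by
    have h1 : (0 : ℝ) < Cs + 1 := by linarith only [hCs]
    rw [le_div_iff₀ h1] at hNs6
    linarith only [hNs6]
  have hNs8 : 1 / (Ns : ℝ) ≤ (Ns : ℝ) ^ (-(1 / 2) : ℝ) := by
    rw [one_div, ← Real.rpow_neg_one]
    exact Real.rpow_le_rpow_of_exponent_le hNsR (by norm_num)
  have hNs9 : (0 : ℝ) < (Ns : ℝ) ^ (-(1 / 2) : ℝ) := by positivity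
  obtain ⟨g, hg1, hg2⟩ := hstart Ns hNs1
  obtain ⟨es, hes⟩ : ∃ es : ℝ, es = min e₀ (min (ε / 10) (1 / 16)) := ⟨_, rfl⟩
  have hes0 : 0 < es := by rw [hes]; exact lt_min he0 (lt_min (by positivity) (by norm_num))
  have hes1 : es ≤ e₀ := by rw [hes]; exact min_le_left _ _
  have hes2 : es ≤ ε / 10 := by
    rw [hes]; exact le_trans (min_le_right _ _) (min_le_left _ _)
  have hes3 : es ≤ 1 / 16 := by
    rw [hes]; exact le_trans (min_le_right _ _) (min_le_right _ _)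
  obtain ⟨Nb₁, hNb₁⟩ := hg2 es hes0
  obtain ⟨R, hR⟩ : ∃ R : ℝ, R = 10 ^ 4 * K ^ 4 + 16 + |Nb₁| + 7 / ε + (4 * CL + 8 * C) / ε +
      (1 / (δ / 2)) ^ 2 := ⟨_, rfl⟩
  have hR1 : (0 : ℝ) ≤ 10 ^ 4 * K ^ 4 := by positivity
  have hR2 : (0 : ℝ) ≤ |Nb₁| := abs_nonneg _
  have hR3 : (0 : ℝ) ≤ 7 / ε := by positivity
  have hR4 : (0 : ℝ) ≤ (4 * CL + 8 * C) / ε := by positivity
  have hR5 : (0 : ℝ) ≤ (1 / (δ / 2)) ^ 2 := by positivity
  have hR0 : 16 ≤ R := by rw [hR]; linarith only [hR1, hR2, hR3, hR4, hR5]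
  obtain ⟨k₀, hk₀⟩ := pow_unbounded_of_one_lt R (by norm_num : (1 : ℝ) < 4)
  have hk1 : 1 ≤ k₀ := by
    rcases Nat.eq_zero_or_pos k₀ with h0 | h0
    · rw [h0, pow_zero] at hk₀; linarith only [hk₀, hR0]
    · exact h0
  obtain ⟨Nb, hNb⟩ : ∃ Nb : ℕ, Nb = 16 ^ k₀ * Ns := ⟨_, rfl⟩
  have hNbk : ((k₀ : ℝ) + 1) * R ≤ (Nb : ℝ) := by
    refine le_trans (ke8_pow4 k₀ R hk₀.le (by linarith only [hR0])) ?_
    rw [hNb]
    push_cast
    exact le_mul_of_one_le_right (by positivity) hNsR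
  have hNbR : R ≤ (Nb : ℝ) := by
    refine le_trans ?_ hNbk
    have : (0 : ℝ) ≤ (k₀ : ℝ) * R :=
      mul_nonneg (Nat.cast_nonneg _) ((by norm_num : (0 : ℝ) ≤ 16).trans hR0)
    linarith only [this]
  have hNb0 : (0 : ℝ) < Nb := by linarith only [hNbR, hR0]
  have hNb16 : (16 : ℝ) ≤ Nb := by linarith only [hNbR, hR0]
  have hNb16' : 16 ≤ Nb := by exact_mod_cast hNb16
  have hNbK : 10 ^ 4 * K ^ 4 ≤ (Nb : ℝ) := by
    refine le_trans ?_ hNbR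
    rw [hR]; linarith only [hR2, hR3, hR4, hR5]
  have hNbNs : Ns ≤ Nb := by
    rw [hNb]
    exact Nat.le_mul_of_pos_left _ (by positivity)
  obtain ⟨Mc, om, hMc, -, -, hrot, hdist, hwt⟩ := htr Nb (by omega)
  obtain ⟨pre, hdD, hdT⟩ := hNb₁ Nb (om []) σ (by
    refine le_trans (le_abs_self _) (le_trans ?_ hNbR)
    rw [hR]; linarith only [hR1, hR3, hR4, hR5]) (hrot []) hσ0
  obtain ⟨Xs, hXs⟩ : ∃ Xs : ℝ, Xs = Cs * (Ns : ℝ) ^ (-(1 / 2) : ℝ) + es := ⟨_, rfl⟩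
  have hXs1 : (Ns : ℝ) ^ (-(1 / 2) : ℝ) ≤ Xs := by
    rw [hXs]
    have : (Ns : ℝ) ^ (-(1 / 2) : ℝ) ≤ Cs * (Ns : ℝ) ^ (-(1 / 2) : ℝ) :=
      le_mul_of_one_le_left hNs9.le hCs
    linarith only [this, hes0]
  have hXs0 : 0 < Xs := lt_of_lt_of_le hNs9 hXs1
  have hsum : Xs + (Ns : ℝ) ^ (-(1 / 2) : ℝ) + e₀ ≤ 4 * e₀ := by
    rw [hXs]; linarith only [hNs7, hes1, he0]
  have hX0 : CL * (Xs + (Ns : ℝ) ^ (-(1 / 2) : ℝ) + e₀) ≤ τ := by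
    rw [← he1]
    exact mul_le_mul_of_nonneg_left hsum hCL0.le
  have hX00 : 0 ≤ CL * (Xs + (Ns : ℝ) ^ (-(1 / 2) : ℝ) + e₀) := by positivity
  have hAx : A * x₁ ≤ 1 := by
    have h1 : A * x₁ * 1 ≤ A * x₁ * C :=
      mul_le_mul_of_nonneg_left hC1 (mul_nonneg (zero_le_one.trans hA) hx0.le)
    have h2 : 0 ≤ A * x₁ := mul_nonneg (zero_le_one.trans hA) hx0.le
    linarith only [h1, h2, hx3]
  have hXsτ : Xs ≤ τ := by
    refine le_trans ?_ hX0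
    have h1 : 1 * (Xs + (Ns : ℝ) ^ (-(1 / 2) : ℝ) + e₀) ≤
        CL * (Xs + (Ns : ℝ) ^ (-(1 / 2) : ℝ) + e₀) :=
      mul_le_mul_of_nonneg_right hCL (by positivity)
    linarith only [h1, hNs9, he0]
  have hAX : A * Xs ≤ 1 :=
    le_trans (mul_le_mul_of_nonneg_left (le_trans hXsτ hτ2) (zero_le_one.trans hA)) hAx
  have hCsA : Cs / (Ns : ℝ) ≤ A * Xs := by
    have h1 : Cs / (Ns : ℝ) ≤ Cs * (Ns : ℝ) ^ (-(1 / 2) : ℝ) := by
      rw [div_eq_mul_one_div]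
      exact mul_le_mul_of_nonneg_left hNs8 (zero_le_one.trans hCs)
    have h2 : Xs ≤ A * Xs := le_mul_of_one_le_left hXs0.le hA
    have h3 : Cs * (Ns : ℝ) ^ (-(1 / 2) : ℝ) ≤ Xs := by rw [hXs]; linarith only [hes0]
    linarith only [h1, h2, h3]
  have L0 : Lev K γ A σ c Nb Ns g (om []) (om []) Xs Cs 0 es es := by
    refine ⟨ke8_pre_mono pre hCsA hAX (le_of_eq hXs.symm) le_rfl hCsA, hrot [],
      le_trans hNs8 hXs1, ?_, ?_, hdD, hdT⟩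
    · intro t; simpa using (hg1 t).1
    · intro t; simpa using (hg1 t).2
  have hblk1 : ∀ k : ℕ, blk c (16 ^ k * Ns) (16 ^ (k + 1) * Ns) ≤ e₀ := by
    intro k
    have h1 := hN₀ Ns hNs3 (k + 1)
    have h2 : blk c (16 ^ k * Ns) (16 ^ (k + 1) * Ns) ^ 2 ≤ ∑ k ∈ Finset.range (k + 1),
        blk c (16 ^ k * Ns) (16 ^ (k + 1) * Ns) ^ 2 :=
      Finset.single_le_sum (f := fun k => blk c (16 ^ k * Ns) (16 ^ (k + 1) * Ns) ^ 2)
        (fun i _ => sq_nonneg _) (Finset.mem_range.mpr (Nat.lt_succ_self k))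
    have h3 : blk c (16 ^ k * Ns) (16 ^ (k + 1) * Ns) ^ 2 ≤ e₀ ^ 2 :=
      le_trans h2 (le_trans h1 (le_trans (min_le_right _ _) (min_le_left _ _)))
    exact le_of_sq_le_sq h3 he0.le
  obtain ⟨g₀, hg₀⟩ := hlow σ x₁ c Ns k₀ Nb (om []) Xs Cs es es e₀ g hσ0 (by linarith only [hσ1, hσa1]) hx0 hx3 hNs4
    hk1 (by rw [hNb]) hc.rs hNbK (hAdv Ns hNs2) hDif
    (by
      intro A' B ω ω' g h1 h2 h3 h4 h5 h6 h7 h8 h9
      have hb := hlowf c A' B Nb ω ω' g hK hγ0 hγ1 h1 h2 (by exact_mod_cast h3) h4 hNbK h5 h6 h7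
        hc.rs h8 h9
      intro z hz
      refine le_trans (hb z hz) ?_
      have hB0 : 0 ≤ blk c A' B := blk_nonneg' _ _ _
      have hm : (0 : ℝ) ≤ max (B : ℝ) Nb := le_max_of_le_left (by positivity)
      refine div_le_div_of_nonneg_right ?_ (by positivity)
      refine mul_le_mul_of_nonneg_right ?_ hB0
      exact mul_le_mul_of_nonneg_right hCf1C (by positivity))
    hblk1 he0.le he2 L0 (by linarith only [hCs]) hes0.le hes0.le (by linarith only [hVbdef])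
    (le_trans hX0 hτ2)
    (le_trans hX0 (by linarith only [hτ3]))
  rw [← hNb] at hg₀
  have hCLk : CL * (k₀ + 1) / (Nb : ℝ) ≤ CL / R := by
    rw [div_le_div_iff₀ hNb0 (by linarith only [hR0])]
    have := mul_le_mul_of_nonneg_left hNbk hCL0.le
    linarith only [this]
  have hCLk0 : 0 ≤ CL * (k₀ + 1) / (Nb : ℝ) := by positivity
  have hbt : ∀ m : ℕ, ∑ k ∈ Finset.range m, blk c (Nb * 16 ^ k) (Nb * 16 ^ (k + 1)) ^ 2 ≤
      min δ (min (e₀ ^ 2) 1) := by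
    intro m
    have := hN₀ Nb (by omega) m
    simpa only [mul_comm Nb] using this
  refine ⟨Nb, Mc, g₀, om, CL * (Xs + (Ns : ℝ) ^ (-(1 / 2) : ℝ) + e₀), 2 * Cs + 1,
    CL * (Xs + (Ns : ℝ) ^ (-(1 / 2) : ℝ) + e₀), 2 * (es + CL * (k₀ + 1) / Nb),
    2 * (es + CL * (Xs + (Ns : ℝ) ^ (-(1 / 2) : ℝ) + e₀)), ?_, le_trans hX0 hτ1,
    fun m => le_trans (hbt m) (min_le_left _ _), ?_, ?_, ?_, ?_, ?_⟩
  · refine ⟨hK, hγ0, hγ1, hA, hσ0, by linarith only [hσ1, hσa1], hC1, hCf0, hCt, hVb, hx0, hx3, le_rfl, hNbK, hNb16',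
      hX00, by linarith only [hCs], by linarith only [hVbdef], hX00, by linarith only [hX0, hτ3],
      by positivity, by positivity, hc.rs,
      ⟨hMc, hrot, hdist, hwt⟩, hAdv Nb (by omega), hDif, ?_, ?_⟩
    · intro A' B ω ω' g h1 h2 h3 h4 h5 h6 h7 h8 h9
      have h4' : (Nb : ℝ) ≤ (B : ℝ) := by exact_mod_cast h4
      have hmx : max (B : ℝ) Nb = B := max_eq_left h4'
      have hb := hhighf c A' B Nb ω ω' g hK hγ0 hγ1 h1 h2 (by exact_mod_cast h3) h4' hNbK h5 h6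
        (by rw [hmx]; exact h7) hc.rs h8 h9
      rw [hmx] at hb
      intro z hz
      refine le_trans (hb z hz) (add_le_add ?_ le_rfl)
      have hB0 : 0 ≤ blk c A' B := blk_nonneg' _ _ _
      refine div_le_div_of_nonneg_right ?_ (by positivity)
      refine mul_le_mul_of_nonneg_right ?_ hB0
      exact mul_le_mul_of_nonneg_right hCf2C (by positivity)
    · intro d
      have hd := hdist [] d
      simp only [List.length_nil, pow_zero, mul_one] at hd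
      exact hg₀ (om [d]) (hrot [d]) hd
  · have h1 : (Nb : ℝ) ^ (-(1 / 2) : ℝ) ≤ δ / 2 := by
      refine ke8_neg_half (by positivity) (le_trans ?_ hNbR)
      rw [hR]; linarith only [hR1, hR2, hR3, hR4]
    linarith only [h1]
  · intro j
    have h1 := hbt (j + 1)
    have h2 : blk c (Nb * 16 ^ j) (Nb * 16 ^ (j + 1)) ^ 2 ≤ ∑ k ∈ Finset.range (j + 1),
        blk c (Nb * 16 ^ k) (Nb * 16 ^ (k + 1)) ^ 2 :=
      Finset.single_le_sum (f := fun k => blk c (Nb * 16 ^ k) (Nb * 16 ^ (k + 1)) ^ 2)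
        (fun i _ => sq_nonneg _) (Finset.mem_range.mpr (Nat.lt_succ_self j))
    have h3 : blk c (Nb * 16 ^ j) (Nb * 16 ^ (j + 1)) ^ 2 ≤ 1 ^ 2 := by
      rw [one_pow]
      exact le_trans h2 (le_trans h1 (le_trans (min_le_right _ _) (min_le_right _ _)))
    exact le_of_sq_le_sq h3 zero_le_one
  · rw [div_le_iff₀ hNb0]
    have h1 : 7 / ε ≤ Nb := by
      refine le_trans ?_ hNbR
      rw [hR]; linarith only [hR1, hR2, hR4, hR5]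
    rw [div_le_iff₀ hε] at h1
    linarith only [h1]
  · have h1 : 4 * C / (Nb : ℝ) ≤ 4 * C / R :=
      div_le_div_of_nonneg_left (by positivity) (by linarith only [hR0]) hNbR
    have h2 : (4 * CL + 8 * C) / ε ≤ R := by rw [hR]; linarith only [hR1, hR2, hR3, hR5]
    have h3 : (2 * CL + 4 * C) / R ≤ ε / 2 := by
      rw [div_le_iff₀ (by linarith only [hR0])]
      rw [div_le_iff₀ hε] at h2
      linarith only [h2]
    have h4 : (2 * CL + 4 * C) / R = 2 * (CL / R) + 4 * C / R := by ring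
    rw [h4] at h3
    linarith only [h1, h3, hCLk, hes2, hε]
  · linarith only [hes3, hX0, hτ3]

theorem kam {K₀ : ℝ} {c : ℤ → ℂ} {h : ℝ → ℝ} (hc : Table K₀ c) (hs : ContDiff ℝ 4 h)
    (hh : ∀ x : ℝ, HasSum (fun n : ℤ => c n * Complex.exp (n * x * Complex.I)) (h x : ℂ)) :
    KamOut c := by
  obtain ⟨K, γ, Vb, A, σ, x₁, C, Cf, Ct, hK, hx, hVb, hbase⟩ := ke8_base hc hs hh
  obtain ⟨δ, hδ, hsum⟩ := ke8_sum K γ Vb A C Cf Ct x₁ hx hVb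
  refine ⟨K, hK, fun ε hε => ?_⟩
  obtain ⟨Nb, Mc, g₀, om, X₀, V₀, S₀, D₀, T₀, R, h1, h2, h3, h4, h5, h6, h7⟩ := hbase δ hδ ε hε
  have hNb : (0 : ℝ) < Nb := by
    have : 0 < Nb := lt_of_lt_of_le (by norm_num) (R.Q16.trans R.NbQ)
    exact_mod_cast this
  exact ⟨1 / (Nb : ℝ), by positivity, ke8_out R h5 h6 h7 (hsum R h1 h2 h3 h4)⟩

end Pool.Agent.MP_b87ea9_an.Kam
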