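import Mathlib
import Pool.Agent.Lib.MP_b87ea9_an.KDefs
import Pool.Agent.Lib.MP_b87ea9_an.KDefs2

set_option autoImplicit false

/-! Geometry input: a table with `C²` positive curvature has a `C⁴` support function -/

namespace Pool.Agent.MP_b87ea9_an.Kam

open Real MeasureTheory

/-- linear functional given by the outward normal when the tangent direction is `x` -/
private noncomputable def kf (x : ℝ) (z : ℂ) : ℝ := z.re * sin x - z.im * cos x

private lemma kf_of_dual (f : StrongDual ℝ ℂ) (hf : ∃ z, f z ≠ 0) :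
    ∃ (r x : ℝ), 0 < r ∧ ∀ z, f z = r * kf x z := by
  have h1 : ∀ z : ℂ, f z = z.re * f 1 + z.im * f Complex.I := by
    intro z
    have : z = z.re • (1 : ℂ) + z.im • Complex.I := by
      apply Complex.ext <;> simp
    conv_lhs => rw [this]
    rw [map_add, map_smul, map_smul, smul_eq_mul, smul_eq_mul]
  set w : ℂ := ⟨-f Complex.I, f 1⟩ with hw
  have hw0 : w ≠ 0 := by
    intro h0
    obtain ⟨z, hz⟩ := hf
    apply hz
    have ha : w.re = 0 := by rw [h0]; rfl
    have hb : w.im = 0 := by rw [h0]; rfl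
    simp only [hw] at ha hb
    rw [h1, hb]
    have : f Complex.I = 0 := by linarith
    rw [this]
    ring
  refine ⟨‖w‖, Complex.arg w, norm_pos_iff.2 hw0, fun z => ?_⟩
  have hc := Complex.norm_mul_cos_arg w
  have hs := Complex.norm_mul_sin_arg w
  rw [h1]
  unfold kf
  have hc' : ‖w‖ * cos (Complex.arg w) = -f Complex.I := hc
  have hs' : ‖w‖ * sin (Complex.arg w) = f 1 := hs
  linear_combination (-z.re) * hs' + z.im * hc'

private lemma kf_exp (x t : ℝ) : kf x (Complex.exp (t * Complex.I)) = sin (x - t) := by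
  rw [Complex.exp_mul_I]
  simp [kf, ← Complex.ofReal_cos, ← Complex.ofReal_sin, sin_sub]
  ring

private lemma kf_congr {x y : ℝ} (h : cos (x - y) = 1) (z : ℂ) : kf x z = kf y z := by
  have hs : sin (x - y) = 0 := by
    have := sin_sq_add_cos_sq (x - y)
    rw [h] at this
    nlinarith
  have h1 : sin x = sin y := by
    have : x = (x - y) + y := by ring
    rw [this, sin_add, h, hs]; ring
  have h2 : cos x = cos y := by
    have : x = (x - y) + y := by ring
    rw [this, cos_add, h, hs]; ring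
  unfold kf
  rw [h1, h2]

private lemma kf_hasDeriv {Γ : ℝ → ℂ} {v : ℂ} {s x : ℝ} (h : HasDerivAt Γ v s) :
    HasDerivAt (fun s => kf x (Γ s)) (kf x v) s := by
  unfold kf
  have hre : HasDerivAt (fun s => (Γ s).re) v.re s :=
    Complex.reCLM.hasFDerivAt.comp_hasDerivAt s h
  have him : HasDerivAt (fun s => (Γ s).im) v.im s :=
    Complex.imCLM.hasFDerivAt.comp_hasDerivAt s h
  exact (hre.mul_const _).sub (him.mul_const _)

/-- lower bound of a positive periodic continuous function -/
private lemma per_pos {κ : ℝ → ℝ} (hc : Continuous κ) (hp : ∀ s, 0 < κ s) {l : ℝ} (hl : 0 < l)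
    (hper : ∀ s, κ (s + l) = κ s) : ∃ m, 0 < m ∧ ∀ s, m ≤ κ s := by
  obtain ⟨y, hy, hmin⟩ := isCompact_Icc.exists_isMinOn (Set.nonempty_Icc.2 hl.le)
    hc.continuousOn
  refine ⟨κ y, hp y, fun s => ?_⟩
  have hper' : Function.Periodic κ l := hper
  obtain ⟨z, hz, hz2⟩ := hper'.exists_mem_Ico₀ hl s
  rw [hz2]
  exact hmin (Set.Ico_subset_Icc_self hz)

section core

variable {T : Set ℂ} (hT : IsTable T) {l : ℝ} (hl : 0 < l) {Γ Γ1 : ℝ → ℂ} {κ : ℝ → ℝ}
  (hr : Set.range Γ = frontier T) (h1 : ∀ s, HasDerivAt Γ (Γ1 s) s)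
  (h2 : ∀ s, HasDerivAt Γ1 (κ s * Complex.I * Γ1 s) s) (hn : ∀ s, ‖Γ1 s‖ = 1)
  (hκ : ContDiff ℝ 2 κ) (hp : ∀ s, 0 < κ s) (hper : ∀ s, κ (s + l) = κ s)

include hn h2 hκ in
private lemma exists_angle : ∃ θ : ℝ → ℝ, (∀ s, HasDerivAt θ (κ s) s) ∧
    ∀ s, Γ1 s = Complex.exp (θ s * Complex.I) := by
  set θ : ℝ → ℝ := fun s => Complex.arg (Γ1 0) + ∫ t in (0 : ℝ)..s, κ t with hθ
  have hd : ∀ s, HasDerivAt θ (κ s) s := by
    intro s
    have := (hκ.continuous.integral_hasStrictDerivAt 0 s).hasDerivAt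
    exact this.const_add _
  refine ⟨θ, hd, ?_⟩
  have hE : ∀ s, HasDerivAt (fun s : ℝ => Complex.exp (-(θ s : ℂ) * Complex.I))
      (Complex.exp (-(θ s : ℂ) * Complex.I) * (-(κ s : ℂ) * Complex.I)) s := by
    intro s
    exact (((hd s).ofReal_comp.neg).mul_const Complex.I).cexp
  have hF : ∀ s, HasDerivAt (fun s : ℝ => Γ1 s * Complex.exp (-(θ s : ℂ) * Complex.I)) 0 s := by
    intro s
    refine ((h2 s).mul (hE s)).congr_deriv ?_
    ring
  have hconst := is_const_of_deriv_eq_zero (fun s => (hF s).differentiableAt)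
    (fun s => (hF s).deriv)
  intro s
  have h3 : Γ1 s * Complex.exp (-(θ s : ℂ) * Complex.I) =
      Γ1 0 * Complex.exp (-(θ 0 : ℂ) * Complex.I) := hconst s 0
  have hθ0 : θ 0 = Complex.arg (Γ1 0) := by simp [hθ]
  have h4 : Γ1 0 = Complex.exp (θ 0 * Complex.I) := by
    rw [hθ0]
    have := Complex.norm_mul_exp_arg_mul_I (Γ1 0)
    rw [hn 0, Complex.ofReal_one, one_mul] at this
    exact this.symm
  rw [h4, ← Complex.exp_add] at h3
  have h5 : (θ 0 : ℂ) * Complex.I + -(θ 0 : ℂ) * Complex.I = 0 := by ring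
  rw [h5, Complex.exp_zero] at h3
  have h6 : Complex.exp (-(θ s : ℂ) * Complex.I) * Complex.exp (θ s * Complex.I) = 1 := by
    rw [← Complex.exp_add]
    simp
  calc Γ1 s = Γ1 s * (Complex.exp (-(θ s : ℂ) * Complex.I) * Complex.exp (θ s * Complex.I)) := by
        rw [h6, mul_one]
    _ = (Γ1 s * Complex.exp (-(θ s : ℂ) * Complex.I)) * Complex.exp (θ s * Complex.I) := by ring
    _ = Complex.exp (θ s * Complex.I) := by rw [h3, one_mul]

include h1 in
/-- the maximum of a linear functional on the curve is attained where the tangent is right -/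
private lemma angle_of_max {θ : ℝ → ℝ} (hθ : ∀ s, HasDerivAt θ (κ s) s)
    (hp : ∀ s, 0 < κ s)
    (hθ1 : ∀ s, Γ1 s = Complex.exp (θ s * Complex.I)) {x s : ℝ}
    (hmax : ∀ t, kf x (Γ t) ≤ kf x (Γ s)) : cos (x - θ s) = 1 := by
  have hd : ∀ t, HasDerivAt (fun t => kf x (Γ t)) (sin (x - θ t)) t := by
    intro t
    have := kf_hasDeriv (x := x) (h1 t)
    rwa [hθ1, kf_exp] at this
  have h0 : sin (x - θ s) = 0 := by
    have hm : IsLocalMax (fun t => kf x (Γ t)) s := Filter.Eventually.of_forall hmax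
    exact hm.hasDerivAt_eq_zero (hd s)
  have hcc : cos (x - θ s) = 1 ∨ cos (x - θ s) = -1 := by
    have := sin_sq_add_cos_sq (x - θ s)
    rw [h0] at this
    have h3 : (cos (x - θ s) - 1) * (cos (x - θ s) + 1) = 0 := by nlinarith
    rcases mul_eq_zero.1 h3 with h | h
    · left; linarith
    · right; linarith
  rcases hcc with h | h
  · exact h
  exfalso
  -- near `s` to the right the derivative is positive
  have hmono : StrictMono θ := strictMono_of_hasDerivAt_pos hθ hp
  have hcont : Continuous θ := continuous_iff_continuousAt.2 fun t => (hθ t).continuousAt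
  have hlt : ∀ᶠ t in nhds s, θ t < θ s + π :=
    hcont.continuousAt.eventually (gt_mem_nhds (by linarith [pi_pos]))
  obtain ⟨ε, hε, hball⟩ := Metric.eventually_nhds_iff.1 hlt
  have hpos : ∀ t, s < t → t < s + ε → 0 < sin (x - θ t) := by
    intro t ht1 ht2
    have h3 : θ t < θ s + π := hball (by rw [Real.dist_eq, abs_lt]; constructor <;> linarith)
    have h4 : θ s < θ t := hmono ht1
    have h5 : x - θ t = (x - θ s) - (θ t - θ s) := by ring
    rw [h5, sin_sub, h0, h]
    have := sin_pos_of_pos_of_lt_pi (x := θ t - θ s) (by linarith) (by linarith)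
    linarith
  have hsm : StrictMonoOn (fun t => kf x (Γ t)) (Set.Icc s (s + ε / 2)) := by
    refine strictMonoOn_of_deriv_pos (convex_Icc _ _)
      (fun t _ => (hd t).continuousAt.continuousWithinAt) fun t ht => ?_
    rw [interior_Icc] at ht
    rw [(hd t).deriv]
    exact hpos t ht.1 (by linarith [ht.2])
  have := hsm (Set.left_mem_Icc.2 (by linarith)) (Set.right_mem_Icc.2 (by linarith))
    (by linarith : s < s + ε / 2)
  have h6 := hmax (s + ε / 2)
  simp only at this
  linarith

include hT hr h1 in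
/-- at every point of the curve the normal functional of the tangent is maximal on `T` -/
private lemma max_of_angle {θ : ℝ → ℝ} (hθ : ∀ s, HasDerivAt θ (κ s) s)
    (hp : ∀ s, 0 < κ s)
    (hθ1 : ∀ s, Γ1 s = Complex.exp (θ s * Complex.I)) (s : ℝ) {w : ℂ} (hw : w ∈ T) :
    kf (θ s) w ≤ kf (θ s) (Γ s) := by
  obtain ⟨hcomp, hconv, hint⟩ := hT
  have hs : Γ s ∈ frontier T := hr ▸ Set.mem_range_self s
  have hsn : Γ s ∉ interior T := fun h => (disjoint_interior_frontier.le_bot ⟨h, hs⟩).elim
  obtain ⟨f, hf⟩ := geometric_hahn_banach_open_point hconv.interior isOpen_interior hsn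
  have hcl : closure (interior T) = T := by
    rw [hconv.closure_interior_eq_closure_of_nonempty_interior hint, hcomp.isClosed.closure_eq]
  have hf' : ∀ a ∈ T, f a ≤ f (Γ s) := by
    intro a ha
    rw [← hcl] at ha
    exact closure_minimal (fun b hb => (hf b hb).le)
      (isClosed_le f.continuous continuous_const) ha
  have hne : ∃ z, f z ≠ 0 := by
    by_contra hcon
    push Not at hcon
    obtain ⟨a, ha⟩ := hint
    have := hf a ha
    rw [hcon, hcon] at this
    exact lt_irrefl _ this
  obtain ⟨r, x, hr0, hfx⟩ := kf_of_dual f hne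
  have hle : ∀ a ∈ T, kf x a ≤ kf x (Γ s) := by
    intro a ha
    have := hf' a ha
    rw [hfx, hfx] at this
    exact le_of_mul_le_mul_left this hr0
  have hΓT : ∀ t, Γ t ∈ T := fun t =>
    hcomp.isClosed.frontier_subset (hr ▸ Set.mem_range_self t)
  have hang := angle_of_max h1 hθ hp hθ1 (x := x) (s := s) fun t => hle _ (hΓT t)
  rw [← kf_congr hang, ← kf_congr hang]
  exact hle w hw

include hT hl hr h1 h2 hn hκ hp hper in
private theorem core_supp : ∃ h : ℝ → ℝ, SuppFn T h := by
  obtain ⟨θ, hθ, hθ1⟩ := exists_angle h2 hn hκ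
  obtain ⟨m, hm0, hm⟩ := per_pos hκ.continuous hp hl hper
  have hmono : StrictMono θ := strictMono_of_hasDerivAt_pos hθ hp
  have hcont : Continuous θ := continuous_iff_continuousAt.2 fun t => (hθ t).continuousAt
  have hgrow : Monotone (fun s => θ s - m * s) := by
    have hgd : ∀ s, HasDerivAt (fun s => θ s - m * s) (κ s - m) s := by
      intro s
      have := (hθ s).sub ((hasDerivAt_id s).const_mul m)
      rw [mul_one] at this
      exact this
    refine monotone_of_deriv_nonneg (fun s => (hgd s).differentiableAt) fun s => ?_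
    rw [(hgd s).deriv]
    linarith [hm s]
  have htop : Filter.Tendsto θ Filter.atTop Filter.atTop := by
    refine Filter.tendsto_atTop_mono' _ (f₁ := fun s => θ 0 + m * s) ?_ ?_
    · filter_upwards [Filter.eventually_ge_atTop (0 : ℝ)] with s hs
      have := hgrow hs
      simp only [mul_zero, sub_zero] at this
      linarith
    · exact Filter.tendsto_atTop_add_const_left _ _ (Filter.tendsto_id.const_mul_atTop hm0)
  have hbot : Filter.Tendsto θ Filter.atBot Filter.atBot := by
    refine Filter.tendsto_atBot_mono' _ (?_ : θ ≤ᶠ[Filter.atBot] fun s => θ 0 + m * s) ?_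
    · filter_upwards [Filter.eventually_le_atBot (0 : ℝ)] with s hs
      have := hgrow hs
      simp only [mul_zero, sub_zero] at this
      linarith
    · exact Filter.tendsto_atBot_add_const_left _ _ (Filter.tendsto_id.const_mul_atBot hm0)
  have hsurj : Function.Surjective θ := hcont.surjective htop hbot
  set e : ℝ ≃o ℝ := hmono.orderIsoOfSurjective θ hsurj with he
  set σ : ℝ → ℝ := fun x => e.symm x with hσ
  have hσ1 : ∀ x, θ (σ x) = x := fun x => e.apply_symm_apply x
  have hσc : Continuous σ := e.symm.continuous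
  have hσd : ∀ x, HasDerivAt σ (κ (σ x))⁻¹ x := fun x =>
    HasDerivAt.of_local_left_inverse hσc.continuousAt (hθ (σ x)) (hp _).ne'
      (Filter.Eventually.of_forall hσ1)
  have hσ2 : ContDiff ℝ 2 σ := by
    have hstep : ∀ n : ℕ, n ≤ 2 → ContDiff ℝ n σ := by
      intro n
      induction n with
      | zero => intro _; exact contDiff_zero.2 hσc
      | succ n ih =>
        intro hn
        have ihn := ih (by omega)
        rw [show ((n + 1 : ℕ) : WithTop ℕ∞) = (n : WithTop ℕ∞) + 1 by push_cast; rfl,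
          contDiff_succ_iff_deriv]
        refine ⟨fun x => (hσd x).differentiableAt, by simp, ?_⟩
        have : deriv σ = fun x => (κ (σ x))⁻¹ := funext fun x => (hσd x).deriv
        rw [this]
        refine ContDiff.inv ?_ fun x => (hp _).ne'
        exact (hκ.of_le (by exact_mod_cast (by omega : n ≤ 2))).comp ihn
    exact_mod_cast hstep 2 le_rfl
  set h : ℝ → ℝ := fun x => kf x (Γ (σ x)) with hh
  have hmaxT : ∀ x, ∀ w ∈ T, kf x w ≤ h x := by
    intro x w hw
    have := max_of_angle hT hr h1 hθ hp hθ1 (σ x) hw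
    rw [hσ1] at this
    exact this
  have hΓT : ∀ t, Γ t ∈ T := fun t =>
    hT.1.isClosed.frontier_subset (hr ▸ Set.mem_range_self t)
  have hΓ1σ : ∀ x, Γ1 (σ x) = Complex.exp (x * Complex.I) := by
    intro x
    rw [hθ1, hσ1]
  -- derivatives
  have hgd : ∀ x, HasDerivAt (fun x => Γ (σ x)) (((κ (σ x))⁻¹ : ℝ) • Complex.exp (x * Complex.I)) x := by
    intro x
    have := (h1 (σ x)).scomp x (hσd x)
    rwa [hΓ1σ] at this
  have hre : ∀ x, HasDerivAt (fun x => (Γ (σ x)).re) ((κ (σ x))⁻¹ * cos x) x := by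
    intro x
    have : HasDerivAt (fun x => (Γ (σ x)).re)
      ((((κ (σ x))⁻¹ : ℝ) • Complex.exp (x * Complex.I)).re) x :=
      Complex.reCLM.hasFDerivAt.comp_hasDerivAt x (hgd x)
    refine this.congr_deriv ?_
    rw [Complex.smul_re, Complex.exp_ofReal_mul_I_re, smul_eq_mul]
  have him : ∀ x, HasDerivAt (fun x => (Γ (σ x)).im) ((κ (σ x))⁻¹ * sin x) x := by
    intro x
    have : HasDerivAt (fun x => (Γ (σ x)).im)
      ((((κ (σ x))⁻¹ : ℝ) • Complex.exp (x * Complex.I)).im) x :=
      Complex.imCLM.hasFDerivAt.comp_hasDerivAt x (hgd x)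
    refine this.congr_deriv ?_
    rw [Complex.smul_im, Complex.exp_ofReal_mul_I_im, smul_eq_mul]
  have hd1 : ∀ x, HasDerivAt h ((Γ (σ x)).re * cos x + (Γ (σ x)).im * sin x) x := by
    intro x
    have := ((hre x).mul (hasDerivAt_sin x)).sub ((him x).mul (hasDerivAt_cos x))
    refine this.congr_deriv ?_
    ring
  have hder1 : deriv h = fun x => (Γ (σ x)).re * cos x + (Γ (σ x)).im * sin x :=
    funext fun x => (hd1 x).deriv
  have hd2 : ∀ x, HasDerivAt (deriv h) ((κ (σ x))⁻¹ - h x) x := by
    intro x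
    rw [hder1]
    have := ((hre x).mul (hasDerivAt_cos x)).add ((him x).mul (hasDerivAt_sin x))
    refine this.congr_deriv ?_
    simp only [hh, kf]
    have := sin_sq_add_cos_sq x
    linear_combination (κ (σ x))⁻¹ * this
  have hder2 : deriv (deriv h) = fun x => (κ (σ x))⁻¹ - h x := funext fun x => (hd2 x).deriv
  have hκσ : ContDiff ℝ 2 (fun x => (κ (σ x))⁻¹) :=
    ContDiff.inv (hκ.comp hσ2) fun x => (hp _).ne'
  have hh1 : Continuous h := continuous_iff_continuousAt.2 fun x => (hd1 x).continuousAt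
  have hstep : ∀ n : WithTop ℕ∞, n + 1 ≠ ⊤ → n ≠ ⊤ → n ≤ 2 → ContDiff ℝ n h → ContDiff ℝ (n + 1 + 1) h := by
    intro n hnω hnω' hn2 hnh
    rw [contDiff_succ_iff_deriv]
    refine ⟨fun x => (hd1 x).differentiableAt, fun h => absurd h hnω, ?_⟩
    rw [contDiff_succ_iff_deriv]
    refine ⟨fun x => (hd2 x).differentiableAt, fun h => absurd h hnω', ?_⟩
    rw [hder2]
    exact (hκσ.of_le hn2).sub hnh
  have hc0 : ContDiff ℝ 0 h := contDiff_zero.2 hh1
  have hc2 : ContDiff ℝ (0 + 1 + 1) h := hstep 0 (by simp) (by simp) (by simp) hc0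
  have hc2' : ContDiff ℝ 2 h := by
    have : (0 + 1 + 1 : WithTop ℕ∞) = 2 := by norm_num
    rwa [this] at hc2
  have hc4 : ContDiff ℝ (2 + 1 + 1) h := hstep 2 (by decide) (by decide) le_rfl hc2'
  have hc4' : ContDiff ℝ 4 h := by
    have : (2 + 1 + 1 : WithTop ℕ∞) = 4 := by norm_num
    rwa [this] at hc4
  refine ⟨h, hc4', ?_, ?_, ?_⟩
  · intro x
    have hsame : ∀ z, kf (x + 2 * π) z = kf x z := fun z =>
      kf_congr (by rw [show x + 2 * π - x = 2 * π by ring, cos_two_pi]) z
    refine le_antisymm ?_ ?_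
    · have := hmaxT x _ (hΓT (σ (x + 2 * π)))
      rw [← hsame] at this
      exact this
    · have := hmaxT (x + 2 * π) _ (hΓT (σ x))
      rw [hsame] at this
      exact this
  · intro x
    rw [hder2]
    have := inv_pos.2 (hp (σ x))
    simpa using this
  · ext z
    constructor
    · intro hz x
      exact hmaxT x z hz
    · intro hz
      by_contra hzT
      obtain ⟨f, u, hfu, huf⟩ := geometric_hahn_banach_closed_point hT.2.1 hT.1.isClosed hzT
      have hne : ∃ z, f z ≠ 0 := by
        by_contra hcon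
        push Not at hcon
        have h3 := hfu _ (hΓT 0)
        rw [hcon] at h3 huf
        linarith
      obtain ⟨r, x, hr0, hfx⟩ := kf_of_dual f hne
      have h3 := hfu _ (hΓT (σ x))
      have h4 : f (Γ (σ x)) < f z := h3.trans huf
      rw [hfx, hfx] at h4
      have h5 := lt_of_mul_lt_mul_left h4 hr0.le
      exact absurd (hz x) (not_le.2 h5)

end core

theorem exists_suppFn {T : Set ℂ} (hT : IsTable T) (hc : HasCurvature 2 T) :
    ∃ h : ℝ → ℝ, SuppFn T h := by
  obtain ⟨l, Γ, hl, hper, -, hr, hΓ2, hΓn, hκ2, hκp⟩ := hc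
  have hκ2' : ContDiff ℝ 2 (fun s => ‖deriv (deriv Γ) s‖) := by exact_mod_cast hκ2
  have hΓ11 : ContDiff ℝ 1 (deriv Γ) := by
    have h : ContDiff ℝ (1 + 1) Γ := by
      have e : (1 + 1 : WithTop ℕ∞) = 2 := by norm_num
      rw [e]; exact hΓ2
    exact (contDiff_succ_iff_deriv.1 h).2.2
  have hd1 : ∀ s, HasDerivAt Γ (deriv Γ s) s := fun s =>
    (hΓ2.differentiable (by norm_num) s).hasDerivAt
  have hd2 : ∀ s, HasDerivAt (deriv Γ) (deriv (deriv Γ) s) s := fun s =>
    (hΓ11.differentiable (by norm_num) s).hasDerivAt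
  have hc2 : Continuous (deriv (deriv Γ)) := hΓ11.continuous_deriv le_rfl
  have hc1 : Continuous (deriv Γ) := hΓ11.continuous
  have hunit : ∀ s, (deriv Γ s).re ^ 2 + (deriv Γ s).im ^ 2 = 1 := by
    intro s
    have := hΓn s
    have h2 := Complex.sq_norm (deriv Γ s)
    rw [this, Complex.normSq_apply] at h2
    nlinarith
  have horth : ∀ s, (deriv Γ s).re * (deriv (deriv Γ) s).re +
      (deriv Γ s).im * (deriv (deriv Γ) s).im = 0 := by
    intro s
    have hre : HasDerivAt (fun s => (deriv Γ s).re) (deriv (deriv Γ) s).re s :=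
      Complex.reCLM.hasFDerivAt.comp_hasDerivAt s (hd2 s)
    have him : HasDerivAt (fun s => (deriv Γ s).im) (deriv (deriv Γ) s).im s :=
      Complex.imCLM.hasFDerivAt.comp_hasDerivAt s (hd2 s)
    have h3 := (hre.pow 2).add (him.pow 2)
    have h4 : HasDerivAt (fun s => (deriv Γ s).re ^ 2 + (deriv Γ s).im ^ 2) 0 s := by
      have : (fun s => (deriv Γ s).re ^ 2 + (deriv Γ s).im ^ 2) = fun _ => (1 : ℝ) :=
        funext hunit
      rw [this]
      exact hasDerivAt_const s 1
    have h5 := h3.unique h4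
    norm_num at h5
    linarith
  set c : ℝ → ℝ := fun s => (deriv Γ s).re * (deriv (deriv Γ) s).im -
    (deriv Γ s).im * (deriv (deriv Γ) s).re with hc
  have hcc : Continuous c := by
    have := Complex.continuous_re
    have := Complex.continuous_im
    fun_prop
  have hform : ∀ s, deriv (deriv Γ) s = c s * Complex.I * deriv Γ s := by
    intro s
    have h3 := horth s
    have h4 := hunit s
    apply Complex.ext
    · simp only [hc, Complex.mul_re, Complex.mul_im, Complex.ofReal_re, Complex.ofReal_im,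
        Complex.I_re, Complex.I_im]
      linear_combination (-(deriv (deriv Γ) s).re) * h4 + (deriv Γ s).re * h3
    · simp only [hc, Complex.mul_re, Complex.mul_im, Complex.ofReal_re, Complex.ofReal_im,
        Complex.I_re, Complex.I_im]
      linear_combination (-(deriv (deriv Γ) s).im) * h4 + (deriv Γ s).im * h3
  have hnorm : ∀ s, ‖deriv (deriv Γ) s‖ = |c s| := by
    intro s
    rw [hform s]
    simp [hΓn]
  have hcne : ∀ s, c s ≠ 0 := by
    intro s h0
    have := hκp s
    rw [hnorm, h0, abs_zero] at this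
    exact lt_irrefl _ this
  have hivt : ∀ s, 0 < c 0 * c s := by
    intro s
    by_contra hcon
    push Not at hcon
    have h0 : (0 : ℝ) ∈ Set.uIcc (c 0) (c s) := by
      rw [Set.mem_uIcc]
      rcases lt_or_gt_of_ne (hcne 0) with h | h
      · left; exact ⟨h.le, by nlinarith⟩
      · right; exact ⟨by nlinarith, h.le⟩
    obtain ⟨t, -, ht⟩ := intermediate_value_uIcc (f := c) hcc.continuousOn h0
    exact hcne t ht
  have hpd : ∀ s, deriv Γ (s + l) = deriv Γ s := by
    intro s
    rw [← deriv_comp_add_const]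
    congr 1
    exact funext hper
  have hpdd : ∀ s, deriv (deriv Γ) (s + l) = deriv (deriv Γ) s := by
    intro s
    rw [← deriv_comp_add_const]
    congr 1
    exact funext hpd
  rcases lt_or_gt_of_ne (hcne 0) with h0 | h0
  · -- clockwise: reverse the orientation
    have hneg : ∀ s, c s < 0 := fun s => by
      have := hivt s
      nlinarith
    refine core_supp hT hl (Γ := fun s => Γ (-s)) (Γ1 := fun s => -deriv Γ (-s))
      (κ := fun s => ‖deriv (deriv Γ) (-s)‖) ?_ ?_ ?_ ?_ ?_ ?_ ?_
    · rw [← hr]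
      exact neg_surjective.range_comp Γ
    · intro s
      have := (hd1 (-s)).scomp s (hasDerivAt_neg s)
      rw [neg_one_smul] at this
      exact this
    · intro s
      have := ((hd2 (-s)).scomp s (hasDerivAt_neg s)).neg
      refine this.congr_deriv ?_
      rw [hnorm, abs_of_neg (hneg _), hform (-s)]
      simp
    · intro s
      rw [norm_neg]
      exact hΓn _
    · exact hκ2'.comp contDiff_neg
    · intro s
      exact hκp _
    · intro s
      have := hpdd (-(s + l))
      rw [show -(s + l) + l = -s by ring] at this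
      rw [this]
  · have hpos : ∀ s, 0 < c s := fun s => by
      have := hivt s
      nlinarith
    refine core_supp hT hl (Γ := Γ) (Γ1 := deriv Γ) (κ := fun s => ‖deriv (deriv Γ) s‖)
      hr hd1 ?_ hΓn hκ2' hκp fun s => by rw [hpdd]
    intro s
    refine (hd2 s).congr_deriv ?_
    rw [hnorm, abs_of_pos (hpos s), ← hform s]

end Pool.Agent.MP_b87ea9_an.Kam
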