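import Mathlib
import Pool.Agent.Lib.MP_b87ea9_an.KDefs
import Pool.Agent.Lib.MP_b87ea9_an.KDefs2

set_option autoImplicit false

/-! Convexity at finite level -/

namespace Pool.Agent.MP_b87ea9_an.Kam

open Real MeasureTheory

/-- Sturm comparison along a parametrisation -/
lemma kg2_sturm {g g' P Q E : ℝ → ℝ} (hg : ∀ t, HasDerivAt g (g' t) t) (hg' : ∀ t, 0 < g' t)
    (hP : ∀ t, HasDerivAt P (g' t * Q t) t) (hQ : ∀ t, HasDerivAt Q (g' t * (E t - P t)) t)
    (hE : ∀ t, 0 ≤ E t) {t₁ t₂ t₃ : ℝ} (h12 : t₁ < t₂) (h23 : t₂ < t₃) (hπ : g t₃ < g t₁ + π) :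
    P t₂ * sin (g t₃ - g t₁) ≤ P t₁ * sin (g t₃ - g t₂) + P t₃ * sin (g t₂ - g t₁) := by
  have hmono : StrictMono g := strictMono_of_hasDerivAt_pos hg hg'
  -- first monotone quantity
  have hF : ∀ t, HasDerivAt (fun t => Q t * sin (g t - g t₁) - P t * cos (g t - g t₁))
      (g' t * E t * sin (g t - g t₁)) t := by
    intro t
    have h1 : HasDerivAt (fun t => g t - g t₁) (g' t) t := (hg t).sub_const _
    have h2 := ((hQ t).mul h1.sin).sub ((hP t).mul h1.cos)
    refine h2.congr_deriv ?_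
    ring
  have hG : ∀ t, HasDerivAt (fun t => Q t * sin (g t₃ - g t) + P t * cos (g t₃ - g t))
      (g' t * E t * sin (g t₃ - g t)) t := by
    intro t
    have h1 : HasDerivAt (fun t => g t₃ - g t) (-(g' t)) t := (hg t).const_sub _
    have h2 := ((hQ t).mul h1.sin).add ((hP t).mul h1.cos)
    refine h2.congr_deriv ?_
    ring
  have m1 : MonotoneOn (fun t => Q t * sin (g t - g t₁) - P t * cos (g t - g t₁)) (Set.Icc t₁ t₂) := by
    apply monotoneOn_of_deriv_nonneg (convex_Icc _ _)
    · exact fun t _ => (hF t).continuousAt.continuousWithinAt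
    · exact fun t _ => (hF t).differentiableAt.differentiableWithinAt
    · intro t ht
      rw [interior_Icc] at ht
      rw [(hF t).deriv]
      have h1 : g t₁ < g t := hmono ht.1
      have h2 : g t < g t₃ := hmono (ht.2.trans h23)
      have h3 : 0 ≤ sin (g t - g t₁) := (sin_pos_of_pos_of_lt_pi (by linarith) (by linarith)).le
      have := (hg' t).le
      have := hE t
      positivity
  have m2 : MonotoneOn (fun t => Q t * sin (g t₃ - g t) + P t * cos (g t₃ - g t)) (Set.Icc t₂ t₃) := by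
    apply monotoneOn_of_deriv_nonneg (convex_Icc _ _)
    · exact fun t _ => (hG t).continuousAt.continuousWithinAt
    · exact fun t _ => (hG t).differentiableAt.differentiableWithinAt
    · intro t ht
      rw [interior_Icc] at ht
      rw [(hG t).deriv]
      have h1 : g t₁ < g t := hmono (h12.trans ht.1)
      have h2 : g t < g t₃ := hmono ht.2
      have h3 : 0 ≤ sin (g t₃ - g t) := (sin_pos_of_pos_of_lt_pi (by linarith) (by linarith)).le
      have := (hg' t).le
      have := hE t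
      positivity
  have i1 := m1 (Set.left_mem_Icc.mpr h12.le) (Set.right_mem_Icc.mpr h12.le) h12.le
  have i2 := m2 (Set.left_mem_Icc.mpr h23.le) (Set.right_mem_Icc.mpr h23.le) h23.le
  simp only [sub_self, sin_zero, cos_zero, mul_zero, mul_one, zero_sub, zero_add] at i1 i2
  have a12 : g t₁ < g t₂ := hmono h12
  have a23 : g t₂ < g t₃ := hmono h23
  have s1 : 0 < sin (g t₂ - g t₁) := sin_pos_of_pos_of_lt_pi (by linarith) (by linarith)
  have s2 : 0 < sin (g t₃ - g t₂) := sin_pos_of_pos_of_lt_pi (by linarith) (by linarith)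
  have e : g t₃ - g t₁ = (g t₃ - g t₂) + (g t₂ - g t₁) := by ring
  rw [e, sin_add]
  nlinarith [mul_le_mul_of_nonneg_left i1 s2.le, mul_le_mul_of_nonneg_left i2 s1.le]

lemma kg2_pos {K : ℝ} (hK : 1 ≤ K) {c s ρ ρ' k q ε : ℝ} (hε : ε = 1 / (100 * K ^ 7))
    (hc : 1 / 2 ≤ c) (hs : |s| ≤ K * ε) (hρ : 1 / K ≤ ρ) (hρ1 : ρ ≤ 2 * K) (hρ' : |ρ'| ≤ 2 * K)
    (hk : |k - 1| ≤ 1 / 2) (hq : |q| ≤ K ^ 4) :
    0 ≤ c * ρ * k * (2 - k) - s * (ρ' * k ^ 2 + ρ * q) := by
  have hK0 : 0 < K := by linarith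
  have hk1 := abs_le.mp hk
  have hρ0 : 0 < ρ := lt_of_lt_of_le (by positivity) hρ
  have h1 : 3 / 4 ≤ k * (2 - k) := by nlinarith
  have h2 : 3 / (8 * K) ≤ c * ρ * k * (2 - k) := by
    have h3 : 1 / 2 * (1 / K) ≤ c * ρ := by gcongr
    have h4 : 1 / 2 * (1 / K) * (3 / 4) ≤ c * ρ * (k * (2 - k)) := by gcongr
    calc 3 / (8 * K) = 1 / 2 * (1 / K) * (3 / 4) := by field_simp; norm_num
      _ ≤ c * ρ * (k * (2 - k)) := h4
      _ = _ := by ring
  have h5 : |ρ' * k ^ 2 + ρ * q| ≤ 10 * K ^ 5 := by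
    have hk2 : |k ^ 2| ≤ 4 := by rw [abs_of_nonneg (sq_nonneg k)]; nlinarith
    calc |ρ' * k ^ 2 + ρ * q| ≤ |ρ' * k ^ 2| + |ρ * q| := abs_add_le _ _
      _ = |ρ'| * |k ^ 2| + |ρ| * |q| := by rw [abs_mul, abs_mul]
      _ ≤ 2 * K * 4 + 2 * K * K ^ 4 := by
          rw [abs_of_pos hρ0]
          gcongr
      _ ≤ 10 * K ^ 5 := by
          have : K * 1 ≤ K * K ^ 4 := by
            gcongr
            exact one_le_pow₀ hK
          nlinarith
  have hKε0 : 0 ≤ K * ε := (abs_nonneg s).trans hs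
  have h6 : |s * (ρ' * k ^ 2 + ρ * q)| ≤ K * ε * (10 * K ^ 5) := by
    rw [abs_mul]
    exact mul_le_mul hs h5 (abs_nonneg _) hKε0
  have h7 : K * ε * (10 * K ^ 5) = 1 / (10 * K) := by
    rw [hε]; field_simp; norm_num
  rw [h7] at h6
  have h8 := (abs_le.mp h6).2
  have h9 : 1 / (10 * K) ≤ 3 / (8 * K) := by
    rw [div_le_div_iff₀ (by positivity) (by positivity)]
    nlinarith
  linarith

theorem sinconvex_of_bounds (K : ℝ) (hK : 1 ≤ K) : ∃ ε : ℝ, 0 < ε ∧ ∀ (h g : ℝ → ℝ) (ω : ℝ),
    0 < ω → ω ≤ ε → ContDiff ℝ 3 h → (∀ x, h (x + 2 * π) = h x) →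
    (∀ x, |h x| ≤ K ∧ |deriv h x| ≤ K ∧ |deriv (deriv h) x| ≤ K ∧ |deriv (deriv (deriv h)) x| ≤ K) →
    (∀ x, 1 / K ≤ h x + deriv (deriv h) x) →
    ContDiff ℝ 3 g → (∀ t, g (t + 2 * π) = g t + 2 * π) → (∀ t, 1 / K ≤ deriv g t ∧ deriv g t ≤ K) →
    (∀ t, |deriv g (t + ω) - deriv g t| ≤ ε) →
    (∀ t, |deriv (deriv g) (t + ω) / deriv g (t + ω) - deriv (deriv g) t / deriv g t| ≤ K) →
    ∃ p : ℝ → ℝ, SinConvex p ∧ ∀ t, p (g t) = pc h g ω t := by
  have hK0 : 0 < K := by linarith
  refine ⟨1 / (100 * K ^ 7), by positivity, ?_⟩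
  intro h g ω hω hωε hh hper hb hρ hg hgp hg1 hg2 hg3
  set ε : ℝ := 1 / (100 * K ^ 7) with hε
  have hε0 : 0 < ε := by positivity
  -- derivatives of `h`
  have hh1 : ContDiff ℝ 2 (deriv h) := ContDiff.iterate_deriv' 2 1 (by norm_num; exact hh)
  have hh2 : ContDiff ℝ 1 (deriv (deriv h)) := ContDiff.iterate_deriv' 1 1 (by norm_num; exact hh1)
  have dh0 : ∀ x, HasDerivAt h (deriv h x) x := fun x =>
    (hh.differentiable (by norm_num) x).hasDerivAt
  have dh1 : ∀ x, HasDerivAt (deriv h) (deriv (deriv h) x) x := fun x =>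
    (hh1.differentiable (by norm_num) x).hasDerivAt
  have dh2 : ∀ x, HasDerivAt (deriv (deriv h)) (deriv (deriv (deriv h)) x) x := fun x =>
    (hh2.differentiable (by norm_num) x).hasDerivAt
  have hg' : ContDiff ℝ 2 (deriv g) := ContDiff.iterate_deriv' 2 1 (by norm_num; exact hg)
  have dg0 : ∀ x, HasDerivAt g (deriv g x) x := fun x =>
    (hg.differentiable (by norm_num) x).hasDerivAt
  have dg1 : ∀ x, HasDerivAt (deriv g) (deriv (deriv g) x) x := fun x =>
    (hg'.differentiable (by norm_num) x).hasDerivAt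
  have gpos : ∀ t, 0 < deriv g t := fun t => lt_of_lt_of_le (by positivity) (hg1 t).1
  have dgω0 : ∀ t, HasDerivAt (fun t => g (t + ω)) (deriv g (t + ω)) t := fun t =>
    (dg0 (t + ω)).comp_add_const t ω
  have dgω1 : ∀ t, HasDerivAt (fun t => deriv g (t + ω)) (deriv (deriv g) (t + ω)) t := fun t =>
    (dg1 (t + ω)).comp_add_const t ω
  let ψ : ℝ → ℝ := fun t => (g t + g (t + ω)) / 2
  let δ : ℝ → ℝ := fun t => (g (t + ω) - g t) / 2
  let k : ℝ → ℝ := fun t => (1 + deriv g (t + ω) / deriv g t) / 2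
  let kd : ℝ → ℝ := fun t => 1 / 2 * (deriv g (t + ω) / deriv g t) *
    (deriv (deriv g) (t + ω) / deriv g (t + ω) - deriv (deriv g) t / deriv g t)
  have dψ : ∀ t, HasDerivAt ψ (deriv g t * k t) t := by
    intro t
    have h1 := ((dg0 t).add (dgω0 t)).div_const 2
    refine h1.congr_deriv ?_
    have := (gpos t).ne'
    simp only [k]
    field_simp
  have dδ : ∀ t, HasDerivAt δ (deriv g t * (k t - 1)) t := by
    intro t
    have h1 := ((dgω0 t).sub (dg0 t)).div_const 2
    refine h1.congr_deriv ?_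
    have := (gpos t).ne'
    simp only [k]
    field_simp
    ring
  have dk : ∀ t, HasDerivAt k (kd t) t := by
    intro t
    have h1 := (((dgω1 t).div (dg1 t) (gpos t).ne').const_add 1).div_const 2
    refine h1.congr_deriv ?_
    have h2 := (gpos t).ne'
    have h3 := (gpos (t + ω)).ne'
    simp only [kd]
    field_simp
  let P : ℝ → ℝ := fun t => h (ψ t) * cos (δ t) - deriv h (ψ t) * sin (δ t)
  let Q : ℝ → ℝ := fun t => deriv h (ψ t) * cos (δ t) + h (ψ t) * sin (δ t) -
    sin (δ t) * (h (ψ t) + deriv (deriv h) (ψ t)) * k t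
  let E : ℝ → ℝ := fun t => cos (δ t) * (h (ψ t) + deriv (deriv h) (ψ t)) * k t * (2 - k t) -
    sin (δ t) * ((deriv h (ψ t) + deriv (deriv (deriv h)) (ψ t)) * k t ^ 2 +
      (h (ψ t) + deriv (deriv h) (ψ t)) * (kd t / deriv g t))
  have dP : ∀ t, HasDerivAt P (deriv g t * Q t) t := by
    intro t
    have a0 : HasDerivAt (fun t => h (ψ t)) (deriv h (ψ t) * (deriv g t * k t)) t :=
      (dh0 (ψ t)).comp t (dψ t)
    have a1 : HasDerivAt (fun t => deriv h (ψ t)) (deriv (deriv h) (ψ t) * (deriv g t * k t)) t :=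
      (dh1 (ψ t)).comp t (dψ t)
    have := (a0.mul (dδ t).cos).sub (a1.mul (dδ t).sin)
    refine this.congr_deriv ?_
    simp only [Q]
    ring
  have dQ : ∀ t, HasDerivAt Q (deriv g t * (E t - P t)) t := by
    intro t
    have a0 : HasDerivAt (fun t => h (ψ t)) (deriv h (ψ t) * (deriv g t * k t)) t :=
      (dh0 (ψ t)).comp t (dψ t)
    have a1 : HasDerivAt (fun t => deriv h (ψ t)) (deriv (deriv h) (ψ t) * (deriv g t * k t)) t :=
      (dh1 (ψ t)).comp t (dψ t)
    have a2 : HasDerivAt (fun t => deriv (deriv h) (ψ t))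
        (deriv (deriv (deriv h)) (ψ t) * (deriv g t * k t)) t :=
      (dh2 (ψ t)).comp t (dψ t)
    have := ((a1.mul (dδ t).cos).add (a0.mul (dδ t).sin)).sub
      (((dδ t).sin.mul (a0.add a2)).mul (dk t))
    refine this.congr_deriv ?_
    have hne := (gpos t).ne'
    simp only [E, P, Pi.add_apply, Pi.mul_apply]
    have e1 : deriv g t * (kd t / deriv g t) = kd t := by field_simp
    linear_combination (-(sin (δ t) * (h (ψ t) + deriv (deriv h) (ψ t)))) * (-e1)
  have hmono : StrictMono g := strictMono_of_hasDerivAt_pos dg0 gpos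
  have hE : ∀ t, 0 ≤ E t := by
    intro t
    have hδ0 : 0 < δ t := by
      have : g t < g (t + ω) := hmono (by linarith)
      simp only [δ]; linarith
    have hδ1 : δ t ≤ K * ω := by
      have h1 : g (t + ω) - g t ≤ K * (t + ω - t) :=
        image_sub_le_mul_sub_of_deriv_le (fun x => (dg0 x).differentiableAt) (fun x => (hg1 x).2)
          (by linarith)
      have : 0 < K * ω := by positivity
      simp only [δ]; linarith
    have hKε : K * ε ≤ 1 / 100 := by
      have : 1 ≤ K ^ 6 := one_le_pow₀ hK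
      rw [hε]
      rw [mul_one_div, div_le_div_iff₀ (by positivity) (by positivity)]
      nlinarith [pow_succ K 6]
    have hδ2 : δ t ≤ K * ε := hδ1.trans (by gcongr)
    have hs : |sin (δ t)| ≤ K * ε := (abs_sin_le_abs (x := δ t)).trans (by rw [abs_of_pos hδ0]; exact hδ2)
    have hc : 1 / 2 ≤ cos (δ t) := by
      have := one_sub_sq_div_two_le_cos (x := δ t)
      nlinarith
    have hρ0 := hρ (ψ t)
    have hb0 := hb (ψ t)
    have hbb := abs_le.mp hb0.1
    have hbb1 := abs_le.mp hb0.2.1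
    have hbb2 := abs_le.mp hb0.2.2.1
    have hbb3 := abs_le.mp hb0.2.2.2
    have g0 := gpos t
    have gω0 := gpos (t + ω)
    have hk : |k t - 1| ≤ 1 / 2 := by
      have e1 : k t - 1 = (deriv g (t + ω) - deriv g t) / deriv g t / 2 := by
        simp only [k]; field_simp; ring
      rw [e1, abs_div, abs_div, abs_of_pos g0, abs_of_pos (two_pos : (0 : ℝ) < 2)]
      have h1 : |deriv g (t + ω) - deriv g t| / deriv g t ≤ ε / (1 / K) := by
        gcongr
        · exact hg2 t
        · exact (hg1 t).1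
      have h2 : ε / (1 / K) = K * ε := by field_simp
      rw [h2] at h1
      linarith
    have hr : deriv g (t + ω) / deriv g t ≤ K ^ 2 := by
      calc deriv g (t + ω) / deriv g t ≤ K / (1 / K) := by
            gcongr
            · exact (hg1 _).2
            · exact (hg1 t).1
        _ = K ^ 2 := by field_simp
    have hq : |kd t / deriv g t| ≤ K ^ 4 := by
      have e1 : |kd t / deriv g t| = 1 / 2 * (deriv g (t + ω) / deriv g t) *
          |deriv (deriv g) (t + ω) / deriv g (t + ω) - deriv (deriv g) t / deriv g t| / deriv g t := by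
        simp only [kd]
        rw [abs_div, abs_mul, abs_of_pos g0, abs_of_pos (a := 1 / 2 * (deriv g (t + ω) / deriv g t))
          (by positivity)]
      rw [e1]
      calc 1 / 2 * (deriv g (t + ω) / deriv g t) *
          |deriv (deriv g) (t + ω) / deriv g (t + ω) - deriv (deriv g) t / deriv g t| / deriv g t
          ≤ 1 * K ^ 2 * K / (1 / K) := by
            gcongr
            · norm_num
            · exact hg3 t
            · exact (hg1 t).1
        _ = K ^ 4 := by field_simp
    refine kg2_pos hK hε hc hs hρ0 (by linarith) ?_ hk hq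
    exact abs_le.mpr ⟨by linarith, by linarith⟩
  -- the inverse of `g`
  have hcont : Continuous g := hg.continuous
  have hsurj : Function.Surjective g := by
    intro x
    have hn : ∀ n : ℕ, g (n * (2 * π)) = g 0 + n * (2 * π) := by
      intro n
      induction n with
      | zero => simp
      | succ n ih =>
        have : ((n + 1 : ℕ) : ℝ) * (2 * π) = n * (2 * π) + 2 * π := by push_cast; ring
        rw [this, hgp, ih]; ring
    have hn' : ∀ n : ℕ, g (-(n * (2 * π))) = g 0 - n * (2 * π) := by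
      intro n
      induction n with
      | zero => simp
      | succ n ih =>
        have h1 := hgp (-(((n + 1 : ℕ) : ℝ) * (2 * π)))
        have : -(((n + 1 : ℕ) : ℝ) * (2 * π)) + 2 * π = -(n * (2 * π)) := by push_cast; ring
        rw [this, ih] at h1
        push_cast at h1 ⊢
        linarith
    obtain ⟨n, hn1⟩ := exists_nat_gt (|x - g 0|)
    have hπ1 : (1 : ℝ) ≤ 2 * π := by have := pi_gt_three; linarith
    have hn2 : |x - g 0| ≤ n * (2 * π) := by
      have : (n : ℝ) * 1 ≤ n * (2 * π) := by gcongr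
      linarith
    have hn3 := abs_le.mp hn2
    have hle : -((n : ℝ) * (2 * π)) ≤ n * (2 * π) := by
      have : (0 : ℝ) ≤ n * (2 * π) := by positivity
      linarith
    have := intermediate_value_Icc hle hcont.continuousOn
    have hx : x ∈ Set.Icc (g (-(n * (2 * π)))) (g (n * (2 * π))) := by
      rw [hn, hn']
      exact ⟨by linarith, by linarith⟩
    obtain ⟨t, -, ht⟩ := this hx
    exact ⟨t, ht⟩
  let i : ℝ → ℝ := Function.surjInv hsurj
  have hi : ∀ x, g (i x) = x := Function.surjInv_eq hsurj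
  have hi' : ∀ t, i (g t) = t := fun t => hmono.injective (hi (g t))
  have hPp : ∀ t, P (t + 2 * π) = P t := by
    intro t
    have hper' : ∀ x, deriv h (x + 2 * π) = deriv h x := by
      intro x
      have : (fun y => h (y + 2 * π)) = h := funext hper
      conv_rhs => rw [← this]
      rw [deriv_comp_add_const]
    have e1 : ψ (t + 2 * π) = ψ t + 2 * π := by
      simp only [ψ]
      rw [show t + 2 * π + ω = (t + ω) + 2 * π by ring, hgp, hgp]
      ring
    have e2 : δ (t + 2 * π) = δ t := by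
      simp only [δ]
      rw [show t + 2 * π + ω = (t + ω) + 2 * π by ring, hgp, hgp]
      ring
    simp only [P]
    rw [e1, e2, hper, hper']
  refine ⟨fun x => P (i x), ⟨fun x => ?_, fun x₁ x₂ x₃ h12 h23 hπ => ?_⟩, fun t => ?_⟩
  · have : i (x + 2 * π) = i x + 2 * π := by
      apply hmono.injective
      rw [hi, hgp, hi]
    simp only [this]
    exact hPp _
  · have m1 : i x₁ < i x₂ := by
      rw [← hmono.lt_iff_lt, hi, hi]; exact h12
    have m2 : i x₂ < i x₃ := by
      rw [← hmono.lt_iff_lt, hi, hi]; exact h23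
    have := kg2_sturm dg0 gpos dP dQ hE m1 m2 (by rw [hi, hi]; exact hπ)
    rw [hi, hi, hi] at this
    exact this
  · simp only [hi']
    simp only [P, ψ, δ]
    unfold pc
    rfl

end Pool.Agent.MP_b87ea9_an.Kam
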