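import Mathlib
import Pool.Agent.Lib.MP_b87ea9_an.KDefs
import Pool.Agent.Lib.MP_b87ea9_an.KDefs2

set_option autoImplicit false

/-! The limit of approximate families: the real-variable part -/

namespace Pool.Agent.MP_b87ea9_an.Kam

open Real MeasureTheory Filter Topology

/-- bounded real sequences have limits along ultrafilters -/
theorem lf_exists_lim (U : Ultrafilter ℕ) (f : ℕ → ℝ) {a b : ℝ} (h : ∀ m, f m ∈ Set.Icc a b) :
    ∃ x ∈ Set.Icc a b, Tendsto f U (𝓝 x) := by
  have h1 : Set.Icc a b ∈ Ultrafilter.map f U := by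
    show f ⁻¹' (Set.Icc a b) ∈ U
    exact univ_mem' h
  obtain ⟨x, hx, hle⟩ := isCompact_Icc.ultrafilter_le_nhds (Ultrafilter.map f U)
    (le_principal_iff.2 h1)
  exact ⟨x, hx, hle⟩

/-- limits of compositions -/
theorem lf_comp {U : Filter ℕ} {H : ℕ → ℝ → ℝ} {h : ℝ → ℝ} (hc : Continuous h) {e : ℕ → ℝ}
    (he : Tendsto e U (𝓝 0)) (hH : ∀ m x, |H m x - h x| ≤ e m) {x : ℕ → ℝ} {x₀ : ℝ}
    (hx : Tendsto x U (𝓝 x₀)) : Tendsto (fun m => H m (x m)) U (𝓝 (h x₀)) := by
  have h1 : Tendsto (fun m => H m (x m) - h (x m)) U (𝓝 0) :=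
    squeeze_zero_norm (fun m => by rw [Real.norm_eq_abs]; exact hH m (x m)) he
  have h2 : Tendsto (fun m => h (x m)) U (𝓝 (h x₀)) := (hc.tendsto x₀).comp hx
  have h3 := h1.add h2
  simpa using h3

theorem limit_family {h : ℝ → ℝ} (hc : Continuous h) (hd : Continuous (deriv h))
    (hper : ∀ x, h (x + 2 * π) = h x) {K' ω₁ ε' : ℝ} (hK' : 1 ≤ K') (hω₁ : 0 < ω₁)
    (happ : ∀ e : ℝ, 0 < e → ∃ (H G p : ℝ → ℝ) (ω : ℝ), ω ∈ Set.Icc ω₁ ε' ∧ G 0 = 0 ∧
      (∀ s t, s ≤ t → (t - s) / K' ≤ G t - G s ∧ G t - G s ≤ K' * (t - s)) ∧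
      (∀ t, G (t + 2 * π) = G t + 2 * π) ∧ (∀ t, |ELr H G ω t| ≤ e) ∧
      (∀ x, |H x - h x| ≤ e ∧ |deriv H x - deriv h x| ≤ e) ∧ SinConvex p ∧
      ∀ t, p (G t) = pc H G ω t) :
    ∃ (g : ℝ → ℝ) (ω : ℝ) (p : ℝ → ℝ), 0 < ω ∧ Continuous g ∧ StrictMono g ∧
      (∀ t, g (t + 2 * π) = g t + 2 * π) ∧ (∀ t, g (t + ω) - g t ≤ K' * ε') ∧
      (∀ t, ELr h g ω t = 0) ∧ SinConvex p ∧ (∀ t, p (g t) = pc h g ω t) := by
  classical
  have hK0 : 0 < K' := by linarith
  choose! H G p ω hω hG0 hGm hGp hEL hH hsc hpc using happ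
  set e : ℕ → ℝ := fun m => 1 / ((m : ℝ) + 1) with he
  have hepos : ∀ m, 0 < e m := fun m => by rw [he]; positivity
  set U : Ultrafilter ℕ := hyperfilter ℕ with hU
  have hUtop : (U : Filter ℕ) ≤ atTop := Nat.hyperfilter_le_atTop
  have helim : Tendsto e U (𝓝 0) := (tendsto_one_div_add_atTop_nhds_zero_nat).mono_left hUtop
  have hne : (U : Filter ℕ).NeBot := U.neBot
  -- limit of the rotation numbers
  obtain ⟨w, hw, hwlim⟩ := lf_exists_lim U (fun m => ω (e m)) fun m => hω _ (hepos m)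
  have hw0 : 0 < w := hω₁.trans_le hw.1
  -- limit of the families
  have hGbd : ∀ t m, G (e m) t ∈ Set.Icc (-(K' * |t|)) (K' * |t|) := by
    intro t m
    have h0 := hG0 _ (hepos m)
    rcases le_total 0 t with ht | ht
    · obtain ⟨a1, a2⟩ := hGm _ (hepos m) 0 t ht
      rw [h0, sub_zero, sub_zero] at a1 a2
      rw [abs_of_nonneg ht]
      have : 0 ≤ t / K' := by positivity
      exact ⟨by nlinarith, a2⟩
    · obtain ⟨a1, a2⟩ := hGm _ (hepos m) t 0 ht
      rw [h0, zero_sub, zero_sub] at a1 a2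
      rw [abs_of_nonpos ht]
      have : 0 ≤ -t / K' := div_nonneg (by linarith) hK0.le
      exact ⟨by linarith, by nlinarith⟩
  choose g hgI hg using fun t => lf_exists_lim U (fun m => G (e m) t) (hGbd t)
  have hgm : ∀ s t, s ≤ t → (t - s) / K' ≤ g t - g s ∧ g t - g s ≤ K' * (t - s) := by
    intro s t hst
    have h1 : Tendsto (fun m => G (e m) t - G (e m) s) U (𝓝 (g t - g s)) := (hg t).sub (hg s)
    exact ⟨ge_of_tendsto' h1 fun m => (hGm _ (hepos m) s t hst).1,
      le_of_tendsto' h1 fun m => (hGm _ (hepos m) s t hst).2⟩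
  have hgmono : StrictMono g := by
    intro s t hst
    have h1 := (hgm s t hst.le).1
    have h2 : 0 < (t - s) / K' := div_pos (by linarith) hK0
    linarith
  have hlipG : ∀ m s t, |G (e m) t - G (e m) s| ≤ K' * |t - s| := by
    intro m s t
    rcases le_total s t with hst | hst
    · obtain ⟨a1, a2⟩ := hGm _ (hepos m) s t hst
      have : 0 ≤ (t - s) / K' := div_nonneg (by linarith) hK0.le
      rw [abs_of_nonneg (by linarith), abs_of_nonneg (by linarith)]
      exact a2
    · obtain ⟨a1, a2⟩ := hGm _ (hepos m) t s hst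
      have : 0 ≤ (s - t) / K' := div_nonneg (by linarith) hK0.le
      rw [abs_sub_comm, abs_sub_comm t s, abs_of_nonneg (by linarith), abs_of_nonneg (by linarith)]
      exact a2
  have hgc : Continuous g := by
    have hl : LipschitzWith (Real.toNNReal K') g := by
      refine LipschitzWith.of_dist_le_mul fun t s => ?_
      rw [Real.coe_toNNReal K' hK0.le, Real.dist_eq, Real.dist_eq]
      rcases le_total s t with hst | hst
      · obtain ⟨a1, a2⟩ := hgm s t hst
        have : 0 ≤ (t - s) / K' := div_nonneg (by linarith) hK0.le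
        rw [abs_of_nonneg (by linarith), abs_of_nonneg (by linarith)]
        exact a2
      · obtain ⟨a1, a2⟩ := hgm t s hst
        have : 0 ≤ (s - t) / K' := div_nonneg (by linarith) hK0.le
        rw [abs_sub_comm, abs_sub_comm t s, abs_of_nonneg (by linarith),
          abs_of_nonneg (by linarith)]
        exact a2
    exact hl.continuous
  have hgp : ∀ t, g (t + 2 * π) = g t + 2 * π := by
    intro t
    refine tendsto_nhds_unique (hg (t + 2 * π)) ?_
    have h1 : Tendsto (fun m => G (e m) t + 2 * π) U (𝓝 (g t + 2 * π)) :=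
      (hg t).add tendsto_const_nhds
    exact h1.congr fun m => (hGp _ (hepos m) t).symm
  -- moving arguments
  have hmove : ∀ (s : ℕ → ℝ) (s₀ : ℝ), Tendsto s U (𝓝 s₀) →
      Tendsto (fun m => G (e m) (s m)) U (𝓝 (g s₀)) := by
    intro s s₀ hs
    have h1 : Tendsto (fun m => G (e m) (s m) - G (e m) s₀) U (𝓝 0) := by
      refine squeeze_zero_norm (fun m => ?_) (a := fun m => K' * |s m - s₀|) ?_
      · rw [Real.norm_eq_abs]
        exact hlipG m s₀ (s m)
      · have h2 : Tendsto (fun m => K' * |s m - s₀|) U (𝓝 (K' * |s₀ - s₀|)) :=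
          tendsto_const_nhds.mul ((hs.sub tendsto_const_nhds).abs)
        simpa using h2
    have h3 := h1.add (hg s₀)
    simpa using h3
  have hHc : ∀ (x : ℕ → ℝ) (x₀ : ℝ), Tendsto x U (𝓝 x₀) →
      Tendsto (fun m => H (e m) (x m)) U (𝓝 (h x₀)) := fun x x₀ hx =>
    lf_comp hc helim (fun m x => (hH _ (hepos m) x).1) hx
  have hHd : ∀ (x : ℕ → ℝ) (x₀ : ℝ), Tendsto x U (𝓝 x₀) →
      Tendsto (fun m => deriv (H (e m)) (x m)) U (𝓝 (deriv h x₀)) := fun x x₀ hx =>
    lf_comp hd helim (fun m x => (hH _ (hepos m) x).2) hx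
  -- limits of the two expressions
  have hpl : ∀ t, Tendsto (fun m => G (e m) (t + ω (e m))) U (𝓝 (g (t + w))) := fun t =>
    hmove _ _ (tendsto_const_nhds.add hwlim)
  have hmi : ∀ t, Tendsto (fun m => G (e m) (t - ω (e m))) U (𝓝 (g (t - w))) := fun t =>
    hmove _ _ (tendsto_const_nhds.sub hwlim)
  have hpclim : ∀ t, Tendsto (fun m => pc (H (e m)) (G (e m)) (ω (e m)) t) U
      (𝓝 (pc h g w t)) := by
    intro t
    unfold pc
    have h1 : Tendsto (fun m => (G (e m) t + G (e m) (t + ω (e m))) / 2) U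
        (𝓝 ((g t + g (t + w)) / 2)) := ((hg t).add (hpl t)).div_const 2
    have h2 : Tendsto (fun m => (G (e m) (t + ω (e m)) - G (e m) t) / 2) U
        (𝓝 ((g (t + w) - g t) / 2)) := ((hpl t).sub (hg t)).div_const 2
    exact ((hHc _ _ h1).mul ((continuous_cos.tendsto _).comp h2)).sub
      ((hHd _ _ h1).mul ((continuous_sin.tendsto _).comp h2))
  have hELlim : ∀ t, Tendsto (fun m => ELr (H (e m)) (G (e m)) (ω (e m)) t) U
      (𝓝 (ELr h g w t)) := by
    intro t
    unfold ELr
    have h1 : Tendsto (fun m => (G (e m) t + G (e m) (t + ω (e m))) / 2) U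
        (𝓝 ((g t + g (t + w)) / 2)) := ((hg t).add (hpl t)).div_const 2
    have h2 : Tendsto (fun m => (G (e m) (t + ω (e m)) - G (e m) t) / 2) U
        (𝓝 ((g (t + w) - g t) / 2)) := ((hpl t).sub (hg t)).div_const 2
    have h3 : Tendsto (fun m => (G (e m) (t - ω (e m)) + G (e m) t) / 2) U
        (𝓝 ((g (t - w) + g t) / 2)) := ((hmi t).add (hg t)).div_const 2
    have h4 : Tendsto (fun m => (G (e m) t - G (e m) (t - ω (e m))) / 2) U
        (𝓝 ((g t - g (t - w)) / 2)) := ((hg t).sub (hmi t)).div_const 2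
    exact (((hHd _ _ h1).mul ((continuous_sin.tendsto _).comp h2)).sub
      ((hHc _ _ h1).mul ((continuous_cos.tendsto _).comp h2))).add
      (((hHd _ _ h3).mul ((continuous_sin.tendsto _).comp h4)).add
        ((hHc _ _ h3).mul ((continuous_cos.tendsto _).comp h4)))
  have hEL0 : ∀ t, ELr h g w t = 0 := by
    intro t
    refine tendsto_nhds_unique (hELlim t) ?_
    exact squeeze_zero_norm (fun m => by rw [Real.norm_eq_abs]; exact hEL _ (hepos m) t) helim
  -- surjectivity
  have hgs : Function.Surjective g := by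
    have h0 : g 0 = 0 := by
      refine tendsto_nhds_unique (hg 0) ?_
      exact tendsto_const_nhds.congr fun m => (hG0 _ (hepos m)).symm
    refine hgc.surjective ?_ ?_
    · refine tendsto_atTop_mono' atTop (f₁ := fun t => t / K') ?_
        (tendsto_id.atTop_div_const hK0)
      filter_upwards [eventually_ge_atTop (0:ℝ)] with t ht
      have := (hgm 0 t ht).1
      rw [h0, sub_zero, sub_zero] at this
      exact this
    · refine tendsto_atBot_mono' atBot (f₁ := fun t => t / K') ?_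
        (tendsto_id.atBot_div_const hK0)
      filter_upwards [eventually_le_atBot (0:ℝ)] with t ht
      have := (hgm t 0 ht).1
      rw [h0, zero_sub, zero_sub, neg_div] at this
      linarith
  -- the support function
  set P : ℝ → ℝ := fun x => pc h g w (Function.surjInv hgs x) with hP
  have hPg : ∀ t, P (g t) = pc h g w t := by
    intro t
    rw [hP]
    have h1 : Function.surjInv hgs (g t) = t :=
      hgmono.injective (Function.surjInv_eq hgs (g t))
    simp only [h1]
  have hdper : ∀ x, deriv h (x + 2 * π) = deriv h x := by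
    intro x
    have h1 : (fun y => h (y + 2 * π)) = h := funext hper
    rw [← deriv_comp_add_const, h1]
  have hpcper : ∀ t, pc h g w (t + 2 * π) = pc h g w t := by
    intro t
    unfold pc
    have h1 : g (t + 2 * π + w) = g (t + w) + 2 * π := by
      rw [← hgp (t + w)]
      congr 1
      ring
    rw [h1, hgp t]
    have h2 : (g t + 2 * π + (g (t + w) + 2 * π)) / 2 = (g t + g (t + w)) / 2 + 2 * π := by ring
    have h3 : (g (t + w) + 2 * π - (g t + 2 * π)) / 2 = (g (t + w) - g t) / 2 := by ring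
    rw [h2, h3, hper, hdper]
  have hPsc : SinConvex P := by
    refine ⟨?_, ?_⟩
    · intro x
      obtain ⟨t, rfl⟩ := hgs x
      rw [← hgp t, hPg, hPg, hpcper]
    · intro x₁ x₂ x₃ h12 h23 h31
      obtain ⟨t₁, rfl⟩ := hgs x₁
      obtain ⟨t₂, rfl⟩ := hgs x₂
      obtain ⟨t₃, rfl⟩ := hgs x₃
      rw [hPg, hPg, hPg]
      have l1 : Tendsto (fun m => p (e m) (G (e m) t₁)) U (𝓝 (pc h g w t₁)) :=
        (hpclim t₁).congr fun m => (hpc _ (hepos m) t₁).symm
      have l2 : Tendsto (fun m => p (e m) (G (e m) t₂)) U (𝓝 (pc h g w t₂)) :=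
        (hpclim t₂).congr fun m => (hpc _ (hepos m) t₂).symm
      have l3 : Tendsto (fun m => p (e m) (G (e m) t₃)) U (𝓝 (pc h g w t₃)) :=
        (hpclim t₃).congr fun m => (hpc _ (hepos m) t₃).symm
      have s31 : Tendsto (fun m => sin (G (e m) t₃ - G (e m) t₁)) U (𝓝 (sin (g t₃ - g t₁))) :=
        (continuous_sin.tendsto _).comp ((hg t₃).sub (hg t₁))
      have s32 : Tendsto (fun m => sin (G (e m) t₃ - G (e m) t₂)) U (𝓝 (sin (g t₃ - g t₂))) :=
        (continuous_sin.tendsto _).comp ((hg t₃).sub (hg t₂))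
      have s21 : Tendsto (fun m => sin (G (e m) t₂ - G (e m) t₁)) U (𝓝 (sin (g t₂ - g t₁))) :=
        (continuous_sin.tendsto _).comp ((hg t₂).sub (hg t₁))
      refine le_of_tendsto_of_tendsto (l2.mul s31) ((l1.mul s32).add (l3.mul s21)) ?_
      have e1 : ∀ᶠ m in (U : Filter ℕ), G (e m) t₁ < G (e m) t₂ :=
        (hg t₁).eventually_lt (hg t₂) h12
      have e2 : ∀ᶠ m in (U : Filter ℕ), G (e m) t₂ < G (e m) t₃ :=
        (hg t₂).eventually_lt (hg t₃) h23
      have e3 : ∀ᶠ m in (U : Filter ℕ), G (e m) t₃ < G (e m) t₁ + π :=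
        (hg t₃).eventually_lt ((hg t₁).add tendsto_const_nhds) h31
      filter_upwards [e1, e2, e3] with m a1 a2 a3
      exact (hsc _ (hepos m)).2 _ _ _ a1 a2 a3
  refine ⟨g, w, P, hw0, hgc, hgmono, hgp, ?_, hEL0, hPsc, hPg⟩
  intro t
  have h1 := (hgm t (t + w) (by linarith)).2
  have h2 : K' * (t + w - t) ≤ K' * ε' := by
    have : t + w - t ≤ ε' := by linarith [hw.2]
    exact mul_le_mul_of_nonneg_left this hK0.le
  linarith

end Pool.Agent.MP_b87ea9_an.Kam
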