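import Mathlib
import Pool.Agent.Lib.MP_b87ea9_an.KDefs
import Pool.Agent.Lib.MP_b87ea9_an.KDefs2
import Pool.Agent.Lib.MP_b87ea9_an.KA1
import Pool.Agent.Lib.MP_b87ea9_an.KG0
import Pool.Agent.Lib.MP_b87ea9_an.KG2
import Pool.Agent.Lib.MP_b87ea9_an.KG3L

set_option autoImplicit false

/-! The limit of the approximate families -/

namespace Pool.Agent.MP_b87ea9_an.Kam

open Real MeasureTheory Filter Topology

/-! ### holomorphic real-symmetric functions on the real line -/

section re

variable {r : ℝ} {f : ℂ → ℂ}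

theorem lf_mem_strip (hr : 0 < r) (t : ℝ) : (t : ℂ) ∈ Strip r := by
  show |(t : ℂ).im| < r
  simpa using hr

theorem lf_eq_re (h : HP r f) (t : ℝ) : f t = ((f t).re : ℂ) := by
  apply Complex.ext
  · simp
  · rw [hp_real h t]
    simp

theorem lf_hasDerivAt (hr : 0 < r) (h : HP r f) (t : ℝ) :
    HasDerivAt (fun t : ℝ => (f t).re) ((deriv f t).re) t := by
  have h1 : DifferentiableAt ℂ f t :=
    h.hol.differentiableAt ((isOpen_strip r).mem_nhds (lf_mem_strip hr t))
  exact h1.hasDerivAt.real_of_complex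

theorem lf_deriv (hr : 0 < r) (h : HP r f) :
    deriv (fun t : ℝ => (f t).re) = fun t : ℝ => (deriv f t).re :=
  funext fun t => (lf_hasDerivAt hr h t).deriv

theorem lf_contDiff (hr : 0 < r) (h : HP r f) (n : ℕ) :
    ContDiff ℝ n (fun t : ℝ => (f t).re) := by
  rw [contDiff_iff_contDiffAt]
  intro t
  have h1 : ContDiffOn ℂ n f (Strip r) := h.hol.contDiffOn (isOpen_strip r)
  exact (h1.contDiffAt ((isOpen_strip r).mem_nhds (lf_mem_strip hr t))).real_of_complex

end re

/-! ### families of lines on the real line -/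

section fam

variable {r : ℝ} {g : ℂ → ℂ}

theorem lf_g_eq_re (h : HP r fun z => g z - z) (t : ℝ) : g t = ((g t).re : ℂ) := by
  apply Complex.ext
  · simp
  · have := hp_real h t
    simpa using this

theorem lf_g_deriv (h : HP r fun z => g z - z) {z : ℂ} (hz : z ∈ Strip r) :
    deriv g z = deriv (fun z => g z - z) z + 1 := by
  have h1 : DifferentiableAt ℂ (fun z => g z - z) z :=
    h.hol.differentiableAt ((isOpen_strip r).mem_nhds hz)
  have h2 : HasDerivAt (fun z => (g z - z) + z) (deriv (fun z => g z - z) z + 1) z :=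
    h1.hasDerivAt.add (hasDerivAt_id z)
  have h3 : (fun z => (g z - z) + z) = g := by funext z; ring
  rw [h3] at h2
  exact h2.deriv

theorem lf_g_deriv2 (h : HP r fun z => g z - z) {z : ℂ} (hz : z ∈ Strip r) :
    deriv (deriv g) z = deriv (deriv (fun z => g z - z)) z := by
  have h1 : deriv g =ᶠ[𝓝 z] fun z => deriv (fun z => g z - z) z + 1 := by
    filter_upwards [(isOpen_strip r).mem_nhds hz] with w hw
    exact lf_g_deriv h hw
  rw [h1.deriv_eq, deriv_add_const]

theorem lf_g_deriv_eq_re (hr : 0 < r) (h : HP r fun z => g z - z) (t : ℝ) :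
    deriv g t = ((deriv g t).re : ℂ) := by
  have h1 := lf_eq_re (hp_deriv h) t
  rw [lf_g_deriv h (lf_mem_strip hr t), h1]
  simp

theorem lf_g_deriv2_eq_re (hr : 0 < r) (h : HP r fun z => g z - z) (t : ℝ) :
    deriv (deriv g) t = ((deriv (deriv g) t).re : ℂ) := by
  have h1 := lf_eq_re (hp_deriv (hp_deriv h)) t
  rw [lf_g_deriv2 h (lf_mem_strip hr t), h1]
  simp

theorem lf_G_deriv (hr : 0 < r) (h : HP r fun z => g z - z) :
    deriv (fun t : ℝ => (g t).re) = fun t : ℝ => (deriv g t).re := by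
  funext t
  have h0 : (fun t : ℝ => (g t).re) = fun t : ℝ => (g t - t).re + t := by
    funext t
    simp
  have h1 := (lf_hasDerivAt hr h t).add (hasDerivAt_id t)
  have h2 : deriv (fun t : ℝ => (g t - t).re + t) t =
      (deriv (fun z => g z - z) (t : ℂ)).re + 1 := h1.deriv
  rw [h0, h2, lf_g_deriv h (lf_mem_strip hr t)]
  simp

theorem lf_G_deriv2 (hr : 0 < r) (h : HP r fun z => g z - z) :
    deriv (deriv (fun t : ℝ => (g t).re)) = fun t : ℝ => (deriv (deriv g) t).re := by
  rw [lf_G_deriv hr h]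
  have h0 : (fun t : ℝ => (deriv g t).re) =
      fun t : ℝ => (deriv (fun z => g z - z) t).re + 1 := by
    funext t
    rw [lf_g_deriv h (lf_mem_strip hr t)]
    simp
  rw [h0]
  funext t
  rw [deriv_add_const, lf_deriv hr (hp_deriv h), lf_g_deriv2 h (lf_mem_strip hr t)]

theorem lf_G_contDiff (hr : 0 < r) (h : HP r fun z => g z - z) (n : ℕ) :
    ContDiff ℝ n (fun t : ℝ => (g t).re) := by
  have h0 : (fun t : ℝ => (g t).re) = fun t : ℝ => (g t - t).re + t := by
    funext t
    simp
  rw [h0]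
  exact (lf_contDiff hr h n).add contDiff_id

end fam

/-! ### truncations -/

section tr

variable {K : ℝ} {c : ℤ → ℂ}

theorem lf_exp_per (n : ℤ) (z : ℂ) : Complex.exp (n * (z + 2 * π) * Complex.I) =
    Complex.exp (n * z * Complex.I) := by
  have h1 : (n * (z + 2 * π) * Complex.I : ℂ) =
      n * z * Complex.I + n * (2 * π * Complex.I) := by ring
  rw [h1, Complex.exp_add, Complex.exp_int_mul_two_pi_mul_I, mul_one]

theorem lf_trunc_hasDerivAt (c : ℤ → ℂ) (N : ℕ) (z : ℂ) :
    HasDerivAt (trunc c N) (trunc (fun n => n * Complex.I * c n) N z) z := by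
  unfold trunc
  refine HasDerivAt.fun_sum fun n _ => ?_
  have h1 : HasDerivAt (fun z : ℂ => (n : ℂ) * z * Complex.I) ((n : ℂ) * Complex.I) z := by
    have := ((hasDerivAt_id z).const_mul (n : ℂ)).mul_const Complex.I
    simpa using this
  have h2 := (h1.cexp).const_mul (c n)
  refine h2.congr_deriv ?_
  ring

theorem lf_trunc_deriv (c : ℤ → ℂ) (N : ℕ) :
    deriv (trunc c N) = trunc (fun n => n * Complex.I * c n) N :=
  funext fun z => (lf_trunc_hasDerivAt c N z).deriv

theorem lf_trunc_hp (hrs : ∀ n, c (-n) = starRingEnd ℂ (c n)) (N : ℕ) (r : ℝ) :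
    HP r (trunc c N) := by
  refine ⟨fun z _ => (lf_trunc_hasDerivAt c N z).differentiableAt.differentiableWithinAt, ?_, ?_⟩
  · intro z
    unfold trunc
    exact Finset.sum_congr rfl fun n _ => by rw [lf_exp_per]
  · intro z
    unfold trunc
    rw [map_sum]
    refine Finset.sum_nbij' (fun n => -n) (fun n => -n) ?_ ?_ ?_ ?_ ?_
    · intro n hn
      simp only [Finset.mem_Icc] at hn ⊢
      omega
    · intro n hn
      simp only [Finset.mem_Icc] at hn ⊢
      omega
    · intro n _
      simp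
    · intro n _
      simp
    · intro n _
      rw [map_mul, hrs, Complex.conj_conj, ← Complex.exp_conj]
      congr 2
      simp only [map_mul, Complex.conj_I, map_intCast]
      push_cast
      ring

theorem lf_trunc_bd (c : ℤ → ℂ) (N : ℕ) (x : ℝ) :
    ‖trunc c N x‖ ≤ ∑ n ∈ Finset.Icc (-(N : ℤ)) N, ‖c n‖ := by
  unfold trunc
  refine norm_sum_le_of_le _ fun n _ => ?_
  rw [norm_mul]
  have h1 : ((n : ℂ) * x * Complex.I) = (((n : ℝ) * x : ℝ) : ℂ) * Complex.I := by push_cast; ring
  rw [h1, Complex.norm_exp_ofReal_mul_I, mul_one]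

theorem lf_trunc_bds (hc : Table K c) (N : ℕ) (x : ℝ) :
    ‖trunc c N x‖ ≤ K ∧ ‖deriv (trunc c N) x‖ ≤ K ∧ ‖deriv (deriv (trunc c N)) x‖ ≤ K := by
  rw [lf_trunc_deriv, lf_trunc_deriv]
  have hle : ∀ n : ℤ, (1:ℝ) ≤ (1 + |(n : ℝ)|) ^ 3 := fun n =>
    one_le_pow₀ (by linarith [abs_nonneg (n : ℝ)])
  have habs : ∀ n : ℤ, ‖(n : ℂ)‖ = |(n : ℝ)| := fun n => by
    rw [← Complex.ofReal_intCast, Complex.norm_real, Real.norm_eq_abs]
  refine ⟨?_, ?_, ?_⟩
  · refine (lf_trunc_bd _ _ _).trans (le_trans (Finset.sum_le_sum fun n _ => ?_) (hc.abs _))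
    exact le_mul_of_one_le_left (norm_nonneg _) (hle n)
  · refine (lf_trunc_bd _ _ _).trans (le_trans (Finset.sum_le_sum fun n _ => ?_) (hc.abs _))
    rw [norm_mul, norm_mul, Complex.norm_I, mul_one, habs]
    refine mul_le_mul_of_nonneg_right ?_ (norm_nonneg _)
    have := abs_nonneg (n : ℝ)
    nlinarith [mul_nonneg this this, mul_nonneg (mul_nonneg this this) this]
  · refine (lf_trunc_bd _ _ _).trans (le_trans (Finset.sum_le_sum fun n _ => ?_) (hc.abs _))
    rw [norm_mul, norm_mul, norm_mul, norm_mul, Complex.norm_I, mul_one, habs, ← mul_assoc]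
    refine mul_le_mul_of_nonneg_right ?_ (norm_nonneg _)
    have := abs_nonneg (n : ℝ)
    nlinarith [mul_nonneg this this, mul_nonneg (mul_nonneg this this) this]

theorem lf_h_per {h : ℝ → ℝ}
    (hh : ∀ x : ℝ, HasSum (fun n : ℤ => c n * Complex.exp (n * x * Complex.I)) (h x : ℂ))
    (x : ℝ) : h (x + 2 * π) = h x := by
  have h1 := hh (x + 2 * π)
  have h2 : (fun n : ℤ => c n * Complex.exp (n * ((x + 2 * π : ℝ) : ℂ) * Complex.I)) =
      fun n : ℤ => c n * Complex.exp (n * x * Complex.I) := by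
    funext n
    have := lf_exp_per n x
    push_cast
    rw [this]
  rw [h2] at h1
  exact_mod_cast h1.unique (hh x)

theorem lf_h_pos {h : ℝ → ℝ} (hc : Table K c) (hs : ContDiff ℝ 4 h)
    (hh : ∀ x : ℝ, HasSum (fun n : ℤ => c n * Complex.exp (n * x * Complex.I)) (h x : ℂ))
    (x : ℝ) : 2 / K ≤ h x + deriv (deriv h) x := by
  -- the series of `h + h''`
  have hsum : Summable fun n : ℤ => c n * (1 - (n : ℂ) ^ 2) * Complex.exp (n * x * Complex.I) := by
    have h1 : Summable fun n : ℤ => (1 + |(n : ℝ)|) ^ 3 * ‖c n‖ :=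
      summable_of_sum_le (fun n => by positivity) hc.abs
    refine Summable.of_norm_bounded h1 fun n => ?_
    have h2 : ((n : ℂ) * x * Complex.I) = (((n : ℝ) * x : ℝ) : ℂ) * Complex.I := by
      push_cast; ring
    rw [norm_mul, h2, Complex.norm_exp_ofReal_mul_I, mul_one, norm_mul, mul_comm]
    refine mul_le_mul_of_nonneg_right ?_ (norm_nonneg _)
    have h3 : ‖(1 - (n : ℂ) ^ 2)‖ ≤ 1 + |(n : ℝ)| ^ 2 := by
      refine (norm_sub_le _ _).trans ?_
      rw [norm_one, norm_pow, ← Complex.ofReal_intCast, Complex.norm_real, Real.norm_eq_abs]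
    have := abs_nonneg (n : ℝ)
    nlinarith [mul_nonneg this this, mul_nonneg (mul_nonneg this this) this]
  have ht1 : Tendsto (fun N : ℕ => trunc c N x + deriv (deriv (trunc c N)) x) atTop
      (𝓝 (∑' n : ℤ, c n * (1 - (n : ℂ) ^ 2) * Complex.exp (n * x * Complex.I))) := by
    have h1 := hsum.hasSum.comp (Finset.tendsto_Icc_neg (R := ℤ))
    refine h1.congr fun N => ?_
    rw [lf_trunc_deriv, lf_trunc_deriv]
    unfold trunc
    rw [← Finset.sum_add_distrib]
    simp only [Function.comp_apply]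
    refine Finset.sum_congr rfl fun n _ => ?_
    have hI : (n : ℂ) * Complex.I * ((n : ℂ) * Complex.I * c n) = -((n : ℂ) ^ 2 * c n) := by
      have := Complex.I_sq
      linear_combination ((n : ℂ) ^ 2 * c n) * this
    rw [hI]
    ring
  have ht2 : Tendsto (fun N : ℕ => trunc c N x + deriv (deriv (trunc c N)) x) atTop
      (𝓝 (((h x + deriv (deriv h) x : ℝ) : ℂ))) := by
    rw [Metric.tendsto_atTop]
    intro ε hε
    obtain ⟨N₀, hN₀⟩ := trunc_tendsto hc hs hh (ε / 4) (by positivity)
    refine ⟨N₀, fun N hN => ?_⟩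
    obtain ⟨a1, -, a3, -⟩ := hN₀ N hN x
    rw [dist_eq_norm]
    have h1 : trunc c N x + deriv (deriv (trunc c N)) x - ((h x + deriv (deriv h) x : ℝ) : ℂ) =
        (trunc c N x - h x) + (deriv (deriv (trunc c N)) x - deriv (deriv h) x) := by
      push_cast
      ring
    rw [h1]
    have h2 := norm_add_le (trunc c N x - h x)
      (deriv (deriv (trunc c N)) x - ((deriv (deriv h) x : ℝ) : ℂ))
    linarith
  have heq := tendsto_nhds_unique ht1 ht2
  have := hc.pos x
  rw [heq, Complex.ofReal_re] at this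
  exact this

end tr

/-- real version of the Euler-Lagrange expression -/
theorem lf_EL {r ω : ℝ} {h g : ℂ → ℂ} (hr : 0 < r) (hh : HP r h) (hg : HP r fun z => g z - z)
    (t : ℝ) : EL h g ω t =
      ((ELr (fun x : ℝ => (h x).re) (fun t : ℝ => (g t).re) ω t : ℝ) : ℂ) := by
  have e1 : ((t : ℂ) + (ω : ℂ)) = ((t + ω : ℝ) : ℂ) := by push_cast; ring
  have e2 : ((t : ℂ) - (ω : ℂ)) = ((t - ω : ℝ) : ℂ) := by push_cast; ring
  unfold EL Sx Sy ELr
  rw [e1, e2, lf_g_eq_re hg t, lf_g_eq_re hg (t + ω), lf_g_eq_re hg (t - ω)]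
  have a1 : ∀ a b : ℝ, ((a : ℂ) + (b : ℂ)) / 2 = (((a + b) / 2 : ℝ) : ℂ) := by
    intro a b; push_cast; ring
  have a2 : ∀ a b : ℝ, ((a : ℂ) - (b : ℂ)) / 2 = (((a - b) / 2 : ℝ) : ℂ) := by
    intro a b; push_cast; ring
  rw [a1, a1, a2, a2, lf_deriv hr hh]
  set A : ℝ := ((g t).re + (g ((t + ω : ℝ) : ℂ)).re) / 2
  set B : ℝ := ((g ((t - ω : ℝ) : ℂ)).re + (g t).re) / 2
  rw [lf_eq_re hh A, lf_eq_re hh B, lf_eq_re (hp_deriv hh) A, lf_eq_re (hp_deriv hh) B]
  simp only []
  push_cast
  ring

theorem lf_surj {G : ℝ → ℝ} (hG : Continuous G) {K' : ℝ} (hK' : 0 < K')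
    (hlo : ∀ s t, s ≤ t → (t - s) / K' ≤ G t - G s) : Function.Surjective G := by
  refine hG.surjective ?_ ?_
  · have h1 : Tendsto (fun t : ℝ => G 0 + t / K') atTop atTop :=
      tendsto_atTop_add_const_left _ _ (tendsto_id.atTop_div_const hK')
    refine tendsto_atTop_mono' atTop ?_ h1
    filter_upwards [eventually_ge_atTop (0:ℝ)] with t ht
    have := hlo 0 t ht
    rw [sub_zero] at this
    linarith
  · have h1 : Tendsto (fun t : ℝ => G 0 + t / K') atBot atBot :=
      tendsto_atBot_add_const_left _ _ (tendsto_id.atBot_div_const hK')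
    refine tendsto_atBot_mono' atBot ?_ h1
    filter_upwards [eventually_le_atBot (0:ℝ)] with t ht
    have := hlo t 0 ht
    rw [zero_sub, neg_div] at this
    linarith

theorem family_of_kam {K : ℝ} {c : ℤ → ℂ} {h : ℝ → ℝ} (hc : Table K c) (hs : ContDiff ℝ 4 h)
    (hh : ∀ x : ℝ, HasSum (fun n : ℤ => c n * Complex.exp (n * x * Complex.I)) (h x : ℂ))
    (hkam : KamOut c) (η : ℝ) (hη : 0 < η) :
    ∃ (g : ℝ → ℝ) (ω : ℝ) (p : ℝ → ℝ), 0 < ω ∧ Continuous g ∧ StrictMono g ∧
      (∀ t, g (t + 2 * π) = g t + 2 * π) ∧ (∀ t, g (t + ω) - g t ≤ η) ∧ (∀ t, ELr h g ω t = 0) ∧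
      SinConvex p ∧ (∀ t, p (g t) = pc h g ω t) := by
  obtain ⟨K', hK', hkam⟩ := hkam
  have hK1 := hc.K1
  have hK0 : 0 < K := by linarith
  have hK'0 : 0 < K' := by linarith
  set K2 : ℝ := max K K' with hK2
  have hK21 : 1 ≤ K2 := hK1.trans (le_max_left _ _)
  obtain ⟨ε₀, hε₀, hsin⟩ := sinconvex_of_bounds K2 hK21
  set ε : ℝ := min ε₀ (η / K') with hε
  have hεpos : 0 < ε := lt_min hε₀ (by positivity)
  obtain ⟨ω₁, hω₁, hk⟩ := hkam ε hεpos
  have hper := lf_h_per hh
  have hcont : Continuous h := hs.continuous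
  have hdcont : Continuous (deriv h) := (hs.continuous_deriv (by norm_num))
  obtain ⟨g, ω, p, a1, a2, a3, a4, a5, a6, a7, a8⟩ :=
    limit_family (K' := K') (ω₁ := ω₁) (ε' := ε) hcont hdcont hper hK' hω₁ (by
      intro e he
      obtain ⟨N₀, hN₀⟩ := trunc_tendsto hc hs hh (min e (1 / (2 * K))) (lt_min he (by positivity))
      obtain ⟨N, g, ω, r, hN, hωlo, hωhi, hr, hg, hg', hEL, hgd, hgd2⟩ :=
        hk (min e (1 / ((N₀ : ℝ) + 1))) (lt_min he (by positivity))
      have hNN : N₀ ≤ N := by
        have h1 : (N₀ : ℝ) + 1 ≤ 1 / min e (1 / ((N₀ : ℝ) + 1)) := by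
          rw [le_div_iff₀ (lt_min he (by positivity))]
          calc ((N₀ : ℝ) + 1) * min e (1 / ((N₀ : ℝ) + 1))
              ≤ ((N₀ : ℝ) + 1) * (1 / ((N₀ : ℝ) + 1)) :=
                mul_le_mul_of_nonneg_left (min_le_right _ _) (by positivity)
            _ = 1 := by field_simp
        have h2 : (N₀ : ℝ) < N := by linarith
        exact_mod_cast h2.le
      have hω0 : 0 < ω := hω₁.trans_le hωlo
      have hT : HP r (trunc c N) := lf_trunc_hp hc.rs N r
      set H : ℝ → ℝ := fun x => (trunc c N x).re with hH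
      set G : ℝ → ℝ := fun t => (g t).re with hG
      have hH1 : deriv H = fun x : ℝ => (deriv (trunc c N) x).re := lf_deriv hr hT
      have hH2 : deriv (deriv H) = fun x : ℝ => (deriv (deriv (trunc c N)) x).re := by
        rw [hH1]
        exact lf_deriv hr (hp_deriv hT)
      have hH3 : deriv (deriv (deriv H)) =
          fun x : ℝ => (deriv (deriv (deriv (trunc c N))) x).re := by
        rw [hH2]
        exact lf_deriv hr (hp_deriv (hp_deriv hT))
      have hG1 : deriv G = fun t : ℝ => (deriv g t).re := lf_G_deriv hr hg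
      have hG2 : deriv (deriv G) = fun t : ℝ => (deriv (deriv g) t).re := lf_G_deriv2 hr hg
      have hGc : ContDiff ℝ 3 G := lf_G_contDiff hr hg 3
      have hHc : ContDiff ℝ 3 H := lf_contDiff hr hT 3
      have hclose : ∀ x : ℝ, |H x - h x| ≤ min e (1 / (2 * K)) ∧
          |deriv H x - deriv h x| ≤ min e (1 / (2 * K)) ∧
          |deriv (deriv H) x - deriv (deriv h) x| ≤ min e (1 / (2 * K)) := by
        intro x
        obtain ⟨b1, b2, b3, -⟩ := hN₀ N hNN x
        rw [hH2, hH1]
        refine ⟨?_, ?_, ?_⟩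
        · refine le_trans ?_ b1
          have := Complex.abs_re_le_norm (trunc c N x - (h x : ℂ))
          simpa using this
        · refine le_trans ?_ b2
          have := Complex.abs_re_le_norm (deriv (trunc c N) x - ((deriv h x : ℝ) : ℂ))
          simpa using this
        · refine le_trans ?_ b3
          have := Complex.abs_re_le_norm (deriv (deriv (trunc c N)) x - ((deriv (deriv h) x : ℝ) : ℂ))
          simpa using this
      have hHbd : ∀ x, |H x| ≤ K2 ∧ |deriv H x| ≤ K2 ∧ |deriv (deriv H) x| ≤ K2 ∧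
          |deriv (deriv (deriv H)) x| ≤ K2 := by
        intro x
        obtain ⟨b1, b2, b3⟩ := lf_trunc_bds hc N x
        obtain ⟨-, -, -, b4⟩ := hN₀ N hNN x
        have hKK : K ≤ K2 := le_max_left _ _
        rw [hH3, hH2, hH1]
        exact ⟨(Complex.abs_re_le_norm _).trans (b1.trans hKK),
          (Complex.abs_re_le_norm _).trans (b2.trans hKK),
          (Complex.abs_re_le_norm _).trans (b3.trans hKK),
          (Complex.abs_re_le_norm _).trans (b4.trans hKK)⟩
      have hHpos : ∀ x, 1 / K2 ≤ H x + deriv (deriv H) x := by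
        intro x
        obtain ⟨b1, -, b3⟩ := hclose x
        have b0 := lf_h_pos hc hs hh x
        have c1 := (abs_le.1 (b1.trans (min_le_right _ _))).1
        have c3 := (abs_le.1 (b3.trans (min_le_right _ _))).1
        have d1 : 1 / K2 ≤ 1 / K := one_div_le_one_div_of_le hK0 (le_max_left _ _)
        have d2 : 2 / K = 1 / K + 1 / (2 * K) + 1 / (2 * K) := by field_simp; norm_num
        linarith
      have hHper : ∀ x, H (x + 2 * π) = H x := by
        intro x
        have := hT.per x
        simp only [hH]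
        push_cast
        rw [this]
      have hGper : ∀ t, G (t + 2 * π) = G t + 2 * π := by
        intro t
        have := hg.per t
        have h2 : g (t + 2 * π) = g t + 2 * π := by linear_combination this
        simp only [hG]
        push_cast
        rw [h2]
        simp
      have hGb : ∀ t, 1 / K' ≤ deriv G t ∧ deriv G t ≤ K' := by
        intro t
        rw [hG1]
        exact hg' t
      have hGb2 : ∀ t, 1 / K2 ≤ deriv G t ∧ deriv G t ≤ K2 := by
        intro t
        exact ⟨(one_div_le_one_div_of_le hK'0 (le_max_right _ _)).trans (hGb t).1,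
          (hGb t).2.trans (le_max_right _ _)⟩
      have hcast : ∀ t : ℝ, ((t : ℂ) + (ω : ℂ)) = ((t + ω : ℝ) : ℂ) := fun t => by push_cast; ring
      obtain ⟨p, hp1, hp2⟩ := hsin H G ω hω0 (hωhi.trans (min_le_left _ _)) hHc hHper hHbd hHpos
        hGc hGper hGb2 (by
          intro t
          have h1 := hgd t
          rw [hcast, lf_g_deriv_eq_re hr hg t, lf_g_deriv_eq_re hr hg (t + ω),
            ← Complex.ofReal_sub, Complex.norm_real, Real.norm_eq_abs] at h1
          rw [hG1]
          exact h1.trans (min_le_left _ _)) (by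
          intro t
          have h1 := hgd2 t
          rw [hcast, lf_g_deriv_eq_re hr hg t, lf_g_deriv_eq_re hr hg (t + ω),
            lf_g_deriv2_eq_re hr hg t, lf_g_deriv2_eq_re hr hg (t + ω),
            ← Complex.ofReal_div, ← Complex.ofReal_div,
            ← Complex.ofReal_sub, Complex.norm_real, Real.norm_eq_abs] at h1
          rw [hG2, hG1]
          exact h1.trans hK21)
      have hGdiff : Differentiable ℝ G := hGc.differentiable (by norm_num)
      have hGlip : ∀ s t, s ≤ t → (t - s) / K' ≤ G t - G s ∧ G t - G s ≤ K' * (t - s) := by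
        intro s t hst
        refine ⟨?_, image_sub_le_mul_sub_of_deriv_le hGdiff (fun x => (hGb x).2) hst⟩
        have := mul_sub_le_image_sub_of_le_deriv hGdiff (fun x => (hGb x).1) hst
        calc (t - s) / K' = 1 / K' * (t - s) := by ring
          _ ≤ _ := this
      obtain ⟨t₀, ht₀⟩ := lf_surj hGdiff.continuous hK'0 (fun s t hst => (hGlip s t hst).1) 0
      refine ⟨H, fun t => G (t + t₀), p, ω, ⟨hωlo, hωhi⟩, ?_, ?_, ?_, ?_, ?_, hp1, ?_⟩
      · show G (0 + t₀) = 0
        rw [zero_add]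
        exact ht₀
      · intro s t hst
        have h1 := hGlip (s + t₀) (t + t₀) (by linarith)
        have h2 : t + t₀ - (s + t₀) = t - s := by ring
        rw [h2] at h1
        exact h1
      · intro t
        show G (t + 2 * π + t₀) = G (t + t₀) + 2 * π
        rw [← hGper]
        congr 1
        ring
      · intro t
        have h1 := hEL (t + t₀)
        rw [lf_EL hr hT hg, Complex.norm_real, Real.norm_eq_abs] at h1
        have h2 : ELr H (fun t => G (t + t₀)) ω t = ELr H G ω (t + t₀) := by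
          unfold ELr
          have q1 : t + ω + t₀ = t + t₀ + ω := by ring
          have q2 : t - ω + t₀ = t + t₀ - ω := by ring
          simp only [q1, q2]
        rw [h2]
        exact h1.trans (min_le_left _ _)
      · intro x
        exact ⟨(hclose x).1.trans (min_le_left _ _), (hclose x).2.1.trans (min_le_left _ _)⟩
      · intro t
        show p (G (t + t₀)) = _
        rw [hp2]
        unfold pc
        have q1 : t + ω + t₀ = t + t₀ + ω := by ring
        simp only [q1])
  refine ⟨g, ω, p, a1, a2, a3, a4, fun t => (a5 t).trans ?_, a6, a7, a8⟩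
  calc K' * ε ≤ K' * (η / K') := mul_le_mul_of_nonneg_left (min_le_right _ _) hK'0.le
    _ = η := by field_simp

end Pool.Agent.MP_b87ea9_an.Kam
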