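import Mathlib
import Pool.Agent.Lib.MP_b87ea9_an.KDefs
import Pool.Agent.Lib.MP_b87ea9_an.KDefs2

set_option autoImplicit false

/-! Bodies and support functions -/

namespace Pool.Agent.MP_b87ea9_an.Kam

open Real MeasureTheory

/-- reduce a direction modulo `2π` -/
theorem exists_reduce (x y : ℝ) : ∃ k : ℤ, x - π < y + k * (2 * π) ∧ y + k * (2 * π) ≤ x + π := by
  obtain ⟨k, hk, -⟩ := existsUnique_add_zsmul_mem_Ioc Real.two_pi_pos y (x - π)
  refine ⟨k, ?_⟩
  rw [zsmul_eq_mul] at hk
  exact ⟨hk.1, by linarith [hk.2]⟩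

theorem per_int {p : ℝ → ℝ} (hp : ∀ x, p (x + 2 * π) = p x) (x : ℝ) (k : ℤ) :
    p (x + k * (2 * π)) = p x := by
  have : Function.Periodic p (2 * π) := hp
  exact (this.int_mul k) x

theorem sin_per (x : ℝ) (k : ℤ) : sin (x + k * (2 * π)) = sin x := Real.sin_add_int_mul_two_pi x k

theorem cos_per (x : ℝ) (k : ℤ) : cos (x + k * (2 * π)) = cos x := Real.cos_add_int_mul_two_pi x k

/-- every line is a supporting line (no continuity needed) -/
theorem body_touch' {p : ℝ → ℝ} (hp : SinConvex p)
    (hpos : ∀ x, 0 < p x + p (x + π)) (x : ℝ) :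
    ∃ z ∈ body p, z.re * sin x - z.im * cos x = p x := by
  obtain ⟨hper, hconv⟩ := hp
  -- the basic inequality
  have key : ∀ y₁ y₂, x - π < y₁ → y₁ < x → x < y₂ → y₂ < x + π →
      p x * sin (y₂ - y₁) ≤ p y₁ * sin (y₂ - x) + p y₂ * sin (x - y₁) := by
    intro y₁ y₂ h1 h2 h3 h4
    rcases lt_trichotomy (y₂ - y₁) π with h | h | h
    · exact hconv y₁ x y₂ h2 h3 (by linarith)
    · have e1 : sin (y₂ - y₁) = 0 := by rw [h, sin_pi]
      have e2 : sin (x - y₁) = sin (y₂ - x) := by
        have : x - y₁ = π - (y₂ - x) := by linarith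
        rw [this, sin_pi_sub]
      have e3 : 0 < sin (y₂ - x) := sin_pos_of_pos_of_lt_pi (by linarith) (by linarith)
      have e4 := hpos y₁
      have e5 : y₁ + π = y₂ := by linarith
      rw [e5] at e4
      rw [e1, e2, mul_zero, ← add_mul]
      positivity
    · have h5 := hconv y₂ (x + π) (y₁ + 2 * π) (by linarith) (by linarith) (by linarith)
      have e1 : sin (y₁ + 2 * π - y₂) = -sin (y₂ - y₁) := by
        rw [← sin_neg, ← sin_add_two_pi (-(y₂ - y₁))]; congr 1; ring
      have e2 : sin (y₁ + 2 * π - (x + π)) = sin (x - y₁) := by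
        rw [← sin_pi_sub (x - y₁)]; congr 1; ring
      have e3 : sin (x + π - y₂) = sin (y₂ - x) := by
        rw [← sin_pi_sub (y₂ - x)]; congr 1; ring
      rw [e1, e2, e3, hper] at h5
      have e4 : 0 < -sin (y₂ - y₁) := by
        rw [← e1]
        exact sin_pos_of_pos_of_lt_pi (by linarith) (by linarith)
      have e5 := hpos x
      nlinarith
  -- the slope
  set L : Set ℝ := {s | ∃ y₁, x - π < y₁ ∧ y₁ < x ∧
    s = (p x * cos (x - y₁) - p y₁) / sin (x - y₁)} with hL
  have hLR : ∀ s ∈ L, ∀ y₂, x < y₂ → y₂ < x + π →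
      s ≤ (p y₂ - p x * cos (y₂ - x)) / sin (y₂ - x) := by
    rintro s ⟨y₁, h1, h2, rfl⟩ y₂ h3 h4
    have s1 : 0 < sin (x - y₁) := sin_pos_of_pos_of_lt_pi (by linarith) (by linarith)
    have s2 : 0 < sin (y₂ - x) := sin_pos_of_pos_of_lt_pi (by linarith) (by linarith)
    rw [div_le_div_iff₀ s1 s2]
    have e : sin (y₂ - y₁) = sin (y₂ - x) * cos (x - y₁) + cos (y₂ - x) * sin (x - y₁) := by
      rw [← sin_add]; congr 1; ring
    have := key y₁ y₂ h1 h2 h3 h4
    rw [e] at this
    nlinarith
  have hpi := Real.pi_pos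
  have hLne : L.Nonempty := ⟨_, x - π / 2, by linarith, by linarith, rfl⟩
  have hLbd : BddAbove L := ⟨_, fun s hs => hLR s hs (x + π / 2) (by linarith) (by linarith)⟩
  set s := sSup L with hs
  have hs1 : ∀ y₁, x - π < y₁ → y₁ < x → (p x * cos (x - y₁) - p y₁) / sin (x - y₁) ≤ s :=
    fun y₁ h1 h2 => le_csSup hLbd ⟨y₁, h1, h2, rfl⟩
  have hs2 : ∀ y₂, x < y₂ → y₂ < x + π → s ≤ (p y₂ - p x * cos (y₂ - x)) / sin (y₂ - x) :=
    fun y₂ h1 h2 => csSup_le hLne fun t ht => hLR t ht y₂ h1 h2
  -- the point
  have main : ∀ y, x - π < y → y ≤ x + π → p x * cos (y - x) + s * sin (y - x) ≤ p y := by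
    intro y h1 h2
    rcases lt_trichotomy y x with h | h | h
    · have s1 : 0 < sin (x - y) := sin_pos_of_pos_of_lt_pi (by linarith) (by linarith)
      have := (div_le_iff₀ s1).1 (hs1 y h1 h)
      have e1 : sin (y - x) = -sin (x - y) := by rw [← sin_neg]; congr 1; ring
      have e2 : cos (y - x) = cos (x - y) := by rw [← cos_neg]; congr 1; ring
      rw [e1, e2]; linarith
    · subst h; simp
    · rcases eq_or_lt_of_le h2 with h3 | h3
      · have := hpos x
        have e : y - x = π := by linarith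
        rw [e, cos_pi, sin_pi]
        rw [h3]; linarith
      · have s2 : 0 < sin (y - x) := sin_pos_of_pos_of_lt_pi (by linarith) (by linarith)
        have := (le_div_iff₀ s2).1 (hs2 y h h3)
        linarith
  refine ⟨⟨p x * sin x + s * cos x, -(p x * cos x) + s * sin x⟩, ?_, ?_⟩
  · intro y
    obtain ⟨k, hk1, hk2⟩ := exists_reduce x y
    have h1 := main _ hk1 hk2
    rw [per_int hper] at h1
    have e1 : sin (y + k * (2 * π) - x) = sin (y - x) := by
      rw [← sin_per (y - x) k]; congr 1; ring
    have e2 : cos (y + k * (2 * π) - x) = cos (y - x) := by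
      rw [← cos_per (y - x) k]; congr 1; ring
    rw [e1, e2, sin_sub, cos_sub] at h1
    simp only
    linarith
  · simp only
    have := sin_sq_add_cos_sq x
    linear_combination (p x) * this

/-- every line is a supporting line -/
theorem body_touch {p : ℝ → ℝ} (hp : SinConvex p) (hc : Continuous p)
    (hpos : ∀ x, 0 < p x + p (x + π)) (x : ℝ) :
    ∃ z ∈ body p, z.re * sin x - z.im * cos x = p x := by
  have _ := hc
  exact body_touch' hp hpos x

/-- inner product of a boundary point with a normal -/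
theorem ip_gamh (h : ℝ → ℝ) (x y : ℝ) : (gamh h x).re * sin y - (gamh h x).im * cos y =
    h x * cos (y - x) + deriv h x * sin (y - x) := by
  have e1 : (gamh h x).re = deriv h x * cos x + h x * sin x := by
    simp [gamh, Complex.mul_re, Complex.exp_ofReal_mul_I_re, Complex.exp_ofReal_mul_I_im]
  have e2 : (gamh h x).im = deriv h x * sin x - h x * cos x := by
    simp [gamh, Complex.mul_im, Complex.exp_ofReal_mul_I_re, Complex.exp_ofReal_mul_I_im]
    ring
  rw [e1, e2, sin_sub, cos_sub]; ring

section Arc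

variable {h : ℝ → ℝ}

private theorem W_deriv (hs : ContDiff ℝ 4 h) (y t : ℝ) :
    HasDerivAt (fun t => h t * cos (y - t) + deriv h t * sin (y - t))
      ((h t + deriv (deriv h) t) * sin (y - t)) t := by
  have h1 : HasDerivAt h (deriv h t) t := (hs.differentiable (by norm_num) t).hasDerivAt
  have hs' : ContDiff ℝ 3 (deriv h) := by
    have : ContDiff ℝ (3 + 1) h := by norm_num; exact hs
    exact (contDiff_succ_iff_deriv.1 this).2.2
  have h2 : HasDerivAt (deriv h) (deriv (deriv h) t) t :=
    (hs'.differentiable (by norm_num) t).hasDerivAt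
  have h3 : HasDerivAt (fun t => y - t) (-1) t := by
    simpa using (hasDerivAt_id t).const_sub y
  have h4 : HasDerivAt (fun t => cos (y - t)) (sin (y - t)) t := by
    have := h3.cos
    simpa using this
  have h5 : HasDerivAt (fun t => sin (y - t)) (-cos (y - t)) t := by
    have := h3.sin
    simpa using this
  exact ((h1.mul h4).add (h2.mul h5)).congr_deriv (by ring)

theorem arc_lt (hs : ContDiff ℝ 4 h) (hpos : ∀ x, 0 < h x + deriv (deriv h) x) {x y : ℝ}
    (h1 : x < y) (h2 : y ≤ x + π) : h x * cos (y - x) + deriv h x * sin (y - x) < h y := by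
  set W : ℝ → ℝ := fun t => h t * cos (y - t) + deriv h t * sin (y - t) with hW
  have hmono : StrictMonoOn W (Set.Icc x y) := by
    refine strictMonoOn_of_deriv_pos (convex_Icc x y)
      (fun t _ => (W_deriv hs y t).continuousAt.continuousWithinAt) fun t ht => ?_
    rw [interior_Icc] at ht
    rw [(W_deriv hs y t).deriv]
    exact mul_pos (hpos t) (sin_pos_of_pos_of_lt_pi (by linarith [ht.2]) (by linarith [ht.1]))
  have := hmono (Set.left_mem_Icc.2 h1.le) (Set.right_mem_Icc.2 h1.le) h1
  simpa [hW] using this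

theorem arc_lt' (hs : ContDiff ℝ 4 h) (hpos : ∀ x, 0 < h x + deriv (deriv h) x) {x y : ℝ}
    (h1 : y < x) (h2 : x - π ≤ y) : h x * cos (y - x) + deriv h x * sin (y - x) < h y := by
  set W : ℝ → ℝ := fun t => h t * cos (y - t) + deriv h t * sin (y - t) with hW
  have hmono : StrictAntiOn W (Set.Icc y x) := by
    refine strictAntiOn_of_deriv_neg (convex_Icc y x)
      (fun t _ => (W_deriv hs y t).continuousAt.continuousWithinAt) fun t ht => ?_
    rw [interior_Icc] at ht
    rw [(W_deriv hs y t).deriv]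
    exact mul_neg_of_pos_of_neg (hpos t)
      (sin_neg_of_neg_of_neg_pi_lt (by linarith [ht.1]) (by linarith [ht.2]))
  have := hmono (Set.left_mem_Icc.2 h1.le) (Set.right_mem_Icc.2 h1.le) h1
  simpa [hW] using this

/-- strict inequality unless the directions coincide -/
theorem ip_gamh_lt {T : Set ℂ} (hS : SuppFn T h) {x y : ℝ} (hne : ∀ k : ℤ, y + k * (2 * π) ≠ x) :
    (gamh h x).re * sin y - (gamh h x).im * cos y < h y := by
  obtain ⟨k, hk1, hk2⟩ := exists_reduce x y
  rw [ip_gamh, ← per_int hS.per y k, ← sin_per (y - x) k, ← cos_per (y - x) k]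
  have e : y - x + k * (2 * π) = y + k * (2 * π) - x := by ring
  rw [e]
  rcases lt_or_gt_of_ne (hne k) with h | h
  · exact arc_lt' hS.smooth hS.pos h hk1.le
  · exact arc_lt hS.smooth hS.pos h hk2

theorem ip_gamh_self (h : ℝ → ℝ) (x : ℝ) :
    (gamh h x).re * sin x - (gamh h x).im * cos x = h x := by
  rw [ip_gamh]; simp

theorem ip_gamh_le {T : Set ℂ} (hS : SuppFn T h) (x y : ℝ) :
    (gamh h x).re * sin y - (gamh h x).im * cos y ≤ h y := by
  by_cases hne : ∀ k : ℤ, y + k * (2 * π) ≠ x
  · exact (ip_gamh_lt hS hne).le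
  · push Not at hne
    obtain ⟨k, hk⟩ := hne
    have := ip_gamh_self h x
    rw [← hk, sin_per, cos_per, per_int hS.per] at this
    rw [← hk]; exact this.le

end Arc

/-- Cauchy–Schwarz for the pairing with a normal -/
theorem ip_le_norm (w : ℂ) (x : ℝ) : w.re * sin x - w.im * cos x ≤ ‖w‖ := by
  have h1 : (w.re * sin x - w.im * cos x) ^ 2 ≤ ‖w‖ ^ 2 := by
    rw [← Complex.normSq_eq_norm_sq, Complex.normSq_apply]
    nlinarith [sin_sq_add_cos_sq x, sq_nonneg (w.re * cos x + w.im * sin x)]
  exact abs_le_of_sq_le_sq' h1 (norm_nonneg _) |>.2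

theorem ip_add (z w : ℂ) (x : ℝ) : (z + w).re * sin x - (z + w).im * cos x =
    (z.re * sin x - z.im * cos x) + (w.re * sin x - w.im * cos x) := by
  simp only [Complex.add_re, Complex.add_im]; ring

theorem interior_body {T : Set ℂ} {h : ℝ → ℝ} (hT : IsTable T) (hS : SuppFn T h) :
    interior T = {z : ℂ | ∀ x : ℝ, z.re * sin x - z.im * cos x < h x} := by
  ext z
  constructor
  · intro hz x
    obtain ⟨r, hr, hrT⟩ := Metric.isOpen_iff.1 isOpen_interior z hz
    set w : ℂ := ((r / 2 : ℝ) : ℂ) * ⟨sin x, -cos x⟩ with hw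
    have hwn : ‖w‖ = r / 2 := by
      have h1 : ‖(⟨sin x, -cos x⟩ : ℂ)‖ = 1 := by
        rw [Complex.norm_def, Complex.normSq_mk]
        rw [show sin x * sin x + -cos x * -cos x = 1 by nlinarith [sin_sq_add_cos_sq x],
          Real.sqrt_one]
      rw [hw, norm_mul, h1, mul_one, Complex.norm_real, Real.norm_of_nonneg (by positivity)]
    have hmem : z + w ∈ T := by
      apply interior_subset
      apply hrT
      rw [Metric.mem_ball, dist_eq_norm, add_sub_cancel_left, hwn]; linarith
    rw [hS.body] at hmem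
    have h1 := hmem x
    rw [ip_add] at h1
    have h2 : w.re * sin x - w.im * cos x = r / 2 := by
      have e1 : w.re = r / 2 * sin x := by simp [hw]
      have e2 : w.im = -(r / 2 * cos x) := by simp [hw]
      rw [e1, e2]; nlinarith [sin_sq_add_cos_sq x]
    rw [h2] at h1
    linarith
  · intro hz
    -- the minimum of `h x - ⟨z, ν x⟩`
    have hcont : Continuous fun x => h x - (z.re * sin x - z.im * cos x) :=
      hS.smooth.continuous.sub (by fun_prop)
    obtain ⟨x₀, -, hx₀⟩ := (isCompact_Icc (a := (0 : ℝ)) (b := 2 * π)).exists_isMinOn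
      ⟨0, Set.left_mem_Icc.2 Real.two_pi_pos.le⟩ hcont.continuousOn
    set m := h x₀ - (z.re * sin x₀ - z.im * cos x₀) with hm
    have hm0 : 0 < m := sub_pos.2 (hz x₀)
    have hmin : ∀ x, m ≤ h x - (z.re * sin x - z.im * cos x) := by
      intro x
      obtain ⟨k, hk1, hk2⟩ := exists_reduce π x
      have h1 := hx₀ (show x + k * (2 * π) ∈ Set.Icc 0 (2 * π) from
        ⟨by linarith, by linarith⟩)
      simp only [Set.mem_ofPred_eq, per_int hS.per, sin_per, cos_per] at h1
      exact h1
    rw [mem_interior]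
    refine ⟨Metric.ball z m, fun w hw => ?_, Metric.isOpen_ball, Metric.mem_ball_self hm0⟩
    rw [hS.body]
    intro x
    have e : w = z + (w - z) := by ring
    rw [e, ip_add]
    have h1 := ip_le_norm (w - z) x
    rw [Metric.mem_ball, dist_eq_norm] at hw
    linarith [hmin x]

theorem frontier_body {T : Set ℂ} {h : ℝ → ℝ} (hT : IsTable T) (hS : SuppFn T h) :
    frontier T = Set.range (gamh h) := by
  have hcl : IsClosed T := hT.1.isClosed
  rw [hcl.frontier_eq, interior_body hT hS]
  ext z
  constructor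
  · rintro ⟨hz, hz2⟩
    simp only [Set.mem_ofPred_eq] at hz2
    push Not at hz2
    obtain ⟨x, hx⟩ := hz2
    have hzT : ∀ x, z.re * sin x - z.im * cos x ≤ h x := by
      rw [hS.body] at hz; exact hz
    have hxe : z.re * sin x - z.im * cos x = h x := le_antisymm (hzT x) hx
    -- the derivative vanishes
    have hd : HasDerivAt (fun y => h y - (z.re * sin y - z.im * cos y))
        (deriv h x - (z.re * cos x + z.im * sin x)) x := by
      have h1 : HasDerivAt h (deriv h x) x :=
        (hS.smooth.differentiable (by norm_num) x).hasDerivAt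
      have h2 : HasDerivAt (fun y => z.re * sin y - z.im * cos y)
          (z.re * cos x - z.im * (-sin x)) x :=
        ((hasDerivAt_sin x).const_mul z.re).sub ((hasDerivAt_cos x).const_mul z.im)
      exact (h1.sub h2).congr_deriv (by ring)
    have hmin : IsLocalMin (fun y => h y - (z.re * sin y - z.im * cos y)) x := by
      refine Filter.Eventually.of_forall fun y => ?_
      simp only [hxe, sub_self]
      linarith [hzT y]
    have h0 := hmin.hasDerivAt_eq_zero hd
    refine ⟨x, ?_⟩
    have hsc := sin_sq_add_cos_sq x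
    have hd' : deriv h x = z.re * cos x + z.im * sin x := by linarith
    have e1 : (gamh h x).re = deriv h x * cos x + h x * sin x := by
      simp [gamh, Complex.mul_re, Complex.exp_ofReal_mul_I_re, Complex.exp_ofReal_mul_I_im]
    have e2 : (gamh h x).im = deriv h x * sin x - h x * cos x := by
      simp [gamh, Complex.mul_im, Complex.exp_ofReal_mul_I_re, Complex.exp_ofReal_mul_I_im]
      ring
    apply Complex.ext
    · rw [e1, hd', ← hxe]; linear_combination z.re * hsc
    · rw [e2, hd', ← hxe]; linear_combination z.im * hsc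
  · rintro ⟨x, rfl⟩
    refine ⟨?_, ?_⟩
    · rw [hS.body]; exact fun y => ip_gamh_le hS x y
    · simp only [Set.mem_ofPred_eq]
      intro hcon
      have := hcon x
      rw [ip_gamh_self] at this
      exact lt_irrefl _ this

/-- the cross product with a unit vector -/
theorem cross_exp (w : ℂ) (x : ℝ) :
    (starRingEnd ℂ (Complex.exp (x * Complex.I)) * w).im = -(w.re * sin x - w.im * cos x) := by
  rw [Complex.mul_im, Complex.conj_re, Complex.conj_im, Complex.exp_ofReal_mul_I_re,
    Complex.exp_ofReal_mul_I_im]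
  ring

theorem ip_sub (z w : ℂ) (x : ℝ) : (z - w).re * sin x - (z - w).im * cos x =
    (z.re * sin x - z.im * cos x) - (w.re * sin x - w.im * cos x) := by
  simp only [Complex.sub_re, Complex.sub_im]; ring

theorem exists_angle {τ : ℂ} (hτ : ‖τ‖ = 1) : ∃ y : ℝ, τ = Complex.exp (y * Complex.I) := by
  refine ⟨Complex.arg τ, ?_⟩
  have := Complex.norm_mul_exp_arg_mul_I τ
  rw [hτ, Complex.ofReal_one, one_mul] at this
  exact this.symm

/-- the tangent is the only supporting line at a boundary point -/
theorem supports_unique {T : Set ℂ} {h : ℝ → ℝ} (hT : IsTable T) (hS : SuppFn T h) (x : ℝ) (τ : ℂ)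
    (hτ : ‖τ‖ = 1) : SupportsLine (gamh h x) τ T ↔
      τ = Complex.exp (x * Complex.I) ∨ τ = -Complex.exp (x * Complex.I) := by
  have hmem : ∀ y, gamh h y ∈ T := fun y => by
    rw [hS.body]; exact fun u => ip_gamh_le hS y u
  have hTle : ∀ z ∈ T, ∀ y, z.re * sin y - z.im * cos y ≤ h y := fun z hz => by
    rw [hS.body] at hz; exact hz
  -- a direction with the body on the left is the tangent direction
  have huniq : ∀ y : ℝ, (∀ z ∈ T, 0 ≤ (starRingEnd ℂ (Complex.exp (y * Complex.I)) *
      (z - gamh h x)).im) → Complex.exp (y * Complex.I) = Complex.exp (x * Complex.I) := by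
    intro y hy
    have h1 := hy (gamh h y) (hmem y)
    rw [cross_exp, ip_sub, ip_gamh_self] at h1
    by_cases hne : ∀ k : ℤ, y + k * (2 * π) ≠ x
    · have := ip_gamh_lt hS hne; linarith
    · push Not at hne
      obtain ⟨k, hk⟩ := hne
      rw [← hk]
      have e : (((y + k * (2 * π) : ℝ) : ℂ) * Complex.I) =
          y * Complex.I + k * (2 * π * Complex.I) := by push_cast; ring
      rw [e, Complex.exp_add, Complex.exp_int_mul_two_pi_mul_I, mul_one]
  constructor
  · rintro ⟨-, hl | hr⟩
    · obtain ⟨y, rfl⟩ := exists_angle hτ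
      exact Or.inl (huniq y hl)
    · have hτ' : ‖-τ‖ = 1 := by rw [norm_neg]; exact hτ
      obtain ⟨y, hy⟩ := exists_angle hτ'
      right
      have := huniq y (by
        rw [← hy]
        intro z hz
        rw [map_neg, neg_mul, Complex.neg_im]
        linarith [hr z hz])
      rw [← hy] at this
      rw [← this, neg_neg]
  · have hbase : ∀ z ∈ T, 0 ≤ (starRingEnd ℂ (Complex.exp (x * Complex.I)) *
        (z - gamh h x)).im := by
      intro z hz
      rw [cross_exp, ip_sub, ip_gamh_self]
      linarith [hTle z hz x]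
    rintro (rfl | rfl)
    · exact ⟨⟨gamh h x, hmem x, by simp⟩, Or.inl hbase⟩
    · refine ⟨⟨gamh h x, hmem x, by simp⟩, Or.inr fun z hz => ?_⟩
      rw [map_neg, neg_mul, Complex.neg_im]
      linarith [hbase z hz]

end Pool.Agent.MP_b87ea9_an.Kam
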