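import Mathlib
import Pool.Agent.Lib.MP_b87ea9_an.KDefs
import Pool.Agent.Lib.MP_b87ea9_an.KDefs2
import Pool.Agent.Lib.MP_b87ea9_an.KG4a

set_option autoImplicit false

/-! Geometry output: an invariant family of lines gives a convex caustic -/

namespace Pool.Agent.MP_b87ea9_an.Kam

open Real MeasureTheory

/-- pairing with the normal `(sin x, -cos x)` -/
noncomputable def ipn (z : ℂ) (x : ℝ) : ℝ := z.re * sin x - z.im * cos x

theorem ipn_add (z w : ℂ) (x : ℝ) : ipn (z + w) x = ipn z x + ipn w x := ip_add z w x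

theorem ipn_sub (z w : ℂ) (x : ℝ) : ipn (z - w) x = ipn z x - ipn w x := ip_sub z w x

theorem ipn_smul (c : ℝ) (z : ℂ) (x : ℝ) : ipn ((c : ℂ) * z) x = c * ipn z x := by
  simp only [ipn, Complex.mul_re, Complex.mul_im, Complex.ofReal_re, Complex.ofReal_im]; ring

theorem ipn_exp (θ x : ℝ) : ipn (Complex.exp (θ * Complex.I)) x = sin (x - θ) := by
  simp only [ipn, Complex.exp_ofReal_mul_I_re, Complex.exp_ofReal_mul_I_im, sin_sub]; ring

theorem ipn_pi (z : ℂ) (x : ℝ) : ipn z (x + π) = -ipn z x := by
  simp only [ipn, sin_add_pi, cos_add_pi]; ring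

/-- a vector orthogonal to the normal is a multiple of the tangent direction -/
theorem eq_of_ipn_zero {w : ℂ} {θ : ℝ} (h : ipn w θ = 0) :
    ∃ μ : ℝ, w = (μ : ℂ) * Complex.exp (θ * Complex.I) := by
  refine ⟨w.re * cos θ + w.im * sin θ, ?_⟩
  have hsc := sin_sq_add_cos_sq θ
  unfold ipn at h
  apply Complex.ext
  · simp only [Complex.mul_re, Complex.ofReal_re, Complex.ofReal_im,
      Complex.exp_ofReal_mul_I_re, Complex.exp_ofReal_mul_I_im]
    linear_combination (-w.re) * hsc + sin θ * h
  · simp only [Complex.mul_im, Complex.ofReal_re, Complex.ofReal_im,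
      Complex.exp_ofReal_mul_I_re, Complex.exp_ofReal_mul_I_im]
    linear_combination (-w.im) * hsc - cos θ * h

/-- the cross product with a multiple of a unit vector -/
theorem cross_smul (c θ : ℝ) (w : ℂ) :
    (starRingEnd ℂ ((c : ℂ) * Complex.exp (θ * Complex.I)) * w).im = -(c * ipn w θ) := by
  rw [map_mul, Complex.conj_ofReal, mul_assoc, Complex.im_ofReal_mul, cross_exp]
  unfold ipn; ring

theorem lift_surj {g : ℝ → ℝ} (hg : Continuous g) (hper : ∀ t, g (t + 2 * π) = g t + 2 * π) :
    Function.Surjective g := by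
  intro y
  have hP : Function.Periodic (fun t => g t - t) (2 * π) := fun t => by
    simp only [hper]; ring
  have hk : ∀ k : ℤ, g (k * (2 * π)) = g 0 + k * (2 * π) := by
    intro k
    have h1 := hP.int_mul k 0
    simp only [zero_add, sub_zero] at h1
    linarith
  set k : ℤ := ⌊(y - g 0) / (2 * π)⌋ with hkdef
  have h2pi := Real.two_pi_pos
  have h1 : (k : ℝ) ≤ (y - g 0) / (2 * π) := Int.floor_le _
  have h2 : (y - g 0) / (2 * π) < k + 1 := Int.lt_floor_add_one _
  rw [le_div_iff₀ h2pi] at h1
  rw [div_lt_iff₀ h2pi] at h2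
  have h3 := hk k
  have h4 := hk (k + 1)
  push_cast at h4
  have hle : (k : ℝ) * (2 * π) ≤ (k + 1) * (2 * π) := by nlinarith
  obtain ⟨t, -, ht⟩ := intermediate_value_Icc hle hg.continuousOn
    (show y ∈ Set.Icc (g (k * (2 * π))) (g ((k + 1) * (2 * π))) from
      ⟨by rw [h3]; linarith, by rw [h4]; linarith⟩)
  exact ⟨t, ht⟩

/-- description of supporting lines of the body of `p` -/
theorem supports_iff {p : ℝ → ℝ} (hp : SinConvex p) (hpos : ∀ x, 0 < p x + p (x + π)) {q u : ℂ}
    (hu : u ≠ 0) : SupportsLine q u (body p) ↔ ∃ (θ c : ℝ), c ≠ 0 ∧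
      u = (c : ℂ) * Complex.exp (θ * Complex.I) ∧ ipn q θ = p θ := by
  constructor
  · rintro ⟨⟨z₁, hz₁, h₁⟩, hl⟩
    have hun : ‖u‖ ≠ 0 := norm_ne_zero_iff.2 hu
    -- choose the sign such that the body is on the left
    obtain ⟨θ, c, hc0, hc, hleft⟩ : ∃ (θ c : ℝ), c ≠ 0 ∧
        u = (c : ℂ) * Complex.exp (θ * Complex.I) ∧ ∀ z ∈ body p, ipn z θ ≤ ipn q θ := by
      rcases hl with hl | hr
      · refine ⟨Complex.arg u, ‖u‖, hun, (Complex.norm_mul_exp_arg_mul_I u).symm, ?_⟩
        intro z hz
        have h1 := hl z hz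
        rw [← Complex.norm_mul_exp_arg_mul_I u, cross_smul, ipn_sub] at h1
        have hup : 0 < ‖u‖ := norm_pos_iff.2 hu
        by_contra hcon
        push Not at hcon
        have : 0 < ‖u‖ * (ipn z (Complex.arg u) - ipn q (Complex.arg u)) :=
          mul_pos hup (sub_pos.2 hcon)
        linarith
      · have e : u = ((-‖u‖ : ℝ) : ℂ) * Complex.exp (Complex.arg (-u) * Complex.I) := by
          have := Complex.norm_mul_exp_arg_mul_I (-u)
          rw [norm_neg] at this
          push_cast
          rw [neg_mul, this, neg_neg]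
        refine ⟨Complex.arg (-u), -‖u‖, neg_ne_zero.2 hun, e, ?_⟩
        intro z hz
        have h1 := hr z hz
        rw [e, cross_smul, ipn_sub] at h1
        have hup : 0 < ‖u‖ := norm_pos_iff.2 hu
        by_contra hcon
        push Not at hcon
        have : 0 < ‖u‖ * (ipn z (Complex.arg (-u)) - ipn q (Complex.arg (-u))) :=
          mul_pos hup (sub_pos.2 hcon)
        linarith
    refine ⟨θ, c, hc0, hc, le_antisymm ?_ ?_⟩
    · rw [hc, cross_smul, ipn_sub] at h₁
      have : c * (ipn z₁ θ - ipn q θ) = 0 := by linarith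
      rcases mul_eq_zero.1 this with h | h
      · exact absurd h hc0
      · have h2 : ipn z₁ θ ≤ p θ := hz₁ θ
        linarith
    · obtain ⟨z, hz, hzx⟩ := body_touch' hp hpos θ
      have := hleft z hz
      rw [← hzx]; exact this
  · rintro ⟨θ, c, hc0, rfl, hq⟩
    obtain ⟨z, hz, hzx⟩ := body_touch' hp hpos θ
    have hzx' : ipn z θ = p θ := hzx
    refine ⟨⟨z, hz, ?_⟩, ?_⟩
    · rw [cross_smul, ipn_sub, hzx', hq]; simp
    · have hle : ∀ w ∈ body p, ipn w θ ≤ p θ := fun w hw => hw θ
      rcases lt_or_gt_of_ne hc0 with h | h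
      · right
        intro w hw
        rw [cross_smul, ipn_sub, hq]
        nlinarith [hle w hw]
      · left
        intro w hw
        rw [cross_smul, ipn_sub, hq]
        nlinarith [hle w hw]

theorem deriv_per {h : ℝ → ℝ} (hper : ∀ x, h (x + 2 * π) = h x) (x : ℝ) :
    deriv h (x + 2 * π) = deriv h x := by
  rw [← deriv_comp_add_const h (2 * π) x]
  congr 1
  funext y
  exact hper y

theorem per_bdd {f : ℝ → ℝ} (hf : Continuous f) (hper : ∀ x, f (x + 2 * π) = f x) :
    ∃ B : ℝ, 0 ≤ B ∧ ∀ x, |f x| ≤ B := by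
  obtain ⟨B, hB⟩ := (isCompact_Icc (a := (0 : ℝ)) (b := 2 * π)).exists_bound_of_continuousOn
    hf.continuousOn
  refine ⟨B, (norm_nonneg _).trans (hB 0 (Set.left_mem_Icc.2 Real.two_pi_pos.le)), fun x => ?_⟩
  obtain ⟨k, hk1, hk2⟩ := exists_reduce π x
  have := hB (x + k * (2 * π)) ⟨by linarith, by linarith⟩
  rwa [per_int hper] at this

/-- only two boundary points on a line of the family -/
theorem end_point {T : Set ℂ} {h p : ℝ → ℝ} (hS : SuppFn T h) (hph : ∀ x, p x < h x)
    (hpos : ∀ x, 0 < p x + p (x + π)) {x θ : ℝ} (hq : ipn (gamh h x) θ = p θ) :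
    sin (x - θ) ≠ 0 := by
  intro h0
  rw [sin_eq_zero_iff] at h0
  obtain ⟨n, hn⟩ := h0
  rcases Int.even_or_odd' n with ⟨k, rfl | rfl⟩
  · -- same direction
    have e : x = θ + k * (2 * π) := by push_cast at hn; linarith
    have h1 : ipn (gamh h x) θ = h θ := by
      have h2 := ip_gamh_self h x
      rw [e, sin_per, cos_per, per_int hS.per] at h2
      rw [e]; exact h2
    linarith [hph θ]
  · have e : x = θ + π + k * (2 * π) := by push_cast at hn; linarith
    have h1 : ipn (gamh h x) (θ + π) = h (θ + π) := by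
      have h2 := ip_gamh_self h x
      rw [e, sin_per, cos_per, per_int hS.per] at h2
      rw [e]; exact h2
    rw [ipn_pi, hq] at h1
    linarith [hph (θ + π), hpos θ]

theorem caustic_of_family {T : Set ℂ} {h : ℝ → ℝ} (hT : IsTable T) (hS : SuppFn T h) :
    ∃ η : ℝ, 0 < η ∧ ∀ (g : ℝ → ℝ) (ω : ℝ) (p : ℝ → ℝ), 0 < ω → Continuous g → StrictMono g →
      (∀ t, g (t + 2 * π) = g t + 2 * π) → (∀ t, g (t + ω) - g t ≤ η) → (∀ t, ELr h g ω t = 0) →
      SinConvex p → (∀ t, p (g t) = pc h g ω t) → IsConvexCaustic T (body p) := by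
  have hcont : Continuous h := hS.smooth.continuous
  have hdiff : Differentiable ℝ h := hS.smooth.differentiable (by norm_num)
  have hcont' : Continuous (deriv h) := hS.smooth.continuous_deriv (by norm_num)
  obtain ⟨B₁, hB₁, hb₁⟩ := per_bdd hcont hS.per
  obtain ⟨B₂, hB₂, hb₂⟩ := per_bdd hcont' (deriv_per hS.per)
  -- an interior point
  obtain ⟨z₀, hz₀⟩ := hT.2.2
  have hz₀' := hz₀
  rw [interior_body hT hS] at hz₀'
  obtain ⟨m, hm, hm0⟩ : ∃ m > 0, ∀ x, ipn z₀ x + m ≤ h x := by
    have hc : Continuous fun x => h x - ipn z₀ x := hcont.sub (by unfold ipn; fun_prop)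
    obtain ⟨x₀, -, hx₀⟩ := (isCompact_Icc (a := (0 : ℝ)) (b := 2 * π)).exists_isMinOn
      ⟨0, Set.left_mem_Icc.2 Real.two_pi_pos.le⟩ hc.continuousOn
    refine ⟨h x₀ - ipn z₀ x₀, sub_pos.2 (hz₀' x₀), fun x => ?_⟩
    obtain ⟨k, hk1, hk2⟩ := exists_reduce π x
    have h1 := hx₀ (show x + k * (2 * π) ∈ Set.Icc 0 (2 * π) from ⟨by linarith, by linarith⟩)
    simp only [Set.mem_ofPred_eq, per_int hS.per, ipn, sin_per, cos_per] at h1
    simp only [ipn]; linarith
  set B := B₁ + B₂ with hBdef
  have hB : 0 ≤ B := by positivity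
  refine ⟨min 1 (m / (3 * B + 1)), lt_min one_pos (by positivity), ?_⟩
  intro g ω p hω hg hgm hgper hgη hEL hp hpc
  -- half angles
  have hδ : ∀ t, 0 < (g (t + ω) - g t) / 2 ∧ (g (t + ω) - g t) / 2 ≤ 1 / 2 ∧
      3 * B * ((g (t + ω) - g t) / 2) ≤ m / 2 := by
    intro t
    have h1 : g t < g (t + ω) := hgm (by linarith)
    have h2 := (hgη t).trans (min_le_left _ _)
    have h3 := (hgη t).trans (min_le_right _ _)
    refine ⟨by linarith, by linarith, ?_⟩
    have h4 : 3 * B * (g (t + ω) - g t) ≤ m := by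
      calc 3 * B * (g (t + ω) - g t) ≤ (3 * B + 1) * (g (t + ω) - g t) := by nlinarith
        _ ≤ (3 * B + 1) * (m / (3 * B + 1)) := mul_le_mul_of_nonneg_left h3 (by positivity)
        _ = m := by field_simp
    linarith
  have hsurj := lift_surj hg hgper
  -- `pc` as a pairing
  have hpc₁ : ∀ t, ipn (gamh h ((g t + g (t + ω)) / 2)) (g t) = p (g t) := by
    intro t
    rw [hpc t]
    have h1 := ip_gamh h ((g t + g (t + ω)) / 2) (g t)
    have e : g t - (g t + g (t + ω)) / 2 = -((g (t + ω) - g t) / 2) := by ring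
    rw [e, cos_neg, sin_neg] at h1
    unfold ipn pc
    rw [h1]; ring
  have hpc₂ : ∀ t, ipn (gamh h ((g (t - ω) + g t) / 2)) (g t) = p (g t) := by
    intro t
    rw [hpc t]
    have h1 := ip_gamh h ((g (t - ω) + g t) / 2) (g t)
    have e : g t - (g (t - ω) + g t) / 2 = (g t - g (t - ω)) / 2 := by ring
    rw [e] at h1
    have h2 := hEL t
    unfold ELr at h2
    unfold ipn pc
    rw [h1]; linarith
  have hpi3 := Real.pi_gt_three
  have hph : ∀ x, p x < h x := by
    intro x
    obtain ⟨t, rfl⟩ := hsurj x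
    obtain ⟨d1, d2, -⟩ := hδ t
    rw [← hpc₁ t]
    unfold ipn
    rw [ip_gamh]
    exact arc_lt' hS.smooth hS.pos (by linarith) (by linarith)
  have hpm : ∀ x, ipn z₀ x + m / 2 ≤ p x := by
    intro x
    obtain ⟨t, rfl⟩ := hsurj x
    obtain ⟨d1, d2, d3⟩ := hδ t
    set d := (g (t + ω) - g t) / 2 with hd
    have e : (g t + g (t + ω)) / 2 = g t + d := by rw [hd]; ring
    rw [hpc t]
    unfold pc
    rw [e, ← hd]
    have a1 : |h (g t + d) - h (g t)| ≤ B₂ * d := by
      have := Convex.norm_image_sub_le_of_norm_deriv_le (f := h) (C := B₂) (s := Set.univ)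
        (fun x _ => hdiff x) (fun x _ => hb₂ x) convex_univ (Set.mem_univ (g t))
        (Set.mem_univ (g t + d))
      rwa [add_sub_cancel_left, Real.norm_eq_abs, Real.norm_of_nonneg d1.le] at this
    have a2 : 0 ≤ 1 - cos d := by linarith [cos_le_one d]
    have a3 : 1 - cos d ≤ d := by
      have := one_sub_sq_div_two_le_cos (x := d)
      nlinarith
    have a4 : |sin d| ≤ d := by
      rw [abs_le]
      exact ⟨by linarith [sin_nonneg_of_nonneg_of_le_pi d1.le (by linarith : d ≤ π)],
        sin_le d1.le⟩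
    have a5 : |h (g t + d) * (1 - cos d)| ≤ B₁ * d := by
      rw [abs_mul, abs_of_nonneg a2]
      exact mul_le_mul (hb₁ _) a3 a2 hB₁
    have a6 : |deriv h (g t + d) * sin d| ≤ B₂ * d := by
      rw [abs_mul]
      exact mul_le_mul (hb₂ _) a4 (abs_nonneg _) hB₂
    have b1 := (abs_le.1 a1).1
    have b2 := (abs_le.1 a5).2
    have b3 := (abs_le.1 a6).2
    have b4 := hm0 (g t)
    have b5 : B₁ * d + B₂ * d + B₂ * d ≤ 3 * B * d := by
      rw [hBdef]; nlinarith
    nlinarith
  have hpos : ∀ x, 0 < p x + p (x + π) := by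
    intro x
    have h1 := hpm x
    have h2 := hpm (x + π)
    rw [ipn_pi] at h2
    linarith
  have hTle : ∀ z ∈ T, ∀ y, ipn z y ≤ h y := fun z hz => by
    rw [hS.body] at hz; exact hz
  have hself : ∀ x, ipn (gamh h x) x = h x := fun x => ip_gamh_self h x
  have hgT : ∀ x, gamh h x ∈ T := fun x => by
    rw [hS.body]; exact fun u => ip_gamh_le hS x u
  -- the reflection step
  have hstep : ∀ q q' q'' : ℂ, q ∈ T → q ≠ q' → q' ∈ frontier T → q' ≠ q'' → Reflects T q q' q'' →
      SupportsLine q (q' - q) (body p) → SupportsLine q' (q'' - q') (body p) := by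
    intro q q' q'' hqT hne hfr hne' hrefl hsup
    rw [supports_iff hp hpos (sub_ne_zero.2 hne.symm)] at hsup
    rw [supports_iff hp hpos (sub_ne_zero.2 hne'.symm)]
    obtain ⟨θ, c, hc0, hc, hq⟩ := hsup
    obtain ⟨t, rfl⟩ := hsurj θ
    rw [frontier_body hT hS] at hfr
    obtain ⟨x, rfl⟩ := hfr
    have hq'θ : ipn (gamh h x) (g t) = p (g t) := by
      have : gamh h x = q + (gamh h x - q) := by ring
      rw [this, ipn_add, hc, ipn_smul, ipn_exp, sub_self, sin_zero, mul_zero, add_zero, hq]
    have hsin := end_point hS hph hpos hq'θ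
    have hqx : ipn q x = h x - c * sin (x - g t) := by
      have : q = gamh h x - (gamh h x - q) := by ring
      rw [this, ipn_sub, hc, ipn_smul, ipn_exp, hself]
    have hqle := hTle q hqT x
    have hnorm : ‖gamh h x - q‖ = |c| := by
      rw [hc, norm_mul, Complex.norm_exp_ofReal_mul_I, mul_one, Complex.norm_real,
        Real.norm_eq_abs]
    have hn' : (‖q'' - gamh h x‖ : ℂ) ≠ 0 := by
      rw [Ne, Complex.ofReal_eq_zero, norm_eq_zero, sub_eq_zero]; exact fun h => hne' h.symm
    have hn'' : ‖q'' - gamh h x‖ ≠ 0 := by exact_mod_cast hn'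
    rcases lt_or_gt_of_ne hc0 with hneg | hposc
    · -- the body is on the right
      have hb : gamh h x = gamh h ((g (t - ω) + g t) / 2) := by
        obtain ⟨μ, hμ⟩ := eq_of_ipn_zero
          (w := gamh h x - gamh h ((g (t - ω) + g t) / 2)) (θ := g t)
          (by rw [ipn_sub, hq'θ, hpc₂ t, sub_self])
        have hδ' := hδ (t - ω)
        rw [sub_add_cancel] at hδ'
        rcases lt_trichotomy μ 0 with h1 | h1 | h1
        · exfalso
          have h2 := hTle _ (hgT x) ((g (t - ω) + g t) / 2)
          have e : gamh h x = gamh h ((g (t - ω) + g t) / 2) +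
            (μ : ℂ) * Complex.exp (g t * Complex.I) := by rw [← hμ]; ring
          rw [e, ipn_add, hself, ipn_smul, ipn_exp] at h2
          have e2 : (g (t - ω) + g t) / 2 - g t = -((g t - g (t - ω)) / 2) := by ring
          rw [e2, sin_neg] at h2
          have h3 : 0 < sin ((g t - g (t - ω)) / 2) :=
            sin_pos_of_pos_of_lt_pi hδ'.1 (by linarith [hδ'.2.1])
          nlinarith
        · rw [h1] at hμ
          simp only [Complex.ofReal_zero, zero_mul] at hμ
          exact sub_eq_zero.1 hμ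
        · exfalso
          have h2 := hTle _ (hgT ((g (t - ω) + g t) / 2)) x
          have e : gamh h ((g (t - ω) + g t) / 2) = gamh h x -
            (μ : ℂ) * Complex.exp (g t * Complex.I) := by rw [← hμ]; ring
          rw [e, ipn_sub, hself, ipn_smul, ipn_exp] at h2
          rcases lt_or_gt_of_ne hsin with h3 | h3
          · nlinarith
          · nlinarith
      have href := hrefl (Complex.exp (((g (t - ω) + g t) / 2 : ℝ) * Complex.I))
        (Complex.norm_exp_ofReal_mul_I _) (by
          rw [hb]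
          exact (supports_unique hT hS _ _ (Complex.norm_exp_ofReal_mul_I _)).2 (Or.inl rfl))
      refine ⟨g (t - ω), -‖q'' - gamh h x‖, neg_ne_zero.2 hn'', ?_, ?_⟩
      · rw [div_eq_iff hn', hnorm, abs_of_neg hneg, hc] at href
        refine href.trans ?_
        have hcC : ((-c : ℝ) : ℂ) ≠ 0 := by
          rw [Ne, Complex.ofReal_eq_zero]; exact neg_ne_zero.2 hc0
        have e1 : (c : ℂ) * Complex.exp (g t * Complex.I) / ((-c : ℝ) : ℂ) =
            -Complex.exp (g t * Complex.I) := by
          rw [div_eq_iff hcC]; push_cast; ring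
        rw [e1, map_neg, ← Complex.exp_conj, ← Complex.exp_nat_mul]
        have e2 : starRingEnd ℂ ((g t : ℂ) * Complex.I) = -((g t : ℂ) * Complex.I) := by
          rw [map_mul, Complex.conj_ofReal, Complex.conj_I]; ring
        rw [e2, mul_neg, ← Complex.exp_add]
        have e3 : ((2 : ℕ) : ℂ) * (((g (t - ω) + g t) / 2 : ℝ) * Complex.I) +
            -((g t : ℂ) * Complex.I) = (g (t - ω) : ℂ) * Complex.I := by push_cast; ring
        rw [e3]; push_cast; ring
      · rw [hb]
        have := hpc₁ (t - ω)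
        rw [sub_add_cancel] at this
        exact this
    · -- the body is on the left
      have hb : gamh h x = gamh h ((g t + g (t + ω)) / 2) := by
        obtain ⟨μ, hμ⟩ := eq_of_ipn_zero
          (w := gamh h x - gamh h ((g t + g (t + ω)) / 2)) (θ := g t)
          (by rw [ipn_sub, hq'θ, hpc₁ t, sub_self])
        have hδ' := hδ t
        rcases lt_trichotomy μ 0 with h1 | h1 | h1
        · exfalso
          have h2 := hTle _ (hgT ((g t + g (t + ω)) / 2)) x
          have e : gamh h ((g t + g (t + ω)) / 2) = gamh h x -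
            (μ : ℂ) * Complex.exp (g t * Complex.I) := by rw [← hμ]; ring
          rw [e, ipn_sub, hself, ipn_smul, ipn_exp] at h2
          rcases lt_or_gt_of_ne hsin with h3 | h3
          · nlinarith
          · nlinarith
        · rw [h1] at hμ
          simp only [Complex.ofReal_zero, zero_mul] at hμ
          exact sub_eq_zero.1 hμ
        · exfalso
          have h2 := hTle _ (hgT x) ((g t + g (t + ω)) / 2)
          have e : gamh h x = gamh h ((g t + g (t + ω)) / 2) +
            (μ : ℂ) * Complex.exp (g t * Complex.I) := by rw [← hμ]; ring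
          rw [e, ipn_add, hself, ipn_smul, ipn_exp] at h2
          have e2 : (g t + g (t + ω)) / 2 - g t = (g (t + ω) - g t) / 2 := by ring
          rw [e2] at h2
          have h3 : 0 < sin ((g (t + ω) - g t) / 2) :=
            sin_pos_of_pos_of_lt_pi hδ'.1 (by linarith [hδ'.2.1])
          nlinarith
      have href := hrefl (Complex.exp (((g t + g (t + ω)) / 2 : ℝ) * Complex.I))
        (Complex.norm_exp_ofReal_mul_I _) (by
          rw [hb]
          exact (supports_unique hT hS _ _ (Complex.norm_exp_ofReal_mul_I _)).2 (Or.inl rfl))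
      refine ⟨g (t + ω), ‖q'' - gamh h x‖, hn'', ?_, ?_⟩
      · rw [div_eq_iff hn', hnorm, abs_of_pos hposc, hc] at href
        refine href.trans ?_
        have hcC : (c : ℂ) ≠ 0 := by
          rw [Ne, Complex.ofReal_eq_zero]; exact hc0
        have e1 : (c : ℂ) * Complex.exp (g t * Complex.I) / (c : ℂ) =
            Complex.exp (g t * Complex.I) := by
          rw [mul_div_assoc, mul_div_cancel₀]
          exact hcC
        rw [e1, ← Complex.exp_conj, ← Complex.exp_nat_mul]
        have e2 : starRingEnd ℂ ((g t : ℂ) * Complex.I) = -((g t : ℂ) * Complex.I) := by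
          rw [map_mul, Complex.conj_ofReal, Complex.conj_I]; ring
        rw [e2, ← Complex.exp_add]
        have e3 : ((2 : ℕ) : ℂ) * (((g t + g (t + ω)) / 2 : ℝ) * Complex.I) +
            -((g t : ℂ) * Complex.I) = (g (t + ω) : ℂ) * Complex.I := by push_cast; ring
        rw [e3]; ring
      · rw [hb]
        have := hpc₂ (t + ω)
        rw [add_sub_cancel_right] at this
        exact this
  refine ⟨?_, ?_, ?_, ?_, ?_⟩
  · -- compact
    refine Metric.isCompact_of_isClosed_isBounded ?_ ?_
    · have : body p = ⋂ x : ℝ, {z : ℂ | z.re * sin x - z.im * cos x ≤ p x} := by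
        ext z; simp [body]
      rw [this]
      exact isClosed_iInter fun x => isClosed_le
        ((Complex.continuous_re.mul continuous_const).sub
          (Complex.continuous_im.mul continuous_const)) continuous_const
    · refine (Metric.isBounded_closedBall (x := (0 : ℂ)) (r := B₁)).subset fun z hz => ?_
      rw [mem_closedBall_zero_iff]
      have h1 := hz (Complex.arg z + π / 2)
      rw [sin_add_pi_div_two, cos_add_pi_div_two] at h1
      have h2 : ‖z‖ * cos (Complex.arg z) = z.re := Complex.norm_mul_cos_arg z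
      have h3 : ‖z‖ * sin (Complex.arg z) = z.im := Complex.norm_mul_sin_arg z
      have h4 := hph (Complex.arg z + π / 2)
      have h5 := (abs_le.1 (hb₁ (Complex.arg z + π / 2))).2
      rw [← h2, ← h3] at h1
      nlinarith [sin_sq_add_cos_sq (Complex.arg z)]
  · -- convex
    intro z hz w hw a b ha hb hab x
    have h1 := hz x
    have h2 := hw x
    simp only [Complex.add_re, Complex.add_im, Complex.real_smul, Complex.mul_re, Complex.mul_im,
      Complex.ofReal_re, Complex.ofReal_im, zero_mul, sub_zero, add_zero]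
    have h3 : p x = a * p x + b * p x := by rw [← add_mul, hab, one_mul]
    rw [h3]
    nlinarith [mul_le_mul_of_nonneg_left h1 ha, mul_le_mul_of_nonneg_left h2 hb]
  · -- nonempty interior
    refine ⟨z₀, mem_interior.2 ⟨Metric.ball z₀ (m / 2), fun w hw x => ?_, Metric.isOpen_ball,
      Metric.mem_ball_self (by positivity)⟩⟩
    have e : w = z₀ + (w - z₀) := by ring
    have h1 := ip_le_norm (w - z₀) x
    rw [Metric.mem_ball, dist_eq_norm] at hw
    have h2 := hpm x
    have h3 : ipn w x = ipn z₀ x + ipn (w - z₀) x := by rw [← ipn_add, ← e]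
    change ipn w x ≤ p x
    have h4 : ipn (w - z₀) x ≤ ‖w - z₀‖ := h1
    linarith
  · -- inside the table
    intro z hz
    rw [interior_body hT hS]
    exact fun x => (hz x).trans_lt (hph x)
  · intro n path hpath hn hsup i
    induction i with
    | zero => intro _; simpa using hsup
    | succ i ih =>
      intro hi
      obtain ⟨h1, h2, h3⟩ := hpath
      have h4 := h3 (i + 1) (Nat.succ_pos _) hi
      rw [Nat.add_sub_cancel] at h4
      exact hstep (path i) (path (i + 1)) (path (i + 1 + 1)) (h1 i (by omega)) (h2 i (by omega))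
        h4.1 (h2 (i + 1) hi) h4.2 (ih (by omega))

end Pool.Agent.MP_b87ea9_an.Kam
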