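import Mathlib
import Pool.Agent.Lib.MP_b87ea9_an.KG1
import Pool.Agent.Lib.MP_b87ea9_an.KG0
import Pool.Agent.Lib.MP_b87ea9_an.KG3
import Pool.Agent.Lib.MP_b87ea9_an.KG4b
import Pool.Agent.Lib.MP_b87ea9_an.KE8

set_option autoImplicit false

/-! `P(2)` from the analytic part -/

namespace Pool.Agent.MP_b87ea9_an.Kam

theorem everyTable_two : EveryTableHasCaustic 2 := by
  intro T hT hc
  obtain ⟨h, hS⟩ := exists_suppFn hT hc
  obtain ⟨K, c, hK, hh⟩ := table_of_supp hS.smooth hS.per hS.pos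
  obtain ⟨η, hη, hcau⟩ := caustic_of_family hT hS
  obtain ⟨g, ω, p, h1, h2, h3, h4, h5, h6, h7, h8⟩ :=
    family_of_kam hK hS.smooth hh (kam hK hS.smooth hh) η hη
  exact ⟨body p, hcau g ω p h1 h2 h3 h4 h5 h6 h7 h8⟩

end Pool.Agent.MP_b87ea9_an.Kam
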