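import Mathlib
import Pool.Agent.Lib.MP_b87ea9_an.Build

set_option autoImplicit false

/-! No caustic is compatible with the constructed radius of curvature. -/

namespace Pool.Agent.MP_b87ea9_an

open Real MeasureTheory intervalIntegral Filter

theorem no_cau {β : ℝ → ℝ} (hβ : IsBump β) {n₀ : ℕ} (hG : Good β n₀) {g : ℝ → ℝ}
    (hg : Cau (rho β n₀ ((1 / 2) ^ n₀)) g) (h0 : g 0 < (1 / 2) ^ n₀) : False := by
  have hθ : (0 : ℝ) < (1 / 2) ^ n₀ := by positivity
  have htwo := hG.two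
  have hθ1 : (1 / 2 : ℝ) ^ n₀ ≤ 1 / 10 := by
    have h1 := hG.c1 n₀ le_rfl
    have h2 := Ln_le (n := n₀) (by omega)
    linarith
  have h := rho_isRho hβ hG hθ hθ1
  have hg0 := hg.pos 0
  obtain ⟨n, hn1, hn2⟩ := exists_nat_pow_near_of_lt_one hg0 (by linarith : g 0 ≤ 1)
    (by norm_num : (0 : ℝ) < 1 / 2) (by norm_num)
  have hn : n₀ ≤ n := by
    by_contra hcon
    push Not at hcon
    have : (1 / 2 : ℝ) ^ n₀ ≤ (1 / 2) ^ (n + 1) :=
      pow_le_pow_of_le_one (by norm_num) (by norm_num) hcon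
    linarith
  have hn1' : 1 ≤ n := by omega
  have hn0 : (0 : ℝ) < n := by exact_mod_cast hn1'
  have hn2' : (2 : ℝ) ≤ n := by exact_mod_cast htwo.trans hn
  have hpi := pi_gt_three
  have hval : ∀ t ∈ Set.Icc (0 : ℝ) 1, rho β n₀ ((1 / 2) ^ n₀) t = 1 + phi0 β n₀ t := by
    intro t ht
    rw [rho_eq hβ hG hθ hθ1 (by linarith [ht.1]) (by linarith [ht.2]),
      phi_eq hβ hθ hθ1 (by linarith [ht.2])]
  have hLn : 0 < Ln n := by unfold Ln; positivity
  have hinv : 1 / (n : ℝ) ≤ 1 / 2 := one_div_le_one_div_of_le (by norm_num) hn2'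
  have hLlt : Ln n < 1 / (n : ℝ) := by
    unfold Ln
    apply one_div_lt_one_div_of_lt hn0
    nlinarith
  have c2 := hG.c2 n hn
  have hL4 := Ln_le hn1'
  have hKpos : (0 : ℝ) ≤ 5 ^ (n / 20) * (1 / 2) ^ n := by positivity
  refine local_contra h hg hβ (Λ := ∑' k : ℕ, 1 / ((k + n₀ : ℕ) : ℝ) ^ 2) (b := 1 / (n : ℝ))
    (L := Ln n) (σ := (1 / 2) ^ n) (A := 1 / (n : ℝ) ^ 2) (r := n / 20)
    (tsum_nonneg fun k => by positivity) hG.c5 ?_ ?_ (by linarith) (by linarith) (by positivity)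
    (by positivity) ?_ (by linarith) (hG.c1 n hn) c2 (hG.c3 n hn) (hG.c4 n hn) ?_ ?_ hn2
  · intro s hs t ht
    rw [hval s hs, hval t ht, add_sub_add_left_eq_sub]
    exact phi0_lip hβ s t
  · intro t ht
    rw [hval t ht]
    have := (abs_le.mp (phi0_bd hβ hG t)).1
    linarith
  · rw [div_le_one (by positivity)]
    nlinarith
  · intro t ht
    rw [hval t ⟨by linarith [ht.1], by linarith [ht.2]⟩, phi0_local hβ hG hn ht.1 ht.2]
    rfl
  · rw [pow_succ] at hn1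
    linarith

end Pool.Agent.MP_b87ea9_an
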